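import Mathlib

set_option autoImplicit false

/-!
# RFM/P01 (MP_72a26e_co): the files RFX/Geo, RFX/Lst, RFX/Poly, RFX/Ext, RFX/Red, merged to save build time
-/

section

set_option autoImplicit false

/-!
# RFX/Geo : orientation of three points of the plane, hull edges of a finite set (MP_72a26e_co)
-/

namespace Pool.Agent.RFX

abbrev Pt := ℝ × ℝ

/-- twice the signed area of the triangle a b c -/
def orient (a b c : Pt) : ℝ := (b.1 - a.1) * (c.2 - a.2) - (b.2 - a.2) * (c.1 - a.1)

def cross (a b : Pt) : ℝ := a.1 * b.2 - b.1 * a.2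

theorem orient_rot (a b c : Pt) : orient b c a = orient a b c := by
  unfold orient; ring

theorem orient_rot' (a b c : Pt) : orient c a b = orient a b c := by
  unfold orient; ring

theorem orient_swap (a b c : Pt) : orient b a c = - orient a b c := by
  unfold orient; ring

theorem orient_swap' (a b c : Pt) : orient a c b = - orient a b c := by
  unfold orient; ring

theorem orient_self1 (a c : Pt) : orient a a c = 0 := by
  unfold orient; ring

theorem orient_self2 (a b : Pt) : orient a b a = 0 := by
  unfold orient; ring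

theorem orient_self3 (a b : Pt) : orient a b b = 0 := by
  unfold orient; ring

theorem orient_eq_cross (a b c : Pt) : orient a b c = cross a b + cross b c + cross c a := by
  unfold orient cross; ring

theorem cross_swap (a b : Pt) : cross b a = - cross a b := by
  unfold cross; ring

theorem orient_comb3 (a b p q r : Pt) (x y z : ℝ) (h : x + y + z = 1) :
    orient a b (x • p + y • q + z • r) = x * orient a b p + y * orient a b q + z * orient a b r := by
  unfold orient
  simp only [Prod.fst_add, Prod.snd_add, Prod.smul_fst, Prod.smul_snd, smul_eq_mul]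
  have hx : x = 1 - y - z := by linarith
  subst hx
  ring

theorem orient_comb2 (a b p q : Pt) (x y : ℝ) (h : x + y = 1) :
    orient a b (x • p + y • q) = x * orient a b p + y * orient a b q := by
  unfold orient
  simp only [Prod.fst_add, Prod.snd_add, Prod.smul_fst, Prod.smul_snd, smul_eq_mul]
  have hx : x = 1 - y := by linarith
  subst hx
  ring

/-- orient a b is affine: weighted sums -/
theorem orient_sum (a b : Pt) (s : Finset Pt) (w : Pt → ℝ) (hw : ∑ y ∈ s, w y = 1) :
    orient a b (∑ y ∈ s, w y • y) = ∑ y ∈ s, w y * orient a b y := by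
  have h1 : (∑ y ∈ s, w y • y).1 = ∑ y ∈ s, w y * y.1 := by
    rw [Prod.fst_sum]; rfl
  have h2 : (∑ y ∈ s, w y • y).2 = ∑ y ∈ s, w y * y.2 := by
    rw [Prod.snd_sum]; rfl
  unfold orient
  rw [h1, h2]
  have e1 : (∑ y ∈ s, w y * y.2) - a.2 = ∑ y ∈ s, w y * (y.2 - a.2) := by
    simp only [mul_sub, Finset.sum_sub_distrib, ← Finset.sum_mul, hw, one_mul]
  have e2 : (∑ y ∈ s, w y * y.1) - a.1 = ∑ y ∈ s, w y * (y.1 - a.1) := by
    simp only [mul_sub, Finset.sum_sub_distrib, ← Finset.sum_mul, hw, one_mul]
  rw [e1, e2, Finset.mul_sum, Finset.mul_sum, ← Finset.sum_sub_distrib]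
  apply Finset.sum_congr rfl
  intro y _
  ring

/-- nonzero orientation for a set in general position -/
def Gen (P : Finset Pt) : Prop :=
  ∀ a ∈ P, ∀ b ∈ P, ∀ c ∈ P, a ≠ b → a ≠ c → b ≠ c → orient a b c ≠ 0

theorem collinear_of_orient (a b c : Pt) (h : orient a b c = 0) :
    Collinear ℝ ({a, b, c} : Set Pt) := by
  by_cases hab : a = b
  · subst hab
    have : ({a, a, c} : Set Pt) = {a, c} := by
      ext x; simp
    rw [this]
    exact collinear_pair ℝ a c
  · rw [collinear_iff_of_mem (p₀ := a) (by simp)]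
    refine ⟨b - a, ?_⟩
    intro p hp
    simp only [Set.mem_insert_iff, Set.mem_singleton_iff] at hp
    rcases hp with rfl | rfl | rfl
    · exact ⟨0, by simp⟩
    · exact ⟨1, by simp⟩
    · unfold orient at h
      by_cases h1 : b.1 - a.1 = 0
      · have h2 : b.2 - a.2 ≠ 0 := by
          intro h2
          apply hab
          ext
          · linarith
          · linarith
        refine ⟨(p.2 - a.2) / (b.2 - a.2), ?_⟩
        have h3 : p.1 - a.1 = 0 := by
          rw [h1] at h
          have h4 : (b.2 - a.2) * (p.1 - a.1) = 0 := by linarith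
          rcases mul_eq_zero.1 h4 with h5 | h5
          · exact absurd h5 h2
          · exact h5
        ext
        · simp only [vadd_eq_add, Prod.fst_add, Prod.smul_fst, Prod.fst_sub, smul_eq_mul]
          rw [h1]; linarith
        · simp only [vadd_eq_add, Prod.snd_add, Prod.smul_snd, Prod.snd_sub, smul_eq_mul]
          field_simp
          ring
      · refine ⟨(p.1 - a.1) / (b.1 - a.1), ?_⟩
        ext
        · simp only [vadd_eq_add, Prod.fst_add, Prod.smul_fst, Prod.fst_sub, smul_eq_mul]
          field_simp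
          ring
        · simp only [vadd_eq_add, Prod.snd_add, Prod.smul_snd, Prod.snd_sub, smul_eq_mul]
          have h6 : (b.1 - a.1) * (p.2 - a.2) = (b.2 - a.2) * (p.1 - a.1) := by linarith
          have h7 : p.2 - a.2 = (p.1 - a.1) / (b.1 - a.1) * (b.2 - a.2) := by
            rw [div_mul_eq_mul_div, eq_div_iff h1]
            linarith
          linarith

theorem gen_of_not_collinear (P : Finset Pt)
    (h : ∀ a ∈ P, ∀ b ∈ P, ∀ c ∈ P, a ≠ b → a ≠ c → b ≠ c →
      ¬ Collinear ℝ ({a, b, c} : Set (ℝ × ℝ))) : Gen P := by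
  intro a ha b hb c hc hab hac hbc h0
  exact h a ha b hb c hc hab hac hbc (collinear_of_orient a b c h0)

theorem Gen.mono {P Q : Finset Pt} (h : Gen P) (hQ : Q ⊆ P) : Gen Q :=
  fun a ha b hb c hc => h a (hQ ha) b (hQ hb) c (hQ hc)

/-- hull edge, counterclockwise: all other points of t are strictly to the left of a b -/
def HE (t : Finset Pt) (a b : Pt) : Prop :=
  a ∈ t ∧ b ∈ t ∧ a ≠ b ∧ ∀ c ∈ t, c ≠ a → c ≠ b → 0 < orient a b c

theorem HE.nonneg {t : Finset Pt} {a b : Pt} (h : HE t a b) (c : Pt) (hc : c ∈ t) :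
    0 ≤ orient a b c := by
  by_cases h1 : c = a
  · subst h1; rw [orient_self2]
  · by_cases h2 : c = b
    · subst h2; rw [orient_self3]
    · exact (h.2.2.2 c hc h1 h2).le

theorem HE.not_both {t : Finset Pt} {a b : Pt} (h : HE t a b) (h' : HE t b a)
    (ht : 3 ≤ t.card) : False := by
  have h3 : ∃ c ∈ t, c ≠ a ∧ c ≠ b := by
    by_contra hne
    push Not at hne
    have : t ⊆ {a, b} := by
      intro x hx
      simp only [Finset.mem_insert, Finset.mem_singleton]
      by_cases hxa : x = a
      · exact Or.inl hxa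
      · exact Or.inr (hne x hx hxa)
    have h4 := Finset.card_le_card this
    have h5 : ({a, b} : Finset Pt).card ≤ 2 := Finset.card_le_two
    omega
  obtain ⟨c, hc, hca, hcb⟩ := h3
  have h1 := h.2.2.2 c hc hca hcb
  have h2 := h'.2.2.2 c hc hcb hca
  rw [orient_swap] at h2
  linarith

theorem HE.exists_third {t : Finset Pt} (a b : Pt) (ht : 3 ≤ t.card) :
    ∃ c ∈ t, c ≠ a ∧ c ≠ b := by
  by_contra hne
  push Not at hne
  have : t ⊆ {a, b} := by
    intro x hx
    simp only [Finset.mem_insert, Finset.mem_singleton]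
    by_cases hxa : x = a
    · exact Or.inl hxa
    · exact Or.inr (hne x hx hxa)
  have h4 := Finset.card_le_card this
  have h5 : ({a, b} : Finset Pt).card ≤ 2 := Finset.card_le_two
  omega

/-- face property: a point of the hull of s on the line of a hull edge a b of t ⊇ s lies in the
hull of s ∩ {a, b} -/
theorem hull_face {s t : Finset Pt} {a b x : Pt} (h : HE t a b) (hst : s ⊆ t)
    (hx : x ∈ convexHull ℝ (s : Set Pt)) (h0 : orient a b x = 0) :
    x ∈ convexHull ℝ ((s ∩ {a, b} : Finset Pt) : Set Pt) := by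
  rw [Finset.mem_convexHull'] at hx
  obtain ⟨w, hw0, hw1, hwx⟩ := hx
  have h1 : ∑ y ∈ s, w y * orient a b y = 0 := by
    rw [← orient_sum a b s w hw1, hwx, h0]
  have h2 : ∀ y ∈ s, w y * orient a b y = 0 := by
    apply (Finset.sum_eq_zero_iff_of_nonneg _).1 h1
    intro y hy
    exact mul_nonneg (hw0 y hy) (h.nonneg y (hst hy))
  have h3 : ∀ y ∈ s, y ∉ (s ∩ {a, b} : Finset Pt) → w y = 0 := by
    intro y hy hy2
    have hya : y ≠ a ∧ y ≠ b := by
      constructor
      · intro e; apply hy2; subst e; simp [hy]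
      · intro e; apply hy2; subst e; simp [hy]
    have h4 := h.2.2.2 y (hst hy) hya.1 hya.2
    rcases mul_eq_zero.1 (h2 y hy) with h5 | h5
    · exact h5
    · exact absurd h5 h4.ne'
  rw [Finset.mem_convexHull']
  refine ⟨w, ?_, ?_, ?_⟩
  · intro y hy
    exact hw0 y (Finset.mem_inter.1 hy).1
  · rw [← hw1]
    exact Finset.sum_subset Finset.inter_subset_left h3
  · rw [← hwx]
    apply Finset.sum_subset Finset.inter_subset_left
    intro y hy hy2
    rw [h3 y hy hy2, zero_smul]

/-- three points: convex combination criterion -/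
theorem mem_hull3_of_comb (a b c : Pt) (x y z : ℝ) (hx : 0 ≤ x) (hy : 0 ≤ y) (hz : 0 ≤ z)
    (h1 : x + y + z = 1) (s : Set Pt) (ha : a ∈ s) (hb : b ∈ s) (hc : c ∈ s) :
    x • a + y • b + z • c ∈ convexHull ℝ s := by
  have hconv := convex_convexHull ℝ s
  have ha' := subset_convexHull ℝ s ha
  have hb' := subset_convexHull ℝ s hb
  have hc' := subset_convexHull ℝ s hc
  have := hconv.sum_mem (t := (Finset.univ : Finset (Fin 3))) (w := ![x, y, z]) (z := ![a, b, c])
    (by intro i _; fin_cases i <;> simp [hx, hy, hz])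
    (by simp [Fin.sum_univ_three, h1])
    (by intro i _; fin_cases i <;> simp [ha', hb', hc'])
  simpa [Fin.sum_univ_three] using this

/-- a point on the nonnegative side of the three sides of a positive triangle is in its hull -/
theorem mem_hull3 (a b c p : Pt) (h : 0 < orient a b c) (h1 : 0 ≤ orient a b p)
    (h2 : 0 ≤ orient b c p) (h3 : 0 ≤ orient c a p) (s : Set Pt) (ha : a ∈ s) (hb : b ∈ s)
    (hc : c ∈ s) : p ∈ convexHull ℝ s := by
  have hD : orient a b c ≠ 0 := h.ne'
  have hsum : orient b c p + orient c a p + orient a b p = orient a b c := by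
    unfold orient; ring
  have h4 := mem_hull3_of_comb a b c (orient b c p / orient a b c) (orient c a p / orient a b c)
    (orient a b p / orient a b c) (div_nonneg h2 h.le) (div_nonneg h3 h.le)
    (div_nonneg h1 h.le) (by field_simp; linarith) s ha hb hc
  have h5 : (orient b c p / orient a b c) • a + (orient c a p / orient a b c) • b
      + (orient a b p / orient a b c) • c = p := by
    ext
    · simp only [Prod.fst_add, Prod.smul_fst, smul_eq_mul]
      rw [div_mul_eq_mul_div, div_mul_eq_mul_div, div_mul_eq_mul_div, ← add_div, ← add_div,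
        div_eq_iff hD]
      unfold orient; ring
    · simp only [Prod.snd_add, Prod.smul_snd, smul_eq_mul]
      rw [div_mul_eq_mul_div, div_mul_eq_mul_div, div_mul_eq_mul_div, ← add_div, ← add_div,
        div_eq_iff hD]
      unfold orient; ring
  rwa [h5] at h4

theorem orient_nonneg_of_mem_hull (a b p : Pt) (s : Set Pt) (h : ∀ q ∈ s, 0 ≤ orient a b q)
    (hp : p ∈ convexHull ℝ s) : 0 ≤ orient a b p := by
  have hc : Convex ℝ {q : Pt | 0 ≤ orient a b q} := by
    intro x hx y hy u v hu hv huv
    simp only [Set.mem_ofPred_eq] at *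
    rw [orient_comb2 a b x y u v huv]
    positivity
  exact convexHull_min (fun q hq => h q hq) hc hp

theorem orient_nonpos_of_mem_hull (a b p : Pt) (s : Set Pt) (h : ∀ q ∈ s, orient a b q ≤ 0)
    (hp : p ∈ convexHull ℝ s) : orient a b p ≤ 0 := by
  have := orient_nonneg_of_mem_hull b a p s (fun q hq => by
    rw [orient_swap]; linarith [h q hq]) hp
  rw [orient_swap] at this
  linarith

/-- two sets with the same directed hull edge a b overlap on its left side -/
theorem overlap (a b c d : Pt) (hc : 0 < orient a b c) (hd : 0 < orient a b d)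
    (s t : Set Pt) (has : a ∈ s) (hbs : b ∈ s) (hcs : c ∈ s) (hat : a ∈ t) (hbt : b ∈ t)
    (hdt : d ∈ t) :
    ∃ p, p ∈ convexHull ℝ s ∧ p ∈ convexHull ℝ t ∧ 0 < orient a b p := by
  set D := orient a b d with hD
  set X := orient b d c with hX
  set Y := orient d a c with hY
  set M : ℝ := |X| + |Y| + 1 with hM
  have hM0 : 0 < M := by positivity
  set e : ℝ := min (1/2) (D / (4 * M)) with he
  have he0 : 0 < e := by
    apply lt_min (by norm_num)
    positivity
  have he1 : e ≤ 1/2 := min_le_left _ _
  have he2 : e ≤ D / (4 * M) := min_le_right _ _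
  have he3 : e * M ≤ D / 4 := by
    calc e * M ≤ (D / (4 * M)) * M := by
          apply mul_le_mul_of_nonneg_right he2 hM0.le
      _ = D / 4 := by field_simp
  have hXM : |X| ≤ M := by rw [hM]; linarith [abs_nonneg Y]
  have hYM : |Y| ≤ M := by rw [hM]; linarith [abs_nonneg X]
  have heX : -(D/4) ≤ e * X := by
    have h1 : e * |X| ≤ e * M := mul_le_mul_of_nonneg_left hXM he0.le
    have h2 : - (e * |X|) ≤ e * X := by
      rw [← mul_neg]
      exact mul_le_mul_of_nonneg_left (neg_abs_le X) he0.le
    linarith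
  have heY : -(D/4) ≤ e * Y := by
    have h1 : e * |Y| ≤ e * M := mul_le_mul_of_nonneg_left hYM he0.le
    have h2 : - (e * |Y|) ≤ e * Y := by
      rw [← mul_neg]
      exact mul_le_mul_of_nonneg_left (neg_abs_le Y) he0.le
    linarith
  refine ⟨((1 - e)/2) • a + ((1 - e)/2) • b + e • c, ?_, ?_, ?_⟩
  · exact mem_hull3_of_comb a b c _ _ _ (by linarith) (by linarith) he0.le (by ring) s has hbs hcs
  · apply mem_hull3 a b d _ hd _ _ _ t hat hbt hdt
    · rw [orient_comb3 a b a b c _ _ _ (by ring), orient_self2, orient_self3]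
      have := mul_pos he0 hc
      linarith
    · rw [orient_comb3 b d a b c _ _ _ (by ring), orient_self2, orient_rot]
      have h3 : (1 - e)/2 * D ≥ 1/4 * D := by
        apply mul_le_mul_of_nonneg_right _ hd.le
        linarith
      linarith
    · rw [orient_comb3 d a a b c _ _ _ (by ring), orient_self3, orient_rot']
      have h3 : (1 - e)/2 * D ≥ 1/4 * D := by
        apply mul_le_mul_of_nonneg_right _ hd.le
        linarith
      linarith
  · rw [orient_comb3 a b a b c _ _ _ (by ring), orient_self2, orient_self3]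
    have := mul_pos he0 hc
    linarith

end Pool.Agent.RFX

end

section

set_option autoImplicit false

/-!
# RFX/Lst : cyclic lists of points, their edges, ccw lists (MP_72a26e_co)
-/

namespace Pool.Agent.RFX

open List

/-- consecutive pairs -/
def pe : List Pt → List (Pt × Pt)
  | [] => []
  | [_] => []
  | (x :: y :: l) => (x, y) :: pe (y :: l)

theorem pe_append_mid (l : List Pt) (a : Pt) (m : List Pt) :
    pe (l ++ a :: m) = pe (l ++ [a]) ++ pe (a :: m) := by
  induction l with
  | nil => simp [pe]
  | cons x l ih =>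
    cases l with
    | nil => simp [pe]
    | cons y l' =>
      simp only [List.cons_append] at ih ⊢
      simp only [pe, List.cons_append]
      rw [ih]

theorem length_pe (l : List Pt) : (pe l).length = l.length - 1 := by
  induction l with
  | nil => rfl
  | cons x l ih =>
    cases l with
    | nil => rfl
    | cons y l' =>
      simp only [pe, List.length_cons] at ih ⊢
      omega

theorem getElem_pe (l : List Pt) (i : ℕ) (h : i < (pe l).length) :
    (pe l)[i] = (l[i]'(by rw [length_pe] at h; omega), l[i+1]'(by rw [length_pe] at h; omega)) := by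
  induction l generalizing i with
  | nil => simp [pe] at h
  | cons x l ih =>
    cases l with
    | nil => simp [pe] at h
    | cons y l' =>
      cases i with
      | zero => simp [pe]
      | succ j =>
        simp only [pe, List.getElem_cons_succ]
        exact ih j (by simp only [pe, List.length_cons] at h ⊢; omega)

theorem mem_pe_iff (l : List Pt) (a b : Pt) :
    (a, b) ∈ pe l ↔ ∃ l1 l2, l = l1 ++ a :: b :: l2 := by
  induction l with
  | nil => simp [pe]
  | cons x l ih =>
    cases l with
    | nil =>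
      simp only [pe, List.not_mem_nil, false_iff]
      rintro ⟨l1, l2, h⟩
      cases l1 with
      | nil => simp at h
      | cons z l1' => simp at h
    | cons y l' =>
      simp only [pe, List.mem_cons, Prod.mk.injEq]
      constructor
      · rintro (⟨rfl, rfl⟩ | h)
        · exact ⟨[], l', rfl⟩
        · obtain ⟨l1, l2, h2⟩ := ih.1 h
          exact ⟨x :: l1, l2, by rw [h2]; rfl⟩
      · rintro ⟨l1, l2, h⟩
        cases l1 with
        | nil =>
          simp only [List.nil_append, List.cons.injEq] at h
          exact Or.inl ⟨h.1.symm, h.2.1.symm⟩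
        | cons z l1' =>
          simp only [List.cons_append, List.cons.injEq] at h
          exact Or.inr (ih.2 ⟨l1', l2, h.2⟩)

/-- cyclic edges -/
def cyc : List Pt → List (Pt × Pt)
  | [] => []
  | (x :: xs) => pe (x :: xs ++ [x])

theorem cyc_cons (x : Pt) (xs : List Pt) : cyc (x :: xs) = pe (x :: (xs ++ [x])) := rfl

theorem length_cyc (l : List Pt) : (cyc l).length = l.length := by
  cases l with
  | nil => rfl
  | cons x xs => rw [cyc_cons, length_pe]; simp

theorem cyc_append_perm (l1 l2 : List Pt) : (cyc (l1 ++ l2)).Perm (cyc (l2 ++ l1)) := by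
  cases l1 with
  | nil => simp
  | cons x xs =>
    cases l2 with
    | nil => simp
    | cons y ys =>
      simp only [List.cons_append]
      rw [cyc_cons, cyc_cons]
      have h1 : x :: (xs ++ y :: ys ++ [x]) = (x :: xs) ++ y :: (ys ++ [x]) := by simp
      have h2 : y :: (ys ++ x :: xs ++ [y]) = (y :: ys) ++ x :: (xs ++ [y]) := by simp
      rw [h1, h2, pe_append_mid, pe_append_mid (y :: ys)]
      have h3 : x :: xs ++ [y] = x :: (xs ++ [y]) := rfl
      have h4 : y :: ys ++ [x] = y :: (ys ++ [x]) := rfl
      rw [h3, h4]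
      exact List.perm_append_comm

/-- rotate so that the edge (a, b) becomes the closing edge -/
theorem cyc_rot (l : List Pt) (a b : Pt) (hab : a ≠ b) (h : (a, b) ∈ cyc l) :
    ∃ l1 l2, l = l1 ++ l2 ∧ ∃ m, l2 ++ l1 = b :: (m ++ [a]) := by
  cases l with
  | nil => simp [cyc] at h
  | cons x xs =>
    rw [cyc_cons, mem_pe_iff] at h
    obtain ⟨L1, L2, hL⟩ := h
    rcases List.eq_nil_or_concat L2 with h2 | ⟨L2', z, h2⟩
    · subst h2
      have h3 : x :: (xs ++ [x]) = (x :: xs) ++ [x] := rfl
      have h4 : L1 ++ [a, b] = (L1 ++ [a]) ++ [b] := by simp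
      rw [h3, h4] at hL
      have h5 := List.append_inj' hL rfl
      obtain ⟨h6, h7⟩ := h5
      simp only [List.cons.injEq, and_true] at h7
      subst h7
      refine ⟨x :: xs, [], by simp, ?_⟩
      cases L1 with
      | nil =>
        simp only [List.nil_append, List.cons.injEq] at h6
        exact absurd h6.1.symm hab
      | cons y L1' =>
        simp only [List.cons_append, List.cons.injEq] at h6
        refine ⟨L1', ?_⟩
        rw [List.nil_append, h6.2]
    · rw [List.concat_eq_append] at h2
      subst h2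
      have h3 : x :: (xs ++ [x]) = (x :: xs) ++ [x] := rfl
      have h4 : L1 ++ a :: b :: (L2' ++ [z]) = (L1 ++ a :: b :: L2') ++ [z] := by simp
      rw [h3, h4] at hL
      have h5 := List.append_inj' hL rfl
      obtain ⟨h6, h7⟩ := h5
      refine ⟨L1 ++ [a], b :: L2', by rw [h6]; simp, ?_⟩
      exact ⟨L2' ++ L1, by simp⟩

theorem mem_cyc_of_mem (l : List Pt) (a : Pt) (h : a ∈ l) : ∃ b, (a, b) ∈ cyc l := by
  cases l with
  | nil => simp at h
  | cons x xs =>
    obtain ⟨s, t, hst⟩ := List.append_of_mem h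
    rw [cyc_cons]
    cases t with
    | nil =>
      refine ⟨x, ?_⟩
      rw [mem_pe_iff]
      refine ⟨s, [], ?_⟩
      have : x :: (xs ++ [x]) = (x :: xs) ++ [x] := rfl
      rw [this, hst]; simp
    | cons y t' =>
      refine ⟨y, ?_⟩
      rw [mem_pe_iff]
      refine ⟨s, t' ++ [x], ?_⟩
      have : x :: (xs ++ [x]) = (x :: xs) ++ [x] := rfl
      rw [this, hst]; simp

theorem mem_of_mem_pe (l : List Pt) (a b : Pt) (h : (a, b) ∈ pe l) : a ∈ l ∧ b ∈ l := by
  rw [mem_pe_iff] at h
  obtain ⟨l1, l2, rfl⟩ := h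
  simp

theorem mem_of_mem_cyc (l : List Pt) (a b : Pt) (h : (a, b) ∈ cyc l) : a ∈ l ∧ b ∈ l := by
  cases l with
  | nil => simp [cyc] at h
  | cons x xs =>
    rw [cyc_cons] at h
    have := mem_of_mem_pe _ _ _ h
    simp only [List.mem_cons, List.mem_append, List.not_mem_nil, or_false] at this ⊢
    tauto

theorem ne_of_mem_cyc (l : List Pt) (hl : l.Nodup) (h2 : 2 ≤ l.length) (a b : Pt)
    (h : (a, b) ∈ cyc l) : a ≠ b := by
  rintro rfl
  cases l with
  | nil => simp [cyc] at h
  | cons x xs =>
    rw [cyc_cons, mem_pe_iff] at h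
    obtain ⟨L1, L2, hL⟩ := h
    rcases List.eq_nil_or_concat L2 with h3 | ⟨L2', z, h3⟩
    · subst h3
      have h3 : x :: (xs ++ [x]) = (x :: xs) ++ [x] := rfl
      have h4 : L1 ++ [a, a] = (L1 ++ [a]) ++ [a] := by simp
      rw [h3, h4] at hL
      have h5 := List.append_inj' hL rfl
      obtain ⟨h6, h7⟩ := h5
      simp only [List.cons.injEq, and_true] at h7
      subst h7
      cases L1 with
      | nil =>
        simp only [List.nil_append, List.cons.injEq] at h6
        rw [h6.2] at h2
        simp at h2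
      | cons y L1' =>
        simp only [List.cons_append, List.cons.injEq] at h6
        rw [h6.2] at hl
        simp at hl
    · rw [List.concat_eq_append] at h3
      subst h3
      have h3 : x :: (xs ++ [x]) = (x :: xs) ++ [x] := rfl
      have h4 : L1 ++ a :: a :: (L2' ++ [z]) = (L1 ++ a :: a :: L2') ++ [z] := by simp
      rw [h3, h4] at hL
      have h5 := List.append_inj' hL rfl
      rw [h5.1] at hl
      have h6 := (List.nodup_append.1 hl).2.1
      simp at h6

/-- all increasing triples are counterclockwise -/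
def CCW (l : List Pt) : Prop := ∀ a b c, [a, b, c].Sublist l → 0 < orient a b c

theorem CCW.sublist {l m : List Pt} (h : CCW m) (hl : l.Sublist m) : CCW l :=
  fun a b c habc => h a b c (habc.trans hl)

theorem CCW.rot1 {x : Pt} {xs : List Pt} (h : CCW (x :: xs)) : CCW (xs ++ [x]) := by
  intro a b c habc
  rw [List.sublist_append_iff] at habc
  obtain ⟨l1, l2, h1, h2, h3⟩ := habc
  rcases List.sublist_cons_iff.1 h3 with h4 | ⟨r, h4, h5⟩
  · have h6 : l2 = [] := List.eq_nil_of_sublist_nil h4
    subst h6
    rw [List.append_nil] at h1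
    rw [← h1] at h2
    exact h a b c (h2.trans (List.sublist_cons_self x xs))
  · have h6 : r = [] := List.eq_nil_of_sublist_nil h5
    subst h6
    subst h4
    have h7 : [a, b, c] = [a, b] ++ [c] := rfl
    rw [h7] at h1
    have h8 := List.append_inj' h1 rfl
    obtain ⟨h9, h10⟩ := h8
    simp only [List.cons.injEq, and_true] at h10
    subst h10
    rw [← h9] at h2
    have h11 := h c a b (h2.cons_cons c)
    rw [orient_rot'] at h11
    exact h11

theorem CCW.rot {l1 l2 : List Pt} (h : CCW (l1 ++ l2)) : CCW (l2 ++ l1) := by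
  induction l1 generalizing l2 with
  | nil => simpa using h
  | cons x xs ih =>
    have h1 : CCW (xs ++ (l2 ++ [x])) := by
      have := CCW.rot1 (x := x) (xs := xs ++ l2) h
      rw [List.append_assoc] at this
      exact this
    have h2 := ih h1
    have h3 : l2 ++ x :: xs = l2 ++ [x] ++ xs := by simp
    rw [h3]; exact h2

/-- edges of a ccw list are hull edges -/
theorem CCW.he_of_mem_cyc {l : List Pt} (h : CCW l) (hn : l.Nodup) (h2 : 2 ≤ l.length) (a b : Pt)
    (hab : (a, b) ∈ cyc l) : HE l.toFinset a b := by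
  have hne := ne_of_mem_cyc l hn h2 a b hab
  have hm := mem_of_mem_cyc l a b hab
  obtain ⟨l1, l2, hl, m, hm2⟩ := cyc_rot l a b hne hab
  subst hl
  have h3 := h.rot
  rw [hm2] at h3
  refine ⟨by simpa using hm.1, by simpa using hm.2, hne, ?_⟩
  intro c hc hca hcb
  have hc2 : c ∈ l2 ++ l1 := by
    simp only [List.mem_toFinset, List.mem_append] at hc ⊢
    tauto
  rw [hm2] at hc2
  have hc3 : c ∈ m := by
    simp only [List.mem_cons, List.mem_append, List.not_mem_nil, or_false] at hc2
    tauto
  have h4 : [b, c, a].Sublist (b :: (m ++ [a])) := by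
    apply List.Sublist.cons_cons
    exact List.Sublist.append (List.singleton_sublist.2 hc3) (List.Sublist.refl [a])
  have h5 := h3 b c a h4
  rw [orient_rot] at h5
  exact h5

theorem CCW.mem_cyc_iff {l : List Pt} (h : CCW l) (hn : l.Nodup) (h3 : 3 ≤ l.length) (a b : Pt) :
    (a, b) ∈ cyc l ↔ HE l.toFinset a b := by
  constructor
  · exact h.he_of_mem_cyc hn (by omega) a b
  · intro hab
    have ha : a ∈ l := by simpa using hab.1
    have hb : b ∈ l := by simpa using hab.2.1
    obtain ⟨b', hb'⟩ := mem_cyc_of_mem l a ha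
    by_cases hbb : b = b'
    · subst hbb; exact hb'
    · exfalso
      have h4 := h.he_of_mem_cyc hn (by omega) a b' hb'
      have h5 := h4.2.2.2 b (by simpa using hb) hab.2.2.1.symm hbb
      have h6 := hab.2.2.2 b' h4.2.1 h4.2.2.1.symm (fun e => hbb e.symm)
      rw [orient_swap'] at h6
      linarith

/-- convex position (in counterclockwise order) -/
def CP (t : Finset Pt) : Prop := ∃ l : List Pt, l.Nodup ∧ l.toFinset = t ∧ CCW l

theorem CP.mono {s t : Finset Pt} (h : CP t) (hst : s ⊆ t) : CP s := by
  classical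
  obtain ⟨l, h1, h2, h3⟩ := h
  refine ⟨l.filter (fun x => decide (x ∈ s)), h1.filter _, ?_, h3.sublist List.filter_sublist⟩
  ext x
  simp only [List.mem_toFinset, List.mem_filter, decide_eq_true_eq]
  constructor
  · exact fun h => h.2
  · intro hx
    refine ⟨?_, hx⟩
    have := hst hx
    rw [← h2] at this
    simpa using this

theorem CP.length {t : Finset Pt} {l : List Pt} (h1 : l.Nodup) (h2 : l.toFinset = t) :
    l.length = t.card := by
  rw [← h2, List.toFinset_card_of_nodup h1]

/-- sum of the cross products over the cyclic edges -/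
def area (l : List (Pt × Pt)) : ℝ := (l.map (fun e => cross e.1 e.2)).sum

theorem area_append (l m : List (Pt × Pt)) : area (l ++ m) = area l + area m := by
  simp [area]

theorem area_perm {l m : List (Pt × Pt)} (h : l.Perm m) : area l = area m := by
  unfold area
  exact (h.map _).sum_eq

theorem area_pe_orient (p : Pt) (a : Pt) (l : List Pt) (b : Pt) :
    area (pe (a :: (l ++ [b]))) = ((pe (a :: (l ++ [b]))).map (fun e => orient p e.1 e.2)).sum
      - cross p a - cross b p := by
  induction l generalizing a with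
  | nil => simp [pe, area, orient_eq_cross]; ring
  | cons x l ih =>
    have h1 : a :: (x :: l ++ [b]) = a :: x :: (l ++ [b]) := rfl
    rw [h1]
    have h2 : pe (a :: x :: (l ++ [b])) = (a, x) :: pe (x :: (l ++ [b])) := rfl
    rw [h2]
    have h3 := ih x
    unfold area at h3 ⊢
    rw [List.map_cons, List.sum_cons, h3, List.map_cons, List.sum_cons, orient_eq_cross p a x,
      cross_swap p x]
    simp only []
    ring

/-- area of a ccw list is positive -/
theorem CCW.area_pos {l : List Pt} (h : CCW l) (hn : l.Nodup) (h3 : 3 ≤ l.length) :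
    0 < area (cyc l) := by
  match l, h3 with
  | x :: y :: z :: l', _ =>
    rw [cyc_cons]
    have e1 : x :: (y :: z :: l' ++ [x]) = x :: ((y :: z :: l') ++ [x]) := rfl
    rw [e1, area_pe_orient x x (y :: z :: l') x]
    have e2 : cross x x = 0 := by unfold cross; ring
    rw [e2]
    have e3 : x :: (y :: z :: l' ++ [x]) = x :: y :: z :: (l' ++ [x]) := rfl
    rw [e3]
    have e4 : pe (x :: y :: z :: (l' ++ [x])) = (x, y) :: (y, z) :: pe (z :: (l' ++ [x])) := rfl
    rw [e4, List.map_cons, List.map_cons, List.sum_cons, List.sum_cons]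
    simp only [orient_self1]
    have h4 : 0 < orient x y z := h x y z (by simp)
    have h5 : 0 ≤ ((pe (z :: (l' ++ [x]))).map (fun e => orient x e.1 e.2)).sum := by
      apply List.sum_nonneg
      intro r hr
      rw [List.mem_map] at hr
      obtain ⟨⟨p, q⟩, hpq, rfl⟩ := hr
      simp only []
      have hpq2 : (p, q) ∈ cyc (x :: y :: z :: l') := by
        rw [cyc_cons]
        have : pe (x :: (y :: z :: l' ++ [x])) = (x, y) :: (y, z) :: pe (z :: (l' ++ [x])) := rfl
        rw [this]
        simp [hpq]
      have h6 := h.he_of_mem_cyc hn (by simp) p q hpq2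
      have h7 := h6.nonneg x (by simp)
      rw [orient_rot] at h7
      exact h7
    linarith

end Pool.Agent.RFX

end

section

set_option autoImplicit false

/-!
# RFX/Poly : the POLYGON THEOREM for complexes of convex cells (MP_72a26e_co)

A complex of convex cells with connected dual graph and with exactly 2 + sum (|t| - 2) vertices
is bounded by one cyclic list through all its vertices.
-/

namespace Pool.Agent.RFX

open List

/-- vertex set of a family of cells -/
noncomputable def V (T : Finset (Finset Pt)) : Finset Pt := T.biUnion id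

/-- complex of convex cells -/
structure Cx (T : Finset (Finset Pt)) : Prop where
  cp : ∀ t ∈ T, CP t
  three : ∀ t ∈ T, 3 ≤ t.card
  inter : ∀ s ∈ T, ∀ t ∈ T, s ≠ t →
    convexHull ℝ (s : Set Pt) ∩ convexHull ℝ (t : Set Pt) ⊆
      convexHull ℝ ((s ∩ t : Finset Pt) : Set Pt)
  two : ∀ s ∈ T, ∀ t ∈ T, s ≠ t → (s ∩ t).card ≤ 2

/-- two cells share the side a b -/
def Adj (s t : Finset Pt) : Prop := ∃ a b, HE s a b ∧ HE t b a

/-- connectedness of the dual graph -/
def Conn (T : Finset (Finset Pt)) : Prop :=
  ∀ S ⊆ T, S.Nonempty → S ≠ T → ∃ s ∈ S, ∃ t ∈ T, t ∉ S ∧ Adj s t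

theorem mem_V (T : Finset (Finset Pt)) (x : Pt) : x ∈ V T ↔ ∃ t ∈ T, x ∈ t := by
  simp [V]

theorem V_insert (t : Finset Pt) (S : Finset (Finset Pt)) : V (insert t S) = t ∪ V S := by
  classical
  unfold V
  rw [Finset.biUnion_insert]; rfl

theorem Cx.mono {S T : Finset (Finset Pt)} (h : Cx T) (hS : S ⊆ T) : Cx S :=
  ⟨fun t ht => h.cp t (hS ht), fun t ht => h.three t (hS ht),
    fun s hs t ht => h.inter s (hS hs) t (hS ht), fun s hs t ht => h.two s (hS hs) t (hS ht)⟩

/-- two different cells have no common directed side -/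
theorem Cx.side_unique {T : Finset (Finset Pt)} (h : Cx T) {s t : Finset Pt} (hs : s ∈ T)
    (ht : t ∈ T) {a b : Pt} (h1 : HE s a b) (h2 : HE t a b) : s = t := by
  by_contra hne
  obtain ⟨c, hc, hca, hcb⟩ := HE.exists_third (t := s) a b (h.three s hs)
  obtain ⟨d, hd, hda, hdb⟩ := HE.exists_third (t := t) a b (h.three t ht)
  have hc' := h1.2.2.2 c hc hca hcb
  have hd' := h2.2.2.2 d hd hda hdb
  obtain ⟨p, hp1, hp2, hp3⟩ := overlap a b c d hc' hd' (s : Set Pt) (t : Set Pt) h1.1 h1.2.1 hc
    h2.1 h2.2.1 hd
  have hp4 := h.inter s hs t ht hne ⟨hp1, hp2⟩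
  have hsub : (s ∩ t : Finset Pt) ⊆ {a, b} := by
    have hab : ({a, b} : Finset Pt) ⊆ s ∩ t := by
      intro x hx
      simp only [Finset.mem_insert, Finset.mem_singleton] at hx
      rcases hx with rfl | rfl
      · exact Finset.mem_inter.2 ⟨h1.1, h2.1⟩
      · exact Finset.mem_inter.2 ⟨h1.2.1, h2.2.1⟩
    have h5 : ({a, b} : Finset Pt).card = 2 := Finset.card_pair h1.2.2.1
    have h6 : ({a, b} : Finset Pt) = s ∩ t := by
      apply Finset.eq_of_subset_of_card_le hab
      rw [h5]; exact h.two s hs t ht hne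
    rw [← h6]
  have hp5 : orient a b p ≤ 0 := by
    apply orient_nonpos_of_mem_hull a b p _ _ hp4
    intro q hq
    have hq2 := hsub (Finset.mem_coe.1 hq)
    simp only [Finset.mem_insert, Finset.mem_singleton] at hq2
    rcases hq2 with rfl | rfl
    · rw [orient_self2]
    · rw [orient_self3]
  linarith

/-- invariant of the growth process -/
def Inv (S : Finset (Finset Pt)) (l : List Pt) : Prop :=
  l.Nodup ∧ l.toFinset = V S ∧
    (∀ a b, (a, b) ∈ cyc l ↔ ((∃ t ∈ S, HE t a b) ∧ ¬ ∃ t ∈ S, HE t b a)) ∧
    0 < area (cyc l)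

theorem Inv_single (t : Finset Pt) (h : CP t) (h3 : 3 ≤ t.card) : ∃ l, Inv {t} l := by
  obtain ⟨l, h1, h2, h4⟩ := h
  have hlen : l.length = t.card := CP.length h1 h2
  refine ⟨l, h1, ?_, ?_, ?_⟩
  · rw [h2]; simp [V]
  · intro a b
    rw [h4.mem_cyc_iff h1 (by omega), h2]
    constructor
    · intro h
      refine ⟨⟨t, by simp, h⟩, ?_⟩
      rintro ⟨s, hs, hs2⟩
      rw [Finset.mem_singleton] at hs
      subst hs
      exact h.not_both hs2 h3
    · rintro ⟨⟨s, hs, hs2⟩, _⟩
      rw [Finset.mem_singleton] at hs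
      subst hs
      exact hs2
  · exact h4.area_pos h1 (by omega)

theorem Inv_step (S : Finset (Finset Pt)) (t : Finset Pt) (ht : t ∉ S) (hC : Cx (insert t S))
    (l : List Pt) (hl : Inv S l) (s : Finset Pt) (hs : s ∈ S) (a b : Pt) (h1 : HE s a b)
    (h2 : HE t b a) (h3 : V S ∩ t = {a, b}) : ∃ l', Inv (insert t S) l' := by
  classical
  obtain ⟨i1, i2, i3, i4⟩ := hl
  have hab : a ≠ b := h1.2.2.1
  have htT : t ∈ insert t S := Finset.mem_insert_self t S
  have hnoba : ¬ ∃ u ∈ S, HE u b a := by
    rintro ⟨u, hu, hu2⟩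
    have := hC.side_unique (Finset.mem_insert_of_mem hu) htT hu2 h2
    exact ht (this ▸ hu)
  have habc : (a, b) ∈ cyc l := (i3 a b).2 ⟨⟨s, hs, h1⟩, hnoba⟩
  obtain ⟨l1, l2, hl12, m, hm⟩ := cyc_rot l a b hab habc
  subst hl12
  have pL : (cyc (l1 ++ l2)).Perm (cyc (b :: (m ++ [a]))) := by
    rw [← hm]; exact cyc_append_perm l1 l2
  have pl : (l1 ++ l2).Perm (b :: (m ++ [a])) := by
    rw [← hm]; exact List.perm_append_comm
  have nL : (b :: (m ++ [a])).Nodup := pl.nodup_iff.1 i1
  have memL : ∀ x, x ∈ b :: (m ++ [a]) ↔ x ∈ V S := by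
    intro x
    rw [← pl.mem_iff, ← i2, List.mem_toFinset]
  obtain ⟨k, k1, k2, k3⟩ := hC.cp t htT
  have h3t : 3 ≤ t.card := hC.three t htT
  have hklen : k.length = t.card := CP.length k1 k2
  have hbak : (b, a) ∈ cyc k := by
    rw [k3.mem_cyc_iff k1 (by omega), k2]; exact h2
  obtain ⟨k4, k5, hk45, zs, hzs⟩ := cyc_rot k b a hab.symm hbak
  subst hk45
  have pK : (cyc (k4 ++ k5)).Perm (cyc (a :: (zs ++ [b]))) := by
    rw [← hzs]; exact cyc_append_perm k4 k5
  have pk : (k4 ++ k5).Perm (a :: (zs ++ [b])) := by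
    rw [← hzs]; exact List.perm_append_comm
  have nK : (a :: (zs ++ [b])).Nodup := pk.nodup_iff.1 k1
  have memK : ∀ x, x ∈ a :: (zs ++ [b]) ↔ x ∈ t := by
    intro x
    rw [← pk.mem_iff, ← k2, List.mem_toFinset]
  have cK : CCW (a :: (zs ++ [b])) := by
    rw [← hzs]; exact k3.rot
  have cycKmem : ∀ x y, (x, y) ∈ cyc (a :: (zs ++ [b])) ↔ HE t x y := by
    intro x y
    rw [← pK.mem_iff, k3.mem_cyc_iff k1 (by omega), k2]
  have eK : cyc (a :: (zs ++ [b])) = pe (a :: (zs ++ [b])) ++ [(b, a)] := by
    rw [cyc_cons]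
    have e1 : a :: (zs ++ [b] ++ [a]) = (a :: zs) ++ b :: [a] := by simp
    rw [e1, pe_append_mid]
    rfl
  have eL : cyc (b :: (m ++ [a])) = pe (b :: (m ++ [a])) ++ [(a, b)] := by
    rw [cyc_cons]
    have e1 : b :: (m ++ [a] ++ [b]) = (b :: m) ++ a :: [b] := by simp
    rw [e1, pe_append_mid]
    rfl
  have eL' : cyc (b :: (m ++ a :: zs)) = pe (b :: (m ++ [a])) ++ pe (a :: (zs ++ [b])) := by
    rw [cyc_cons]
    have e1 : b :: (m ++ a :: zs ++ [b]) = (b :: m) ++ a :: (zs ++ [b]) := by simp
    rw [e1, pe_append_mid]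
    rfl
  have hzsV : ∀ z ∈ zs, z ∈ t ∧ z ∉ V S ∧ z ≠ a ∧ z ≠ b := by
    intro z hz
    have hzt : z ∈ t := (memK z).1 (by simp [hz])
    have hza : z ≠ a := by
      rintro rfl
      simp [hz] at nK
    have hzb : z ≠ b := by
      rintro rfl
      rw [List.nodup_cons, List.nodup_append] at nK
      exact nK.2.2.2 z hz z (by simp) rfl
    refine ⟨hzt, ?_, hza, hzb⟩
    intro hzV
    have : z ∈ V S ∩ t := Finset.mem_inter.2 ⟨hzV, hzt⟩
    rw [h3] at this
    simp only [Finset.mem_insert, Finset.mem_singleton] at this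
    tauto
  have hzsne : zs ≠ [] := by
    rintro rfl
    have : (k4 ++ k5).length = 2 := by rw [pk.length_eq]; simp
    omega
  have nL' : (b :: (m ++ a :: zs)).Nodup := by
    have e1 : b :: (m ++ a :: zs) = (b :: (m ++ [a])) ++ zs := by simp
    rw [e1, List.nodup_append]
    refine ⟨nL, ?_, ?_⟩
    · rw [List.nodup_cons, List.nodup_append] at nK
      exact nK.2.1
    · intro x hx y hy hxy
      subst hxy
      exact (hzsV x hy).2.1 ((memL x).1 hx)
  have aS : a ∈ V S := (mem_V S a).2 ⟨s, hs, h1.1⟩
  have bS : b ∈ V S := (mem_V S b).2 ⟨s, hs, h1.2.1⟩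
  -- pairs in the new path
  have pathmem : ∀ x y, (x, y) ∈ pe (a :: (zs ++ [b])) ↔ (HE t x y ∧ (x, y) ≠ (b, a)) := by
    intro x y
    have h5 := cycKmem x y
    rw [eK, List.mem_append, List.mem_singleton] at h5
    constructor
    · intro h6
      refine ⟨h5.1 (Or.inl h6), ?_⟩
      intro h7
      rw [h7] at h6
      -- b is the last element
      rw [mem_pe_iff] at h6
      obtain ⟨q1, q2, hq⟩ := h6
      -- (b, a) in a :: zs ++ [b] : b = q-th element followed by a
      have hn := nK
      rw [hq] at hn
      cases q1 with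
      | nil =>
        simp only [List.nil_append, List.cons.injEq] at hq
        exact hab hq.1
      | cons w q1' =>
        simp only [List.cons_append, List.cons.injEq] at hq
        rw [← hq.1] at hn
        simp at hn
    · rintro ⟨h6, h7⟩
      rcases h5.2 h6 with h8 | h8
      · exact h8
      · exact absurd h8 h7
  have oldmem : ∀ x y, (x, y) ∈ pe (b :: (m ++ [a])) ↔
      (((∃ t ∈ S, HE t x y) ∧ ¬ ∃ t ∈ S, HE t y x) ∧ (x, y) ≠ (a, b)) := by
    intro x y
    have h5 := i3 x y
    rw [pL.mem_iff, eL, List.mem_append, List.mem_singleton] at h5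
    constructor
    · intro h6
      refine ⟨h5.1 (Or.inl h6), ?_⟩
      intro h7
      rw [h7] at h6
      rw [mem_pe_iff] at h6
      obtain ⟨q1, q2, hq⟩ := h6
      have hn := nL
      rw [hq] at hn
      cases q1 with
      | nil =>
        simp only [List.nil_append, List.cons.injEq] at hq
        exact hab hq.1.symm
      | cons w q1' =>
        simp only [List.cons_append, List.cons.injEq] at hq
        rw [← hq.1] at hn
        simp at hn
    · rintro ⟨h6, h7⟩
      rcases h5.2 h6 with h8 | h8
      · exact h8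
      · exact absurd h8 h7
  refine ⟨b :: (m ++ a :: zs), nL', ?_, ?_, ?_⟩
  · ext x
    rw [V_insert, List.mem_toFinset, Finset.mem_union]
    have h5 := memL x
    have h6 := memK x
    simp only [List.mem_cons, List.mem_append, List.not_mem_nil, or_false] at h5 h6 ⊢
    constructor
    · rintro (h | h | h | h)
      · exact Or.inr (h5.1 (Or.inl h))
      · exact Or.inr (h5.1 (Or.inr (Or.inl h)))
      · exact Or.inr (h5.1 (Or.inr (Or.inr h)))
      · exact Or.inl (h6.1 (Or.inr (Or.inl h)))
    · rintro (h | h)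
      · rcases h6.2 h with h7 | h7 | h7
        · exact Or.inr (Or.inr (Or.inl h7))
        · exact Or.inr (Or.inr (Or.inr h7))
        · exact Or.inl h7
      · rcases h5.2 h with h7 | h7 | h7
        · exact Or.inl h7
        · exact Or.inr (Or.inl h7)
        · exact Or.inr (Or.inr (Or.inl h7))
  · intro x y
    rw [eL', List.mem_append, pathmem, oldmem]
    constructor
    · rintro (⟨⟨⟨u, hu, hu2⟩, h6⟩, h7⟩ | ⟨h6, h7⟩)
      · refine ⟨⟨u, Finset.mem_insert_of_mem hu, hu2⟩, ?_⟩
        rintro ⟨w, hw, hw2⟩
        rw [Finset.mem_insert] at hw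
        rcases hw with rfl | hw
        · -- HE t y x with x, y in V S
          have hx : x ∈ V S ∩ w := Finset.mem_inter.2 ⟨(mem_V S x).2 ⟨u, hu, hu2.1⟩, hw2.2.1⟩
          have hy : y ∈ V S ∩ w := Finset.mem_inter.2 ⟨(mem_V S y).2 ⟨u, hu, hu2.2.1⟩, hw2.1⟩
          rw [h3] at hx hy
          simp only [Finset.mem_insert, Finset.mem_singleton] at hx hy
          rcases hx with rfl | rfl
          · rcases hy with rfl | rfl
            · exact hw2.2.2.1 rfl
            · exact h7 rfl
          · rcases hy with rfl | rfl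
            · exact h2.not_both hw2 h3t
            · exact hw2.2.2.1 rfl
        · exact h6 ⟨w, hw, hw2⟩
      · refine ⟨⟨t, htT, h6⟩, ?_⟩
        rintro ⟨w, hw, hw2⟩
        rw [Finset.mem_insert] at hw
        rcases hw with rfl | hw
        · exact h6.not_both hw2 h3t
        · have hx : x ∈ V S ∩ t := Finset.mem_inter.2 ⟨(mem_V S x).2 ⟨w, hw, hw2.2.1⟩, h6.1⟩
          have hy : y ∈ V S ∩ t := Finset.mem_inter.2 ⟨(mem_V S y).2 ⟨w, hw, hw2.1⟩, h6.2.1⟩
          rw [h3] at hx hy
          simp only [Finset.mem_insert, Finset.mem_singleton] at hx hy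
          rcases hx with rfl | rfl
          · rcases hy with rfl | rfl
            · exact hw2.2.2.1 rfl
            · exact h2.not_both h6 h3t
          · rcases hy with rfl | rfl
            · exact h7 rfl
            · exact hw2.2.2.1 rfl
    · rintro ⟨⟨u, hu, hu2⟩, h6⟩
      rw [Finset.mem_insert] at hu
      rcases hu with rfl | hu
      · right
        refine ⟨hu2, ?_⟩
        intro h7
        rw [Prod.mk.injEq] at h7
        obtain ⟨rfl, rfl⟩ := h7
        exact h6 ⟨s, Finset.mem_insert_of_mem hs, h1⟩
      · left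
        refine ⟨⟨⟨u, hu, hu2⟩, ?_⟩, ?_⟩
        · rintro ⟨w, hw, hw2⟩
          exact h6 ⟨w, Finset.mem_insert_of_mem hw, hw2⟩
        · intro h7
          rw [Prod.mk.injEq] at h7
          obtain ⟨rfl, rfl⟩ := h7
          exact h6 ⟨t, htT, h2⟩
  · have a1 : area (cyc (b :: (m ++ [a]))) = area (cyc (l1 ++ l2)) := (area_perm pL).symm
    have a2 : 0 < area (cyc (a :: (zs ++ [b]))) := by
      apply cK.area_pos nK
      have := pk.length_eq
      omega
    rw [eL, area_append] at a1
    rw [eK, area_append] at a2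
    rw [eL', area_append]
    have a3 : area [(a, b)] = cross a b := by simp [area]
    have a4 : area [(b, a)] = cross b a := by simp [area]
    rw [a3] at a1
    rw [a4, cross_swap] at a2
    linarith

/-- upper bound for the number of vertices of a connected family -/
theorem card_V_le (T : Finset (Finset Pt)) (hC : Cx T) (hconn : Conn T) :
    ∀ (n : ℕ) (S : Finset (Finset Pt)), S ⊆ T → S.Nonempty → (T \ S).card = n →
      (V T).card ≤ (V S).card + ∑ t ∈ T \ S, (t.card - 2) := by
  classical
  intro n
  induction n with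
  | zero =>
    intro S hS hne hn
    have : T ⊆ S := by
      rw [Finset.card_eq_zero, Finset.sdiff_eq_empty_iff_subset] at hn
      exact hn
    have hST : S = T := Finset.Subset.antisymm hS this
    subst hST
    simp
  | succ n ih =>
    intro S hS hne hn
    have hST : S ≠ T := by
      rintro rfl
      simp at hn
    obtain ⟨s, hs, t, ht, htS, a, b, h1, h2⟩ := hconn S hS hne hST
    have hsub : insert t S ⊆ T := Finset.insert_subset ht hS
    have hsd : T \ S = insert t (T \ insert t S) := by
      ext x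
      simp only [Finset.mem_sdiff, Finset.mem_insert, not_or]
      constructor
      · rintro ⟨hx1, hx2⟩
        by_cases hxt : x = t
        · exact Or.inl hxt
        · exact Or.inr ⟨hx1, hxt, hx2⟩
      · rintro (rfl | ⟨hx1, _, hx2⟩)
        · exact ⟨ht, htS⟩
        · exact ⟨hx1, hx2⟩
    have hnot : t ∉ T \ insert t S := by simp
    have hcard : (T \ insert t S).card = n := by
      rw [hsd, Finset.card_insert_of_notMem hnot] at hn
      omega
    have h4 := ih (insert t S) hsub (Finset.insert_nonempty t S) hcard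
    rw [hsd, Finset.sum_insert hnot]
    have h5 : (V (insert t S)).card + 2 ≤ (V S).card + t.card := by
      rw [V_insert]
      have h6 := Finset.card_union_add_card_inter t (V S)
      have h7 : 2 ≤ (t ∩ V S).card := by
        have h8 : ({a, b} : Finset Pt) ⊆ t ∩ V S := by
          intro x hx
          simp only [Finset.mem_insert, Finset.mem_singleton] at hx
          rcases hx with rfl | rfl
          · exact Finset.mem_inter.2 ⟨h2.2.1, (mem_V S x).2 ⟨s, hs, h1.1⟩⟩
          · exact Finset.mem_inter.2 ⟨h2.1, (mem_V S x).2 ⟨s, hs, h1.2.1⟩⟩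
        have h9 := Finset.card_le_card h8
        rw [Finset.card_pair h1.2.2.1] at h9
        exact h9
      omega
    have h6 : 3 ≤ t.card := hC.three t ht
    omega

theorem polygon_aux (T : Finset (Finset Pt)) (hC : Cx T) (hconn : Conn T)
    (hcount : ∑ t ∈ T, (t.card - 2) + 2 = (V T).card) :
    ∀ (n : ℕ) (S : Finset (Finset Pt)), S ⊆ T → S.Nonempty → (T \ S).card = n →
      ∑ t ∈ S, (t.card - 2) + 2 = (V S).card → (∃ l, Inv S l) → ∃ l, Inv T l := by
  classical
  intro n
  induction n with
  | zero =>
    intro S hS hne hn _ h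
    have : T ⊆ S := by
      rw [Finset.card_eq_zero, Finset.sdiff_eq_empty_iff_subset] at hn
      exact hn
    have hST : S = T := Finset.Subset.antisymm hS this
    subst hST
    exact h
  | succ n ih =>
    intro S hS hne hn hcS hinv
    have hST : S ≠ T := by
      rintro rfl
      simp at hn
    obtain ⟨s, hs, t, ht, htS, a, b, h1, h2⟩ := hconn S hS hne hST
    have hsub : insert t S ⊆ T := Finset.insert_subset ht hS
    have hsd : T \ S = insert t (T \ insert t S) := by
      ext x
      simp only [Finset.mem_sdiff, Finset.mem_insert, not_or]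
      constructor
      · rintro ⟨hx1, hx2⟩
        by_cases hxt : x = t
        · exact Or.inl hxt
        · exact Or.inr ⟨hx1, hxt, hx2⟩
      · rintro (rfl | ⟨hx1, _, hx2⟩)
        · exact ⟨ht, htS⟩
        · exact ⟨hx1, hx2⟩
    have hnot : t ∉ T \ insert t S := by simp
    have hcard : (T \ insert t S).card = n := by
      rw [hsd, Finset.card_insert_of_notMem hnot] at hn
      omega
    have h4 := card_V_le T hC hconn n (insert t S) hsub (Finset.insert_nonempty t S) hcard
    have h3t : 3 ≤ t.card := hC.three t ht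
    have hsumT : ∑ u ∈ T, (u.card - 2) = ∑ u ∈ S, (u.card - 2) + ((t.card - 2) +
        ∑ u ∈ T \ insert t S, (u.card - 2)) := by
      rw [← Finset.sum_sdiff hS, hsd, Finset.sum_insert hnot]
      omega
    have h8 : ({a, b} : Finset Pt) ⊆ V S ∩ t := by
      intro x hx
      simp only [Finset.mem_insert, Finset.mem_singleton] at hx
      rcases hx with rfl | rfl
      · exact Finset.mem_inter.2 ⟨(mem_V S x).2 ⟨s, hs, h1.1⟩, h2.2.1⟩
      · exact Finset.mem_inter.2 ⟨(mem_V S x).2 ⟨s, hs, h1.2.1⟩, h2.1⟩
    have h9 : 2 ≤ (V S ∩ t).card := by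
      have := Finset.card_le_card h8
      rw [Finset.card_pair h1.2.2.1] at this
      exact this
    have h6 := Finset.card_union_add_card_inter t (V S)
    rw [← V_insert, Finset.inter_comm] at h6
    have h10 : (V S ∩ t).card = 2 := by omega
    have h11 : V S ∩ t = {a, b} := by
      symm
      apply Finset.eq_of_subset_of_card_le h8
      rw [Finset.card_pair h1.2.2.1]; omega
    apply ih (insert t S) hsub (Finset.insert_nonempty t S) hcard
    · rw [Finset.sum_insert htS]; omega
    · obtain ⟨l, hl⟩ := hinv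
      exact Inv_step S t htS (hC.mono hsub) l hl s hs a b h1 h2 h11

/-- POLYGON THEOREM -/
theorem polygon (T : Finset (Finset Pt)) (hC : Cx T) (hne : T.Nonempty) (hconn : Conn T)
    (hcount : ∑ t ∈ T, (t.card - 2) + 2 = (V T).card) : ∃ l, Inv T l := by
  classical
  obtain ⟨t, ht⟩ := hne
  have h3 := hC.three t ht
  apply polygon_aux T hC hconn hcount (T \ {t}).card {t} (by simpa using ht) (by simp) rfl
  · rw [Finset.sum_singleton]
    have : V {t} = t := by simp [V]
    rw [this]; omega
  · exact Inv_single t (hC.cp t ht) h3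

end Pool.Agent.RFX

end

section

set_option autoImplicit false

/-!
# RFX/Ext : from a cyclic list to the function v of S09465 (MP_72a26e_co)
-/

namespace Pool.Agent.RFX

open List

/-- the periodic function of a list -/
def vv (l : List Pt) (h : 0 < l.length) (i : ℕ) : Pt := l[i % l.length]'(Nat.mod_lt _ h)

theorem vv_add (l : List Pt) (h : 0 < l.length) (i : ℕ) : vv l h (i + l.length) = vv l h i := by
  unfold vv
  congr 1
  exact Nat.add_mod_right i l.length

theorem vv_mod (l : List Pt) (h : 0 < l.length) (i : ℕ) : vv l h (i % l.length) = vv l h i := by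
  unfold vv
  congr 1
  exact Nat.mod_mod i l.length

theorem vv_mod_succ (l : List Pt) (h : 0 < l.length) (i : ℕ) :
    vv l h (i % l.length + 1) = vv l h (i + 1) := by
  unfold vv
  congr 1
  exact Nat.mod_add_mod i l.length 1

theorem vv_lt (l : List Pt) (h : 0 < l.length) (i : ℕ) (hi : i < l.length) :
    vv l h i = l[i] := by
  unfold vv
  congr 1
  exact Nat.mod_eq_of_lt hi

theorem vv_mem (l : List Pt) (h : 0 < l.length) (i : ℕ) : vv l h i ∈ l := by
  unfold vv
  exact List.getElem_mem _

theorem vv_inj (l : List Pt) (hn : l.Nodup) (h : 0 < l.length) (i j : ℕ)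
    (hij : vv l h i = vv l h j) : i % l.length = j % l.length := by
  unfold vv at hij
  exact (List.Nodup.getElem_inj_iff hn).1 hij

theorem cyc_eq_map (l : List Pt) (h : 0 < l.length) :
    cyc l = (List.range l.length).map (fun i => (vv l h i, vv l h (i + 1))) := by
  cases l with
  | nil => simp at h
  | cons x xs =>
    apply List.ext_getElem
    · rw [length_cyc]; simp
    · intro i h1 h2
      rw [length_cyc] at h1
      have hi : i < xs.length + 1 := by simpa using h1
      have h4 : (cyc (x :: xs))[i]'(by rw [length_cyc]; exact h1) =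
          (pe (x :: (xs ++ [x])))[i]'(by rw [length_pe]; simpa using hi) := rfl
      rw [h4, getElem_pe]
      rw [List.getElem_map, List.getElem_range]
      have e1 : (x :: (xs ++ [x]))[i]'(by simp; omega) = vv (x :: xs) h i := by
        rw [vv_lt _ _ _ h1]
        have : (x :: (xs ++ [x]))[i]'(by simp; omega)
            = ((x :: xs) ++ [x])[i]'(by simp; omega) := rfl
        rw [this, List.getElem_append_left h1]
      have e2 : (x :: (xs ++ [x]))[i+1]'(by simp; omega) = vv (x :: xs) h (i+1) := by
        have h5 : (x :: (xs ++ [x]))[i+1]'(by simp; omega)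
            = ((x :: xs) ++ [x])[i+1]'(by simp; omega) := rfl
        rw [h5]
        by_cases h6 : i + 1 < (x :: xs).length
        · rw [vv_lt _ _ _ h6, List.getElem_append_left h6]
        · have h7 : i + 1 = (x :: xs).length := by omega
          rw [List.getElem_append_right (by omega)]
          unfold vv
          have h8 : (i + 1) % (x :: xs).length = 0 := by rw [h7]; exact Nat.mod_self _
          simp [h7]
      rw [e1, e2]

theorem mem_cyc_vv (l : List Pt) (h : 0 < l.length) (i : ℕ) :
    (vv l h i, vv l h (i + 1)) ∈ cyc l := by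
  rw [cyc_eq_map l h, List.mem_map]
  refine ⟨i % l.length, List.mem_range.2 (Nat.mod_lt _ h), ?_⟩
  rw [vv_mod, vv_mod_succ]

theorem area_eq_sum (l : List Pt) (h : 0 < l.length) :
    area (cyc l) = ∑ i ∈ Finset.range l.length,
      ((vv l h i).1 * (vv l h (i + 1)).2 - (vv l h (i + 1)).1 * (vv l h i).2) := by
  unfold area
  rw [cyc_eq_map l h, List.map_map]
  rfl

/-- pairs which are hull edges of a member of B -/
def HEB (B : Finset (Finset Pt)) (e : Pt × Pt) : Prop := ∃ A ∈ B, HE A e.1 e.2

theorem turn_pos (B : Finset (Finset Pt)) (hB : ∀ A ∈ B, ∀ A' ∈ B, A ≠ A' → Disjoint A A')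
    (a b c : Pt) (h1 : HEB B (a, b)) (h2 : HEB B (b, c)) (hac : c ≠ a) : 0 < orient a b c := by
  obtain ⟨A, hA, h3⟩ := h1
  obtain ⟨A', hA', h4⟩ := h2
  have hAA : A = A' := by
    by_contra hne
    exact Finset.disjoint_left.1 (hB A hA A' hA' hne) h3.2.1 h4.1
  subst hAA
  exact h3.2.2.2 c h4.2.1 hac h4.2.2.1.symm

theorem extract (P : Finset Pt) (l : List Pt) (hn : l.Nodup) (hP : l.toFinset = P)
    (h3 : 3 ≤ P.card)
    (hs : ∀ a b c d, (a, b) ∈ cyc l → (c, d) ∈ cyc l → (a, b) ≠ (c, d) →
      ∀ x, x ∈ segment ℝ a b → x ∈ segment ℝ c d → (x = a ∨ x = b) ∧ (x = c ∨ x = d))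
    (harea : 0 < area (cyc l)) (B : Finset (Finset Pt))
    (hB : ∀ A ∈ B, ∀ A' ∈ B, A ≠ A' → Disjoint A A') (N : ℕ)
    (hN : ∀ E : Finset (Pt × Pt), (∀ e ∈ E, e ∈ cyc l ∧ ¬ HEB B e) → E.card ≤ N) :
    ∃ v : ℕ → ℝ × ℝ,
        (∀ i, v (i + P.card) = v i) ∧
        Set.InjOn v (Set.Iio P.card) ∧
        v '' Set.Iio P.card = (P : Set (ℝ × ℝ)) ∧
        (∀ i j, i < P.card → j < P.card → i ≠ j → j ≠ (i + 1) % P.card → i ≠ (j + 1) % P.card →
          Disjoint (segment ℝ (v i) (v (i + 1))) (segment ℝ (v j) (v (j + 1)))) ∧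
        (∀ i, segment ℝ (v i) (v (i + 1)) ∩ segment ℝ (v (i + 1)) (v (i + 2)) = {v (i + 1)}) ∧
        0 < ∑ i ∈ Finset.range P.card, ((v i).1 * (v (i + 1)).2 - (v (i + 1)).1 * (v i).2) ∧
        ((Finset.range P.card).filter (fun i =>
          ((v (i + 1)).1 - (v i).1) * ((v (i + 2)).2 - (v (i + 1)).2)
            - ((v (i + 1)).2 - (v i).2) * ((v (i + 2)).1 - (v (i + 1)).1) < 0)).card
          ≤ 2 * N := by
  classical
  have hlen : l.length = P.card := by rw [← hP, List.toFinset_card_of_nodup hn]
  have h0 : 0 < l.length := by omega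
  have hmodlt : ∀ i, i < P.card → i % P.card = i := fun i hi => Nat.mod_eq_of_lt hi
  have hinj : ∀ i j, vv l h0 i = vv l h0 j → i % P.card = j % P.card := by
    intro i j h
    rw [← hlen]
    exact vv_inj l hn h0 i j h
  have hcyc : ∀ i, (vv l h0 i, vv l h0 (i+1)) ∈ cyc l := mem_cyc_vv l h0
  -- i and i + 1 have different residues, etc
  have hmod1 : ∀ i, i % P.card ≠ (i + 1) % P.card := by
    intro i h
    have h5 := Nat.mod_add_mod i P.card 1
    have h6 : i % P.card < P.card := Nat.mod_lt _ (by omega)
    rw [← h5] at h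
    rcases Nat.lt_or_ge (i % P.card + 1) P.card with h7 | h7
    · rw [Nat.mod_eq_of_lt h7] at h; omega
    · have h8 : i % P.card + 1 = P.card := by omega
      rw [h8, Nat.mod_self] at h; omega
  have hmod2 : ∀ i, i % P.card ≠ (i + 2) % P.card := by
    intro i h
    have h5 := Nat.mod_add_mod i P.card 2
    have h6 : i % P.card < P.card := Nat.mod_lt _ (by omega)
    rw [← h5] at h
    rcases Nat.lt_or_ge (i % P.card + 2) P.card with h7 | h7
    · rw [Nat.mod_eq_of_lt h7] at h; omega
    · have h8 : (i % P.card + 2) % P.card = i % P.card + 2 - P.card := by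
        rw [Nat.mod_eq_sub_mod h7]
        apply Nat.mod_eq_of_lt
        omega
      rw [h8] at h; omega
  have hne02 : ∀ i, vv l h0 (i+2) ≠ vv l h0 i := by
    intro i h
    exact hmod2 i (hinj _ _ h).symm
  refine ⟨vv l h0, ?_, ?_, ?_, ?_, ?_, ?_, ?_⟩
  · intro i
    rw [← hlen]; exact vv_add l h0 i
  · intro i hi j hj hij
    rw [Set.mem_Iio] at hi hj
    have := hinj i j hij
    rwa [hmodlt i hi, hmodlt j hj] at this
  · ext x
    rw [Set.mem_image, Finset.mem_coe, ← hP, List.mem_toFinset]
    constructor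
    · rintro ⟨i, _, rfl⟩
      exact vv_mem l h0 i
    · intro hx
      obtain ⟨i, hi, rfl⟩ := List.getElem_of_mem hx
      refine ⟨i, by rw [Set.mem_Iio, hP, ← hlen]; exact hi, vv_lt l h0 i hi⟩
  · intro i j hi hj hij hji hij2
    rw [Set.disjoint_left]
    intro x hx1 hx2
    have hne : (vv l h0 i, vv l h0 (i+1)) ≠ (vv l h0 j, vv l h0 (j+1)) := by
      intro h
      rw [Prod.mk.injEq] at h
      have := hinj i j h.1
      rw [hmodlt i hi, hmodlt j hj] at this
      exact hij this
    obtain ⟨h5, h6⟩ := hs _ _ _ _ (hcyc i) (hcyc j) hne x hx1 hx2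
    rcases h5 with h5 | h5 <;> rcases h6 with h6 | h6
    · rw [h5] at h6
      have := hinj _ _ h6
      rw [hmodlt i hi, hmodlt j hj] at this
      exact hij this
    · rw [h5] at h6
      have := hinj _ _ h6
      rw [hmodlt i hi] at this
      exact hij2 this
    · rw [h5] at h6
      have := hinj _ _ h6
      rw [hmodlt j hj] at this
      exact hji this.symm
    · rw [h5] at h6
      have := hinj _ _ h6
      -- (i+1) % n = (j+1) % n
      have h7 : i = j := by
        have h8 : (i + 1) ≡ (j + 1) [MOD P.card] := this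
        have h9 : i ≡ j [MOD P.card] := Nat.ModEq.add_right_cancel' 1 h8
        have h10 : i % P.card = j % P.card := h9
        rwa [hmodlt i hi, hmodlt j hj] at h10
      exact hij h7
  · intro i
    ext x
    rw [Set.mem_inter_iff, Set.mem_singleton_iff]
    constructor
    · rintro ⟨hx1, hx2⟩
      have hne : (vv l h0 i, vv l h0 (i+1)) ≠ (vv l h0 (i+1), vv l h0 (i+2)) := by
        intro h
        rw [Prod.mk.injEq] at h
        exact hmod1 i (hinj _ _ h.1)
      obtain ⟨h5, h6⟩ := hs _ _ _ _ (hcyc i) (hcyc (i+1)) hne x hx1 hx2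
      rcases h5 with h5 | h5
      · rcases h6 with h6 | h6
        · exact h6
        · exact absurd (h6.symm.trans h5) (hne02 i)
      · exact h5
    · rintro rfl
      exact ⟨right_mem_segment ℝ _ _, left_mem_segment ℝ _ _⟩
  · rw [← hlen, ← area_eq_sum l h0]
    exact harea
  · set v := vv l h0 with hv
    set bad : Finset ℕ := (Finset.range P.card).filter (fun i => ¬ HEB B (v i, v (i+1))) with hbad
    have hbadN : bad.card ≤ N := by
      have h5 : (bad.image (fun i => (v i, v (i+1)))).card = bad.card := by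
        apply Finset.card_image_of_injOn
        intro i hi j hj hij
        have hi' : i < P.card := by
          have := (Finset.mem_filter.1 (Finset.mem_coe.1 hi)).1
          exact Finset.mem_range.1 this
        have hj' : j < P.card := by
          have := (Finset.mem_filter.1 (Finset.mem_coe.1 hj)).1
          exact Finset.mem_range.1 this
        simp only [Prod.mk.injEq] at hij
        have := hinj i j hij.1
        rwa [hmodlt i hi', hmodlt j hj'] at this
      rw [← h5]
      apply hN
      intro e he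
      rw [Finset.mem_image] at he
      obtain ⟨i, hi, rfl⟩ := he
      exact ⟨hcyc i, (Finset.mem_filter.1 hi).2⟩
    set bad2 : Finset ℕ := (Finset.range P.card).filter
      (fun i => ¬ HEB B (v (i+1), v (i+2))) with hbad2
    have hbad2N : bad2.card ≤ bad.card := by
      apply Finset.card_le_card_of_injOn (fun i => (i + 1) % P.card)
      · intro i hi
        have hi2 := Finset.mem_filter.1 (Finset.mem_coe.1 hi)
        rw [Finset.mem_coe, hbad, Finset.mem_filter]
        refine ⟨Finset.mem_range.2 (Nat.mod_lt _ (by omega)), ?_⟩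
        have e1 : v ((i + 1) % P.card) = v (i + 1) := by
          rw [hv, ← hlen]; exact vv_mod l h0 (i+1)
        have e2 : v ((i + 1) % P.card + 1) = v (i + 2) := by
          rw [hv, ← hlen]; exact vv_mod_succ l h0 (i+1)
        rw [e1, e2]
        exact hi2.2
      · intro i hi j hj hij
        have hi' : i < P.card := by
          have := (Finset.mem_filter.1 (Finset.mem_coe.1 hi)).1
          exact Finset.mem_range.1 this
        have hj' : j < P.card := by
          have := (Finset.mem_filter.1 (Finset.mem_coe.1 hj)).1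
          exact Finset.mem_range.1 this
        have h8 : (i + 1) ≡ (j + 1) [MOD P.card] := hij
        have h9 : i ≡ j [MOD P.card] := Nat.ModEq.add_right_cancel' 1 h8
        have h10 : i % P.card = j % P.card := h9
        rwa [hmodlt i hi', hmodlt j hj'] at h10
    have hsub : ((Finset.range P.card).filter (fun i =>
          ((v (i + 1)).1 - (v i).1) * ((v (i + 2)).2 - (v (i + 1)).2)
            - ((v (i + 1)).2 - (v i).2) * ((v (i + 2)).1 - (v (i + 1)).1) < 0)) ⊆ bad ∪ bad2 := by
      intro i hi
      rw [Finset.mem_filter] at hi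
      obtain ⟨hi1, hi2⟩ := hi
      rw [Finset.mem_union, hbad, hbad2, Finset.mem_filter, Finset.mem_filter]
      by_contra hno
      push Not at hno
      have g1 := hno.1 hi1
      have g2 := hno.2 hi1
      have g3 := turn_pos B hB (v i) (v (i+1)) (v (i+2)) g1 g2 (hne02 i)
      have g4 : orient (v i) (v (i+1)) (v (i+2)) =
          ((v (i + 1)).1 - (v i).1) * ((v (i + 2)).2 - (v (i + 1)).2)
            - ((v (i + 1)).2 - (v i).2) * ((v (i + 2)).1 - (v (i + 1)).1) := by
        unfold orient; ring
      rw [g4] at g3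
      linarith
    calc _ ≤ (bad ∪ bad2).card := Finset.card_le_card hsub
      _ ≤ bad.card + bad2.card := Finset.card_union_le _ _
      _ ≤ 2 * N := by omega

end Pool.Agent.RFX

end

section

set_option autoImplicit false

/-!
# RFX/Red : REDUCTION of S09465 to connected complexes of convex cells (MP_72a26e_co)
-/

namespace Pool.Agent.RFX

open List

theorem hull_le_one (s : Finset Pt) (h : s.card ≤ 1) (x : Pt)
    (hx : x ∈ convexHull ℝ (s : Set Pt)) : x ∈ s := by
  rw [Finset.card_le_one_iff_subset_singleton] at h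
  obtain ⟨p, hp⟩ := h
  rcases Finset.subset_singleton_iff.1 hp with h1 | h1
  · subst h1; simp at hx
  · subst h1; simpa using hx

/-- two different sides of cells of a complex meet only in common ends -/
theorem Cx.sides_meet {T : Finset (Finset Pt)} (hC : Cx T) {s t : Finset Pt} (hs : s ∈ T)
    (ht : t ∈ T) {a b c d : Pt} (h1 : HE s a b) (h2 : HE t c d) (hne : (a, b) ≠ (c, d))
    (hne2 : (a, b) ≠ (d, c)) (x : Pt) (hx1 : x ∈ segment ℝ a b) (hx2 : x ∈ segment ℝ c d) :
    (x = a ∨ x = b) ∧ (x = c ∨ x = d) := by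
  classical
  have o1 : orient a b x = 0 := by
    obtain ⟨u, v, hu, hv, huv, rfl⟩ := hx1
    rw [orient_comb2 a b a b u v huv, orient_self2, orient_self3]; ring
  have o2 : orient c d x = 0 := by
    obtain ⟨u, v, hu, hv, huv, rfl⟩ := hx2
    rw [orient_comb2 c d c d u v huv, orient_self2, orient_self3]; ring
  have seg1 : segment ℝ a b = convexHull ℝ ((({a, b} : Finset Pt)) : Set Pt) := by
    rw [← convexHull_pair]; simp
  have seg2 : segment ℝ c d = convexHull ℝ ((({c, d} : Finset Pt)) : Set Pt) := by
    rw [← convexHull_pair]; simp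
  have sub1 : ({a, b} : Finset Pt) ⊆ s := by
    intro y hy
    simp only [Finset.mem_insert, Finset.mem_singleton] at hy
    rcases hy with rfl | rfl
    · exact h1.1
    · exact h1.2.1
  have sub2 : ({c, d} : Finset Pt) ⊆ t := by
    intro y hy
    simp only [Finset.mem_insert, Finset.mem_singleton] at hy
    rcases hy with rfl | rfl
    · exact h2.1
    · exact h2.2.1
  have pc1 : ({a, b} : Finset Pt).card = 2 := Finset.card_pair h1.2.2.1
  have pc2 : ({c, d} : Finset Pt).card = 2 := Finset.card_pair h2.2.2.1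
  -- {a,b} ≠ {c,d}
  have hne3 : ({a, b} : Finset Pt) ≠ {c, d} := by
    intro h
    have ha : a ∈ ({c, d} : Finset Pt) := by rw [← h]; simp
    have hb : b ∈ ({c, d} : Finset Pt) := by rw [← h]; simp
    simp only [Finset.mem_insert, Finset.mem_singleton] at ha hb
    rcases ha with rfl | rfl
    · rcases hb with rfl | rfl
      · exact h1.2.2.1 rfl
      · exact hne rfl
    · rcases hb with rfl | rfl
      · exact hne2 rfl
      · exact h1.2.2.1 rfl
  have hint : (({c, d} : Finset Pt) ∩ {a, b}).card ≤ 1 := by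
    by_contra hgt
    push Not at hgt
    have e1 : ({c, d} : Finset Pt) ∩ {a, b} = {c, d} :=
      Finset.eq_of_subset_of_card_le Finset.inter_subset_left (by rw [pc2]; omega)
    have e2 : ({c, d} : Finset Pt) ∩ {a, b} = {a, b} :=
      Finset.eq_of_subset_of_card_le Finset.inter_subset_right (by rw [pc1]; omega)
    exact hne3 (e2.symm.trans e1)
  by_cases hst : s = t
  · subst hst
    rw [seg2] at hx2
    have h3 := hull_face h1 sub2 hx2 o1
    have h4 := hull_le_one _ hint x h3
    simp only [Finset.mem_inter, Finset.mem_insert, Finset.mem_singleton] at h4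
    exact ⟨h4.2, h4.1⟩
  · have xs : x ∈ convexHull ℝ (s : Set Pt) := by
      rw [seg1] at hx1
      exact convexHull_mono (by exact_mod_cast sub1) hx1
    have xt : x ∈ convexHull ℝ (t : Set Pt) := by
      rw [seg2] at hx2
      exact convexHull_mono (by exact_mod_cast sub2) hx2
    have xst := hC.inter s hs t ht hst ⟨xs, xt⟩
    have h2c := hC.two s hs t ht hst
    have f1 := hull_face h1 (s := s ∩ t) Finset.inter_subset_left xst o1
    have f2 := hull_face h2 (s := s ∩ t) Finset.inter_subset_right xst o2
    by_cases c1 : ((s ∩ t) ∩ {a, b} : Finset Pt).card ≤ 1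
    · have h4 := hull_le_one _ c1 x f1
      rw [Finset.mem_inter] at h4
      by_cases c2 : ((s ∩ t) ∩ {c, d} : Finset Pt).card ≤ 1
      · have h5 := hull_le_one _ c2 x f2
        rw [Finset.mem_inter] at h5
        have h6 := h4.2
        have h7 := h5.2
        simp only [Finset.mem_insert, Finset.mem_singleton] at h6 h7
        exact ⟨h6, h7⟩
      · push Not at c2
        have e1 : (s ∩ t) ∩ {c, d} = s ∩ t :=
          Finset.eq_of_subset_of_card_le Finset.inter_subset_left (by omega)
        have h5 : x ∈ (s ∩ t) ∩ {c, d} := by rw [e1]; exact h4.1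
        rw [Finset.mem_inter] at h5
        have h6 := h4.2
        have h7 := h5.2
        simp only [Finset.mem_insert, Finset.mem_singleton] at h6 h7
        exact ⟨h6, h7⟩
    · push Not at c1
      have e1 : (s ∩ t) ∩ {a, b} = s ∩ t :=
        Finset.eq_of_subset_of_card_le Finset.inter_subset_left (by omega)
      have e2 : (s ∩ t) ∩ {a, b} = {a, b} :=
        Finset.eq_of_subset_of_card_le Finset.inter_subset_right (by omega)
      have e3 : s ∩ t = {a, b} := e1.symm.trans e2
      rw [e3, Finset.inter_comm] at f2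
      have h5 := hull_le_one _ hint x f2
      simp only [Finset.mem_inter, Finset.mem_insert, Finset.mem_singleton] at h5
      exact ⟨h5.2, h5.1⟩

/-- the directed sides of a cell -/
theorem card_sides_le (t : Finset Pt) (h : CP t) (h3 : 3 ≤ t.card) (E : Finset (Pt × Pt))
    (hE : ∀ e ∈ E, HE t e.1 e.2) : E.card ≤ t.card := by
  classical
  obtain ⟨l, h1, h2, h4⟩ := h
  have hlen : l.length = t.card := CP.length h1 h2
  have hsub : E ⊆ (cyc l).toFinset := by
    intro e he
    rw [List.mem_toFinset]
    have := hE e he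
    rw [← h2] at this
    exact (h4.mem_cyc_iff h1 (by omega) e.1 e.2).2 this
  calc E.card ≤ (cyc l).toFinset.card := Finset.card_le_card hsub
    _ ≤ (cyc l).length := List.toFinset_card_le _
    _ = t.card := by rw [length_cyc, hlen]

/-- REDUCTION: a connected complex of convex cells with sum (|t| - 2) = n - 2 through all points
gives the polygonization; B = pairwise disjoint cells (the blocks); the number of reflex vertices
is at most 2 * sum of |t| over the cells outside B. -/
theorem reduction (P : Finset Pt) (T B : Finset (Finset Pt))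
    (hC : Cx T) (hne : T.Nonempty) (hconn : Conn T) (hV : V T = P)
    (hcount : ∑ t ∈ T, (t.card - 2) + 2 = P.card)
    (hB : ∀ A ∈ B, ∀ A' ∈ B, A ≠ A' → Disjoint A A') :
    ∃ v : ℕ → ℝ × ℝ,
        (∀ i, v (i + P.card) = v i) ∧
        Set.InjOn v (Set.Iio P.card) ∧
        v '' Set.Iio P.card = (P : Set (ℝ × ℝ)) ∧
        (∀ i j, i < P.card → j < P.card → i ≠ j → j ≠ (i + 1) % P.card → i ≠ (j + 1) % P.card →
          Disjoint (segment ℝ (v i) (v (i + 1))) (segment ℝ (v j) (v (j + 1)))) ∧
        (∀ i, segment ℝ (v i) (v (i + 1)) ∩ segment ℝ (v (i + 1)) (v (i + 2)) = {v (i + 1)}) ∧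
        0 < ∑ i ∈ Finset.range P.card, ((v i).1 * (v (i + 1)).2 - (v (i + 1)).1 * (v i).2) ∧
        ((Finset.range P.card).filter (fun i =>
          ((v (i + 1)).1 - (v i).1) * ((v (i + 2)).2 - (v (i + 1)).2)
            - ((v (i + 1)).2 - (v i).2) * ((v (i + 2)).1 - (v (i + 1)).1) < 0)).card
          ≤ 2 * ∑ t ∈ T \ B, t.card := by
  classical
  have h3 : 3 ≤ P.card := by
    obtain ⟨t, ht⟩ := hne
    have h4 := hC.three t ht
    have h5 : t.card - 2 ≤ ∑ t ∈ T, (t.card - 2) :=
      Finset.single_le_sum (f := fun t : Finset Pt => t.card - 2) (fun _ _ => Nat.zero_le _) ht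
    omega
  obtain ⟨l, i1, i2, i3, i4⟩ := polygon T hC hne hconn (by rw [hV]; exact hcount)
  have hnotboth : ∀ a b, (a, b) ∈ cyc l → (b, a) ∉ cyc l := by
    intro a b hab hba
    have h5 := (i3 a b).1 hab
    have h6 := (i3 b a).1 hba
    exact h5.2 h6.1
  apply extract P l i1 (by rw [i2, hV]) h3 _ i4 B hB
  · intro E hE
    have hEt : ∀ e ∈ E, ∃ t ∈ T \ B, HE t e.1 e.2 := by
      intro e he
      obtain ⟨h5, h6⟩ := hE e he
      obtain ⟨⟨t, ht, ht2⟩, _⟩ := (i3 e.1 e.2).1 h5
      refine ⟨t, ?_, ht2⟩
      rw [Finset.mem_sdiff]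
      exact ⟨ht, fun htB => h6 ⟨t, htB, ht2⟩⟩
    have hEsub : E ⊆ (T \ B).biUnion (fun t => E.filter (fun e => HE t e.1 e.2)) := by
      intro e he
      obtain ⟨t, ht, ht2⟩ := hEt e he
      rw [Finset.mem_biUnion]
      exact ⟨t, ht, Finset.mem_filter.2 ⟨he, ht2⟩⟩
    calc E.card ≤ ((T \ B).biUnion (fun t => E.filter (fun e => HE t e.1 e.2))).card :=
          Finset.card_le_card hEsub
      _ ≤ ∑ t ∈ T \ B, (E.filter (fun e => HE t e.1 e.2)).card := Finset.card_biUnion_le
      _ ≤ ∑ t ∈ T \ B, t.card := by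
          apply Finset.sum_le_sum
          intro t ht
          have ht' := (Finset.mem_sdiff.1 ht).1
          exact card_sides_le t (hC.cp t ht') (hC.three t ht') _
            (fun e he => (Finset.mem_filter.1 he).2)
  · intro a b c d hab hcd hne1 x hx1 hx2
    obtain ⟨⟨s, hs, hs2⟩, _⟩ := (i3 a b).1 hab
    obtain ⟨⟨t, ht, ht2⟩, _⟩ := (i3 c d).1 hcd
    have hne2 : (a, b) ≠ (d, c) := by
      intro h
      rw [Prod.mk.injEq] at h
      obtain ⟨rfl, rfl⟩ := h
      exact hnotboth _ _ hab hcd
    exact hC.sides_meet hs ht hs2 ht2 hne1 hne2 x hx1 hx2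

/-- the target of the geometric part -/
def Target (C : ℕ) : Prop :=
  ∀ P : Finset Pt, 3 ≤ P.card → Gen P → ∀ F : Finpartition P,
    (∀ A ∈ F.parts, CP A) →
    (∀ A ∈ F.parts, ∀ B ∈ F.parts, A ≠ B →
      Disjoint (convexHull ℝ (A : Set Pt)) (convexHull ℝ (B : Set Pt))) →
    ∃ T B : Finset (Finset Pt), Cx T ∧ T.Nonempty ∧ Conn T ∧ V T = P ∧
      ∑ t ∈ T, (t.card - 2) + 2 = P.card ∧ B ⊆ T ∧
      (∀ A ∈ B, ∀ A' ∈ B, A ≠ A' → Disjoint A A') ∧
      P.card ≤ ∑ t ∈ B, (t.card - 2) + C * F.parts.card

end Pool.Agent.RFX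

end
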