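import Mathlib
import Pool.Agent.RFM.P01

set_option autoImplicit false

/-!
# RFM/P02 (MP_72a26e_co): the files RFT/Xs, RFT/Tri, merged to save build time
-/

section

set_option autoImplicit false

/-!
# RFT/Xs : proper crossings, plane edge sets, maximal plane edge sets (MP_72a26e_co)
-/

namespace Pool.Agent.RFT

open Pool.Agent.RFX

/-- the segments a b and c d cross properly -/
def Xs (a b c d : Pt) : Prop :=
  orient a b c * orient a b d < 0 ∧ orient c d a * orient c d b < 0

theorem Xs.symm {a b c d : Pt} (h : Xs a b c d) : Xs c d a b := ⟨h.2, h.1⟩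

theorem Xs.swap1 {a b c d : Pt} (h : Xs a b c d) : Xs b a c d := by
  refine ⟨?_, ?_⟩
  · rw [orient_swap a b c, orient_swap a b d]
    have := h.1
    linarith
  · rw [mul_comm]; exact h.2

theorem Xs.swap2 {a b c d : Pt} (h : Xs a b c d) : Xs a b d c := h.symm.swap1.symm

theorem Xs.ne {a b c d : Pt} (h : Xs a b c d) :
    a ≠ b ∧ c ≠ d ∧ a ≠ c ∧ a ≠ d ∧ b ≠ c ∧ b ≠ d := by
  obtain ⟨h1, h2⟩ := h
  refine ⟨?_, ?_, ?_, ?_, ?_, ?_⟩ <;> rintro rfl <;>
    simp only [orient_self1, orient_self2, orient_self3, mul_zero, zero_mul, lt_irrefl] at h1 h2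

/-- sign form -/
theorem Xs.of_signs {a b c d : Pt} (h1 : orient a b c < 0) (h2 : 0 < orient a b d)
    (h3 : 0 < orient c d a) (h4 : orient c d b < 0) : Xs a b c d :=
  ⟨mul_neg_of_neg_of_pos h1 h2, mul_neg_of_pos_of_neg h3 h4⟩

/-- the four orientations of four points -/
theorem orient_four (a b c d : Pt) :
    orient a b c + orient a c d = orient a b d + orient b c d := by
  unfold orient; ring

/-- crossing point of two properly crossing segments -/
theorem Xs.point {a b c d : Pt} (h : Xs a b c d) :
    ∃ s t : ℝ, 0 < s ∧ s < 1 ∧ 0 < t ∧ t < 1 ∧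
      (1 - s) • a + s • b = (1 - t) • c + t • d := by
  obtain ⟨h1, h2⟩ := h
  have k1 : orient c d a - orient c d b ≠ 0 := by
    intro h; have : orient c d a = orient c d b := by linarith
    rw [this] at h2; nlinarith [mul_self_nonneg (orient c d b)]
  have k2 : orient a b c - orient a b d ≠ 0 := by
    intro h; have : orient a b c = orient a b d := by linarith
    rw [this] at h1; nlinarith [mul_self_nonneg (orient a b d)]
  refine ⟨orient c d a / (orient c d a - orient c d b), orient a b c / (orient a b c - orient a b d),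
    ?_, ?_, ?_, ?_, ?_⟩
  · rcases lt_or_ge 0 (orient c d a) with h | h
    · have h3 : orient c d b < 0 := by
        by_contra hc; push Not at hc; nlinarith
      exact div_pos h (by linarith)
    · have h3 : 0 < orient c d b := by
        by_contra hc; push Not at hc; nlinarith
      have h4 : orient c d a < 0 := by
        rcases lt_or_eq_of_le h with h5 | h5
        · exact h5
        · rw [h5] at h2; simp at h2
      exact div_pos_of_neg_of_neg h4 (by linarith)
  · rcases lt_or_ge 0 (orient c d a) with h | h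
    · have h3 : orient c d b < 0 := by
        by_contra hc; push Not at hc; nlinarith
      rw [div_lt_one (by linarith)]; linarith
    · have h3 : 0 < orient c d b := by
        by_contra hc; push Not at hc; nlinarith
      rw [div_lt_one_of_neg (by linarith)]; linarith
  · rcases lt_or_ge 0 (orient a b c) with h | h
    · have h3 : orient a b d < 0 := by
        by_contra hc; push Not at hc; nlinarith
      exact div_pos h (by linarith)
    · have h3 : 0 < orient a b d := by
        by_contra hc; push Not at hc; nlinarith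
      have h4 : orient a b c < 0 := by
        rcases lt_or_eq_of_le h with h5 | h5
        · exact h5
        · rw [h5] at h1; simp at h1
      exact div_pos_of_neg_of_neg h4 (by linarith)
  · rcases lt_or_ge 0 (orient a b c) with h | h
    · have h3 : orient a b d < 0 := by
        by_contra hc; push Not at hc; nlinarith
      rw [div_lt_one (by linarith)]; linarith
    · have h3 : 0 < orient a b d := by
        by_contra hc; push Not at hc; nlinarith
      rw [div_lt_one_of_neg (by linarith)]; linarith
  · have e1 : orient c d a - orient c d b = orient a b c - orient a b d ∨ True := Or.inr trivial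
    ext
    · simp only [Prod.fst_add, Prod.smul_fst, smul_eq_mul]
      field_simp
      unfold orient at *
      ring
    · simp only [Prod.snd_add, Prod.smul_snd, smul_eq_mul]
      field_simp
      unfold orient at *
      ring

/-- conversely a common point of the segments whose four ends are in general position -/
theorem Xs.of_point {a b c d : Pt} (hc : orient a b c ≠ 0) (hd : orient a b d ≠ 0)
    (ha : orient c d a ≠ 0) (hb : orient c d b ≠ 0) {s t : ℝ} (hs0 : 0 ≤ s) (hs1 : s ≤ 1)
    (ht0 : 0 ≤ t) (ht1 : t ≤ 1) (h : (1 - s) • a + s • b = (1 - t) • c + t • d) :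
    Xs a b c d := by
  have e1 : (1 - t) * orient a b c + t * orient a b d = 0 := by
    rw [← orient_comb2 a b c d (1 - t) t (by ring), ← h,
      orient_comb2 a b a b (1 - s) s (by ring), orient_self2, orient_self3]; ring
  have e2 : (1 - s) * orient c d a + s * orient c d b = 0 := by
    rw [← orient_comb2 c d a b (1 - s) s (by ring), h,
      orient_comb2 c d c d (1 - t) t (by ring), orient_self2, orient_self3]; ring
  have ht0' : t ≠ 0 := by
    rintro rfl; apply hc; linarith
  have ht1' : t ≠ 1 := by
    rintro rfl; apply hd; linarith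
  have hs0' : s ≠ 0 := by
    rintro rfl; apply ha; linarith
  have hs1' : s ≠ 1 := by
    rintro rfl; apply hb; linarith
  have t0 : 0 < t := lt_of_le_of_ne ht0 (Ne.symm ht0')
  have t1 : 0 < 1 - t := by have := lt_of_le_of_ne ht1 ht1'; linarith
  have s0 : 0 < s := lt_of_le_of_ne hs0 (Ne.symm hs0')
  have s1 : 0 < 1 - s := by have := lt_of_le_of_ne hs1 hs1'; linarith
  have key : ∀ (u v p q : ℝ), 0 < u → 0 < v → p ≠ 0 → u * p + v * q = 0 → p * q < 0 := by
    intro u v p q hu hv hp h0
    have h1 : q = -(u * p) / v := by field_simp; linarith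
    rw [h1]
    have h2 : p * (-(u * p) / v) = -(u * (p * p) / v) := by ring
    rw [h2]
    have h3 : 0 < p * p := mul_self_pos.2 hp
    have : 0 < u * (p * p) / v := by positivity
    linarith
  exact ⟨key _ _ _ _ t1 t0 hc e1, key _ _ _ _ s1 s0 ha e2⟩

/-- plane edge set on P -/
structure Pl (P : Finset Pt) (M : Finset (Pt × Pt)) : Prop where
  sub : ∀ a b, (a, b) ∈ M → a ∈ P ∧ b ∈ P
  ne : ∀ a b, (a, b) ∈ M → a ≠ b
  sym : ∀ a b, (a, b) ∈ M → (b, a) ∈ M
  nc : ∀ a b c d, (a, b) ∈ M → (c, d) ∈ M → ¬ Xs a b c d

/-- the segment a b crosses no edge of M -/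
def Free (M : Finset (Pt × Pt)) (a b : Pt) : Prop := ∀ c d, (c, d) ∈ M → ¬ Xs a b c d

theorem Free.symm {M : Finset (Pt × Pt)} {a b : Pt} (h : Free M a b) : Free M b a :=
  fun c d hcd hx => h c d hcd hx.swap1

/-- maximal plane edge set -/
structure MaxPl (P : Finset Pt) (M : Finset (Pt × Pt)) : Prop extends Pl P M where
  max : ∀ a ∈ P, ∀ b ∈ P, a ≠ b → Free M a b → (a, b) ∈ M

theorem Pl.insert_two {P : Finset Pt} {M : Finset (Pt × Pt)} (h : Pl P M) {a b : Pt} (ha : a ∈ P)
    (hb : b ∈ P) (hab : a ≠ b) (hf : Free M a b) : Pl P (insert (a, b) (insert (b, a) M)) := by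
  classical
  have h0 : ∀ p q, (p, q) ∈ insert (a, b) (insert (b, a) M) ↔
      ((p = a ∧ q = b) ∨ (p = b ∧ q = a) ∨ (p, q) ∈ M) := by
    intro p q
    simp only [Finset.mem_insert, Prod.mk.injEq]
  constructor
  · intro p q hpq
    rw [h0] at hpq
    rcases hpq with ⟨rfl, rfl⟩ | ⟨rfl, rfl⟩ | hpq
    · exact ⟨ha, hb⟩
    · exact ⟨hb, ha⟩
    · exact h.sub p q hpq
  · intro p q hpq
    rw [h0] at hpq
    rcases hpq with ⟨rfl, rfl⟩ | ⟨rfl, rfl⟩ | hpq
    · exact hab
    · exact hab.symm
    · exact h.ne p q hpq
  · intro p q hpq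
    rw [h0] at hpq ⊢
    rcases hpq with ⟨rfl, rfl⟩ | ⟨rfl, rfl⟩ | hpq
    · exact Or.inr (Or.inl ⟨rfl, rfl⟩)
    · exact Or.inl ⟨rfl, rfl⟩
    · exact Or.inr (Or.inr (h.sym p q hpq))
  · intro p q r s hpq hrs hx
    rw [h0] at hpq hrs
    have hn := hx.ne
    rcases hpq with ⟨rfl, rfl⟩ | ⟨rfl, rfl⟩ | hpq
    · rcases hrs with ⟨rfl, rfl⟩ | ⟨rfl, rfl⟩ | hrs
      · exact hn.2.2.1 rfl
      · exact hn.2.2.2.1 rfl
      · exact hf _ _ hrs hx
    · rcases hrs with ⟨rfl, rfl⟩ | ⟨rfl, rfl⟩ | hrs
      · exact hn.2.2.2.1 rfl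
      · exact hn.2.2.1 rfl
      · exact hf _ _ hrs hx.swap1
    · rcases hrs with ⟨rfl, rfl⟩ | ⟨rfl, rfl⟩ | hrs
      · exact hf _ _ hpq hx.symm
      · exact hf _ _ hpq hx.symm.swap1
      · exact h.nc _ _ _ _ hpq hrs hx

/-- every plane edge set is contained in a maximal one -/
theorem exists_maxPl {P : Finset Pt} {M : Finset (Pt × Pt)} (h : Pl P M) :
    ∃ M', M ⊆ M' ∧ MaxPl P M' := by
  classical
  have hsub : ∀ N : Finset (Pt × Pt), Pl P N → N ⊆ P ×ˢ P := by
    intro N hN e he
    rw [Finset.mem_product]
    exact hN.sub e.1 e.2 he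
  let S : Finset (Finset (Pt × Pt)) := (P ×ˢ P).powerset.filter (fun N => Pl P N ∧ M ⊆ N)
  have hMS : M ∈ S := by
    simp only [S, Finset.mem_filter, Finset.mem_powerset]
    exact ⟨hsub M h, h, fun _ hx => hx⟩
  obtain ⟨N, hN, hmax⟩ := S.exists_max_image (fun N => N.card) ⟨M, hMS⟩
  simp only [S, Finset.mem_filter, Finset.mem_powerset] at hN
  refine ⟨N, hN.2.2, ⟨hN.2.1, ?_⟩⟩
  intro a ha b hb hab hf
  by_contra hnot
  have h1 := hN.2.1.insert_two ha hb hab hf
  have h2 : insert (a, b) (insert (b, a) N) ∈ S := by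
    simp only [S, Finset.mem_filter, Finset.mem_powerset]
    refine ⟨hsub _ h1, h1, ?_⟩
    intro e he
    exact Finset.mem_insert_of_mem (Finset.mem_insert_of_mem (hN.2.2 he))
  have h3 := hmax _ h2
  have h4 : N.card < (insert (a, b) (insert (b, a) N)).card := by
    apply Finset.card_lt_card
    refine ⟨fun e he => Finset.mem_insert_of_mem (Finset.mem_insert_of_mem he), ?_⟩
    intro hc
    exact hnot (hc (Finset.mem_insert_self _ _))
  omega

/-- hull edges belong to every maximal plane edge set -/
theorem MaxPl.hull {P : Finset Pt} {M : Finset (Pt × Pt)} (h : MaxPl P M) {a b : Pt}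
    (hab : HE P a b) : (a, b) ∈ M := by
  apply h.max a hab.1 b hab.2.1 hab.2.2.1
  intro c d hcd hx
  have hP := h.sub c d hcd
  have h1 := hab.nonneg c hP.1
  have h2 := hab.nonneg d hP.2
  have := hx.1
  nlinarith [mul_nonneg h1 h2]

end Pool.Agent.RFT

end

section

set_option autoImplicit false

/-!
# RFT/Tri : a maximal plane edge set is a triangulation (MP_72a26e_co)
-/

namespace Pool.Agent.RFT

open Pool.Agent.RFX

/-- exit point of a segment from a region given by finitely many affine inequalities -/
theorem exit_point {ι : Type*} [Fintype ι] (f g : ι → ℝ) (hf : ∀ i, 0 ≤ f i)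
    (hg : ∃ i, g i < 0) :
    ∃ t : ℝ, 0 ≤ t ∧ t < 1 ∧ (∃ j, g j < 0 ∧ (1 - t) * f j + t * g j = 0) ∧
      ∀ i, 0 ≤ (1 - t) * f i + t * g i := by
  classical
  let s : Finset ι := Finset.univ.filter (fun i => g i < 0)
  have hs : s.Nonempty := by
    obtain ⟨i, hi⟩ := hg
    exact ⟨i, by simp [s, hi]⟩
  obtain ⟨j, hj, hmin⟩ := s.exists_min_image (fun i => f i / (f i - g i)) hs
  have hgj : g j < 0 := by simpa [s] using hj
  have hden : ∀ i, g i < 0 → 0 < f i - g i := fun i hi => by linarith [hf i]
  refine ⟨f j / (f j - g j), div_nonneg (hf j) (hden j hgj).le, ?_, ⟨j, hgj, ?_⟩, ?_⟩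
  · rw [div_lt_one (hden j hgj)]; linarith
  · have := (hden j hgj).ne'
    field_simp
    ring
  · intro i
    by_cases hi : g i < 0
    · have h1 := hmin i (by simp [s, hi])
      have h2 := hden i hi
      have h3 : f j / (f j - g j) * (f i - g i) ≤ f i / (f i - g i) * (f i - g i) :=
        mul_le_mul_of_nonneg_right h1 h2.le
      rw [div_mul_cancel₀ _ h2.ne'] at h3
      linarith
    · push Not at hi
      have h1 : f j / (f j - g j) ≤ 1 := by
        rw [div_le_one (hden j hgj)]; linarith
      have h2 : 0 ≤ f j / (f j - g j) := div_nonneg (hf j) (hden j hgj).le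
      have h3 : 0 ≤ (1 - f j / (f j - g j)) * f i := mul_nonneg (by linarith) (hf i)
      have h4 : 0 ≤ f j / (f j - g j) * g i := mul_nonneg h2 hi
      linarith

/-- a point of the line a b with coordinates: affine parameter -/
theorem on_line {a b p : Pt} (hab : a ≠ b) (h : orient a b p = 0) :
    ∃ s : ℝ, p = (1 - s) • a + s • b := by
  unfold orient at h
  by_cases h1 : b.1 - a.1 = 0
  · have h2 : b.2 - a.2 ≠ 0 := by
      intro h2; apply hab; ext <;> linarith
    refine ⟨(p.2 - a.2) / (b.2 - a.2), ?_⟩
    have h3 : p.1 - a.1 = 0 := by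
      rw [h1] at h
      have h4 : (b.2 - a.2) * (p.1 - a.1) = 0 := by linarith
      rcases mul_eq_zero.1 h4 with h5 | h5
      · exact absurd h5 h2
      · exact h5
    ext
    · simp only [Prod.fst_add, Prod.smul_fst, smul_eq_mul]
      have : b.1 = a.1 := by linarith
      rw [this]; linarith
    · simp only [Prod.snd_add, Prod.smul_snd, smul_eq_mul]
      field_simp
      ring
  · refine ⟨(p.1 - a.1) / (b.1 - a.1), ?_⟩
    ext
    · simp only [Prod.fst_add, Prod.smul_fst, smul_eq_mul]
      field_simp
      ring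
    · simp only [Prod.snd_add, Prod.smul_snd, smul_eq_mul]
      have h7 : p.2 - a.2 = (p.1 - a.1) / (b.1 - a.1) * (b.2 - a.2) := by
        rw [div_mul_eq_mul_div, eq_div_iff h1]
        linarith
      linarith

/-- a point of the closed triangle on the line of a side lies on the side -/
theorem on_side {a b c p : Pt} (h : 0 < orient a b c) (h1 : orient a b p = 0)
    (h2 : 0 ≤ orient b c p) (h3 : 0 ≤ orient c a p) :
    ∃ s : ℝ, 0 ≤ s ∧ s ≤ 1 ∧ p = (1 - s) • a + s • b := by
  have hab : a ≠ b := by rintro rfl; simp [orient_self1] at h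
  obtain ⟨s, hs⟩ := on_line hab h1
  refine ⟨s, ?_, ?_, hs⟩
  · rw [hs, orient_comb2 c a a b (1 - s) s (by ring), orient_self3, orient_rot'] at h3
    by_contra hc
    push Not at hc
    nlinarith
  · rw [hs, orient_comb2 b c a b (1 - s) s (by ring), orient_self2, orient_rot] at h2
    by_contra hc
    push Not at hc
    nlinarith

/-- closed triangle, counterclockwise -/
def InT (a b c p : Pt) : Prop := 0 ≤ orient a b p ∧ 0 ≤ orient b c p ∧ 0 ≤ orient c a p

theorem InT.rot {a b c p : Pt} (h : InT a b c p) : InT b c a p := ⟨h.2.1, h.2.2, h.1⟩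

/-- a segment from a point p of the closed triangle a b c to a point w outside leaves through a
closed side -/
theorem exit_tri {a b c p w : Pt} (habc : 0 < orient a b c) (hp : InT a b c p)
    (hw : ¬ InT a b c w) :
    ∃ t : ℝ, 0 ≤ t ∧ t < 1 ∧ InT a b c ((1 - t) • p + t • w) ∧
      ((orient a b w < 0 ∧ ∃ s : ℝ, 0 ≤ s ∧ s ≤ 1 ∧ (1 - t) • p + t • w = (1 - s) • a + s • b) ∨
       (orient b c w < 0 ∧ ∃ s : ℝ, 0 ≤ s ∧ s ≤ 1 ∧ (1 - t) • p + t • w = (1 - s) • b + s • c) ∨
       (orient c a w < 0 ∧ ∃ s : ℝ, 0 ≤ s ∧ s ≤ 1 ∧ (1 - t) • p + t • w = (1 - s) • c + s • a)) := by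
  have hex : ∃ i : Fin 3, (![orient a b w, orient b c w, orient c a w] : Fin 3 → ℝ) i < 0 := by
    by_contra hc
    push Not at hc
    exact hw ⟨hc 0, hc 1, hc 2⟩
  obtain ⟨t, ht0, ht1, ⟨j, hj1, hj2⟩, hall⟩ := exit_point
    (![orient a b p, orient b c p, orient c a p] : Fin 3 → ℝ)
    (![orient a b w, orient b c w, orient c a w] : Fin 3 → ℝ)
    (by intro i; fin_cases i
        · exact hp.1
        · exact hp.2.1
        · exact hp.2.2) hex
  have h0 : orient a b ((1 - t) • p + t • w) = (1 - t) * orient a b p + t * orient a b w :=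
    orient_comb2 _ _ _ _ _ _ (by ring)
  have h1 : orient b c ((1 - t) • p + t • w) = (1 - t) * orient b c p + t * orient b c w :=
    orient_comb2 _ _ _ _ _ _ (by ring)
  have h2 : orient c a ((1 - t) • p + t • w) = (1 - t) * orient c a p + t * orient c a w :=
    orient_comb2 _ _ _ _ _ _ (by ring)
  have g0 : 0 ≤ orient a b ((1 - t) • p + t • w) := by rw [h0]; exact hall 0
  have g1 : 0 ≤ orient b c ((1 - t) • p + t • w) := by rw [h1]; exact hall 1
  have g2 : 0 ≤ orient c a ((1 - t) • p + t • w) := by rw [h2]; exact hall 2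
  refine ⟨t, ht0, ht1, ⟨g0, g1, g2⟩, ?_⟩
  fin_cases j
  · left
    exact ⟨hj1, on_side habc (by rw [h0]; exact hj2) g1 g2⟩
  · right; left
    exact ⟨hj1, on_side (by rw [orient_rot]; exact habc) (by rw [h1]; exact hj2) g2 g0⟩
  · right; right
    exact ⟨hj1, on_side (by rw [orient_rot']; exact habc) (by rw [h2]; exact hj2) g0 g1⟩

/-- a segment of P which leaves a side of P crosses it properly -/
theorem side_exit {P : Finset Pt} (hg : Gen P) {a b c d p : Pt} (ha : a ∈ P) (hb : b ∈ P)
    (hc : c ∈ P) (hd : d ∈ P) (hab : a ≠ b) {r : ℝ} (hr0 : 0 ≤ r) (hr1 : r ≤ 1)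
    (hp : p = (1 - r) • c + r • d) (hpos : 0 < orient a b p) (hneg : orient a b d < 0)
    {t s : ℝ} (ht0 : 0 ≤ t) (ht1 : t ≤ 1) (hs0 : 0 ≤ s) (hs1 : s ≤ 1)
    (hz : (1 - t) • p + t • d = (1 - s) • a + s • b) : Xs c d a b := by
  have e0 : orient a b p = (1 - r) * orient a b c + r * orient a b d := by
    rw [hp]; exact orient_comb2 _ _ _ _ _ _ (by ring)
  have hda : d ≠ a := by rintro rfl; simp [orient_self2] at hneg
  have hdb : d ≠ b := by rintro rfl; simp [orient_self3] at hneg
  have hcpos : 0 < orient a b c := by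
    by_contra h
    push Not at h
    have h1 : (1 - r) * orient a b c ≤ 0 := mul_nonpos_of_nonneg_of_nonpos (by linarith) h
    have h2 : r * orient a b d ≤ 0 := mul_nonpos_of_nonneg_of_nonpos hr0 hneg.le
    linarith
  have hca : c ≠ a := by rintro rfl; simp [orient_self2] at hcpos
  have hcb : c ≠ b := by rintro rfl; simp [orient_self3] at hcpos
  have hcd : c ≠ d := by rintro rfl; linarith
  have hz2 : (1 - ((1 - t) * r + t)) • c + ((1 - t) * r + t) • d = (1 - s) • a + s • b := by
    rw [← hz, hp]
    module
  refine Xs.of_point (hg c hc d hd a ha hcd hca hda) (hg c hc d hd b hb hcd hcb hdb)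
    (hg a ha b hb c hc hab hca.symm hcb.symm) (hg a ha b hb d hd hab hda.symm hdb.symm)
    (s := (1 - t) * r + t) (t := s) ?_ ?_ hs0 hs1 hz2
  · have := mul_nonneg (sub_nonneg.2 ht1) hr0
    linarith
  · have := mul_nonneg (sub_nonneg.2 ht1) (sub_nonneg.2 hr1)
    nlinarith

/-- angularly first point of a finite set in an open half plane -/
theorem first_angle {x w : Pt} (S : Finset Pt) (hS : S.Nonempty)
    (h : ∀ p ∈ S, 0 < orient x w p) : ∃ a ∈ S, ∀ p ∈ S, 0 ≤ orient x a p := by
  let D : Pt → ℝ := fun p => (w.1 - x.1) * (p.1 - x.1) + (w.2 - x.2) * (p.2 - x.2)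
  obtain ⟨a, ha, hmax⟩ := S.exists_max_image (fun p => D p / orient x w p) hS
  refine ⟨a, ha, ?_⟩
  intro p hp
  have h1 := hmax p hp
  have hpa := h a ha
  have hpp := h p hp
  rw [div_le_div_iff₀ hpp hpa] at h1
  have hn : 0 < (w.1 - x.1) ^ 2 + (w.2 - x.2) ^ 2 := by
    rcases eq_or_ne (w.1 - x.1) 0 with h2 | h2
    · rcases eq_or_ne (w.2 - x.2) 0 with h3 | h3
      · exfalso
        unfold orient at hpa
        rw [h2, h3] at hpa
        simp at hpa
      · positivity
    · positivity
  have key : ((w.1 - x.1) ^ 2 + (w.2 - x.2) ^ 2) * orient x a p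
      = D a * orient x w p - D p * orient x w a := by
    simp only [D]
    unfold orient
    ring
  have h4 : 0 ≤ ((w.1 - x.1) ^ 2 + (w.2 - x.2) ^ 2) * orient x a p := by
    rw [key]; linarith
  by_contra hc
  push Not at hc
  nlinarith

/-- angularly last point of a finite set in an open half plane -/
theorem last_angle {x w : Pt} (S : Finset Pt) (hS : S.Nonempty)
    (h : ∀ p ∈ S, 0 < orient x w p) : ∃ a ∈ S, ∀ p ∈ S, orient x a p ≤ 0 := by
  let D : Pt → ℝ := fun p => (w.1 - x.1) * (p.1 - x.1) + (w.2 - x.2) * (p.2 - x.2)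
  obtain ⟨a, ha, hmax⟩ := S.exists_min_image (fun p => D p / orient x w p) hS
  refine ⟨a, ha, ?_⟩
  intro p hp
  have h1 := hmax p hp
  have hpa := h a ha
  have hpp := h p hp
  rw [div_le_div_iff₀ hpa hpp] at h1
  have hn : 0 < (w.1 - x.1) ^ 2 + (w.2 - x.2) ^ 2 := by
    rcases eq_or_ne (w.1 - x.1) 0 with h2 | h2
    · rcases eq_or_ne (w.2 - x.2) 0 with h3 | h3
      · exfalso
        unfold orient at hpa
        rw [h2, h3] at hpa
        simp at hpa
      · positivity
    · positivity
  have key : ((w.1 - x.1) ^ 2 + (w.2 - x.2) ^ 2) * orient x a p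
      = D a * orient x w p - D p * orient x w a := by
    simp only [D]
    unfold orient
    ring
  have h4 : ((w.1 - x.1) ^ 2 + (w.2 - x.2) ^ 2) * orient x a p ≤ 0 := by
    rw [key]; linarith
  by_contra hc
  push Not at hc
  nlinarith

/-- parameter of a crossing -/
theorem Xs.param {x a c d : Pt} (h : Xs x a c d) {s : ℝ}
    (hs : orient c d ((1 - s) • x + s • a) = 0) :
    s = orient c d x / (orient c d x - orient c d a) := by
  rw [orient_comb2 c d x a (1 - s) s (by ring)] at hs
  have h1 : orient c d x - orient c d a ≠ 0 := by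
    intro h0
    have h2 : orient c d x = orient c d a := by linarith
    have := h.2
    rw [h2] at this
    nlinarith [mul_self_nonneg (orient c d a)]
  rw [eq_div_iff h1]
  linarith

/-- barycentric identity -/
theorem orient_bary (u v a b c p : Pt) :
    orient a b c * orient u v p = orient b c p * orient u v a + orient c a p * orient u v b
      + orient a b p * orient u v c := by
  unfold orient; ring

theorem InT.comb {a b c p q : Pt} {s : ℝ} (hp : InT a b c p) (hq : InT a b c q) (h0 : 0 ≤ s)
    (h1 : s ≤ 1) : InT a b c ((1 - s) • p + s • q) := by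
  have h2 : 0 ≤ 1 - s := by linarith
  refine ⟨?_, ?_, ?_⟩
  · rw [orient_comb2 _ _ _ _ _ _ (by ring)]
    exact add_nonneg (mul_nonneg h2 hp.1) (mul_nonneg h0 hq.1)
  · rw [orient_comb2 _ _ _ _ _ _ (by ring)]
    exact add_nonneg (mul_nonneg h2 hp.2.1) (mul_nonneg h0 hq.2.1)
  · rw [orient_comb2 _ _ _ _ _ _ (by ring)]
    exact add_nonneg (mul_nonneg h2 hp.2.2) (mul_nonneg h0 hq.2.2)

theorem InT.v1 {a b c : Pt} (h : 0 < orient a b c) : InT a b c a := by
  refine ⟨by rw [orient_self2], ?_, by rw [orient_self3]⟩
  rw [orient_rot]; exact h.le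

theorem InT.v2 {a b c : Pt} (h : 0 < orient a b c) : InT a b c b := by
  refine ⟨by rw [orient_self3], by rw [orient_self2], ?_⟩
  rw [orient_rot']; exact h.le

theorem InT.v3 {a b c : Pt} (h : 0 < orient a b c) : InT a b c c :=
  ⟨h.le, by rw [orient_self3], by rw [orient_self2]⟩

/-- the point seen from x beside the first edge crossing x a -/
theorem vis_core {P : Finset Pt} {M : Finset (Pt × Pt)} (hg : Gen P) (hM : Pl P M)
    {x a c d : Pt} (hx : x ∈ P) (ha : a ∈ P) (hcd : (c, d) ∈ M) (hX : Xs x a c d)
    (hc : 0 < orient x a c)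
    (hmin : ∀ e f, (e, f) ∈ M → Xs x a e f →
      orient c d x / (orient c d x - orient c d a) ≤
        orient e f x / (orient e f x - orient e f a)) {s t : ℝ} (hs0 : 0 < s) (hs1 : s < 1)
    (ht0 : 0 < t) (ht1 : t < 1) (hq : (1 - s) • x + s • a = (1 - t) • c + t • d) :
    ∃ r ∈ P, r ≠ x ∧ InT x ((1 - s) • x + s • a) c r ∧ Free M x r := by
  classical
  have hP := hM.sub c d hcd
  have hne := hX.ne
  obtain ⟨q, hqdef⟩ : ∃ q, q = (1 - s) • x + s • a := ⟨_, rfl⟩
  rw [← hqdef]
  rw [← hqdef] at hq
  have oq : ∀ p, orient x q p = s * orient x a p := by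
    intro p
    rw [hqdef]
    unfold orient
    simp only [Prod.fst_add, Prod.snd_add, Prod.smul_fst, Prod.smul_snd, smul_eq_mul]
    ring
  have oqc : ∀ p, orient q c p = t * orient d c p := by
    intro p
    rw [hq]
    unfold orient
    simp only [Prod.fst_add, Prod.snd_add, Prod.smul_fst, Prod.smul_snd, smul_eq_mul]
    ring
  -- x is on the positive side of d c
  have hT : 0 < orient x q c := by rw [oq]; exact mul_pos hs0 hc
  have hdcx : 0 < orient d c x := by
    have h1 : 0 < orient q c x := by rw [orient_rot]; exact hT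
    rw [oqc] at h1
    exact (mul_pos_iff_of_pos_left ht0).1 h1
  have hdca : orient d c a < 0 := by
    have h1 := hX.2
    rw [orient_swap d c x, orient_swap d c a] at h1
    by_contra h
    push Not at h
    nlinarith
  -- the candidates
  let S : Finset Pt := P.filter (fun r => r ≠ x ∧ InT x q c r)
  have hcS : c ∈ S := by
    simp only [S, Finset.mem_filter]
    exact ⟨hP.1, hne.2.2.1.symm, InT.v3 hT⟩
  have hS : ∀ p ∈ S, 0 < orient x a p := by
    intro p hp
    simp only [S, Finset.mem_filter] at hp
    obtain ⟨hpP, hpx, hpT⟩ := hp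
    have h1 : 0 ≤ s * orient x a p := by rw [← oq]; exact hpT.1
    have h2 : 0 ≤ orient x a p := nonneg_of_mul_nonneg_right h1 hs0
    rcases h2.lt_or_eq with h3 | h3
    · exact h3
    · exfalso
      have hpa : p ≠ a := by
        rintro rfl
        have h4 := hpT.2.1
        rw [oqc] at h4
        nlinarith
      exact hg x hx a ha p hpP hne.1 hpx.symm hpa.symm h3.symm
  obtain ⟨r, hr, hfirst⟩ := first_angle S ⟨c, hcS⟩ hS
  have har := hS r hr
  have hr' := hr
  simp only [S, Finset.mem_filter] at hr'
  obtain ⟨hrP, hrx, hrT⟩ := hr'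
  refine ⟨r, hrP, hrx, hrT, ?_⟩
  -- r is visible
  have main : ∀ e f, (e, f) ∈ M → Xs x r e f → orient x r f < 0 → False := by
    intro e f hef hY hf
    have hQ := hM.sub e f hef
    have hn2 := hY.ne
    obtain ⟨s', t', hs0', hs1', ht0', ht1', hq'⟩ := hY.point
    have he : 0 < orient x r e := by
      have := hY.1
      by_contra h
      push Not at h
      nlinarith
    obtain ⟨z, hz⟩ : ∃ z, z = (1 - s') • x + s' • r := ⟨_, rfl⟩
    rw [← hz] at hq'
    have hzT : InT x q c z := by
      rw [hz]; exact (InT.v1 hT).comb hrT hs0'.le hs1'.le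
    have hfT : ¬ InT x q c f := by
      intro h
      have hfS : f ∈ S := by
        simp only [S, Finset.mem_filter]
        exact ⟨hQ.2, hn2.2.2.2.1.symm, h⟩
      have := hfirst f hfS
      linarith
    have oaz : 0 < orient x a z := by
      rw [hz, orient_comb2 _ _ _ _ _ _ (by ring), orient_self2]
      have := mul_pos hs0' har
      linarith
    have odz : 0 < orient d c z := by
      rw [hz, orient_comb2 _ _ _ _ _ _ (by ring)]
      have h1 : 0 ≤ orient d c r := by
        have := hrT.2.1
        rw [oqc] at this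
        exact nonneg_of_mul_nonneg_right this ht0
      have h2 := mul_pos (sub_pos.2 hs1') hdcx
      have h3 := mul_nonneg hs0'.le h1
      linarith
    have hrz : orient x r z = 0 := by
      rw [hz, orient_comb2 _ _ _ _ _ _ (by ring), orient_self2, orient_self3]; ring
    obtain ⟨τ, hτ0, hτ1, -, hex⟩ := exit_tri hT hzT hfT
    -- crossing of d c is impossible
    have hcase2 : orient d c f < 0 → ∀ σ : ℝ, 0 ≤ σ → σ ≤ 1 →
        (1 - τ) • z + τ • f = (1 - σ) • d + σ • c → False := by
      intro h1 σ h2 h3 h4
      have h5 := side_exit hg hP.2 hP.1 hQ.1 hQ.2 hne.2.1.symm ht0'.le ht1'.le hq' odz h1 hτ0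
        hτ1.le h2 h3 h4
      exact hM.nc e f d c hef (hM.sym c d hcd) h5
    rcases hex with ⟨h1, σ, hσ0, hσ1, hσ⟩ | ⟨h1, σ, hσ0, hσ1, hσ⟩ | ⟨h1, σ, hσ0, hσ1, hσ⟩
    · -- side x q
      have hfa : orient x a f < 0 := by
        rw [oq] at h1
        by_contra h
        push Not at h
        have := mul_nonneg hs0.le h
        linarith
      have hσ2 : (1 - τ) • z + τ • f = (1 - σ * s) • x + (σ * s) • a := by
        rw [hσ, hqdef]; module
      have hσs0 : 0 ≤ σ * s := mul_nonneg hσ0 hs0.le
      have hσs1 : σ * s ≤ 1 := by nlinarith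
      have h5 := side_exit hg hx ha hQ.1 hQ.2 hne.1 ht0'.le ht1'.le hq' oaz hfa hτ0
        hτ1.le hσs0 hσs1 hσ2
      have h6 := h5.symm
      have hpar1 : σ * s = orient e f x / (orient e f x - orient e f a) := by
        apply h6.param
        rw [← hσ2, orient_comb2 _ _ _ _ _ _ (by ring), orient_self3, hq',
          orient_comb2 _ _ _ _ _ _ (by ring), orient_self2, orient_self3]
        ring
      have hpar2 : s = orient c d x / (orient c d x - orient c d a) := by
        apply hX.param
        rw [← hqdef, hq, orient_comb2 _ _ _ _ _ _ (by ring), orient_self2, orient_self3]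
        ring
      have h7 := hmin e f hef h6
      rw [← hpar1, ← hpar2] at h7
      have hσ1' : σ = 1 := by nlinarith
      subst hσ1'
      -- exit at q : crossing of d c
      have hzq : (1 - τ) • z + τ • f = (1 - (1 - t)) • d + (1 - t) • c := by
        rw [hσ, hq]; module
      have h8 : orient d c f < 0 := by
        have h9 : orient d c ((1 - τ) • z + τ • f) = 0 := by
          rw [hzq, orient_comb2 _ _ _ _ _ _ (by ring), orient_self2, orient_self3]; ring
        rw [orient_comb2 _ _ _ _ _ _ (by ring)] at h9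
        have h10 : 0 < (1 - τ) * orient d c z := mul_pos (sub_pos.2 hτ1) odz
        by_contra h
        push Not at h
        have := mul_nonneg hτ0 h
        linarith
      exact hcase2 h8 (1 - t) (by linarith) (by linarith) hzq
    · -- side q c
      have h8 : orient d c f < 0 := by
        rw [oqc] at h1
        by_contra h
        push Not at h
        have := mul_nonneg ht0.le h
        linarith
      have hσ2 : (1 - τ) • z + τ • f = (1 - (1 - t + t * σ)) • d + (1 - t + t * σ) • c := by
        rw [hσ, hq]; module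
      refine hcase2 h8 (1 - t + t * σ) ?_ ?_ hσ2
      · have := mul_nonneg ht0.le hσ0
        linarith
      · nlinarith
    · -- side c x
      have h2 : orient x r ((1 - τ) • z + τ • f) = τ * orient x r f := by
        rw [orient_comb2 _ _ _ _ _ _ (by ring), hrz]; ring
      have h3 : orient x r ((1 - τ) • z + τ • f) = (1 - σ) * orient x r c := by
        rw [hσ, orient_comb2 _ _ _ _ _ _ (by ring), orient_self2]; ring
      have h4 : 0 ≤ orient x r c := hfirst c hcS
      have h5 : 0 ≤ (1 - σ) * orient x r c := mul_nonneg (by linarith) h4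
      have h6 : τ * orient x r f ≤ 0 := mul_nonpos_of_nonneg_of_nonpos hτ0 hf.le
      have h7 : τ * orient x r f = 0 := by linarith
      have h8 : τ = 0 := by
        rcases mul_eq_zero.1 h7 with h | h
        · exact h
        · exact absurd h hf.ne
      have h9 : (1 - σ) * orient x r c = 0 := by linarith
      rcases mul_eq_zero.1 h9 with h10 | h10
      · have h11 : σ = 1 := by linarith
        rw [h8, h11] at hσ
        have h12 : z = x := by simpa using hσ
        rw [h12, orient_self2] at oaz
        exact lt_irrefl _ oaz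
      · have hrc : r = c := by
          by_contra hrc
          exact hg x hx r hrP c hP.1 hrx.symm hne.2.2.1 hrc h10
        rw [orient_swap, ← hrc] at h1
        linarith
  intro e f hef hY
  rcases lt_or_ge (orient x r f) 0 with h | h
  · exact main e f hef hY h
  · have h2 : orient x r e < 0 := by
      have := hY.1
      by_contra h3
      push Not at h3
      nlinarith
    exact main f e (hM.sym e f hef) hY.swap2 h2

/-- a maximal plane edge set has an edge from x into every open half plane at x that contains a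
point of P -/
theorem MaxPl.half {P : Finset Pt} {M : Finset (Pt × Pt)} (hg : Gen P) (hM : MaxPl P M)
    {x w a : Pt} (hx : x ∈ P) (ha : a ∈ P) (hw : 0 < orient x w a) :
    ∃ r ∈ P, 0 < orient x w r ∧ (x, r) ∈ M := by
  classical
  let S : Finset Pt := P.filter (fun p => 0 < orient x w p)
  have hS : S.Nonempty := ⟨a, by simp [S, ha, hw]⟩
  obtain ⟨b, hb, hfirst⟩ := first_angle S hS (fun p hp => by
    simp only [S, Finset.mem_filter] at hp; exact hp.2)
  simp only [S, Finset.mem_filter] at hb
  obtain ⟨hbP, hbw⟩ := hb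
  have hxb : x ≠ b := by rintro rfl; simp [orient_self2] at hbw
  by_cases hf : Free M x b
  · exact ⟨b, hbP, hbw, hM.max x hx b hbP hxb hf⟩
  -- the first edge crossing x b
  unfold Free at hf
  push Not at hf
  obtain ⟨c0, d0, hcd0, hX0⟩ := hf
  let C : Finset (Pt × Pt) := M.filter (fun e => Xs x b e.1 e.2)
  have hC : C.Nonempty := ⟨(c0, d0), by simp [C, hcd0, hX0]⟩
  obtain ⟨⟨c, d⟩, he, hmin⟩ := C.exists_min_image
    (fun e => orient e.1 e.2 x / (orient e.1 e.2 x - orient e.1 e.2 b)) hC
  simp only [C, Finset.mem_filter] at he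
  obtain ⟨hcd, hX⟩ := he
  have hmin' : ∀ e f, (e, f) ∈ M → Xs x b e f →
      orient c d x / (orient c d x - orient c d b) ≤
        orient e f x / (orient e f x - orient e f b) := by
    intro e f hef hY
    exact hmin (e, f) (by simp [C, hef, hY])
  have main : ∀ c d, (c, d) ∈ M → Xs x b c d → 0 < orient x b c →
      (∀ e f, (e, f) ∈ M → Xs x b e f →
      orient c d x / (orient c d x - orient c d b) ≤
        orient e f x / (orient e f x - orient e f b)) →
      ∃ r ∈ P, 0 < orient x w r ∧ (x, r) ∈ M := by
    intro c d hcd hX hc hmin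
    obtain ⟨s, t, hs0, hs1, ht0, ht1, hq⟩ := hX.point
    have hP := hM.sub c d hcd
    obtain ⟨r, hrP, hrx, hrT, hrf⟩ := vis_core hg hM.toPl hx hbP hcd hX hc hmin hs0 hs1 ht0 ht1 hq
    refine ⟨r, hrP, ?_, hM.max x hx r hrP hrx.symm hrf⟩
    obtain ⟨q, hqd⟩ : ∃ q, q = (1 - s) • x + s • b := ⟨_, rfl⟩
    rw [← hqd] at hrT hq
    have hwq : 0 < orient x w q := by
      rw [hqd, orient_comb2 _ _ _ _ _ _ (by ring), orient_self2]
      have := mul_pos hs0 hbw
      linarith
    have hd : orient x b d < 0 := by
      have := hX.1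
      by_contra h
      push Not at h
      nlinarith
    have hwd : orient x w d ≤ 0 := by
      by_contra h
      push Not at h
      have := hfirst d (by simp [S, hP.2, h])
      linarith
    have hwc : 0 < orient x w c := by
      rw [hq, orient_comb2 _ _ _ _ _ _ (by ring)] at hwq
      have h1 : t * orient x w d ≤ 0 := mul_nonpos_of_nonneg_of_nonpos ht0.le hwd
      have h2 : 0 < (1 - t) * orient x w c := by linarith
      exact (mul_pos_iff_of_pos_left (by linarith)).1 h2
    have hT : 0 < orient x q c := by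
      have : orient x q c = s * orient x b c := by
        rw [hqd]
        unfold orient
        simp only [Prod.fst_add, Prod.snd_add, Prod.smul_fst, Prod.smul_snd, smul_eq_mul]
        ring
      rw [this]; exact mul_pos hs0 hc
    have hb1 := orient_bary x w x q c r
    rw [orient_self2] at hb1
    have h1 : 0 ≤ orient c x r * orient x w q := mul_nonneg hrT.2.2 hwq.le
    have h2 : 0 ≤ orient x q r * orient x w c := mul_nonneg hrT.1 hwc.le
    have h3 : 0 ≤ orient x q c * orient x w r := by linarith
    have h4 : 0 ≤ orient x w r := nonneg_of_mul_nonneg_right h3 hT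
    rcases h4.lt_or_eq with h5 | h5
    · exact h5
    · exfalso
      rw [← h5, mul_zero, mul_zero, zero_add] at hb1
      have h6 : orient c x r * orient x w q = 0 := by linarith
      have h7 : orient x q r * orient x w c = 0 := by linarith
      have h8 : orient c x r = 0 := by
        rcases mul_eq_zero.1 h6 with h | h
        · exact h
        · exact absurd h hwq.ne'
      have h9 : orient x q r = 0 := by
        rcases mul_eq_zero.1 h7 with h | h
        · exact h
        · exact absurd h hwc.ne'
      have h10 : orient x b r = 0 := by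
        have : orient x q r = s * orient x b r := by
          rw [hqd]
          unfold orient
          simp only [Prod.fst_add, Prod.snd_add, Prod.smul_fst, Prod.smul_snd, smul_eq_mul]
          ring
        rw [this] at h9
        rcases mul_eq_zero.1 h9 with h | h
        · exact absurd h hs0.ne'
        · exact h
      have hcx : c ≠ x := hX.ne.2.2.1.symm
      have hrb : r = b := by
        by_contra h
        exact hg x hx b hbP r hrP hxb hrx.symm (Ne.symm h) h10
      have hrc : r = c := by
        by_contra h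
        exact hg c hP.1 x hx r hrP hcx (Ne.symm h) hrx.symm h8
      exact hX.ne.2.2.2.2.1 (hrb.symm.trans hrc)
  rcases lt_or_ge 0 (orient x b c) with h | h
  · exact main c d hcd hX h hmin'
  · have hd : 0 < orient x b d := by
      have := hX.1
      by_contra h3
      push Not at h3
      nlinarith
    refine main d c (hM.sym c d hcd) hX.swap2 hd ?_
    intro e f hef hY
    have h1 := hmin' e f hef hY
    have h2 : orient d c x / (orient d c x - orient d c b)
        = orient c d x / (orient c d x - orient c d b) := by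
      rw [orient_swap c d x, orient_swap c d b]
      rw [show -orient c d x - -orient c d b = -(orient c d x - orient c d b) by ring, neg_div_neg_eq]
    rw [h2]; exact h1

/-- empty triangle on the left of x y with all sides in M -/
structure TriL (P : Finset Pt) (M : Finset (Pt × Pt)) (x y u : Pt) : Prop where
  xy : (x, y) ∈ M
  yu : (y, u) ∈ M
  ux : (u, x) ∈ M
  pos : 0 < orient x y u
  empty : ∀ p ∈ P, InT x y u p → p = x ∨ p = y ∨ p = u

theorem TriL.rot {P : Finset Pt} {M : Finset (Pt × Pt)} {x y u : Pt} (h : TriL P M x y u) :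
    TriL P M y u x := by
  refine ⟨h.yu, h.ux, h.xy, by rw [orient_rot]; exact h.pos, ?_⟩
  intro p hp hT
  have := h.empty p hp hT.rot.rot
  tauto

/-- every directed edge of a maximal plane set with a point of P on its left has an empty triangle
on its left; its third vertex is the first neighbour of x -/
theorem MaxPl.tri_left {P : Finset Pt} {M : Finset (Pt × Pt)} (hg : Gen P) (hM : MaxPl P M)
    {x y w : Pt} (hxy : (x, y) ∈ M) (hw : w ∈ P) (hpos : 0 < orient x y w) :
    ∃ u, TriL P M x y u ∧ ∀ p, (x, p) ∈ M → 0 < orient x y p → 0 ≤ orient x u p := by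
  classical
  have hP := hM.sub x y hxy
  have hne := hM.ne x y hxy
  let S : Finset Pt := P.filter (fun p => (x, p) ∈ M ∧ 0 < orient x y p)
  have hS : S.Nonempty := by
    obtain ⟨r, hr, h1, h2⟩ := hM.half hg hP.1 hw hpos
    exact ⟨r, by simp [S, hr, h1, h2]⟩
  obtain ⟨u, hu, hfirst⟩ := first_angle S hS (fun p hp => by
    simp only [S, Finset.mem_filter] at hp; exact hp.2.2)
  simp only [S, Finset.mem_filter] at hu
  obtain ⟨huP, hxu, huy⟩ := hu
  have hf' : ∀ p, (x, p) ∈ M → 0 < orient x y p → 0 ≤ orient x u p := by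
    intro p hp h1
    exact hfirst p (by simp [S, (hM.sub x p hp).2, hp, h1])
  have hux : (u, x) ∈ M := hM.sym x u hxu
  have hxne : x ≠ u := hM.ne x u hxu
  have hyu : y ≠ u := by rintro rfl; simp [orient_self3] at huy
  -- ends of edges through the triangle stay inside
  have stay : ∀ c d, (c, d) ∈ M → ∀ t : ℝ, 0 ≤ t → t ≤ 1 → ∀ q, q = (1 - t) • c + t • d →
      InT x y u q → 0 < orient x y q → 0 < orient u x q → 0 ≤ orient y u d → InT x y u d := by
    intro c d hcd t ht0 ht1 q hq hqT hq1 hq2 hd
    have hQ := hM.sub c d hcd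
    by_contra hnot
    obtain ⟨τ, hτ0, hτ1, -, hex⟩ := exit_tri huy hqT hnot
    rcases hex with ⟨h1, σ, hσ0, hσ1, hσ⟩ | ⟨h1, σ, hσ0, hσ1, hσ⟩ | ⟨h1, σ, hσ0, hσ1, hσ⟩
    · exact hM.nc c d x y hcd hxy (side_exit hg hP.1 hP.2 hQ.1 hQ.2 hne ht0 ht1 hq hq1 h1 hτ0
        hτ1.le hσ0 hσ1 hσ)
    · linarith
    · exact hM.nc c d u x hcd hux (side_exit hg huP hP.1 hQ.1 hQ.2 hxne.symm ht0 ht1 hq hq2 h1 hτ0
        hτ1.le hσ0 hσ1 hσ)
  -- empty
  have hempty : ∀ p ∈ P, InT x y u p → p = x ∨ p = y ∨ p = u := by
    by_contra hcon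
    push Not at hcon
    obtain ⟨p0, hp0, hT0, hp0x, hp0y, hp0u⟩ := hcon
    let E : Finset Pt := P.filter (fun p => InT x y u p ∧ p ≠ x ∧ p ≠ y ∧ p ≠ u)
    have hE : E.Nonempty := ⟨p0, by simp [E, hp0, hT0, hp0x, hp0y, hp0u]⟩
    obtain ⟨a, ha, hmax⟩ := E.exists_max_image (fun p => orient y u p) hE
    simp only [E, Finset.mem_filter] at ha
    obtain ⟨haP, haT, hax, hay, hau⟩ := ha
    have h1 : 0 < orient x y a :=
      lt_of_le_of_ne haT.1 (Ne.symm (hg x hP.1 y hP.2 a haP hne hax.symm hay.symm))
    have h2 : 0 < orient y u a :=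
      lt_of_le_of_ne haT.2.1 (Ne.symm (hg y hP.2 u huP a haP hyu hay.symm hau.symm))
    have h3 : 0 < orient u x a :=
      lt_of_le_of_ne haT.2.2 (Ne.symm (hg u huP x hP.1 a haP hxne.symm hau.symm hax.symm))
    have h4 : (x, a) ∉ M := by
      intro h
      have h5 := hf' a h h1
      rw [orient_swap] at h3
      linarith
    have h5 : ¬ Free M x a := fun h => h4 (hM.max x hP.1 a haP hax.symm h)
    unfold Free at h5
    push Not at h5
    obtain ⟨c, d, hcd, hX⟩ := h5
    have main : ∀ c d, (c, d) ∈ M → Xs x a c d → orient y u c ≤ orient y u d → False := by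
      intro c d hcd hX hle
      obtain ⟨s, t, hs0, hs1, ht0, ht1, hq⟩ := hX.point
      have hQ := hM.sub c d hcd
      have hn := hX.ne
      obtain ⟨q, hqd⟩ : ∃ q, q = (1 - s) • x + s • a := ⟨_, rfl⟩
      rw [← hqd] at hq
      have k1 : orient y u q = (1 - s) * orient y u x + s * orient y u a := by
        rw [hqd]; exact orient_comb2 _ _ _ _ _ _ (by ring)
      have k2 : orient y u q = (1 - t) * orient y u c + t * orient y u d := by
        rw [hq]; exact orient_comb2 _ _ _ _ _ _ (by ring)
      have k3 : orient y u a < orient y u x := by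
        have : orient y u x = orient x y a + orient y u a + orient u x a := by
          unfold orient; ring
        linarith
      have k4 : orient y u a < orient y u q := by
        rw [k1]; nlinarith
      have k5 : orient y u q ≤ orient y u d := by
        rw [k2]; nlinarith
      have hqT : InT x y u q := by rw [hqd]; exact (InT.v1 huy).comb haT hs0.le hs1.le
      have hq1 : 0 < orient x y q := by
        rw [hqd, orient_comb2 _ _ _ _ _ _ (by ring), orient_self2]
        have := mul_pos hs0 h1
        linarith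
      have hq2 : 0 < orient u x q := by
        rw [hqd, orient_comb2 _ _ _ _ _ _ (by ring), orient_self3]
        have := mul_pos hs0 h3
        linarith
      have hdT := stay c d hcd t ht0.le ht1.le q hq hqT hq1 hq2 (by linarith)
      have hdy : d ≠ y := by rintro rfl; rw [orient_self2] at k5; linarith
      have hdu : d ≠ u := by rintro rfl; rw [orient_self3] at k5; linarith
      have := hmax d (by simp [E, hQ.2, hdT, hn.2.2.2.1.symm, hdy, hdu])
      linarith
    rcases le_total (orient y u c) (orient y u d) with h | h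
    · exact main c d hcd hX h
    · exact main d c (hM.sym c d hcd) hX.swap2 h
  -- the third side
  have hyuM : (y, u) ∈ M := by
    apply hM.max y hP.2 u huP hyu
    have main : ∀ c d, (c, d) ∈ M → Xs y u c d → 0 < orient y u d → False := by
      intro c d hcd hX hle
      obtain ⟨s, t, hs0, hs1, ht0, ht1, hq⟩ := hX.point
      have hQ := hM.sub c d hcd
      have hn := hX.ne
      obtain ⟨q, hqd⟩ : ∃ q, q = (1 - s) • y + s • u := ⟨_, rfl⟩
      rw [← hqd] at hq
      have hqT : InT x y u q := by
        rw [hqd]; exact (InT.v2 huy).comb (InT.v3 huy) hs0.le hs1.le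
      have hq1 : 0 < orient x y q := by
        rw [hqd, orient_comb2 _ _ _ _ _ _ (by ring), orient_self3]
        have := mul_pos hs0 huy
        linarith
      have hq2 : 0 < orient u x q := by
        rw [hqd, orient_comb2 _ _ _ _ _ _ (by ring), orient_self2, orient_rot']
        have := mul_pos (sub_pos.2 hs1) huy
        linarith
      have hdT := stay c d hcd t ht0.le ht1.le q hq hqT hq1 hq2 hle.le
      have hdx : d = x := by
        rcases hempty d hQ.2 hdT with h | h | h
        · exact h
        · exact absurd h hn.2.2.2.1.symm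
        · exact absurd h hn.2.2.2.2.2.symm
      subst hdx
      have h1 : 0 < orient d y c := by
        rw [hq, orient_comb2 _ _ _ _ _ _ (by ring), orient_self2] at hq1
        have : 0 < (1 - t) * orient d y c := by linarith
        exact (mul_pos_iff_of_pos_left (by linarith)).1 this
      have h2 : 0 < orient u d c := by
        rw [hq, orient_comb2 _ _ _ _ _ _ (by ring), orient_self3] at hq2
        have : 0 < (1 - t) * orient u d c := by linarith
        exact (mul_pos_iff_of_pos_left (by linarith)).1 this
      have h3 := hf' c (hM.sym c d hcd) h1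
      rw [orient_swap] at h2
      linarith
    intro c d hcd hX
    rcases lt_or_ge 0 (orient y u d) with h | h
    · exact main c d hcd hX h
    · have hc : 0 < orient y u c := by
        have := hX.1
        by_contra h3
        push Not at h3
        nlinarith
      exact main d c (hM.sym c d hcd) hX.swap2 hc
  exact ⟨u, ⟨hxy, hyuM, hux, huy, hempty⟩, hf'⟩

/-- the left triangle is unique -/
theorem TriL.unique {P : Finset Pt} {M : Finset (Pt × Pt)} (hg : Gen P) (hM : Pl P M)
    {x y u v : Pt} (h : TriL P M x y u) (h' : TriL P M x y v) : u = v := by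
  by_contra huv
  have hxy := hM.sub x y h.xy
  have hu := (hM.sub y u h.yu).2
  have hv := (hM.sub y v h'.yu).2
  have nxy := hM.ne x y h.xy
  have nyu := hM.ne y u h.yu
  have nyv := hM.ne y v h'.yu
  have nux := hM.ne u x h.ux
  have nvx := hM.ne v x h'.ux
  -- symmetric statement
  have main : ∀ u v, TriL P M x y u → TriL P M x y v → u ≠ v → 0 < orient x u v → False := by
    intro u v h h' huv h1
    have hu := (hM.sub y u h.yu).2
    have hv := (hM.sub y v h'.yu).2
    have nyu := hM.ne y u h.yu
    have nyv := hM.ne y v h'.yu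
    have nux := hM.ne u x h.ux
    have nvx := hM.ne v x h'.ux
    -- orient y v u : if positive then u is inside x y v
    rcases lt_trichotomy (orient y v u) 0 with h2 | h2 | h2
    · apply hM.nc x u y v (hM.sym u x h.ux) h'.yu
      refine ⟨?_, ?_⟩
      · rw [orient_swap' x y u]
        have := h.pos
        nlinarith
      · rw [orient_rot x y v]
        have h3 : 0 < orient x y v := h'.pos
        nlinarith
    · exact hg y hxy.2 v hv u hu nyv nyu (Ne.symm huv) h2
    · have h3 : InT x y v u := by
        refine ⟨h.pos.le, h2.le, ?_⟩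
        rw [orient_rot']
        exact h1.le
      rcases h'.empty u hu h3 with h4 | h4 | h4
      · exact nux h4
      · exact nyu h4.symm
      · exact huv h4
  rcases lt_trichotomy (orient x u v) 0 with h1 | h1 | h1
  · have h2 : 0 < orient x v u := by rw [orient_swap']; linarith
    exact main v u h' h (Ne.symm huv) h2
  · exact hg x hxy.1 u hu v hv nux.symm nvx.symm huv h1
  · exact main u v h h' huv h1

end Pool.Agent.RFT

end
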