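import Mathlib
import Pool.Agent.RFM.P01

set_option autoImplicit false

/-!
# RFM/P03 (MP_72a26e_co): the files RFX/Cvx, RFX/Hull, RFX/NFNx, RFX/Fin2, merged to save build time
-/

section

set_option autoImplicit false

/-!
# RFX/Cvx : a finite convexly independent set has a ccw list (MP_72a26e_co)
-/

namespace Pool.Agent.RFX

open List

/-- sorting a finite set along a relation which is a strict total order on it -/
theorem exists_sorted {α : Type*} [DecidableEq α] (R : α → α → Prop) (S : Finset α)
    (hirr : ∀ a ∈ S, ¬ R a a)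
    (htot : ∀ a ∈ S, ∀ b ∈ S, a ≠ b → R a b ∨ R b a)
    (htr : ∀ a ∈ S, ∀ b ∈ S, ∀ c ∈ S, R a b → R b c → R a c) :
    ∃ l : List α, l.Nodup ∧ l.toFinset = S ∧ l.Pairwise R := by
  classical
  induction S using Finset.induction_on with
  | empty => exact ⟨[], by simp⟩
  | insert z S hz ih =>
    obtain ⟨l, h1, h2, h3⟩ := ih (fun a ha => hirr a (Finset.mem_insert_of_mem ha))
      (fun a ha b hb => htot a (Finset.mem_insert_of_mem ha) b (Finset.mem_insert_of_mem hb))
      (fun a ha b hb c hc => htr a (Finset.mem_insert_of_mem ha) b (Finset.mem_insert_of_mem hb)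
        c (Finset.mem_insert_of_mem hc))
    have hmem : ∀ x, x ∈ l ↔ x ∈ S := by
      intro x; rw [← h2]; simp
    have hzl : z ∉ l := fun h => hz ((hmem z).1 h)
    set l1 := l.filter (fun x => decide (R x z)) with hl1
    set l2 := l.filter (fun x => decide (R z x)) with hl2
    have m1 : ∀ x, x ∈ l1 ↔ x ∈ S ∧ R x z := by
      intro x; rw [hl1]; simp [hmem]
    have m2 : ∀ x, x ∈ l2 ↔ x ∈ S ∧ R z x := by
      intro x; rw [hl2]; simp [hmem]
    have hzz : ¬ R z z := hirr z (Finset.mem_insert_self z S)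
    have hpw : (l1 ++ z :: l2).Pairwise R := by
      rw [List.pairwise_append]
      refine ⟨h3.filter _, ?_, ?_⟩
      · rw [List.pairwise_cons]
        exact ⟨fun a ha => ((m2 a).1 ha).2, h3.filter _⟩
      · intro a ha b hb
        have ha' := (m1 a).1 ha
        rw [List.mem_cons] at hb
        rcases hb with rfl | hb
        · exact ha'.2
        · have hb' := (m2 b).1 hb
          exact htr a (Finset.mem_insert_of_mem ha'.1) z (Finset.mem_insert_self z S) b
            (Finset.mem_insert_of_mem hb'.1) ha'.2 hb'.2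
    have hset : (l1 ++ z :: l2).toFinset = insert z S := by
      ext x
      simp only [List.mem_toFinset, List.mem_append, List.mem_cons, m1, m2, Finset.mem_insert]
      constructor
      · rintro (h | h | h)
        · exact Or.inr h.1
        · exact Or.inl h
        · exact Or.inr h.1
      · rintro (h | h)
        · exact Or.inr (Or.inl h)
        · have hne : x ≠ z := fun e => hz (e ▸ h)
          rcases htot x (Finset.mem_insert_of_mem h) z (Finset.mem_insert_self z S) hne with h4 | h4
          · exact Or.inl ⟨h, h4⟩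
          · exact Or.inr (Or.inr ⟨h, h4⟩)
    refine ⟨l1 ++ z :: l2, ?_, hset, hpw⟩
    have hin : ∀ x ∈ l1 ++ z :: l2, x ∈ insert z S := by
      intro x hx
      rw [← hset]; exact List.mem_toFinset.2 hx
    have : (l1 ++ z :: l2).Pairwise (fun a b => a ≠ b) := by
      apply hpw.imp_of_mem
      intro a b ha hb hab e
      subst e
      exact hirr a (hin a ha) hab
    exact this

/-- half plane used to sort directions -/
def HP (u : Pt) : Prop := 0 < u.1 ∨ (u.1 = 0 ∧ 0 < u.2)

theorem orient_trans (p a b c : Pt) (ha : HP (a - p)) (hb : HP (b - p)) (hc : HP (c - p))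
    (h1 : 0 < orient p a b) (h2 : 0 < orient p b c) : 0 < orient p a c := by
  unfold HP at ha hb hc
  unfold orient at *
  simp only [Prod.fst_sub, Prod.snd_sub] at ha hb hc
  set u1 := a.1 - p.1
  set u2 := a.2 - p.2
  set v1 := b.1 - p.1
  set v2 := b.2 - p.2
  set w1 := c.1 - p.1
  set w2 := c.2 - p.2
  have hu1 : 0 ≤ u1 := by rcases ha with h | h; exacts [h.le, h.1.ge]
  have hw1 : 0 ≤ w1 := by rcases hc with h | h; exacts [h.le, h.1.ge]
  have hid : (u1 * w2 - u2 * w1) * v1 = (u1 * v2 - u2 * v1) * w1 + (v1 * w2 - v2 * w1) * u1 := by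
    ring
  rcases hb with hb | hb
  · by_contra hneg
    push Not at hneg
    have h3 : (u1 * w2 - u2 * w1) * v1 ≤ 0 := mul_nonpos_of_nonpos_of_nonneg hneg hb.le
    have h4 : 0 ≤ (u1 * v2 - u2 * v1) * w1 := mul_nonneg h1.le hw1
    have h5 : 0 ≤ (v1 * w2 - v2 * w1) * u1 := mul_nonneg h2.le hu1
    have h6 : (u1 * v2 - u2 * v1) * w1 = 0 := by linarith
    have h7 : (v1 * w2 - v2 * w1) * u1 = 0 := by linarith
    have h8 : w1 = 0 := by
      rcases mul_eq_zero.1 h6 with h | h
      · exact absurd h h1.ne'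
      · exact h
    have h9 : u1 = 0 := by
      rcases mul_eq_zero.1 h7 with h | h
      · exact absurd h h2.ne'
      · exact h
    have h10 : 0 < u2 := by
      rcases ha with h | h
      · rw [h9] at h; exact absurd h (lt_irrefl _)
      · exact h.2
    rw [h9] at h1
    have : 0 < u2 * v1 := mul_pos h10 hb
    linarith
  · obtain ⟨hv1, hv2⟩ := hb
    rw [hv1] at h1 h2
    exfalso
    have : 0 ≤ v2 * w1 := mul_nonneg hv2.le hw1
    linarith

theorem exists_ccw (A : Finset Pt) (hg : Gen A)
    (hc : ∀ b ∈ A, b ∉ convexHull ℝ ((A : Set Pt) \ {b})) : CP A := by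
  classical
  rcases A.eq_empty_or_nonempty with rfl | hne
  · refine ⟨[], by simp, by simp, ?_⟩
    intro a b c h
    simp at h
  · obtain ⟨p, hp, hmin⟩ := Finset.exists_min_image A (fun q => toLex q) hne
    have hHP : ∀ a ∈ A.erase p, HP (a - p) := by
      intro a ha
      have h1 := hmin a (Finset.mem_of_mem_erase ha)
      have h2 : a ≠ p := Finset.ne_of_mem_erase ha
      rw [Prod.Lex.toLex_le_toLex] at h1
      unfold HP
      simp only [Prod.fst_sub, Prod.snd_sub]
      rcases h1 with h | ⟨h, h'⟩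
      · left; linarith
      · right
        refine ⟨by linarith, ?_⟩
        rcases lt_or_eq_of_le h' with h3 | h3
        · linarith
        · exact absurd (Prod.ext h.symm h3.symm) h2
    obtain ⟨l, h1, h2, h3⟩ := exists_sorted (fun a b => 0 < orient p a b) (A.erase p)
      (by intro a _ h; rw [orient_self3] at h; exact lt_irrefl _ h)
      (by
        intro a ha b hb hab
        have h4 := hg p hp a (Finset.mem_of_mem_erase ha) b (Finset.mem_of_mem_erase hb)
          (Finset.ne_of_mem_erase ha).symm (Finset.ne_of_mem_erase hb).symm hab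
        rcases lt_or_gt_of_ne h4 with h5 | h5
        · right
          rw [orient_swap']; linarith
        · left; exact h5)
      (by
        intro a ha b hb c hc h4 h5
        exact orient_trans p a b c (hHP a ha) (hHP b hb) (hHP c hc) h4 h5)
    have hmem : ∀ x, x ∈ l ↔ x ∈ A.erase p := by
      intro x; rw [← h2]; simp
    refine ⟨p :: l, ?_, ?_, ?_⟩
    · rw [List.nodup_cons]
      refine ⟨?_, h1⟩
      intro h
      have := (hmem p).1 h
      simp at this
    · rw [List.toFinset_cons, h2, Finset.insert_erase hp]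
    · intro a b c habc
      rw [List.sublist_cons_iff] at habc
      rcases habc with habc | ⟨r, hr, hrl⟩
      · have h4 := h3.sublist habc
        simp only [List.pairwise_cons, List.mem_cons, List.not_mem_nil, or_false] at h4
        have hab : 0 < orient p a b := h4.1 b (Or.inl rfl)
        have hac : 0 < orient p a c := h4.1 c (Or.inr rfl)
        have hbc : 0 < orient p b c := h4.2.1 c rfl
        have ha : a ∈ A.erase p := (hmem a).1 (habc.subset (by simp))
        have hb : b ∈ A.erase p := (hmem b).1 (habc.subset (by simp))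
        have hc' : c ∈ A.erase p := (hmem c).1 (habc.subset (by simp))
        by_contra hneg
        push Not at hneg
        apply hc b (Finset.mem_of_mem_erase hb)
        have hba : b ≠ a := by rintro rfl; rw [orient_self3] at hab; exact lt_irrefl _ hab
        have hbc' : b ≠ c := by rintro rfl; rw [orient_self3] at hbc; exact lt_irrefl _ hbc
        have hbp : b ≠ p := Finset.ne_of_mem_erase hb
        apply mem_hull3 p a c b hac hab.le
        · rw [orient_swap']; linarith
        · rw [orient_rot']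
          exact hbc.le
        · exact ⟨hp, fun e => hbp e.symm⟩
        · exact ⟨Finset.mem_of_mem_erase ha, fun e => hba e.symm⟩
        · exact ⟨Finset.mem_of_mem_erase hc', fun e => hbc' e.symm⟩
      · simp only [List.cons.injEq] at hr
        obtain ⟨rfl, rfl⟩ := hr
        have h4 := h3.sublist hrl
        simp only [List.pairwise_cons, List.mem_cons, List.not_mem_nil, or_false] at h4
        exact h4.1 c rfl

theorem cp_of_convexIndependent (A : Finset Pt) (hg : Gen A)
    (hc : ConvexIndependent ℝ (fun x : ((A : Set Pt)) => (x : Pt))) : CP A := by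
  apply exists_ccw A hg
  intro b hb hmem
  have h := (convexIndependent_set_iff_notMem_convexHull_sdiff (𝕜 := ℝ) (s := (A : Set Pt))).1 hc
  exact h b hb hmem

end Pool.Agent.RFX

end

section

set_option autoImplicit false

/-!
# RFX/Hull : sides and vertices of cells, the hull list, gluing of cells (MP_72a26e_co)
-/

namespace Pool.Agent.RFX

open List

theorem HE.succ_unique {t : Finset Pt} {v b b' : Pt} (h : HE t v b) (h' : HE t v b') : b = b' := by
  by_contra hne
  have h1 := h.2.2.2 b' h'.2.1 h'.2.2.1.symm (Ne.symm hne)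
  have h2 := h'.2.2.2 b h.2.1 h.2.2.1.symm hne
  rw [orient_swap'] at h2
  linarith

theorem HE.pred_unique {t : Finset Pt} {v b b' : Pt} (h : HE t b v) (h' : HE t b' v) : b = b' := by
  by_contra hne
  have h1 := h.2.2.2 b' h'.1 (Ne.symm hne) h'.2.2.1
  have h2 := h'.2.2.2 b h.1 hne h.2.2.1
  unfold orient at h1 h2
  linarith

theorem HE.sub {s t : Finset Pt} {a b : Pt} (h : HE t a b) (hst : s ⊆ t) (ha : a ∈ s)
    (hb : b ∈ s) : HE s a b :=
  ⟨ha, hb, h.2.2.1, fun c hc hca hcb => h.2.2.2 c (hst hc) hca hcb⟩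

theorem mem_cyc_of_mem' (l : List Pt) (a : Pt) (h : a ∈ l) : ∃ b, (b, a) ∈ cyc l := by
  cases l with
  | nil => simp at h
  | cons x xs =>
    have h1 : a ∈ xs ++ [x] := by
      simp only [List.mem_cons, List.mem_append, List.not_mem_nil, or_false] at h ⊢
      tauto
    obtain ⟨s, t, hst⟩ := List.append_of_mem h1
    rw [cyc_cons, hst]
    rcases List.eq_nil_or_concat s with h2 | ⟨s', z, h2⟩
    · subst h2
      refine ⟨x, ?_⟩
      rw [mem_pe_iff]
      exact ⟨[], t, rfl⟩
    · rw [List.concat_eq_append] at h2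
      subst h2
      refine ⟨z, ?_⟩
      rw [mem_pe_iff]
      exact ⟨x :: s', t, by simp⟩

theorem CP.exists_succ {t : Finset Pt} (h : CP t) (h3 : 3 ≤ t.card) {v : Pt} (hv : v ∈ t) :
    ∃ b, HE t v b := by
  obtain ⟨l, h1, h2, h4⟩ := h
  have hlen : l.length = t.card := CP.length h1 h2
  obtain ⟨b, hb⟩ := mem_cyc_of_mem l v (by rw [← List.mem_toFinset, h2]; exact hv)
  refine ⟨b, ?_⟩
  rw [h4.mem_cyc_iff h1 (by omega), h2] at hb
  exact hb

theorem CP.exists_pred {t : Finset Pt} (h : CP t) (h3 : 3 ≤ t.card) {v : Pt} (hv : v ∈ t) :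
    ∃ b, HE t b v := by
  obtain ⟨l, h1, h2, h4⟩ := h
  have hlen : l.length = t.card := CP.length h1 h2
  obtain ⟨b, hb⟩ := mem_cyc_of_mem' l v (by rw [← List.mem_toFinset, h2]; exact hv)
  refine ⟨b, ?_⟩
  rw [h4.mem_cyc_iff h1 (by omega), h2] at hb
  exact hb

theorem pair_sublist {l : List Pt} {a b : Pt} (ha : a ∈ l) (hb : b ∈ l) (hab : a ≠ b) :
    [a, b].Sublist l ∨ [b, a].Sublist l := by
  induction l with
  | nil => simp at ha
  | cons x l ih =>
    rw [List.mem_cons] at ha hb
    rcases ha with rfl | ha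
    · rcases hb with rfl | hb
      · exact absurd rfl hab
      · left
        exact (List.singleton_sublist.2 hb).cons_cons a
    · rcases hb with rfl | hb
      · right
        exact (List.singleton_sublist.2 ha).cons_cons b
      · rcases ih ha hb with h | h
        · exact Or.inl (h.cons x)
        · exact Or.inr (h.cons x)

theorem CCW.ne_zero {l : List Pt} (h : CCW l) {a b c : Pt} (ha : a ∈ l) (hb : b ∈ l) (hc : c ∈ l)
    (hab : a ≠ b) (hac : a ≠ c) (hbc : b ≠ c) : orient a b c ≠ 0 := by
  induction l with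
  | nil => simp at ha
  | cons x l ih =>
    have key : ∀ p q, p ∈ l → q ∈ l → p ≠ q → orient x p q ≠ 0 := by
      intro p q hp hq hpq
      rcases pair_sublist hp hq hpq with h1 | h1
      · exact (h x p q (h1.cons_cons x)).ne'
      · have := h x q p (h1.cons_cons x)
        rw [orient_swap'] at this
        intro h0
        rw [h0] at this
        simp at this
    rw [List.mem_cons] at ha hb hc
    rcases ha with rfl | ha
    · rcases hb with rfl | hb
      · exact absurd rfl hab
      · rcases hc with rfl | hc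
        · exact absurd rfl hac
        · exact key b c hb hc hbc
    · rcases hb with rfl | hb
      · rcases hc with rfl | hc
        · exact absurd rfl hbc
        · rw [orient_swap]
          exact neg_ne_zero.2 (key a c ha hc hac)
      · rcases hc with rfl | hc
        · rw [← orient_rot']
          exact key a b ha hb hab
        · exact ih (h.sublist (List.sublist_cons_self x l)) ha hb hc

theorem CP.gen {t : Finset Pt} (h : CP t) : Gen t := by
  obtain ⟨l, h1, h2, h4⟩ := h
  have hm : ∀ x, x ∈ t ↔ x ∈ l := by intro x; rw [← h2, List.mem_toFinset]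
  intro a ha b hb c hc hab hac hbc
  exact h4.ne_zero ((hm a).1 ha) ((hm b).1 hb) ((hm c).1 hc) hab hac hbc

/-- the start of a hull edge is extreme -/
theorem HE.mem_left {s B : Finset Pt} {v b : Pt} (h : HE s v b) (hB : B ⊆ s)
    (hv : v ∈ convexHull ℝ (B : Set Pt)) : v ∈ B := by
  have h1 := hull_face h hB hv (orient_self2 v b)
  by_contra hvB
  have h2 : (B ∩ {v, b}) ⊆ {b} := by
    intro x hx
    simp only [Finset.mem_inter, Finset.mem_insert, Finset.mem_singleton] at hx ⊢
    rcases hx.2 with rfl | rfl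
    · exact absurd hx.1 hvB
    · rfl
  have h3 : v ∈ convexHull ℝ ((({b} : Finset Pt)) : Set Pt) :=
    convexHull_mono (by exact_mod_cast h2) h1
  simp only [Finset.coe_singleton, convexHull_singleton, Set.mem_singleton_iff] at h3
  exact h.2.2.1 h3

theorem HE.mem_right {s B : Finset Pt} {v b : Pt} (h : HE s b v) (hB : B ⊆ s)
    (hv : v ∈ convexHull ℝ (B : Set Pt)) : v ∈ B := by
  have h1 := hull_face h hB hv (orient_self3 b v)
  by_contra hvB
  have h2 : (B ∩ {b, v}) ⊆ {b} := by
    intro x hx
    simp only [Finset.mem_inter, Finset.mem_insert, Finset.mem_singleton] at hx ⊢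
    rcases hx.2 with rfl | rfl
    · rfl
    · exact absurd hx.1 hvB
  have h3 : v ∈ convexHull ℝ ((({b} : Finset Pt)) : Set Pt) :=
    convexHull_mono (by exact_mod_cast h2) h1
  simp only [Finset.coe_singleton, convexHull_singleton, Set.mem_singleton_iff] at h3
  exact h.2.2.1 h3.symm

theorem hull_pair_inter {A B : Finset Pt} {a b x : Pt}
    (hx : x ∈ convexHull ℝ ((A ∩ {a, b} : Finset Pt) : Set Pt))
    (hx' : x ∈ convexHull ℝ ((B ∩ {a, b} : Finset Pt) : Set Pt)) :
    x ∈ convexHull ℝ (((A ∩ B) ∩ {a, b} : Finset Pt) : Set Pt) := by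
  have key : ∀ D : Finset Pt, ({a, b} : Finset Pt) ⊆ D ∨ (D ∩ {a, b}).card ≤ 1 := by
    intro D
    by_cases h : ({a, b} : Finset Pt) ⊆ D
    · exact Or.inl h
    · right
      by_contra hgt
      push Not at hgt
      have h2 : ({a, b} : Finset Pt).card ≤ 2 := Finset.card_le_two
      have e1 : D ∩ {a, b} = {a, b} :=
        Finset.eq_of_subset_of_card_le Finset.inter_subset_right (by omega)
      apply h
      rw [← e1]
      exact Finset.inter_subset_left
  rcases key A with hA | hA
  · have : (A ∩ B) ∩ {a, b} = B ∩ {a, b} := by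
      ext y
      simp only [Finset.mem_inter]
      constructor
      · tauto
      · rintro ⟨h1, h2⟩
        exact ⟨⟨hA h2, h1⟩, h2⟩
    rw [this]; exact hx'
  · rcases key B with hB | hB
    · have : (A ∩ B) ∩ {a, b} = A ∩ {a, b} := by
        ext y
        simp only [Finset.mem_inter]
        constructor
        · tauto
        · rintro ⟨h1, h2⟩
          exact ⟨⟨h1, hB h2⟩, h2⟩
      rw [this]; exact hx
    · have h1 := hull_le_one _ hA x hx
      have h2 := hull_le_one _ hB x hx'
      apply subset_convexHull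
      rw [Finset.mem_coe]
      simp only [Finset.mem_inter] at h1 h2 ⊢
      exact ⟨⟨h1.1, h2.1⟩, h1.2⟩

theorem orient_zero_of_mem_pair {a b x : Pt}
    (hx : x ∈ convexHull ℝ ((({a, b} : Finset Pt)) : Set Pt)) : orient a b x = 0 := by
  have h1 : 0 ≤ orient a b x := by
    apply orient_nonneg_of_mem_hull a b x _ _ hx
    intro q hq
    simp only [Finset.coe_insert, Finset.coe_singleton, Set.mem_insert_iff,
      Set.mem_singleton_iff] at hq
    rcases hq with rfl | rfl
    · rw [orient_self2]
    · rw [orient_self3]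
  have h2 : orient a b x ≤ 0 := by
    apply orient_nonpos_of_mem_hull a b x _ _ hx
    intro q hq
    simp only [Finset.coe_insert, Finset.coe_singleton, Set.mem_insert_iff,
      Set.mem_singleton_iff] at hq
    rcases hq with rfl | rfl
    · rw [orient_self2]
    · rw [orient_self3]
  linarith

/-- two common points of two cells span a common side -/
theorem Cx.side_or {T : Finset (Finset Pt)} (hC : Cx T) {s t : Finset Pt} (hs : s ∈ T)
    (ht : t ∈ T) (hne : s ≠ t) {a b : Pt} (hab : a ≠ b) (ha : a ∈ s) (hb : b ∈ s) (ha' : a ∈ t)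
    (hb' : b ∈ t) : (HE s a b ∧ HE t b a) ∨ (HE s b a ∧ HE t a b) := by
  have hst : s ∩ t = {a, b} := by
    symm
    apply Finset.eq_of_subset_of_card_le
    · intro x hx
      simp only [Finset.mem_insert, Finset.mem_singleton] at hx
      rcases hx with rfl | rfl
      · exact Finset.mem_inter.2 ⟨ha, ha'⟩
      · exact Finset.mem_inter.2 ⟨hb, hb'⟩
    · rw [Finset.card_pair hab]
      exact hC.two s hs t ht hne
  have gs := (hC.cp s hs).gen
  have gt := (hC.cp t ht).gen
  have key : ∀ s' ∈ T, ∀ t' ∈ T, s' ≠ t' → s' ∩ t' = {a, b} → a ∈ s' → b ∈ s' → a ∈ t' → b ∈ t' →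
      HE s' a b ∨ HE s' b a := by
    intro s' hs' t' ht' hne' hst' ha1 hb1 ha2 hb2
    have gs' := (hC.cp s' hs').gen
    have gt' := (hC.cp t' ht').gen
    by_contra hno
    push Not at hno
    obtain ⟨hno1, hno2⟩ := hno
    have h1 : ∃ c ∈ s', orient a b c < 0 := by
      by_contra h
      push Not at h
      apply hno1
      refine ⟨ha1, hb1, hab, ?_⟩
      intro c hc hca hcb
      exact lt_of_le_of_ne (h c hc) (gs' a ha1 b hb1 c hc hab (Ne.symm hca) (Ne.symm hcb)).symm
    have h2 : ∃ c ∈ s', 0 < orient a b c := by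
      by_contra h
      push Not at h
      apply hno2
      refine ⟨hb1, ha1, hab.symm, ?_⟩
      intro c hc hcb hca
      rw [orient_swap]
      have := lt_of_le_of_ne (h c hc) (gs' a ha1 b hb1 c hc hab (Ne.symm hca) (Ne.symm hcb))
      linarith
    obtain ⟨d, hd, hd0⟩ := h1
    obtain ⟨c, hc, hc0⟩ := h2
    obtain ⟨e, he, hea, heb⟩ := HE.exists_third (t := t') a b (hC.three t' ht')
    have he0 := gt' a ha2 b hb2 e he hab (Ne.symm hea) (Ne.symm heb)
    rcases lt_or_gt_of_ne he0 with h | h
    · obtain ⟨p, hp1, hp2, hp3⟩ := overlap b a d e (by rw [orient_swap]; linarith)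
        (by rw [orient_swap]; linarith) (s' : Set Pt) (t' : Set Pt) hb1 ha1 hd hb2 ha2 he
      have hp4 := hC.inter s' hs' t' ht' hne' ⟨hp1, hp2⟩
      rw [hst'] at hp4
      have := orient_zero_of_mem_pair hp4
      rw [orient_swap] at hp3
      linarith
    · obtain ⟨p, hp1, hp2, hp3⟩ := overlap a b c e hc0 h (s' : Set Pt) (t' : Set Pt) ha1 hb1 hc
        ha2 hb2 he
      have hp4 := hC.inter s' hs' t' ht' hne' ⟨hp1, hp2⟩
      rw [hst'] at hp4
      have := orient_zero_of_mem_pair hp4
      linarith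
  rcases key s hs t ht hne hst ha hb ha' hb' with h | h
  · rcases key t ht s hs (Ne.symm hne) (by rw [Finset.inter_comm]; exact hst) ha' hb' ha hb
      with h' | h'
    · exact absurd (hC.side_unique hs ht h h') hne
    · exact Or.inl ⟨h, h'⟩
  · rcases key t ht s hs (Ne.symm hne) (by rw [Finset.inter_comm]; exact hst) ha' hb' ha hb
      with h' | h'
    · exact Or.inr ⟨h, h'⟩
    · exact absurd (hC.side_unique hs ht h h') hne

/-- intersections of subsets of thickened cells: G, G' are point sets in the hulls of two different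
cells q, q' such that the sides of the cells are hull edges of G, G' -/
theorem inter_big {C : Finset (Finset Pt)} (hC : Cx C) {q q' : Finset Pt} (hq : q ∈ C)
    (hq' : q' ∈ C) (hne : q ≠ q') {G G' : Finset Pt}
    (hG : ∀ x ∈ G, x ∈ convexHull ℝ (q : Set Pt)) (hG' : ∀ x ∈ G', x ∈ convexHull ℝ (q' : Set Pt))
    (hF1 : ∀ a b, HE q a b → ∀ x ∈ G, x ≠ a → x ≠ b → 0 < orient a b x)
    (hF1' : ∀ a b, HE q' a b → ∀ x ∈ G', x ≠ a → x ≠ b → 0 < orient a b x)
    {B B' : Finset Pt} (hB : B ⊆ G) (hB' : B' ⊆ G') :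
    convexHull ℝ (B : Set Pt) ∩ convexHull ℝ (B' : Set Pt) ⊆
      convexHull ℝ ((B ∩ B' : Finset Pt) : Set Pt) ∧ G ∩ G' ⊆ q ∩ q' := by
  classical
  have face : ∀ (p D : Finset Pt) (a b x : Pt), HE p a b → (∀ y ∈ D, y ≠ a → y ≠ b → 0 < orient a b y) →
      x ∈ convexHull ℝ (D : Set Pt) → orient a b x = 0 →
      x ∈ convexHull ℝ ((D ∩ {a, b} : Finset Pt) : Set Pt) := by
    intro p D a b x hp hD hx h0
    have h1 : HE (insert a (insert b D)) a b := by
      refine ⟨by simp, by simp, hp.2.2.1, ?_⟩
      intro c hc hca hcb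
      simp only [Finset.mem_insert] at hc
      rcases hc with h | h | h
      · exact absurd h hca
      · exact absurd h hcb
      · exact hD c h hca hcb
    exact hull_face h1 (by intro y hy; simp [hy]) hx h0
  have hcard := hC.two q hq q' hq' hne
  have hHB : ∀ x ∈ convexHull ℝ (B : Set Pt), x ∈ convexHull ℝ (q : Set Pt) := by
    intro x hx
    exact convexHull_min (fun y hy => hG y (hB (Finset.mem_coe.1 hy))) (convex_convexHull ℝ _) hx
  have hHB' : ∀ x ∈ convexHull ℝ (B' : Set Pt), x ∈ convexHull ℝ (q' : Set Pt) := by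
    intro x hx
    exact convexHull_min (fun y hy => hG' y (hB' (Finset.mem_coe.1 hy))) (convex_convexHull ℝ _) hx
  have vert : ∀ (p D : Finset Pt) (x : Pt), p ∈ C → x ∈ p →
      (∀ a b, HE p a b → ∀ y ∈ D, y ≠ a → y ≠ b → 0 < orient a b y) →
      x ∈ convexHull ℝ (D : Set Pt) → x ∈ D := by
    intro p D x hp hx hD hxD
    obtain ⟨b, hb⟩ := (hC.cp p hp).exists_succ (hC.three p hp) hx
    have h1 := face p D x b x hb (hD x b hb) hxD (orient_self2 x b)
    by_contra hxD'
    have h2 : (D ∩ {x, b}) ⊆ {b} := by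
      intro y hy
      simp only [Finset.mem_inter, Finset.mem_insert, Finset.mem_singleton] at hy ⊢
      rcases hy.2 with rfl | rfl
      · exact absurd hy.1 hxD'
      · rfl
    have h3 : x ∈ convexHull ℝ ((({b} : Finset Pt)) : Set Pt) :=
      convexHull_mono (by exact_mod_cast h2) h1
    simp only [Finset.coe_singleton, convexHull_singleton, Set.mem_singleton_iff] at h3
    exact hb.2.2.1 h3
  by_cases hc1 : (q ∩ q').card ≤ 1
  · constructor
    · rintro x ⟨hx1, hx2⟩
      have h3 := hC.inter q hq q' hq' hne ⟨hHB x hx1, hHB' x hx2⟩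
      have h4 := hull_le_one _ hc1 x h3
      rw [Finset.mem_inter] at h4
      apply subset_convexHull
      rw [Finset.mem_coe, Finset.mem_inter]
      exact ⟨vert q B x hq h4.1 (fun a b hab y hy => hF1 a b hab y (hB hy)) hx1,
        vert q' B' x hq' h4.2 (fun a b hab y hy => hF1' a b hab y (hB' hy)) hx2⟩
    · intro x hx
      rw [Finset.mem_inter] at hx
      have h3 := hC.inter q hq q' hq' hne ⟨hG x hx.1, hG' x hx.2⟩
      exact hull_le_one _ hc1 x h3
  · have hc2 : (q ∩ q').card = 2 := by omega
    obtain ⟨a, b, hab, hqq⟩ := Finset.card_eq_two.1 hc2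
    have ha : a ∈ q ∩ q' := by rw [hqq]; simp
    have hb : b ∈ q ∩ q' := by rw [hqq]; simp
    rw [Finset.mem_inter] at ha hb
    have main : ∀ c d, HE q c d → HE q' d c → q ∩ q' = {c, d} →
        convexHull ℝ (B : Set Pt) ∩ convexHull ℝ (B' : Set Pt) ⊆
        convexHull ℝ ((B ∩ B' : Finset Pt) : Set Pt) ∧ G ∩ G' ⊆ q ∩ q' := by
      intro c d hcd hdc hqq'
      constructor
      · rintro x ⟨hx1, hx2⟩
        have h3 := hC.inter q hq q' hq' hne ⟨hHB x hx1, hHB' x hx2⟩
        rw [hqq'] at h3
        have h4 := orient_zero_of_mem_pair h3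
        have h5 := face q B c d x hcd (fun y hy => hF1 c d hcd y (hB hy)) hx1 h4
        have h6 : x ∈ convexHull ℝ ((B' ∩ {d, c} : Finset Pt) : Set Pt) := by
          apply face q' B' d c x hdc (fun y hy => hF1' d c hdc y (hB' hy)) hx2
          rw [orient_swap, h4, neg_zero]
        rw [Finset.pair_comm] at h6
        have h7 := hull_pair_inter h5 h6
        exact convexHull_mono (by exact_mod_cast Finset.inter_subset_left) h7
      · intro x hx
        rw [Finset.mem_inter] at hx
        have h3 := hC.inter q hq q' hq' hne ⟨hG x hx.1, hG' x hx.2⟩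
        rw [hqq'] at h3
        have h4 := orient_zero_of_mem_pair h3
        rw [hqq']
        simp only [Finset.mem_insert, Finset.mem_singleton]
        by_contra hno
        push Not at hno
        have := hF1 c d hcd x hx.1 hno.1 hno.2
        linarith
    rcases hC.side_or hq hq' hne hab ha.1 hb.1 ha.2 hb.2 with h | h
    · exact main a b h.1 h.2 hqq
    · exact main b a h.1 h.2 (by rw [hqq, Finset.pair_comm])

/-- gluing a convex cell to a complex along a side -/
theorem Cx.glue {T : Finset (Finset Pt)} (hC : Cx T) {K : Finset Pt} (hK : CP K)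
    (hK3 : 3 ≤ K.card) {x y : Pt} (hT : HE (V T) x y) (hKy : HE K y x) : Cx (insert K T) := by
  classical
  have key : ∀ t ∈ T, convexHull ℝ (K : Set Pt) ∩ convexHull ℝ (t : Set Pt) ⊆
      convexHull ℝ ((K ∩ t : Finset Pt) : Set Pt) := by
    rintro t ht p ⟨hp1, hp2⟩
    have htV : t ⊆ V T := fun z hz => (mem_V T z).2 ⟨t, ht, hz⟩
    have h1 : 0 ≤ orient x y p := by
      apply orient_nonneg_of_mem_hull x y p _ _ hp2
      intro z hz
      exact hT.nonneg z (htV (Finset.mem_coe.1 hz))
    have h2 : 0 ≤ orient y x p := by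
      apply orient_nonneg_of_mem_hull y x p _ _ hp1
      intro z hz
      exact hKy.nonneg z (Finset.mem_coe.1 hz)
    have h3 : orient x y p = 0 := by
      rw [orient_swap] at h2
      linarith
    have h4 := hull_face hT htV hp2 h3
    have h5 := hull_face hKy (Finset.Subset.refl K) hp1 (by rw [orient_swap, h3, neg_zero])
    rw [Finset.pair_comm] at h5
    have h6 := hull_pair_inter h5 h4
    exact convexHull_mono (by exact_mod_cast Finset.inter_subset_left) h6
  have key2 : ∀ t ∈ T, (K ∩ t).card ≤ 2 := by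
    intro t ht
    have htV : t ⊆ V T := fun z hz => (mem_V T z).2 ⟨t, ht, hz⟩
    have : K ∩ t ⊆ {x, y} := by
      intro z hz
      rw [Finset.mem_inter] at hz
      simp only [Finset.mem_insert, Finset.mem_singleton]
      by_contra hno
      push Not at hno
      have h1 := hT.2.2.2 z (htV hz.2) hno.1 hno.2
      have h2 := hKy.2.2.2 z hz.1 hno.2 hno.1
      rw [orient_swap] at h2
      linarith
    exact (Finset.card_le_card this).trans Finset.card_le_two
  refine ⟨?_, ?_, ?_, ?_⟩
  · intro t ht
    rw [Finset.mem_insert] at ht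
    rcases ht with rfl | ht
    · exact hK
    · exact hC.cp t ht
  · intro t ht
    rw [Finset.mem_insert] at ht
    rcases ht with rfl | ht
    · exact hK3
    · exact hC.three t ht
  · intro s hs t ht hst
    rw [Finset.mem_insert] at hs ht
    rcases hs with rfl | hs
    · rcases ht with rfl | ht
      · exact absurd rfl hst
      · exact key t ht
    · rcases ht with rfl | ht
      · rw [Set.inter_comm, Finset.inter_comm]
        exact key s hs
      · exact hC.inter s hs t ht hst
  · intro s hs t ht hst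
    rw [Finset.mem_insert] at hs ht
    rcases hs with rfl | hs
    · rcases ht with rfl | ht
      · exact absurd rfl hst
      · exact key2 t ht
    · rcases ht with rfl | ht
      · rw [Finset.inter_comm]
        exact key2 s hs
      · exact hC.two s hs t ht hst

/-- the convex hull of a finite set in general position is bounded by one ccw list -/
theorem exists_hull_list (P : Finset Pt) (hg : Gen P) (h3 : 3 ≤ P.card) :
    ∃ l : List Pt, l.Nodup ∧ (∀ x ∈ l, x ∈ P) ∧ CCW l ∧ 3 ≤ l.length ∧
      (∀ x ∈ P, x ∈ convexHull ℝ ((l.toFinset : Finset Pt) : Set Pt)) ∧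
      (∀ a b, HE P a b ↔ (a, b) ∈ cyc l) := by
  classical
  -- minimal subset with the same hull
  set Fam : Finset (Finset Pt) := P.powerset.filter (fun X : Finset Pt => ∀ x ∈ P, x ∈ convexHull ℝ (X : Set Pt)) with hFam
  have hne : Fam.Nonempty := by
    refine ⟨P, ?_⟩
    rw [hFam, Finset.mem_filter]
    exact ⟨Finset.mem_powerset_self P, fun x hx => subset_convexHull ℝ _ hx⟩
  obtain ⟨X, hX, hmin⟩ := Finset.exists_min_image Fam (fun X => X.card) hne
  rw [hFam, Finset.mem_filter, Finset.mem_powerset] at hX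
  obtain ⟨hXP, hXh⟩ := hX
  have hcp : CP X := by
    apply exists_ccw X (hg.mono hXP)
    intro b hb hmem
    have h1 : X.erase b ∈ Fam := by
      rw [hFam, Finset.mem_filter, Finset.mem_powerset]
      refine ⟨(Finset.erase_subset b X).trans hXP, ?_⟩
      intro x hx
      have h2 := hXh x hx
      refine convexHull_min ?_ (convex_convexHull ℝ _) h2
      intro y hy
      by_cases hyb : y = b
      · subst hyb
        rw [Finset.coe_erase]
        exact hmem
      · apply subset_convexHull
        rw [Finset.mem_coe, Finset.mem_erase]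
        exact ⟨hyb, hy⟩
    have h2 := hmin _ h1
    have h3 := Finset.card_erase_lt_of_mem hb
    omega
  have hX3 : 3 ≤ X.card := by
    by_contra hlt
    push Not at hlt
    have hX2 : X.card ≤ 2 := by omega
    -- all points of P are collinear
    obtain ⟨p, hp, q, hq, r, hr, hpq, hpr, hqr⟩ : ∃ p ∈ P, ∃ q ∈ P, ∃ r ∈ P, p ≠ q ∧ p ≠ r ∧ q ≠ r :=
      by
        obtain ⟨p, q, r, hp, hq, hr, h⟩ := Finset.two_lt_card_iff.1 (show 2 < P.card by omega)
        exact ⟨p, hp, q, hq, r, hr, h.1, h.2.1, h.2.2⟩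
    by_cases hX1 : X.card ≤ 1
    · have e1 := hull_le_one X hX1 p (hXh p hp)
      have e2 := hull_le_one X hX1 q (hXh q hq)
      exact hpq (Finset.card_le_one.1 hX1 p e1 q e2)
    · obtain ⟨a, b, hab, hXab⟩ := Finset.card_eq_two.1 (show X.card = 2 by omega)
      have ha : a ∈ P := hXP (by rw [hXab]; simp)
      have hb : b ∈ P := hXP (by rw [hXab]; simp)
      obtain ⟨c, hc, hca, hcb⟩ := HE.exists_third (t := P) a b h3
      have h5 := hXh c hc
      rw [hXab] at h5
      exact hg a ha b hb c hc hab (Ne.symm hca) (Ne.symm hcb) (orient_zero_of_mem_pair h5)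
  obtain ⟨l, l1, l2, l4⟩ := hcp
  have hlen : l.length = X.card := CP.length l1 l2
  refine ⟨l, l1, ?_, l4, by omega, ?_, ?_⟩
  · intro x hx
    apply hXP
    rw [← l2, List.mem_toFinset]; exact hx
  · rw [l2]; exact hXh
  · intro a b
    rw [l4.mem_cyc_iff l1 (by omega), l2]
    constructor
    · intro h
      have ha : a ∈ X := h.mem_left hXP (hXh a h.1)
      have hb : b ∈ X := h.mem_right hXP (hXh b h.2.1)
      exact h.sub hXP ha hb
    · intro h
      refine ⟨hXP h.1, hXP h.2.1, h.2.2.1, ?_⟩
      intro c hc hca hcb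
      have h1 : 0 ≤ orient a b c := by
        apply orient_nonneg_of_mem_hull a b c _ _ (hXh c hc)
        intro q hq
        exact h.nonneg q (Finset.mem_coe.1 hq)
      exact lt_of_le_of_ne h1
        (hg a (hXP h.1) b (hXP h.2.1) c hc h.2.2.1 (Ne.symm hca) (Ne.symm hcb)).symm

end Pool.Agent.RFX

end

section

set_option autoImplicit false

/-!
# RFX/NFNx : steps of strips (MP_72a26e_co), definitions
-/

namespace Pool.Agent.RFX

/-- Step of a strip: a cross edge is a pair `e = (x, y)` of points of different parts; the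
triangle `x z y` (counterclockwise) is a cell and `z` is in the part of `x` or of `y`. -/
def Nx (C : Finset (Finset Pt)) (lab : Pt → ℕ) (e f : Pt × Pt) : Prop :=
  ∃ z, ({e.1, z, e.2} : Finset Pt) ∈ C ∧ 0 < orient e.1 z e.2 ∧ lab e.1 ≠ lab e.2 ∧
    ((lab z = lab e.1 ∧ f = (z, e.2)) ∨ (lab z = lab e.2 ∧ f = (e.1, z)))

/-- the points of the part number `i` -/
def part (P : Finset Pt) (lab : Pt → ℕ) (i : ℕ) : Finset Pt := P.filter fun v => lab v = i

end Pool.Agent.RFX

end

section

set_option autoImplicit false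

/-!
# RFX/Fin2 : second form of the reduction of S09465 (MP_72a26e_co), without blocks

`Target2 C` : a connected complex T of convex cells through all points of P with
sum (|t| - 2) + 2 = |P| such that at most C * k points lie in two or more cells of T.
`s09465_of_target2`: `Target2 C` implies the frozen statement S09465 (with the same constant C).
-/

namespace Pool.Agent.RFX

open List

theorem extract2 (P : Finset Pt) (l : List Pt) (hn : l.Nodup) (hP : l.toFinset = P)
    (h3 : 3 ≤ P.card)
    (hs : ∀ a b c d, (a, b) ∈ cyc l → (c, d) ∈ cyc l → (a, b) ≠ (c, d) →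
      ∀ x, x ∈ segment ℝ a b → x ∈ segment ℝ c d → (x = a ∨ x = b) ∧ (x = c ∨ x = d))
    (harea : 0 < area (cyc l)) (M : Finset Pt)
    (hM : ∀ a b c, (a, b) ∈ cyc l → (b, c) ∈ cyc l → c ≠ a → b ∉ M → 0 ≤ orient a b c) :
    ∃ v : ℕ → ℝ × ℝ,
        (∀ i, v (i + P.card) = v i) ∧
        Set.InjOn v (Set.Iio P.card) ∧
        v '' Set.Iio P.card = (P : Set (ℝ × ℝ)) ∧
        (∀ i j, i < P.card → j < P.card → i ≠ j → j ≠ (i + 1) % P.card → i ≠ (j + 1) % P.card →
          Disjoint (segment ℝ (v i) (v (i + 1))) (segment ℝ (v j) (v (j + 1)))) ∧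
        (∀ i, segment ℝ (v i) (v (i + 1)) ∩ segment ℝ (v (i + 1)) (v (i + 2)) = {v (i + 1)}) ∧
        0 < ∑ i ∈ Finset.range P.card, ((v i).1 * (v (i + 1)).2 - (v (i + 1)).1 * (v i).2) ∧
        ((Finset.range P.card).filter (fun i =>
          ((v (i + 1)).1 - (v i).1) * ((v (i + 2)).2 - (v (i + 1)).2)
            - ((v (i + 1)).2 - (v i).2) * ((v (i + 2)).1 - (v (i + 1)).1) < 0)).card
          ≤ M.card := by
  classical
  have hlen : l.length = P.card := by rw [← hP, List.toFinset_card_of_nodup hn]
  have h0 : 0 < l.length := by omega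
  have hmodlt : ∀ i, i < P.card → i % P.card = i := fun i hi => Nat.mod_eq_of_lt hi
  have hinj : ∀ i j, vv l h0 i = vv l h0 j → i % P.card = j % P.card := by
    intro i j h
    rw [← hlen]
    exact vv_inj l hn h0 i j h
  have hcyc : ∀ i, (vv l h0 i, vv l h0 (i+1)) ∈ cyc l := mem_cyc_vv l h0
  -- i and i + 1 have different residues, etc
  have hmod1 : ∀ i, i % P.card ≠ (i + 1) % P.card := by
    intro i h
    have h5 := Nat.mod_add_mod i P.card 1
    have h6 : i % P.card < P.card := Nat.mod_lt _ (by omega)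
    rw [← h5] at h
    rcases Nat.lt_or_ge (i % P.card + 1) P.card with h7 | h7
    · rw [Nat.mod_eq_of_lt h7] at h; omega
    · have h8 : i % P.card + 1 = P.card := by omega
      rw [h8, Nat.mod_self] at h; omega
  have hmod2 : ∀ i, i % P.card ≠ (i + 2) % P.card := by
    intro i h
    have h5 := Nat.mod_add_mod i P.card 2
    have h6 : i % P.card < P.card := Nat.mod_lt _ (by omega)
    rw [← h5] at h
    rcases Nat.lt_or_ge (i % P.card + 2) P.card with h7 | h7
    · rw [Nat.mod_eq_of_lt h7] at h; omega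
    · have h8 : (i % P.card + 2) % P.card = i % P.card + 2 - P.card := by
        rw [Nat.mod_eq_sub_mod h7]
        apply Nat.mod_eq_of_lt
        omega
      rw [h8] at h; omega
  have hne02 : ∀ i, vv l h0 (i+2) ≠ vv l h0 i := by
    intro i h
    exact hmod2 i (hinj _ _ h).symm
  refine ⟨vv l h0, ?_, ?_, ?_, ?_, ?_, ?_, ?_⟩
  · intro i
    rw [← hlen]; exact vv_add l h0 i
  · intro i hi j hj hij
    rw [Set.mem_Iio] at hi hj
    have := hinj i j hij
    rwa [hmodlt i hi, hmodlt j hj] at this
  · ext x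
    rw [Set.mem_image, Finset.mem_coe, ← hP, List.mem_toFinset]
    constructor
    · rintro ⟨i, _, rfl⟩
      exact vv_mem l h0 i
    · intro hx
      obtain ⟨i, hi, rfl⟩ := List.getElem_of_mem hx
      refine ⟨i, by rw [Set.mem_Iio, hP, ← hlen]; exact hi, vv_lt l h0 i hi⟩
  · intro i j hi hj hij hji hij2
    rw [Set.disjoint_left]
    intro x hx1 hx2
    have hne : (vv l h0 i, vv l h0 (i+1)) ≠ (vv l h0 j, vv l h0 (j+1)) := by
      intro h
      rw [Prod.mk.injEq] at h
      have := hinj i j h.1
      rw [hmodlt i hi, hmodlt j hj] at this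
      exact hij this
    obtain ⟨h5, h6⟩ := hs _ _ _ _ (hcyc i) (hcyc j) hne x hx1 hx2
    rcases h5 with h5 | h5 <;> rcases h6 with h6 | h6
    · rw [h5] at h6
      have := hinj _ _ h6
      rw [hmodlt i hi, hmodlt j hj] at this
      exact hij this
    · rw [h5] at h6
      have := hinj _ _ h6
      rw [hmodlt i hi] at this
      exact hij2 this
    · rw [h5] at h6
      have := hinj _ _ h6
      rw [hmodlt j hj] at this
      exact hji this.symm
    · rw [h5] at h6
      have := hinj _ _ h6
      -- (i+1) % n = (j+1) % n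
      have h7 : i = j := by
        have h8 : (i + 1) ≡ (j + 1) [MOD P.card] := this
        have h9 : i ≡ j [MOD P.card] := Nat.ModEq.add_right_cancel' 1 h8
        have h10 : i % P.card = j % P.card := h9
        rwa [hmodlt i hi, hmodlt j hj] at h10
      exact hij h7
  · intro i
    ext x
    rw [Set.mem_inter_iff, Set.mem_singleton_iff]
    constructor
    · rintro ⟨hx1, hx2⟩
      have hne : (vv l h0 i, vv l h0 (i+1)) ≠ (vv l h0 (i+1), vv l h0 (i+2)) := by
        intro h
        rw [Prod.mk.injEq] at h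
        exact hmod1 i (hinj _ _ h.1)
      obtain ⟨h5, h6⟩ := hs _ _ _ _ (hcyc i) (hcyc (i+1)) hne x hx1 hx2
      rcases h5 with h5 | h5
      · rcases h6 with h6 | h6
        · exact h6
        · exact absurd (h6.symm.trans h5) (hne02 i)
      · exact h5
    · rintro rfl
      exact ⟨right_mem_segment ℝ _ _, left_mem_segment ℝ _ _⟩
  · rw [← hlen, ← area_eq_sum l h0]
    exact harea
  · set v := vv l h0 with hv
    apply Finset.card_le_card_of_injOn (fun i => v (i + 1))
    · intro i hi
      have hi2 := Finset.mem_filter.1 (Finset.mem_coe.1 hi)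
      rw [Finset.mem_coe]
      by_contra hno
      have g3 := hM (v i) (v (i+1)) (v (i+2)) (hcyc i) (hcyc (i+1)) (hne02 i) hno
      have g4 : orient (v i) (v (i+1)) (v (i+2)) =
          ((v (i + 1)).1 - (v i).1) * ((v (i + 2)).2 - (v (i + 1)).2)
            - ((v (i + 1)).2 - (v i).2) * ((v (i + 2)).1 - (v (i + 1)).1) := by
        unfold orient; ring
      rw [g4] at g3
      linarith [hi2.2]
    · intro i hi j hj hij
      have hi' : i < P.card := by
        have := (Finset.mem_filter.1 (Finset.mem_coe.1 hi)).1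
        exact Finset.mem_range.1 this
      have hj' : j < P.card := by
        have := (Finset.mem_filter.1 (Finset.mem_coe.1 hj)).1
        exact Finset.mem_range.1 this
      have h8 : (i + 1) ≡ (j + 1) [MOD P.card] := hinj _ _ hij
      have h9 : i ≡ j [MOD P.card] := Nat.ModEq.add_right_cancel' 1 h8
      have h10 : i % P.card = j % P.card := h9
      rwa [hmodlt i hi', hmodlt j hj'] at h10

/-- the points which lie in two different cells -/
noncomputable def multi (P : Finset Pt) (T : Finset (Finset Pt)) : Finset Pt :=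
  open Classical in P.filter (fun v => ∃ s ∈ T, ∃ t ∈ T, s ≠ t ∧ v ∈ s ∧ v ∈ t)

theorem reduction2 (P : Finset Pt) (T : Finset (Finset Pt))
    (hC : Cx T) (hne : T.Nonempty) (hconn : Conn T) (hV : V T = P)
    (hcount : ∑ t ∈ T, (t.card - 2) + 2 = P.card) :
    ∃ v : ℕ → ℝ × ℝ,
        (∀ i, v (i + P.card) = v i) ∧
        Set.InjOn v (Set.Iio P.card) ∧
        v '' Set.Iio P.card = (P : Set (ℝ × ℝ)) ∧
        (∀ i j, i < P.card → j < P.card → i ≠ j → j ≠ (i + 1) % P.card → i ≠ (j + 1) % P.card →
          Disjoint (segment ℝ (v i) (v (i + 1))) (segment ℝ (v j) (v (j + 1)))) ∧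
        (∀ i, segment ℝ (v i) (v (i + 1)) ∩ segment ℝ (v (i + 1)) (v (i + 2)) = {v (i + 1)}) ∧
        0 < ∑ i ∈ Finset.range P.card, ((v i).1 * (v (i + 1)).2 - (v (i + 1)).1 * (v i).2) ∧
        ((Finset.range P.card).filter (fun i =>
          ((v (i + 1)).1 - (v i).1) * ((v (i + 2)).2 - (v (i + 1)).2)
            - ((v (i + 1)).2 - (v i).2) * ((v (i + 2)).1 - (v (i + 1)).1) < 0)).card
          ≤ (multi P T).card := by
  classical
  have h3 : 3 ≤ P.card := by
    obtain ⟨t, ht⟩ := hne
    have h4 := hC.three t ht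
    have h5 : t.card - 2 ≤ ∑ t ∈ T, (t.card - 2) :=
      Finset.single_le_sum (f := fun t : Finset Pt => t.card - 2) (fun _ _ => Nat.zero_le _) ht
    omega
  obtain ⟨l, i1, i2, i3, i4⟩ := polygon T hC hne hconn (by rw [hV]; exact hcount)
  have hnotboth : ∀ a b, (a, b) ∈ cyc l → (b, a) ∉ cyc l := by
    intro a b hab hba
    have h5 := (i3 a b).1 hab
    have h6 := (i3 b a).1 hba
    exact h5.2 h6.1
  apply extract2 P l i1 (by rw [i2, hV]) h3 _ i4 (multi P T)
  · intro a b c hab hbc hca hb
    obtain ⟨⟨s, hs, hs2⟩, _⟩ := (i3 a b).1 hab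
    obtain ⟨⟨t, ht, ht2⟩, _⟩ := (i3 b c).1 hbc
    have hst : s = t := by
      by_contra hst
      apply hb
      unfold multi
      rw [Finset.mem_filter]
      refine ⟨?_, s, hs, t, ht, hst, hs2.2.1, ht2.1⟩
      rw [← hV, ← i2, List.mem_toFinset]
      exact (mem_of_mem_cyc l a b hab).2
    subst hst
    exact (hs2.2.2.2 c ht2.2.1 hca ht2.2.2.1.symm).le
  · intro a b c d hab hcd hne1 x hx1 hx2
    obtain ⟨⟨s, hs, hs2⟩, _⟩ := (i3 a b).1 hab
    obtain ⟨⟨t, ht, ht2⟩, _⟩ := (i3 c d).1 hcd
    have hne2 : (a, b) ≠ (d, c) := by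
      intro h
      rw [Prod.mk.injEq] at h
      obtain ⟨rfl, rfl⟩ := h
      exact hnotboth _ _ hab hcd
    exact hC.sides_meet hs ht hs2 ht2 hne1 hne2 x hx1 hx2

/-- the target of the geometric part, form without blocks -/
def Target2 (C : ℕ) : Prop :=
  ∀ P : Finset Pt, 3 ≤ P.card → Gen P → ∀ F : Finpartition P,
    (∀ A ∈ F.parts, CP A) →
    (∀ A ∈ F.parts, ∀ B ∈ F.parts, A ≠ B →
      Disjoint (convexHull ℝ (A : Set Pt)) (convexHull ℝ (B : Set Pt))) →
    ∃ T : Finset (Finset Pt), Cx T ∧ T.Nonempty ∧ Conn T ∧ V T = P ∧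
      ∑ t ∈ T, (t.card - 2) + 2 = P.card ∧ (multi P T).card ≤ C * F.parts.card

theorem s09465_of_target2 (C : ℕ) (hT : Target2 C) : ∃ C : ℕ, ∀ P : Finset (ℝ × ℝ), 3 ≤ P.card →
    (∀ a ∈ P, ∀ b ∈ P, ∀ c ∈ P, a ≠ b → a ≠ c → b ≠ c →
      ¬ Collinear ℝ ({a, b, c} : Set (ℝ × ℝ))) →
    ∀ F : Finpartition P,
      (∀ A ∈ F.parts, ConvexIndependent ℝ (fun x : ((A : Set (ℝ × ℝ))) => (x : ℝ × ℝ))) →
      (F.parts : Set (Finset (ℝ × ℝ))).Pairwise
        (fun A B => Disjoint (convexHull ℝ (A : Set (ℝ × ℝ))) (convexHull ℝ (B : Set (ℝ × ℝ)))) →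
      ∃ v : ℕ → ℝ × ℝ,
        (∀ i, v (i + P.card) = v i) ∧
        Set.InjOn v (Set.Iio P.card) ∧
        v '' Set.Iio P.card = (P : Set (ℝ × ℝ)) ∧
        (∀ i j, i < P.card → j < P.card → i ≠ j → j ≠ (i + 1) % P.card → i ≠ (j + 1) % P.card →
          Disjoint (segment ℝ (v i) (v (i + 1))) (segment ℝ (v j) (v (j + 1)))) ∧
        (∀ i, segment ℝ (v i) (v (i + 1)) ∩ segment ℝ (v (i + 1)) (v (i + 2)) = {v (i + 1)}) ∧
        0 < ∑ i ∈ Finset.range P.card, ((v i).1 * (v (i + 1)).2 - (v (i + 1)).1 * (v i).2) ∧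
        ((Finset.range P.card).filter (fun i =>
          ((v (i + 1)).1 - (v i).1) * ((v (i + 2)).2 - (v (i + 1)).2)
            - ((v (i + 1)).2 - (v i).2) * ((v (i + 2)).1 - (v (i + 1)).1) < 0)).card
          ≤ C * F.parts.card := by
  classical
  refine ⟨C, ?_⟩
  intro P h3 hcol F hconv hdisj
  have hg : Gen P := gen_of_not_collinear P hcol
  obtain ⟨T, hC, hne, hconn, hV, hcount, hbound⟩ := hT P h3 hg F
    (fun A hA => cp_of_convexIndependent A (hg.mono (F.le hA)) (hconv A hA))
    (fun A hA B hB hAB => hdisj hA hB hAB)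
  obtain ⟨v, v1, v2, v3, v4, v5, v6, v7⟩ := reduction2 P T hC hne hconn hV hcount
  exact ⟨v, v1, v2, v3, v4, v5, v6, v7.trans hbound⟩

end Pool.Agent.RFX

end
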