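import Mathlib
import Pool.Agent.RFM.P01

set_option autoImplicit false

/-!
# RFM/P04 (MP_72a26e_co): the files RFX/Cnt, RFX/CrCnt, merged to save build time
-/

section

set_option autoImplicit false

/-!
# RFX/Cnt : number of triangles of a complex of convex cells (MP_72a26e_co)

`sum_le`: sum over the cells of (|t| - 2), plus 2, plus the number of hull edges of P, is at most
2 |P|.  (Every vertex of a cell which is neither first nor last in a generic direction lies above
or below the cell, and this happens at most once on each side.)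
-/

namespace Pool.Agent.RFX

/-- linear functional -/
def Lf (u : Pt) (p : Pt) : ℝ := u.1 * p.1 + u.2 * p.2

theorem exists_generic (P : Finset Pt) :
    ∃ u : Pt, ∀ p ∈ P, ∀ q ∈ P, Lf u p = Lf u q → p = q := by
  classical
  set B : Finset ℝ := (P ×ˢ P).image (fun e => - (e.1.1 - e.2.1) / (e.1.2 - e.2.2)) with hB
  obtain ⟨δ, hδ⟩ := Infinite.exists_notMem_finset B
  refine ⟨(1, δ), ?_⟩
  intro p hp q hq h
  unfold Lf at h
  simp only [one_mul] at h
  by_cases h2 : p.2 = q.2
  · rw [h2] at h
    exact Prod.ext (by linarith) h2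
  · exfalso
    apply hδ
    rw [hB, Finset.mem_image]
    refine ⟨(p, q), Finset.mem_product.2 ⟨hp, hq⟩, ?_⟩
    have h3 : p.2 - q.2 ≠ 0 := sub_ne_zero.2 h2
    simp only
    rw [div_eq_iff h3]
    linarith

theorem HE.unique_out {t : Finset Pt} {a b b' : Pt} (h : HE t a b) (h' : HE t a b') : b = b' := by
  by_contra hne
  have h1 := h.2.2.2 b' h'.2.1 h'.2.2.1.symm (fun e => hne e.symm)
  have h2 := h'.2.2.2 b h.2.1 h.2.2.1.symm hne
  rw [orient_swap'] at h2
  linarith

theorem HE.unique_in {t : Finset Pt} {a b b' : Pt} (h : HE t b a) (h' : HE t b' a) : b = b' := by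
  by_contra hne
  have h1 := h.2.2.2 b' h'.1 (fun e => hne e.symm) h'.2.2.1
  have h2 := h'.2.2.2 b h.1 hne h.2.2.1
  have h3 : orient b' a b = - orient b a b' := by unfold orient; ring
  rw [h3] at h2
  linarith

/-- m is neither first nor last in t and above the cell -/
def Up (u : Pt) (t : Finset Pt) (m : Pt) : Prop :=
  m ∈ t ∧ ∃ l ∈ t, ∃ r ∈ t, Lf u l < Lf u m ∧ Lf u m < Lf u r ∧ 0 < orient l r m

/-- the point below m -/
def dn (u : Pt) (m : Pt) (e : ℝ) : Pt := (m.1 + e * u.2, m.2 - e * u.1)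

theorem Lf_dn (u m : Pt) (e : ℝ) : Lf u (dn u m e) = Lf u m := by
  unfold Lf dn; simp only; ring

theorem Up.mem {u : Pt} {t : Finset Pt} {m : Pt} (h : Up u t m) :
    ∃ e0 : ℝ, 0 < e0 ∧ ∀ e : ℝ, 0 < e → e ≤ e0 → dn u m e ∈ convexHull ℝ (t : Set Pt) := by
  obtain ⟨hm, l, hl, r, hr, h1, h2, h3⟩ := h
  have h4 : 0 < Lf u r - Lf u l := by linarith
  refine ⟨orient l r m / (Lf u r - Lf u l), div_pos h3 h4, ?_⟩
  intro e he he2
  have h5 : e * (Lf u r - Lf u l) ≤ orient l r m := by
    rwa [le_div_iff₀ h4] at he2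
  apply mem_hull3 l r m _ h3 _ _ _ _ hl hr hm
  · have : orient l r (dn u m e) = orient l r m - e * (Lf u r - Lf u l) := by
      unfold orient dn Lf; simp only; ring
    linarith
  · have : orient r m (dn u m e) = e * (Lf u r - Lf u m) := by
      unfold orient dn Lf; simp only; ring
    rw [this]
    exact (mul_pos he (by linarith)).le
  · have : orient m l (dn u m e) = e * (Lf u m - Lf u l) := by
      unfold orient dn Lf; simp only; ring
    rw [this]
    exact (mul_pos he (by linarith)).le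

theorem Up.unique {K : Finset (Finset Pt)} (hC : Cx K) {u : Pt} {s t : Finset Pt} {m : Pt}
    (hs : s ∈ K) (ht : t ∈ K) (h1 : Up u s m) (h2 : Up u t m)
    (hinj : ∀ p ∈ s, ∀ q ∈ s, Lf u p = Lf u q → p = q) : s = t := by
  classical
  by_contra hne
  obtain ⟨e1, he1, h3⟩ := h1.mem
  obtain ⟨e2, he2, h4⟩ := h2.mem
  set e := min e1 e2 with he
  have he0 : 0 < e := lt_min he1 he2
  have h5 := h3 e he0 (min_le_left _ _)
  have h6 := h4 e he0 (min_le_right _ _)
  have h7 := hC.inter s hs t ht hne ⟨h5, h6⟩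
  have hu : u.1 ≠ 0 ∨ u.2 ≠ 0 := by
    by_contra hcon
    push Not at hcon
    obtain ⟨_, l, _, r, _, h8, _⟩ := h1
    unfold Lf at h8
    rw [hcon.1, hcon.2] at h8
    simp at h8
  have hnm : dn u m e ≠ m := by
    intro h
    have g1 : (dn u m e).1 = m.1 := by rw [h]
    have g2 : (dn u m e).2 = m.2 := by rw [h]
    unfold dn at g1 g2
    simp only at g1 g2
    rcases hu with hu | hu
    · apply hu
      have : e * u.1 = 0 := by linarith
      rcases mul_eq_zero.1 this with h | h
      · exact absurd h he0.ne'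
      · exact h
    · apply hu
      have : e * u.2 = 0 := by linarith
      rcases mul_eq_zero.1 this with h | h
      · exact absurd h he0.ne'
      · exact h
  have hmst : m ∈ s ∩ t := Finset.mem_inter.2 ⟨h1.1, h2.1⟩
  have h8 := hC.two s hs t ht hne
  rcases Nat.lt_or_ge (s ∩ t).card 2 with h9 | h9
  · have h10 := hull_le_one (s ∩ t) (by omega) _ h7
    apply hnm
    exact hinj _ (Finset.mem_inter.1 h10).1 m h1.1 (Lf_dn u m e)
  · have h10 : (s ∩ t).card = 2 := by omega
    obtain ⟨x, y, hxy, hst⟩ := Finset.card_eq_two.1 h10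
    have hex : ∃ m', m' ∈ s ∩ t ∧ m ≠ m' ∧ s ∩ t = {m, m'} := by
      rw [hst] at hmst
      simp only [Finset.mem_insert, Finset.mem_singleton] at hmst
      rcases hmst with rfl | rfl
      · exact ⟨y, by rw [hst]; simp, hxy, hst⟩
      · exact ⟨x, by rw [hst]; simp, fun e => hxy e.symm, by rw [hst, Finset.pair_comm]⟩
    obtain ⟨m', hm', hmm, hst'⟩ := hex
    rw [hst'] at h7
    have h11 : dn u m e ∈ segment ℝ m m' := by
      rw [← convexHull_pair]
      simpa using h7
    obtain ⟨a, b, ha, hb, hab, h12⟩ := h11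
    have h13 : Lf u (dn u m e) = a * Lf u m + b * Lf u m' := by
      rw [← h12]
      unfold Lf
      simp only [Prod.fst_add, Prod.snd_add, Prod.smul_fst, Prod.smul_snd, smul_eq_mul]
      ring
    rw [Lf_dn] at h13
    have h14 : b * (Lf u m' - Lf u m) = 0 := by
      have : a = 1 - b := by linarith
      rw [this] at h13
      linarith
    rcases mul_eq_zero.1 h14 with h15 | h15
    · apply hnm
      rw [← h12, h15]
      have : a = 1 := by linarith
      rw [this]; simp
    · apply hmm
      exact hinj m h1.1 m' (Finset.mem_inter.1 hm').1 (by linarith)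

theorem Up.not_tail {P : Finset Pt} {u : Pt} {t : Finset Pt} {v w : Pt} (ht : t ⊆ P)
    (h : HE P v w) (hL : Lf u v < Lf u w) : ¬ Up u t v := by
  intro hup
  obtain ⟨e0, he0, h3⟩ := hup.mem
  have h5 := h3 e0 he0 le_rfl
  have h6 : orient v w (dn u v e0) = - (e0 * (Lf u w - Lf u v)) := by
    unfold orient dn Lf; simp only; ring
  have h7 : 0 ≤ orient v w (dn u v e0) :=
    orient_nonneg_of_mem_hull v w _ _ (fun q hq => h.nonneg q (ht (Finset.mem_coe.1 hq))) h5
  have h8 : 0 < e0 * (Lf u w - Lf u v) := mul_pos he0 (by linarith)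
  linarith

theorem count_up (P : Finset Pt) (K : Finset (Finset Pt)) (hK : ∀ t ∈ K, t ⊆ P)
    (hne : P.Nonempty) (u : Pt) (E : Finset (Pt × Pt))
    (hE : ∀ e ∈ E, HE P e.1 e.2 ∧ Lf u e.1 < Lf u e.2) (U : Finset Pt) (hUP : U ⊆ P)
    (hU : ∀ m ∈ U, ∃ t ∈ K, Up u t m) : U.card + E.card + 1 ≤ P.card := by
  classical
  obtain ⟨M, hM, hmax⟩ := Finset.exists_max_image P (fun q => Lf u q) hne
  set W := E.image (fun e => e.1) with hW
  have hWc : W.card = E.card := by
    apply Finset.card_image_of_injOn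
    intro e he e' he' hee
    have h1 := hE e (Finset.mem_coe.1 he)
    have h2 := hE e' (Finset.mem_coe.1 he')
    simp only at hee
    rw [← hee] at h2
    exact Prod.ext hee (h1.1.unique_out h2.1)
  have hMU : M ∉ U := by
    intro h
    obtain ⟨t, ht, h2⟩ := hU M h
    obtain ⟨_, l, _, r, hr, _, h3, _⟩ := h2
    have := hmax r (hK t ht hr)
    linarith
  have hMW : M ∉ W := by
    intro h
    rw [hW, Finset.mem_image] at h
    obtain ⟨e, he, rfl⟩ := h
    have h1 := hE e he
    have := hmax e.2 h1.1.2.1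
    linarith
  have hdis : Disjoint U W := by
    rw [Finset.disjoint_left]
    intro m hm hm2
    rw [hW, Finset.mem_image] at hm2
    obtain ⟨e, he, rfl⟩ := hm2
    have h1 := hE e he
    obtain ⟨t, ht, h2⟩ := hU e.1 hm
    exact Up.not_tail (hK t ht) h1.1 h1.2 h2
  have hsub : insert M (U ∪ W) ⊆ P := by
    intro x hx
    rw [Finset.mem_insert, Finset.mem_union] at hx
    rcases hx with rfl | hx | hx
    · exact hM
    · exact hUP hx
    · rw [hW, Finset.mem_image] at hx
      obtain ⟨e, he, rfl⟩ := hx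
      exact (hE e he).1.1
  have h2 := Finset.card_le_card hsub
  rw [Finset.card_insert_of_notMem (by
    rw [Finset.mem_union]; rintro (h | h); exacts [hMU h, hMW h]),
    Finset.card_union_of_disjoint hdis, hWc] at h2
  exact h2

theorem Lf_neg (u p : Pt) : Lf (-u) p = - Lf u p := by
  unfold Lf; simp only [Prod.fst_neg, Prod.snd_neg]; ring

theorem CP.orient_ne {t : Finset Pt} (h : CP t) {a b c : Pt} (ha : a ∈ t) (hb : b ∈ t)
    (hc : c ∈ t) (hab : a ≠ b) (hac : a ≠ c) (hbc : b ≠ c) : orient a b c ≠ 0 := by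
  classical
  have h3 : ({a, b, c} : Finset Pt).card = 3 := by
    rw [Finset.card_eq_three]; exact ⟨a, b, c, hab, hac, hbc, rfl⟩
  have hsub : ({a, b, c} : Finset Pt) ⊆ t := by
    intro x hx
    simp only [Finset.mem_insert, Finset.mem_singleton] at hx
    rcases hx with rfl | rfl | rfl <;> assumption
  obtain ⟨l, h1, h2, h4⟩ := h.mono hsub
  have hlen : l.length = 3 := by rw [CP.length h1 h2, h3]
  -- l = [x, y, z]
  match l, hlen with
  | [x, y, z], _ =>
    have h5 := h4 x y z (List.Sublist.refl _)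
    have hx : x ∈ ({a, b, c} : Finset Pt) := by rw [← h2]; simp
    have hy : y ∈ ({a, b, c} : Finset Pt) := by rw [← h2]; simp
    have hz : z ∈ ({a, b, c} : Finset Pt) := by rw [← h2]; simp
    simp only [List.nodup_cons, List.mem_cons, List.not_mem_nil, or_false, not_or,
      not_false_eq_true, List.nodup_nil, and_true] at h1
    simp only [Finset.mem_insert, Finset.mem_singleton] at hx hy hz
    intro h0
    unfold orient at h0 h5
    rcases hx with rfl | rfl | rfl <;> rcases hy with rfl | rfl | rfl <;>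
      rcases hz with rfl | rfl | rfl <;> first | (exfalso; tauto) | nlinarith

theorem sum_le (P : Finset Pt) (K : Finset (Finset Pt)) (hC : Cx K) (hK : ∀ t ∈ K, t ⊆ P)
    (hne : P.Nonempty) (E : Finset (Pt × Pt)) (hE : ∀ e ∈ E, HE P e.1 e.2) :
    ∑ t ∈ K, (t.card - 2) + 2 + E.card ≤ 2 * P.card := by
  classical
  obtain ⟨u, hinj⟩ := exists_generic P
  -- per cell
  have hcell : ∀ t ∈ K, t.card - 2 ≤ (t.filter (fun m => Up u t m)).card
      + (t.filter (fun m => Up (-u) t m)).card := by
    intro t ht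
    have ht3 := hC.three t ht
    have htne : t.Nonempty := by
      rw [← Finset.card_pos]; omega
    obtain ⟨a, ha, hmin⟩ := Finset.exists_min_image t (fun q => Lf u q) htne
    obtain ⟨b, hb, hmax⟩ := Finset.exists_max_image t (fun q => Lf u q) htne
    have hsub : t \ {a, b} ⊆ (t.filter (fun m => Up u t m)) ∪ (t.filter (fun m => Up (-u) t m)) := by
      intro m hm
      rw [Finset.mem_sdiff] at hm
      simp only [Finset.mem_insert, Finset.mem_singleton, not_or] at hm
      obtain ⟨hm1, hma, hmb⟩ := hm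
      have h1 : Lf u a < Lf u m := by
        rcases lt_or_eq_of_le (hmin m hm1) with h | h
        · exact h
        · exact absurd (hinj a (hK t ht ha) m (hK t ht hm1) h).symm hma
      have h2 : Lf u m < Lf u b := by
        rcases lt_or_eq_of_le (hmax m hm1) with h | h
        · exact h
        · exact absurd (hinj m (hK t ht hm1) b (hK t ht hb) h) hmb
      have hab : a ≠ b := by
        rintro rfl; linarith
      have h3 := (hC.cp t ht).orient_ne ha hb hm1 hab (fun e => hma e.symm) (fun e => hmb e.symm)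
      rw [Finset.mem_union, Finset.mem_filter, Finset.mem_filter]
      rcases lt_or_gt_of_ne h3 with h4 | h4
      · right
        refine ⟨hm1, hm1, b, hb, a, ha, ?_, ?_, ?_⟩
        · rw [Lf_neg, Lf_neg]; linarith
        · rw [Lf_neg, Lf_neg]; linarith
        · rw [orient_swap]; linarith
      · left
        exact ⟨hm1, hm1, a, ha, b, hb, h1, h2, h4⟩
    calc t.card - 2 ≤ t.card - ({a, b} : Finset Pt).card := by
          have : ({a, b} : Finset Pt).card ≤ 2 := Finset.card_le_two
          omega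
      _ ≤ (t \ {a, b}).card := Finset.le_card_sdiff _ _
      _ ≤ _ := Finset.card_le_card hsub
      _ ≤ _ := Finset.card_union_le _ _
  have hdisj : ∀ u' : Pt, (∀ p ∈ P, ∀ q ∈ P, Lf u' p = Lf u' q → p = q) →
      ∑ t ∈ K, (t.filter (fun m => Up u' t m)).card =
        (K.biUnion (fun t => t.filter (fun m => Up u' t m))).card := by
    intro u' hinj'
    rw [Finset.card_biUnion]
    intro s hs t ht hst
    rw [Function.onFun, Finset.disjoint_left]
    intro m hm1 hm2
    rw [Finset.mem_filter] at hm1 hm2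
    apply hst
    exact Up.unique hC hs ht hm1.2 hm2.2
      (fun p hp q hq h => hinj' p (hK s hs hp) q (hK s hs hq) h)
  have hinj2 : ∀ p ∈ P, ∀ q ∈ P, Lf (-u) p = Lf (-u) q → p = q := by
    intro p hp q hq h
    rw [Lf_neg, Lf_neg] at h
    exact hinj p hp q hq (by linarith)
  have hsum : ∑ t ∈ K, (t.card - 2) ≤
      (K.biUnion (fun t => t.filter (fun m => Up u t m))).card +
      (K.biUnion (fun t => t.filter (fun m => Up (-u) t m))).card := by
    rw [← hdisj u hinj, ← hdisj (-u) hinj2, ← Finset.sum_add_distrib]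
    exact Finset.sum_le_sum hcell
  have h1 := count_up P K hK hne u (E.filter (fun e => Lf u e.1 < Lf u e.2))
    (fun e he => by rw [Finset.mem_filter] at he; exact ⟨hE e he.1, he.2⟩)
    (K.biUnion (fun t => t.filter (fun m => Up u t m)))
    (by
      intro m hm
      rw [Finset.mem_biUnion] at hm
      obtain ⟨t, ht, hm⟩ := hm
      exact hK t ht (Finset.mem_filter.1 hm).1)
    (by
      intro m hm
      rw [Finset.mem_biUnion] at hm
      obtain ⟨t, ht, hm⟩ := hm
      exact ⟨t, ht, (Finset.mem_filter.1 hm).2⟩)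
  have h2 := count_up P K hK hne (-u) (E.filter (fun e => ¬ Lf u e.1 < Lf u e.2))
    (fun e he => by
      rw [Finset.mem_filter] at he
      have h3 := hE e he.1
      refine ⟨h3, ?_⟩
      rw [Lf_neg, Lf_neg]
      have h4 : Lf u e.1 ≠ Lf u e.2 := fun h => h3.2.2.1 (hinj _ h3.1 _ h3.2.1 h)
      have h5 : Lf u e.2 < Lf u e.1 := lt_of_le_of_ne (not_lt.1 he.2) (fun h => h4 h.symm)
      linarith)
    (K.biUnion (fun t => t.filter (fun m => Up (-u) t m)))
    (by
      intro m hm
      rw [Finset.mem_biUnion] at hm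
      obtain ⟨t, ht, hm⟩ := hm
      exact hK t ht (Finset.mem_filter.1 hm).1)
    (by
      intro m hm
      rw [Finset.mem_biUnion] at hm
      obtain ⟨t, ht, hm⟩ := hm
      exact ⟨t, ht, (Finset.mem_filter.1 hm).2⟩)
  have h3 := Finset.card_filter_add_card_filter_not (s := E) (fun e : Pt × Pt => Lf u e.1 < Lf u e.2)
  omega

end Pool.Agent.RFX

end

section

/-!
# Labels on rings: parity and counting (abstract part)

`chgp b l` : the vertices at which the Bool label changes along a path of labelled edges.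
`chg l`    : the same for the cyclic list.
`Sys`      : links with tail and head zones; `Sys.two`: every ring with a change has exactly
             two, one tail and one head; `Sys.live`, `Sys.notlive`.
-/

namespace RFX
namespace Cr

variable {V : Type*} {ι : Type*}

/-- vertices at which the label changes; `b` is the label of the edge before the path;
an entry `(v, c)` is a vertex together with the label of the edge after it -/
def chgp : Bool → List (V × Bool) → List V
  | _, [] => []
  | b, (v, c) :: l => (if b = c then [] else [v]) ++ chgp c l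

/-- label of the last edge -/
def lst : Bool → List (V × Bool) → Bool
  | b, [] => b
  | _, (_, c) :: l => lst c l

/-- cyclic changes -/
def chg (l : List (V × Bool)) : List V := chgp (lst true l) l

@[simp] theorem lst_nil (b : Bool) : lst b ([] : List (V × Bool)) = b := rfl
@[simp] theorem lst_cons (b : Bool) (e : V × Bool) (l : List (V × Bool)) :
    lst b (e :: l) = lst e.2 l := rfl
@[simp] theorem chgp_nil (b : Bool) : chgp b ([] : List (V × Bool)) = [] := rfl
@[simp] theorem chgp_cons (b : Bool) (e : V × Bool) (l : List (V × Bool)) :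
    chgp b (e :: l) = (if b = e.2 then [] else [e.1]) ++ chgp e.2 l := rfl

theorem lst_append (b : Bool) (l1 l2 : List (V × Bool)) :
    lst b (l1 ++ l2) = lst (lst b l1) l2 := by
  induction l1 generalizing b with
  | nil => rfl
  | cons e l ih => simp [ih]

theorem chgp_append (b : Bool) (l1 l2 : List (V × Bool)) :
    chgp b (l1 ++ l2) = chgp b l1 ++ chgp (lst b l1) l2 := by
  induction l1 generalizing b with
  | nil => rfl
  | cons e l ih => simp [ih]

theorem lst_of_ne_nil {l : List (V × Bool)} (h : l ≠ []) (b c : Bool) : lst b l = lst c l := by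
  cases l with
  | nil => exact absurd rfl h
  | cons e l => rfl

theorem parity (b : Bool) (l : List (V × Bool)) :
    (chgp b l).length % 2 = if b = lst b l then 0 else 1 := by
  induction l generalizing b with
  | nil => simp
  | cons e l ih =>
    have h := ih e.2
    rw [chgp_cons, lst_cons, List.length_append]
    by_cases hb : b = e.2
    · subst hb
      simp only [if_true, List.length_nil, Nat.zero_add]
      exact h
    · rw [if_neg hb]
      simp only [List.length_singleton]
      by_cases h2 : e.2 = lst e.2 l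
      · rw [if_pos h2] at h
        rw [← h2, if_neg hb]; omega
      · rw [if_neg h2] at h
        have : b = lst e.2 l := by
          revert hb h2
          cases b <;> cases e.2 <;> cases (lst _ l) <;> simp
        rw [if_pos this]; omega

theorem even_chg (l : List (V × Bool)) : Even (chg l).length := by
  unfold chg
  rw [Nat.even_iff, parity]
  cases l with
  | nil => simp
  | cons e l => simp

theorem chgp_sublist (b : Bool) (l : List (V × Bool)) :
    (chgp b l).Sublist (l.map Prod.fst) := by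
  induction l generalizing b with
  | nil => simp
  | cons e l ih =>
    rw [chgp_cons, List.map_cons]
    by_cases hb : b = e.2
    · rw [if_pos hb]; simpa using (ih e.2).cons e.1
    · rw [if_neg hb]; simpa using (ih e.2).cons_cons e.1

theorem chg_sublist (l : List (V × Bool)) : (chg l).Sublist (l.map Prod.fst) :=
  chgp_sublist _ _

theorem chg_nodup {l : List (V × Bool)} (h : (l.map Prod.fst).Nodup) : (chg l).Nodup :=
  (chg_sublist l).nodup h

/-- a vertex of a path is a change iff the labels before and after differ -/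
theorem mem_chgp {b : Bool} {l1 l2 : List (V × Bool)} {v : V} {c : Bool}
    (h : ((l1 ++ (v, c) :: l2).map Prod.fst).Nodup) :
    v ∈ chgp b (l1 ++ (v, c) :: l2) ↔ lst b l1 ≠ c := by
  rw [List.map_append, List.map_cons] at h
  have h1 : v ∉ l1.map Prod.fst := by
    intro hv
    exact (List.disjoint_of_nodup_append h) hv (by simp)
  have h2 : v ∉ l2.map Prod.fst := by
    have := h.of_append_right
    rw [List.nodup_cons] at this
    exact this.1
  rw [chgp_append, chgp_cons, List.mem_append, List.mem_append]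
  constructor
  · rintro (hh | hh | hh)
    · exact absurd ((chgp_sublist _ _).subset hh) h1
    · intro e
      rw [if_pos e] at hh
      simp at hh
    · exact absurd ((chgp_sublist _ _).subset hh) h2
  · intro hne
    right; left
    rw [if_neg hne]; simp

theorem mem_chg {l1 l2 : List (V × Bool)} {v : V} {c : Bool}
    (h : ((l1 ++ (v, c) :: l2).map Prod.fst).Nodup) :
    v ∈ chg (l1 ++ (v, c) :: l2) ↔ lst (lst c l2) l1 ≠ c := by
  unfold chg
  rw [mem_chgp h, lst_append, lst_cons]

/-! ### Live zones -/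

/-- `z` is live: there is a set of zones containing `z`, each of which is the tail of an active
link with head in the set -/
def Live (Act : Set V) (T H : V → ι) (z : ι) : Prop :=
  ∃ S : Set ι, z ∈ S ∧ ∀ y ∈ S, ∃ v ∈ Act, T v = y ∧ H v ∈ S

theorem Live.mono {Act Act' : Set V} {T H : V → ι} {z : ι} (h : Live Act' T H z)
    (hs : Act' ⊆ Act) : Live Act T H z := by
  obtain ⟨S, hz, hS⟩ := h
  refine ⟨S, hz, fun y hy => ?_⟩
  obtain ⟨v, hv, h1, h2⟩ := hS y hy
  exact ⟨v, hs hv, h1, h2⟩

theorem Live.tail {Act : Set V} {T H : V → ι} {v : V} (hv : v ∈ Act)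
    (h : Live Act T H (H v)) : Live Act T H (T v) := by
  obtain ⟨S, hz, hS⟩ := h
  refine ⟨insert (T v) S, Set.mem_insert _ _, fun y hy => ?_⟩
  rcases Set.mem_insert_iff.1 hy with rfl | hy
  · exact ⟨v, hv, rfl, Set.mem_insert_of_mem _ hz⟩
  · obtain ⟨u, hu, h1, h2⟩ := hS y hy
    exact ⟨u, hu, h1, Set.mem_insert_of_mem _ h2⟩

theorem Live.exists {Act : Set V} {T H : V → ι} {z : ι} (h : Live Act T H z) :
    ∃ v ∈ Act, T v = z ∧ Live Act T H (H v) := by
  obtain ⟨S, hz, hS⟩ := h
  obtain ⟨v, hv, h1, h2⟩ := hS z hz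
  exact ⟨v, hv, h1, S, h2, hS⟩

/-! ### Counting -/

/-- links with tail and head zones, and the set of label changes of every ring -/
structure Sys (ι V : Type*) [DecidableEq ι] [DecidableEq V] where
  Z : Finset ι
  Act : Finset V
  T : V → ι
  H : V → ι
  ch : ι → Finset V
  inj : ∀ u ∈ Act, ∀ v ∈ Act, T u = T v → u = v
  ne : ∀ v ∈ Act, T v ≠ H v
  TZ : ∀ v ∈ Act, T v ∈ Z
  HZ : ∀ v ∈ Act, H v ∈ Z
  ev : ∀ z ∈ Z, Even (ch z).card
  sub : ∀ z ∈ Z, ∀ v ∈ ch z, v ∈ Act ∧ (T v = z ∨ H v = z)
  iff : ∀ v ∈ Act, v ∈ ch (T v) ↔ v ∈ ch (H v)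

namespace Sys

variable [DecidableEq ι] [DecidableEq V] (S : Sys ι V)

/-- separating links -/
def Sep : Finset V := S.Act.filter (fun v => v ∈ S.ch (S.T v))

theorem mem_Sep {v : V} : v ∈ S.Sep ↔ v ∈ S.Act ∧ v ∈ S.ch (S.T v) := by
  unfold Sep; rw [Finset.mem_filter]

theorem Sep_sub {v : V} (h : v ∈ S.Sep) : v ∈ S.Act := (S.mem_Sep.1 h).1

theorem mem_Sep_of_ch {z : ι} (hz : z ∈ S.Z) {v : V} (h : v ∈ S.ch z) : v ∈ S.Sep := by
  obtain ⟨ha, ht⟩ := S.sub z hz v h
  rw [S.mem_Sep]
  refine ⟨ha, ?_⟩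
  rcases ht with ht | ht
  · rw [ht]; exact h
  · rw [S.iff v ha, ht]; exact h

theorem sum_ch : ∑ z ∈ S.Z, (S.ch z).card = 2 * S.Sep.card := by
  have h1 : ∀ z ∈ S.Z, (S.ch z).card = ∑ v ∈ S.Sep, if v ∈ S.ch z then 1 else 0 := by
    intro z hz
    rw [← Finset.sum_filter, Finset.sum_const, smul_eq_mul, mul_one]
    congr 1
    ext v
    rw [Finset.mem_filter]
    exact ⟨fun h => ⟨S.mem_Sep_of_ch hz h, h⟩, fun h => h.2⟩
  rw [Finset.sum_congr rfl h1, Finset.sum_comm]
  have h2 : ∀ v ∈ S.Sep, (∑ z ∈ S.Z, if v ∈ S.ch z then 1 else 0) = 2 := by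
    intro v hv
    rw [S.mem_Sep] at hv
    obtain ⟨ha, hc⟩ := hv
    rw [← Finset.sum_filter, Finset.sum_const, smul_eq_mul, mul_one]
    have : S.Z.filter (fun z => v ∈ S.ch z) = {S.T v, S.H v} := by
      ext z
      rw [Finset.mem_filter, Finset.mem_insert, Finset.mem_singleton]
      constructor
      · rintro ⟨hz, h⟩
        rcases (S.sub z hz v h).2 with h | h
        · left; exact h.symm
        · right; exact h.symm
      · rintro (rfl | rfl)
        · exact ⟨S.TZ v ha, hc⟩
        · exact ⟨S.HZ v ha, (S.iff v ha).1 hc⟩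
    rw [this, Finset.card_pair (S.ne v ha)]
  rw [Finset.sum_congr rfl h2, Finset.sum_const, smul_eq_mul, mul_comm]

/-- every ring with a change has exactly two changes and is the tail zone of a separating link -/
theorem card_ch {z : ι} (hz : z ∈ S.Z) (h : (S.ch z).Nonempty) :
    (S.ch z).card = 2 ∧ z ∈ S.Sep.image S.T := by
  have hsub : S.Sep.image S.T ⊆ S.Z := by
    intro y hy
    obtain ⟨v, hv, rfl⟩ := Finset.mem_image.1 hy
    exact S.TZ v (S.Sep_sub hv)
  have hcard : (S.Sep.image S.T).card = S.Sep.card := by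
    apply Finset.card_image_of_injOn
    intro u hu v hv e
    exact S.inj u (S.Sep_sub hu) v (S.Sep_sub hv) e
  have h2 : ∀ y ∈ S.Sep.image S.T, 2 ≤ (S.ch y).card := by
    intro y hy
    obtain ⟨v, hv, rfl⟩ := Finset.mem_image.1 hy
    have hv' := S.mem_Sep.1 hv
    have hp : 0 < (S.ch (S.T v)).card := Finset.card_pos.2 ⟨v, hv'.2⟩
    obtain ⟨k, hk⟩ := S.ev _ (S.TZ v hv'.1)
    omega
  have hsum := S.sum_ch
  rw [← Finset.sum_sdiff hsub] at hsum
  have hge : 2 * S.Sep.card ≤ ∑ y ∈ S.Sep.image S.T, (S.ch y).card := by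
    calc 2 * S.Sep.card = ∑ y ∈ S.Sep.image S.T, 2 := by
          rw [Finset.sum_const, smul_eq_mul, hcard, mul_comm]
      _ ≤ _ := Finset.sum_le_sum h2
  have hpos : 0 < (S.ch z).card := Finset.card_pos.2 h
  have hmem : z ∈ S.Sep.image S.T := by
    by_contra hn
    have : (S.ch z).card ≤ ∑ y ∈ S.Z \ S.Sep.image S.T, (S.ch y).card :=
      Finset.single_le_sum (f := fun y => (S.ch y).card) (fun _ _ => Nat.zero_le _)
        (Finset.mem_sdiff.2 ⟨hz, hn⟩)
    omega
  refine ⟨?_, hmem⟩
  by_contra hne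
  have h3 : 2 < (S.ch z).card := lt_of_le_of_ne (h2 z hmem) (Ne.symm hne)
  have hlt : ∑ y ∈ S.Sep.image S.T, 2 < ∑ y ∈ S.Sep.image S.T, (S.ch y).card :=
    Finset.sum_lt_sum h2 ⟨z, hmem, h3⟩
  rw [Finset.sum_const, smul_eq_mul, hcard] at hlt
  omega

/-- **counting lemma** -/
theorem two {z : ι} (hz : z ∈ S.Z) (h : (S.ch z).Nonempty) :
    ∃ w ∈ S.Sep, ∃ w' ∈ S.Sep, S.T w = z ∧ S.H w' = z ∧ w ≠ w' ∧ S.ch z = {w, w'} := by
  obtain ⟨hc, hm⟩ := S.card_ch hz h
  obtain ⟨w, hw, rfl⟩ := Finset.mem_image.1 hm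
  have hwc := (S.mem_Sep.1 hw).2
  obtain ⟨w', hw', hne⟩ := Finset.exists_mem_ne (by omega : 1 < (S.ch (S.T w)).card) w
  have hs' := S.mem_Sep_of_ch hz hw'
  refine ⟨w, hw, w', hs', rfl, ?_, hne.symm, ?_⟩
  · rcases (S.sub _ hz w' hw').2 with e | e
    · exact absurd (S.inj _ (S.Sep_sub hs') _ (S.Sep_sub hw) e) hne
    · exact e
  · symm
    apply Finset.eq_of_subset_of_card_le
    · intro u hu
      rcases Finset.mem_insert.1 hu with rfl | hu
      · exact hwc
      · rw [Finset.mem_singleton.1 hu]; exact hw'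
    · rw [hc, Finset.card_pair hne.symm]

theorem mem_ch_T {v : V} (h : v ∈ S.Sep) : v ∈ S.ch (S.T v) := (S.mem_Sep.1 h).2

theorem mem_ch_H {v : V} (h : v ∈ S.Sep) : v ∈ S.ch (S.H v) :=
  (S.iff v (S.Sep_sub h)).1 (S.mem_ch_T h)

/-- the tail link of the head zone of a separating link -/
theorem exists_next {v : V} (h : v ∈ S.Sep) : ∃ u ∈ S.Sep, S.T u = S.H v := by
  obtain ⟨w, hw, -, -, h1, -⟩ := S.two (S.HZ v (S.Sep_sub h)) ⟨v, S.mem_ch_H h⟩
  exact ⟨w, hw, h1⟩

/-- two separating links with the same head zone are equal -/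
theorem head_inj {u v : V} (hu : u ∈ S.Sep) (hv : v ∈ S.Sep) (e : S.H u = S.H v) : u = v := by
  obtain ⟨w, hw, w', hw', h1, h2, hne, hch⟩ :=
    S.two (S.HZ v (S.Sep_sub hv)) ⟨v, S.mem_ch_H hv⟩
  have hu1 : u ∈ S.ch (S.H v) := e ▸ S.mem_ch_H hu
  have hv1 : v ∈ S.ch (S.H v) := S.mem_ch_H hv
  have key : ∀ x ∈ S.Sep, S.H x = S.H v → x ∈ S.ch (S.H v) → x = w' := by
    intro x hx hxe hxc
    rw [hch, Finset.mem_insert, Finset.mem_singleton] at hxc
    rcases hxc with rfl | hxc
    · exact absurd (h1.trans hxe.symm) (S.ne _ (S.Sep_sub hx))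
    · exact hxc
  rw [key u hu e hu1, key v hv rfl hv1]

/-- all tail zones of separating links are live -/
theorem live_T {v : V} (h : v ∈ S.Sep) : Live (S.Act : Set V) S.T S.H (S.T v) := by
  refine ⟨S.T '' (S.Sep : Set V), ⟨v, h, rfl⟩, ?_⟩
  rintro y ⟨u, hu, rfl⟩
  obtain ⟨x, hx, hxe⟩ := S.exists_next hu
  exact ⟨u, S.Sep_sub hu, rfl, ⟨x, hx, hxe⟩⟩

theorem live_H {v : V} (h : v ∈ S.Sep) : Live (S.Act : Set V) S.T S.H (S.H v) := by
  obtain ⟨x, hx, hxe⟩ := S.exists_next h
  rw [← hxe]; exact S.live_T hx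

/-- `next` as a map on separating links -/
noncomputable def next (v : {v // v ∈ S.Sep}) : {v // v ∈ S.Sep} :=
  ⟨(S.exists_next v.2).choose, (S.exists_next v.2).choose_spec.1⟩

theorem next_T (v : {v // v ∈ S.Sep}) : S.T (S.next v).1 = S.H v.1 :=
  (S.exists_next v.2).choose_spec.2

theorem next_inj : Function.Injective S.next := by
  intro u v e
  apply Subtype.ext
  apply S.head_inj u.2 v.2
  rw [← S.next_T u, ← S.next_T v, e]

/-- cutting a cycle: after deleting the tail link `w` or the entering link `w'` of the zone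
`T w`, neither this zone nor the zone `H w` is live -/
theorem notlive {w w' : V} (hw : w ∈ S.Sep) (hw' : w' ∈ S.Sep) (he : S.H w' = S.T w)
    {Act' : Set V} (hsub : Act' ⊆ (S.Act : Set V)) (hA : w ∉ Act' ∨ w' ∉ Act') :
    ¬ Live Act' S.T S.H (S.T w) ∧ ¬ Live Act' S.T S.H (S.H w) := by
  have hstep : ∀ (x : {v // v ∈ S.Sep}), Live Act' S.T S.H (S.T x.1) →
      x.1 ∈ Act' ∧ Live Act' S.T S.H (S.T (S.next x).1) := by
    intro x hx
    obtain ⟨v, hv, h1, h2⟩ := hx.exists
    have : v = x.1 := S.inj v (hsub hv) x.1 (S.Sep_sub x.2) h1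
    subst this
    exact ⟨hv, by rw [S.next_T]; exact h2⟩
  have hall : ∀ n (x : {v // v ∈ S.Sep}), Live Act' S.T S.H (S.T x.1) →
      (S.next^[n] x).1 ∈ Act' ∧ Live Act' S.T S.H (S.T (S.next^[n] x).1) := by
    intro n
    induction n with
    | zero => intro x hx; exact ⟨(hstep x hx).1, hx⟩
    | succ n ih =>
      intro x hx
      have := ih (S.next x) (hstep x hx).2
      rwa [← Function.iterate_succ_apply] at this
  have hnw : S.next ⟨w', hw'⟩ = ⟨w, hw⟩ := by
    apply Subtype.ext
    apply S.inj _ (S.Sep_sub (S.next ⟨w', hw'⟩).2) _ (S.Sep_sub hw)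
    rw [S.next_T]; exact he
  -- from any point of the cycle we reach `w'` and `w`
  have key : ¬ Live Act' S.T S.H (S.T w) := by
    intro hl
    obtain ⟨n, hn, hper⟩ :=
      (S.next_inj.mem_periodicPts (⟨w, hw⟩ : {v // v ∈ S.Sep}))
    obtain ⟨m, rfl⟩ : ∃ m, n = m + 1 := ⟨n - 1, by omega⟩
    have hper' : S.next^[m+1] ⟨w, hw⟩ = ⟨w, hw⟩ := hper
    rw [Function.iterate_succ_apply'] at hper'
    have hm : S.next^[m] ⟨w, hw⟩ = ⟨w', hw'⟩ := by
      apply S.next_inj
      rw [hper', hnw]
    have h1 := (hall 0 ⟨w, hw⟩ hl).1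
    have h2 := (hall m ⟨w, hw⟩ hl).1
    rw [hm] at h2
    rcases hA with h | h
    · exact h h1
    · exact h h2
  refine ⟨key, ?_⟩
  intro hl
  -- `H w = T (next w)`; go around the cycle
  obtain ⟨n, hn, hper⟩ :=
    (S.next_inj.mem_periodicPts (⟨w, hw⟩ : {v // v ∈ S.Sep}))
  obtain ⟨m, rfl⟩ : ∃ m, n = m + 1 := ⟨n - 1, by omega⟩
  have hper' : S.next^[m+1] ⟨w, hw⟩ = ⟨w, hw⟩ := hper
  rw [Function.iterate_succ_apply] at hper'
  have hl' : Live Act' S.T S.H (S.T (S.next ⟨w, hw⟩).1) := by rw [S.next_T]; exact hl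
  have := (hall m _ hl').2
  rw [hper'] at this
  exact key this

end Sys

end Cr
end RFX

end
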