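import Mathlib
import Pool.Agent.RFM.P02
import Pool.Agent.RFM.P03

set_option autoImplicit false

/-!
# RFM/P05 (MP_72a26e_co): the files RFT/CxL, RFT/Sight, RFX/CxL, merged to save build time
-/

section

set_option autoImplicit false

/-!
# RFT/CxL : two empty cells with sides in a plane edge set meet in the hull of their common
vertices (MP_72a26e_co)
-/

namespace Pool.Agent.RFT

open Pool.Agent.RFX

theorem mem_hull_ccw_aux (x v0 : Pt) (S : Set Pt) (h0 : v0 ∈ S) :
    ∀ (v1 : Pt) (l : List Pt), CCW (v0 :: v1 :: l) → l ≠ [] → (∀ y ∈ v1 :: l, y ∈ S) →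
      0 ≤ orient v0 v1 x → (∀ e ∈ pe (v1 :: (l ++ [v0])), 0 ≤ orient e.1 e.2 x) →
      x ∈ convexHull ℝ S := by
  intro v1 l
  induction l generalizing v1 with
  | nil => intro _ h; exact absurd rfl h
  | cons v2 l ih =>
    intro hC _ hS h1 h2
    have e1 : pe (v1 :: (v2 :: l ++ [v0])) = (v1, v2) :: pe (v2 :: (l ++ [v0])) := rfl
    rw [e1] at h2
    have h12 : 0 ≤ orient v1 v2 x := h2 (v1, v2) (by simp)
    have hpos : 0 < orient v0 v1 v2 := hC v0 v1 v2 (by simp)
    rcases le_total (orient v0 v2 x) 0 with h | h
    · apply mem_hull3 v0 v1 v2 x hpos h1 h12 _ S h0 (hS v1 (by simp)) (hS v2 (by simp))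
      rw [orient_swap]; linarith
    · cases l with
      | nil =>
        have e2 : pe (v2 :: ([] ++ [v0])) = [(v2, v0)] := rfl
        rw [e2] at h2
        have h20 : 0 ≤ orient v2 v0 x := h2 (v2, v0) (by simp)
        exact mem_hull3 v0 v1 v2 x hpos h1 h12 h20 S h0 (hS v1 (by simp)) (hS v2 (by simp))
      | cons v3 l' =>
        apply ih v2 _ (by simp) _ h _
        · exact hC.sublist (by simp)
        · intro y hy
          exact hS y (List.mem_cons_of_mem _ hy)
        · intro e he
          exact h2 e (List.mem_cons_of_mem _ he)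

/-- a point on the nonnegative side of all sides of a cell lies in its hull -/
theorem mem_hull_of_sides {s : Finset Pt} (hs : CP s) (h3 : 3 ≤ s.card) {x : Pt}
    (h : ∀ a b, HE s a b → 0 ≤ orient a b x) : x ∈ convexHull ℝ (s : Set Pt) := by
  obtain ⟨l, h1, h2, h4⟩ := hs
  have hlen : l.length = s.card := CP.length h1 h2
  have hc : ∀ a b, (a, b) ∈ cyc l → 0 ≤ orient a b x := by
    intro a b hab
    rw [h4.mem_cyc_iff h1 (by omega), h2] at hab
    exact h a b hab
  match l, hlen with
  | [], hlen => simp at hlen; omega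
  | [_], hlen => simp at hlen; omega
  | v0 :: v1 :: l, hlen =>
    have hl : l ≠ [] := by
      rintro rfl
      simp at hlen; omega
    have e1 : cyc (v0 :: v1 :: l) = (v0, v1) :: pe (v1 :: (l ++ [v0])) := rfl
    have hm : ∀ y, y ∈ v0 :: v1 :: l → y ∈ (s : Set Pt) := by
      intro y hy
      rw [Finset.mem_coe, ← h2, List.mem_toFinset]; exact hy
    refine mem_hull_ccw_aux x v0 _ (hm v0 (by simp)) v1 l h4 hl
      (fun y hy => hm y (List.mem_cons_of_mem _ hy)) (hc v0 v1 (by rw [e1]; simp)) ?_
    intro e he
    exact hc e.1 e.2 (by rw [e1]; exact List.mem_cons_of_mem _ he)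

/-- a point of the hull of a cell which is not a vertex is movable: in all directions or along a
side -/
theorem movable {s : Finset Pt} (hs : CP s) (h3 : 3 ≤ s.card) {x : Pt}
    (hx : x ∈ convexHull ℝ (s : Set Pt)) (hxs : x ∉ s) :
    (∀ u : Pt, ∀ᶠ e : ℝ in nhds 0, x + e • u ∈ convexHull ℝ (s : Set Pt)) ∨
    (∃ (a b : Pt) (σ : ℝ), HE s a b ∧ 0 < σ ∧ σ < 1 ∧ x = (1 - σ) • a + σ • b) := by
  classical
  by_cases h : ∀ a b, HE s a b → 0 < orient a b x
  · left
    intro u
    have h1 : ∀ e ∈ (s ×ˢ s).filter (fun e => HE s e.1 e.2),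
        ∀ᶠ ε : ℝ in nhds 0, 0 ≤ orient e.1 e.2 (x + ε • u) := by
      intro e he
      simp only [Finset.mem_filter] at he
      have h2 := h e.1 e.2 he.2
      have h3 : Continuous (fun ε : ℝ => orient e.1 e.2 (x + ε • u)) := by
        unfold orient
        simp only [Prod.fst_add, Prod.snd_add, Prod.smul_fst, Prod.smul_snd, smul_eq_mul]
        fun_prop
      have h4 : 0 < orient e.1 e.2 (x + (0 : ℝ) • u) := by simpa using h2
      exact (h3.continuousAt.eventually (lt_mem_nhds h4)).mono (fun _ h => le_of_lt h)
    have h2 := (Filter.eventually_all_finset _).2 h1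
    refine h2.mono ?_
    intro ε hε
    apply mem_hull_of_sides hs h3
    intro a b hab
    exact hε (a, b) (by simp [hab, hab.1, hab.2.1])
  · right
    push Not at h
    obtain ⟨a, b, hab, hle⟩ := h
    have h0 : orient a b x = 0 := by
      apply le_antisymm hle
      apply orient_nonneg_of_mem_hull a b x _ _ hx
      intro q hq
      exact hab.nonneg q (Finset.mem_coe.1 hq)
    have h1 := hull_face hab (Finset.Subset.refl s) hx h0
    have h2 : s ∩ {a, b} = {a, b} := by
      apply Finset.inter_eq_right.2
      intro y hy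
      simp only [Finset.mem_insert, Finset.mem_singleton] at hy
      rcases hy with rfl | rfl
      · exact hab.1
      · exact hab.2.1
    rw [h2] at h1
    have h3 : x ∈ segment ℝ a b := by
      rw [← convexHull_pair]
      simpa using h1
    obtain ⟨u, v, hu, hv, huv, hx2⟩ := h3
    have hu' : u = 1 - v := by linarith
    subst hu'
    refine ⟨a, b, v, hab, ?_, ?_, hx2.symm⟩
    · rcases hv.lt_or_eq with h | h
      · exact h
      · exfalso
        subst h
        apply hxs
        rw [← hx2]
        simpa using hab.1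
    · rcases hu.lt_or_eq with h | h
      · linarith
      · exfalso
        have hv1 : v = 1 := by linarith
        subst hv1
        apply hxs
        rw [← hx2]
        simpa using hab.2.1

theorem seg_move {a b x : Pt} {σ : ℝ} (h0 : 0 < σ) (h1 : σ < 1) (hx : x = (1 - σ) • a + σ • b)
    (S : Set Pt) (ha : a ∈ S) (hb : b ∈ S) :
    ∀ᶠ e : ℝ in nhds 0, x + e • (b - a) ∈ convexHull ℝ S := by
  have h2 : ∀ᶠ e : ℝ in nhds 0, 0 < σ + e ∧ σ + e < 1 := by
    have c : Continuous (fun e : ℝ => σ + e) := by fun_prop
    have c0 : (fun e : ℝ => σ + e) 0 = σ := by simp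
    exact (c.continuousAt.eventually (by rw [c0]; exact lt_mem_nhds h0)).and
      (c.continuousAt.eventually (by rw [c0]; exact gt_mem_nhds h1))
  refine h2.mono ?_
  rintro e ⟨he0, he1⟩
  have h3 : x + e • (b - a) = (1 - (σ + e)) • a + (σ + e) • b := by
    rw [hx]; module
  rw [h3]
  exact (convex_convexHull ℝ S) (subset_convexHull ℝ S ha) (subset_convexHull ℝ S hb)
    (by linarith) he0.le (by ring)

/-- sides of cells in a plane edge set: common interior points only on the same side -/
theorem side_side {P : Finset Pt} {M : Finset (Pt × Pt)} (hg : Gen P) (hM : Pl P M)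
    {a b c d x : Pt} (hab : (a, b) ∈ M) (hcd : (c, d) ∈ M) {σ τ : ℝ} (h0 : 0 < σ) (h1 : σ < 1)
    (hx : x = (1 - σ) • a + σ • b) (k0 : 0 < τ) (k1 : τ < 1) (hx' : x = (1 - τ) • c + τ • d) :
    (a = c ∧ b = d) ∨ (a = d ∧ b = c) := by
  have hP := hM.sub a b hab
  have hQ := hM.sub c d hcd
  have n1 := hM.ne a b hab
  have n2 := hM.ne c d hcd
  have o1 : orient a b x = 0 := by
    rw [hx, orient_comb2 _ _ _ _ _ _ (by ring), orient_self2, orient_self3]; ring
  have o2 : orient c d x = 0 := by
    rw [hx', orient_comb2 _ _ _ _ _ _ (by ring), orient_self2, orient_self3]; ring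
  have o1' : (1 - τ) * orient a b c + τ * orient a b d = 0 := by
    rw [← orient_comb2 _ _ _ _ _ _ (by ring), ← hx']; exact o1
  by_cases e1 : a = c
  · left
    refine ⟨e1, ?_⟩
    subst e1
    by_contra hbd
    rw [orient_self2] at o1'
    have h2 : orient a b d = 0 := by
      have : τ * orient a b d = 0 := by linarith
      rcases mul_eq_zero.1 this with h | h
      · exact absurd h k0.ne'
      · exact h
    exact hg a hP.1 b hP.2 d hQ.2 n1 n2 hbd h2
  by_cases e2 : a = d
  · right
    refine ⟨e2, ?_⟩
    subst e2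
    by_contra hbc
    rw [orient_self2] at o1'
    have h2 : orient a b c = 0 := by
      have : (1 - τ) * orient a b c = 0 := by linarith
      rcases mul_eq_zero.1 this with h | h
      · linarith
      · exact h
    exact hg a hP.1 b hP.2 c hQ.1 n1 (Ne.symm n2) hbc h2
  by_cases e3 : b = c
  · exfalso
    subst e3
    rw [orient_self3] at o1'
    have h2 : orient a b d = 0 := by
      have : τ * orient a b d = 0 := by linarith
      rcases mul_eq_zero.1 this with h | h
      · exact absurd h k0.ne'
      · exact h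
    exact hg a hP.1 b hP.2 d hQ.2 n1 e2 n2 h2
  by_cases e4 : b = d
  · exfalso
    subst e4
    rw [orient_self3] at o1'
    have h2 : orient a b c = 0 := by
      have : (1 - τ) * orient a b c = 0 := by linarith
      rcases mul_eq_zero.1 this with h | h
      · linarith
      · exact h
    exact hg a hP.1 b hP.2 c hQ.1 n1 e1 e3 h2
  · exfalso
    apply hM.nc a b c d hab hcd
    exact Xs.of_point (hg a hP.1 b hP.2 c hQ.1 n1 e1 e3) (hg a hP.1 b hP.2 d hQ.2 n1 e2 e4)
      (hg c hQ.1 d hQ.2 a hP.1 n2 (Ne.symm e1) (Ne.symm e2))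
      (hg c hQ.1 d hQ.2 b hP.2 n2 (Ne.symm e3) (Ne.symm e4)) h0.le h1.le k0.le k1.le
      (hx.symm.trans hx')

/-- two empty cells with sides in a plane edge set meet in the hull of their common vertices -/
theorem inter_cells {P : Finset Pt} {M : Finset (Pt × Pt)} (hg : Gen P) (hM : Pl P M)
    {s t : Finset Pt} (hs : CP s) (ht : CP t) (hs3 : 3 ≤ s.card) (ht3 : 3 ≤ t.card)
    (hsP : s ⊆ P) (htP : t ⊆ P) (hse : ∀ p ∈ P, p ∈ convexHull ℝ (s : Set Pt) → p ∈ s)
    (hte : ∀ p ∈ P, p ∈ convexHull ℝ (t : Set Pt) → p ∈ t)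
    (hsM : ∀ a b, HE s a b → (a, b) ∈ M) (htM : ∀ a b, HE t a b → (a, b) ∈ M) :
    convexHull ℝ (s : Set Pt) ∩ convexHull ℝ (t : Set Pt) ⊆
      convexHull ℝ ((s ∩ t : Finset Pt) : Set Pt) := by
  classical
  set K : Set Pt := convexHull ℝ (s : Set Pt) ∩ convexHull ℝ (t : Set Pt) with hK
  have hcomp : IsCompact K := by
    apply IsCompact.inter
    · exact s.finite_toSet.isCompact_convexHull (𝕜 := ℝ)
    · exact t.finite_toSet.isCompact_convexHull (𝕜 := ℝ)
  have hconv : Convex ℝ K := (convex_convexHull ℝ _).inter (convex_convexHull ℝ _)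
  have hext : K.extremePoints ℝ ⊆ ((s ∩ t : Finset Pt) : Set Pt) := by
    intro x hx
    have hxK : x ∈ K := hx.1
    -- not movable
    have hmove : ∀ u : Pt, u ≠ 0 → (∀ᶠ e : ℝ in nhds 0, x + e • u ∈ convexHull ℝ (s : Set Pt)) →
        (∀ᶠ e : ℝ in nhds 0, x + e • u ∈ convexHull ℝ (t : Set Pt)) → False := by
      intro u hu h1 h2
      have h3 := h1.and h2
      have h4 : ∀ᶠ e : ℝ in nhds 0, x + (-e) • u ∈ convexHull ℝ (s : Set Pt) ∧
          x + (-e) • u ∈ convexHull ℝ (t : Set Pt) := by
        have c : Filter.Tendsto (fun e : ℝ => -e) (nhds 0) (nhds 0) := by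
          have : Continuous (fun e : ℝ => -e) := continuous_neg
          simpa using this.tendsto 0
        exact c.eventually h3
      have h5 := h3.and h4
      rw [Metric.eventually_nhds_iff] at h5
      obtain ⟨δ, hδ, h6⟩ := h5
      have h7 := h6 (y := δ / 2) (by
        rw [Real.dist_eq, sub_zero, abs_of_pos (by linarith)]; linarith)
      have hmem1 : x + (δ / 2) • u ∈ K := h7.1
      have hmem2 : x + (-(δ / 2)) • u ∈ K := h7.2
      have hopen : x ∈ openSegment ℝ (x + (δ / 2) • u) (x + (-(δ / 2)) • u) := by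
        refine ⟨1/2, 1/2, by norm_num, by norm_num, by norm_num, ?_⟩
        module
      have h8 := hx.2 hmem1 hmem2 hopen
      have h9 : (δ / 2) • u = 0 := by
        have : x + (δ / 2) • u = x + 0 := by rw [add_zero]; exact h8
        exact add_left_cancel this
      rcases smul_eq_zero.1 h9 with h | h
      · linarith
      · exact hu h
    by_cases hxs : x ∈ s
    · rw [Finset.coe_inter]
      exact ⟨hxs, hte x (hsP hxs) hxK.2⟩
    by_cases hxt : x ∈ t
    · rw [Finset.coe_inter]
      exact ⟨hse x (htP hxt) hxK.1, hxt⟩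
    exfalso
    rcases movable hs hs3 hxK.1 hxs with h1 | ⟨a, b, σ, hab, hσ0, hσ1, hσ⟩
    · rcases movable ht ht3 hxK.2 hxt with h2 | ⟨c, d, τ, hcd, hτ0, hτ1, hτ⟩
      · exact hmove (1, 0) (by simp) (h1 _) (h2 _)
      · exact hmove (d - c) (sub_ne_zero.2 hcd.2.2.1.symm) (h1 _)
          (seg_move hτ0 hτ1 hτ _ hcd.1 hcd.2.1)
    · rcases movable ht ht3 hxK.2 hxt with h2 | ⟨c, d, τ, hcd, hτ0, hτ1, hτ⟩
      · exact hmove (b - a) (sub_ne_zero.2 hab.2.2.1.symm) (seg_move hσ0 hσ1 hσ _ hab.1 hab.2.1)
          (h2 _)
      · have h3 := side_side hg hM (hsM a b hab) (htM c d hcd) hσ0 hσ1 hσ hτ0 hτ1 hτ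
        have ha : a ∈ t := by
          rcases h3 with ⟨rfl, rfl⟩ | ⟨rfl, rfl⟩
          · exact hcd.1
          · exact hcd.2.1
        have hb : b ∈ t := by
          rcases h3 with ⟨rfl, rfl⟩ | ⟨rfl, rfl⟩
          · exact hcd.2.1
          · exact hcd.1
        exact hmove (b - a) (sub_ne_zero.2 hab.2.2.1.symm) (seg_move hσ0 hσ1 hσ _ hab.1 hab.2.1)
          (seg_move hσ0 hσ1 hσ _ ha hb)
  have h1 := closure_convexHull_extremePoints hcomp hconv
  rw [← h1]
  have h2 : convexHull ℝ (K.extremePoints ℝ) ⊆ convexHull ℝ ((s ∩ t : Finset Pt) : Set Pt) :=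
    convexHull_mono hext
  have h3 : IsClosed (convexHull ℝ ((s ∩ t : Finset Pt) : Set Pt)) :=
    ((s ∩ t).finite_toSet.isCompact_convexHull (𝕜 := ℝ)).isClosed
  exact closure_minimal h2 h3

end Pool.Agent.RFT

end

section

set_option autoImplicit false

/-!
# RFT/Sight : the key step of the funnels (MP_72a26e_co)

The ray starts at r and is the prolongation of the segment c r (c, r in P) beyond r. Since P is in
general position no other point of P lies on this line, so the side (left / right) of the ray is the sign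
of `orient c r p`.
-/

namespace Pool.Agent.RFT

open Pool.Agent.RFX

/-- position (in units of r - c, measured from r) of the point where the line e f meets the line
c r -/
noncomputable def mu (c r e f : Pt) : ℝ := orient e f r / (orient c r f - orient c r e)

/-- the edge x y of M (r strictly on its left) is seen from r along the prolongation of c r : x is on
the right and y on the left of the ray, and no edge of M meets the ray before x y -/
structure Sight (P : Finset Pt) (M : Finset (Pt × Pt)) (c r x y : Pt) : Prop where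
  xy : (x, y) ∈ M
  hc : c ∈ P
  hr : r ∈ P
  left : 0 < orient x y r
  sx : orient c r x < 0
  sy : 0 < orient c r y
  vis : ∀ e f, (e, f) ∈ M → orient c r e < 0 → 0 < orient c r f → 0 < orient e f r →
    mu c r x y ≤ mu c r e f

/-- M with the segment a b -/
noncomputable def addE (M : Finset (Pt × Pt)) (a b : Pt) : Finset (Pt × Pt) :=
  insert (a, b) (insert (b, a) M)

theorem mem_addE {M : Finset (Pt × Pt)} {a b p q : Pt} :
    (p, q) ∈ addE M a b ↔ ((p = a ∧ q = b) ∨ (p = b ∧ q = a) ∨ (p, q) ∈ M) := by
  unfold addE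
  simp only [Finset.mem_insert, Prod.mk.injEq]

/-! ### identities -/

/-- transitivity identity for directions at x -/
theorem id_trans (x y u v w : Pt) : orient x y v * orient x u w =
    orient x y u * orient x v w + orient x y w * orient x u v := by
  unfold orient; ring

/-- transitivity identity for directions at y -/
theorem id_trans' (x y u v w : Pt) : orient x y v * orient y u w =
    orient x y u * orient y v w + orient x y w * orient y u v := by
  unfold orient; ring

theorem id_den (c r e f : Pt) : orient e f c - orient e f r = orient c r f - orient c r e := by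
  unfold orient; ring

theorem id_k1 (c r x y a p : Pt) : (orient c r y - orient c r x) * orient y a p =
    (orient c r a - orient c r y) * orient x y p - orient x y a * (orient c r p - orient c r y) := by
  unfold orient; ring

theorem id_k2 (c r x y a p : Pt) : (orient c r y - orient c r x) * orient x a p =
    (orient c r a - orient c r x) * orient x y p - orient x y a * (orient c r p - orient c r x) := by
  unfold orient; ring

/-! ### the point where the ray meets x y -/

/-- the point of the ray at distance m -/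
def zpt (c r : Pt) (m : ℝ) : Pt := (1 + m) • r - m • c

theorem orient_zpt (c r e f : Pt) (m : ℝ) :
    orient e f (zpt c r m) = orient e f r - m * (orient c r f - orient c r e) := by
  rw [← id_den]
  unfold zpt orient
  simp only [Prod.fst_sub, Prod.snd_sub, Prod.smul_fst, Prod.smul_snd, smul_eq_mul]
  ring

theorem zpt_line (c r : Pt) (m : ℝ) : orient c r (zpt c r m) = 0 := by
  rw [orient_zpt, orient_self3, orient_self2]; ring

theorem orient_zr (c r : Pt) (m : ℝ) (p : Pt) :
    orient (zpt c r m) r p = - (m * orient c r p) := by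
  unfold zpt orient
  simp only [Prod.fst_sub, Prod.snd_sub, Prod.smul_fst, Prod.smul_snd, smul_eq_mul]
  ring

variable {P : Finset Pt} {M : Finset (Pt × Pt)} {c r x y : Pt}

theorem Sight.mu_pos (h : Sight P M c r x y) : 0 < mu c r x y := by
  unfold mu
  exact div_pos h.left (by linarith [h.sx, h.sy])

/-- the ray meets the open side x y -/
theorem Sight.zpt_seg (h : Sight P M c r x y) : ∃ s : ℝ, 0 < s ∧ s < 1 ∧
    zpt c r (mu c r x y) = (1 - s) • x + s • y := by
  have h1 : orient x y (zpt c r (mu c r x y)) = 0 := by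
    rw [orient_zpt]
    unfold mu
    have : orient c r y - orient c r x ≠ 0 := by linarith [h.sx, h.sy]
    field_simp
    ring
  have hxy : x ≠ y := by
    rintro rfl
    have := h.left
    simp [orient_self1] at this
  obtain ⟨s, hs⟩ := on_line hxy h1
  have h2 : (1 - s) * orient c r x + s * orient c r y = 0 := by
    rw [← orient_comb2 _ _ _ _ _ _ (by ring), ← hs, zpt_line]
  have hx := h.sx
  have hy := h.sy
  refine ⟨s, ?_, ?_, hs⟩
  · by_contra hc
    push Not at hc
    nlinarith
  · by_contra hc
    push Not at hc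
    nlinarith

/-- a segment e f of P whose line meets the segment [z, r] of the ray at a point w -/
theorem Sight.no_meet (hg : Gen P) (hM : Pl P M) (h : Sight P M c r x y) {e f w : Pt}
    (hef : (e, f) ∈ M) (he : orient c r e < 0) (hf : 0 < orient c r f) {l : ℝ} (hl0 : 0 ≤ l)
    (hl1 : l ≤ 1) (hw : w = (1 - l) • zpt c r (mu c r x y) + l • r) (hline : orient e f w = 0) :
    w = zpt c r (mu c r x y) := by
  have hP := hM.sub e f hef
  have hne := hM.ne e f hef
  have hmu := h.mu_pos
  have hw2 : w = zpt c r ((1 - l) * mu c r x y) := by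
    rw [hw]
    unfold zpt
    module
  have h1 : orient e f r - (1 - l) * mu c r x y * (orient c r f - orient c r e) = 0 := by
    rw [← orient_zpt, ← hw2]; exact hline
  have hden : 0 < orient c r f - orient c r e := by linarith
  have h2 : 0 ≤ (1 - l) * mu c r x y := mul_nonneg (by linarith) hmu.le
  have hre : r ≠ e := by rintro rfl; simp [orient_self3] at he
  have hrf : r ≠ f := by rintro rfl; simp [orient_self3] at hf
  have h3 : 0 ≤ orient e f r := by
    have := mul_nonneg h2 hden.le
    linarith
  have h4 : orient e f r ≠ 0 := hg e hP.1 f hP.2 r h.hr hne (Ne.symm hre) (Ne.symm hrf)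
  have h5 : 0 < orient e f r := lt_of_le_of_ne h3 (Ne.symm h4)
  have h6 := h.vis e f hef he hf h5
  have h7 : mu c r e f = (1 - l) * mu c r x y := by
    have e1 : mu c r e f = orient e f r / (orient c r f - orient c r e) := rfl
    rw [e1, div_eq_iff hden.ne']
    linarith
  rw [h7] at h6
  have h8 : l * mu c r x y ≤ 0 := by linarith
  have h9 : l = 0 := by
    rcases hl0.lt_or_eq with h | h
    · have := mul_pos h hmu
      linarith
    · exact h.symm
  rw [hw, h9]
  module

/-- the left part of the triangle -/
theorem inT_left {z : Pt} {s : ℝ} (hs0 : 0 < s) (hs1 : s < 1) (hz : z = (1 - s) • x + s • y)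
    (hr : 0 < orient x y r) {f : Pt} (hf : InT x z r f) : InT x y r f := by
  have e1 : ∀ p, orient x z p = s * orient x y p := by
    intro p
    rw [hz]
    unfold orient
    simp only [Prod.fst_add, Prod.snd_add, Prod.smul_fst, Prod.smul_snd, smul_eq_mul]
    ring
  have e2 : orient y r z = (1 - s) * orient y r x := by
    rw [hz, orient_comb2 _ _ _ _ _ _ (by ring), orient_self2]; ring
  have h1 : 0 ≤ orient x y f := by
    have := hf.1
    rw [e1] at this
    exact nonneg_of_mul_nonneg_right this hs0
  have hb := orient_bary y r x z r f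
  rw [orient_self3, mul_zero, add_zero, e2, orient_rot x y r, e1] at hb
  have h2 : 0 ≤ orient z r f * orient x y r := mul_nonneg hf.2.1 hr.le
  have h3 : 0 ≤ orient r x f * ((1 - s) * orient x y r) :=
    mul_nonneg hf.2.2 (mul_nonneg (by linarith) hr.le)
  have h4 : 0 ≤ s * orient x y r * orient y r f := by linarith
  have h5 : 0 < s * orient x y r := mul_pos hs0 hr
  exact ⟨h1, nonneg_of_mul_nonneg_right h4 h5, hf.2.2⟩

/-- hypotheses of the step at the point a -/
structure Good (P : Finset Pt) (c r x y a : Pt) : Prop where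
  mem : a ∈ P
  inT : InT x y r a
  hx : a ≠ x
  hy : a ≠ y
  fx : ∀ p ∈ P, InT x y r p → orient c r p ≤ 0 → p ≠ x → 0 ≤ orient x a p
  fy : ∀ p ∈ P, InT x y r p → 0 ≤ orient c r p → p ≠ y → orient y a p ≤ 0

theorem inT_r (hr : 0 < orient x y r) : InT x y r r := InT.v3 hr

theorem Good.pos (hg : Gen P) (hM : Pl P M) (h : Sight P M c r x y) {a : Pt}
    (ha : Good P c r x y a) : 0 < orient x y a := by
  have hP := hM.sub x y h.xy
  exact lt_of_le_of_ne ha.inT.1
    (Ne.symm (hg x hP.1 y hP.2 a ha.mem (hM.ne x y h.xy) (Ne.symm ha.hx) (Ne.symm ha.hy)))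

theorem Good.empty (hg : Gen P) (hM : Pl P M) (h : Sight P M c r x y) {a : Pt}
    (ha : Good P c r x y a) : ∀ p ∈ P, InT x y a p → p = x ∨ p = y ∨ p = a := by
  intro p hp hT
  by_contra hno
  push Not at hno
  obtain ⟨hpx, hpy, hpa⟩ := hno
  have hP := hM.sub x y h.xy
  have hpos := ha.pos hg hM h
  -- p lies in x y r
  have hpT : InT x y r p := by
    have hD := hpos
    have key : ∀ u v, 0 ≤ orient u v x → 0 ≤ orient u v y → 0 ≤ orient u v a → 0 ≤ orient u v p := by
      intro u v h1 h2 h3
      have hb := orient_bary u v x y a p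
      have h4 := mul_nonneg hT.2.1 h1
      have h5 := mul_nonneg hT.2.2 h2
      have h6 := mul_nonneg hT.1 h3
      exact nonneg_of_mul_nonneg_right (by rw [hb]; linarith) hD
    refine ⟨hT.1, ?_, ?_⟩
    · apply key
      · rw [orient_rot]; exact h.left.le
      · rw [orient_self2]
      · exact ha.inT.2.1
    · apply key
      · rw [orient_self3]
      · rw [orient_rot']; exact h.left.le
      · exact ha.inT.2.2
  rcases le_total (orient c r p) 0 with h0 | h0
  · have h1 := ha.fx p hp hpT h0 hpx
    have h2 := hT.2.2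
    rw [orient_swap] at h2
    have h3 : orient x a p = 0 := by linarith
    exact hg x hP.1 a ha.mem p hp (Ne.symm ha.hx) (Ne.symm hpx) (Ne.symm hpa) h3
  · have h1 := ha.fy p hp hpT h0 hpy
    have h2 := hT.2.1
    have h3 : orient y a p = 0 := by linarith
    exact hg y hP.2 a ha.mem p hp (Ne.symm ha.hy) (Ne.symm hpy) (Ne.symm hpa) h3

/-- the new side at x is free (a on the side of x) -/
theorem Good.free_x (hg : Gen P) (hM : Pl P M) (h : Sight P M c r x y) {a : Pt}
    (ha : Good P c r x y a) (hG : orient c r a ≤ 0) : Free M x a := by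
  have hP := hM.sub x y h.xy
  have hxy := hM.ne x y h.xy
  have hpos := ha.pos hg hM h
  have hmu := h.mu_pos
  obtain ⟨ζ, hζ0, hζ1, hz⟩ := h.zpt_seg
  obtain ⟨z, hzdef⟩ : ∃ z, z = zpt c r (mu c r x y) := ⟨_, rfl⟩
  rw [← hzdef] at hz
  have oxz : ∀ p, orient x z p = ζ * orient x y p := by
    intro p
    rw [hz]
    unfold orient
    simp only [Prod.fst_add, Prod.snd_add, Prod.smul_fst, Prod.smul_snd, smul_eq_mul]
    ring
  have ozr : ∀ p, orient z r p = - (mu c r x y * orient c r p) := by
    intro p; rw [hzdef]; exact orient_zr _ _ _ _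
  have hTz : 0 < orient x z r := by rw [oxz]; exact mul_pos hζ0 h.left
  have haL : InT x z r a := by
    refine ⟨?_, ?_, ha.inT.2.2⟩
    · rw [oxz]; exact mul_nonneg hζ0.le hpos.le
    · rw [ozr]
      have := mul_nonneg hmu.le (neg_nonneg.2 hG)
      linarith
  have har : 0 ≤ orient x a r := by
    apply ha.fx r h.hr (inT_r h.left) (by rw [orient_self3])
    rintro rfl
    have := h.left
    simp [orient_self2] at this
  have main : ∀ e f, (e, f) ∈ M → Xs x a e f → orient x a f < 0 → False := by
    intro e f hef hX hf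
    have hQ := hM.sub e f hef
    have hn := hX.ne
    obtain ⟨s, t, hs0, hs1, ht0, ht1, hq⟩ := hX.point
    obtain ⟨q, hqd⟩ : ∃ q, q = (1 - s) • x + s • a := ⟨_, rfl⟩
    rw [← hqd] at hq
    have hqL : InT x z r q := by rw [hqd]; exact (InT.v1 hTz).comb haL hs0.le hs1.le
    have hqxy : 0 < orient x y q := by
      rw [hqd, orient_comb2 _ _ _ _ _ _ (by ring), orient_self2]
      have := mul_pos hs0 hpos
      linarith
    have hqG : orient c r q < 0 := by
      rw [hqd, orient_comb2 _ _ _ _ _ _ (by ring)]
      have h1 := mul_neg_of_pos_of_neg (sub_pos.2 hs1) h.sx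
      have h2 := mul_nonpos_of_nonneg_of_nonpos hs0.le hG
      linarith
    have hfL : ¬ InT x z r f := by
      intro hc
      have h1 := inT_left hζ0 hζ1 hz h.left hc
      have h2 : orient c r f ≤ 0 := by
        have := hc.2.1
        rw [ozr] at this
        by_contra h3
        push Not at h3
        have := mul_pos hmu h3
        linarith
      have := ha.fx f hQ.2 h1 h2 hn.2.2.2.1.symm
      linarith
    have hcross : orient x y f < 0 → ∀ τ : ℝ, 0 ≤ τ → τ ≤ 1 → ∀ σ : ℝ, 0 ≤ σ → σ ≤ 1 →
        (1 - τ) • q + τ • f = (1 - σ) • x + σ • y → False := by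
      intro h1 τ h2 h3 σ h4 h5 h6
      exact hM.nc e f x y hef h.xy (side_exit hg hP.1 hP.2 hQ.1 hQ.2 hxy ht0.le ht1.le hq hqxy h1
        h2 h3 h4 h5 h6)
    obtain ⟨τ, hτ0, hτ1, -, hex⟩ := exit_tri hTz hqL hfL
    rcases hex with ⟨h1, σ, hσ0, hσ1, hσ⟩ | ⟨h1, σ, hσ0, hσ1, hσ⟩ | ⟨h1, σ, hσ0, hσ1, hσ⟩
    · -- side x z
      have h2 : orient x y f < 0 := by
        rw [oxz] at h1
        by_contra h3
        push Not at h3
        have := mul_nonneg hζ0.le h3
        linarith
      refine hcross h2 τ hτ0 hτ1.le (σ * ζ) (mul_nonneg hσ0 hζ0.le) (by nlinarith) ?_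
      rw [hσ, hz]; module
    · -- side z r
      have hGf : 0 < orient c r f := by
        rw [ozr] at h1
        by_contra h3
        push Not at h3
        have := mul_nonneg hmu.le (neg_nonneg.2 h3)
        linarith
      have hGe : orient c r e < 0 := by
        rw [hq, orient_comb2 _ _ _ _ _ _ (by ring)] at hqG
        have h2 := mul_pos ht0 hGf
        by_contra h3
        push Not at h3
        have := mul_nonneg (sub_pos.2 ht1).le h3
        linarith
      obtain ⟨w, hw⟩ : ∃ w, w = (1 - τ) • q + τ • f := ⟨_, rfl⟩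
      have hline : orient e f w = 0 := by
        rw [hw, hq, orient_comb2 _ _ _ _ _ _ (by ring), orient_self3,
          orient_comb2 _ _ _ _ _ _ (by ring), orient_self2, orient_self3]
        ring
      have hwz := h.no_meet hg hM hef hGe hGf hσ0 hσ1 (by rw [← hzdef, ← hσ, hw]) hline
      rw [← hzdef] at hwz
      have h2 : orient x y w = 0 := by
        rw [hwz, hz, orient_comb2 _ _ _ _ _ _ (by ring), orient_self2, orient_self3]; ring
      have h3 : orient x y f < 0 := by
        rw [hw, orient_comb2 _ _ _ _ _ _ (by ring)] at h2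
        have h4 := mul_pos (sub_pos.2 hτ1) hqxy
        by_contra h5
        push Not at h5
        have := mul_nonneg hτ0 h5
        linarith
      exact hcross h3 τ hτ0 hτ1.le ζ hζ0.le hζ1.le (by rw [← hw, hwz, hz])
    · -- side r x
      have h2 : orient x a ((1 - τ) • q + τ • f) = τ * orient x a f := by
        rw [orient_comb2 _ _ _ _ _ _ (by ring), hqd, orient_comb2 _ _ _ _ _ _ (by ring),
          orient_self2, orient_self3]
        ring
      have h3 : orient x a ((1 - τ) • q + τ • f) = (1 - σ) * orient x a r := by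
        rw [hσ, orient_comb2 _ _ _ _ _ _ (by ring), orient_self2]; ring
      have h5 : 0 ≤ (1 - σ) * orient x a r := mul_nonneg (by linarith) har
      have h6 : τ * orient x a f ≤ 0 := mul_nonpos_of_nonneg_of_nonpos hτ0 hf.le
      have h7 : τ * orient x a f = 0 := by linarith
      have h8 : τ = 0 := by
        rcases mul_eq_zero.1 h7 with h | h
        · exact h
        · exact absurd h hf.ne
      have h9 : (1 - σ) * orient x a r = 0 := by linarith
      rcases mul_eq_zero.1 h9 with h10 | h10
      · have h11 : σ = 1 := by linarith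
        rw [h8, h11] at hσ
        have h12 : q = x := by simpa using hσ
        rw [h12, orient_self2] at hqxy
        exact lt_irrefl _ hqxy
      · have hrx : r ≠ x := by
          rintro rfl
          have := h.left
          simp [orient_self2] at this
        have har' : a = r := by
          by_contra hne
          exact hg x hP.1 a ha.mem r h.hr (Ne.symm ha.hx) (Ne.symm hrx) hne h10
        rw [← har', orient_swap] at h1
        linarith
  intro e f hef hX
  rcases lt_or_ge (orient x a f) 0 with h1 | h1
  · exact main e f hef hX h1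
  · have h2 : orient x a e < 0 := by
      have := hX.1
      by_contra h3
      push Not at h3
      nlinarith
    exact main f e (hM.sym e f hef) hX.swap2 h2

/-- the new side at y is free (a on the side of x) -/
theorem Good.free_y (hg : Gen P) (hM : Pl P M) (h : Sight P M c r x y) {a : Pt}
    (ha : Good P c r x y a) (hG : orient c r a ≤ 0) : Free M y a := by
  have hP := hM.sub x y h.xy
  have hxy := hM.ne x y h.xy
  have hpos := ha.pos hg hM h
  have hmu := h.mu_pos
  have hfree := ha.free_x hg hM h hG
  have hempty := ha.empty hg hM h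
  obtain ⟨ζ, hζ0, hζ1, hz⟩ := h.zpt_seg
  obtain ⟨z, hzdef⟩ : ∃ z, z = zpt c r (mu c r x y) := ⟨_, rfl⟩
  rw [← hzdef] at hz
  have oxz : ∀ p, orient x z p = ζ * orient x y p := by
    intro p
    rw [hz]
    unfold orient
    simp only [Prod.fst_add, Prod.snd_add, Prod.smul_fst, Prod.smul_snd, smul_eq_mul]
    ring
  have ozr : ∀ p, orient z r p = - (mu c r x y * orient c r p) := by
    intro p; rw [hzdef]; exact orient_zr _ _ _ _
  have hTz : 0 < orient x z r := by rw [oxz]; exact mul_pos hζ0 h.left
  have har : 0 ≤ orient x a r := by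
    apply ha.fx r h.hr (inT_r h.left) (by rw [orient_self3])
    rintro rfl
    have := h.left
    simp [orient_self2] at this
  -- no edge from x into the wedge between y and a
  have wedge : ∀ e, (x, e) ∈ M → 0 < orient x y e → orient x a e < 0 → False := by
    intro e hxe he1 he2
    have hQ := hM.sub x e hxe
    have hne := hM.ne x e hxe
    have heL : ¬ InT x z r e := by
      intro hc
      have h1 := inT_left hζ0 hζ1 hz h.left hc
      have h2 : orient c r e ≤ 0 := by
        have := hc.2.1
        rw [ozr] at this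
        by_contra h3
        push Not at h3
        have := mul_pos hmu h3
        linarith
      have := ha.fx e hQ.2 h1 h2 (Ne.symm hne)
      linarith
    obtain ⟨τ, hτ0, hτ1, -, hex⟩ := exit_tri hTz (InT.v1 hTz) heL
    rcases hex with ⟨h1, σ, hσ0, hσ1, hσ⟩ | ⟨h1, σ, hσ0, hσ1, hσ⟩ | ⟨h1, σ, hσ0, hσ1, hσ⟩
    · rw [oxz] at h1
      have := mul_pos hζ0 he1
      linarith
    · have hGe : 0 < orient c r e := by
        rw [ozr] at h1
        by_contra h3
        push Not at h3
        have := mul_nonneg hmu.le (neg_nonneg.2 h3)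
        linarith
      obtain ⟨w, hw⟩ : ∃ w, w = (1 - τ) • x + τ • e := ⟨_, rfl⟩
      have hline : orient x e w = 0 := by
        rw [hw, orient_comb2 _ _ _ _ _ _ (by ring), orient_self2, orient_self3]
        ring
      have hwz := h.no_meet hg hM hxe h.sx hGe hσ0 hσ1 (by rw [← hzdef, ← hσ, hw]) hline
      rw [← hzdef] at hwz
      have h2 : orient x y w = 0 := by
        rw [hwz, hz, orient_comb2 _ _ _ _ _ _ (by ring), orient_self2, orient_self3]; ring
      rw [hw, orient_comb2 _ _ _ _ _ _ (by ring), orient_self2] at h2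
      have h3 : τ = 0 := by
        have : τ * orient x y e = 0 := by linarith
        rcases mul_eq_zero.1 this with h | h
        · exact h
        · exact absurd h he1.ne'
      have h4 : w = x := by rw [hw, h3]; module
      have h5 : orient c r w = 0 := by rw [hwz, hzdef]; exact zpt_line _ _ _
      rw [h4] at h5
      have := h.sx
      linarith
    · have hid := id_trans x y e a r
      have h2 : 0 < orient x e a := by rw [orient_swap']; linarith
      have h3 : 0 ≤ orient x y e * orient x a r := mul_nonneg he1.le har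
      have h4 : 0 < orient x y r * orient x e a := mul_pos h.left h2
      have h5 : 0 < orient x y a * orient x e r := by linarith
      have h6 : 0 < orient x e r := (mul_pos_iff_of_pos_left hpos).1 h5
      rw [orient_rot'] at h1
      have e1 : orient r x e = orient x e r := by unfold orient; ring
      rw [orient_rot'] at e1
      linarith
  have main : ∀ e f, (e, f) ∈ M → Xs y a e f → 0 < orient y a f → False := by
    intro e f hef hX hf
    have hQ := hM.sub e f hef
    have hn := hX.ne
    obtain ⟨s, t, hs0, hs1, ht0, ht1, hq⟩ := hX.point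
    obtain ⟨q, hqd⟩ : ∃ q, q = (1 - s) • y + s • a := ⟨_, rfl⟩
    rw [← hqd] at hq
    have hqT : InT x y a q := by
      rw [hqd]; exact (InT.v2 hpos).comb (InT.v3 hpos) hs0.le hs1.le
    have hq1 : 0 < orient x y q := by
      rw [hqd, orient_comb2 _ _ _ _ _ _ (by ring), orient_self3]
      have := mul_pos hs0 hpos
      linarith
    have hq2 : 0 < orient a x q := by
      rw [hqd, orient_comb2 _ _ _ _ _ _ (by ring), orient_self2, orient_rot']
      have := mul_pos (sub_pos.2 hs1) hpos
      linarith
    by_cases hfT : InT x y a f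
    · have hfx : f = x := by
        rcases hempty f hQ.2 hfT with h | h | h
        · exact h
        · exact absurd h hn.2.2.2.1.symm
        · exact absurd h hn.2.2.2.2.2.symm
      subst hfx
      have h1 : 0 < orient f y e := by
        rw [hq, orient_comb2 _ _ _ _ _ _ (by ring), orient_self2] at hq1
        have : 0 < (1 - t) * orient f y e := by linarith
        exact (mul_pos_iff_of_pos_left (by linarith)).1 this
      have h2 : 0 < orient a f e := by
        rw [hq, orient_comb2 _ _ _ _ _ _ (by ring), orient_self3] at hq2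
        have : 0 < (1 - t) * orient a f e := by linarith
        exact (mul_pos_iff_of_pos_left (by linarith)).1 this
      apply wedge e (hM.sym e f hef) h1
      rw [orient_swap]
      linarith
    · obtain ⟨τ, hτ0, hτ1, -, hex⟩ := exit_tri hpos hqT hfT
      rcases hex with ⟨h1, σ, hσ0, hσ1, hσ⟩ | ⟨h1, σ, hσ0, hσ1, hσ⟩ | ⟨h1, σ, hσ0, hσ1, hσ⟩
      · exact hM.nc e f x y hef h.xy (side_exit hg hP.1 hP.2 hQ.1 hQ.2 hxy ht0.le ht1.le hq hq1 h1
          hτ0 hτ1.le hσ0 hσ1 hσ)
      · linarith
      · have h2 := side_exit hg ha.mem hP.1 hQ.1 hQ.2 ha.hx ht0.le ht1.le hq hq2 h1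
          hτ0 hτ1.le hσ0 hσ1 hσ
        exact hfree.symm e f hef h2.symm
  intro e f hef hX
  rcases lt_or_ge 0 (orient y a f) with h1 | h1
  · exact main e f hef hX h1
  · have h2 : 0 < orient y a e := by
      have := hX.1
      by_contra h3
      push Not at h3
      nlinarith
    exact main f e (hM.sym e f hef) hX.swap2 h2

/-! ### mirror image -/

def mir (p : Pt) : Pt := (p.1, -p.2)

@[simp] theorem mir_mir (p : Pt) : mir (mir p) = p := by
  unfold mir; simp

theorem mir_inj {p q : Pt} : mir p = mir q ↔ p = q := by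
  constructor
  · intro h
    have := congrArg mir h
    simpa using this
  · rintro rfl; rfl

theorem orient_mir (a b c : Pt) : orient (mir a) (mir b) (mir c) = - orient a b c := by
  unfold mir orient; simp only; ring

/-- mirror image of a point set -/
noncomputable def mirP (P : Finset Pt) : Finset Pt := P.image mir

/-- mirror image of an edge set -/
noncomputable def mirM (M : Finset (Pt × Pt)) : Finset (Pt × Pt) :=
  M.image (fun e => (mir e.1, mir e.2))

theorem mem_mirP {p : Pt} : p ∈ mirP P ↔ mir p ∈ P := by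
  unfold mirP
  rw [Finset.mem_image]
  constructor
  · rintro ⟨q, hq, rfl⟩; simpa using hq
  · intro h; exact ⟨mir p, h, by simp⟩

theorem mem_mirM {a b : Pt} : (a, b) ∈ mirM M ↔ (mir a, mir b) ∈ M := by
  unfold mirM
  rw [Finset.mem_image]
  constructor
  · rintro ⟨⟨p, q⟩, hq, h⟩
    rw [Prod.mk.injEq] at h
    obtain ⟨rfl, rfl⟩ := h
    simpa using hq
  · intro h; exact ⟨(mir a, mir b), h, by simp⟩

theorem xs_mir {a b c d : Pt} (h : Xs a b c d) : Xs (mir a) (mir b) (mir c) (mir d) := by
  unfold Xs at *
  rw [orient_mir, orient_mir, orient_mir, orient_mir, neg_mul_neg, neg_mul_neg]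
  exact h

theorem gen_mir (hg : Gen P) : Gen (mirP P) := by
  intro a ha b hb c hc hab hac hbc h
  rw [mem_mirP] at ha hb hc
  apply hg _ ha _ hb _ hc (by rwa [Ne, mir_inj]) (by rwa [Ne, mir_inj]) (by rwa [Ne, mir_inj])
  rw [orient_mir, h, neg_zero]

theorem pl_mir (hM : Pl P M) : Pl (mirP P) (mirM M) := by
  constructor
  · intro a b hab
    rw [mem_mirM] at hab
    have := hM.sub _ _ hab
    exact ⟨mem_mirP.2 this.1, mem_mirP.2 this.2⟩
  · intro a b hab
    rw [mem_mirM] at hab
    have := hM.ne _ _ hab
    rintro rfl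
    exact this rfl
  · intro a b hab
    rw [mem_mirM] at hab ⊢
    exact hM.sym _ _ hab
  · intro a b c d hab hcd hX
    rw [mem_mirM] at hab hcd
    exact hM.nc _ _ _ _ hab hcd (xs_mir hX)

theorem mu_mir (c r e f : Pt) : mu (mir c) (mir r) (mir f) (mir e) = mu c r e f := by
  unfold mu
  rw [orient_mir, orient_mir, orient_mir, orient_swap e f r]
  congr 1
  · ring
  · ring

theorem inT_mir {a b c p : Pt} (h : InT a b c p) : InT (mir b) (mir a) (mir c) (mir p) := by
  refine ⟨?_, ?_, ?_⟩
  · rw [orient_mir, orient_swap]; linarith [h.1]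
  · rw [orient_mir, orient_swap c a p]; linarith [h.2.2]
  · rw [orient_mir, orient_swap b c p]; linarith [h.2.1]

theorem Sight.mirror (hM : Pl P M) (h : Sight P M c r x y) :
    Sight (mirP P) (mirM M) (mir c) (mir r) (mir y) (mir x) := by
  constructor
  · rw [mem_mirM, mir_mir, mir_mir]
    exact hM.sym _ _ h.xy
  · rw [mem_mirP, mir_mir]; exact h.hc
  · rw [mem_mirP, mir_mir]; exact h.hr
  · rw [orient_mir, orient_swap, neg_neg]; exact h.left
  · rw [orient_mir]; linarith [h.sy]
  · rw [orient_mir]; linarith [h.sx]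
  · intro e f hef he hf hr
    rw [mem_mirM] at hef
    have e1 : mu (mir c) (mir r) e f = mu c r (mir f) (mir e) := by
      rw [← mu_mir c r (mir f) (mir e), mir_mir, mir_mir]
    have om : ∀ p, orient c r (mir p) = - orient (mir c) (mir r) p := by
      intro p
      have := orient_mir c r (mir p)
      rw [mir_mir] at this
      linarith
    rw [mu_mir, e1]
    apply h.vis _ _ (hM.sym _ _ hef)
    · rw [om]; linarith
    · rw [om]; linarith
    · have h1 := orient_mir (mir f) (mir e) r
      rw [mir_mir, mir_mir, orient_swap] at h1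
      linarith

theorem Good.mirror {a : Pt} (ha : Good P c r x y a) :
    Good (mirP P) (mir c) (mir r) (mir y) (mir x) (mir a) := by
  have om : ∀ p, orient (mir c) (mir r) p = - orient c r (mir p) := by
    intro p
    have := orient_mir c r (mir p)
    rw [mir_mir] at this
    exact this
  have it : ∀ p, InT (mir y) (mir x) (mir r) p → InT x y r (mir p) := by
    intro p hp
    have := inT_mir hp
    simpa using this
  constructor
  · rw [mem_mirP, mir_mir]; exact ha.mem
  · exact inT_mir ha.inT
  · rw [Ne, mir_inj]; exact ha.hy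
  · rw [Ne, mir_inj]; exact ha.hx
  · intro p hp hT hG hne
    rw [mem_mirP] at hp
    have h1 := ha.fy (mir p) hp (it p hT) (by rw [om] at hG; linarith)
      (by rintro h; apply hne; rw [← h, mir_mir])
    have h2 := orient_mir y a (mir p)
    rw [mir_mir] at h2
    linarith
  · intro p hp hT hG hne
    rw [mem_mirP] at hp
    have h1 := ha.fx (mir p) hp (it p hT) (by rw [om] at hG; linarith)
      (by rintro h; apply hne; rw [← h, mir_mir])
    have h2 := orient_mir x a (mir p)
    rw [mir_mir] at h2
    linarith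

theorem free_mir {a b : Pt} (h : Free (mirM M) (mir a) (mir b)) : Free M a b := by
  intro c d hcd hX
  apply h (mir c) (mir d)
  · rw [mem_mirM, mir_mir, mir_mir]; exact hcd
  · exact xs_mir hX

/-- both new sides are free -/
theorem Good.free (hg : Gen P) (hM : Pl P M) (h : Sight P M c r x y) {a : Pt}
    (ha : Good P c r x y a) : Free M x a ∧ Free M y a := by
  rcases le_total (orient c r a) 0 with h0 | h0
  · exact ⟨ha.free_x hg hM h h0, ha.free_y hg hM h h0⟩
  · have h1 : orient (mir c) (mir r) (mir a) ≤ 0 := by rw [orient_mir]; linarith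
    have h2 := ha.mirror.free_x (gen_mir hg) (pl_mir hM) (h.mirror hM) h1
    have h3 := ha.mirror.free_y (gen_mir hg) (pl_mir hM) (h.mirror hM) h1
    exact ⟨free_mir h3, free_mir h2⟩

/-! ### the choice of a -/

theorem exists_good (hg : Gen P) (hM : Pl P M) (h : Sight P M c r x y) :
    ∃ a, Good P c r x y a := by
  classical
  have hP := hM.sub x y h.xy
  have hxy := hM.ne x y h.xy
  have hrx : r ≠ x := by
    rintro rfl
    have := h.left
    simp [orient_self2] at this
  have hry : r ≠ y := by
    rintro rfl
    have := h.left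
    simp [orient_self3] at this
  have hden : 0 < orient c r y - orient c r x := by linarith [h.sx, h.sy]
  let L : Finset Pt := P.filter (fun p => InT x y r p ∧ orient c r p ≤ 0 ∧ p ≠ x)
  let R : Finset Pt := P.filter (fun p => InT x y r p ∧ 0 ≤ orient c r p ∧ p ≠ y)
  have mL : ∀ p, p ∈ L ↔ p ∈ P ∧ InT x y r p ∧ orient c r p ≤ 0 ∧ p ≠ x := by
    intro p; simp only [L, Finset.mem_filter]
  have mR : ∀ p, p ∈ R ↔ p ∈ P ∧ InT x y r p ∧ 0 ≤ orient c r p ∧ p ≠ y := by
    intro p; simp only [R, Finset.mem_filter]
  have hrL : r ∈ L := (mL r).2 ⟨h.hr, inT_r h.left, by rw [orient_self3], hrx⟩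
  have hrR : r ∈ R := (mR r).2 ⟨h.hr, inT_r h.left, by rw [orient_self3], hry⟩
  have hposL : ∀ p ∈ L, 0 < orient x y p := by
    intro p hp
    rw [mL] at hp
    have hpy : p ≠ y := by
      rintro rfl
      have := h.sy
      linarith [hp.2.2.1]
    exact lt_of_le_of_ne hp.2.1.1
      (Ne.symm (hg x hP.1 y hP.2 p hp.1 hxy (Ne.symm hp.2.2.2) (Ne.symm hpy)))
  have hposR : ∀ p ∈ R, 0 < orient x y p := by
    intro p hp
    rw [mR] at hp
    have hpx : p ≠ x := by
      rintro rfl
      have := h.sx
      linarith [hp.2.2.1]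
    exact lt_of_le_of_ne hp.2.1.1
      (Ne.symm (hg x hP.1 y hP.2 p hp.1 hxy (Ne.symm hpx) (Ne.symm hp.2.2.2)))
  obtain ⟨u, hu, hfu⟩ := first_angle L ⟨r, hrL⟩ hposL
  have hposR' : ∀ p ∈ R, 0 < orient y ((2 : ℝ) • y - x) p := by
    intro p hp
    have h1 := hposR p hp
    have e : orient y ((2 : ℝ) • y - x) p = orient x y p := by
      unfold orient
      simp only [Prod.fst_sub, Prod.snd_sub, Prod.smul_fst, Prod.smul_snd, smul_eq_mul]
      ring
    rw [e]; exact h1
  obtain ⟨v, hv, hfv⟩ := last_angle R ⟨r, hrR⟩ hposR'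
  have hu' := (mL u).1 hu
  have hv' := (mR v).1 hv
  have hup := hposL u hu
  have hvp := hposR v hv
  have huy : u ≠ y := by
    rintro rfl
    have := h.sy
    linarith [hu'.2.2.1]
  have hvx : v ≠ x := by
    rintro rfl
    have := h.sx
    linarith [hv'.2.2.1]
  rcases le_or_gt (orient x y u) (orient x y v) with hle | hlt
  · refine ⟨u, hu'.1, hu'.2.1, hu'.2.2.2, huy, ?_, ?_⟩
    · intro p hp hT hG hne
      exact hfu p ((mL p).2 ⟨hp, hT, hG, hne⟩)
    · intro p hp hT hG hne
      by_contra hc
      push Not at hc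
      have hpR : p ∈ R := (mR p).2 ⟨hp, hT, hG, hne⟩
      have h1 := hfv p hpR
      have h2 : 0 ≤ orient y p v := by rw [orient_swap']; linarith
      have hpp := hposR p hpR
      have h3 : 0 < orient y u v := by
        have hid := id_trans' x y u p v
        have h4 : 0 ≤ orient x y u * orient y p v := mul_nonneg hup.le h2
        have h5 : 0 < orient x y v * orient y u p := mul_pos hvp hc
        have h6 : 0 < orient x y p * orient y u v := by linarith
        exact (mul_pos_iff_of_pos_left hpp).1 h6
      have hk := id_k1 c r x y u v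
      have h7 : 0 < (orient c r y - orient c r x) * orient y u v := mul_pos hden h3
      have h8 : (orient c r u - orient c r y) * orient x y v ≤
          (orient c r u - orient c r y) * orient x y u := by
        apply mul_le_mul_of_nonpos_left hle
        linarith [h.sy, hu'.2.2.1]
      have h9 : orient x y u * (orient c r u - orient c r v) ≤ 0 :=
        mul_nonpos_of_nonneg_of_nonpos hup.le (by linarith [hu'.2.2.1, hv'.2.2.1])
      nlinarith
  · refine ⟨v, hv'.1, hv'.2.1, hvx, hv'.2.2.2, ?_, ?_⟩
    · intro p hp hT hG hne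
      by_contra hc
      push Not at hc
      have hpL : p ∈ L := (mL p).2 ⟨hp, hT, hG, hne⟩
      have h1 := hfu p hpL
      have hpp := hposL p hpL
      have h2 : 0 < orient x p v := by rw [orient_swap']; linarith
      have h3 : 0 < orient x u v := by
        have hid := id_trans x y u p v
        have h4 : 0 < orient x y u * orient x p v := mul_pos hup h2
        have h5 : 0 ≤ orient x y v * orient x u p := mul_nonneg hvp.le h1
        have h6 : 0 < orient x y p * orient x u v := by linarith
        exact (mul_pos_iff_of_pos_left hpp).1 h6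
      have h3' : orient x v u < 0 := by rw [orient_swap']; linarith
      have hk := id_k2 c r x y v u
      have h7 : (orient c r y - orient c r x) * orient x v u < 0 := mul_neg_of_pos_of_neg hden h3'
      have h8 : (orient c r v - orient c r x) * orient x y v ≤
          (orient c r v - orient c r x) * orient x y u := by
        apply mul_le_mul_of_nonneg_left hlt.le
        linarith [h.sx, hv'.2.2.1]
      have h9 : 0 ≤ orient x y v * (orient c r v - orient c r u) :=
        mul_nonneg hvp.le (by linarith [hu'.2.2.1, hv'.2.2.1])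
      nlinarith
    · intro p hp hT hG hne
      exact hfv p ((mR p).2 ⟨hp, hT, hG, hne⟩)

theorem Free.addE {a b p q : Pt} (h : Free M a b) (hX : ¬ Xs a b p q) : Free (addE M p q) a b := by
  intro c d hcd hY
  rw [mem_addE] at hcd
  rcases hcd with ⟨rfl, rfl⟩ | ⟨rfl, rfl⟩ | hcd
  · exact hX hY
  · exact hX hY.swap2
  · exact h c d hcd hY

theorem pl_addE (hM : Pl P M) {a b : Pt} (ha : a ∈ P) (hb : b ∈ P) (hab : a ≠ b)
    (hf : Free M a b) : Pl P (addE M a b) := hM.insert_two ha hb hab hf

/-- THE KEY STEP : the edge x y seen from r has an empty triangle (x, y, a) on its left, whose new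
sides cross no edge of M; either a = r, or the ray leaves the triangle through the side opposite
to the side of a, and this side is the edge seen from r in the new edge set. -/
theorem Sight.step (hg : Gen P) (hM : Pl P M) (h : Sight P M c r x y) :
    ∃ a ∈ P, 0 < orient x y a ∧ (∀ p ∈ P, InT x y a p → p = x ∨ p = y ∨ p = a) ∧
      InT x y r a ∧ Free M x a ∧ Free M y a ∧ Pl P (addE (addE M x a) y a) ∧
      (a = r ∨
        (orient c r a < 0 ∧ Sight P (addE (addE M x a) y a) c r a y ∧
          ∀ p ∈ P, InT x y r p → orient c r p ≤ 0 → p ≠ x → p ≠ a → 0 < orient x a p) ∨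
        (0 < orient c r a ∧ Sight P (addE (addE M x a) y a) c r x a ∧
          ∀ p ∈ P, InT x y r p → 0 ≤ orient c r p → p ≠ y → p ≠ a → 0 < orient a y p)) := by
  obtain ⟨a, ha⟩ := exists_good hg hM h
  have hP := hM.sub x y h.xy
  have hxy := hM.ne x y h.xy
  have hpos := ha.pos hg hM h
  obtain ⟨hfx, hfy⟩ := ha.free hg hM h
  obtain ⟨ζ, hζ0, hζ1, hz⟩ := h.zpt_seg
  have hrx : r ≠ x := by
    rintro rfl
    have := h.left
    simp [orient_self2] at this
  have hry : r ≠ y := by
    rintro rfl
    have := h.left
    simp [orient_self3] at this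
  have hden : 0 < orient c r y - orient c r x := by linarith [h.sx, h.sy]
  have hmz := orient_zpt c r
  have hpl : Pl P (addE (addE M x a) y a) := by
    apply pl_addE (pl_addE hM hP.1 ha.mem (Ne.symm ha.hx) hfx) hP.2 ha.mem (Ne.symm ha.hy)
    apply hfy.addE
    intro hX
    exact hX.ne.2.2.2.2.2 rfl
  refine ⟨a, ha.mem, hpos, ha.empty hg hM h, ha.inT, hfx, hfy, hpl, ?_⟩
  by_cases har : a = r
  · exact Or.inl har
  right
  have hcr : c ≠ r := by
    rintro rfl
    have := h.sx
    simp [orient_self1] at this
  by_cases hac : a = c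
  · -- impossible: c is farther from x y than r
    exfalso
    have h1 := id_den c r x y
    subst hac
    have h2 : InT x y r a := ha.inT
    -- a = c outside the triangle x y r
    have h3 := orient_zpt a r x y (mu a r x y)
    have h4 : orient x y a = orient x y r + (orient a r y - orient a r x) := by linarith
    have h5 : orient y r a = orient a y r := by unfold orient; ring
    have h6 : orient r x a = orient x a r := by unfold orient; ring
    have h7 : orient x y r = orient x y a + orient y r a + orient r x a := by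
      unfold orient; ring
    have h8 := h2.2.1
    have h9 := h2.2.2
    linarith
  have hG : orient c r a ≠ 0 :=
    hg c h.hc r h.hr a ha.mem hcr (Ne.symm hac) (Ne.symm har)
  -- visibility is inherited
  have hvis : ∀ x' y', orient x' y' (zpt c r (mu c r x y)) ≤ 0 → orient c r x' < 0 →
      0 < orient c r y' → mu c r x' y' ≤ mu c r x y := by
    intro x' y' h1 h2 h3
    rw [hmz] at h1
    have hd : 0 < orient c r y' - orient c r x' := by linarith
    have e1 : mu c r x' y' = orient x' y' r / (orient c r y' - orient c r x') := rfl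
    rw [e1, div_le_iff₀ hd]
    linarith
  rcases lt_or_gt_of_ne hG with h0 | h0
  · left
    have hzy : orient a y (zpt c r (mu c r x y)) ≤ 0 := by
      rw [hz, orient_comb2 _ _ _ _ _ _ (by ring), orient_self3]
      have e1 : orient a y x = - orient x y a := by unfold orient; ring
      rw [e1]
      have := mul_nonneg (sub_pos.2 hζ1).le hpos.le
      linarith
    have hle := hvis a y hzy h0 h.sy
    refine ⟨h0, ⟨?_, h.hc, h.hr, ?_, h0, h.sy, ?_⟩, ?_⟩
    · rw [mem_addE]; right; left; exact ⟨rfl, rfl⟩
    · have h1 := ha.fy r h.hr (inT_r h.left) (by rw [orient_self3]) hry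
      have h2 : orient a y r ≠ 0 := hg a ha.mem y hP.2 r h.hr ha.hy har (Ne.symm hry)
      have h3 : orient a y r = - orient y a r := orient_swap _ _ _
      exact lt_of_le_of_ne (by linarith) (Ne.symm h2)
    · intro e f hef he hf hr
      rw [mem_addE] at hef
      rcases hef with ⟨rfl, rfl⟩ | ⟨rfl, rfl⟩ | hef
      · linarith [h.sy]
      · exact le_refl _
      · rw [mem_addE] at hef
        rcases hef with ⟨rfl, rfl⟩ | ⟨rfl, rfl⟩ | hef
        · linarith
        · linarith [h.sx]
        · exact hle.trans (h.vis e f hef he hf hr)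
    · intro p hp hT hGp hpx hpa
      have h1 := ha.fx p hp hT hGp hpx
      exact lt_of_le_of_ne h1
        (Ne.symm (hg x hP.1 a ha.mem p hp (Ne.symm ha.hx) (Ne.symm hpx) (Ne.symm hpa)))
  · right
    have hzx : orient x a (zpt c r (mu c r x y)) ≤ 0 := by
      rw [hz, orient_comb2 _ _ _ _ _ _ (by ring), orient_self2]
      have e1 : orient x a y = - orient x y a := by unfold orient; ring
      rw [e1]
      have := mul_nonneg hζ0.le hpos.le
      linarith
    have hle := hvis x a hzx h.sx h0
    refine ⟨h0, ⟨?_, h.hc, h.hr, ?_, h.sx, h0, ?_⟩, ?_⟩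
    · rw [mem_addE]; right; right
      rw [mem_addE]; left; exact ⟨rfl, rfl⟩
    · have h1 := ha.fx r h.hr (inT_r h.left) (by rw [orient_self3]) hrx
      have h2 : orient x a r ≠ 0 := hg x hP.1 a ha.mem r h.hr (Ne.symm ha.hx) (Ne.symm hrx) har
      exact lt_of_le_of_ne h1 (Ne.symm h2)
    · intro e f hef he hf hr
      rw [mem_addE] at hef
      rcases hef with ⟨rfl, rfl⟩ | ⟨rfl, rfl⟩ | hef
      · linarith [h.sy]
      · linarith
      · rw [mem_addE] at hef
        rcases hef with ⟨rfl, rfl⟩ | ⟨rfl, rfl⟩ | hef
        · exact le_refl _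
        · linarith
        · exact hle.trans (h.vis e f hef he hf hr)
    · intro p hp hT hGp hpy hpa
      have h1 := ha.fy p hp hT hGp hpy
      have h3 : orient a y p = - orient y a p := orient_swap _ _ _
      have h2 : orient a y p ≠ 0 := hg a ha.mem y hP.2 p hp ha.hy (Ne.symm hpa) (Ne.symm hpy)
      exact lt_of_le_of_ne (by linarith) (Ne.symm h2)

/-! ### the first edge -/

/-- there is a first edge -/
theorem exists_sight (hg : Gen P) (hM : Pl P M)
    (hull : ∀ a b, HE P a b → (a, b) ∈ M) (hc : c ∈ P) (hr : r ∈ P) (hcr : c ≠ r)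
    (hin : ∀ a b, HE P a b → 0 < orient a b r) (h3 : 3 ≤ P.card) :
    ∃ x y, Sight P M c r x y := by
  classical
  obtain ⟨l, l1, l2, l3, l4, l5, l6⟩ := exists_hull_list P hg h3
  have hcp : CP l.toFinset := ⟨l, l1, rfl, l3⟩
  have hl3 : 3 ≤ l.toFinset.card := by
    rw [List.toFinset_card_of_nodup l1]; exact l4
  have hside : ∀ a b, HE l.toFinset a b ↔ HE P a b := by
    intro a b
    rw [l6, l3.mem_cyc_iff l1 l4]
  -- a far point of the ray
  let φ : Pt → ℝ := fun p => (r.1 - c.1) * p.1 + (r.2 - c.2) * p.2
  have hn : 0 < (r.1 - c.1) ^ 2 + (r.2 - c.2) ^ 2 := by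
    rcases eq_or_ne (r.1 - c.1) 0 with h2 | h2
    · rcases eq_or_ne (r.2 - c.2) 0 with h3 | h3
      · exfalso
        apply hcr
        exact Prod.ext (by linarith) (by linarith)
      · positivity
    · positivity
  obtain ⟨B, hB⟩ : ∃ B : ℝ, ∀ p ∈ l.toFinset, φ p ≤ B := by
    obtain ⟨B, hB⟩ := (l.toFinset.image φ).exists_le
    exact ⟨B, fun p hp => hB (φ p) (Finset.mem_image_of_mem φ hp)⟩
  have hBh : ∀ p ∈ convexHull ℝ ((l.toFinset : Finset Pt) : Set Pt), φ p ≤ B := by
    intro p hp
    have hconv : Convex ℝ {q : Pt | φ q ≤ B} := by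
      intro a ha b hb u v hu hv huv
      simp only [Set.mem_ofPred_eq] at *
      have e1 : φ (u • a + v • b) = u * φ a + v * φ b := by
        simp only [φ, Prod.fst_add, Prod.snd_add, Prod.smul_fst, Prod.smul_snd, smul_eq_mul]
        ring
      rw [e1]
      have h1 := mul_le_mul_of_nonneg_left ha hu
      have h2 := mul_le_mul_of_nonneg_left hb hv
      have h3 : u * B + v * B = B := by rw [← add_mul, huv, one_mul]
      linarith
    exact convexHull_min (fun q hq => hB q (Finset.mem_coe.1 hq)) hconv hp
  obtain ⟨m, hm0, hm⟩ : ∃ m : ℝ, 0 < m ∧ B < φ (zpt c r m) := by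
    refine ⟨(|B - φ r| + 1) / ((r.1 - c.1) ^ 2 + (r.2 - c.2) ^ 2), by positivity, ?_⟩
    have e1 : ∀ m, φ (zpt c r m) = φ r + m * ((r.1 - c.1) ^ 2 + (r.2 - c.2) ^ 2) := by
      intro m
      simp only [φ, zpt, Prod.fst_sub, Prod.snd_sub, Prod.smul_fst, Prod.smul_snd, smul_eq_mul]
      ring
    rw [e1, div_mul_cancel₀ _ hn.ne']
    have := le_abs_self (B - φ r)
    linarith
  have hout : zpt c r m ∉ convexHull ℝ ((l.toFinset : Finset Pt) : Set Pt) := by
    intro h
    have := hBh _ h
    linarith
  have hneg : ∃ e : {e // e ∈ (cyc l).toFinset}, orient e.1.1 e.1.2 (zpt c r m) < 0 := by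
    by_contra hno
    push Not at hno
    apply hout
    apply mem_hull_of_sides hcp hl3
    intro a b hab
    rw [hside, l6] at hab
    exact hno ⟨(a, b), by simpa using hab⟩
  have hmem : ∀ e : {e // e ∈ (cyc l).toFinset}, HE P e.1.1 e.1.2 := by
    intro e
    rw [l6]
    exact List.mem_toFinset.1 e.2
  obtain ⟨t, ht0, ht1, ⟨⟨⟨a, b⟩, hj⟩, hj1, hj2⟩, hall⟩ := exit_point
    (fun e : {e // e ∈ (cyc l).toFinset} => orient e.1.1 e.1.2 r)
    (fun e : {e // e ∈ (cyc l).toFinset} => orient e.1.1 e.1.2 (zpt c r m))
    (fun e => (hin _ _ (hmem e)).le) hneg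
  have hab : HE P a b := hmem ⟨(a, b), hj⟩
  simp only at hj1 hj2 hall
  obtain ⟨p, hp⟩ : ∃ p, p = (1 - t) • r + t • zpt c r m := ⟨_, rfl⟩
  have hpab : orient a b p = 0 := by
    rw [hp, orient_comb2 _ _ _ _ _ _ (by ring)]; exact hj2
  have hphull : p ∈ convexHull ℝ ((l.toFinset : Finset Pt) : Set Pt) := by
    apply mem_hull_of_sides hcp hl3
    intro a' b' hab'
    rw [hside, l6] at hab'
    have := hall ⟨(a', b'), by simpa using hab'⟩
    rw [hp, orient_comb2 _ _ _ _ _ _ (by ring)]
    exact this
  have hab' : HE l.toFinset a b := (hside a b).2 hab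
  have hface := hull_face hab' (Finset.Subset.refl _) hphull hpab
  have hinter : l.toFinset ∩ {a, b} = {a, b} := by
    apply Finset.inter_eq_right.2
    intro z hz
    simp only [Finset.mem_insert, Finset.mem_singleton] at hz
    rcases hz with rfl | rfl
    · exact hab'.1
    · exact hab'.2.1
  rw [hinter] at hface
  have hseg : p ∈ segment ℝ a b := by
    rw [← convexHull_pair]; simpa using hface
  obtain ⟨u, v, hu, hv, huv, hpuv⟩ := hseg
  have hGp : orient c r p = 0 := by
    rw [hp, orient_comb2 _ _ _ _ _ _ (by ring), orient_self3, zpt_line]; ring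
  have hGab : u * orient c r a + v * orient c r b = 0 := by
    rw [← orient_comb2 _ _ _ _ _ _ huv, hpuv]; exact hGp
  have hra : r ≠ a := by
    rintro rfl
    have := hin _ _ hab
    simp [orient_self2] at this
  have hrb : r ≠ b := by
    rintro rfl
    have := hin _ _ hab
    simp [orient_self3] at this
  have hdir : 0 < orient c r b - orient c r a := by
    rw [orient_zpt] at hj1
    have h1 := hin _ _ hab
    by_contra h2
    push Not at h2
    have := mul_nonpos_of_nonneg_of_nonpos hm0.le h2
    linarith
  have hpc : p ≠ c := by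
    intro h
    rw [hp] at h
    have e1 : (1 - t) • r + t • zpt c r m = c + (1 + t * m) • (r - c) := by
      unfold zpt; module
    rw [e1] at h
    have h1 : (1 + t * m) • (r - c) = 0 := by simpa using h
    rcases smul_eq_zero.1 h1 with h2 | h2
    · have := mul_nonneg ht0 hm0.le
      linarith
    · exact hcr (sub_eq_zero.1 h2).symm
  have hca : c ≠ a := by
    rintro rfl
    rw [orient_self2, mul_zero, zero_add] at hGab
    rcases mul_eq_zero.1 hGab with h | h
    · apply hpc
      rw [← hpuv, h]
      have : u = 1 := by linarith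
      rw [this]; module
    · exact hg c hc r hr b hab.2.1 hcr hab.2.2.1 hrb h
  have hcb : c ≠ b := by
    rintro rfl
    rw [orient_self2, mul_zero, add_zero] at hGab
    rcases mul_eq_zero.1 hGab with h | h
    · apply hpc
      rw [← hpuv, h]
      have : v = 1 := by linarith
      rw [this]; module
    · exact hg c hc r hr a hab.1 hcr hca hra h
  have hGa : orient c r a ≠ 0 := hg c hc r hr a hab.1 hcr hca hra
  have hGb : orient c r b ≠ 0 := hg c hc r hr b hab.2.1 hcr hcb hrb
  have hGa' : orient c r a < 0 := by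
    rcases lt_or_gt_of_ne hGa with h | h
    · exact h
    · exfalso
      have h1 : 0 < orient c r b := by linarith
      have h2 := mul_nonneg hu h.le
      have h3 := mul_nonneg hv h1.le
      have h4 : u * orient c r a = 0 := by linarith
      have h5 : v * orient c r b = 0 := by linarith
      have h6 : u = 0 := by
        rcases mul_eq_zero.1 h4 with h | h
        · exact h
        · exact absurd h hGa
      have h7 : v = 0 := by
        rcases mul_eq_zero.1 h5 with h | h
        · exact h
        · exact absurd h hGb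
      linarith
  have hGb' : 0 < orient c r b := by
    rcases lt_or_gt_of_ne hGb with h | h
    · exfalso
      have h2 := mul_nonneg hu (neg_nonneg.2 hGa'.le)
      have h3 := mul_nonneg hv (neg_nonneg.2 h.le)
      have h4 : u * orient c r a = 0 := by linarith
      have h5 : v * orient c r b = 0 := by linarith
      have h6 : u = 0 := by
        rcases mul_eq_zero.1 h4 with h | h
        · exact h
        · exact absurd h hGa
      have h7 : v = 0 := by
        rcases mul_eq_zero.1 h5 with h | h
        · exact h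
        · exact absurd h hGb
      linarith
    · exact h
  -- the first one
  let S : Finset (Pt × Pt) := M.filter (fun e => orient c r e.1 < 0 ∧ 0 < orient c r e.2 ∧
    0 < orient e.1 e.2 r)
  have hS : S.Nonempty :=
    ⟨(a, b), by simp only [S, Finset.mem_filter]; exact ⟨hull a b hab, hGa', hGb', hin a b hab⟩⟩
  obtain ⟨⟨x, y⟩, hxy, hmin⟩ := S.exists_min_image (fun e => mu c r e.1 e.2) hS
  simp only [S, Finset.mem_filter] at hxy
  refine ⟨x, y, hxy.1, hc, hr, hxy.2.2.2, hxy.2.1, hxy.2.2.1, ?_⟩
  intro e f hef he hf hr'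
  exact hmin (e, f) (by simp only [S, Finset.mem_filter]; exact ⟨hef, he, hf, hr'⟩)

end Pool.Agent.RFT

end

section

set_option autoImplicit false

/-!
# RFX/CxL : two empty convex cells whose sides do not cross meet in the hull of their common
vertices (MP_72a26e_co)

Proof by Krein-Milman: the extreme points of the intersection of the two hulls are common vertices.
-/

namespace Pool.Agent.RFX

open List Filter Topology

/-- a point on the nonnegative side of all sides of a counterclockwise list is in the hull -/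
theorem mem_hull_of_cyc (l : List Pt) (h : CCW l) (h3 : 3 ≤ l.length) (z : Pt)
    (hz : ∀ a b, (a, b) ∈ cyc l → 0 ≤ orient a b z) :
    z ∈ convexHull ℝ ((l.toFinset : Finset Pt) : Set Pt) := by
  obtain ⟨n, hn⟩ : ∃ n, l.length = n := ⟨_, rfl⟩
  induction n generalizing l with
  | zero => omega
  | succ n ih =>
    match l, h, h3, hz, hn with
    | [], _, h3, _, _ => simp at h3
    | [_], _, h3, _, _ => simp at h3
    | [_, _], _, h3, _, _ => simp at h3
    | x :: y :: w :: rest, h, h3, hz, hn =>
      have hxyw : 0 < orient x y w := by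
        apply h x y w
        exact (((List.nil_sublist rest).cons_cons w).cons_cons y).cons_cons x
      have e1 : cyc (x :: y :: w :: rest) = (x, y) :: (y, w) :: pe (w :: (rest ++ [x])) := rfl
      have h1 : 0 ≤ orient x y z := hz x y (by rw [e1]; simp)
      have h2 : 0 ≤ orient y w z := hz y w (by rw [e1]; simp)
      by_cases hxw : 0 ≤ orient x w z
      · by_cases hr : rest = []
        · subst hr
          have h4 : 0 ≤ orient w x z := by
            apply hz w x
            rw [e1]
            simp [pe]
          exact mem_hull3 x y w z hxyw h1 h2 h4 _ (by simp) (by simp) (by simp)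
        · have hl' : 3 ≤ (x :: w :: rest).length := by
            have : 0 < rest.length := List.length_pos_of_ne_nil hr
            simp only [List.length_cons]; omega
          have hs : (x :: w :: rest).Sublist (x :: y :: w :: rest) :=
            ((List.Sublist.refl (w :: rest)).cons y).cons_cons x
          have h5 := ih (x :: w :: rest) (h.sublist hs) hl' (by
            intro a b hab
            have e2 : cyc (x :: w :: rest) = (x, w) :: pe (w :: (rest ++ [x])) := rfl
            rw [e2, List.mem_cons] at hab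
            rcases hab with hab | hab
            · rw [Prod.mk.injEq] at hab
              rw [hab.1, hab.2]; exact hxw
            · apply hz a b
              rw [e1]
              exact List.mem_cons_of_mem _ (List.mem_cons_of_mem _ hab))
            (by simp only [List.length_cons] at hn ⊢; omega)
          refine convexHull_mono ?_ h5
          intro p hp
          rw [Finset.mem_coe, List.mem_toFinset] at hp ⊢
          exact hs.subset hp
      · push Not at hxw
        exact mem_hull3 x y w z hxyw h1 h2 (by rw [orient_swap]; linarith) _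
          (by simp) (by simp) (by simp)

/-- half plane description of a convex cell -/
theorem mem_hull_of_sides {t : Finset Pt} (h : CP t) (h3 : 3 ≤ t.card) {z : Pt}
    (hz : ∀ a b, HE t a b → 0 ≤ orient a b z) : z ∈ convexHull ℝ (t : Set Pt) := by
  obtain ⟨l, h1, h2, h4⟩ := h
  have hlen : l.length = t.card := CP.length h1 h2
  have h5 := mem_hull_of_cyc l h4 (by omega) z (by
    intro a b hab
    apply hz a b
    rw [h4.mem_cyc_iff h1 (by omega), h2] at hab
    exact hab)
  rw [h2] at h5
  exact h5

theorem segment_eq_hull_pair (a b : Pt) :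
    segment ℝ a b = convexHull ℝ ((({a, b} : Finset Pt)) : Set Pt) := by
  rw [← convexHull_pair]; simp

theorem mem_segment_iff_param (a b z : Pt) :
    z ∈ segment ℝ a b ↔ ∃ s : ℝ, 0 ≤ s ∧ s ≤ 1 ∧ z = (1 - s) • a + s • b := by
  constructor
  · rintro ⟨u, v, hu, hv, huv, rfl⟩
    exact ⟨v, hv, by linarith, by rw [← huv]; ring_nf⟩
  · rintro ⟨s, h0, h1, rfl⟩
    exact ⟨1 - s, s, by linarith, h0, by ring, rfl⟩

/-- directions in which one can move in both senses inside a cell -/
theorem dir_of_mem {t : Finset Pt} (h : CP t) (h3 : 3 ≤ t.card) {z : Pt}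
    (hz : z ∈ convexHull ℝ (t : Set Pt)) (hzt : z ∉ t) :
    (∀ d : Pt, ∀ᶠ δ : ℝ in 𝓝 0, z + δ • d ∈ convexHull ℝ (t : Set Pt)) ∨
    ∃ a b, HE t a b ∧ z ∈ segment ℝ a b ∧
      ∀ᶠ δ : ℝ in 𝓝 0, z + δ • (b - a) ∈ convexHull ℝ (t : Set Pt) := by
  classical
  by_cases hex : ∃ a b, HE t a b ∧ orient a b z = 0
  · right
    obtain ⟨a, b, hab, h0⟩ := hex
    have h1 := hull_face hab (Finset.Subset.refl t) hz h0
    have h2 : t ∩ {a, b} = {a, b} := by
      apply Finset.inter_eq_right.2
      intro y hy
      simp only [Finset.mem_insert, Finset.mem_singleton] at hy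
      rcases hy with rfl | rfl
      · exact hab.1
      · exact hab.2.1
    rw [h2, ← segment_eq_hull_pair] at h1
    refine ⟨a, b, hab, h1, ?_⟩
    obtain ⟨s, hs0, hs1, hs⟩ := (mem_segment_iff_param a b z).1 h1
    have hs0' : 0 < s := by
      rcases hs0.lt_or_eq with h | h
      · exact h
      · exfalso
        subst h
        apply hzt
        rw [hs]
        simpa using hab.1
    have hs1' : s < 1 := by
      rcases hs1.lt_or_eq with h | h
      · exact h
      · exfalso
        subst h
        apply hzt
        rw [hs]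
        simpa using hab.2.1
    have h5 : ∀ᶠ δ : ℝ in 𝓝 0, -s < δ ∧ δ < 1 - s :=
      (eventually_gt_nhds (by linarith)).and (eventually_lt_nhds (by linarith))
    filter_upwards [h5] with δ hδ
    have h6 : z + δ • (b - a) ∈ segment ℝ a b := by
      rw [mem_segment_iff_param]
      refine ⟨s + δ, by linarith [hδ.1], by linarith [hδ.2], ?_⟩
      rw [hs]
      module
    rw [segment_eq_hull_pair] at h6
    refine convexHull_mono ?_ h6
    intro y hy
    simp only [Finset.coe_insert, Finset.coe_singleton, Set.mem_insert_iff,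
      Set.mem_singleton_iff] at hy
    rcases hy with rfl | rfl
    · exact hab.1
    · exact hab.2.1
  · left
    push Not at hex
    intro d
    have hpos : ∀ a b, HE t a b → 0 < orient a b z := by
      intro a b hab
      have h1 : 0 ≤ orient a b z := by
        apply orient_nonneg_of_mem_hull a b z _ _ hz
        intro q hq
        exact hab.nonneg q (Finset.mem_coe.1 hq)
      exact lt_of_le_of_ne h1 (Ne.symm (hex a b hab))
    have h1 : ∀ᶠ δ : ℝ in 𝓝 0, ∀ e ∈ t ×ˢ t, HE t e.1 e.2 → 0 < orient e.1 e.2 (z + δ • d) := by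
      rw [Filter.eventually_all_finset]
      intro e _
      by_cases he : HE t e.1 e.2
      · have hc : Continuous (fun δ : ℝ => orient e.1 e.2 (z + δ • d)) := by
          unfold orient
          simp only [Prod.fst_add, Prod.snd_add, Prod.smul_fst, Prod.smul_snd, smul_eq_mul]
          fun_prop
        have h2 := hc.tendsto 0
        simp only [zero_smul, add_zero] at h2
        have h3 := h2.eventually (eventually_gt_nhds (hpos e.1 e.2 he))
        filter_upwards [h3] with δ hδ _
        exact hδ
      · exact Filter.Eventually.of_forall fun δ h => absurd h he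
    filter_upwards [h1] with δ hδ
    apply mem_hull_of_sides h h3
    intro a b hab
    exact (hδ (a, b) (Finset.mem_product.2 ⟨hab.1, hab.2.1⟩) hab).le

theorem no_share {P : Finset Pt} (hg : Gen P) {p q r z : Pt} (hp : p ∈ P) (hq : q ∈ P)
    (hr : r ∈ P) (hpq : p ≠ q) (hpr : p ≠ r) (hqr : q ≠ r) (h1 : z ∈ segment ℝ p q)
    (h2 : z ∈ segment ℝ p r) : z = p := by
  obtain ⟨s, hs0, hs1, hs⟩ := (mem_segment_iff_param p q z).1 h1
  obtain ⟨t, ht0, ht1, ht⟩ := (mem_segment_iff_param p r z).1 h2
  have e1 : orient p r z = s * orient p r q := by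
    rw [hs, orient_comb2 _ _ _ _ _ _ (by ring), orient_self2]; ring
  have e2 : orient p r z = 0 := by
    rw [ht, orient_comb2 _ _ _ _ _ _ (by ring), orient_self2, orient_self3]; ring
  rw [e2] at e1
  rcases mul_eq_zero.1 e1.symm with h | h
  · rw [hs, h]; simp
  · exact absurd h (hg p hp r hr q hq hpr hpq hqr.symm)

/-- two segments which do not cross properly and have a common point different from the ends
coincide -/
theorem seg_meet {P : Finset Pt} (hg : Gen P) {a b c d z : Pt} (ha : a ∈ P) (hb : b ∈ P)
    (hc : c ∈ P) (hd : d ∈ P) (hab : a ≠ b) (hcd : c ≠ d) (hx : ¬ RFT.Xs a b c d)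
    (h1 : z ∈ segment ℝ a b) (h2 : z ∈ segment ℝ c d) (za : z ≠ a) (zb : z ≠ b) (zc : z ≠ c)
    (zd : z ≠ d) : (a = c ∧ b = d) ∨ (a = d ∧ b = c) := by
  by_cases hac : a = c
  · subst hac
    by_cases hbd : b = d
    · exact Or.inl ⟨rfl, hbd⟩
    · exact absurd (no_share hg ha hb hd hab hcd hbd h1 h2) za
  by_cases had : a = d
  · subst had
    by_cases hbc : b = c
    · exact Or.inr ⟨rfl, hbc⟩
    · exact absurd (no_share hg ha hb hc hab hcd.symm hbc h1 (by rw [segment_symm]; exact h2)) za
  by_cases hbc : b = c
  · subst hbc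
    exact absurd (no_share hg hb ha hd hab.symm hcd had (by rw [segment_symm]; exact h1) h2) zb
  by_cases hbd : b = d
  · subst hbd
    exact absurd (no_share hg hb ha hc hab.symm hcd.symm hac (by rw [segment_symm]; exact h1)
      (by rw [segment_symm]; exact h2)) zb
  exfalso
  obtain ⟨s, hs0, hs1, hs⟩ := (mem_segment_iff_param a b z).1 h1
  obtain ⟨t, ht0, ht1, ht⟩ := (mem_segment_iff_param c d z).1 h2
  exact hx (RFT.Xs.of_point (hg a ha b hb c hc hab hac hbc) (hg a ha b hb d hd hab had hbd)
    (hg c hc d hd a ha hcd (Ne.symm hac) (Ne.symm had))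
    (hg c hc d hd b hb hcd (Ne.symm hbc) (Ne.symm hbd)) hs0 hs1 ht0 ht1 (hs.symm.trans ht))

theorem not_extreme {K : Set Pt} {z d : Pt} (hd : d ≠ 0)
    (h : ∀ᶠ δ : ℝ in 𝓝 0, z + δ • d ∈ K) : z ∉ K.extremePoints ℝ := by
  intro hz
  rw [mem_extremePoints] at hz
  rw [Metric.eventually_nhds_iff] at h
  obtain ⟨ε, hε, h⟩ := h
  have h1 : z + (ε / 2) • d ∈ K := h (by
    rw [Real.dist_eq, sub_zero, abs_of_pos (by positivity)]; linarith)
  have h2 : z + (-(ε / 2)) • d ∈ K := h (by
    rw [Real.dist_eq, sub_zero, abs_neg, abs_of_pos (by positivity)]; linarith)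
  have h3 := hz.2 _ h1 _ h2 ⟨1 / 2, 1 / 2, by norm_num, by norm_num, by norm_num, by module⟩
  have h4 : (ε / 2) • d = 0 := by
    have := h3.1
    simpa using this
  rcases smul_eq_zero.1 h4 with h5 | h5
  · linarith
  · exact hd h5

/-- THE CRITERION -/
theorem inter_of_free {P : Finset Pt} (hg : Gen P) {s t : Finset Pt} (hs : CP s) (ht : CP t)
    (hs3 : 3 ≤ s.card) (ht3 : 3 ≤ t.card) (hsP : s ⊆ P) (htP : t ⊆ P)
    (hse : ∀ p ∈ P, p ∈ convexHull ℝ (s : Set Pt) → p ∈ s)
    (hte : ∀ p ∈ P, p ∈ convexHull ℝ (t : Set Pt) → p ∈ t)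
    (hx : ∀ a b c d, HE s a b → HE t c d → ¬ RFT.Xs a b c d) :
    convexHull ℝ (s : Set Pt) ∩ convexHull ℝ (t : Set Pt) ⊆
      convexHull ℝ ((s ∩ t : Finset Pt) : Set Pt) := by
  classical
  have hK : IsCompact (convexHull ℝ (s : Set Pt) ∩ convexHull ℝ (t : Set Pt)) :=
    (s.finite_toSet.isCompact_convexHull ℝ).inter_right (t.finite_toSet.isClosed_convexHull ℝ)
  have hconv : Convex ℝ (convexHull ℝ (s : Set Pt) ∩ convexHull ℝ (t : Set Pt)) :=
    (convex_convexHull ℝ _).inter (convex_convexHull ℝ _)
  have hext : (convexHull ℝ (s : Set Pt) ∩ convexHull ℝ (t : Set Pt)).extremePoints ℝ ⊆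
      ((s ∩ t : Finset Pt) : Set Pt) := by
    intro z hz
    by_contra hzn
    have hzK := hz.1
    have hzs : z ∉ s := by
      intro h
      apply hzn
      rw [Finset.mem_coe, Finset.mem_inter]
      exact ⟨h, hte z (hsP h) hzK.2⟩
    have hzt : z ∉ t := by
      intro h
      apply hzn
      rw [Finset.mem_coe, Finset.mem_inter]
      exact ⟨hse z (htP h) hzK.1, h⟩
    have hne : ∀ {a b : Pt}, a ≠ b → b - a ≠ 0 := fun h h0 => h (sub_eq_zero.1 h0).symm
    rcases dir_of_mem hs hs3 hzK.1 hzs with h1 | ⟨a, b, hab, hzab, h1⟩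
    · rcases dir_of_mem ht ht3 hzK.2 hzt with h2 | ⟨c, d, hcd, hzcd, h2⟩
      · exact not_extreme (d := ((1 : ℝ), (0 : ℝ))) (by simp) ((h1 _).and (h2 _)) hz
      · exact not_extreme (hne hcd.2.2.1) ((h1 _).and h2) hz
    · rcases dir_of_mem ht ht3 hzK.2 hzt with h2 | ⟨c, d, hcd, hzcd, h2⟩
      · exact not_extreme (hne hab.2.2.1) (h1.and (h2 _)) hz
      · rcases seg_meet hg (hsP hab.1) (hsP hab.2.1) (htP hcd.1) (htP hcd.2.1) hab.2.2.1
          hcd.2.2.1 (hx a b c d hab hcd) hzab hzcd (fun h => hzs (h ▸ hab.1))
          (fun h => hzs (h ▸ hab.2.1)) (fun h => hzt (h ▸ hcd.1)) (fun h => hzt (h ▸ hcd.2.1))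
          with ⟨rfl, rfl⟩ | ⟨rfl, rfl⟩
        · exact not_extreme (hne hab.2.2.1) (h1.and h2) hz
        · have h3 : ∀ᶠ δ : ℝ in 𝓝 0, z + δ • (b - a) ∈ convexHull ℝ (t : Set Pt) := by
            have h4 : Tendsto (fun δ : ℝ => -δ) (𝓝 0) (𝓝 0) := by
              have := (continuous_neg (G := ℝ)).tendsto 0
              simpa using this
            have h5 := h4.eventually h2
            filter_upwards [h5] with δ hδ
            have e : z + δ • (b - a) = z + -δ • (a - b) := by module
            rw [e]; exact hδ
          exact not_extreme (hne hab.2.2.1) (h1.and h3) hz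
  intro z hz
  rw [← closure_convexHull_extremePoints hK hconv] at hz
  have h1 : convexHull ℝ ((convexHull ℝ (s : Set Pt) ∩ convexHull ℝ (t : Set Pt)).extremePoints ℝ)
      ⊆ convexHull ℝ ((s ∩ t : Finset Pt) : Set Pt) := convexHull_mono hext
  have h2 : IsClosed (convexHull ℝ ((s ∩ t : Finset Pt) : Set Pt)) :=
    (s ∩ t).finite_toSet.isClosed_convexHull ℝ
  exact closure_minimal h1 h2 hz

end Pool.Agent.RFX

end
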