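import Mathlib
import Pool.Agent.RFM.P03

set_option autoImplicit false

/-!
# RFM/P06 (MP_72a26e_co): the files RFX/NFSep, RFX/NFCyc, RFX/NFWord, RFX/Fan, merged to save build time
-/

section

set_option autoImplicit false

/-!
# RFX/NFSep : strips are not cyclic (MP_72a26e_co)

PROOF of `exists_pos`. For labels `i ≠ j` the hulls of `part P lab i`, `part P lab j` are disjoint compact convex sets, so
there are `α β c : ℝ` with `f v := α v.1 + β v.2 < c` for `v ∈ part i` and `c < f v` for `v ∈ part j`
(`geometric_hahn_banach_compact_closed`; the continuous linear functional is `v ↦ α v.1 + β v.2` with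
`α`, `β` its values at `(1,0)`, `(0,1)`). Let `g v := β v.1 - α v.2` and, for `f x < c < f y`,
`pos (x, y) := (g x * (f y - c) + g y * (c - f x)) / (f y - f x)`: this is the value of `g` at the point where the segment
`x y` crosses the line `f = c`. Choose `α β c` for every pair of labels (`choose`), `pos e` uses the pair
`(lab e.1, lab e.2)`; a step preserves the labels. CLAIM `pos e < pos f`. Case `f = (z, y)`: with `X = x - y`, `Z = z - y`, `δ = f y - c > 0`:
the crossing points are `p = y + (δ / -f X) X`, `p' = y + (δ / -f Z) Z` (`f` linear, `f X, f Z < 0`), and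
`f(u) g(v) - g(u) f(v) = -(α²+β²) cross u v`, so `g p' - g p = δ (g Z / -f Z - g X / -f X)
= δ (g X f Z - f X g Z) / (f X f Z) = δ (α²+β²) cross X Z / (f X f Z)`, and `cross X Z = orient y x z = orient x z y > 0`;
`(α, β) ≠ 0`. Case `f = (x, z)`: the same at `x`.
If one of the parts contains no point nothing has to be shown (`e.1`, `e.2`, `z` are points of `P`).
-/

namespace Pool.Agent.RFX

theorem sep_pair (P : Finset Pt) (lab : Pt → ℕ) {i j : ℕ}
    (h : Disjoint (convexHull ℝ (part P lab i : Set Pt)) (convexHull ℝ (part P lab j : Set Pt))) :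
    ∃ α β c : ℝ, (∀ v ∈ part P lab i, α * v.1 + β * v.2 < c) ∧
      ∀ v ∈ part P lab j, c < α * v.1 + β * v.2 := by
  obtain ⟨f, u, w, hu, huw, hw⟩ := geometric_hahn_banach_compact_closed
    (convex_convexHull ℝ (part P lab i : Set Pt))
    ((part P lab i).finite_toSet.isCompact_convexHull (𝕜 := ℝ))
    (convex_convexHull ℝ (part P lab j : Set Pt))
    ((part P lab j).finite_toSet.isClosed_convexHull (𝕜 := ℝ)) h
  have hf : ∀ v : Pt, f v = f (1, 0) * v.1 + f (0, 1) * v.2 := by
    intro v
    have e : v = v.1 • ((1, 0) : Pt) + v.2 • ((0, 1) : Pt) := by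
      ext <;> simp
    conv_lhs => rw [e]
    rw [map_add, map_smul, map_smul, smul_eq_mul, smul_eq_mul]
    ring
  refine ⟨f (1, 0), f (0, 1), (u + w) / 2, fun v hv => ?_, fun v hv => ?_⟩
  · rw [← hf]
    have := hu v (subset_convexHull ℝ _ hv)
    linarith
  · rw [← hf]
    have := hw v (subset_convexHull ℝ _ hv)
    linarith

theorem exists_pos (P : Finset Pt) (C : Finset (Finset Pt)) (lab : Pt → ℕ)
    (hsub : ∀ t ∈ C, t ⊆ P)
    (hsep : ∀ i j, i ≠ j → Disjoint (convexHull ℝ (part P lab i : Set Pt))
      (convexHull ℝ (part P lab j : Set Pt))) :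
    ∃ pos : Pt × Pt → ℝ, ∀ e f, Nx C lab e f → pos e < pos f := by
  have hall : ∀ i j : ℕ, ∃ α β c : ℝ, i ≠ j → (∀ v ∈ part P lab i, α * v.1 + β * v.2 < c) ∧
      ∀ v ∈ part P lab j, c < α * v.1 + β * v.2 := by
    intro i j
    by_cases hij : i = j
    · exact ⟨0, 0, 0, fun h => absurd hij h⟩
    · obtain ⟨α, β, c, h⟩ := sep_pair P lab (hsep i j hij)
      exact ⟨α, β, c, fun _ => h⟩
  choose α β c hs using hall
  set F : ℕ → ℕ → Pt → ℝ := fun i j v => α i j * v.1 + β i j * v.2 with hF
  set G : ℕ → ℕ → Pt → ℝ := fun i j v => β i j * v.1 - α i j * v.2 with hG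
  refine ⟨fun e => (G (lab e.1) (lab e.2) e.1 * (F (lab e.1) (lab e.2) e.2 - c (lab e.1) (lab e.2))
    + G (lab e.1) (lab e.2) e.2 * (c (lab e.1) (lab e.2) - F (lab e.1) (lab e.2) e.1)) /
    (F (lab e.1) (lab e.2) e.2 - F (lab e.1) (lab e.2) e.1), ?_⟩
  rintro ⟨x, y⟩ f ⟨z, hz, hor, hne, hf⟩
  simp only at hz hor hne hf
  have hxP : x ∈ P := hsub _ hz (by simp)
  have hyP : y ∈ P := hsub _ hz (by simp)
  have hzP : z ∈ P := hsub _ hz (by simp)
  obtain ⟨h1, h2⟩ := hs (lab x) (lab y) hne
  have hmem : ∀ v ∈ P, ∀ i, lab v = i → v ∈ part P lab i := by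
    intro v hv i hi
    unfold part
    rw [Finset.mem_filter]
    exact ⟨hv, hi⟩
  have hfx : F (lab x) (lab y) x < c (lab x) (lab y) := h1 x (hmem x hxP _ rfl)
  have hfy : c (lab x) (lab y) < F (lab x) (lab y) y := h2 y (hmem y hyP _ rfl)
  have hab : 0 < α (lab x) (lab y) ^ 2 + β (lab x) (lab y) ^ 2 := by
    by_contra hcon
    have haux : ∀ a b : ℝ, ¬ 0 < a ^ 2 + b ^ 2 → a = 0 ∧ b = 0 := by
      intro a b hn
      have h3 := sq_nonneg a
      have h4 := sq_nonneg b
      have h5 : a ^ 2 = 0 := by linarith
      have h6 : b ^ 2 = 0 := by linarith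
      exact ⟨pow_eq_zero_iff (two_ne_zero) |>.1 h5, pow_eq_zero_iff (two_ne_zero) |>.1 h6⟩
    obtain ⟨ha, hb⟩ := haux _ _ hcon
    simp only [hF, ha, hb] at hfx hfy
    linarith
  have hin : G (lab x) (lab y) z * (F (lab x) (lab y) y - F (lab x) (lab y) x)
      - G (lab x) (lab y) x * (F (lab x) (lab y) y - F (lab x) (lab y) z)
      + G (lab x) (lab y) y * (F (lab x) (lab y) x - F (lab x) (lab y) z)
      = (α (lab x) (lab y) ^ 2 + β (lab x) (lab y) ^ 2) * orient x z y := by
    simp only [hF, hG]
    unfold orient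
    ring
  have hpos := mul_pos hab hor
  rw [← hin] at hpos
  rcases hf with ⟨hl, rfl⟩ | ⟨hl, rfl⟩
  · simp only [hl]
    have hfz : F (lab x) (lab y) z < c (lab x) (lab y) := h1 z (hmem z hzP _ hl)
    rw [div_lt_div_iff₀ (by linarith) (by linarith)]
    have := mul_pos (sub_pos.2 hfy) hpos
    nlinarith [this]
  · simp only [hl]
    have hfz : c (lab x) (lab y) < F (lab x) (lab y) z := h2 z (hmem z hzP _ hl)
    rw [div_lt_div_iff₀ (by linarith) (by linarith)]
    have := mul_pos (sub_pos.2 hfx) hpos
    nlinarith [this]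

end Pool.Agent.RFX

end

section

set_option autoImplicit false

/-!
# RFX/NFCyc : a closed sequence of directions with left turns meets every open half plane (MP_72a26e_co)

PROOF. Let `b i = a i - v`, suppose `cross u (b i) ≤ 0` for all `i < r` (so for all `i ≤ r`, as `a r = a 0`). Choose the starting
point: CLAIM `0 ≤ cross (b 0) (b i)` for all `1 ≤ i ≤ r - 1`, hence `0 ≤ cross (b 0) (b (r-1))`, but `0 < cross (b (r-1)) (b r)
= cross (b (r-1)) (b 0) = - cross (b 0) (b (r-1))`, a contradiction (`r = 1`: `0 < cross (b 0) (b 0) = 0`). Proof of the claim by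
induction on `i`, with the Grassmann identity
`cross a c * cross u b = cross a b * cross u c + cross b c * cross u a` (`ring`). Let `a = b 0`, `b = b i`, `c = b (i+1)`,
`cross a b ≥ 0`, `cross b c > 0`, all three with `cross u · ≤ 0`. The right hand side is `≤ 0`. If `cross u b < 0` then
`cross a c ≥ 0`. If `cross u b = 0` then `cross u a = 0` (`cross b c > 0`, both terms are `≤ 0` and their sum is `0`);
so `a = λ u`, `b = μ u` with `λ, μ ≠ 0`; `cross b c = μ cross u c > 0` gives `μ < 0` (and `cross u c < 0`); `cross a (b 1) > 0`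
gives in the same way `λ < 0`; so `cross a c = λ cross u c > 0`.
-/

namespace Pool.Agent.RFX

private theorem nfcyc_par (u a x : Pt) (h : cross u a = 0) :
    (u.1 * u.1 + u.2 * u.2) * cross a x = (u.1 * a.1 + u.2 * a.2) * cross u x := by
  have : (u.1 * u.1 + u.2 * u.2) * cross a x
      = (u.1 * a.1 + u.2 * a.2) * cross u x - cross u a * (u.1 * x.1 + u.2 * x.2) := by
    unfold cross; ring
  rw [this, h]; ring

private theorem nfcyc_step (u a b c d : Pt) (hu : u ≠ 0) (hab : 0 ≤ cross a b)
    (hbc : 0 < cross b c) (had : 0 < cross a d) (ua : cross u a ≤ 0) (ub : cross u b ≤ 0)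
    (uc : cross u c ≤ 0) (ud : cross u d ≤ 0) : 0 ≤ cross a c := by
  have hid : cross a c * cross u b = cross a b * cross u c + cross b c * cross u a := by
    unfold cross; ring
  have h1 : cross a b * cross u c ≤ 0 := mul_nonpos_of_nonneg_of_nonpos hab uc
  have h2 : cross b c * cross u a ≤ 0 := mul_nonpos_of_nonneg_of_nonpos hbc.le ua
  rcases lt_or_eq_of_le ub with h | h
  · by_contra hneg
    push Not at hneg
    have : 0 < cross a c * cross u b := mul_pos_of_neg_of_neg hneg h
    linarith
  · rw [h, mul_zero] at hid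
    have h3 : cross b c * cross u a = 0 := by linarith
    have h4 : cross u a = 0 := by
      rcases mul_eq_zero.1 h3 with h5 | h5
      · exact absurd h5 hbc.ne'
      · exact h5
    have hN : 0 < u.1 * u.1 + u.2 * u.2 := by
      by_contra hN
      push Not at hN
      have e1 : u.1 = 0 := by nlinarith [mul_self_nonneg u.1, mul_self_nonneg u.2]
      have e2 : u.2 = 0 := by nlinarith [mul_self_nonneg u.1, mul_self_nonneg u.2]
      exact hu (Prod.ext e1 e2)
    have k1 := nfcyc_par u a d h4
    have k2 := nfcyc_par u b c h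
    have k3 := nfcyc_par u a c h4
    have l1 : (u.1 * a.1 + u.2 * a.2) < 0 := by
      by_contra hl
      push Not at hl
      have : (u.1 * a.1 + u.2 * a.2) * cross u d ≤ 0 := mul_nonpos_of_nonneg_of_nonpos hl ud
      have : 0 < (u.1 * u.1 + u.2 * u.2) * cross a d := mul_pos hN had
      linarith
    have l3 : 0 ≤ (u.1 * a.1 + u.2 * a.2) * cross u c := mul_nonneg_of_nonpos_of_nonpos l1.le uc
    rw [← k3] at l3
    exact (mul_nonneg_iff_of_pos_left hN).1 l3

theorem exists_in_halfplane (v : Pt) (a : ℕ → Pt) (r : ℕ) (hr : 0 < r) (hcl : a r = a 0)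
    (hturn : ∀ i < r, 0 < orient v (a i) (a (i + 1))) (u : Pt) (hu : u ≠ 0) :
    ∃ i < r, 0 < cross u (a i - v) := by
  by_contra hcon
  push Not at hcon
  have hor : ∀ p q : Pt, orient v p q = cross (p - v) (q - v) := by
    intro p q
    unfold orient cross
    simp only [Prod.fst_sub, Prod.snd_sub]
    ring
  have hle : ∀ i ≤ r, cross u (a i - v) ≤ 0 := by
    intro i hi
    rcases Nat.lt_or_eq_of_le hi with h | h
    · exact hcon i h
    · rw [h, hcl]
      exact hcon 0 hr
  have hclaim : ∀ i, i + 1 ≤ r → 0 ≤ cross (a 0 - v) (a (i + 1) - v) := by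
    intro i
    induction i with
    | zero =>
      intro _
      rw [← hor]
      exact (hturn 0 hr).le
    | succ i ih =>
      intro hi
      have h1 := ih (by omega)
      have h2 := hturn (i + 1) (by omega)
      have h3 := hturn 0 hr
      rw [hor] at h2 h3
      exact nfcyc_step u _ _ _ _ hu h1 h2 h3 (hle 0 (by omega)) (hle (i + 1) (by omega))
        (hle (i + 1 + 1) hi) (hle (0 + 1) (by omega))
  obtain ⟨m, rfl⟩ : ∃ m, r = m + 1 := ⟨r - 1, by omega⟩
  have h2 := hturn m (by omega)
  rw [hor, hcl, cross_swap] at h2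
  rcases Nat.eq_zero_or_pos m with hm | hm
  · subst hm
    have : cross (a 0 - v) (a 0 - v) = 0 := by unfold cross; ring
    rw [this] at h2
    simp at h2
  · obtain ⟨j, rfl⟩ : ∃ j, m = j + 1 := ⟨m - 1, by omega⟩
    have h3 := hclaim j (by omega)
    linarith

end Pool.Agent.RFX

end

section

set_option autoImplicit false

/-!
# RFX/NFWord : the word combinatorics of the normal form (MP_72a26e_co)

A strip with `m` triangles is a word `τ : ℕ → Bool` (letters `τ 0, …, τ (m-1)`; `true` = A-step) with the
positions (cross edges) `0, …, m`. A petal is a pair `(u, v)` of positions, it consists of the triangles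
`u, …, v - 1`.

PROOF of `word`. If `m < 4` (or in general) use the following. A run is a maximal interval `[p, q)` of positions of equal letters.
Let `ρ` be the number of runs. CASE 1, `ρ ≤ 15`: petals = `(p + 2, q - 2)` for all runs `[p, q)` with `q - p ≥ 6`, no gaps.
(W2), (W3), (W4): between the petals of two different runs there are the last two letters of the first run and the
first two letters of a later run, and if this later run has the same letter as the first one then there is a whole run in
between. (W7): at most 6 positions per run are not strictly inside a petal (`p, p+1, p+2, q-2, q-1, q`, resp. all positions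
`p, …, q` if `q - p ≤ 5`). CASE 2, `ρ ≥ 16`: let `s = 2` if `τ 0 = τ 1`, otherwise `s = 3`; `s' = m - 2` if
`τ (m-1) = τ (m-2)`, otherwise `m - 3`; `g + 1` the start of the 9th run. Two petals `(s, g)`, `(g + 2, s')`, one gap `g`.
Runs 4, …, 8 minus the last letter of run 8 are in the first petal (so both letters occur twice), runs 10, …, ρ - 3 are
in the second one. (W3) for the first petal: `τ (s-1)` occurs in `[0, s-1)` by the choice of `s`. Not strictly inside:
at most `4 + 3 + 4` positions.
-/

namespace Pool.Agent.RFX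

/-- the letter `c` occurs in the interval `[i, j)` -/
def Occ (τ : ℕ → Bool) (c : Bool) (i j : ℕ) : Prop := ∃ n, i ≤ n ∧ n < j ∧ τ n = c

/-- the letter `c` occurs twice in the interval `[i, j)` -/
def Occ2 (τ : ℕ → Bool) (c : Bool) (i j : ℕ) : Prop :=
  ∃ n n', i ≤ n ∧ n < n' ∧ n' < j ∧ τ n = c ∧ τ n' = c

/-- outer left end at the position `u` -/
def OutL (τ : ℕ → Bool) (pet : Finset (ℕ × ℕ)) (u : ℕ) : Prop :=
  Occ τ (τ (u - 1)) 0 (u - 1) ∧ ∀ q ∈ pet, q.2 < u → Occ τ (τ (u - 1)) (q.2 + 1) (u - 1)

/-- outer right end at the position `v` -/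
def OutR (τ : ℕ → Bool) (m : ℕ) (pet : Finset (ℕ × ℕ)) (v : ℕ) : Prop :=
  Occ τ (τ v) (v + 1) m ∧ ∀ q ∈ pet, v < q.1 → Occ τ (τ v) (v + 1) (q.1 - 1)

/-- a system of petals and gaps for the word `τ 0 … τ (m-1)` -/
structure PetSys (m : ℕ) (τ : ℕ → Bool) (pet : Finset (ℕ × ℕ)) (gaps : Finset ℕ) : Prop where
  /-- size -/
  size : ∀ p ∈ pet, 2 ≤ p.1 ∧ p.1 + 2 ≤ p.2 ∧ p.2 + 2 ≤ m
  /-- both letters occur between two petals -/
  sepa : ∀ p ∈ pet, ∀ q ∈ pet, p ≠ q →
    (p.2 < q.1 ∧ ∀ c, Occ τ c p.2 q.1) ∨ (q.2 < p.1 ∧ ∀ c, Occ τ c q.2 p.1)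
  /-- types of the petals: fan, left half-ladder, right half-ladder -/
  type : ∀ p ∈ pet,
    (OutL τ pet p.1 ∧ OutR τ m pet p.2 ∧ (∀ n, p.1 - 1 ≤ n → n ≤ p.2 → τ n = τ p.2) ∧
      (∀ g ∈ gaps, g ≠ p.2 ∧ g + 2 ≠ p.1)) ∨
    (OutL τ pet p.1 ∧ p.2 ∈ gaps ∧ (∀ c, Occ2 τ c p.1 p.2) ∧ (∀ g ∈ gaps, g + 2 ≠ p.1)) ∨
    ((∃ g ∈ gaps, g + 2 = p.1) ∧ OutR τ m pet p.2 ∧ (∀ c, Occ2 τ c p.1 p.2) ∧ p.2 ∉ gaps)
  /-- gaps: the triangles `g`, `g + 1` -/
  gap : ∀ g ∈ gaps, (∃ p ∈ pet, p.2 = g) ∧ (∃ q ∈ pet, q.1 = g + 2) ∧ τ g ≠ τ (g + 1)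
  /-- few positions are not strictly inside a petal -/
  count : ((Finset.range (m + 1)).filter fun n => ¬ ∃ p ∈ pet, p.1 < n ∧ n < p.2).card ≤ 200

theorem const_of_no_trans (τ : ℕ → Bool) (a b : ℕ)
    (h : ∀ n, a ≤ n → n + 1 < b → τ n = τ (n + 1)) :
    ∀ n, a ≤ n → n < b → τ n = τ a := by
  intro n hn
  induction n, hn using Nat.le_induction with
  | base => intro _; rfl
  | succ n hn ih => intro h2; rw [← h n hn h2]; exact ih (by omega)

theorem bool_two {a b c : Bool} (h : a ≠ b) : a = c ∨ b = c := by
  cases a <;> cases b <;> cases c <;> simp_all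

/-- the petals in the case of few runs -/
noncomputable def petF (m : ℕ) (τ : ℕ → Bool) : Finset (ℕ × ℕ) :=
  open Classical in
  ((Finset.range (m + 1)) ×ˢ (Finset.range (m + 1))).filter (fun p =>
    2 ≤ p.1 ∧ p.1 + 2 ≤ p.2 ∧ p.2 + 2 ≤ m ∧
    (∀ n, p.1 - 2 ≤ n → n < p.2 + 2 → τ n = τ p.1) ∧
    (p.1 = 2 ∨ τ (p.1 - 3) ≠ τ p.1) ∧ (p.2 + 2 = m ∨ τ (p.2 + 2) ≠ τ p.1))

theorem mem_petF (m : ℕ) (τ : ℕ → Bool) (p : ℕ × ℕ) : p ∈ petF m τ ↔
    2 ≤ p.1 ∧ p.1 + 2 ≤ p.2 ∧ p.2 + 2 ≤ m ∧
    (∀ n, p.1 - 2 ≤ n → n < p.2 + 2 → τ n = τ p.1) ∧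
    (p.1 = 2 ∨ τ (p.1 - 3) ≠ τ p.1) ∧ (p.2 + 2 = m ∨ τ (p.2 + 2) ≠ τ p.1) := by
  classical
  unfold petF
  simp only [Finset.mem_filter, Finset.mem_product, Finset.mem_range]
  constructor
  · rintro ⟨_, h⟩
    exact h
  · rintro h
    refine ⟨⟨?_, ?_⟩, h⟩
    · omega
    · omega

theorem petF_sep_aux (m : ℕ) (τ : ℕ → Bool) (p q : ℕ × ℕ) (hp : p ∈ petF m τ)
    (hq : q ∈ petF m τ) (hne : p ≠ q) (hle : p.1 ≤ q.1) : p.2 + 2 ≤ q.1 - 2 := by
  rw [mem_petF] at hp hq
  obtain ⟨p1, p2, p3, p4, p5, p6⟩ := hp
  obtain ⟨q1, q2, q3, q4, q5, q6⟩ := hq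
  by_contra hlt
  push Not at hlt
  have e1 : τ (q.1 - 2) = τ p.1 := p4 _ (by omega) (by omega)
  have e2 : τ (q.1 - 2) = τ q.1 := q4 _ (by omega) (by omega)
  have e3 : τ p.1 = τ q.1 := e1.symm.trans e2
  have h1 : p.1 = q.1 := by
    by_contra hne1
    have h3 : τ (q.1 - 3) = τ p.1 := p4 _ (by omega) (by omega)
    rcases q5 with h4 | h4
    · omega
    · exact h4 (h3.trans e3)
  have h2 : p.2 = q.2 := by
    by_contra hne2
    rcases Nat.lt_or_gt_of_ne hne2 with h5 | h5
    · rcases p6 with h6 | h6
      · omega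
      · apply h6
        rw [e3]
        exact q4 _ (by omega) (by omega)
    · rcases q6 with h6 | h6
      · omega
      · apply h6
        rw [← e3]
        exact p4 _ (by omega) (by omega)
  exact hne (Prod.ext h1 h2)

theorem petF_sep (m : ℕ) (τ : ℕ → Bool) (p q : ℕ × ℕ) (hp : p ∈ petF m τ)
    (hq : q ∈ petF m τ) (hne : p ≠ q) : p.2 + 2 ≤ q.1 - 2 ∨ q.2 + 2 ≤ p.1 - 2 := by
  rcases Nat.le_total p.1 q.1 with h | h
  · exact Or.inl (petF_sep_aux m τ p q hp hq hne h)
  · exact Or.inr (petF_sep_aux m τ q p hq hp (Ne.symm hne) h)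

theorem petF_occ (m : ℕ) (τ : ℕ → Bool) (p q : ℕ × ℕ) (hp : p ∈ petF m τ)
    (hq : q ∈ petF m τ) (h : p.2 + 2 ≤ q.1 - 2) : p.2 < q.1 ∧ ∀ c, Occ τ c p.2 q.1 := by
  rw [mem_petF] at hp hq
  obtain ⟨p1, p2, p3, p4, p5, p6⟩ := hp
  obtain ⟨q1, q2, q3, q4, q5, q6⟩ := hq
  refine ⟨by omega, ?_⟩
  intro c
  have h1 : τ p.2 = τ p.1 := p4 _ (by omega) (by omega)
  have h2 : τ (p.2 + 2) ≠ τ p.1 := by
    rcases p6 with h6 | h6
    · omega
    · exact h6
  rcases bool_two (c := c) h2 with h3 | h3
  · exact ⟨p.2 + 2, by omega, by omega, h3⟩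
  · exact ⟨p.2, le_refl _, by omega, h1.trans h3⟩

/-- the transitions -/
def trF (m : ℕ) (τ : ℕ → Bool) : Finset ℕ :=
  (Finset.range m).filter (fun n => n + 1 < m ∧ τ n ≠ τ (n + 1))

theorem mem_trF (m : ℕ) (τ : ℕ → Bool) (n : ℕ) : n ∈ trF m τ ↔ n + 1 < m ∧ τ n ≠ τ (n + 1) := by
  unfold trF
  rw [Finset.mem_filter, Finset.mem_range]
  constructor
  · rintro ⟨_, h⟩; exact h
  · rintro h; exact ⟨by omega, h⟩

/-- boundaries of runs -/
def bdF (m : ℕ) (τ : ℕ → Bool) : Finset ℕ := insert 0 (insert m ((trF m τ).image (· + 1)))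

theorem bdF_card (m : ℕ) (τ : ℕ → Bool) : (bdF m τ).card ≤ (trF m τ).card + 2 := by
  unfold bdF
  refine (Finset.card_insert_le _ _).trans ?_
  have h1 := Finset.card_insert_le m ((trF m τ).image (· + 1))
  have h2 : ((trF m τ).image (· + 1)).card ≤ (trF m τ).card := Finset.card_image_le
  omega

theorem inside_of_far (m : ℕ) (τ : ℕ → Bool) (n : ℕ) (hn : n ≤ m)
    (hfar : ∀ b ∈ bdF m τ, ¬ (b ≤ n + 2 ∧ n ≤ b + 2)) :
    ∃ p ∈ petF m τ, p.1 < n ∧ n < p.2 := by
  classical
  have h0 : (0:ℕ) ∈ bdF m τ := by simp [bdF]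
  have hm : m ∈ bdF m τ := by simp [bdF]
  have hnm : n < m := by
    have := hfar m hm
    omega
  -- left boundary
  obtain ⟨p, hp, hpmax⟩ := Finset.exists_max_image ((bdF m τ).filter (· ≤ n)) id
    ⟨0, Finset.mem_filter.2 ⟨h0, Nat.zero_le _⟩⟩
  obtain ⟨q, hq, hqmin⟩ := Finset.exists_min_image ((bdF m τ).filter (n < ·)) id
    ⟨m, Finset.mem_filter.2 ⟨hm, hnm⟩⟩
  rw [Finset.mem_filter] at hp hq
  obtain ⟨hp1, hp2⟩ := hp
  obtain ⟨hq1, hq2⟩ := hq
  have hp3 := hfar p hp1
  have hq3 := hfar q hq1
  have hqm : q ≤ m := hqmin m (Finset.mem_filter.2 ⟨hm, hnm⟩)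
  have hbet : ∀ b, p < b → b < q → b ∉ bdF m τ := by
    intro b hb1 hb2 hb
    rcases Nat.lt_or_ge n b with h | h
    · have := hqmin b (Finset.mem_filter.2 ⟨hb, h⟩)
      simp only [id] at this
      omega
    · have := hpmax b (Finset.mem_filter.2 ⟨hb, h⟩)
      simp only [id] at this
      omega
  have hcon : ∀ k, p ≤ k → k < q → τ k = τ p := by
    apply const_of_no_trans
    intro k hk1 hk2
    by_contra hne
    apply hbet (k + 1) (by omega) hk2
    unfold bdF
    rw [Finset.mem_insert, Finset.mem_insert, Finset.mem_image]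
    right; right
    exact ⟨k, (mem_trF m τ k).2 ⟨by omega, hne⟩, rfl⟩
  have hp4 : p = 0 ∨ (1 ≤ p ∧ τ (p - 1) ≠ τ p) := by
    have := hp1
    unfold bdF at this
    rw [Finset.mem_insert, Finset.mem_insert, Finset.mem_image] at this
    rcases this with h | h | ⟨k, hk, hk2⟩
    · left; exact h
    · omega
    · right
      rw [mem_trF] at hk
      have hk3 : k + 1 = p := hk2
      subst hk3
      exact ⟨by omega, hk.2⟩
  have hq4 : q = m ∨ (1 ≤ q ∧ τ (q - 1) ≠ τ q) := by
    have := hq1
    unfold bdF at this
    rw [Finset.mem_insert, Finset.mem_insert, Finset.mem_image] at this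
    rcases this with h | h | ⟨k, hk, hk2⟩
    · omega
    · left; exact h
    · right
      rw [mem_trF] at hk
      have hk3 : k + 1 = q := hk2
      subst hk3
      exact ⟨by omega, hk.2⟩
  refine ⟨(p + 2, q - 2), ?_, by simp only; omega, by simp only; omega⟩
  rw [mem_petF]
  simp only
  have hcp : τ (p + 2) = τ p := hcon _ (by omega) (by omega)
  refine ⟨by omega, by omega, by omega, ?_, ?_, ?_⟩
  · intro k hk1 hk2
    rw [hcp]
    exact hcon k (by omega) (by omega)
  · rcases hp4 with h | h
    · left; omega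
    · right
      rw [hcp]
      have : p + 2 - 3 = p - 1 := by omega
      rw [this]
      exact h.2
  · rcases hq4 with h | h
    · left; omega
    · right
      rw [hcp]
      have h1 : q - 2 + 2 = q := by omega
      rw [h1]
      have h2 : τ (q - 1) = τ p := hcon _ (by omega) (by omega)
      rw [← h2]
      exact (h.2).symm

theorem word_few (m : ℕ) (τ : ℕ → Bool) (h : (trF m τ).card ≤ 14) :
    PetSys m τ (petF m τ) ∅ := by
  classical
  refine ⟨?_, ?_, ?_, ?_, ?_⟩
  · intro p hp
    rw [mem_petF] at hp
    exact ⟨hp.1, hp.2.1, hp.2.2.1⟩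
  · intro p hp q hq hne
    rcases petF_sep m τ p q hp hq hne with h1 | h1
    · exact Or.inl (petF_occ m τ p q hp hq h1)
    · exact Or.inr (petF_occ m τ q p hq hp h1)
  · intro p hp
    left
    have hp' := hp
    rw [mem_petF] at hp
    obtain ⟨p1, p2, p3, p4, p5, p6⟩ := hp
    have hv : τ p.2 = τ p.1 := p4 _ (by omega) (by omega)
    refine ⟨⟨?_, ?_⟩, ⟨?_, ?_⟩, ?_, ?_⟩
    · refine ⟨p.1 - 2, by omega, by omega, ?_⟩
      rw [p4 _ (le_refl _) (by omega), p4 (p.1 - 1) (by omega) (by omega)]
    · intro q hq hq2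
      have hne : p ≠ q := by rintro rfl; omega
      have hsep : q.2 + 2 ≤ p.1 - 2 := by
        rcases petF_sep m τ p q hp' hq hne with h1 | h1
        · rw [mem_petF] at hq
          omega
        · exact h1
      refine ⟨p.1 - 2, by omega, by omega, ?_⟩
      rw [p4 _ (le_refl _) (by omega), p4 (p.1 - 1) (by omega) (by omega)]
    · refine ⟨p.2 + 1, le_refl _, by omega, ?_⟩
      rw [p4 _ (by omega) (by omega), hv]
    · intro q hq hq2
      have hne : p ≠ q := by rintro rfl; omega
      have hsep : p.2 + 2 ≤ q.1 - 2 := by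
        rcases petF_sep m τ p q hp' hq hne with h1 | h1
        · exact h1
        · rw [mem_petF] at hq
          omega
      refine ⟨p.2 + 1, le_refl _, by omega, ?_⟩
      rw [p4 _ (by omega) (by omega), hv]
    · intro n hn1 hn2
      rw [hv]
      exact p4 n (by omega) (by omega)
    · intro g hg
      simp at hg
  · intro g hg
    simp at hg
  · have hsub : ((Finset.range (m + 1)).filter fun n => ¬ ∃ p ∈ petF m τ, p.1 < n ∧ n < p.2) ⊆
        (bdF m τ).biUnion (fun b => Finset.Icc (b - 2) (b + 2)) := by
      intro n hn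
      rw [Finset.mem_filter, Finset.mem_range] at hn
      obtain ⟨hn1, hn2⟩ := hn
      rw [Finset.mem_biUnion]
      by_contra hno
      apply hn2
      apply inside_of_far m τ n (by omega)
      intro b hb hb2
      apply hno
      refine ⟨b, hb, ?_⟩
      rw [Finset.mem_Icc]
      omega
    refine (Finset.card_le_card hsub).trans ?_
    refine Finset.card_biUnion_le.trans ?_
    have h1 : ∑ b ∈ bdF m τ, (Finset.Icc (b - 2) (b + 2)).card ≤ ∑ b ∈ bdF m τ, 5 := by
      apply Finset.sum_le_sum
      intro b _
      rw [Nat.card_Icc]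
      omega
    refine h1.trans ?_
    rw [Finset.sum_const, smul_eq_mul]
    have h2 := bdF_card m τ
    omega

theorem occ2_of_trans (τ : ℕ → Bool) (a b t t' : ℕ) (h1 : τ t ≠ τ (t + 1))
    (h2 : τ t' ≠ τ (t' + 1)) (h3 : a ≤ t) (h4 : t + 1 < t') (h5 : t' + 1 < b) (c : Bool) :
    Occ2 τ c a b := by
  rcases bool_two (c := c) h1 with e1 | e1 <;> rcases bool_two (c := c) h2 with e2 | e2
  · exact ⟨t, t', h3, by omega, by omega, e1, e2⟩
  · exact ⟨t, t' + 1, h3, by omega, by omega, e1, e2⟩
  · exact ⟨t + 1, t', by omega, by omega, by omega, e1, e2⟩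
  · exact ⟨t + 1, t' + 1, by omega, by omega, by omega, e1, e2⟩

theorem word_many (m : ℕ) (τ : ℕ → Bool) (h : 15 ≤ (trF m τ).card) :
    ∃ pet gaps, PetSys m τ pet gaps := by
  classical
  set e := (trF m τ).orderEmbOfFin rfl with he
  have hk : ∀ i : ℕ, i < 15 → i < (trF m τ).card := fun i hi => lt_of_lt_of_le hi h
  set f : ℕ → ℕ := fun i => if hi : i < 15 then e ⟨i, hk i hi⟩ else 0 with hf
  have hfm : ∀ i, i < 15 → f i + 1 < m ∧ τ (f i) ≠ τ (f i + 1) := by
    intro i hi
    have h1 : f i = e ⟨i, hk i hi⟩ := by rw [hf]; simp [hi]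
    have h2 : f i ∈ trF m τ := by
      rw [h1]
      exact Finset.orderEmbOfFin_mem _ _ _
    exact (mem_trF m τ _).1 h2
  have hlt : ∀ i j, i < j → j < 15 → f i < f j := by
    intro i j hij hj
    have h1 : f i = e ⟨i, hk i (by omega)⟩ := by
      rw [hf]; simp [show i < 15 by omega]
    have h2 : f j = e ⟨j, hk j hj⟩ := by rw [hf]; simp [hj]
    rw [h1, h2]
    apply e.strictMono
    exact hij
  have l0 := hlt 0 1 (by omega) (by omega)
  have l1 := hlt 1 2 (by omega) (by omega)
  have l2 := hlt 2 3 (by omega) (by omega)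
  have l3 := hlt 3 4 (by omega) (by omega)
  have l4 := hlt 4 5 (by omega) (by omega)
  have l5 := hlt 5 6 (by omega) (by omega)
  have l6 := hlt 6 7 (by omega) (by omega)
  have l7 := hlt 7 8 (by omega) (by omega)
  have l8 := hlt 8 9 (by omega) (by omega)
  have l9 := hlt 9 10 (by omega) (by omega)
  have l10 := hlt 10 11 (by omega) (by omega)
  have l11 := hlt 11 12 (by omega) (by omega)
  have l12 := hlt 12 13 (by omega) (by omega)
  have l13 := hlt 13 14 (by omega) (by omega)
  have hm := (hfm 14 (by omega)).1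
  set g := f 7 with hg
  obtain ⟨s, hs1, hs2, hs3⟩ : ∃ s, 2 ≤ s ∧ s ≤ 3 ∧ Occ τ (τ (s - 1)) 0 (s - 1) := by
    by_cases h01 : τ 0 = τ 1
    · exact ⟨2, le_refl _, by omega, 0, le_refl _, by omega, h01⟩
    · refine ⟨3, by omega, le_refl _, ?_⟩
      rcases bool_two (c := τ 2) h01 with h1 | h1
      · exact ⟨0, le_refl _, by omega, h1⟩
      · exact ⟨1, by omega, by omega, h1⟩
  obtain ⟨s', ht1, ht2, ht3⟩ : ∃ s', s' + 2 ≤ m ∧ m ≤ s' + 3 ∧ Occ τ (τ s') (s' + 1) m := by
    by_cases h01 : τ (m - 1) = τ (m - 2)
    · refine ⟨m - 2, by omega, by omega, m - 1, by omega, by omega, h01⟩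
    · refine ⟨m - 3, by omega, by omega, ?_⟩
      rcases bool_two (c := τ (m - 3)) h01 with h1 | h1
      · exact ⟨m - 1, by omega, by omega, h1⟩
      · exact ⟨m - 2, by omega, by omega, h1⟩
  have hg7 := (hfm 7 (by omega)).2
  refine ⟨{(s, g), (g + 2, s')}, {g}, ?_, ?_, ?_, ?_, ?_⟩
  · intro p hp
    rw [Finset.mem_insert, Finset.mem_singleton] at hp
    rcases hp with rfl | rfl
    · simp only; omega
    · simp only; omega
  · have hocc : ∀ c, Occ τ c g (g + 2) := by
      intro c
      rcases bool_two (c := c) hg7 with h1 | h1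
      · exact ⟨g, le_refl _, by omega, h1⟩
      · exact ⟨g + 1, by omega, by omega, h1⟩
    intro p hp q hq hne
    rw [Finset.mem_insert, Finset.mem_singleton] at hp hq
    rcases hp with rfl | rfl <;> rcases hq with rfl | rfl
    · exact absurd rfl hne
    · left; exact ⟨by simp, hocc⟩
    · right; exact ⟨by simp, hocc⟩
    · exact absurd rfl hne
  · intro p hp
    rw [Finset.mem_insert, Finset.mem_singleton] at hp
    rcases hp with rfl | rfl
    · right; left
      refine ⟨⟨hs3, ?_⟩, by simp, ?_, ?_⟩
      · intro q hq hq2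
        rw [Finset.mem_insert, Finset.mem_singleton] at hq
        rcases hq with rfl | rfl
        · simp only at hq2; omega
        · simp only at hq2; omega
      · intro c
        exact occ2_of_trans τ _ _ (f 3) (f 5) (hfm 3 (by omega)).2 (hfm 5 (by omega)).2
          (by simp only; omega) (by omega) (by simp only; omega) c
      · intro g' hg'
        rw [Finset.mem_singleton] at hg'
        simp only
        omega
    · right; right
      refine ⟨⟨g, by simp, rfl⟩, ⟨ht3, ?_⟩, ?_, ?_⟩
      · intro q hq hq2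
        rw [Finset.mem_insert, Finset.mem_singleton] at hq
        rcases hq with rfl | rfl
        · simp only at hq2; omega
        · simp only at hq2; omega
      · intro c
        exact occ2_of_trans τ _ _ (f 9) (f 11) (hfm 9 (by omega)).2 (hfm 11 (by omega)).2
          (by simp only; omega) (by omega) (by simp only; omega) c
      · rw [Finset.mem_singleton]
        simp only
        omega
  · intro g' hg'
    rw [Finset.mem_singleton] at hg'
    subst hg'
    exact ⟨⟨(s, g), by simp, rfl⟩, ⟨(g + 2, s'), by simp, rfl⟩, hg7⟩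
  · refine (Finset.card_le_card
      (t := Finset.range 4 ∪ Finset.Icc g (g + 2) ∪ Finset.Icc (m - 3) m) ?_).trans ?_
    · intro n hn
      rw [Finset.mem_filter, Finset.mem_range] at hn
      obtain ⟨hn1, hn2⟩ := hn
      rw [Finset.mem_union, Finset.mem_union, Finset.mem_range, Finset.mem_Icc, Finset.mem_Icc]
      by_contra hno
      push Not at hno
      obtain ⟨⟨c1, c2⟩, c3⟩ := hno
      apply hn2
      rcases Nat.lt_or_ge n g with h1 | h1
      · exact ⟨(s, g), by simp, by simp only; omega, by simp only; omega⟩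
      · have c4 := c2 h1
        refine ⟨(g + 2, s'), by simp, by simp only; omega, ?_⟩
        simp only
        by_contra hno2
        have := c3 (by omega)
        omega
    refine (Finset.card_union_le _ _).trans ?_
    have h1 := Finset.card_union_le (Finset.range 4) (Finset.Icc g (g + 2))
    rw [Finset.card_range, Nat.card_Icc] at h1
    rw [Nat.card_Icc]
    omega

theorem word (m : ℕ) (τ : ℕ → Bool) : ∃ pet gaps, PetSys m τ pet gaps := by
  rcases Nat.lt_or_ge (trF m τ).card 15 with h | h
  · exact ⟨petF m τ, ∅, word_few m τ (by omega)⟩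
  · exact word_many m τ h

end Pool.Agent.RFX

end

section

set_option autoImplicit false

/-!
# RFX/Fan : the fan construction (MP_72a26e_co, untouched singles)

`fill`: a finite set S in general position with a hull side (a, b) has a connected complex of
convex cells through all its points with |S| - 2 = sum (|t| - 2), which has every other hull side
of S as a side of a cell and in which only O(number of non-hull points) points are in two or more
cells.
-/

namespace Pool.Agent.RFX

/-- two sets separated by the line through a and b -/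
theorem inter_sep {s t : Finset Pt} (a b : Pt) (hab : a ≠ b)
    (hs : ∀ x ∈ s, 0 ≤ orient a b x) (ht : ∀ x ∈ t, orient a b x ≤ 0)
    (hs0 : ∀ x ∈ s, orient a b x = 0 → x = a ∨ x = b)
    (ht0 : ∀ x ∈ t, orient a b x = 0 → x = a ∨ x = b) :
    convexHull ℝ (s : Set Pt) ∩ convexHull ℝ (t : Set Pt) ⊆
      convexHull ℝ ((s ∩ t : Finset Pt) : Set Pt) := by
  classical
  rintro x ⟨hx1, hx2⟩
  have e1 : 0 ≤ orient a b x := orient_nonneg_of_mem_hull a b x _ (fun q hq => hs q hq) hx1
  have e2 : orient a b x ≤ 0 := orient_nonpos_of_mem_hull a b x _ (fun q hq => ht q hq) hx2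
  have e0 : orient a b x = 0 := le_antisymm e2 e1
  have h1 : HE (insert a (insert b s)) a b := by
    refine ⟨by simp, by simp, hab, ?_⟩
    intro c hc hca hcb
    simp only [Finset.mem_insert] at hc
    rcases hc with rfl | rfl | hc
    · exact absurd rfl hca
    · exact absurd rfl hcb
    · refine lt_of_le_of_ne (hs c hc) ?_
      intro h0
      rcases hs0 c hc h0.symm with h | h
      · exact hca h
      · exact hcb h
  have h2 : HE (insert a (insert b t)) b a := by
    refine ⟨by simp, by simp, hab.symm, ?_⟩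
    intro c hc hcb hca
    simp only [Finset.mem_insert] at hc
    rcases hc with rfl | rfl | hc
    · exact absurd rfl hca
    · exact absurd rfl hcb
    · rw [orient_swap]
      have : orient a b c ≠ 0 := by
        intro h0
        rcases ht0 c hc h0 with h | h
        · exact hca h
        · exact hcb h
      have := lt_of_le_of_ne (ht c hc) this
      linarith
  have g1 := hull_face h1 (s := s) (fun y hy => by simp [hy]) hx1 e0
  have g2 := hull_face h2 (s := t) (fun y hy => by simp [hy]) hx2 (by rw [orient_swap]; linarith)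
  rw [Finset.pair_comm b a] at g2
  have g3 := hull_pair_inter g1 g2
  exact convexHull_mono (by exact_mod_cast Finset.inter_subset_left) g3

theorem bef_trans {o c r s t : Pt} (hr : 0 < orient o c r) (hs : 0 < orient o c s)
    (ht : 0 < orient o c t) (h1 : 0 < orient o r s) (h2 : 0 < orient o s t) :
    0 < orient o r t := by
  have key : orient o r t * orient o c s = orient o r s * orient o c t
      + orient o s t * orient o c r := by
    unfold orient; ring
  have h3 : 0 < orient o r t * orient o c s := by
    rw [key]; positivity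
  exact (mul_pos_iff_of_pos_right hs).1 h3

theorem Adj.symm {s t : Finset Pt} (h : Adj s t) : Adj t s := by
  obtain ⟨a, b, h1, h2⟩ := h
  exact ⟨b, a, h2, h1⟩

theorem Conn.union {A B : Finset (Finset Pt)} (hA : Conn A) (hB : Conn B)
    (h : A.Nonempty → B.Nonempty → ∃ s ∈ A, ∃ t ∈ B, Adj s t) : Conn (A ∪ B) := by
  classical
  intro S hS hne hST
  by_cases h1 : (S ∩ A).Nonempty ∧ S ∩ A ≠ A
  · obtain ⟨s, hs, t, ht, hts, hadj⟩ := hA (S ∩ A) Finset.inter_subset_right h1.1 h1.2
    refine ⟨s, (Finset.mem_inter.1 hs).1, t, Finset.mem_union_left _ ht, ?_, hadj⟩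
    intro htS
    exact hts (Finset.mem_inter.2 ⟨htS, ht⟩)
  by_cases h2 : (S ∩ B).Nonempty ∧ S ∩ B ≠ B
  · obtain ⟨s, hs, t, ht, hts, hadj⟩ := hB (S ∩ B) Finset.inter_subset_right h2.1 h2.2
    refine ⟨s, (Finset.mem_inter.1 hs).1, t, Finset.mem_union_right _ ht, ?_, hadj⟩
    intro htS
    exact hts (Finset.mem_inter.2 ⟨htS, ht⟩)
  have c1 : (∀ x ∈ S, x ∉ A) ∨ A ⊆ S := by
    by_cases h3 : (S ∩ A).Nonempty
    · right
      have : S ∩ A = A := by
        by_contra h4
        exact h1 ⟨h3, h4⟩
      rw [← this]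
      exact Finset.inter_subset_left
    · left
      intro x hx hxA
      exact h3 ⟨x, Finset.mem_inter.2 ⟨hx, hxA⟩⟩
  have c2 : (∀ x ∈ S, x ∉ B) ∨ B ⊆ S := by
    by_cases h3 : (S ∩ B).Nonempty
    · right
      have : S ∩ B = B := by
        by_contra h4
        exact h2 ⟨h3, h4⟩
      rw [← this]
      exact Finset.inter_subset_left
    · left
      intro x hx hxA
      exact h3 ⟨x, Finset.mem_inter.2 ⟨hx, hxA⟩⟩
  obtain ⟨z, hz⟩ := hne
  rcases c1 with c1 | c1
  · rcases c2 with c2 | c2
    · rcases Finset.mem_union.1 (hS hz) with h3 | h3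
      · exact absurd h3 (c1 z hz)
      · exact absurd h3 (c2 z hz)
    · -- B ⊆ S, S ∩ A = ∅
      have hzB : z ∈ B := by
        rcases Finset.mem_union.1 (hS hz) with h3 | h3
        · exact absurd h3 (c1 z hz)
        · exact h3
      have hAne : A.Nonempty := by
        by_contra h4
        rw [Finset.not_nonempty_iff_eq_empty] at h4
        apply hST
        subst h4
        rw [Finset.empty_union] at hS ⊢
        exact Finset.Subset.antisymm hS c2
      obtain ⟨s, hs, t, ht, hadj⟩ := h hAne ⟨z, hzB⟩
      exact ⟨t, c2 ht, s, Finset.mem_union_left _ hs, fun h5 => c1 s h5 hs, hadj.symm⟩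
  · rcases c2 with c2 | c2
    · have hzA : z ∈ A := by
        rcases Finset.mem_union.1 (hS hz) with h3 | h3
        · exact h3
        · exact absurd h3 (c2 z hz)
      have hBne : B.Nonempty := by
        by_contra h4
        rw [Finset.not_nonempty_iff_eq_empty] at h4
        apply hST
        subst h4
        rw [Finset.union_empty] at hS ⊢
        exact Finset.Subset.antisymm hS c1
      obtain ⟨s, hs, t, ht, hadj⟩ := h ⟨z, hzA⟩ hBne
      exact ⟨s, c1 hs, t, Finset.mem_union_right _ ht, fun h5 => c2 t h5 ht, hadj⟩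
    · exact absurd (Finset.Subset.antisymm hS (Finset.union_subset c1 c2)) hST

theorem Conn_single (t : Finset Pt) : Conn {t} := by
  intro S hS hne hST
  rcases Finset.subset_singleton_iff.1 hS with h | h
  · subst h; simp at hne
  · exact absurd h hST

theorem Conn_empty : Conn ∅ := by
  intro S hS hne hST
  rw [Finset.subset_empty] at hS
  exact absurd hS hST

theorem Cx_empty : Cx ∅ :=
  ⟨fun t ht => by simp at ht, fun t ht => by simp at ht, fun t ht => by simp at ht,
    fun t ht => by simp at ht⟩

theorem Cx_single (t : Finset Pt) (h : CP t) (h3 : 3 ≤ t.card) : Cx {t} := by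
  refine ⟨?_, ?_, ?_, ?_⟩
  · intro s hs
    rw [Finset.mem_singleton] at hs
    subst hs; exact h
  · intro s hs
    rw [Finset.mem_singleton] at hs
    subst hs; exact h3
  · intro s hs r hr hsr
    rw [Finset.mem_singleton] at hs hr
    exact absurd (hs.trans hr.symm) hsr
  · intro s hs r hr hsr
    rw [Finset.mem_singleton] at hs hr
    exact absurd (hs.trans hr.symm) hsr

theorem Cx.union {A B : Finset (Finset Pt)} (hA : Cx A) (hB : Cx B)
    (h : ∀ s ∈ A, ∀ t ∈ B, convexHull ℝ (s : Set Pt) ∩ convexHull ℝ (t : Set Pt) ⊆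
      convexHull ℝ ((s ∩ t : Finset Pt) : Set Pt) ∧ (s ∩ t).card ≤ 2) : Cx (A ∪ B) := by
  refine ⟨?_, ?_, ?_, ?_⟩
  · intro t ht
    rcases Finset.mem_union.1 ht with ht | ht
    · exact hA.cp t ht
    · exact hB.cp t ht
  · intro t ht
    rcases Finset.mem_union.1 ht with ht | ht
    · exact hA.three t ht
    · exact hB.three t ht
  · intro s hs t ht hst
    rcases Finset.mem_union.1 hs with hs | hs
    · rcases Finset.mem_union.1 ht with ht | ht
      · exact hA.inter s hs t ht hst
      · exact (h s hs t ht).1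
    · rcases Finset.mem_union.1 ht with ht | ht
      · rw [Set.inter_comm, Finset.inter_comm]
        exact (h t ht s hs).1
      · exact hB.inter s hs t ht hst
  · intro s hs t ht hst
    rcases Finset.mem_union.1 hs with hs | hs
    · rcases Finset.mem_union.1 ht with ht | ht
      · exact hA.two s hs t ht hst
      · exact (h s hs t ht).2
    · rcases Finset.mem_union.1 ht with ht | ht
      · rw [Finset.inter_comm]
        exact (h t ht s hs).2
      · exact hB.two s hs t ht hst

/-- a ccw triangle -/
theorem tri_facts {u v q : Pt} (h : 0 < orient u v q) :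
    CP {u, v, q} ∧ ({u, v, q} : Finset Pt).card = 3 ∧ HE {u, v, q} u v ∧ HE {u, v, q} v q ∧
      HE {u, v, q} q u := by
  classical
  have huv : u ≠ v := by
    rintro rfl
    rw [orient_self1] at h; exact lt_irrefl _ h
  have huq : u ≠ q := by
    rintro rfl
    rw [orient_self2] at h; exact lt_irrefl _ h
  have hvq : v ≠ q := by
    rintro rfl
    rw [orient_self3] at h; exact lt_irrefl _ h
  refine ⟨⟨[u, v, q], ?_, ?_, ?_⟩, ?_, ?_, ?_, ?_⟩
  · simp [huv, huq, hvq]
  · simp
  · intro a b c hs
    have hl : [a, b, c].length = [u, v, q].length := rfl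
    have he := hs.eq_of_length hl
    simp only [List.cons.injEq, and_true] at he
    obtain ⟨rfl, rfl, rfl⟩ := he
    exact h
  · exact Finset.card_eq_three.2 ⟨u, v, q, huv, huq, hvq, rfl⟩
  · refine ⟨by simp, by simp, huv, ?_⟩
    intro c hc h1 h2
    simp only [Finset.mem_insert, Finset.mem_singleton] at hc
    rcases hc with rfl | rfl | rfl
    · exact absurd rfl h1
    · exact absurd rfl h2
    · exact h
  · refine ⟨by simp, by simp, hvq, ?_⟩
    intro c hc h1 h2
    simp only [Finset.mem_insert, Finset.mem_singleton] at hc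
    rcases hc with rfl | rfl | rfl
    · rw [orient_rot]; exact h
    · exact absurd rfl h1
    · exact absurd rfl h2
  · refine ⟨by simp, by simp, huq.symm, ?_⟩
    intro c hc h1 h2
    simp only [Finset.mem_insert, Finset.mem_singleton] at hc
    rcases hc with rfl | rfl | rfl
    · exact absurd rfl h2
    · rw [orient_rot']; exact h
    · exact absurd rfl h1

/-- the outer side met by the ray from o through p -/
theorem exists_exit (o c : Pt) (R : Finset Pt) (hg : Gen R) (hc : ∀ r ∈ R, 0 < orient o c r)
    (hn : ∀ r ∈ R, ∀ s ∈ R, r ≠ s → orient o r s ≠ 0) (p : Pt) (hp : p ∈ R) (s t : Pt)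
    (hs : s ∈ R) (ht : t ∈ R) (h1 : 0 < orient o s p) (h2 : 0 < orient o p t)
    (h3 : 0 < orient s t p) :
    ∃ u ∈ R, ∃ v ∈ R, 0 < orient o u p ∧ 0 < orient o p v ∧ HE R u v ∧ 0 < orient u v p ∧
      0 < orient o u v := by
  classical
  set K : Finset (Pt × Pt) := (R ×ˢ R).filter (fun e => 0 < orient o e.1 p ∧ 0 < orient o p e.2)
    with hK
  have memK : ∀ a b, (a, b) ∈ K ↔ a ∈ R ∧ b ∈ R ∧ 0 < orient o a p ∧ 0 < orient o p b := by
    intro a b
    rw [hK, Finset.mem_filter, Finset.mem_product]
    tauto
  have hst : (s, t) ∈ K := (memK s t).2 ⟨hs, ht, h1, h2⟩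
  obtain ⟨⟨u, v⟩, huv, hmax⟩ := Finset.exists_max_image K
    (fun e => orient e.1 e.2 p / orient e.1 e.2 o) ⟨_, hst⟩
  obtain ⟨hu, hv, hup, hpv⟩ := (memK u v).1 huv
  have hpos : ∀ a b, (a, b) ∈ K → 0 < orient a b o := by
    intro a b hab
    obtain ⟨ha, hb, hap, hpb⟩ := (memK a b).1 hab
    rw [orient_rot]
    exact bef_trans (hc a ha) (hc p hp) (hc b hb) hap hpb
  have huvo := hpos u v huv
  have hup0 : 0 < orient u v p := by
    have h4 := hmax (s, t) hst
    simp only at h4
    have h5 : 0 < orient s t p / orient s t o := div_pos h3 (hpos s t hst)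
    have h6 : 0 < orient u v p / orient u v o := lt_of_lt_of_le h5 h4
    have h7 := mul_pos h6 huvo
    rwa [div_mul_cancel₀ _ huvo.ne'] at h7
  have hune : u ≠ v := by
    rintro rfl
    rw [orient_self1] at huvo
    exact lt_irrefl _ huvo
  refine ⟨u, hu, v, hv, hup, hpv, ⟨hu, hv, hune, ?_⟩, hup0, by rw [← orient_rot]; exact huvo⟩
  intro r hr hru hrv
  have h4 := hg u hu v hv r hr hune (Ne.symm hru) (Ne.symm hrv)
  by_contra hneg
  have h5 : orient u v r < 0 := lt_of_le_of_ne (not_lt.1 hneg) h4
  have hrp : r ≠ p := by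
    rintro rfl
    linarith
  rcases lt_or_gt_of_ne (hn r hr p hp hrp) with h6 | h6
  · -- r after p
    have h7 : 0 < orient o p r := by rw [orient_swap']; linarith
    have h8 : (u, r) ∈ K := (memK u r).2 ⟨hu, hr, hup, h7⟩
    have h9 := hmax (u, r) h8
    simp only at h9
    rw [div_le_div_iff₀ (hpos u r h8) huvo] at h9
    have key : orient o u p * orient u r v = orient u v o * orient u r p
        - orient u v p * orient u r o := by
      unfold orient; ring
    have h10 : 0 < orient u r v := by rw [orient_swap']; linarith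
    have h11 := mul_pos hup h10
    rw [key] at h11
    linarith
  · have h8 : (r, v) ∈ K := (memK r v).2 ⟨hr, hv, h6, hpv⟩
    have h9 := hmax (r, v) h8
    simp only at h9
    rw [div_le_div_iff₀ (hpos r v h8) huvo] at h9
    have key : orient o p v * orient r v u = orient u v o * orient r v p
        - orient u v p * orient r v o := by
      unfold orient; ring
    have h10 : 0 < orient r v u := by
      have : orient r v u = - orient u v r := by unfold orient; ring
      rw [this]; linarith
    have h11 := mul_pos hpv h10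
    rw [key] at h11
    linarith

/-- points strictly inside a triangle o s t -/
noncomputable def inner (o : Pt) (R : Finset Pt) : Finset Pt :=
  open Classical in
  R.filter (fun p => ∃ s ∈ R, ∃ t ∈ R, 0 < orient o s p ∧ 0 < orient o p t ∧ 0 < orient s t p)

theorem mem_inner (o : Pt) (R : Finset Pt) (p : Pt) : p ∈ inner o R ↔
    p ∈ R ∧ ∃ s ∈ R, ∃ t ∈ R, 0 < orient o s p ∧ 0 < orient o p t ∧ 0 < orient s t p := by
  unfold inner
  rw [Finset.mem_filter]

theorem mem_multi (P : Finset Pt) (T : Finset (Finset Pt)) (v : Pt) : v ∈ multi P T ↔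
    v ∈ P ∧ ∃ s ∈ T, ∃ t ∈ T, s ≠ t ∧ v ∈ s ∧ v ∈ t := by
  unfold multi
  rw [Finset.mem_filter]

/-- the step of the fan induction -/
theorem fan_split (o c : Pt) (R : Finset Pt) (hg : Gen R) (hc : ∀ r ∈ R, 0 < orient o c r)
    (hn : ∀ r ∈ R, ∀ s ∈ R, r ≠ s → orient o r s ≠ 0) (hI : (inner o R).Nonempty) :
    ∃ u ∈ R, ∃ v ∈ R, ∃ q ∈ R, 0 < orient o u q ∧ 0 < orient o q v ∧ 0 < orient u v q ∧
      HE R u v ∧ 0 < orient o u v ∧
      (∀ r ∈ R, 0 < orient o r q → r ≠ u → 0 < orient u q r) ∧
      (∀ r ∈ R, 0 < orient o q r → r ≠ v → 0 < orient q v r) := by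
  classical
  obtain ⟨p, hp⟩ := hI
  rw [mem_inner] at hp
  obtain ⟨hp, s, hs, t, ht, h1, h2, h3⟩ := hp
  obtain ⟨u, hu, v, hv, hup, hpv, huv, huvp, houv⟩ :=
    exists_exit o c R hg hc hn p hp s t hs ht h1 h2 h3
  set Q := R.filter (fun r => 0 < orient o u r ∧ 0 < orient o r v) with hQ
  have hpQ : p ∈ Q := by
    rw [hQ, Finset.mem_filter]; exact ⟨hp, hup, hpv⟩
  obtain ⟨q, hq, hmin⟩ := Finset.exists_min_image Q (fun r => orient u v r) ⟨p, hpQ⟩
  have hq' := hq
  rw [hQ, Finset.mem_filter] at hq'
  obtain ⟨hqR, huq, hqv⟩ := hq'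
  have hqu : q ≠ u := by
    rintro rfl
    rw [orient_self3] at huq; exact lt_irrefl _ huq
  have hqv' : q ≠ v := by
    rintro rfl
    rw [orient_self3] at hqv; exact lt_irrefl _ hqv
  have hD : 0 < orient u v q := huv.2.2.2 q hqR hqu hqv'
  have huvo : 0 < orient u v o := by rw [orient_rot]; exact houv
  refine ⟨u, hu, v, hv, q, hqR, huq, hqv, hD, huv, houv, ?_, ?_⟩
  · intro r hr hrq hru
    have hrv : r ≠ v := by
      rintro rfl
      rw [orient_swap'] at hrq
      linarith
    have hrq' : r ≠ q := by
      rintro rfl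
      rw [orient_self3] at hrq; exact lt_irrefl _ hrq
    have hDr : 0 < orient u v r := huv.2.2.2 r hr hru hrv
    rcases lt_or_gt_of_ne (hn u hu r hr (Ne.symm hru)) with h4 | h4
    · -- r before u
      have key : orient u q r * orient u v o = orient o u q * orient u v r
          + (- orient o u r) * orient u v q := by
        unfold orient; ring
      have h5 : 0 < orient u q r * orient u v o := by
        rw [key]
        have := mul_pos huq hDr
        have := mul_pos (neg_pos.2 h4) hD
        linarith
      exact (mul_pos_iff_of_pos_right huvo).1 h5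
    · have hrQ : r ∈ Q := by
        rw [hQ, Finset.mem_filter]
        exact ⟨hr, h4, bef_trans (hc r hr) (hc q hqR) (hc v hv) hrq hqv⟩
      have hm := hmin r hrQ
      have h5 := hg u hu q hqR r hr (Ne.symm hqu) (Ne.symm hru) (Ne.symm hrq')
      by_contra hneg
      have h6 : orient u q r < 0 := lt_of_le_of_ne (not_lt.1 hneg) h5
      have key : (orient u v r - orient u v q) * orient o u q =
          (orient o q v + orient o u q) * orient u q r - orient u v q * orient o r q := by
        unfold orient; ring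
      have h7 : (orient o q v + orient o u q) * orient u q r < 0 :=
        mul_neg_of_pos_of_neg (by linarith) h6
      have h8 := mul_pos hD hrq
      have h9 : 0 ≤ (orient u v r - orient u v q) * orient o u q :=
        mul_nonneg (by linarith) huq.le
      linarith
  · intro r hr hqr hrv
    have hru : r ≠ u := by
      rintro rfl
      rw [orient_swap'] at hqr
      linarith
    have hrq' : r ≠ q := by
      rintro rfl
      rw [orient_self3] at hqr; exact lt_irrefl _ hqr
    have hDr : 0 < orient u v r := huv.2.2.2 r hr hru hrv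
    rcases lt_or_gt_of_ne (hn r hr v hv hrv) with h4 | h4
    · have key : orient q v r * orient u v o = (- orient o r v) * orient u v q
          + orient u v r * orient o q v := by
        unfold orient; ring
      have h5 : 0 < orient q v r * orient u v o := by
        rw [key]
        have := mul_pos hDr hqv
        have := mul_pos (neg_pos.2 h4) hD
        linarith
      exact (mul_pos_iff_of_pos_right huvo).1 h5
    · have hrQ : r ∈ Q := by
        rw [hQ, Finset.mem_filter]
        exact ⟨hr, bef_trans (hc u hu) (hc q hqR) (hc r hr) huq hqr, h4⟩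
      have hm := hmin r hrQ
      have h5 := hg q hqR v hv r hr hqv' (Ne.symm hrq') (Ne.symm hrv)
      by_contra hneg
      have h6 : orient q v r < 0 := lt_of_le_of_ne (not_lt.1 hneg) h5
      have key : (orient u v r - orient u v q) * orient o q v =
          (orient o q v + orient o u q) * orient q v r - orient u v q * orient o q r := by
        unfold orient; ring
      have h7 : (orient o q v + orient o u q) * orient q v r < 0 :=
        mul_neg_of_pos_of_neg (by linarith) h6
      have h8 := mul_pos hD hqr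
      have h9 : 0 ≤ (orient u v r - orient u v q) * orient o q v :=
        mul_nonneg (by linarith) hqv.le
      linarith

theorem fan (o c : Pt) (n : ℕ) : ∀ R : Finset Pt, R.card = n → 2 ≤ R.card → Gen R →
    (∀ r ∈ R, 0 < orient o c r) → (∀ r ∈ R, ∀ s ∈ R, r ≠ s → orient o r s ≠ 0) →
    ∃ T : Finset (Finset Pt), Cx T ∧ Conn T ∧ (∀ t ∈ T, t ⊆ R) ∧ (3 ≤ R.card → V T = R) ∧
      ∑ t ∈ T, (t.card - 2) + 2 = R.card ∧
      (3 ≤ R.card → ∀ u v, HE R u v → 0 < orient o u v → ∃ t ∈ T, HE t u v) ∧
      (multi R T).card ≤ 3 * (inner o R).card := by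
  classical
  induction n using Nat.strong_induction_on with
  | _ n ih =>
  intro R hRn h2 hg hc hn
  by_cases hI : (inner o R).Nonempty
  swap
  · -- no inner point: one cell
    rw [Finset.not_nonempty_iff_eq_empty] at hI
    by_cases h3 : 3 ≤ R.card
    swap
    · refine ⟨∅, Cx_empty, Conn_empty, by simp, fun h => absurd h h3, ?_,
        fun h => absurd h h3, ?_⟩
      · rw [Finset.sum_empty]; omega
      · have : multi R ∅ = ∅ := by
          ext x
          rw [mem_multi]
          simp
        rw [this]; simp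
    have hcp : CP R := by
      obtain ⟨l, l1, l2, l3⟩ := exists_sorted (fun a b => 0 < orient o a b) R
        (fun a _ h => by rw [orient_self3] at h; exact lt_irrefl _ h)
        (fun a ha b hb hab => by
          rcases lt_or_gt_of_ne (hn a ha b hb hab) with h | h
          · right
            rw [orient_swap']; linarith
          · exact Or.inl h)
        (fun a ha b hb d hd h1 h2 => bef_trans (hc a ha) (hc b hb) (hc d hd) h1 h2)
      refine ⟨l, l1, l2, ?_⟩
      intro a b d hs
      have hm : ∀ x ∈ l, x ∈ R := by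
        intro x hx
        rw [← l2, List.mem_toFinset]; exact hx
      have ha : a ∈ R := hm a (hs.subset (by simp))
      have hb : b ∈ R := hm b (hs.subset (by simp))
      have hd : d ∈ R := hm d (hs.subset (by simp))
      have hp := l3.sublist hs
      simp only [List.pairwise_cons, List.mem_cons, List.not_mem_nil, or_false,
        forall_eq_or_imp, forall_eq] at hp
      obtain ⟨⟨hab, had⟩, hbd, _⟩ := hp
      have hnd := l1.sublist hs
      simp only [List.nodup_cons, List.mem_cons, List.not_mem_nil, or_false, not_or] at hnd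
      have h5 := hg a ha b hb d hd hnd.1.1 hnd.1.2 hnd.2.1
      by_contra hneg
      have h6 : orient a b d < 0 := lt_of_le_of_ne (not_lt.1 hneg) h5
      have h7 : b ∈ inner o R := by
        rw [mem_inner]
        refine ⟨hb, a, ha, d, hd, hab, hbd, ?_⟩
        rw [orient_swap']; linarith
      rw [hI] at h7
      simp at h7
    refine ⟨{R}, Cx_single R hcp h3, Conn_single R, ?_, ?_, ?_, ?_, ?_⟩
    · intro t ht
      rw [Finset.mem_singleton] at ht
      subst ht; exact Finset.Subset.refl _
    · intro _
      unfold V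
      simp
    · rw [Finset.sum_singleton]; omega
    · intro _ u v huv _
      exact ⟨R, Finset.mem_singleton_self R, huv⟩
    · have : multi R {R} = ∅ := by
        ext x
        rw [mem_multi]
        constructor
        · rintro ⟨_, s, hs, t, ht, hst, _⟩
          rw [Finset.mem_singleton] at hs ht
          exact absurd (hs.trans ht.symm) hst
        · intro h
          simp at h
      rw [this]; simp
  obtain ⟨u, hu, v, hv, q, hq, huq, hqv, hD, huv, houv, key1, key2⟩ := fan_split o c R hg hc hn hI
  have hqu : q ≠ u := by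
    rintro rfl
    rw [orient_self3] at huq; exact lt_irrefl _ huq
  have hqv' : q ≠ v := by
    rintro rfl
    rw [orient_self3] at hqv; exact lt_irrefl _ hqv
  have huvne : u ≠ v := huv.2.2.1
  set R1 := R.filter (fun r => r = q ∨ 0 < orient o r q) with hR1
  set R2 := R.filter (fun r => r = q ∨ 0 < orient o q r) with hR2
  have m1 : ∀ r, r ∈ R1 ↔ r ∈ R ∧ (r = q ∨ 0 < orient o r q) := by
    intro r; rw [hR1, Finset.mem_filter]
  have m2 : ∀ r, r ∈ R2 ↔ r ∈ R ∧ (r = q ∨ 0 < orient o q r) := by
    intro r; rw [hR2, Finset.mem_filter]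
  have s1 : R1 ⊆ R := Finset.filter_subset _ _
  have s2 : R2 ⊆ R := Finset.filter_subset _ _
  have hqq : ¬ 0 < orient o q q := by rw [orient_self3]; exact lt_irrefl _
  have anti : ∀ a b, 0 < orient o a b → ¬ 0 < orient o b a := by
    intro a b h h'
    rw [orient_swap'] at h'
    linarith
  have q1 : q ∈ R1 := (m1 q).2 ⟨hq, Or.inl rfl⟩
  have q2 : q ∈ R2 := (m2 q).2 ⟨hq, Or.inl rfl⟩
  have u1 : u ∈ R1 := (m1 u).2 ⟨hu, Or.inr huq⟩
  have v2 : v ∈ R2 := (m2 v).2 ⟨hv, Or.inr hqv⟩
  have v1 : v ∉ R1 := by
    intro h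
    rcases ((m1 v).1 h).2 with h | h
    · exact hqv' h.symm
    · exact anti _ _ hqv h
  have u2 : u ∉ R2 := by
    intro h
    rcases ((m2 u).1 h).2 with h | h
    · exact hqu h.symm
    · exact anti _ _ huq h
  have hun : R1 ∪ R2 = R := by
    apply Finset.Subset.antisymm (Finset.union_subset s1 s2)
    intro r hr
    rw [Finset.mem_union, m1, m2]
    by_cases h : r = q
    · exact Or.inl ⟨hr, Or.inl h⟩
    · rcases lt_or_gt_of_ne (hn r hr q hq h) with h' | h'
      · right
        refine ⟨hr, Or.inr ?_⟩
        rw [orient_swap']; linarith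
      · exact Or.inl ⟨hr, Or.inr h'⟩
  have hint : R1 ∩ R2 = {q} := by
    ext r
    rw [Finset.mem_inter, m1, m2, Finset.mem_singleton]
    constructor
    · rintro ⟨⟨_, h⟩, _, h'⟩
      rcases h with h | h
      · exact h
      · rcases h' with h' | h'
        · exact h'
        · exact absurd h (anti _ _ h')
    · rintro rfl
      exact ⟨⟨hq, Or.inl rfl⟩, hq, Or.inl rfl⟩
  have hcard : R1.card + R2.card = R.card + 1 := by
    have := Finset.card_union_add_card_inter R1 R2
    rw [hun, hint, Finset.card_singleton] at this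
    omega
  have c1 : R1.card < n := by
    rw [← hRn]
    apply Finset.card_lt_card
    refine ⟨s1, ?_⟩
    intro h
    exact v1 (h hv)
  have c2 : R2.card < n := by
    rw [← hRn]
    apply Finset.card_lt_card
    refine ⟨s2, ?_⟩
    intro h
    exact u2 (h hu)
  have d1 : 2 ≤ R1.card := by
    have h5 : ({u, q} : Finset Pt) ⊆ R1 := by
      intro x hx
      simp only [Finset.mem_insert, Finset.mem_singleton] at hx
      rcases hx with rfl | rfl
      · exact u1
      · exact q1
    have h6 := Finset.card_le_card h5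
    rwa [Finset.card_pair (Ne.symm hqu)] at h6
  have d2 : 2 ≤ R2.card := by
    have h5 : ({q, v} : Finset Pt) ⊆ R2 := by
      intro x hx
      simp only [Finset.mem_insert, Finset.mem_singleton] at hx
      rcases hx with rfl | rfl
      · exact q2
      · exact v2
    have h6 := Finset.card_le_card h5
    rwa [Finset.card_pair hqv'] at h6
  obtain ⟨T1, a1, a2, a3, a4, a5, a6, a7⟩ := ih R1.card c1 R1 rfl d1 (hg.mono s1)
    (fun r hr => hc r (s1 hr)) (fun r hr s hs => hn r (s1 hr) s (s1 hs))
  obtain ⟨T2, b1, b2, b3, b4, b5, b6, b7⟩ := ih R2.card c2 R2 rfl d2 (hg.mono s2)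
    (fun r hr => hc r (s2 hr)) (fun r hr s hs => hn r (s2 hr) s (s2 hs))
  obtain ⟨tcp, tcard, tuv, tvq, tqu⟩ := tri_facts hD
  set tri : Finset Pt := {u, v, q} with htri
  have mt : ∀ x, x ∈ tri ↔ x = u ∨ x = v ∨ x = q := by
    intro x; rw [htri]; simp
  -- sides u q and q v
  have HE1 : HE R1 u q := by
    refine ⟨u1, q1, Ne.symm hqu, ?_⟩
    intro r hr hru hrq
    have hr' := (m1 r).1 hr
    rcases hr'.2 with h | h
    · exact absurd h hrq
    · exact key1 r hr'.1 h hru
  have HE2 : HE R2 q v := by
    refine ⟨q2, v2, hqv', ?_⟩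
    intro r hr hrq hrv
    have hr' := (m2 r).1 hr
    rcases hr'.2 with h | h
    · exact absurd h hrq
    · exact key2 r hr'.1 h hrv
  have hqo : q ≠ o := by
    rintro rfl
    rw [orient_self2] at huq; exact lt_irrefl _ huq
  -- intersections
  have x12 : ∀ s ∈ T1, ∀ t ∈ T2, convexHull ℝ (s : Set Pt) ∩ convexHull ℝ (t : Set Pt) ⊆
      convexHull ℝ ((s ∩ t : Finset Pt) : Set Pt) ∧ (s ∩ t).card ≤ 2 := by
    intro s hs t ht
    constructor
    · apply inter_sep q o hqo
      · intro x hx
        rcases ((m1 x).1 (a3 s hs hx)).2 with h | h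
        · subst h; rw [orient_self2]
        · have : orient q o x = orient o x q := by unfold orient; ring
          rw [this]; exact h.le
      · intro x hx
        rcases ((m2 x).1 (b3 t ht hx)).2 with h | h
        · subst h; rw [orient_self2]
        · have : orient q o x = - orient o q x := by unfold orient; ring
          rw [this]; linarith
      · intro x hx h0
        rcases ((m1 x).1 (a3 s hs hx)).2 with h | h
        · exact Or.inl h
        · have : orient q o x = orient o x q := by unfold orient; ring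
          rw [this] at h0; linarith
      · intro x hx h0
        rcases ((m2 x).1 (b3 t ht hx)).2 with h | h
        · exact Or.inl h
        · have : orient q o x = - orient o q x := by unfold orient; ring
          rw [this] at h0; linarith
    · have h5 : s ∩ t ⊆ {q} := by
        rw [← hint]
        exact Finset.inter_subset_inter (a3 s hs) (b3 t ht)
      have h6 := Finset.card_le_card h5
      rw [Finset.card_singleton] at h6
      omega
  have x1t : ∀ s ∈ T1, ∀ t ∈ ({tri} : Finset (Finset Pt)),
      convexHull ℝ (s : Set Pt) ∩ convexHull ℝ (t : Set Pt) ⊆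
      convexHull ℝ ((s ∩ t : Finset Pt) : Set Pt) ∧ (s ∩ t).card ≤ 2 := by
    intro s hs t ht
    rw [Finset.mem_singleton] at ht
    subst ht
    constructor
    · apply inter_sep u q (Ne.symm hqu)
      · intro x hx
        exact HE1.nonneg x (a3 s hs hx)
      · intro x hx
        rcases (mt x).1 hx with rfl | rfl | rfl
        · rw [orient_self2]
        · rw [orient_swap']; linarith
        · rw [orient_self3]
      · intro x hx h0
        by_contra hno
        push Not at hno
        have := HE1.2.2.2 x (a3 s hs hx) hno.1 hno.2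
        linarith
      · intro x hx h0
        rcases (mt x).1 hx with rfl | rfl | rfl
        · exact Or.inl rfl
        · rw [orient_swap'] at h0
          linarith
        · exact Or.inr rfl
    · have h5 : s ∩ tri ⊆ {u, q} := by
        intro x hx
        rw [Finset.mem_inter] at hx
        simp only [Finset.mem_insert, Finset.mem_singleton]
        rcases (mt x).1 hx.2 with rfl | rfl | rfl
        · exact Or.inl rfl
        · exact absurd (a3 s hs hx.1) v1
        · exact Or.inr rfl
      exact (Finset.card_le_card h5).trans Finset.card_le_two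
  have xt2 : ∀ s ∈ ({tri} : Finset (Finset Pt)), ∀ t ∈ T2,
      convexHull ℝ (s : Set Pt) ∩ convexHull ℝ (t : Set Pt) ⊆
      convexHull ℝ ((s ∩ t : Finset Pt) : Set Pt) ∧ (s ∩ t).card ≤ 2 := by
    intro s hs t ht
    rw [Finset.mem_singleton] at hs
    subst hs
    constructor
    · rw [Set.inter_comm, Finset.inter_comm]
      apply inter_sep q v hqv'
      · intro x hx
        exact HE2.nonneg x (b3 t ht hx)
      · intro x hx
        rcases (mt x).1 hx with rfl | rfl | rfl
        · have : orient q v x = - orient x v q := by unfold orient; ring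
          rw [this]; linarith
        · rw [orient_self3]
        · rw [orient_self2]
      · intro x hx h0
        by_contra hno
        push Not at hno
        have := HE2.2.2.2 x (b3 t ht hx) hno.1 hno.2
        linarith
      · intro x hx h0
        rcases (mt x).1 hx with rfl | rfl | rfl
        · have : orient q v x = - orient x v q := by unfold orient; ring
          rw [this] at h0
          linarith
        · exact Or.inr rfl
        · exact Or.inl rfl
    · have h5 : tri ∩ t ⊆ {v, q} := by
        intro x hx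
        rw [Finset.mem_inter] at hx
        simp only [Finset.mem_insert, Finset.mem_singleton]
        rcases (mt x).1 hx.1 with rfl | rfl | rfl
        · exact absurd (b3 t ht hx.2) u2
        · exact Or.inl rfl
        · exact Or.inr rfl
      exact (Finset.card_le_card h5).trans Finset.card_le_two
  -- nonempty families have the side
  have ne1 : T1.Nonempty → 3 ≤ R1.card := by
    rintro ⟨t, ht⟩
    have h5 := a1.three t ht
    have h6 := Finset.card_le_card (a3 t ht)
    omega
  have ne2 : T2.Nonempty → 3 ≤ R2.card := by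
    rintro ⟨t, ht⟩
    have h5 := b1.three t ht
    have h6 := Finset.card_le_card (b3 t ht)
    omega
  have cx1 : Cx (T1 ∪ {tri}) := a1.union (Cx_single tri tcp (by omega)) x1t
  have cx : Cx (T1 ∪ {tri} ∪ T2) := by
    apply cx1.union b1
    intro s hs t ht
    rcases Finset.mem_union.1 hs with hs | hs
    · exact x12 s hs t ht
    · exact xt2 s hs t ht
  have cn1 : Conn (T1 ∪ {tri}) := by
    apply a2.union (Conn_single tri)
    intro h1 _
    obtain ⟨t, ht, hte⟩ := a6 (ne1 h1) u q HE1 huq
    exact ⟨t, ht, tri, Finset.mem_singleton_self tri, u, q, hte, tqu⟩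
  have cn : Conn (T1 ∪ {tri} ∪ T2) := by
    apply cn1.union b2
    intro _ h1
    obtain ⟨t, ht, hte⟩ := b6 (ne2 h1) q v HE2 hqv
    exact ⟨tri, Finset.mem_union_right _ (Finset.mem_singleton_self tri), t, ht, v, q, tvq, hte⟩
  have trin1 : tri ∉ T1 := by
    intro h
    exact v1 (a3 tri h ((mt v).2 (Or.inr (Or.inl rfl))))
  have trin2 : tri ∉ T2 := by
    intro h
    exact u2 (b3 tri h ((mt u).2 (Or.inl rfl)))
  have dis1 : Disjoint T1 {tri} := by
    rw [Finset.disjoint_singleton_right]; exact trin1
  have dis2 : Disjoint (T1 ∪ {tri}) T2 := by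
    rw [Finset.disjoint_left]
    intro t ht ht2
    rcases Finset.mem_union.1 ht with ht | ht
    · have h5 := a1.three t ht
      have h6 : t ⊆ {q} := by
        rw [← hint]
        exact Finset.subset_inter (a3 t ht) (b3 t ht2)
      have h7 := Finset.card_le_card h6
      rw [Finset.card_singleton] at h7
      omega
    · rw [Finset.mem_singleton] at ht
      subst ht
      exact trin2 ht2
  have hV1 : ∀ x ∈ R1, x = u ∨ x = q ∨ x ∈ V T1 := by
    intro x hx
    by_cases h3 : 3 ≤ R1.card
    · rw [a4 h3]; exact Or.inr (Or.inr hx)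
    · have h5 : ({u, q} : Finset Pt) = R1 := by
        apply Finset.eq_of_subset_of_card_le
        · intro y hy
          simp only [Finset.mem_insert, Finset.mem_singleton] at hy
          rcases hy with rfl | rfl
          · exact u1
          · exact q1
        · rw [Finset.card_pair (Ne.symm hqu)]; omega
      rw [← h5] at hx
      simp only [Finset.mem_insert, Finset.mem_singleton] at hx
      rcases hx with hx | hx
      · exact Or.inl hx
      · exact Or.inr (Or.inl hx)
  have hV2 : ∀ x ∈ R2, x = v ∨ x = q ∨ x ∈ V T2 := by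
    intro x hx
    by_cases h3 : 3 ≤ R2.card
    · rw [b4 h3]; exact Or.inr (Or.inr hx)
    · have h5 : ({v, q} : Finset Pt) = R2 := by
        apply Finset.eq_of_subset_of_card_le
        · intro y hy
          simp only [Finset.mem_insert, Finset.mem_singleton] at hy
          rcases hy with rfl | rfl
          · exact v2
          · exact q2
        · rw [Finset.card_pair (Ne.symm hqv')]; omega
      rw [← h5] at hx
      simp only [Finset.mem_insert, Finset.mem_singleton] at hx
      rcases hx with hx | hx
      · exact Or.inl hx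
      · exact Or.inr (Or.inl hx)
  refine ⟨T1 ∪ {tri} ∪ T2, cx, cn, ?_, ?_, ?_, ?_, ?_⟩
  · intro t ht
    rcases Finset.mem_union.1 ht with ht | ht
    · rcases Finset.mem_union.1 ht with ht | ht
      · exact (a3 t ht).trans s1
      · rw [Finset.mem_singleton] at ht
        subst ht
        intro x hx
        rcases (mt x).1 hx with rfl | rfl | rfl
        · exact hu
        · exact hv
        · exact hq
    · exact (b3 t ht).trans s2
  · intro _
    apply Finset.Subset.antisymm
    · intro x hx
      rw [mem_V] at hx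
      obtain ⟨t, ht, hxt⟩ := hx
      rcases Finset.mem_union.1 ht with ht | ht
      · rcases Finset.mem_union.1 ht with ht | ht
        · exact s1 (a3 t ht hxt)
        · rw [Finset.mem_singleton] at ht
          subst ht
          rcases (mt x).1 hxt with rfl | rfl | rfl
          · exact hu
          · exact hv
          · exact hq
      · exact s2 (b3 t ht hxt)
    · intro x hx
      rw [mem_V]
      have htri' : tri ∈ T1 ∪ {tri} ∪ T2 := by simp
      rw [← hun, Finset.mem_union] at hx
      rcases hx with hx | hx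
      · rcases hV1 x hx with h | h | h
        · exact ⟨tri, htri', (mt x).2 (Or.inl h)⟩
        · exact ⟨tri, htri', (mt x).2 (Or.inr (Or.inr h))⟩
        · obtain ⟨t, ht, hxt⟩ := (mem_V T1 x).1 h
          exact ⟨t, Finset.mem_union_left _ (Finset.mem_union_left _ ht), hxt⟩
      · rcases hV2 x hx with h | h | h
        · exact ⟨tri, htri', (mt x).2 (Or.inr (Or.inl h))⟩
        · exact ⟨tri, htri', (mt x).2 (Or.inr (Or.inr h))⟩
        · obtain ⟨t, ht, hxt⟩ := (mem_V T2 x).1 h
          exact ⟨t, Finset.mem_union_right _ ht, hxt⟩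
  · rw [Finset.sum_union dis2, Finset.sum_union dis1, Finset.sum_singleton, tcard]
    omega
  · intro _ x y hxy hoxy
    have huvo : 0 < orient u v o := by rw [orient_rot]; exact houv
    have hxyo : 0 < orient x y o := by rw [orient_rot]; exact hoxy
    have wt : orient u v q * orient x y o + orient o q v * orient x y u
        + orient o u q * orient x y v = orient o u v * orient x y q := by
      unfold orient; ring
    have hfq : 0 < orient x y q := by
      have h5 := mul_pos hD hxyo
      have h6 := mul_nonneg hqv.le (hxy.nonneg u hu)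
      have h7 := mul_nonneg huq.le (hxy.nonneg v hv)
      have h8 : 0 < orient o u v * orient x y q := by rw [← wt]; linarith
      exact (mul_pos_iff_of_pos_left houv).1 h8
    have hxq : x ≠ q := by
      rintro rfl
      rw [orient_self2] at hfq; exact lt_irrefl _ hfq
    have hyq : y ≠ q := by
      rintro rfl
      rw [orient_self3] at hfq; exact lt_irrefl _ hfq
    rcases lt_or_gt_of_ne (hn x hxy.1 q hq hxq) with h5 | h5
    · -- x after q
      have hqx : 0 < orient o q x := by rw [orient_swap']; linarith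
      have hqy : 0 < orient o q y := bef_trans (hc q hq) (hc x hxy.1) (hc y hxy.2.1) hqx hoxy
      have x2 : x ∈ R2 := (m2 x).2 ⟨hxy.1, Or.inr hqx⟩
      have y2 : y ∈ R2 := (m2 y).2 ⟨hxy.2.1, Or.inr hqy⟩
      have h3 : 3 ≤ R2.card := by
        have h6 : ({q, x, y} : Finset Pt) ⊆ R2 := by
          intro z hz
          simp only [Finset.mem_insert, Finset.mem_singleton] at hz
          rcases hz with rfl | rfl | rfl
          · exact q2
          · exact x2
          · exact y2
        have h7 := Finset.card_le_card h6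
        rwa [Finset.card_eq_three.2 ⟨q, x, y, hxq.symm, hyq.symm, hxy.2.2.1, rfl⟩] at h7
      obtain ⟨t, ht, hte⟩ := b6 h3 x y (hxy.sub s2 x2 y2) hoxy
      exact ⟨t, Finset.mem_union_right _ ht, hte⟩
    · rcases lt_or_gt_of_ne (hn y hxy.2.1 q hq hyq) with h6 | h6
      · -- y after q : crossing
        have hqy : 0 < orient o q y := by rw [orient_swap']; linarith
        have I1 : orient o q v * orient x y u + orient o u q * orient x y v =
            orient u v o * orient x y q - orient u v q * orient x y o := by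
          unfold orient; ring
        have I2 : orient o q y * orient u v x + orient o x q * orient u v y =
            orient x y o * orient u v q - orient x y q * orient u v o := by
          unfold orient; ring
        have g1 := mul_nonneg hqv.le (hxy.nonneg u hu)
        have g2 := mul_nonneg huq.le (hxy.nonneg v hv)
        have g3 := mul_nonneg hqy.le (huv.nonneg x hxy.1)
        have g4 := mul_nonneg h5.le (huv.nonneg y hxy.2.1)
        have z1 : orient o q v * orient x y u = 0 := by linarith
        have z2 : orient o u q * orient x y v = 0 := by linarith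
        have z1' : orient x y u = 0 := by
          rcases mul_eq_zero.1 z1 with h | h
          · linarith
          · exact h
        have z2' : orient x y v = 0 := by
          rcases mul_eq_zero.1 z2 with h | h
          · linarith
          · exact h
        have hux : u = x := by
          by_contra hne
          have huy : u ≠ y := by
            rintro rfl
            exact anti _ _ hqy huq
          have := hxy.2.2.2 u hu hne huy
          linarith
        have hvy : v = y := by
          by_contra hne
          have hvx : v ≠ x := by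
            rintro rfl
            exact anti _ _ hqv h5
          have := hxy.2.2.2 v hv hvx hne
          linarith
        rw [← hux, ← hvy]
        exact ⟨tri, by simp, tuv⟩
      · have x1 : x ∈ R1 := (m1 x).2 ⟨hxy.1, Or.inr h5⟩
        have y1 : y ∈ R1 := (m1 y).2 ⟨hxy.2.1, Or.inr h6⟩
        have h3 : 3 ≤ R1.card := by
          have h6 : ({q, x, y} : Finset Pt) ⊆ R1 := by
            intro z hz
            simp only [Finset.mem_insert, Finset.mem_singleton] at hz
            rcases hz with rfl | rfl | rfl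
            · exact q1
            · exact x1
            · exact y1
          have h7 := Finset.card_le_card h6
          rwa [Finset.card_eq_three.2 ⟨q, x, y, hxq.symm, hyq.symm, hxy.2.2.1, rfl⟩] at h7
        obtain ⟨t, ht, hte⟩ := a6 h3 x y (hxy.sub s1 x1 y1) hoxy
        exact ⟨t, Finset.mem_union_left _ (Finset.mem_union_left _ ht), hte⟩
  · -- the count
    have i1 : q ∉ inner o R1 := by
      intro h
      rw [mem_inner] at h
      obtain ⟨_, s, hs, t, ht, h1, h2, h3⟩ := h
      rcases ((m1 t).1 ht).2 with h | h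
      · subst h; exact hqq h2
      · exact anti _ _ h2 h
    have i2 : q ∉ inner o R2 := by
      intro h
      rw [mem_inner] at h
      obtain ⟨_, s, hs, t, ht, h1, h2, h3⟩ := h
      rcases ((m2 s).1 hs).2 with h | h
      · subst h; exact hqq h1
      · exact anti _ _ h1 h
    have j1 : ∀ x ∈ inner o R1, x ∈ inner o R ∧ x ∈ R1 := by
      intro x hx
      rw [mem_inner] at hx
      obtain ⟨hx, s, hs, t, ht, h1, h2, h3⟩ := hx
      exact ⟨(mem_inner o R x).2 ⟨s1 hx, s, s1 hs, t, s1 ht, h1, h2, h3⟩, hx⟩
    have j2 : ∀ x ∈ inner o R2, x ∈ inner o R ∧ x ∈ R2 := by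
      intro x hx
      rw [mem_inner] at hx
      obtain ⟨hx, s, hs, t, ht, h1, h2, h3⟩ := hx
      exact ⟨(mem_inner o R x).2 ⟨s2 hx, s, s2 hs, t, s2 ht, h1, h2, h3⟩, hx⟩
    have jq : q ∈ inner o R := (mem_inner o R q).2 ⟨hq, u, hu, v, hv, huq, hqv, hD⟩
    have hdis : Disjoint (inner o R1) (inner o R2) := by
      rw [Finset.disjoint_left]
      intro x hx1 hx2
      have h5 : x ∈ R1 ∩ R2 := Finset.mem_inter.2 ⟨(j1 x hx1).2, (j2 x hx2).2⟩
      rw [hint, Finset.mem_singleton] at h5
      subst h5
      exact i1 hx1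
    have hsub : insert q (inner o R1 ∪ inner o R2) ⊆ inner o R := by
      intro x hx
      rw [Finset.mem_insert, Finset.mem_union] at hx
      rcases hx with rfl | hx | hx
      · exact jq
      · exact (j1 x hx).1
      · exact (j2 x hx).1
    have hcI := Finset.card_le_card hsub
    rw [Finset.card_insert_of_notMem (by rw [Finset.mem_union]; exact fun h => h.elim i1 i2),
      Finset.card_union_of_disjoint hdis] at hcI
    have hm : multi R (T1 ∪ {tri} ∪ T2) ⊆ multi R1 T1 ∪ multi R2 T2 ∪ {u, v, q} := by
      intro x hx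
      rw [mem_multi] at hx
      obtain ⟨hxR, s, hs, t, ht, hst, hxs, hxt⟩ := hx
      rw [Finset.mem_union, Finset.mem_union, mem_multi, mem_multi]
      have mt' : x ∈ tri → x ∈ ({u, v, q} : Finset Pt) := fun h => h
      rcases Finset.mem_union.1 hs with hs | hs
      · rcases Finset.mem_union.1 hs with hs | hs
        · rcases Finset.mem_union.1 ht with ht | ht
          · rcases Finset.mem_union.1 ht with ht | ht
            · exact Or.inl (Or.inl ⟨a3 s hs hxs, s, hs, t, ht, hst, hxs, hxt⟩)
            · rw [Finset.mem_singleton] at ht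
              subst ht
              exact Or.inr (mt' hxt)
          · right
            have h5 : x ∈ R1 ∩ R2 := Finset.mem_inter.2 ⟨a3 s hs hxs, b3 t ht hxt⟩
            rw [hint, Finset.mem_singleton] at h5
            subst h5; simp
        · rw [Finset.mem_singleton] at hs
          subst hs
          exact Or.inr (mt' hxs)
      · rcases Finset.mem_union.1 ht with ht | ht
        · rcases Finset.mem_union.1 ht with ht | ht
          · right
            have h5 : x ∈ R1 ∩ R2 := Finset.mem_inter.2 ⟨a3 t ht hxt, b3 s hs hxs⟩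
            rw [hint, Finset.mem_singleton] at h5
            subst h5; simp
          · rw [Finset.mem_singleton] at ht
            subst ht
            exact Or.inr (mt' hxt)
        · exact Or.inl (Or.inr ⟨b3 s hs hxs, s, hs, t, ht, hst, hxs, hxt⟩)
    have hm' := Finset.card_le_card hm
    have hm2 := Finset.card_union_le (multi R1 T1 ∪ multi R2 T2) ({u, v, q} : Finset Pt)
    have hm3 := Finset.card_union_le (multi R1 T1) (multi R2 T2)
    have hm4 : ({u, v, q} : Finset Pt).card ≤ 3 := Finset.card_le_three
    omega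

end Pool.Agent.RFX

end
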