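import Mathlib
import Pool.Agent.RFM.P03
import Pool.Agent.RFM.P04

set_option autoImplicit false

/-!
# RFM/P07 (MP_72a26e_co): the files RFX/Corner, RFX/Full, RFX/Reach, RFX/Face, RFX/Tree, merged to save build time
-/

section

set_option autoImplicit false

/-!
# RFX/Corner : the corners of a complex at one point, generic direction (MP_72a26e_co)

`corner`: a set S of cells at v which is closed under passing through sides at v contains the cell
just below v, or v is on the lower hull, or v is the last point of P.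
-/

namespace Pool.Agent.RFX

theorem CP.next {t : Finset Pt} (h : CP t) (h3 : 3 ≤ t.card) {v : Pt} (hv : v ∈ t) :
    ∃ w, HE t v w := by
  classical
  obtain ⟨l, h1, h2, h4⟩ := h
  have hlen : l.length = t.card := CP.length h1 h2
  have hvl : v ∈ l := by rw [← h2] at hv; simpa using hv
  obtain ⟨w, hw⟩ := mem_cyc_of_mem l v hvl
  refine ⟨w, ?_⟩
  have := (h4.mem_cyc_iff h1 (by omega) v w).1 hw
  rwa [h2] at this

theorem CP.prev {t : Finset Pt} (h : CP t) (h3 : 3 ≤ t.card) {v : Pt} (hv : v ∈ t) :
    ∃ a, HE t a v := by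
  classical
  choose f hf using fun (x : t) => CP.next h h3 x.2
  have hinj : Function.Injective (fun x : t => (⟨f x, (hf x).2.1⟩ : t)) := by
    intro x y hxy
    simp only [Subtype.mk.injEq] at hxy
    have h1 := hf x
    have h2 := hf y
    rw [← hxy] at h2
    exact Subtype.ext (h1.unique_in h2)
  have hsurj := Finite.surjective_of_injective hinj
  obtain ⟨x, hx⟩ := hsurj ⟨v, hv⟩
  simp only [Subtype.mk.injEq] at hx
  refine ⟨x, ?_⟩
  have := hf x
  rwa [hx] at this

/-- slope of the direction from v to w with respect to u -/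
noncomputable def slp (u v w : Pt) : ℝ :=
  (u.1 * (w.2 - v.2) - u.2 * (w.1 - v.1)) / (Lf u w - Lf u v)

/-- sign rule -/
theorem slp_orient (u v w w' : Pt) (h : 0 < (Lf u w - Lf u v) * (Lf u w' - Lf u v)) :
    (u.1 ^ 2 + u.2 ^ 2) * orient v w w' =
      (Lf u w - Lf u v) * (Lf u w' - Lf u v) * (slp u v w' - slp u v w) := by
  have h1 : Lf u w - Lf u v ≠ 0 := by
    intro h0; rw [h0] at h; simp at h
  have h2 : Lf u w' - Lf u v ≠ 0 := by
    intro h0; rw [h0] at h; simp at h
  unfold slp
  field_simp
  unfold Lf orient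
  ring

theorem slp_le {u v w w' : Pt} (h : 0 < (Lf u w - Lf u v) * (Lf u w' - Lf u v))
    (hs : slp u v w ≤ slp u v w') : 0 ≤ orient v w w' := by
  have h1 := slp_orient u v w w' h
  by_contra hneg
  push Not at hneg
  have hu : 0 < u.1 ^ 2 + u.2 ^ 2 := by
    rcases lt_or_eq_of_le (by positivity : 0 ≤ u.1 ^ 2 + u.2 ^ 2) with h0 | h0
    · exact h0
    · exfalso
      have h2 : u.1 = 0 := by nlinarith [sq_nonneg u.1, sq_nonneg u.2]
      have h3 : u.2 = 0 := by nlinarith [sq_nonneg u.1, sq_nonneg u.2]
      unfold Lf at h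
      rw [h2, h3] at h
      simp at h
  have h2 : (u.1 ^ 2 + u.2 ^ 2) * orient v w w' < 0 := mul_neg_of_pos_of_neg hu hneg
  have h3 : 0 ≤ (Lf u w - Lf u v) * (Lf u w' - Lf u v) * (slp u v w' - slp u v w) :=
    mul_nonneg h.le (by linarith)
  linarith

theorem corner (P : Finset Pt) (u : Pt) (hu : ∀ p ∈ P, ∀ q ∈ P, Lf u p = Lf u q → p = q)
    (v : Pt) (S : Finset (Finset Pt)) (hne : S.Nonempty)
    (hS : ∀ t ∈ S, v ∈ t ∧ CP t ∧ 3 ≤ t.card ∧ t ⊆ P)
    (hout : ∀ t ∈ S, ∀ b, HE t v b → HE P v b ∨ ∃ s ∈ S, HE s b v)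
    (hin : ∀ t ∈ S, ∀ a, HE t a v → HE P a v ∨ ∃ s ∈ S, HE s v a) :
    (∃ t ∈ S, Up u t v) ∨ (∃ t ∈ S, ∃ w, HE t v w ∧ HE P v w ∧ Lf u v < Lf u w) ∨
      ((∀ p ∈ P, Lf u p ≤ Lf u v) ∧ ∃ t ∈ S, ∃ w, HE t v w ∧ HE P v w) := by
  classical
  obtain ⟨t0, ht0⟩ := hne
  have hvP : v ∈ P := (hS t0 ht0).2.2.2 (hS t0 ht0).1
  -- right going sides
  set R : Finset Pt := P.filter (fun w => Lf u v < Lf u w ∧ ∃ t ∈ S, HE t v w ∨ HE t w v) with hR
  by_cases hRe : R.Nonempty
  · obtain ⟨w, hw, hmin⟩ := Finset.exists_min_image R (fun w => slp u v w) hRe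
    rw [hR, Finset.mem_filter] at hw
    obtain ⟨hwP, hLw, t1, ht1, h1⟩ := hw
    -- the case of a cell to the right
    have key : ∀ s ∈ S, HE s w v → Up u s v := by
      intro s hs hsw
      obtain ⟨_, hcp, h3, hsP⟩ := hS s hs
      obtain ⟨w', hw'⟩ := hcp.next h3 hsw.2.1
      have hww : w' ≠ w := by
        rintro rfl
        exact hw'.not_both hsw h3
      have ho : 0 < orient w v w' := hsw.2.2.2 w' hw'.2.1 hww hw'.2.2.1.symm
      have hL : Lf u w' < Lf u v := by
        by_contra hcon
        push Not at hcon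
        rcases lt_or_eq_of_le hcon with h2 | h2
        · have hw'R : w' ∈ R := by
            rw [hR, Finset.mem_filter]
            exact ⟨hsP hw'.2.1, h2, s, hs, Or.inl hw'⟩
          have h4 := hmin w' hw'R
          have h5 := slp_le (u := u) (v := v) (w := w) (w' := w')
            (mul_pos (by linarith) (by linarith)) h4
          rw [orient_swap] at ho
          linarith
        · exact hw'.2.2.1 (hu v hvP w' (hsP hw'.2.1) h2)
      refine ⟨hsw.2.1, w', hw'.2.1, w, hsw.1, hL, hLw, ?_⟩
      rw [orient_rot' w v w']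
      exact ho
    rcases h1 with h1 | h1
    · rcases hout t1 ht1 w h1 with h2 | ⟨s, hs, h2⟩
      · right; left
        exact ⟨t1, ht1, w, h1, h2, hLw⟩
      · left
        exact ⟨s, hs, key s hs h2⟩
    · left
      exact ⟨t1, ht1, key t1 ht1 h1⟩
  · -- no right going side
    have hleft : ∀ t ∈ S, ∀ w, (HE t v w ∨ HE t w v) → Lf u w < Lf u v := by
      intro t ht w hw
      by_contra hcon
      push Not at hcon
      have hwt : w ∈ t ∧ v ≠ w := by
        rcases hw with h | h
        · exact ⟨h.2.1, h.2.2.1⟩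
        · exact ⟨h.1, h.2.2.1.symm⟩
      have hwP := (hS t ht).2.2.2 hwt.1
      rcases lt_or_eq_of_le hcon with h2 | h2
      · apply hRe
        exact ⟨w, by rw [hR, Finset.mem_filter]; exact ⟨hwP, h2, t, ht, hw⟩⟩
      · exact hwt.2 (hu v hvP w hwP h2)
    -- topmost outgoing side
    set W : Finset Pt := P.filter (fun w => ∃ t ∈ S, HE t v w) with hW
    have hWne : W.Nonempty := by
      obtain ⟨w, hw⟩ := (hS t0 ht0).2.1.next (hS t0 ht0).2.2.1 (hS t0 ht0).1
      exact ⟨w, by rw [hW, Finset.mem_filter]; exact ⟨(hS t0 ht0).2.2.2 hw.2.1, t0, ht0, hw⟩⟩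
    obtain ⟨w, hw, hwmin⟩ := Finset.exists_min_image W (fun w => slp u v w) hWne
    rw [hW, Finset.mem_filter] at hw
    obtain ⟨hwP, t1, ht1, h1⟩ := hw
    have hPw : HE P v w := by
      rcases hout t1 ht1 w h1 with h2 | ⟨s, hs, h2⟩
      · exact h2
      · exfalso
        obtain ⟨_, hcp, h3, hsP⟩ := hS s hs
        obtain ⟨w', hw'⟩ := hcp.next h3 h2.2.1
        have hww : w' ≠ w := by
          rintro rfl
          exact hw'.not_both h2 h3
        have ho : 0 < orient w v w' := h2.2.2.2 w' hw'.2.1 hww hw'.2.2.1.symm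
        have h4 := hwmin w' (by
          rw [hW, Finset.mem_filter]; exact ⟨hsP hw'.2.1, s, hs, hw'⟩)
        have h5 := slp_le (u := u) (v := v) (w := w) (w' := w')
          (mul_pos_of_neg_of_neg (by linarith [hleft t1 ht1 w (Or.inl h1)])
            (by linarith [hleft s hs w' (Or.inl hw')])) h4
        rw [orient_swap] at ho
        linarith
    -- lowest incoming side
    set A : Finset Pt := P.filter (fun a => ∃ t ∈ S, HE t a v) with hA
    have hAne : A.Nonempty := by
      obtain ⟨a, ha⟩ := (hS t0 ht0).2.1.prev (hS t0 ht0).2.2.1 (hS t0 ht0).1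
      exact ⟨a, by rw [hA, Finset.mem_filter]; exact ⟨(hS t0 ht0).2.2.2 ha.1, t0, ht0, ha⟩⟩
    obtain ⟨a, ha, hamax⟩ := Finset.exists_max_image A (fun w => slp u v w) hAne
    rw [hA, Finset.mem_filter] at ha
    obtain ⟨haP, t2, ht2, h2⟩ := ha
    have hPa : HE P a v := by
      rcases hin t2 ht2 a h2 with h3 | ⟨s, hs, h3⟩
      · exact h3
      · exfalso
        obtain ⟨_, hcp, h4, hsP⟩ := hS s hs
        obtain ⟨a', ha'⟩ := hcp.prev h4 h3.1
        have haa : a ≠ a' := by
          rintro rfl
          exact ha'.not_both h3 h4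
        have ho : 0 < orient a' v a := ha'.2.2.2 a h3.2.1 haa h3.2.2.1.symm
        have h5 := hamax a' (by
          rw [hA, Finset.mem_filter]; exact ⟨hsP ha'.1, s, hs, ha'⟩)
        have h6 := slp_le (u := u) (v := v) (w := a') (w' := a)
          (mul_pos_of_neg_of_neg (by linarith [hleft s hs a' (Or.inr ha')])
            (by linarith [hleft t2 ht2 a (Or.inr h2)])) h5
        rw [orient_swap] at ho
        linarith
    have hP3 : 3 ≤ P.card :=
      le_trans (hS t0 ht0).2.2.1 (Finset.card_le_card (hS t0 ht0).2.2.2)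
    have hwa : w ≠ a := by
      rintro rfl
      exact hPw.not_both hPa hP3
    have hcr : 0 < orient a v w := hPa.2.2.2 w hPw.2.1 hwa hPw.2.2.1.symm
    right; right
    refine ⟨?_, t1, ht1, w, h1, hPw⟩
    intro p hp
    have g1 := hPa.nonneg p hp
    have g2 := hPw.nonneg p hp
    have g3 : (Lf u p - Lf u v) * orient a v w =
        orient v w p * (Lf u a - Lf u v) + orient a v p * (Lf u w - Lf u v) := by
      unfold Lf orient; ring
    have g4 := hleft t1 ht1 w (Or.inl h1)
    have g5 := hleft t2 ht2 a (Or.inr h2)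
    have g6 : orient v w p * (Lf u a - Lf u v) ≤ 0 :=
      mul_nonpos_of_nonneg_of_nonpos g2 (by linarith)
    have g7 : orient a v p * (Lf u w - Lf u v) ≤ 0 :=
      mul_nonpos_of_nonneg_of_nonpos g1 (by linarith)
    by_contra hcon
    push Not at hcon
    have : 0 < (Lf u p - Lf u v) * orient a v w := mul_pos (by linarith) hcr
    linarith

end Pool.Agent.RFX

end

section

set_option autoImplicit false

/-!
# RFX/Full : full complexes (MP_72a26e_co)

`Full P C`: the convex cells of `C` have vertex set `P`, every side of a cell is a hull side of `P` or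
the reverse of a side of another cell, and every hull side of `P` is a side of a cell.
-/

namespace Pool.Agent.RFX

/-- full complex of convex cells on `P` -/
structure Full (P : Finset Pt) (C : Finset (Finset Pt)) : Prop where
  cx : Cx C
  V_eq : V C = P
  side : ∀ t ∈ C, ∀ a b, HE t a b → HE P a b ∨ ∃ s ∈ C, HE s b a
  hull : ∀ a b, HE P a b → ∃ t ∈ C, HE t a b

/-- the hull sides of `P` -/
noncomputable def hullPairs (P : Finset Pt) : Finset (Pt × Pt) := by
  classical exact (P ×ˢ P).filter (fun e => HE P e.1 e.2)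

theorem mem_hullPairs (P : Finset Pt) (a b : Pt) : (a, b) ∈ hullPairs P ↔ HE P a b := by
  classical
  unfold hullPairs
  simp only [Finset.mem_filter, Finset.mem_product]
  exact ⟨fun h => h.2, fun h => ⟨⟨h.1, h.2.1⟩, h⟩⟩

theorem Full.sub {P : Finset Pt} {C : Finset (Finset Pt)} (h : Full P C) {t : Finset Pt}
    (ht : t ∈ C) : t ⊆ P := by
  intro x hx
  rw [← h.V_eq, mem_V]
  exact ⟨t, ht, hx⟩

/-- `corner` for a set of cells of a full complex at `v`, closed under sides at `v` -/
theorem Full.corner {P : Finset Pt} {C : Finset (Finset Pt)} (h : Full P C) (u : Pt)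
    (hu : ∀ p ∈ P, ∀ q ∈ P, Lf u p = Lf u q → p = q) {v : Pt}
    (S : Finset (Finset Pt)) (hS : S ⊆ C) (hv : ∀ s ∈ S, v ∈ s) (hne : S.Nonempty)
    (hcl : ∀ s ∈ S, ∀ t ∈ C, ∀ a, (HE s a v ∧ HE t v a) ∨ (HE s v a ∧ HE t a v) → t ∈ S) :
    (∃ t ∈ S, Up u t v) ∨ (∃ t ∈ S, ∃ w, HE t v w ∧ HE P v w ∧ Lf u v < Lf u w) ∨
      ((∀ p ∈ P, Lf u p ≤ Lf u v) ∧ ∃ t ∈ S, ∃ w, HE t v w ∧ HE P v w) := by
  apply Pool.Agent.RFX.corner P u hu v S hne
  · intro t ht
    exact ⟨hv t ht, h.cx.cp t (hS ht), h.cx.three t (hS ht), h.sub (hS ht)⟩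
  · intro t ht b hb
    rcases h.side t (hS ht) v b hb with h1 | ⟨s, hs, h1⟩
    · exact Or.inl h1
    · exact Or.inr ⟨s, hcl t ht s hs b (Or.inr ⟨hb, h1⟩), h1⟩
  · intro t ht a ha
    rcases h.side t (hS ht) a v ha with h1 | ⟨s, hs, h1⟩
    · exact Or.inl h1
    · exact Or.inr ⟨s, hcl t ht s hs a (Or.inl ⟨ha, h1⟩), h1⟩

theorem Up.not_both {u : Pt} {t : Finset Pt} {v : Pt} (hcp : CP t) (h3 : 3 ≤ t.card)
    (hinj : ∀ p ∈ t, ∀ q ∈ t, Lf u p = Lf u q → p = q)
    (h1 : Up u t v) (h2 : Up (-u) t v) : False := by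
  obtain ⟨w, hw⟩ := hcp.next h3 h1.1
  rcases lt_trichotomy (Lf u v) (Lf u w) with h4 | h4 | h4
  · exact Up.not_tail (Finset.Subset.refl t) hw h4 h1
  · exact hw.2.2.1 (hinj v h1.1 w hw.2.1 h4)
  · exact Up.not_tail (Finset.Subset.refl t) hw (by rw [Lf_neg, Lf_neg]; linarith) h2

/-- Euler count -/
theorem Full.euler {P : Finset Pt} {C : Finset (Finset Pt)} (h : Full P C) (_hG : Gen P)
    (h3 : 3 ≤ P.card) : ∑ t ∈ C, (t.card - 2) + (hullPairs P).card + 2 = 2 * P.card := by
  classical
  have hPne : P.Nonempty := by rw [← Finset.card_pos]; omega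
  have hle := sum_le P C h.cx (fun t ht => h.sub ht) hPne (hullPairs P)
    (fun e he => (mem_hullPairs P e.1 e.2).1 he)
  obtain ⟨u, hinj⟩ := exists_generic P
  have hinj2 : ∀ p ∈ P, ∀ q ∈ P, Lf (-u) p = Lf (-u) q → p = q := by
    intro p hp q hq h
    rw [Lf_neg, Lf_neg] at h
    exact hinj p hp q hq (by linarith)
  -- lower bound for one direction
  have hone : ∀ u' : Pt, (∀ p ∈ P, ∀ q ∈ P, Lf u' p = Lf u' q → p = q) →
      P.card ≤ ∑ t ∈ C, (t.filter (fun m => Up u' t m)).card
        + ((hullPairs P).filter (fun e => Lf u' e.1 < Lf u' e.2)).card + 1 := by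
    intro u' hu'
    obtain ⟨M, hM, hmax⟩ := Finset.exists_max_image P (fun q => Lf u' q) hPne
    have hsub : P ⊆ insert M ((C.biUnion (fun t => t.filter (fun m => Up u' t m))) ∪
        ((hullPairs P).filter (fun e => Lf u' e.1 < Lf u' e.2)).image (fun e => e.1)) := by
      intro v hv
      rw [Finset.mem_insert, Finset.mem_union, Finset.mem_biUnion, Finset.mem_image]
      have hvC : ∃ t ∈ C, v ∈ t := by
        rw [← mem_V, h.V_eq]; exact hv
      obtain ⟨t0, ht0, hvt0⟩ := hvC
      rcases h.corner u' hu' (v := v) (C.filter (fun t => v ∈ t)) (Finset.filter_subset _ _)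
        (fun s hs => (Finset.mem_filter.1 hs).2)
        ⟨t0, Finset.mem_filter.2 ⟨ht0, hvt0⟩⟩
        (by
          intro s hs t ht a hst
          rw [Finset.mem_filter]
          refine ⟨ht, ?_⟩
          rcases hst with hst | hst
          · exact hst.2.1
          · exact hst.2.2.1) with h1 | h1 | h1
      · obtain ⟨t, ht, h2⟩ := h1
        right; left
        exact ⟨t, (Finset.mem_filter.1 ht).1, Finset.mem_filter.2 ⟨h2.1, h2⟩⟩
      · obtain ⟨t, ht, w, _, h2, h4⟩ := h1
        right; right
        exact ⟨(v, w), Finset.mem_filter.2 ⟨(mem_hullPairs P v w).2 h2, h4⟩, rfl⟩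
      · left
        exact hu' v hv M hM (le_antisymm (hmax v hv) (h1.1 M hM))
    calc P.card ≤ _ := Finset.card_le_card hsub
      _ ≤ _ + 1 := Finset.card_insert_le _ _
      _ ≤ _ := by
        have g1 := Finset.card_union_le (C.biUnion (fun t => t.filter (fun m => Up u' t m)))
          (((hullPairs P).filter (fun e => Lf u' e.1 < Lf u' e.2)).image (fun e => e.1))
        have g2 : (C.biUnion (fun t => t.filter (fun m => Up u' t m))).card ≤
          ∑ t ∈ C, (t.filter (fun m => Up u' t m)).card := Finset.card_biUnion_le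
        have g3 : (((hullPairs P).filter (fun e => Lf u' e.1 < Lf u' e.2)).image
          (fun e => e.1)).card ≤ ((hullPairs P).filter (fun e => Lf u' e.1 < Lf u' e.2)).card :=
          Finset.card_image_le
        omega
  have h1 := hone u hinj
  have h2 := hone (-u) hinj2
  -- up and down vertices of a cell
  have hcell : ∀ t ∈ C, (t.filter (fun m => Up u t m)).card
      + (t.filter (fun m => Up (-u) t m)).card ≤ t.card - 2 := by
    intro t ht
    have ht3 := h.cx.three t ht
    have htne : t.Nonempty := by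
      rw [← Finset.card_pos]; omega
    obtain ⟨a, ha, hmin⟩ := Finset.exists_min_image t (fun q => Lf u q) htne
    obtain ⟨b, hb, hmax⟩ := Finset.exists_max_image t (fun q => Lf u q) htne
    have hab : a ≠ b := by
      rintro rfl
      obtain ⟨c, hc, hca, _⟩ := HE.exists_third (t := t) a a ht3
      exact hca (hinj c (h.sub ht hc) a (h.sub ht ha) (le_antisymm (hmax c hc) (hmin c hc)))
    rw [← Finset.card_union_of_disjoint]
    · have hsub : (t.filter (fun m => Up u t m)) ∪ (t.filter (fun m => Up (-u) t m))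
          ⊆ t \ {a, b} := by
        intro m hm
        rw [Finset.mem_union, Finset.mem_filter, Finset.mem_filter] at hm
        rw [Finset.mem_sdiff, Finset.mem_insert, Finset.mem_singleton]
        rcases hm with ⟨hm, hup⟩ | ⟨hm, hup⟩
        · refine ⟨hm, ?_⟩
          obtain ⟨_, l, hl, r, hr, g1, g2, _⟩ := hup
          rintro (rfl | rfl)
          · have := hmin l hl; linarith
          · have := hmax r hr; linarith
        · refine ⟨hm, ?_⟩
          obtain ⟨_, l, hl, r, hr, g1, g2, _⟩ := hup
          rw [Lf_neg, Lf_neg] at g1 g2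
          rintro (rfl | rfl)
          · have := hmin r hr; linarith
          · have := hmax l hl; linarith
      have g1 := Finset.card_le_card hsub
      rw [Finset.card_sdiff_of_subset (by
        intro x hx
        simp only [Finset.mem_insert, Finset.mem_singleton] at hx
        rcases hx with rfl | rfl <;> assumption), Finset.card_pair hab] at g1
      exact g1
    · rw [Finset.disjoint_left]
      intro m hm1 hm2
      rw [Finset.mem_filter] at hm1 hm2
      exact Up.not_both (h.cx.cp t ht) ht3
        (fun p hp q hq => hinj p (h.sub ht hp) q (h.sub ht hq)) hm1.2 hm2.2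
  have hsum : ∑ t ∈ C, (t.filter (fun m => Up u t m)).card
      + ∑ t ∈ C, (t.filter (fun m => Up (-u) t m)).card ≤ ∑ t ∈ C, (t.card - 2) := by
    rw [← Finset.sum_add_distrib]
    exact Finset.sum_le_sum hcell
  have hE : ((hullPairs P).filter (fun e => Lf u e.1 < Lf u e.2)).card +
      ((hullPairs P).filter (fun e => Lf (-u) e.1 < Lf (-u) e.2)).card ≤ (hullPairs P).card := by
    rw [← Finset.card_union_of_disjoint]
    · apply Finset.card_le_card
      intro e he
      rw [Finset.mem_union, Finset.mem_filter, Finset.mem_filter] at he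
      rcases he with he | he <;> exact he.1
    · rw [Finset.disjoint_left]
      intro e he1 he2
      rw [Finset.mem_filter] at he1 he2
      have := he2.2
      rw [Lf_neg, Lf_neg] at this
      linarith [he1.2]
  omega

/-- the cells at `v` are connected through sides at `v` -/
theorem Full.star {P : Finset Pt} {C : Finset (Finset Pt)} (h : Full P C) (_hG : Gen P) {v : Pt}
    (S : Finset (Finset Pt)) (hS : S ⊆ C) (hv : ∀ s ∈ S, v ∈ s) (hne : S.Nonempty)
    (hcl : ∀ s ∈ S, ∀ t ∈ C, ∀ a, (HE s a v ∧ HE t v a) ∨ (HE s v a ∧ HE t a v) → t ∈ S) :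
    ∀ t ∈ C, v ∈ t → t ∈ S := by
  classical
  intro t0 ht0 hvt0
  by_contra hcon
  obtain ⟨u, hinj⟩ := exists_generic P
  set S' := C.filter (fun t => v ∈ t ∧ t ∉ S) with hS'
  have hcl' : ∀ s ∈ S', ∀ t ∈ C, ∀ a, (HE s a v ∧ HE t v a) ∨ (HE s v a ∧ HE t a v) → t ∈ S' := by
    intro s hs t ht a hst
    rw [hS', Finset.mem_filter] at hs ⊢
    refine ⟨ht, ?_, ?_⟩
    · rcases hst with hst | hst
      · exact hst.2.1
      · exact hst.2.2.1
    · intro htS
      apply hs.2.2
      apply hcl t htS s hs.1 a
      rcases hst with hst | hst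
      · exact Or.inr ⟨hst.2, hst.1⟩
      · exact Or.inl ⟨hst.2, hst.1⟩
  have hdis : ∀ t ∈ S, t ∉ S' := by
    intro t ht ht'
    rw [hS', Finset.mem_filter] at ht'
    exact ht'.2.2 ht
  have hS'C : S' ⊆ C := Finset.filter_subset _ _
  have h1 := h.corner u hinj (v := v) S hS hv hne hcl
  have h2 := h.corner u hinj (v := v) S' hS'C
    (fun s hs => (Finset.mem_filter.1 hs).2.1)
    ⟨t0, Finset.mem_filter.2 ⟨ht0, hvt0, hcon⟩⟩ hcl'
  -- two cells with the hull side going out of v are equal
  have hside : ∀ t ∈ S, ∀ t' ∈ S', ∀ w w', HE t v w → HE P v w → HE t' v w' → HE P v w' →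
      False := by
    intro t ht t' ht' w w' g1 g2 g3 g4
    have hww := g2.unique_out g4
    subst hww
    have := h.cx.side_unique (hS ht) (hS'C ht') g1 g3
    subst this
    exact hdis t ht ht'
  rcases h1 with ⟨t, ht, h1⟩ | ⟨t, ht, w, h1, h1', hL⟩ | ⟨hm, t, ht, w, h1, h1'⟩
  · rcases h2 with ⟨t', ht', h2⟩ | ⟨t', ht', w', h2, h2', hL'⟩ | ⟨hm', t', ht', w', h2, h2'⟩
    · have := Up.unique h.cx (hS ht) (hS'C ht') h1 h2
        (fun p hp q hq => hinj p (h.sub (hS ht) hp) q (h.sub (hS ht) hq))
      subst this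
      exact hdis t ht ht'
    · exact Up.not_tail (h.sub (hS ht)) h2' hL' h1
    · obtain ⟨_, l, _, r, hr, _, g2, _⟩ := h1
      have := hm' r (h.sub (hS ht) hr)
      linarith
  · rcases h2 with ⟨t', ht', h2⟩ | ⟨t', ht', w', h2, h2', hL'⟩ | ⟨hm', t', ht', w', h2, h2'⟩
    · exact Up.not_tail (h.sub (hS'C ht')) h1' hL h2
    · exact hside t ht t' ht' w w' h1 h1' h2 h2'
    · exact hside t ht t' ht' w w' h1 h1' h2 h2'
  · rcases h2 with ⟨t', ht', h2⟩ | ⟨t', ht', w', h2, h2', hL'⟩ | ⟨hm', t', ht', w', h2, h2'⟩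
    · obtain ⟨_, l, _, r, hr, _, g2, _⟩ := h2
      have := hm r (h.sub (hS'C ht') hr)
      linarith
    · exact hside t ht t' ht' w w' h1 h1' h2 h2'
    · exact hside t ht t' ht' w w' h1 h1' h2 h2'

/-- a set of cells closed under adjacency contains the cell at the last point of P -/
theorem Full.last {P : Finset Pt} {C : Finset (Finset Pt)} (h : Full P C) (u : Pt)
    (hu : ∀ p ∈ P, ∀ q ∈ P, Lf u p = Lf u q → p = q) (S : Finset (Finset Pt)) (hS : S ⊆ C)
    (hne : S.Nonempty) (hcl : ∀ s ∈ S, ∀ t ∈ C, Adj s t → t ∈ S) :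
    ∃ v ∈ P, (∀ p ∈ P, Lf u p ≤ Lf u v) ∧ ∃ t ∈ S, ∃ w, HE t v w ∧ HE P v w := by
  classical
  have hVne : (V S).Nonempty := by
    obtain ⟨t, ht⟩ := hne
    have h3 := h.cx.three t (hS ht)
    have htne : t.Nonempty := by rw [← Finset.card_pos]; omega
    obtain ⟨x, hx⟩ := htne
    exact ⟨x, (mem_V S x).2 ⟨t, ht, hx⟩⟩
  obtain ⟨v, hv, hmax⟩ := Finset.exists_max_image (V S) (fun q => Lf u q) hVne
  obtain ⟨t0, ht0, hvt0⟩ := (mem_V S v).1 hv
  refine ⟨v, h.sub (hS ht0) hvt0, ?_⟩
  rcases h.corner u hu (v := v) (S.filter (fun t => v ∈ t))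
    ((Finset.filter_subset _ _).trans hS) (fun s hs => (Finset.mem_filter.1 hs).2)
    ⟨t0, Finset.mem_filter.2 ⟨ht0, hvt0⟩⟩
    (by
      intro s hs t ht a hst
      rw [Finset.mem_filter] at hs ⊢
      constructor
      · apply hcl s hs.1 t ht
        rcases hst with hst | hst
        · exact ⟨a, v, hst.1, hst.2⟩
        · exact ⟨v, a, hst.1, hst.2⟩
      · rcases hst with hst | hst
        · exact hst.2.1
        · exact hst.2.2.1) with h1 | h1 | h1
  · exfalso
    obtain ⟨t, ht, _, l, _, r, hr, _, g2, _⟩ := h1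
    have := hmax r ((mem_V S r).2 ⟨t, (Finset.mem_filter.1 ht).1, hr⟩)
    linarith
  · exfalso
    obtain ⟨t, ht, w, g1, _, g2⟩ := h1
    have := hmax w ((mem_V S w).2 ⟨t, (Finset.mem_filter.1 ht).1, g1.2.1⟩)
    linarith
  · obtain ⟨h2, t, ht, w, g1, g2⟩ := h1
    exact ⟨h2, t, (Finset.mem_filter.1 ht).1, w, g1, g2⟩

/-- the dual graph is connected -/
theorem Full.conn {P : Finset Pt} {C : Finset (Finset Pt)} (h : Full P C) (_hG : Gen P) :
    Conn C := by
  classical
  intro S hS hne hneC
  by_contra hcon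
  push Not at hcon
  obtain ⟨u, hinj⟩ := exists_generic P
  have hsymm : ∀ s t, Adj s t → Adj t s := by
    rintro s t ⟨a, b, h1, h2⟩
    exact ⟨b, a, h2, h1⟩
  obtain ⟨v, hv, hm, t, ht, w, h1, h1'⟩ := h.last u hinj S hS hne (by
    intro s hs t ht hst
    by_contra htS
    exact hcon s hs t ht htS hst)
  obtain ⟨v', hv', hm', t', ht', w', h2, h2'⟩ := h.last u hinj (C \ S)
    Finset.sdiff_subset
    (by
      rw [Finset.sdiff_nonempty]
      intro hCS
      exact hneC (Finset.Subset.antisymm hS hCS))
    (by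
      intro s hs t ht hst
      rw [Finset.mem_sdiff] at hs ⊢
      refine ⟨ht, fun htS => ?_⟩
      exact hcon t htS s hs.1 hs.2 (hsymm s t hst))
  have hvv : v = v' := hinj v hv v' hv' (le_antisymm (hm' v hv) (hm v' hv'))
  subst hvv
  have hww := h1'.unique_out h2'
  subst hww
  have := h.cx.side_unique (hS ht) (Finset.mem_sdiff.1 ht').1 h1 h2
  subst this
  exact (Finset.mem_sdiff.1 ht').2 ht

end Pool.Agent.RFX

end

section

set_option autoImplicit false

/-!
# RFX/Reach : the predicate Reach (growth of the closed part), its invariants (MP_72a26e_co)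

`Reach P C E Cl` : starting with the hull sides one closes sides between different components
(slits) and gives triangles over closed sides with an apex in a different component.
-/

namespace Pool.Agent.RFX

open List

/-- joined by closed pairs -/
def Joined (Cl : Finset (Pt × Pt)) : Pt → Pt → Prop :=
  Relation.ReflTransGen (fun a b => (a, b) ∈ Cl)

inductive Reach (P : Finset Pt) (C : Finset (Finset Pt)) :
    Finset (Finset Pt) → Finset (Pt × Pt) → Prop
  | start : Reach P C ∅ (hullPairs P ∪ (hullPairs P).image Prod.swap)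
  | slit (E : Finset (Finset Pt)) (Cl : Finset (Pt × Pt)) (a b : Pt) (t : Finset Pt)
      (h : Reach P C E Cl) (ht : t ∈ C) (hab : HE t a b) (hj : ¬ Joined Cl a b) :
      Reach P C E (insert (a, b) (insert (b, a) Cl))
  | give (E : Finset (Finset Pt)) (Cl : Finset (Pt × Pt)) (x y a : Pt) (t : Finset Pt)
      (h : Reach P C E Cl) (ht : t ∈ C) (hc : t.card = 3) (hxy : HE t x y) (hya : HE t y a)
      (hax : HE t a x) (hcl : (x, y) ∈ Cl) (hj : ¬ Joined Cl x a) :
      Reach P C (insert t E) (insert (y, a) (insert (a, y) (insert (a, x) (insert (x, a) Cl))))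

theorem mem_start (P : Finset Pt) (a b : Pt) :
    (a, b) ∈ hullPairs P ∪ (hullPairs P).image Prod.swap ↔ HE P a b ∨ HE P b a := by
  rw [Finset.mem_union, mem_hullPairs, Finset.mem_image]
  constructor
  · rintro (h | ⟨⟨c, d⟩, h, h2⟩)
    · exact Or.inl h
    · rw [mem_hullPairs] at h
      simp only [Prod.swap_prod_mk, Prod.mk.injEq] at h2
      obtain ⟨rfl, rfl⟩ := h2
      exact Or.inr h
  · rintro (h | h)
    · exact Or.inl h
    · exact Or.inr ⟨(b, a), (mem_hullPairs P b a).2 h, rfl⟩

theorem Joined.symm {Cl : Finset (Pt × Pt)} (hs : ∀ a b, (a, b) ∈ Cl → (b, a) ∈ Cl) {a b : Pt}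
    (h : Joined Cl a b) : Joined Cl b a := by
  induction h with
  | refl => exact Relation.ReflTransGen.refl
  | tail _ h2 ih => exact Relation.ReflTransGen.head (hs _ _ h2) ih

theorem Joined.mono {Cl Cl' : Finset (Pt × Pt)} (hs : Cl ⊆ Cl') {a b : Pt}
    (h : Joined Cl a b) : Joined Cl' a b := by
  induction h with
  | refl => exact Relation.ReflTransGen.refl
  | tail _ h2 ih => exact Relation.ReflTransGen.tail ih (hs h2)

theorem Joined.refl (Cl : Finset (Pt × Pt)) (a : Pt) : Joined Cl a a :=
  Relation.ReflTransGen.refl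

theorem Joined.single {Cl : Finset (Pt × Pt)} {a b : Pt} (h : (a, b) ∈ Cl) : Joined Cl a b :=
  Relation.ReflTransGen.single h

theorem Joined.trans {Cl : Finset (Pt × Pt)} {a b c : Pt} (h : Joined Cl a b)
    (h' : Joined Cl b c) : Joined Cl a c :=
  Relation.ReflTransGen.trans h h'

/-- a labelling which is constant along closed pairs separates -/
theorem not_joined_of_label {Cl : Finset (Pt × Pt)} {α : Type*} (f : Pt → α)
    (hf : ∀ a b, (a, b) ∈ Cl → f a = f b) {a b : Pt} (hab : f a ≠ f b) : ¬ Joined Cl a b := by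
  intro h
  apply hab
  clear hab
  induction h with
  | refl => rfl
  | tail _ h2 ih => exact ih.trans (hf _ _ h2)

/-- values summed over the cells with directed side a b -/
noncomputable def LfC (C : Finset (Finset Pt)) (val : Finset Pt → ℤ) (a b : Pt) : ℤ :=
  open Classical in ∑ t ∈ C, if HE t a b then val t else 0

noncomputable def outf (C : Finset (Finset Pt)) (val : Finset Pt → ℤ) (a b : Pt) : ℤ :=
  LfC C val a b - LfC C val b a

theorem outf_anti (C : Finset (Finset Pt)) (val : Finset Pt → ℤ) (a b : Pt) :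
    outf C val b a = - outf C val a b := by
  unfold outf; ring

theorem LfC_eq {C : Finset (Finset Pt)} (hC : Cx C) (val : Finset Pt → ℤ) {a b : Pt}
    {t : Finset Pt} (ht : t ∈ C) (h : HE t a b) : LfC C val a b = val t := by
  classical
  unfold LfC
  rw [Finset.sum_eq_single t]
  · rw [if_pos h]
  · intro s hs hst
    rw [if_neg]
    intro h2
    exact hst (hC.side_unique hs ht h2 h)
  · intro h2; exact absurd ht h2

theorem LfC_eq_zero {C : Finset (Finset Pt)} (val : Finset Pt → ℤ) {a b : Pt}
    (h : ∀ t ∈ C, ¬ HE t a b) : LfC C val a b = 0 := by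
  classical
  unfold LfC
  apply Finset.sum_eq_zero
  intro t ht
  rw [if_neg (h t ht)]

/-- balance at a vertex -/
theorem bal {C : Finset (Finset Pt)} (hC : Cx C) (val : Finset Pt → ℤ) (v : Pt) :
    ∑ b ∈ V C, outf C val v b = 0 := by
  classical
  unfold outf LfC
  rw [Finset.sum_sub_distrib, Finset.sum_comm, Finset.sum_comm (s := V C) (t := C)
    (f := fun b t => if HE t b v then val t else 0), ← Finset.sum_sub_distrib]
  apply Finset.sum_eq_zero
  intro t ht
  have htV : t ⊆ V C := fun z hz => (mem_V C z).2 ⟨t, ht, hz⟩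
  by_cases hv : v ∈ t
  · obtain ⟨b, hb⟩ := (hC.cp t ht).exists_succ (hC.three t ht) hv
    obtain ⟨c, hc⟩ := (hC.cp t ht).exists_pred (hC.three t ht) hv
    rw [Finset.sum_eq_single b, Finset.sum_eq_single c, if_pos hb, if_pos hc, sub_self]
    · intro d _ hd
      rw [if_neg]
      intro h; exact hd (h.pred_unique hc)
    · intro h; exact absurd (htV hc.1) h
    · intro d _ hd
      rw [if_neg]
      intro h; exact hd (h.succ_unique hb)
    · intro h; exact absurd (htV hb.2.1) h
  · rw [Finset.sum_eq_zero, Finset.sum_eq_zero, sub_self]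
    · intro d _
      rw [if_neg]
      intro h; exact hv h.2.1
    · intro d _
      rw [if_neg]
      intro h; exact hv h.1

/-- the flow out of a set of vertices is zero -/
theorem cut {C : Finset (Finset Pt)} (hC : Cx C) (val : Finset Pt → ℤ) (A : Finset Pt)
    (hA : A ⊆ V C) : ∑ v ∈ A, ∑ b ∈ V C \ A, outf C val v b = 0 := by
  classical
  have h1 : ∑ v ∈ A, ∑ b ∈ V C, outf C val v b = 0 :=
    Finset.sum_eq_zero (fun v _ => bal hC val v)
  have h2 : ∑ v ∈ A, ∑ b ∈ A, outf C val v b = 0 := by
    have h3 : ∑ v ∈ A, ∑ b ∈ A, outf C val v b = - ∑ v ∈ A, ∑ b ∈ A, outf C val v b := by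
      conv_lhs => rw [Finset.sum_comm]
      rw [← Finset.sum_neg_distrib]
      apply Finset.sum_congr rfl
      intro v _
      rw [← Finset.sum_neg_distrib]
      apply Finset.sum_congr rfl
      intro b _
      exact outf_anti C val v b
    linarith
  have h4 : ∑ v ∈ A, ∑ b ∈ V C, outf C val v b =
      ∑ v ∈ A, ∑ b ∈ V C \ A, outf C val v b + ∑ v ∈ A, ∑ b ∈ A, outf C val v b := by
    rw [← Finset.sum_add_distrib]
    apply Finset.sum_congr rfl
    intro v _
    exact (Finset.sum_sdiff hA).symm
  linarith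

/-- a flow which vanishes on all pairs leaving A, except on (a, b), vanishes on (a, b) -/
theorem cut_single {C : Finset (Finset Pt)} (hC : Cx C) (val : Finset Pt → ℤ) (A : Finset Pt)
    (hA : A ⊆ V C) (a b : Pt) (ha : a ∈ A) (hb : b ∈ V C) (hbA : b ∉ A)
    (h : ∀ v ∈ A, ∀ w ∈ V C, w ∉ A → (v, w) ≠ (a, b) → outf C val v w = 0) :
    outf C val a b = 0 := by
  classical
  have h1 := cut hC val A hA
  rw [Finset.sum_eq_single a, Finset.sum_eq_single b] at h1
  · exact h1
  · intro w hw hwb
    rw [Finset.mem_sdiff] at hw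
    apply h a ha w hw.1 hw.2
    intro e
    rw [Prod.mk.injEq] at e
    exact hwb e.2
  · intro h2
    exact absurd (Finset.mem_sdiff.2 ⟨hb, hbA⟩) h2
  · intro v hv hva
    apply Finset.sum_eq_zero
    intro w hw
    rw [Finset.mem_sdiff] at hw
    apply h v hv w hw.1 hw.2
    intro e
    rw [Prod.mk.injEq] at e
    exact hva e.1
  · intro h2; exact absurd ha h2

/-- changing the value of one cell -/
theorem outf_update {C : Finset (Finset Pt)} (val : Finset Pt → ℤ) {t : Finset Pt}
    (ht : t ∈ C) (c : ℤ) (u v : Pt) :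
    outf C (Function.update val t (val t + c)) u v = outf C val u v +
      (open Classical in if HE t u v then c else 0) -
      (open Classical in if HE t v u then c else 0) := by
  classical
  have key : ∀ u v, LfC C (Function.update val t (val t + c)) u v = LfC C val u v +
      (if HE t u v then c else 0) := by
    intro u v
    unfold LfC
    rw [← Finset.add_sum_erase C _ ht, ← Finset.add_sum_erase C _ ht, Function.update_self]
    have : ∑ x ∈ C.erase t, (if HE x u v then Function.update val t (val t + c) x else 0) =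
        ∑ x ∈ C.erase t, (if HE x u v then val x else 0) := by
      apply Finset.sum_congr rfl
      intro x hx
      rw [Function.update_of_ne (Finset.ne_of_mem_erase hx)]
    rw [this]
    by_cases h : HE t u v
    · simp only [h, if_true]; ring
    · simp only [h, if_false]; ring
  unfold outf
  rw [key, key]
  ring

/-- basic invariants -/
structure RInv (P : Finset Pt) (C : Finset (Finset Pt)) (E : Finset (Finset Pt))
    (Cl : Finset (Pt × Pt)) : Prop where
  symm : ∀ a b, (a, b) ∈ Cl → (b, a) ∈ Cl
  mem : ∀ a b, (a, b) ∈ Cl → a ∈ P ∧ b ∈ P ∧ a ≠ b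
  sub : E ⊆ C
  card : ∀ t ∈ E, t.card = 3
  sides : ∀ t ∈ E, ∀ a b, HE t a b → (a, b) ∈ Cl
  hull : ∀ a b, HE P a b → (a, b) ∈ Cl
  real : ∀ a b, (a, b) ∈ Cl → HE P b a ∨ ∃ t ∈ C, HE t a b
  free : ∀ v ∈ P, ∃ q ∈ C, q ∉ E ∧ v ∈ q

theorem three_eq {t : Finset Pt} (hc : t.card = 3) {x y a : Pt} (hxy : HE t x y) (hya : HE t y a)
    (hax : HE t a x) : t = {x, y, a} := by
  symm
  apply Finset.eq_of_subset_of_card_le
  · intro z hz
    simp only [Finset.mem_insert, Finset.mem_singleton] at hz
    rcases hz with rfl | rfl | rfl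
    · exact hxy.1
    · exact hya.1
    · exact hax.1
  · rw [hc, Finset.card_eq_three.2 ⟨x, y, a, hxy.2.2.1, hax.2.2.1.symm, hya.2.2.1, rfl⟩]

theorem side_cases {t : Finset Pt} (hc : t.card = 3) {x y a : Pt} (hxy : HE t x y) (hya : HE t y a)
    (hax : HE t a x) {u v : Pt} (h : HE t u v) :
    (u = x ∧ v = y) ∨ (u = y ∧ v = a) ∨ (u = a ∧ v = x) := by
  have h1 : u ∈ t := h.1
  rw [three_eq hc hxy hya hax] at h1
  simp only [Finset.mem_insert, Finset.mem_singleton] at h1
  rcases h1 with rfl | rfl | rfl
  · exact Or.inl ⟨rfl, h.succ_unique hxy⟩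
  · exact Or.inr (Or.inl ⟨rfl, h.succ_unique hya⟩)
  · exact Or.inr (Or.inr ⟨rfl, h.succ_unique hax⟩)

theorem Reach.inv {P : Finset Pt} {C : Finset (Finset Pt)} (hF : Full P C)
    {E : Finset (Finset Pt)} {Cl : Finset (Pt × Pt)} (hR : Reach P C E Cl) : RInv P C E Cl := by
  classical
  have hsub : ∀ t ∈ C, ∀ z ∈ t, z ∈ P := by
    intro t ht z hz
    rw [← hF.V_eq]; exact (mem_V C z).2 ⟨t, ht, hz⟩
  induction hR with
  | start =>
    refine ⟨?_, ?_, by simp, by simp, by simp, ?_, ?_, ?_⟩
    · intro a b h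
      rw [mem_start] at h ⊢
      exact h.symm
    · intro a b h
      rw [mem_start] at h
      rcases h with h | h
      · exact ⟨h.1, h.2.1, h.2.2.1⟩
      · exact ⟨h.2.1, h.1, h.2.2.1.symm⟩
    · intro a b h
      rw [mem_start]; exact Or.inl h
    · intro a b h
      rw [mem_start] at h
      rcases h with h | h
      · exact Or.inr (hF.hull a b h)
      · exact Or.inl h
    · intro v hv
      rw [← hF.V_eq, mem_V] at hv
      obtain ⟨t, ht, hv⟩ := hv
      exact ⟨t, ht, by simp, hv⟩
  | slit E Cl a b t h ht hab hj ih =>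
    have haP : a ∈ P := hsub t ht a hab.1
    have hbP : b ∈ P := hsub t ht b hab.2.1
    refine ⟨?_, ?_, ih.sub, ih.card, ?_, ?_, ?_, ih.free⟩
    · intro u v huv
      simp only [Finset.mem_insert, Prod.mk.injEq] at huv ⊢
      rcases huv with h1 | h1 | h1
      · exact Or.inr (Or.inl ⟨h1.2, h1.1⟩)
      · exact Or.inl ⟨h1.2, h1.1⟩
      · exact Or.inr (Or.inr (ih.symm u v h1))
    · intro u v huv
      simp only [Finset.mem_insert, Prod.mk.injEq] at huv
      rcases huv with ⟨rfl, rfl⟩ | ⟨rfl, rfl⟩ | h1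
      · exact ⟨haP, hbP, hab.2.2.1⟩
      · exact ⟨hbP, haP, hab.2.2.1.symm⟩
      · exact ih.mem u v h1
    · intro s hs u v huv
      simp only [Finset.mem_insert]
      exact Or.inr (Or.inr (ih.sides s hs u v huv))
    · intro u v huv
      simp only [Finset.mem_insert]
      exact Or.inr (Or.inr (ih.hull u v huv))
    · intro u v huv
      simp only [Finset.mem_insert, Prod.mk.injEq] at huv
      rcases huv with ⟨rfl, rfl⟩ | ⟨rfl, rfl⟩ | h1
      · exact Or.inr ⟨t, ht, hab⟩
      · rcases hF.side t ht _ _ hab with h2 | h2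
        · exact Or.inl h2
        · exact Or.inr h2
      · exact ih.real u v h1
  | give E Cl x y a t h ht hc hxy hya hax hcl hj ih =>
    have hxP : x ∈ P := hsub t ht x hxy.1
    have hyP : y ∈ P := hsub t ht y hya.1
    have haP : a ∈ P := hsub t ht a hax.1
    have hjya : ¬ (y, a) ∈ Cl := by
      intro h1
      exact hj ((Joined.single hcl).trans (Joined.single h1))
    have hjax : ¬ (a, x) ∈ Cl := by
      intro h1
      exact hj (Joined.single (ih.symm _ _ h1))
    refine ⟨?_, ?_, ?_, ?_, ?_, ?_, ?_, ?_⟩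
    · intro u v huv
      simp only [Finset.mem_insert, Prod.mk.injEq] at huv ⊢
      rcases huv with h1 | h1 | h1 | h1 | h1
      · exact Or.inr (Or.inl ⟨h1.2, h1.1⟩)
      · exact Or.inl ⟨h1.2, h1.1⟩
      · exact Or.inr (Or.inr (Or.inr (Or.inl ⟨h1.2, h1.1⟩)))
      · exact Or.inr (Or.inr (Or.inl ⟨h1.2, h1.1⟩))
      · exact Or.inr (Or.inr (Or.inr (Or.inr (ih.symm u v h1))))
    · intro u v huv
      simp only [Finset.mem_insert, Prod.mk.injEq] at huv
      rcases huv with ⟨rfl, rfl⟩ | ⟨rfl, rfl⟩ | ⟨rfl, rfl⟩ | ⟨rfl, rfl⟩ | h1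
      · exact ⟨hyP, haP, hya.2.2.1⟩
      · exact ⟨haP, hyP, hya.2.2.1.symm⟩
      · exact ⟨haP, hxP, hax.2.2.1⟩
      · exact ⟨hxP, haP, hax.2.2.1.symm⟩
      · exact ih.mem u v h1
    · exact Finset.insert_subset ht ih.sub
    · intro s hs
      rw [Finset.mem_insert] at hs
      rcases hs with rfl | hs
      · exact hc
      · exact ih.card s hs
    · intro s hs u v huv
      rw [Finset.mem_insert] at hs
      rcases hs with rfl | hs
      · rcases side_cases hc hxy hya hax huv with ⟨rfl, rfl⟩ | ⟨rfl, rfl⟩ | ⟨rfl, rfl⟩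
        · simp [hcl]
        · simp
        · simp
      · simp only [Finset.mem_insert]
        exact Or.inr (Or.inr (Or.inr (Or.inr (ih.sides s hs u v huv))))
    · intro u v huv
      simp only [Finset.mem_insert]
      exact Or.inr (Or.inr (Or.inr (Or.inr (ih.hull u v huv))))
    · intro u v huv
      simp only [Finset.mem_insert, Prod.mk.injEq] at huv
      rcases huv with ⟨rfl, rfl⟩ | ⟨rfl, rfl⟩ | ⟨rfl, rfl⟩ | ⟨rfl, rfl⟩ | h1
      · exact Or.inr ⟨t, ht, hya⟩
      · rcases hF.side t ht _ _ hya with h2 | h2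
        · exact Or.inl h2
        · exact Or.inr h2
      · exact Or.inr ⟨t, ht, hax⟩
      · rcases hF.side t ht _ _ hax with h2 | h2
        · exact Or.inl h2
        · exact Or.inr h2
      · exact ih.real u v h1
    · intro v hv
      obtain ⟨q, hq, hqE, hvq⟩ := ih.free v hv
      by_cases hqt : q = t
      · subst hqt
        -- a side at v leads to another cell
        have main : ∀ u w, HE q u w → ¬ (u, w) ∈ Cl → (v = u ∨ v = w) →
            ∃ s ∈ C, s ∉ insert q E ∧ v ∈ s := by
          intro u w huw hcl2 hv2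
          rcases hF.side q hq u w huw with h2 | ⟨s, hs, h2⟩
          · exact absurd (ih.hull u w h2) hcl2
          · refine ⟨s, hs, ?_, ?_⟩
            · rw [Finset.mem_insert]
              rintro (h4 | h4)
              · subst h4
                exact huw.not_both h2 (by omega)
              · exact hcl2 (ih.symm _ _ (ih.sides s h4 _ _ h2))
            · rcases hv2 with rfl | rfl
              · exact h2.2.1
              · exact h2.1
        rw [three_eq hc hxy hya hax] at hvq
        simp only [Finset.mem_insert, Finset.mem_singleton] at hvq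
        rcases hvq with h1 | h1 | h1
        · exact main a x hax hjax (Or.inr h1)
        · exact main y a hya hjya (Or.inl h1)
        · exact main a x hax hjax (Or.inl h1)
      · refine ⟨q, hq, ?_, hvq⟩
        rw [Finset.mem_insert]
        tauto

/-- FLOWS: values whose flow is supported on closed pairs can be changed on the given cells so
that the flow is supported on the hull sides -/
theorem Reach.flow {P : Finset Pt} {C : Finset (Finset Pt)} (hF : Full P C)
    {E : Finset (Finset Pt)} {Cl : Finset (Pt × Pt)} (hR : Reach P C E Cl) :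
    ∀ val : Finset Pt → ℤ, (∀ a b, (a, b) ∉ Cl → outf C val a b = 0) →
      ∃ val' : Finset Pt → ℤ, (∀ t ∈ C, t ∉ E → val' t = val t) ∧
        ∀ a b, ¬ HE P a b → ¬ HE P b a → outf C val' a b = 0 := by
  classical
  have hsub : ∀ t ∈ C, ∀ z ∈ t, z ∈ P := by
    intro t ht z hz
    rw [← hF.V_eq]; exact (mem_V C z).2 ⟨t, ht, hz⟩
  induction hR with
  | start =>
    intro val hval
    refine ⟨val, fun _ _ _ => rfl, ?_⟩
    intro a b h1 h2
    apply hval
    rw [mem_start]
    tauto
  | slit E Cl a b t h ht hab hj ih =>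
    intro val hval
    have hI := h.inv hF
    have haP : a ∈ P := hsub t ht a hab.1
    have hbP : b ∈ P := hsub t ht b hab.2.1
    have h1 : outf C val a b = 0 := by
      apply cut_single hF.cx val (P.filter (fun v => Joined Cl a v))
      · rw [hF.V_eq]; exact Finset.filter_subset _ _
      · exact Finset.mem_filter.2 ⟨haP, Joined.refl Cl a⟩
      · rw [hF.V_eq]; exact hbP
      · intro h2
        exact hj (Finset.mem_filter.1 h2).2
      · intro v hv w hw hwA hne
        apply hval
        intro hmem
        simp only [Finset.mem_insert, Prod.mk.injEq] at hmem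
        rw [Finset.mem_filter] at hv hwA
        rw [hF.V_eq] at hw
        rcases hmem with ⟨rfl, rfl⟩ | ⟨rfl, rfl⟩ | h2
        · exact hne rfl
        · exact hwA ⟨hw, Joined.refl Cl _⟩
        · exact hwA ⟨hw, hv.2.trans (Joined.single h2)⟩
    apply ih val
    intro u v huv
    by_cases e1 : (u, v) = (a, b)
    · rw [Prod.mk.injEq] at e1
      rw [e1.1, e1.2]; exact h1
    · by_cases e2 : (u, v) = (b, a)
      · rw [Prod.mk.injEq] at e2
        rw [e2.1, e2.2, outf_anti, h1, neg_zero]
      · apply hval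
        rw [Finset.mem_insert, Finset.mem_insert]
        tauto
  | give E Cl x y a t h ht hc hxy hya hax hcl hj ih =>
    intro val hval
    have hI := h.inv hF
    have hxP : x ∈ P := hsub t ht x hxy.1
    have hyP : y ∈ P := hsub t ht y hya.1
    have haP : a ∈ P := hsub t ht a hax.1
    set c : ℤ := - outf C val a x with hcdef
    set val1 := Function.update val t (val t + c) with hval1
    have o1 : ∀ u v, outf C val1 u v = outf C val u v + (if HE t u v then c else 0) -
        (if HE t v u then c else 0) := fun u v => outf_update val ht c u v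
    have hax1 : outf C val1 a x = 0 := by
      rw [o1, if_pos hax, if_neg, hcdef]
      · ring
      · intro h2
        exact hax.not_both h2 (by omega)
    have hoff : ∀ u v, (u, v) ∉ insert (y, a) (insert (a, y) (insert (a, x) (insert (x, a) Cl))) →
        outf C val1 u v = 0 := by
      intro u v huv
      have h0 := hval u v huv
      simp only [Finset.mem_insert, Prod.mk.injEq, not_or] at huv
      obtain ⟨n1, n2, n3, n4, n5⟩ := huv
      rw [o1, h0, if_neg, if_neg]
      · ring
      · intro h2
        rcases side_cases hc hxy hya hax h2 with h4 | h4 | h4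
        · apply n5
          rw [h4.1, h4.2]; exact hI.symm _ _ hcl
        · exact n2 ⟨h4.2, h4.1⟩
        · exact n4 ⟨h4.2, h4.1⟩
      · intro h2
        rcases side_cases hc hxy hya hax h2 with h4 | h4 | h4
        · apply n5
          rw [h4.1, h4.2]; exact hcl
        · exact n1 h4
        · exact n3 h4
    have hxa : ¬ Joined Cl a x := fun h2 => hj (h2.symm hI.symm)
    have hya' : ¬ Joined Cl a y := by
      intro h2
      exact hxa (h2.trans (Joined.single (hI.symm _ _ hcl)))
    have h1 : outf C val1 a y = 0 := by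
      apply cut_single hF.cx val1 (P.filter (fun v => Joined Cl a v))
      · rw [hF.V_eq]; exact Finset.filter_subset _ _
      · exact Finset.mem_filter.2 ⟨haP, Joined.refl Cl a⟩
      · rw [hF.V_eq]; exact hyP
      · intro h2
        exact hya' (Finset.mem_filter.1 h2).2
      · intro v hv w hw hwA hne
        rw [Finset.mem_filter] at hv hwA
        rw [hF.V_eq] at hw
        by_cases hvw : (v, w) = (a, x)
        · rw [Prod.mk.injEq] at hvw
          rw [hvw.1, hvw.2]; exact hax1
        · apply hoff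
          intro hmem
          simp only [Finset.mem_insert, Prod.mk.injEq] at hmem hvw
          rcases hmem with h2 | h2 | h2 | h2 | h2
          · exact hya' (h2.1 ▸ hv.2)
          · apply hne
            rw [h2.1, h2.2]
          · exact hvw h2
          · exact hxa (h2.1 ▸ hv.2)
          · exact hwA ⟨hw, hv.2.trans (Joined.single h2)⟩
    obtain ⟨val', h2, h4⟩ := ih val1 (by
      intro u v huv
      by_cases e1 : (u, v) = (a, x)
      · rw [Prod.mk.injEq] at e1
        rw [e1.1, e1.2]; exact hax1
      · by_cases e2 : (u, v) = (x, a)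
        · rw [Prod.mk.injEq] at e2
          rw [e2.1, e2.2, outf_anti, hax1, neg_zero]
        · by_cases e3 : (u, v) = (a, y)
          · rw [Prod.mk.injEq] at e3
            rw [e3.1, e3.2]; exact h1
          · by_cases e4 : (u, v) = (y, a)
            · rw [Prod.mk.injEq] at e4
              rw [e4.1, e4.2, outf_anti, h1, neg_zero]
            · apply hoff
              simp only [Finset.mem_insert]
              tauto)
    refine ⟨val', ?_, h4⟩
    intro s hs hsE
    rw [Finset.mem_insert, not_or] at hsE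
    rw [h2 s hs hsE.2, hval1, Function.update_of_ne hsE.1]

/-- the cells which are not given are connected through open sides -/
theorem Reach.connected {P : Finset Pt} {C : Finset (Finset Pt)} (hF : Full P C)
    (hconn : Conn C) {E : Finset (Finset Pt)} {Cl : Finset (Pt × Pt)} (hR : Reach P C E Cl)
    (O : Finset (Finset Pt)) (hO : O ⊆ C \ E) (hne : O.Nonempty) (hOne : O ≠ C \ E) :
    ∃ s ∈ O, ∃ t ∈ C \ E, t ∉ O ∧ ∃ a b, HE s a b ∧ HE t b a ∧ (a, b) ∉ Cl := by
  classical
  by_contra hno
  push Not at hno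
  have hI := hR.inv hF
  have hsub : ∀ t ∈ C, ∀ z ∈ t, z ∈ P := by
    intro t ht z hz
    rw [← hF.V_eq]; exact (mem_V C z).2 ⟨t, ht, hz⟩
  have hOC : ∀ t ∈ O, t ∈ C := fun t ht => (Finset.mem_sdiff.1 (hO ht)).1
  set val : Finset Pt → ℤ := fun t => if t ∈ O then 1 else 0 with hvaldef
  have hval : ∀ a b, (a, b) ∉ Cl → outf C val a b = 0 := by
    have key : ∀ a b, (a, b) ∉ Cl → ∀ t ∈ C, HE t a b → ∃ s ∈ C, HE s b a ∧ val s = val t := by
      intro a b hab t ht h
      rcases hF.side t ht a b h with h1 | ⟨s, hs, h1⟩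
      · exact absurd (hI.hull a b h1) hab
      · refine ⟨s, hs, h1, ?_⟩
        have hba : (b, a) ∉ Cl := fun h2 => hab (hI.symm _ _ h2)
        have htE : t ∉ E := fun h2 => hab (hI.sides t h2 a b h)
        have hsE : s ∉ E := fun h2 => hba (hI.sides s h2 b a h1)
        simp only [hvaldef]
        by_cases h2 : t ∈ O
        · have h4 : s ∈ O := by
            by_contra h4
            exact hab (hno t h2 s (Finset.mem_sdiff.2 ⟨hs, hsE⟩) h4 a b h h1)
          rw [if_pos h2, if_pos h4]
        · have h4 : s ∉ O := by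
            intro h4
            exact hba (hno s h4 t (Finset.mem_sdiff.2 ⟨ht, htE⟩) h2 b a h1 h)
          rw [if_neg h2, if_neg h4]
    intro a b hab
    have hba : (b, a) ∉ Cl := fun h2 => hab (hI.symm _ _ h2)
    unfold outf
    by_cases h1 : ∃ t ∈ C, HE t a b
    · obtain ⟨t, ht, h⟩ := h1
      obtain ⟨s, hs, h2, h4⟩ := key a b hab t ht h
      rw [LfC_eq hF.cx val ht h, LfC_eq hF.cx val hs h2, h4, sub_self]
    · by_cases h2 : ∃ t ∈ C, HE t b a
      · obtain ⟨t, ht, h⟩ := h2
        obtain ⟨s, hs, h4, _⟩ := key b a hba t ht h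
        exact absurd ⟨s, hs, h4⟩ h1
      · push Not at h1 h2
        rw [LfC_eq_zero val h1, LfC_eq_zero val h2, sub_self]
  obtain ⟨val', h1, h2⟩ := hR.flow hF val hval
  have hadj : ∀ s ∈ C, ∀ t ∈ C, Adj s t → val' s = val' t := by
    rintro s hs t ht ⟨a, b, hab, hba⟩
    have n1 : ¬ HE P a b := by
      intro h
      obtain ⟨c, hc, hcb, hca⟩ := HE.exists_third (t := t) b a (hF.cx.three t ht)
      have h4 := h.2.2.2 c (hsub t ht c hc) hca hcb
      have h5 := hba.2.2.2 c hc hcb hca
      rw [orient_swap] at h5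
      linarith
    have n2 : ¬ HE P b a := by
      intro h
      obtain ⟨c, hc, hca, hcb⟩ := HE.exists_third (t := s) a b (hF.cx.three s hs)
      have h4 := h.2.2.2 c (hsub s hs c hc) hcb hca
      have h5 := hab.2.2.2 c hc hca hcb
      rw [orient_swap] at h5
      linarith
    have h4 := h2 a b n1 n2
    unfold outf at h4
    rw [LfC_eq hF.cx val' hs hab, LfC_eq hF.cx val' ht hba] at h4
    linarith
  set S := C.filter (fun t => val' t = 1) with hS
  have hOS : O ⊆ S := by
    intro t ht
    rw [hS, Finset.mem_filter]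
    refine ⟨hOC t ht, ?_⟩
    rw [h1 t (hOC t ht) (Finset.mem_sdiff.1 (hO ht)).2]
    simp [hvaldef, ht]
  have hSC : S = C := by
    by_contra hSC
    obtain ⟨s, hs, t, ht, htS, hst⟩ := hconn S (Finset.filter_subset _ _) (hne.mono hOS) hSC
    rw [hS, Finset.mem_filter] at hs htS
    apply htS
    exact ⟨ht, by rw [← hadj s hs.1 t ht hst]; exact hs.2⟩
  apply hOne
  apply Finset.Subset.antisymm hO
  intro t ht
  rw [Finset.mem_sdiff] at ht
  have h4 : t ∈ S := by rw [hSC]; exact ht.1
  rw [hS, Finset.mem_filter, h1 t ht.1 ht.2] at h4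
  by_contra h5
  simp [hvaldef, h5] at h4

/-- change of the complex -/
theorem Reach.change {P P' : Finset Pt} {C C' : Finset (Finset Pt)} (hF : Full P C)
    (hP : ∀ a b, HE P a b ↔ HE P' a b)
    {E : Finset (Finset Pt)} {Cl : Finset (Pt × Pt)} (hR : Reach P C E Cl) (hE : E ⊆ C')
    (hCl : ∀ a b, (a, b) ∈ Cl → HE P b a ∨ ∃ t ∈ C', HE t a b) : Reach P' C' E Cl := by
  classical
  induction hR with
  | start =>
    have h1 : hullPairs P = hullPairs P' := by
      ext ⟨a, b⟩
      rw [mem_hullPairs, mem_hullPairs, hP]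
    rw [h1]
    exact Reach.start
  | slit E Cl a b t h ht hab hj ih =>
    have hI := h.inv hF
    have h1 := ih hE (fun u v huv => hCl u v (by
      simp only [Finset.mem_insert]; exact Or.inr (Or.inr huv)))
    rcases hCl a b (by simp) with h2 | ⟨t', ht', h2⟩
    · exact absurd (Joined.single (hI.symm _ _ (hI.hull b a h2))) hj
    · exact Reach.slit E Cl a b t' h1 ht' h2 hj
  | give E Cl x y a t h ht hc hxy hya hax hcl hj ih =>
    have h1 := ih (fun s hs => hE (Finset.mem_insert_of_mem hs)) (fun u v huv => hCl u v (by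
      simp only [Finset.mem_insert]; exact Or.inr (Or.inr (Or.inr (Or.inr huv)))))
    exact Reach.give E Cl x y a t h1 (hE (Finset.mem_insert_self t E)) hc hxy hya hax hcl hj

/-- the two halves of a cell cut by a diagonal -/
structure Halves (t t1 t2 : Finset Pt) (a b : Pt) : Prop where
  union : t1 ∪ t2 = t
  inter : t1 ∩ t2 = {a, b}
  three1 : 3 ≤ t1.card
  three2 : 3 ≤ t2.card
  he1 : HE t1 a b
  he2 : HE t2 b a
  side1 : ∀ u v, HE t1 u v → (u, v) ≠ (a, b) → HE t u v
  side2 : ∀ u v, HE t2 u v → (u, v) ≠ (b, a) → HE t u v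
  split : ∀ u v, HE t u v → HE t1 u v ∨ HE t2 u v

theorem exists_halves {t : Finset Pt} (h : CP t) (h3 : 3 ≤ t.card) {a b : Pt} (ha : a ∈ t)
    (hb : b ∈ t) (hab : a ≠ b) (n1 : ¬ HE t a b) (n2 : ¬ HE t b a) :
    ∃ t1 t2, Halves t t1 t2 a b := by
  classical
  obtain ⟨l, l1, l2, l4⟩ := h
  have hlen : l.length = t.card := CP.length l1 l2
  have hal : a ∈ l := by rw [← List.mem_toFinset, l2]; exact ha
  have hbl : b ∈ l := by rw [← List.mem_toFinset, l2]; exact hb
  obtain ⟨p, q, hpq⟩ := List.append_of_mem hal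
  have hL0 : CCW (a :: (q ++ p)) := by
    have := l4
    rw [hpq] at this
    exact this.rot
  have hperm0 : l.Perm (a :: (q ++ p)) := by
    rw [hpq]
    exact List.perm_append_comm
  have hbqp : b ∈ q ++ p := by
    have : b ∈ a :: (q ++ p) := hperm0.mem_iff.1 hbl
    rw [List.mem_cons] at this
    rcases this with h5 | h5
    · exact absurd h5.symm hab
    · exact h5
  obtain ⟨m1, m2, hm⟩ := List.append_of_mem hbqp
  rw [hm] at hL0 hperm0
  have nL : (a :: (m1 ++ b :: m2)).Nodup := hperm0.nodup_iff.1 l1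
  have fL : (a :: (m1 ++ b :: m2)).toFinset = t := by
    rw [← l2]; exact (List.toFinset_eq_of_perm _ _ hperm0).symm
  have lenL : 3 ≤ (a :: (m1 ++ b :: m2)).length := by
    rw [← hperm0.length_eq]; omega
  have s1 : (a :: b :: m2).Sublist (a :: (m1 ++ b :: m2)) :=
    (List.sublist_append_right m1 (b :: m2)).cons_cons a
  have s2 : (a :: (m1 ++ [b])).Sublist (a :: (m1 ++ b :: m2)) := by
    apply List.Sublist.cons_cons
    apply List.Sublist.append (List.Sublist.refl m1)
    exact (List.nil_sublist m2).cons_cons b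
  have c1 : CCW (a :: b :: m2) := hL0.sublist s1
  have c2 : CCW (a :: (m1 ++ [b])) := hL0.sublist s2
  have nd1 : (a :: b :: m2).Nodup := nL.sublist s1
  have nd2 : (a :: (m1 ++ [b])).Nodup := nL.sublist s2
  have eL : cyc (a :: (m1 ++ b :: m2)) = pe (a :: (m1 ++ [b])) ++ pe (b :: (m2 ++ [a])) := by
    rw [cyc_cons]
    have e1 : a :: (m1 ++ b :: m2 ++ [a]) = (a :: m1) ++ b :: (m2 ++ [a]) := by simp
    rw [e1, pe_append_mid]
    rfl
  have e1 : cyc (a :: b :: m2) = (a, b) :: pe (b :: (m2 ++ [a])) := by
    rw [cyc_cons]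
    rfl
  have e2 : cyc (a :: (m1 ++ [b])) = pe (a :: (m1 ++ [b])) ++ [(b, a)] := by
    rw [cyc_cons]
    have e1 : a :: (m1 ++ [b] ++ [a]) = (a :: m1) ++ b :: [a] := by simp
    rw [e1, pe_append_mid]
    rfl
  have mL : ∀ u v, (u, v) ∈ cyc (a :: (m1 ++ b :: m2)) ↔ HE t u v := by
    intro u v
    rw [hL0.mem_cyc_iff nL lenL, fL]
  have hm1 : m1 ≠ [] := by
    rintro rfl
    apply n1
    rw [← mL, eL]
    simp [pe]
  have hm2 : m2 ≠ [] := by
    rintro rfl
    apply n2
    rw [← mL, eL]
    simp [pe]
  have len1 : 3 ≤ (a :: b :: m2).length := by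
    have := List.length_pos_iff.2 hm2
    simp only [List.length_cons]; omega
  have len2 : 3 ≤ (a :: (m1 ++ [b])).length := by
    have := List.length_pos_iff.2 hm1
    simp only [List.length_cons, List.length_append, List.length_nil]; omega
  refine ⟨(a :: b :: m2).toFinset, (a :: (m1 ++ [b])).toFinset, ?_, ?_, ?_, ?_, ?_, ?_, ?_, ?_, ?_⟩
  · rw [← fL]
    ext z
    simp only [Finset.mem_union, List.mem_toFinset, List.mem_cons, List.mem_append,
      List.not_mem_nil, or_false]
    tauto
  · ext z
    simp only [Finset.mem_inter, List.mem_toFinset, List.mem_cons, List.mem_append,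
      List.not_mem_nil, or_false, Finset.mem_insert, Finset.mem_singleton]
    constructor
    · rintro ⟨h5, h6⟩
      rcases h5 with h5 | h5 | h5
      · exact Or.inl h5
      · exact Or.inr h5
      · rcases h6 with h6 | h6 | h6
        · exact Or.inl h6
        · exfalso
          rw [List.nodup_cons, List.nodup_append] at nL
          exact nL.2.2.2 z h6 z (List.mem_cons_of_mem b h5) rfl
        · exact Or.inr h6
    · rintro (h5 | h5)
      · exact ⟨Or.inl h5, Or.inl h5⟩
      · exact ⟨Or.inr (Or.inl h5), Or.inr (Or.inr h5)⟩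
  · rw [List.toFinset_card_of_nodup nd1]; exact len1
  · rw [List.toFinset_card_of_nodup nd2]; exact len2
  · rw [← c1.mem_cyc_iff nd1 len1, e1]; simp
  · rw [← c2.mem_cyc_iff nd2 len2, e2]; simp
  · intro u v huv hne
    rw [← c1.mem_cyc_iff nd1 len1, e1, List.mem_cons] at huv
    rw [← mL, eL, List.mem_append]
    rcases huv with h5 | h5
    · exact absurd h5 hne
    · exact Or.inr h5
  · intro u v huv hne
    rw [← c2.mem_cyc_iff nd2 len2, e2, List.mem_append, List.mem_singleton] at huv
    rw [← mL, eL, List.mem_append]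
    rcases huv with h5 | h5
    · exact Or.inl h5
    · exact absurd h5 hne
  · intro u v huv
    rw [← mL, eL, List.mem_append] at huv
    rw [← c1.mem_cyc_iff nd1 len1, e1, ← c2.mem_cyc_iff nd2 len2, e2, List.mem_cons,
      List.mem_append]
    rcases huv with h5 | h5
    · exact Or.inr (Or.inl h5)
    · exact Or.inl (Or.inr h5)

theorem Halves.sub1 {t t1 t2 : Finset Pt} {a b : Pt} (h : Halves t t1 t2 a b) : t1 ⊆ t := by
  rw [← h.union]; exact Finset.subset_union_left

theorem Halves.sub2 {t t1 t2 : Finset Pt} {a b : Pt} (h : Halves t t1 t2 a b) : t2 ⊆ t := by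
  rw [← h.union]; exact Finset.subset_union_right

/-- a full complex stays full when a cell is cut by a diagonal -/
theorem Full.split {P : Finset Pt} {C : Finset (Finset Pt)} (hF : Full P C) {t t1 t2 : Finset Pt}
    {a b : Pt} (ht : t ∈ C) (h : Halves t t1 t2 a b) :
    Full P (insert t1 (insert t2 (C.erase t))) := by
  classical
  have hC := hF.cx
  have hcp := hC.cp t ht
  have cases : ∀ s, s ∈ insert t1 (insert t2 (C.erase t)) ↔ s = t1 ∨ s = t2 ∨ (s ≠ t ∧ s ∈ C) := by
    intro s
    rw [Finset.mem_insert, Finset.mem_insert, Finset.mem_erase]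
  have big : ∀ s ∈ C, s ≠ t → ∀ B ⊆ t, convexHull ℝ (B : Set Pt) ∩ convexHull ℝ (s : Set Pt) ⊆
      convexHull ℝ ((B ∩ s : Finset Pt) : Set Pt) := by
    intro s hs hst B hB
    exact (inter_big hC ht hs (Ne.symm hst) (G := t) (G' := s)
      (fun x hx => subset_convexHull ℝ _ (Finset.mem_coe.2 hx))
      (fun x hx => subset_convexHull ℝ _ (Finset.mem_coe.2 hx))
      (fun u v huv x hx => huv.2.2.2 x hx) (fun u v huv x hx => huv.2.2.2 x hx)
      hB (Finset.Subset.refl s)).1
  have big2 : ∀ s ∈ C, s ≠ t → ∀ B ⊆ t, (B ∩ s).card ≤ 2 := by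
    intro s hs hst B hB
    exact (Finset.card_le_card (Finset.inter_subset_inter_right hB)).trans
      (hC.two t ht s hs (Ne.symm hst))
  have h12 : convexHull ℝ (t1 : Set Pt) ∩ convexHull ℝ (t2 : Set Pt) ⊆
      convexHull ℝ ((t1 ∩ t2 : Finset Pt) : Set Pt) := by
    rintro x ⟨hx1, hx2⟩
    have o1 : 0 ≤ orient a b x := by
      apply orient_nonneg_of_mem_hull a b x _ _ hx1
      intro z hz
      exact h.he1.nonneg z (Finset.mem_coe.1 hz)
    have o2 : 0 ≤ orient b a x := by
      apply orient_nonneg_of_mem_hull b a x _ _ hx2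
      intro z hz
      exact h.he2.nonneg z (Finset.mem_coe.1 hz)
    have o3 : orient a b x = 0 := by
      rw [orient_swap] at o2
      linarith
    have f1 := hull_face h.he1 (Finset.Subset.refl t1) hx1 o3
    have f2 := hull_face h.he2 (Finset.Subset.refl t2) hx2 (by rw [orient_swap, o3, neg_zero])
    rw [Finset.pair_comm] at f2
    exact convexHull_mono (by exact_mod_cast Finset.inter_subset_left) (hull_pair_inter f1 f2)
  refine ⟨⟨?_, ?_, ?_, ?_⟩, ?_, ?_, ?_⟩
  · intro s hs
    rcases (cases s).1 hs with rfl | rfl | h5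
    · exact hcp.mono h.sub1
    · exact hcp.mono h.sub2
    · exact hC.cp s h5.2
  · intro s hs
    rcases (cases s).1 hs with rfl | rfl | h5
    · exact h.three1
    · exact h.three2
    · exact hC.three s h5.2
  · intro s hs r hr hsr
    rcases (cases s).1 hs with rfl | rfl | h5
    · rcases (cases r).1 hr with rfl | rfl | h6
      · exact absurd rfl hsr
      · exact h12
      · exact big r h6.2 h6.1 _ h.sub1
    · rcases (cases r).1 hr with rfl | rfl | h6
      · rw [Set.inter_comm, Finset.inter_comm]; exact h12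
      · exact absurd rfl hsr
      · exact big r h6.2 h6.1 _ h.sub2
    · rcases (cases r).1 hr with rfl | rfl | h6
      · rw [Set.inter_comm, Finset.inter_comm]; exact big s h5.2 h5.1 _ h.sub1
      · rw [Set.inter_comm, Finset.inter_comm]; exact big s h5.2 h5.1 _ h.sub2
      · exact hC.inter s h5.2 r h6.2 hsr
  · intro s hs r hr hsr
    rcases (cases s).1 hs with rfl | rfl | h5
    · rcases (cases r).1 hr with rfl | rfl | h6
      · exact absurd rfl hsr
      · rw [h.inter]; exact Finset.card_le_two
      · exact big2 r h6.2 h6.1 _ h.sub1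
    · rcases (cases r).1 hr with rfl | rfl | h6
      · rw [Finset.inter_comm, h.inter]; exact Finset.card_le_two
      · exact absurd rfl hsr
      · exact big2 r h6.2 h6.1 _ h.sub2
    · rcases (cases r).1 hr with rfl | rfl | h6
      · rw [Finset.inter_comm]; exact big2 s h5.2 h5.1 _ h.sub1
      · rw [Finset.inter_comm]; exact big2 s h5.2 h5.1 _ h.sub2
      · exact hC.two s h5.2 r h6.2 hsr
  · rw [← hF.V_eq]
    ext z
    rw [mem_V, mem_V]
    constructor
    · rintro ⟨s, hs, hz⟩
      rcases (cases s).1 hs with rfl | rfl | h5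
      · exact ⟨t, ht, h.sub1 hz⟩
      · exact ⟨t, ht, h.sub2 hz⟩
      · exact ⟨s, h5.2, hz⟩
    · rintro ⟨s, hs, hz⟩
      by_cases hst : s = t
      · subst hst
        rw [← h.union, Finset.mem_union] at hz
        rcases hz with hz | hz
        · exact ⟨t1, (cases t1).2 (Or.inl rfl), hz⟩
        · exact ⟨t2, (cases t2).2 (Or.inr (Or.inl rfl)), hz⟩
      · exact ⟨s, (cases s).2 (Or.inr (Or.inr ⟨hst, hs⟩)), hz⟩
  · -- sides
    have key : ∀ s ∈ C, ∀ u v, HE s u v → ∃ r ∈ insert t1 (insert t2 (C.erase t)), HE r u v := by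
      intro s hs u v huv
      by_cases hst : s = t
      · subst hst
        rcases h.split u v huv with h5 | h5
        · exact ⟨t1, (cases t1).2 (Or.inl rfl), h5⟩
        · exact ⟨t2, (cases t2).2 (Or.inr (Or.inl rfl)), h5⟩
      · exact ⟨s, (cases s).2 (Or.inr (Or.inr ⟨hst, hs⟩)), huv⟩
    have key2 : ∀ s ∈ C, ∀ u v, HE s u v →
        HE P u v ∨ ∃ r ∈ insert t1 (insert t2 (C.erase t)), HE r v u := by
      intro s hs u v huv
      rcases hF.side s hs u v huv with h5 | ⟨r, hr, h5⟩
      · exact Or.inl h5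
      · exact Or.inr (key r hr v u h5)
    intro s hs u v huv
    rcases (cases s).1 hs with rfl | rfl | h5
    · by_cases he : (u, v) = (a, b)
      · rw [Prod.mk.injEq] at he
        obtain ⟨rfl, rfl⟩ := he
        exact Or.inr ⟨t2, (cases t2).2 (Or.inr (Or.inl rfl)), h.he2⟩
      · exact key2 t ht u v (h.side1 u v huv he)
    · by_cases he : (u, v) = (b, a)
      · rw [Prod.mk.injEq] at he
        obtain ⟨rfl, rfl⟩ := he
        exact Or.inr ⟨t1, (cases t1).2 (Or.inl rfl), h.he1⟩
      · exact key2 t ht u v (h.side2 u v huv he)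
    · exact key2 s h5.2 u v huv
  · intro u v huv
    obtain ⟨s, hs, h5⟩ := hF.hull u v huv
    by_cases hst : s = t
    · subst hst
      rcases h.split u v h5 with h6 | h6
      · exact ⟨t1, (cases t1).2 (Or.inl rfl), h6⟩
      · exact ⟨t2, (cases t2).2 (Or.inr (Or.inl rfl)), h6⟩
    · exact ⟨s, (cases s).2 (Or.inr (Or.inr ⟨hst, hs⟩)), h5⟩

/-- Reach survives when a cell which is not given is cut by a diagonal -/
theorem Reach.split {P : Finset Pt} {C : Finset (Finset Pt)} (hF : Full P C)
    {E : Finset (Finset Pt)} {Cl : Finset (Pt × Pt)} (hR : Reach P C E Cl) {t t1 t2 : Finset Pt}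
    {a b : Pt} (htE : t ∉ E) (h : Halves t t1 t2 a b) :
    Reach P (insert t1 (insert t2 (C.erase t))) E Cl := by
  classical
  have hI := hR.inv hF
  apply hR.change hF (fun _ _ => Iff.rfl)
  · intro s hs
    rw [Finset.mem_insert, Finset.mem_insert, Finset.mem_erase]
    right; right
    exact ⟨fun e => htE (e ▸ hs), hI.sub hs⟩
  · intro u v huv
    rcases hI.real u v huv with h5 | ⟨s, hs, h5⟩
    · exact Or.inl h5
    · right
      by_cases hst : s = t
      · subst hst
        rcases h.split u v h5 with h6 | h6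
        · exact ⟨t1, by simp, h6⟩
        · exact ⟨t2, by simp, h6⟩
      · exact ⟨s, by simp [hst, hs], h5⟩

end Pool.Agent.RFX

end

section

set_option autoImplicit false

/-!
# RFX/Face : merging of cells of a full complex, faces of a resolved edge set (MP_72a26e_co)

`Full.merge`: two neighbour cells of a full complex whose union has convex corners at the two ends
of the common side can be replaced by their union.
`Full.faces`: if `M` contains the hull sides of `P`, all `M`-edges are sides of a full complex `C` and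
every point of `P` is resolved by `M` (or is a hull vertex), then there is a full complex `C'` whose
sides are exactly the `M`-edges; cells of `C` all of whose sides are in `M` are cells of `C'`.
-/

namespace Pool.Agent.RFX

/-- a point of the line a b on the good side of a line through a and of a line through b -/
theorem on_seg {a b p r m : Pt} (hp : 0 < orient p a b) (hr : 0 < orient b r a)
    (h0 : orient a b m = 0) (h1 : 0 ≤ orient p a m) (h2 : 0 ≤ orient b r m) :
    ∃ x y : ℝ, 0 ≤ x ∧ 0 ≤ y ∧ x + y = 1 ∧ m = x • a + y • b := by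
  have hD : orient p a b ≠ 0 := hp.ne'
  set y := orient p a m / orient p a b with hy
  have hm : m = (1 - y) • a + y • b := by
    ext
    · simp only [Prod.fst_add, Prod.smul_fst, smul_eq_mul]
      have e : orient p a b * m.1 = orient p a b * a.1 + orient p a m * (b.1 - a.1) := by
        unfold orient at *
        linear_combination (p.1 - a.1) * h0
      have : m.1 = a.1 + y * (b.1 - a.1) := by
        rw [hy]; field_simp; linarith
      rw [this]; ring
    · simp only [Prod.snd_add, Prod.smul_snd, smul_eq_mul]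
      have e : orient p a b * m.2 = orient p a b * a.2 + orient p a m * (b.2 - a.2) := by
        unfold orient at *
        linear_combination (p.2 - a.2) * h0
      have : m.2 = a.2 + y * (b.2 - a.2) := by
        rw [hy]; field_simp; linarith
      rw [this]; ring
  have hy0 : 0 ≤ y := div_nonneg h1 hp.le
  have hx0 : 0 ≤ 1 - y := by
    have h3 : orient b r m = (1 - y) * orient b r a := by
      conv_lhs => rw [hm]
      rw [orient_comb2 b r a b (1 - y) y (by ring), orient_self2, mul_zero, add_zero]
    rw [h3] at h2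
    exact nonneg_of_mul_nonneg_left h2 hr
  exact ⟨1 - y, y, hx0, hy0, by ring, hm⟩

/-- two convex hulls on the two sides of a common chord a b whose union is locally convex at a
and b: the union is convex -/
theorem convex_union {s t : Finset Pt} {a b p r : Pt} (hs : ∀ c ∈ s, 0 ≤ orient a b c)
    (ht : ∀ c ∈ t, orient a b c ≤ 0) (has : a ∈ s) (hbs : b ∈ s) (hat : a ∈ t) (hbt : b ∈ t)
    (hp : 0 < orient p a b) (hr : 0 < orient b r a)
    (hps : ∀ c ∈ s, 0 ≤ orient p a c) (hpt : ∀ c ∈ t, 0 ≤ orient p a c)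
    (hrs : ∀ c ∈ s, 0 ≤ orient b r c) (hrt : ∀ c ∈ t, 0 ≤ orient b r c) :
    Convex ℝ (convexHull ℝ (s : Set Pt) ∪ convexHull ℝ (t : Set Pt)) := by
  have cs := convex_convexHull ℝ (s : Set Pt)
  have ct := convex_convexHull ℝ (t : Set Pt)
  have seg : ∀ m : Pt, orient a b m = 0 → 0 ≤ orient p a m → 0 ≤ orient b r m →
      m ∈ convexHull ℝ (s : Set Pt) ∧ m ∈ convexHull ℝ (t : Set Pt) := by
    intro m h0 h1 h2
    obtain ⟨x, y, hx, hy, hxy, rfl⟩ := on_seg hp hr h0 h1 h2
    constructor
    · exact cs (subset_convexHull ℝ _ has) (subset_convexHull ℝ _ hbs) hx hy hxy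
    · exact ct (subset_convexHull ℝ _ hat) (subset_convexHull ℝ _ hbt) hx hy hxy
  have key : ∀ x ∈ convexHull ℝ (s : Set Pt), ∀ y ∈ convexHull ℝ (t : Set Pt), ∀ u v : ℝ,
      0 ≤ u → 0 ≤ v → u + v = 1 → u • x + v • y ∈
        convexHull ℝ (s : Set Pt) ∪ convexHull ℝ (t : Set Pt) := by
    intro x hx y hy u v hu hv huv
    have gx : 0 ≤ orient a b x := orient_nonneg_of_mem_hull a b x _ (fun q hq => hs q hq) hx
    have gy : orient a b y ≤ 0 := orient_nonpos_of_mem_hull a b y _ (fun q hq => ht q hq) hy
    have px : 0 ≤ orient p a x := orient_nonneg_of_mem_hull p a x _ (fun q hq => hps q hq) hx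
    have py : 0 ≤ orient p a y := orient_nonneg_of_mem_hull p a y _ (fun q hq => hpt q hq) hy
    have rx : 0 ≤ orient b r x := orient_nonneg_of_mem_hull b r x _ (fun q hq => hrs q hq) hx
    have ry : 0 ≤ orient b r y := orient_nonneg_of_mem_hull b r y _ (fun q hq => hrt q hq) hy
    rcases eq_or_lt_of_le gx with h | gx'
    · right
      exact ct (seg x h.symm px rx).2 hy hu hv huv
    rcases eq_or_lt_of_le gy with h | gy'
    · left
      exact cs hx (seg y h py ry).1 hu hv huv
    set G := orient a b x with hG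
    set H := - orient a b y with hH
    have hH0 : 0 < H := by rw [hH]; linarith
    have hGH : 0 < G + H := by linarith
    -- the crossing point
    set m : Pt := (H / (G + H)) • x + (G / (G + H)) • y with hm
    have hw : H / (G + H) + G / (G + H) = 1 := by field_simp; ring
    have hw1 : 0 ≤ H / (G + H) := by positivity
    have hw2 : 0 ≤ G / (G + H) := div_nonneg gx'.le hGH.le
    have m0 : orient a b m = 0 := by
      rw [hm, orient_comb2 a b x y _ _ hw, ← hG]
      have : orient a b y = - H := by rw [hH]; ring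
      rw [this]; field_simp; ring
    have m1 : 0 ≤ orient p a m := by
      rw [hm, orient_comb2 p a x y _ _ hw]
      exact add_nonneg (mul_nonneg hw1 px) (mul_nonneg hw2 py)
    have m2 : 0 ≤ orient b r m := by
      rw [hm, orient_comb2 b r x y _ _ hw]
      exact add_nonneg (mul_nonneg hw1 rx) (mul_nonneg hw2 ry)
    obtain ⟨ms, mt⟩ := seg m m0 m1 m2
    rcases le_total (v * H) (u * G) with hle | hle
    · left
      set k := v * (G + H) / G with hk
      have hk0 : 0 ≤ k := div_nonneg (mul_nonneg hv hGH.le) gx'.le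
      have hk1 : k ≤ 1 := by
        rw [hk, div_le_one gx']
        have : u = 1 - v := by linarith
        subst this
        linarith
      have e : u • x + v • y = (1 - k) • x + k • m := by
        have hu' : u = 1 - v := by linarith
        have c1 : k * (H / (G + H)) = v * H / G := by rw [hk]; field_simp
        have c2 : k * (G / (G + H)) = v := by rw [hk]; field_simp
        have c3 : k = v + v * H / G := by rw [hk]; field_simp
        rw [hm, smul_add, smul_smul, smul_smul, c1, c2, ← add_assoc, ← add_smul, c3, hu']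
        congr 2
        ring
      rw [e]
      exact cs hx ms (by linarith) hk0 (by ring)
    · right
      set k := u * (G + H) / H with hk
      have hk0 : 0 ≤ k := div_nonneg (mul_nonneg hu hGH.le) hH0.le
      have hk1 : k ≤ 1 := by
        rw [hk, div_le_one hH0]
        have : v = 1 - u := by linarith
        subst this
        linarith
      have e : u • x + v • y = k • m + (1 - k) • y := by
        have hv' : v = 1 - u := by linarith
        have c1 : k * (H / (G + H)) = u := by rw [hk]; field_simp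
        have c2 : k * (G / (G + H)) = u * G / H := by rw [hk]; field_simp
        have c3 : k = u + u * G / H := by rw [hk]; field_simp; ring
        rw [hm, smul_add, smul_smul, smul_smul, c1, c2, add_assoc, ← add_smul, c3, hv']
        congr 2
        ring
      rw [e]
      exact ct mt hy hk0 (by linarith) (by ring)
  intro x hx y hy u v hu hv huv
  rcases hx with hx | hx
  · rcases hy with hy | hy
    · left; exact cs hx hy hu hv huv
    · exact key x hx y hy u v hu hv huv
  · rcases hy with hy | hy
    · have := key y hy x hx v u hv hu (by linarith)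
      rwa [add_comm] at this
    · right; exact ct hx hy hu hv huv

/-- the side before a of s is a side of s ∪ t -/
theorem merge_left {s t : Finset Pt} {a b p d : Pt} (hs3 : 3 ≤ s.card) (hab : HE s a b)
    (hba : HE t b a) (hp : HE s p a) (hd : HE t a d) (ka : 0 < orient p a d) :
    ∀ c ∈ t, c ≠ a → 0 < orient p a c := by
  intro c hc hca
  have hpb : b ≠ p := by
    rintro rfl
    exact hab.not_both hp hs3
  have h1 : 0 < orient p a b := hp.2.2.2 b hab.2.1 hpb hab.2.2.1.symm
  by_cases hcb : c = b
  · rw [hcb]; exact h1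
  have hdb : d ≠ b := by
    rintro rfl
    have := hp.2.2.2
    have h5 := hba.2.2.2
    -- then t has the sides b a and a b
    exact (show ¬ (HE t d a ∧ HE t a d) from fun h => by
      have hc' := h.1.2.2.2 c hc hcb hca
      have hc'' := h.2.2.2.2 c hc hca hcb
      rw [orient_swap] at hc''
      linarith) ⟨hba, hd⟩
  have h2 : 0 < orient b a d := hba.2.2.2 d hd.2.1 hdb hd.2.2.1.symm
  have h3 : 0 < orient b a c := hba.2.2.2 c hc hcb hca
  have h4 : 0 ≤ orient a d c := hd.nonneg c hc
  have id : orient b a d * orient p a c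
      = orient b a c * orient p a d + orient a d c * orient p a b := by
    unfold orient; ring
  have h5 : 0 < orient b a d * orient p a c := by
    rw [id]
    have := mul_pos h3 ka
    have := mul_nonneg h4 h1.le
    linarith
  exact pos_of_mul_pos_right h5 h2.le

theorem merge_right {s t : Finset Pt} {a b q e : Pt} (hs3 : 3 ≤ s.card) (hab : HE s a b)
    (hba : HE t b a) (hq : HE s b q) (he : HE t e b) (kb : 0 < orient e b q) :
    ∀ c ∈ t, c ≠ b → 0 < orient b q c := by
  intro c hc hcb
  have hqa : a ≠ q := by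
    rintro rfl
    exact hab.not_both hq hs3
  have h1 : 0 < orient b q a := hq.2.2.2 a hab.1 hab.2.2.1 hqa
  by_cases hca : c = a
  · rw [hca]; exact h1
  have hea : e ≠ a := by
    rintro rfl
    have hc' := he.2.2.2 c hc hca hcb
    have hc'' := hba.2.2.2 c hc hcb hca
    rw [orient_swap] at hc''
    linarith
  have h2 : 0 < orient b a e := hba.2.2.2 e he.1 he.2.2.1 hea
  have h3 : 0 < orient b a c := hba.2.2.2 c hc hcb hca
  have h4 : 0 ≤ orient e b c := he.nonneg c hc
  have id : orient b a e * orient b q c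
      = orient b a c * orient e b q + orient e b c * orient b q a := by
    unfold orient; ring
  have h5 : 0 < orient b a e * orient b q c := by
    rw [id]
    have := mul_pos h3 kb
    have := mul_nonneg h4 h1.le
    linarith
  exact pos_of_mul_pos_right h5 h2.le

theorem inter_eq_pair {C : Finset (Finset Pt)} (hC : Cx C) {s t : Finset Pt} (hs : s ∈ C)
    (ht : t ∈ C) (hst : s ≠ t) {a b : Pt} (hab : HE s a b) (hba : HE t b a) : s ∩ t = {a, b} := by
  symm
  apply Finset.eq_of_subset_of_card_le
  · intro x hx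
    simp only [Finset.mem_insert, Finset.mem_singleton] at hx
    rcases hx with rfl | rfl
    · exact Finset.mem_inter.2 ⟨hab.1, hba.2.1⟩
    · exact Finset.mem_inter.2 ⟨hab.2.1, hba.1⟩
  · rw [Finset.card_pair hab.2.2.1]
    exact hC.two s hs t ht hst

/-- the data of a merge -/
structure MG (C : Finset (Finset Pt)) (s t : Finset Pt) (a b p d q e : Pt) : Prop where
  hs : s ∈ C
  ht : t ∈ C
  hab : HE s a b
  hba : HE t b a
  hp : HE s p a
  hd : HE t a d
  hq : HE s b q
  he : HE t e b
  ka : 0 < orient p a d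
  kb : 0 < orient e b q

theorem MG.symm {C : Finset (Finset Pt)} {s t : Finset Pt} {a b p d q e : Pt}
    (h : MG C s t a b p d q e) : MG C t s b a e q d p :=
  ⟨h.ht, h.hs, h.hba, h.hab, h.he, h.hq, h.hd, h.hp, h.kb, h.ka⟩

theorem MG.ne {C : Finset (Finset Pt)} (hC : Cx C) {s t : Finset Pt} {a b p d q e : Pt}
    (h : MG C s t a b p d q e) : s ≠ t := by
  rintro rfl
  exact h.hab.not_both h.hba (hC.three s h.hs)

theorem MG.side_pa {C : Finset (Finset Pt)} (hC : Cx C) {s t : Finset Pt} {a b p d q e : Pt}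
    (h : MG C s t a b p d q e) : HE (s ∪ t) p a := by
  refine ⟨Finset.mem_union_left _ h.hp.1, Finset.mem_union_left _ h.hp.2.1, h.hp.2.2.1, ?_⟩
  intro c hc hcp hca
  rcases Finset.mem_union.1 hc with hc | hc
  · exact h.hp.2.2.2 c hc hcp hca
  · exact merge_left (hC.three s h.hs) h.hab h.hba h.hp h.hd h.ka c hc hca

theorem MG.side_bq {C : Finset (Finset Pt)} (hC : Cx C) {s t : Finset Pt} {a b p d q e : Pt}
    (h : MG C s t a b p d q e) : HE (s ∪ t) b q := by
  refine ⟨Finset.mem_union_left _ h.hq.1, Finset.mem_union_left _ h.hq.2.1, h.hq.2.2.1, ?_⟩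
  intro c hc hcb hcq
  rcases Finset.mem_union.1 hc with hc | hc
  · exact h.hq.2.2.2 c hc hcb hcq
  · exact merge_right (hC.three s h.hs) h.hab h.hba h.hq h.he h.kb c hc hcb

theorem MG.conv {C : Finset (Finset Pt)} (hC : Cx C) {s t : Finset Pt} {a b p d q e : Pt}
    (h : MG C s t a b p d q e) {s' t' : Finset Pt} (hs' : s' ⊆ s) (ht' : t' ⊆ t)
    (ha : a ∈ s') (hb : b ∈ s') (ha' : a ∈ t') (hb' : b ∈ t') :
    convexHull ℝ ((s' ∪ t' : Finset Pt) : Set Pt) ⊆
      convexHull ℝ (s' : Set Pt) ∪ convexHull ℝ (t' : Set Pt) := by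
  have h3 := hC.three s h.hs
  have hpb : b ≠ p := by
    rintro rfl
    exact h.hab.not_both h.hp h3
  have hqa : a ≠ q := by
    rintro rfl
    exact h.hab.not_both h.hq h3
  have hconv := convex_union (s := s') (t := t') (a := a) (b := b) (p := p) (r := q)
    (fun c hc => h.hab.nonneg c (hs' hc))
    (fun c hc => by
      have := h.hba.nonneg c (ht' hc)
      rw [orient_swap] at this; linarith)
    ha hb ha' hb'
    (h.hp.2.2.2 b h.hab.2.1 hpb h.hab.2.2.1.symm)
    (h.hq.2.2.2 a h.hab.1 h.hab.2.2.1 hqa)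
    (fun c hc => h.hp.nonneg c (hs' hc))
    (fun c hc => (h.side_pa hC).nonneg c (Finset.mem_union_right _ (ht' hc)))
    (fun c hc => h.hq.nonneg c (hs' hc))
    (fun c hc => (h.side_bq hC).nonneg c (Finset.mem_union_right _ (ht' hc)))
  apply convexHull_min _ hconv
  intro x hx
  rw [Finset.coe_union] at hx
  rcases hx with hx | hx
  · exact Or.inl (subset_convexHull ℝ _ hx)
  · exact Or.inr (subset_convexHull ℝ _ hx)

theorem MG.hull_eq {C : Finset (Finset Pt)} (hC : Cx C) {s t : Finset Pt} {a b p d q e : Pt}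
    (h : MG C s t a b p d q e) : convexHull ℝ ((s ∪ t : Finset Pt) : Set Pt) =
      convexHull ℝ (s : Set Pt) ∪ convexHull ℝ (t : Set Pt) := by
  apply Set.Subset.antisymm
  · exact h.conv hC (Finset.Subset.refl s) (Finset.Subset.refl t) h.hab.1 h.hab.2.1 h.hba.2.1
      h.hba.1
  · apply Set.union_subset
    · exact convexHull_mono (by exact_mod_cast Finset.subset_union_left)
    · exact convexHull_mono (by exact_mod_cast Finset.subset_union_right)

/-- a vertex of s which is not a, b is extreme in the union -/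
theorem MG.extreme {C : Finset (Finset Pt)} (hC : Cx C) {s t : Finset Pt} {a b p d q e : Pt}
    (h : MG C s t a b p d q e) {v : Pt} (hv : v ∈ s) (hva : v ≠ a) (hvb : v ≠ b) :
    v ∉ convexHull ℝ (((s ∪ t).erase v : Finset Pt) : Set Pt) := by
  classical
  intro hmem
  have hI := inter_eq_pair hC h.hs h.ht (h.ne hC) h.hab h.hba
  have hvt : v ∉ t := by
    intro hvt
    have : v ∈ s ∩ t := Finset.mem_inter.2 ⟨hv, hvt⟩
    rw [hI] at this
    simp only [Finset.mem_insert, Finset.mem_singleton] at this
    rcases this with h1 | h1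
    · exact hva h1
    · exact hvb h1
  obtain ⟨y, hy⟩ := (hC.cp s h.hs).exists_succ (hC.three s h.hs) hv
  have e1 : (s ∪ t).erase v = s.erase v ∪ t := by
    rw [Finset.erase_union_distrib, Finset.erase_eq_of_notMem hvt]
  rw [e1] at hmem
  have h2 := h.conv hC (Finset.erase_subset v s) (Finset.Subset.refl t)
    (Finset.mem_erase.2 ⟨hva.symm, h.hab.1⟩) (Finset.mem_erase.2 ⟨hvb.symm, h.hab.2.1⟩)
    h.hba.2.1 h.hba.1 hmem
  rcases h2 with h2 | h2
  · have := hy.mem_left (Finset.erase_subset v s) h2
    simp at this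
  · have h3 := hC.inter s h.hs t h.ht (h.ne hC)
      ⟨subset_convexHull ℝ _ (Finset.mem_coe.2 hv), h2⟩
    have := hy.mem_left Finset.inter_subset_left h3
    exact hvt (Finset.mem_inter.1 this).2

theorem MG.cp {P : Finset Pt} (hG : Gen P) {C : Finset (Finset Pt)} (hC : Cx C)
    (hP : ∀ t ∈ C, t ⊆ P) {s t : Finset Pt} {a b p d q e : Pt}
    (h : MG C s t a b p d q e) : CP (s ∪ t) := by
  classical
  apply exists_ccw
  · exact hG.mono (Finset.union_subset (hP s h.hs) (hP t h.ht))
  · intro v hv hmem
    rw [← Finset.coe_erase] at hmem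
    by_cases hva : v = a
    · subst hva
      have := (h.side_pa hC).mem_right (Finset.erase_subset v (s ∪ t)) hmem
      simp at this
    by_cases hvb : v = b
    · subst hvb
      have := (h.side_bq hC).mem_left (Finset.erase_subset v (s ∪ t)) hmem
      simp at this
    rcases Finset.mem_union.1 hv with hv | hv
    · exact h.extreme hC hv hva hvb hmem
    · rw [Finset.union_comm] at hmem
      exact h.symm.extreme hC hv hvb hva hmem

/-- no side of the union crosses from s to t -/
theorem MG.no_cross {C : Finset (Finset Pt)} (hC : Cx C) {s t : Finset Pt} {a b p d q e : Pt}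
    (h : MG C s t a b p d q e) {x y z : Pt} (hax : 0 < orient x y a) (hbx : 0 < orient x y b)
    (hz : z ∈ convexHull ℝ ((s ∪ t : Finset Pt) : Set Pt)) (h0 : orient a b z = 0)
    (h1 : orient x y z = 0) : False := by
  have hz' : z ∈ convexHull ℝ ((({a, b} : Finset Pt)) : Set Pt) := by
    rw [h.hull_eq hC] at hz
    rcases hz with hz | hz
    · have := hull_face h.hab (Finset.Subset.refl s) hz h0
      exact convexHull_mono (by exact_mod_cast Finset.inter_subset_right) this
    · have := hull_face h.hba (Finset.Subset.refl t) hz (by rw [orient_swap, h0, neg_zero])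
      rw [Finset.pair_comm] at this
      exact convexHull_mono (by exact_mod_cast Finset.inter_subset_right) this
  rw [Finset.coe_insert, Finset.coe_singleton, convexHull_pair] at hz'
  obtain ⟨u, v, hu, hv, huv, rfl⟩ := hz'
  rw [orient_comb2 x y a b u v huv] at h1
  have h2 := mul_nonneg hu hax.le
  have h3 := mul_nonneg hv hbx.le
  have h4 : u * orient x y a = 0 := by linarith
  have h5 : v * orient x y b = 0 := by linarith
  rcases mul_eq_zero.1 h4 with h6 | h6
  · rcases mul_eq_zero.1 h5 with h7 | h7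
    · rw [h6, h7] at huv; norm_num at huv
    · exact hbx.ne' h7
  · exact hax.ne' h6

theorem MG.side_cases {C : Finset (Finset Pt)} (hC : Cx C) {s t : Finset Pt} {a b p d q e : Pt}
    (h : MG C s t a b p d q e) {x y : Pt} (hxy : HE (s ∪ t) x y) :
    (HE s x y ∨ HE t x y) ∧ (x, y) ≠ (a, b) ∧ (x, y) ≠ (b, a) := by
  have hne := h.ne hC
  have hI := inter_eq_pair hC h.hs h.ht hne h.hab h.hba
  have hsa : s ⊆ s ∪ t := Finset.subset_union_left
  have hta : t ⊆ s ∪ t := Finset.subset_union_right
  obtain ⟨cs, hcs, hcsa, hcsb⟩ := HE.exists_third (t := s) a b (hC.three s h.hs)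
  obtain ⟨ct, hct, hcta, hctb⟩ := HE.exists_third (t := t) a b (hC.three t h.ht)
  have ps := h.hab.2.2.2 cs hcs hcsa hcsb
  have pt := h.hba.2.2.2 ct hct hctb hcta
  have n1 : (x, y) ≠ (a, b) := by
    intro e1
    rw [Prod.mk.injEq] at e1
    obtain ⟨rfl, rfl⟩ := e1
    have := hxy.2.2.2 ct (hta hct) hcta hctb
    rw [orient_swap] at this; linarith
  have n2 : (x, y) ≠ (b, a) := by
    intro e1
    rw [Prod.mk.injEq] at e1
    obtain ⟨rfl, rfl⟩ := e1
    have := hxy.2.2.2 cs (hsa hcs) hcsb hcsa
    rw [orient_swap] at this; linarith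
  refine ⟨?_, n1, n2⟩
  -- a point of s not in t and a point of t not in s can not be joined by a side
  have main : ∀ z ∈ s, z ∉ t → ∀ w ∈ t, w ∉ s → (HE (s ∪ t) z w ∨ HE (s ∪ t) w z) → False := by
    intro z hz hzt w hw hws hzw
    have hza : z ≠ a := fun e1 => hzt (e1 ▸ h.hba.2.1)
    have hzb : z ≠ b := fun e1 => hzt (e1 ▸ h.hba.1)
    have hwa : w ≠ a := fun e1 => hws (e1 ▸ h.hab.1)
    have hwb : w ≠ b := fun e1 => hws (e1 ▸ h.hab.2.1)
    have gz : 0 < orient a b z := h.hab.2.2.2 z hz hza hzb
    have gw : 0 < - orient a b w := by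
      have := h.hba.2.2.2 w hw hwb hwa
      rw [orient_swap] at this; linarith
    set G := orient a b z with hGd
    set H := - orient a b w with hHd
    have hw1 : H / (G + H) + G / (G + H) = 1 := by
      have : G + H ≠ 0 := by positivity
      field_simp; ring
    set m : Pt := (H / (G + H)) • z + (G / (G + H)) • w with hm
    have m0 : orient a b m = 0 := by
      rw [hm, orient_comb2 a b z w _ _ hw1, ← hGd]
      have : orient a b w = - H := by rw [hHd]; ring
      rw [this]; field_simp; ring
    have mh : m ∈ convexHull ℝ ((s ∪ t : Finset Pt) : Set Pt) := by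
      apply convex_convexHull ℝ _ (subset_convexHull ℝ _ (Finset.mem_coe.2 (hsa hz)))
        (subset_convexHull ℝ _ (Finset.mem_coe.2 (hta hw))) (by positivity) (by positivity) hw1
    rcases hzw with hzw | hzw
    · refine h.no_cross hC (hzw.2.2.2 a (hsa h.hab.1) hza.symm hwa.symm)
        (hzw.2.2.2 b (hsa h.hab.2.1) hzb.symm hwb.symm) mh m0 ?_
      rw [hm, orient_comb2 z w z w _ _ hw1, orient_self2, orient_self3]; ring
    · refine h.no_cross hC (hzw.2.2.2 a (hsa h.hab.1) hwa.symm hza.symm)
        (hzw.2.2.2 b (hsa h.hab.2.1) hwb.symm hzb.symm) mh m0 ?_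
      rw [hm, orient_comb2 w z z w _ _ hw1, orient_self2, orient_self3]; ring
  by_cases hxs : x ∈ s
  · by_cases hys : y ∈ s
    · exact Or.inl (hxy.sub hsa hxs hys)
    · have hyt : y ∈ t := (Finset.mem_union.1 hxy.2.1).resolve_left hys
      by_cases hxt : x ∈ t
      · exact Or.inr (hxy.sub hta hxt hyt)
      · exact absurd (Or.inl hxy) (fun h' => main x hxs hxt y hyt hys h')
  · have hxt : x ∈ t := (Finset.mem_union.1 hxy.1).resolve_left hxs
    by_cases hyt : y ∈ t
    · exact Or.inr (hxy.sub hta hxt hyt)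
    · have hys : y ∈ s := (Finset.mem_union.1 hxy.2.1).resolve_right hyt
      exact absurd (Or.inr hxy) (fun h' => main y hys hyt x hxt hxs h')

/-- the other sides of s are sides of the union -/
theorem MG.side_of {P : Finset Pt} (hG : Gen P) {C : Finset (Finset Pt)} (hC : Cx C)
    (hP : ∀ t ∈ C, t ⊆ P) {s t : Finset Pt} {a b p d q e : Pt}
    (h : MG C s t a b p d q e) {x y : Pt} (hxy : HE s x y) (hn : (x, y) ≠ (a, b)) :
    HE (s ∪ t) x y := by
  have hne := h.ne hC
  have hI := inter_eq_pair hC h.hs h.ht hne h.hab h.hba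
  have h3 : 3 ≤ (s ∪ t).card :=
    (hC.three s h.hs).trans (Finset.card_le_card Finset.subset_union_left)
  obtain ⟨z, hz⟩ := (h.cp hG hC hP).exists_succ h3 (Finset.mem_union_left t hxy.1)
  obtain ⟨h1, h2, h4⟩ := h.side_cases hC hz
  rcases h1 with h1 | h1
  · have := h1.succ_unique hxy
    subst this
    exact hz
  · -- x in t as well, so x is a or b
    have hx : x ∈ s ∩ t := Finset.mem_inter.2 ⟨hxy.1, h1.1⟩
    rw [hI] at hx
    simp only [Finset.mem_insert, Finset.mem_singleton] at hx
    rcases hx with rfl | rfl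
    · have := h.hab.succ_unique hxy
      subst this
      exact absurd rfl hn
    · have := h.hba.succ_unique h1
      subst this
      exact absurd rfl h4

theorem union_two_aux {A B : Finset Pt} (hA : A.card ≤ 2) (hB : B.card ≤ 2) (hG : Gen (A ∪ B))
    (h : ∀ m ∈ convexHull ℝ ((A ∪ B : Finset Pt) : Set Pt),
      m ∈ convexHull ℝ (A : Set Pt) ∨ m ∈ convexHull ℝ (B : Set Pt))
    {x y z : Pt} (hx : x ∈ A) (hy : y ∈ A) (hxy : x ≠ y) (hz : z ∈ B) (hzA : z ∉ A)
    (hxB : x ∉ B) : False := by
  have hAe : A = {x, y} := by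
    symm
    apply Finset.eq_of_subset_of_card_le
    · intro u hu
      simp only [Finset.mem_insert, Finset.mem_singleton] at hu
      rcases hu with rfl | rfl
      · exact hx
      · exact hy
    · rw [Finset.card_pair hxy]; exact hA
  have hzx : z ≠ x := fun e => hzA (e ▸ hx)
  have hzy : z ≠ y := fun e => hzA (e ▸ hy)
  have mx : x ∈ A ∪ B := Finset.mem_union_left _ hx
  have my : y ∈ A ∪ B := Finset.mem_union_left _ hy
  have mz : z ∈ A ∪ B := Finset.mem_union_right _ hz
  have hw : ∃ w, w ∈ A ∪ B ∧ B ⊆ {z, w} ∧ w ≠ x ∧ w ≠ z := by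
    by_cases h1 : ∃ w ∈ B, w ≠ z
    · obtain ⟨w, hw, hwz⟩ := h1
      refine ⟨w, Finset.mem_union_right _ hw, ?_, fun e => hxB (e ▸ hw), hwz⟩
      have : ({z, w} : Finset Pt) = B := by
        apply Finset.eq_of_subset_of_card_le
        · intro u hu
          simp only [Finset.mem_insert, Finset.mem_singleton] at hu
          rcases hu with rfl | rfl
          · exact hz
          · exact hw
        · rw [Finset.card_pair (Ne.symm hwz)]; exact hB
      rw [this]
    · push Not at h1
      refine ⟨y, my, ?_, Ne.symm hxy, Ne.symm hzy⟩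
      intro u hu
      rw [h1 u hu]; simp
  obtain ⟨w, mw, hBw, hwx, hwz⟩ := hw
  have test : ∀ u v k : ℝ, 0 < u → 0 < v → 0 < k → u + v + k = 1 →
      orient z w (u • x + v • y + k • z) = 0 := by
    intro u v k hu hv hk huv
    have hm : u • x + v • y + k • z ∈ convexHull ℝ ((A ∪ B : Finset Pt) : Set Pt) :=
      mem_hull3_of_comb x y z u v k hu.le hv.le hk.le huv _ mx my mz
    rcases h _ hm with h1 | h1
    · exfalso
      rw [hAe] at h1
      have h2 := orient_zero_of_mem_pair h1
      rw [orient_comb3 x y x y z u v k huv, orient_self2, orient_self3] at h2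
      have h3 := hG x mx y my z mz hxy (Ne.symm hzx) (Ne.symm hzy)
      have h4 : k * orient x y z = 0 := by linarith
      rcases mul_eq_zero.1 h4 with h5 | h5
      · exact hk.ne' h5
      · exact h3 h5
    · apply orient_zero_of_mem_pair
      exact convexHull_mono (by exact_mod_cast hBw) h1
  have t1 := test (1/2) (1/4) (1/4) (by norm_num) (by norm_num) (by norm_num) (by norm_num)
  have t2 := test (1/4) (1/2) (1/4) (by norm_num) (by norm_num) (by norm_num) (by norm_num)
  rw [orient_comb3 z w x y z _ _ _ (by norm_num), orient_self2] at t1 t2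
  have h3 := hG z mz w mw x mx (Ne.symm hwz) hzx hwx
  apply h3
  linarith

theorem union_two {A B : Finset Pt} (hA : A.card ≤ 2) (hB : B.card ≤ 2) (hG : Gen (A ∪ B))
    (h : ∀ m ∈ convexHull ℝ ((A ∪ B : Finset Pt) : Set Pt),
      m ∈ convexHull ℝ (A : Set Pt) ∨ m ∈ convexHull ℝ (B : Set Pt)) : (A ∪ B).card ≤ 2 := by
  classical
  by_contra hgt
  push Not at hgt
  have h1 : ∃ x ∈ A, x ∉ B := by
    by_contra hno
    push Not at hno
    have : A ∪ B = B := Finset.union_eq_right.2 hno
    rw [this] at hgt; omega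
  have h2 : ∃ z ∈ B, z ∉ A := by
    by_contra hno
    push Not at hno
    have : A ∪ B = A := Finset.union_eq_left.2 hno
    rw [this] at hgt; omega
  obtain ⟨x, hx, hxB⟩ := h1
  obtain ⟨z, hz, hzA⟩ := h2
  obtain ⟨y, hy, hyx, hyz⟩ := HE.exists_third (t := A ∪ B) x z (by omega)
  rcases Finset.mem_union.1 hy with hy | hy
  · exact union_two_aux hA hB hG h hx hy (Ne.symm hyx) hz hzA hxB
  · refine union_two_aux hB hA (by rw [Finset.union_comm]; exact hG) ?_ hz hy (Ne.symm hyz) hx hxB
      hzA
    intro m hm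
    rw [Finset.union_comm] at hm
    exact (h m hm).symm

/-- merging two neighbour cells -/
theorem Full.merge {P : Finset Pt} {C : Finset (Finset Pt)} (hF : Full P C) (hG : Gen P)
    {s t : Finset Pt} {a b p d q e : Pt} (h : MG C s t a b p d q e) :
    Full P (insert (s ∪ t) ((C.erase s).erase t)) ∧
    (∀ x y, (∃ r ∈ insert (s ∪ t) ((C.erase s).erase t), HE r x y) ↔
      ((∃ r ∈ C, HE r x y) ∧ (x, y) ≠ (a, b) ∧ (x, y) ≠ (b, a))) := by
  classical
  have hC := hF.cx
  have hP : ∀ t ∈ C, t ⊆ P := by
    intro t ht x hx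
    rw [← hF.V_eq]
    exact (mem_V C x).2 ⟨t, ht, hx⟩
  have hne := h.ne hC
  have hI := inter_eq_pair hC h.hs h.ht hne h.hab h.hba
  have hcp := h.cp hG hC hP
  have hmem : ∀ r, r ∈ (C.erase s).erase t ↔ r ≠ t ∧ r ≠ s ∧ r ∈ C := by
    intro r; rw [Finset.mem_erase, Finset.mem_erase]
  have h3q : 3 ≤ (s ∪ t).card :=
    (hC.three s h.hs).trans (Finset.card_le_card Finset.subset_union_left)
  have key0 : ∀ r ∈ (C.erase s).erase t, ∀ z ∈ convexHull ℝ ((s ∪ t : Finset Pt) : Set Pt),
      z ∈ convexHull ℝ (r : Set Pt) → z ∈ convexHull ℝ ((s ∩ r : Finset Pt) : Set Pt) ∨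
        z ∈ convexHull ℝ ((t ∩ r : Finset Pt) : Set Pt) := by
    rintro r hr z hz1 hz2
    obtain ⟨hrt, hrs, hrC⟩ := (hmem r).1 hr
    rw [h.hull_eq hC] at hz1
    rcases hz1 with hz1 | hz1
    · exact Or.inl (hC.inter s h.hs r hrC (Ne.symm hrs) ⟨hz1, hz2⟩)
    · exact Or.inr (hC.inter t h.ht r hrC (Ne.symm hrt) ⟨hz1, hz2⟩)
  have key : ∀ r ∈ (C.erase s).erase t, convexHull ℝ ((s ∪ t : Finset Pt) : Set Pt) ∩
      convexHull ℝ (r : Set Pt) ⊆ convexHull ℝ (((s ∪ t) ∩ r : Finset Pt) : Set Pt) := by
    rintro r hr z ⟨hz1, hz2⟩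
    have e1 : (s ∩ r) ⊆ (s ∪ t) ∩ r := Finset.inter_subset_inter_right Finset.subset_union_left
    have e2 : (t ∩ r) ⊆ (s ∪ t) ∩ r := Finset.inter_subset_inter_right Finset.subset_union_right
    rcases key0 r hr z hz1 hz2 with hz | hz
    · exact convexHull_mono (by exact_mod_cast e1) hz
    · exact convexHull_mono (by exact_mod_cast e2) hz
  have key2 : ∀ r ∈ (C.erase s).erase t, ((s ∪ t) ∩ r).card ≤ 2 := by
    intro r hr
    obtain ⟨hrt, hrs, hrC⟩ := (hmem r).1 hr
    have e1 : (s ∪ t) ∩ r = (s ∩ r) ∪ (t ∩ r) := Finset.union_inter_distrib_right s t r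
    rw [e1]
    apply union_two (hC.two s h.hs r hrC (Ne.symm hrs)) (hC.two t h.ht r hrC (Ne.symm hrt))
    · apply hG.mono
      rw [← e1]
      exact Finset.inter_subset_right.trans (hP r hrC)
    · intro m hm
      rw [← e1] at hm
      apply key0 r hr m
      · exact convexHull_mono (by exact_mod_cast Finset.inter_subset_left) hm
      · exact convexHull_mono (by exact_mod_cast Finset.inter_subset_right) hm
  have hCx : Cx (insert (s ∪ t) ((C.erase s).erase t)) := by
    refine ⟨?_, ?_, ?_, ?_⟩
    · intro r hr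
      rw [Finset.mem_insert] at hr
      rcases hr with rfl | hr
      · exact hcp
      · exact hC.cp r ((hmem r).1 hr).2.2
    · intro r hr
      rw [Finset.mem_insert] at hr
      rcases hr with rfl | hr
      · exact h3q
      · exact hC.three r ((hmem r).1 hr).2.2
    · intro r hr r' hr' hrr
      rw [Finset.mem_insert] at hr hr'
      rcases hr with rfl | hr
      · rcases hr' with rfl | hr'
        · exact absurd rfl hrr
        · exact key r' hr'
      · rcases hr' with rfl | hr'
        · rw [Set.inter_comm, Finset.inter_comm]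
          exact key r hr
        · exact hC.inter r ((hmem r).1 hr).2.2 r' ((hmem r').1 hr').2.2 hrr
    · intro r hr r' hr' hrr
      rw [Finset.mem_insert] at hr hr'
      rcases hr with rfl | hr
      · rcases hr' with rfl | hr'
        · exact absurd rfl hrr
        · exact key2 r' hr'
      · rcases hr' with rfl | hr'
        · rw [Finset.inter_comm]
          exact key2 r hr
        · exact hC.two r ((hmem r).1 hr).2.2 r' ((hmem r').1 hr').2.2 hrr
  have hsides : ∀ x y, (∃ r ∈ insert (s ∪ t) ((C.erase s).erase t), HE r x y) ↔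
      ((∃ r ∈ C, HE r x y) ∧ (x, y) ≠ (a, b) ∧ (x, y) ≠ (b, a)) := by
    intro x y
    constructor
    · rintro ⟨r, hr, hxy⟩
      rw [Finset.mem_insert] at hr
      rcases hr with rfl | hr
      · obtain ⟨h1, h2, h4⟩ := h.side_cases hC hxy
        refine ⟨?_, h2, h4⟩
        rcases h1 with h1 | h1
        · exact ⟨s, h.hs, h1⟩
        · exact ⟨t, h.ht, h1⟩
      · obtain ⟨hrt, hrs, hrC⟩ := (hmem r).1 hr
        refine ⟨⟨r, hrC, hxy⟩, ?_, ?_⟩
        · intro e1
          rw [Prod.mk.injEq] at e1
          obtain ⟨rfl, rfl⟩ := e1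
          exact hrs (hC.side_unique hrC h.hs hxy h.hab)
        · intro e1
          rw [Prod.mk.injEq] at e1
          obtain ⟨rfl, rfl⟩ := e1
          exact hrt (hC.side_unique hrC h.ht hxy h.hba)
    · rintro ⟨⟨r, hr, hxy⟩, h1, h2⟩
      by_cases hrs : r = s
      · subst hrs
        exact ⟨r ∪ t, Finset.mem_insert_self _ _, h.side_of hG hC hP hxy h1⟩
      by_cases hrt : r = t
      · subst hrt
        refine ⟨s ∪ r, Finset.mem_insert_self _ _, ?_⟩
        rw [Finset.union_comm]
        exact h.symm.side_of hG hC hP hxy h2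
      · exact ⟨r, Finset.mem_insert_of_mem ((hmem r).2 ⟨hrt, hrs, hr⟩), hxy⟩
  refine ⟨⟨hCx, ?_, ?_, ?_⟩, hsides⟩
  · rw [← hF.V_eq]
    ext x
    rw [mem_V, mem_V]
    constructor
    · rintro ⟨r, hr, hx⟩
      rw [Finset.mem_insert] at hr
      rcases hr with rfl | hr
      · rcases Finset.mem_union.1 hx with hx | hx
        · exact ⟨s, h.hs, hx⟩
        · exact ⟨t, h.ht, hx⟩
      · exact ⟨r, ((hmem r).1 hr).2.2, hx⟩
    · rintro ⟨r, hr, hx⟩
      by_cases hrs : r = s
      · subst hrs
        exact ⟨r ∪ t, Finset.mem_insert_self _ _, Finset.mem_union_left _ hx⟩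
      by_cases hrt : r = t
      · subst hrt
        exact ⟨s ∪ r, Finset.mem_insert_self _ _, Finset.mem_union_right _ hx⟩
      · exact ⟨r, Finset.mem_insert_of_mem ((hmem r).2 ⟨hrt, hrs, hr⟩), hx⟩
  · intro r hr x y hxy
    obtain ⟨⟨r', hr', hxy'⟩, h1, h2⟩ := (hsides x y).1 ⟨r, hr, hxy⟩
    rcases hF.side r' hr' x y hxy' with h4 | ⟨r2, hr2, h4⟩
    · exact Or.inl h4
    · right
      apply (hsides y x).2
      refine ⟨⟨r2, hr2, h4⟩, ?_, ?_⟩
      · intro e1
        rw [Prod.mk.injEq] at e1
        obtain ⟨rfl, rfl⟩ := e1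
        exact h2 rfl
      · intro e1
        rw [Prod.mk.injEq] at e1
        obtain ⟨rfl, rfl⟩ := e1
        exact h1 rfl
  · intro x y hxy
    obtain ⟨r, hr, h1⟩ := hF.hull x y hxy
    apply (hsides x y).2
    refine ⟨⟨r, hr, h1⟩, ?_, ?_⟩
    · intro e1
      rw [Prod.mk.injEq] at e1
      obtain ⟨rfl, rfl⟩ := e1
      obtain ⟨c, hc, hcb, hca⟩ := HE.exists_third (t := t) y x (hC.three t h.ht)
      have h4 := h.hba.2.2.2 c hc hcb hca
      have h5 := hxy.2.2.2 c (hP t h.ht hc) hca hcb
      rw [orient_swap] at h5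
      linarith
    · intro e1
      rw [Prod.mk.injEq] at e1
      obtain ⟨rfl, rfl⟩ := e1
      obtain ⟨c, hc, hcb, hca⟩ := HE.exists_third (t := s) y x (hC.three s h.hs)
      have h4 := h.hab.2.2.2 c hc hcb hca
      have h5 := hxy.2.2.2 c (hP s h.hs hc) hca hcb
      rw [orient_swap] at h5
      linarith

/-- a side at a does not enter the open corner of a cell at a -/
theorem no_enter {C : Finset (Finset Pt)} (hC : Cx C) {s r : Finset Pt} {a b p x : Pt}
    (hs : s ∈ C) (hr : r ∈ C) (hab : HE s a b) (hpa : HE s p a) (hx : HE r a x ∨ HE r x a)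
    (h1 : 0 < orient a b x) (h2 : 0 < orient p a x) : False := by
  have h3s := hC.three s hs
  by_cases hrs : r = s
  · subst hrs
    rcases hx with hx | hx
    · have := hab.succ_unique hx
      subst this
      rw [orient_self3] at h1
      exact lt_irrefl _ h1
    · have := hpa.pred_unique hx
      subst this
      rw [orient_self2] at h2
      exact lt_irrefl _ h2
  have har : a ∈ r := by rcases hx with hx | hx; exacts [hx.1, hx.2.1]
  have hxr : x ∈ r := by rcases hx with hx | hx; exacts [hx.2.1, hx.1]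
  have hpb : b ≠ p := by
    rintro rfl
    exact hab.not_both hpa h3s
  have hD : 0 < orient a b p := hab.2.2.2 p hpa.1 hpa.2.2.1 (Ne.symm hpb)
  -- a point near a on the segment a x
  set D := orient a b p with hDd
  set E := |orient b p x| with hE
  have hE0 : 0 ≤ E := abs_nonneg _
  set k : ℝ := D / (D + E + 1) with hk
  have hk0 : 0 < k := by positivity
  have hk1 : k ≤ 1 := by
    rw [hk, div_le_one (by positivity)]; linarith
  set z : Pt := (1 - k) • a + k • x with hz
  have hkE : k * E ≤ (1 - k) * D := by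
    have : k * (D + E) ≤ D := by
      rw [hk, div_mul_eq_mul_div, div_le_iff₀ (by positivity)]
      nlinarith
    linarith
  have hw : (1 - k) + k = 1 := by ring
  have z1 : 0 < orient a b z := by
    rw [hz, orient_comb2 a b a x _ _ hw, orient_self2]
    have := mul_pos hk0 h1
    linarith
  have z2 : 0 < orient p a z := by
    rw [hz, orient_comb2 p a a x _ _ hw, orient_self3]
    have := mul_pos hk0 h2
    linarith
  have z3 : 0 ≤ orient b p z := by
    rw [hz, orient_comb2 b p a x _ _ hw, orient_rot]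
    have h5 : - E ≤ orient b p x := neg_abs_le _
    have h6 := mul_le_mul_of_nonneg_left h5 hk0.le
    rw [← hDd]
    linarith
  have zs : z ∈ convexHull ℝ (s : Set Pt) :=
    mem_hull3 a b p z hD z1.le z3 z2.le _ hab.1 hab.2.1 hpa.1
  have zr : z ∈ convexHull ℝ (r : Set Pt) :=
    convex_convexHull ℝ _ (subset_convexHull ℝ _ har) (subset_convexHull ℝ _ hxr)
      (by linarith) hk0.le hw
  have zsr := hC.inter s hs r hr (Ne.symm hrs) ⟨zs, zr⟩
  have ha : a ∈ s ∩ r := Finset.mem_inter.2 ⟨hab.1, har⟩
  by_cases hex : ∃ y ∈ s ∩ r, y ≠ a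
  · obtain ⟨y, hy, hya⟩ := hex
    have hy' := Finset.mem_inter.1 hy
    have hsr : s ∩ r = {a, y} := by
      symm
      apply Finset.eq_of_subset_of_card_le
      · intro u hu
        simp only [Finset.mem_insert, Finset.mem_singleton] at hu
        rcases hu with rfl | rfl
        · exact ha
        · exact hy
      · rw [Finset.card_pair (Ne.symm hya)]
        exact hC.two s hs r hr (Ne.symm hrs)
    rw [hsr] at zsr
    have h0 := orient_zero_of_mem_pair zsr
    rcases hC.side_or hs hr (Ne.symm hrs) (Ne.symm hya) hab.1 hy'.1 har hy'.2 with h | h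
    · have := hab.succ_unique h.1
      subst this
      linarith
    · have := hpa.pred_unique h.1
      subst this
      rw [orient_swap] at h0
      linarith
  · push Not at hex
    have : s ∩ r ⊆ {a} := by
      intro u hu
      rw [hex u hu]; simp
    have h5 : z ∈ convexHull ℝ ((({a} : Finset Pt)) : Set Pt) :=
      convexHull_mono (by exact_mod_cast this) zsr
    simp only [Finset.coe_singleton, convexHull_singleton, Set.mem_singleton_iff] at h5
    rw [h5, orient_self2] at z1
    exact lt_irrefl _ z1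

/-- the corner at a resolved point stays convex when a side outside M is removed -/
theorem corner_res {P : Finset Pt} (hG : Gen P) {C : Finset (Finset Pt)} (hC : Cx C)
    (hP : ∀ t ∈ C, t ⊆ P) {s t : Finset Pt} (hs : s ∈ C) (ht : t ∈ C) {a b p d : Pt}
    (hab : HE s a b) (hba : HE t b a) (hp : HE s p a) (hd : HE t a d)
    (M : Finset (Pt × Pt)) (hM : ∀ x, (a, x) ∈ M → ∃ r ∈ C, HE r a x ∨ HE r x a)
    (hne : (a, b) ∉ M)
    (hres : ∀ u : Pt, u ≠ 0 → ∃ x, (a, x) ∈ M ∧ 0 < cross u (x - a)) : 0 < orient p a d := by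
  by_contra hneg
  push Not at hneg
  have hu : a - p ≠ 0 := fun h => hp.2.2.1 (sub_eq_zero.1 h).symm
  obtain ⟨x, hxM, hx⟩ := hres (a - p) hu
  obtain ⟨r, hr, hrx⟩ := hM x hxM
  have hpx : 0 < orient p a x := by
    have : orient p a x = cross (a - p) (x - a) := by
      unfold orient cross
      simp only [Prod.fst_sub, Prod.snd_sub]
      ring
    rw [this]; exact hx
  have hxb : x ≠ b := fun h => hne (h ▸ hxM)
  have hxr : x ∈ r := by rcases hrx with h | h; exacts [h.2.1, h.1]
  have hxa : a ≠ x := by rcases hrx with h | h; exacts [h.2.2.1, h.2.2.1.symm]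
  have h1 : ¬ 0 < orient a b x := fun h => no_enter hC hs hr hab hp hrx h hpx
  have h2 : orient a b x ≠ 0 := hG a (hP s hs hab.1) b (hP s hs hab.2.1) x (hP r hr hxr)
    hab.2.2.1 hxa (Ne.symm hxb)
  have h3 : 0 < orient b a x := by
    rw [orient_swap]
    have := lt_of_le_of_ne (not_lt.1 h1) h2
    linarith
  have h4 : ¬ 0 < orient a d x := fun h => no_enter hC ht hr hd hba hrx h h3
  have hdb : d ≠ b := by
    rintro rfl
    exact hba.not_both hd (hC.three t ht)
  have h5 : 0 < orient b a d := hba.2.2.2 d hd.2.1 hdb hd.2.2.1.symm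
  have hpb : b ≠ p := by
    rintro rfl
    exact hab.not_both hp (hC.three s hs)
  have h6 : 0 < orient p a b := hp.2.2.2 b hab.2.1 hpb hab.2.2.1.symm
  have id : orient b a d * orient p a x
      = orient b a x * orient p a d + orient a d x * orient p a b := by
    unfold orient; ring
  have h7 := mul_pos h5 hpx
  have h8 := mul_nonneg h3.le (neg_nonneg.2 hneg)
  have h9 := mul_nonneg (neg_nonneg.2 (not_lt.1 h4)) h6.le
  linarith

/-- the corner at a hull vertex stays convex -/
theorem corner_hull {P : Finset Pt} {C : Finset (Finset Pt)} (hC : Cx C)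
    (hP : ∀ t ∈ C, t ⊆ P) {s t : Finset Pt} (hs : s ∈ C) (ht : t ∈ C) {a b p d g : Pt}
    (hab : HE s a b) (hba : HE t b a) (hp : HE s p a) (hd : HE t a d)
    (hg : HE P g a) (hbg : b ≠ g) : 0 < orient p a d := by
  have hdb : d ≠ b := by
    rintro rfl
    exact hba.not_both hd (hC.three t ht)
  have h5 : 0 < orient b a d := hba.2.2.2 d hd.2.1 hdb hd.2.2.1.symm
  have hpb : b ≠ p := by
    rintro rfl
    exact hab.not_both hp (hC.three s hs)
  have h6 : 0 < orient p a b := hp.2.2.2 b hab.2.1 hpb hab.2.2.1.symm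
  have h1 : 0 < orient g a b := hg.2.2.2 b (hP s hs hab.2.1) hbg hab.2.2.1.symm
  have h2 : 0 ≤ orient g a p := hg.nonneg p (hP s hs hp.1)
  have h3 : 0 ≤ orient g a d := hg.nonneg d (hP t ht hd.2.1)
  have id : orient g a b * orient p a d
      = orient b a d * orient g a p + orient g a d * orient p a b := by
    unfold orient; ring
  have h4 : 0 < orient g a b * orient p a d := by
    rw [id]
    by_cases hpg : p = g
    · have hdg : d ≠ g := by
        rintro rfl
        subst hpg
        rw [orient_swap, orient_swap', orient_rot'] at h5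
        have h6' := h6
        unfold orient at h5 h6'
        linarith
      have h7 : 0 < orient g a d := hg.2.2.2 d (hP t ht hd.2.1) hdg hd.2.2.1.symm
      have := mul_pos h7 h6
      have := mul_nonneg h5.le h2
      linarith
    · have h7 : 0 < orient g a p := hg.2.2.2 p (hP s hs hp.1) hpg hp.2.2.1
      have := mul_pos h5 h7
      have := mul_nonneg h3 h6.le
      linarith
  exact pos_of_mul_pos_right h4 h1.le

/-- one step: a side outside M is removed -/
theorem Full.face_step {P : Finset Pt} {C : Finset (Finset Pt)} (hF : Full P C) (hG : Gen P)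
    (M : Finset (Pt × Pt)) (hsym : ∀ x y, (x, y) ∈ M → (y, x) ∈ M)
    (hside : ∀ x y, (x, y) ∈ M → ∃ r ∈ C, HE r x y ∨ HE r y x)
    (hhull : ∀ x y, HE P x y → (x, y) ∈ M)
    (hres : ∀ v ∈ P, (∃ g, HE P g v) ∨ ∀ u : Pt, u ≠ 0 → ∃ x, (v, x) ∈ M ∧ 0 < cross u (x - v))
    {s : Finset Pt} (hs : s ∈ C) {a b : Pt} (hab : HE s a b) (hn : (a, b) ∉ M) :
    ∃ t p d q e, MG C s t a b p d q e := by
  have hC := hF.cx
  rcases hF.side s hs a b hab with h1 | ⟨t, ht, hba⟩
  · exact absurd (hhull a b h1) hn
  obtain ⟨p, hp⟩ := (hC.cp s hs).exists_pred (hC.three s hs) hab.1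
  obtain ⟨q, hq⟩ := (hC.cp s hs).exists_succ (hC.three s hs) hab.2.1
  obtain ⟨d, hd⟩ := (hC.cp t ht).exists_succ (hC.three t ht) hba.2.1
  obtain ⟨e, he⟩ := (hC.cp t ht).exists_pred (hC.three t ht) hba.1
  have hP : ∀ t ∈ C, t ⊆ P := fun t ht => hF.sub ht
  have hn' : (b, a) ∉ M := fun h => hn (hsym _ _ h)
  refine ⟨t, p, d, q, e, hs, ht, hab, hba, hp, hd, hq, he, ?_, ?_⟩
  · rcases hres a (hP s hs hab.1) with ⟨g, hg⟩ | hr
    · apply corner_hull hC hP hs ht hab hba hp hd hg
      rintro rfl
      exact hn' (hhull _ _ hg)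
    · exact corner_res hG hC hP hs ht hab hba hp hd M (fun x hx => hside a x hx) hn hr
  · rcases hres b (hP s hs hab.2.1) with ⟨g, hg⟩ | hr
    · apply corner_hull hC hP ht hs hba hab he hq hg
      rintro rfl
      exact hn (hhull _ _ hg)
    · exact corner_res hG hC hP ht hs hba hab he hq M (fun x hx => hside b x hx) hn' hr

/-- **faces of a resolved edge set** -/
theorem Full.faces {P : Finset Pt} {C : Finset (Finset Pt)} (hF : Full P C) (hG : Gen P)
    (M : Finset (Pt × Pt)) (hsym : ∀ x y, (x, y) ∈ M → (y, x) ∈ M)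
    (hside : ∀ x y, (x, y) ∈ M → ∃ r ∈ C, HE r x y ∨ HE r y x)
    (hhull : ∀ x y, HE P x y → (x, y) ∈ M)
    (hres : ∀ v ∈ P, (∃ g, HE P g v) ∨
      ∀ u : Pt, u ≠ 0 → ∃ x, (v, x) ∈ M ∧ 0 < cross u (x - v)) :
    ∃ C' : Finset (Finset Pt), Full P C' ∧
      (∀ x y, (∃ r ∈ C', HE r x y ∨ HE r y x) ↔ (x, y) ∈ M) ∧
      (∀ t ∈ C, (∀ x y, HE t x y → (x, y) ∈ M) → t ∈ C') ∧
      (∀ t ∈ C, ∃ t' ∈ C', t ⊆ t' ) := by
  classical
  induction hn : C.card using Nat.strong_induction_on generalizing C with
  | _ n ih =>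
  by_cases hall : ∀ s ∈ C, ∀ a b, HE s a b → (a, b) ∈ M
  · refine ⟨C, hF, ?_, fun t ht _ => ht, fun t ht => ⟨t, ht, Finset.Subset.refl t⟩⟩
    intro x y
    constructor
    · rintro ⟨r, hr, h | h⟩
      · exact hall r hr x y h
      · exact hsym _ _ (hall r hr y x h)
    · exact hside x y
  · push Not at hall
    obtain ⟨s, hs, a, b, hab, hno⟩ := hall
    obtain ⟨t, p, d, q, e, hM⟩ := hF.face_step hG M hsym hside hhull hres hs hab hno
    have hne := hM.ne hF.cx
    obtain ⟨hF1, hsides⟩ := hF.merge hG hM
    set C1 := insert (s ∪ t) ((C.erase s).erase t) with hC1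
    have hcard : C1.card < n := by
      have h1 := Finset.card_insert_le (s ∪ t) ((C.erase s).erase t)
      have h2 : (C.erase s).card = C.card - 1 := Finset.card_erase_of_mem hs
      have h3 : ((C.erase s).erase t).card = (C.erase s).card - 1 :=
        Finset.card_erase_of_mem (Finset.mem_erase.2 ⟨Ne.symm hne, hM.ht⟩)
      have h4 : ({s, t} : Finset (Finset Pt)).card ≤ C.card := by
        apply Finset.card_le_card
        intro x hx
        simp only [Finset.mem_insert, Finset.mem_singleton] at hx
        rcases hx with rfl | rfl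
        · exact hs
        · exact hM.ht
      rw [Finset.card_pair hne] at h4
      rw [← hC1] at h1
      omega
    have hside1 : ∀ x y, (x, y) ∈ M → ∃ r ∈ C1, HE r x y ∨ HE r y x := by
      intro x y hxy
      have n1 : (x, y) ≠ (a, b) := fun h => hno (h ▸ hxy)
      have n2 : (x, y) ≠ (b, a) := by
        intro h
        rw [Prod.mk.injEq] at h
        obtain ⟨rfl, rfl⟩ := h
        exact hno (hsym _ _ hxy)
      obtain ⟨r, hr, h | h⟩ := hside x y hxy
      · obtain ⟨r', hr', h'⟩ := (hsides x y).2 ⟨⟨r, hr, h⟩, n1, n2⟩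
        exact ⟨r', hr', Or.inl h'⟩
      · have n3 : (y, x) ≠ (a, b) := by
          intro h
          rw [Prod.mk.injEq] at h
          obtain ⟨rfl, rfl⟩ := h
          exact n2 rfl
        have n4 : (y, x) ≠ (b, a) := by
          intro h
          rw [Prod.mk.injEq] at h
          obtain ⟨rfl, rfl⟩ := h
          exact n1 rfl
        obtain ⟨r', hr', h'⟩ := (hsides y x).2 ⟨⟨r, hr, h⟩, n3, n4⟩
        exact ⟨r', hr', Or.inr h'⟩
    obtain ⟨C', g1, g2, g3, g4⟩ := ih C1.card hcard hF1 hside1 rfl
    refine ⟨C', g1, g2, ?_, ?_⟩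
    · intro r hr hall
      apply g3 r _ hall
      have hrs : r ≠ s := by
        rintro rfl
        exact hno (hall a b hab)
      have hrt : r ≠ t := by
        rintro rfl
        exact hno (hsym _ _ (hall b a hM.hba))
      rw [hC1, Finset.mem_insert, Finset.mem_erase, Finset.mem_erase]
      exact Or.inr ⟨hrt, hrs, hr⟩
    · intro r hr
      by_cases hrs : r = s
      · subst hrs
        obtain ⟨t', ht', h⟩ := g4 (r ∪ t) (Finset.mem_insert_self _ _)
        exact ⟨t', ht', Finset.subset_union_left.trans h⟩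
      by_cases hrt : r = t
      · subst hrt
        obtain ⟨t', ht', h⟩ := g4 (s ∪ r) (Finset.mem_insert_self _ _)
        exact ⟨t', ht', Finset.subset_union_right.trans h⟩
      · apply g4 r
        rw [hC1, Finset.mem_insert, Finset.mem_erase, Finset.mem_erase]
        exact Or.inr ⟨hrt, hrs, hr⟩

end Pool.Agent.RFX

end

section

set_option autoImplicit false

/-!
# RFX/Tree : trees of triangles over a dart, rings, zones (MP_72a26e_co) -- DATA MODEL (helper12)

A DART is a pair `(x, y)`, its tile is on the LEFT.  A tree `t : ZT` stands over a dart `(x, y)`: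
* `node a l r` : the triangle `{x, y, a}` (`a` left of `(x, y)`), `l` over `(x, a)`, `r` over `(a, y)`;
* `leaf f`     : nothing is kept over `(x, y)`, `f` is the FACE behind the dart: a cell of the complex with
                 side `(x, y)` or a DIGON `f = {x, y}` (no face tags are needed: an end-edge has a digon on
                 at most one side);
* `cut`        : nothing is kept over `(x, y)` and `(x, y)` is closed (black behind it).

RING EDGE `e : RE` : the zone (or black tile) is on the right of the dart `(e.a, e.b)`, on the left is the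
face `e.s = some f` or black (`e.s = none`, closed).

ZONE `z = (x, y, t, t')` : `t` over `(x, y)` and `t'` over `(y, x)`, ring = ring of `t` followed by the
ring of `t'`:
* end-edge `B = {N, w}` : `(N, w, t, t')`, base open, maybe `t`, `t'` are leaves (bare end-edge);
* gate over a closed base `(x, y)` : `(x, y, t, cut)`;
* gap with triangles `{g1,g2,g3}, {g2,g3,g4}` between the closed cross edges `{g1,g2}`, `{g3,g4}`:
  `(g1, g2, node g3 t1 (node g4 cut t2), cut)`, `t1` over `(g1, g3)`, `t2` over `(g4, g2)`;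
  other diagonal `{g1,g2,g4}, {g1,g4,g3}` : `(g1, g2, node g4 (node g3 t1 cut) t2, cut)`.
-/

namespace Pool.Agent.RFX

/-- ring edge: zone on the right of the dart `a → b`, face `s` (`none` = closed) on the left -/
structure RE where
  a : Pt
  b : Pt
  s : Option (Finset Pt)

/-- trees of triangles over a dart -/
inductive ZT where
  | leaf (f : Finset Pt) : ZT
  | cut : ZT
  | node (a : Pt) (l r : ZT) : ZT

namespace ZT

/-- the ring edges of the tree over `(x, y)`, from `x` to `y` -/
def ring : ZT → Pt → Pt → List RE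
  | leaf f, x, y => [⟨x, y, some f⟩]
  | cut, x, y => [⟨x, y, none⟩]
  | node a l r, x, y => ring l x a ++ ring r a y

/-- the apexes, in ring order -/
def apex : ZT → List Pt
  | leaf _ => []
  | cut => []
  | node a l r => apex l ++ a :: apex r

/-- the triangles of the tree over `(x, y)` -/
noncomputable def cells : ZT → Pt → Pt → Finset (Finset Pt)
  | leaf _, _, _ => ∅
  | cut, _, _ => ∅
  | node a l r, x, y => insert {x, y, a} (cells l x a ∪ cells r a y)

/-- the sides of the triangles other than the base, both directions -/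
noncomputable def sides : ZT → Pt → Pt → Finset (Pt × Pt)
  | leaf _, _, _ => ∅
  | cut, _, _ => ∅
  | node a l r, x, y => {(x, a), (a, x), (a, y), (y, a)} ∪ (sides l x a ∪ sides r a y)

/-- the subtree with root apex `p`, with its base -/
noncomputable def sub (p : Pt) : ZT → Pt → Pt → Option (Pt × Pt × ZT)
  | leaf _, _, _ => none
  | cut, _, _ => none
  | node a l r, x, y =>
    open Classical in
    if a = p then some (x, y, node a l r)
    else if p ∈ apex l then sub p l x a
    else sub p r a y

/-- replace the subtree with root apex `p` by `cut` -/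
noncomputable def cutAt (p : Pt) : ZT → ZT
  | leaf f => leaf f
  | cut => cut
  | node a l r =>
    open Classical in
    if a = p then cut
    else if p ∈ apex l then node a (cutAt p l) r
    else node a l (cutAt p r)

/-- no `cut` leaf -/
def NoCut : ZT → Prop
  | leaf _ => True
  | cut => False
  | node _ l r => NoCut l ∧ NoCut r

/-- `t` is no node -/
def Bare : ZT → Prop
  | leaf _ => True
  | cut => True
  | node _ _ _ => False

/-! ### rings -/

theorem ring_a (t : ZT) : ∀ x y : Pt, (ring t x y).map RE.a = x :: apex t := by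
  induction t with
  | leaf f => intro x y; rfl
  | cut => intro x y; rfl
  | node a l r ihl ihr =>
    intro x y
    simp [ring, apex, ihl, ihr]

theorem ring_b (t : ZT) : ∀ x y : Pt, (ring t x y).map RE.b = apex t ++ [y] := by
  induction t with
  | leaf f => intro x y; rfl
  | cut => intro x y; rfl
  | node a l r ihl ihr =>
    intro x y
    simp [ring, apex, ihl, ihr]

theorem ring_ne_nil (t : ZT) (x y : Pt) : ring t x y ≠ [] := by
  intro h
  have := ring_a t x y
  rw [h] at this
  simp at this

theorem ring_head (t : ZT) : ∀ (x y : Pt), ∀ e ∈ (ring t x y).head?, e.a = x := by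
  induction t with
  | leaf f => intro x y e h; simp [ring] at h; rw [← h]
  | cut => intro x y e h; simp [ring] at h; rw [← h]
  | node a l r ihl ihr =>
    intro x y e h
    have h1 := ring_ne_nil l x a
    rw [ring, List.head?_append_of_ne_nil _ h1] at h
    exact ihl x a e h

theorem ring_last (t : ZT) : ∀ (x y : Pt), ∀ e ∈ (ring t x y).getLast?, e.b = y := by
  induction t with
  | leaf f => intro x y e h; simp [ring] at h; rw [← h]
  | cut => intro x y e h; simp [ring] at h; rw [← h]
  | node a l r ihl ihr =>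
    intro x y e h
    have h1 := ring_ne_nil r a y
    rw [ring, List.getLast?_append_of_ne_nil _ h1] at h
    exact ihr a y e h

/-- consecutive ring edges -/
theorem ring_chain (t : ZT) : ∀ (x y : Pt),
    (ring t x y).IsChain (fun e e' => e.b = e'.a) := by
  induction t with
  | leaf f => intro x y; simp [ring]
  | cut => intro x y; simp [ring]
  | node a l r ihl ihr =>
    intro x y
    rw [ring, List.isChain_append]
    refine ⟨ihl x a, ihr a y, ?_⟩
    intro e he e' he'
    rw [ring_last l x a e he, ring_head r a y e' he']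

theorem mem_ring_a {t : ZT} {x y : Pt} {e : RE} (h : e ∈ ring t x y) : e.a = x ∨ e.a ∈ apex t := by
  have h1 : e.a ∈ (ring t x y).map RE.a := List.mem_map_of_mem h
  rw [ring_a, List.mem_cons] at h1
  exact h1

theorem mem_ring_b {t : ZT} {x y : Pt} {e : RE} (h : e ∈ ring t x y) : e.b = y ∨ e.b ∈ apex t := by
  have h1 : e.b ∈ (ring t x y).map RE.b := List.mem_map_of_mem h
  rw [ring_b, List.mem_append, List.mem_singleton] at h1
  exact h1.symm

/-! ### cells -/

theorem mem_cells_sub {t : ZT} : ∀ {x y : Pt} {c : Finset Pt}, c ∈ cells t x y →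
    ∀ v ∈ c, v = x ∨ v = y ∨ v ∈ apex t := by
  induction t with
  | leaf f => intro x y c h; simp [cells] at h
  | cut => intro x y c h; simp [cells] at h
  | node a l r ihl ihr =>
    intro x y c h v hv
    simp only [cells, Finset.mem_insert, Finset.mem_union] at h
    simp only [apex, List.mem_append, List.mem_cons]
    rcases h with rfl | h | h
    · simp only [Finset.mem_insert, Finset.mem_singleton] at hv
      tauto
    · rcases ihl h v hv with h | h | h <;> tauto
    · rcases ihr h v hv with h | h | h <;> tauto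

theorem apex_cutAt_sub (p : Pt) (t : ZT) : (cutAt p t).apex.Sublist t.apex := by
  induction t with
  | leaf f => simp [cutAt]
  | cut => simp [cutAt]
  | node a l r ihl ihr =>
    unfold cutAt
    split_ifs with h1 h2
    · simp [apex]
    · simp only [apex]
      exact List.Sublist.append ihl (List.Sublist.refl _)
    · simp only [apex]
      exact List.Sublist.append (List.Sublist.refl _) (ihr.cons_cons a)

theorem cells_cutAt_sub (p : Pt) (t : ZT) : ∀ (x y : Pt),
    (cutAt p t).cells x y ⊆ t.cells x y := by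
  induction t with
  | leaf f => intro x y; simp [cutAt]
  | cut => intro x y; simp [cutAt]
  | node a l r ihl ihr =>
    intro x y
    unfold cutAt
    split_ifs with h1 h2
    · simp [cells]
    · simp only [cells]
      exact Finset.insert_subset_insert _ (Finset.union_subset_union (ihl x a) (Finset.Subset.refl _))
    · simp only [cells]
      exact Finset.insert_subset_insert _ (Finset.union_subset_union (Finset.Subset.refl _) (ihr a y))

/-- a member of the apex list has a subtree -/
theorem sub_isSome {p : Pt} {t : ZT} : p ∈ t.apex → ∀ (x y : Pt),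
    ∃ x' y' l r, t.sub p x y = some (x', y', node p l r) := by
  induction t with
  | leaf f => intro h; simp [apex] at h
  | cut => intro h; simp [apex] at h
  | node a l r ihl ihr =>
    intro h x y
    unfold sub
    split_ifs with h1 h2
    · subst h1; exact ⟨x, y, l, r, rfl⟩
    · exact ihl h2 x a
    · simp only [apex, List.mem_append, List.mem_cons] at h
      have h3 : p ∈ apex r := by
        rcases h with h | h | h
        · exact absurd h h2
        · exact absurd h.symm h1
        · exact h
      exact ihr h3 a y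

/-- the cells split into the outer part and the subtree -/
theorem cells_eq_union {p : Pt} {t : ZT} {x' y' : Pt} {V : ZT} : ∀ {x y : Pt},
    t.sub p x y = some (x', y', V) →
    t.cells x y = (cutAt p t).cells x y ∪ V.cells x' y' := by
  induction t with
  | leaf f => intro x y h; simp [sub] at h
  | cut => intro x y h; simp [sub] at h
  | node a l r ihl ihr =>
    intro x y h
    unfold sub at h
    unfold cutAt
    split_ifs at h with h1 h2
    · rw [if_pos h1]
      simp only [Option.some.injEq, Prod.mk.injEq] at h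
      obtain ⟨rfl, rfl, rfl⟩ := h
      simp [cells]
    · rw [if_neg h1, if_pos h2]
      simp only [cells]
      rw [ihl h]
      ext c
      simp only [Finset.mem_insert, Finset.mem_union]
      tauto
    · rw [if_neg h1, if_neg h2]
      simp only [cells]
      rw [ihr h]
      ext c
      simp only [Finset.mem_insert, Finset.mem_union]
      tauto

/-- the ring splits: the cut ring has one closed edge on the base instead of the ring of the subtree -/
theorem ring_split {p : Pt} {t : ZT} {x' y' : Pt} {V : ZT} : ∀ {x y : Pt},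
    t.sub p x y = some (x', y', V) →
    ∃ A B, t.ring x y = A ++ V.ring x' y' ++ B ∧
      (cutAt p t).ring x y = A ++ ⟨x', y', none⟩ :: B := by
  induction t with
  | leaf f => intro x y h; simp [sub] at h
  | cut => intro x y h; simp [sub] at h
  | node a l r ihl ihr =>
    intro x y h
    unfold sub at h
    unfold cutAt
    split_ifs at h with h1 h2
    · rw [if_pos h1]
      simp only [Option.some.injEq, Prod.mk.injEq] at h
      obtain ⟨rfl, rfl, rfl⟩ := h
      exact ⟨[], [], by simp, by simp [ring]⟩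
    · rw [if_neg h1, if_pos h2]
      obtain ⟨A, B, e1, e2⟩ := ihl h
      refine ⟨A, B ++ ring r a y, ?_, ?_⟩
      · simp only [ring]; rw [e1]; simp
      · simp only [ring]; rw [e2]; simp
    · rw [if_neg h1, if_neg h2]
      obtain ⟨A, B, e1, e2⟩ := ihr h
      refine ⟨ring l x a ++ A, B, ?_, ?_⟩
      · simp only [ring]; rw [e1]; simp
      · simp only [ring]; rw [e2]; simp

/-- the apexes split -/
theorem apex_split {p : Pt} {t : ZT} {x' y' : Pt} {V : ZT} : ∀ {x y : Pt},
    t.sub p x y = some (x', y', V) →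
    ∃ A B, t.apex = A ++ V.apex ++ B ∧ (cutAt p t).apex = A ++ B ∧
      (x :: A).getLast? = some x' ∧ (B ++ [y]).head? = some y' := by
  induction t with
  | leaf f => intro x y h; simp [sub] at h
  | cut => intro x y h; simp [sub] at h
  | node a l r ihl ihr =>
    intro x y h
    unfold sub at h
    unfold cutAt
    split_ifs at h with h1 h2
    · rw [if_pos h1]
      simp only [Option.some.injEq, Prod.mk.injEq] at h
      obtain ⟨rfl, rfl, rfl⟩ := h
      exact ⟨[], [], by simp, by simp [apex], by simp, by simp⟩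
    · rw [if_neg h1, if_pos h2]
      obtain ⟨A, B, e1, e2, e3, e4⟩ := ihl h
      refine ⟨A, B ++ a :: apex r, ?_, ?_, e3, ?_⟩
      · simp only [apex]; rw [e1]; simp
      · simp only [apex]; rw [e2]; simp
      · cases B with
        | nil => simpa using e4
        | cons b B => simpa using e4
    · rw [if_neg h1, if_neg h2]
      obtain ⟨A, B, e1, e2, e3, e4⟩ := ihr h
      refine ⟨apex l ++ a :: A, B, ?_, ?_, ?_, e4⟩
      · simp only [apex]; rw [e1]; simp
      · simp only [apex]; rw [e2]; simp
      · have h3 : x :: (apex l ++ a :: A) = (x :: apex l) ++ (a :: A) := by simp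
        rw [h3, List.getLast?_append_of_ne_nil _ (by simp)]
        exact e3

end ZT

/-- a zone: `t` over `(x, y)`, `t'` over `(y, x)` -/
structure Zone where
  x : Pt
  y : Pt
  t : ZT
  t' : ZT

namespace Zone

/-- the ring of a zone, starting at `x` -/
def ring (z : Zone) : List RE := z.t.ring z.x z.y ++ z.t'.ring z.y z.x

/-- the ring vertices, starting at `x` -/
def vs (z : Zone) : List Pt := z.x :: (z.t.apex ++ z.y :: z.t'.apex)

/-- the triangles of a zone -/
noncomputable def cells (z : Zone) : Finset (Finset Pt) :=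
  z.t.cells z.x z.y ∪ z.t'.cells z.y z.x

/-- no triangle -/
def Bare (z : Zone) : Prop := z.t.Bare ∧ z.t'.Bare

theorem ring_a (z : Zone) : z.ring.map RE.a = z.vs := by
  simp [ring, vs, ZT.ring_a]

/-- `e` is followed by `e'` on the ring of `z` (cyclically) -/
def Next (z : Zone) (e e' : RE) : Prop :=
  e ∈ z.ring ∧ e' ∈ z.ring ∧ e.b = e'.a

end Zone

end Pool.Agent.RFX

end
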