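import Mathlib
import Pool.Agent.RFM.P02
import Pool.Agent.RFM.P05
import Pool.Agent.RFM.P07

set_option autoImplicit false

/-!
# RFM/P08 (MP_72a26e_co): the files RFT/MkFull, RFT/Faces, RFX/FunDefs, RFX/FunOut, RFX/NFDefs, RFX/Til, RFX/TilT, RFX/TilL, merged to save build time
-/

section

set_option autoImplicit false

/-!
# RFT/MkFull : existence of full complexes (MP_72a26e_co)
-/

namespace Pool.Agent.RFT

open Pool.Agent.RFX

/-- the triangles of a maximal plane edge set -/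
noncomputable def tris (P : Finset Pt) (M : Finset (Pt × Pt)) : Finset (Finset Pt) := by
  classical exact P.powerset.filter (fun t => ∃ x y u, TriL P M x y u ∧ t = {x, y, u})

theorem mem_tris {P : Finset Pt} {M : Finset (Pt × Pt)} {t : Finset Pt} :
    t ∈ tris P M ↔ t ⊆ P ∧ ∃ x y u, TriL P M x y u ∧ t = {x, y, u} := by
  classical
  unfold tris
  rw [Finset.mem_filter, Finset.mem_powerset]

theorem orient_ne_of_pos {x y u : Pt} (h : 0 < orient x y u) : x ≠ y ∧ x ≠ u ∧ y ≠ u := by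
  refine ⟨?_, ?_, ?_⟩ <;> rintro rfl
  · simp [orient_self1] at h
  · simp [orient_self2] at h
  · simp [orient_self3] at h

theorem tri_ccw {x y u : Pt} (h : 0 < orient x y u) : CCW [x, y, u] := by
  intro a b c habc
  have h1 := habc.eq_of_length (by simp)
  simp only [List.cons.injEq, and_true] at h1
  rw [h1.1, h1.2.1, h1.2.2]
  exact h

theorem tri_nodup {x y u : Pt} (h : 0 < orient x y u) : [x, y, u].Nodup := by
  have := orient_ne_of_pos h
  simp [this.1, this.2.1, this.2.2]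

theorem tri_toFinset (x y u : Pt) : [x, y, u].toFinset = {x, y, u} := by
  ext; simp

theorem tri_cp {x y u : Pt} (h : 0 < orient x y u) : CP ({x, y, u} : Finset Pt) :=
  ⟨[x, y, u], tri_nodup h, tri_toFinset x y u, tri_ccw h⟩

theorem tri_card {x y u : Pt} (h : 0 < orient x y u) : ({x, y, u} : Finset Pt).card = 3 := by
  have := orient_ne_of_pos h
  exact Finset.card_eq_three.2 ⟨x, y, u, this.1, this.2.1, this.2.2, rfl⟩

theorem tri_he {x y u a b : Pt} (h : 0 < orient x y u) :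
    HE ({x, y, u} : Finset Pt) a b ↔ (a = x ∧ b = y) ∨ (a = y ∧ b = u) ∨ (a = u ∧ b = x) := by
  have h1 := (tri_ccw h).mem_cyc_iff (tri_nodup h) (by simp) a b
  rw [tri_toFinset] at h1
  rw [← h1]
  have e : cyc [x, y, u] = [(x, y), (y, u), (u, x)] := rfl
  rw [e]
  simp only [List.mem_cons, Prod.mk.injEq, List.not_mem_nil, or_false]

theorem inT_of_hull {x y u p : Pt} (h : 0 < orient x y u)
    (hp : p ∈ convexHull ℝ ((({x, y, u} : Finset Pt)) : Set Pt)) : InT x y u p := by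
  have key : ∀ a b, HE ({x, y, u} : Finset Pt) a b → 0 ≤ orient a b p := by
    intro a b hab
    apply orient_nonneg_of_mem_hull a b p _ _ hp
    intro q hq
    exact hab.nonneg q (Finset.mem_coe.1 hq)
  exact ⟨key x y ((tri_he h).2 (Or.inl ⟨rfl, rfl⟩)), key y u ((tri_he h).2 (Or.inr (Or.inl ⟨rfl, rfl⟩))),
    key u x ((tri_he h).2 (Or.inr (Or.inr ⟨rfl, rfl⟩)))⟩

section basic

variable {P : Finset Pt} {M : Finset (Pt × Pt)}

theorem tris_cp {t : Finset Pt} (ht : t ∈ tris P M) : CP t := by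
  obtain ⟨-, x, y, u, h, rfl⟩ := mem_tris.1 ht
  exact tri_cp h.pos

theorem tris_card {t : Finset Pt} (ht : t ∈ tris P M) : t.card = 3 := by
  obtain ⟨-, x, y, u, h, rfl⟩ := mem_tris.1 ht
  exact tri_card h.pos

theorem tris_side {t : Finset Pt} (ht : t ∈ tris P M) {a b : Pt} (hab : HE t a b) :
    (a, b) ∈ M := by
  obtain ⟨-, x, y, u, h, rfl⟩ := mem_tris.1 ht
  rw [tri_he h.pos] at hab
  rcases hab with ⟨rfl, rfl⟩ | ⟨rfl, rfl⟩ | ⟨rfl, rfl⟩
  · exact h.xy
  · exact h.yu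
  · exact h.ux

theorem tris_empty {t : Finset Pt} (ht : t ∈ tris P M) :
    ∀ p ∈ P, p ∈ convexHull ℝ (t : Set Pt) → p ∈ t := by
  obtain ⟨-, x, y, u, h, rfl⟩ := mem_tris.1 ht
  intro p hp hh
  have := h.empty p hp (inT_of_hull h.pos hh)
  simp only [Finset.mem_insert, Finset.mem_singleton]
  exact this

theorem tris_of_left (hM : Pl P M) {x y u : Pt} (h : TriL P M x y u) :
    ({x, y, u} : Finset Pt) ∈ tris P M := by
  rw [mem_tris]
  refine ⟨?_, x, y, u, h, rfl⟩
  intro p hp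
  simp only [Finset.mem_insert, Finset.mem_singleton] at hp
  have h1 := hM.sub _ _ h.xy
  have h2 := hM.sub _ _ h.yu
  rcases hp with rfl | rfl | rfl
  · exact h1.1
  · exact h1.2
  · exact h2.2

theorem exists_left (hg : Gen P) {a b : Pt} (ha : a ∈ P) (hb : b ∈ P)
    (hab : a ≠ b) : HE P b a ∨ ∃ w ∈ P, 0 < orient a b w := by
  by_cases h : ∃ w ∈ P, 0 < orient a b w
  · exact Or.inr h
  · left
    push Not at h
    refine ⟨hb, ha, hab.symm, ?_⟩
    intro c hc hcb hca
    have h1 := h c hc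
    have h2 := hg a ha b hb c hc hab (Ne.symm hca) (Ne.symm hcb)
    rw [orient_swap]
    have := lt_of_le_of_ne h1 h2
    linarith

theorem tris_left (hg : Gen P) (hM : MaxPl P M) {a b : Pt}
    (hab : (a, b) ∈ M) : HE P b a ∨ ∃ u, TriL P M a b u := by
  have h1 := hM.sub a b hab
  rcases exists_left hg h1.1 h1.2 (hM.ne a b hab) with h | ⟨w, hw, hpos⟩
  · exact Or.inl h
  · obtain ⟨u, hu, -⟩ := hM.tri_left hg hab hw hpos
    exact Or.inr ⟨u, hu⟩

theorem tris_all (hg : Gen P) (hM : MaxPl P M) {a b : Pt}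
    (hab : (a, b) ∈ M) : (∃ t ∈ tris P M, HE t a b) ∨ HE P b a := by
  rcases tris_left hg hM hab with h | ⟨u, hu⟩
  · exact Or.inr h
  · exact Or.inl ⟨_, tris_of_left hM.toPl hu, (tri_he hu.pos).2 (Or.inl ⟨rfl, rfl⟩)⟩

/-- every point is a vertex of a triangle -/
theorem tris_vertex (hg : Gen P) (h3 : 3 ≤ P.card) (hM : MaxPl P M) {p : Pt} (hp : p ∈ P) :
    ∃ t ∈ tris P M, p ∈ t := by
  obtain ⟨q, hq, hqp, -⟩ := HE.exists_third (t := P) p p h3
  obtain ⟨r, hr, hrp, hrq⟩ := HE.exists_third (t := P) p q h3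
  -- an edge at p
  have hedge : ∃ e, (p, e) ∈ M := by
    have h1 := hg p hp q hq r hr hqp.symm hrp.symm hrq.symm
    rcases lt_or_gt_of_ne h1 with h | h
    · obtain ⟨e, -, -, he⟩ := hM.half (w := r) hg hp hq (by rw [orient_swap']; linarith)
      exact ⟨e, he⟩
    · obtain ⟨e, -, -, he⟩ := hM.half (w := q) hg hp hr h
      exact ⟨e, he⟩
  obtain ⟨e, he⟩ := hedge
  have heP := hM.sub p e he
  have hpe := hM.ne p e he
  rcases tris_left hg hM he with h | ⟨u, hu⟩
  · rcases tris_left hg hM (hM.sym p e he) with h' | ⟨u, hu⟩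
    · exact absurd h' (fun h' => h.not_both h' h3)
    · exact ⟨_, tris_of_left hM.toPl hu, by simp⟩
  · exact ⟨_, tris_of_left hM.toPl hu, by simp⟩

end basic

/-- a maximal plane edge set is a full triangulation -/
theorem full_of_maxPl {P : Finset Pt} {M : Finset (Pt × Pt)} (hg : Gen P) (h3 : 3 ≤ P.card)
    (hM : MaxPl P M) : Full P (tris P M) ∧ (∀ t ∈ tris P M, t.card = 3) ∧
      (∀ t ∈ tris P M, ∀ a b, HE t a b → (a, b) ∈ M) ∧
      (∀ a b, (a, b) ∈ M → (∃ t ∈ tris P M, HE t a b) ∨ HE P b a) := by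
  classical
  refine ⟨⟨⟨?_, ?_, ?_, ?_⟩, ?_, ?_, ?_⟩, fun t ht => tris_card ht, fun t ht a b => tris_side ht,
    fun a b hab => tris_all hg hM hab⟩
  · exact fun t ht => tris_cp ht
  · exact fun t ht => (tris_card ht).ge
  · intro s hs t ht _
    exact inter_of_free hg (tris_cp hs) (tris_cp ht) (tris_card hs).ge (tris_card ht).ge
      (mem_tris.1 hs).1 (mem_tris.1 ht).1 (tris_empty hs) (tris_empty ht)
      (fun a b c d hab hcd => hM.nc a b c d (tris_side hs hab) (tris_side ht hcd))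
  · intro s hs t ht hne
    by_contra hcon
    push Not at hcon
    have h1 := tris_card hs
    have h2 := tris_card ht
    have e1 : s ∩ t = s := Finset.eq_of_subset_of_card_le Finset.inter_subset_left (by omega)
    have e2 : s ∩ t = t := Finset.eq_of_subset_of_card_le Finset.inter_subset_right (by omega)
    exact hne (e1.symm.trans e2)
  · ext p
    rw [mem_V]
    constructor
    · rintro ⟨t, ht, hp⟩
      exact (mem_tris.1 ht).1 hp
    · exact fun hp => tris_vertex hg h3 hM hp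
  · intro t ht a b hab
    rcases tris_all hg hM (hM.sym a b (tris_side ht hab)) with h | h
    · exact Or.inr h
    · exact Or.inl h
  · intro a b hab
    rcases tris_all hg hM (hM.hull hab) with h | h
    · exact h
    · exact absurd h (fun h' => hab.not_both h' h3)

/-- the same with prescribed additional edges -/
theorem exists_full_edges {P : Finset Pt} (hg : Gen P) (h3 : 3 ≤ P.card)
    {C0 : Finset (Finset Pt)} (h0 : Cx C0) (hsub : ∀ t ∈ C0, t ⊆ P)
    (hemp : ∀ t ∈ C0, ∀ p ∈ P, p ∈ convexHull ℝ (t : Set Pt) → p ∈ t)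
    {M : Finset (Pt × Pt)} (hM : Pl P M) (hside : ∀ t ∈ C0, ∀ a b, HE t a b → (a, b) ∈ M)
    (hdiag : ∀ t ∈ C0, ∀ a b, a ∈ t → b ∈ t → (a, b) ∈ M → HE t a b ∨ HE t b a) :
    ∃ C, C0 ⊆ C ∧ Full P C ∧ (∀ t ∈ C, t ∉ C0 → t.card = 3) ∧
      ∀ a b, (a, b) ∈ M → (∃ t ∈ C, HE t a b) ∨ HE P b a := by
  classical
  obtain ⟨M', hMM', hM'⟩ := exists_maxPl hM
  obtain ⟨D, hD⟩ : ∃ D, D = (tris P M').filter (fun t => ∀ s ∈ C0, ¬ t ⊆ s) := ⟨_, rfl⟩
  have memD : ∀ t, t ∈ D ↔ t ∈ tris P M' ∧ ∀ s ∈ C0, ¬ t ⊆ s := by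
    intro t; rw [hD, Finset.mem_filter]
  -- mixed pairs
  have mix : ∀ s ∈ C0, ∀ t ∈ D, convexHull ℝ (s : Set Pt) ∩ convexHull ℝ (t : Set Pt) ⊆
      convexHull ℝ ((s ∩ t : Finset Pt) : Set Pt) := by
    intro s hs t ht
    rw [memD] at ht
    exact inter_of_free hg (h0.cp s hs) (tris_cp ht.1) (h0.three s hs) (tris_card ht.1).ge
      (hsub s hs) (mem_tris.1 ht.1).1 (hemp s hs) (tris_empty ht.1)
      (fun a b c d hab hcd => hM'.nc a b c d (hMM' (hside s hs a b hab)) (tris_side ht.1 hcd))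
  have mix2 : ∀ s ∈ C0, ∀ t ∈ D, (s ∩ t).card ≤ 2 := by
    intro s hs t ht
    rw [memD] at ht
    by_contra hcon
    push Not at hcon
    have h2 := tris_card ht.1
    have e2 : s ∩ t = t := Finset.eq_of_subset_of_card_le Finset.inter_subset_right (by omega)
    apply ht.2 s hs
    rw [← e2]
    exact Finset.inter_subset_left
  have hfull := full_of_maxPl hg h3 hM'
  have hCx : Cx (C0 ∪ D) := by
    refine ⟨?_, ?_, ?_, ?_⟩
    · intro t ht
      rcases Finset.mem_union.1 ht with h | h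
      · exact h0.cp t h
      · exact tris_cp ((memD t).1 h).1
    · intro t ht
      rcases Finset.mem_union.1 ht with h | h
      · exact h0.three t h
      · exact (tris_card ((memD t).1 h).1).ge
    · intro s hs t ht hne
      rcases Finset.mem_union.1 hs with h | h
      · rcases Finset.mem_union.1 ht with h' | h'
        · exact h0.inter s h t h' hne
        · exact mix s h t h'
      · rcases Finset.mem_union.1 ht with h' | h'
        · rw [Set.inter_comm, Finset.inter_comm]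
          exact mix t h' s h
        · exact hfull.1.cx.inter s ((memD s).1 h).1 t ((memD t).1 h').1 hne
    · intro s hs t ht hne
      rcases Finset.mem_union.1 hs with h | h
      · rcases Finset.mem_union.1 ht with h' | h'
        · exact h0.two s h t h' hne
        · exact mix2 s h t h'
      · rcases Finset.mem_union.1 ht with h' | h'
        · rw [Finset.inter_comm]
          exact mix2 t h' s h
        · exact hfull.1.cx.two s ((memD s).1 h).1 t ((memD t).1 h').1 hne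
  -- a triangle over b a : either new or inside a cell of C0
  have hcase : ∀ a b, (a, b) ∈ M' → HE P b a ∨ (∃ t ∈ D, HE t a b) ∨
      ∃ s ∈ C0, a ∈ s ∧ b ∈ s ∧ ∃ u ∈ s, 0 < orient a b u := by
    intro a b hab
    rcases tris_left hg hM' hab with h | ⟨u, hu⟩
    · exact Or.inl h
    · right
      have ht := tris_of_left hM'.toPl hu
      by_cases hin : ∃ s ∈ C0, ({a, b, u} : Finset Pt) ⊆ s
      · right
        obtain ⟨s, hs, hts⟩ := hin
        exact ⟨s, hs, hts (by simp), hts (by simp), u, hts (by simp), hu.pos⟩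
      · left
        push Not at hin
        exact ⟨_, (memD _).2 ⟨ht, hin⟩, (tri_he hu.pos).2 (Or.inl ⟨rfl, rfl⟩)⟩
  refine ⟨C0 ∪ D, Finset.subset_union_left, ⟨hCx, ?_, ?_, ?_⟩, ?_, ?_⟩
  · ext p
    rw [mem_V]
    constructor
    · rintro ⟨t, ht, hp⟩
      rcases Finset.mem_union.1 ht with h | h
      · exact hsub t h hp
      · exact (mem_tris.1 ((memD t).1 h).1).1 hp
    · intro hp
      obtain ⟨t, ht, hpt⟩ := tris_vertex hg h3 hM' hp
      by_cases hin : ∃ s ∈ C0, t ⊆ s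
      · obtain ⟨s, hs, hts⟩ := hin
        exact ⟨s, Finset.mem_union_left _ hs, hts hpt⟩
      · push Not at hin
        exact ⟨t, Finset.mem_union_right _ ((memD t).2 ⟨ht, hin⟩), hpt⟩
  · intro t ht a b hab
    have hM1 : (a, b) ∈ M' := by
      rcases Finset.mem_union.1 ht with h | h
      · exact hMM' (hside t h a b hab)
      · exact tris_side ((memD t).1 h).1 hab
    rcases hcase b a (hM'.sym a b hM1) with h | ⟨t', ht', h⟩ | ⟨s, hs, hbs, has, u, hu, hpos⟩
    · exact Or.inl h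
    · exact Or.inr ⟨t', Finset.mem_union_right _ ht', h⟩
    · right
      refine ⟨s, Finset.mem_union_left _ hs, ?_⟩
      have hst : s ≠ t := by
        rintro rfl
        have := hab.nonneg u hu
        rw [orient_swap] at hpos
        linarith
      rcases hCx.side_or (Finset.mem_union_left _ hs) ht hst hab.2.2.1.symm hbs has hab.2.1 hab.1
        with h | h
      · exact h.1
      · exfalso
        have h3' := hCx.three t ht
        exact hab.not_both h.2 h3'
  · intro a b hab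
    rcases hcase a b (hM'.hull hab) with h | ⟨t', ht', h⟩ | ⟨s, hs, has, hbs, u, hu, hpos⟩
    · exact absurd h (fun h' => hab.not_both h' h3)
    · exact ⟨t', Finset.mem_union_right _ ht', h⟩
    · exact ⟨s, Finset.mem_union_left _ hs, hab.sub (hsub s hs) has hbs⟩
  · intro t ht htn
    rcases Finset.mem_union.1 ht with h | h
    · exact absurd h htn
    · exact tris_card ((memD t).1 h).1
  · intro a b hab
    rcases hcase a b (hMM' hab) with h | ⟨t', ht', h⟩ | ⟨s, hs, has, hbs, u, hu, hpos⟩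
    · exact Or.inr h
    · exact Or.inl ⟨t', Finset.mem_union_right _ ht', h⟩
    · left
      refine ⟨s, Finset.mem_union_left _ hs, ?_⟩
      rcases hdiag s hs a b has hbs hab with h | h
      · exact h
      · exfalso
        have := h.nonneg u hu
        rw [orient_swap] at this
        linarith

/-- the sides of a complex in both directions -/
noncomputable def sidesOf (C0 : Finset (Finset Pt)) : Finset (Pt × Pt) := by
  classical exact (V C0 ×ˢ V C0).filter (fun e => ∃ t ∈ C0, HE t e.1 e.2 ∨ HE t e.2 e.1)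

theorem mem_sidesOf {C0 : Finset (Finset Pt)} {a b : Pt} :
    (a, b) ∈ sidesOf C0 ↔ ∃ t ∈ C0, HE t a b ∨ HE t b a := by
  classical
  unfold sidesOf
  rw [Finset.mem_filter, Finset.mem_product, mem_V, mem_V]
  constructor
  · exact fun h => h.2
  · rintro ⟨t, ht, h⟩
    refine ⟨⟨⟨t, ht, ?_⟩, ⟨t, ht, ?_⟩⟩, ⟨t, ht, h⟩⟩
    · rcases h with h | h
      · exact h.1
      · exact h.2.1
    · rcases h with h | h
      · exact h.2.1
      · exact h.1

theorem Cx.not_xs {C0 : Finset (Finset Pt)} (h0 : Cx C0) {s t : Finset Pt} (hs : s ∈ C0)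
    (ht : t ∈ C0) {a b c d : Pt} (h1 : HE s a b) (h2 : HE t c d) : ¬ Xs a b c d := by
  intro hx
  obtain ⟨r, q, hr0, hr1, hq0, hq1, hrq⟩ := hx.point
  have hn := hx.ne
  have m1 : (1 - r) • a + r • b ∈ segment ℝ a b := ⟨1 - r, r, by linarith, hr0.le, by ring, rfl⟩
  have m2 : (1 - r) • a + r • b ∈ segment ℝ c d := by
    rw [hrq]; exact ⟨1 - q, q, by linarith, hq0.le, by ring, rfl⟩
  have h3 := (h0.sides_meet hs ht h1 h2 (by
      intro e; rw [Prod.mk.injEq] at e; exact hn.2.2.1 e.1) (by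
      intro e; rw [Prod.mk.injEq] at e; exact hn.2.2.2.1 e.1) _ m1 m2).1
  rcases h3 with h3 | h3
  · have h4 : r • (b - a) = 0 := by
      have : r • (b - a) = ((1 - r) • a + r • b) - a := by module
      rw [this, h3, sub_self]
    rcases smul_eq_zero.1 h4 with h5 | h5
    · linarith
    · exact hn.1 (sub_eq_zero.1 h5).symm
  · have h4 : (1 - r) • (a - b) = 0 := by
      have : (1 - r) • (a - b) = ((1 - r) • a + r • b) - b := by module
      rw [this, h3, sub_self]
    rcases smul_eq_zero.1 h4 with h5 | h5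
    · linarith
    · exact hn.1 (sub_eq_zero.1 h5)

theorem pl_sidesOf {P : Finset Pt} {C0 : Finset (Finset Pt)} (h0 : Cx C0)
    (hsub : ∀ t ∈ C0, t ⊆ P) : Pl P (sidesOf C0) := by
  refine ⟨?_, ?_, ?_, ?_⟩
  · intro a b hab
    obtain ⟨t, ht, h⟩ := mem_sidesOf.1 hab
    rcases h with h | h
    · exact ⟨hsub t ht h.1, hsub t ht h.2.1⟩
    · exact ⟨hsub t ht h.2.1, hsub t ht h.1⟩
  · intro a b hab
    obtain ⟨t, ht, h⟩ := mem_sidesOf.1 hab
    rcases h with h | h
    · exact h.2.2.1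
    · exact h.2.2.1.symm
  · intro a b hab
    obtain ⟨t, ht, h⟩ := mem_sidesOf.1 hab
    exact mem_sidesOf.2 ⟨t, ht, h.symm⟩
  · intro a b c d hab hcd hx
    obtain ⟨s, hs, h1⟩ := mem_sidesOf.1 hab
    obtain ⟨t, ht, h2⟩ := mem_sidesOf.1 hcd
    rcases h1 with h1 | h1
    · rcases h2 with h2 | h2
      · exact Cx.not_xs h0 hs ht h1 h2 hx
      · exact Cx.not_xs h0 hs ht h1 h2 hx.swap2
    · rcases h2 with h2 | h2
      · exact Cx.not_xs h0 hs ht h1 h2 hx.swap1
      · exact Cx.not_xs h0 hs ht h1 h2 hx.swap1.swap2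

/-- every complex of empty cells extends to a full complex whose new cells are triangles -/
theorem exists_full {P : Finset Pt} (hg : Gen P) (h3 : 3 ≤ P.card) {C0 : Finset (Finset Pt)}
    (h0 : Cx C0) (hsub : ∀ t ∈ C0, t ⊆ P)
    (hemp : ∀ t ∈ C0, ∀ p ∈ P, p ∈ convexHull ℝ (t : Set Pt) → p ∈ t) :
    ∃ C, C0 ⊆ C ∧ Full P C ∧ ∀ t ∈ C, t ∉ C0 → t.card = 3 := by
  obtain ⟨C, h1, h2, h4, -⟩ := exists_full_edges hg h3 h0 hsub hemp (pl_sidesOf h0 hsub)
    (fun t ht a b hab => mem_sidesOf.2 ⟨t, ht, Or.inl hab⟩) (by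
      intro t ht a b ha hb hab
      obtain ⟨s, hs, h⟩ := mem_sidesOf.1 hab
      by_cases hst : s = t
      · subst hst; exact h
      · rcases h with h | h
        · rcases h0.side_or hs ht hst h.2.2.1 h.1 h.2.1 ha hb with h' | h'
          · exact Or.inr h'.2
          · exact Or.inl h'.2
        · rcases h0.side_or hs ht hst h.2.2.1 h.1 h.2.1 hb ha with h' | h'
          · exact Or.inl h'.2
          · exact Or.inr h'.2)
  exact ⟨C, h1, h2, h4⟩

end Pool.Agent.RFT

end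

section

set_option autoImplicit false

/-!
# RFT/Faces : convex faces (MP_72a26e_co)
-/

namespace Pool.Agent.RFT

open Pool.Agent.RFX

/-- v is resolved by M : every open half plane at v contains an edge of M from v -/
def Res (M : Finset (Pt × Pt)) (v : Pt) : Prop :=
  ∀ w, w ≠ v → ∃ u, (v, u) ∈ M ∧ 0 < orient v w u

/-- the same with all information: the empty M-triangles are cells -/
theorem exists_faces_tri {P : Finset Pt} {M : Finset (Pt × Pt)} (hg : Gen P) (h3 : 3 ≤ P.card)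
    (hM : Pl P M) (hull : ∀ a b, HE P a b → (a, b) ∈ M)
    (res : ∀ v ∈ P, (∀ a, ¬ HE P v a) → Res M v) :
    ∃ C, Full P C ∧ (∀ t ∈ C, ∀ a b, HE t a b → (a, b) ∈ M) ∧
      (∀ a b, (a, b) ∈ M → (∃ t ∈ C, HE t a b) ∨ HE P b a) ∧
      (∀ x y u, TriL P M x y u → ({x, y, u} : Finset Pt) ∈ C) := by
  classical
  obtain ⟨M', hMM', hM'⟩ := exists_maxPl hM
  obtain ⟨hF, -, hs1, hs2⟩ := full_of_maxPl hg h3 hM'
  obtain ⟨l, -, -, -, -, -, hl⟩ := exists_hull_list P hg h3
  obtain ⟨C, hC, g1, g2, -⟩ := hF.faces hg M (fun x y h => hM.sym x y h)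
    (by
      intro x y hxy
      rcases hs2 x y (hMM' hxy) with ⟨t, ht, h⟩ | h
      · exact ⟨t, ht, Or.inl h⟩
      · obtain ⟨t, ht, h'⟩ := hF.hull y x h
        exact ⟨t, ht, Or.inr h'⟩)
    hull
    (by
      intro v hv
      by_cases h : ∀ a, ¬ HE P v a
      · right
        intro u hu
        obtain ⟨x, hx, hpos⟩ := res v hv h (v + u) (by
          intro h0
          exact hu (by simpa using h0))
        refine ⟨x, hx, ?_⟩
        have : cross u (x - v) = orient v (v + u) x := by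
          unfold cross orient
          simp only [Prod.fst_sub, Prod.snd_sub, Prod.fst_add, Prod.snd_add]
          ring
        rw [this]; exact hpos
      · left
        push Not at h
        obtain ⟨a, ha⟩ := h
        -- v is a vertex of the hull list, so it has a predecessor
        have h1 := (hl v a).1 ha
        obtain ⟨g, hgg⟩ := mem_cyc_of_mem' l v (by
          obtain ⟨h2, -⟩ := mem_of_mem_cyc l v a h1
          exact h2)
        exact ⟨g, (hl g v).2 hgg⟩)
  refine ⟨C, hC, fun t ht a b hab => (g1 a b).1 ⟨t, ht, Or.inl hab⟩, ?_, ?_⟩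
  · intro a b hab
    obtain ⟨t, ht, h | h⟩ := (g1 a b).2 hab
    · exact Or.inl ⟨t, ht, h⟩
    · rcases hC.side t ht b a h with h' | ⟨s, hs, h'⟩
      · exact Or.inr h'
      · exact Or.inl ⟨s, hs, h'⟩
  · intro x y u h
    apply g2
    · apply tris_of_left hM'.toPl
      exact ⟨hMM' h.xy, hMM' h.yu, hMM' h.ux, h.pos, h.empty⟩
    · intro a b hab
      rw [tri_he h.pos] at hab
      rcases hab with ⟨rfl, rfl⟩ | ⟨rfl, rfl⟩ | ⟨rfl, rfl⟩
      · exact h.xy
      · exact h.yu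
      · exact h.ux

/-- a plane edge set which contains the hull edges and resolves all other vertices is the set of
sides of a full complex of convex cells -/
theorem exists_faces {P : Finset Pt} {M : Finset (Pt × Pt)} (hg : Gen P) (h3 : 3 ≤ P.card)
    (hM : Pl P M) (hull : ∀ a b, HE P a b → (a, b) ∈ M)
    (res : ∀ v ∈ P, (∀ a, ¬ HE P v a) → Res M v) :
    ∃ C, Full P C ∧ (∀ t ∈ C, ∀ a b, HE t a b → (a, b) ∈ M) ∧
      (∀ a b, (a, b) ∈ M → (∃ t ∈ C, HE t a b) ∨ HE P b a) := by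
  obtain ⟨C, h1, h2, h3, -⟩ := exists_faces_tri hg h3 hM hull res
  exact ⟨C, h1, h2, h3⟩

end Pool.Agent.RFT

end

section

set_option autoImplicit false

/-!
# RFX/FunDefs : funnel trees (plain trees of helper50), sleeves (MP_72a26e_co, section 3)
-/

namespace Pool.Agent.RFX

open Pool.Agent.RFT

/-- plain funnel trees: `nd a l r` over the dart `(x, y)` is the triangle `x y a` (`a` strictly left of
`x → y`) with `l` over `(x, a)` and `r` over `(a, y)` -/
inductive FT : Type where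
  | lf : FT
  | nd (a : Pt) (l r : FT) : FT

namespace FT

/-- leaf darts, from `x` to `y`; the face (or other region) behind a leaf is on the LEFT of the
leaf dart -/
def lv : FT → Pt → Pt → List (Pt × Pt)
  | lf, x, y => [(x, y)]
  | nd a l r, x, y => lv l x a ++ lv r a y

/-- apexes from left to right (from `x` to `y`) -/
def ap : FT → List Pt
  | lf => []
  | nd a l r => ap l ++ a :: ap r

/-- the cells (triangles of the nodes) -/
noncomputable def ce : FT → Pt → Pt → List (Finset Pt)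
  | lf, _, _ => []
  | nd a l r, x, y => {x, y, a} :: (ce l x a ++ ce r a y)

/-- the bases of the nodes -/
def bs : FT → Pt → Pt → List (Pt × Pt)
  | lf, _, _ => []
  | nd a l r, x, y => (x, y) :: (bs l x a ++ bs r a y)

/-- the nodes `(x, y, a)` -/
def ns : FT → Pt → Pt → List (Pt × Pt × Pt)
  | lf, _, _ => []
  | nd a l r, x, y => (x, y, a) :: (ns l x a ++ ns r a y)

/-- all darts of the tree over `(x, y)`: bases and leaves -/
def ds : FT → Pt → Pt → List (Pt × Pt)
  | lf, x, y => [(x, y)]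
  | nd a l r, x, y => (x, y) :: (ds l x a ++ ds r a y)

/-- every apex is strictly on the left of its base -/
def ok : FT → Pt → Pt → Prop
  | lf, _, _ => True
  | nd a l r, x, y => 0 < orient x y a ∧ ok l x a ∧ ok r a y

/-- all cells of the tree are cells of `C` -/
def inC (C : Finset (Finset Pt)) : FT → Pt → Pt → Prop
  | lf, _, _ => True
  | nd a l r, x, y => ({x, y, a} : Finset Pt) ∈ C ∧ HE {x, y, a} x y ∧ inC C l x a ∧ inC C r a y

@[simp] theorem lv_lf (x y : Pt) : lv lf x y = [(x, y)] := rfl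
@[simp] theorem lv_nd (a : Pt) (l r : FT) (x y : Pt) :
    lv (nd a l r) x y = lv l x a ++ lv r a y := rfl
@[simp] theorem ap_lf : ap lf = [] := rfl
@[simp] theorem ap_nd (a : Pt) (l r : FT) : ap (nd a l r) = ap l ++ a :: ap r := rfl
@[simp] theorem ce_lf (x y : Pt) : ce lf x y = [] := rfl
@[simp] theorem ce_nd (a : Pt) (l r : FT) (x y : Pt) :
    ce (nd a l r) x y = {x, y, a} :: (ce l x a ++ ce r a y) := rfl
@[simp] theorem bs_lf (x y : Pt) : bs lf x y = [] := rfl
@[simp] theorem bs_nd (a : Pt) (l r : FT) (x y : Pt) :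
    bs (nd a l r) x y = (x, y) :: (bs l x a ++ bs r a y) := rfl
@[simp] theorem ns_lf (x y : Pt) : ns lf x y = [] := rfl
@[simp] theorem ns_nd (a : Pt) (l r : FT) (x y : Pt) :
    ns (nd a l r) x y = (x, y, a) :: (ns l x a ++ ns r a y) := rfl
@[simp] theorem ds_lf (x y : Pt) : ds lf x y = [(x, y)] := rfl
@[simp] theorem ds_nd (a : Pt) (l r : FT) (x y : Pt) :
    ds (nd a l r) x y = (x, y) :: (ds l x a ++ ds r a y) := rfl

/-- number of leaves = number of apexes + 1 -/
theorem length_lv (t : FT) : ∀ x y : Pt, (lv t x y).length = (ap t).length + 1 := by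
  induction t with
  | lf => intro x y; rfl
  | nd a l r hl hr =>
    intro x y
    rw [lv_nd, List.length_append, hl, hr, ap_nd, List.length_append, List.length_cons]
    omega

/-- the leaves form a path: first coordinates are `x` and the apexes -/
theorem map_fst_lv (t : FT) : ∀ x y : Pt, (lv t x y).map Prod.fst = x :: ap t := by
  induction t with
  | lf => intro x y; rfl
  | nd a l r hl hr =>
    intro x y
    rw [lv_nd, List.map_append, hl, hr, ap_nd]
    rfl

/-- second coordinates are the apexes and `y` -/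
theorem map_snd_lv (t : FT) : ∀ x y : Pt, (lv t x y).map Prod.snd = ap t ++ [y] := by
  induction t with
  | lf => intro x y; rfl
  | nd a l r hl hr =>
    intro x y
    rw [lv_nd, List.map_append, hl, hr, ap_nd, List.append_assoc, List.append_assoc]
    rfl

theorem lv_ne_nil (t : FT) (x y : Pt) : lv t x y ≠ [] := by
  intro h
  have := length_lv t x y
  rw [h] at this
  simp at this

/-- the first leaf -/
def lv1 : FT → Pt → Pt → Pt × Pt
  | lf, x, y => (x, y)
  | nd a l _, x, _ => lv1 l x a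

/-- the last leaf -/
def lvz : FT → Pt → Pt → Pt × Pt
  | lf, x, y => (x, y)
  | nd a _ r, _, y => lvz r a y

theorem lv1_fst (t : FT) : ∀ x y : Pt, (lv1 t x y).1 = x := by
  induction t with
  | lf => intro x y; rfl
  | nd a l r hl hr => intro x y; exact hl x a

theorem lvz_snd (t : FT) : ∀ x y : Pt, (lvz t x y).2 = y := by
  induction t with
  | lf => intro x y; rfl
  | nd a l r hl hr => intro x y; exact hr a y

theorem head_lv (t : FT) : ∀ x y : Pt, (lv t x y).head? = some (lv1 t x y) := by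
  induction t with
  | lf => intro x y; rfl
  | nd a l r hl hr =>
    intro x y
    rw [lv_nd, List.head?_append, hl]
    rfl

theorem getLast_lv (t : FT) : ∀ x y : Pt, (lv t x y).getLast? = some (lvz t x y) := by
  induction t with
  | lf => intro x y; rfl
  | nd a l r hl hr =>
    intro x y
    rw [lv_nd, List.getLast?_append, hr]
    rfl

theorem lv1_mem (t : FT) (x y : Pt) : lv1 t x y ∈ lv t x y := by
  have := head_lv t x y
  exact List.mem_of_mem_head? (by rw [this]; rfl)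

theorem lvz_mem (t : FT) (x y : Pt) : lvz t x y ∈ lv t x y :=
  List.mem_of_getLast? (getLast_lv t x y)

/-- a leaf dart is a dart of the tree -/
theorem lv_sub_ds (t : FT) : ∀ x y : Pt, ∀ d ∈ lv t x y, d ∈ ds t x y := by
  induction t with
  | lf => intro x y d hd; exact hd
  | nd a l r hl hr =>
    intro x y d hd
    rw [lv_nd, List.mem_append] at hd
    rw [ds_nd, List.mem_cons, List.mem_append]
    rcases hd with hd | hd
    · exact Or.inr (Or.inl (hl _ _ d hd))
    · exact Or.inr (Or.inr (hr _ _ d hd))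

/-- a dart of the tree is a base or a leaf -/
theorem mem_ds_iff (t : FT) : ∀ x y : Pt, ∀ d, d ∈ ds t x y ↔ d ∈ bs t x y ∨ d ∈ lv t x y := by
  induction t with
  | lf => intro x y d; simp
  | nd a l r hl hr =>
    intro x y d
    rw [ds_nd, bs_nd, lv_nd, List.mem_cons, List.mem_cons, List.mem_append, List.mem_append,
      List.mem_append, hl, hr]
    tauto

/-- the ends of the leaves -/
theorem mem_lv_fst (t : FT) (x y : Pt) (d : Pt × Pt) (h : d ∈ lv t x y) :
    d.1 = x ∨ d.1 ∈ ap t := by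
  have h1 : d.1 ∈ (lv t x y).map Prod.fst := List.mem_map_of_mem h
  rw [map_fst_lv, List.mem_cons] at h1
  exact h1

theorem mem_lv_snd (t : FT) (x y : Pt) (d : Pt × Pt) (h : d ∈ lv t x y) :
    d.2 ∈ ap t ∨ d.2 = y := by
  have h1 : d.2 ∈ (lv t x y).map Prod.snd := List.mem_map_of_mem h
  rw [map_snd_lv, List.mem_append, List.mem_singleton] at h1
  exact h1

/-- the cells of the nodes -/
theorem mem_ce_iff (t : FT) : ∀ x y : Pt, ∀ c : Finset Pt,
    c ∈ ce t x y ↔ ∃ n ∈ ns t x y, c = {n.1, n.2.1, n.2.2} := by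
  induction t with
  | lf => intro x y c; simp
  | nd a l r hl hr =>
    intro x y c
    rw [ce_nd, ns_nd, List.mem_cons, List.mem_append, hl, hr]
    simp only [List.mem_cons, List.mem_append]
    constructor
    · rintro (h | ⟨n, hn, h⟩ | ⟨n, hn, h⟩)
      · exact ⟨(x, y, a), Or.inl rfl, h⟩
      · exact ⟨n, Or.inr (Or.inl hn), h⟩
      · exact ⟨n, Or.inr (Or.inr hn), h⟩
    · rintro ⟨n, hn | hn | hn, h⟩
      · subst hn; exact Or.inl h
      · exact Or.inr (Or.inl ⟨n, hn, h⟩)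
      · exact Or.inr (Or.inr ⟨n, hn, h⟩)

/-- replace the leaf over the dart `d` by the tree `s` -/
noncomputable def sub (d : Pt × Pt) (s : FT) : FT → Pt → Pt → FT
  | lf, x, y => open Classical in if (x, y) = d then s else lf
  | nd a l r, x, y => nd a (sub d s l x a) (sub d s r a y)

end FT


namespace FT

/-- all sides of the nodes of a tree over `(x, y)`, in both directions -/
noncomputable def sides : FT → Pt → Pt → Finset (Pt × Pt)
  | lf, _, _ => ∅
  | nd a l r, x, y => {(x, y), (y, x), (x, a), (a, x), (a, y), (y, a)} ∪ (sides l x a ∪ sides r a y)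

@[simp] theorem sides_lf (x y : Pt) : sides lf x y = ∅ := rfl
@[simp] theorem sides_nd (a : Pt) (l r : FT) (x y : Pt) :
    sides (nd a l r) x y =
      {(x, y), (y, x), (x, a), (a, x), (a, y), (y, a)} ∪ (sides l x a ∪ sides r a y) := rfl

theorem mem_sides_iff (t : FT) : ∀ x y : Pt, ∀ d : Pt × Pt, d ∈ sides t x y ↔
    ∃ n ∈ ns t x y, d = (n.1, n.2.1) ∨ d = (n.2.1, n.1) ∨ d = (n.1, n.2.2) ∨ d = (n.2.2, n.1) ∨
      d = (n.2.2, n.2.1) ∨ d = (n.2.1, n.2.2) := by
  induction t with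
  | lf => intro x y d; simp
  | nd a l r hl hr =>
    intro x y d
    rw [sides_nd, ns_nd]
    simp only [Finset.mem_union, Finset.mem_insert, Finset.mem_singleton, hl, hr, List.mem_cons,
      List.mem_append]
    constructor
    · rintro (h | ⟨n, hn, h⟩ | ⟨n, hn, h⟩)
      · exact ⟨(x, y, a), Or.inl rfl, h⟩
      · exact ⟨n, Or.inr (Or.inl hn), h⟩
      · exact ⟨n, Or.inr (Or.inr hn), h⟩
    · rintro ⟨n, hn | hn | hn, h⟩
      · subst hn; exact Or.inl h
      · exact Or.inr (Or.inl ⟨n, hn, h⟩)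
      · exact Or.inr (Or.inr ⟨n, hn, h⟩)

end FT

/-- the result of the sleeve theorem: `t` is a tree over the dart `(x, y)` of `M` which is crossed by
the ray from `r`, the prolongation of `c r` -/
structure Sleeve (P : Finset Pt) (M : Finset (Pt × Pt)) (c r x y : Pt) (t : FT) : Prop where
  /-- the nodes are ccw triangles without points of `P`; their bases are crossed by the ray -/
  tri : ∀ p q a, (p, q, a) ∈ t.ns x y → a ∈ P ∧ 0 < orient p q a ∧
    (∀ v ∈ P, InT p q a v → v = p ∨ v = q ∨ v = a) ∧ orient c r p < 0 ∧ 0 < orient c r q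
  /-- the sides of the nodes can be added to `M` -/
  pl : Pl P (M ∪ t.sides x y)
  nodup : t.ap.Nodup
  mem : r ∈ t.ap
  ne : ∀ a ∈ t.ap, a ≠ x ∧ a ≠ y
  /-- the triangles are new -/
  new : ∀ p q a, (p, q, a) ∈ t.ns x y → a ≠ r → (p, a) ∉ M ∨ (a, q) ∉ M
  /-- the other apexes were not resolved -/
  bend : ∀ a ∈ t.ap, a ≠ r → ¬ Res M a
  /-- they are resolved by the sides of the tree -/
  res : ∀ a ∈ t.ap, a ≠ r → Res (t.sides x y) a
  /-- everything is in the triangle `x y r` -/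
  loc : ∀ a ∈ t.ap, InT x y r a

end Pool.Agent.RFX

end

section

set_option autoImplicit false

/-!
# RFX/FunOut : input and output of the funnel process (MP_72a26e_co, section 3)

`T0` = triangles of the normal form (petal and gap triangles), `B0` = end-edges `(N, w)` (`w` the tip),
`M0` = symmetric set of edges of the normal form. The theorem `exists_funnels` is in `RFX/Fun`.
-/

namespace Pool.Agent.RFX

open Pool.Agent.RFT

/-- a free dart: an `M0`-edge with neither a triangle of `T0` nor the outer face on its left -/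
def FreeDart (P : Finset Pt) (T0 : Finset (Finset Pt)) (M0 : Finset (Pt × Pt)) (g : Pt × Pt) :
    Prop :=
  g ∈ M0 ∧ (∀ t ∈ T0, ¬ HE t g.1 g.2) ∧ ¬ HE P g.2 g.1

/-- input of the funnel process -/
structure FunIn (P : Finset Pt) (T0 : Finset (Finset Pt)) (B0 M0 : Finset (Pt × Pt)) : Prop where
  pl : Pl P M0
  hull : ∀ a b, HE P a b → (a, b) ∈ M0
  tri : ∀ t ∈ T0, ∃ x y u, TriL P M0 x y u ∧ t = {x, y, u}
  tip : ∀ N w, (N, w) ∈ B0 → (N, w) ∈ M0 ∧ ∀ v, (w, v) ∈ M0 → v = N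
  tipN : ∀ N w, (N, w) ∈ B0 → Res M0 N

/-- output of the funnel process: the plane edge set `M` and a funnel tree `τ g` over every dart
`g` -/
structure FunOut (P : Finset Pt) (T0 : Finset (Finset Pt)) (B0 M0 M : Finset (Pt × Pt))
    (τ : Pt × Pt → FT) : Prop where
  pl : Pl P M
  sub : M0 ⊆ M
  /-- trees only over free darts -/
  free : ∀ g, τ g ≠ FT.lf → FreeDart P T0 M0 g
  /-- every edge is an `M0`-edge or a side of a node -/
  edge : ∀ d ∈ M, d ∈ M0 ∨ ∃ g, d ∈ (τ g).sides g.1 g.2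
  sides : ∀ g, (τ g).sides g.1 g.2 ⊆ M
  /-- nodes are empty triangles with sides in `M`, the apex on the left of the base -/
  node : ∀ g p q a, (p, q, a) ∈ (τ g).ns g.1 g.2 → TriL P M p q a
  /-- every point is at most once an apex -/
  nodup : ∀ g, (τ g).ap.Nodup
  disj : ∀ g g' a, a ∈ (τ g).ap → a ∈ (τ g').ap → g = g'
  /-- apexes were not resolved by `M0` and are resolved by `M` (so no hull vertices) -/
  ap : ∀ g a, a ∈ (τ g).ap → a ∈ P ∧ ¬ Res M0 a ∧ Res M a
  /-- every touched vertex is resolved by `M` or a hull vertex -/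
  res : ∀ v, (∃ u, (v, u) ∈ M) → (∀ a, ¬ HE P v a) → Res M v
  /-- a tip is an apex, but not over its own end-edge -/
  tip : ∀ N w, (N, w) ∈ B0 → ∃ g, w ∈ (τ g).ap ∧ g ≠ (N, w) ∧ g ≠ (w, N)
  /-- different nodes are different triangles, and different from the triangles of `T0` -/
  inj : ∀ g p q a g' p' q' a', (p, q, a) ∈ (τ g).ns g.1 g.2 → (p', q', a') ∈ (τ g').ns g'.1 g'.2 →
    ({p, q, a} : Finset Pt) = {p', q', a'} → g = g' ∧ p = p' ∧ q = q' ∧ a = a'
  new : ∀ g p q a, (p, q, a) ∈ (τ g).ns g.1 g.2 → ({p, q, a} : Finset Pt) ∉ T0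
  /-- a node over an `M0`-dart is the root of the tree over this dart -/
  base : ∀ g p q a, (p, q, a) ∈ (τ g).ns g.1 g.2 → (p, q) ∈ M0 → (p, q) = g

end Pool.Agent.RFX

end

section

set_option autoImplicit false

/-!
# RFX/NFDefs : the normal form (MP_72a26e_co, section 1), output structure

`C` full complex on `P`, `E0` petal triangles (black), `G0` gap triangles, `B0` end-edges `(N, w)` (`w` the tip),
`Gp` gaps `(g1, g2, g3, g4)`: the gap is on the left of the dart `(g1, g2)` and of `(g4, g3)`, these two cross edges are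
closed (petals behind), the body edges `{g1, g3}`, `{g4, g2}` are open and `(g1, g3)`, `(g4, g2)` are free
darts. `Cl0` closed darts, `M0` all darts of the normal form, `L` loose points.
-/

namespace Pool.Agent.RFX

open Pool.Agent.RFT

/-- `v` is a hull vertex of `P` -/
def HV (P : Finset Pt) (v : Pt) : Prop := ∃ b, HE P v b

/-- the two triangles of a gap (one of the two diagonals) -/
def GapTri (g1 g2 g3 g4 : Pt) (t t' : Finset Pt) : Prop :=
  (0 < orient g1 g2 g3 ∧ 0 < orient g3 g2 g4 ∧ t = {g1, g2, g3} ∧ t' = {g3, g2, g4}) ∨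
  (0 < orient g1 g2 g4 ∧ 0 < orient g1 g4 g3 ∧ t = {g1, g2, g4} ∧ t' = {g1, g4, g3})

/-- the black triangles at an end vertex or a gap vertex form one block: at most one unmatched side in each
direction (Lemma 5.4) -/
def Blk (E0 G0 : Finset (Finset Pt)) (B0 : Finset (Pt × Pt)) : Prop :=
  ∀ v, ((∃ w, (v, w) ∈ B0) ∨ ∃ t ∈ G0, v ∈ t) →
    (∀ a a', (∃ t ∈ E0, HE t v a) → (∀ t ∈ E0, ¬ HE t a v) →
      (∃ t ∈ E0, HE t v a') → (∀ t ∈ E0, ¬ HE t a' v) → a = a') ∧
    (∀ a a', (∃ t ∈ E0, HE t a v) → (∀ t ∈ E0, ¬ HE t v a) →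
      (∃ t ∈ E0, HE t a' v) → (∀ t ∈ E0, ¬ HE t v a') → a = a')

structure NF (P : Finset Pt) (C E0 G0 : Finset (Finset Pt)) (B0 M0 Cl0 : Finset (Pt × Pt))
    (Gp : Finset (Pt × Pt × Pt × Pt)) (L : Finset Pt) : Prop where
  full : Full P C
  reach : Reach P C E0 Cl0
  subG : G0 ⊆ C
  disj : ∀ t ∈ G0, t ∉ E0
  tri : ∀ t ∈ E0 ∪ G0, t.card = 3
  cl0 : ∀ a b, (a, b) ∈ Cl0 ↔ HE P a b ∨ HE P b a ∨ ∃ t ∈ E0, HE t a b ∨ HE t b a
  m0 : ∀ a b, (a, b) ∈ M0 ↔ (a, b) ∈ Cl0 ∨ (∃ t ∈ G0, HE t a b ∨ HE t b a) ∨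
    (a, b) ∈ B0 ∨ (b, a) ∈ B0
  side : ∀ a b, (a, b) ∈ M0 → ∃ t ∈ C, HE t a b ∨ HE t b a
  funIn : FunIn P (E0 ∪ G0) B0 M0
  /-- loose points -/
  looseP : L ⊆ P
  looseU : ∀ v ∈ P, ¬ HV P v → ¬ Res M0 v → v ∈ L
  looseB : ∀ N w, (N, w) ∈ B0 → N ∈ L ∧ w ∈ L
  looseG : ∀ t ∈ G0, t ⊆ L
  /-- every class has at most one root, the class of the hull has none -/
  root : ∀ u v, Joined Cl0 u v → ¬ HV P u → ¬ Res M0 u → ¬ HV P v → ¬ Res M0 v → u = v
  rootHull : ∀ u v, Joined Cl0 u v → ¬ HV P u → ¬ Res M0 u → ¬ HV P v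
  /-- end-edges -/
  bHull : ∀ N w, (N, w) ∈ B0 → ¬ HV P N ∧ ¬ HV P w ∧ Res M0 N
  bInj : ∀ N w N' w', (N, w) ∈ B0 → (N', w') ∈ B0 → N = N' ∨ w = w' → N = N' ∧ w = w'
  bNe : ∀ N w N' w', (N, w) ∈ B0 → (N', w') ∈ B0 → N ≠ w'
  bE : ∀ N w, (N, w) ∈ B0 → (∃ t ∈ E0, N ∈ t) ∧ (N, w) ∉ Cl0 ∧ ∀ t ∈ G0, N ∉ t ∧ w ∉ t
  bTip : ∀ N w, (N, w) ∈ B0 → ∀ t ∈ E0, w ∉ t
  /-- gaps -/
  gTri : ∀ g1 g2 g3 g4, (g1, g2, g3, g4) ∈ Gp → ∃ t ∈ G0, ∃ t' ∈ G0, GapTri g1 g2 g3 g4 t t'
  gAll : ∀ t ∈ G0, ∃ g1 g2 g3 g4 t', (g1, g2, g3, g4) ∈ Gp ∧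
    (GapTri g1 g2 g3 g4 t t' ∨ GapTri g1 g2 g3 g4 t' t)
  gCl : ∀ g1 g2 g3 g4, (g1, g2, g3, g4) ∈ Gp → (∃ t ∈ E0, HE t g2 g1) ∧ ∃ t ∈ E0, HE t g3 g4
  gOpen : ∀ g1 g2 g3 g4, (g1, g2, g3, g4) ∈ Gp → (g1, g3) ∉ Cl0 ∧ (g4, g2) ∉ Cl0 ∧
    FreeDart P (E0 ∪ G0) M0 (g1, g3) ∧ FreeDart P (E0 ∪ G0) M0 (g4, g2)
  gRes : ∀ g1 g2 g3 g4, (g1, g2, g3, g4) ∈ Gp → ∀ v, v = g1 ∨ v = g2 ∨ v = g3 ∨ v = g4 →
    Res M0 v ∧ ¬ HV P v
  gNe : ∀ g1 g2 g3 g4, (g1, g2, g3, g4) ∈ Gp →
    g1 ≠ g2 ∧ g1 ≠ g3 ∧ g1 ≠ g4 ∧ g2 ≠ g3 ∧ g2 ≠ g4 ∧ g3 ≠ g4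
  gDisj : ∀ g1 g2 g3 g4 h1 h2 h3 h4, (g1, g2, g3, g4) ∈ Gp → (h1, h2, h3, h4) ∈ Gp →
    (∃ v, (v = g1 ∨ v = g2 ∨ v = g3 ∨ v = g4) ∧ (v = h1 ∨ v = h2 ∨ v = h3 ∨ v = h4)) →
    g1 = h1 ∧ g2 = h2 ∧ g3 = h3 ∧ g4 = h4
  /-- no closed free dart has two ends of type N / gap -/
  star : ∀ a b, FreeDart P (E0 ∪ G0) M0 (a, b) → (a, b) ∈ Cl0 →
    ¬ (((∃ w, (a, w) ∈ B0) ∨ ∃ t ∈ G0, a ∈ t) ∧ ((∃ w, (b, w) ∈ B0) ∨ ∃ t ∈ G0, b ∈ t))
  /-- one block of black triangles at end vertices and gap vertices -/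
  blk : Blk E0 G0 B0

/-- the normal form exists, with `O(k)` loose points -/
def NFClaim (K : ℕ) : Prop :=
  ∀ P : Finset Pt, 3 ≤ P.card → Gen P → ∀ F : Finpartition P,
    (∀ A ∈ F.parts, CP A) →
    (∀ A ∈ F.parts, ∀ B ∈ F.parts, A ≠ B →
      Disjoint (convexHull ℝ (A : Set Pt)) (convexHull ℝ (B : Set Pt))) →
    ∃ C E0 G0 B0 M0 Cl0 Gp L, NF P C E0 G0 B0 M0 Cl0 Gp L ∧ L.card ≤ K * F.parts.card

end Pool.Agent.RFX

end

section

set_option autoImplicit false

/-!
# RFX/Til : the tiling = output of the geometric half, input of the combinatorial half (MP_72a26e_co)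

`Til` : normal form + funnel trees + faces on the set `P` of the TOUCHED points (`RFX/TilOf`).
-/

namespace Pool.Agent.RFX

open Pool.Agent.RFT

/-- the tiling: normal form + funnel trees + faces; `P` = touched points; the sides of the cells of the
full complex `C` are the edges of the normal form and the sides of the nodes -/
structure Til (P : Finset Pt) (C E0 G0 : Finset (Finset Pt)) (B0 M0 Cl0 : Finset (Pt × Pt))
    (Gp : Finset (Pt × Pt × Pt × Pt)) (L : Finset Pt) (τ : Pt × Pt → FT) : Prop where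
  nf : NF P C E0 G0 B0 M0 Cl0 Gp L
  gen : Gen P
  three : 3 ≤ P.card
  /-- sides of the cells -/
  side : ∀ t ∈ C, ∀ a b, HE t a b → (a, b) ∈ M0 ∨ ∃ g, (a, b) ∈ (τ g).sides g.1 g.2
  /-- trees stand over free darts -/
  free : ∀ g, τ g ≠ FT.lf → FreeDart P (E0 ∪ G0) M0 g
  /-- nodes are cells -/
  node : ∀ g p q a, (p, q, a) ∈ (τ g).ns g.1 g.2 →
    ({p, q, a} : Finset Pt) ∈ C ∧ 0 < orient p q a
  new : ∀ g p q a, (p, q, a) ∈ (τ g).ns g.1 g.2 → ({p, q, a} : Finset Pt) ∉ E0 ∪ G0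
  /-- only the root of a tree stands on an edge of the normal form -/
  base : ∀ g p q a, (p, q, a) ∈ (τ g).ns g.1 g.2 → (p, q) ∈ M0 → (p, q) = g
  nodup : ∀ g, (τ g).ap.Nodup
  dj : ∀ g g' a, a ∈ (τ g).ap → a ∈ (τ g').ap → g = g'
  inj : ∀ g p q a g' p' q' a', (p, q, a) ∈ (τ g).ns g.1 g.2 → (p', q', a') ∈ (τ g').ns g'.1 g'.2 →
    ({p, q, a} : Finset Pt) = {p', q', a'} → g = g' ∧ p = p' ∧ q = q' ∧ a = a'
  /-- apexes are no hull vertices and were not resolved by the normal form -/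
  apH : ∀ g a, a ∈ (τ g).ap → ¬ HV P a
  apR : ∀ g a, a ∈ (τ g).ap → ¬ Res M0 a
  /-- a tip is an apex, but not over its own end-edge -/
  tipA : ∀ N w, (N, w) ∈ B0 → ∃ g, w ∈ (τ g).ap ∧ g ≠ (N, w) ∧ g ≠ (w, N)

end Pool.Agent.RFX

end

section

set_option autoImplicit false

/-!
# RFX/TilT : combinatorics of plain funnel trees (MP_72a26e_co)
-/

namespace Pool.Agent.RFX

namespace FT

theorem mk3 {p q c x y d : Pt} : ((p, q, c) = (x, y, d)) ↔ p = x ∧ q = y ∧ c = d := by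
  constructor
  · intro h
    exact ⟨congrArg Prod.fst h, congrArg (fun e => e.2.1) h, congrArg (fun e => e.2.2) h⟩
  · rintro ⟨rfl, rfl, rfl⟩; rfl

/-- a leaf is the base of the empty tree or an upper dart of a node -/
theorem lv_cases (t : FT) : ∀ x y a b : Pt, (a, b) ∈ t.lv x y →
    (t = lf ∧ a = x ∧ b = y) ∨
    ∃ p q c, (p, q, c) ∈ t.ns x y ∧ ((a = p ∧ b = c) ∨ (a = c ∧ b = q)) := by
  induction t with
  | lf =>
    intro x y a b h
    simp only [lv_lf, List.mem_cons, Prod.mk.injEq, List.not_mem_nil, or_false] at h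
    exact Or.inl ⟨rfl, h.1, h.2⟩
  | nd c l r hl hr =>
    intro x y a b h
    right
    rw [lv_nd, List.mem_append] at h
    rcases h with h | h
    · rcases hl x c a b h with ⟨-, h1, h2⟩ | ⟨p, q, d, h1, h2⟩
      · exact ⟨x, y, c, by simp, Or.inl ⟨h1, h2⟩⟩
      · exact ⟨p, q, d, by simp [h1], h2⟩
    · rcases hr c y a b h with ⟨-, h1, h2⟩ | ⟨p, q, d, h1, h2⟩
      · exact ⟨x, y, c, by simp, Or.inr ⟨h1, h2⟩⟩
      · exact ⟨p, q, d, by simp [h1], h2⟩

/-- the base of a node is the base of the tree or an upper dart of another node -/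
theorem ns_base (t : FT) : ∀ x y p q c : Pt, (p, q, c) ∈ t.ns x y →
    (p = x ∧ q = y ∧ ∃ l r, t = nd c l r) ∨
    ∃ p' q' c', (p', q', c') ∈ t.ns x y ∧ ((p = p' ∧ q = c') ∨ (p = c' ∧ q = q')) := by
  induction t with
  | lf => intro x y p q c h; simp at h
  | nd d l r hl hr =>
    intro x y p q c h
    rw [ns_nd, List.mem_cons, List.mem_append, mk3] at h
    rcases h with ⟨rfl, rfl, rfl⟩ | h | h
    · exact Or.inl ⟨rfl, rfl, l, r, rfl⟩
    · right
      rcases hl x d p q c h with ⟨h1, h2, -⟩ | ⟨p', q', c', h1, h2⟩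
      · exact ⟨x, y, d, by simp, Or.inl ⟨h1, h2⟩⟩
      · exact ⟨p', q', c', by simp [h1], h2⟩
    · right
      rcases hr d y p q c h with ⟨h1, h2, -⟩ | ⟨p', q', c', h1, h2⟩
      · exact ⟨x, y, d, by simp, Or.inr ⟨h1, h2⟩⟩
      · exact ⟨p', q', c', by simp [h1], h2⟩

/-- the nodes with their subtrees -/
def fns : FT → Pt → Pt → List (Pt × Pt × Pt × FT × FT)
  | lf, _, _ => []
  | nd a l r, x, y => (x, y, a, l, r) :: (fns l x a ++ fns r a y)

@[simp] theorem fns_lf (x y : Pt) : fns lf x y = [] := rfl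
@[simp] theorem fns_nd (a : Pt) (l r : FT) (x y : Pt) :
    fns (nd a l r) x y = (x, y, a, l, r) :: (fns l x a ++ fns r a y) := rfl

theorem ns_fns (t : FT) : ∀ x y p q c : Pt, (p, q, c) ∈ t.ns x y ↔
    ∃ l r, (p, q, c, l, r) ∈ t.fns x y := by
  induction t with
  | lf => intro x y p q c; simp
  | nd d l r hl hr =>
    intro x y p q c
    rw [ns_nd, fns_nd]
    simp only [List.mem_cons, List.mem_append, Prod.mk.injEq, hl, hr]
    constructor
    · rintro (⟨rfl, rfl, rfl⟩ | ⟨l', r', h⟩ | ⟨l', r', h⟩)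
      · exact ⟨l, r, Or.inl ⟨rfl, rfl, rfl, rfl, rfl⟩⟩
      · exact ⟨l', r', Or.inr (Or.inl h)⟩
      · exact ⟨l', r', Or.inr (Or.inr h)⟩
    · rintro ⟨l', r', ⟨rfl, rfl, rfl, rfl, rfl⟩ | h | h⟩
      · exact Or.inl ⟨rfl, rfl, rfl⟩
      · exact Or.inr (Or.inl ⟨l', r', h⟩)
      · exact Or.inr (Or.inr ⟨l', r', h⟩)

/-- the apexes are the third components of the nodes -/
theorem fns_perm (t : FT) : ∀ x y : Pt, ((t.fns x y).map (fun n => n.2.2.1)).Perm t.ap := by
  induction t with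
  | lf => intro x y; simp
  | nd d l r hl hr =>
    intro x y
    rw [fns_nd, ap_nd, List.map_cons, List.map_append]
    refine List.Perm.trans ?_ List.perm_middle.symm
    exact List.Perm.cons _ ((hl x d).append (hr d y))

theorem ap_iff_ns (t : FT) (x y c : Pt) : c ∈ t.ap ↔ ∃ p q, (p, q, c) ∈ t.ns x y := by
  rw [← (fns_perm t x y).mem_iff, List.mem_map]
  constructor
  · rintro ⟨⟨p, q, c', l, r⟩, h, rfl⟩
    exact ⟨p, q, (ns_fns t x y p q _).2 ⟨l, r, h⟩⟩
  · rintro ⟨p, q, h⟩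
    obtain ⟨l, r, h⟩ := (ns_fns t x y p q c).1 h
    exact ⟨_, h, rfl⟩

/-- if no point is twice an apex then the apex determines the node and its subtrees -/
theorem fns_unique {t : FT} (hn : t.ap.Nodup) {x y : Pt} {p q p' q' c : Pt} {l r l' r' : FT}
    (h : (p, q, c, l, r) ∈ t.fns x y) (h' : (p', q', c, l', r') ∈ t.fns x y) :
    p = p' ∧ q = q' ∧ l = l' ∧ r = r' := by
  have h1 : ((t.fns x y).map (fun n => n.2.2.1)).Nodup := (fns_perm t x y).nodup_iff.2 hn
  have h2 := List.inj_on_of_nodup_map h1 h h' rfl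
  simp only [Prod.mk.injEq] at h2
  exact ⟨h2.1, h2.2.1, h2.2.2.2.1, h2.2.2.2.2⟩

/-- an upper dart is a leaf or a base, with subtrees -/
theorem fns_up (t : FT) : ∀ x y p q c : Pt, ∀ l r, (p, q, c, l, r) ∈ t.fns x y →
    (l = lf → (p, c) ∈ t.lv x y) ∧ (r = lf → (c, q) ∈ t.lv x y) ∧
    (∀ d l1 l2, l = nd d l1 l2 → (p, c, d, l1, l2) ∈ t.fns x y) ∧
    (∀ d r1 r2, r = nd d r1 r2 → (c, q, d, r1, r2) ∈ t.fns x y) := by
  induction t with
  | lf => intro x y p q c l r h; simp at h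
  | nd e l0 r0 hl hr =>
    intro x y p q c l r h
    rw [fns_nd, List.mem_cons, List.mem_append] at h
    simp only [Prod.mk.injEq] at h
    rcases h with ⟨rfl, rfl, rfl, rfl, rfl⟩ | h | h
    · refine ⟨?_, ?_, ?_, ?_⟩
      · rintro rfl; simp
      · rintro rfl; simp
      · rintro d l1 l2 rfl; simp
      · rintro d r1 r2 rfl; simp
    · obtain ⟨h1, h2, h3, h4⟩ := hl _ _ _ _ _ _ _ h
      refine ⟨?_, ?_, ?_, ?_⟩
      · intro h5; simp [h1 h5]
      · intro h5; simp [h2 h5]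
      · intro d l1 l2 h5; simp [h3 d l1 l2 h5]
      · intro d r1 r2 h5; simp [h4 d r1 r2 h5]
    · obtain ⟨h1, h2, h3, h4⟩ := hr _ _ _ _ _ _ _ h
      refine ⟨?_, ?_, ?_, ?_⟩
      · intro h5; simp [h1 h5]
      · intro h5; simp [h2 h5]
      · intro d l1 l2 h5; simp [h3 d l1 l2 h5]
      · intro d r1 r2 h5; simp [h4 d r1 r2 h5]

/-- an upper dart is a leaf or the base of a node -/
theorem up_cases (t : FT) {x y p q c : Pt} (h : (p, q, c) ∈ t.ns x y) :
    ((p, c) ∈ t.lv x y ∨ ∃ d, (p, c, d) ∈ t.ns x y) ∧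
    ((c, q) ∈ t.lv x y ∨ ∃ d, (c, q, d) ∈ t.ns x y) := by
  obtain ⟨l, r, h⟩ := (ns_fns t x y p q c).1 h
  obtain ⟨h1, h2, h3, h4⟩ := fns_up t x y p q c l r h
  constructor
  · cases l with
    | lf => exact Or.inl (h1 rfl)
    | nd d l1 l2 => exact Or.inr ⟨d, (ns_fns t x y _ _ _).2 ⟨l1, l2, h3 d l1 l2 rfl⟩⟩
  · cases r with
    | lf => exact Or.inl (h2 rfl)
    | nd d l1 l2 => exact Or.inr ⟨d, (ns_fns t x y _ _ _).2 ⟨l1, l2, h4 d l1 l2 rfl⟩⟩

/-- the same as `lv_cases` with subtrees -/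
theorem lv_cases' (t : FT) : ∀ x y a b : Pt, (a, b) ∈ t.lv x y →
    (t = lf ∧ a = x ∧ b = y) ∨
    ∃ p q c l r, (p, q, c, l, r) ∈ t.fns x y ∧
      ((a = p ∧ b = c ∧ l = lf) ∨ (a = c ∧ b = q ∧ r = lf)) := by
  induction t with
  | lf =>
    intro x y a b h
    simp only [lv_lf, List.mem_cons, Prod.mk.injEq, List.not_mem_nil, or_false] at h
    exact Or.inl ⟨rfl, h.1, h.2⟩
  | nd c l r hl hr =>
    intro x y a b h
    right
    rw [lv_nd, List.mem_append] at h
    rcases h with h | h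
    · rcases hl x c a b h with ⟨h0, h1, h2⟩ | ⟨p, q, d, l', r', h1, h2⟩
      · exact ⟨x, y, c, l, r, by simp, Or.inl ⟨h1, h2, h0⟩⟩
      · exact ⟨p, q, d, l', r', by simp [h1], h2⟩
    · rcases hr c y a b h with ⟨h0, h1, h2⟩ | ⟨p, q, d, l', r', h1, h2⟩
      · exact ⟨x, y, c, l, r, by simp, Or.inr ⟨h1, h2, h0⟩⟩
      · exact ⟨p, q, d, l', r', by simp [h1], h2⟩

/-- the same as `ns_base` with subtrees -/
theorem fns_base (t : FT) : ∀ x y p q c : Pt, ∀ l r, (p, q, c, l, r) ∈ t.fns x y →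
    (p = x ∧ q = y ∧ t = nd c l r) ∨
    ∃ p' q' c' l' r', (p', q', c', l', r') ∈ t.fns x y ∧
      ((p = p' ∧ q = c' ∧ l' = nd c l r) ∨ (p = c' ∧ q = q' ∧ r' = nd c l r)) := by
  induction t with
  | lf => intro x y p q c l r h; simp at h
  | nd d l0 r0 hl hr =>
    intro x y p q c l r h
    rw [fns_nd, List.mem_cons, List.mem_append] at h
    simp only [Prod.mk.injEq] at h
    rcases h with ⟨rfl, rfl, rfl, rfl, rfl⟩ | h | h
    · exact Or.inl ⟨rfl, rfl, rfl⟩
    · right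
      rcases hl x d p q c l r h with ⟨h1, h2, h3⟩ | ⟨p', q', c', l', r', h1, h2⟩
      · exact ⟨x, y, d, l0, r0, by simp, Or.inl ⟨h1, h2, h3⟩⟩
      · exact ⟨p', q', c', l', r', by simp [h1], h2⟩
    · right
      rcases hr d y p q c l r h with ⟨h1, h2, h3⟩ | ⟨p', q', c', l', r', h1, h2⟩
      · exact ⟨x, y, d, l0, r0, by simp, Or.inr ⟨h1, h2, h3⟩⟩
      · exact ⟨p', q', c', l', r', by simp [h1], h2⟩

/-- base ends of nodes -/
theorem ns_ends (t : FT) : ∀ x y p q c : Pt, (p, q, c) ∈ t.ns x y →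
    (p = x ∨ p ∈ t.ap) ∧ (q = y ∨ q ∈ t.ap) ∧ c ∈ t.ap := by
  induction t with
  | lf => intro x y p q c h; simp at h
  | nd d l r hl hr =>
    intro x y p q c h
    rw [ns_nd, List.mem_cons, List.mem_append, mk3] at h
    rw [ap_nd, List.mem_append, List.mem_append, List.mem_append, List.mem_cons, List.mem_cons,
      List.mem_cons]
    rcases h with ⟨rfl, rfl, rfl⟩ | h | h
    · exact ⟨Or.inl rfl, Or.inl rfl, by tauto⟩
    · have := hl x d p q c h
      tauto
    · have := hr d y p q c h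
      tauto

/-- two different nodes are not above each other at their apexes -/
theorem no_mutual (t : FT) : ∀ x y : Pt, x ∉ t.ap → y ∉ t.ap → t.ap.Nodup →
    ∀ p q c p' q' c', (p, q, c) ∈ t.ns x y → (p', q', c') ∈ t.ns x y →
    (c' = p ∨ c' = q) → (c = p' ∨ c = q') → False := by
  induction t with
  | lf => intro x y _ _ _ p q c p' q' c' h; simp at h
  | nd d l r hl hr =>
    intro x y hx hy hn p q c p' q' c' h h' h1 h2
    rw [ap_nd, List.mem_append, List.mem_cons, not_or, not_or] at hx hy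
    rw [ap_nd, List.nodup_append, List.nodup_cons] at hn
    obtain ⟨hnl, ⟨hdr, hnr⟩, hdj⟩ := hn
    have hdl : d ∉ l.ap := fun hh => hdj d hh d (by simp) rfl
    rw [ns_nd, List.mem_cons, List.mem_append, mk3] at h h'
    have e1 : ∀ p q c, (p, q, c) ∈ l.ns x d → (p = x ∨ p ∈ l.ap) ∧ (q = d ∨ q ∈ l.ap) ∧ c ∈ l.ap :=
      fun p q c hh => ns_ends l x d p q c hh
    have e2 : ∀ p q c, (p, q, c) ∈ r.ns d y → (p = d ∨ p ∈ r.ap) ∧ (q = y ∨ q ∈ r.ap) ∧ c ∈ r.ap :=
      fun p q c hh => ns_ends r d y p q c hh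
    have key : ∀ a, a ∈ l.ap → a ∈ r.ap → False := fun a ha hb =>
      hdj a ha a (List.mem_cons_of_mem _ hb) rfl
    rcases h with ⟨rfl, rfl, rfl⟩ | h | h
    · rcases h' with ⟨rfl, rfl, rfl⟩ | h' | h'
      · rcases h1 with rfl | rfl
        · exact hx.2.1 rfl
        · exact hy.2.1 rfl
      · have := e1 _ _ _ h'
        rcases h1 with rfl | rfl
        · exact hx.1 this.2.2
        · exact hy.1 this.2.2
      · have := e2 _ _ _ h'
        rcases h1 with rfl | rfl
        · exact hx.2.2 this.2.2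
        · exact hy.2.2 this.2.2
    · have a1 := e1 _ _ _ h
      rcases h' with ⟨rfl, rfl, rfl⟩ | h' | h'
      · rcases h2 with rfl | rfl
        · exact hx.1 a1.2.2
        · exact hy.1 a1.2.2
      · exact hl x d hx.1 hdl hnl _ _ _ _ _ _ h h' h1 h2
      · have a2 := e2 _ _ _ h'
        rcases h1 with rfl | rfl
        · rcases a1.1 with rfl | h3
          · exact hx.2.2 a2.2.2
          · exact key _ h3 a2.2.2
        · rcases a1.2.1 with rfl | h3
          · exact hdr a2.2.2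
          · exact key _ h3 a2.2.2
    · have a1 := e2 _ _ _ h
      rcases h' with ⟨rfl, rfl, rfl⟩ | h' | h'
      · rcases h2 with rfl | rfl
        · exact hx.2.2 a1.2.2
        · exact hy.2.2 a1.2.2
      · have a2 := e1 _ _ _ h'
        rcases h1 with rfl | rfl
        · rcases a1.1 with rfl | h3
          · exact hdl a2.2.2
          · exact key _ a2.2.2 h3
        · rcases a1.2.1 with rfl | h3
          · exact hy.1 a2.2.2
          · exact key _ a2.2.2 h3
      · exact hr d y hdr hy.2.2 hnr _ _ _ _ _ _ h h' h1 h2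

end FT

end Pool.Agent.RFX

end

section

set_option autoImplicit false

/-!
# RFX/TilL : faces, leaves and digons of the tiling (MP_72a26e_co)

`faces` : the cells of `C` which are no petal, no gap and no node triangle.
`Lv g a b` : `(a, b)` is a leaf of the tree over the free dart `g`.
`face_leaf` : every side of a face is a leaf of exactly one tree.
`leaf_left` : what is on the left of a leaf.
`open_free` : the free darts which are not closed.
-/

namespace Pool.Agent.RFX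

open Pool.Agent.RFT

/-- the faces -/
noncomputable def faces (C E0 G0 : Finset (Finset Pt)) (τ : Pt × Pt → FT) :
    Finset (Finset Pt) := by
  classical exact C.filter (fun t => t ∉ E0 ∧ t ∉ G0 ∧
    ∀ g p q a, (p, q, a) ∈ (τ g).ns g.1 g.2 → t ≠ {p, q, a})

theorem mem_faces {C E0 G0 : Finset (Finset Pt)} {τ : Pt × Pt → FT} {t : Finset Pt} :
    t ∈ faces C E0 G0 τ ↔ t ∈ C ∧ t ∉ E0 ∧ t ∉ G0 ∧
      ∀ g p q a, (p, q, a) ∈ (τ g).ns g.1 g.2 → t ≠ {p, q, a} := by
  classical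
  unfold faces
  rw [Finset.mem_filter]

namespace Til

variable {P : Finset Pt} {C E0 G0 : Finset (Finset Pt)} {B0 M0 Cl0 : Finset (Pt × Pt)}
  {Gp : Finset (Pt × Pt × Pt × Pt)} {L : Finset Pt} {τ : Pt × Pt → FT}

/-- `(a, b)` is a leaf of the tree over the free dart `g` -/
def Lv (_h : Til P C E0 G0 B0 M0 Cl0 Gp L τ) (g : Pt × Pt) (a b : Pt) : Prop :=
  FreeDart P (E0 ∪ G0) M0 g ∧ (a, b) ∈ (τ g).lv g.1 g.2

theorem cell_cases (_h : Til P C E0 G0 B0 M0 Cl0 Gp L τ) {t : Finset Pt} (ht : t ∈ C) :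
    t ∈ E0 ∨ t ∈ G0 ∨ (∃ g p q a, (p, q, a) ∈ (τ g).ns g.1 g.2 ∧ t = {p, q, a}) ∨
      t ∈ faces C E0 G0 τ := by
  by_cases h1 : t ∈ E0
  · exact Or.inl h1
  · by_cases h2 : t ∈ G0
    · exact Or.inr (Or.inl h2)
    · by_cases h3 : ∃ g p q a, (p, q, a) ∈ (τ g).ns g.1 g.2 ∧ t = {p, q, a}
      · exact Or.inr (Or.inr (Or.inl h3))
      · push Not at h3
        exact Or.inr (Or.inr (Or.inr (mem_faces.2 ⟨ht, h1, h2, h3⟩)))

theorem m0symm (h : Til P C E0 G0 B0 M0 Cl0 Gp L τ) {a b : Pt} (hab : (a, b) ∈ M0) :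
    (b, a) ∈ M0 := h.nf.funIn.pl.sym a b hab

theorem m0ne (h : Til P C E0 G0 B0 M0 Cl0 Gp L τ) {a b : Pt} (hab : (a, b) ∈ M0) : a ≠ b :=
  h.nf.funIn.pl.ne a b hab

/-- sides of a node -/
theorem he (h : Til P C E0 G0 B0 M0 Cl0 Gp L τ) {g : Pt × Pt} {p q a : Pt}
    (hn : (p, q, a) ∈ (τ g).ns g.1 g.2) : HE {p, q, a} p q ∧ HE {p, q, a} q a ∧
      HE {p, q, a} a p := by
  have h1 := (h.node g p q a hn).2
  exact ⟨(tri_he h1).2 (Or.inl ⟨rfl, rfl⟩), (tri_he h1).2 (Or.inr (Or.inl ⟨rfl, rfl⟩)),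
    (tri_he h1).2 (Or.inr (Or.inr ⟨rfl, rfl⟩))⟩

theorem node_sides (h : Til P C E0 G0 B0 M0 Cl0 Gp L τ) {g : Pt × Pt} {p q a b c : Pt}
    (hn : (p, q, a) ∈ (τ g).ns g.1 g.2) (hs : HE {p, q, a} b c) :
    (b = p ∧ c = q) ∨ (b = q ∧ c = a) ∨ (b = a ∧ c = p) :=
  (tri_he (h.node g p q a hn).2).1 hs

theorem node_ne (h : Til P C E0 G0 B0 M0 Cl0 Gp L τ) {g : Pt × Pt} {p q a : Pt}
    (hn : (p, q, a) ∈ (τ g).ns g.1 g.2) : p ≠ q ∧ p ≠ a ∧ q ≠ a := by
  obtain ⟨h1, h2, h3⟩ := h.he hn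
  exact ⟨h1.2.2.1, h3.2.2.1.symm, h2.2.2.1⟩

/-- the cells with a given directed side are equal -/
theorem uniq (h : Til P C E0 G0 B0 M0 Cl0 Gp L τ) {s t : Finset Pt} (hs : s ∈ C) (ht : t ∈ C)
    {a b : Pt} (h1 : HE s a b) (h2 : HE t a b) : s = t :=
  h.nf.full.cx.side_unique hs ht h1 h2

/-- a cell and the outer face are on different sides -/
theorem not_out (h : Til P C E0 G0 B0 M0 Cl0 Gp L τ) {s : Finset Pt} (hs : s ∈ C) {a b : Pt}
    (h1 : HE s a b) : ¬ HE P b a := by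
  intro h2
  obtain ⟨c, hc, hca, hcb⟩ := HE.exists_third (t := s) a b (h.nf.full.cx.three s hs)
  have h3 := h1.2.2.2 c hc hca hcb
  have h4 := h2.2.2.2 c (h.nf.full.sub hs hc) hcb hca
  rw [orient_swap] at h4
  linarith

/-- the left side of an edge of the normal form -/
theorem m0left (h : Til P C E0 G0 B0 M0 Cl0 Gp L τ) {a b : Pt} (hab : (a, b) ∈ M0) :
    (∃ t ∈ C, HE t a b) ∨ HE P b a := by
  obtain ⟨t, ht, h1 | h1⟩ := h.nf.side a b hab
  · exact Or.inl ⟨t, ht, h1⟩
  · rcases h.nf.full.side t ht b a h1 with h2 | ⟨s, hs, h2⟩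
    · exact Or.inr h2
    · exact Or.inl ⟨s, hs, h2⟩

/-- an edge of the normal form is free if the cell on its left is no cell of the normal form -/
theorem freeDart_of (h : Til P C E0 G0 B0 M0 Cl0 Gp L τ) {a b : Pt} (hab : (a, b) ∈ M0)
    {t : Finset Pt} (ht : t ∈ C) (hs : HE t a b) (hE : t ∉ E0) (hG : t ∉ G0) :
    FreeDart P (E0 ∪ G0) M0 (a, b) := by
  refine ⟨hab, ?_, h.not_out ht hs⟩
  intro s hs1 hs2
  have h1 : s ∈ C := by
    rw [Finset.mem_union] at hs1
    rcases hs1 with h1 | h1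
    · exact (h.nf.reach.inv h.nf.full).sub h1
    · exact h.nf.subG h1
  have h2 : s = t := h.uniq h1 ht hs2 hs
  rw [Finset.mem_union] at hs1
  rcases hs1 with h3 | h3
  · exact hE (h2 ▸ h3)
  · exact hG (h2 ▸ h3)

/-- the left cell of a free dart -/
theorem free_left (h : Til P C E0 G0 B0 M0 Cl0 Gp L τ) {g : Pt × Pt}
    (hg : FreeDart P (E0 ∪ G0) M0 g) : ∃ t ∈ C, HE t g.1 g.2 ∧ t ∉ E0 ∧ t ∉ G0 := by
  obtain ⟨h1, h2, h3⟩ := hg
  rcases h.m0left (a := g.1) (b := g.2) h1 with ⟨t, ht, h4⟩ | h4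
  · refine ⟨t, ht, h4, ?_, ?_⟩
    · intro h5; exact h2 t (Finset.mem_union_left _ h5) h4
    · intro h5; exact h2 t (Finset.mem_union_right _ h5) h4
  · exact absurd h4 h3

/-- the black side of a closed free dart -/
theorem closed_right (h : Til P C E0 G0 B0 M0 Cl0 Gp L τ) {g : Pt × Pt}
    (hg : FreeDart P (E0 ∪ G0) M0 g) (hcl : g ∈ Cl0) :
    HE P g.1 g.2 ∨ ∃ t ∈ E0, HE t g.2 g.1 := by
  rcases (h.nf.cl0 g.1 g.2).1 hcl with h1 | h1 | ⟨t, ht, h1 | h1⟩
  · exact Or.inl h1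
  · exact absurd h1 hg.2.2
  · exact absurd h1 (hg.2.1 t (Finset.mem_union_left _ ht))
  · exact Or.inr ⟨t, ht, h1⟩

/-- sides of the two triangles of a gap -/
theorem gap_sides {g1 g2 g3 g4 : Pt} {t t' : Finset Pt} (hg : GapTri g1 g2 g3 g4 t t')
    {a b : Pt} (hs : HE t b a ∨ HE t' b a) :
    (b = g1 ∧ a = g2) ∨ (b = g3 ∧ a = g1) ∨ (b = g2 ∧ a = g4) ∨ (b = g4 ∧ a = g3) ∨
      (HE t b a ∧ HE t' a b) ∨ (HE t' b a ∧ HE t a b) := by
  rcases hg with ⟨h1, h2, rfl, rfl⟩ | ⟨h1, h2, rfl, rfl⟩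
  · rcases hs with hs | hs
    · rcases (tri_he h1).1 hs with ⟨rfl, rfl⟩ | ⟨rfl, rfl⟩ | ⟨rfl, rfl⟩
      · exact Or.inl ⟨rfl, rfl⟩
      · refine Or.inr (Or.inr (Or.inr (Or.inr (Or.inl ⟨hs, ?_⟩))))
        exact (tri_he h2).2 (Or.inl ⟨rfl, rfl⟩)
      · exact Or.inr (Or.inl ⟨rfl, rfl⟩)
    · rcases (tri_he h2).1 hs with ⟨rfl, rfl⟩ | ⟨rfl, rfl⟩ | ⟨rfl, rfl⟩
      · refine Or.inr (Or.inr (Or.inr (Or.inr (Or.inr ⟨hs, ?_⟩))))
        exact (tri_he h1).2 (Or.inr (Or.inl ⟨rfl, rfl⟩))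
      · exact Or.inr (Or.inr (Or.inl ⟨rfl, rfl⟩))
      · exact Or.inr (Or.inr (Or.inr (Or.inl ⟨rfl, rfl⟩)))
  · rcases hs with hs | hs
    · rcases (tri_he h1).1 hs with ⟨rfl, rfl⟩ | ⟨rfl, rfl⟩ | ⟨rfl, rfl⟩
      · exact Or.inl ⟨rfl, rfl⟩
      · exact Or.inr (Or.inr (Or.inl ⟨rfl, rfl⟩))
      · refine Or.inr (Or.inr (Or.inr (Or.inr (Or.inl ⟨hs, ?_⟩))))
        exact (tri_he h2).2 (Or.inl ⟨rfl, rfl⟩)
    · rcases (tri_he h2).1 hs with ⟨rfl, rfl⟩ | ⟨rfl, rfl⟩ | ⟨rfl, rfl⟩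
      · refine Or.inr (Or.inr (Or.inr (Or.inr (Or.inr ⟨hs, ?_⟩))))
        exact (tri_he h1).2 (Or.inr (Or.inr ⟨rfl, rfl⟩))
      · exact Or.inr (Or.inr (Or.inr (Or.inl ⟨rfl, rfl⟩)))
      · exact Or.inr (Or.inl ⟨rfl, rfl⟩)

/-- the free darts which are not closed: end-edges and body edges of gaps -/
theorem open_free (h : Til P C E0 G0 B0 M0 Cl0 Gp L τ) {a b : Pt}
    (hg : FreeDart P (E0 ∪ G0) M0 (a, b)) (hcl : (a, b) ∉ Cl0) :
    (a, b) ∈ B0 ∨ (b, a) ∈ B0 ∨ ∃ g1 g2 g3 g4, (g1, g2, g3, g4) ∈ Gp ∧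
      ((a = g1 ∧ b = g3) ∨ (a = g4 ∧ b = g2)) := by
  rcases (h.nf.m0 a b).1 hg.1 with h1 | ⟨t, ht, h1 | h1⟩ | h1 | h1
  · exact absurd h1 hcl
  · exact absurd h1 (hg.2.1 t (Finset.mem_union_right _ ht))
  · right; right
    obtain ⟨g1, g2, g3, g4, t', h2, h3⟩ := h.nf.gAll t ht
    have hcl' : ∀ a b, (a, b) ∈ Cl0 → (b, a) ∈ Cl0 := (h.nf.reach.inv h.nf.full).symm
    obtain ⟨⟨s1, hs1, hs1'⟩, s2, hs2, hs2'⟩ := h.nf.gCl g1 g2 g3 g4 h2
    have c1 : (g2, g1) ∈ Cl0 := (h.nf.cl0 g2 g1).2 (Or.inr (Or.inr ⟨s1, hs1, Or.inl hs1'⟩))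
    have c2 : (g3, g4) ∈ Cl0 := (h.nf.cl0 g3 g4).2 (Or.inr (Or.inr ⟨s2, hs2, Or.inl hs2'⟩))
    obtain ⟨u, hu, u', hu', h5⟩ := h.nf.gTri g1 g2 g3 g4 h2
    -- the partner is a gap triangle as well
    have h4 : ∃ s s', GapTri g1 g2 g3 g4 s s' ∧ (HE s b a ∨ HE s' b a) ∧ (s = t ∨ s' = t) := by
      rcases h3 with h3 | h3
      · exact ⟨t, t', h3, Or.inl h1, Or.inl rfl⟩
      · exact ⟨t', t, h3, Or.inr h1, Or.inr rfl⟩
    obtain ⟨s, s', h6, h7, h8⟩ := h4
    have hin : s ∈ G0 ∧ s' ∈ G0 := by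
      have htC : t ∈ C := h.nf.subG ht
      have huC : u ∈ C := h.nf.subG hu
      have huC' : u' ∈ C := h.nf.subG hu'
      obtain ⟨-, n13, n14, n23, n24, n34⟩ := h.nf.gNe g1 g2 g3 g4 h2
      rcases h5 with ⟨a1, a2, rfl, rfl⟩ | ⟨a1, a2, rfl, rfl⟩
      · rcases h6 with ⟨b1, b2, rfl, rfl⟩ | ⟨b1, b2, rfl, rfl⟩
        · exact ⟨hu, hu'⟩
        · exfalso
          rcases h8 with rfl | rfl
          · have e := h.uniq htC huC ((tri_he b1).2 (Or.inl ⟨rfl, rfl⟩))
              ((tri_he a1).2 (Or.inl ⟨rfl, rfl⟩))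
            have : g4 ∈ ({g1, g2, g3} : Finset Pt) := by rw [← e]; simp
            simp only [Finset.mem_insert, Finset.mem_singleton] at this
            rcases this with h | h | h
            · exact n14 h.symm
            · exact n24 h.symm
            · exact n34 h.symm
          · have e := h.uniq htC huC ((tri_he b2).2 (Or.inr (Or.inr ⟨rfl, rfl⟩)))
              ((tri_he a1).2 (Or.inr (Or.inr ⟨rfl, rfl⟩)))
            have : g4 ∈ ({g1, g2, g3} : Finset Pt) := by rw [← e]; simp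
            simp only [Finset.mem_insert, Finset.mem_singleton] at this
            rcases this with h | h | h
            · exact n14 h.symm
            · exact n24 h.symm
            · exact n34 h.symm
      · rcases h6 with ⟨b1, b2, rfl, rfl⟩ | ⟨b1, b2, rfl, rfl⟩
        · exfalso
          rcases h8 with rfl | rfl
          · have e := h.uniq htC huC ((tri_he b1).2 (Or.inl ⟨rfl, rfl⟩))
              ((tri_he a1).2 (Or.inl ⟨rfl, rfl⟩))
            have : g3 ∈ ({g1, g2, g4} : Finset Pt) := by rw [← e]; simp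
            simp only [Finset.mem_insert, Finset.mem_singleton] at this
            rcases this with h | h | h
            · exact n13 h.symm
            · exact n23 h.symm
            · exact n34 h
          · have e := h.uniq htC huC ((tri_he b2).2 (Or.inr (Or.inl ⟨rfl, rfl⟩)))
              ((tri_he a1).2 (Or.inr (Or.inl ⟨rfl, rfl⟩)))
            have : g3 ∈ ({g1, g2, g4} : Finset Pt) := by rw [← e]; simp
            simp only [Finset.mem_insert, Finset.mem_singleton] at this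
            rcases this with h | h | h
            · exact n13 h.symm
            · exact n23 h.symm
            · exact n34 h
        · exact ⟨hu, hu'⟩
    refine ⟨g1, g2, g3, g4, h2, ?_⟩
    rcases gap_sides h6 h7 with ⟨rfl, rfl⟩ | ⟨rfl, rfl⟩ | ⟨rfl, rfl⟩ | ⟨rfl, rfl⟩ | ⟨-, h9⟩ | ⟨-, h9⟩
    · exact absurd c1 hcl
    · exact Or.inl ⟨rfl, rfl⟩
    · exact Or.inr ⟨rfl, rfl⟩
    · exact absurd c2 hcl
    · exact absurd h9 (hg.2.1 s' (Finset.mem_union_right _ hin.2))
    · exact absurd h9 (hg.2.1 s (Finset.mem_union_right _ hin.1))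
  · exact Or.inl h1
  · exact Or.inr (Or.inl h1)

/-- the root node of a nonempty tree stands on its dart -/
theorem root (_h : Til P C E0 G0 B0 M0 Cl0 Gp L τ) {g : Pt × Pt} (hg : τ g ≠ FT.lf) :
    ∃ a, (g.1, g.2, a) ∈ (τ g).ns g.1 g.2 := by
  cases hh : τ g with
  | lf => exact absurd hh hg
  | nd a l r => exact ⟨a, by simp⟩

/-- a tree over a dart with a face on its left is empty -/
theorem lf_of_face (h : Til P C E0 G0 B0 M0 Cl0 Gp L τ) {g : Pt × Pt} {f : Finset Pt}
    (hf : f ∈ faces C E0 G0 τ) (hs : HE f g.1 g.2) : τ g = FT.lf := by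
  by_contra hne
  obtain ⟨a, ha⟩ := h.root hne
  have h1 := h.node g g.1 g.2 a ha
  have h2 : f = {g.1, g.2, a} := h.uniq (mem_faces.1 hf).1 h1.1 hs (h.he ha).1
  exact (mem_faces.1 hf).2.2.2 g g.1 g.2 a ha h2

/-- a node stands on a dart which is not on the left of a face -/
theorem not_base_face (h : Til P C E0 G0 B0 M0 Cl0 Gp L τ) {f : Finset Pt}
    (hf : f ∈ faces C E0 G0 τ) {a b : Pt} (hs : HE f a b) {g : Pt × Pt} {c : Pt} :
    (a, b, c) ∉ (τ g).ns g.1 g.2 := by
  intro hn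
  have h1 := h.node g a b c hn
  have h2 : f = {a, b, c} := h.uniq (mem_faces.1 hf).1 h1.1 hs (h.he hn).1
  exact (mem_faces.1 hf).2.2.2 g a b c hn h2

/-- every side of a face is a leaf; if it is an edge of the normal form then the tree is empty -/
theorem face_leaf (h : Til P C E0 G0 B0 M0 Cl0 Gp L τ) {f : Finset Pt}
    (hf : f ∈ faces C E0 G0 τ) {a b : Pt} (hs : HE f a b) :
    ∃ g, h.Lv g a b ∧ ((a, b) ∈ M0 → g = (a, b) ∧ τ g = FT.lf) := by
  have hfC := mem_faces.1 hf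
  by_cases hm : (a, b) ∈ M0
  · have h1 := h.freeDart_of hm hfC.1 hs hfC.2.1 hfC.2.2.1
    have h2 : τ (a, b) = FT.lf := h.lf_of_face (g := (a, b)) hf hs
    refine ⟨(a, b), ⟨h1, ?_⟩, fun _ => ⟨rfl, h2⟩⟩
    rw [h2]; simp
  · rcases h.side f hfC.1 a b hs with h1 | ⟨g, h1⟩
    · exact absurd h1 hm
    · rw [FT.mem_sides_iff] at h1
      obtain ⟨⟨p, q, c⟩, hn, h2⟩ := h1
      simp only [Prod.mk.injEq] at h2
      have hne := h.node_ne hn
      -- the node is not `f`, so `(b, a)` is one of its sides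
      have h3 : HE {p, q, c} b a := by
        have e := h.he hn
        have key : ¬ HE {p, q, c} a b := by
          intro h4
          exact hfC.2.2.2 g p q c hn (h.uniq hfC.1 (h.node g p q c hn).1 hs h4)
        rcases h2 with ⟨rfl, rfl⟩ | ⟨rfl, rfl⟩ | ⟨rfl, rfl⟩ | ⟨rfl, rfl⟩ | ⟨rfl, rfl⟩ | ⟨rfl, rfl⟩
        · exact absurd e.1 key
        · exact e.1
        · exact e.2.2
        · exact absurd e.2.2 key
        · exact e.2.1
        · exact absurd e.2.1 key
      have hfree := h.free g (by rintro h0; rw [h0] at hn; simp at hn)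
      rcases h.node_sides hn h3 with ⟨rfl, rfl⟩ | ⟨rfl, rfl⟩ | ⟨rfl, rfl⟩
      · -- base
        exfalso
        rcases FT.ns_base _ _ _ _ _ _ hn with ⟨h4, h5, -⟩ | ⟨p', q', c', h4, h5⟩
        · apply hm
          apply h.m0symm
          have := hfree.1
          rw [h4, h5]
          exact this
        · have e := h.he h4
          have h6 : HE {p', q', c'} a b := by
            rcases h5 with ⟨rfl, rfl⟩ | ⟨rfl, rfl⟩
            · exact e.2.2
            · exact e.2.1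
          exact hfC.2.2.2 g p' q' c' h4 (h.uniq hfC.1 (h.node g p' q' c' h4).1 hs h6)
      · -- `(c, q)` : `a = c`, `b = q`
        rcases (FT.up_cases _ hn).2 with h4 | ⟨d, h4⟩
        · exact ⟨g, ⟨hfree, h4⟩, fun h5 => absurd h5 hm⟩
        · exact absurd h4 (h.not_base_face hf hs)
      · rcases (FT.up_cases _ hn).1 with h4 | ⟨d, h4⟩
        · exact ⟨g, ⟨hfree, h4⟩, fun h5 => absurd h5 hm⟩
        · exact absurd h4 (h.not_base_face hf hs)

/-- the node below a leaf which is not the base of its tree -/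
theorem leaf_right (h : Til P C E0 G0 B0 M0 Cl0 Gp L τ) {g : Pt × Pt} {a b : Pt}
    (hl : h.Lv g a b) : (τ g = FT.lf ∧ g = (a, b)) ∨
      ∃ p q c, (p, q, c) ∈ (τ g).ns g.1 g.2 ∧ ((a = p ∧ b = c) ∨ (a = c ∧ b = q)) ∧
        HE {p, q, c} b a := by
  rcases FT.lv_cases _ _ _ _ _ hl.2 with ⟨h1, h2, h3⟩ | ⟨p, q, c, h1, h2⟩
  · exact Or.inl ⟨h1, by rw [h2, h3]⟩
  · refine Or.inr ⟨p, q, c, h1, h2, ?_⟩
    have e := h.he h1
    rcases h2 with ⟨rfl, rfl⟩ | ⟨rfl, rfl⟩
    · exact e.2.2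
    · exact e.2.1

/-- no node of the tree over `g` is on the other side of `g` -/
theorem own (h : Til P C E0 G0 B0 M0 Cl0 Gp L τ) {g : Pt × Pt} {p q c : Pt}
    (hn : (p, q, c) ∈ (τ g).ns g.1 g.2) : ¬ HE {p, q, c} g.2 g.1 := by
  intro hs
  have hfree := h.free g (by rintro h0; rw [h0] at hn; simp at hn)
  have hC := (h.node g p q c hn).1
  have hnew := h.new g p q c hn
  rw [Finset.mem_union, not_or] at hnew
  have hca : c ∈ (τ g).ap := (FT.ap_iff_ns _ _ _ _).2 ⟨p, q, hn⟩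
  by_cases hcl : g ∈ Cl0
  · rcases h.closed_right hfree hcl with h1 | ⟨t, ht, h1⟩
    · exact h.not_out hC hs h1
    · have htC : t ∈ C := (h.nf.reach.inv h.nf.full).sub ht
      exact hnew.1 (h.uniq hC htC hs h1 ▸ ht)
  · -- `c` is an end of `g` unless `(g.2, g.1)` is the base
    rcases h.open_free (a := g.1) (b := g.2) hfree hcl with h1 | h1 | ⟨g1, g2, g3, g4, h1, h2⟩
    · -- `g = (N, w)`
      obtain ⟨g', hg', hg1, hg2⟩ := h.tipA _ _ h1
      have hwn : g.2 ∉ (τ g).ap := by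
        intro hh
        exact hg1 (h.dj g' g _ hg' hh)
      have hNn : g.1 ∉ (τ g).ap := fun hh => h.apR g _ hh (h.nf.bHull _ _ h1).2.2
      rcases h.node_sides hn hs with ⟨h3, h4⟩ | ⟨h3, h4⟩ | ⟨h3, h4⟩
      · have hM : (p, q) ∈ M0 := by rw [← h3, ← h4]; exact h.m0symm hfree.1
        have := h.base g p q c hn hM
        have e1 : p = g.1 := by rw [← this]
        exact h.m0ne (a := g.1) (b := g.2) hfree.1 (by rw [← e1, h3])
      · exact hNn (h4 ▸ hca)
      · exact hwn (h3 ▸ hca)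
    · obtain ⟨g', hg', hg1, hg2⟩ := h.tipA _ _ h1
      have hwn : g.1 ∉ (τ g).ap := by
        intro hh
        exact hg2 (h.dj g' g _ hg' hh)
      have hNn : g.2 ∉ (τ g).ap := fun hh => h.apR g _ hh (h.nf.bHull _ _ h1).2.2
      rcases h.node_sides hn hs with ⟨h3, h4⟩ | ⟨h3, h4⟩ | ⟨h3, h4⟩
      · have hM : (p, q) ∈ M0 := by rw [← h3, ← h4]; exact h.m0symm hfree.1
        have := h.base g p q c hn hM
        have e1 : p = g.1 := by rw [← this]
        exact h.m0ne (a := g.1) (b := g.2) hfree.1 (by rw [← e1, h3])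
      · exact hwn (h4 ▸ hca)
      · exact hNn (h3 ▸ hca)
    · have hr := h.nf.gRes g1 g2 g3 g4 h1
      have hr1 : Res M0 g.1 := by
        rcases h2 with ⟨h3, -⟩ | ⟨h3, -⟩
        · rw [h3]; exact (hr g1 (Or.inl rfl)).1
        · rw [h3]; exact (hr g4 (Or.inr (Or.inr (Or.inr rfl)))).1
      have hr2 : Res M0 g.2 := by
        rcases h2 with ⟨-, h3⟩ | ⟨-, h3⟩
        · rw [h3]; exact (hr g3 (Or.inr (Or.inr (Or.inl rfl)))).1
        · rw [h3]; exact (hr g2 (Or.inr (Or.inl rfl))).1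
      have n1 : g.1 ∉ (τ g).ap := fun hh => h.apR g _ hh hr1
      have n2 : g.2 ∉ (τ g).ap := fun hh => h.apR g _ hh hr2
      rcases h.node_sides hn hs with ⟨h3, h4⟩ | ⟨h3, h4⟩ | ⟨h3, h4⟩
      · have hM : (p, q) ∈ M0 := by rw [← h3, ← h4]; exact h.m0symm hfree.1
        have := h.base g p q c hn hM
        have e1 : p = g.1 := by rw [← this]
        exact h.m0ne (a := g.1) (b := g.2) hfree.1 (by rw [← e1, h3])
      · exact n1 (h4 ▸ hca)
      · exact n2 (h3 ▸ hca)

/-- a leaf is no base of a node, unless the tree is empty or the leaf lies on an edge of the normal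
form -/
theorem leaf_not_base (h : Til P C E0 G0 B0 M0 Cl0 Gp L τ) {g g' : Pt × Pt} {a b c : Pt}
    (hl : h.Lv g a b) (hn : (a, b, c) ∈ (τ g').ns g'.1 g'.2) :
    (a, b) ∈ M0 ∧ g' = (a, b) ∧ g ≠ g' := by
  have hfree' := h.free g' (by rintro h0; rw [h0] at hn; simp at hn)
  rcases FT.lv_cases' _ _ _ _ _ hl.2 with ⟨h1, h2, h3⟩ | ⟨p, q, d, l, r, h1, h2⟩
  · exfalso
    have hgM : (a, b) ∈ M0 := by have := hl.1.1; rw [h2, h3]; exact this
    have := h.base g' a b c hn hgM
    have hgg : g = g' := by rw [← this, h2, h3]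
    rw [← hgg, h1] at hn
    simp at hn
  · have hnode := (FT.ns_fns _ _ _ _ _ _).2 ⟨l, r, h1⟩
    have e := h.he hnode
    have hba : HE {p, q, d} b a := by
      rcases h2 with ⟨rfl, rfl, -⟩ | ⟨rfl, rfl, -⟩
      · exact e.2.2
      · exact e.2.1
    by_cases hm : (a, b) ∈ M0
    · have hg' := h.base g' a b c hn hm
      refine ⟨hm, hg'.symm, ?_⟩
      intro hgg
      -- the tree over `(a, b)` would have the leaf `(a, b)` above the node `(p, q, d)`
      rw [← hg'] at hgg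
      subst hgg
      exact h.own hnode hba
    · exfalso
      obtain ⟨l', r', h3⟩ := (FT.ns_fns _ _ _ _ _ _).1 hn
      rcases FT.fns_base _ _ _ _ _ _ _ _ h3 with ⟨h4, h5, -⟩ | ⟨p', q', c', l1, r1, h4, h5⟩
      · apply hm
        have := hfree'.1
        rw [h4, h5]
        exact this
      · have hnode' := (FT.ns_fns _ _ _ _ _ _).2 ⟨l1, r1, h4⟩
        have e' := h.he hnode'
        have hba' : HE {p', q', c'} b a := by
          rcases h5 with ⟨rfl, rfl, -⟩ | ⟨rfl, rfl, -⟩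
          · exact e'.2.2
          · exact e'.2.1
        have hcell := h.uniq (h.node g p q d hnode).1 (h.node g' p' q' c' hnode').1 hba hba'
        obtain ⟨rfl, rfl, rfl, rfl⟩ := h.inj _ _ _ _ _ _ _ _ hnode hnode' hcell
        obtain ⟨-, -, rfl, rfl⟩ := FT.fns_unique (h.nodup g) h1 h4
        have hne := h.node_ne hnode
        rcases h2 with ⟨rfl, rfl, rfl⟩ | ⟨rfl, rfl, rfl⟩
        · rcases h5 with ⟨-, -, h6⟩ | ⟨h6, -, -⟩
          · exact FT.noConfusion h6
          · exact hne.2.1 h6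
        · rcases h5 with ⟨h6, -, -⟩ | ⟨-, -, h6⟩
          · exact hne.2.1 h6.symm
          · exact FT.noConfusion h6

/-- a leaf of the tree over `(a, b)` which is `(a, b)` itself : the tree is empty -/
theorem leaf_self (h : Til P C E0 G0 B0 M0 Cl0 Gp L τ) {g : Pt × Pt} (hl : h.Lv g g.1 g.2) :
    τ g = FT.lf := by
  rcases h.leaf_right hl with ⟨h1, -⟩ | ⟨p, q, c, h1, -, h2⟩
  · exact h1
  · exact absurd h2 (h.own h1)

/-- WHAT IS ON THE LEFT OF A LEAF: a face, or a digon with another leaf on its other side -/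
theorem leaf_left (h : Til P C E0 G0 B0 M0 Cl0 Gp L τ) {g : Pt × Pt} {a b : Pt}
    (hl : h.Lv g a b) :
    (∃ f ∈ faces C E0 G0 τ, HE f a b ∧ ((a, b) ∈ M0 → g = (a, b) ∧ τ g = FT.lf)) ∨
    (((a, b) ∈ M0 → g ≠ (a, b) ∨ τ g = FT.lf) ∧ (∀ f ∈ faces C E0 G0 τ, HE f a b →
      (a, b) ∈ M0 ∧ g ≠ (a, b)) ∧
      ∃ g', h.Lv g' b a ∧ (∀ f ∈ faces C E0 G0 τ, HE f b a → (a, b) ∈ M0 ∧ g' ≠ (b, a)) ∧
        ((a, b) ∈ M0 → (g ≠ (a, b) ∧ g' = (b, a) ∧ τ g' = FT.lf) ∨
          (g = (a, b) ∧ τ g = FT.lf ∧ g' ≠ (b, a)))) := by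
  by_cases hm : (a, b) ∈ M0
  · by_cases hg : g = (a, b)
    · subst hg
      have hlf : τ (a, b) = FT.lf := h.leaf_self (g := (a, b)) hl
      obtain ⟨t, ht, hs, hE, hG⟩ := h.free_left hl.1
      have hs : HE t a b := hs
      rcases h.cell_cases ht with h1 | h1 | ⟨g', p, q, c, hn, rfl⟩ | h1
      · exact absurd h1 hE
      · exact absurd h1 hG
      · right
        have hnb : ∀ f ∈ faces C E0 G0 τ, ¬ HE f a b := by
          intro f hf hs'
          exact (mem_faces.1 hf).2.2.2 g' p q c hn (h.uniq (mem_faces.1 hf).1 ht hs' hs)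
        refine ⟨fun _ => Or.inr hlf, fun f hf hs' => absurd hs' (hnb f hf), ?_⟩
        have hg'f := h.free g' (by rintro h0; rw [h0] at hn; simp at hn)
        have hgne : g' ≠ (b, a) := by
          rintro rfl
          exact h.own hn hs
        have hleaf : (b, a) ∈ (τ g').lv g'.1 g'.2 := by
          rcases h.node_sides hn hs with ⟨h2, h3⟩ | ⟨h2, h3⟩ | ⟨h2, h3⟩
          · exfalso
            have h4 : (p, q) = g' := h.base g' p q c hn (by rw [← h2, ← h3]; exact hm)
            have h5 : g' = (a, b) := by rw [← h4, h2, h3]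
            rw [h5, hlf] at hn
            simp at hn
          · rcases (FT.up_cases _ hn).2 with h4 | ⟨d, h4⟩
            · rw [h2, h3]; exact h4
            · exfalso
              have h5 := h.base g' c q d h4 (by rw [← h2, ← h3]; exact h.m0symm hm)
              apply hgne
              rw [← h5, h2, h3]
          · rcases (FT.up_cases _ hn).1 with h4 | ⟨d, h4⟩
            · rw [h2, h3]; exact h4
            · exfalso
              have h5 := h.base g' p c d h4 (by rw [← h2, ← h3]; exact h.m0symm hm)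
              apply hgne
              rw [← h5, h2, h3]
        exact ⟨g', ⟨hg'f, hleaf⟩, fun f hf hs' => ⟨hm, hgne⟩,
          fun _ => Or.inr ⟨rfl, hlf, hgne⟩⟩
      · exact Or.inl ⟨t, h1, hs, fun _ => ⟨rfl, hlf⟩⟩
    · rcases h.leaf_right hl with ⟨-, h1⟩ | ⟨p, q, c, hn, hup, hs⟩
      · exact absurd h1 hg
      · have hnew := h.new g p q c hn
        rw [Finset.mem_union, not_or] at hnew
        have hnC := (h.node g p q c hn).1
        have hfree := h.freeDart_of (h.m0symm hm) hnC hs hnew.1 hnew.2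
        have hlf : τ (b, a) = FT.lf := by
          by_contra hne
          obtain ⟨d, hd⟩ := h.root hne
          have hcell := h.uniq (h.node _ _ _ _ hd).1 hnC (h.he hd).1 hs
          obtain ⟨h1, h2, h3, h4⟩ := h.inj _ _ _ _ _ _ _ _ hd hn hcell
          have hne' := h.node_ne hn
          simp only at h2 h3
          rcases hup with ⟨h5, h6⟩ | ⟨h5, h6⟩
          · exact h.m0ne hm (h5.trans h2.symm)
          · exact h.m0ne hm (h3.trans h6.symm)
        right
        refine ⟨fun _ => Or.inl hg, fun _ _ _ => ⟨hm, hg⟩, (b, a), ⟨hfree, ?_⟩, ?_, ?_⟩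
        · rw [hlf]; simp
        · intro f hf hs'
          exfalso
          exact (mem_faces.1 hf).2.2.2 g p q c hn (h.uniq (mem_faces.1 hf).1 hnC hs' hs)
        · intro _
          exact Or.inl ⟨hg, rfl, hlf⟩
  · rcases h.leaf_right hl with ⟨-, h1⟩ | ⟨p, q, c, hn, hup, hs⟩
    · exfalso
      apply hm
      have := hl.1.1
      rw [h1] at this
      exact this
    · have hnC := (h.node g p q c hn).1
      have hne := h.node_ne hn
      rcases h.nf.full.side _ hnC b a hs with h1 | ⟨s, hsC, hs2⟩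
      · exfalso
        exact hm (h.m0symm (h.nf.funIn.hull b a h1))
      · have hcl : (a, b) ∉ Cl0 := fun h2 => hm ((h.nf.m0 a b).2 (Or.inl h2))
        rcases h.cell_cases hsC with h1 | h1 | ⟨g', p', q', c', hn', rfl⟩ | h1
        · exact absurd ((h.nf.cl0 a b).2 (Or.inr (Or.inr ⟨s, h1, Or.inl hs2⟩))) hcl
        · exact absurd ((h.nf.m0 a b).2 (Or.inr (Or.inl ⟨s, h1, Or.inl hs2⟩))) hm
        · right
          refine ⟨fun h2 => absurd h2 hm, ?_, g', ⟨h.free g' (by
            rintro h0; rw [h0] at hn'; simp at hn'), ?_⟩, ?_, fun h2 => absurd h2 hm⟩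
          · intro f hf hs'
            exact absurd (h.uniq (mem_faces.1 hf).1 hsC hs' hs2)
              ((mem_faces.1 hf).2.2.2 g' p' q' c' hn')
          · have hbase : ∀ g'' d, (b, a, d) ∉ (τ g'').ns g''.1 g''.2 := by
              intro g'' d hd
              have hcell := h.uniq (h.node _ _ _ _ hd).1 hnC (h.he hd).1 hs
              obtain ⟨h1, h2, h3, h4⟩ := h.inj _ _ _ _ _ _ _ _ hd hn hcell
              rcases hup with ⟨h5, h6⟩ | ⟨h5, h6⟩
              · exact hs2.2.2.1 (h5.trans h2.symm)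
              · exact hs2.2.2.1 (h3.trans h6.symm)
            rcases h.node_sides hn' hs2 with ⟨h2, h3⟩ | ⟨h2, h3⟩ | ⟨h2, h3⟩
            · exfalso
              rw [← h2, ← h3] at hn'
              exact hm (h.leaf_not_base hl hn').1
            · rcases (FT.up_cases _ hn').2 with h4 | ⟨d, h4⟩
              · rw [h2, h3]; exact h4
              · exfalso
                rw [← h2, ← h3] at h4
                exact hbase _ _ h4
            · rcases (FT.up_cases _ hn').1 with h4 | ⟨d, h4⟩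
              · rw [h2, h3]; exact h4
              · exfalso
                rw [← h2, ← h3] at h4
                exact hbase _ _ h4
          · intro f hf hs'
            exact absurd (h.uniq (mem_faces.1 hf).1 hnC hs' hs)
              ((mem_faces.1 hf).2.2.2 g p q c hn)
        · left
          exact ⟨s, h1, hs2, fun h2 => absurd h2 hm⟩

/-- a dart is a leaf of at most one tree, if leaves on the normal form are taken from empty trees -/
theorem leaf_unique (h : Til P C E0 G0 B0 M0 Cl0 Gp L τ) {g g' : Pt × Pt} {a b : Pt}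
    (hl : h.Lv g a b) (hl' : h.Lv g' a b) (h1 : (a, b) ∈ M0 → g = (a, b))
    (h2 : (a, b) ∈ M0 → g' = (a, b)) : g = g' := by
  by_cases hm : (a, b) ∈ M0
  · rw [h1 hm, h2 hm]
  · rcases h.leaf_right hl with ⟨-, h3⟩ | ⟨p, q, c, hn, hup, hs⟩
    · exfalso
      apply hm
      have := hl.1.1
      rw [h3] at this
      exact this
    · rcases h.leaf_right hl' with ⟨-, h3⟩ | ⟨p', q', c', hn', hup', hs'⟩
      · exfalso
        apply hm
        have := hl'.1.1
        rw [h3] at this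
        exact this
      · exact (h.inj _ _ _ _ _ _ _ _ hn hn' (h.uniq (h.node _ _ _ _ hn).1
          (h.node _ _ _ _ hn').1 hs hs')).1

end Til

end Pool.Agent.RFX

end
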