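import Mathlib
import Pool.Agent.RFM.P03
import Pool.Agent.RFM.P06
import Pool.Agent.RFM.P07

set_option autoImplicit false

/-!
# RFM/P09 (MP_72a26e_co): the files RFX/NFBC, RFX/NFIt, RFX/NFStar, RFX/NFInr, RFX/HullEq, merged to save build time
-/

section

set_option autoImplicit false

/-!
# RFX/NFBC : full complexes with bodies, steps of strips (MP_72a26e_co)

PROOFS. `tri_he`: `orient` of the rotated triples. `Nx.spec`: the two cases of `Nx` with `tri_he`; `z ≠ e.1`, `z ≠ e.2` since `orient > 0`.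
`same_body`: if `a ≠ b` in `P` have the same label then by `single` `a` is in a body and by `body` so is `b`.
`Nx.bodyA`: `e.1 ≠ z` have the same label, so they are in a body `A`; the triangle `t = {e.1, z, e.2}` is not `A`, as `e.2 ∉ A`
(`body`, labels); `Cx.side_or` for `t`, `A` and the pair `e.1, z`: either `HE t e.1 z ∧ HE A z e.1`, or
`HE t z e.1 ∧ HE A e.1 z`, which is impossible (`HE.not_both`, `tri_he`). `Nx.bodyB` in the same way.
`Nx.right_unique`: both triangles have the side `HE _ e.2 e.1`, so they are equal (`Cx.side_unique`), so `z = z'`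
(`{x, z, y} = {x, z', y}`, `z ≠ x, y`, `z' ≠ x, y`), and the labels decide the case. `Nx_iff_left`: rename (the vertex which is
dropped is called `w`). `Nx.left_unique`: the same with `Nx_iff_left` and the side `HE _ g.1 g.2`. `Nx_swap`: `orient` of a rotated triple.
`Nx.of_tri`: definition (`z` is the third vertex).
-/

namespace Pool.Agent.RFX

/-- full complex with bodies; `lab` numbers the parts -/
structure BC (P : Finset Pt) (C Bs : Finset (Finset Pt)) (lab : Pt → ℕ) : Prop where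
  gen : Gen P
  card : 3 ≤ P.card
  full : Full P C
  sub : Bs ⊆ C
  tri : ∀ t ∈ C, t ∉ Bs → t.card = 3
  body : ∀ A ∈ Bs, ∀ a ∈ A, ∀ b ∈ P, (lab a = lab b ↔ b ∈ A)
  single : ∀ a ∈ P, (∀ A ∈ Bs, a ∉ A) → ∀ b ∈ P, lab a = lab b → a = b
  sep : ∀ i j, i ≠ j → Disjoint (convexHull ℝ (part P lab i : Set Pt))
    (convexHull ℝ (part P lab j : Set Pt))

variable {P : Finset Pt} {C Bs : Finset (Finset Pt)} {lab : Pt → ℕ}

theorem BC.subP (h : BC P C Bs lab) : ∀ t ∈ C, t ⊆ P := by
  intro t ht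
  exact h.full.sub ht

private theorem ne_of_orient_pos17 {x z y : Pt} (h : 0 < orient x z y) : x ≠ z ∧ z ≠ y ∧ y ≠ x := by
  refine ⟨?_, ?_, ?_⟩
  · rintro rfl; rw [orient_self1] at h; exact lt_irrefl _ h
  · rintro rfl; rw [orient_self3] at h; exact lt_irrefl _ h
  · rintro rfl; rw [orient_self2] at h; exact lt_irrefl _ h

theorem tri_he {x z y : Pt} (h : 0 < orient x z y) :
    HE {x, z, y} x z ∧ HE {x, z, y} z y ∧ HE {x, z, y} y x := by
  obtain ⟨h1, h2, h3⟩ := ne_of_orient_pos17 h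
  refine ⟨⟨by simp, by simp, h1, ?_⟩, ⟨by simp, by simp, h2, ?_⟩, ⟨by simp, by simp, h3, ?_⟩⟩
  · intro c hc hcx hcz
    simp only [Finset.mem_insert, Finset.mem_singleton] at hc
    rcases hc with rfl | rfl | rfl
    · exact absurd rfl hcx
    · exact absurd rfl hcz
    · exact h
  · intro c hc hcx hcz
    simp only [Finset.mem_insert, Finset.mem_singleton] at hc
    rcases hc with rfl | rfl | rfl
    · rw [orient_rot]; exact h
    · exact absurd rfl hcx
    · exact absurd rfl hcz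
  · intro c hc hcx hcz
    simp only [Finset.mem_insert, Finset.mem_singleton] at hc
    rcases hc with rfl | rfl | rfl
    · exact absurd rfl hcz
    · rw [orient_rot']; exact h
    · exact absurd rfl hcx

theorem BC.same_body (h : BC P C Bs lab) {a b : Pt} (ha : a ∈ P) (hb : b ∈ P) (hab : a ≠ b)
    (hl : lab a = lab b) : ∃ A ∈ Bs, a ∈ A ∧ b ∈ A := by
  by_cases hA : ∃ A ∈ Bs, a ∈ A
  · obtain ⟨A, hA1, hA2⟩ := hA
    exact ⟨A, hA1, hA2, (h.body A hA1 a hA2 b hb).1 hl⟩
  · push Not at hA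
    exact absurd (h.single a ha hA b hb hl) hab

theorem Nx.mem (h : BC P C Bs lab) {e f : Pt × Pt} (hN : Nx C lab e f) :
    e.1 ∈ P ∧ e.2 ∈ P ∧ f.1 ∈ P ∧ f.2 ∈ P := by
  obtain ⟨z, hz, ho, hl, h2⟩ := hN
  have hs := h.subP _ hz
  have h3 : e.1 ∈ P := hs (by simp)
  have h4 : z ∈ P := hs (by simp)
  have h5 : e.2 ∈ P := hs (by simp)
  rcases h2 with ⟨_, rfl⟩ | ⟨_, rfl⟩
  · exact ⟨h3, h5, h4, h5⟩
  · exact ⟨h3, h5, h3, h4⟩

theorem Nx.lab_eq {e f : Pt × Pt} (hN : Nx C lab e f) :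
    lab f.1 = lab e.1 ∧ lab f.2 = lab e.2 ∧ lab e.1 ≠ lab e.2 := by
  obtain ⟨z, hz, ho, hl, h2⟩ := hN
  rcases h2 with ⟨h3, rfl⟩ | ⟨h3, rfl⟩
  · exact ⟨h3, rfl, hl⟩
  · exact ⟨rfl, h3, hl⟩

/-- exactly one of the two ends moves -/
theorem Nx.cases {e f : Pt × Pt} (hN : Nx C lab e f) :
    (f.2 = e.2 ∧ f.1 ≠ e.1 ∧ ({e.1, f.1, e.2} : Finset Pt) ∈ C ∧ 0 < orient e.1 f.1 e.2) ∨
    (f.1 = e.1 ∧ f.2 ≠ e.2 ∧ ({e.1, f.2, e.2} : Finset Pt) ∈ C ∧ 0 < orient e.1 f.2 e.2) := by
  obtain ⟨z, hz, ho, hl, h2⟩ := hN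
  obtain ⟨h4, h5, h6⟩ := ne_of_orient_pos17 ho
  rcases h2 with ⟨h3, rfl⟩ | ⟨h3, rfl⟩
  · exact Or.inl ⟨rfl, h4.symm, hz, ho⟩
  · exact Or.inr ⟨rfl, h5, hz, ho⟩

theorem Nx.bodyA (h : BC P C Bs lab) {e f : Pt × Pt} (hN : Nx C lab e f) (h2 : f.2 = e.2) :
    ∃ A ∈ Bs, HE A f.1 e.1 := by
  obtain ⟨m1, m2, m3, m4⟩ := Nx.mem h hN
  obtain ⟨l1, l2, l3⟩ := hN.lab_eq
  rcases hN.cases with ⟨_, h3, h4, h5⟩ | ⟨_, h3, _, _⟩
  · obtain ⟨A, hA, hA1, hA2⟩ := h.same_body m1 m3 h3.symm l1.symm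
    have hne : ({e.1, f.1, e.2} : Finset Pt) ≠ A := by
      rintro rfl
      exact l3 ((h.body _ hA e.1 hA1 e.2 m2).2 (by simp))
    rcases h.full.cx.side_or h4 (h.sub hA) hne h3.symm (by simp) (by simp) hA1 hA2 with h6 | h6
    · exact ⟨A, hA, h6.2⟩
    · exact absurd (HE.not_both h6.1 (tri_he h5).1 (h.full.cx.three _ h4)) not_false
  · exact absurd h2 h3

theorem Nx.bodyB (h : BC P C Bs lab) {e f : Pt × Pt} (hN : Nx C lab e f) (h1 : f.1 = e.1) :
    ∃ B ∈ Bs, HE B e.2 f.2 := by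
  obtain ⟨m1, m2, m3, m4⟩ := Nx.mem h hN
  obtain ⟨l1, l2, l3⟩ := hN.lab_eq
  rcases hN.cases with ⟨_, h3, _, _⟩ | ⟨_, h3, h4, h5⟩
  · exact absurd h1 h3
  · obtain ⟨A, hA, hA1, hA2⟩ := h.same_body m4 m2 h3 l2
    have hne : ({e.1, f.2, e.2} : Finset Pt) ≠ A := by
      rintro rfl
      exact l3 ((h.body _ hA e.2 hA2 e.1 m1).2 (by simp)).symm
    rcases h.full.cx.side_or h4 (h.sub hA) hne h3 (by simp) (by simp) hA1 hA2 with h6 | h6
    · exact ⟨A, hA, h6.2⟩
    · exact absurd (HE.not_both h6.1 (tri_he h5).2.1 (h.full.cx.three _ h4)) not_false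

theorem Nx.right_unique (h : BC P C Bs lab) {e f g : Pt × Pt} (hf : Nx C lab e f)
    (hg : Nx C lab e g) : f = g := by
  obtain ⟨z, hz, ho, hl, h2⟩ := hf
  obtain ⟨z', hz', ho', hl', h2'⟩ := hg
  have heq : ({e.1, z, e.2} : Finset Pt) = {e.1, z', e.2} :=
    h.full.cx.side_unique hz hz' (tri_he ho).2.2 (tri_he ho').2.2
  obtain ⟨n1, n2, n3⟩ := ne_of_orient_pos17 ho
  have hzz : z = z' := by
    have h3 : z ∈ ({e.1, z', e.2} : Finset Pt) := by rw [← heq]; simp
    simp only [Finset.mem_insert, Finset.mem_singleton] at h3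
    rcases h3 with h3 | h3 | h3
    · exact absurd h3.symm n1
    · exact h3
    · exact absurd h3 n2
  subst hzz
  rcases h2 with ⟨h3, rfl⟩ | ⟨h3, rfl⟩ <;> rcases h2' with ⟨h4, rfl⟩ | ⟨h4, rfl⟩
  · rfl
  · exact absurd (h3.symm.trans h4) hl
  · exact absurd (h4.symm.trans h3) hl
  · rfl

theorem Nx_iff_left {e g : Pt × Pt} : Nx C lab e g ↔
    ∃ w, ({g.1, g.2, w} : Finset Pt) ∈ C ∧ 0 < orient g.1 g.2 w ∧ lab g.1 ≠ lab g.2 ∧
      ((lab w = lab g.1 ∧ e = (w, g.2)) ∨ (lab w = lab g.2 ∧ e = (g.1, w))) := by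
  constructor
  · rintro ⟨z, hz, ho, hl, ⟨h3, rfl⟩ | ⟨h3, rfl⟩⟩
    · refine ⟨e.1, ?_, ?_, ?_, Or.inl ⟨h3.symm, rfl⟩⟩
      · have : ({z, e.2, e.1} : Finset Pt) = {e.1, z, e.2} := by
          ext x; simp only [Finset.mem_insert, Finset.mem_singleton]; tauto
        simpa only [this] using hz
      · have h4 := orient_rot e.1 z e.2
        simp only [h4]; exact ho
      · simp only [h3]; exact hl
    · refine ⟨e.2, hz, ho, ?_, Or.inr ⟨h3.symm, rfl⟩⟩
      simp only [h3]; exact hl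
  · rintro ⟨w, hw, ho, hl, ⟨h3, rfl⟩ | ⟨h3, rfl⟩⟩
    · refine ⟨g.1, ?_, ?_, ?_, Or.inl ⟨h3.symm, rfl⟩⟩
      · have : ({w, g.1, g.2} : Finset Pt) = {g.1, g.2, w} := by
          ext x; simp only [Finset.mem_insert, Finset.mem_singleton]; tauto
        simpa only [this] using hw
      · have h4 := orient_rot' g.1 g.2 w
        simp only [h4]; exact ho
      · simp only [h3]; exact hl
    · refine ⟨g.2, hw, ho, ?_, Or.inr ⟨h3.symm, rfl⟩⟩
      simp only [h3]; exact hl

theorem Nx.left_unique (h : BC P C Bs lab) {e f g : Pt × Pt} (he : Nx C lab e g)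
    (hf : Nx C lab f g) : e = f := by
  obtain ⟨z, hz, ho, hl, h2⟩ := Nx_iff_left.1 he
  obtain ⟨z', hz', ho', hl', h2'⟩ := Nx_iff_left.1 hf
  have heq : ({g.1, g.2, z} : Finset Pt) = {g.1, g.2, z'} :=
    h.full.cx.side_unique hz hz' (tri_he ho).1 (tri_he ho').1
  obtain ⟨n1, n2, n3⟩ := ne_of_orient_pos17 ho
  have hzz : z = z' := by
    have h3 : z ∈ ({g.1, g.2, z'} : Finset Pt) := by rw [← heq]; simp
    simp only [Finset.mem_insert, Finset.mem_singleton] at h3
    rcases h3 with h3 | h3 | h3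
    · exact absurd h3 n3
    · exact absurd h3.symm n2
    · exact h3
  subst hzz
  rcases h2 with ⟨h3, rfl⟩ | ⟨h3, rfl⟩ <;> rcases h2' with ⟨h4, rfl⟩ | ⟨h4, rfl⟩
  · rfl
  · exact absurd (h3.symm.trans h4) hl
  · exact absurd (h4.symm.trans h3) hl
  · rfl

/-- the strip read backwards -/
theorem Nx_swap {e f : Pt × Pt} : Nx C lab e f ↔ Nx C lab (f.2, f.1) (e.2, e.1) := by
  rw [Nx_iff_left]
  have hset : ∀ w, ({f.2, w, f.1} : Finset Pt) = {f.1, f.2, w} := by
    intro w
    ext x; simp only [Finset.mem_insert, Finset.mem_singleton]; tauto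
  constructor
  · rintro ⟨w, hw, ho, hl, h3⟩
    refine ⟨w, ?_, ?_, fun h => hl h.symm, ?_⟩
    · simp only [hset]; exact hw
    · have h4 := orient_rot f.1 f.2 w
      simp only [h4]; exact ho
    · rcases h3 with ⟨h3, rfl⟩ | ⟨h3, rfl⟩
      · exact Or.inr ⟨h3, rfl⟩
      · exact Or.inl ⟨h3, rfl⟩
  · rintro ⟨w, hw, ho, hl, h3⟩
    simp only [hset] at hw
    have h4 := orient_rot f.1 f.2 w
    simp only [h4] at ho
    refine ⟨w, hw, ho, fun h => hl h.symm, ?_⟩
    rcases h3 with ⟨h3, h5⟩ | ⟨h3, h5⟩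
    · refine Or.inr ⟨h3, ?_⟩
      rw [Prod.mk.injEq] at h5
      exact Prod.ext h5.2 h5.1
    · refine Or.inl ⟨h3, ?_⟩
      rw [Prod.mk.injEq] at h5
      exact Prod.ext h5.2 h5.1

end Pool.Agent.RFX

end

section

set_option autoImplicit false

/-!
# RFX/NFIt : the strips as iterated steps (MP_72a26e_co)

PROOFS (all facts on `Nx` from `NFBC`). `nx_eq`: `Nx.right_unique`. `step_lt`, `no_step`: `it` stays in `P ×ˢ P` as long as there is a next step; by `exists_pos` (`NFSep`) `pos (it s n)` is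
strictly increasing as long as there is a next step, so an infinite path would be an injection of `ℕ` in `P ×ˢ P`:
`exists_end`. `it_inj`: let `n ≤ n'` (symmetric); by induction on `n` with `Nx.left_unique`
`it s 0 = it s' (n' - n)`; if `n' - n > 0` then `s` has a predecessor, but `s ∈ starts`.
`exists_start`: go back from `e` with predecessors (`pos` decreases, the set `P ×ˢ P` is finite; e.g. take `f` with minimal
`pos` among the pairs `f ∈ P ×ˢ P` with `∃ n, it f n = e ∧ ∀ i < n, Nx (it f i) (it f (i+1))` and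
the same labels): it has no predecessor; it is a side of a cell because it equals `e` or has a next step.
-/

namespace Pool.Agent.RFX

variable {P : Finset Pt} {C Bs : Finset (Finset Pt)} {lab : Pt → ℕ}

/-- the next cross edge -/
noncomputable def nx (C : Finset (Finset Pt)) (lab : Pt → ℕ) (e : Pt × Pt) : Pt × Pt := by
  classical exact if h : ∃ f, Nx C lab e f then h.choose else e

/-- the cross edge number `n` of the strip which starts at `s` -/
noncomputable def it (C : Finset (Finset Pt)) (lab : Pt → ℕ) (s : Pt × Pt) (n : ℕ) : Pt × Pt :=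
  (nx C lab)^[n] s

/-- the number of triangles of the strip which starts at `s` -/
noncomputable def len (C : Finset (Finset Pt)) (lab : Pt → ℕ) (s : Pt × Pt) : ℕ :=
  sInf {n | ∀ f, ¬ Nx C lab (it C lab s n) f}

/-- the first cross edges of the strips -/
noncomputable def starts (P : Finset Pt) (C : Finset (Finset Pt)) (lab : Pt → ℕ) :
    Finset (Pt × Pt) := by
  classical exact (P ×ˢ P).filter fun s => lab s.1 < lab s.2 ∧
    (∃ t ∈ C, HE t s.1 s.2 ∨ HE t s.2 s.1) ∧ ∀ f, ¬ Nx C lab f s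

theorem it_zero (s : Pt × Pt) : it C lab s 0 = s := rfl

private theorem nx_spec {e : Pt × Pt} (h : ∃ f, Nx C lab e f) : Nx C lab e (nx C lab e) := by
  unfold nx
  rw [dif_pos h]
  exact h.choose_spec

theorem nx_eq (h : BC P C Bs lab) {e f : Pt × Pt} (hN : Nx C lab e f) : nx C lab e = f :=
  Nx.right_unique h (nx_spec ⟨f, hN⟩) hN

private theorem it_succ (s : Pt × Pt) (n : ℕ) : it C lab s (n + 1) = nx C lab (it C lab s n) :=
  Function.iterate_succ_apply' _ _ _

private theorem it_succ' (s : Pt × Pt) (n : ℕ) : it C lab s (n + 1) = it C lab (nx C lab s) n :=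
  Function.iterate_succ_apply _ _ _

private theorem exists_end (h : BC P C Bs lab) (s : Pt × Pt) :
    ∃ n, ∀ f, ¬ Nx C lab (it C lab s n) f := by
  by_contra hcon
  push Not at hcon
  obtain ⟨pos, hpos⟩ := exists_pos P C lab h.subP h.sep
  have hstep : ∀ n, Nx C lab (it C lab s n) (it C lab s (n + 1)) := by
    intro n
    rw [it_succ]
    exact nx_spec (hcon n)
  have hmono : StrictMono (fun n => pos (it C lab s n)) :=
    strictMono_nat_of_lt_succ fun n => hpos _ _ (hstep n)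
  have hinj : Function.Injective (fun n => it C lab s n) := by
    intro a b hab
    exact hmono.injective (congrArg pos hab)
  have hmem : ∀ n, it C lab s n ∈ ((P ×ˢ P : Finset (Pt × Pt)) : Set (Pt × Pt)) := by
    intro n
    have h1 := Nx.mem h (hstep n)
    simp only [Finset.coe_product, Set.mem_prod, Finset.mem_coe]
    exact ⟨h1.1, h1.2.1⟩
  have hfin : (Set.range (fun n => it C lab s n)).Finite :=
    (Finset.finite_toSet (P ×ˢ P)).subset (by rintro _ ⟨n, rfl⟩; exact hmem n)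
  exact Set.infinite_range_of_injective hinj hfin

theorem step_lt (h : BC P C Bs lab) {s : Pt × Pt} {n : ℕ} (hn : n < len C lab s) :
    Nx C lab (it C lab s n) (it C lab s (n + 1)) := by
  have h1 : n ∉ {n | ∀ f, ¬ Nx C lab (it C lab s n) f} := Nat.notMem_of_lt_sInf hn
  simp only [Set.mem_setOf_eq, not_forall, not_not] at h1
  rw [it_succ]
  exact nx_spec h1

theorem no_step (h : BC P C Bs lab) (s : Pt × Pt) :
    ∀ f, ¬ Nx C lab (it C lab s (len C lab s)) f :=
  Nat.sInf_mem (exists_end h s)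

theorem it_lab (h : BC P C Bs lab) {s : Pt × Pt} {n : ℕ} (hn : n ≤ len C lab s) :
    lab (it C lab s n).1 = lab s.1 ∧ lab (it C lab s n).2 = lab s.2 := by
  induction n with
  | zero => exact ⟨rfl, rfl⟩
  | succ n ih =>
    have h1 := ih (by omega)
    have h2 := (step_lt h (Nat.lt_of_succ_le hn)).lab_eq
    exact ⟨h2.1.trans h1.1, h2.2.1.trans h1.2⟩

theorem it_mem (h : BC P C Bs lab) {s : Pt × Pt} (hs : s ∈ starts P C lab) {n : ℕ}
    (hn : n ≤ len C lab s) : (it C lab s n).1 ∈ P ∧ (it C lab s n).2 ∈ P := by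
  cases n with
  | zero =>
    rw [it_zero]
    unfold starts at hs
    simp only [Finset.mem_filter, Finset.mem_product] at hs
    exact hs.1
  | succ n =>
    have h2 := Nx.mem h (step_lt h (Nat.lt_of_succ_le hn))
    exact ⟨h2.2.2.1, h2.2.2.2⟩

private theorem it_inj_aux (h : BC P C Bs lab) : ∀ (n n' : ℕ) {s s' : Pt × Pt}, n ≤ n' →
    s ∈ starts P C lab → n ≤ len C lab s → n' ≤ len C lab s' →
    it C lab s n = it C lab s' n' → s = s' ∧ n = n' := by
  intro n
  induction n with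
  | zero =>
    intro n' s s' _ hs _ hn' he
    rw [it_zero] at he
    cases n' with
    | zero => rw [it_zero] at he; exact ⟨he, rfl⟩
    | succ m =>
      exfalso
      have h1 := step_lt h (Nat.lt_of_succ_le hn')
      rw [← he] at h1
      unfold starts at hs
      simp only [Finset.mem_filter, Finset.mem_product] at hs
      exact hs.2.2.2 _ h1
  | succ n ih =>
    intro n' s s' hle hs hn hn' he
    cases n' with
    | zero => omega
    | succ m =>
      have h1 := step_lt h (Nat.lt_of_succ_le hn)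
      have h2 := step_lt h (Nat.lt_of_succ_le hn')
      rw [← he] at h2
      have h3 := Nx.left_unique h h1 h2
      obtain ⟨h4, h5⟩ := ih m (by omega) hs (by omega) (by omega) h3
      exact ⟨h4, by omega⟩

theorem it_inj (h : BC P C Bs lab) {s s' : Pt × Pt} (hs : s ∈ starts P C lab)
    (hs' : s' ∈ starts P C lab) {n n' : ℕ} (hn : n ≤ len C lab s) (hn' : n' ≤ len C lab s')
    (he : it C lab s n = it C lab s' n') : s = s' ∧ n = n' := by
  rcases le_total n n' with hle | hle
  · exact it_inj_aux h n n' hle hs hn hn' he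
  · obtain ⟨h1, h2⟩ := it_inj_aux h n' n hle hs' hn' hn he.symm
    exact ⟨h1.symm, h2.symm⟩

theorem exists_start (h : BC P C Bs lab) {e : Pt × Pt} (he : lab e.1 < lab e.2)
    (ht : ∃ t ∈ C, HE t e.1 e.2 ∨ HE t e.2 e.1) :
    ∃ s ∈ starts P C lab, ∃ n ≤ len C lab s, it C lab s n = e := by
  classical
  obtain ⟨pos, hpos⟩ := exists_pos P C lab h.subP h.sep
  have hmemP : ∀ f : Pt × Pt, (∃ t ∈ C, HE t f.1 f.2 ∨ HE t f.2 f.1) → f.1 ∈ P ∧ f.2 ∈ P := by
    rintro f ⟨t, ht, h1 | h1⟩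
    · exact ⟨h.subP t ht h1.1, h.subP t ht h1.2.1⟩
    · exact ⟨h.subP t ht h1.2.1, h.subP t ht h1.1⟩
  obtain ⟨S, hS⟩ : ∃ S : Finset (Pt × Pt), S = (P ×ˢ P).filter fun f => lab f.1 < lab f.2 ∧
      (∃ t ∈ C, HE t f.1 f.2 ∨ HE t f.2 f.1) ∧
      ∃ n, it C lab f n = e ∧ ∀ i < n, Nx C lab (it C lab f i) (it C lab f (i + 1)) := ⟨_, rfl⟩
  have hSm : ∀ f, f ∈ S ↔ (lab f.1 < lab f.2 ∧ (∃ t ∈ C, HE t f.1 f.2 ∨ HE t f.2 f.1) ∧
      ∃ n, it C lab f n = e ∧ ∀ i < n, Nx C lab (it C lab f i) (it C lab f (i + 1))) := by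
    intro f
    rw [hS, Finset.mem_filter, Finset.mem_product]
    constructor
    · exact fun hf => hf.2
    · exact fun hf => ⟨hmemP f hf.2.1, hf⟩
  have heS : e ∈ S := (hSm e).2 ⟨he, ht, 0, rfl, fun i hi => absurd hi (Nat.not_lt_zero i)⟩
  obtain ⟨f, hf, hmin⟩ := Finset.exists_min_image S pos ⟨e, heS⟩
  obtain ⟨hf1, hf2, n, hf3, hf4⟩ := (hSm f).1 hf
  refine ⟨f, ?_, n, ?_, hf3⟩
  · unfold starts
    rw [Finset.mem_filter, Finset.mem_product]
    refine ⟨hmemP f hf2, hf1, hf2, fun g hg => ?_⟩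
    have hgf : nx C lab g = f := nx_eq h hg
    have hlab := hg.lab_eq
    have hgS : g ∈ S := by
      refine (hSm g).2 ⟨by rw [← hlab.1, ← hlab.2.1]; exact hf1, ?_, n + 1, ?_, ?_⟩
      · obtain ⟨z, hz, ho, _⟩ := hg
        exact ⟨_, hz, Or.inr (tri_he ho).2.2⟩
      · rw [it_succ', hgf]; exact hf3
      · intro i hi
        cases i with
        | zero => rw [it_succ', hgf, it_zero, it_zero]; exact hg
        | succ i =>
          rw [it_succ', it_succ' g (i + 1), hgf]
          exact hf4 i (by omega)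
    exact absurd (hmin g hgS) (not_le.2 (hpos _ _ hg))
  · by_contra hlt
    exact no_step h f _ (hf4 _ (not_le.1 hlt))

end Pool.Agent.RFX

end

section

set_option autoImplicit false

/-!
# RFX/NFStar : the star of an interior vertex of a strip (MP_72a26e_co)

`p n, …, p (n' + 1)` are consecutive cross edges, the first end of `p j` is `v` exactly for `n < j ≤ n'`. Write
`p j = (x_j, y_j)`. The triangles are `trp (p j) (p (j+1))`, `n ≤ j ≤ n'`.

PROOF of `starA`. By `Nx.cases` and `tri_he` (counterclockwise triples): step `n` moves the first end: triangle `(x_n, v, y_n)`,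
`y_(n+1) = y_n`, sides `x_n → v`, `v → y_n`; the steps `n < j < n'` move the second end: triangle `(v, y_(j+1), y_j)`, sides `v → y_(j+1)`,
`y_j → v`; step `n'` moves the first end: triangle `(v, x_(n'+1), y_n')`, sides `v → x_(n'+1)`, `y_n' → v`. Let `A` be the body of `v`
(`Nx.bodyA` for the steps `n` and `n'`; it is the same body because bodies are determined by the labels, `BC.body`): `HE A v x_n` and
`HE A x_(n'+1) v`. Let `S = {A} ∪ {triangles n ≤ j ≤ n'}`. The sides of these cells at `v` are matched among each other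
(`v → y_n` with `y_(n+1) → v`, …, `v → y_(n')` with `y_(n') → v`, `x_n → v` with `v → x_n`, `v → x_(n'+1)` with `x_(n'+1) → v`), the
side of a cell at `v` starting resp. ending in `v` is unique (`HE.succ_unique`, `HE.pred_unique`), and a directed side
belongs to one cell (`Cx.side_unique`), so `S` is closed under side adjacency at `v`: `Full.star` gives (1). (4) follows from (1) and
the uniqueness of sides at `v`. (2): if `HE P v b` then by `Full.hull` there is `t ∈ C` with `HE t v b`, `t ∈ S` by (1); the side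
`v → b` of `t` is matched: `HE t' b v` for some `t' ∈ S`, `t' ⊆ P`, so `t'` has a point `c` with `orient b v c > 0`, but
`HE P v b` gives `orient v b c > 0`. The same for `HE P b v`.
(3) apply `exists_in_halfplane` (`NFCyc`) to the closed sequence `a 0 = x_(n'+1)`, `a i = y_(n'+1-i)` for
`1 ≤ i ≤ n' - n`, `a (n'-n+1) = x_n`, `a (n'-n+2) = x_(n'+1)`, `r = n' - n + 2`. The turns: `orient v x_(n'+1) y_n' > 0`,
`orient v y_(j+1) y_j > 0`, `orient v y_n x_n > 0` (rotated triples), `orient v x_n x_(n'+1) > 0`: `HE A v x_n`,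
`x_(n'+1) ∈ A`, `x_(n'+1) ≠ v`, and `x_(n'+1) ≠ x_n` since `HE A v x_n`, `HE A x_(n'+1) v` (`HE.not_both`, `3 ≤ A.card`).
`starB`: apply `starA` to the reversed path `q j = ((p (n+n'+1-j)).2, (p (n+n'+1-j)).1)` (`Nx_swap`); `trp` is symmetric up to the
order of the elements.
-/

namespace Pool.Agent.RFX

variable {P : Finset Pt} {C Bs : Finset (Finset Pt)} {lab : Pt → ℕ}

/-- the triangle between two consecutive cross edges -/
noncomputable def trp (e f : Pt × Pt) : Finset Pt := {e.1, e.2, f.1, f.2}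

theorem Nx.trp_mem {e f : Pt × Pt} (hN : Nx C lab e f) : trp e f ∈ C ∧ (trp e f).card = 3 := by
  have hcard : ∀ x z y : Pt, 0 < orient x z y → ({x, z, y} : Finset Pt).card = 3 := by
    intro x z y ho
    have h1 : x ≠ z := by rintro rfl; rw [orient_self1] at ho; exact lt_irrefl _ ho
    have h2 : z ≠ y := by rintro rfl; rw [orient_self3] at ho; exact lt_irrefl _ ho
    have h3 : x ≠ y := by rintro rfl; rw [orient_self2] at ho; exact lt_irrefl _ ho
    exact Finset.card_eq_three.2 ⟨x, z, y, h1, h3, h2, rfl⟩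
  rcases hN.cases with ⟨h2, _, hC, ho⟩ | ⟨h1, _, hC, ho⟩
  · have he : trp e f = {e.1, f.1, e.2} := by
      unfold trp
      rw [h2]
      ext x
      simp only [Finset.mem_insert, Finset.mem_singleton]
      tauto
    rw [he]
    exact ⟨hC, hcard _ _ _ ho⟩
  · have he : trp e f = {e.1, f.2, e.2} := by
      unfold trp
      rw [h1]
      ext x
      simp only [Finset.mem_insert, Finset.mem_singleton]
      tauto
    rw [he]
    exact ⟨hC, hcard _ _ _ ho⟩

/-- a closed sequence of spokes around `v` -/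
private theorem wheel (hF : Full P C) (hG : Gen P) {v : Pt} {r : ℕ} (hr : 0 < r) (a : ℕ → Pt)
    (c : ℕ → Finset Pt) (hcl : a r = a 0) (hc : ∀ i < r, c i ∈ C) (h1 : ∀ i < r, HE (c i) v (a i))
    (h2 : ∀ i < r, HE (c i) (a (i + 1)) v) (hturn : ∀ i < r, 0 < orient v (a i) (a (i + 1))) :
    (∀ t ∈ C, v ∈ t → ∃ i < r, t = c i) ∧ (∀ b, ¬ HE P v b ∧ ¬ HE P b v) ∧
    (∀ M : Finset (Pt × Pt), (∀ i < r, (v, a i) ∈ M) →
      ∀ u : Pt, u ≠ 0 → ∃ x, (v, x) ∈ M ∧ 0 < cross u (x - v)) ∧
    (∀ t ∈ C, ∀ w, HE t v w ∨ HE t w v → ∃ i < r, w = a i) := by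
  classical
  -- the cell after and before
  have hnext : ∀ i < r, ∃ k < r, HE (c k) v (a (i + 1)) ∧ a k = a (i + 1) := by
    intro i hi
    by_cases h : i + 1 < r
    · exact ⟨i + 1, h, h1 _ h, rfl⟩
    · have he : i + 1 = r := by omega
      refine ⟨0, hr, ?_, ?_⟩
      · rw [he, hcl]; exact h1 0 hr
      · rw [he, hcl]
  have hprev : ∀ i < r, ∃ k < r, HE (c k) (a i) v := by
    intro i hi
    rcases Nat.eq_zero_or_pos i with h | h
    · refine ⟨r - 1, by omega, ?_⟩
      have := h2 (r - 1) (by omega)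
      rw [show r - 1 + 1 = r by omega, hcl] at this
      rw [h]; exact this
    · refine ⟨i - 1, by omega, ?_⟩
      have := h2 (i - 1) (by omega)
      rw [show i - 1 + 1 = i by omega] at this
      exact this
  have hstar : ∀ t ∈ C, v ∈ t → ∃ i < r, t = c i := by
    intro t ht hvt
    have := hF.star hG (v := v) ((Finset.range r).image c)
      (by
        intro s hs
        obtain ⟨i, hi, rfl⟩ := Finset.mem_image.1 hs
        exact hc i (Finset.mem_range.1 hi))
      (by
        intro s hs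
        obtain ⟨i, hi, rfl⟩ := Finset.mem_image.1 hs
        exact (h1 i (Finset.mem_range.1 hi)).1)
      ⟨c 0, Finset.mem_image.2 ⟨0, Finset.mem_range.2 hr, rfl⟩⟩
      (by
        intro s hs t ht b hb
        obtain ⟨i, hi, rfl⟩ := Finset.mem_image.1 hs
        have hi' := Finset.mem_range.1 hi
        rcases hb with ⟨hb1, hb2⟩ | ⟨hb1, hb2⟩
        · have hb3 : b = a (i + 1) := hb1.pred_unique (h2 i hi')
          obtain ⟨k, hk, hk1, _⟩ := hnext i hi'
          rw [hb3] at hb2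
          have : t = c k := hF.cx.side_unique ht (hc k hk) hb2 hk1
          exact Finset.mem_image.2 ⟨k, Finset.mem_range.2 hk, this.symm⟩
        · have hb3 : b = a i := hb1.succ_unique (h1 i hi')
          obtain ⟨k, hk, hk1⟩ := hprev i hi'
          rw [hb3] at hb2
          have : t = c k := hF.cx.side_unique ht (hc k hk) hb2 hk1
          exact Finset.mem_image.2 ⟨k, Finset.mem_range.2 hk, this.symm⟩) t ht hvt
    obtain ⟨i, hi, hi2⟩ := Finset.mem_image.1 this
    exact ⟨i, Finset.mem_range.1 hi, hi2.symm⟩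
  refine ⟨hstar, ?_, ?_, ?_⟩
  · intro b
    constructor
    · intro hb
      obtain ⟨t, ht, ht1⟩ := hF.hull _ _ hb
      obtain ⟨i, hi, rfl⟩ := hstar t ht ht1.1
      have hb3 : b = a i := ht1.succ_unique (h1 i hi)
      obtain ⟨k, hk, hk1⟩ := hprev i hi
      rw [← hb3] at hk1
      exact HE.not_both hk1 (hb.sub (hF.sub (hc k hk)) hk1.2.1 hk1.1) (hF.cx.three _ (hc k hk))
    · intro hb
      obtain ⟨t, ht, ht1⟩ := hF.hull _ _ hb
      obtain ⟨i, hi, rfl⟩ := hstar t ht ht1.2.1
      have hb3 : b = a (i + 1) := ht1.pred_unique (h2 i hi)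
      obtain ⟨k, hk, hk1, _⟩ := hnext i hi
      rw [← hb3] at hk1
      exact HE.not_both hk1 (hb.sub (hF.sub (hc k hk)) hk1.2.1 hk1.1) (hF.cx.three _ (hc k hk))
  · intro M hM u hu
    obtain ⟨i, hi, hi2⟩ := exists_in_halfplane v a r hr hcl hturn u hu
    exact ⟨a i, hM i hi, hi2⟩
  · intro t ht w hw
    rcases hw with hw | hw
    · obtain ⟨i, hi, rfl⟩ := hstar t ht hw.1
      exact ⟨i, hi, hw.succ_unique (h1 i hi)⟩
    · obtain ⟨i, hi, rfl⟩ := hstar t ht hw.2.1
      obtain ⟨k, hk, _, hk2⟩ := hnext i hi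
      exact ⟨k, hk, by rw [hk2]; exact hw.pred_unique (h2 i hi)⟩

theorem starA (h : BC P C Bs lab) {p : ℕ → Pt × Pt} {n n' : ℕ} (hn : n < n')
    (hp : ∀ j, n ≤ j → j ≤ n' → Nx C lab (p j) (p (j + 1))) {v : Pt}
    (hv : ∀ j, n < j → j ≤ n' → (p j).1 = v) (hin : (p n).1 ≠ v) (hout : (p (n' + 1)).1 ≠ v) :
    (∀ t ∈ C, v ∈ t → t ∈ Bs ∨ ∃ j, n ≤ j ∧ j ≤ n' ∧ t = trp (p j) (p (j + 1))) ∧
    (∀ b, ¬ HE P v b ∧ ¬ HE P b v) ∧
    (∀ M : Finset (Pt × Pt), (v, (p n).1) ∈ M → (v, (p (n' + 1)).1) ∈ M →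
      (∀ j, n < j → j ≤ n' → (v, (p j).2) ∈ M) →
      ∀ u : Pt, u ≠ 0 → ∃ x, (v, x) ∈ M ∧ 0 < cross u (x - v)) ∧
    (∀ t ∈ C, ∀ w, HE t v w ∨ HE t w v → w = (p n).1 ∨ w = (p (n' + 1)).1 ∨
      ∃ j, n < j ∧ j ≤ n' ∧ w = (p j).2) := by
  classical
  -- the first step
  have hv1 : (p (n + 1)).1 = v := hv (n + 1) (by omega) (by omega)
  have hN0 := hp n le_rfl hn.le
  have hN1 := hp n' hn.le le_rfl
  have hvn' : (p n').1 = v := hv n' hn le_rfl
  have s0 : (p (n + 1)).2 = (p n).2 ∧ 0 < orient (p n).1 v (p n).2 ∧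
      trp (p n) (p (n + 1)) = {(p n).1, v, (p n).2} := by
    rcases hN0.cases with ⟨e2, _, _, ho⟩ | ⟨e1, _, _, _⟩
    · refine ⟨e2, by rw [← hv1]; exact ho, ?_⟩
      unfold trp
      rw [e2, hv1]
      ext x
      simp only [Finset.mem_insert, Finset.mem_singleton]
      tauto
    · exact absurd (e1.symm.trans hv1) hin
  have s1 : ∀ j, n < j → j < n' → 0 < orient v (p (j + 1)).2 (p j).2 ∧
      trp (p j) (p (j + 1)) = {v, (p (j + 1)).2, (p j).2} := by
    intro j hj1 hj2
    have e1 : (p j).1 = v := hv j hj1 hj2.le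
    have e2 : (p (j + 1)).1 = v := hv (j + 1) (by omega) (by omega)
    rcases (hp j hj1.le hj2.le).cases with ⟨_, e3, _, _⟩ | ⟨_, _, _, ho⟩
    · exact absurd (e2.trans e1.symm) e3
    · rw [e1] at ho
      refine ⟨ho, ?_⟩
      unfold trp
      rw [e1, e2]
      ext x
      simp only [Finset.mem_insert, Finset.mem_singleton]
      tauto
  have s2 : 0 < orient v (p (n' + 1)).1 (p n').2 ∧
      trp (p n') (p (n' + 1)) = {v, (p (n' + 1)).1, (p n').2} := by
    rcases hN1.cases with ⟨e2, _, _, ho⟩ | ⟨e1, _, _, _⟩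
    · rw [hvn'] at ho
      refine ⟨ho, ?_⟩
      unfold trp
      rw [e2, hvn']
      ext x
      simp only [Finset.mem_insert, Finset.mem_singleton]
      tauto
    · exact absurd (e1.trans hvn') hout
  -- the body
  obtain ⟨A, hA, hA1⟩ := Nx.bodyA h hN0 s0.1
  have e2' : (p (n' + 1)).2 = (p n').2 := by
    rcases hN1.cases with ⟨e2, _, _, _⟩ | ⟨e1, _, _, _⟩
    · exact e2
    · exact absurd (e1.trans hvn') hout
  obtain ⟨A', hA', hA1'⟩ := Nx.bodyA h hN1 e2'
  rw [hv1] at hA1
  rw [hvn'] at hA1'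
  have hAA : A' = A := by
    ext x
    constructor
    · intro hx
      have hxP : x ∈ P := h.subP _ (h.sub hA') hx
      exact (h.body A hA v hA1.1 x hxP).1 ((h.body A' hA' v hA1'.2.1 x hxP).2 hx)
    · intro hx
      have hxP : x ∈ P := h.subP _ (h.sub hA) hx
      exact (h.body A' hA' v hA1'.2.1 x hxP).1 ((h.body A hA v hA1.1 x hxP).2 hx)
  rw [hAA] at hA1'
  have hxx : (p (n' + 1)).1 ≠ (p n).1 := by
    intro he
    rw [he] at hA1'
    exact HE.not_both hA1 hA1' (h.full.cx.three _ (h.sub hA))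
  -- the wheel
  let r : ℕ := n' - n + 2
  let a : ℕ → Pt := fun i => if i = 0 then (p (n' + 1)).1 else
    if i ≤ n' - n then (p (n' + 1 - i)).2 else if i = n' - n + 1 then (p n).1 else (p (n' + 1)).1
  let c : ℕ → Finset Pt := fun i => if i ≤ n' - n then trp (p (n' - i)) (p (n' - i + 1)) else A
  have ha0 : a 0 = (p (n' + 1)).1 := by simp [a]
  have hai : ∀ i, 0 < i → i ≤ n' - n → a i = (p (n' + 1 - i)).2 := by
    intro i hi1 hi2
    simp only [a]
    rw [if_neg (by omega), if_pos hi2]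
  have hax : a (n' - n + 1) = (p n).1 := by
    simp only [a]
    rw [if_neg (by omega), if_neg (by omega)]
    simp
  have har : a r = (p (n' + 1)).1 := by
    simp only [a, r]
    rw [if_neg (by omega), if_neg (by omega), if_neg (by omega)]
  have hci : ∀ i, i ≤ n' - n → c i = trp (p (n' - i)) (p (n' - i + 1)) := by
    intro i hi
    simp only [c]
    rw [if_pos hi]
  have hcx : c (n' - n + 1) = A := by
    simp only [c]
    rw [if_neg (by omega)]
  -- all facts on the cell number i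
  have key : ∀ i < r, c i ∈ C ∧ HE (c i) v (a i) ∧ HE (c i) (a (i + 1)) v ∧
      0 < orient v (a i) (a (i + 1)) := by
    intro i hi
    rcases Nat.eq_zero_or_pos i with hi0 | hi0
    · subst hi0
      rw [hci 0 (by omega), ha0, hai 1 (by omega) (by omega)]
      simp only [Nat.sub_zero, Nat.add_sub_cancel]
      refine ⟨hN1.trp_mem.1, ?_, ?_, s2.1⟩
      · rw [s2.2]; exact (tri_he s2.1).1
      · rw [s2.2]; exact (tri_he s2.1).2.2
    · by_cases hi1 : i < n' - n
      · rw [hci i hi1.le, hai i hi0 hi1.le, hai (i + 1) (by omega) (by omega)]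
        have g1 : n' + 1 - i = (n' - i) + 1 := by omega
        have g2 : n' + 1 - (i + 1) = n' - i := by omega
        rw [g1, g2]
        have s := s1 (n' - i) (by omega) (by omega)
        refine ⟨(hp (n' - i) (by omega) (by omega)).trp_mem.1, ?_, ?_, s.1⟩
        · rw [s.2]; exact (tri_he s.1).1
        · rw [s.2]; exact (tri_he s.1).2.2
      · by_cases hi2 : i = n' - n
        · rw [hci i hi2.le, hai i hi0 hi2.le, hi2, hax]
          have g1 : n' + 1 - (n' - n) = n + 1 := by omega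
          have g2 : n' - (n' - n) = n := by omega
          rw [g1, g2, s0.1]
          refine ⟨hN0.trp_mem.1, ?_, ?_, ?_⟩
          · rw [s0.2.2]; exact (tri_he s0.2.1).2.1
          · rw [s0.2.2]; exact (tri_he s0.2.1).1
          · rw [orient_rot]; exact s0.2.1
        · have hi3 : i = n' - n + 1 := by
            have : i < n' - n + 2 := hi
            omega
          rw [hi3, hcx, hax]
          have g1 : n' - n + 1 + 1 = r := rfl
          rw [g1, har]
          refine ⟨h.sub hA, hA1, hA1', ?_⟩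
          exact hA1.2.2.2 _ hA1'.1 hout hxx
  obtain ⟨w1, w2, w3, w4⟩ := wheel h.full h.gen (r := r) (by omega) a c (by rw [har, ha0])
    (fun i hi => (key i hi).1) (fun i hi => (key i hi).2.1) (fun i hi => (key i hi).2.2.1)
    (fun i hi => (key i hi).2.2.2)
  have hw : ∀ i < r, a i = (p n).1 ∨ a i = (p (n' + 1)).1 ∨
      ∃ j, n < j ∧ j ≤ n' ∧ a i = (p j).2 := by
    intro i hi
    rcases Nat.eq_zero_or_pos i with hi0 | hi0
    · subst hi0; exact Or.inr (Or.inl ha0)
    · by_cases hi1 : i ≤ n' - n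
      · exact Or.inr (Or.inr ⟨n' + 1 - i, by omega, by omega, hai i hi0 hi1⟩)
      · have hi3 : i = n' - n + 1 := by
          have : i < n' - n + 2 := hi
          omega
        rw [hi3]
        exact Or.inl hax
  refine ⟨?_, w2, ?_, ?_⟩
  · intro t ht hvt
    obtain ⟨i, hi, rfl⟩ := w1 t ht hvt
    by_cases hi1 : i ≤ n' - n
    · exact Or.inr ⟨n' - i, by omega, by omega, hci i hi1⟩
    · have hi3 : i = n' - n + 1 := by
        have : i < n' - n + 2 := hi
        omega
      rw [hi3, hcx]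
      exact Or.inl hA
  · intro M m1 m2 m3
    apply w3
    intro i hi
    rcases hw i hi with h3 | h3 | ⟨j, hj1, hj2, h3⟩
    · rw [h3]; exact m1
    · rw [h3]; exact m2
    · rw [h3]; exact m3 j hj1 hj2
  · intro t ht w hw'
    obtain ⟨i, hi, rfl⟩ := w4 t ht w hw'
    exact hw i hi

theorem starB (h : BC P C Bs lab) {p : ℕ → Pt × Pt} {n n' : ℕ} (hn : n < n')
    (hp : ∀ j, n ≤ j → j ≤ n' → Nx C lab (p j) (p (j + 1))) {v : Pt}
    (hv : ∀ j, n < j → j ≤ n' → (p j).2 = v) (hin : (p n).2 ≠ v) (hout : (p (n' + 1)).2 ≠ v) :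
    (∀ t ∈ C, v ∈ t → t ∈ Bs ∨ ∃ j, n ≤ j ∧ j ≤ n' ∧ t = trp (p j) (p (j + 1))) ∧
    (∀ b, ¬ HE P v b ∧ ¬ HE P b v) ∧
    (∀ M : Finset (Pt × Pt), (v, (p n).2) ∈ M → (v, (p (n' + 1)).2) ∈ M →
      (∀ j, n < j → j ≤ n' → (v, (p j).1) ∈ M) →
      ∀ u : Pt, u ≠ 0 → ∃ x, (v, x) ∈ M ∧ 0 < cross u (x - v)) ∧
    (∀ t ∈ C, ∀ w, HE t v w ∨ HE t w v → w = (p n).2 ∨ w = (p (n' + 1)).2 ∨
      ∃ j, n < j ∧ j ≤ n' ∧ w = (p j).1) := by
  have g0 : n + n' + 1 - n = n' + 1 := by omega
  have g1 : n + n' + 1 - (n' + 1) = n := by omega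
  obtain ⟨w1, w2, w3, w4⟩ := starA h (p := fun j => ((p (n + n' + 1 - j)).2, (p (n + n' + 1 - j)).1))
    (n := n) (n' := n') hn
    (by
      intro j hj1 hj2
      have h1 := hp (n + n' - j) (by omega) (by omega)
      have h2 := Nx_swap.1 h1
      have g2 : n + n' - j + 1 = n + n' + 1 - j := by omega
      have g3 : n + n' + 1 - (j + 1) = n + n' - j := by omega
      rw [g2] at h2
      simp only [g3]
      exact h2) (v := v)
    (by
      intro j hj1 hj2
      exact hv (n + n' + 1 - j) (by omega) (by omega))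
    (by simp only [g0]; exact hout) (by simp only [g1]; exact hin)
  simp only [g0, g1] at w3 w4
  refine ⟨?_, w2, ?_, ?_⟩
  · intro t ht hvt
    rcases w1 t ht hvt with h1 | ⟨j, hj1, hj2, h1⟩
    · exact Or.inl h1
    · refine Or.inr ⟨n + n' - j, by omega, by omega, ?_⟩
      have g2 : n + n' - j + 1 = n + n' + 1 - j := by omega
      have g3 : n + n' + 1 - (j + 1) = n + n' - j := by omega
      rw [h1, g2]
      simp only [g3]
      unfold trp
      ext x
      simp only [Finset.mem_insert, Finset.mem_singleton]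
      tauto
  · intro M m1 m2 m3
    exact w3 M m2 m1 fun j hj1 hj2 => m3 (n + n' + 1 - j) (by omega) (by omega)
  · intro t ht w hw
    rcases w4 t ht w hw with h1 | h1 | ⟨j, hj1, hj2, h1⟩
    · exact Or.inr (Or.inl h1)
    · exact Or.inl h1
    · exact Or.inr (Or.inr ⟨n + n' + 1 - j, by omega, by omega, h1⟩)

end Pool.Agent.RFX

end

section

set_option autoImplicit false

/-!
# RFX/NFInr : steps of a strip (dropped, added, common vertex) and interior vertices (MP_72a26e_co)

PROOFS. `h : BC`, `s ∈ starts`, `n < len s`; `step_lt` gives `Nx (it n) (it (n+1))`, `Nx.cases` the two cases: `ltr = true` (second end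
fixed; `Nx.cases` first case) or `ltr = false` (then the second ends differ, so it is the second case of `Nx.cases`).
`tr_mem`: `Nx.trp_mem`. `tr_eq`, `at_iff`, `at_succ_iff`, `ne3`: unfold, the two cases; `dr ≠ cm` because of the labels (`Nx.lab_eq`,
`it_lab`, `starts`: `lab s.1 < lab s.2`), `dr ≠ ad` by `Nx.cases`, `cm ≠ ad` by the labels. `tr_he`: `tri_he` for the counterclockwise
triple (`(x, z, y)` in both cases), and a triangle has no other sides (`HE.succ_unique`; e.g. `HE t a b` with `a, b ∈ t` and the three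
known sides). `tr_body`: `Nx.bodyA`, `Nx.bodyB`. `tr_not_body`: a body has one label (`BC.body`), `tr` has two. `tr_inj`: the side of
`tr s n` from the point with the larger label to the point with the smaller label is unique and is `(it n).2 → (it n).1`; `it_inj`.
`Inr`: `v` is added by the step `n`, dropped by the step `n'` of the same kind, the steps between are of the other kind, so
`v` is the same end of `it j` for `n < j ≤ n'` (induction on `j`). `inr_of_later`: take the first `n' > n` with the same letter;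
`inr_of_earlier`: the last `n < n'` with the same letter.
`Inr.cells`, `Inr.hull`, `Inr.res`, `Inr.sides`: `starA` if `ltr s n = true`, `starB` otherwise, for the path `p = it C lab s`
(`(it n).1 = dr s n ≠ v`, `(it (n'+1)).1 = ad s n' ≠ v`, the other ends for `starB`).
`Inr.occ`: let `AtC s' j v`, `j ≤ len s'`, `f = it s' j`. `f` is a side of a cell (`starts` for `j = 0`, otherwise `step_lt` and
`tr_he`), one of its ends is `v`, the other one `w` has another label (`it_lab`). By `Inr.sides` `w` is `dr s n`, `ad s n'`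
(impossible, they have the label of `v`) or the other end of `it s j'`, `n < j' ≤ n'`. As `lab f.1 < lab f.2` and
`lab (it s j').1 < lab (it s j').2` the pairs are equal: `it_inj`. `Inr.at_iff`: `Inr.occ` and the first remark. `Inr.uniq`: by `Inr.occ`
applied to the positions `k + 1`, `k'` of the other one and back (the intervals `(n, n']`, `(k, k']` of positions are equal).
-/

namespace Pool.Agent.RFX

variable {P : Finset Pt} {C Bs : Finset (Finset Pt)} {lab : Pt → ℕ}

/-- the kind of the step `n`: `true` if the first end moves -/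
noncomputable def ltr (C : Finset (Finset Pt)) (lab : Pt → ℕ) (s : Pt × Pt) (n : ℕ) : Bool :=
  open Classical in decide ((it C lab s (n + 1)).2 = (it C lab s n).2)

/-- the vertex dropped by the step `n` -/
noncomputable def dr (C : Finset (Finset Pt)) (lab : Pt → ℕ) (s : Pt × Pt) (n : ℕ) : Pt :=
  if ltr C lab s n then (it C lab s n).1 else (it C lab s n).2

/-- the vertex added by the step `n` -/
noncomputable def ad (C : Finset (Finset Pt)) (lab : Pt → ℕ) (s : Pt × Pt) (n : ℕ) : Pt :=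
  if ltr C lab s n then (it C lab s (n + 1)).1 else (it C lab s (n + 1)).2

/-- the vertex kept by the step `n` -/
noncomputable def cm (C : Finset (Finset Pt)) (lab : Pt → ℕ) (s : Pt × Pt) (n : ℕ) : Pt :=
  if ltr C lab s n then (it C lab s n).2 else (it C lab s n).1

/-- the triangle number `n` -/
noncomputable def tr (C : Finset (Finset Pt)) (lab : Pt → ℕ) (s : Pt × Pt) (n : ℕ) : Finset Pt :=
  trp (it C lab s n) (it C lab s (n + 1))

/-- `v` is an end of the cross edge number `j` -/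
def AtC (C : Finset (Finset Pt)) (lab : Pt → ℕ) (s : Pt × Pt) (j : ℕ) (v : Pt) : Prop :=
  v = (it C lab s j).1 ∨ v = (it C lab s j).2

/-- the two cases of a step -/
private theorem stp (h : BC P C Bs lab) {s : Pt × Pt} {n : ℕ} (hn : n < len C lab s) :
    (ltr C lab s n = true ∧ (it C lab s (n + 1)).2 = (it C lab s n).2 ∧
      (it C lab s (n + 1)).1 ≠ (it C lab s n).1 ∧
      0 < orient (it C lab s n).1 (it C lab s (n + 1)).1 (it C lab s n).2 ∧
      tr C lab s n = {(it C lab s n).1, (it C lab s (n + 1)).1, (it C lab s n).2} ∧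
      dr C lab s n = (it C lab s n).1 ∧ ad C lab s n = (it C lab s (n + 1)).1 ∧
      cm C lab s n = (it C lab s n).2) ∨
    (ltr C lab s n = false ∧ (it C lab s (n + 1)).1 = (it C lab s n).1 ∧
      (it C lab s (n + 1)).2 ≠ (it C lab s n).2 ∧
      0 < orient (it C lab s n).1 (it C lab s (n + 1)).2 (it C lab s n).2 ∧
      tr C lab s n = {(it C lab s n).1, (it C lab s (n + 1)).2, (it C lab s n).2} ∧
      dr C lab s n = (it C lab s n).2 ∧ ad C lab s n = (it C lab s (n + 1)).2 ∧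
      cm C lab s n = (it C lab s n).1) := by
  classical
  rcases (step_lt h hn).cases with ⟨h1, h2, _, h4⟩ | ⟨h1, h2, _, h4⟩
  · have hl : ltr C lab s n = true := by
      unfold ltr
      exact decide_eq_true h1
    refine Or.inl ⟨hl, h1, h2, h4, ?_, ?_, ?_, ?_⟩
    · unfold tr trp
      rw [h1]
      ext x
      simp only [Finset.mem_insert, Finset.mem_singleton]
      tauto
    · unfold dr; rw [if_pos hl]
    · unfold ad; rw [if_pos hl]
    · unfold cm; rw [if_pos hl]
  · have hl : ltr C lab s n = false := by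
      unfold ltr
      exact decide_eq_false h2
    have hl' : ¬ (ltr C lab s n = true) := by rw [hl]; exact Bool.false_ne_true
    refine Or.inr ⟨hl, h1, h2, h4, ?_, ?_, ?_, ?_⟩
    · unfold tr trp
      rw [h1]
      ext x
      simp only [Finset.mem_insert, Finset.mem_singleton]
      tauto
    · unfold dr; rw [if_neg hl']
    · unfold ad; rw [if_neg hl']
    · unfold cm; rw [if_neg hl']

theorem tr_mem (h : BC P C Bs lab) {s : Pt × Pt} {n : ℕ} (hn : n < len C lab s) :
    tr C lab s n ∈ C ∧ (tr C lab s n).card = 3 := by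
  exact (step_lt h hn).trp_mem

theorem tr_eq (h : BC P C Bs lab) {s : Pt × Pt} {n : ℕ} (hn : n < len C lab s) :
    tr C lab s n = {dr C lab s n, cm C lab s n, ad C lab s n} := by
  rcases stp h hn with ⟨_, _, _, _, h5, h6, h7, h8⟩ | ⟨_, _, _, _, h5, h6, h7, h8⟩
  · rw [h5, h6, h7, h8]
    ext x
    simp only [Finset.mem_insert, Finset.mem_singleton]
    tauto
  · rw [h5, h6, h7, h8]
    ext x
    simp only [Finset.mem_insert, Finset.mem_singleton]
    tauto

theorem mem_tr_iff {s : Pt × Pt} {n : ℕ} {v : Pt} :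
    v ∈ tr C lab s n ↔ AtC C lab s n v ∨ AtC C lab s (n + 1) v := by
  unfold tr trp AtC
  simp only [Finset.mem_insert, Finset.mem_singleton]
  tauto

theorem at_iff (h : BC P C Bs lab) {s : Pt × Pt} {n : ℕ} (hn : n < len C lab s) {v : Pt} :
    AtC C lab s n v ↔ v = dr C lab s n ∨ v = cm C lab s n := by
  unfold AtC
  rcases stp h hn with ⟨_, _, _, _, _, h6, _, h8⟩ | ⟨_, _, _, _, _, h6, _, h8⟩
  · rw [h6, h8]
  · rw [h6, h8]; exact or_comm

theorem at_succ_iff (h : BC P C Bs lab) {s : Pt × Pt} {n : ℕ} (hn : n < len C lab s) {v : Pt} :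
    AtC C lab s (n + 1) v ↔ v = cm C lab s n ∨ v = ad C lab s n := by
  unfold AtC
  rcases stp h hn with ⟨_, h2, _, _, _, _, h7, h8⟩ | ⟨_, h2, _, _, _, _, h7, h8⟩
  · rw [h7, h8, h2]; exact or_comm
  · rw [h7, h8, h2]

theorem lab_step (h : BC P C Bs lab) {s : Pt × Pt} {n : ℕ} (hn : n < len C lab s) :
    lab (dr C lab s n) = lab (ad C lab s n) ∧ lab (cm C lab s n) ≠ lab (ad C lab s n) := by
  obtain ⟨l1, l2, l3⟩ := (step_lt h hn).lab_eq
  rcases stp h hn with ⟨_, _, _, _, _, h6, h7, h8⟩ | ⟨_, _, _, _, _, h6, h7, h8⟩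
  · rw [h6, h7, h8]
    exact ⟨l1.symm, fun hc => l3 (l1.symm.trans hc.symm)⟩
  · rw [h6, h7, h8]
    exact ⟨l2.symm, fun hc => l3 (hc.trans l2)⟩

theorem ne3 (h : BC P C Bs lab) {s : Pt × Pt} {n : ℕ} (hn : n < len C lab s) :
    dr C lab s n ≠ cm C lab s n ∧ dr C lab s n ≠ ad C lab s n ∧
      cm C lab s n ≠ ad C lab s n := by
  obtain ⟨l1, l2⟩ := lab_step h hn
  refine ⟨fun hc => l2 (by rw [← hc]; exact l1), ?_, fun hc => l2 (by rw [hc])⟩
  rcases stp h hn with ⟨_, _, h3, _, _, h6, h7, _⟩ | ⟨_, _, h3, _, _, h6, h7, _⟩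
  · rw [h6, h7]; exact h3.symm
  · rw [h6, h7]; exact h3.symm

/-- the sides of a triangle -/
private theorem tri_he_iff {x z y : Pt} (ho : 0 < orient x z y) {a b : Pt} :
    HE {x, z, y} a b ↔ (a = y ∧ b = x) ∨ (a = z ∧ b = y) ∨ (a = x ∧ b = z) := by
  obtain ⟨h1, h2, h3⟩ := tri_he ho
  constructor
  · intro hab
    have ha := hab.1
    simp only [Finset.mem_insert, Finset.mem_singleton] at ha
    rcases ha with rfl | rfl | rfl
    · exact Or.inr (Or.inr ⟨rfl, hab.succ_unique h1⟩)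
    · exact Or.inr (Or.inl ⟨rfl, hab.succ_unique h2⟩)
    · exact Or.inl ⟨rfl, hab.succ_unique h3⟩
  · rintro (⟨rfl, rfl⟩ | ⟨rfl, rfl⟩ | ⟨rfl, rfl⟩)
    · exact h3
    · exact h2
    · exact h1

/-- the three sides of the triangle number `n` -/
theorem tr_he (h : BC P C Bs lab) {s : Pt × Pt} {n : ℕ} (hn : n < len C lab s) {a b : Pt} :
    HE (tr C lab s n) a b ↔
      (a = (it C lab s n).2 ∧ b = (it C lab s n).1) ∨
      (a = (it C lab s (n + 1)).1 ∧ b = (it C lab s (n + 1)).2) ∨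
      (ltr C lab s n = true ∧ a = dr C lab s n ∧ b = ad C lab s n) ∨
      (ltr C lab s n = false ∧ a = ad C lab s n ∧ b = dr C lab s n) := by
  rcases stp h hn with ⟨h1, h2, _, h4, h5, h6, h7, _⟩ | ⟨h1, h2, _, h4, h5, h6, h7, _⟩
  · rw [h5, tri_he_iff h4, h1, h2, h6, h7]
    simp
  · rw [h5, tri_he_iff h4, h1, h2, h6, h7]
    simp only [Bool.false_eq_true, false_and, true_and, false_or]
    tauto

/-- behind the body side of the triangle number `n` is a body -/
theorem tr_body (h : BC P C Bs lab) {s : Pt × Pt} {n : ℕ} (hn : n < len C lab s) :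
    (ltr C lab s n = true ∧ ∃ A ∈ Bs, HE A (ad C lab s n) (dr C lab s n)) ∨
    (ltr C lab s n = false ∧ ∃ A ∈ Bs, HE A (dr C lab s n) (ad C lab s n)) := by
  rcases stp h hn with ⟨h1, h2, _, _, _, h6, h7, _⟩ | ⟨h1, h2, _, _, _, h6, h7, _⟩
  · refine Or.inl ⟨h1, ?_⟩
    rw [h6, h7]
    exact (step_lt h hn).bodyA h h2
  · refine Or.inr ⟨h1, ?_⟩
    rw [h6, h7]
    exact (step_lt h hn).bodyB h h2

theorem tr_not_body (h : BC P C Bs lab) {s : Pt × Pt} {n : ℕ} (hn : n < len C lab s) :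
    tr C lab s n ∉ Bs := by
  intro hb
  have h1 := tr_eq h hn
  obtain ⟨_, l2⟩ := lab_step h hn
  have h2 : cm C lab s n ∈ tr C lab s n := by rw [h1]; simp
  have h3 : ad C lab s n ∈ tr C lab s n := by rw [h1]; simp
  exact l2 ((h.body _ hb _ h2 _ (h.subP _ (tr_mem h hn).1 h3)).2 h3)

private theorem starts_lab {s : Pt × Pt} (hs : s ∈ starts P C lab) : lab s.1 < lab s.2 := by
  unfold starts at hs
  simp only [Finset.mem_filter, Finset.mem_product] at hs
  exact hs.2.1

private theorem it_lt (h : BC P C Bs lab) {s : Pt × Pt} (hs : s ∈ starts P C lab) {n : ℕ}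
    (hn : n ≤ len C lab s) : lab (it C lab s n).1 < lab (it C lab s n).2 := by
  obtain ⟨h1, h2⟩ := it_lab h hn
  rw [h1, h2]
  exact starts_lab hs

theorem tr_inj (h : BC P C Bs lab) {s s' : Pt × Pt} (hs : s ∈ starts P C lab)
    (hs' : s' ∈ starts P C lab) {n n' : ℕ} (hn : n < len C lab s) (hn' : n' < len C lab s')
    (he : tr C lab s n = tr C lab s' n') : s = s' ∧ n = n' := by
  have h1 : HE (tr C lab s n) (it C lab s n).2 (it C lab s n).1 :=
    (tr_he h hn).2 (Or.inl ⟨rfl, rfl⟩)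
  have l1 := it_lt h hs hn.le
  have l2 := it_lt h hs' (n := n' + 1) hn'
  have l3 := (lab_step h hn').1
  rw [he] at h1
  rcases (tr_he h hn').1 h1 with ⟨e1, e2⟩ | ⟨e1, e2⟩ | ⟨_, e1, e2⟩ | ⟨_, e1, e2⟩
  · exact it_inj h hs hs' hn.le hn'.le (Prod.ext e2 e1)
  · rw [← e1, ← e2] at l2
    exact absurd l1 (lt_asymm l2)
  · rw [← e1, ← e2] at l3
    exact absurd l3 l1.ne'
  · rw [← e1, ← e2] at l3
    exact absurd l3 l1.ne

/-- `v` is added by the step `n` and dropped by the step `n'` -/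
structure Inr (C : Finset (Finset Pt)) (lab : Pt → ℕ) (s : Pt × Pt) (n n' : ℕ) (v : Pt) :
    Prop where
  lt : n < n'
  lt' : n' < len C lab s
  ad : v = ad C lab s n
  dr : v = dr C lab s n'
  same : ltr C lab s n' = ltr C lab s n
  btw : ∀ j, n < j → j < n' → ltr C lab s j ≠ ltr C lab s n

/-- the end which moves is constant until the next step of the same kind -/
private theorem ends (h : BC P C Bs lab) {s : Pt × Pt} {n n' : ℕ} (hn' : n' ≤ len C lab s)
    (btw : ∀ j, n < j → j < n' → ltr C lab s j ≠ ltr C lab s n) :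
    (ltr C lab s n = true → ∀ j, n < j → j ≤ n' → (it C lab s j).1 = ad C lab s n) ∧
    (ltr C lab s n = false → ∀ j, n < j → j ≤ n' → (it C lab s j).2 = ad C lab s n) := by
  constructor
  · intro hl j
    induction j with
    | zero => intro h1 _; exact absurd h1 (Nat.not_lt_zero n)
    | succ j ih =>
      intro h1 h2
      rcases Nat.lt_or_ge n j with h3 | h3
      · have h4 := ih h3 (by omega)
        have h5 := btw j h3 (by omega)
        rcases stp h (s := s) (n := j) (by omega) with ⟨g1, _⟩ | ⟨_, g2, _⟩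
        · exact absurd (g1.trans hl.symm) h5
        · rw [g2, h4]
      · have h4 : j = n := by omega
        subst h4
        rcases stp h (s := s) (n := j) (by omega) with ⟨_, _, _, _, _, _, g7, _⟩ | ⟨g1, _⟩
        · exact g7.symm
        · rw [hl] at g1; exact absurd g1.symm Bool.false_ne_true
  · intro hl j
    induction j with
    | zero => intro h1 _; exact absurd h1 (Nat.not_lt_zero n)
    | succ j ih =>
      intro h1 h2
      rcases Nat.lt_or_ge n j with h3 | h3
      · have h4 := ih h3 (by omega)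
        have h5 := btw j h3 (by omega)
        rcases stp h (s := s) (n := j) (by omega) with ⟨_, g2, _⟩ | ⟨g1, _⟩
        · rw [g2, h4]
        · exact absurd (g1.trans hl.symm) h5
      · have h4 : j = n := by omega
        subst h4
        rcases stp h (s := s) (n := j) (by omega) with ⟨g1, _⟩ | ⟨_, _, _, _, _, _, g7, _⟩
        · rw [hl] at g1; exact absurd g1 Bool.false_ne_true
        · exact g7.symm

private theorem ad_eq_dr (h : BC P C Bs lab) {s : Pt × Pt} {n n' : ℕ} (hn : n < n')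
    (hn' : n' < len C lab s) (same : ltr C lab s n' = ltr C lab s n)
    (btw : ∀ j, n < j → j < n' → ltr C lab s j ≠ ltr C lab s n) :
    ad C lab s n = dr C lab s n' := by
  obtain ⟨h1, h2⟩ := ends h hn'.le btw
  rcases stp h hn' with ⟨g1, _, _, _, _, g6, _⟩ | ⟨g1, _, _, _, _, g6, _⟩
  · rw [g6]
    exact (h1 (same.symm.trans g1) n' hn le_rfl).symm
  · rw [g6]
    exact (h2 (same.symm.trans g1) n' hn le_rfl).symm

theorem inr_of_later (h : BC P C Bs lab) {s : Pt × Pt} {n : ℕ}
    (hO : Occ (ltr C lab s) (ltr C lab s n) (n + 1) (len C lab s)) :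
    ∃ n', Inr C lab s n n' (ad C lab s n) := by
  classical
  obtain ⟨m, hm1, hm2, hm3⟩ := hO
  have hex : ∃ m, n + 1 ≤ m ∧ m < len C lab s ∧ ltr C lab s m = ltr C lab s n :=
    ⟨m, hm1, hm2, hm3⟩
  obtain ⟨h1, h2, h3⟩ := Nat.find_spec hex
  have h4 : ∀ j, n < j → j < Nat.find hex → ltr C lab s j ≠ ltr C lab s n := by
    intro j hj1 hj2 hj3
    exact Nat.find_min hex hj2 ⟨hj1, by omega, hj3⟩
  exact ⟨Nat.find hex, h1, h2, rfl, ad_eq_dr h h1 h2 h3 h4, h3, h4⟩

theorem inr_of_earlier (h : BC P C Bs lab) {s : Pt × Pt} {n' : ℕ} (hn' : n' < len C lab s)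
    (hO : Occ (ltr C lab s) (ltr C lab s n') 0 n') :
    ∃ n, Inr C lab s n n' (dr C lab s n') := by
  classical
  obtain ⟨m, hm1, hm2, hm3⟩ := hO
  -- the last one
  have hex : ∃ i, i < n' ∧ ltr C lab s (n' - 1 - i) = ltr C lab s n' := by
    refine ⟨n' - 1 - m, by omega, ?_⟩
    rw [show n' - 1 - (n' - 1 - m) = m by omega]
    exact hm3
  obtain ⟨h1, h2⟩ := Nat.find_spec hex
  have h4 : ∀ j, n' - 1 - Nat.find hex < j → j < n' →
      ltr C lab s j ≠ ltr C lab s (n' - 1 - Nat.find hex) := by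
    intro j hj1 hj2 hj3
    refine Nat.find_min hex (m := n' - 1 - j) (by omega) ⟨by omega, ?_⟩
    rw [show n' - 1 - (n' - 1 - j) = j by omega]
    exact hj3.trans h2
  have h5 := ad_eq_dr h (n := n' - 1 - Nat.find hex) (by omega) hn' h2.symm h4
  exact ⟨n' - 1 - Nat.find hex, by omega, hn', h5.symm, rfl, h2.symm, h4⟩

private theorem Inr.star (h : BC P C Bs lab) {s : Pt × Pt} {n n' : ℕ} {v : Pt}
    (hI : Inr C lab s n n' v) :
    (∀ t ∈ C, v ∈ t → t ∈ Bs ∨ ∃ j, n ≤ j ∧ j ≤ n' ∧ t = tr C lab s j) ∧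
    (∀ b, ¬ HE P v b ∧ ¬ HE P b v) ∧
    (∀ M : Finset (Pt × Pt), (v, RFX.dr C lab s n) ∈ M → (v, RFX.ad C lab s n') ∈ M →
      (∀ j, n < j → j ≤ n' → ∀ w, AtC C lab s j w → w ≠ v → (v, w) ∈ M) →
      ∀ u : Pt, u ≠ 0 → ∃ x, (v, x) ∈ M ∧ 0 < cross u (x - v)) ∧
    (∀ t ∈ C, ∀ w, HE t v w ∨ HE t w v →
      w = RFX.dr C lab s n ∨ w = RFX.ad C lab s n' ∨
        ∃ j, n < j ∧ j ≤ n' ∧ AtC C lab s j w ∧ w ≠ v) := by
  have hlt := hI.lt
  have hlt' := hI.lt'
  obtain ⟨e1, e2⟩ := ends h hI.lt'.le hI.btw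
  have hne := (ne3 h (s := s) (n := n) (by omega)).2.1
  have hne' := (ne3 h (s := s) (n := n') hlt').2.1
  rw [← hI.ad] at hne
  rw [← hI.dr] at hne'
  have hla : ∀ j, n < j → j ≤ n' → (it C lab s j).1 ≠ (it C lab s j).2 := by
    intro j _ hj hc
    have h1 := (step_lt h (s := s) (n := j) (by omega)).lab_eq.2.2
    rw [hc] at h1
    exact h1 rfl
  have hp : ∀ j, n ≤ j → j ≤ n' → Nx C lab (it C lab s j) (it C lab s (j + 1)) :=
    fun j _ hj => step_lt h (by omega)
  rcases stp h (s := s) (n := n) (by omega) with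
    ⟨g1, _, _, _, _, g6, _⟩ | ⟨g1, _, _, _, _, g6, _⟩
  · have hv : ∀ j, n < j → j ≤ n' → (it C lab s j).1 = v := by
      intro j hj1 hj2
      rw [e1 g1 j hj1 hj2]
      exact hI.ad.symm
    have g7 : RFX.ad C lab s n' = (it C lab s (n' + 1)).1 := by
      rcases stp h hlt' with ⟨_, _, _, _, _, _, k7, _⟩ | ⟨k1, _⟩
      · exact k7
      · rw [hI.same, g1] at k1; exact absurd k1.symm Bool.false_ne_true
    obtain ⟨w1, w2, w3, w4⟩ := starA h (p := it C lab s) hlt hp hv (by rw [← g6]; exact hne)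
      (by rw [← g7]; exact hne'.symm)
    refine ⟨w1, w2, ?_, ?_⟩
    · intro M m1 m2 m3
      rw [g6] at m1
      rw [g7] at m2
      refine w3 M m1 m2 fun j hj1 hj2 => m3 j hj1 hj2 _ (Or.inr rfl) ?_
      intro hc
      exact hla j hj1 hj2 ((hv j hj1 hj2).trans hc.symm)
    · intro t ht w hw
      rw [g6, g7]
      rcases w4 t ht w hw with k | k | ⟨j, hj1, hj2, k⟩
      · exact Or.inl k
      · exact Or.inr (Or.inl k)
      · refine Or.inr (Or.inr ⟨j, hj1, hj2, Or.inr k, ?_⟩)
        rw [k]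
        intro hc
        exact hla j hj1 hj2 ((hv j hj1 hj2).trans hc.symm)
  · have hv : ∀ j, n < j → j ≤ n' → (it C lab s j).2 = v := by
      intro j hj1 hj2
      rw [e2 g1 j hj1 hj2]
      exact hI.ad.symm
    have g7 : RFX.ad C lab s n' = (it C lab s (n' + 1)).2 := by
      rcases stp h hlt' with ⟨k1, _⟩ | ⟨_, _, _, _, _, _, k7, _⟩
      · rw [hI.same, g1] at k1; exact absurd k1 Bool.false_ne_true
      · exact k7
    obtain ⟨w1, w2, w3, w4⟩ := starB h (p := it C lab s) hlt hp hv (by rw [← g6]; exact hne)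
      (by rw [← g7]; exact hne'.symm)
    refine ⟨w1, w2, ?_, ?_⟩
    · intro M m1 m2 m3
      rw [g6] at m1
      rw [g7] at m2
      refine w3 M m1 m2 fun j hj1 hj2 => m3 j hj1 hj2 _ (Or.inl rfl) ?_
      intro hc
      exact hla j hj1 hj2 (hc.trans (hv j hj1 hj2).symm)
    · intro t ht w hw
      rw [g6, g7]
      rcases w4 t ht w hw with k | k | ⟨j, hj1, hj2, k⟩
      · exact Or.inl k
      · exact Or.inr (Or.inl k)
      · refine Or.inr (Or.inr ⟨j, hj1, hj2, Or.inl k, ?_⟩)
        rw [k]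
        intro hc
        exact hla j hj1 hj2 (hc.trans (hv j hj1 hj2).symm)

theorem Inr.cells (h : BC P C Bs lab) {s : Pt × Pt} {n n' : ℕ} {v : Pt}
    (hI : Inr C lab s n n' v) : ∀ t ∈ C, v ∈ t → t ∈ Bs ∨ ∃ j, n ≤ j ∧ j ≤ n' ∧ t = tr C lab s j := by
  exact (hI.star h).1

theorem Inr.hull (h : BC P C Bs lab) {s : Pt × Pt} {n n' : ℕ} {v : Pt}
    (hI : Inr C lab s n n' v) (b : Pt) : ¬ HE P v b ∧ ¬ HE P b v := by
  exact (hI.star h).2.1 b

theorem Inr.res (h : BC P C Bs lab) {s : Pt × Pt} {n n' : ℕ} {v : Pt}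
    (hI : Inr C lab s n n' v) (M : Finset (Pt × Pt)) (h1 : (v, RFX.dr C lab s n) ∈ M)
    (h2 : (v, RFX.ad C lab s n') ∈ M)
    (h3 : ∀ j, n < j → j ≤ n' → ∀ w, AtC C lab s j w → w ≠ v → (v, w) ∈ M) :
    ∀ u : Pt, u ≠ 0 → ∃ x, (v, x) ∈ M ∧ 0 < cross u (x - v) := by
  exact (hI.star h).2.2.1 M h1 h2 h3

theorem Inr.sides (h : BC P C Bs lab) {s : Pt × Pt} {n n' : ℕ} {v : Pt}
    (hI : Inr C lab s n n' v) : ∀ t ∈ C, ∀ w, HE t v w ∨ HE t w v →
      w = RFX.dr C lab s n ∨ w = RFX.ad C lab s n' ∨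
        ∃ j, n < j ∧ j ≤ n' ∧ AtC C lab s j w ∧ w ≠ v := by
  exact (hI.star h).2.2.2

/-- `v` is an end of the cross edges `n < j ≤ n'` -/
private theorem Inr.at_of (h : BC P C Bs lab) {s : Pt × Pt} {n n' : ℕ} {v : Pt}
    (hI : Inr C lab s n n' v) {j : ℕ} (h1 : n < j) (h2 : j ≤ n') : AtC C lab s j v := by
  obtain ⟨e1, e2⟩ := ends h hI.lt'.le hI.btw
  rcases Bool.eq_false_or_eq_true (ltr C lab s n) with hl | hl
  · exact Or.inl (by rw [e1 hl j h1 h2]; exact hI.ad)
  · exact Or.inr (by rw [e2 hl j h1 h2]; exact hI.ad)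

/-- a cross edge is a side of a cell -/
private theorem it_side (h : BC P C Bs lab) {s : Pt × Pt} (hs : s ∈ starts P C lab) {j : ℕ}
    (hj : j ≤ len C lab s) : ∃ t ∈ C, HE t (it C lab s j).1 (it C lab s j).2 ∨
      HE t (it C lab s j).2 (it C lab s j).1 := by
  cases j with
  | zero =>
    rw [it_zero]
    unfold starts at hs
    simp only [Finset.mem_filter, Finset.mem_product] at hs
    exact hs.2.2.1
  | succ j =>
    exact ⟨tr C lab s j, (tr_mem h hj).1, Or.inl ((tr_he h hj).2 (Or.inr (Or.inl ⟨rfl, rfl⟩)))⟩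

/-- an interior vertex occurs in no other strip, and only at the positions `n < j ≤ n'` -/
theorem Inr.occ (h : BC P C Bs lab) {s : Pt × Pt} (hs : s ∈ starts P C lab) {n n' : ℕ} {v : Pt}
    (hI : Inr C lab s n n' v) {s' : Pt × Pt} (hs' : s' ∈ starts P C lab) {j : ℕ}
    (hj : j ≤ len C lab s') (ha : AtC C lab s' j v) : s' = s ∧ n < j ∧ j ≤ n' := by
  have hlt := hI.lt
  have hlt' := hI.lt'
  obtain ⟨t, ht, hte⟩ := it_side h hs' hj
  have hl := it_lt h hs' hj
  have l1 := (lab_step h (s := s) (n := n) (by omega)).1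
  have l2 := (lab_step h (s := s) (n := n') hlt').1
  rw [← hI.ad] at l1
  rw [← hI.dr] at l2
  -- the other end
  have key : ∀ w, (HE t v w ∨ HE t w v) → lab w ≠ lab v →
      ((v = (it C lab s' j).1 ∧ w = (it C lab s' j).2) ∨
        (v = (it C lab s' j).2 ∧ w = (it C lab s' j).1)) → s' = s ∧ n < j ∧ j ≤ n' := by
    intro w hw hlw hvw
    rcases hI.sides h t ht w hw with k | k | ⟨i, hi1, hi2, k, hwv⟩
    · rw [k] at hlw; exact absurd l1 hlw
    · rw [k] at hlw; exact absurd l2.symm hlw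
    · have hav := hI.at_of h hi1 hi2
      have hl' := it_lt h hs (n := i) (by omega)
      have he : it C lab s' j = it C lab s i := by
        rcases hvw with ⟨k1, k2⟩ | ⟨k1, k2⟩ <;> rcases hav with k3 | k3 <;> rcases k with k4 | k4
        · exact absurd (k4.trans k3.symm) hwv
        · exact Prod.ext (k1.symm.trans k3) (k2.symm.trans k4)
        · rw [← k1, ← k2] at hl
          rw [← k3, ← k4] at hl'
          exact absurd hl (lt_asymm hl')
        · exact absurd (k4.trans k3.symm) hwv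
        · exact absurd (k4.trans k3.symm) hwv
        · rw [← k1, ← k2] at hl
          rw [← k3, ← k4] at hl'
          exact absurd hl (lt_asymm hl')
        · exact Prod.ext (k2.symm.trans k4) (k1.symm.trans k3)
        · exact absurd (k4.trans k3.symm) hwv
      obtain ⟨q1, q2⟩ := it_inj h hs' hs hj (by omega) he
      exact ⟨q1, by omega, by omega⟩
  rcases ha with ha | ha
  · refine key (it C lab s' j).2 ?_ ?_ (Or.inl ⟨ha, rfl⟩)
    · rw [ha]; exact hte
    · rw [ha]; exact hl.ne'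
  · refine key (it C lab s' j).1 ?_ ?_ (Or.inr ⟨ha, rfl⟩)
    · rw [ha]; exact hte.symm
    · rw [ha]; exact hl.ne

theorem Inr.at_iff (h : BC P C Bs lab) {s : Pt × Pt} (hs : s ∈ starts P C lab) {n n' : ℕ}
    {v : Pt} (hI : Inr C lab s n n' v) {j : ℕ} (hj : j ≤ len C lab s) :
    AtC C lab s j v ↔ n < j ∧ j ≤ n' := by
  constructor
  · intro ha
    exact (hI.occ h hs hs hj ha).2
  · intro ha
    exact hI.at_of h ha.1 ha.2

theorem Inr.uniq (h : BC P C Bs lab) {s s' : Pt × Pt} (hs : s ∈ starts P C lab)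
    (hs' : s' ∈ starts P C lab) {n n' k k' : ℕ} {v : Pt} (hI : Inr C lab s n n' v)
    (hI' : Inr C lab s' k k' v) : s = s' ∧ n = k ∧ n' = k' := by
  have a1 := hI.lt
  have a2 := hI.lt'
  have b1 := hI'.lt
  have b2 := hI'.lt'
  obtain ⟨c1, c2, c3⟩ := hI'.occ h hs' hs (j := n + 1) (by omega) (hI.at_of h (by omega) (by omega))
  obtain ⟨d1, d2, d3⟩ := hI.occ h hs hs' (j := k + 1) (by omega) (hI'.at_of h (by omega) (by omega))
  obtain ⟨f1, f2, f3⟩ := hI'.occ h hs' hs (j := n') (by omega) (hI.at_of h (by omega) (by omega))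
  obtain ⟨g1, g2, g3⟩ := hI.occ h hs hs' (j := k') (by omega) (hI'.at_of h (by omega) (by omega))
  exact ⟨c1, by omega, by omega⟩

end Pool.Agent.RFX

end

section

set_option autoImplicit false

/-!
# RFX/HullEq : the hull is spanned by the hull vertices (MP_72a26e_co)
-/

namespace Pool.Agent.RFX

theorem hull_of_he {P P1 : Finset Pt} (hG : Gen P) (h3 : 3 ≤ P.card)
    (hHE : ∀ a b, HE P a b → HE P1 a b) : ∀ s ∈ P, s ∈ convexHull ℝ (P1 : Set Pt) := by
  classical
  obtain ⟨l, _, _, _, _, h5, h6⟩ := exists_hull_list P hG h3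
  intro s hs
  apply convexHull_mono _ (h5 s hs)
  intro x hx
  rw [Finset.mem_coe, List.mem_toFinset] at hx
  obtain ⟨b, hb⟩ := mem_cyc_of_mem l x hx
  exact Finset.mem_coe.2 (hHE x b ((h6 x b).2 hb)).1

end Pool.Agent.RFX

end
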