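import Mathlib
import Pool.Agent.RFM.P06
import Pool.Agent.RFM.P07

set_option autoImplicit false

/-!
# RFM/P10 (MP_72a26e_co): the files RFX/Fill, RFX/Give, RFX/Init, merged to save build time
-/

section

set_option autoImplicit false

/-!
# RFX/Fill : filling a polygon with interior points (MP_72a26e_co, untouched singles)

`fill`: a finite set S in general position with a hull side (a, b) has a connected complex of
convex cells through all its points with |S| - 2 = sum (|t| - 2), which has every other hull side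
of S as a side of a cell and in which at most 3 * (number of non-hull points) points are in two
or more cells.
-/

namespace Pool.Agent.RFX

/-- a point of the open segment a b in general position to the lines of S -/
theorem exists_mid (S : Finset Pt) (hg : Gen S) (a b : Pt) (ha : a ∈ S) (hb : b ∈ S)
    (hab : a ≠ b) : ∃ x y : ℝ, 0 < x ∧ 0 < y ∧ x + y = 1 ∧
      ∀ r ∈ S, ∀ s ∈ S, r ≠ s → orient r s (x • a + y • b) = 0 →
        (r = a ∧ s = b) ∨ (r = b ∧ s = a) := by
  classical
  set F : Finset ℝ := (S ×ˢ S).image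
    (fun e => orient e.1 e.2 a / (orient e.1 e.2 a - orient e.1 e.2 b)) with hF
  have hinf : (Set.Ioo (0 : ℝ) 1).Infinite := Set.Ioo_infinite one_pos
  obtain ⟨τ, hτ, hτF⟩ := hinf.exists_notMem_finset F
  refine ⟨1 - τ, τ, by linarith [hτ.2], hτ.1, by ring, ?_⟩
  intro r hr s hs hrs h0
  rw [orient_comb2 r s a b (1 - τ) τ (by ring)] at h0
  by_contra hno
  push Not at hno
  apply hτF
  rw [hF, Finset.mem_image]
  refine ⟨(r, s), Finset.mem_product.2 ⟨hr, hs⟩, ?_⟩
  simp only
  have hd : orient r s a - orient r s b ≠ 0 := by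
    intro hd
    have e1 : orient r s a = orient r s b := by linarith
    have e2 : orient r s a = 0 := by
      rw [← e1] at h0
      linarith
    have e3 : orient r s b = 0 := by rw [← e1]; exact e2
    have f1 : a = r ∨ a = s := by
      by_contra h
      push Not at h
      exact hg r hr s hs a ha hrs (Ne.symm h.1) (Ne.symm h.2) e2
    have f2 : b = r ∨ b = s := by
      by_contra h
      push Not at h
      exact hg r hr s hs b hb hrs (Ne.symm h.1) (Ne.symm h.2) e3
    rcases f1 with rfl | rfl
    · rcases f2 with rfl | rfl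
      · exact hab rfl
      · exact hno.1 rfl rfl
    · rcases f2 with rfl | rfl
      · exact hno.2 rfl rfl
      · exact hab rfl
  rw [div_eq_iff hd]
  linarith

theorem exists_apex (S : Finset Pt) (hg : Gen S) (h3 : 3 ≤ S.card) (a b : Pt) (hab : HE S a b) :
    ∃ o : Pt, orient a b o < 0 ∧ (∀ x y, HE S x y → (x, y) ≠ (a, b) → 0 < orient x y o) ∧
      (∀ r ∈ S, ∀ s ∈ S, r ≠ s → orient o r s ≠ 0) := by
  classical
  obtain ⟨x, y, hx, hy, hxy, hm⟩ := exists_mid S hg a b hab.1 hab.2.1 hab.2.2.1
  set m : Pt := x • a + y • b with hmdef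
  obtain ⟨c, hc, hca, hcb⟩ := HE.exists_third (t := S) a b h3
  have hc0 : 0 < orient a b c := hab.2.2.2 c hc hca hcb
  -- small epsilon
  have hev : ∀ᶠ e : ℝ in nhdsWithin 0 (Set.Ioi 0), ∀ p ∈ S ×ˢ S, orient p.1 p.2 m ≠ 0 →
      0 < orient p.1 p.2 m * ((1 + e) * orient p.1 p.2 m + (- e) * orient p.1 p.2 c) := by
    rw [Filter.eventually_all_finset]
    intro p hp
    by_cases h0 : orient p.1 p.2 m = 0
    · exact Filter.Eventually.of_forall (fun e h => absurd h0 h)
    · have hcont : Continuous (fun e : ℝ =>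
          orient p.1 p.2 m * ((1 + e) * orient p.1 p.2 m + (- e) * orient p.1 p.2 c)) := by
        fun_prop
      have hpos : 0 < orient p.1 p.2 m * ((1 + (0 : ℝ)) * orient p.1 p.2 m +
          (- (0 : ℝ)) * orient p.1 p.2 c) := by
        have : orient p.1 p.2 m * ((1 + (0 : ℝ)) * orient p.1 p.2 m +
          (- (0 : ℝ)) * orient p.1 p.2 c) = orient p.1 p.2 m * orient p.1 p.2 m := by ring
        rw [this]
        exact mul_self_pos.2 h0
      have h5 := (hcont.continuousAt (x := (0 : ℝ))).eventually (lt_mem_nhds hpos)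
      have h6 := h5.filter_mono (nhdsWithin_le_nhds (s := Set.Ioi (0 : ℝ)))
      exact h6.mono (fun e he _ => he)
  have hev2 : ∀ᶠ e : ℝ in nhdsWithin 0 (Set.Ioi 0), 0 < e :=
    eventually_nhdsWithin_of_forall (fun e he => he)
  obtain ⟨e, he1, he2⟩ := (hev.and hev2).exists
  refine ⟨(1 + e) • m + (- e) • c, ?_, ?_, ?_⟩
  · rw [orient_comb2 a b m c (1 + e) (- e) (by ring)]
    have h5 : orient a b m = 0 := by
      rw [hmdef, orient_comb2 a b a b x y hxy, orient_self2, orient_self3]; ring
    rw [h5]
    have := mul_pos he2 hc0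
    linarith
  · intro p q hpq hne
    rw [orient_comb2 p q m c (1 + e) (- e) (by ring)]
    have h5 : 0 ≤ orient p q m := by
      rw [hmdef, orient_comb2 p q a b x y hxy]
      have := mul_nonneg hx.le (hpq.nonneg a hab.1)
      have := mul_nonneg hy.le (hpq.nonneg b hab.2.1)
      linarith
    have h6 : orient p q m ≠ 0 := by
      intro h0
      rcases hm p hpq.1 q hpq.2.1 hpq.2.2.1 h0 with ⟨rfl, rfl⟩ | ⟨rfl, rfl⟩
      · exact hne rfl
      · exact hab.not_both hpq h3
    have h7 := he1 (p, q) (Finset.mem_product.2 ⟨hpq.1, hpq.2.1⟩) h6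
    simp only at h7
    exact (mul_pos_iff_of_pos_left (lt_of_le_of_ne h5 (Ne.symm h6))).1 h7
  · intro r hr s hs hrs
    have h4 : orient ((1 + e) • m + (- e) • c) r s = orient r s ((1 + e) • m + (- e) • c) :=
      (orient_rot _ r s).symm
    rw [h4, orient_comb2 r s m c (1 + e) (- e) (by ring)]
    by_cases h6 : orient r s m = 0
    · rw [h6]
      have h7 : orient r s c ≠ 0 := by
        rcases hm r hr s hs hrs h6 with ⟨rfl, rfl⟩ | ⟨rfl, rfl⟩
        · exact hc0.ne'
        · rw [orient_swap]
          exact neg_ne_zero.2 hc0.ne'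
      intro h0
      have h8 : e * orient r s c = 0 := by linarith
      rcases mul_eq_zero.1 h8 with h | h
      · linarith
      · exact h7 h
    · have h7 := he1 (r, s) (Finset.mem_product.2 ⟨hr, hs⟩) h6
      simp only at h7
      intro h0
      rw [h0, mul_zero] at h7
      exact lt_irrefl _ h7

/-- FILL: see the header -/
theorem fill (S : Finset Pt) (hS : Gen S) (h3 : 3 ≤ S.card) (a b : Pt) (hab : HE S a b) :
    ∃ T : Finset (Finset Pt), Cx T ∧ T.Nonempty ∧ Conn T ∧ V T = S ∧
      ∑ t ∈ T, (t.card - 2) + 2 = S.card ∧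
      (∀ x y, HE S x y → (x, y) ≠ (a, b) → ∃ t ∈ T, HE t x y) ∧
      (multi S T).card ≤ 3 *
        (open Classical in S.filter (fun p => ¬ ∃ y, HE S y p)).card := by
  classical
  obtain ⟨o, ho1, ho2, ho3⟩ := exists_apex S hS h3 a b hab
  have hc : ∀ r ∈ S, 0 < orient o (o + (b - a)) r := by
    intro r hr
    have key : orient o (o + (b - a)) r = orient a b r - orient a b o := by
      unfold orient
      simp only [Prod.fst_add, Prod.snd_add, Prod.fst_sub, Prod.snd_sub]
      ring
    rw [key]
    have := hab.nonneg r hr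
    linarith
  obtain ⟨T, c1, c2, c3, c4, c5, c6, c7⟩ := fan o (o + (b - a)) S.card S rfl (by omega) hS hc ho3
  refine ⟨T, c1, ?_, c2, c4 h3, c5, ?_, ?_⟩
  · rw [Finset.nonempty_iff_ne_empty]
    rintro rfl
    rw [Finset.sum_empty] at c5
    omega
  · intro x y hxy hne
    apply c6 h3 x y hxy
    have := ho2 x y hxy hne
    rwa [orient_rot] at this
  · refine c7.trans (Nat.mul_le_mul_left 3 (Finset.card_le_card ?_))
    intro p hp
    rw [mem_inner] at hp
    obtain ⟨hpS, s, hs, t, ht, h1, h2, h4⟩ := hp
    rw [Finset.mem_filter]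
    refine ⟨hpS, ?_⟩
    rintro ⟨y, hy⟩
    -- a hull side at p different from (a, b)
    have key : ∀ x z, HE S x z → (x, z) ≠ (a, b) → orient x z p = 0 → False := by
      intro x z hxz hne h0
      have f0 := ho2 x z hxz hne
      have f1 := hxz.nonneg s hs
      have f2 := hxz.nonneg t ht
      have wt : orient s t p * orient x z o + orient o p t * orient x z s
          + orient o s p * orient x z t = orient o s t * orient x z p := by
        unfold orient; ring
      rw [h0, mul_zero] at wt
      have g0 := mul_pos h4 f0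
      have g1 := mul_nonneg h2.le f1
      have g2 := mul_nonneg h1.le f2
      linarith
    by_cases hne : (y, p) = (a, b)
    · rw [Prod.mk.injEq] at hne
      obtain ⟨rfl, rfl⟩ := hne
      obtain ⟨l, l1, l2, l3, l4, l5, l6⟩ := exists_hull_list S hS h3
      have h5 : (y, p) ∈ cyc l := (l6 y p).1 hab
      obtain ⟨z, hz⟩ := mem_cyc_of_mem l p (mem_of_mem_cyc l y p h5).2
      have h6 : HE S p z := (l6 p z).2 hz
      apply key p z h6
      · intro h
        rw [Prod.mk.injEq] at h
        exact hab.2.2.1 h.1.symm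
      · exact orient_self2 p z
    · exact key y p hy hne (orient_self3 y p)

end Pool.Agent.RFX

end

section

set_option autoImplicit false

/-!
# RFX/Give : giving the triangles of a tree over a closed dart (MP_72a26e_co)

`Mg J L` : the relation `J` after joining the classes of the points of `L`.
`ZT.Good C t x y` : the nodes of the tree over `(x, y)` are cells of `C`, correctly oriented.
`give_tree` : if `(x, y)` is closed and the apexes of `t` are pairwise unjoined and not joined to `x`, then
all triangles of `t` can be given.  `slit_mg`, `give_mg`, `give_tree_mg` : the new relation Joined.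
-/

namespace Pool.Agent.RFX

/-- the relation `J` after joining the classes of all points of `L` -/
def Mg (J : Pt → Pt → Prop) (L : Set Pt) (u v : Pt) : Prop :=
  J u v ∨ ∃ p ∈ L, ∃ q ∈ L, J u p ∧ J q v

theorem Mg.mono {J : Pt → Pt → Prop} {L L' : Set Pt} (h : L ⊆ L') {u v : Pt}
    (hm : Mg J L u v) : Mg J L' u v := by
  rcases hm with h1 | ⟨p, hp, q, hq, h1, h2⟩
  · exact Or.inl h1
  · exact Or.inr ⟨p, h hp, q, h hq, h1, h2⟩

theorem Mg.trans {J : Pt → Pt → Prop} {L : Set Pt} (ht : ∀ a b c, J a b → J b c → J a c)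
    {u v w : Pt} (h1 : Mg J L u v) (h2 : Mg J L v w) : Mg J L u w := by
  rcases h1 with h1 | ⟨p, hp, q, hq, h3, h4⟩
  · rcases h2 with h2 | ⟨p', hp', q', hq', h5, h6⟩
    · exact Or.inl (ht _ _ _ h1 h2)
    · exact Or.inr ⟨p', hp', q', hq', ht _ _ _ h1 h5, h6⟩
  · rcases h2 with h2 | ⟨p', hp', q', hq', h5, h6⟩
    · exact Or.inr ⟨p, hp, q, hq, h3, ht _ _ _ h4 h2⟩
    · exact Or.inr ⟨p, hp, q', hq', h3, h6⟩

/-- joining twice -/
theorem Mg_comp {J : Pt → Pt → Prop} (hr : ∀ a, J a a) {L1 L2 : Set Pt} {z : Pt} (h1 : z ∈ L1)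
    (h2 : z ∈ L2) (u v : Pt) : Mg (Mg J L1) L2 u v ↔ Mg J (L1 ∪ L2) u v := by
  constructor
  · rintro (h | ⟨p, hp, q, hq, h3, h4⟩)
    · exact h.mono Set.subset_union_left
    · have h5 : ∃ p' ∈ L1 ∪ L2, J u p' := by
        rcases h3 with h | ⟨p', hp', q', hq', h, h'⟩
        · exact ⟨p, Or.inr hp, h⟩
        · exact ⟨p', Or.inl hp', h⟩
      have h6 : ∃ q' ∈ L1 ∪ L2, J q' v := by
        rcases h4 with h | ⟨p', hp', q', hq', h, h'⟩
        · exact ⟨q, Or.inr hq, h⟩
        · exact ⟨q', Or.inl hq', h'⟩
      obtain ⟨p', hp', h5⟩ := h5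
      obtain ⟨q', hq', h6⟩ := h6
      exact Or.inr ⟨p', hp', q', hq', h5, h6⟩
  · rintro (h | ⟨p, hp, q, hq, h3, h4⟩)
    · exact Or.inl (Or.inl h)
    · rcases hp with hp | hp
      · rcases hq with hq | hq
        · exact Or.inl (Or.inr ⟨p, hp, q, hq, h3, h4⟩)
        · exact Or.inr ⟨z, h2, q, hq, Or.inr ⟨p, hp, z, h1, h3, hr z⟩, Or.inl h4⟩
      · rcases hq with hq | hq
        · exact Or.inr ⟨p, hp, z, h2, Or.inl h3, Or.inr ⟨z, h1, q, hq, hr z, h4⟩⟩
        · exact Or.inr ⟨p, hp, q, hq, Or.inl h3, Or.inl h4⟩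

/-- the relation Joined after adding pairs -/
theorem joined_iff_mg {Cl Cl' : Finset (Pt × Pt)} {L : Set Pt} (hsub : Cl ⊆ Cl')
    (hnew : ∀ a b, (a, b) ∈ Cl' → Mg (Joined Cl) L a b)
    (hL : ∀ p ∈ L, ∀ q ∈ L, Joined Cl' p q) (u v : Pt) :
    Joined Cl' u v ↔ Mg (Joined Cl) L u v := by
  constructor
  · intro h
    induction h with
    | refl => exact Or.inl (Joined.refl _ _)
    | tail _ h2 ih => exact Mg.trans (J := Joined Cl) (fun _ _ _ h h' => Joined.trans h h') ih (hnew _ _ h2)
  · rintro (h | ⟨p, hp, q, hq, h1, h2⟩)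
    · exact h.mono hsub
    · exact ((h1.mono hsub).trans (hL p hp q hq)).trans (h2.mono hsub)

/-- Joined after a slit -/
theorem slit_mg (Cl : Finset (Pt × Pt)) (a b : Pt) (u v : Pt) :
    Joined (insert (a, b) (insert (b, a) Cl)) u v ↔ Mg (Joined Cl) {a, b} u v := by
  apply joined_iff_mg
  · intro e he; simp [he]
  · intro c d h
    simp only [Finset.mem_insert, Prod.mk.injEq] at h
    rcases h with ⟨rfl, rfl⟩ | ⟨rfl, rfl⟩ | h
    · exact Or.inr ⟨c, by simp, d, by simp, Joined.refl _ _, Joined.refl _ _⟩
    · exact Or.inr ⟨c, by simp, d, by simp, Joined.refl _ _, Joined.refl _ _⟩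
    · exact Or.inl (Joined.single h)
  · intro p hp q hq
    have hab : Joined (insert (a, b) (insert (b, a) Cl)) a b := Joined.single (by simp)
    have hba : Joined (insert (a, b) (insert (b, a) Cl)) b a := Joined.single (by simp)
    simp only [Set.mem_insert_iff, Set.mem_singleton_iff] at hp hq
    rcases hp with rfl | rfl <;> rcases hq with rfl | rfl
    · exact Joined.refl _ _
    · exact hab
    · exact hba
    · exact Joined.refl _ _

/-- Joined after giving one triangle -/
theorem give_mg (Cl : Finset (Pt × Pt)) (hs : ∀ a b, (a, b) ∈ Cl → (b, a) ∈ Cl) (x y a : Pt)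
    (hxy : (x, y) ∈ Cl) (u v : Pt) :
    Joined (insert (y, a) (insert (a, y) (insert (a, x) (insert (x, a) Cl)))) u v ↔
      Mg (Joined Cl) {x, a} u v := by
  have hyx := Joined.single (hs _ _ hxy)
  have hxy' := Joined.single hxy
  apply joined_iff_mg
  · intro e he; simp [he]
  · intro c d h
    simp only [Finset.mem_insert, Prod.mk.injEq] at h
    rcases h with ⟨rfl, rfl⟩ | ⟨rfl, rfl⟩ | ⟨rfl, rfl⟩ | ⟨rfl, rfl⟩ | h
    · exact Or.inr ⟨x, by simp, d, by simp, hyx, Joined.refl _ _⟩
    · exact Or.inr ⟨c, by simp, x, by simp, Joined.refl _ _, hxy'⟩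
    · exact Or.inr ⟨c, by simp, d, by simp, Joined.refl _ _, Joined.refl _ _⟩
    · exact Or.inr ⟨c, by simp, d, by simp, Joined.refl _ _, Joined.refl _ _⟩
    · exact Or.inl (Joined.single h)
  · intro p hp q hq
    have hxa : Joined (insert (y, a) (insert (a, y) (insert (a, x) (insert (x, a) Cl)))) x a :=
      Joined.single (by simp)
    have hax : Joined (insert (y, a) (insert (a, y) (insert (a, x) (insert (x, a) Cl)))) a x :=
      Joined.single (by simp)
    simp only [Set.mem_insert_iff, Set.mem_singleton_iff] at hp hq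
    rcases hp with rfl | rfl <;> rcases hq with rfl | rfl
    · exact Joined.refl _ _
    · exact hxa
    · exact hax
    · exact Joined.refl _ _

namespace ZT

/-- the nodes of the tree over `(x, y)` are triangles of `C`, correctly oriented -/
def Good (C : Finset (Finset Pt)) : ZT → Pt → Pt → Prop
  | leaf _, _, _ => True
  | cut, _, _ => True
  | node a l r, x, y => ({x, y, a} : Finset Pt) ∈ C ∧ ({x, y, a} : Finset Pt).card = 3 ∧
      HE {x, y, a} x y ∧ HE {x, y, a} y a ∧ HE {x, y, a} a x ∧ Good C l x a ∧ Good C r a y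

/-- giving all triangles of a tree over a closed dart -/
theorem give_tree {P : Finset Pt} {C : Finset (Finset Pt)} (t : ZT) :
    ∀ (x y : Pt) (E : Finset (Finset Pt)) (Cl : Finset (Pt × Pt)), Reach P C E Cl →
      (∀ a b, (a, b) ∈ Cl → (b, a) ∈ Cl) → (x, y) ∈ Cl → t.Good C x y →
      (∀ a ∈ t.apex, ¬ Joined Cl x a) → t.apex.Pairwise (fun a b => ¬ Joined Cl a b) →
      Reach P C (E ∪ t.cells x y) (Cl ∪ t.sides x y) ∧
      (∀ a b, (a, b) ∈ Cl ∪ t.sides x y → (b, a) ∈ Cl ∪ t.sides x y) ∧
      (∀ u v, Joined (Cl ∪ t.sides x y) u v ↔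
        Mg (Joined Cl) {p | p = x ∨ p ∈ t.apex} u v) := by
  have triv : ∀ (Cl : Finset (Pt × Pt)) (x u v : Pt),
      Joined Cl u v ↔ Mg (Joined Cl) {p | p = x ∨ p ∈ ([] : List Pt)} u v := by
    intro Cl x u v
    constructor
    · intro h; exact Or.inl h
    · rintro (h | ⟨p, hp, q, hq, h1, h2⟩)
      · exact h
      · simp only [List.not_mem_nil, or_false, Set.mem_setOf_eq] at hp hq
        subst hp
        rw [hq] at h2
        exact h1.trans h2
  induction t with
  | leaf f =>
    intro x y E Cl hR hs hxy hG hne hpw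
    simp only [cells, sides, apex, Finset.union_empty]
    exact ⟨hR, hs, triv Cl x⟩
  | cut =>
    intro x y E Cl hR hs hxy hG hne hpw
    simp only [cells, sides, apex, Finset.union_empty]
    exact ⟨hR, hs, triv Cl x⟩
  | node a l r ihl ihr =>
    intro x y E Cl hR hs hxy hG hne hpw
    obtain ⟨g1, g2, g3, g4, g5, gl, gr⟩ := hG
    simp only [apex] at hne hpw
    rw [List.pairwise_append, List.pairwise_cons] at hpw
    obtain ⟨pl, ⟨par, pr⟩, plr⟩ := hpw
    have hxa : ¬ Joined Cl x a := hne a (by simp)
    have hR1 : Reach P C (insert {x, y, a} E)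
        (insert (y, a) (insert (a, y) (insert (a, x) (insert (x, a) Cl)))) :=
      Reach.give E Cl x y a _ hR g1 g2 g3 g4 g5 hxy hxa
    have m1 := give_mg Cl hs x y a hxy
    generalize hCl1 : (insert (y, a) (insert (a, y) (insert (a, x) (insert (x, a) Cl)))) = Cl1
      at hR1 m1
    have hs1 : ∀ b c, (b, c) ∈ Cl1 → (c, b) ∈ Cl1 := by
      intro b c h
      rw [← hCl1] at h ⊢
      simp only [Finset.mem_insert, Prod.mk.injEq] at h ⊢
      rcases h with ⟨rfl, rfl⟩ | ⟨rfl, rfl⟩ | ⟨rfl, rfl⟩ | ⟨rfl, rfl⟩ | h
      · simp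
      · simp
      · simp
      · simp
      · have := hs _ _ h
        simp [this]
    have e1 : Joined Cl1 = Mg (Joined Cl) {x, a} := by
      funext u v; exact propext (m1 u v)
    -- the left subtree
    have nl : ∀ q, q = x ∨ q = a → ∀ b ∈ apex l, ¬ Joined Cl q b := by
      rintro q (rfl | rfl) b hb hj
      · exact hne b (by simp [hb]) hj
      · exact plr b hb q (by simp) (hj.symm hs)
    obtain ⟨hR2, hs2, m2⟩ := ihl x a (insert {x, y, a} E) Cl1 hR1 hs1
      (by rw [← hCl1]; simp) gl
      (by
        intro b hb hj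
        rw [e1] at hj
        rcases hj with h | ⟨p, hp, q, hq, h1, h2⟩
        · exact nl x (Or.inl rfl) b hb h
        · exact nl q (by simpa using hq) b hb h2)
      (by
        apply pl.imp_of_mem
        intro b c hb hc hbc hj
        rw [e1] at hj
        rcases hj with h | ⟨p, hp, q, hq, h1, h2⟩
        · exact hbc h
        · exact nl q (by simpa using hq) c hc h2)
    have e2 : Joined (Cl1 ∪ l.sides x a) =
        Mg (Joined Cl) ({x, a} ∪ {p | p = x ∨ p ∈ apex l}) := by
      funext u v
      rw [← propext (Mg_comp (J := Joined Cl) (Joined.refl Cl) (z := x) (L1 := {x, a})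
        (L2 := {p | p = x ∨ p ∈ apex l}) (by simp) (by simp) u v), ← e1]
      exact propext (m2 u v)
    have nr : ∀ q, (q = x ∨ q = a) ∨ q ∈ apex l → ∀ b ∈ apex r, ¬ Joined Cl q b := by
      rintro q ((rfl | rfl) | hq) b hb hj
      · exact hne b (by simp [hb]) hj
      · exact par b hb hj
      · exact plr q hq b (by simp [hb]) hj
    have hL2 : ∀ q, q ∈ (({x, a} : Set Pt) ∪ {p | p = x ∨ p ∈ apex l}) →
        (q = x ∨ q = a) ∨ q ∈ apex l := by
      intro q hq
      simp only [Set.mem_union, Set.mem_insert_iff, Set.mem_singleton_iff,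
        Set.mem_setOf_eq] at hq
      tauto
    obtain ⟨hR3, hs3, m3⟩ := ihr a y (insert {x, y, a} E ∪ l.cells x a) (Cl1 ∪ l.sides x a)
      hR2 hs2 (by rw [← hCl1]; simp) gr
      (by
        intro b hb hj
        rw [e2] at hj
        rcases hj with h | ⟨p, hp, q, hq, h1, h2⟩
        · exact nr a (Or.inl (Or.inr rfl)) b hb h
        · exact nr q (hL2 q hq) b hb h2)
      (by
        apply pr.imp_of_mem
        intro b c hb hc hbc hj
        rw [e2] at hj
        rcases hj with h | ⟨p, hp, q, hq, h1, h2⟩
        · exact hbc h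
        · exact nr q (hL2 q hq) c hc h2)
    have c1 : E ∪ (node a l r).cells x y = insert {x, y, a} E ∪ l.cells x a ∪ r.cells a y := by
      ext c
      simp only [cells, Finset.mem_union, Finset.mem_insert]
      tauto
    have c2 : Cl ∪ (node a l r).sides x y = Cl1 ∪ l.sides x a ∪ r.sides a y := by
      ext c
      rw [← hCl1]
      simp only [sides, Finset.mem_union, Finset.mem_insert, Finset.mem_singleton]
      tauto
    rw [c1, c2]
    refine ⟨hR3, hs3, ?_⟩
    intro u v
    rw [m3 u v, e2, Mg_comp (J := Joined Cl) (Joined.refl Cl) (z := a) (by simp) (by simp) u v]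
    have hset : ({x, a} ∪ {p | p = x ∨ p ∈ apex l} : Set Pt) ∪ {p | p = a ∨ p ∈ apex r} =
        {p | p = x ∨ p ∈ (node a l r).apex} := by
      ext q
      simp only [Set.mem_union, Set.mem_insert_iff, Set.mem_singleton_iff, Set.mem_setOf_eq, apex,
        List.mem_append, List.mem_cons]
      tauto
    rw [hset]

theorem Good.cutAt {C : Finset (Finset Pt)} {p : Pt} {t : ZT} : ∀ {x y : Pt},
    t.Good C x y → (t.cutAt p).Good C x y := by
  induction t with
  | leaf f => intro x y h; trivial
  | cut => intro x y h; trivial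
  | node a l r ihl ihr =>
    intro x y h
    obtain ⟨g1, g2, g3, g4, g5, gl, gr⟩ := h
    unfold ZT.cutAt
    split_ifs with h1 h2
    · trivial
    · exact ⟨g1, g2, g3, g4, g5, ihl gl, gr⟩
    · exact ⟨g1, g2, g3, g4, g5, gl, ihr gr⟩

theorem Good.sub {C : Finset (Finset Pt)} {p : Pt} {t : ZT} {x' y' : Pt} {V : ZT} :
    ∀ {x y : Pt}, t.Good C x y → t.sub p x y = some (x', y', V) → V.Good C x' y' := by
  induction t with
  | leaf f => intro x y h h'; simp [ZT.sub] at h'
  | cut => intro x y h h'; simp [ZT.sub] at h'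
  | node a l r ihl ihr =>
    intro x y h h'
    unfold ZT.sub at h'
    split_ifs at h' with h1 h2
    · simp only [Option.some.injEq, Prod.mk.injEq] at h'
      obtain ⟨rfl, rfl, rfl⟩ := h'
      exact h
    · exact ihl h.2.2.2.2.2.1 h'
    · exact ihr h.2.2.2.2.2.2 h'

theorem Good.mono {C C' : Finset (Finset Pt)} (hC : C ⊆ C') {t : ZT} :
    ∀ {x y : Pt}, t.Good C x y → t.Good C' x y := by
  induction t with
  | leaf f => intro x y h; trivial
  | cut => intro x y h; trivial
  | node a l r ihl ihr =>
    intro x y h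
    obtain ⟨g1, g2, g3, g4, g5, gl, gr⟩ := h
    exact ⟨hC g1, g2, g3, g4, g5, ihl gl, ihr gr⟩

theorem Good.cells_sub {C : Finset (Finset Pt)} {t : ZT} :
    ∀ {x y : Pt}, t.Good C x y → t.cells x y ⊆ C := by
  induction t with
  | leaf f => intro x y h; simp [cells]
  | cut => intro x y h; simp [cells]
  | node a l r ihl ihr =>
    intro x y h
    obtain ⟨g1, g2, g3, g4, g5, gl, gr⟩ := h
    intro c hc
    simp only [cells, Finset.mem_insert, Finset.mem_union] at hc
    rcases hc with rfl | hc | hc
    · exact g1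
    · exact ihl gl hc
    · exact ihr gr hc

/-- the sides of the outer part contain the base of the subtree, unless the subtree is everything -/
theorem base_mem_sides {p : Pt} {t : ZT} {x' y' : Pt} {V : ZT} : ∀ {x y : Pt},
    t.sub p x y = some (x', y', V) →
    (x' = x ∧ y' = y ∧ V = t) ∨ (x', y') ∈ (t.cutAt p).sides x y := by
  induction t with
  | leaf f => intro x y h'; simp [ZT.sub] at h'
  | cut => intro x y h'; simp [ZT.sub] at h'
  | node a l r ihl ihr =>
    intro x y h'
    unfold ZT.sub at h'
    unfold ZT.cutAt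
    split_ifs at h' with h1 h2
    · simp only [Option.some.injEq, Prod.mk.injEq] at h'
      obtain ⟨rfl, rfl, rfl⟩ := h'
      exact Or.inl ⟨rfl, rfl, rfl⟩
    · rw [if_neg h1, if_pos h2]
      rcases ihl h' with ⟨rfl, rfl, rfl⟩ | h
      · right; simp [sides]
      · right; simp [sides, h]
    · rw [if_neg h1, if_neg h2]
      rcases ihr h' with ⟨rfl, rfl, rfl⟩ | h
      · right; simp [sides]
      · right; simp [sides, h]

end ZT

end Pool.Agent.RFX

end

section

set_option autoImplicit false

/-!
# RFX/Init : the initial phase (MP_72a26e_co, section 5; helper25's form 'CLOSE on every closed side')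

The closed free darts `gs` are processed one after the other.  Over `g = (x, y)` stands the tree `t g`.
If some apex `r` of `t g` is joined to `x`, everything outside the subtree of `r` is given and the subtree
becomes a GATE; otherwise everything is given.  Invariant: different apexes which are not yet given are
not joined.
-/

namespace Pool.Agent.RFX

open ZT

/-- what is done with the tree over `g`: `none` = everything given, `some r` = gate with apex `r` -/
structure Gate where
  r : Pt
  x : Pt
  y : Pt
  V : ZT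

/-- the given part of a tree -/
noncomputable def gpart (t : ZT) : Option Gate → ZT
  | none => t
  | some G => t.cutAt G.r

/-- apexes which are kept -/
def kept : Option Gate → List Pt
  | none => []
  | some G => G.V.apex

structure InitOut (P : Finset Pt) (C E0 : Finset (Finset Pt)) (Cl0 : Finset (Pt × Pt))
    (t : Pt × Pt → ZT) (A : Set Pt) (gs : List (Pt × Pt)) (E : Finset (Finset Pt))
    (Cl : Finset (Pt × Pt)) (gate : Pt × Pt → Option Gate) : Prop where
  reach : Reach P C E Cl
  symm : ∀ a b, (a, b) ∈ Cl → (b, a) ∈ Cl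
  E_mem : ∀ c, c ∈ E ↔ c ∈ E0 ∨ ∃ g ∈ gs, c ∈ (gpart (t g) (gate g)).cells g.1 g.2
  Cl_mem : ∀ p, p ∈ Cl ↔ p ∈ Cl0 ∨ ∃ g ∈ gs, p ∈ (gpart (t g) (gate g)).sides g.1 g.2
  /-- the gates -/
  gate_sub : ∀ g ∈ gs, ∀ G, gate g = some G → (t g).sub G.r g.1 g.2 = some (G.x, G.y, G.V)
  gate_ap : ∀ g ∈ gs, ∀ G, gate g = some G → G.r ∈ (t g).apex
  gate_cl : ∀ g ∈ gs, ∀ G, gate g = some G → (G.x, G.y) ∈ Cl
  gate_joined : ∀ g ∈ gs, ∀ G, gate g = some G → Joined Cl G.x G.r
  gate_none : ∀ g ∉ gs, gate g = none
  /-- hosted apexes are pairwise unjoined -/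
  host : ∀ a b, a ≠ b → (a ∈ A ∨ ∃ g ∈ gs, a ∈ kept (gate g)) →
    (b ∈ A ∨ ∃ g ∈ gs, b ∈ kept (gate g)) → ¬ Joined Cl a b

/-- hosted apexes stay unjoined when the given apexes are joined to `x` -/
theorem host_step {J : Pt → Pt → Prop} (hsy : ∀ a b, J a b → J b a)
    (htr : ∀ a b c, J a b → J b c → J a c) {H : Set Pt} (hH : ∀ a ∈ H, ∀ b ∈ H, a ≠ b → ¬ J a b)
    {x : Pt} {l : List Pt} (hl : ∀ a ∈ l, a ∈ H) {a b : Pt} (ha : a ∈ H) (hb : b ∈ H)
    (hal : a ∉ l) (hbl : b ∉ l) (hab : a ≠ b) : ¬ Mg J {p | p = x ∨ p ∈ l} a b := by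
  rintro (h | ⟨p, hp, q, hq, h1, h2⟩)
  · exact hH a ha b hb hab h
  · have hp' : p = x := by
      rcases hp with hp | hp
      · exact hp
      · exfalso
        have hne : a ≠ p := by rintro rfl; exact hal hp
        exact hH a ha p (hl p hp) hne h1
    have hq' : q = x := by
      rcases hq with hq | hq
      · exact hq
      · exfalso
        have hne : q ≠ b := by rintro rfl; exact hbl hq
        exact hH q (hl q hq) b hb hne h2
    subst hp'
    subst hq'
    exact hH a ha b hb hab (htr _ _ _ h1 h2)

/-- the initial phase -/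
theorem exists_init {P : Finset Pt} {C E0 : Finset (Finset Pt)} {Cl0 : Finset (Pt × Pt)}
    (hR : Reach P C E0 Cl0) (hs : ∀ a b, (a, b) ∈ Cl0 → (b, a) ∈ Cl0) (t : Pt × Pt → ZT)
    (gs : List (Pt × Pt)) :
    ∀ (A : Set Pt), gs.Nodup → (∀ g ∈ gs, g ∈ Cl0) → (∀ g ∈ gs, (t g).Good C g.1 g.2) →
    (∀ g ∈ gs, (t g).apex.Nodup) →
    (∀ g ∈ gs, ∀ g' ∈ gs, ∀ a, a ∈ (t g).apex → a ∈ (t g').apex → g = g') →
    (∀ g ∈ gs, ∀ a ∈ (t g).apex, a ∉ A) →
    (∀ a b, a ≠ b → (a ∈ A ∨ ∃ g ∈ gs, a ∈ (t g).apex) → (b ∈ A ∨ ∃ g ∈ gs, b ∈ (t g).apex) →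
      ¬ Joined Cl0 a b) →
    ∃ E Cl gate, InitOut P C E0 Cl0 t A gs E Cl gate := by
  classical
  induction gs with
  | nil =>
    intro A _ _ _ _ _ _ hu
    refine ⟨E0, Cl0, fun _ => none, ?_⟩
    constructor
    · exact hR
    · exact hs
    · intro c; simp
    · intro p; simp
    · intro g hg; simp at hg
    · intro g hg; simp at hg
    · intro g hg; simp at hg
    · intro g hg; simp at hg
    · intro g _; rfl
    · intro a b hab ha hb
      apply hu a b hab
      · rcases ha with ha | ⟨g, hg, _⟩
        · exact Or.inl ha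
        · simp at hg
      · rcases hb with hb | ⟨g, hg, _⟩
        · exact Or.inl hb
        · simp at hg
  | cons g gs ih =>
    intro A hnd hcl hG hN hdis hA hu
    rw [List.nodup_cons] at hnd
    obtain ⟨hgn, hnd⟩ := hnd
    -- first the others, the apexes of `t g` are hosted
    obtain ⟨E', Cl', gate', I⟩ := ih (A ∪ {a | a ∈ (t g).apex}) hnd
      (fun g' hg' => hcl g' (List.mem_cons_of_mem _ hg'))
      (fun g' hg' => hG g' (List.mem_cons_of_mem _ hg'))
      (fun g' hg' => hN g' (List.mem_cons_of_mem _ hg'))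
      (fun g' hg' g'' hg'' => hdis g' (List.mem_cons_of_mem _ hg') g'' (List.mem_cons_of_mem _ hg''))
      (by
        rintro g' hg' a ha (h | h)
        · exact hA g' (List.mem_cons_of_mem _ hg') a ha h
        · have := hdis g' (List.mem_cons_of_mem _ hg') g List.mem_cons_self a ha h
          subst this
          exact hgn hg')
      (by
        have key : ∀ a, (a ∈ A ∪ {a | a ∈ (t g).apex} ∨ ∃ g' ∈ gs, a ∈ (t g').apex) →
            (a ∈ A ∨ ∃ g' ∈ g :: gs, a ∈ (t g').apex) := by
          rintro a ((h | h) | ⟨g', hg', h⟩)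
          · exact Or.inl h
          · exact Or.inr ⟨g, List.mem_cons_self, h⟩
          · exact Or.inr ⟨g', List.mem_cons_of_mem _ hg', h⟩
        intro a b hab ha hb
        exact hu a b hab (key a ha) (key b hb))
    have hgate : gate' g = none := I.gate_none g hgn
    have hgcl' : (g.1, g.2) ∈ Cl' := by
      have := (I.Cl_mem g).2 (Or.inl (hcl g List.mem_cons_self))
      exact this
    have hsy : ∀ a b, Joined Cl' a b → Joined Cl' b a := fun a b h => h.symm I.symm
    have htr : ∀ a b c, Joined Cl' a b → Joined Cl' b c → Joined Cl' a c :=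
      fun a b c h h' => h.trans h'
    -- hosted points
    set H : Set Pt := {a | a ∈ A ∪ {a | a ∈ (t g).apex} ∨ ∃ g' ∈ gs, a ∈ kept (gate' g')} with hHdef
    have hH : ∀ a ∈ H, ∀ b ∈ H, a ≠ b → ¬ Joined Cl' a b :=
      fun a ha b hb hab => I.host a b hab ha hb
    have hapH : ∀ a ∈ (t g).apex, a ∈ H := fun a ha => Or.inl (Or.inr ha)
    have hkept : ∀ g' ∈ gs, ∀ a ∈ kept (gate' g'), a ∈ (t g').apex := by
      intro g' hg' a ha
      cases hgg : gate' g' with
      | none => rw [hgg] at ha; simp [kept] at ha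
      | some G =>
        rw [hgg] at ha
        obtain ⟨A1, B1, e1, _⟩ := apex_split (I.gate_sub g' hg' G hgg)
        rw [e1]
        simp only [kept] at ha
        simp [ha]
    have hoth : ∀ g' ∈ gs, ∀ a ∈ kept (gate' g'), a ∉ (t g).apex := by
      intro g' hg' a ha h
      have := hdis g' (List.mem_cons_of_mem _ hg') g List.mem_cons_self a (hkept g' hg' a ha) h
      subst this
      exact hgn hg'
    have hAo : ∀ a ∈ A, a ∉ (t g).apex := fun a ha h => hA g List.mem_cons_self a h ha
    by_cases hr : ∃ r ∈ (t g).apex, Joined Cl' g.1 r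
    · -- a gate
      obtain ⟨r, hrap, hrj⟩ := hr
      obtain ⟨x', y', l', r', hsub⟩ := sub_isSome hrap g.1 g.2
      obtain ⟨A1, B1, e1, e2, e3, e4⟩ := apex_split hsub
      have hndt : (t g).apex.Nodup := hN g List.mem_cons_self
      have hVr : r ∈ (node r l' r').apex := by simp [apex]
      have hcutap : ∀ a ∈ ((t g).cutAt r).apex, a ∈ (t g).apex :=
        fun a ha => (apex_cutAt_sub r (t g)).subset ha
      have hdisj : ∀ a ∈ (node r l' r').apex, a ∉ ((t g).cutAt r).apex := by
        intro a ha h
        rw [e2] at h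
        rw [e1] at hndt
        rw [List.append_assoc, List.nodup_append] at hndt
        obtain ⟨n1, n2, n3⟩ := hndt
        rw [List.nodup_append] at n2
        rcases List.mem_append.1 h with h | h
        · exact n3 a h a (List.mem_append_left _ ha) rfl
        · exact n2.2.2 a ha a h rfl
      have hne : ∀ a ∈ ((t g).cutAt r).apex, ¬ Joined Cl' g.1 a := by
        intro a ha hj
        have hra : r ≠ a := by rintro rfl; exact hdisj r hVr ha
        exact hH r (hapH r hrap) a (hapH a (hcutap a ha)) hra ((hrj.symm I.symm).trans hj)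
      have hpw : ((t g).cutAt r).apex.Pairwise (fun a b => ¬ Joined Cl' a b) := by
        have hnd2 : ((t g).cutAt r).apex.Nodup := hndt.sublist (apex_cutAt_sub r (t g))
        apply hnd2.imp_of_mem
        intro a b ha hb hab
        exact hH a (hapH a (hcutap a ha)) b (hapH b (hcutap b hb)) hab
      obtain ⟨hR2, hs2, hm2⟩ := give_tree ((t g).cutAt r) g.1 g.2 E' Cl' I.reach I.symm hgcl'
        (hG g List.mem_cons_self).cutAt hne hpw
      have hsubCl : Cl' ⊆ Cl' ∪ ((t g).cutAt r).sides g.1 g.2 := Finset.subset_union_left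
      refine ⟨E' ∪ ((t g).cutAt r).cells g.1 g.2, Cl' ∪ ((t g).cutAt r).sides g.1 g.2,
        Function.update gate' g (some ⟨r, x', y', node r l' r'⟩), ?_⟩
      have hup : ∀ g' ∈ gs, Function.update gate' g (some ⟨r, x', y', node r l' r'⟩) g' = gate' g' := by
        intro g' hg'
        rw [Function.update_of_ne]
        rintro rfl
        exact hgn hg'
      constructor
      · exact hR2
      · exact hs2
      · intro c
        rw [Finset.mem_union, I.E_mem c]
        constructor
        · rintro ((h | ⟨g', hg', h⟩) | h)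
          · exact Or.inl h
          · exact Or.inr ⟨g', List.mem_cons_of_mem _ hg', by rw [hup g' hg']; exact h⟩
          · exact Or.inr ⟨g, List.mem_cons_self, by rw [Function.update_self]; exact h⟩
        · rintro (h | ⟨g', hg', h⟩)
          · exact Or.inl (Or.inl h)
          · rcases List.mem_cons.1 hg' with rfl | hg'
            · rw [Function.update_self] at h
              exact Or.inr h
            · rw [hup g' hg'] at h
              exact Or.inl (Or.inr ⟨g', hg', h⟩)
      · intro c
        rw [Finset.mem_union, I.Cl_mem c]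
        constructor
        · rintro ((h | ⟨g', hg', h⟩) | h)
          · exact Or.inl h
          · exact Or.inr ⟨g', List.mem_cons_of_mem _ hg', by rw [hup g' hg']; exact h⟩
          · exact Or.inr ⟨g, List.mem_cons_self, by rw [Function.update_self]; exact h⟩
        · rintro (h | ⟨g', hg', h⟩)
          · exact Or.inl (Or.inl h)
          · rcases List.mem_cons.1 hg' with rfl | hg'
            · rw [Function.update_self] at h
              exact Or.inr h
            · rw [hup g' hg'] at h
              exact Or.inl (Or.inr ⟨g', hg', h⟩)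
      · intro g' hg' G hGG
        rcases List.mem_cons.1 hg' with rfl | hg'
        · rw [Function.update_self] at hGG
          simp only [Option.some.injEq] at hGG
          subst hGG
          exact hsub
        · rw [hup g' hg'] at hGG
          exact I.gate_sub g' hg' G hGG
      · intro g' hg' G hGG
        rcases List.mem_cons.1 hg' with rfl | hg'
        · rw [Function.update_self] at hGG
          simp only [Option.some.injEq] at hGG
          subst hGG
          exact hrap
        · rw [hup g' hg'] at hGG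
          exact I.gate_ap g' hg' G hGG
      · intro g' hg' G hGG
        rcases List.mem_cons.1 hg' with rfl | hg'
        · rw [Function.update_self] at hGG
          simp only [Option.some.injEq] at hGG
          subst hGG
          rw [Finset.mem_union]
          rcases base_mem_sides hsub with ⟨h1, h2, _⟩ | h
          · left; rw [h1, h2]; exact hgcl'
          · right; exact h
        · rw [hup g' hg'] at hGG
          exact hsubCl (I.gate_cl g' hg' G hGG)
      · intro g' hg' G hGG
        rcases List.mem_cons.1 hg' with rfl | hg'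
        · rw [Function.update_self] at hGG
          simp only [Option.some.injEq] at hGG
          subst hGG
          have hx' : x' = g'.1 ∨ x' ∈ ((t g').cutAt r).apex := by
            have h5 : x' ∈ g'.1 :: A1 := List.mem_of_getLast? e3
            rcases List.mem_cons.1 h5 with h5 | h5
            · exact Or.inl h5
            · right; rw [e2]; exact List.mem_append_left _ h5
          have h6 : Joined (Cl' ∪ ((t g').cutAt r).sides g'.1 g'.2) x' g'.1 :=
            (hm2 x' g'.1).2 (Or.inr ⟨x', hx', g'.1, Or.inl rfl, Joined.refl _ _, Joined.refl _ _⟩)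
          exact h6.trans (hrj.mono hsubCl)
        · rw [hup g' hg'] at hGG
          exact (I.gate_joined g' hg' G hGG).mono hsubCl
      · intro g' hg'
        rw [List.mem_cons, not_or] at hg'
        rw [Function.update_of_ne hg'.1]
        exact I.gate_none g' hg'.2
      · intro a b hab ha hb hj
        have hgen : ∀ a, (a ∈ A ∨ ∃ g' ∈ g :: gs, a ∈ kept
            (Function.update gate' g (some ⟨r, x', y', node r l' r'⟩) g')) →
            a ∈ H ∧ a ∉ ((t g).cutAt r).apex := by
          rintro a (h | ⟨g', hg', h⟩)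
          · exact ⟨Or.inl (Or.inl h), fun h' => hAo a h (hcutap a h')⟩
          · rcases List.mem_cons.1 hg' with rfl | hg'
            · rw [Function.update_self] at h
              simp only [kept] at h
              refine ⟨hapH a ?_, hdisj a h⟩
              rw [e1]; simp [h]
            · rw [hup g' hg'] at h
              exact ⟨Or.inr ⟨g', hg', h⟩, fun h' => hoth g' hg' a h (hcutap a h')⟩
        obtain ⟨ha1, ha2⟩ := hgen a ha
        obtain ⟨hb1, hb2⟩ := hgen b hb
        exact host_step hsy htr hH (fun c hc => hapH c (hcutap c hc)) ha1 hb1 ha2 hb2 hab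
          ((hm2 a b).1 hj)
    · -- no gate
      push Not at hr
      have hndt : (t g).apex.Nodup := hN g List.mem_cons_self
      have hpw : (t g).apex.Pairwise (fun a b => ¬ Joined Cl' a b) := by
        apply hndt.imp_of_mem
        intro a b ha hb hab
        exact hH a (hapH a ha) b (hapH b hb) hab
      obtain ⟨hR2, hs2, hm2⟩ := give_tree (t g) g.1 g.2 E' Cl' I.reach I.symm hgcl'
        (hG g List.mem_cons_self) hr hpw
      have hsubCl : Cl' ⊆ Cl' ∪ (t g).sides g.1 g.2 := Finset.subset_union_left
      refine ⟨E' ∪ (t g).cells g.1 g.2, Cl' ∪ (t g).sides g.1 g.2, gate', ?_⟩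
      constructor
      · exact hR2
      · exact hs2
      · intro c
        rw [Finset.mem_union, I.E_mem c]
        constructor
        · rintro ((h | ⟨g', hg', h⟩) | h)
          · exact Or.inl h
          · exact Or.inr ⟨g', List.mem_cons_of_mem _ hg', h⟩
          · exact Or.inr ⟨g, List.mem_cons_self, by rw [hgate]; exact h⟩
        · rintro (h | ⟨g', hg', h⟩)
          · exact Or.inl (Or.inl h)
          · rcases List.mem_cons.1 hg' with rfl | hg'
            · rw [hgate] at h
              exact Or.inr h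
            · exact Or.inl (Or.inr ⟨g', hg', h⟩)
      · intro c
        rw [Finset.mem_union, I.Cl_mem c]
        constructor
        · rintro ((h | ⟨g', hg', h⟩) | h)
          · exact Or.inl h
          · exact Or.inr ⟨g', List.mem_cons_of_mem _ hg', h⟩
          · exact Or.inr ⟨g, List.mem_cons_self, by rw [hgate]; exact h⟩
        · rintro (h | ⟨g', hg', h⟩)
          · exact Or.inl (Or.inl h)
          · rcases List.mem_cons.1 hg' with rfl | hg'
            · rw [hgate] at h
              exact Or.inr h
            · exact Or.inl (Or.inr ⟨g', hg', h⟩)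
      · intro g' hg' G hGG
        rcases List.mem_cons.1 hg' with rfl | hg'
        · rw [hgate] at hGG; simp at hGG
        · exact I.gate_sub g' hg' G hGG
      · intro g' hg' G hGG
        rcases List.mem_cons.1 hg' with rfl | hg'
        · rw [hgate] at hGG; simp at hGG
        · exact I.gate_ap g' hg' G hGG
      · intro g' hg' G hGG
        rcases List.mem_cons.1 hg' with rfl | hg'
        · rw [hgate] at hGG; simp at hGG
        · exact hsubCl (I.gate_cl g' hg' G hGG)
      · intro g' hg' G hGG
        rcases List.mem_cons.1 hg' with rfl | hg'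
        · rw [hgate] at hGG; simp at hGG
        · exact (I.gate_joined g' hg' G hGG).mono hsubCl
      · intro g' hg'
        rw [List.mem_cons, not_or] at hg'
        exact I.gate_none g' hg'.2
      · intro a b hab ha hb hj
        have hgen : ∀ a, (a ∈ A ∨ ∃ g' ∈ g :: gs, a ∈ kept (gate' g')) →
            a ∈ H ∧ a ∉ (t g).apex := by
          rintro a (h | ⟨g', hg', h⟩)
          · exact ⟨Or.inl (Or.inl h), fun h' => hAo a h h'⟩
          · rcases List.mem_cons.1 hg' with rfl | hg'
            · rw [hgate] at h; simp [kept] at h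
            · exact ⟨Or.inr ⟨g', hg', h⟩, fun h' => hoth g' hg' a h h'⟩
        obtain ⟨ha1, ha2⟩ := hgen a ha
        obtain ⟨hb1, hb2⟩ := hgen b hb
        exact host_step hsy htr hH (fun c hc => hapH c hc) ha1 hb1 ha2 hb2 hab
          ((hm2 a b).1 hj)

end Pool.Agent.RFX

end
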