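import Mathlib
import Pool.Agent.RFM.P03
import Pool.Agent.RFM.P04
import Pool.Agent.RFM.P07

set_option autoImplicit false

/-!
# RFM/P11 (MP_72a26e_co): the files RFX/State, RFX/StLem, RFX/Pot, RFX/Asb, RFX/Keep, RFX/Trans, merged to save build time
-/

section

set_option autoImplicit false

/-!
# RFX/State : the state of the combinatorial half (MP_72a26e_co) -- helper76

Zone ids are darts `ZI = Pt × Pt` (any injective naming).  Static data `Sta`: points `P` (touched
points), complex `C`, faces `F ⊆ C`, tail `T v` and head `H v` of the link `v`, `ed i` = zone `i` is an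
end-edge zone `(N, w, t, t')`.  Dynamic data `Dyn`: black triangles `E`, closed darts `Cl`, ids `I` of the
existing zones, zones `Z`, active links `A` (points with two hard corners), free links `Fr`, reference face
`fref` of the attached links, the two faces `fp`, `fm` of the free links.

* an operation only shrinks ONE live end-edge zone, which is not live afterwards;
* `Live D i` : there is a set of zones containing `i`, each of which is the tail of an active link with head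
  in the set; live zones are untouched.
-/

namespace Pool.Agent.RFX

/-- zone ids -/
abbrev ZI := Pt × Pt

/-- all apexes on the left of their bases -/
def ZT.Ok : ZT → Pt → Pt → Prop
  | ZT.leaf _, _, _ => True
  | ZT.cut, _, _ => True
  | ZT.node a l r, x, y => 0 < orient x y a ∧ ZT.Ok l x a ∧ ZT.Ok r a y

/-- apexes of a zone -/
def Zone.ap (z : Zone) : List Pt := z.t.apex ++ z.t'.apex

/-- ring edges `e`, `e'` before and after `v` -/
def At (z : Zone) (v : Pt) (e e' : RE) : Prop :=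
  e ∈ z.ring ∧ e' ∈ z.ring ∧ e.b = v ∧ e'.a = v

/-- static data -/
structure Sta where
  P : Finset Pt
  C : Finset (Finset Pt)
  F : Finset (Finset Pt)
  T : Pt → ZI
  H : Pt → ZI
  ed : ZI → Prop

/-- dynamic data -/
structure Dyn where
  E : Finset (Finset Pt)
  Cl : Finset (Pt × Pt)
  I : Finset ZI
  Z : ZI → Zone
  A : Finset Pt
  Fr : Finset Pt
  fref : Pt → Finset Pt
  fp : Pt → Finset Pt
  fm : Pt → Finset Pt

/-- live zones -/
def Live (S : Sta) (D : Dyn) (i : ZI) : Prop := _root_.RFX.Cr.Live (D.A : Set Pt) S.T S.H i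

/-- `v` accepts the face `f` -/
def Acc (D : Dyn) (v : Pt) (f : Finset Pt) : Prop :=
  v ∈ f ∧ (v ∉ D.A ∨ (v ∉ D.Fr ∧ f ≠ D.fref v))

/-- faces of the complex and digons behind ring edges -/
def Fc (S : Sta) (D : Dyn) (f : Finset Pt) : Prop :=
  f ∈ S.F ∨ ∃ i ∈ D.I, ∃ e ∈ (D.Z i).ring, e.s = some f

/-- static assumptions -/
structure StaOk (S : Sta) : Prop where
  full : Full S.P S.C
  FC : S.F ⊆ S.C

/-- THE STATE -/
structure St (S : Sta) (D : Dyn) : Prop where
  reach : Reach S.P S.C D.E D.Cl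
  -- cells
  cov : ∀ c ∈ S.C, c ∈ D.E ∨ c ∈ S.F ∨ ∃ i ∈ D.I, c ∈ (D.Z i).cells
  zC : ∀ i ∈ D.I, (D.Z i).cells ⊆ S.C
  EF : ∀ c ∈ D.E, c ∉ S.F
  zE : ∀ i ∈ D.I, ∀ c ∈ (D.Z i).cells, c ∉ D.E ∧ c ∉ S.F
  zz : ∀ i ∈ D.I, ∀ j ∈ D.I, ∀ c ∈ (D.Z i).cells, c ∈ (D.Z j).cells → i = j
  -- zones
  nd : ∀ i ∈ D.I, (D.Z i).vs.Nodup
  okt : ∀ i ∈ D.I, (D.Z i).t.Ok (D.Z i).x (D.Z i).y ∧ (D.Z i).t'.Ok (D.Z i).y (D.Z i).x
  bare : ∀ i ∈ D.I, (D.Z i).Bare → ∃ f ∈ S.F, ∃ f' ∈ S.F,
    (D.Z i).t = ZT.leaf f ∧ (D.Z i).t' = ZT.leaf f'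
  -- ring edges: real face behind (then open), digon behind (open or closed), closed
  r1 : ∀ i ∈ D.I, ∀ e ∈ (D.Z i).ring, ∀ f, e.s = some f →
    (f ∈ S.F ∧ HE f e.a e.b ∧ (e.a, e.b) ∉ D.Cl) ∨ f = {e.a, e.b}
  r2 : ∀ i ∈ D.I, ∀ e ∈ (D.Z i).ring, e.s = none → (e.a, e.b) ∈ D.Cl
  -- inner edges of a zone are open
  io : ∀ i ∈ D.I, ∀ c ∈ (D.Z i).cells, ∀ c' ∈ (D.Z i).cells, ∀ a b, HE c a b → HE c' b a →
    (a, b) ∉ D.Cl
  -- the sides of the faces
  f6 : ∀ f ∈ S.F, ∀ a b, HE f a b → (a, b) ∈ D.Cl ∨ ∃ i ∈ D.I, (⟨a, b, some f⟩ : RE) ∈ (D.Z i).ring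
  -- the other side of a digon
  f7 : ∀ i ∈ D.I, ∀ e ∈ (D.Z i).ring, e.s = some {e.a, e.b} → (e.a, e.b) ∈ D.Cl ∨
    ∃ j ∈ D.I, j ≠ i ∧ (⟨e.b, e.a, some {e.a, e.b}⟩ : RE) ∈ (D.Z j).ring
  f8 : ∀ i ∈ D.I, ∀ j ∈ D.I, i ≠ j → (D.Z i).Bare → (D.Z j).Bare →
    ¬ ((D.Z i).x = (D.Z j).x ∧ (D.Z i).y = (D.Z j).y) ∧
    ¬ ((D.Z i).x = (D.Z j).y ∧ (D.Z i).y = (D.Z j).x)
  -- closed digons are accepted
  a2 : ∀ i ∈ D.I, ∀ e ∈ (D.Z i).ring, e.s = some {e.a, e.b} → (e.a, e.b) ∈ D.Cl →
    Acc D e.a {e.a, e.b} ∧ Acc D e.b {e.a, e.b}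
  -- links
  l1 : ∀ v ∈ D.A, S.T v ∈ D.I ∧ S.H v ∈ D.I ∧ S.T v ≠ S.H v ∧
    v ∈ (D.Z (S.T v)).vs ∧ v ∈ (D.Z (S.H v)).vs
  l1' : ∀ v ∈ D.A, ∀ i ∈ D.I, v ∈ (D.Z i).vs → i = S.T v ∨ i = S.H v
  l2 : ∀ v, v ∉ D.A → ∀ i ∈ D.I, ∀ j ∈ D.I, v ∈ (D.Z i).vs → v ∈ (D.Z j).vs → i = j
  l3 : ∀ v ∈ D.A, ∀ u ∈ D.A, S.T v = S.T u → v = u
  FrA : D.Fr ⊆ D.A
  l4 : ∀ v ∈ D.Fr, ∀ b, (v, b) ∉ D.Cl
  l5 : ∀ v ∈ D.Fr, D.fp v ≠ D.fm v ∧ ∀ i, i = S.T v ∨ i = S.H v → ∀ e e', At (D.Z i) v e e' →
    (e.s = some (D.fp v) ∧ e'.s = some (D.fm v)) ∨ (e.s = some (D.fm v) ∧ e'.s = some (D.fp v))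
  l6 : ∀ v ∈ D.A, v ∉ D.Fr → ∀ i, i = S.T v ∨ i = S.H v → ∀ e e', At (D.Z i) v e e' →
    (e.s = some (D.fref v) ∧ e'.s ≠ some (D.fref v)) ∨
    (e.s ≠ some (D.fref v) ∧ e'.s = some (D.fref v))
  -- live zones
  v1 : ∀ i, Live S D i → S.ed i → ∀ v ∈ D.A, S.T v = i → v = (D.Z i).y ∧
    (v ∈ D.Fr ∨ (¬ S.ed (S.H v) ∧ (v = (D.Z (S.H v)).x ∨ v = (D.Z (S.H v)).y)))
  v2 : ∀ i, Live S D i → S.ed i → (D.Z i).x ∉ D.Fr
  v3 : ∀ i, Live S D i → ¬ S.ed i → (D.Z i).t' = ZT.cut ∧
    (∃ s l r, (D.Z i).t = ZT.node s l r ∧ Joined D.Cl s (D.Z i).x) ∧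
    ∀ v ∈ D.A, S.T v = i → (v = (D.Z i).x ∨ v = (D.Z i).y) ∧
      S.ed (S.H v) ∧ (D.Z (S.H v)).x = v
  v4 : ∀ i j, Live S D i → Live S D j → ∀ a ∈ (D.Z i).ap, ∀ b ∈ (D.Z j).ap, Joined D.Cl a b →
    a = b ∧ i = j
  v5 : ∀ i, Live S D i → ∀ a ∈ (D.Z i).ap, a ∈ D.A → a ∈ D.Fr

/-- Bool labels of faces and points (helper50) -/
structure Lab (S : Sta) (D : Dyn) (chi : Finset Pt → Bool) (l : Pt → Bool) : Prop where
  cl : ∀ a b, (a, b) ∈ D.Cl → l a = l b
  acc : ∀ v f, Fc S D f → Acc D v f → chi f = l v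

/-- separating links -/
def Sep (D : Dyn) (chi : Finset Pt → Bool) (l : Pt → Bool) (v : Pt) : Prop :=
  v ∈ D.A ∧ ((v ∈ D.Fr ∧ chi (D.fp v) ≠ chi (D.fm v)) ∨ (v ∉ D.Fr ∧ chi (D.fref v) ≠ l v))

/-- the data of a crossing at the end-edge zone `i = (N, w, t, t')` -/
structure Cross (S : Sta) (D : Dyn) (i : ZI) (w w'' : Pt) : Prop where
  live : Live S D i
  ed : S.ed i
  wFr : w ∈ D.Fr
  Tw : S.T w = i
  wA : w'' ∈ D.A
  Hw : S.H w'' = i
  ne : w'' ≠ w
  dead : ∀ A' : Set Pt, A' ⊆ (D.A : Set Pt) → (w ∉ A' ∨ w'' ∉ A') →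
    ¬ _root_.RFX.Cr.Live A' S.T S.H i ∧ ¬ _root_.RFX.Cr.Live A' S.T S.H (S.H w)
  alt : (∀ a ∈ (D.Z i).ap, ¬ Joined D.Cl a (D.Z i).x) ∨
    ((D.Z i).x ∉ D.A ∧ w'' ∈ D.Fr ∧ w'' ∈ (D.Z i).ap ∧ ∃ r ∈ (D.Z i).ap, Joined D.Cl r (D.Z i).x ∧ r ∉ D.A ∧
      (r ∈ (D.Z i).t.apex → w'' ∈ (D.Z i).t.apex → [r, w''].Sublist (D.Z i).t.apex) ∧
      (r ∈ (D.Z i).t'.apex → w'' ∈ (D.Z i).t'.apex → [w'', r].Sublist (D.Z i).t'.apex))

end Pool.Agent.RFX

end

section

set_option autoImplicit false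

/-!
# RFX/StLem : consequences of the state structure (MP_72a26e_co) -- helper76
-/

namespace Pool.Agent.RFX

theorem he_tri {x y a : Pt} (h : 0 < orient x y a) :
    HE ({x, y, a} : Finset Pt) x y ∧ HE ({x, y, a} : Finset Pt) y a ∧
      HE ({x, y, a} : Finset Pt) a x := by
  have hxy : x ≠ y := by
    rintro rfl
    rw [orient_self1] at h
    exact lt_irrefl _ h
  have hya : y ≠ a := by
    rintro rfl
    rw [orient_self3] at h
    exact lt_irrefl _ h
  have hax : a ≠ x := by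
    rintro rfl
    rw [orient_self2] at h
    exact lt_irrefl _ h
  have h2 : 0 < orient y a x := by rw [orient_rot]; exact h
  have h3 : 0 < orient a x y := by rw [orient_rot']; exact h
  refine ⟨⟨by simp, by simp, hxy, ?_⟩, ⟨by simp, by simp, hya, ?_⟩, ⟨by simp, by simp, hax, ?_⟩⟩
  · intro c hc h1 h2'
    simp only [Finset.mem_insert, Finset.mem_singleton] at hc
    rcases hc with rfl | rfl | rfl
    · exact absurd rfl h1
    · exact absurd rfl h2'
    · exact h
  · intro c hc h1 h2'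
    simp only [Finset.mem_insert, Finset.mem_singleton] at hc
    rcases hc with rfl | rfl | rfl
    · exact h2
    · exact absurd rfl h1
    · exact absurd rfl h2'
  · intro c hc h1 h2'
    simp only [Finset.mem_insert, Finset.mem_singleton] at hc
    rcases hc with rfl | rfl | rfl
    · exact absurd rfl h2'
    · exact h3
    · exact absurd rfl h1

namespace ZT

/-- the root cell of a node tree -/
theorem root {t : ZT} {x y : Pt} (hok : t.Ok x y) (hb : ¬ t.Bare) :
    ∃ c ∈ t.cells x y, HE c x y := by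
  cases t with
  | leaf f => exact absurd trivial hb
  | cut => exact absurd trivial hb
  | node a l r =>
    refine ⟨{x, y, a}, ?_, (he_tri hok.1).1⟩
    simp [cells]

theorem bare_ring {t : ZT} {x y : Pt} (hb : t.Bare) {e : RE} (he : e ∈ t.ring x y) :
    e.a = x ∧ e.b = y := by
  cases t with
  | leaf f => simp [ring] at he; rw [he]; exact ⟨rfl, rfl⟩
  | cut => simp [ring] at he; rw [he]; exact ⟨rfl, rfl⟩
  | node a l r => exact absurd hb (by simp [Bare])

theorem bare_ring_ex {t : ZT} (x y : Pt) (hb : t.Bare) : ∃ e ∈ t.ring x y, e.a = x ∧ e.b = y := by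
  cases t with
  | leaf f => exact ⟨⟨x, y, some f⟩, by simp [ring], rfl, rfl⟩
  | cut => exact ⟨⟨x, y, none⟩, by simp [ring], rfl, rfl⟩
  | node a l r => exact absurd hb (by simp [Bare])

/-- the cell on the right of a ring edge -/
theorem right {t : ZT} : ∀ {x y : Pt}, t.Ok x y → ¬ t.Bare → ∀ e ∈ t.ring x y,
    ∃ c ∈ t.cells x y, HE c e.b e.a := by
  induction t with
  | leaf f => intro x y _ hb; exact absurd trivial hb
  | cut => intro x y _ hb; exact absurd trivial hb
  | node a l r ihl ihr =>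
    intro x y hok _ e he
    obtain ⟨h0, hl, hr⟩ := hok
    simp only [ring, List.mem_append] at he
    rcases he with he | he
    · by_cases hb : l.Bare
      · obtain ⟨e1, e2⟩ := bare_ring hb he
        refine ⟨{x, y, a}, by simp [cells], ?_⟩
        rw [e1, e2]
        exact (he_tri h0).2.2
      · obtain ⟨c, hc, h⟩ := ihl hl hb e he
        exact ⟨c, by simp [cells, hc], h⟩
    · by_cases hb : r.Bare
      · obtain ⟨e1, e2⟩ := bare_ring hb he
        refine ⟨{x, y, a}, by simp [cells], ?_⟩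
        rw [e1, e2]
        exact (he_tri h0).2.1
      · obtain ⟨c, hc, h⟩ := ihr hr hb e he
        exact ⟨c, by simp [cells, hc], h⟩

/-- the sides of the cells of a tree -/
theorem side {t : ZT} : ∀ {x y : Pt}, t.Ok x y → ∀ c ∈ t.cells x y, ∀ a b, HE c a b →
    (∃ e ∈ t.ring x y, e.a = b ∧ e.b = a) ∨ (∃ c' ∈ t.cells x y, HE c' b a) ∨
      (a = x ∧ b = y) := by
  induction t with
  | leaf f => intro x y _ c hc; simp [cells] at hc
  | cut => intro x y _ c hc; simp [cells] at hc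
  | node p l r ihl ihr =>
    intro x y hok c hc a b hab
    obtain ⟨h0, hl, hr⟩ := hok
    obtain ⟨t1, t2, t3⟩ := he_tri h0
    simp only [cells, Finset.mem_insert, Finset.mem_union] at hc
    rcases hc with rfl | hc | hc
    · have hxy : x ≠ y := t1.2.2.1
      have hyp : y ≠ p := t2.2.2.1
      have hpx : p ≠ x := t3.2.2.1
      have ha : a = x ∨ a = y ∨ a = p := by simpa using hab.1
      rcases ha with rfl | rfl | rfl
      · have hb : b = y := hab.succ_unique t1
        exact Or.inr (Or.inr ⟨rfl, hb⟩)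
      · have hb : b = p := hab.succ_unique t2
        subst hb
        by_cases hbr : r.Bare
        · obtain ⟨e, he, e1, e2⟩ := bare_ring_ex b a hbr
          exact Or.inl ⟨e, by simp [ring, he], e1, e2⟩
        · obtain ⟨c', hc', h'⟩ := root hr hbr
          exact Or.inr (Or.inl ⟨c', by simp [cells, hc'], h'⟩)
      · have hb : b = x := hab.succ_unique t3
        subst hb
        by_cases hbr : l.Bare
        · obtain ⟨e, he, e1, e2⟩ := bare_ring_ex b a hbr
          exact Or.inl ⟨e, by simp [ring, he], e1, e2⟩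
        · obtain ⟨c', hc', h'⟩ := root hl hbr
          exact Or.inr (Or.inl ⟨c', by simp [cells, hc'], h'⟩)
    · rcases ihl hl c hc a b hab with ⟨e, he, e1, e2⟩ | ⟨c', hc', h'⟩ | ⟨rfl, rfl⟩
      · exact Or.inl ⟨e, by simp [ring, he], e1, e2⟩
      · exact Or.inr (Or.inl ⟨c', by simp [cells, hc'], h'⟩)
      · exact Or.inr (Or.inl ⟨{a, y, b}, by simp [cells], t3⟩)
    · rcases ihr hr c hc a b hab with ⟨e, he, e1, e2⟩ | ⟨c', hc', h'⟩ | ⟨rfl, rfl⟩
      · exact Or.inl ⟨e, by simp [ring, he], e1, e2⟩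
      · exact Or.inr (Or.inl ⟨c', by simp [cells, hc'], h'⟩)
      · exact Or.inr (Or.inl ⟨{x, b, a}, by simp [cells], t2⟩)

end ZT

namespace Zone

theorem mem_vs {z : Zone} {v : Pt} : v ∈ z.vs ↔ v = z.x ∨ v = z.y ∨ v ∈ z.ap := by
  simp only [vs, ap, List.mem_cons, List.mem_append]
  tauto

/-- the cell on the right of a ring edge -/
theorem right {z : Zone} (h1 : z.t.Ok z.x z.y) (h2 : z.t'.Ok z.y z.x) (hb : ¬ z.Bare) :
    ∀ e ∈ z.ring, ∃ c ∈ z.cells, HE c e.b e.a := by
  intro e he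
  simp only [ring, List.mem_append] at he
  have hb' : ¬ (z.t.Bare ∧ z.t'.Bare) := hb
  rcases he with he | he
  · by_cases hbt : z.t.Bare
    · obtain ⟨e1, e2⟩ := ZT.bare_ring hbt he
      obtain ⟨c, hc, h⟩ := ZT.root h2 (fun h => hb' ⟨hbt, h⟩)
      rw [e1, e2]
      exact ⟨c, by simp [cells, hc], h⟩
    · obtain ⟨c, hc, h⟩ := ZT.right h1 hbt e he
      exact ⟨c, by simp [cells, hc], h⟩
  · by_cases hbt : z.t'.Bare
    · obtain ⟨e1, e2⟩ := ZT.bare_ring hbt he
      obtain ⟨c, hc, h⟩ := ZT.root h1 (fun h => hb' ⟨h, hbt⟩)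
      rw [e1, e2]
      exact ⟨c, by simp [cells, hc], h⟩
    · obtain ⟨c, hc, h⟩ := ZT.right h2 hbt e he
      exact ⟨c, by simp [cells, hc], h⟩

/-- the base has a cell on one side -/
theorem root {z : Zone} (h1 : z.t.Ok z.x z.y) (h2 : z.t'.Ok z.y z.x) (hb : ¬ z.Bare) :
    ∃ c ∈ z.cells, HE c z.x z.y ∨ HE c z.y z.x := by
  by_cases hbt : z.t.Bare
  · obtain ⟨c, hc, h⟩ := ZT.root h2 (fun h => hb ⟨hbt, h⟩)
    exact ⟨c, by simp [cells, hc], Or.inr h⟩
  · obtain ⟨c, hc, h⟩ := ZT.root h1 hbt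
    exact ⟨c, by simp [cells, hc], Or.inl h⟩

/-- the sides of the cells of a zone -/
theorem side {z : Zone} (h1 : z.t.Ok z.x z.y) (h2 : z.t'.Ok z.y z.x) :
    ∀ c ∈ z.cells, ∀ a b, HE c a b →
      (∃ e ∈ z.ring, e.a = b ∧ e.b = a) ∨ (∃ c' ∈ z.cells, HE c' b a) := by
  intro c hc a b hab
  simp only [cells, Finset.mem_union] at hc
  rcases hc with hc | hc
  · rcases ZT.side h1 c hc a b hab with ⟨e, he, e1, e2⟩ | ⟨c', hc', h'⟩ | ⟨rfl, rfl⟩
    · exact Or.inl ⟨e, by simp [ring, he], e1, e2⟩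
    · exact Or.inr ⟨c', by simp [cells, hc'], h'⟩
    · by_cases hbt : z.t'.Bare
      · obtain ⟨e, he, e1, e2⟩ := ZT.bare_ring_ex z.y z.x hbt
        exact Or.inl ⟨e, by simp [ring, he], e1, e2⟩
      · obtain ⟨c', hc', h'⟩ := ZT.root h2 hbt
        exact Or.inr ⟨c', by simp [cells, hc'], h'⟩
  · rcases ZT.side h2 c hc a b hab with ⟨e, he, e1, e2⟩ | ⟨c', hc', h'⟩ | ⟨rfl, rfl⟩
    · exact Or.inl ⟨e, by simp [ring, he], e1, e2⟩
    · exact Or.inr ⟨c', by simp [cells, hc'], h'⟩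
    · by_cases hbt : z.t.Bare
      · obtain ⟨e, he, e1, e2⟩ := ZT.bare_ring_ex z.x z.y hbt
        exact Or.inl ⟨e, by simp [ring, he], e1, e2⟩
      · obtain ⟨c', hc', h'⟩ := ZT.root h1 hbt
        exact Or.inr ⟨c', by simp [cells, hc'], h'⟩

theorem ring_b (z : Zone) : z.ring.map RE.b = z.t.apex ++ z.y :: (z.t'.apex ++ [z.x]) := by
  simp [ring, ZT.ring_b]

theorem ring_b_perm (z : Zone) : (z.ring.map RE.b).Perm z.vs := by
  rw [ring_b]
  unfold vs
  have : z.t.apex ++ z.y :: (z.t'.apex ++ [z.x]) = (z.t.apex ++ z.y :: z.t'.apex) ++ [z.x] := by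
    simp
  rw [this]
  exact List.perm_append_comm

theorem mem_vs_a {z : Zone} {e : RE} (he : e ∈ z.ring) : e.a ∈ z.vs := by
  rw [← z.ring_a]; exact List.mem_map_of_mem he

theorem mem_vs_b {z : Zone} {e : RE} (he : e ∈ z.ring) : e.b ∈ z.vs := by
  rw [← z.ring_b_perm.mem_iff]; exact List.mem_map_of_mem he

theorem exists_At {z : Zone} {v : Pt} (hv : v ∈ z.vs) : ∃ e e', At z v e e' := by
  have h1 := hv
  rw [← z.ring_a, List.mem_map] at h1
  have h2 := hv
  rw [← z.ring_b_perm.mem_iff, List.mem_map] at h2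
  obtain ⟨e', he', h1⟩ := h1
  obtain ⟨e, he, h2⟩ := h2
  exact ⟨e, e', he, he', h2, h1⟩

theorem inj_of_nodup_map {α β : Type*} {f : α → β} : ∀ {l : List α}, (l.map f).Nodup →
    ∀ x ∈ l, ∀ y ∈ l, f x = f y → x = y := by
  intro l h x hx y hy hxy
  exact List.inj_on_of_nodup_map h hx hy hxy

theorem a_inj {z : Zone} (hn : z.vs.Nodup) {e e' : RE} (he : e ∈ z.ring) (he' : e' ∈ z.ring)
    (h : e.a = e'.a) : e = e' := by
  rw [← z.ring_a] at hn
  exact inj_of_nodup_map hn e he e' he' h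

theorem b_inj {z : Zone} (hn : z.vs.Nodup) {e e' : RE} (he : e ∈ z.ring) (he' : e' ∈ z.ring)
    (h : e.b = e'.b) : e = e' := by
  have hn' : (z.ring.map RE.b).Nodup := z.ring_b_perm.nodup_iff.2 hn
  exact inj_of_nodup_map hn' e he e' he' h

end Zone

theorem At.unique {z : Zone} (hn : z.vs.Nodup) {v : Pt} {e1 e1' e2 e2' : RE}
    (h1 : At z v e1 e1') (h2 : At z v e2 e2') : e1 = e2 ∧ e1' = e2' :=
  ⟨Zone.b_inj hn h1.1 h2.1 (h1.2.2.1.trans h2.2.2.1.symm),
    Zone.a_inj hn h1.2.1 h2.2.1 (h1.2.2.2.trans h2.2.2.2.symm)⟩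

theorem At.mem {z : Zone} {v : Pt} {e e' : RE} (h : At z v e e') : v ∈ z.vs := by
  rw [← h.2.2.2]; exact Zone.mem_vs_a h.2.1

theorem pair_card_lt (a b : Pt) : ({a, b} : Finset Pt).card < 3 := by
  have := Finset.card_le_two (a := a) (b := b)
  omega

namespace St

variable {S : Sta} {D : Dyn}

theorem inv (h : St S D) (hS : StaOk S) : RInv S.P S.C D.E D.Cl := h.reach.inv hS.full

theorem symm (h : St S D) (hS : StaOk S) {a b : Pt} (hab : (a, b) ∈ D.Cl) : (b, a) ∈ D.Cl :=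
  (h.inv hS).symm a b hab

theorem card_F (_ : St S D) (hS : StaOk S) {f : Finset Pt} (hf : f ∈ S.F) : 3 ≤ f.card :=
  hS.full.cx.three f (hS.FC hf)

theorem F_ne_pair (h : St S D) (hS : StaOk S) {f : Finset Pt} (hf : f ∈ S.F) (a b : Pt) :
    f ≠ {a, b} := by
  intro he
  have := h.card_F hS hf
  rw [he] at this
  have := pair_card_lt a b
  omega

/-- both ends of a bare zone have real faces -/
theorem bare_ring (h : St S D) (hS : StaOk S) {i : ZI} (hi : i ∈ D.I) (hb : (D.Z i).Bare) {e : RE}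
    (he : e ∈ (D.Z i).ring) :
    (∃ f ∈ S.F, e.s = some f ∧ HE f e.a e.b) ∧ (∃ f ∈ S.F, HE f e.b e.a) ∧ (e.a, e.b) ∉ D.Cl ∧
      ((e.a = (D.Z i).x ∧ e.b = (D.Z i).y) ∨ (e.a = (D.Z i).y ∧ e.b = (D.Z i).x)) := by
  obtain ⟨f, hf, f', hf', h1, h2⟩ := h.bare i hi hb
  have e1 : (⟨(D.Z i).x, (D.Z i).y, some f⟩ : RE) ∈ (D.Z i).ring := by
    simp [Zone.ring, h1, ZT.ring]
  have e2 : (⟨(D.Z i).y, (D.Z i).x, some f'⟩ : RE) ∈ (D.Z i).ring := by
    simp [Zone.ring, h2, ZT.ring]
  have g1 := h.r1 i hi _ e1 f rfl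
  have g2 := h.r1 i hi _ e2 f' rfl
  rcases g1 with ⟨_, g1, g1'⟩ | g1
  swap
  · exact absurd g1 (h.F_ne_pair hS hf _ _)
  rcases g2 with ⟨_, g2, g2'⟩ | g2
  swap
  · exact absurd g2 (h.F_ne_pair hS hf' _ _)
  simp only [Zone.ring, h1, h2, ZT.ring, List.mem_append, List.mem_singleton] at he
  rcases he with rfl | rfl
  · exact ⟨⟨f, hf, rfl, g1⟩, ⟨f', hf', g2⟩, g1', Or.inl ⟨rfl, rfl⟩⟩
  · exact ⟨⟨f', hf', rfl, g2⟩, ⟨f, hf, g1⟩, g2', Or.inr ⟨rfl, rfl⟩⟩

/-- the cell on the right of a ring edge (non-bare zone) -/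
theorem right (h : St S D) {i : ZI} (hi : i ∈ D.I) (hb : ¬ (D.Z i).Bare) {e : RE}
    (he : e ∈ (D.Z i).ring) : ∃ c ∈ (D.Z i).cells, HE c e.b e.a :=
  Zone.right (h.okt i hi).1 (h.okt i hi).2 hb e he

theorem side (h : St S D) {i : ZI} (hi : i ∈ D.I) {c : Finset Pt} (hc : c ∈ (D.Z i).cells)
    {a b : Pt} (hab : HE c a b) :
    (∃ e ∈ (D.Z i).ring, e.a = b ∧ e.b = a) ∨ (∃ c' ∈ (D.Z i).cells, HE c' b a) :=
  Zone.side (h.okt i hi).1 (h.okt i hi).2 c hc a b hab

theorem side_unique (_ : St S D) (hS : StaOk S) {c c' : Finset Pt} (hc : c ∈ S.C) (hc' : c' ∈ S.C)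
    {a b : Pt} (h1 : HE c a b) (h2 : HE c' a b) : c = c' :=
  hS.full.cx.side_unique hc hc' h1 h2

/-- a dart is on the ring of at most one zone -/
theorem uniq (h : St S D) (hS : StaOk S) {i j : ZI} (hi : i ∈ D.I) (hj : j ∈ D.I) {e e' : RE}
    (he : e ∈ (D.Z i).ring) (he' : e' ∈ (D.Z j).ring) (ha : e.a = e'.a) (hb : e.b = e'.b) :
    i = j := by
  by_cases bi : (D.Z i).Bare
  · obtain ⟨_, ⟨f', hf', g2⟩, _, g4⟩ := h.bare_ring hS hi bi he
    by_cases bj : (D.Z j).Bare
    · by_contra hne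
      obtain ⟨_, _, _, g4'⟩ := h.bare_ring hS hj bj he'
      have := h.f8 i hi j hj hne bi bj
      rcases g4 with ⟨p1, p2⟩ | ⟨p1, p2⟩ <;> rcases g4' with ⟨q1, q2⟩ | ⟨q1, q2⟩
      · exact this.1 ⟨p1.symm.trans (ha.trans q1), p2.symm.trans (hb.trans q2)⟩
      · exact this.2 ⟨p1.symm.trans (ha.trans q1), p2.symm.trans (hb.trans q2)⟩
      · exact this.2 ⟨p2.symm.trans (hb.trans q2), p1.symm.trans (ha.trans q1)⟩
      · exact this.1 ⟨p2.symm.trans (hb.trans q2), p1.symm.trans (ha.trans q1)⟩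
    · obtain ⟨c, hc, h1⟩ := h.right hj bj he'
      rw [← ha, ← hb] at h1
      have := h.side_unique hS (h.zC j hj hc) (hS.FC hf') h1 g2
      exact absurd hf' (this ▸ (h.zE j hj c hc).2)
  · obtain ⟨c, hc, h1⟩ := h.right hi bi he
    by_cases bj : (D.Z j).Bare
    · obtain ⟨_, ⟨f', hf', g2⟩, _, _⟩ := h.bare_ring hS hj bj he'
      rw [← ha, ← hb] at g2
      have := h.side_unique hS (h.zC i hi hc) (hS.FC hf') h1 g2
      exact absurd hf' (this ▸ (h.zE i hi c hc).2)
    · obtain ⟨c', hc', h2⟩ := h.right hj bj he'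
      rw [← ha, ← hb] at h2
      have := h.side_unique hS (h.zC i hi hc) (h.zC j hj hc') h1 h2
      subst this
      exact h.zz i hi j hj c hc hc'

/-- the cell on the left of an open ring edge is in no zone cell of the same zone -/
theorem left (h : St S D) (hS : StaOk S) {i : ZI} (hi : i ∈ D.I) {e : RE}
    (he : e ∈ (D.Z i).ring) (ho : (e.a, e.b) ∉ D.Cl) {c : Finset Pt} (hc : c ∈ (D.Z i).cells) :
    ¬ HE c e.a e.b := by
  intro hce
  cases hs : e.s with
  | none => exact ho (h.r2 i hi e he hs)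
  | some f =>
    rcases h.r1 i hi e he f hs with ⟨hf, h1, _⟩ | hf
    · have := h.side_unique hS (h.zC i hi hc) (hS.FC hf) hce h1
      exact (h.zE i hi c hc).2 (this ▸ hf)
    · rw [hf] at hs
      rcases h.f7 i hi e he hs with h2 | ⟨j, hj, hji, h2⟩
      · exact ho h2
      · by_cases bj : (D.Z j).Bare
        · obtain ⟨⟨f2, hf2, e1, _⟩, _⟩ := h.bare_ring hS hj bj h2
          simp only [Option.some.injEq] at e1
          exact h.F_ne_pair hS hf2 _ _ e1.symm
        · obtain ⟨c', hc', h3⟩ := h.right hj bj h2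
          have := h.side_unique hS (h.zC i hi hc) (h.zC j hj hc') hce h3
          subst this
          exact hji (h.zz j hj i hi c hc' hc)

/-- a closed side of a face: both ends accept the face -/
theorem a1 (h : St S D) (hS : StaOk S) {f : Finset Pt} (hf : f ∈ S.F) {a b : Pt} (hab : HE f a b)
    (hcl : (a, b) ∈ D.Cl) : Acc D a f ∧ Acc D b f := by
  constructor
  · refine ⟨hab.1, ?_⟩
    by_cases hA : a ∈ D.A
    swap
    · exact Or.inl hA
    right
    have hFr : a ∉ D.Fr := fun hh => h.l4 a hh b hcl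
    refine ⟨hFr, ?_⟩
    intro hfe
    obtain ⟨hT, hH, hne, vT, vH⟩ := h.l1 a hA
    -- on both rings the edge before `a` has the face `f`
    have key : ∀ i, i = S.T a ∨ i = S.H a → i ∈ D.I → a ∈ (D.Z i).vs →
        ∃ e ∈ (D.Z i).ring, e.b = a ∧ HE f e.a a := by
      intro i hi hI hv
      obtain ⟨e, e', hAt⟩ := Zone.exists_At hv
      rcases h.l6 a hA hFr i hi e e' hAt with ⟨h1, _⟩ | ⟨_, h1⟩
      · rw [← hfe] at h1
        rcases h.r1 i hI e hAt.1 f h1 with ⟨_, g, _⟩ | g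
        · refine ⟨e, hAt.1, hAt.2.2.1, ?_⟩
          rw [hAt.2.2.1] at g
          exact g
        · exact absurd g (h.F_ne_pair hS hf _ _)
      · rw [← hfe] at h1
        rcases h.r1 i hI e' hAt.2.1 f h1 with ⟨_, g, g'⟩ | g
        · rw [hAt.2.2.2] at g g'
          have := hab.succ_unique g
          rw [this] at hcl
          exact absurd hcl g'
        · exact absurd g (h.F_ne_pair hS hf _ _)
    obtain ⟨e1, he1, b1, g1⟩ := key _ (Or.inl rfl) hT vT
    obtain ⟨e2, he2, b2, g2⟩ := key _ (Or.inr rfl) hH vH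
    exact hne (h.uniq hS hT hH he1 he2 (g1.pred_unique g2) (b1.trans b2.symm))
  · refine ⟨hab.2.1, ?_⟩
    by_cases hA : b ∈ D.A
    swap
    · exact Or.inl hA
    right
    have hFr : b ∉ D.Fr := fun hh => h.l4 b hh a (h.symm hS hcl)
    refine ⟨hFr, ?_⟩
    intro hfe
    obtain ⟨hT, hH, hne, vT, vH⟩ := h.l1 b hA
    have key : ∀ i, i = S.T b ∨ i = S.H b → i ∈ D.I → b ∈ (D.Z i).vs →
        ∃ e ∈ (D.Z i).ring, e.a = b ∧ HE f b e.b := by
      intro i hi hI hv
      obtain ⟨e, e', hAt⟩ := Zone.exists_At hv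
      rcases h.l6 b hA hFr i hi e e' hAt with ⟨h1, _⟩ | ⟨_, h1⟩
      · rw [← hfe] at h1
        rcases h.r1 i hI e hAt.1 f h1 with ⟨_, g, g'⟩ | g
        · rw [hAt.2.2.1] at g g'
          have := hab.pred_unique g
          rw [this] at hcl
          exact absurd hcl g'
        · exact absurd g (h.F_ne_pair hS hf _ _)
      · rw [← hfe] at h1
        rcases h.r1 i hI e' hAt.2.1 f h1 with ⟨_, g, _⟩ | g
        · refine ⟨e', hAt.2.1, hAt.2.2.2, ?_⟩
          rw [hAt.2.2.2] at g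
          exact g
        · exact absurd g (h.F_ne_pair hS hf _ _)
    obtain ⟨e1, he1, b1, g1⟩ := key _ (Or.inl rfl) hT vT
    obtain ⟨e2, he2, b2, g2⟩ := key _ (Or.inr rfl) hH vH
    exact hne (h.uniq hS hT hH he1 he2 (b1.trans b2.symm) (g1.succ_unique g2))

/-- the ring edges with the reference face are open -/
theorem fref_open (h : St S D) (hS : StaOk S) {v : Pt} (hA : v ∈ D.A) (hFr : v ∉ D.Fr) {i : ZI}
    (hi : i ∈ D.I) {e : RE} (he : e ∈ (D.Z i).ring)
    (hs : e.s = some (D.fref v)) (hv : e.a = v ∨ e.b = v) : (e.a, e.b) ∉ D.Cl := by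
  rcases h.r1 i hi e he _ hs with ⟨_, _, h1⟩ | h1
  · exact h1
  · intro hcl
    rw [h1] at hs
    have := h.a2 i hi e he hs hcl
    rcases hv with rfl | rfl
    · rcases this.1.2 with g | ⟨_, g⟩
      · exact g hA
      · exact g h1.symm
    · rcases this.2.2 with g | ⟨_, g⟩
      · exact g hA
      · exact g h1.symm

end St

end Pool.Agent.RFX

end

section

set_option autoImplicit false

/-!
# RFX/Pot : the potential (closed pairs - given cells + components) and the number of open sides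
-/

namespace Pool.Agent.RFX

open List

/-- labels of the components -/
def IsLab (P : Finset Pt) (Cl : Finset (Pt × Pt)) (lab : Pt → Pt) : Prop :=
  ∀ a ∈ P, ∀ b ∈ P, (lab a = lab b ↔ Joined Cl a b)

theorem merge_lab {P : Finset Pt} {Cl Cl' : Finset (Pt × Pt)}
    (hs' : ∀ a b, (a, b) ∈ Cl' → (b, a) ∈ Cl')
    (hm : ∀ a b, (a, b) ∈ Cl' → a ∈ P ∧ b ∈ P) (hsub : Cl ⊆ Cl') {a b : Pt} (ha : a ∈ P)
    (hb : b ∈ P) (hab' : Joined Cl' a b) (hab : ¬ Joined Cl a b)
    (hcases : ∀ u v, (u, v) ∈ Cl' → Joined Cl u v ∨ (Joined Cl a u ∧ Joined Cl b v) ∨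
      (Joined Cl b u ∧ Joined Cl a v))
    {lab : Pt → Pt} (hl : IsLab P Cl lab) :
    ∃ lab', IsLab P Cl' lab' ∧ (P.image lab').card + 1 = (P.image lab).card := by
  classical
  have hne : lab a ≠ lab b := fun h => hab ((hl a ha b hb).1 h)
  refine ⟨fun v => if lab v = lab b then lab a else lab v, ?_, ?_⟩
  · have step : ∀ u v, (u, v) ∈ Cl' → (if lab u = lab b then lab a else lab u) =
        (if lab v = lab b then lab a else lab v) := by
      intro u v huv
      obtain ⟨hu, hv⟩ := hm u v huv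
      rcases hcases u v huv with h | ⟨h1, h2⟩ | ⟨h1, h2⟩
      · rw [(hl u hu v hv).2 h]
      · rw [← (hl a ha u hu).2 h1, ← (hl b hb v hv).2 h2, if_neg hne, if_pos rfl]
      · rw [← (hl a ha v hv).2 h2, ← (hl b hb u hu).2 h1, if_neg hne, if_pos rfl]
    intro u hu v hv
    constructor
    · intro h
      simp only at h
      by_cases h1 : lab u = lab b
      · by_cases h2 : lab v = lab b
        · exact ((hl u hu v hv).1 (h1.trans h2.symm)).mono hsub
        · rw [if_pos h1, if_neg h2] at h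
          have j1 := ((hl u hu b hb).1 h1).mono hsub
          have j2 := ((hl a ha v hv).1 h).mono hsub
          exact (j1.trans (hab'.symm hs')).trans j2
      · by_cases h2 : lab v = lab b
        · rw [if_neg h1, if_pos h2] at h
          have j1 := ((hl u hu a ha).1 h).mono hsub
          have j2 := ((hl v hv b hb).1 h2).mono hsub
          exact (j1.trans hab').trans (j2.symm hs')
        · rw [if_neg h1, if_neg h2] at h
          exact ((hl u hu v hv).1 h).mono hsub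
    · intro h
      simp only
      clear hu hv
      induction h with
      | refl => rfl
      | tail _ h2 ih => exact ih.trans (step _ _ h2)
  · have himg : P.image (fun v => if lab v = lab b then lab a else lab v) =
        (P.image lab).erase (lab b) := by
      ext z
      rw [Finset.mem_image, Finset.mem_erase, Finset.mem_image]
      constructor
      · rintro ⟨v, hv, rfl⟩
        by_cases h : lab v = lab b
        · rw [if_pos h]
          exact ⟨hne, a, ha, rfl⟩
        · rw [if_neg h]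
          exact ⟨h, v, hv, rfl⟩
      · rintro ⟨h, v, hv, rfl⟩
        exact ⟨v, hv, by rw [if_neg h]⟩
    rw [himg, Finset.card_erase_of_mem (Finset.mem_image_of_mem lab hb)]
    have : 0 < (P.image lab).card := Finset.card_pos.2 ⟨lab b, Finset.mem_image_of_mem lab hb⟩
    omega

/-- hull vertices are joined -/
theorem joined_list (Cl : Finset (Pt × Pt)) (l : List Pt) (x : Pt)
    (h : ∀ a b, (a, b) ∈ pe (x :: l) → (a, b) ∈ Cl) : ∀ z ∈ x :: l, Joined Cl x z := by
  induction l generalizing x with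
  | nil =>
    intro z hz
    simp only [List.mem_cons, List.not_mem_nil, or_false] at hz
    rw [hz]; exact Joined.refl Cl x
  | cons y l ih =>
    intro z hz
    rw [List.mem_cons] at hz
    rcases hz with rfl | hz
    · exact Joined.refl Cl _
    · have h1 : (x, y) ∈ Cl := h x y (by simp [pe])
      have h2 := ih y (fun a b hab => h a b (by simp only [pe, List.mem_cons]; exact Or.inr hab)) z hz
      exact (Joined.single h1).trans h2

theorem start_lab {P : Finset Pt} (hg : Gen P) (h3 : 3 ≤ P.card) :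
    ∃ lab, IsLab P (hullPairs P ∪ (hullPairs P).image Prod.swap) lab ∧
      (hullPairs P ∪ (hullPairs P).image Prod.swap).card + 2 * (P.image lab).card =
        2 * P.card + 2 ∧ (hullPairs P).card + (P.image lab).card = P.card + 1 := by
  classical
  obtain ⟨l, l1, l2, l3, l4, l5, l6⟩ := exists_hull_list P hg h3
  set Cl := hullPairs P ∪ (hullPairs P).image Prod.swap with hCl
  have hs : ∀ a b, (a, b) ∈ Cl → (b, a) ∈ Cl := by
    intro a b h
    rw [hCl, mem_start] at h ⊢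
    exact h.symm
  obtain ⟨x0, l', hl'⟩ : ∃ x0 l', l = x0 :: l' := by
    cases l with
    | nil => simp at l4
    | cons x0 l' => exact ⟨x0, l', rfl⟩
  have hx0 : x0 ∈ l := by rw [hl']; simp
  have hj : ∀ z ∈ l, Joined Cl x0 z := by
    rw [hl']
    apply joined_list
    intro a b hab
    rw [hCl, mem_start]
    left
    rw [l6, hl', cyc_cons]
    have e1 : x0 :: (l' ++ [x0]) = (x0 :: l') ++ [x0] := rfl
    rw [mem_pe_iff] at hab
    obtain ⟨q1, q2, hq⟩ := hab
    rw [mem_pe_iff, e1, hq]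
    exact ⟨q1, q2 ++ [x0], by simp⟩
  have hin : ∀ a b, (a, b) ∈ Cl → a ∈ l ∧ b ∈ l := by
    intro a b h
    rw [hCl, mem_start] at h
    rcases h with h | h
    · exact mem_of_mem_cyc l a b ((l6 a b).1 h)
    · exact (mem_of_mem_cyc l b a ((l6 b a).1 h)).symm
  have hcardH : (hullPairs P).card = l.length := by
    rw [← List.toFinset_card_of_nodup l1]
    apply Finset.card_bij (fun e _ => e.1)
    · rintro ⟨a, b⟩ h
      rw [mem_hullPairs] at h
      rw [List.mem_toFinset]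
      exact (mem_of_mem_cyc l a b ((l6 a b).1 h)).1
    · rintro ⟨a, b⟩ h ⟨c, d⟩ h' hac
      simp only at hac
      subst hac
      rw [mem_hullPairs] at h h'
      rw [h.succ_unique h']
    · intro a ha
      rw [List.mem_toFinset] at ha
      obtain ⟨b, hb⟩ := mem_cyc_of_mem l a ha
      exact ⟨(a, b), (mem_hullPairs P a b).2 ((l6 a b).2 hb), rfl⟩
  have hcardCl : Cl.card = 2 * l.length := by
    rw [hCl, Finset.card_union_of_disjoint, Finset.card_image_of_injective _ Prod.swap_injective,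
      hcardH]
    · ring
    · rw [Finset.disjoint_left]
      rintro ⟨a, b⟩ h h'
      rw [mem_hullPairs] at h
      rw [Finset.mem_image] at h'
      obtain ⟨⟨c, d⟩, h4, h5⟩ := h'
      rw [mem_hullPairs] at h4
      simp only [Prod.swap_prod_mk, Prod.mk.injEq] at h5
      obtain ⟨rfl, rfl⟩ := h5
      exact h.not_both h4 h3
  refine ⟨fun v => if v ∈ l then x0 else v, ?_, ?_⟩
  · intro u hu v hv
    constructor
    · intro h
      simp only at h
      by_cases h1 : u ∈ l
      · by_cases h2 : v ∈ l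
        · exact ((hj u h1).symm hs).trans (hj v h2)
        · rw [if_pos h1, if_neg h2] at h
          rw [← h] at h2
          exact absurd hx0 h2
      · by_cases h2 : v ∈ l
        · rw [if_neg h1, if_pos h2] at h
          rw [h] at h1
          exact absurd hx0 h1
        · rw [if_neg h1, if_neg h2] at h
          rw [h]; exact Joined.refl Cl v
    · intro h
      simp only
      clear hu hv
      induction h with
      | refl => rfl
      | tail _ h2 ih =>
        rw [ih]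
        obtain ⟨h4, h5⟩ := hin _ _ h2
        rw [if_pos h4, if_pos h5]
  · have himg : P.image (fun v => if v ∈ l then x0 else v) = insert x0 (P \ l.toFinset) := by
      ext z
      rw [Finset.mem_image, Finset.mem_insert, Finset.mem_sdiff, List.mem_toFinset]
      constructor
      · rintro ⟨v, hv, rfl⟩
        by_cases h : v ∈ l
        · left; rw [if_pos h]
        · right; rw [if_neg h]; exact ⟨hv, h⟩
      · rintro (rfl | ⟨h, h'⟩)
        · exact ⟨z, l2 z hx0, by rw [if_pos hx0]⟩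
        · exact ⟨z, h, by rw [if_neg h']⟩
    have h6 : (P \ l.toFinset).card + l.length = P.card := by
      rw [← List.toFinset_card_of_nodup l1]
      exact Finset.card_sdiff_add_card_eq_card (fun x hx => l2 x (List.mem_toFinset.1 hx))
    have h7 : (P.image (fun v => if v ∈ l then x0 else v)).card = (P \ l.toFinset).card + 1 := by
      rw [himg, Finset.card_insert_of_notMem]
      intro h
      exact (Finset.mem_sdiff.1 h).2 (List.mem_toFinset.2 hx0)
    rw [h7, hcardCl, hcardH]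
    omega

/-- POTENTIAL -/
theorem Reach.potential {P : Finset Pt} {C : Finset (Finset Pt)} (hF : Full P C) (hg : Gen P)
    (h3 : 3 ≤ P.card) {E : Finset (Finset Pt)} {Cl : Finset (Pt × Pt)} (hR : Reach P C E Cl) :
    ∃ lab, IsLab P Cl lab ∧ Cl.card + 2 * (P.image lab).card = 2 * P.card + 2 + 2 * E.card := by
  classical
  have hsub : ∀ t ∈ C, ∀ z ∈ t, z ∈ P := by
    intro t ht z hz
    rw [← hF.V_eq]; exact (mem_V C z).2 ⟨t, ht, hz⟩
  induction hR with
  | start =>
    obtain ⟨lab, h1, h2, _⟩ := start_lab hg h3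
    exact ⟨lab, h1, by rw [h2]; simp⟩
  | slit E Cl a b t h ht hab hj ih =>
    obtain ⟨lab, h1, h2⟩ := ih
    have hI := h.inv hF
    have hR' := Reach.slit E Cl a b t h ht hab hj
    have hI' := hR'.inv hF
    have ha : a ∈ P := hsub t ht a hab.1
    have hb : b ∈ P := hsub t ht b hab.2.1
    obtain ⟨lab', h4, h5⟩ := merge_lab (P := P) (Cl' := insert (a, b) (insert (b, a) Cl))
      hI'.symm (fun u v huv => ⟨(hI'.mem u v huv).1, (hI'.mem u v huv).2.1⟩)
      (fun e he => by simp only [Finset.mem_insert]; exact Or.inr (Or.inr he)) ha hb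
      (Joined.single (by simp)) hj
      (by
        intro u v huv
        simp only [Finset.mem_insert, Prod.mk.injEq] at huv
        rcases huv with ⟨rfl, rfl⟩ | ⟨rfl, rfl⟩ | h6
        · exact Or.inr (Or.inl ⟨Joined.refl Cl _, Joined.refl Cl _⟩)
        · exact Or.inr (Or.inr ⟨Joined.refl Cl _, Joined.refl Cl _⟩)
        · exact Or.inl (Joined.single h6)) h1
    refine ⟨lab', h4, ?_⟩
    rw [Finset.card_insert_of_notMem, Finset.card_insert_of_notMem]
    · omega
    · intro h6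
      exact hj ((Joined.single h6).symm hI.symm)
    · rw [Finset.mem_insert, not_or]
      constructor
      · intro h6
        rw [Prod.mk.injEq] at h6
        exact hab.2.2.1 h6.1
      · intro h6
        exact hj (Joined.single h6)
  | give E Cl x y a t h ht hc hxy hya hax hcl hj ih =>
    obtain ⟨lab, h1, h2⟩ := ih
    have hI := h.inv hF
    have hR' := Reach.give E Cl x y a t h ht hc hxy hya hax hcl hj
    have hI' := hR'.inv hF
    have hx : x ∈ P := hsub t ht x hxy.1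
    have ha : a ∈ P := hsub t ht a hax.1
    have hjxy : Joined Cl x y := Joined.single hcl
    have hjya : ¬ Joined Cl y a := fun h6 => hj (hjxy.trans h6)
    obtain ⟨lab', h4, h5⟩ := merge_lab (P := P)
      (Cl' := insert (y, a) (insert (a, y) (insert (a, x) (insert (x, a) Cl))))
      hI'.symm (fun u v huv => ⟨(hI'.mem u v huv).1, (hI'.mem u v huv).2.1⟩)
      (fun e he => by simp only [Finset.mem_insert]; exact Or.inr (Or.inr (Or.inr (Or.inr he))))
      hx ha (Joined.single (by simp)) hj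
      (by
        intro u v huv
        simp only [Finset.mem_insert, Prod.mk.injEq] at huv
        rcases huv with ⟨rfl, rfl⟩ | ⟨rfl, rfl⟩ | ⟨rfl, rfl⟩ | ⟨rfl, rfl⟩ | h6
        · exact Or.inr (Or.inl ⟨hjxy, Joined.refl Cl _⟩)
        · exact Or.inr (Or.inr ⟨Joined.refl Cl _, hjxy⟩)
        · exact Or.inr (Or.inr ⟨Joined.refl Cl _, Joined.refl Cl _⟩)
        · exact Or.inr (Or.inl ⟨Joined.refl Cl _, Joined.refl Cl _⟩)
        · exact Or.inl (Joined.single h6)) h1
    refine ⟨lab', h4, ?_⟩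
    have htE : t ∉ E := by
      intro h6
      exact hjya (Joined.single (hI.sides t h6 y a hya))
    have n1 : (x, a) ∉ Cl := fun h6 => hj (Joined.single h6)
    have n2 : (a, x) ∉ Cl := fun h6 => hj ((Joined.single h6).symm hI.symm)
    have n3 : (y, a) ∉ Cl := fun h6 => hjya (Joined.single h6)
    have n4 : (a, y) ∉ Cl := fun h6 => hjya ((Joined.single h6).symm hI.symm)
    have hxa : a ≠ x := hax.2.2.1
    have hya' : y ≠ a := hya.2.2.1
    have hxy' : x ≠ y := hxy.2.2.1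
    rw [Finset.card_insert_of_notMem, Finset.card_insert_of_notMem, Finset.card_insert_of_notMem,
      Finset.card_insert_of_notMem n1, Finset.card_insert_of_notMem htE]
    · omega
    · rw [Finset.mem_insert, not_or]
      refine ⟨?_, n2⟩
      intro h6
      rw [Prod.mk.injEq] at h6
      exact hxa h6.1
    · simp only [Finset.mem_insert, not_or, Prod.mk.injEq, not_and]
      refine ⟨?_, ?_, n4⟩
      · intro _ h6; exact hxy' h6.symm
      · intro h6; exact absurd h6 hxa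
    · simp only [Finset.mem_insert, not_or, Prod.mk.injEq, not_and]
      refine ⟨?_, ?_, ?_, n3⟩
      · intro h6; exact absurd h6 hya'
      · intro h6; exact absurd h6 hya'
      · intro h6; exact absurd h6.symm hxy'

/-- directed sides of a cell -/
noncomputable def sidesOf (t : Finset Pt) : Finset (Pt × Pt) :=
  open Classical in (t ×ˢ t).filter (fun e => HE t e.1 e.2)

theorem mem_sidesOf (t : Finset Pt) (a b : Pt) : (a, b) ∈ sidesOf t ↔ HE t a b := by
  classical
  unfold sidesOf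
  rw [Finset.mem_filter, Finset.mem_product]
  constructor
  · exact fun h => h.2
  · exact fun h => ⟨⟨h.1, h.2.1⟩, h⟩

theorem card_sidesOf {t : Finset Pt} (h : CP t) (h3 : 3 ≤ t.card) : (sidesOf t).card = t.card := by
  classical
  apply Finset.card_bij (fun e _ => e.1)
  · rintro ⟨a, b⟩ h
    rw [mem_sidesOf] at h
    exact h.1
  · rintro ⟨a, b⟩ h ⟨c, d⟩ h' hac
    simp only at hac
    subst hac
    rw [mem_sidesOf] at h h'
    rw [h.succ_unique h']
  · intro a ha
    obtain ⟨b, hb⟩ := h.exists_succ h3 ha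
    exact ⟨(a, b), (mem_sidesOf t a b).2 hb, rfl⟩

/-- open directed sides -/
noncomputable def openSides (C : Finset (Finset Pt)) (Cl : Finset (Pt × Pt)) : Finset (Pt × Pt) :=
  open Classical in (C.biUnion sidesOf).filter (fun e => e ∉ Cl)

theorem mem_openSides (C : Finset (Finset Pt)) (Cl : Finset (Pt × Pt)) (a b : Pt) :
    (a, b) ∈ openSides C Cl ↔ (∃ t ∈ C, HE t a b) ∧ (a, b) ∉ Cl := by
  classical
  unfold openSides
  rw [Finset.mem_filter, Finset.mem_biUnion]
  simp only [mem_sidesOf]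

/-- number of open sides -/
theorem Reach.openSides_le {P : Finset Pt} {C : Finset (Finset Pt)} (hF : Full P C) (hg : Gen P)
    (h3 : 3 ≤ P.card) {E : Finset (Finset Pt)} {Cl : Finset (Pt × Pt)} (hR : Reach P C E Cl)
    (heuler : ∑ t ∈ C, (t.card - 2) + (hullPairs P).card + 2 ≤ 2 * P.card)
    (hall : ∀ a ∈ P, ∀ b ∈ P, Joined Cl a b) :
    (openSides C Cl).card + 2 ≤ 2 * (C \ E).card := by
  classical
  have hI := hR.inv hF
  obtain ⟨lab, h1, h2⟩ := hR.potential hF hg h3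
  have hlab : (P.image lab).card = 1 := by
    rw [Finset.card_eq_one]
    obtain ⟨p, hp⟩ : P.Nonempty := Finset.card_pos.1 (by omega)
    refine ⟨lab p, ?_⟩
    ext z
    rw [Finset.mem_image, Finset.mem_singleton]
    constructor
    · rintro ⟨v, hv, rfl⟩
      exact (h1 v hv p hp).2 (hall v hv p hp)
    · rintro rfl
      exact ⟨p, hp, rfl⟩
  set D := C.biUnion sidesOf with hD
  have hDcard : D.card = ∑ t ∈ C, t.card := by
    rw [hD, Finset.card_biUnion]
    · apply Finset.sum_congr rfl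
      intro t ht
      exact card_sidesOf (hF.cx.cp t ht) (hF.cx.three t ht)
    · intro s hs t ht hst
      rw [Function.onFun, Finset.disjoint_left]
      rintro ⟨a, b⟩ h h'
      rw [mem_sidesOf] at h h'
      exact hst (hF.cx.side_unique hs ht h h')
  have hsplit : (openSides C Cl).card + (D.filter (fun e => e ∈ Cl)).card = D.card := by
    unfold openSides
    rw [add_comm]
    exact Finset.card_filter_add_card_filter_not (fun e => e ∈ Cl)
  have hCl : Cl.card ≤ (D.filter (fun e => e ∈ Cl)).card + (hullPairs P).card := by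
    have h4 : Cl ⊆ (D.filter (fun e => e ∈ Cl)) ∪ (hullPairs P).image Prod.swap := by
      rintro ⟨a, b⟩ h
      rw [Finset.mem_union, Finset.mem_filter]
      rcases hI.real a b h with h5 | ⟨t, ht, h5⟩
      · right
        rw [Finset.mem_image]
        exact ⟨(b, a), (mem_hullPairs P b a).2 h5, rfl⟩
      · left
        refine ⟨?_, h⟩
        rw [hD, Finset.mem_biUnion]
        exact ⟨t, ht, (mem_sidesOf t a b).2 h5⟩
    calc Cl.card ≤ _ := Finset.card_le_card h4
      _ ≤ _ := Finset.card_union_le _ _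
      _ ≤ _ := by
        have := Finset.card_image_le (s := hullPairs P) (f := Prod.swap)
        omega
  have hsum : ∑ t ∈ C, t.card = ∑ t ∈ C, (t.card - 2) + 2 * C.card := by
    rw [mul_comm, ← smul_eq_mul, ← Finset.sum_const, ← Finset.sum_add_distrib]
    apply Finset.sum_congr rfl
    intro t ht
    have := hF.cx.three t ht
    omega
  have hQ : (C \ E).card + E.card = C.card := Finset.card_sdiff_add_card_eq_card hI.sub
  omega

end Pool.Agent.RFX

end

section

set_option autoImplicit false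

/-!
# RFX/Asb : abstract assembly (MP_72a26e_co)

Q = cells connected through open sides; in every q in Q a point set G q and a complex TT q.
-/

namespace Pool.Agent.RFX

open List

/-- a connected graph with edge set B has at most card B + 1 vertices -/
theorem card_le_of_connected {α β : Type*} [DecidableEq α] [DecidableEq β] (N : Finset α)
    (B : Finset β) (l r : β → α)
    (hconn : ∀ S ⊆ N, S.Nonempty → S ≠ N → ∃ b ∈ B, (l b ∈ S ∧ r b ∈ N ∧ r b ∉ S) ∨
      (r b ∈ S ∧ l b ∈ N ∧ l b ∉ S)) : N.card ≤ B.card + 1 := by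
  have key : ∀ n, n + 1 ≤ N.card → ∃ S ⊆ N, S.card = n + 1 ∧ ∃ B' ⊆ B, B'.card = n ∧
      ∀ b ∈ B', l b ∈ S ∧ r b ∈ S := by
    intro n
    induction n with
    | zero =>
      intro h
      obtain ⟨x, hx⟩ : N.Nonempty := Finset.card_pos.1 (by omega)
      exact ⟨{x}, Finset.singleton_subset_iff.2 hx, by simp, ∅, by simp, by simp, by simp⟩
    | succ n ih =>
      intro h
      obtain ⟨S, hS, hSc, B', hB', hB'c, hB'2⟩ := ih (by omega)
      have hne : S.Nonempty := Finset.card_pos.1 (by omega)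
      have hSN : S ≠ N := by rintro rfl; omega
      obtain ⟨b, hb, hb2⟩ := hconn S hS hne hSN
      have hbB' : b ∉ B' := by
        intro h1
        have := hB'2 b h1
        rcases hb2 with h2 | h2
        · exact h2.2.2 this.2
        · exact h2.2.2 this.1
      rcases hb2 with h2 | h2
      · refine ⟨insert (r b) S, Finset.insert_subset h2.2.1 hS, ?_, insert b B',
          Finset.insert_subset hb hB', ?_, ?_⟩
        · rw [Finset.card_insert_of_notMem h2.2.2, hSc]
        · rw [Finset.card_insert_of_notMem hbB', hB'c]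
        · intro c hc
          rw [Finset.mem_insert] at hc
          rcases hc with rfl | hc
          · exact ⟨Finset.mem_insert_of_mem h2.1, Finset.mem_insert_self _ _⟩
          · exact ⟨Finset.mem_insert_of_mem (hB'2 c hc).1, Finset.mem_insert_of_mem (hB'2 c hc).2⟩
      · refine ⟨insert (l b) S, Finset.insert_subset h2.2.1 hS, ?_, insert b B',
          Finset.insert_subset hb hB', ?_, ?_⟩
        · rw [Finset.card_insert_of_notMem h2.2.2, hSc]
        · rw [Finset.card_insert_of_notMem hbB', hB'c]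
        · intro c hc
          rw [Finset.mem_insert] at hc
          rcases hc with rfl | hc
          · exact ⟨Finset.mem_insert_self _ _, Finset.mem_insert_of_mem h2.1⟩
          · exact ⟨Finset.mem_insert_of_mem (hB'2 c hc).1, Finset.mem_insert_of_mem (hB'2 c hc).2⟩
  rcases Nat.eq_zero_or_pos N.card with h | h
  · omega
  · obtain ⟨S, _, _, B', hB', hB'c, _⟩ := key (N.card - 1) (by omega)
    have := Finset.card_le_card hB'
    omega

/-- data for the assembly -/
structure AsbData (P : Finset Pt) (C : Finset (Finset Pt)) (Q : Finset (Finset Pt))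
    (Cl : Finset (Pt × Pt)) (G : Finset Pt → Finset Pt) (TT : Finset Pt → Finset (Finset Pt)) :
    Prop where
  cx : Cx C
  sub : Q ⊆ C
  three : 3 ≤ P.card
  g1 : ∀ q ∈ Q, ∀ x ∈ G q, x ∈ convexHull ℝ (q : Set Pt)
  g2 : ∀ q ∈ Q, ∀ a b, HE q a b → ∀ x ∈ G q, x ≠ a → x ≠ b → 0 < orient a b x
  g3 : ∀ q ∈ Q, ∀ a b, HE q a b → (a, b) ∉ Cl → a ∈ G q ∧ b ∈ G q
  symm : ∀ a b, (a, b) ∈ Cl → (b, a) ∈ Cl
  t1 : ∀ q ∈ Q, Cx (TT q)
  t2 : ∀ q ∈ Q, (TT q).Nonempty → V (TT q) = G q
  t3 : ∀ q ∈ Q, Conn (TT q)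
  t4 : ∀ q ∈ Q, (TT q).Nonempty → ∀ a b, HE q a b → (a, b) ∉ Cl → ∃ t ∈ TT q, HE t a b
  t5 : ∀ q ∈ Q, (TT q).Nonempty → ∑ t ∈ TT q, (t.card - 2) + 2 = (G q).card
  t6 : ∀ q ∈ Q, TT q = ∅ → (G q).card ≤ 2
  cover : ∀ v, v ∈ P ↔ ∃ q ∈ Q, v ∈ G q
  count : ∑ q ∈ Q, (G q).card ≤ P.card + (openSides C Cl).card
  opn : (openSides C Cl).card + 2 ≤ 2 * Q.card
  conn : ∀ O ⊆ Q, O.Nonempty → O ≠ Q → ∃ s ∈ O, ∃ t ∈ Q, t ∉ O ∧
    ∃ a b, HE s a b ∧ HE t b a ∧ (a, b) ∉ Cl

variable {P : Finset Pt} {C Q : Finset (Finset Pt)} {Cl : Finset (Pt × Pt)}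
  {G : Finset Pt → Finset Pt} {TT : Finset Pt → Finset (Finset Pt)}

theorem AsbData.sub2 (h : AsbData P C Q Cl G TT) {q t : Finset Pt} (hq : q ∈ Q)
    (ht : t ∈ TT q) : t ⊆ G q := by
  rw [← h.t2 q hq ⟨t, ht⟩]
  intro z hz
  exact (mem_V _ z).2 ⟨t, ht, hz⟩

theorem AsbData.inter (h : AsbData P C Q Cl G TT) {q q' : Finset Pt} (hq : q ∈ Q)
    (hq' : q' ∈ Q) (hne : q ≠ q') {B B' : Finset Pt} (hB : B ⊆ G q) (hB' : B' ⊆ G q') :
    convexHull ℝ (B : Set Pt) ∩ convexHull ℝ (B' : Set Pt) ⊆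
      convexHull ℝ ((B ∩ B' : Finset Pt) : Set Pt) ∧ G q ∩ G q' ⊆ q ∩ q' :=
  inter_big h.cx (h.sub hq) (h.sub hq') hne (h.g1 q hq) (h.g1 q' hq') (h.g2 q hq) (h.g2 q' hq')
    hB hB'

theorem AsbData.disj (h : AsbData P C Q Cl G TT) {q q' t : Finset Pt} (hq : q ∈ Q)
    (hq' : q' ∈ Q) (ht : t ∈ TT q) (ht' : t ∈ TT q') : q = q' := by
  by_contra hne
  have h1 := (h.inter hq hq' hne (h.sub2 hq ht) (h.sub2 hq' ht')).2
  have h2 : t ⊆ q ∩ q' := fun z hz =>
    h1 (Finset.mem_inter.2 ⟨h.sub2 hq ht hz, h.sub2 hq' ht' hz⟩)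
  have h3 := Finset.card_le_card h2
  have h4 := h.cx.two q (h.sub hq) q' (h.sub hq') hne
  have h5 := (h.t1 q hq).three t ht
  omega

theorem AsbData.Cx (h : AsbData P C Q Cl G TT) : Cx (Q.biUnion TT) := by
  classical
  refine ⟨?_, ?_, ?_, ?_⟩
  · intro t ht
    obtain ⟨q, hq, htq⟩ := Finset.mem_biUnion.1 ht
    exact (h.t1 q hq).cp t htq
  · intro t ht
    obtain ⟨q, hq, htq⟩ := Finset.mem_biUnion.1 ht
    exact (h.t1 q hq).three t htq
  · intro s hs t ht hst
    obtain ⟨q, hq, hsq⟩ := Finset.mem_biUnion.1 hs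
    obtain ⟨q', hq', htq⟩ := Finset.mem_biUnion.1 ht
    by_cases hqq : q = q'
    · subst hqq
      exact (h.t1 q hq).inter s hsq t htq hst
    · exact (h.inter hq hq' hqq (h.sub2 hq hsq) (h.sub2 hq' htq)).1
  · intro s hs t ht hst
    obtain ⟨q, hq, hsq⟩ := Finset.mem_biUnion.1 hs
    obtain ⟨q', hq', htq⟩ := Finset.mem_biUnion.1 ht
    by_cases hqq : q = q'
    · subst hqq
      exact (h.t1 q hq).two s hsq t htq hst
    · have h1 := (h.inter hq hq' hqq (h.sub2 hq hsq) (h.sub2 hq' htq)).2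
      have h2 : s ∩ t ⊆ q ∩ q' := by
        intro z hz
        rw [Finset.mem_inter] at hz
        exact h1 (Finset.mem_inter.2 ⟨h.sub2 hq hsq hz.1, h.sub2 hq' htq hz.2⟩)
      exact (Finset.card_le_card h2).trans (h.cx.two q (h.sub hq) q' (h.sub hq') hqq)

/-- a cell without complex has only one open side -/
theorem AsbData.leaf (h : AsbData P C Q Cl G TT) {q q1 q2 : Finset Pt} (hq : q ∈ Q)
    (hq1 : q1 ∈ Q) (hq2 : q2 ∈ Q) (hT : TT q = ∅) {a b c d : Pt} (h1 : HE q a b)
    (h1' : HE q1 b a) (h1o : (a, b) ∉ Cl) (h2 : HE q c d) (h2' : HE q2 d c)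
    (h2o : (c, d) ∉ Cl) : q1 = q2 := by
  have hc := h.t6 q hq hT
  have g1 := h.g3 q hq a b h1 h1o
  have g2 := h.g3 q hq c d h2 h2o
  have hG : G q = {a, b} := by
    symm
    apply Finset.eq_of_subset_of_card_le
    · intro z hz
      simp only [Finset.mem_insert, Finset.mem_singleton] at hz
      rcases hz with rfl | rfl
      · exact g1.1
      · exact g1.2
    · rw [Finset.card_pair h1.2.2.1]; exact hc
  rw [hG] at g2
  simp only [Finset.mem_insert, Finset.mem_singleton] at g2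
  have hcd := h2.2.2.1
  have h3 := h.cx.three q (h.sub hq)
  rcases g2.1 with e1 | e1 <;> rcases g2.2 with e2 | e2
  · exact absurd (e1.trans e2.symm) hcd
  · subst e1; subst e2
    exact h.cx.side_unique (h.sub hq1) (h.sub hq2) h1' h2'
  · subst e1; subst e2
    exact absurd h2 (fun h4 => h1.not_both h4 h3)
  · exact absurd (e1.trans e2.symm) hcd

theorem AsbData.Conn (h : AsbData P C Q Cl G TT) : Conn (Q.biUnion TT) := by
  classical
  intro S hS hne hST
  by_cases hsplit : ∃ q ∈ Q, (∃ s ∈ S, s ∈ TT q) ∧ ∃ t ∈ TT q, t ∉ S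
  · obtain ⟨q, hq, ⟨s, hs, hsq⟩, t, ht, htS⟩ := hsplit
    obtain ⟨s', hs', t', ht', ht'S, hadj⟩ := h.t3 q hq (S ∩ TT q) Finset.inter_subset_right
      ⟨s, Finset.mem_inter.2 ⟨hs, hsq⟩⟩ (by
        intro e
        rw [← e] at ht
        exact htS (Finset.mem_inter.1 ht).1)
    refine ⟨s', (Finset.mem_inter.1 hs').1, t', Finset.mem_biUnion.2 ⟨q, hq, ht'⟩, ?_, hadj⟩
    intro h1
    exact ht'S (Finset.mem_inter.2 ⟨h1, ht'⟩)
  · push Not at hsplit
    set S1 := Q.filter (fun q => ∃ s ∈ S, s ∈ TT q) with hS1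
    set S2 := S1 ∪ Q.filter (fun q => TT q = ∅ ∧ ∃ q0 ∈ S1, ∃ a b, HE q a b ∧ HE q0 b a ∧
      (a, b) ∉ Cl) with hS2
    have hS1Q : S1 ⊆ Q := Finset.filter_subset _ _
    have hS2Q : S2 ⊆ Q := Finset.union_subset hS1Q (Finset.filter_subset _ _)
    have hS2ne : S2.Nonempty := by
      obtain ⟨s, hs⟩ := hne
      obtain ⟨q, hq, hsq⟩ := Finset.mem_biUnion.1 (hS hs)
      exact ⟨q, Finset.mem_union_left _ (Finset.mem_filter.2 ⟨hq, s, hs, hsq⟩)⟩
    have hS2Q' : S2 ≠ Q := by
      intro e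
      apply hST
      apply Finset.Subset.antisymm hS
      intro t ht
      obtain ⟨q, hq, htq⟩ := Finset.mem_biUnion.1 ht
      have hq2 : q ∈ S2 := by rw [e]; exact hq
      rw [hS2, Finset.mem_union] at hq2
      rcases hq2 with h1 | h1
      · rw [hS1, Finset.mem_filter] at h1
        exact hsplit q hq h1.2 t htq
      · rw [Finset.mem_filter] at h1
        rw [h1.2.1] at htq
        simp at htq
    obtain ⟨q, hq, q', hq', hq'S, a, b, hab, hba, hcl⟩ := h.conn S2 hS2Q hS2ne hS2Q'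
    have hqQ := hS2Q hq
    have hclr : (b, a) ∉ Cl := fun h1 => hcl (h.symm _ _ h1)
    rw [hS2, Finset.mem_union] at hq
    rcases hq with h1 | h1
    · -- q in S1
      have h1' := h1
      rw [hS1, Finset.mem_filter] at h1
      obtain ⟨_, s, hs, hsq⟩ := h1
      have hT' : (TT q').Nonempty := by
        rw [Finset.nonempty_iff_ne_empty]
        intro e
        apply hq'S
        rw [hS2, Finset.mem_union]
        right
        rw [Finset.mem_filter]
        exact ⟨hq', e, q, h1', b, a, hba, hab, hclr⟩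
      obtain ⟨t, ht, ht2⟩ := h.t4 q hqQ ⟨s, hsq⟩ a b hab hcl
      obtain ⟨t', ht', ht2'⟩ := h.t4 q' hq' hT' b a hba hclr
      refine ⟨t, hsplit q hqQ ⟨s, hs, hsq⟩ t ht, t', Finset.mem_biUnion.2 ⟨q', hq', ht'⟩, ?_,
        a, b, ht2, ht2'⟩
      intro h2
      apply hq'S
      rw [hS2, Finset.mem_union]
      left
      rw [hS1, Finset.mem_filter]
      exact ⟨hq', t', h2, ht'⟩
    · rw [Finset.mem_filter] at h1
      obtain ⟨_, hTq, q0, hq0, a0, b0, h2, h3, h4⟩ := h1
      have : q0 = q' := h.leaf hqQ (hS1Q hq0) hq' hTq h2 h3 h4 hab hba hcl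
      subst this
      exact absurd (Finset.mem_union_left _ hq0) hq'S

/-- Q is not a single cell without complex; each such cell has exactly two points -/
theorem AsbData.leaf2 (h : AsbData P C Q Cl G TT) {q : Finset Pt} (hq : q ∈ Q)
    (hT : TT q = ∅) : (G q).card = 2 ∧ ∀ v ∈ G q, ∃ q' ∈ Q, (TT q').Nonempty ∧ v ∈ G q' := by
  classical
  have hc := h.t6 q hq hT
  have hQ1 : ({q} : Finset (Finset Pt)) ≠ Q := by
    intro e
    have h1 : P ⊆ G q := by
      intro v hv
      obtain ⟨q', hq', hv'⟩ := (h.cover v).1 hv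
      rw [← e, Finset.mem_singleton] at hq'
      rw [← hq']; exact hv'
    have h2 := Finset.card_le_card h1
    have h3 := h.three
    omega
  obtain ⟨s, hs, q', hq', hq's, a, b, hab, hba, hcl⟩ := h.conn {q}
    (Finset.singleton_subset_iff.2 hq) (Finset.singleton_nonempty q) hQ1
  rw [Finset.mem_singleton] at hs
  subst hs
  have g1 := h.g3 s hq a b hab hcl
  have hclr : (b, a) ∉ Cl := fun h1 => hcl (h.symm _ _ h1)
  have g2 := h.g3 q' hq' b a hba hclr
  have hpair : ({a, b} : Finset Pt).card = 2 := Finset.card_pair hab.2.2.1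
  have hG : G s = {a, b} := by
    symm
    apply Finset.eq_of_subset_of_card_le
    · intro z hz
      simp only [Finset.mem_insert, Finset.mem_singleton] at hz
      rcases hz with rfl | rfl
      · exact g1.1
      · exact g1.2
    · rw [hpair]; exact hc
  refine ⟨by rw [hG, hpair], ?_⟩
  intro v hv
  have hvq' : v ∈ G q' := by
    rw [hG] at hv
    simp only [Finset.mem_insert, Finset.mem_singleton] at hv
    rcases hv with rfl | rfl
    · exact g2.2
    · exact g2.1
  by_cases hT' : TT q' = ∅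
  · exfalso
    have hc' := h.t6 q' hq' hT'
    have hG' : G q' = {a, b} := by
      symm
      apply Finset.eq_of_subset_of_card_le
      · intro z hz
        simp only [Finset.mem_insert, Finset.mem_singleton] at hz
        rcases hz with rfl | rfl
        · exact g2.2
        · exact g2.1
      · rw [hpair]; exact hc'
    have hQ2 : ({s, q'} : Finset (Finset Pt)) ≠ Q := by
      intro e
      have h1 : P ⊆ {a, b} := by
        intro z hz
        obtain ⟨q2, hq2, hz'⟩ := (h.cover z).1 hz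
        rw [← e, Finset.mem_insert, Finset.mem_singleton] at hq2
        rcases hq2 with rfl | rfl
        · rw [← hG]; exact hz'
        · rw [← hG']; exact hz'
      have h2 := Finset.card_le_card h1
      have h3 := h.three
      omega
    obtain ⟨s2, hs2, q2, hq2, hq2s, c, d, hcd, hdc, hcl2⟩ := h.conn {s, q'}
      (by
        intro z hz
        rw [Finset.mem_insert, Finset.mem_singleton] at hz
        rcases hz with rfl | rfl
        · exact hq
        · exact hq')
      ⟨s, Finset.mem_insert_self _ _⟩ hQ2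
    rw [Finset.mem_insert, Finset.mem_singleton] at hs2
    rcases hs2 with rfl | rfl
    · have := h.leaf hq hq' hq2 hT hab hba hcl hcd hdc hcl2
      subst this
      exact hq2s (by simp)
    · have := h.leaf hq' hq hq2 hT' hba hab hclr hcd hdc hcl2
      subst this
      exact hq2s (by simp)
  · exact ⟨q', hq', Finset.nonempty_iff_ne_empty.2 hT', hvq'⟩

theorem AsbData.V_eq (h : AsbData P C Q Cl G TT) : V (Q.biUnion TT) = P := by
  classical
  ext v
  rw [mem_V]
  constructor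
  · rintro ⟨t, ht, hv⟩
    obtain ⟨q, hq, htq⟩ := Finset.mem_biUnion.1 ht
    exact (h.cover v).2 ⟨q, hq, h.sub2 hq htq hv⟩
  · intro hv
    obtain ⟨q, hq, hvq⟩ := (h.cover v).1 hv
    have main : ∀ q ∈ Q, (TT q).Nonempty → v ∈ G q → ∃ t ∈ Q.biUnion TT, v ∈ t := by
      intro q hq hT hvq
      rw [← h.t2 q hq hT, mem_V] at hvq
      obtain ⟨t, ht, hvt⟩ := hvq
      exact ⟨t, Finset.mem_biUnion.2 ⟨q, hq, ht⟩, hvt⟩
    by_cases hT : TT q = ∅
    · obtain ⟨q', hq', hT', hv'⟩ := (h.leaf2 hq hT).2 v hvq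
      exact main q' hq' hT' hv'
    · exact main q hq (Finset.nonempty_iff_ne_empty.2 hT) hvq

theorem AsbData.nonempty (h : AsbData P C Q Cl G TT) : (Q.biUnion TT).Nonempty := by
  classical
  have h3 := h.three
  obtain ⟨p, hp⟩ : P.Nonempty := Finset.card_pos.1 (by omega)
  rw [← h.V_eq, mem_V] at hp
  obtain ⟨t, ht, _⟩ := hp
  exact ⟨t, ht⟩

theorem AsbData.sum (h : AsbData P C Q Cl G TT) :
    ∑ t ∈ Q.biUnion TT, (t.card - 2) + 2 = P.card := by
  classical
  have e1 : ∑ t ∈ Q.biUnion TT, (t.card - 2) = ∑ q ∈ Q, ∑ t ∈ TT q, (t.card - 2) := by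
    apply Finset.sum_biUnion
    intro q hq q' hq' hne
    rw [Function.onFun, Finset.disjoint_left]
    intro t ht ht'
    exact hne (h.disj hq hq' ht ht')
  have e2 : ∀ q ∈ Q, ∑ t ∈ TT q, (t.card - 2) + 2 = (G q).card := by
    intro q hq
    by_cases hT : TT q = ∅
    · rw [hT, Finset.sum_empty, (h.leaf2 hq hT).1]
    · exact h.t5 q hq (Finset.nonempty_iff_ne_empty.2 hT)
  have e3 : ∑ q ∈ Q, ∑ t ∈ TT q, (t.card - 2) + 2 * Q.card = ∑ q ∈ Q, (G q).card := by
    rw [mul_comm, ← smul_eq_mul, ← Finset.sum_const, ← Finset.sum_add_distrib]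
    exact Finset.sum_congr rfl e2
  have hle : ∑ t ∈ Q.biUnion TT, (t.card - 2) + 2 ≤ P.card := by
    have h1 := h.count
    have h2 := h.opn
    omega
  -- lower bound
  obtain ⟨t0, ht0⟩ := h.nonempty
  have h5 := card_V_le (Q.biUnion TT) h.Cx h.Conn (Q.biUnion TT \ {t0}).card {t0}
    (by simpa using ht0) (by simp) rfl
  have h6 : V {t0} = t0 := by simp [V]
  rw [h6, h.V_eq] at h5
  have h7 : ∑ t ∈ Q.biUnion TT, (t.card - 2) = (t0.card - 2) +
      ∑ t ∈ Q.biUnion TT \ {t0}, (t.card - 2) := by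
    rw [← Finset.sum_sdiff (show {t0} ⊆ Q.biUnion TT by simpa using ht0), Finset.sum_singleton]
    ring
  have h8 := h.Cx.three t0 ht0
  omega

/-- the points in two cells -/
theorem AsbData.multi (h : AsbData P C Q Cl G TT) {v : Pt} (hv : v ∈ multi P (Q.biUnion TT)) :
    (∃ q ∈ Q, ∃ q' ∈ Q, q ≠ q' ∧ v ∈ G q ∧ v ∈ G q' ∧ v ∈ q) ∨
      ∃ q ∈ Q, v ∈ RFX.multi (G q) (TT q) := by
  classical
  unfold RFX.multi at hv
  rw [Finset.mem_filter] at hv
  obtain ⟨_, s, hs, t, ht, hst, hvs, hvt⟩ := hv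
  obtain ⟨q, hq, hsq⟩ := Finset.mem_biUnion.1 hs
  obtain ⟨q', hq', htq⟩ := Finset.mem_biUnion.1 ht
  by_cases hqq : q = q'
  · subst hqq
    right
    refine ⟨q, hq, ?_⟩
    unfold RFX.multi
    rw [Finset.mem_filter]
    exact ⟨h.sub2 hq hsq hvs, s, hsq, t, htq, hst, hvs, hvt⟩
  · left
    have h1 := (h.inter hq hq' hqq (Finset.Subset.refl _) (Finset.Subset.refl _)).2
    have h2 := h1 (Finset.mem_inter.2 ⟨h.sub2 hq hsq hvs, h.sub2 hq' htq hvt⟩)
    exact ⟨q, hq, q', hq', hqq, h.sub2 hq hsq hvs, h.sub2 hq' htq hvt, (Finset.mem_inter.1 h2).1⟩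

end Pool.Agent.RFX

end

section

set_option autoImplicit false

/-!
# RFX/Keep : the keep rule and its count (MP_72a26e_co)
-/

namespace Pool.Agent.RFX

open List

/-- the cell q is active at v: it is hard, or it has an open side at v -/
def Act (Hd : Finset (Finset Pt)) (Cl : Finset (Pt × Pt)) (v : Pt) (q : Finset Pt) : Prop :=
  v ∈ q ∧ (q ∈ Hd ∨ ∃ b, (v, b) ∉ Cl ∧ (HE q v b ∨ HE q b v))

/-- two cells share an open side at v -/
def AdjAt (C E : Finset (Finset Pt)) (Cl : Finset (Pt × Pt)) (v : Pt) (q q' : Finset Pt) : Prop :=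
  q ∈ C \ E ∧ q' ∈ C \ E ∧ ∃ b, (v, b) ∉ Cl ∧ ((HE q v b ∧ HE q' b v) ∨ (HE q b v ∧ HE q' v b))

/-- the active cells at v are connected through open sides at v -/
def ConnAt (C E Hd : Finset (Finset Pt)) (Cl : Finset (Pt × Pt)) (v : Pt) : Prop :=
  ∀ q ∈ C \ E, ∀ q' ∈ C \ E, Act Hd Cl v q → Act Hd Cl v q' →
    Relation.ReflTransGen (AdjAt C E Cl v) q q'

theorem crossing {α : Type*} {R : α → α → Prop} {a b : α} (h : Relation.ReflTransGen R a b)
    (S : Finset α) (ha : a ∈ S) (hb : b ∉ S) : ∃ p p', R p p' ∧ p ∈ S ∧ p' ∉ S := by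
  induction h with
  | refl => exact absurd ha hb
  | @tail c d _ h2 ih =>
    by_cases hc : c ∈ S
    · exact ⟨c, d, h2, hc, hb⟩
    · exact ih hc

/-- kept vertices of a cell -/
noncomputable def Kp (C E Hd : Finset (Finset Pt)) (Cl : Finset (Pt × Pt)) (asg : Pt → Finset Pt)
    (q : Finset Pt) : Finset Pt :=
  open Classical in q.filter (fun v => Act Hd Cl v q ∨
    ((∀ q' ∈ C \ E, ¬ Act Hd Cl v q') ∧ asg v = q))

theorem mem_Kp (C E Hd : Finset (Finset Pt)) (Cl : Finset (Pt × Pt)) (asg : Pt → Finset Pt)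
    (q : Finset Pt) (v : Pt) : v ∈ Kp C E Hd Cl asg q ↔ v ∈ q ∧ (Act Hd Cl v q ∨
    ((∀ q' ∈ C \ E, ¬ Act Hd Cl v q') ∧ asg v = q)) := by
  classical
  unfold Kp
  rw [Finset.mem_filter]

theorem Kp_sub (C E Hd : Finset (Finset Pt)) (Cl : Finset (Pt × Pt)) (asg : Pt → Finset Pt)
    (q : Finset Pt) : Kp C E Hd Cl asg q ⊆ q := by
  intro v hv
  exact ((mem_Kp C E Hd Cl asg q v).1 hv).1

theorem Kp_hard (C E Hd : Finset (Finset Pt)) (Cl : Finset (Pt × Pt)) (asg : Pt → Finset Pt)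
    (q : Finset Pt) (hq : q ∈ Hd) : Kp C E Hd Cl asg q = q := by
  apply Finset.Subset.antisymm (Kp_sub C E Hd Cl asg q)
  intro v hv
  rw [mem_Kp]
  exact ⟨hv, Or.inl ⟨hv, Or.inl hq⟩⟩

/-- at every vertex at least one and at most (open sides + 1) cells are kept -/
theorem Kp_count {P : Finset Pt} {C E Hd : Finset (Finset Pt)} {Cl : Finset (Pt × Pt)}
    (hF : Full P C) (hI : RInv P C E Cl) (asg : Pt → Finset Pt)
    (hasg : ∀ v ∈ P, asg v ∈ C \ E ∧ v ∈ asg v) {v : Pt} (hv : v ∈ P)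
    (hAt : ConnAt C E Hd Cl v) :
    (∃ q ∈ C \ E, v ∈ Kp C E Hd Cl asg q) ∧
      (open Classical in ((C \ E).filter (fun q => v ∈ Kp C E Hd Cl asg q)).card ≤
        ((openSides C Cl).filter (fun e => e.1 = v)).card + 1) := by
  classical
  have hCE : ∀ q ∈ C \ E, q ∈ C := fun q hq => (Finset.mem_sdiff.1 hq).1
  by_cases hid : ∀ q' ∈ C \ E, ¬ Act Hd Cl v q'
  · constructor
    · exact ⟨asg v, (hasg v hv).1, (mem_Kp _ _ _ _ _ _ _).2 ⟨(hasg v hv).2, Or.inr ⟨hid, rfl⟩⟩⟩
    · have h1 : (C \ E).filter (fun q => v ∈ Kp C E Hd Cl asg q) ⊆ {asg v} := by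
        intro q hq
        rw [Finset.mem_filter, mem_Kp] at hq
        rw [Finset.mem_singleton]
        rcases hq.2.2 with h2 | h2
        · exact absurd h2 (hid q hq.1)
        · exact h2.2.symm
      have h2 := Finset.card_le_card h1
      rw [Finset.card_singleton] at h2
      omega
  · push Not at hid
    obtain ⟨q0, hq0, hq0A⟩ := hid
    constructor
    · exact ⟨q0, hq0, (mem_Kp _ _ _ _ _ _ _).2 ⟨hq0A.1, Or.inl hq0A⟩⟩
    · have hN : (C \ E).filter (fun q => v ∈ Kp C E Hd Cl asg q) =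
          (C \ E).filter (fun q => Act Hd Cl v q) := by
        ext q
        rw [Finset.mem_filter, Finset.mem_filter, mem_Kp]
        constructor
        · rintro ⟨hq, h1, h2 | h2⟩
          · exact ⟨hq, h2⟩
          · exact absurd hq0A (h2.1 q0 hq0)
        · rintro ⟨hq, h1⟩
          exact ⟨hq, h1.1, Or.inl h1⟩
      rw [hN]
      have key : ∀ e ∈ (openSides C Cl).filter (fun e => e.1 = v),
          ∃ p : Finset Pt × Finset Pt, p.1 ∈ C ∧ p.2 ∈ C ∧ HE p.1 e.1 e.2 ∧ HE p.2 e.2 e.1 := by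
        rintro ⟨a, b⟩ he
        rw [Finset.mem_filter, mem_openSides] at he
        obtain ⟨⟨⟨t, ht, hab⟩, hcl⟩, _⟩ := he
        rcases hF.side t ht a b hab with h1 | ⟨s, hs, h1⟩
        · exact absurd (hI.hull a b h1) hcl
        · exact ⟨(t, s), ht, hs, hab, h1⟩
      choose! f hf1 hf2 hf3 hf4 using key
      apply card_le_of_connected _ _ (fun e => (f e).1) (fun e => (f e).2)
      intro S hS hne hSN
      obtain ⟨q, hq⟩ := hne
      obtain ⟨q', hq', hq'S⟩ : ∃ q' ∈ (C \ E).filter (fun q => Act Hd Cl v q), q' ∉ S := by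
        by_contra h1
        push Not at h1
        exact hSN (Finset.Subset.antisymm hS h1)
      have hqN := Finset.mem_filter.1 (hS hq)
      rw [Finset.mem_filter] at hq'
      obtain ⟨p, p', hpp, hp, hp'⟩ := crossing (hAt q hqN.1 q' hq'.1 hqN.2 hq'.2) S hq hq'S
      obtain ⟨hpQ, hp'Q, b, hb, hside⟩ := hpp
      rcases hside with ⟨h1, h2⟩ | ⟨h1, h2⟩
      · have he : (v, b) ∈ (openSides C Cl).filter (fun e => e.1 = v) := by
          rw [Finset.mem_filter, mem_openSides]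
          exact ⟨⟨⟨p, hCE p hpQ, h1⟩, hb⟩, rfl⟩
        have e1 : (f (v, b)).1 = p := hF.cx.side_unique (hf1 _ he) (hCE p hpQ) (hf3 _ he) h1
        have e2 : (f (v, b)).2 = p' := hF.cx.side_unique (hf2 _ he) (hCE p' hp'Q) (hf4 _ he) h2
        refine ⟨(v, b), he, Or.inl ⟨?_, ?_, ?_⟩⟩
        · show (f (v, b)).1 ∈ S
          rw [e1]; exact hp
        · show (f (v, b)).2 ∈ _
          rw [e2, Finset.mem_filter]
          exact ⟨hp'Q, h2.2.1, Or.inr ⟨b, hb, Or.inr h2⟩⟩
        · show (f (v, b)).2 ∉ S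
          rw [e2]; exact hp'
      · have he : (v, b) ∈ (openSides C Cl).filter (fun e => e.1 = v) := by
          rw [Finset.mem_filter, mem_openSides]
          exact ⟨⟨⟨p', hCE p' hp'Q, h2⟩, hb⟩, rfl⟩
        have e1 : (f (v, b)).1 = p' := hF.cx.side_unique (hf1 _ he) (hCE p' hp'Q) (hf3 _ he) h2
        have e2 : (f (v, b)).2 = p := hF.cx.side_unique (hf2 _ he) (hCE p hpQ) (hf4 _ he) h1
        refine ⟨(v, b), he, Or.inr ⟨?_, ?_, ?_⟩⟩
        · show (f (v, b)).2 ∈ S
          rw [e2]; exact hp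
        · show (f (v, b)).1 ∈ _
          rw [e1, Finset.mem_filter]
          exact ⟨hp'Q, h2.1, Or.inr ⟨b, hb, Or.inl h2⟩⟩
        · show (f (v, b)).1 ∉ S
          rw [e1]; exact hp'

theorem Kp_sum {P : Finset Pt} {C E Hd : Finset (Finset Pt)} {Cl : Finset (Pt × Pt)}
    (hF : Full P C) (hI : RInv P C E Cl) (asg : Pt → Finset Pt)
    (hasg : ∀ v ∈ P, asg v ∈ C \ E ∧ v ∈ asg v) (hAt : ∀ v ∈ P, ConnAt C E Hd Cl v) :
    ∑ q ∈ C \ E, (Kp C E Hd Cl asg q).card ≤ P.card + (openSides C Cl).card := by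
  classical
  have hsub : ∀ t ∈ C, ∀ z ∈ t, z ∈ P := by
    intro t ht z hz
    rw [← hF.V_eq]; exact (mem_V C z).2 ⟨t, ht, hz⟩
  have h1 : ∑ q ∈ C \ E, (Kp C E Hd Cl asg q).card =
      ∑ v ∈ P, ((C \ E).filter (fun q => v ∈ Kp C E Hd Cl asg q)).card := by
    simp only [Finset.card_filter]
    rw [Finset.sum_comm]
    apply Finset.sum_congr rfl
    intro q hq
    rw [← Finset.card_filter]
    congr 1
    ext v
    rw [Finset.mem_filter]
    constructor
    · intro h
      exact ⟨hsub q (Finset.mem_sdiff.1 hq).1 v (Kp_sub C E Hd Cl asg q h), h⟩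
    · exact fun h => h.2
  have h2 : ∑ v ∈ P, ((openSides C Cl).filter (fun e => e.1 = v)).card = (openSides C Cl).card := by
    symm
    apply Finset.card_eq_sum_card_fiberwise
    rintro ⟨a, b⟩ he
    rw [Finset.mem_coe, mem_openSides] at he
    obtain ⟨⟨t, ht, hab⟩, _⟩ := he
    exact hsub t ht a hab.1
  rw [h1]
  calc ∑ v ∈ P, ((C \ E).filter (fun q => v ∈ Kp C E Hd Cl asg q)).card
      ≤ ∑ v ∈ P, (((openSides C Cl).filter (fun e => e.1 = v)).card + 1) := by
        apply Finset.sum_le_sum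
        intro v hv
        exact (Kp_count hF hI asg hasg hv (hAt v hv)).2
    _ = P.card + (openSides C Cl).card := by
        rw [Finset.sum_add_distrib, h2]
        simp only [Finset.sum_const, smul_eq_mul, mul_one]
        ring

end Pool.Agent.RFX

end

section

set_option autoImplicit false

/-!
# RFX/Trans : transition of the state at one live end-edge zone (MP_72a26e_co) -- helper76

`nxt` = the new dynamic data when the zone `i` is replaced by `z'` (`keep`) or removed (`¬ keep`), the closed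
part becomes `E'`, `Cl'` and the classes of the points of `X` are joined.  `TrH` = the local hypotheses which
CLOSE and OPEN have to verify.  `trans` : the new data are a state again.
-/

namespace Pool.Agent.RFX

open Classical in
/-- the new dynamic data -/
noncomputable def nxt (S : Sta) (D : Dyn) (i : ZI) (E' : Finset (Finset Pt))
    (Cl' : Finset (Pt × Pt)) (keep : Prop) (z' : Zone) (X : Set Pt) : Dyn where
  E := E'
  Cl := Cl'
  I := D.I.filter (fun j => j ≠ i ∨ keep)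
  Z := fun j => if j = i then z' else D.Z j
  A := D.A.filter (fun v => (S.T v = i ∨ S.H v = i) → (keep ∧ v ∈ z'.vs))
  Fr := D.Fr.filter (fun v => ((S.T v = i ∨ S.H v = i) → (keep ∧ v ∈ z'.vs)) ∧ v ∉ X)
  fref := fun v => if v ∈ D.Fr ∧ v ∈ X then
    (if ∃ e ∈ z'.ring, (e.a = v ∨ e.b = v) ∧ e.s = some (D.fp v) then D.fp v else D.fm v)
    else D.fref v
  fp := D.fp
  fm := D.fm

/-- local hypotheses of the transition at the zone `i` -/
structure TrH (S : Sta) (D : Dyn) (i : ZI) (E' : Finset (Finset Pt))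
    (Cl' : Finset (Pt × Pt)) (keep : Prop) (z' : Zone) (X : Set Pt) : Prop where
  reach : Reach S.P S.C E' Cl'
  hCl : D.Cl ⊆ Cl'
  hE : D.E ⊆ E'
  join : ∀ a b, Joined Cl' a b →
    Joined D.Cl a b ∨ ∃ p ∈ X, ∃ q ∈ X, Joined D.Cl a p ∧ Joined D.Cl q b
  hX : ∀ v ∈ X, v ∈ (D.Z i).vs
  new : ∀ a b, (a, b) ∈ Cl' → (a, b) ∈ D.Cl ∨ (a ∈ X ∧ b ∈ X ∧
    ((∃ g ∈ E', g ∈ (D.Z i).cells ∧ (HE g a b ∨ HE g b a)) ∨
      (a = (D.Z i).x ∧ b = (D.Z i).y) ∨ (a = (D.Z i).y ∧ b = (D.Z i).x)))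
  Esub : ∀ c ∈ E', c ∈ D.E ∨ c ∈ (D.Z i).cells
  z1 : keep → ∀ c ∈ z'.cells, c ∈ (D.Z i).cells ∧ c ∉ E'
  z2 : ∀ c ∈ (D.Z i).cells, c ∈ E' ∨ (keep ∧ c ∈ z'.cells)
  nd : keep → z'.vs.Nodup
  vs : keep → ∀ v ∈ z'.vs, v ∈ (D.Z i).vs
  okt : keep → z'.t.Ok z'.x z'.y ∧ z'.t'.Ok z'.y z'.x
  nb : keep → ¬ z'.Bare
  ring : keep → ∀ e ∈ z'.ring, e ∈ (D.Z i).ring ∨ (e.s = none ∧ (e.a, e.b) ∈ Cl')
  opn : keep → ∀ e ∈ z'.ring, e.s ≠ none → (e.a, e.b) ∉ D.Cl → (e.a, e.b) ∉ Cl'
  k1 : keep → ∀ v ∈ z'.vs, v ∈ D.A → v ∉ X → ∀ e e', At z' v e e' → At (D.Z i) v e e'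
  k2 : keep → ∀ v ∈ z'.vs, v ∈ D.A → v ∈ X → ∀ e e', At z' v e e' →
    (e ∈ (D.Z i).ring ∧ e'.s = none) ∨ (e' ∈ (D.Z i).ring ∧ e.s = none)
  m : ∀ e ∈ (D.Z i).ring, (keep ∧ e ∈ z'.ring) ∨ (e.a, e.b) ∈ Cl'
  n : keep → ∀ c ∈ z'.cells, ∀ c' ∈ z'.cells, ∀ a b, HE c a b → HE c' b a → (a, b) ∉ Cl'
  o : (D.Z i).x ∈ D.A → ¬ (keep ∧ (D.Z i).x ∈ z'.vs)

theorem trans {S : Sta} {D : Dyn} {i : ZI} {w w'' : Pt} (hS : StaOk S) (h : St S D)
    (hc : Cross S D i w w'') {E' : Finset (Finset Pt)} {Cl' : Finset (Pt × Pt)} {keep : Prop}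
    {z' : Zone} {X : Set Pt} (H : TrH S D i E' Cl' keep z' X)
    (hdead : w ∉ (nxt S D i E' Cl' keep z' X).A ∨ w'' ∉ (nxt S D i E' Cl' keep z' X).A) :
    St S (nxt S D i E' Cl' keep z' X) := by
  classical
  have hwA : w ∈ D.A := h.FrA hc.wFr
  have hi : i ∈ D.I := by rw [← hc.Tw]; exact (h.l1 w hwA).1
  have hwy : w = (D.Z i).y := (h.v1 i hc.live hc.ed w hwA hc.Tw).1
  have hN : (D.Z i).x ∉ D.Fr := h.v2 i hc.live hc.ed
  have hsym : ∀ a b, (a, b) ∈ D.Cl → (b, a) ∈ D.Cl := (h.inv hS).symm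
  have hsym' : ∀ a b, (a, b) ∈ Cl' → (b, a) ∈ Cl' := (H.reach.inv hS.full).symm
  -- links on the ring of `i` are free, or `N`
  have hAz : ∀ v ∈ D.A, v ∈ (D.Z i).vs → v ∈ D.Fr ∨ v = (D.Z i).x := by
    intro v hv hvz
    rcases Zone.mem_vs.1 hvz with h1 | h1 | h1
    · exact Or.inr h1
    · left; rw [h1, ← hwy]; exact hc.wFr
    · exact Or.inl (h.v5 i hc.live v h1 hv)
  have hw_alone : ∀ b, Joined D.Cl w b → b = w := by
    intro b hb
    rcases Relation.ReflTransGen.cases_head hb with h1 | ⟨c, h1, _⟩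
    · exact h1.symm
    · exact absurd h1 (h.l4 w hc.wFr c)
  set D' := nxt S D i E' Cl' keep z' X with hD'
  have eE : D'.E = E' := rfl
  have eCl : D'.Cl = Cl' := rfl
  have hI : ∀ j, j ∈ D'.I ↔ j ∈ D.I ∧ (j ≠ i ∨ keep) := by
    intro j; rw [hD']; simp [nxt]
  have hZ : ∀ j, D'.Z j = if j = i then z' else D.Z j := fun j => rfl
  have hZi : D'.Z i = z' := by rw [hZ, if_pos rfl]
  have hZj : ∀ j, j ≠ i → D'.Z j = D.Z j := fun j hj => by rw [hZ, if_neg hj]
  have hA : ∀ v, v ∈ D'.A ↔ v ∈ D.A ∧ ((S.T v = i ∨ S.H v = i) → (keep ∧ v ∈ z'.vs)) := by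
    intro v; rw [hD']; simp [nxt]
  have hFr : ∀ v, v ∈ D'.Fr ↔ v ∈ D.Fr ∧ ((S.T v = i ∨ S.H v = i) → (keep ∧ v ∈ z'.vs)) ∧
      v ∉ X := by
    intro v; rw [hD']; simp [nxt]
  have hAsub : (D'.A : Set Pt) ⊆ (D.A : Set Pt) := by
    intro v hv
    exact ((hA v).1 hv).1
  have hdead' : ¬ Live S D' i ∧ ¬ Live S D' (S.H w) := by
    apply hc.dead _ hAsub
    rcases hdead with h1 | h1
    · exact Or.inl (fun h2 => h1 h2)
    · exact Or.inr (fun h2 => h1 h2)
  have hlive : ∀ j, Live S D' j → Live S D j := fun j hj =>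
    _root_.RFX.Cr.Live.mono hj hAsub
  have hlne : ∀ j, Live S D' j → j ≠ i := by
    rintro j hj rfl; exact hdead'.1 hj
  have hlneH : ∀ j, Live S D' j → j ≠ S.H w := by
    rintro j hj rfl; exact hdead'.2 hj
  -- a link of the ring of `i` which survives is a vertex of the new ring
  have hsurv : ∀ v ∈ D'.A, v ∈ (D.Z i).vs → keep ∧ v ∈ z'.vs := by
    intro v hv hvz
    obtain ⟨h1, h2⟩ := (hA v).1 hv
    apply h2
    rcases h.l1' v h1 i hi hvz with h3 | h3
    · exact Or.inl h3.symm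
    · exact Or.inr h3.symm
  -- newly closed pairs
  have hnew : ∀ a b, (a, b) ∈ Cl' → (a, b) ∉ D.Cl → a ∈ X ∧ b ∈ X ∧
      ((∃ g ∈ (D.Z i).cells, (HE g a b ∨ HE g b a)) ∨
        ((D.Z i).Bare ∧ ((a = (D.Z i).x ∧ b = (D.Z i).y) ∨
          (a = (D.Z i).y ∧ b = (D.Z i).x)))) := by
    intro a b hab hab'
    rcases H.new a b hab with h1 | ⟨ha, hb, h1⟩
    · exact absurd h1 hab'
    refine ⟨ha, hb, ?_⟩
    rcases h1 with ⟨g, _, hg, h2⟩ | h1
    · exact Or.inl ⟨g, hg, h2⟩
    · by_cases hbz : (D.Z i).Bare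
      · exact Or.inr ⟨hbz, h1⟩
      · left
        obtain ⟨c, hc', h2⟩ := Zone.root (h.okt i hi).1 (h.okt i hi).2 hbz
        refine ⟨c, hc', ?_⟩
        rcases h1 with ⟨rfl, rfl⟩ | ⟨rfl, rfl⟩
        · exact h2
        · exact h2.symm
  -- other zones: ring darts with a real face are not closed by the operation
  have hreal : ∀ j ∈ D.I, j ≠ i → ∀ e ∈ (D.Z j).ring, ∀ f ∈ S.F, HE f e.a e.b →
      (e.a, e.b) ∉ D.Cl → (e.a, e.b) ∉ Cl' := by
    intro j hj hji e he f hf hfe hncl hcl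
    obtain ⟨_, _, h1⟩ := hnew _ _ hcl hncl
    rcases h1 with ⟨g, hg, h2 | h2⟩ | ⟨hbz, h2⟩
    · have := h.side_unique hS (h.zC i hi hg) (hS.FC hf) h2 hfe
      exact (h.zE i hi g hg).2 (this ▸ hf)
    · by_cases bj : (D.Z j).Bare
      · obtain ⟨_, ⟨f', hf', g2⟩, _, _⟩ := h.bare_ring hS hj bj he
        have := h.side_unique hS (h.zC i hi hg) (hS.FC hf') h2 g2
        exact (h.zE i hi g hg).2 (this ▸ hf')
      · obtain ⟨c, hcc, h3⟩ := h.right hj bj he
        have := h.side_unique hS (h.zC i hi hg) (h.zC j hj hcc) h2 h3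
        subst this
        exact hji (h.zz j hj i hi g hcc hg)
    · -- `i` is bare: its ring has this dart
      obtain ⟨f1, _, f2, _, k1, k2⟩ := h.bare i hi hbz
      have : ∃ e' ∈ (D.Z i).ring, e'.a = e.a ∧ e'.b = e.b := by
        rcases h2 with ⟨p1, p2⟩ | ⟨p1, p2⟩
        · exact ⟨⟨(D.Z i).x, (D.Z i).y, some f1⟩, by simp [Zone.ring, k1, ZT.ring], p1.symm,
            p2.symm⟩
        · exact ⟨⟨(D.Z i).y, (D.Z i).x, some f2⟩, by simp [Zone.ring, k2, ZT.ring], p1.symm,
            p2.symm⟩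
      obtain ⟨e', he', q1, q2⟩ := this
      exact hji (h.uniq hS hj hi he he' q1.symm q2.symm)
  -- the new reference face is the kept label
  have hkap : ∀ v ∈ D'.A, v ∈ D.Fr → v ∈ X → ∀ e e', At z' v e e' →
      (e ∈ (D.Z i).ring ∧ e.s = some (D'.fref v) ∧ e'.s = none) ∨
      (e' ∈ (D.Z i).ring ∧ e'.s = some (D'.fref v) ∧ e.s = none) := by
    intro v hv hvF hvX e e' hAt
    have hvz := H.hX v hvX
    obtain ⟨hk, hvz'⟩ := hsurv v hv hvz
    obtain ⟨hvA, _⟩ := (hA v).1 hv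
    have hTH := h.l1' v hvA i hi hvz
    obtain ⟨hpm, hlab⟩ := h.l5 v hvF
    have hfr : D'.fref v = if ∃ e ∈ z'.ring, (e.a = v ∨ e.b = v) ∧ e.s = some (D.fp v) then
        D.fp v else D.fm v := by
      rw [hD']
      simp only [nxt]
      rw [if_pos ⟨hvF, hvX⟩]
    obtain ⟨e0, e0', hAt0⟩ := Zone.exists_At hvz
    have hl0 := hlab i hTH e0 e0' hAt0
    have hnd' := H.nd hk
    have edges : ∀ g ∈ z'.ring, (g.a = v ∨ g.b = v) → g = e ∨ g = e' := by
      intro g hg hga
      rcases hga with hga | hga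
      · exact Or.inr (Zone.a_inj hnd' hg hAt.2.1 (hga.trans hAt.2.2.2.symm))
      · exact Or.inl (Zone.b_inj hnd' hg hAt.1 (hga.trans hAt.2.2.1.symm))
    rcases H.k2 hk v hvz' hvA hvX e e' hAt with ⟨h1, h2⟩ | ⟨h1, h2⟩
    · left
      have he0 : e0 = e := Zone.b_inj (h.nd i hi) hAt0.1 h1 (hAt0.2.2.1.trans hAt.2.2.1.symm)
      rw [he0] at hl0
      refine ⟨h1, ?_, h2⟩
      rw [hfr]
      rcases hl0 with ⟨l0, _⟩ | ⟨l0, _⟩
      · rw [if_pos ⟨e, hAt.1, Or.inr hAt.2.2.1, l0⟩]; exact l0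
      · rw [if_neg]
        · exact l0
        · rintro ⟨g, hg, hga, hgs⟩
          rcases edges g hg hga with rfl | rfl
          · rw [l0, Option.some.injEq] at hgs; exact hpm hgs.symm
          · rw [h2] at hgs; exact absurd hgs (by simp)
    · right
      have he0 : e0' = e' := Zone.a_inj (h.nd i hi) hAt0.2.1 h1
        (hAt0.2.2.2.trans hAt.2.2.2.symm)
      rw [he0] at hl0
      refine ⟨h1, ?_, h2⟩
      rw [hfr]
      rcases hl0 with ⟨_, l0⟩ | ⟨_, l0⟩
      · rw [if_neg]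
        · exact l0
        · rintro ⟨g, hg, hga, hgs⟩
          rcases edges g hg hga with rfl | rfl
          · rw [h2] at hgs; exact absurd hgs (by simp)
          · rw [l0, Option.some.injEq] at hgs; exact hpm hgs.symm
      · rw [if_pos ⟨e', hAt.2.1, Or.inl hAt.2.2.2, l0⟩]; exact l0
  have hfref_old : ∀ v, v ∉ D.Fr → D'.fref v = D.fref v := by
    intro v hv
    rw [hD']
    simp only [nxt]
    rw [if_neg (fun hh => hv hh.1)]
  -- surviving links of the ring of `i` are free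
  have hsFr : ∀ v ∈ D'.A, v ∈ (D.Z i).vs → v ∈ D.Fr := by
    intro v hv hvz
    obtain ⟨hk, hvz'⟩ := hsurv v hv hvz
    rcases hAz v ((hA v).1 hv).1 hvz with h1 | h1
    · exact h1
    · exfalso
      rw [h1] at hvz'
      exact H.o (h1 ▸ ((hA v).1 hv).1) ⟨hk, hvz'⟩
  -- apexes of live zones are not in X unless they are N
  have hXlive : ∀ j, Live S D' j → ∀ a ∈ (D.Z j).ap, ∀ p ∈ X, Joined D.Cl a p →
      p = (D.Z i).x := by
    intro j hj a ha p hp hjp
    rcases Zone.mem_vs.1 (H.hX p hp) with h1 | h1 | h1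
    · exact h1
    · exfalso
      rw [← hwy] at h1
      rw [h1] at hjp
      have hwa := hw_alone a (Joined.symm hsym hjp)
      rw [hwa] at ha
      have hjI : j ∈ D.I := by
        obtain ⟨v, hv, hTv, _⟩ := _root_.RFX.Cr.Live.exists (hlive j hj)
        rw [← hTv]; exact (h.l1 v hv).1
      rcases h.l1' w hwA j hjI (Zone.mem_vs.2 (Or.inr (Or.inr ha))) with h2 | h2
      · rw [hc.Tw] at h2; exact hlne j hj h2
      · exact hlneH j hj h2
    · exfalso
      exact hlne j hj (h.v4 j i (hlive j hj) hc.live a ha p h1 hjp).2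
  refine
    { reach := H.reach
      cov := ?_, zC := ?_, EF := ?_, zE := ?_, zz := ?_, nd := ?_, okt := ?_, bare := ?_
      r1 := ?_, r2 := ?_, io := ?_, f6 := ?_, f7 := ?_, f8 := ?_, a2 := ?_
      l1 := ?_, l1' := ?_, l2 := ?_, l3 := ?_, FrA := ?_, l4 := ?_, l5 := ?_, l6 := ?_
      v1 := ?_, v2 := ?_, v3 := ?_, v4 := ?_, v5 := ?_ }
  · -- cov
    intro c hcC
    rcases h.cov c hcC with h1 | h1 | ⟨j, hj, h1⟩
    · exact Or.inl (H.hE h1)
    · exact Or.inr (Or.inl h1)
    · by_cases hji : j = i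
      · subst hji
        rcases H.z2 c h1 with h2 | ⟨hk, h2⟩
        · exact Or.inl h2
        · exact Or.inr (Or.inr ⟨j, (hI j).2 ⟨hj, Or.inr hk⟩, by rw [hZi]; exact h2⟩)
      · exact Or.inr (Or.inr ⟨j, (hI j).2 ⟨hj, Or.inl hji⟩, by rw [hZj j hji]; exact h1⟩)
  · -- zC
    intro j hj c hcj
    obtain ⟨hj1, hj2⟩ := (hI j).1 hj
    by_cases hji : j = i
    · subst hji
      rw [hZi] at hcj
      have hk : keep := by rcases hj2 with h1 | h1; exact absurd rfl h1; exact h1
      exact h.zC j hj1 (H.z1 hk c hcj).1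
    · rw [hZj j hji] at hcj; exact h.zC j hj1 hcj
  · -- EF
    intro c hcE
    rcases H.Esub c hcE with h1 | h1
    · exact h.EF c h1
    · exact (h.zE i hi c h1).2
  · -- zE
    intro j hj c hcj
    obtain ⟨hj1, hj2⟩ := (hI j).1 hj
    by_cases hji : j = i
    · subst hji
      rw [hZi] at hcj
      have hk : keep := by rcases hj2 with h1 | h1; exact absurd rfl h1; exact h1
      obtain ⟨g1, g2⟩ := H.z1 hk c hcj
      exact ⟨g2, (h.zE j hj1 c g1).2⟩
    · rw [hZj j hji] at hcj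
      refine ⟨?_, (h.zE j hj1 c hcj).2⟩
      intro hcE
      rcases H.Esub c hcE with h1 | h1
      · exact (h.zE j hj1 c hcj).1 h1
      · exact hji (h.zz j hj1 i hi c hcj h1)
  · -- zz
    intro j hj k hk c hcj hck
    obtain ⟨hj1, hj2⟩ := (hI j).1 hj
    obtain ⟨hk1, hk2⟩ := (hI k).1 hk
    have conv : ∀ m, m ∈ D.I → (m ≠ i ∨ keep) → c ∈ (D'.Z m).cells → c ∈ (D.Z m).cells := by
      intro m hm1 hm2 hcm
      by_cases hmi : m = i
      · subst hmi
        rw [hZi] at hcm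
        have hkk : keep := by rcases hm2 with h1 | h1; exact absurd rfl h1; exact h1
        exact (H.z1 hkk c hcm).1
      · rw [hZj m hmi] at hcm; exact hcm
    exact h.zz j hj1 k hk1 c (conv j hj1 hj2 hcj) (conv k hk1 hk2 hck)
  · -- nd
    intro j hj
    obtain ⟨hj1, hj2⟩ := (hI j).1 hj
    by_cases hji : j = i
    · subst hji
      rw [hZi]
      exact H.nd (by rcases hj2 with h1 | h1; exact absurd rfl h1; exact h1)
    · rw [hZj j hji]; exact h.nd j hj1
  · -- okt
    intro j hj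
    obtain ⟨hj1, hj2⟩ := (hI j).1 hj
    by_cases hji : j = i
    · subst hji
      rw [hZi]
      exact H.okt (by rcases hj2 with h1 | h1; exact absurd rfl h1; exact h1)
    · rw [hZj j hji]; exact h.okt j hj1
  · -- bare
    intro j hj
    obtain ⟨hj1, hj2⟩ := (hI j).1 hj
    by_cases hji : j = i
    · subst hji
      rw [hZi]
      intro hb
      exact absurd hb (H.nb (by rcases hj2 with h1 | h1; exact absurd rfl h1; exact h1))
    · rw [hZj j hji]; exact h.bare j hj1
  · -- r1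
    intro j hj e he f hs
    obtain ⟨hj1, hj2⟩ := (hI j).1 hj
    rw [eCl]
    by_cases hji : j = i
    · subst hji
      rw [hZi] at he
      have hk : keep := by rcases hj2 with h1 | h1; exact absurd rfl h1; exact h1
      rcases H.ring hk e he with h1 | ⟨h1, _⟩
      · rcases h.r1 j hj1 e h1 f hs with ⟨g1, g2, g3⟩ | g1
        · left
          exact ⟨g1, g2, H.opn hk e he (by rw [hs]; simp) g3⟩
        · exact Or.inr g1
      · rw [h1] at hs; exact absurd hs (by simp)
    · rw [hZj j hji] at he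
      rcases h.r1 j hj1 e he f hs with ⟨g1, g2, g3⟩ | g1
      · left
        exact ⟨g1, g2, hreal j hj1 hji e he f g1 g2 g3⟩
      · exact Or.inr g1
  · -- r2
    intro j hj e he hs
    obtain ⟨hj1, hj2⟩ := (hI j).1 hj
    rw [eCl]
    by_cases hji : j = i
    · subst hji
      rw [hZi] at he
      have hk : keep := by rcases hj2 with h1 | h1; exact absurd rfl h1; exact h1
      rcases H.ring hk e he with h1 | ⟨_, h1⟩
      · exact H.hCl (h.r2 j hj1 e h1 hs)
      · exact h1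
    · rw [hZj j hji] at he
      exact H.hCl (h.r2 j hj1 e he hs)
  · -- io
    intro j hj c hcc c' hcc' a b h1 h2
    obtain ⟨hj1, hj2⟩ := (hI j).1 hj
    rw [eCl]
    by_cases hji : j = i
    · subst hji
      rw [hZi] at hcc hcc'
      have hk : keep := by rcases hj2 with h3 | h3; exact absurd rfl h3; exact h3
      exact H.n hk c hcc c' hcc' a b h1 h2
    · rw [hZj j hji] at hcc hcc'
      intro hcl
      obtain ⟨_, _, h3⟩ := hnew a b hcl (h.io j hj1 c hcc c' hcc' a b h1 h2)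
      rcases h3 with ⟨g, hg, h4 | h4⟩ | ⟨hbz, h4⟩
      · have := h.side_unique hS (h.zC i hi hg) (h.zC j hj1 hcc) h4 h1
        subst this
        exact hji (h.zz j hj1 i hi g hcc hg)
      · have := h.side_unique hS (h.zC i hi hg) (h.zC j hj1 hcc') h4 h2
        subst this
        exact hji (h.zz j hj1 i hi g hcc' hg)
      · obtain ⟨f1, _, f2, _, k1, k2⟩ := h.bare i hi hbz
        have : ∃ e' ∈ (D.Z i).ring, e'.a = a ∧ e'.b = b := by
          rcases h4 with ⟨p1, p2⟩ | ⟨p1, p2⟩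
          · exact ⟨⟨(D.Z i).x, (D.Z i).y, some f1⟩, by simp [Zone.ring, k1, ZT.ring], p1.symm,
              p2.symm⟩
          · exact ⟨⟨(D.Z i).y, (D.Z i).x, some f2⟩, by simp [Zone.ring, k2, ZT.ring], p1.symm,
              p2.symm⟩
        obtain ⟨e', he', q1, q2⟩ := this
        obtain ⟨⟨f, hf, _, g1⟩, _⟩ := h.bare_ring hS hi hbz he'
        rw [q1, q2] at g1
        have := h.side_unique hS (h.zC j hj1 hcc) (hS.FC hf) h1 g1
        exact (h.zE j hj1 c hcc).2 (this ▸ hf)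
  · -- f6
    intro f hf a b hab
    rw [eCl]
    rcases h.f6 f hf a b hab with h1 | ⟨j, hj, h1⟩
    · exact Or.inl (H.hCl h1)
    · by_cases hji : j = i
      · subst hji
        rcases H.m _ h1 with ⟨hk, h2⟩ | h2
        · exact Or.inr ⟨j, (hI j).2 ⟨hj, Or.inr hk⟩, by rw [hZi]; exact h2⟩
        · exact Or.inl h2
      · exact Or.inr ⟨j, (hI j).2 ⟨hj, Or.inl hji⟩, by rw [hZj j hji]; exact h1⟩
  · -- f7
    intro j hj e he hs
    obtain ⟨hj1, hj2⟩ := (hI j).1 hj
    rw [eCl]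
    by_cases hji : j = i
    · subst hji
      rw [hZi] at he
      have hk : keep := by rcases hj2 with h1 | h1; exact absurd rfl h1; exact h1
      rcases H.ring hk e he with h1 | ⟨h1, _⟩
      · rcases h.f7 j hj1 e h1 hs with g1 | ⟨k, hk1, hkj, g1⟩
        · exact Or.inl (H.hCl g1)
        · exact Or.inr ⟨k, (hI k).2 ⟨hk1, Or.inl hkj⟩, hkj, by rw [hZj k hkj]; exact g1⟩
      · rw [h1] at hs; exact absurd hs (by simp)
    · rw [hZj j hji] at he
      rcases h.f7 j hj1 e he hs with g1 | ⟨k, hk1, hkj, g1⟩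
      · exact Or.inl (H.hCl g1)
      · by_cases hki : k = i
        · subst hki
          rcases H.m _ g1 with ⟨hk, h2⟩ | h2
          · exact Or.inr ⟨k, (hI k).2 ⟨hk1, Or.inr hk⟩, hkj, by rw [hZi]; exact h2⟩
          · exact Or.inl (hsym' _ _ h2)
        · exact Or.inr ⟨k, (hI k).2 ⟨hk1, Or.inl hki⟩, hkj, by rw [hZj k hki]; exact g1⟩
  · -- f8
    intro j hj k hk hjk hbj hbk
    obtain ⟨hj1, hj2⟩ := (hI j).1 hj
    obtain ⟨hk1, hk2⟩ := (hI k).1 hk
    have hji : j ≠ i := by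
      rintro rfl
      rw [hZi] at hbj
      exact H.nb (by rcases hj2 with h1 | h1; exact absurd rfl h1; exact h1) hbj
    have hki : k ≠ i := by
      rintro rfl
      rw [hZi] at hbk
      exact H.nb (by rcases hk2 with h1 | h1; exact absurd rfl h1; exact h1) hbk
    rw [hZj j hji] at hbj ⊢
    rw [hZj k hki] at hbk ⊢
    exact h.f8 j hj1 k hk1 hjk hbj hbk
  · -- a2
    intro j hj e he hs hcl
    obtain ⟨hj1, hj2⟩ := (hI j).1 hj
    rw [eCl] at hcl
    -- one end
    have key : ∀ v, (v = e.a ∨ v = e.b) → Acc D' v {e.a, e.b} := by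
      intro v hv
      refine ⟨by rcases hv with rfl | rfl <;> simp, ?_⟩
      by_cases hvA : v ∈ D'.A
      swap
      · exact Or.inl hvA
      right
      by_cases hold : (e.a, e.b) ∈ D.Cl
      · -- closed before
        have hacc : Acc D v {e.a, e.b} := by
          have h2 : e ∈ (D.Z j).ring := by
            by_cases hji : j = i
            · subst hji
              rw [hZi] at he
              have hk : keep := by rcases hj2 with h1 | h1; exact absurd rfl h1; exact h1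
              rcases H.ring hk e he with h1 | ⟨h1, _⟩
              · exact h1
              · rw [h1] at hs; exact absurd hs (by simp)
            · rw [hZj j hji] at he; exact he
          have h3 := h.a2 j hj1 e h2 hs hold
          rcases hv with rfl | rfl
          · exact h3.1
          · exact h3.2
        rcases hacc.2 with h1 | ⟨h1, h2⟩
        · exact absurd ((hA v).1 hvA).1 h1
        · refine ⟨fun hh => h1 ((hFr v).1 hh).1, ?_⟩
          rw [hfref_old v h1]; exact h2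
      · -- newly closed
        obtain ⟨haX, hbX, _⟩ := hnew _ _ hcl hold
        have hvX : v ∈ X := by rcases hv with rfl | rfl; exact haX; exact hbX
        have hvz := H.hX v hvX
        obtain ⟨hk, hvz'⟩ := hsurv v hvA hvz
        have hvF := hsFr v hvA hvz
        refine ⟨fun hh => ((hFr v).1 hh).2.2 hvX, ?_⟩
        intro hfe
        obtain ⟨e1, e1', hAt⟩ := Zone.exists_At hvz'
        have hres : ∃ g ∈ z'.ring, g ∈ (D.Z i).ring ∧ g.s = some (D'.fref v) := by
          rcases hkap v hvA hvF hvX e1 e1' hAt with ⟨g1, g2, _⟩ | ⟨g1, g2, _⟩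
          · exact ⟨e1, hAt.1, g1, g2⟩
          · exact ⟨e1', hAt.2.1, g1, g2⟩
        obtain ⟨g, hg', hg, hgs⟩ := hres
        rw [← hfe] at hgs
        rcases h.r1 i hi g hg _ hgs with ⟨q1, _⟩ | q1
        · exact h.F_ne_pair hS q1 _ _ rfl
        · -- the same pair
          have hpair : (g.a = e.a ∧ g.b = e.b) ∨ (g.a = e.b ∧ g.b = e.a) := by
            have hg1 : g.a ∈ ({e.a, e.b} : Finset Pt) := by rw [q1]; simp
            have hg2 : g.b ∈ ({e.a, e.b} : Finset Pt) := by rw [q1]; simp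
            have he1 : e.a ∈ ({g.a, g.b} : Finset Pt) := by rw [← q1]; simp
            have he2 : e.b ∈ ({g.a, g.b} : Finset Pt) := by rw [← q1]; simp
            simp only [Finset.mem_insert, Finset.mem_singleton] at hg1 hg2 he1 he2
            rcases hg1 with p1 | p1 <;> rcases hg2 with p2 | p2
            · rcases he2 with p3 | p3
              · exact Or.inl ⟨p1, by rw [p2, p3, p1]⟩
              · exact Or.inl ⟨p1, p3.symm⟩
            · exact Or.inl ⟨p1, p2⟩
            · exact Or.inr ⟨p1, p2⟩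
            · rcases he1 with p3 | p3
              · exact Or.inl ⟨p3.symm, p2⟩
              · exact Or.inr ⟨p1, p3.symm⟩
          have hgcl : (g.a, g.b) ∈ Cl' := by
            rcases hpair with ⟨p1, p2⟩ | ⟨p1, p2⟩
            · rw [p1, p2]; exact hcl
            · rw [p1, p2]; exact hsym' _ _ hcl
          have hgold : (g.a, g.b) ∉ D.Cl := by
            rcases hpair with ⟨p1, p2⟩ | ⟨p1, p2⟩
            · rw [p1, p2]; exact hold
            · rw [p1, p2]; exact fun hh => hold (hsym _ _ hh)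
          exact H.opn hk g hg' (by rw [hgs]; simp) hgold hgcl
    exact ⟨key _ (Or.inl rfl), key _ (Or.inr rfl)⟩
  · -- l1
    intro v hv
    obtain ⟨hvA, hvk⟩ := (hA v).1 hv
    obtain ⟨hT, hH, hne, vT, vH⟩ := h.l1 v hvA
    refine ⟨?_, ?_, hne, ?_, ?_⟩
    · rw [hI]
      refine ⟨hT, ?_⟩
      by_cases hti : S.T v = i
      · exact Or.inr (hvk (Or.inl hti)).1
      · exact Or.inl hti
    · rw [hI]
      refine ⟨hH, ?_⟩
      by_cases hti : S.H v = i
      · exact Or.inr (hvk (Or.inr hti)).1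
      · exact Or.inl hti
    · by_cases hti : S.T v = i
      · rw [hti, hZi]; exact (hvk (Or.inl hti)).2
      · rw [hZj _ hti]; exact vT
    · by_cases hti : S.H v = i
      · rw [hti, hZi]; exact (hvk (Or.inr hti)).2
      · rw [hZj _ hti]; exact vH
  · -- l1'
    intro v hv j hj hvj
    obtain ⟨hvA, hvk⟩ := (hA v).1 hv
    obtain ⟨hj1, hj2⟩ := (hI j).1 hj
    by_cases hji : j = i
    · subst hji
      rw [hZi] at hvj
      have hk : keep := by rcases hj2 with h1 | h1; exact absurd rfl h1; exact h1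
      exact h.l1' v hvA j hj1 (H.vs hk v hvj)
    · rw [hZj j hji] at hvj
      exact h.l1' v hvA j hj1 hvj
  · -- l2
    intro v hv j hj k hk hvj hvk
    obtain ⟨hj1, hj2⟩ := (hI j).1 hj
    obtain ⟨hk1, hk2⟩ := (hI k).1 hk
    have conv : ∀ m, m ∈ D.I → (m ≠ i ∨ keep) → v ∈ (D'.Z m).vs →
        v ∈ (D.Z m).vs ∧ (m = i → keep ∧ v ∈ z'.vs) := by
      intro m hm1 hm2 hvm
      by_cases hmi : m = i
      · subst hmi
        rw [hZi] at hvm
        have hkk : keep := by rcases hm2 with h1 | h1; exact absurd rfl h1; exact h1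
        exact ⟨H.vs hkk v hvm, fun _ => ⟨hkk, hvm⟩⟩
      · rw [hZj m hmi] at hvm; exact ⟨hvm, fun hh => absurd hh hmi⟩
    obtain ⟨a1, a2⟩ := conv j hj1 hj2 hvj
    obtain ⟨b1, b2⟩ := conv k hk1 hk2 hvk
    by_cases hvA : v ∈ D.A
    · have hnot : ¬ ((S.T v = i ∨ S.H v = i) → (keep ∧ v ∈ z'.vs)) := by
        intro hh
        exact hv ((hA v).2 ⟨hvA, hh⟩)
      rw [Classical.not_imp] at hnot
      obtain ⟨hTH, hnk⟩ := hnot
      have hji : j ≠ i := fun hh => hnk (a2 hh)
      have hki : k ≠ i := fun hh => hnk (b2 hh)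
      have c1 := h.l1' v hvA j hj1 a1
      have c2 := h.l1' v hvA k hk1 b1
      rcases hTH with hT | hH
      · rcases c1 with c1 | c1
        · exact absurd (c1.trans hT) hji
        · rcases c2 with c2 | c2
          · exact absurd (c2.trans hT) hki
          · rw [c1, c2]
      · rcases c1 with c1 | c1
        · rcases c2 with c2 | c2
          · rw [c1, c2]
          · exact absurd (c2.trans hH) hki
        · exact absurd (c1.trans hH) hji
    · exact h.l2 v hvA j hj1 k hk1 a1 b1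
  · -- l3
    intro v hv u hu hvu
    exact h.l3 v ((hA v).1 hv).1 u ((hA u).1 hu).1 hvu
  · -- FrA
    intro v hv
    obtain ⟨h1, h2, _⟩ := (hFr v).1 hv
    exact (hA v).2 ⟨h.FrA h1, h2⟩
  · -- l4
    intro v hv b hb
    obtain ⟨h1, h2, h3⟩ := (hFr v).1 hv
    rw [eCl] at hb
    exact h3 (hnew v b hb (h.l4 v h1 b)).1
  · -- l5
    intro v hv
    obtain ⟨h1, h2, h3⟩ := (hFr v).1 hv
    obtain ⟨hpm, hlab⟩ := h.l5 v h1
    refine ⟨hpm, ?_⟩
    intro j hj e e' hAt
    by_cases hji : j = i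
    · subst hji
      rw [hZi] at hAt
      have hTH : S.T v = j ∨ S.H v = j := by
        rcases hj with h4 | h4
        · exact Or.inl h4.symm
        · exact Or.inr h4.symm
      obtain ⟨hk, hvz'⟩ := h2 hTH
      exact hlab j hj e e' (H.k1 hk v hvz' (h.FrA h1) h3 e e' hAt)
    · rw [hZj j hji] at hAt
      exact hlab j hj e e' hAt
  · -- l6
    intro v hv hvF j hj e e' hAt
    obtain ⟨hvA, hvk⟩ := (hA v).1 hv
    by_cases hF : v ∈ D.Fr
    · -- was free
      have hvX : v ∈ X := by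
        by_contra hh
        exact hvF ((hFr v).2 ⟨hF, hvk, hh⟩)
      have hvz := H.hX v hvX
      obtain ⟨hk, hvz'⟩ := hsurv v hv hvz
      by_cases hji : j = i
      · subst hji
        rw [hZi] at hAt
        rcases hkap v hv hF hvX e e' hAt with ⟨_, g1, g2⟩ | ⟨_, g1, g2⟩
        · left; exact ⟨g1, by rw [g2]; simp⟩
        · right; exact ⟨by rw [g2]; simp, g1⟩
      · rw [hZj j hji] at hAt
        obtain ⟨hpm, hlab⟩ := h.l5 v hF
        have h5 := hlab j hj e e' hAt
        -- fref' is fp or fm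
        obtain ⟨e1, e1', hAt1⟩ := Zone.exists_At hvz'
        have hfr : D'.fref v = D.fp v ∨ D'.fref v = D.fm v := by
          rw [hD']
          simp only [nxt]
          rw [if_pos ⟨hF, hvX⟩]
          split_ifs
          · exact Or.inl rfl
          · exact Or.inr rfl
        rcases hfr with hfr | hfr
        · rw [hfr]
          rcases h5 with ⟨p1, p2⟩ | ⟨p1, p2⟩
          · left; refine ⟨p1, ?_⟩; rw [p2]; intro hh; exact hpm (Option.some.inj hh).symm
          · right; refine ⟨?_, p2⟩; rw [p1]; intro hh; exact hpm (Option.some.inj hh).symm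
        · rw [hfr]
          rcases h5 with ⟨p1, p2⟩ | ⟨p1, p2⟩
          · right; refine ⟨?_, p2⟩; rw [p1]; intro hh; exact hpm (Option.some.inj hh)
          · left; refine ⟨p1, ?_⟩; rw [p2]; intro hh; exact hpm (Option.some.inj hh)
    · -- was attached
      rw [hfref_old v hF]
      by_cases hji : j = i
      · exfalso
        subst hji
        have hTH : S.T v = j ∨ S.H v = j := by
          rcases hj with h4 | h4
          · exact Or.inl h4.symm
          · exact Or.inr h4.symm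
        obtain ⟨hk, hvz'⟩ := hvk hTH
        exact hF (hsFr v hv (H.vs hk v hvz'))
      · rw [hZj j hji] at hAt
        exact h.l6 v hvA hF j hj e e' hAt
  · -- v1
    intro j hj hed v hv hTv
    have hj0 := hlive j hj
    have hji := hlne j hj
    obtain ⟨hvA, hvk⟩ := (hA v).1 hv
    obtain ⟨g1, g2⟩ := h.v1 j hj0 hed v hvA hTv
    rw [hZj j hji]
    refine ⟨g1, ?_⟩
    -- the head of `v` is live
    have hHv : Live S D' (S.H v) := by
      obtain ⟨u, hu, hTu, hHu⟩ := _root_.RFX.Cr.Live.exists hj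
      have : u = v := h.l3 u ((hA u).1 hu).1 v hvA (hTu.trans hTv.symm)
      rw [← this]; exact hHu
    have hHne := hlne _ hHv
    rcases g2 with g2 | ⟨g2, g3⟩
    · left
      rw [hFr]
      refine ⟨g2, hvk, ?_⟩
      intro hvX
      rcases h.l1' v hvA i hi (H.hX v hvX) with h3 | h3
      · exact hji (hTv.symm.trans h3.symm)
      · exact hHne h3.symm
    · right
      refine ⟨g2, ?_⟩
      rw [hZj _ hHne]; exact g3
  · -- v2
    intro j hj hed
    rw [hZj j (hlne j hj)]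
    intro hh
    exact h.v2 j (hlive j hj) hed ((hFr _).1 hh).1
  · -- v3
    intro j hj hed
    have hj0 := hlive j hj
    have hji := hlne j hj
    obtain ⟨g1, ⟨s, l, r, g2, g3⟩, g4⟩ := h.v3 j hj0 hed
    rw [hZj j hji, eCl]
    refine ⟨g1, ⟨s, l, r, g2, g3.mono H.hCl⟩, ?_⟩
    intro v hv hTv
    obtain ⟨hvA, _⟩ := (hA v).1 hv
    obtain ⟨q1, q2, q3⟩ := g4 v hvA hTv
    refine ⟨q1, q2, ?_⟩
    have hHv : Live S D' (S.H v) := by
      obtain ⟨u, hu, hTu, hHu⟩ := _root_.RFX.Cr.Live.exists hj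
      have : u = v := h.l3 u ((hA u).1 hu).1 v hvA (hTu.trans hTv.symm)
      rw [← this]; exact hHu
    rw [hZj _ (hlne _ hHv)]
    exact q3
  · -- v4
    intro j k hj hk a ha b hb hab
    have hj0 := hlive j hj
    have hk0 := hlive k hk
    rw [hZj j (hlne j hj)] at ha
    rw [hZj k (hlne k hk)] at hb
    rw [eCl] at hab
    rcases H.join a b hab with h1 | ⟨p, hp, q, hq, h1, h2⟩
    · exact h.v4 j k hj0 hk0 a ha b hb h1
    · have hpN := hXlive j hj a ha p hp h1
      have hqN := hXlive k hk b hb q hq (Joined.symm hsym h2)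
      rw [hpN] at h1
      rw [hqN] at h2
      exact h.v4 j k hj0 hk0 a ha b hb (h1.trans h2)
  · -- v5
    intro j hj a ha haA
    rw [hZj j (hlne j hj)] at ha
    obtain ⟨haA', hak⟩ := (hA a).1 haA
    have haF := h.v5 j (hlive j hj) a ha haA'
    rw [hFr]
    refine ⟨haF, hak, ?_⟩
    intro haX
    have := hXlive j hj a ha a haX (Joined.refl _ _)
    rw [this] at haF
    exact hN haF

end Pool.Agent.RFX

end
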