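import Mathlib
import Pool.Agent.RFM.P08
import Pool.Agent.RFM.P09
import Pool.Agent.RFM.P11

set_option autoImplicit false

/-!
# RFM/P12 (MP_72a26e_co): the files RFX/NFPet, RFX/NFM0, RFX/NFCount, RFX/FsLk, RFX/Finish, RFX/StStar, RFX/StFin, RFX/StFin2, merged to save build time
-/

section

set_option autoImplicit false

/-!
# RFX/NFPet : the petals of the normal form (MP_72a26e_co)

`pet s`, `gaps s` are the petals and gaps of the strip which starts at `s` (`NFWord`). The petal `p` consists of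
the triangles `tr s n`, `p.1 ≤ n < p.2`, its cross edges have the numbers `p.1, …, p.2`. Left end (position `p.1`)
and right end (position `p.2`) are at a gap or outer. `InPet`: vertices of the petal, `Rt` the root, `NR` the other vertices.

PROOFS. The membership lemmas: `tr_mem`, `h.bc.full.sub`, `it_mem`, `h.size` (all indices are `< len`, positions
`≤ len`), `dr`, `ad` are ends of cross edges.
`size`, `type`: `PetSys.size`, `PetSys.type` (`GapL` is the left gap condition). `gap_size`: `PetSys.gap` and `size`.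
`sepa`: `PetSys.sepa`.
`inr` (P1). Let `v` be at the position `j`, `p.1 ≤ j ≤ p.2`, `v ≠ Rt`. Cases of `type`.
(1) fan: all the steps `n` with `p.1 - 1 ≤ n ≤ p.2` have the same letter. So (`at_succ_iff` for `j - 1`) `v = cm (j-1)` or
`v = ad (j-1)`. All `cm n`, `p.1 - 1 ≤ n ≤ p.2`, are equal (`cm` is the fixed end, by induction on `n`), so `cm (j-1) = Rt`
and `v = ad (j-1)`. The letter of `j - 1` occurs at `j`: `inr_of_later` gives `Inr (j-1) n' v` with the first later
occurrence, so `n' = j` (`Inr.btw`).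
(2) left half-ladder (`¬ GapL`, `p.2 ∈ gaps s`). There is `n` with `p.1 - 1 ≤ n < j` and `v = ad n`: otherwise by induction down
(`at_succ_iff`: `v = cm n`, so `v` is at the position `n`, `at_iff`) `v` is at all positions from `p.1` to `j`, and at `p.1` it is
`cm (p.1-1) = Rt` (it is not `ad (p.1-1)`). By `PetSys.gap` `ltr p.2 ≠ ltr (p.2+1)`, so the letter of `n` is the letter
of `p.2` or of `p.2 + 1` (both `> n`): `inr_of_later` and `Inr.btw` give `n' ≤ p.2 + 1`; `p.1 ≤ n + 1`.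
(3) right half-ladder (`GapL`, `p.2 ∉ gaps s`): mirror image. There is `n'` with `j ≤ n' ≤ p.2`, `v = dr n'`: otherwise `v` is at
all positions from `j` to `p.2` and `v ≠ dr p.2`, so `v = cm p.2 = Rt` (`at_iff` for the step `p.2`). The letter of `n'` is the letter of `g = p.1 - 2` or
of `g + 1`: `inr_of_earlier`, `p.1 ≤ n + 2`.
`uniq` (P2): `inr` for `v`, `NR s p`: `Inr s n n' v`. `v` is at the position `j' ∈ [p'.1, p'.2]` of `s'`: by `Inr.occ` `s' = s`,
`n < j' ≤ n'`; also `n < j ≤ n'` for the position `j ∈ [p.1, p.2]`. If `p ≠ p'` use `sepa`: e.g. `p.2 < p'.1` and the letter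
`ltr n` occurs in `[p.2, p'.1)` at `k`; `n < j ≤ p.2 ≤ k < p'.1 ≤ j' ≤ n'` contradicts `Inr.btw`. `rt_in`: `at_iff` / `at_succ_iff`
(position `p.2` resp. `p.1`). `rt_not`: `rt_in` and `uniq`.
`tr_uniq`: `tr_inj` and `sepa`. `disj`: `gap` (`p.2 = g`, `q.1 = g + 2`), `tr_inj` and `sepa`: `g`, `g + 1` are in no `[r.1, r.2)`.
`left_end`: `¬ GapL` gives `Rt = cm (p.1-1)`; `at_succ_iff` for the step `p.1 - 1`, `ne3`. `right_end`: `at_iff` for the step
`p.2`; in the case of a fan `cm (p.1-1) = cm p.2` (all letters between are equal).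
`gap_nr`: let `p.2 ∈ gaps s` and `v` at `p.2` (type (2)). There is `n` with `p.1 ≤ n < p.2`, `v = ad n`: otherwise `v` is at all
positions from `p.1` to `p.2` and only one letter occurs in `[p.1, p.2)`, against `Occ2`. As in `inr` (2) `Inr s n n' v`, so `v` is not
at the position `p.1 ≤ n` (`Inr.at_iff`), but `Rt` is. Mirror image for `GapL`: `v = dr n'` for some `n'` with
`p.1 ≤ n' < p.2`, `Inr s n n' v`, `v` is not at the position `p.2`, but `Rt` is.
-/

namespace Pool.Agent.RFX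

open Pool.Agent.RFT

/-- complex with bodies and petal systems of all strips -/
structure PS (P : Finset Pt) (C Bs : Finset (Finset Pt)) (lab : Pt → ℕ)
    (pet : Pt × Pt → Finset (ℕ × ℕ)) (gaps : Pt × Pt → Finset ℕ) : Prop where
  bc : BC P C Bs lab
  sys : ∀ s, PetSys (len C lab s) (ltr C lab s) (pet s) (gaps s)

/-- the left end of the petal `p` of the strip `s` is at a gap -/
def GapL (gaps : Pt × Pt → Finset ℕ) (s : Pt × Pt) (p : ℕ × ℕ) : Prop := ∃ g ∈ gaps s, g + 2 = p.1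

/-- the root of the petal `p` of the strip `s` -/
noncomputable def Rt (C : Finset (Finset Pt)) (lab : Pt → ℕ) (gaps : Pt × Pt → Finset ℕ)
    (s : Pt × Pt) (p : ℕ × ℕ) : Pt :=
  open Classical in if GapL gaps s p then cm C lab s p.2 else cm C lab s (p.1 - 1)

/-- `v` is a vertex of the petal `p` of the strip `s` -/
def InPet (P : Finset Pt) (C : Finset (Finset Pt)) (lab : Pt → ℕ)
    (pet : Pt × Pt → Finset (ℕ × ℕ)) (s : Pt × Pt) (p : ℕ × ℕ) (v : Pt) : Prop :=
  s ∈ starts P C lab ∧ p ∈ pet s ∧ ∃ j, p.1 ≤ j ∧ j ≤ p.2 ∧ AtC C lab s j v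

/-- `v` is a vertex of the petal `p` of the strip `s`, but not its root -/
def NR (P : Finset Pt) (C : Finset (Finset Pt)) (lab : Pt → ℕ)
    (pet : Pt × Pt → Finset (ℕ × ℕ)) (gaps : Pt × Pt → Finset ℕ) (s : Pt × Pt) (p : ℕ × ℕ)
    (v : Pt) : Prop :=
  InPet P C lab pet s p v ∧ v ≠ Rt C lab gaps s p

/-- petal triangles -/
noncomputable def E0f (P : Finset Pt) (C : Finset (Finset Pt)) (lab : Pt → ℕ)
    (pet : Pt × Pt → Finset (ℕ × ℕ)) : Finset (Finset Pt) :=
  open Classical in C.filter fun t => ∃ s ∈ starts P C lab, ∃ p ∈ pet s, ∃ n, p.1 ≤ n ∧ n < p.2 ∧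
    t = tr C lab s n

/-- gap triangles -/
noncomputable def G0f (P : Finset Pt) (C : Finset (Finset Pt)) (lab : Pt → ℕ)
    (gaps : Pt × Pt → Finset ℕ) : Finset (Finset Pt) :=
  open Classical in C.filter fun t => ∃ s ∈ starts P C lab, ∃ g ∈ gaps s,
    t = tr C lab s g ∨ t = tr C lab s (g + 1)

/-- end-edges -/
noncomputable def B0f (P : Finset Pt) (C : Finset (Finset Pt)) (lab : Pt → ℕ)
    (pet : Pt × Pt → Finset (ℕ × ℕ)) (gaps : Pt × Pt → Finset ℕ) : Finset (Pt × Pt) :=
  open Classical in (P ×ˢ P).filter fun e => ∃ s ∈ starts P C lab, ∃ p ∈ pet s,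
    (¬ GapL gaps s p ∧ e = (ad C lab s (p.1 - 1), dr C lab s (p.1 - 1))) ∨
    (p.2 ∉ gaps s ∧ e = (dr C lab s p.2, ad C lab s p.2))

/-- closed darts -/
noncomputable def Cl0f (P : Finset Pt) (C : Finset (Finset Pt)) (lab : Pt → ℕ)
    (pet : Pt × Pt → Finset (ℕ × ℕ)) : Finset (Pt × Pt) :=
  open Classical in (P ×ˢ P).filter fun e => HE P e.1 e.2 ∨ HE P e.2 e.1 ∨
    ∃ t ∈ E0f P C lab pet, HE t e.1 e.2 ∨ HE t e.2 e.1

/-- all darts of the normal form -/
noncomputable def M0f (P : Finset Pt) (C : Finset (Finset Pt)) (lab : Pt → ℕ)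
    (pet : Pt × Pt → Finset (ℕ × ℕ)) (gaps : Pt × Pt → Finset ℕ) : Finset (Pt × Pt) :=
  open Classical in (P ×ˢ P).filter fun e => e ∈ Cl0f P C lab pet ∨
    (∃ t ∈ G0f P C lab gaps, HE t e.1 e.2 ∨ HE t e.2 e.1) ∨
    e ∈ B0f P C lab pet gaps ∨ (e.2, e.1) ∈ B0f P C lab pet gaps

/-- gaps -/
noncomputable def Gpf (P : Finset Pt) (C : Finset (Finset Pt)) (lab : Pt → ℕ)
    (gaps : Pt × Pt → Finset ℕ) : Finset (Pt × Pt × Pt × Pt) :=
  open Classical in (P ×ˢ P ×ˢ P ×ˢ P).filter fun q => ∃ s ∈ starts P C lab, ∃ g ∈ gaps s,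
    q = ((it C lab s g).2, (it C lab s g).1, (it C lab s (g + 2)).2, (it C lab s (g + 2)).1)

/-- loose points -/
noncomputable def Lsf (P : Finset Pt) (C Bs : Finset (Finset Pt)) (lab : Pt → ℕ)
    (pet : Pt × Pt → Finset (ℕ × ℕ)) : Finset Pt :=
  open Classical in P.filter fun v => (∀ A ∈ Bs, v ∉ A) ∨
    ∃ s ∈ starts P C lab, ∃ j ≤ len C lab s, AtC C lab s j v ∧ ¬ ∃ p ∈ pet s, p.1 < j ∧ j < p.2

variable {P : Finset Pt} {C Bs : Finset (Finset Pt)} {lab : Pt → ℕ}
  {pet : Pt × Pt → Finset (ℕ × ℕ)} {gaps : Pt × Pt → Finset ℕ}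

private theorem pb_starts_lab {s : Pt × Pt} (hs : s ∈ starts P C lab) : lab s.1 < lab s.2 := by
  unfold starts at hs
  simp only [Finset.mem_filter, Finset.mem_product] at hs
  exact hs.2.1

private theorem pb_dr_ad_mem (h : BC P C Bs lab) {s : Pt × Pt} (hs : s ∈ starts P C lab) {n : ℕ}
    (hn : n < len C lab s) : dr C lab s n ∈ P ∧ ad C lab s n ∈ P := by
  have h1 := it_mem h hs hn.le
  have h2 := it_mem h hs (n := n + 1) hn
  constructor
  · unfold dr
    split
    · exact h1.1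
    · exact h1.2
  · unfold ad
    split
    · exact h2.1
    · exact h2.2

private theorem pb_cm_succ (h : BC P C Bs lab) {s : Pt × Pt} {n : ℕ} (hn : n < len C lab s)
    (he : ltr C lab s (n + 1) = ltr C lab s n) : cm C lab s (n + 1) = cm C lab s n := by
  classical
  rcases (step_lt h hn).cases with ⟨h1, _, _, _⟩ | ⟨h1, h2, _, _⟩
  · have hl : ltr C lab s n = true := by
      unfold ltr
      exact decide_eq_true h1
    have hl' : ltr C lab s (n + 1) = true := he.trans hl
    unfold cm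
    rw [if_pos hl, if_pos hl', h1]
  · have hl : ltr C lab s n = false := by
      unfold ltr
      exact decide_eq_false h2
    have hl' : ltr C lab s (n + 1) = false := he.trans hl
    unfold cm
    rw [if_neg (by rw [hl']; exact Bool.false_ne_true),
      if_neg (by rw [hl]; exact Bool.false_ne_true), h1]

/-- all kept vertices are equal if the letters are equal -/
private theorem pb_cm_const (h : BC P C Bs lab) {s : Pt × Pt} {a b : ℕ} (hb : b < len C lab s)
    {c : Bool} (he : ∀ n, a ≤ n → n ≤ b → ltr C lab s n = c) :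
    ∀ n, a ≤ n → n ≤ b → cm C lab s n = cm C lab s a := by
  intro n hn
  induction n, hn using Nat.le_induction with
  | base => intro _; rfl
  | succ n hn ih =>
    intro h2
    rw [pb_cm_succ h (by omega) ((he (n + 1) (by omega) h2).trans (he n hn (by omega)).symm)]
    exact ih (by omega)

private theorem pb_not_all_cm (h : BC P C Bs lab) {s : Pt × Pt} (hs : s ∈ starts P C lab)
    {a b : ℕ} (hb : b ≤ len C lab s) {v : Pt} (hv : ∀ n, a ≤ n → n < b → v = cm C lab s n)
    (hO : ∀ c, Occ (ltr C lab s) c a b) : False := by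
  obtain ⟨n, hn1, hn2, hn3⟩ := hO true
  obtain ⟨m, hm1, hm2, hm3⟩ := hO false
  have e1 := hv n hn1 hn2
  have e2 := hv m hm1 hm2
  unfold cm at e1 e2
  rw [if_pos hn3] at e1
  rw [if_neg (by rw [hm3]; exact Bool.false_ne_true)] at e2
  have l1 := (it_lab h (s := s) (n := n) (by omega)).2
  have l2 := (it_lab h (s := s) (n := m) (by omega)).1
  rw [← e1] at l1
  rw [← e2] at l2
  have l3 := pb_starts_lab hs
  omega

private theorem pb_down (h : BC P C Bs lab) {s : Pt × Pt} {a j : ℕ} (hj : j ≤ len C lab s)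
    {v : Pt} (hv : AtC C lab s j v) (hna : ∀ n, a ≤ n → n < j → v ≠ ad C lab s n) :
    ∀ d, d ≤ j → a ≤ j - d → AtC C lab s (j - d) v ∧ (0 < d → v = cm C lab s (j - d)) := by
  intro d
  induction d with
  | zero => intro _ _; exact ⟨hv, fun h0 => absurd h0 (lt_irrefl _)⟩
  | succ d ih =>
    intro h1 h2
    have h3 := (ih (by omega) (by omega)).1
    rw [show j - d = (j - (d + 1)) + 1 by omega] at h3
    rcases (at_succ_iff h (s := s) (n := j - (d + 1)) (by omega)).1 h3 with h4 | h4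
    · exact ⟨(at_iff h (by omega)).2 (Or.inr h4), fun _ => h4⟩
    · exact absurd h4 (hna _ h2 (by omega))

private theorem pb_up (h : BC P C Bs lab) {s : Pt × Pt} {j b : ℕ} (hb : b ≤ len C lab s)
    {v : Pt} (hv : AtC C lab s j v) (hna : ∀ n, j ≤ n → n < b → v ≠ dr C lab s n) :
    ∀ i, j ≤ i → i ≤ b → AtC C lab s i v ∧ (i < b → v = cm C lab s i) := by
  have key : ∀ i, j ≤ i → i ≤ b → AtC C lab s i v → (i < b → v = cm C lab s i) := by
    intro i h1 _ h3 h4
    rcases (at_iff h (s := s) (n := i) (by omega)).1 h3 with h5 | h5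
    · exact absurd h5 (hna i h1 h4)
    · exact h5
  intro i hi
  induction i, hi using Nat.le_induction with
  | base => intro h2; exact ⟨hv, key j le_rfl h2 hv⟩
  | succ i hi ih =>
    intro h2
    obtain ⟨_, h4⟩ := ih (by omega)
    have h5 : AtC C lab s (i + 1) v := (at_succ_iff h (by omega)).2 (Or.inl (h4 (by omega)))
    exact ⟨h5, key (i + 1) (by omega) h2 h5⟩

private theorem pb_bool {a b : Bool} (c : Bool) (hab : a ≠ b) : a = c ∨ b = c := by
  cases a <;> cases b <;> cases c <;> simp_all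

/-- an added vertex before a gap -/
private theorem pb_later (h : BC P C Bs lab) {s : Pt × Pt} {n g : ℕ} (hn : n < g)
    (hg : g + 1 < len C lab s) (hne : ltr C lab s g ≠ ltr C lab s (g + 1)) :
    ∃ n', Inr C lab s n n' (ad C lab s n) ∧ n' ≤ g + 1 := by
  have hO : Occ (ltr C lab s) (ltr C lab s n) (n + 1) (len C lab s) := by
    rcases pb_bool (ltr C lab s n) hne with h1 | h1
    · exact ⟨g, by omega, by omega, h1⟩
    · exact ⟨g + 1, by omega, by omega, h1⟩
  obtain ⟨n', hI⟩ := inr_of_later h hO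
  refine ⟨n', hI, ?_⟩
  by_contra hc
  push Not at hc
  rcases pb_bool (ltr C lab s n) hne with h1 | h1
  · exact hI.btw g hn (by omega) h1
  · exact hI.btw (g + 1) (by omega) (by omega) h1

/-- a dropped vertex behind a gap -/
private theorem pb_earlier (h : BC P C Bs lab) {s : Pt × Pt} {n' g : ℕ} (hn : g + 1 < n')
    (hg : n' < len C lab s) (hne : ltr C lab s g ≠ ltr C lab s (g + 1)) :
    ∃ n, Inr C lab s n n' (dr C lab s n') ∧ g ≤ n := by
  have hO : Occ (ltr C lab s) (ltr C lab s n') 0 n' := by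
    rcases pb_bool (ltr C lab s n') hne with h1 | h1
    · exact ⟨g, by omega, by omega, h1⟩
    · exact ⟨g + 1, by omega, by omega, h1⟩
  obtain ⟨n, hI⟩ := inr_of_earlier h hg hO
  refine ⟨n, hI, ?_⟩
  by_contra hc
  push Not at hc
  rcases pb_bool (ltr C lab s n') hne with h1 | h1
  · exact hI.btw g hc (by omega) (h1.trans hI.same)
  · exact hI.btw (g + 1) (by omega) (by omega) (h1.trans hI.same)

private theorem pb_rt_pos {s : Pt × Pt} {p : ℕ × ℕ} (hg : GapL gaps s p) :
    Rt C lab gaps s p = cm C lab s p.2 := by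
  unfold Rt
  rw [if_pos hg]

private theorem pb_rt_neg {s : Pt × Pt} {p : ℕ × ℕ} (hg : ¬ GapL gaps s p) :
    Rt C lab gaps s p = cm C lab s (p.1 - 1) := by
  unfold Rt
  rw [if_neg hg]

theorem PS.size (h : PS P C Bs lab pet gaps) {s : Pt × Pt} {p : ℕ × ℕ} (hp : p ∈ pet s) :
    2 ≤ p.1 ∧ p.1 + 2 ≤ p.2 ∧ p.2 + 2 ≤ len C lab s := by
  exact (h.sys s).size p hp

theorem PS.sepa (h : PS P C Bs lab pet gaps) {s : Pt × Pt} {p q : ℕ × ℕ} (hp : p ∈ pet s)
    (hq : q ∈ pet s) (hpq : p ≠ q) :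
    (p.2 < q.1 ∧ ∀ c, Occ (ltr C lab s) c p.2 q.1) ∨
      (q.2 < p.1 ∧ ∀ c, Occ (ltr C lab s) c q.2 p.1) := by
  exact (h.sys s).sepa p hp q hq hpq

/-- fan, left half-ladder, right half-ladder -/
theorem PS.type (h : PS P C Bs lab pet gaps) {s : Pt × Pt} {p : ℕ × ℕ} (hp : p ∈ pet s) :
    (¬ GapL gaps s p ∧ p.2 ∉ gaps s ∧ OutL (ltr C lab s) (pet s) p.1 ∧
      OutR (ltr C lab s) (len C lab s) (pet s) p.2 ∧
      ∀ n, p.1 - 1 ≤ n → n ≤ p.2 → ltr C lab s n = ltr C lab s p.2) ∨
    (¬ GapL gaps s p ∧ p.2 ∈ gaps s ∧ OutL (ltr C lab s) (pet s) p.1 ∧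
      ∀ c, Occ2 (ltr C lab s) c p.1 p.2) ∨
    (GapL gaps s p ∧ p.2 ∉ gaps s ∧ OutR (ltr C lab s) (len C lab s) (pet s) p.2 ∧
      ∀ c, Occ2 (ltr C lab s) c p.1 p.2) := by
  rcases (h.sys s).type p hp with ⟨h1, h2, h3, h4⟩ | ⟨h1, h2, h3, h4⟩ | ⟨h1, h2, h3, h4⟩
  · refine Or.inl ⟨?_, ?_, h1, h2, h3⟩
    · rintro ⟨g, hg, hg2⟩
      exact (h4 g hg).2 hg2
    · intro hg
      exact (h4 _ hg).1 rfl
  · refine Or.inr (Or.inl ⟨?_, h2, h1, h3⟩)
    rintro ⟨g, hg, hg2⟩
    exact h4 g hg hg2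
  · exact Or.inr (Or.inr ⟨h1, h4, h2, h3⟩)

/-- a gap lies between two petals -/
theorem PS.gap (h : PS P C Bs lab pet gaps) {s : Pt × Pt} {g : ℕ} (hg : g ∈ gaps s) :
    (∃ p ∈ pet s, p.2 = g) ∧ (∃ q ∈ pet s, q.1 = g + 2 ∧ GapL gaps s q) ∧
      ltr C lab s g ≠ ltr C lab s (g + 1) ∧ 4 ≤ g ∧ g + 6 ≤ len C lab s := by
  obtain ⟨⟨p, hp, hp2⟩, ⟨q, hq, hq2⟩, h3⟩ := (h.sys s).gap g hg
  have h4 := h.size hp
  have h5 := h.size hq
  exact ⟨⟨p, hp, hp2⟩, ⟨q, hq, hq2, g, hg, hq2.symm⟩, h3, by omega, by omega⟩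

theorem PS.mem_E0 (h : PS P C Bs lab pet gaps) {t : Finset Pt} :
    t ∈ E0f P C lab pet ↔ ∃ s ∈ starts P C lab, ∃ p ∈ pet s, ∃ n, p.1 ≤ n ∧ n < p.2 ∧
      t = tr C lab s n := by
  classical
  unfold E0f
  rw [Finset.mem_filter]
  constructor
  · exact fun h1 => h1.2
  · rintro ⟨s, hs, p, hp, n, hn1, hn2, rfl⟩
    have h1 := h.size hp
    exact ⟨(tr_mem h.bc (by omega)).1, s, hs, p, hp, n, hn1, hn2, rfl⟩

theorem PS.mem_G0 (h : PS P C Bs lab pet gaps) {t : Finset Pt} :
    t ∈ G0f P C lab gaps ↔ ∃ s ∈ starts P C lab, ∃ g ∈ gaps s,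
      t = tr C lab s g ∨ t = tr C lab s (g + 1) := by
  classical
  unfold G0f
  rw [Finset.mem_filter]
  constructor
  · exact fun h1 => h1.2
  · rintro ⟨s, hs, g, hg, h1⟩
    obtain ⟨_, _, _, _, h2⟩ := h.gap hg
    refine ⟨?_, s, hs, g, hg, h1⟩
    rcases h1 with rfl | rfl
    · exact (tr_mem h.bc (by omega)).1
    · exact (tr_mem h.bc (by omega)).1

theorem PS.mem_B0 (h : PS P C Bs lab pet gaps) {e : Pt × Pt} :
    e ∈ B0f P C lab pet gaps ↔ ∃ s ∈ starts P C lab, ∃ p ∈ pet s,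
      (¬ GapL gaps s p ∧ e = (ad C lab s (p.1 - 1), dr C lab s (p.1 - 1))) ∨
      (p.2 ∉ gaps s ∧ e = (dr C lab s p.2, ad C lab s p.2)) := by
  classical
  unfold B0f
  rw [Finset.mem_filter]
  constructor
  · exact fun h1 => h1.2
  · rintro ⟨s, hs, p, hp, h1⟩
    have h2 := h.size hp
    refine ⟨?_, s, hs, p, hp, h1⟩
    rcases h1 with ⟨_, rfl⟩ | ⟨_, rfl⟩
    · obtain ⟨m1, m2⟩ := pb_dr_ad_mem h.bc hs (n := p.1 - 1) (by omega)
      exact Finset.mem_product.2 ⟨m2, m1⟩
    · obtain ⟨m1, m2⟩ := pb_dr_ad_mem h.bc hs (n := p.2) (by omega)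
      exact Finset.mem_product.2 ⟨m1, m2⟩

theorem PS.mem_Cl0 (h : PS P C Bs lab pet gaps) {a b : Pt} :
    (a, b) ∈ Cl0f P C lab pet ↔ HE P a b ∨ HE P b a ∨
      ∃ t ∈ E0f P C lab pet, HE t a b ∨ HE t b a := by
  classical
  unfold Cl0f
  rw [Finset.mem_filter]
  constructor
  · exact fun h1 => h1.2
  · intro h1
    refine ⟨?_, h1⟩
    rw [Finset.mem_product]
    rcases h1 with h1 | h1 | ⟨t, ht, h1⟩
    · exact ⟨h1.1, h1.2.1⟩
    · exact ⟨h1.2.1, h1.1⟩
    · have ht2 : t ∈ C := by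
        unfold E0f at ht
        exact (Finset.mem_filter.1 ht).1
      rcases h1 with h1 | h1
      · exact ⟨h.bc.subP t ht2 h1.1, h.bc.subP t ht2 h1.2.1⟩
      · exact ⟨h.bc.subP t ht2 h1.2.1, h.bc.subP t ht2 h1.1⟩

theorem PS.mem_M0 (h : PS P C Bs lab pet gaps) {a b : Pt} :
    (a, b) ∈ M0f P C lab pet gaps ↔ (a, b) ∈ Cl0f P C lab pet ∨
      (∃ t ∈ G0f P C lab gaps, HE t a b ∨ HE t b a) ∨
      (a, b) ∈ B0f P C lab pet gaps ∨ (b, a) ∈ B0f P C lab pet gaps := by
  classical
  have hB : ∀ x y, (x, y) ∈ B0f P C lab pet gaps → x ∈ P ∧ y ∈ P := by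
    intro x y hxy
    unfold B0f at hxy
    exact Finset.mem_product.1 (Finset.mem_filter.1 hxy).1
  unfold M0f
  rw [Finset.mem_filter]
  constructor
  · exact fun h1 => h1.2
  · intro h1
    refine ⟨?_, h1⟩
    rw [Finset.mem_product]
    rcases h1 with h1 | ⟨t, ht, h1⟩ | h1 | h1
    · unfold Cl0f at h1
      exact Finset.mem_product.1 (Finset.mem_filter.1 h1).1
    · have ht2 : t ∈ C := by
        unfold G0f at ht
        exact (Finset.mem_filter.1 ht).1
      rcases h1 with h1 | h1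
      · exact ⟨h.bc.subP t ht2 h1.1, h.bc.subP t ht2 h1.2.1⟩
      · exact ⟨h.bc.subP t ht2 h1.2.1, h.bc.subP t ht2 h1.1⟩
    · exact hB a b h1
    · exact (hB b a h1).symm

theorem PS.mem_Gp (h : PS P C Bs lab pet gaps) {q : Pt × Pt × Pt × Pt} :
    q ∈ Gpf P C lab gaps ↔ ∃ s ∈ starts P C lab, ∃ g ∈ gaps s,
      q = ((it C lab s g).2, (it C lab s g).1, (it C lab s (g + 2)).2, (it C lab s (g + 2)).1) := by
  classical
  unfold Gpf
  rw [Finset.mem_filter]
  constructor
  · exact fun h1 => h1.2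
  · rintro ⟨s, hs, g, hg, rfl⟩
    obtain ⟨_, _, _, _, h2⟩ := h.gap hg
    obtain ⟨m1, m2⟩ := it_mem h.bc hs (n := g) (by omega)
    obtain ⟨m3, m4⟩ := it_mem h.bc hs (n := g + 2) (by omega)
    refine ⟨?_, s, hs, g, hg, rfl⟩
    simp only [Finset.mem_product]
    exact ⟨m2, m1, m4, m3⟩

theorem mem_Ls {v : Pt} :
    v ∈ Lsf P C Bs lab pet ↔ v ∈ P ∧ ((∀ A ∈ Bs, v ∉ A) ∨
      ∃ s ∈ starts P C lab, ∃ j ≤ len C lab s, AtC C lab s j v ∧
        ¬ ∃ p ∈ pet s, p.1 < j ∧ j < p.2) := by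
  classical
  unfold Lsf
  rw [Finset.mem_filter]

/-- a petal triangle determines its strip, petal and number -/
theorem PS.tr_uniq (h : PS P C Bs lab pet gaps) {s s' : Pt × Pt} (hs : s ∈ starts P C lab)
    (hs' : s' ∈ starts P C lab) {p p' : ℕ × ℕ} (hp : p ∈ pet s) (hp' : p' ∈ pet s') {n n' : ℕ}
    (h1 : p.1 ≤ n) (h2 : n < p.2) (h1' : p'.1 ≤ n') (h2' : n' < p'.2)
    (he : tr C lab s n = tr C lab s' n') : s = s' ∧ p = p' ∧ n = n' := by
  have z1 := h.size hp
  have z2 := h.size hp'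
  obtain ⟨rfl, rfl⟩ := tr_inj h.bc hs hs' (by omega) (by omega) he
  refine ⟨rfl, ?_, rfl⟩
  by_contra hne
  rcases h.sepa hp hp' hne with ⟨k, _⟩ | ⟨k, _⟩
  · omega
  · omega

/-- a gap triangle is not a petal triangle -/
theorem PS.disj (h : PS P C Bs lab pet gaps) : ∀ t ∈ G0f P C lab gaps, t ∉ E0f P C lab pet := by
  intro t htG htE
  obtain ⟨s, hs, g, hg, h1⟩ := h.mem_G0.1 htG
  obtain ⟨s', hs', r, hr, n, hn1, hn2, h2⟩ := h.mem_E0.1 htE
  obtain ⟨⟨p, hp, hp2⟩, ⟨q, hq, hq2, _⟩, _, g1, g2⟩ := h.gap hg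
  have z1 := h.size hp
  have z2 := h.size hq
  have z3 := h.size hr
  rw [h2] at h1
  rcases h1 with h1 | h1
  · obtain ⟨rfl, rfl⟩ := tr_inj h.bc hs' hs (by omega) (by omega) h1
    have hne : p ≠ r := by
      rintro rfl
      omega
    rcases h.sepa hp hr hne with ⟨k, _⟩ | ⟨k, _⟩
    · omega
    · omega
  · obtain ⟨rfl, rfl⟩ := tr_inj h.bc hs' hs (by omega) (by omega) h1
    have hne : q ≠ r := by
      rintro rfl
      omega
    rcases h.sepa hq hr hne with ⟨k, _⟩ | ⟨k, _⟩
    · omega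
    · omega

/-- P1 -/
theorem PS.inr (h : PS P C Bs lab pet gaps) {s : Pt × Pt} {p : ℕ × ℕ} {v : Pt}
    (hv : NR P C lab pet gaps s p v) :
    ∃ n n', Inr C lab s n n' v ∧ (p.1 ≤ n + 1 ∨ GapL gaps s p ∧ p.1 ≤ n + 2) ∧
      (n' ≤ p.2 ∨ p.2 ∈ gaps s ∧ n' ≤ p.2 + 1) := by
  obtain ⟨⟨hs, hp, j, hj1, hj2, hj3⟩, hr⟩ := hv
  have z := h.size hp
  rcases h.type hp with ⟨t1, t2, t3, t4, t5⟩ | ⟨t1, t2, t3, t4⟩ | ⟨t1, t2, t3, t4⟩
  · rw [pb_rt_neg t1] at hr
    have e1 := pb_cm_const h.bc (s := s) (a := p.1 - 1) (b := p.2) (by omega) t5 (j - 1)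
      (by omega) (by omega)
    rw [show j = (j - 1) + 1 by omega] at hj3
    rcases (at_succ_iff h.bc (by omega)).1 hj3 with k | k
    · exact absurd (k.trans e1) hr
    · have e2 : ltr C lab s j = ltr C lab s (j - 1) :=
        (t5 j (by omega) hj2).trans (t5 (j - 1) (by omega) (by omega)).symm
      obtain ⟨n', hI⟩ := inr_of_later h.bc (s := s) (n := j - 1) ⟨j, by omega, by omega, e2⟩
      have h1 := hI.lt
      have h2 : n' ≤ j := by
        by_contra hc
        push Not at hc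
        exact hI.btw j (by omega) hc e2
      rw [← k] at hI
      exact ⟨j - 1, n', hI, Or.inl (by omega), Or.inl (by omega)⟩
  · rw [pb_rt_neg t1] at hr
    obtain ⟨_, _, g1, _, g2⟩ := h.gap t2
    have hex : ∃ n, p.1 - 1 ≤ n ∧ n < j ∧ v = ad C lab s n := by
      by_contra hc
      push Not at hc
      have h1 := (pb_down h.bc (s := s) (a := p.1 - 1) (by omega) hj3
        (fun n a b => hc n a b) (j - (p.1 - 1)) (by omega) (by omega)).2 (by omega)
      rw [show j - (j - (p.1 - 1)) = p.1 - 1 by omega] at h1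
      exact hr h1
    obtain ⟨n, n1, n2, n3⟩ := hex
    obtain ⟨n', hI, hn'⟩ := pb_later h.bc (s := s) (n := n) (g := p.2) (by omega) (by omega) g1
    rw [← n3] at hI
    exact ⟨n, n', hI, Or.inl (by omega), Or.inr ⟨t2, hn'⟩⟩
  · rw [pb_rt_pos t1] at hr
    have t1' := t1
    obtain ⟨g, hg, hg2⟩ := t1'
    obtain ⟨_, _, g1, _, g2⟩ := h.gap hg
    have hex : ∃ n', j ≤ n' ∧ n' < p.2 + 1 ∧ v = dr C lab s n' := by
      by_contra hc
      push Not at hc
      have h1 := (pb_up h.bc (s := s) (j := j) (b := p.2 + 1) (by omega) hj3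
        (fun n a b => hc n a b) p.2 (by omega) (by omega)).2 (by omega)
      exact hr h1
    obtain ⟨n', n1, n2, n3⟩ := hex
    obtain ⟨n, hI, hn⟩ := pb_earlier h.bc (s := s) (n' := n') (g := g) (by omega) (by omega) g1
    rw [← n3] at hI
    exact ⟨n, n', hI, Or.inr ⟨t1, by omega⟩, Or.inl (by omega)⟩

/-- P2 -/
theorem PS.uniq (h : PS P C Bs lab pet gaps) {s s' : Pt × Pt} {p p' : ℕ × ℕ} {v : Pt}
    (hv : NR P C lab pet gaps s p v) (hv' : InPet P C lab pet s' p' v) : s = s' ∧ p = p' := by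
  obtain ⟨n, n', hI, _, _⟩ := h.inr hv
  obtain ⟨⟨hs, hp, j, hj1, hj2, hj3⟩, _⟩ := hv
  obtain ⟨hs', hp', j', hj1', hj2', hj3'⟩ := hv'
  have z1 := h.size hp
  have z2 := h.size hp'
  obtain ⟨e1, e2, e3⟩ := hI.occ h.bc hs hs' (j := j') (by omega) hj3'
  obtain ⟨_, f2, f3⟩ := hI.occ h.bc hs hs (j := j) (by omega) hj3
  subst e1
  refine ⟨rfl, ?_⟩
  by_contra hne
  rcases h.sepa hp hp' hne with ⟨k1, k2⟩ | ⟨k1, k2⟩
  · obtain ⟨k, a1, a2, a3⟩ := k2 (ltr C lab s' n)
    exact hI.btw k (by omega) (by omega) a3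
  · obtain ⟨k, a1, a2, a3⟩ := k2 (ltr C lab s' n)
    exact hI.btw k (by omega) (by omega) a3

theorem PS.rt_in (h : PS P C Bs lab pet gaps) {s : Pt × Pt} {p : ℕ × ℕ}
    (hs : s ∈ starts P C lab) (hp : p ∈ pet s) : InPet P C lab pet s p (Rt C lab gaps s p) := by
  have z := h.size hp
  by_cases hg : GapL gaps s p
  · rw [pb_rt_pos hg]
    exact ⟨hs, hp, p.2, by omega, le_rfl, (at_iff h.bc (by omega)).2 (Or.inr rfl)⟩
  · rw [pb_rt_neg hg]
    refine ⟨hs, hp, p.1, le_rfl, by omega, ?_⟩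
    have h1 := (at_succ_iff h.bc (s := s) (n := p.1 - 1) (v := cm C lab s (p.1 - 1))
      (by omega)).2 (Or.inl rfl)
    rw [show p.1 - 1 + 1 = p.1 by omega] at h1
    exact h1

theorem PS.rt_not (h : PS P C Bs lab pet gaps) {s s' : Pt × Pt} {p p' : ℕ × ℕ}
    (hs : s ∈ starts P C lab) (hp : p ∈ pet s) :
    ¬ NR P C lab pet gaps s' p' (Rt C lab gaps s p) := by
  intro hN
  obtain ⟨e1, e2⟩ := h.uniq hN (h.rt_in hs hp)
  subst e1
  subst e2
  exact hN.2 rfl

/-- at the left outer end the non-root vertex is `N = ad (p.1 - 1)` -/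
theorem PS.left_end (h : PS P C Bs lab pet gaps) {s : Pt × Pt} {p : ℕ × ℕ}
    (hs : s ∈ starts P C lab) (hp : p ∈ pet s) (hl : ¬ GapL gaps s p) :
    NR P C lab pet gaps s p (ad C lab s (p.1 - 1)) ∧ Rt C lab gaps s p = cm C lab s (p.1 - 1) ∧
      ∀ v, AtC C lab s p.1 v ↔ v = Rt C lab gaps s p ∨ v = ad C lab s (p.1 - 1) := by
  have z := h.size hp
  have hR : Rt C lab gaps s p = cm C lab s (p.1 - 1) := pb_rt_neg hl
  have hA : ∀ v, AtC C lab s p.1 v ↔ v = cm C lab s (p.1 - 1) ∨ v = ad C lab s (p.1 - 1) := by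
    intro v
    have h1 := at_succ_iff h.bc (s := s) (n := p.1 - 1) (v := v) (by omega)
    rw [show p.1 - 1 + 1 = p.1 by omega] at h1
    exact h1
  refine ⟨⟨⟨hs, hp, p.1, le_rfl, by omega, (hA _).2 (Or.inr rfl)⟩, ?_⟩, hR, ?_⟩
  · rw [hR]
    exact (ne3 h.bc (s := s) (n := p.1 - 1) (by omega)).2.2.symm
  · rw [hR]
    exact hA

/-- at the right outer end the non-root vertex is `N = dr p.2` -/
theorem PS.right_end (h : PS P C Bs lab pet gaps) {s : Pt × Pt} {p : ℕ × ℕ}
    (hs : s ∈ starts P C lab) (hp : p ∈ pet s) (hl : p.2 ∉ gaps s) :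
    NR P C lab pet gaps s p (dr C lab s p.2) ∧ Rt C lab gaps s p = cm C lab s p.2 ∧
      ∀ v, AtC C lab s p.2 v ↔ v = Rt C lab gaps s p ∨ v = dr C lab s p.2 := by
  have z := h.size hp
  have hR : Rt C lab gaps s p = cm C lab s p.2 := by
    by_cases hg : GapL gaps s p
    · exact pb_rt_pos hg
    · rw [pb_rt_neg hg]
      rcases h.type hp with ⟨_, _, _, _, t5⟩ | ⟨_, t2, _⟩ | ⟨t1, _⟩
      · exact (pb_cm_const h.bc (s := s) (a := p.1 - 1) (b := p.2) (by omega) t5 p.2
          (by omega) le_rfl).symm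
      · exact absurd t2 hl
      · exact absurd t1 hg
  have hA : ∀ v, AtC C lab s p.2 v ↔ v = cm C lab s p.2 ∨ v = dr C lab s p.2 := by
    intro v
    rw [at_iff h.bc (s := s) (n := p.2) (v := v) (by omega)]
    exact or_comm
  refine ⟨⟨⟨hs, hp, p.2, by omega, le_rfl, (hA _).2 (Or.inr rfl)⟩, ?_⟩, hR, ?_⟩
  · rw [hR]
    exact (ne3 h.bc (s := s) (n := p.2) (by omega)).1
  · rw [hR]
    exact hA

/-- the ends at a gap are no roots -/
theorem PS.gap_nr (h : PS P C Bs lab pet gaps) {s : Pt × Pt} {p : ℕ × ℕ}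
    (hs : s ∈ starts P C lab) (hp : p ∈ pet s) {v : Pt}
    (hv : (p.2 ∈ gaps s ∧ AtC C lab s p.2 v) ∨ (GapL gaps s p ∧ AtC C lab s p.1 v)) :
    NR P C lab pet gaps s p v := by
  have z := h.size hp
  rcases hv with ⟨hg, hv⟩ | ⟨hg, hv⟩
  · rcases h.type hp with ⟨_, t2, _⟩ | ⟨t1, _, _, t4⟩ | ⟨_, t2, _⟩
    · exact absurd hg t2
    · obtain ⟨_, _, g1, _, g2⟩ := h.gap hg
      have hex : ∃ n, p.1 ≤ n ∧ n < p.2 ∧ v = ad C lab s n := by
        by_contra hc
        push Not at hc
        refine pb_not_all_cm h.bc hs (a := p.1) (b := p.2) (by omega) (v := v) ?_ ?_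
        · intro n n1 n2
          have h1 := (pb_down h.bc (s := s) (a := p.1) (j := p.2) (by omega) hv
            (fun n a b => hc n a b) (p.2 - n) (by omega) (by omega)).2 (by omega)
          rw [show p.2 - (p.2 - n) = n by omega] at h1
          exact h1
        · intro c
          obtain ⟨a, _, a1, a2, a3, a4, _⟩ := t4 c
          exact ⟨a, a1, by omega, a4⟩
      obtain ⟨n, n1, n2, n3⟩ := hex
      obtain ⟨n', hI, hn'⟩ := pb_later h.bc (s := s) (n := n) (g := p.2) (by omega) (by omega) g1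
      rw [← n3] at hI
      refine ⟨⟨hs, hp, p.2, by omega, le_rfl, hv⟩, ?_⟩
      intro hc
      have h1 := ((h.left_end hs hp t1).2.2 v).2 (Or.inl hc)
      have h2 := (hI.at_iff h.bc hs (j := p.1) (by omega)).1 h1
      omega
    · exact absurd hg t2
  · rcases h.type hp with ⟨t1, _⟩ | ⟨t1, _⟩ | ⟨_, t2, _, t4⟩
    · exact absurd hg t1
    · exact absurd hg t1
    · have hg' := hg
      obtain ⟨g, hg3, hg2⟩ := hg'
      obtain ⟨_, _, g1, _, g2⟩ := h.gap hg3
      have hex : ∃ n', p.1 ≤ n' ∧ n' < p.2 ∧ v = dr C lab s n' := by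
        by_contra hc
        push Not at hc
        refine pb_not_all_cm h.bc hs (a := p.1) (b := p.2) (by omega) (v := v) ?_ ?_
        · intro n n1 n2
          exact (pb_up h.bc (s := s) (j := p.1) (b := p.2) (by omega) hv
            (fun n a b => hc n a b) n n1 (by omega)).2 n2
        · intro c
          obtain ⟨a, _, a1, a2, a3, a4, _⟩ := t4 c
          exact ⟨a, a1, by omega, a4⟩
      obtain ⟨n', n1, n2, n3⟩ := hex
      obtain ⟨n, hI, hn⟩ := pb_earlier h.bc (s := s) (n' := n') (g := g) (by omega) (by omega) g1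
      rw [← n3] at hI
      refine ⟨⟨hs, hp, p.1, le_rfl, by omega, hv⟩, ?_⟩
      intro hc
      have h1 := ((h.right_end hs hp t2).2.2 v).2 (Or.inl hc)
      have h2 := (hI.at_iff h.bc hs (j := p.2) (by omega)).1 h1
      omega

end Pool.Agent.RFX

end

section

set_option autoImplicit false

/-!
# RFX/NFM0 : the edges of the normal form (MP_72a26e_co)

PROOFS. `m0_at`: `v`, `w` are the two ends of the cross edge number `j` (`At`, `v ≠ w`). If `p.1 ≤ j ≤ p.2` it is a side of the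
petal triangle `j` (if `j < p.2`) or `j - 1` (`tr_he`, `mem_E0`, `mem_Cl0`, `mem_M0`). Otherwise `j = p.1 - 1 = g + 1` with
`g ∈ gaps s` (`GapL`) or `j = p.2 + 1`, `p.2 ∈ gaps s`: a side of the gap triangle number `g` resp. `p.2`.
`m0_step`: the body edge of the triangle `n` (`tr_he`, last two cases): if `p.1 ≤ n < p.2` a petal triangle; if `n = p.2 ∈ gaps s` or
`n = p.2 + 1`, `p.2 ∈ gaps s`: gap triangle; if `n = p.2 ∉ gaps s`: end-edge (`mem_B0`); `n = p.1 - 1` and `¬ GapL`: end-edge; `GapL` and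
`n = p.1 - 1 = g + 1` or `n = p.1 - 2 = g`: gap triangle.
`res` (P3): `PS.inr`, `Inr.res` with `m0_step` (steps `n`, `n'`) and `m0_at` (positions `n < j ≤ n'`); `orient v w u = cross (w - v) (u - v)`.
`hv`: `PS.inr`, `Inr.hull`.
`side`: `Full.hull`, `mem_E0`, `mem_G0`, `mem_B0` and `tr_he` (the end-edge is the body edge of the triangle `p.1 - 1` resp. `p.2`), `tr_mem`.
`pl`: `M0f ⊆ RFT.sidesOf C` by `side` (`RFT.mem_sidesOf`), `RFT.pl_sidesOf`; `M0f` is symmetric by `mem_M0`, `mem_Cl0`.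
`tri_cell`: a cell `t` with three elements is `{x, y, u}` with `0 < orient x y u` and sides `x → y`, `y → u`, `u → x`
(`CP.exists_succ`, `HE.exists_third`); `InT x y u p` gives `p ∈ convexHull t` (`mem_hull3`); `p ∈ P = V C` lies in a cell `s`; if `s ≠ t` then
`Cx.inter` (`p` is in both hulls) gives `p ∈ convexHull (s ∩ t)`; `s ∩ t` is contained in a side of `t`
(at most two elements: `Cx.two`), so `orient` of `p` for this side is `0`; `p ∈ s`, `s` has `p` as an extreme point: with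
`b` the next vertex of `s` after `p` (`CP.exists_succ`), `HE.mem_left` (`HE s p b`, `s ∩ t ⊆ s`,
`p ∈ convexHull (s ∩ t)`) gives `p ∈ s ∩ t`. So `p ∈ t` in every case.
-/

namespace Pool.Agent.RFX

open Pool.Agent.RFT

variable {P : Finset Pt} {C Bs : Finset (Finset Pt)} {lab : Pt → ℕ}
  {pet : Pt × Pt → Finset (ℕ × ℕ)} {gaps : Pt × Pt → Finset ℕ}

/-- a side of a triangle of the normal form is an edge -/
private theorem nfm_side (h : PS P C Bs lab pet gaps) {t : Finset Pt} {a b : Pt}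
    (ht : t ∈ E0f P C lab pet ∨ t ∈ G0f P C lab gaps) (hab : HE t a b) :
    (a, b) ∈ M0f P C lab pet gaps ∧ (b, a) ∈ M0f P C lab pet gaps := by
  rcases ht with ht | ht
  · exact ⟨h.mem_M0.2 (Or.inl (h.mem_Cl0.2 (Or.inr (Or.inr ⟨t, ht, Or.inl hab⟩)))),
      h.mem_M0.2 (Or.inl (h.mem_Cl0.2 (Or.inr (Or.inr ⟨t, ht, Or.inr hab⟩))))⟩
  · exact ⟨h.mem_M0.2 (Or.inr (Or.inl ⟨t, ht, Or.inl hab⟩)),
      h.mem_M0.2 (Or.inr (Or.inl ⟨t, ht, Or.inr hab⟩))⟩

private theorem nfm_cross (h : PS P C Bs lab pet gaps) {s : Pt × Pt} {n j : ℕ}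
    (hn : n < len C lab s)
    (ht : tr C lab s n ∈ E0f P C lab pet ∨ tr C lab s n ∈ G0f P C lab gaps)
    (hj : j = n ∨ j = n + 1) {v w : Pt} (hv : AtC C lab s j v)
    (hw : AtC C lab s j w) (hvw : v ≠ w) : (v, w) ∈ M0f P C lab pet gaps := by
  have key : ((it C lab s j).1, (it C lab s j).2) ∈ M0f P C lab pet gaps ∧
      ((it C lab s j).2, (it C lab s j).1) ∈ M0f P C lab pet gaps := by
    rcases hj with rfl | rfl
    · have := nfm_side h ht ((tr_he h.bc hn).2 (Or.inl ⟨rfl, rfl⟩))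
      exact ⟨this.2, this.1⟩
    · exact nfm_side h ht ((tr_he h.bc hn).2 (Or.inr (Or.inl ⟨rfl, rfl⟩)))
  rcases hv with rfl | rfl <;> rcases hw with rfl | rfl
  · exact absurd rfl hvw
  · exact key.1
  · exact key.2
  · exact absurd rfl hvw

private theorem nfm_body (h : PS P C Bs lab pet gaps) {s : Pt × Pt} {n : ℕ}
    (hn : n < len C lab s)
    (ht : tr C lab s n ∈ E0f P C lab pet ∨ tr C lab s n ∈ G0f P C lab gaps) :
    (dr C lab s n, ad C lab s n) ∈ M0f P C lab pet gaps ∧
      (ad C lab s n, dr C lab s n) ∈ M0f P C lab pet gaps := by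
  rcases Bool.eq_false_or_eq_true (ltr C lab s n) with h1 | h1
  · exact nfm_side h ht ((tr_he h.bc hn).2 (Or.inr (Or.inr (Or.inl ⟨h1, rfl, rfl⟩))))
  · have := nfm_side h ht ((tr_he h.bc hn).2 (Or.inr (Or.inr (Or.inr ⟨h1, rfl, rfl⟩))))
    exact ⟨this.2, this.1⟩

theorem PS.m0_at (h : PS P C Bs lab pet gaps) {s : Pt × Pt} {p : ℕ × ℕ}
    (hs : s ∈ starts P C lab) (hp : p ∈ pet s) {j : ℕ}
    (h1 : p.1 ≤ j ∨ GapL gaps s p ∧ p.1 ≤ j + 1)
    (h2 : j ≤ p.2 ∨ p.2 ∈ gaps s ∧ j ≤ p.2 + 1) {v w : Pt} (hv : AtC C lab s j v)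
    (hw : AtC C lab s j w) (hvw : v ≠ w) : (v, w) ∈ M0f P C lab pet gaps := by
  obtain ⟨z1, z2, z3⟩ := h.size hp
  by_cases c1 : p.1 ≤ j
  · by_cases c2 : j < p.2
    · exact nfm_cross h (by omega) (Or.inl (h.mem_E0.2 ⟨s, hs, p, hp, j, c1, c2, rfl⟩))
        (Or.inl rfl) hv hw hvw
    · by_cases c3 : j = p.2
      · refine nfm_cross h (n := j - 1) (by omega)
          (Or.inl (h.mem_E0.2 ⟨s, hs, p, hp, j - 1, by omega, by omega, rfl⟩))
          (Or.inr (by omega)) hv hw hvw
      · rcases h2 with h2 | ⟨h2, h3⟩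
        · omega
        · exact nfm_cross h (n := p.2) (by omega)
            (Or.inr (h.mem_G0.2 ⟨s, hs, p.2, h2, Or.inl rfl⟩)) (Or.inr (by omega)) hv hw hvw
  · rcases h1 with h1 | ⟨⟨g, hg, hg2⟩, h1⟩
    · omega
    · exact nfm_cross h (n := g) (by omega)
        (Or.inr (h.mem_G0.2 ⟨s, hs, g, hg, Or.inl rfl⟩)) (Or.inr (by omega)) hv hw hvw

theorem PS.m0_step (h : PS P C Bs lab pet gaps) {s : Pt × Pt} {p : ℕ × ℕ}
    (hs : s ∈ starts P C lab) (hp : p ∈ pet s) {n : ℕ}
    (h1 : p.1 ≤ n + 1 ∨ GapL gaps s p ∧ p.1 ≤ n + 2)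
    (h2 : n ≤ p.2 ∨ p.2 ∈ gaps s ∧ n ≤ p.2 + 1) :
    (dr C lab s n, ad C lab s n) ∈ M0f P C lab pet gaps ∧
      (ad C lab s n, dr C lab s n) ∈ M0f P C lab pet gaps := by
  obtain ⟨z1, z2, z3⟩ := h.size hp
  by_cases c1 : p.1 ≤ n
  · by_cases c2 : n < p.2
    · exact nfm_body h (by omega) (Or.inl (h.mem_E0.2 ⟨s, hs, p, hp, n, c1, c2, rfl⟩))
    · by_cases c3 : n = p.2
      · subst c3
        by_cases hg : p.2 ∈ gaps s
        · exact nfm_body h (by omega) (Or.inr (h.mem_G0.2 ⟨s, hs, p.2, hg, Or.inl rfl⟩))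
        · have hB := h.mem_B0.2 ⟨s, hs, p, hp, Or.inr ⟨hg, rfl⟩⟩
          exact ⟨h.mem_M0.2 (Or.inr (Or.inr (Or.inl hB))),
            h.mem_M0.2 (Or.inr (Or.inr (Or.inr hB)))⟩
      · rcases h2 with h2 | ⟨h2, h3⟩
        · omega
        · have hn : n = p.2 + 1 := by omega
          subst hn
          obtain ⟨_, _, _, _, g6⟩ := h.gap h2
          exact nfm_body h (by omega) (Or.inr (h.mem_G0.2 ⟨s, hs, p.2, h2, Or.inr rfl⟩))
  · by_cases c4 : GapL gaps s p
    · obtain ⟨g, hg, hg2⟩ := c4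
      have hn : n = g ∨ n = g + 1 := by
        rcases h1 with h1 | ⟨_, h1⟩ <;> omega
      rcases hn with rfl | rfl
      · exact nfm_body h (by omega) (Or.inr (h.mem_G0.2 ⟨s, hs, n, hg, Or.inl rfl⟩))
      · exact nfm_body h (by omega) (Or.inr (h.mem_G0.2 ⟨s, hs, g, hg, Or.inr rfl⟩))
    · have hn : n = p.1 - 1 := by
        rcases h1 with h1 | ⟨h1, _⟩
        · omega
        · exact absurd h1 c4
      subst hn
      have hB := h.mem_B0.2 ⟨s, hs, p, hp, Or.inl ⟨c4, rfl⟩⟩
      exact ⟨h.mem_M0.2 (Or.inr (Or.inr (Or.inr hB))),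
        h.mem_M0.2 (Or.inr (Or.inr (Or.inl hB)))⟩

/-- P3 -/
theorem PS.res (h : PS P C Bs lab pet gaps) {s : Pt × Pt} {p : ℕ × ℕ} {v : Pt}
    (hv : NR P C lab pet gaps s p v) : Res (M0f P C lab pet gaps) v := by
  obtain ⟨n, n', hI, a1, a2⟩ := h.inr hv
  obtain ⟨hs, hp, _⟩ := hv.1
  have hlt := hI.lt
  intro w hw
  obtain ⟨x, hx1, hx2⟩ := hI.res h.bc (M0f P C lab pet gaps)
    (by
      have := (h.m0_step hs hp (n := n) a1 (by
        rcases a2 with a2 | ⟨a2, a3⟩
        · exact Or.inl (by omega)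
        · exact Or.inr ⟨a2, by omega⟩)).2
      rw [← hI.ad] at this
      exact this)
    (by
      have := (h.m0_step hs hp (n := n') (by
        rcases a1 with a1 | ⟨a1, a3⟩
        · exact Or.inl (by omega)
        · exact Or.inr ⟨a1, by omega⟩) a2).1
      rw [← hI.dr] at this
      exact this)
    (by
      intro j hj1 hj2 x hx hxv
      refine h.m0_at hs hp (j := j) ?_ ?_ ((hI.at_iff h.bc hs (by have := hI.lt'; omega)).2
        ⟨hj1, hj2⟩) hx hxv.symm
      · rcases a1 with a1 | ⟨a1, a3⟩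
        · exact Or.inl (by omega)
        · exact Or.inr ⟨a1, by omega⟩
      · rcases a2 with a2 | ⟨a2, a3⟩
        · exact Or.inl (by omega)
        · exact Or.inr ⟨a2, by omega⟩)
    (w - v) (sub_ne_zero.2 hw)
  refine ⟨x, hx1, ?_⟩
  have he : orient v w x = cross (w - v) (x - v) := by
    unfold orient cross
    simp only [Prod.fst_sub, Prod.snd_sub]
    ring
  rw [he]
  exact hx2

theorem PS.hv (h : PS P C Bs lab pet gaps) {s : Pt × Pt} {p : ℕ × ℕ} {v : Pt}
    (hv : NR P C lab pet gaps s p v) (b : Pt) : ¬ HE P v b ∧ ¬ HE P b v := by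
  obtain ⟨n, n', hI, _, _⟩ := h.inr hv
  exact hI.hull h.bc b

theorem PS.side (h : PS P C Bs lab pet gaps) : ∀ a b, (a, b) ∈ M0f P C lab pet gaps →
    ∃ t ∈ C, HE t a b ∨ HE t b a := by
  have hE : ∀ t, t ∈ E0f P C lab pet → t ∈ C := by
    intro t ht
    obtain ⟨s, hs, p, hp, n, h1, h2, rfl⟩ := h.mem_E0.1 ht
    have := (h.size hp).2.2
    exact (tr_mem h.bc (by omega)).1
  have hG : ∀ t, t ∈ G0f P C lab gaps → t ∈ C := by
    intro t ht
    obtain ⟨s, hs, g, hg, h3⟩ := h.mem_G0.1 ht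
    obtain ⟨_, _, _, _, h4⟩ := h.gap hg
    rcases h3 with rfl | rfl
    · exact (tr_mem h.bc (by omega)).1
    · exact (tr_mem h.bc (by omega)).1
  have hst : ∀ (s : Pt × Pt) (n : ℕ), n < len C lab s →
      ∃ t ∈ C, HE t (ad C lab s n) (dr C lab s n) ∨ HE t (dr C lab s n) (ad C lab s n) := by
    intro s n hn
    refine ⟨_, (tr_mem h.bc hn).1, ?_⟩
    rcases Bool.eq_false_or_eq_true (ltr C lab s n) with h1 | h1
    · exact Or.inr ((tr_he h.bc hn).2 (Or.inr (Or.inr (Or.inl ⟨h1, rfl, rfl⟩))))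
    · exact Or.inl ((tr_he h.bc hn).2 (Or.inr (Or.inr (Or.inr ⟨h1, rfl, rfl⟩))))
  have hB : ∀ a b, (a, b) ∈ B0f P C lab pet gaps → ∃ t ∈ C, HE t a b ∨ HE t b a := by
    intro a b hab
    obtain ⟨s, hs, p, hp, ⟨_, he⟩ | ⟨_, he⟩⟩ := h.mem_B0.1 hab <;> rw [Prod.mk.injEq] at he
    · obtain ⟨z1, z2, z3⟩ := h.size hp
      rw [he.1, he.2]
      exact hst s (p.1 - 1) (by omega)
    · obtain ⟨z1, z2, z3⟩ := h.size hp
      rw [he.1, he.2]
      obtain ⟨t, ht, k⟩ := hst s p.2 (by omega)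
      exact ⟨t, ht, k.symm⟩
  intro a b hab
  rcases h.mem_M0.1 hab with k | ⟨t, ht, k⟩ | k | k
  · rcases h.mem_Cl0.1 k with k | k | ⟨t, ht, k⟩
    · obtain ⟨t, ht, k⟩ := h.bc.full.hull a b k
      exact ⟨t, ht, Or.inl k⟩
    · obtain ⟨t, ht, k⟩ := h.bc.full.hull b a k
      exact ⟨t, ht, Or.inr k⟩
    · exact ⟨t, hE t ht, k⟩
  · exact ⟨t, hG t ht, k⟩
  · exact hB a b k
  · obtain ⟨t, ht, k⟩ := hB b a k
    exact ⟨t, ht, k.symm⟩

theorem PS.pl (h : PS P C Bs lab pet gaps) : Pl P (M0f P C lab pet gaps) := by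
  have hsub : ∀ a b, (a, b) ∈ M0f P C lab pet gaps → (a, b) ∈ RFT.sidesOf C := fun a b hab =>
    RFT.mem_sidesOf.2 (h.side a b hab)
  have hpl := pl_sidesOf (P := P) h.bc.full.cx h.bc.subP
  refine ⟨fun a b hab => hpl.sub a b (hsub a b hab), fun a b hab => hpl.ne a b (hsub a b hab), ?_,
    fun a b c d hab hcd => hpl.nc a b c d (hsub a b hab) (hsub c d hcd)⟩
  intro a b hab
  rcases h.mem_M0.1 hab with k | ⟨t, ht, k⟩ | k | k
  · refine h.mem_M0.2 (Or.inl ?_)
    rcases h.mem_Cl0.1 k with k | k | ⟨t, ht, k⟩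
    · exact h.mem_Cl0.2 (Or.inr (Or.inl k))
    · exact h.mem_Cl0.2 (Or.inl k)
    · exact h.mem_Cl0.2 (Or.inr (Or.inr ⟨t, ht, k.symm⟩))
  · exact h.mem_M0.2 (Or.inr (Or.inl ⟨t, ht, k.symm⟩))
  · exact h.mem_M0.2 (Or.inr (Or.inr (Or.inr k)))
  · exact h.mem_M0.2 (Or.inr (Or.inr (Or.inl k)))

theorem tri_cell (hF : Full P C) {M : Finset (Pt × Pt)} {t : Finset Pt} (ht : t ∈ C)
    (h3 : t.card = 3) (hM : ∀ a b, HE t a b → (a, b) ∈ M) :
    ∃ x y u, TriL P M x y u ∧ t = {x, y, u} := by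
  have hcp := hF.cx.cp t ht
  have h3' : 3 ≤ t.card := h3.ge
  obtain ⟨x, hx⟩ : t.Nonempty := Finset.card_pos.1 (by omega)
  obtain ⟨y, hxy⟩ := hcp.exists_succ h3' hx
  obtain ⟨u, hu, hux, huy⟩ := HE.exists_third (t := t) x y h3'
  have hpos : 0 < orient x y u := hxy.2.2.2 u hu hux huy
  have heq : t = {x, y, u} := by
    refine (Finset.eq_of_subset_of_card_le ?_ ?_).symm
    · intro z hz
      simp only [Finset.mem_insert, Finset.mem_singleton] at hz
      rcases hz with rfl | rfl | rfl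
      · exact hx
      · exact hxy.2.1
      · exact hu
    · rw [h3, tri_card hpos]
  have hmem : ∀ z ∈ t, z = x ∨ z = y ∨ z = u := by
    intro z hz
    rw [heq] at hz
    simpa only [Finset.mem_insert, Finset.mem_singleton] using hz
  have hyu : HE t y u := by
    obtain ⟨b, hb⟩ := hcp.exists_succ h3' hxy.2.1
    rcases hmem b hb.2.1 with rfl | rfl | rfl
    · exact absurd (hxy.not_both hb h3') not_false
    · exact absurd rfl hb.2.2.1
    · exact hb
  have hux' : HE t u x := by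
    obtain ⟨b, hb⟩ := hcp.exists_succ h3' hu
    rcases hmem b hb.2.1 with rfl | rfl | rfl
    · exact hb
    · exact absurd (hyu.not_both hb h3') not_false
    · exact absurd rfl hb.2.2.1
  refine ⟨x, y, u, ⟨hM _ _ hxy, hM _ _ hyu, hM _ _ hux', hpos, ?_⟩, heq⟩
  intro p hp hin
  rw [← hF.V_eq, mem_V] at hp
  obtain ⟨s, hs, hps⟩ := hp
  have hpt : p ∈ t := by
    by_cases hst : s = t
    · rw [← hst]; exact hps
    · have h5 : p ∈ convexHull ℝ (t : Set Pt) := mem_hull3 x y u p hpos hin.1 hin.2.1 hin.2.2 _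
        hx hxy.2.1 hu
      have h6 : p ∈ convexHull ℝ (s : Set Pt) := subset_convexHull ℝ _ (Finset.mem_coe.2 hps)
      have h7 := hF.cx.inter s hs t ht hst ⟨h6, h5⟩
      obtain ⟨b, hb⟩ := (hF.cx.cp s hs).exists_succ (hF.cx.three s hs) hps
      exact (Finset.mem_inter.1 (hb.mem_left Finset.inter_subset_left h7)).2
  exact hmem p hpt

end Pool.Agent.RFX

end

section

set_option autoImplicit false

/-!
# RFX/NFCount : the number of strips; every vertex of a body lies in a strip or is a hull vertex (MP_72a26e_co)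

PROOF of `card_starts`. Let `T3` be the cells with three different labels, `T2` the other cells which are not bodies (triangles
`{x, z, y}` with `lab x = lab z ≠ lab y`: a triangle of `C` other than a body has not all labels equal, otherwise its
points lie in one body `A` (`BC.same_body`, `BC.body`) and `A ∩ t = t` has 3 points, against `Cx.two`), `hc` the hull pairs `(a, b)` with `lab a ≠ lab b`, `hb`
the others. (1) `|T3| + |hc| + 2 ≤ 2 * nlab`, `nlab = (P.image lab).card`: `Full.euler`: `∑_(A ∈ Bs) (|A| - 2) + |T2| + |T3| + |hullPairs| + 2 = 2 |P|`.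
The directed sides `(a, b)` of the bodies (`∑ |A|` many: every `a ∈ A` has exactly one successor,
`CP.exists_succ`, `HE.succ_unique`) are hull pairs in `hb` or there is `t ∈ C` with `HE t b a`, which is in `T2`
(`t` is no body: two bodies with a common point are equal by labels; labels of `a`, `b` equal), and `t` determines `(a, b)` (the only
pair of different points of `t` with equal labels, and the direction by `HE.not_both`). So `∑ |A| ≤ |T2| + |hb|`. `|P| = ∑ |A| + σ`,
`nlab = |Bs| + σ`, `σ` = number of points in no body. Hence (1) (`|A| ≥ 3`).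
(2) `s ∈ starts`: if there is `t ∈ C` with `HE t s.1 s.2` then `t` is a triangle (no body, as the labels differ) with third vertex `w`,
`orient s.1 s.2 w > 0`; if `lab w` is `lab s.1` or `lab s.2` then `s` has a predecessor (`Nx_iff_left`), so `t ∈ T3`; the
number of such `s` is `≤ 3 |T3|` (a triangle has three directed sides). Otherwise the cell with the side `s.2 → s.1` gives
`HE P s.2 s.1` (`Full.side`): at most `|hc|` many. So `|starts| ≤ 3 |T3| + |hc| ≤ 6 nlab`.

PROOF of `occurs`. `v ∈ P` is in no body, or in a body `A` with sides `HE A u v`, `HE A v w` (`CP.exists_pred/succ`). If both are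
hull sides: third case. Otherwise say `HE A u v` is not a hull side: there is `t ∈ C`, `HE t v u`, a triangle with third
vertex `y`, `lab y ≠ lab v` (`t` is no body and not all labels are equal), `{v, u, y}` counterclockwise, i.e. `orient u y v > 0`. If
`lab v < lab y`: the cross edges `(v, y)` and `(u, y)` are sides of `t`; by `exists_start` `(v, y)` is an `it s n`. If
`lab y < lab v`: the same for `(y, v)`. The same if `HE A v w` is not a hull side.
-/

namespace Pool.Agent.RFX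

variable {P : Finset Pt} {C Bs : Finset (Finset Pt)} {lab : Pt → ℕ}

theorem BC.body_eq (h : BC P C Bs lab) {A B : Finset Pt} (hA : A ∈ Bs) (hB : B ∈ Bs) {v : Pt}
    (hvA : v ∈ A) (hvB : v ∈ B) : A = B := by
  have hsA := h.full.sub (h.sub hA)
  have hsB := h.full.sub (h.sub hB)
  ext x
  constructor
  · intro hx
    exact (h.body B hB v hvB x (hsA hx)).1 ((h.body A hA v hvA x (hsA hx)).2 hx)
  · intro hx
    exact (h.body A hA v hvA x (hsB hx)).1 ((h.body B hB v hvB x (hsB hx)).2 hx)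

/-- the cell behind a side of a body which is no hull side -/
theorem BC.behind (h : BC P C Bs lab) {A : Finset Pt} (hA : A ∈ Bs) {a b : Pt} (hab : HE A a b)
    (hn : ¬ HE P a b) : ∃ t ∈ C, t ∉ Bs ∧ HE t b a ∧
      ∃ y ∈ P, t = {b, a, y} ∧ 0 < orient b a y ∧ lab y ≠ lab a ∧ lab y ≠ lab b ∧
        HE t a y ∧ HE t y b := by
  classical
  have hAC := h.sub hA
  rcases h.full.side A hAC a b hab with h1 | ⟨t, ht, h1⟩
  · exact absurd h1 hn
  have htA : t ≠ A := by
    rintro rfl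
    exact HE.not_both hab h1 (h.full.cx.three _ hAC)
  have htB : t ∉ Bs := fun htB => htA (h.body_eq htB hA h1.1 hab.2.1)
  obtain ⟨y, hy, hyb, hya⟩ := HE.exists_third (t := t) b a (h.full.cx.three t ht)
  have hyP : y ∈ P := h.full.sub ht hy
  have ho := h1.2.2.2 y hy hyb hya
  have hc3 := h.tri t ht htB
  have hteq : t = {b, a, y} := by
    symm
    apply Finset.eq_of_subset_of_card_le
    · intro x hx
      simp only [Finset.mem_insert, Finset.mem_singleton] at hx
      rcases hx with rfl | rfl | rfl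
      · exact h1.1
      · exact h1.2.1
      · exact hy
    · rw [hc3, Finset.card_insert_of_notMem, Finset.card_pair hya.symm]
      simp only [Finset.mem_insert, Finset.mem_singleton]
      rintro (h2 | h2)
      · exact h1.2.2.1 h2
      · exact hyb h2.symm
  have hyA : y ∉ A := by
    intro hyA
    have h2 := h.full.cx.two t ht A hAC htA
    have h3 : t ⊆ t ∩ A := by
      intro x hx
      rw [Finset.mem_inter]
      refine ⟨hx, ?_⟩
      rw [hteq] at hx
      simp only [Finset.mem_insert, Finset.mem_singleton] at hx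
      rcases hx with rfl | rfl | rfl
      · exact hab.2.1
      · exact hab.1
      · exact hyA
    have := Finset.card_le_card h3
    omega
  have hla : lab y ≠ lab a := fun e => hyA ((h.body A hA a hab.1 y hyP).1 e.symm)
  have hlb : lab y ≠ lab b := fun e => hyA ((h.body A hA b hab.2.1 y hyP).1 e.symm)
  refine ⟨t, ht, htB, h1, y, hyP, hteq, ho, hla, hlb, ?_, ?_⟩
  · refine ⟨h1.2.1, hy, hya.symm, ?_⟩
    intro c hc hca hcy
    rw [hteq] at hc
    simp only [Finset.mem_insert, Finset.mem_singleton] at hc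
    rcases hc with rfl | rfl | rfl
    · rw [orient_rot]; exact ho
    · exact absurd rfl hca
    · exact absurd rfl hcy
  · refine ⟨hy, h1.1, hyb, ?_⟩
    intro c hc hcy hcb
    rw [hteq] at hc
    simp only [Finset.mem_insert, Finset.mem_singleton] at hc
    rcases hc with rfl | rfl | rfl
    · exact absurd rfl hcb
    · rw [orient_rot']; exact ho
    · exact absurd rfl hcy

theorem mem_starts {s : Pt × Pt} : s ∈ starts P C lab ↔ (s.1 ∈ P ∧ s.2 ∈ P) ∧ lab s.1 < lab s.2 ∧
    (∃ t ∈ C, HE t s.1 s.2 ∨ HE t s.2 s.1) ∧ ∀ f, ¬ Nx C lab f s := by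
  classical
  unfold starts
  rw [Finset.mem_filter, Finset.mem_product]

theorem card_single (h : BC P C Bs lab) :
    (P.filter fun v => ∀ A ∈ Bs, v ∉ A).card ≤ (P.image lab).card := by
  classical
  apply Finset.card_le_card_of_injOn lab
  · intro v hv
    have hv' := (Finset.mem_filter.1 (Finset.mem_coe.1 hv)).1
    exact Finset.mem_coe.2 (Finset.mem_image_of_mem lab hv')
  · intro v hv w hw hvw
    have hv' := Finset.mem_filter.1 (Finset.mem_coe.1 hv)
    have hw' := Finset.mem_filter.1 (Finset.mem_coe.1 hw)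
    exact h.single v hv'.1 hv'.2 w hw'.1 hvw

theorem occurs (h : BC P C Bs lab) {v : Pt} (hv : v ∈ P) :
    (∀ A ∈ Bs, v ∉ A) ∨
    (∃ s ∈ starts P C lab, ∃ n ≤ len C lab s, (it C lab s n).1 = v ∨ (it C lab s n).2 = v) ∨
    ∃ A ∈ Bs, ∃ a b, HE A a v ∧ HE A v b ∧ HE P a v ∧ HE P v b := by
  classical
  by_cases h0 : ∀ A ∈ Bs, v ∉ A
  · exact Or.inl h0
  right
  push Not at h0
  obtain ⟨A, hA, hvA⟩ := h0
  have hAC := h.sub hA
  obtain ⟨a, ha⟩ := (h.full.cx.cp A hAC).exists_pred (h.full.cx.three A hAC) hvA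
  obtain ⟨b, hb⟩ := (h.full.cx.cp A hAC).exists_succ (h.full.cx.three A hAC) hvA
  -- a cell with a side between `v` and a point of another part
  have key : ∀ y, y ∈ P → lab y ≠ lab v → (∃ t ∈ C, HE t v y ∨ HE t y v) →
      ∃ s ∈ starts P C lab, ∃ n ≤ len C lab s,
        (it C lab s n).1 = v ∨ (it C lab s n).2 = v := by
    intro y _ hy ht
    rcases lt_or_gt_of_ne hy with hlt | hlt
    · obtain ⟨s, hs, n, hn, he⟩ := exists_start h (e := (y, v)) hlt
        (by obtain ⟨t, ht, h1⟩ := ht; exact ⟨t, ht, h1.symm⟩)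
      exact ⟨s, hs, n, hn, Or.inr (by rw [he])⟩
    · obtain ⟨s, hs, n, hn, he⟩ := exists_start h (e := (v, y)) hlt ht
      exact ⟨s, hs, n, hn, Or.inl (by rw [he])⟩
  by_cases h1 : HE P a v
  · by_cases h2 : HE P v b
    · exact Or.inr ⟨A, hA, a, b, ha, hb, h1, h2⟩
    · left
      obtain ⟨t, ht, _, _, y, hy, _, _, g1, _, g3, _⟩ := h.behind hA hb h2
      exact key y hy g1 ⟨t, ht, Or.inl g3⟩
  · left
    obtain ⟨t, ht, _, _, y, hy, _, _, _, g2, _, g4⟩ := h.behind hA ha h1
    exact key y hy g2 ⟨t, ht, Or.inr g4⟩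

/-- the count (1) -/
theorem BC.count (h : BC P C Bs lab) :
    (C.filter fun t => t ∉ Bs ∧ ∀ a ∈ t, ∀ b ∈ t, lab a = lab b → a = b).card +
      ((hullPairs P).filter fun e => lab e.1 ≠ lab e.2).card + 2 ≤ 2 * (P.image lab).card := by
  classical
  set T3 := C.filter fun t => t ∉ Bs ∧ ∀ a ∈ t, ∀ b ∈ t, lab a = lab b → a = b with hT3
  set T2 := C.filter fun t => t ∉ Bs ∧ ¬ ∀ a ∈ t, ∀ b ∈ t, lab a = lab b → a = b with hT2
  set hc := (hullPairs P).filter fun e => lab e.1 ≠ lab e.2 with hhc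
  set hb := (hullPairs P).filter fun e => ¬ lab e.1 ≠ lab e.2 with hhb
  have hhull : hc.card + hb.card = (hullPairs P).card := by
    rw [hhc, hhb]
    exact Finset.card_filter_add_card_filter_not _
  have heuler := h.full.euler h.gen h.card
  -- the sum over the cells
  have hsum : ∑ t ∈ C, (t.card - 2) = ∑ A ∈ Bs, (A.card - 2) + T2.card + T3.card := by
    have e1 : C = Bs ∪ (T2 ∪ T3) := by
      ext t
      simp only [hT2, hT3, Finset.mem_union, Finset.mem_filter]
      constructor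
      · intro ht
        by_cases h1 : t ∈ Bs
        · exact Or.inl h1
        · by_cases h2 : ∀ a ∈ t, ∀ b ∈ t, lab a = lab b → a = b
          · exact Or.inr (Or.inr ⟨ht, h1, h2⟩)
          · exact Or.inr (Or.inl ⟨ht, h1, h2⟩)
      · rintro (h1 | h1 | h1)
        · exact h.sub h1
        · exact h1.1
        · exact h1.1
    have d1 : Disjoint Bs (T2 ∪ T3) := by
      rw [Finset.disjoint_left]
      intro t ht h1
      simp only [hT2, hT3, Finset.mem_union, Finset.mem_filter] at h1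
      rcases h1 with h1 | h1
      · exact h1.2.1 ht
      · exact h1.2.1 ht
    have d2 : Disjoint T2 T3 := by
      rw [Finset.disjoint_left]
      intro t ht h1
      simp only [hT2, hT3, Finset.mem_filter] at ht h1
      exact ht.2.2 h1.2.2
    have e2 : ∑ t ∈ C, (t.card - 2) = ∑ t ∈ Bs ∪ (T2 ∪ T3), (t.card - 2) := by rw [← e1]
    rw [e2, Finset.sum_union d1, Finset.sum_union d2]
    have e3 : ∑ t ∈ T2, (t.card - 2) = T2.card := by
      rw [Finset.card_eq_sum_ones]
      apply Finset.sum_congr rfl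
      intro t ht
      have h1 := Finset.mem_filter.1 ht
      rw [h.tri t h1.1 h1.2.1]
    have e4 : ∑ t ∈ T3, (t.card - 2) = T3.card := by
      rw [Finset.card_eq_sum_ones]
      apply Finset.sum_congr rfl
      intro t ht
      have h1 := Finset.mem_filter.1 ht
      rw [h.tri t h1.1 h1.2.1]
    rw [e3, e4, add_assoc]
  -- points of the bodies
  set Pb := Bs.biUnion id with hPb
  have hPbmem : ∀ v, v ∈ Pb ↔ ∃ A ∈ Bs, v ∈ A := by
    intro v; simp [hPb]
  have hPbcard : Pb.card = ∑ A ∈ Bs, A.card := by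
    rw [hPb, Finset.card_biUnion]
    · rfl
    · intro A hA B hB hAB
      change Disjoint A B
      rw [Finset.disjoint_left]
      intro x hx1 hx2
      exact hAB (h.body_eq hA hB hx1 hx2)
  have hsum2 : ∑ A ∈ Bs, (A.card - 2) + 2 * Bs.card = Pb.card := by
    rw [hPbcard, mul_comm, ← smul_eq_mul, ← Finset.sum_const, ← Finset.sum_add_distrib]
    apply Finset.sum_congr rfl
    intro A hA
    have := h.full.cx.three A (h.sub hA)
    omega
  set Sg := P.filter fun v => ∀ A ∈ Bs, v ∉ A with hSg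
  have hPcard : P.card = Pb.card + Sg.card := by
    have e1 : P = Pb ∪ Sg := by
      ext v
      rw [Finset.mem_union, hPbmem, hSg, Finset.mem_filter]
      constructor
      · intro hv
        by_cases h1 : ∀ A ∈ Bs, v ∉ A
        · exact Or.inr ⟨hv, h1⟩
        · left
          push Not at h1
          exact h1
      · rintro (⟨A, hA, h1⟩ | h1)
        · exact h.full.sub (h.sub hA) h1
        · exact h1.1
    have d1 : Disjoint Pb Sg := by
      rw [Finset.disjoint_left]
      intro v hv h1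
      rw [hPbmem] at hv
      obtain ⟨A, hA, h2⟩ := hv
      exact (Finset.mem_filter.1 h1).2 A hA h2
    calc P.card = (Pb ∪ Sg).card := by rw [← e1]
      _ = _ := Finset.card_union_of_disjoint d1
  -- labels
  have hlab : Bs.card + Sg.card ≤ (P.image lab).card := by
    have g1 : Bs.card ≤ (Pb.image lab).card := by
      have hne : ∀ A ∈ Bs, A.Nonempty := by
        intro A hA
        rw [← Finset.card_pos]
        have := h.full.cx.three A (h.sub hA)
        omega
      apply Finset.card_le_card_of_injOn (fun A => if hA : A.Nonempty then lab hA.choose else 0)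
      · intro A hA
        have hA' := hne A (Finset.mem_coe.1 hA)
        simp only [dif_pos hA']
        rw [Finset.mem_coe]
        apply Finset.mem_image_of_mem
        rw [hPbmem]
        exact ⟨A, Finset.mem_coe.1 hA, hA'.choose_spec⟩
      · intro A hA B hB hAB
        have hA1 := Finset.mem_coe.1 hA
        have hB1 := Finset.mem_coe.1 hB
        have hA' := hne A hA1
        have hB' := hne B hB1
        simp only [dif_pos hA', dif_pos hB'] at hAB
        have hBP : hB'.choose ∈ P := h.full.sub (h.sub hB1) hB'.choose_spec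
        have h1 := (h.body A hA1 _ hA'.choose_spec _ hBP).1 hAB
        exact h.body_eq hA1 hB1 h1 hB'.choose_spec
    have g2 : Sg.card = (Sg.image lab).card := by
      symm
      apply Finset.card_image_of_injOn
      intro v hv w hw hvw
      have hv' := Finset.mem_filter.1 (Finset.mem_coe.1 hv)
      have hw' := Finset.mem_filter.1 (Finset.mem_coe.1 hw)
      exact h.single v hv'.1 hv'.2 w hw'.1 hvw
    have g3 : Disjoint (Pb.image lab) (Sg.image lab) := by
      rw [Finset.disjoint_left]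
      intro l h1 h2
      rw [Finset.mem_image] at h1 h2
      obtain ⟨v, hv, rfl⟩ := h1
      obtain ⟨w, hw, hwv⟩ := h2
      rw [hPbmem] at hv
      obtain ⟨A, hA, hvA⟩ := hv
      have hw' := Finset.mem_filter.1 hw
      have := h.single w hw'.1 hw'.2 v (h.full.sub (h.sub hA) hvA) hwv
      subst this
      exact hw'.2 A hA hvA
    calc Bs.card + Sg.card ≤ (Pb.image lab).card + (Sg.image lab).card := by omega
      _ = (Pb.image lab ∪ Sg.image lab).card := (Finset.card_union_of_disjoint g3).symm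
      _ ≤ (P.image lab).card := by
        apply Finset.card_le_card
        apply Finset.union_subset
        · apply Finset.image_subset_image
          intro v hv
          rw [hPbmem] at hv
          obtain ⟨A, hA, h1⟩ := hv
          exact h.full.sub (h.sub hA) h1
        · exact Finset.image_subset_image (Finset.filter_subset _ _)
  -- sides of the bodies
  have hside : Pb.card ≤ hb.card + T2.card := by
    have hsucc : ∀ v : Pt, ∃ w : Pt, v ∈ Pb → ∃ A ∈ Bs, HE A v w := by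
      intro v
      by_cases hv : v ∈ Pb
      · obtain ⟨A, hA, hvA⟩ := (hPbmem v).1 hv
        obtain ⟨w, hw⟩ := (h.full.cx.cp A (h.sub hA)).exists_succ
          (h.full.cx.three A (h.sub hA)) hvA
        exact ⟨w, fun _ => ⟨A, hA, hw⟩⟩
      · exact ⟨v, fun hv' => absurd hv' hv⟩
    choose sc hsc using hsucc
    have hsclab : ∀ v ∈ Pb, lab v = lab (sc v) := by
      intro v hv
      obtain ⟨A, hA, h1⟩ := hsc v hv
      exact (h.body A hA v h1.1 (sc v) (h.full.sub (h.sub hA) h1.2.1)).2 h1.2.1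
    have g0 : Pb.card = (Pb.filter fun v => HE P v (sc v)).card +
        (Pb.filter fun v => ¬ HE P v (sc v)).card :=
      (Finset.card_filter_add_card_filter_not _).symm
    have g1 : (Pb.filter fun v => HE P v (sc v)).card ≤ hb.card := by
      apply Finset.card_le_card_of_injOn (fun v => (v, sc v))
      · intro v hv
        have hv' := Finset.mem_filter.1 (Finset.mem_coe.1 hv)
        rw [Finset.mem_coe, hhb, Finset.mem_filter, mem_hullPairs]
        refine ⟨hv'.2, ?_⟩
        simp only [ne_eq, not_not]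
        exact hsclab v hv'.1
      · intro v _ w _ hvw
        exact (Prod.mk.inj hvw).1
    have hbeh : ∀ v : Pt, ∃ t : Finset Pt, v ∈ Pb → ¬ HE P v (sc v) → t ∈ C ∧ t ∉ Bs ∧
        HE t (sc v) v ∧ ∃ y ∈ P, t = {sc v, v, y} ∧ lab y ≠ lab v ∧ lab y ≠ lab (sc v) := by
      intro v
      by_cases hv : v ∈ Pb ∧ ¬ HE P v (sc v)
      · obtain ⟨A, hA, h1⟩ := hsc v hv.1
        obtain ⟨t, ht, ht2, h2, y, hy, hteq, _, g1, g2, _, _⟩ := h.behind hA h1 hv.2
        exact ⟨t, fun _ _ => ⟨ht, ht2, h2, y, hy, hteq, g1, g2⟩⟩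
      · exact ⟨∅, fun h1 h2 => absurd ⟨h1, h2⟩ hv⟩
    choose tr htr using hbeh
    have g2 : (Pb.filter fun v => ¬ HE P v (sc v)).card ≤ T2.card := by
      apply Finset.card_le_card_of_injOn tr
      · intro v hv
        have hv' := Finset.mem_filter.1 (Finset.mem_coe.1 hv)
        obtain ⟨ht, ht2, h2, _⟩ := htr v hv'.1 hv'.2
        rw [Finset.mem_coe, hT2, Finset.mem_filter]
        refine ⟨ht, ht2, fun hcon => ?_⟩
        exact h2.2.2.1 (hcon _ h2.1 _ h2.2.1 (hsclab v hv'.1).symm)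
      · intro v hv v' hv2 hvv
        have hv' := Finset.mem_filter.1 (Finset.mem_coe.1 hv)
        have hv2' := Finset.mem_filter.1 (Finset.mem_coe.1 hv2)
        obtain ⟨ht, _, h2, y, _, hteq, g1, g2⟩ := htr v hv'.1 hv'.2
        obtain ⟨_, _, h3, y', _, hteq', g1', g2'⟩ := htr v' hv2'.1 hv2'.2
        rw [← hvv] at h3 hteq'
        have hl := hsclab v hv'.1
        have hl' := hsclab v' hv2'.1
        have m1 : v' ∈ tr v := h3.2.1
        have m2 : sc v' ∈ tr v := h3.1
        rw [hteq] at m1 m2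
        simp only [Finset.mem_insert, Finset.mem_singleton] at m1 m2
        rcases m1 with m1 | m1 | m1
        · -- `v' = sc v`
          rcases m2 with m2 | m2 | m2
          · exact absurd (m2.trans m1.symm) h3.2.2.1
          · exfalso
            rw [m2, m1] at h3
            exact HE.not_both h2 h3 (h.full.cx.three _ ht)
          · exfalso
            apply g2
            rw [← m2, ← hl', m1]
        · exact m1.symm
        · rcases m2 with m2 | m2 | m2
          · exfalso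
            apply g2
            rw [← m1, hl', m2]
          · exfalso
            apply g1
            rw [← m1, hl', m2]
          · exact absurd (m2.trans m1.symm) h3.2.2.1
    omega
  omega

theorem card_starts (h : BC P C Bs lab) :
    (starts P C lab).card ≤ 6 * (P.image lab).card := by
  classical
  have hcount := h.count
  set T3 := C.filter fun t => t ∉ Bs ∧ ∀ a ∈ t, ∀ b ∈ t, lab a = lab b → a = b with hT3
  set hc := (hullPairs P).filter fun e => lab e.1 ≠ lab e.2 with hhc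
  have hsub : starts P C lab ⊆
      T3.biUnion (fun t => (P ×ˢ P).filter fun e => HE t e.1 e.2) ∪
        hc.image (fun e => (e.2, e.1)) := by
    intro s hs
    rw [mem_starts] at hs
    obtain ⟨⟨hs1, hs2⟩, hlt, ht, hno⟩ := hs
    have key : (∃ t ∈ C, HE t s.1 s.2) →
        s ∈ T3.biUnion (fun t => (P ×ˢ P).filter fun e => HE t e.1 e.2) := by
      rintro ⟨t, ht, h1⟩
      have htB : t ∉ Bs := by
        intro htB
        have := (h.body t htB s.1 h1.1 s.2 hs2).2 h1.2.1
        omega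
      have hc3 := h.tri t ht htB
      obtain ⟨w, hw, hw1, hw2⟩ := HE.exists_third (t := t) s.1 s.2 (h.full.cx.three t ht)
      have ho := h1.2.2.2 w hw hw1 hw2
      have hteq : t = {s.1, s.2, w} := by
        symm
        apply Finset.eq_of_subset_of_card_le
        · intro x hx
          simp only [Finset.mem_insert, Finset.mem_singleton] at hx
          rcases hx with rfl | rfl | rfl
          · exact h1.1
          · exact h1.2.1
          · exact hw
        · rw [hc3, Finset.card_insert_of_notMem, Finset.card_pair hw2.symm]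
          simp only [Finset.mem_insert, Finset.mem_singleton]
          rintro (h2 | h2)
          · exact h1.2.2.1 h2
          · exact hw1 h2.symm
      have hl1 : lab w ≠ lab s.1 := by
        intro e
        apply hno (w, s.2)
        rw [Nx_iff_left]
        exact ⟨w, by rw [← hteq]; exact ht, ho, hlt.ne, Or.inl ⟨e, rfl⟩⟩
      have hl2 : lab w ≠ lab s.2 := by
        intro e
        apply hno (s.1, w)
        rw [Nx_iff_left]
        exact ⟨w, by rw [← hteq]; exact ht, ho, hlt.ne, Or.inr ⟨e, rfl⟩⟩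
      rw [Finset.mem_biUnion]
      refine ⟨t, ?_, ?_⟩
      · rw [hT3, Finset.mem_filter]
        refine ⟨ht, htB, ?_⟩
        intro a ha b hb hab
        rw [hteq] at ha hb
        simp only [Finset.mem_insert, Finset.mem_singleton] at ha hb
        have hlt' := hlt.ne
        rcases ha with rfl | rfl | rfl <;> rcases hb with rfl | rfl | rfl
        · rfl
        · exact absurd hab hlt'
        · exact absurd hab.symm hl1
        · exact absurd hab.symm hlt'
        · rfl
        · exact absurd hab.symm hl2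
        · exact absurd hab hl1
        · exact absurd hab hl2
        · rfl
      · rw [Finset.mem_filter, Finset.mem_product]
        exact ⟨⟨hs1, hs2⟩, h1⟩
    rw [Finset.mem_union]
    obtain ⟨t, ht, h1 | h1⟩ := ht
    · exact Or.inl (key ⟨t, ht, h1⟩)
    · rcases h.full.side t ht _ _ h1 with h2 | ⟨t', ht', h2⟩
      · right
        rw [Finset.mem_image]
        refine ⟨(s.2, s.1), ?_, rfl⟩
        rw [hhc, Finset.mem_filter, mem_hullPairs]
        exact ⟨h2, hlt.ne'⟩
      · exact Or.inl (key ⟨t', ht', h2⟩)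
  have h1 : (T3.biUnion (fun t => (P ×ˢ P).filter fun e => HE t e.1 e.2)).card ≤ T3.card * 3 := by
    apply Finset.card_biUnion_le_card_mul
    intro t ht
    have ht' := Finset.mem_filter.1 ht
    rw [← h.tri t ht'.1 ht'.2.1]
    exact card_sides_le t (h.full.cx.cp t ht'.1) (h.full.cx.three t ht'.1) _
      (fun e he => (Finset.mem_filter.1 he).2)
  have h2 : (hc.image (fun e => (e.2, e.1))).card ≤ hc.card := Finset.card_image_le
  have h3 := Finset.card_le_card hsub
  have h4 := Finset.card_union_le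
    (T3.biUnion (fun t => (P ×ˢ P).filter fun e => HE t e.1 e.2)) (hc.image (fun e => (e.2, e.1)))
  omega

end Pool.Agent.RFX

end

section

set_option autoImplicit false

/-!
# RFX/FsLk : local linking at a vertex, stability under slits (MP_72a26e_co)

`Dg` = the digon sides (open sides between cells of two different zones). `Lk C Hd Cl Dg v X`: the hard
cells at `v`, the cell `X` (if it is a cell), and the open sides at `v` (digon sides only if `X` is this
digon) are linked to each other (every labelling constant along incidences is constant).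
-/

namespace Pool.Agent.RFX

/-- open side at v -/
def OpS (C : Finset (Finset Pt)) (Cl Dg : Finset (Pt × Pt)) (v : Pt) (X : Finset Pt) (x : Pt) :
    Prop :=
  (v, x) ∉ Cl ∧ (∃ t ∈ C, HE t v x ∨ HE t x v) ∧ ((v, x) ∈ Dg → X = {v, x})

/-- linking at v through the face X -/
def Lk (C Hd : Finset (Finset Pt)) (Cl Dg : Finset (Pt × Pt)) (v : Pt) (X : Finset Pt) : Prop :=
  ∀ (α : Finset Pt → Bool) (β : Pt → Bool),
    (∀ q ∈ C, (q ∈ Hd ∨ q = X) → ∀ x, OpS C Cl Dg v X x → (HE q v x ∨ HE q x v) → α q = β x) →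
    ∃ c, (∀ q ∈ C, (q ∈ Hd ∨ q = X) → v ∈ q → α q = c) ∧ (∀ x, OpS C Cl Dg v X x → β x = c)

/-- a cell with an open side is not black -/
theorem RInv.not_black {P : Finset Pt} {C E : Finset (Finset Pt)} {Cl : Finset (Pt × Pt)}
    (hI : RInv P C E Cl) {q : Finset Pt} {a b : Pt} (h : HE q a b) (hcl : (a, b) ∉ Cl) : q ∉ E :=
  fun hq => hcl (hI.sides q hq a b h)

/-- linking at v gives the local connectivity of the keep rule -/
theorem Lk.connAt {P : Finset Pt} {C E Hd : Finset (Finset Pt)} {Cl Dg : Finset (Pt × Pt)}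
    (hF : Full P C) (hI : RInv P C E Cl)
    (hDg : ∀ a b, (a, b) ∈ Dg → (∃ q ∈ Hd, q ∈ C ∧ HE q a b) ∧ ∃ q ∈ Hd, q ∈ C ∧ HE q b a)
    {v : Pt} {X : Finset Pt} (h : Lk C Hd Cl Dg v X) : ConnAt C E Hd Cl v := by
  classical
  intro q0 hq0 q1 hq1 ha0 ha1
  set R : Finset Pt → Prop := fun q => Relation.ReflTransGen (AdjAt C E Cl v) q0 q with hR
  have hnb : ∀ q x, (HE q v x ∨ HE q x v) → (v, x) ∉ Cl → q ∈ C → q ∈ C \ E := by
    intro q x hqx hcl hq
    rw [Finset.mem_sdiff]
    refine ⟨hq, ?_⟩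
    rcases hqx with h1 | h1
    · exact hI.not_black h1 hcl
    · exact hI.not_black h1 (fun h2 => hcl (hI.symm _ _ h2))
  have hadj : ∀ q ∈ C, ∀ q' ∈ C, ∀ x, (v, x) ∉ Cl → (HE q v x ∨ HE q x v) →
      (HE q' v x ∨ HE q' x v) → R q → R q' := by
    intro q hq q' hq' x hcl h1 h2 hRq
    have g1 := hnb q x h1 hcl hq
    have g2 := hnb q' x h2 hcl hq'
    rcases h1 with h1 | h1 <;> rcases h2 with h2 | h2
    · rw [← hF.cx.side_unique hq hq' h1 h2]; exact hRq
    · exact Relation.ReflTransGen.tail hRq ⟨g1, g2, x, hcl, Or.inl ⟨h1, h2⟩⟩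
    · exact Relation.ReflTransGen.tail hRq ⟨g1, g2, x, hcl, Or.inr ⟨h1, h2⟩⟩
    · rw [← hF.cx.side_unique hq hq' h1 h2]; exact hRq
  obtain ⟨c, hc1, hc2⟩ := h (fun q => decide (R q))
    (fun x => decide (∃ q ∈ C, (HE q v x ∨ HE q x v) ∧ R q))
    (by
      intro q hq _ x hx hqx
      rw [Bool.eq_iff_iff, decide_eq_true_iff, decide_eq_true_iff]
      constructor
      · intro hr; exact ⟨q, hq, hqx, hr⟩
      · rintro ⟨q', hq', h1, h2⟩
        exact hadj q' hq' q hq x hx.1 h1 hqx h2)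
  -- hard cells of digon sides
  have hdig : ∀ q ∈ C, ∀ x, (HE q v x ∨ HE q x v) → (v, x) ∈ Dg → q ∈ Hd := by
    intro q hq x hqx hd
    obtain ⟨⟨s, hs, hsC, h1⟩, ⟨s', hs', hs'C, h2⟩⟩ := hDg v x hd
    rcases hqx with h3 | h3
    · rw [hF.cx.side_unique hq hsC h3 h1]; exact hs
    · rw [hF.cx.side_unique hq hs'C h3 h2]; exact hs'
  have hval : ∀ q ∈ C, Act Hd Cl v q → (c = true ↔ R q) := by
    intro q hq hact
    obtain ⟨hvq, hact⟩ := hact
    have hhard : q ∈ Hd → (c = true ↔ R q) := by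
      intro hqH
      have := hc1 q hq (Or.inl hqH) hvq
      rw [← this, decide_eq_true_iff]
    rcases hact with hact | ⟨x, hcl, hqx⟩
    · exact hhard hact
    · by_cases hd : (v, x) ∈ Dg
      · exact hhard (hdig q hq x hqx hd)
      · have := hc2 x ⟨hcl, ⟨q, hq, hqx⟩, fun h1 => absurd h1 hd⟩
        rw [← this, decide_eq_true_iff]
        constructor
        · rintro ⟨q', hq', h1, h2⟩
          exact hadj q' hq' q hq x hcl h1 hqx h2
        · intro hr; exact ⟨q, hq, hqx, hr⟩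
  have h0 := (hval q0 (Finset.mem_sdiff.1 hq0).1 ha0).2 Relation.ReflTransGen.refl
  exact (hval q1 (Finset.mem_sdiff.1 hq1).1 ha1).1 h0

/-- linking at v depends on the closed pairs at v only -/
theorem Lk.congr {C Hd : Finset (Finset Pt)} {Cl Cl' Dg : Finset (Pt × Pt)} {v : Pt}
    {X : Finset Pt} (h : Lk C Hd Cl Dg v X) (hO : ∀ x, OpS C Cl' Dg v X x ↔ OpS C Cl Dg v X x) :
    Lk C Hd Cl' Dg v X := by
  intro α β hab
  obtain ⟨c, h1, h2⟩ := h α β (fun q hq hqX x hx hqx => hab q hq hqX x ((hO x).2 hx) hqx)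
  exact ⟨c, h1, fun x hx => h2 x ((hO x).1 hx)⟩

/-- closing a side of the soft cell t which is not used for the link at v -/
theorem Lk.close {P : Finset Pt} {C Hd : Finset (Finset Pt)} {Cl Dg : Finset (Pt × Pt)}
    (hF : Full P C) {v : Pt} {X t : Finset Pt} {a b : Pt} (h : Lk C Hd Cl Dg v X) (ht : t ∈ C)
    (hside : HE t a b ∨ HE t b a) (htH : t ∉ Hd) (htX : v = a ∨ v = b → t ≠ X) :
    Lk C Hd (insert (a, b) (insert (b, a) Cl)) Dg v X := by
  classical
  -- wlog v = a
  have main : ∀ a b : Pt, (HE t a b ∨ HE t b a) → v = a → t ≠ X →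
      Lk C Hd (insert (a, b) (insert (b, a) Cl)) Dg v X := by
    intro a b hside hva htX
    subst hva
    have hvb : v ≠ b := by
      rcases hside with h1 | h1
      · exact h1.2.2.1
      · exact h1.2.2.1.symm
    intro α β hab
    by_cases hq : ∃ q ∈ C, (q ∈ Hd ∨ q = X) ∧ (HE q v b ∨ HE q b v)
    · obtain ⟨q, hqC, hqX, hqb⟩ := hq
      have huniq : ∀ q' ∈ C, (q' ∈ Hd ∨ q' = X) → (HE q' v b ∨ HE q' b v) → q' = q := by
        intro q' hq'C hq'X hq'b
        have n1 : q ≠ t := by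
          rintro rfl
          rcases hqX with h1 | h1
          · exact htH h1
          · exact htX h1
        have n2 : q' ≠ t := by
          rintro rfl
          rcases hq'X with h1 | h1
          · exact htH h1
          · exact htX h1
        rcases hside with h1 | h1
        · have g1 : HE q b v := by
            rcases hqb with h2 | h2
            · exact absurd (hF.cx.side_unique hqC ht h2 h1) n1
            · exact h2
          have g2 : HE q' b v := by
            rcases hq'b with h2 | h2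
            · exact absurd (hF.cx.side_unique hq'C ht h2 h1) n2
            · exact h2
          exact hF.cx.side_unique hq'C hqC g2 g1
        · have g1 : HE q v b := by
            rcases hqb with h2 | h2
            · exact h2
            · exact absurd (hF.cx.side_unique hqC ht h2 h1) n1
          have g2 : HE q' v b := by
            rcases hq'b with h2 | h2
            · exact h2
            · exact absurd (hF.cx.side_unique hq'C ht h2 h1) n2
          exact hF.cx.side_unique hq'C hqC g2 g1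
      obtain ⟨c, h1, h2⟩ := h α (fun x => if x = b then α q else β x) (by
        intro q' hq'C hq'X x hx hq'x
        by_cases hxb : x = b
        · subst hxb
          rw [if_pos rfl, huniq q' hq'C hq'X hq'x]
        · rw [if_neg hxb]
          apply hab q' hq'C hq'X x _ hq'x
          refine ⟨?_, hx.2.1, hx.2.2⟩
          simp only [Finset.mem_insert, Prod.mk.injEq, not_or]
          refine ⟨fun h => hxb h.2, fun h => hvb h.1, hx.1⟩)
      refine ⟨c, h1, fun x hx => ?_⟩
      have hx1 := hx.1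
      simp only [Finset.mem_insert, Prod.mk.injEq, not_or] at hx1
      have hxb : x ≠ b := fun h => hx1.1 ⟨trivial, h⟩
      have := h2 x ⟨hx1.2.2, hx.2.1, hx.2.2⟩
      rwa [if_neg hxb] at this
    · obtain ⟨c, h1, h2⟩ := h α β (by
        intro q' hq'C hq'X x hx hq'x
        have hxb : x ≠ b := by
          rintro rfl
          exact hq ⟨q', hq'C, hq'X, hq'x⟩
        apply hab q' hq'C hq'X x _ hq'x
        refine ⟨?_, hx.2.1, hx.2.2⟩
        simp only [Finset.mem_insert, Prod.mk.injEq, not_or]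
        refine ⟨fun h => hxb h.2, fun h => hvb h.1, hx.1⟩)
      refine ⟨c, h1, fun x hx => ?_⟩
      have hx1 := hx.1
      simp only [Finset.mem_insert, Prod.mk.injEq, not_or] at hx1
      exact h2 x ⟨hx1.2.2, hx.2.1, hx.2.2⟩
  by_cases hva : v = a
  · exact main a b hside hva (htX (Or.inl hva))
  · by_cases hvb : v = b
    · have h1 := main b a hside.symm hvb (htX (Or.inr hvb))
      have h2 : insert (a, b) (insert (b, a) Cl) = insert (b, a) (insert (a, b) Cl) :=
        Finset.insert_comm _ _ _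
      rw [h2]; exact h1
    · apply h.congr
      intro x
      unfold OpS
      simp only [Finset.mem_insert, Prod.mk.injEq, not_or]
      constructor
      · rintro ⟨h1, h2, h3⟩
        exact ⟨h1.2.2, h2, h3⟩
      · rintro ⟨h1, h2, h3⟩
        exact ⟨⟨fun h => hva h.1, fun h => hvb h.1, h1⟩, h2, h3⟩

/-- closing a digon side which is not used for the link at v -/
theorem Lk.close_dg {C Hd : Finset (Finset Pt)} {Cl Dg : Finset (Pt × Pt)}
    {v : Pt} {X : Finset Pt} {a b : Pt} (h : Lk C Hd Cl Dg v X) (hab : (a, b) ∈ Dg)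
    (hba : (b, a) ∈ Dg) (hX : v = a ∨ v = b → X ≠ {a, b}) :
    Lk C Hd (insert (a, b) (insert (b, a) Cl)) Dg v X := by
  classical
  apply h.congr
  intro x
  unfold OpS
  simp only [Finset.mem_insert, Prod.mk.injEq, not_or]
  constructor
  · rintro ⟨h1, h2, h3⟩
    exact ⟨h1.2.2, h2, h3⟩
  · rintro ⟨h1, h2, h3⟩
    refine ⟨⟨?_, ?_, h1⟩, h2, h3⟩
    · rintro ⟨rfl, rfl⟩
      exact hX (Or.inl rfl) (h3 hab)
    · rintro ⟨rfl, rfl⟩
      apply hX (Or.inr rfl)
      rw [h3 hba, Finset.pair_comm]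

/-- a proper subset of a cell with at least three points is no cell -/
theorem Cx.not_mem_of_ssub {C : Finset (Finset Pt)} (hC : Cx C) {s t : Finset Pt} (ht : t ∈ C)
    (hst : s ⊆ t) (hne : s ≠ t) (h3 : 3 ≤ s.card) : s ∉ C := by
  classical
  intro hs
  have h1 := hC.two s hs t ht hne
  rw [Finset.inter_eq_left.2 hst] at h1
  omega

theorem Halves.ne1 {t t1 t2 : Finset Pt} {a b : Pt} (h : Halves t t1 t2 a b) : t1 ≠ t := by
  classical
  rintro rfl
  have h1 := h.inter
  rw [Finset.inter_eq_right.2 h.sub2] at h1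
  have h2 := h.three2
  rw [h1] at h2
  have := Finset.card_le_two (a := a) (b := b)
  omega

theorem Halves.ne2 {t t1 t2 : Finset Pt} {a b : Pt} (h : Halves t t1 t2 a b) : t2 ≠ t := by
  classical
  rintro rfl
  have h1 := h.inter
  rw [Finset.inter_eq_left.2 h.sub1] at h1
  have h2 := h.three1
  rw [h1] at h2
  have := Finset.card_le_two (a := a) (b := b)
  omega

theorem Halves.mem_left {t t1 t2 : Finset Pt} {a b : Pt} (h : Halves t t1 t2 a b) :
    a ∈ t ∧ b ∈ t := ⟨h.sub1 h.he1.1, h.sub1 h.he1.2.1⟩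

/-- the diagonal of a cell is no side of a cell -/
theorem Halves.not_side {C : Finset (Finset Pt)} (hC : Cx C) {t t1 t2 : Finset Pt} {a b : Pt}
    (ht : t ∈ C) (h : Halves t t1 t2 a b) :
    ∀ s ∈ C, ¬ HE s a b ∧ ¬ HE s b a := by
  classical
  have key : ∀ a b : Pt, a ∈ t → b ∈ t → (∃ d ∈ t, 0 < orient a b d) → (∃ d ∈ t, orient a b d < 0) →
      ∀ s ∈ C, ¬ HE s a b := by
    intro a b ha hb hd he s hs hsab
    by_cases hst : s = t
    · subst hst
      obtain ⟨e, he1, he2⟩ := he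
      have := hsab.nonneg e he1
      linarith
    · obtain ⟨d, hd, hdo⟩ := hd
      obtain ⟨c, hc, hca, hcb⟩ := HE.exists_third (t := s) a b (hC.three s hs)
      obtain ⟨p, hp1, hp2, hp3⟩ := overlap a b c d (hsab.2.2.2 c hc hca hcb) hdo
        (s : Set Pt) (t : Set Pt) hsab.1 hsab.2.1 hc ha hb hd
      have hp4 := hC.inter s hs t ht hst ⟨hp1, hp2⟩
      have hsub : (s ∩ t : Finset Pt) ⊆ {a, b} := by
        have hab : ({a, b} : Finset Pt) ⊆ s ∩ t := by
          intro x hx
          simp only [Finset.mem_insert, Finset.mem_singleton] at hx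
          rcases hx with rfl | rfl
          · exact Finset.mem_inter.2 ⟨hsab.1, ha⟩
          · exact Finset.mem_inter.2 ⟨hsab.2.1, hb⟩
        have h5 : ({a, b} : Finset Pt).card = 2 := Finset.card_pair hsab.2.2.1
        have h6 : ({a, b} : Finset Pt) = s ∩ t := by
          apply Finset.eq_of_subset_of_card_le hab
          rw [h5]; exact hC.two s hs t ht hst
        rw [← h6]
      have hp5 : orient a b p ≤ 0 := by
        apply orient_nonpos_of_mem_hull a b p _ _ hp4
        intro q hq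
        have hq2 := hsub (Finset.mem_coe.1 hq)
        simp only [Finset.mem_insert, Finset.mem_singleton] at hq2
        rcases hq2 with rfl | rfl
        · rw [orient_self2]
        · rw [orient_self3]
      linarith
  obtain ⟨c1, hc1, hc1a, hc1b⟩ := HE.exists_third (t := t1) a b h.three1
  obtain ⟨c2, hc2, hc2b, hc2a⟩ := HE.exists_third (t := t2) b a h.three2
  have p1 := h.he1.2.2.2 c1 hc1 hc1a hc1b
  have p2 := h.he2.2.2.2 c2 hc2 hc2b hc2a
  have hc1t := h.sub1 hc1
  have hc2t := h.sub2 hc2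
  intro s hs
  constructor
  · exact key a b h.mem_left.1 h.mem_left.2 ⟨c1, hc1t, p1⟩
      ⟨c2, hc2t, by rw [orient_swap]; linarith⟩ s hs
  · exact key b a h.mem_left.2 h.mem_left.1 ⟨c2, hc2t, p2⟩
      ⟨c1, hc1t, by rw [orient_swap]; linarith⟩ s hs

/-- the sides of the new complex -/
theorem Halves.side_iff {C : Finset (Finset Pt)} {t t1 t2 : Finset Pt} {a b : Pt}
    (ht : t ∈ C) (h : Halves t t1 t2 a b) (u v : Pt) :
    (∃ s ∈ insert t1 (insert t2 (C.erase t)), HE s u v) ↔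
      (∃ s ∈ C, HE s u v) ∨ (u, v) = (a, b) ∨ (u, v) = (b, a) := by
  classical
  constructor
  · rintro ⟨s, hs, h1⟩
    rw [Finset.mem_insert, Finset.mem_insert, Finset.mem_erase] at hs
    rcases hs with rfl | rfl | hs
    · by_cases h2 : (u, v) = (a, b)
      · exact Or.inr (Or.inl h2)
      · exact Or.inl ⟨t, ht, h.side1 u v h1 h2⟩
    · by_cases h2 : (u, v) = (b, a)
      · exact Or.inr (Or.inr h2)
      · exact Or.inl ⟨t, ht, h.side2 u v h1 h2⟩
    · exact Or.inl ⟨s, hs.2, h1⟩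
  · rintro (⟨s, hs, h1⟩ | h1 | h1)
    · by_cases hst : s = t
      · subst hst
        rcases h.split u v h1 with h2 | h2
        · exact ⟨t1, by simp, h2⟩
        · exact ⟨t2, by simp, h2⟩
      · exact ⟨s, by simp [hst, hs], h1⟩
    · rw [Prod.mk.injEq] at h1
      obtain ⟨rfl, rfl⟩ := h1
      exact ⟨t1, by simp, h.he1⟩
    · rw [Prod.mk.injEq] at h1
      obtain ⟨rfl, rfl⟩ := h1
      exact ⟨t2, by simp, h.he2⟩

/-- open sides are the same after a diagonal slit -/
theorem OpS.split_iff {C : Finset (Finset Pt)} (hC : Cx C) {Cl Dg : Finset (Pt × Pt)}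
    {t t1 t2 : Finset Pt} {a b : Pt} (ht : t ∈ C) (h : Halves t t1 t2 a b) (v : Pt)
    (X : Finset Pt) (x : Pt) :
    OpS (insert t1 (insert t2 (C.erase t))) (insert (a, b) (insert (b, a) Cl)) Dg v X x ↔
      OpS C Cl Dg v X x := by
  classical
  have hns := h.not_side hC ht
  unfold OpS
  have e1 : (∃ s ∈ insert t1 (insert t2 (C.erase t)), HE s v x ∨ HE s x v) ↔
      ((∃ s ∈ insert t1 (insert t2 (C.erase t)), HE s v x) ∨
        (∃ s ∈ insert t1 (insert t2 (C.erase t)), HE s x v)) := by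
    constructor
    · rintro ⟨s, hs, h1 | h1⟩
      · exact Or.inl ⟨s, hs, h1⟩
      · exact Or.inr ⟨s, hs, h1⟩
    · rintro (⟨s, hs, h1⟩ | ⟨s, hs, h1⟩)
      · exact ⟨s, hs, Or.inl h1⟩
      · exact ⟨s, hs, Or.inr h1⟩
  rw [e1, h.side_iff ht, h.side_iff ht]
  simp only [Finset.mem_insert, Prod.mk.injEq, not_or]
  constructor
  · rintro ⟨⟨n1, n2, n3⟩, h1, h2⟩
    refine ⟨n3, ?_, h2⟩
    rcases h1 with (⟨s, hs, h1⟩ | h1 | h1) | (⟨s, hs, h1⟩ | h1 | h1)
    · exact ⟨s, hs, Or.inl h1⟩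
    · exact absurd h1 n1
    · exact absurd h1 n2
    · exact ⟨s, hs, Or.inr h1⟩
    · exact absurd ⟨h1.2, h1.1⟩ n2
    · exact absurd ⟨h1.2, h1.1⟩ n1
  · rintro ⟨n3, ⟨s, hs, h1⟩, h2⟩
    refine ⟨⟨?_, ?_, n3⟩, ?_, h2⟩
    · rintro ⟨rfl, rfl⟩
      rcases h1 with h1 | h1
      · exact (hns s hs).1 h1
      · exact (hns s hs).2 h1
    · rintro ⟨rfl, rfl⟩
      rcases h1 with h1 | h1
      · exact (hns s hs).2 h1
      · exact (hns s hs).1 h1
    · rcases h1 with h1 | h1
      · exact Or.inl (Or.inl ⟨s, hs, h1⟩)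
      · exact Or.inr (Or.inl ⟨s, hs, h1⟩)

/-- a diagonal slit in a cell not used for the link at v -/
theorem Lk.split_ne {C Hd : Finset (Finset Pt)} (hC : Cx C) {Cl Dg : Finset (Pt × Pt)}
    {t t1 t2 : Finset Pt} {a b : Pt} (ht : t ∈ C) (h : Halves t t1 t2 a b) (hHd : Hd ⊆ C)
    (htH : t ∉ Hd) {v : Pt} {X : Finset Pt} (hX : X ∈ C ∨ X.card ≤ 2) (htX : t ≠ X)
    (hL : Lk C Hd Cl Dg v X) :
    Lk (insert t1 (insert t2 (C.erase t))) Hd (insert (a, b) (insert (b, a) Cl)) Dg v X := by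
  classical
  have hn1 : t1 ∉ C := hC.not_mem_of_ssub ht h.sub1 h.ne1 h.three1
  have hn2 : t2 ∉ C := hC.not_mem_of_ssub ht h.sub2 h.ne2 h.three2
  have m1 : ∀ q, q ∈ insert t1 (insert t2 (C.erase t)) → (q ∈ Hd ∨ q = X) → q ∈ C := by
    intro q hq hqX
    rcases hqX with h1 | h1
    · exact hHd h1
    · rcases hX with h2 | h2
      · rw [h1]; exact h2
      · rw [Finset.mem_insert, Finset.mem_insert, Finset.mem_erase] at hq
        rcases hq with h3 | h3 | h3
        · have := h.three1; rw [← h3, h1] at this; omega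
        · have := h.three2; rw [← h3, h1] at this; omega
        · exact h3.2
  have m2 : ∀ q ∈ C, (q ∈ Hd ∨ q = X) → q ∈ insert t1 (insert t2 (C.erase t)) := by
    intro q hq hqX
    rw [Finset.mem_insert, Finset.mem_insert, Finset.mem_erase]
    right; right
    refine ⟨?_, hq⟩
    rintro rfl
    rcases hqX with h1 | h1
    · exact htH h1
    · exact htX h1
  intro α β hab
  obtain ⟨c, h1, h2⟩ := hL α β (fun q hq hqX x hx hqx =>
    hab q (m2 q hq hqX) hqX x ((OpS.split_iff hC ht h v X x).2 hx) hqx)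
  exact ⟨c, fun q hq hqX hv => h1 q (m1 q hq hqX) hqX hv,
    fun x hx => h2 x ((OpS.split_iff hC ht h v X x).1 hx)⟩

/-- a diagonal slit, not ending at v, in the cell used for the link at v -/
theorem Lk.split_eq {C Hd : Finset (Finset Pt)} (hC : Cx C) {Cl Dg : Finset (Pt × Pt)}
    {t t1 t2 : Finset Pt} {a b : Pt} (ht : t ∈ C) (h : Halves t t1 t2 a b) (hHd : Hd ⊆ C)
    (htH : t ∉ Hd) {v : Pt} (hva : v ≠ a) (hvb : v ≠ b) (X' : Finset Pt)
    (hX' : (X' = t1 ∧ v ∈ t1) ∨ (X' = t2 ∧ v ∈ t2))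
    (hL : Lk C Hd Cl Dg v t) :
    Lk (insert t1 (insert t2 (C.erase t))) Hd (insert (a, b) (insert (b, a) Cl)) Dg v X' := by
  classical
  have hn1 : t1 ∉ C := hC.not_mem_of_ssub ht h.sub1 h.ne1 h.three1
  have hn2 : t2 ∉ C := hC.not_mem_of_ssub ht h.sub2 h.ne2 h.three2
  have hnC : X' ∉ C := by
    rcases hX' with h1 | h1
    · rw [h1.1]; exact hn1
    · rw [h1.1]; exact hn2
  have h3t : 3 ≤ t.card := hC.three t ht
  have hX'3 : 3 ≤ X'.card := by
    rcases hX' with h1 | h1
    · rw [h1.1]; exact h.three1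
    · rw [h1.1]; exact h.three2
  have hX'm : X' ∈ insert t1 (insert t2 (C.erase t)) := by
    rcases hX' with h1 | h1
    · rw [h1.1]; simp
    · rw [h1.1]; simp
  have hvX' : v ∈ X' := by
    rcases hX' with h1 | h1
    · rw [h1.1]; exact h1.2
    · rw [h1.1]; exact h1.2
  -- the open sides
  have hO : ∀ x, OpS (insert t1 (insert t2 (C.erase t))) (insert (a, b) (insert (b, a) Cl)) Dg v
      X' x ↔ OpS C Cl Dg v t x := by
    intro x
    rw [OpS.split_iff hC ht h v X' x]
    unfold OpS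
    constructor
    · rintro ⟨g1, g2, g3⟩
      refine ⟨g1, g2, fun hd => ?_⟩
      have := g3 hd
      rw [this] at hX'3
      have := Finset.card_le_two (a := v) (b := x)
      omega
    · rintro ⟨g1, g2, g3⟩
      refine ⟨g1, g2, fun hd => ?_⟩
      have := g3 hd
      rw [this] at h3t
      have := Finset.card_le_two (a := v) (b := x)
      omega
  have hsd : ∀ x, (HE t v x ∨ HE t x v) → (HE X' v x ∨ HE X' x v) := by
    intro x hx
    have hint : ∀ z, z ∈ t1 → z ∈ t2 → z = a ∨ z = b := by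
      intro z h1 h2
      have : z ∈ t1 ∩ t2 := Finset.mem_inter.2 ⟨h1, h2⟩
      rw [h.inter] at this
      simpa using this
    rcases hX' with ⟨h1, h2⟩ | ⟨h1, h2⟩
    · subst h1
      rcases hx with hx | hx
      · rcases h.split v x hx with g | g
        · exact Or.inl g
        · rcases hint v h2 g.1 with e | e
          · exact absurd e hva
          · exact absurd e hvb
      · rcases h.split x v hx with g | g
        · exact Or.inr g
        · rcases hint v h2 g.2.1 with e | e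
          · exact absurd e hva
          · exact absurd e hvb
    · subst h1
      rcases hx with hx | hx
      · rcases h.split v x hx with g | g
        · rcases hint v g.1 h2 with e | e
          · exact absurd e hva
          · exact absurd e hvb
        · exact Or.inl g
      · rcases h.split x v hx with g | g
        · rcases hint v g.2.1 h2 with e | e
          · exact absurd e hva
          · exact absurd e hvb
        · exact Or.inr g
  intro α β hab
  have hXH : X' ∉ Hd := fun hx => hnC (hHd hx)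
  obtain ⟨c, h1, h2⟩ := hL (fun q => if q = t then α X' else α q) β (by
    intro q hq hqX x hx hqx
    by_cases hqt : q = t
    · subst hqt
      rw [if_pos rfl]
      exact hab X' hX'm (Or.inr rfl) x ((hO x).2 hx) (hsd x hqx)
    · rw [if_neg hqt]
      rcases hqX with h1 | h1
      · exact hab q (by rw [Finset.mem_insert, Finset.mem_insert, Finset.mem_erase]
                        exact Or.inr (Or.inr ⟨hqt, hq⟩)) (Or.inl h1) x ((hO x).2 hx) hqx
      · exact absurd h1 hqt)
  refine ⟨c, ?_, fun x hx => h2 x ((hO x).1 hx)⟩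
  intro q hq hqX hvq
  rcases hqX with g | g
  · have hqt : q ≠ t := by
      rintro rfl; exact htH g
    have := h1 q (hHd g) (Or.inl g) hvq
    rwa [if_neg hqt] at this
  · subst g
    have := h1 t ht (Or.inr rfl) (by
      rcases hX' with h1 | h1
      · exact h.sub1 h1.2
      · exact h.sub2 h1.2)
    rwa [if_pos rfl] at this

end Pool.Agent.RFX

end

section

set_option autoImplicit false

/-!
# RFX/Finish : the final slits (MP_72a26e_co)

Abstract form of section 8: `fr v` = the face through which the two hard corners at `v` are linked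
(no face, i.e. a set with at most two points which is no digon at v, if v has at most one hard corner),
v ACCEPTS the face f iff `v ∈ f` and `fr v ≠ f`. If the accepting points of the faces connect all
components (`hcut`), every face has an accepting point outside `W` (`hface`), and every free point
`w ∈ W` accepts some face, then finitely many slits inside the faces join everything and keep the local
linking.
-/

namespace Pool.Agent.RFX

/-- real faces and digons -/
def Fac (F : Finset (Finset Pt)) (Dg : Finset (Pt × Pt)) (f : Finset Pt) : Prop :=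
  f ∈ F ∨ ∃ a b, (a, b) ∈ Dg ∧ f = {a, b}

/-- static data of the finish -/
structure FSt (P : Finset Pt) (C0 E Hd F : Finset (Finset Pt)) (Cl0 Dg : Finset (Pt × Pt))
    (fr : Pt → Finset Pt) : Prop where
  full : Full P C0
  reach : Reach P C0 E Cl0
  hd : Hd ⊆ C0
  fc : F ⊆ C0
  fE : ∀ f ∈ F, f ∉ E
  fH : ∀ f ∈ F, f ∉ Hd
  cov : ∀ q ∈ C0, q ∈ E ∨ q ∈ Hd ∨ q ∈ F
  dg : ∀ a b, (a, b) ∈ Dg → (b, a) ∈ Dg ∧ (∃ q ∈ Hd, HE q a b)
  fr2 : ∀ v ∈ P, fr v ∉ F → (fr v).card ≤ 2
  frv : ∀ v ∈ P, fr v ∈ F → v ∈ fr v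
  lk : ∀ v ∈ P, Lk C0 Hd Cl0 Dg v (fr v)

/-- the invariant -/
structure FInv (P : Finset Pt) (C0 E Hd F : Finset (Finset Pt)) (Cl0 Dg : Finset (Pt × Pt))
    (fr : Pt → Finset Pt) (a0 : Finset Pt → Pt) (C : Finset (Finset Pt))
    (Cl : Finset (Pt × Pt)) : Prop where
  full : Full P C
  reach : Reach P C E Cl
  mono : Cl0 ⊆ Cl
  hd : Hd ⊆ C
  cells : ∀ q ∈ C, q ∉ E → q ∉ Hd → ∃ f ∈ F, q ⊆ f ∧ a0 f ∈ q
  fan : ∀ f ∈ F, ∀ v ∈ f, ∃ q ∈ C, q ⊆ f ∧ a0 f ∈ q ∧ v ∈ q
  lk : ∀ v ∈ P, ∃ X, ((fr v ∈ F ∧ X ∈ C ∧ X ⊆ fr v ∧ v ∈ X) ∨ (fr v ∉ F ∧ X = fr v)) ∧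
    Lk C Hd Cl Dg v X
  op : openSides C Cl ⊆ openSides C0 Cl0
  cs : ∀ q ∈ C, q ∉ E → q ∉ Hd → q ∈ F ∨ ∃ a b, HE q a b ∧ (a, b) ∈ Cl
  nw : ∀ a b, (a, b) ∈ Cl → (a, b) ∈ Cl0 ∨ ∃ f, Fac F Dg f ∧ a ∈ f ∧ b ∈ f ∧ fr a ≠ f ∧
    fr b ≠ f ∧ (f ∉ C ∨ HE f a b ∨ HE f b a)

section

variable {P : Finset Pt} {C0 E Hd F : Finset (Finset Pt)} {Cl0 Dg : Finset (Pt × Pt)}
  {fr : Pt → Finset Pt} {a0 : Finset Pt → Pt} {C : Finset (Finset Pt)} {Cl : Finset (Pt × Pt)}

theorem Cx.eq_of_sub {C : Finset (Finset Pt)} (hC : Cx C) {s t : Finset Pt} (hs : s ∈ C)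
    (ht : t ∈ C) (hst : s ⊆ t) : s = t := by
  by_contra hne
  exact hC.not_mem_of_ssub ht hst hne (hC.three s hs) hs

theorem FSt.same (h : FSt P C0 E Hd F Cl0 Dg fr) {q f f' : Finset Pt} (hf : f ∈ F) (hf' : f' ∈ F)
    (h1 : q ⊆ f) (h2 : q ⊆ f') (h3 : 3 ≤ q.card) : f = f' := by
  classical
  by_contra hne
  have h4 := h.full.cx.two f (h.fc hf) f' (h.fc hf') hne
  have h5 := Finset.card_le_card (Finset.subset_inter h1 h2)
  omega

theorem FSt.notHd (h : FSt P C0 E Hd F Cl0 Dg fr) {q f : Finset Pt} (hf : f ∈ F)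
    (h1 : q ⊆ f) : q ∉ Hd := by
  intro hq
  have := h.full.cx.eq_of_sub (h.hd hq) (h.fc hf) h1
  rw [this] at hq
  exact h.fH f hf hq

theorem FSt.notE (h : FSt P C0 E Hd F Cl0 Dg fr) {q f : Finset Pt} (hf : f ∈ F)
    (h1 : q ⊆ f) : q ∉ E := by
  intro hq
  have hI := h.reach.inv h.full
  have := h.full.cx.eq_of_sub (hI.sub hq) (h.fc hf) h1
  rw [this] at hq
  exact h.fE f hf hq

theorem FSt.start (h : FSt P C0 E Hd F Cl0 Dg fr) (ha0 : ∀ f ∈ F, a0 f ∈ f) :
    FInv P C0 E Hd F Cl0 Dg fr a0 C0 Cl0 where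
  full := h.full
  reach := h.reach
  mono := Finset.Subset.refl _
  hd := h.hd
  cells := by
    intro q hq hE hH
    rcases h.cov q hq with h1 | h1 | h1
    · exact absurd h1 hE
    · exact absurd h1 hH
    · exact ⟨q, h1, Finset.Subset.refl _, ha0 q h1⟩
  fan := fun f hf v hv => ⟨f, h.fc hf, Finset.Subset.refl _, ha0 f hf, hv⟩
  lk := by
    intro v hv
    refine ⟨fr v, ?_, h.lk v hv⟩
    by_cases h1 : fr v ∈ F
    · exact Or.inl ⟨h1, h.fc h1, Finset.Subset.refl _, h.frv v hv h1⟩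
    · exact Or.inr ⟨h1, rfl⟩
  op := Finset.Subset.refl _
  cs := by
    intro q hq hE hH
    rcases h.cov q hq with h1 | h1 | h1
    · exact absurd h1 hE
    · exact absurd h1 hH
    · exact Or.inl h1
  nw := fun a b hab => Or.inl hab

theorem openSides_insert_sub (C : Finset (Finset Pt)) (Cl : Finset (Pt × Pt)) (a b : Pt) :
    openSides C (insert (a, b) (insert (b, a) Cl)) ⊆ openSides C Cl := by
  rintro ⟨u, v⟩ huv
  rw [mem_openSides] at huv ⊢
  exact ⟨huv.1, fun h => huv.2 (Finset.mem_insert_of_mem (Finset.mem_insert_of_mem h))⟩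

theorem openSides_split_sub {t t1 t2 : Finset Pt} {a b : Pt} (ht : t ∈ C)
    (h : Halves t t1 t2 a b) :
    openSides (insert t1 (insert t2 (C.erase t))) (insert (a, b) (insert (b, a) Cl)) ⊆
      openSides C Cl := by
  rintro ⟨u, v⟩ huv
  rw [mem_openSides] at huv ⊢
  obtain ⟨h1, h2⟩ := huv
  rw [h.side_iff ht] at h1
  simp only [Finset.mem_insert, not_or] at h2
  rcases h1 with h1 | h1 | h1
  · exact ⟨h1, h2.2.2⟩
  · exact absurd h1 h2.1
  · exact absurd h1 h2.2.1

/-- closing a digon -/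
theorem FInv.digon (hst : FSt P C0 E Hd F Cl0 Dg fr) (h : FInv P C0 E Hd F Cl0 Dg fr a0 C Cl)
    {a b : Pt} (hab : (a, b) ∈ Dg) (ha : fr a ≠ {a, b}) (hb : fr b ≠ {a, b})
    (hj : ¬ Joined Cl a b) :
    FInv P C0 E Hd F Cl0 Dg fr a0 C (insert (a, b) (insert (b, a) Cl)) where
  full := h.full
  reach := by
    obtain ⟨q, hq, h1⟩ := (hst.dg a b hab).2
    exact Reach.slit E Cl a b q h.reach (h.hd hq) h1 hj
  mono := h.mono.trans (fun x hx => Finset.mem_insert_of_mem (Finset.mem_insert_of_mem hx))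
  hd := h.hd
  cells := h.cells
  fan := h.fan
  lk := by
    intro v hv
    obtain ⟨X, hX, hL⟩ := h.lk v hv
    refine ⟨X, hX, hL.close_dg hab (hst.dg a b hab).1 ?_⟩
    intro hvab hXab
    have h2 : ({a, b} : Finset Pt).card ≤ 2 := Finset.card_le_two
    rcases hX with h1 | h1
    · have := h.full.cx.three X h1.2.1
      rw [hXab] at this
      omega
    · rw [h1.2] at hXab
      rcases hvab with rfl | rfl
      · exact ha hXab
      · exact hb hXab
  op := (openSides_insert_sub C Cl a b).trans h.op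
  cs := by
    intro q hq hE hH
    rcases h.cs q hq hE hH with h1 | ⟨u, v, h1, h2⟩
    · exact Or.inl h1
    · exact Or.inr ⟨u, v, h1, Finset.mem_insert_of_mem (Finset.mem_insert_of_mem h2)⟩
  nw := by
    intro u v huv
    have hfC : ({a, b} : Finset Pt) ∉ C := by
      intro hc
      have h1 := h.full.cx.three _ hc
      have h2 : ({a, b} : Finset Pt).card ≤ 2 := Finset.card_le_two
      omega
    rw [Finset.mem_insert, Finset.mem_insert] at huv
    rcases huv with huv | huv | huv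
    · rw [Prod.mk.injEq] at huv
      obtain ⟨rfl, rfl⟩ := huv
      exact Or.inr ⟨{u, v}, Or.inr ⟨u, v, hab, rfl⟩, by simp, by simp, ha, hb, Or.inl hfC⟩
    · rw [Prod.mk.injEq] at huv
      obtain ⟨rfl, rfl⟩ := huv
      exact Or.inr ⟨{v, u}, Or.inr ⟨v, u, hab, rfl⟩, by simp, by simp, hb, ha, Or.inl hfC⟩
    · exact h.nw u v huv

/-- closing a side of a piece of the face f -/
theorem FInv.side (hst : FSt P C0 E Hd F Cl0 Dg fr) (h : FInv P C0 E Hd F Cl0 Dg fr a0 C Cl)
    {f q : Finset Pt} {a b : Pt} (hf : f ∈ F) (hq : q ∈ C) (hqf : q ⊆ f) (hab : HE q a b)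
    (ha : fr a ≠ f) (hb : fr b ≠ f) (hj : ¬ Joined Cl a b) :
    FInv P C0 E Hd F Cl0 Dg fr a0 C (insert (a, b) (insert (b, a) Cl)) where
  full := h.full
  reach := Reach.slit E Cl a b q h.reach hq hab hj
  mono := h.mono.trans (fun x hx => Finset.mem_insert_of_mem (Finset.mem_insert_of_mem hx))
  hd := h.hd
  cells := h.cells
  fan := h.fan
  lk := by
    intro v hv
    obtain ⟨X, hX, hL⟩ := h.lk v hv
    refine ⟨X, hX, hL.close h.full hq (Or.inl hab) (hst.notHd hf hqf) ?_⟩
    intro hvab hqX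
    have h3 := h.full.cx.three q hq
    rcases hX with h1 | h1
    · have h2 := hst.same hf h1.1 hqf (by rw [hqX]; exact h1.2.2.1) h3
      rcases hvab with rfl | rfl
      · exact ha h2.symm
      · exact hb h2.symm
    · have := hst.fr2 v hv h1.1
      rw [← h1.2, ← hqX] at this
      omega
  op := (openSides_insert_sub C Cl a b).trans h.op
  cs := by
    intro q hq hE hH
    rcases h.cs q hq hE hH with h1 | ⟨u, v, h1, h2⟩
    · exact Or.inl h1
    · exact Or.inr ⟨u, v, h1, Finset.mem_insert_of_mem (Finset.mem_insert_of_mem h2)⟩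
  nw := by
    intro u v huv
    have hfC : f ∉ C ∨ f = q := by
      by_cases h1 : f ∈ C
      · exact Or.inr (h.full.cx.eq_of_sub hq h1 hqf).symm
      · exact Or.inl h1
    rw [Finset.mem_insert, Finset.mem_insert] at huv
    rcases huv with huv | huv | huv
    · rw [Prod.mk.injEq] at huv
      obtain ⟨rfl, rfl⟩ := huv
      refine Or.inr ⟨f, Or.inl hf, hqf hab.1, hqf hab.2.1, ha, hb, ?_⟩
      rcases hfC with h1 | h1
      · exact Or.inl h1
      · rw [h1]; exact Or.inr (Or.inl hab)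
    · rw [Prod.mk.injEq] at huv
      obtain ⟨rfl, rfl⟩ := huv
      refine Or.inr ⟨f, Or.inl hf, hqf hab.2.1, hqf hab.1, hb, ha, ?_⟩
      rcases hfC with h1 | h1
      · exact Or.inl h1
      · rw [h1]; exact Or.inr (Or.inr hab)
    · exact h.nw u v huv

/-- cutting a piece of the face f by the diagonal a b, b = a0 f -/
theorem FInv.diag (hst : FSt P C0 E Hd F Cl0 Dg fr) (h : FInv P C0 E Hd F Cl0 Dg fr a0 C Cl)
    {f q q1 q2 : Finset Pt} {a b : Pt} (hf : f ∈ F) (hq : q ∈ C) (hqf : q ⊆ f)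
    (hh : Halves q q1 q2 a b) (hb0 : a0 f = b)
    (ha : fr a ≠ f) (hb : fr b ≠ f) (hj : ¬ Joined Cl a b) :
    FInv P C0 E Hd F Cl0 Dg fr a0 (insert q1 (insert q2 (C.erase q)))
      (insert (a, b) (insert (b, a) Cl)) := by
  classical
  have hqE := hst.notE hf hqf
  have hqH := hst.notHd hf hqf
  have hq3 := h.full.cx.three q hq
  have mem : ∀ s, s ∈ insert q1 (insert q2 (C.erase q)) ↔ s = q1 ∨ s = q2 ∨ (s ≠ q ∧ s ∈ C) := by
    intro s
    rw [Finset.mem_insert, Finset.mem_insert, Finset.mem_erase]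
  have hq1f : q1 ⊆ f := hh.sub1.trans hqf
  have hq2f : q2 ⊆ f := hh.sub2.trans hqf
  -- a real face of the new complex is an old cell
  have hFold : ∀ f' ∈ F, f' ∈ insert q1 (insert q2 (C.erase q)) → f' ≠ q ∧ f' ∈ C := by
    intro f' hf' hm
    rcases (mem f').1 hm with h1 | h1 | h1
    · exfalso
      have h2 : f' = f := h.full.cx |> fun _ =>
        hst.full.cx.eq_of_sub (hst.fc hf') (hst.fc hf) (by rw [h1]; exact hq1f)
      have h3 : q1 = q := Finset.Subset.antisymm hh.sub1 (by rw [← h1, h2]; exact hqf)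
      exact hh.ne1 h3
    · exfalso
      have h2 : f' = f :=
        hst.full.cx.eq_of_sub (hst.fc hf') (hst.fc hf) (by rw [h1]; exact hq2f)
      have h3 : q2 = q := Finset.Subset.antisymm hh.sub2 (by rw [← h1, h2]; exact hqf)
      exact hh.ne2 h3
    · exact h1
  have hC1 : ∀ f', Fac F Dg f' → f' ∉ C → f' ∉ insert q1 (insert q2 (C.erase q)) := by
    intro f' hf' hC hm
    rcases hf' with hf' | ⟨c, d, _, rfl⟩
    · exact hC (hFold f' hf' hm).2
    · have h2 : ({c, d} : Finset Pt).card ≤ 2 := Finset.card_le_two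
      rcases (mem _).1 hm with h1 | h1 | h1
      · have := hh.three1; rw [← h1] at this; omega
      · have := hh.three2; rw [← h1] at this; omega
      · exact hC h1.2
  have hfnew : f ∉ insert q1 (insert q2 (C.erase q)) := by
    intro hm
    have h1 := hFold f hf hm
    exact h1.1 (h.full.cx.eq_of_sub hq h1.2 hqf).symm
  refine ⟨h.full.split hq hh, ?_, ?_, ?_, ?_, ?_, ?_, ?_, ?_, ?_⟩
  · exact Reach.slit E Cl a b q1 (h.reach.split h.full hqE hh) (by simp) hh.he1 hj
  · exact h.mono.trans (fun x hx => Finset.mem_insert_of_mem (Finset.mem_insert_of_mem hx))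
  · intro s hs
    exact (mem s).2 (Or.inr (Or.inr ⟨fun e => hqH (e ▸ hs), h.hd hs⟩))
  · intro s hs hE hH
    rcases (mem s).1 hs with rfl | rfl | h1
    · exact ⟨f, hf, hq1f, by rw [hb0]; exact hh.he1.2.1⟩
    · exact ⟨f, hf, hq2f, by rw [hb0]; exact hh.he2.1⟩
    · exact h.cells s h1.2 hE hH
  · intro f' hf' v hv
    obtain ⟨s, hs, h1, h2, h3⟩ := h.fan f' hf' v hv
    by_cases hsq : s = q
    · subst hsq
      have hff : f = f' := hst.same hf hf' hqf h1 hq3
      subst hff
      rw [← hh.union, Finset.mem_union] at h3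
      rcases h3 with h3 | h3
      · exact ⟨q1, (mem _).2 (Or.inl rfl), hq1f, by rw [hb0]; exact hh.he1.2.1, h3⟩
      · exact ⟨q2, (mem _).2 (Or.inr (Or.inl rfl)), hq2f, by rw [hb0]; exact hh.he2.1, h3⟩
    · exact ⟨s, (mem s).2 (Or.inr (Or.inr ⟨hsq, hs⟩)), h1, h2, h3⟩
  · intro v hv
    obtain ⟨X, hX, hL⟩ := h.lk v hv
    by_cases hXq : q = X
    · subst hXq
      rcases hX with h1 | h1
      · have hff : f = fr v := hst.same hf h1.1 hqf h1.2.2.1 hq3
        have hva : v ≠ a := by rintro rfl; exact ha hff.symm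
        have hvb : v ≠ b := by rintro rfl; exact hb hff.symm
        have hvq := h1.2.2.2
        rw [← hh.union, Finset.mem_union] at hvq
        rcases hvq with h3 | h3
        · exact ⟨q1, Or.inl ⟨h1.1, (mem _).2 (Or.inl rfl), by rw [← hff]; exact hq1f, h3⟩,
            Lk.split_eq h.full.cx hq hh h.hd hqH hva hvb q1 (Or.inl ⟨rfl, h3⟩) hL⟩
        · exact ⟨q2, Or.inl ⟨h1.1, (mem _).2 (Or.inr (Or.inl rfl)), by rw [← hff]; exact hq2f, h3⟩,
            Lk.split_eq h.full.cx hq hh h.hd hqH hva hvb q2 (Or.inr ⟨rfl, h3⟩) hL⟩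
      · have := hst.fr2 v hv h1.1
        rw [← h1.2] at this
        omega
    · refine ⟨X, ?_, Lk.split_ne h.full.cx hq hh h.hd hqH ?_ hXq hL⟩
      · rcases hX with h1 | h1
        · exact Or.inl ⟨h1.1, (mem _).2 (Or.inr (Or.inr ⟨fun e => hXq e.symm, h1.2.1⟩)),
            h1.2.2.1, h1.2.2.2⟩
        · exact Or.inr h1
      · rcases hX with h1 | h1
        · exact Or.inl h1.2.1
        · right; rw [h1.2]; exact hst.fr2 v hv h1.1
  · exact (openSides_split_sub hq hh).trans h.op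
  · intro s hs hE hH
    rcases (mem s).1 hs with rfl | rfl | h1
    · exact Or.inr ⟨a, b, hh.he1, by simp⟩
    · exact Or.inr ⟨b, a, hh.he2, by simp⟩
    · rcases h.cs s h1.2 hE hH with h2 | ⟨u, v, h2, h3⟩
      · exact Or.inl h2
      · exact Or.inr ⟨u, v, h2, Finset.mem_insert_of_mem (Finset.mem_insert_of_mem h3)⟩
  · intro u v huv
    rw [Finset.mem_insert, Finset.mem_insert] at huv
    rcases huv with huv | huv | huv
    · rw [Prod.mk.injEq] at huv
      obtain ⟨rfl, rfl⟩ := huv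
      exact Or.inr ⟨f, Or.inl hf, hqf hh.mem_left.1, hqf hh.mem_left.2, ha, hb, Or.inl hfnew⟩
    · rw [Prod.mk.injEq] at huv
      obtain ⟨rfl, rfl⟩ := huv
      exact Or.inr ⟨f, Or.inl hf, hqf hh.mem_left.2, hqf hh.mem_left.1, hb, ha, Or.inl hfnew⟩
    · rcases h.nw u v huv with h1 | ⟨f', h1, h2, h3, h4, h5, h6⟩
      · exact Or.inl h1
      · refine Or.inr ⟨f', h1, h2, h3, h4, h5, ?_⟩
        rcases h6 with h6 | h6
        · exact Or.inl (hC1 f' h1 h6)
        · exact Or.inr h6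

/-- one slit: a is joined to a0 f -/
theorem FInv.step (hst : FSt P C0 E Hd F Cl0 Dg fr) (h : FInv P C0 E Hd F Cl0 Dg fr a0 C Cl)
    {f : Finset Pt} {a : Pt} (hf : Fac F Dg f) (hb : a0 f ∈ f) (hbf : fr (a0 f) ≠ f)
    (ha : a ∈ f) (haf : fr a ≠ f) :
    ∃ C' Cl', FInv P C0 E Hd F Cl0 Dg fr a0 C' Cl' ∧ Cl ⊆ Cl' ∧ Joined Cl' (a0 f) a := by
  classical
  have hI := h.reach.inv h.full
  by_cases hj : Joined Cl (a0 f) a
  · exact ⟨C, Cl, h, Finset.Subset.refl _, hj⟩
  · have hj' : ¬ Joined Cl a (a0 f) := fun h1 => hj (h1.symm hI.symm)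
    have hsub : Cl ⊆ insert (a, a0 f) (insert (a0 f, a) Cl) :=
      fun x hx => Finset.mem_insert_of_mem (Finset.mem_insert_of_mem hx)
    have hJ : Joined (insert (a, a0 f) (insert (a0 f, a) Cl)) (a0 f) a :=
      Joined.single (by simp)
    have hne : a ≠ a0 f := by
      intro e; apply hj; rw [← e]; exact Joined.refl _ _
    rcases hf with hf | ⟨c, d, hcd, hfcd⟩
    · obtain ⟨q, hq, hqf, hb0, haq⟩ := h.fan f hf a ha
      by_cases h1 : HE q a (a0 f)
      · exact ⟨C, _, h.side hst hf hq hqf h1 haf hbf hj', hsub, hJ⟩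
      · by_cases h2 : HE q (a0 f) a
        · refine ⟨C, _, h.side hst hf hq hqf h2 hbf haf hj, ?_, ?_⟩
          · exact fun x hx => Finset.mem_insert_of_mem (Finset.mem_insert_of_mem hx)
          · exact Joined.single (by simp)
        · obtain ⟨q1, q2, hh⟩ := exists_halves (h.full.cx.cp q hq) (h.full.cx.three q hq) haq hb0
            hne h1 h2
          exact ⟨_, _, h.diag hst hf hq hqf hh rfl haf hbf hj', hsub, hJ⟩
    · have hpair : f = {a, a0 f} := by
        have h3 : ({a, a0 f} : Finset Pt) ⊆ f := by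
          intro x hx
          simp only [Finset.mem_insert, Finset.mem_singleton] at hx
          rcases hx with rfl | rfl
          · exact ha
          · exact hb
        symm
        apply Finset.eq_of_subset_of_card_le h3
        rw [Finset.card_pair hne, hfcd]
        exact Finset.card_le_two
      have hmem : (a, a0 f) ∈ Dg := by
        have hac : a ∈ ({c, d} : Finset Pt) := by rw [← hfcd]; exact ha
        have hbc : a0 f ∈ ({c, d} : Finset Pt) := by rw [← hfcd]; exact hb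
        simp only [Finset.mem_insert, Finset.mem_singleton] at hac hbc
        rcases hac with h1 | h1 <;> rcases hbc with h2 | h2
        · exact absurd (h1.trans h2.symm) hne
        · rw [h1, h2]; exact hcd
        · rw [h1, h2]; exact (hst.dg c d hcd).1
        · exact absurd (h1.trans h2.symm) hne
      refine ⟨C, _, h.digon hst hmem ?_ ?_ hj', hsub, hJ⟩
      · rw [← hpair]; exact haf
      · rw [← hpair]; exact hbf

/-- all slits -/
theorem FInv.loop (hst : FSt P C0 E Hd F Cl0 Dg fr)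
    (ha0 : ∀ f, Fac F Dg f → a0 f ∈ f ∧ fr (a0 f) ≠ f) (L : Finset (Finset Pt × Pt)) :
    ∀ (C : Finset (Finset Pt)) (Cl : Finset (Pt × Pt)),
    FInv P C0 E Hd F Cl0 Dg fr a0 C Cl →
    (∀ p ∈ L, Fac F Dg p.1 ∧ p.2 ∈ p.1 ∧ fr p.2 ≠ p.1) →
    ∃ C' Cl', FInv P C0 E Hd F Cl0 Dg fr a0 C' Cl' ∧ Cl ⊆ Cl' ∧
      ∀ p ∈ L, Joined Cl' (a0 p.1) p.2 := by
  classical
  induction L using Finset.induction with
  | empty =>
    intro C Cl h _
    exact ⟨C, Cl, h, Finset.Subset.refl _, by simp⟩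
  | insert p L _ ih =>
    intro C Cl h hL
    obtain ⟨h1, h2, h3⟩ := hL p (Finset.mem_insert_self p L)
    obtain ⟨C1, Cl1, g1, g2, g3⟩ := h.step hst h1 (ha0 p.1 h1).1 (ha0 p.1 h1).2 h2 h3
    obtain ⟨C2, Cl2, k1, k2, k3⟩ := ih C1 Cl1 g1 (fun p' hp' => hL p' (Finset.mem_insert_of_mem hp'))
    refine ⟨C2, Cl2, k1, g2.trans k2, ?_⟩
    intro p' hp'
    rw [Finset.mem_insert] at hp'
    rcases hp' with rfl | hp'
    · exact g3.mono k2
    · exact k3 p' hp'

/-- THE FINISH -/
theorem finish (hst : FSt P C0 E Hd F Cl0 Dg fr) (h2 : 2 ≤ P.card) (W : Finset Pt)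
    (hcut : ∀ l : Pt → Bool, (∀ a b, (a, b) ∈ Cl0 → l a = l b) →
      (∀ f, Fac F Dg f → ∀ u ∈ f, ∀ v ∈ f, u ∉ W → v ∉ W → fr u ≠ f → fr v ≠ f → l u = l v) →
      ∀ u ∈ P, ∀ v ∈ P, u ∉ W → v ∉ W → l u = l v)
    (hface : ∀ f, Fac F Dg f → ∃ a ∈ f, a ∉ W ∧ fr a ≠ f)
    (hW : ∀ w ∈ W, ∃ f, Fac F Dg f ∧ w ∈ f ∧ fr w ≠ f)
    (he : ∀ f ∈ F, ∀ v ∈ f, v ∉ W → fr v ≠ f →
      (∃ x, (v, x) ∈ Cl0 ∧ (HE f v x ∨ HE f x v)) ∨
      ((∀ x, (v, x) ∉ Cl0) ∧ ∀ f', Fac F Dg f' → v ∈ f' → fr v ≠ f' → f' = f)) :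
    ∃ C' Cl', Full P C' ∧ Reach P C' E Cl' ∧ (∀ a ∈ P, ∀ b ∈ P, Joined Cl' a b) ∧
      (∀ v ∈ P, ConnAt C' E Hd Cl' v) ∧ openSides C' Cl' ⊆ openSides C0 Cl0 ∧ Hd ⊆ C' ∧
      (∀ q ∈ C', q ∉ E → q ∉ Hd → (∃ f ∈ F, q ⊆ f) ∧ ∃ a b, HE q a b ∧ (a, b) ∈ Cl') := by
  classical
  -- the base points
  have hex : ∀ f, ∃ a, Fac F Dg f → (a ∈ f ∧ a ∉ W ∧ fr a ≠ f) := by
    intro f
    by_cases hf : Fac F Dg f
    · obtain ⟨a, h1, h3, h4⟩ := hface f hf
      exact ⟨a, fun _ => ⟨h1, h3, h4⟩⟩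
    · exact ⟨0, fun h => absurd h hf⟩
  choose a0 ha0 using hex
  set Fs : Finset (Finset Pt) := F ∪ Dg.image (fun e => ({e.1, e.2} : Finset Pt)) with hFs
  have hFs' : ∀ f, f ∈ Fs ↔ Fac F Dg f := by
    intro f
    rw [hFs, Finset.mem_union, Finset.mem_image]
    unfold Fac
    constructor
    · rintro (h | ⟨⟨a, b⟩, h, h'⟩)
      · exact Or.inl h
      · exact Or.inr ⟨a, b, h, h'.symm⟩
    · rintro (h | ⟨a, b, h, h'⟩)
      · exact Or.inl h
      · exact Or.inr ⟨(a, b), h, h'.symm⟩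
  have hFP : ∀ f, Fac F Dg f → f ⊆ P := by
    intro f hf
    rcases hf with hf | ⟨a, b, hab, rfl⟩
    · exact hst.full.sub (hst.fc hf)
    · obtain ⟨q, hq, h1⟩ := (hst.dg a b hab).2
      have := hst.full.sub (hst.hd hq)
      intro x hx
      simp only [Finset.mem_insert, Finset.mem_singleton] at hx
      rcases hx with rfl | rfl
      · exact this h1.1
      · exact this h1.2.1
  set L : Finset (Finset Pt × Pt) := (Fs ×ˢ P).filter (fun p => p.2 ∈ p.1 ∧ fr p.2 ≠ p.1) with hL
  have hLm : ∀ f a, Fac F Dg f → a ∈ f → fr a ≠ f → (f, a) ∈ L := by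
    intro f a hf ha haf
    rw [hL, Finset.mem_filter, Finset.mem_product]
    exact ⟨⟨(hFs' f).2 hf, hFP f hf ha⟩, ha, haf⟩
  obtain ⟨C', Cl', hI, hmono, hJ⟩ := FInv.loop hst (a0 := a0)
    (fun f hf => ⟨(ha0 f hf).1, (ha0 f hf).2.2⟩) L C0 Cl0
    (hst.start (fun f hf => (ha0 f (Or.inl hf)).1))
    (by
      intro p hp
      rw [hL, Finset.mem_filter, Finset.mem_product] at hp
      exact ⟨(hFs' p.1).1 hp.1.1, hp.2.1, hp.2.2⟩)
  have hR := hI.reach.inv hI.full
  have hsym : ∀ {a b}, Joined Cl' a b → Joined Cl' b a := fun h => h.symm hR.symm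
  have hJ' : ∀ f a, Fac F Dg f → a ∈ f → fr a ≠ f → Joined Cl' (a0 f) a :=
    fun f a hf ha haf => hJ (f, a) (hLm f a hf ha haf)
  have hnf : ∀ u ∈ P, ∀ v ∈ P, u ∉ W → v ∉ W → Joined Cl' u v := by
    intro u hu v hv huW hvW
    have h3 := hcut (fun x => decide (Joined Cl' u x)) (by
      intro a b hab
      rw [Bool.eq_iff_iff, decide_eq_true_iff, decide_eq_true_iff]
      have h4 : Joined Cl' a b := Joined.single (hI.mono hab)
      exact ⟨fun h => h.trans h4, fun h => h.trans (hsym h4)⟩) (by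
      intro f hf a ha b hb _ _ haf hbf
      rw [Bool.eq_iff_iff, decide_eq_true_iff, decide_eq_true_iff]
      have h4 : Joined Cl' a b := (hsym (hJ' f a hf ha haf)).trans (hJ' f b hf hb hbf)
      exact ⟨fun h => h.trans h4, fun h => h.trans (hsym h4)⟩) u hu v hv huW hvW
    rw [Bool.eq_iff_iff, decide_eq_true_iff, decide_eq_true_iff] at h3
    exact h3.1 (Joined.refl _ _)
  have hrep : ∀ u ∈ P, ∃ v ∈ P, v ∉ W ∧ Joined Cl' u v := by
    intro u hu
    by_cases huW : u ∈ W
    · obtain ⟨f, hf, h3, h4⟩ := hW u huW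
      exact ⟨a0 f, hFP f hf (ha0 f hf).1, (ha0 f hf).2.1, hsym (hJ' f u hf h3 h4)⟩
    · exact ⟨u, hu, huW, Joined.refl _ _⟩
  have hall : ∀ a ∈ P, ∀ b ∈ P, Joined Cl' a b := by
    intro a ha b hb
    obtain ⟨a', ha', h3, h4⟩ := hrep a ha
    obtain ⟨b', hb', h5, h6⟩ := hrep b hb
    exact (h4.trans (hnf a' ha' b' hb' h3 h5)).trans (hsym h6)
  refine ⟨C', Cl', hI.full, hI.reach, hall, ?_, hI.op, hI.hd, ?_⟩
  · intro v hv
    obtain ⟨X, _, hL⟩ := hI.lk v hv
    apply hL.connAt hI.full hR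
    intro a b hab
    obtain ⟨h3, q, hq, h4⟩ := hst.dg a b hab
    obtain ⟨_, q', hq', h5⟩ := hst.dg b a h3
    exact ⟨⟨q, hq, hI.hd hq, h4⟩, ⟨q', hq', hI.hd hq', h5⟩⟩
  · intro q hq hE hH
    obtain ⟨f, hf, hqf, _⟩ := hI.cells q hq hE hH
    refine ⟨⟨f, hf, hqf⟩, ?_⟩
    rcases hI.cs q hq hE hH with hqF | h3
    · have hv := ha0 q (Or.inl hqF)
      set v := a0 q with hvdef
      have close : ∀ x, (v, x) ∈ Cl' → (HE q v x ∨ HE q x v) → ∃ a b, HE q a b ∧ (a, b) ∈ Cl' := by
        intro x hx h3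
        rcases h3 with h3 | h3
        · exact ⟨v, x, h3, hx⟩
        · exact ⟨x, v, h3, hR.symm _ _ hx⟩
      rcases he q hqF v hv.1 hv.2.1 hv.2.2 with ⟨x, h3, h4⟩ | ⟨h3, h4⟩
      · exact close x (hI.mono h3) h4
      · -- v has a closed pair at the end
        have hvP : v ∈ P := hFP q (Or.inl hqF) hv.1
        obtain ⟨p, hp, hpv⟩ : ∃ p ∈ P, p ≠ v := by
          by_contra hcon
          push Not at hcon
          have : P ⊆ {v} := fun x hx => Finset.mem_singleton.2 (hcon x hx)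
          have := Finset.card_le_card this
          rw [Finset.card_singleton] at this
          omega
        have h5 := hall v hvP p hp
        obtain ⟨x, hx⟩ : ∃ x, (v, x) ∈ Cl' := by
          unfold Joined at h5
          rcases Relation.ReflTransGen.cases_head h5 with h6 | ⟨x, h6, _⟩
          · exact absurd h6.symm hpv
          · exact ⟨x, h6⟩
        rcases hI.nw v x hx with h6 | ⟨f', h6, h7, h8, h9, _, h10⟩
        · exact absurd h6 (h3 x)
        · have := h4 f' h6 h7 h9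
          subst this
          rcases h10 with h10 | h10
          · exact absurd hq h10
          · exact close x hx h10
    · exact h3

end

end Pool.Agent.RFX

end

section

set_option autoImplicit false

/-!
# RFX/StStar : the star of a ring vertex of a zone (MP_72a26e_co)

`Zone.star_lab`: a labelling of the cells of a zone which is constant across the inner sides at `v` is
constant on the cells at `v`.
-/

namespace Pool.Agent.RFX

theorem ZT.root_mem {t : ZT} {x y : Pt} (hok : t.Ok x y) (hb : ¬ t.Bare) :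
    ∃ c ∈ t.cells x y, HE c x y ∧ x ∈ c ∧ y ∈ c := by
  obtain ⟨c, hc, h⟩ := ZT.root hok hb
  exact ⟨c, hc, h, h.1, h.2.1⟩

theorem ZT.cells_bare {t : ZT} (hb : t.Bare) (x y : Pt) : t.cells x y = ∅ := by
  cases t with
  | leaf f => rfl
  | cut => rfl
  | node a l r => exact absurd hb (by simp [ZT.Bare])

theorem ZT.star_lab {α : Finset Pt → Bool} {v : Pt} {t : ZT} : ∀ {x y : Pt}, t.Ok x y →
    (x :: (t.apex ++ [y])).Nodup →
    (∀ c ∈ t.cells x y, ∀ c' ∈ t.cells x y, ∀ z, (HE c v z ∧ HE c' z v) ∨ (HE c z v ∧ HE c' v z) →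
      α c = α c') →
    ∀ c ∈ t.cells x y, ∀ c' ∈ t.cells x y, v ∈ c → v ∈ c' → α c = α c' := by
  induction t with
  | leaf f => intro x y _ _ _ c hc; simp [ZT.cells] at hc
  | cut => intro x y _ _ _ c hc; simp [ZT.cells] at hc
  | node a l r ihl ihr =>
    intro x y hok hn hin
    obtain ⟨h0, hl, hr⟩ := hok
    obtain ⟨t1, t2, t3⟩ := he_tri h0
    simp only [ZT.apex] at hn
    -- nodup facts
    have hnl : (x :: (l.apex ++ [a])).Nodup := by
      refine List.Nodup.sublist ?_ hn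
      apply List.Sublist.cons_cons
      rw [List.append_assoc]
      apply List.Sublist.append (List.Sublist.refl _)
      simp
    have hnr : (a :: (r.apex ++ [y])).Nodup := by
      refine List.Nodup.sublist ?_ hn
      rw [List.append_assoc]
      apply List.Sublist.cons
      exact List.sublist_append_right _ _
    have dis : ∀ z, z ∈ x :: l.apex → z ∈ a :: (r.apex ++ [y]) → False := by
      intro z h1 h2
      have hn2 : (x :: l.apex ++ (a :: (r.apex ++ [y]))).Nodup := by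
        simpa using hn
      rw [List.nodup_append] at hn2
      exact hn2.2.2 z h1 z h2 rfl
    have dis2 : ∀ z, z ∈ a :: r.apex ∨ z = y → z ∉ x :: l.apex := by
      intro z h1 h2
      apply dis z h2
      rcases h1 with h1 | h1
      · simp only [List.mem_cons, List.mem_append, List.not_mem_nil, or_false] at h1 ⊢
        tauto
      · simp [h1]
    have dis3 : ∀ z, z ∈ l.apex ∨ z = x → z ≠ a ∧ z ≠ y ∧ z ∉ r.apex := by
      intro z h1
      have h2 : z ∈ x :: l.apex := by
        simp only [List.mem_cons]; tauto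
      refine ⟨?_, ?_, ?_⟩
      · rintro rfl; exact dis z h2 (by simp)
      · rintro rfl; exact dis z h2 (by simp)
      · intro h3; exact dis z h2 (by simp [h3])
    have dis4 : ∀ z, z ∈ r.apex → z ≠ a ∧ z ≠ y := by
      intro z hz
      have hn3 := hnr
      rw [List.nodup_cons, List.mem_append, List.nodup_append] at hn3
      constructor
      · rintro rfl; exact hn3.1 (Or.inl hz)
      · rintro rfl; exact hn3.2.2.2 z hz z (by simp) rfl
    have dis5 : ∀ z, z ∈ l.apex → z ≠ x := by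
      intro z hz
      have hn3 := hnl
      rw [List.nodup_cons, List.mem_append] at hn3
      rintro rfl; exact hn3.1 (Or.inl hz)
    set R : Finset Pt := {x, y, a} with hR
    have hRm : R ∈ (ZT.node a l r).cells x y := by simp [ZT.cells, hR]
    have hlm : ∀ c ∈ l.cells x a, c ∈ (ZT.node a l r).cells x y := by
      intro c hc; simp [ZT.cells, hc]
    have hrm : ∀ c ∈ r.cells a y, c ∈ (ZT.node a l r).cells x y := by
      intro c hc; simp [ZT.cells, hc]
    have ihl' := ihl hl hnl (fun c hc c' hc' z hz => hin c (hlm c hc) c' (hlm c' hc') z hz)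
    have ihr' := ihr hr hnr (fun c hc c' hc' z hz => hin c (hrm c hc) c' (hrm c' hc') z hz)
    -- cells of l at x or a have the value of the root
    have keyl : ∀ c ∈ l.cells x a, v ∈ c → (v = x ∨ v = a) → α c = α R := by
      intro c hc hvc hv
      have hb : ¬ l.Bare := by
        intro hb; rw [ZT.cells_bare hb] at hc; simp at hc
      obtain ⟨q, hq, h1, h2, h3⟩ := ZT.root_mem hl hb
      have h4 : α q = α R := by
        rcases hv with rfl | rfl
        · exact hin q (hlm q hq) R hRm a (Or.inl ⟨h1, t3⟩)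
        · exact hin q (hlm q hq) R hRm x (Or.inr ⟨h1, t3⟩)
      rw [← h4]
      apply ihl' c hc q hq hvc
      rcases hv with rfl | rfl <;> assumption
    have keyr : ∀ c ∈ r.cells a y, v ∈ c → (v = a ∨ v = y) → α c = α R := by
      intro c hc hvc hv
      have hb : ¬ r.Bare := by
        intro hb; rw [ZT.cells_bare hb] at hc; simp at hc
      obtain ⟨q, hq, h1, h2, h3⟩ := ZT.root_mem hr hb
      have h4 : α q = α R := by
        rcases hv with rfl | rfl
        · exact hin q (hrm q hq) R hRm y (Or.inl ⟨h1, t2⟩)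
        · exact hin q (hrm q hq) R hRm a (Or.inr ⟨h1, t2⟩)
      rw [← h4]
      apply ihr' c hc q hq hvc
      rcases hv with rfl | rfl <;> assumption
    -- value of a cell at v
    have main : ∀ c ∈ (ZT.node a l r).cells x y, v ∈ c →
        (v ∈ l.apex ∧ c ∈ l.cells x a) ∨ (v ∈ r.apex ∧ c ∈ r.cells a y) ∨
        ((v = x ∨ v = y ∨ v = a) ∧ α c = α R) := by
      intro c hc hvc
      simp only [ZT.cells, Finset.mem_insert, Finset.mem_union] at hc
      rcases hc with rfl | hc | hc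
      · right; right
        refine ⟨by simpa [hR] using hvc, rfl⟩
      · rcases ZT.mem_cells_sub hc v hvc with h1 | h1 | h1
        · exact Or.inr (Or.inr ⟨Or.inl h1, keyl c hc hvc (Or.inl h1)⟩)
        · exact Or.inr (Or.inr ⟨Or.inr (Or.inr h1), keyl c hc hvc (Or.inr h1)⟩)
        · exact Or.inl ⟨h1, hc⟩
      · rcases ZT.mem_cells_sub hc v hvc with h1 | h1 | h1
        · exact Or.inr (Or.inr ⟨Or.inr (Or.inr h1), keyr c hc hvc (Or.inl h1)⟩)
        · exact Or.inr (Or.inr ⟨Or.inr (Or.inl h1), keyr c hc hvc (Or.inr h1)⟩)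
        · exact Or.inr (Or.inl ⟨h1, hc⟩)
    intro c hc c' hc' hvc hvc'
    rcases main c hc hvc with ⟨h1, h2⟩ | ⟨h1, h2⟩ | ⟨h1, h2⟩ <;>
      rcases main c' hc' hvc' with ⟨h3, h4⟩ | ⟨h3, h4⟩ | ⟨h3, h4⟩
    · exact ihl' c h2 c' h4 hvc hvc'
    · exact absurd h3 (dis3 v (Or.inl h1)).2.2
    · rcases h3 with h3 | h3 | h3
      · exact absurd h3 (dis5 v h1)
      · exact absurd h3 (dis3 v (Or.inl h1)).2.1
      · exact absurd h3 (dis3 v (Or.inl h1)).1
    · exact absurd h1 (dis3 v (Or.inl h3)).2.2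
    · exact ihr' c h2 c' h4 hvc hvc'
    · rcases h3 with h3 | h3 | h3
      · exact absurd h1 (dis3 v (Or.inr h3)).2.2
      · exact absurd h3 (dis4 v h1).2
      · exact absurd h3 (dis4 v h1).1
    · rcases h1 with h1 | h1 | h1
      · exact absurd h1 (dis5 v h3)
      · exact absurd h1 (dis3 v (Or.inl h3)).2.1
      · exact absurd h1 (dis3 v (Or.inl h3)).1
    · rcases h1 with h1 | h1 | h1
      · exact absurd h3 (dis3 v (Or.inr h1)).2.2
      · exact absurd h1 (dis4 v h3).2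
      · exact absurd h1 (dis4 v h3).1
    · rw [h2, h4]

theorem Zone.star_lab {α : Finset Pt → Bool} {v : Pt} {z : Zone} (h1 : z.t.Ok z.x z.y)
    (h2 : z.t'.Ok z.y z.x) (hn : z.vs.Nodup)
    (hin : ∀ c ∈ z.cells, ∀ c' ∈ z.cells, ∀ w, (HE c v w ∧ HE c' w v) ∨ (HE c w v ∧ HE c' v w) →
      α c = α c') :
    ∀ c ∈ z.cells, ∀ c' ∈ z.cells, v ∈ c → v ∈ c' → α c = α c' := by
  have m1 : ∀ c ∈ z.t.cells z.x z.y, c ∈ z.cells := fun c hc => by
    simp [Zone.cells, hc]
  have m2 : ∀ c ∈ z.t'.cells z.y z.x, c ∈ z.cells := fun c hc => by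
    simp [Zone.cells, hc]
  have n1 : (z.x :: (z.t.apex ++ [z.y])).Nodup := by
    refine List.Nodup.sublist ?_ hn
    unfold Zone.vs
    apply List.Sublist.cons_cons
    apply List.Sublist.append (List.Sublist.refl _)
    simp
  have hn2 : (z.x :: z.t.apex ++ (z.y :: z.t'.apex)).Nodup := by
    simpa [Zone.vs] using hn
  have n2 : (z.y :: (z.t'.apex ++ [z.x])).Nodup := by
    have h3 : ((z.y :: z.t'.apex) ++ (z.x :: z.t.apex)).Nodup :=
      List.nodup_append_comm.1 hn2
    refine List.Nodup.sublist ?_ h3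
    rw [← List.cons_append]
    apply List.Sublist.append (List.Sublist.refl _)
    simp
  have s1 := ZT.star_lab (α := α) (v := v) h1 n1
    (fun c hc c' hc' w hw => hin c (m1 c hc) c' (m1 c' hc') w hw)
  have s2 := ZT.star_lab (α := α) (v := v) h2 n2
    (fun c hc c' hc' w hw => hin c (m2 c hc) c' (m2 c' hc') w hw)
  have cross : ∀ c ∈ z.t.cells z.x z.y, ∀ c' ∈ z.t'.cells z.y z.x, v ∈ c → v ∈ c' →
      α c = α c' := by
    intro c hc c' hc' hvc hvc'
    have hv : v = z.x ∨ v = z.y := by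
      rw [List.nodup_append] at hn2
      rcases ZT.mem_cells_sub hc v hvc with g1 | g1 | g1
      · exact Or.inl g1
      · exact Or.inr g1
      · rcases ZT.mem_cells_sub hc' v hvc' with g2 | g2 | g2
        · exact Or.inr g2
        · exact Or.inl g2
        · exact absurd rfl (hn2.2.2 v (by simp [g1]) v (by simp [g2]))
    have b1 : ¬ z.t.Bare := by
      intro hb; rw [ZT.cells_bare hb] at hc; simp at hc
    have b2 : ¬ z.t'.Bare := by
      intro hb; rw [ZT.cells_bare hb] at hc'; simp at hc'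
    obtain ⟨q, hq, k1, k2, k3⟩ := ZT.root_mem h1 b1
    obtain ⟨q', hq', k1', k2', k3'⟩ := ZT.root_mem h2 b2
    have e1 : α c = α q := s1 c hc q hq hvc (by rcases hv with rfl | rfl <;> assumption)
    have e2 : α c' = α q' := s2 c' hc' q' hq' hvc' (by rcases hv with rfl | rfl <;> assumption)
    have e3 : α q = α q' := by
      rcases hv with rfl | rfl
      · exact hin q (m1 q hq) q' (m2 q' hq') z.y (Or.inl ⟨k1, k1'⟩)
      · exact hin q (m1 q hq) q' (m2 q' hq') z.x (Or.inr ⟨k1, k1'⟩)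
    rw [e1, e2, e3]
  intro c hc c' hc' hvc hvc'
  simp only [Zone.cells, Finset.mem_union] at hc hc'
  rcases hc with hc | hc <;> rcases hc' with hc' | hc'
  · exact s1 c hc c' hc' hvc hvc'
  · exact cross c hc c' hc' hvc hvc'
  · exact (cross c' hc' c hc hvc' hvc).symm
  · exact s2 c hc c' hc' hvc hvc'

theorem Zone.cells_vs {z : Zone} {c : Finset Pt} (hc : c ∈ z.cells) {v : Pt} (hv : v ∈ c) :
    v ∈ z.vs := by
  rw [Zone.mem_vs]
  simp only [Zone.cells, Finset.mem_union] at hc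
  simp only [Zone.ap, List.mem_append]
  rcases hc with hc | hc
  · rcases ZT.mem_cells_sub hc v hv with h | h | h <;> tauto
  · rcases ZT.mem_cells_sub hc v hv with h | h | h <;> tauto

end Pool.Agent.RFX

end

section

set_option autoImplicit false

/-!
# RFX/StFin : from a state all of whose labellings are constant to the hypotheses of `asm`
(MP_72a26e_co)
-/

namespace Pool.Agent.RFX

variable {S : Sta} {D : Dyn}

/-- the cells of the zones -/
noncomputable def HdOf (D : Dyn) : Finset (Finset Pt) :=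
  open Classical in D.I.biUnion (fun i => (D.Z i).cells)

theorem mem_HdOf (D : Dyn) (q : Finset Pt) : q ∈ HdOf D ↔ ∃ i ∈ D.I, q ∈ (D.Z i).cells := by
  classical
  unfold HdOf
  rw [Finset.mem_biUnion]

/-- the open digon sides -/
noncomputable def DgOf (S : Sta) (D : Dyn) : Finset (Pt × Pt) :=
  open Classical in (openSides S.C D.Cl).filter (fun p => ∃ i ∈ D.I, ∃ e ∈ (D.Z i).ring,
    e.a = p.1 ∧ e.b = p.2 ∧ e.s = some {p.1, p.2})

/-- the face through which `v` is linked -/
noncomputable def frOf (D : Dyn) (v : Pt) : Finset Pt :=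
  open Classical in if v ∈ D.A then (if v ∈ D.Fr then D.fm v else D.fref v) else ∅

theorem frOf_non {v : Pt} (h : v ∉ D.A) : frOf D v = ∅ := by
  unfold frOf; rw [if_neg h]

theorem frOf_free {v : Pt} (h : v ∈ D.A) (h' : v ∈ D.Fr) : frOf D v = D.fm v := by
  unfold frOf; rw [if_pos h, if_pos h']

theorem frOf_att {v : Pt} (h : v ∈ D.A) (h' : v ∉ D.Fr) : frOf D v = D.fref v := by
  unfold frOf; rw [if_pos h, if_neg h']

/-- an open digon ring edge: the cells on both sides are hard, of different zones -/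
theorem St.dg_cells (h : St S D) (hS : StaOk S) {i : ZI} (hi : i ∈ D.I) {e : RE}
    (he : e ∈ (D.Z i).ring) (hs : e.s = some {e.a, e.b}) (ho : (e.a, e.b) ∉ D.Cl) :
    (∃ c ∈ (D.Z i).cells, HE c e.b e.a) ∧ ∃ j ∈ D.I, j ≠ i ∧
      (⟨e.b, e.a, some {e.a, e.b}⟩ : RE) ∈ (D.Z j).ring ∧ ∃ c ∈ (D.Z j).cells, HE c e.a e.b := by
  have nb : ∀ k ∈ D.I, ∀ e' ∈ (D.Z k).ring, e'.s = some {e.a, e.b} → ¬ (D.Z k).Bare := by
    intro k hk e' he' hs' hb
    obtain ⟨⟨f, hf, h1, _⟩, _⟩ := h.bare_ring hS hk hb he'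
    rw [hs', Option.some.injEq] at h1
    exact h.F_ne_pair hS hf _ _ h1.symm
  refine ⟨h.right hi (nb i hi e he hs) he, ?_⟩
  rcases h.f7 i hi e he hs with h1 | ⟨j, hj, hji, h1⟩
  · exact absurd h1 ho
  · exact ⟨j, hj, hji, h1, h.right hj (nb j hj _ h1 rfl) h1⟩

theorem St.mem_DgOf (h : St S D) (hS : StaOk S) (a b : Pt) : (a, b) ∈ DgOf S D ↔
    (a, b) ∉ D.Cl ∧ ∃ i ∈ D.I, ∃ e ∈ (D.Z i).ring, e.a = a ∧ e.b = b ∧ e.s = some {a, b} := by
  classical
  unfold DgOf
  rw [Finset.mem_filter, mem_openSides]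
  constructor
  · rintro ⟨⟨_, h1⟩, h2⟩
    exact ⟨h1, h2⟩
  · rintro ⟨h1, i, hi, e, he, rfl, rfl, hs⟩
    refine ⟨⟨?_, h1⟩, i, hi, e, he, rfl, rfl, hs⟩
    obtain ⟨_, j, hj, _, _, c, hc, h2⟩ := h.dg_cells hS hi he hs h1
    exact ⟨c, h.zC j hj hc, h2⟩

theorem St.dg_symm (h : St S D) (hS : StaOk S) {a b : Pt} (hab : (a, b) ∈ DgOf S D) :
    (b, a) ∈ DgOf S D := by
  rw [h.mem_DgOf hS] at hab ⊢
  obtain ⟨h1, i, hi, e, he, rfl, rfl, hs⟩ := hab
  refine ⟨fun h2 => h1 (h.symm hS h2), ?_⟩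
  obtain ⟨_, j, hj, _, h3, _⟩ := h.dg_cells hS hi he hs h1
  exact ⟨j, hj, _, h3, rfl, rfl, by rw [Finset.pair_comm]⟩

/-- the two cells of a digon side -/
theorem St.dg_two (h : St S D) (hS : StaOk S) {a b : Pt} (hab : (a, b) ∈ DgOf S D) :
    ∃ i ∈ D.I, ∃ j ∈ D.I, j ≠ i ∧ (∃ c ∈ (D.Z i).cells, HE c b a) ∧
      (∃ c ∈ (D.Z j).cells, HE c a b) := by
  rw [h.mem_DgOf hS] at hab
  obtain ⟨h1, i, hi, e, he, rfl, rfl, hs⟩ := hab
  obtain ⟨h2, j, hj, hji, h3, h4⟩ := h.dg_cells hS hi he hs h1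
  exact ⟨i, hi, j, hj, hji, h2, h4⟩

theorem St.dg_hard (h : St S D) (hS : StaOk S) {a b : Pt} (hab : (a, b) ∈ DgOf S D) :
    ∃ q ∈ HdOf D, HE q a b := by
  obtain ⟨i, hi, j, hj, _, _, c, hc, h1⟩ := h.dg_two hS hab
  exact ⟨c, (mem_HdOf D c).2 ⟨j, hj, hc⟩, h1⟩

/-- a digon side is no side of a face -/
theorem St.dg_not_face (h : St S D) (hS : StaOk S) {a b : Pt} (hab : (a, b) ∈ DgOf S D)
    {f : Finset Pt} (hf : f ∈ S.F) : ¬ HE f a b ∧ ¬ HE f b a := by
  obtain ⟨i, hi, j, hj, _, ⟨c, hc, h1⟩, ⟨c', hc', h2⟩⟩ := h.dg_two hS hab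
  constructor
  · intro h3
    have := h.side_unique hS (h.zC j hj hc') (hS.FC hf) h2 h3
    exact (h.zE j hj c' hc').2 (this ▸ hf)
  · intro h3
    have := h.side_unique hS (h.zC i hi hc) (hS.FC hf) h1 h3
    exact (h.zE i hi c hc).2 (this ▸ hf)

/-- a digon side is no inner side of a zone -/
theorem St.dg_not_inner (h : St S D) (hS : StaOk S) {a b : Pt} (hab : (a, b) ∈ DgOf S D)
    {k : ZI} (hk : k ∈ D.I) {c c' : Finset Pt} (hc : c ∈ (D.Z k).cells)
    (hc' : c' ∈ (D.Z k).cells) (h1 : HE c a b) (h2 : HE c' b a) : False := by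
  obtain ⟨i, hi, j, hj, hji, ⟨q, hq, h3⟩, ⟨q', hq', h4⟩⟩ := h.dg_two hS hab
  have e1 := h.side_unique hS (h.zC j hj hq') (h.zC k hk hc) h4 h1
  have e2 := h.side_unique hS (h.zC i hi hq) (h.zC k hk hc') h3 h2
  subst e1; subst e2
  have g1 := h.zz j hj k hk q' hq' hc
  have g2 := h.zz i hi k hk q hq hc'
  exact hji (g1.trans g2.symm)

/-- acceptance in terms of `frOf` -/
theorem St.acc_iff (h : St S D) {v : Pt} {f : Finset Pt} (hv : v ∈ f) :
    Acc D v f ↔ v ∉ D.Fr ∧ frOf D v ≠ f := by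
  unfold Acc
  by_cases hA : v ∈ D.A
  · by_cases hFr : v ∈ D.Fr
    · simp [hA, hFr]
    · rw [frOf_att hA hFr]
      simp only [hv, hA, hFr, not_true_eq_false, not_false_eq_true, true_and, false_or]
      exact ⟨fun h => h.symm, fun h => h.symm⟩
  · rw [frOf_non hA]
    simp only [hv, hA, not_false_eq_true, true_or, true_and, true_iff]
    refine ⟨fun hh => hA (h.FrA hh), ?_⟩
    rintro rfl
    simp at hv

/-- the ring edges carrying the linking face -/
theorem St.fr_edge (h : St S D) (hS : StaOk S) {v : Pt} (hA : v ∈ D.A) {i : ZI}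
    (hi : i = S.T v ∨ i = S.H v) : ∃ e ∈ (D.Z i).ring, (e.a = v ∨ e.b = v) ∧
      e.s = some (frOf D v) ∧ (e.a, e.b) ∉ D.Cl ∧ i ∈ D.I := by
  have hI : i ∈ D.I ∧ v ∈ (D.Z i).vs := by
    obtain ⟨h1, h2, _, h3, h4⟩ := h.l1 v hA
    rcases hi with rfl | rfl
    · exact ⟨h1, h3⟩
    · exact ⟨h2, h4⟩
  obtain ⟨e, e', hat⟩ := Zone.exists_At hI.2
  by_cases hFr : v ∈ D.Fr
  · rw [frOf_free hA hFr]
    have hcl : ∀ e ∈ (D.Z i).ring, (e.a = v ∨ e.b = v) → (e.a, e.b) ∉ D.Cl := by
      rintro e _ (h2 | h2) h3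
      · rw [h2] at h3; exact h.l4 v hFr _ h3
      · rw [h2] at h3; exact h.l4 v hFr _ (h.symm hS h3)
    rcases (h.l5 v hFr).2 i hi e e' hat with ⟨_, h1⟩ | ⟨h1, _⟩
    · exact ⟨e', hat.2.1, Or.inl hat.2.2.2, h1, hcl e' hat.2.1 (Or.inl hat.2.2.2), hI.1⟩
    · exact ⟨e, hat.1, Or.inr hat.2.2.1, h1, hcl e hat.1 (Or.inr hat.2.2.1), hI.1⟩
  · rw [frOf_att hA hFr]
    rcases h.l6 v hA hFr i hi e e' hat with ⟨h1, _⟩ | ⟨_, h1⟩
    · exact ⟨e, hat.1, Or.inr hat.2.2.1, h1,
        h.fref_open hS hA hFr hI.1 hat.1 h1 (Or.inr hat.2.2.1), hI.1⟩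
    · exact ⟨e', hat.2.1, Or.inl hat.2.2.2, h1,
        h.fref_open hS hA hFr hI.1 hat.2.1 h1 (Or.inl hat.2.2.2), hI.1⟩

theorem St.fr2 (h : St S D) (hS : StaOk S) {v : Pt} (hF : frOf D v ∉ S.F) :
    (frOf D v).card ≤ 2 := by
  by_cases hA : v ∈ D.A
  · obtain ⟨e, he, _, hs, _, hI⟩ := h.fr_edge hS hA (Or.inl rfl)
    rcases h.r1 _ hI e he _ hs with ⟨h1, _⟩ | h1
    · exact absurd h1 hF
    · rw [h1]; exact Finset.card_le_two
  · rw [frOf_non hA]; simp

theorem St.frv (h : St S D) (hS : StaOk S) {v : Pt} (hF : frOf D v ∈ S.F) : v ∈ frOf D v := by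
  by_cases hA : v ∈ D.A
  · obtain ⟨e, he, hv, hs, _, hI⟩ := h.fr_edge hS hA (Or.inl rfl)
    rcases h.r1 _ hI e he _ hs with ⟨_, h1, _⟩ | h1
    · rcases hv with rfl | rfl
      · exact h1.1
      · exact h1.2.1
    · exact absurd h1 (h.F_ne_pair hS hF _ _)
  · rw [frOf_non hA] at hF
    have := h.card_F hS hF
    simp at this

/-- cells at `v` of zone `i` -/
theorem St.cell_vs (_ : St S D) {i : ZI} {c : Finset Pt} (hc : c ∈ (D.Z i).cells) {v : Pt}
    (hv : v ∈ c) : v ∈ (D.Z i).vs := Zone.cells_vs hc hv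

/-- LINKING: the local connectivity at every point -/
theorem St.lk (h : St S D) (hS : StaOk S) (v : Pt) :
    Lk S.C (HdOf D) D.Cl (DgOf S D) v (frOf D v) := by
  classical
  intro α β hab
  set X := frOf D v with hX
  -- labels of the cells at v of one zone
  have cells_eq : ∀ i ∈ D.I, ∀ c ∈ (D.Z i).cells, ∀ c' ∈ (D.Z i).cells, v ∈ c → v ∈ c' →
      α c = α c' := by
    intro i hi
    apply Zone.star_lab (h.okt i hi).1 (h.okt i hi).2 (h.nd i hi)
    intro c hc c' hc' w hw
    have hHc : c ∈ HdOf D := (mem_HdOf D c).2 ⟨i, hi, hc⟩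
    have hHc' : c' ∈ HdOf D := (mem_HdOf D c').2 ⟨i, hi, hc'⟩
    have hop : OpS S.C D.Cl (DgOf S D) v X w := by
      refine ⟨?_, ⟨c, h.zC i hi hc, ?_⟩, ?_⟩
      · rcases hw with hw | hw
        · exact h.io i hi c hc c' hc' v w hw.1 hw.2
        · exact h.io i hi c' hc' c hc v w hw.2 hw.1
      · rcases hw with hw | hw
        · exact Or.inl hw.1
        · exact Or.inr hw.1
      · intro hd
        exfalso
        rcases hw with hw | hw
        · exact h.dg_not_inner hS hd hi hc hc' hw.1 hw.2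
        · exact h.dg_not_inner hS hd hi hc' hc hw.2 hw.1
    have e1 := hab c (h.zC i hi hc) (Or.inl hHc) w hop (by
      rcases hw with hw | hw
      · exact Or.inl hw.1
      · exact Or.inr hw.1)
    have e2 := hab c' (h.zC i hi hc') (Or.inl hHc') w hop (by
      rcases hw with hw | hw
      · exact Or.inr hw.2
      · exact Or.inl hw.2)
    rw [e1, e2]
  -- the other end of a ring edge at v
  have zlab : ∀ i ∈ D.I, v ∈ (D.Z i).vs → ∃ c : Bool, (∀ q ∈ (D.Z i).cells, v ∈ q → α q = c) ∧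
      (∀ e ∈ (D.Z i).ring, e.a = v → OpS S.C D.Cl (DgOf S D) v X e.b → β e.b = c) ∧
      (∀ e ∈ (D.Z i).ring, e.b = v → OpS S.C D.Cl (DgOf S D) v X e.a → β e.a = c) := by
    intro i hi hv
    by_cases hb : (D.Z i).Bare
    · have hcell : (D.Z i).cells = ∅ := by
        unfold Zone.cells
        rw [ZT.cells_bare hb.1, ZT.cells_bare hb.2, Finset.union_empty]
      obtain ⟨e0, e0', hat⟩ := Zone.exists_At hv
      have hbr := fun e he => (h.bare_ring hS hi hb (e := e) he).2.2.2
      have hxy : (D.Z i).x ≠ (D.Z i).y := by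
        have := h.nd i hi
        unfold Zone.vs at this
        rw [List.nodup_cons] at this
        intro h1
        apply this.1
        rw [h1]; simp
      refine ⟨β e0'.b, by rw [hcell]; simp, ?_, ?_⟩
      · intro e he hev _
        have : e = e0' := Zone.a_inj (h.nd i hi) he hat.2.1 (hev.trans hat.2.2.2.symm)
        rw [this]
      · intro e he hev _
        have g1 := hbr e he
        have g2 := hbr e0' hat.2.1
        have g3 := hat.2.2.2
        rcases g1 with ⟨p1, p2⟩ | ⟨p1, p2⟩ <;> rcases g2 with ⟨q1, q2⟩ | ⟨q1, q2⟩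
        · exact absurd (q1.symm.trans (g3.trans (hev.symm.trans p2))) hxy
        · rw [p1, q2]
        · rw [p1, q2]
        · exact absurd ((p2.symm.trans hev).trans (g3.symm.trans q1)) hxy
    · -- a cell at v
      obtain ⟨e0, e0', hat⟩ := Zone.exists_At hv
      obtain ⟨c0, hc0, hh0⟩ := h.right hi hb hat.2.1
      have hvc0 : v ∈ c0 := by rw [← hat.2.2.2]; exact hh0.2.1
      refine ⟨α c0, fun q hq hvq => cells_eq i hi q hq c0 hc0 hvq hvc0, ?_, ?_⟩
      · intro e he hev hop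
        obtain ⟨c, hc, hh⟩ := h.right hi hb he
        have hvc : v ∈ c := by rw [← hev]; exact hh.2.1
        rw [← cells_eq i hi c hc c0 hc0 hvc hvc0]
        symm
        apply hab c (h.zC i hi hc) (Or.inl ((mem_HdOf D c).2 ⟨i, hi, hc⟩)) _ hop
        right; rw [← hev]; exact hh
      · intro e he hev hop
        obtain ⟨c, hc, hh⟩ := h.right hi hb he
        have hvc : v ∈ c := by rw [← hev]; exact hh.1
        rw [← cells_eq i hi c hc c0 hc0 hvc hvc0]
        symm
        apply hab c (h.zC i hi hc) (Or.inl ((mem_HdOf D c).2 ⟨i, hi, hc⟩)) _ hop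
        left; rw [← hev]; exact hh
  -- every relevant open side belongs to a zone at v
  have side_zone : ∀ x, OpS S.C D.Cl (DgOf S D) v X x → ∃ i ∈ D.I, v ∈ (D.Z i).vs ∧
      ∀ c : Bool, ((∀ q ∈ (D.Z i).cells, v ∈ q → α q = c) ∧
      (∀ e ∈ (D.Z i).ring, e.a = v → OpS S.C D.Cl (DgOf S D) v X e.b → β e.b = c) ∧
      (∀ e ∈ (D.Z i).ring, e.b = v → OpS S.C D.Cl (DgOf S D) v X e.a → β e.a = c)) →
      β x = c := by
    intro x hx
    obtain ⟨hcl, ⟨t, ht, hside⟩, _⟩ := id hx
    rcases h.cov t ht with hE | hF | ⟨i, hi, hc⟩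
    · exfalso
      rcases hside with h1 | h1
      · exact (h.inv hS).not_black h1 hcl hE
      · exact (h.inv hS).not_black h1 (fun h2 => hcl (h.symm hS h2)) hE
    · rcases hside with h1 | h1
      · rcases h.f6 t hF v x h1 with h2 | ⟨i, hi, h2⟩
        · exact absurd h2 hcl
        · exact ⟨i, hi, Zone.mem_vs_a h2, fun c hc => hc.2.1 _ h2 rfl hx⟩
      · rcases h.f6 t hF x v h1 with h2 | ⟨i, hi, h2⟩
        · exact absurd (h.symm hS h2) hcl
        · exact ⟨i, hi, Zone.mem_vs_b h2, fun c hc => hc.2.2 _ h2 rfl hx⟩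
    · have hvt : v ∈ t := by
        rcases hside with h1 | h1
        · exact h1.1
        · exact h1.2.1
      refine ⟨i, hi, Zone.cells_vs hc hvt, fun c hcc => ?_⟩
      rw [← hab t ht (Or.inl ((mem_HdOf D t).2 ⟨i, hi, hc⟩)) x hx hside]
      exact hcc.1 t hc hvt
  by_cases hA : v ∈ D.A
  · -- two zones
    obtain ⟨hT, hH, hne, vT, vH⟩ := h.l1 v hA
    obtain ⟨cT, hcT⟩ := zlab _ hT vT
    obtain ⟨cH, hcH⟩ := zlab _ hH vH
    -- the linking edge of a zone
    have link : ∀ i, (i = S.T v ∨ i = S.H v) → ∀ c : Bool,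
        ((∀ q ∈ (D.Z i).cells, v ∈ q → α q = c) ∧
        (∀ e ∈ (D.Z i).ring, e.a = v → OpS S.C D.Cl (DgOf S D) v X e.b → β e.b = c) ∧
        (∀ e ∈ (D.Z i).ring, e.b = v → OpS S.C D.Cl (DgOf S D) v X e.a → β e.a = c)) →
        (X ∈ S.F ∧ α X = c) ∨ (X ∉ S.F ∧ ∃ x, X = {v, x} ∧ x ≠ v ∧ β x = c) := by
      intro i hi c hc
      obtain ⟨e, he, hv, hs, ho, hI⟩ := h.fr_edge hS hA hi
      rw [← hX] at hs
      rcases h.r1 i hI e he X hs with ⟨hXF, hXe, _⟩ | hXe
      · left
        refine ⟨hXF, ?_⟩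
        have hop : ∀ x, (HE X v x ∨ HE X x v) → (v, x) ∉ D.Cl →
            OpS S.C D.Cl (DgOf S D) v X x := by
          intro x hx hcl
          refine ⟨hcl, ⟨X, hS.FC hXF, hx⟩, fun hd => ?_⟩
          exfalso
          have := h.dg_not_face hS hd hXF
          rcases hx with hx | hx
          · exact this.1 hx
          · exact this.2 hx
        rcases hv with hv | hv
        · have hop' := hop e.b (Or.inl (by rw [← hv]; exact hXe)) (by rw [← hv]; exact ho)
          rw [hab X (hS.FC hXF) (Or.inr rfl) e.b hop' (Or.inl (by rw [← hv]; exact hXe))]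
          exact hc.2.1 e he hv hop'
        · have hop' := hop e.a (Or.inr (by rw [← hv]; exact hXe))
            (by rw [← hv]; exact fun h2 => ho (h.symm hS h2))
          rw [hab X (hS.FC hXF) (Or.inr rfl) e.a hop' (Or.inr (by rw [← hv]; exact hXe))]
          exact hc.2.2 e he hv hop'
      · right
        have hXF : X ∉ S.F := fun h1 => h.F_ne_pair hS h1 _ _ hXe
        refine ⟨hXF, ?_⟩
        have hs' : e.s = some {e.a, e.b} := by rw [hs, hXe]
        obtain ⟨⟨q, hq, hq1⟩, j, hj, _, _, q', hq', hq2⟩ := h.dg_cells hS hI he hs' ho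
        have hne' : e.a ≠ e.b := hq2.2.2.1
        rcases hv with hv | hv
        · refine ⟨e.b, by rw [hXe, hv], by rw [← hv]; exact hne'.symm, ?_⟩
          apply hc.2.1 e he hv
          refine ⟨by rw [← hv]; exact ho, ⟨q', h.zC j hj hq', Or.inl (by rw [← hv]; exact hq2)⟩, ?_⟩
          intro _; rw [hXe, hv]
        · refine ⟨e.a, by rw [hXe, hv, Finset.pair_comm], by rw [← hv]; exact hne', ?_⟩
          apply hc.2.2 e he hv
          refine ⟨by rw [← hv]; exact fun h2 => ho (h.symm hS h2),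
            ⟨q', h.zC j hj hq', Or.inr (by rw [← hv]; exact hq2)⟩, ?_⟩
          intro _; rw [hXe, hv, Finset.pair_comm]
    have hcc : cT = cH := by
      rcases link _ (Or.inl rfl) cT hcT with ⟨_, g1⟩ | ⟨g0, x, g1, g1', g2⟩
      · rcases link _ (Or.inr rfl) cH hcH with ⟨_, g3⟩ | ⟨g3, _⟩
        · rw [← g1, ← g3]
        · exact absurd ‹X ∈ S.F› g3
      · rcases link _ (Or.inr rfl) cH hcH with ⟨g3, _⟩ | ⟨_, x', g3, g3', g4⟩
        · exact absurd g3 g0
        · have : x = x' := by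
            have h5 : x ∈ ({v, x'} : Finset Pt) := by rw [← g3, g1]; simp
            simp only [Finset.mem_insert, Finset.mem_singleton] at h5
            rcases h5 with h5 | h5
            · exact absurd h5 g1'
            · exact h5
          subst this
          rw [← g2, ← g4]
    subst hcc
    have hboth : ∀ i ∈ D.I, v ∈ (D.Z i).vs → ((∀ q ∈ (D.Z i).cells, v ∈ q → α q = cT) ∧
        (∀ e ∈ (D.Z i).ring, e.a = v → OpS S.C D.Cl (DgOf S D) v X e.b → β e.b = cT) ∧
        (∀ e ∈ (D.Z i).ring, e.b = v → OpS S.C D.Cl (DgOf S D) v X e.a → β e.a = cT)) := by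
      intro i hi hv
      rcases h.l1' v hA i hi hv with rfl | rfl
      · exact hcT
      · exact hcH
    refine ⟨cT, ?_, ?_⟩
    · intro q hq hqX hvq
      rcases hqX with hqH | rfl
      · obtain ⟨i, hi, hc⟩ := (mem_HdOf D q).1 hqH
        exact (hboth i hi (Zone.cells_vs hc hvq)).1 q hc hvq
      · rcases link _ (Or.inl rfl) cT hcT with ⟨_, g1⟩ | ⟨g0, x, g1, _, g2⟩
        · exact g1
        · have h3 := hS.full.cx.three _ hq
          rw [g1] at h3
          have := pair_card_lt v x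
          omega
    · intro x hx
      obtain ⟨i, hi, hv, hh⟩ := side_zone x hx
      exact hh cT (hboth i hi hv)
  · -- at most one zone
    have hX0 : X = ∅ := frOf_non hA
    by_cases hz : ∃ i ∈ D.I, v ∈ (D.Z i).vs
    · obtain ⟨i, hi, hv⟩ := hz
      obtain ⟨c, hc⟩ := zlab i hi hv
      refine ⟨c, ?_, ?_⟩
      · intro q hq hqX hvq
        rcases hqX with hqH | rfl
        · obtain ⟨j, hj, hcj⟩ := (mem_HdOf D q).1 hqH
          have := h.l2 v hA i hi j hj hv (Zone.cells_vs hcj hvq)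
          subst this
          exact hc.1 q hcj hvq
        · rw [hX0] at hvq; simp at hvq
      · intro x hx
        obtain ⟨j, hj, hvj, hh⟩ := side_zone x hx
        have := h.l2 v hA i hi j hj hv hvj
        subst this
        exact hh c hc
    · refine ⟨true, ?_, ?_⟩
      · intro q hq hqX hvq
        rcases hqX with hqH | rfl
        · obtain ⟨j, hj, hcj⟩ := (mem_HdOf D q).1 hqH
          exact absurd ⟨j, hj, Zone.cells_vs hcj hvq⟩ hz
        · rw [hX0] at hvq; simp at hvq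
      · intro x hx
        obtain ⟨j, hj, hvj, hh⟩ := side_zone x hx
        exact absurd ⟨j, hj, hvj⟩ hz

/-- the static data of the finish -/
theorem St.fst (h : St S D) (hS : StaOk S) :
    FSt S.P S.C D.E (HdOf D) S.F D.Cl (DgOf S D) (frOf D) where
  full := hS.full
  reach := h.reach
  hd := by
    intro q hq
    obtain ⟨i, hi, hc⟩ := (mem_HdOf D q).1 hq
    exact h.zC i hi hc
  fc := hS.FC
  fE := fun f hf hE => h.EF f hE hf
  fH := by
    intro f hf hH
    obtain ⟨i, hi, hc⟩ := (mem_HdOf D f).1 hH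
    exact (h.zE i hi f hc).2 hf
  cov := by
    intro q hq
    rcases h.cov q hq with h1 | h1 | ⟨i, hi, h1⟩
    · exact Or.inl h1
    · exact Or.inr (Or.inr h1)
    · exact Or.inr (Or.inl ((mem_HdOf D q).2 ⟨i, hi, h1⟩))
  dg := fun a b hab => ⟨h.dg_symm hS hab, h.dg_hard hS hab⟩
  fr2 := fun v _ hF => h.fr2 hS hF
  frv := fun v _ hF => h.frv hS hF
  lk := fun v _ => h.lk hS v

end Pool.Agent.RFX

end

section

set_option autoImplicit false

/-!
# RFX/StFin2 : acceptance, CUT, FR, free links, closed sides (MP_72a26e_co)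
-/

namespace Pool.Agent.RFX

variable {S : Sta} {D : Dyn}

/-- faces of the finish are faces of the state -/
theorem St.fac_fc (h : St S D) (hS : StaOk S) {f : Finset Pt} (hf : Fac S.F (DgOf S D) f) :
    Fc S D f := by
  rcases hf with hf | ⟨a, b, hab, rfl⟩
  · exact Or.inl hf
  · rw [h.mem_DgOf hS] at hab
    obtain ⟨_, i, hi, e, he, _, _, hs⟩ := hab
    exact Or.inr ⟨i, hi, e, he, hs⟩

/-- faces of the state are faces of the finish, or closed digons -/
theorem St.fc_fac (h : St S D) (hS : StaOk S) {f : Finset Pt} (hf : Fc S D f) :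
    Fac S.F (DgOf S D) f ∨ ∃ a b, (a, b) ∈ D.Cl ∧ f = {a, b} := by
  rcases hf with hf | ⟨i, hi, e, he, hs⟩
  · exact Or.inl (Or.inl hf)
  · rcases h.r1 i hi e he f hs with ⟨h1, _⟩ | h1
    · exact Or.inl (Or.inl h1)
    · by_cases hcl : (e.a, e.b) ∈ D.Cl
      · exact Or.inr ⟨e.a, e.b, hcl, h1⟩
      · left; right
        refine ⟨e.a, e.b, ?_, h1⟩
        rw [h.mem_DgOf hS]
        exact ⟨hcl, i, hi, e, he, rfl, rfl, by rw [hs, h1]⟩

/-- constant labellings -/
def HConst (S : Sta) (D : Dyn) : Prop :=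
  ∀ chi l, Lab S D chi l → ∃ c, (∀ f, Fc S D f → chi f = c) ∧
    ∀ v ∈ S.P, v ∉ D.Fr → l v = c

theorem St.cut (h : St S D) (hS : StaOk S) (hc : HConst S D) (l : Pt → Bool)
    (hl : ∀ a b, (a, b) ∈ D.Cl → l a = l b)
    (hf : ∀ f, Fac S.F (DgOf S D) f → ∀ u ∈ f, ∀ v ∈ f, u ∉ D.Fr → v ∉ D.Fr → frOf D u ≠ f →
      frOf D v ≠ f → l u = l v) :
    ∀ u ∈ S.P, ∀ v ∈ S.P, u ∉ D.Fr → v ∉ D.Fr → l u = l v := by
  classical
  set chi : Finset Pt → Bool := fun f =>
    if hh : ∃ u, u ∈ f ∧ u ∉ D.Fr ∧ frOf D u ≠ f then l (Classical.choose hh) else true with hchi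
  obtain ⟨c, _, h2⟩ := hc chi l ⟨hl, by
    intro v f hff hacc
    have hv := hacc.1
    rw [h.acc_iff hv] at hacc
    have hh : ∃ u, u ∈ f ∧ u ∉ D.Fr ∧ frOf D u ≠ f := ⟨v, hv, hacc⟩
    have e1 : chi f = l (Classical.choose hh) := by
      rw [hchi]; simp only; rw [dif_pos hh]
    have hsp := Classical.choose_spec hh
    rw [e1]
    rcases h.fc_fac hS hff with h3 | ⟨a, b, hab, h3⟩
    · exact hf f h3 _ hsp.1 v hv hsp.2.1 hacc.1 hsp.2.2 hacc.2
    · have m1 : Classical.choose hh ∈ ({a, b} : Finset Pt) := by rw [← h3]; exact hsp.1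
      have m2 : v ∈ ({a, b} : Finset Pt) := by rw [← h3]; exact hv
      have hlab := hl a b hab
      simp only [Finset.mem_insert, Finset.mem_singleton] at m1 m2
      rcases m1 with m1 | m1 <;> rcases m2 with m2 | m2
      · rw [m1, m2]
      · rw [m1, m2]; exact hlab
      · rw [m1, m2]; exact hlab.symm
      · rw [m1, m2]⟩
  intro u hu v hv huF hvF
  rw [h2 u hu huF, h2 v hv hvF]

/-- there is a point which is no free link -/
theorem St.exists_nonfree (h : St S D) (hS : StaOk S) (h3 : 3 ≤ S.P.card) :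
    ∃ v ∈ S.P, v ∉ D.Fr := by
  classical
  obtain ⟨u, hinj⟩ := exists_generic S.P
  have hne : S.C.Nonempty := by
    by_contra hcon
    rw [Finset.not_nonempty_iff_eq_empty] at hcon
    have := hS.full.V_eq
    rw [hcon] at this
    unfold V at this
    simp only [Finset.biUnion_empty] at this
    rw [← this] at h3
    simp at h3
  obtain ⟨v, hv, _, t, _, w, _, h1⟩ := hS.full.last u hinj S.C (Finset.Subset.refl _) hne
    (fun _ _ t ht _ => ht)
  refine ⟨v, hv, fun hF => ?_⟩
  exact h.l4 v hF w ((h.inv hS).hull v w h1)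

theorem St.face_acc (h : St S D) (hS : StaOk S) (h3 : 3 ≤ S.P.card) (hc : HConst S D)
    {f : Finset Pt} (hf : Fac S.F (DgOf S D) f) : ∃ a ∈ f, a ∉ D.Fr ∧ frOf D a ≠ f := by
  classical
  by_contra hcon
  push Not at hcon
  obtain ⟨c, h1, h2⟩ := hc (fun g => decide (g = f)) (fun _ => false) ⟨fun _ _ _ => rfl, by
    intro v g hg hacc
    rw [decide_eq_false_iff_not]
    rintro rfl
    have hv := hacc.1
    rw [h.acc_iff hv] at hacc
    exact hacc.2 (hcon v hv hacc.1)⟩
  have e1 := h1 f (h.fac_fc hS hf)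
  rw [decide_eq_true rfl] at e1
  obtain ⟨v, hv, hvF⟩ := h.exists_nonfree hS h3
  have e2 := h2 v hv hvF
  rw [← e1] at e2
  exact Bool.false_ne_true e2

theorem St.free_face (h : St S D) (hS : StaOk S) {w : Pt} (hw : w ∈ D.Fr) :
    ∃ f, Fac S.F (DgOf S D) f ∧ w ∈ f ∧ frOf D w ≠ f := by
  have hA := h.FrA hw
  obtain ⟨hT, _, _, vT, _⟩ := h.l1 w hA
  obtain ⟨e, e', hat⟩ := Zone.exists_At vT
  obtain ⟨hne, h5⟩ := h.l5 w hw
  have key : ∃ e ∈ (D.Z (S.T w)).ring, (e.a = w ∨ e.b = w) ∧ e.s = some (D.fp w) := by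
    rcases h5 _ (Or.inl rfl) e e' hat with ⟨h1, _⟩ | ⟨_, h1⟩
    · exact ⟨e, hat.1, Or.inr hat.2.2.1, h1⟩
    · exact ⟨e', hat.2.1, Or.inl hat.2.2.2, h1⟩
  obtain ⟨e, he, hv, hs⟩ := key
  have ho : (e.a, e.b) ∉ D.Cl := by
    rcases hv with hv | hv
    · rw [hv]; exact h.l4 w hw _
    · rw [hv]; exact fun h2 => h.l4 w hw _ (h.symm hS h2)
  refine ⟨D.fp w, ?_, ?_, ?_⟩
  · rcases h.r1 _ hT e he _ hs with ⟨h1, _⟩ | h1
    · exact Or.inl h1
    · right
      refine ⟨e.a, e.b, ?_, h1⟩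
      rw [h.mem_DgOf hS]
      exact ⟨ho, _, hT, e, he, rfl, rfl, by rw [hs, h1]⟩
  · rcases h.r1 _ hT e he _ hs with ⟨_, h1, _⟩ | h1
    · rcases hv with rfl | rfl
      · exact h1.1
      · exact h1.2.1
    · rw [h1]
      rcases hv with rfl | rfl <;> simp
  · rw [frOf_free hA hw]; exact hne.symm

/-- what lies on the zone side of a ring edge -/
theorem St.zone_side (h : St S D) (hS : StaOk S) {k : ZI} (hk : k ∈ D.I) {e : RE}
    (he : e ∈ (D.Z k).ring) {t : Finset Pt} (ht : t ∈ S.C) (hte : HE t e.b e.a) :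
    t ∈ (D.Z k).cells ∨ ((D.Z k).Bare ∧ t ∈ S.F ∧ ∃ e' ∈ (D.Z k).ring, e'.a = e.b ∧
      e'.b = e.a ∧ e'.s = some t) := by
  by_cases hb : (D.Z k).Bare
  · right
    obtain ⟨f, hf, f', hf', h1, h2⟩ := h.bare k hk hb
    have e1 : (⟨(D.Z k).x, (D.Z k).y, some f⟩ : RE) ∈ (D.Z k).ring := by
      simp [Zone.ring, h1, ZT.ring]
    have e2 : (⟨(D.Z k).y, (D.Z k).x, some f'⟩ : RE) ∈ (D.Z k).ring := by
      simp [Zone.ring, h2, ZT.ring]
    have g1 := h.r1 k hk _ e1 f rfl
    have g2 := h.r1 k hk _ e2 f' rfl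
    rcases g1 with ⟨_, g1, g1'⟩ | g1
    swap
    · exact absurd g1 (h.F_ne_pair hS hf _ _)
    rcases g2 with ⟨_, g2, g2'⟩ | g2
    swap
    · exact absurd g2 (h.F_ne_pair hS hf' _ _)
    have he' := he
    simp only [Zone.ring, h1, h2, ZT.ring, List.mem_append, List.mem_singleton] at he'
    rcases he' with rfl | rfl
    · have : t = f' := h.side_unique hS ht (hS.FC hf') hte g2
      subst this
      exact ⟨hb, hf', _, e2, rfl, rfl, rfl⟩
    · have : t = f := h.side_unique hS ht (hS.FC hf) hte g1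
      subst this
      exact ⟨hb, hf, _, e1, rfl, rfl, rfl⟩
  · left
    obtain ⟨c, hc, h1⟩ := h.right hk hb he
    rw [h.side_unique hS ht (h.zC k hk hc) hte h1]
    exact hc

/-- what lies on the face side of an open ring edge -/
theorem St.face_side (h : St S D) (hS : StaOk S) {k : ZI} (hk : k ∈ D.I) {e : RE}
    (he : e ∈ (D.Z k).ring) (ho : (e.a, e.b) ∉ D.Cl) {t : Finset Pt} (ht : t ∈ S.C)
    (hte : HE t e.a e.b) :
    (t ∈ S.F ∧ e.s = some t) ∨ (e.s = some {e.a, e.b} ∧ ∃ m ∈ D.I, m ≠ k ∧ t ∈ (D.Z m).cells) := by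
  cases hs : e.s with
  | none => exact absurd (h.r2 k hk e he hs) ho
  | some g =>
    rcases h.r1 k hk e he g hs with ⟨h1, h2, _⟩ | h1
    · left
      have : t = g := h.side_unique hS ht (hS.FC h1) hte h2
      subst this
      exact ⟨h1, rfl⟩
    · right
      have hs' : e.s = some {e.a, e.b} := by rw [hs, h1]
      obtain ⟨_, j, hj, hji, _, c, hc, h3⟩ := h.dg_cells hS hk he hs' ho
      refine ⟨by rw [h1], j, hj, hji, ?_⟩
      rw [h.side_unique hS ht (h.zC j hj hc) hte h3]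
      exact hc

/-- CLOSED SIDES: a face f accepted by v has a closed side at v, or v has no closed pair and accepts
no other face -/
theorem St.closed_side (h : St S D) (hS : StaOk S) (hG : Gen S.P) {f : Finset Pt} (hf : f ∈ S.F)
    {v : Pt} (hv : v ∈ f) (hFr : v ∉ D.Fr) (hfr : frOf D v ≠ f) :
    (∃ x, (v, x) ∈ D.Cl ∧ (HE f v x ∨ HE f x v)) ∨
      ((∀ x, (v, x) ∉ D.Cl) ∧ ∀ f', Fac S.F (DgOf S D) f' → v ∈ f' → frOf D v ≠ f' → f' = f) := by
  classical
  have hfC := hS.FC hf
  have hf3 := hS.full.cx.three f hfC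
  have hcp := hS.full.cx.cp f hfC
  obtain ⟨q, hq⟩ := hcp.exists_succ hf3 hv
  obtain ⟨p, hp⟩ := hcp.exists_pred hf3 hv
  by_cases c1 : (v, q) ∈ D.Cl
  · exact Or.inl ⟨q, c1, Or.inl hq⟩
  by_cases c2 : (v, p) ∈ D.Cl
  · exact Or.inl ⟨p, c2, Or.inr hp⟩
  right
  have c2' : (p, v) ∉ D.Cl := fun hh => c2 (h.symm hS hh)
  -- the two ring edges
  obtain ⟨i, hi, hei⟩ : ∃ i ∈ D.I, (⟨p, v, some f⟩ : RE) ∈ (D.Z i).ring := by
    rcases h.f6 f hf p v hp with h1 | h1
    · exact absurd h1 c2'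
    · exact h1
  obtain ⟨j, hj, hej⟩ : ∃ j ∈ D.I, (⟨v, q, some f⟩ : RE) ∈ (D.Z j).ring := by
    rcases h.f6 f hf v q hq with h1 | h1
    · exact absurd h1 c1
    · exact h1
  have hvi : v ∈ (D.Z i).vs := Zone.mem_vs_b hei
  have hvj : v ∈ (D.Z j).vs := Zone.mem_vs_a hej
  -- the other ring edges
  obtain ⟨_, e1, at1⟩ := Zone.exists_At hvi
  have at1' : At (D.Z i) v ⟨p, v, some f⟩ e1 := ⟨hei, at1.2.1, rfl, at1.2.2.2⟩
  obtain ⟨e2, _, at2⟩ := Zone.exists_At hvj
  have at2' : At (D.Z j) v e2 ⟨v, q, some f⟩ := ⟨at2.1, hej, at2.2.2.1, rfl⟩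
  -- every zone at v is i or j
  have hzones : ∀ k ∈ D.I, v ∈ (D.Z k).vs → k = i ∨ k = j := by
    intro k hk hvk
    by_cases hA : v ∈ D.A
    · rw [frOf_att hA hFr] at hfr
      have i1 := h.l1' v hA i hi hvi
      have j1 := h.l1' v hA j hj hvj
      have k1 := h.l1' v hA k hk hvk
      have hij : i ≠ j := by
        rintro rfl
        have hu := At.unique (h.nd i hi) at1' at2'
        rcases h.l6 v hA hFr i i1 _ _ at1' with ⟨g1, _⟩ | ⟨_, g2⟩
        · simp only [Option.some.injEq] at g1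
          exact hfr g1.symm
        · rw [hu.2] at g2
          simp only [Option.some.injEq] at g2
          exact hfr g2.symm
      rcases i1 with i1 | i1 <;> rcases j1 with j1 | j1 <;> rcases k1 with k1 | k1
      · exact absurd (i1.trans j1.symm) hij
      · exact absurd (i1.trans j1.symm) hij
      · exact Or.inl (k1.trans i1.symm)
      · exact Or.inr (k1.trans j1.symm)
      · exact Or.inr (k1.trans j1.symm)
      · exact Or.inl (k1.trans i1.symm)
      · exact absurd (i1.trans j1.symm) hij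
      · exact absurd (i1.trans j1.symm) hij
    · exact Or.inl (h.l2 v hA k hk i hi hvk hvi)
  -- the ring edges at v in these zones have the faces f or fr v behind them, and are open
  have hedge : ∀ k ∈ D.I, v ∈ (D.Z k).vs → ∀ e ∈ (D.Z k).ring, (e.a = v ∨ e.b = v) →
      (e.a, e.b) ∉ D.Cl ∧ (e.s = some f ∨ (v ∈ D.A ∧ e.s = some (frOf D v))) := by
    intro k hk hvk e he hev
    by_cases hA : v ∈ D.A
    · rw [frOf_att hA hFr] at hfr ⊢
      have hkTH := h.l1' v hA k hk hvk
      have open_fr : ∀ e ∈ (D.Z k).ring, (e.a = v ∨ e.b = v) → e.s = some (D.fref v) →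
          (e.a, e.b) ∉ D.Cl := fun e he hev hs => h.fref_open hS hA hFr hk he hs hev
      rcases hzones k hk hvk with rfl | rfl
      · have hl6 := h.l6 v hA hFr k hkTH _ _ at1'
        have g2 : e1.s = some (D.fref v) := by
          rcases hl6 with ⟨g1, _⟩ | ⟨_, g2⟩
          · simp only [Option.some.injEq] at g1
            exact absurd g1.symm hfr
          · exact g2
        rcases hev with hev | hev
        · have : e = e1 := Zone.a_inj (h.nd k hk) he at1'.2.1 (hev.trans at1'.2.2.2.symm)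
          subst this
          exact ⟨open_fr e he (Or.inl hev) g2, Or.inr ⟨hA, g2⟩⟩
        · have : e = ⟨p, v, some f⟩ := Zone.b_inj (h.nd k hk) he hei (hev.trans rfl)
          subst this
          exact ⟨c2', Or.inl rfl⟩
      · have hl6 := h.l6 v hA hFr k hkTH _ _ at2'
        have g2 : e2.s = some (D.fref v) := by
          rcases hl6 with ⟨g1, _⟩ | ⟨_, g2⟩
          · exact g1
          · simp only [Option.some.injEq] at g2
            exact absurd g2.symm hfr
        rcases hev with hev | hev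
        · have : e = ⟨v, q, some f⟩ := Zone.a_inj (h.nd k hk) he hej (hev.trans rfl)
          subst this
          exact ⟨c1, Or.inl rfl⟩
        · have : e = e2 := Zone.b_inj (h.nd k hk) he at2'.1 (hev.trans at2'.2.2.1.symm)
          subst this
          exact ⟨open_fr e he (Or.inr hev) g2, Or.inr ⟨hA, g2⟩⟩
    · have hki := h.l2 v hA k hk i hi hvk hvi
      subst hki
      have hkj := h.l2 v hA j hj k hk hvj hvk
      subst hkj
      rcases hev with hev | hev
      · have : e = ⟨v, q, some f⟩ := Zone.a_inj (h.nd _ hk) he hej (hev.trans rfl)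
        subst this
        exact ⟨c1, Or.inl rfl⟩
      · have : e = ⟨p, v, some f⟩ := Zone.b_inj (h.nd _ hk) he hei (hev.trans rfl)
        subst this
        exact ⟨c2', Or.inl rfl⟩
  -- the two sides at v of the face fr v
  have hfrface : v ∈ D.A → frOf D v ∈ S.F → (∃ e ∈ (D.Z i).ring, e.a = v ∧
      HE (frOf D v) v e.b) ∧ (∃ e ∈ (D.Z j).ring, e.b = v ∧ HE (frOf D v) e.a v) := by
    intro hA hX
    have g1 : e1.s = some (frOf D v) := by
      rcases (hedge i hi hvi e1 at1'.2.1 (Or.inl at1'.2.2.2)).2 with g | g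
      · exfalso
        have i1 := h.l1' v hA i hi hvi
        rw [frOf_att hA hFr] at hfr
        rcases h.l6 v hA hFr i i1 _ _ at1' with ⟨g1, _⟩ | ⟨_, g2⟩
        · simp only [Option.some.injEq] at g1
          exact hfr g1.symm
        · rw [g] at g2
          simp only [Option.some.injEq] at g2
          exact hfr g2.symm
      · exact g.2
    have g2 : e2.s = some (frOf D v) := by
      rcases (hedge j hj hvj e2 at2'.1 (Or.inr at2'.2.2.1)).2 with g | g
      · exfalso
        have j1 := h.l1' v hA j hj hvj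
        rw [frOf_att hA hFr] at hfr
        rcases h.l6 v hA hFr j j1 _ _ at2' with ⟨g1, _⟩ | ⟨_, g2⟩
        · rw [g] at g1
          simp only [Option.some.injEq] at g1
          exact hfr g1.symm
        · simp only [Option.some.injEq] at g2
          exact hfr g2.symm
      · exact g.2
    constructor
    · refine ⟨e1, at1'.2.1, at1'.2.2.2, ?_⟩
      rcases h.r1 i hi e1 at1'.2.1 _ g1 with ⟨_, k1, _⟩ | k1
      · rw [at1'.2.2.2] at k1; exact k1
      · exact absurd k1 (h.F_ne_pair hS hX _ _)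
    · refine ⟨e2, at2'.1, at2'.2.2.1, ?_⟩
      rcases h.r1 j hj e2 at2'.1 _ g2 with ⟨_, k1, _⟩ | k1
      · rw [at2'.2.2.1] at k1; exact k1
      · exact absurd k1 (h.F_ne_pair hS hX _ _)
  -- the star of v
  set T0 : Finset (Finset Pt) := S.C.filter (fun c => v ∈ c ∧
    ((∃ k ∈ D.I, c ∈ (D.Z k).cells) ∨ c = f ∨ (v ∈ D.A ∧ c = frOf D v ∧ c ∈ S.F))) with hT0
  have hcl : ∀ s ∈ T0, ∀ t ∈ S.C, ∀ a, (HE s a v ∧ HE t v a) ∨ (HE s v a ∧ HE t a v) →
      t ∈ T0 := by
    intro s hs t ht a hst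
    rw [hT0, Finset.mem_filter] at hs ⊢
    obtain ⟨hsC, hvs, hs⟩ := hs
    have hvt : v ∈ t := by
      rcases hst with hst | hst
      · exact hst.2.1
      · exact hst.2.2.1
    refine ⟨ht, hvt, ?_⟩
    -- t is on the zone side of a ring edge at v
    have zside : ∀ k ∈ D.I, ∀ e ∈ (D.Z k).ring, (e.a = v ∨ e.b = v) → HE t e.b e.a →
        ((∃ k ∈ D.I, t ∈ (D.Z k).cells) ∨ t = f ∨ (v ∈ D.A ∧ t = frOf D v ∧ t ∈ S.F)) := by
      intro k hk e he hev hte
      rcases h.zone_side hS hk he ht hte with g | ⟨_, g1, e', he', a1, a2, a3⟩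
      · exact Or.inl ⟨k, hk, g⟩
      · have hvk : v ∈ (D.Z k).vs := by
          rcases hev with hev | hev
          · rw [← hev]; exact Zone.mem_vs_a he
          · rw [← hev]; exact Zone.mem_vs_b he
        have hev' : e'.a = v ∨ e'.b = v := by
          rcases hev with hev | hev
          · right; rw [a2]; exact hev
          · left; rw [a1]; exact hev
        rcases (hedge k hk hvk e' he' hev').2 with g2 | ⟨g2, g3⟩
        · rw [a3, Option.some.injEq] at g2
          exact Or.inr (Or.inl g2)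
        · rw [a3, Option.some.injEq] at g3
          exact Or.inr (Or.inr ⟨g2, g3, g1⟩)
    -- t is on the face side of a ring edge at v
    have fside : ∀ k ∈ D.I, ∀ e ∈ (D.Z k).ring, (e.a = v ∨ e.b = v) → HE t e.a e.b →
        ((∃ k ∈ D.I, t ∈ (D.Z k).cells) ∨ t = f ∨ (v ∈ D.A ∧ t = frOf D v ∧ t ∈ S.F)) := by
      intro k hk e he hev hte
      have hvk : v ∈ (D.Z k).vs := by
        rcases hev with hev | hev
        · rw [← hev]; exact Zone.mem_vs_a he
        · rw [← hev]; exact Zone.mem_vs_b he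
      have ho := hedge k hk hvk e he hev
      rcases h.face_side hS hk he ho.1 ht hte with ⟨g1, g2⟩ | ⟨_, m, hm, _, g⟩
      · rcases ho.2 with g3 | ⟨g3, g4⟩
        · rw [g2, Option.some.injEq] at g3
          exact Or.inr (Or.inl g3)
        · rw [g2, Option.some.injEq] at g4
          exact Or.inr (Or.inr ⟨g3, g4, g1⟩)
      · exact Or.inl ⟨m, hm, g⟩
    rcases hs with ⟨k, hk, hsk⟩ | rfl | ⟨hA, hsX, hsF⟩
    · -- zone cell
      rcases hst with ⟨h1, h2⟩ | ⟨h1, h2⟩
      · rcases h.side hk hsk h1 with ⟨e, he, a1, a2⟩ | ⟨c', hc', h3⟩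
        · exact fside k hk e he (Or.inl a1) (by rw [a1, a2]; exact h2)
        · rw [h.side_unique hS ht (h.zC k hk hc') h2 h3]
          exact Or.inl ⟨k, hk, hc'⟩
      · rcases h.side hk hsk h1 with ⟨e, he, a1, a2⟩ | ⟨c', hc', h3⟩
        · exact fside k hk e he (Or.inr a2) (by rw [a1, a2]; exact h2)
        · rw [h.side_unique hS ht (h.zC k hk hc') h2 h3]
          exact Or.inl ⟨k, hk, hc'⟩
    · -- the face f
      rcases hst with ⟨h1, h2⟩ | ⟨h1, h2⟩
      · have : a = p := h1.pred_unique hp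
        subst this
        exact zside i hi _ hei (Or.inr rfl) h2
      · have : a = q := h1.succ_unique hq
        subst this
        exact zside j hj _ hej (Or.inl rfl) h2
    · -- the face fr v
      rw [hsX] at hst hsF
      obtain ⟨⟨e3, he3, b1, b2⟩, ⟨e4, he4, b3, b4⟩⟩ := hfrface hA hsF
      rcases hst with ⟨h1, h2⟩ | ⟨h1, h2⟩
      · have : a = e4.a := h1.pred_unique b4
        subst this
        exact zside j hj e4 he4 (Or.inr b3) (by rw [b3]; exact h2)
      · have : a = e3.b := h1.succ_unique b2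
        subst this
        exact zside i hi e3 he3 (Or.inl b1) (by rw [b1]; exact h2)
  have hstar := hS.full.star hG T0 (by rw [hT0]; exact Finset.filter_subset _ _)
    (fun s hs => by rw [hT0, Finset.mem_filter] at hs; exact hs.2.1)
    ⟨f, by rw [hT0, Finset.mem_filter]; exact ⟨hfC, hv, Or.inr (Or.inl rfl)⟩⟩ hcl
  -- all sides at v are open
  have hopen : ∀ t ∈ S.C, ∀ x, (HE t v x ∨ HE t x v) → (v, x) ∉ D.Cl := by
    intro t ht x hx
    have hvt : v ∈ t := by
      rcases hx with hx | hx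
      · exact hx.1
      · exact hx.2.1
    have htT := hstar t ht hvt
    rw [hT0, Finset.mem_filter] at htT
    obtain ⟨_, _, hs⟩ := htT
    rcases hs with ⟨k, hk, htk⟩ | rfl | ⟨hA, htX, htF⟩
    · have hvk : v ∈ (D.Z k).vs := Zone.cells_vs htk hvt
      rcases hx with hx | hx
      · rcases h.side hk htk hx with ⟨e, he, a1, a2⟩ | ⟨c', hc', h3⟩
        · have := (hedge k hk hvk e he (Or.inr a2)).1
          rw [a1, a2] at this
          exact fun hh => this (h.symm hS hh)
        · exact h.io k hk t htk c' hc' v x hx h3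
      · rcases h.side hk htk hx with ⟨e, he, a1, a2⟩ | ⟨c', hc', h3⟩
        · have := (hedge k hk hvk e he (Or.inl a1)).1
          rw [a1, a2] at this
          exact this
        · exact h.io k hk c' hc' t htk v x h3 hx
    · rcases hx with hx | hx
      · rw [hx.succ_unique hq]; exact c1
      · rw [hx.pred_unique hp]; exact c2
    · rw [htX] at hx htF
      obtain ⟨⟨e3, he3, b1, b2⟩, ⟨e4, he4, b3, b4⟩⟩ := hfrface hA htF
      rcases hx with hx | hx
      · rw [hx.succ_unique b2]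
        have := (hedge i hi hvi e3 he3 (Or.inl b1)).1
        rw [b1] at this
        exact this
      · rw [hx.pred_unique b4]
        have := (hedge j hj hvj e4 he4 (Or.inr b3)).1
        rw [b3] at this
        exact fun hh => this (h.symm hS hh)
  constructor
  · intro x hx
    have hI := h.inv hS
    have hP3 : 3 ≤ S.P.card := le_trans hf3 (Finset.card_le_card (hS.full.sub hfC))
    rcases hI.real v x hx with h1 | ⟨t, ht, h1⟩
    · rcases hI.real x v (h.symm hS hx) with h2 | ⟨t, ht, h2⟩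
      · exact h1.not_both h2 hP3
      · exact hopen t ht x (Or.inr h2) hx
    · exact hopen t ht x (Or.inl h1) hx
  · intro f' hf' hvf' hfr'
    rcases hf' with hf' | ⟨a, b, hab, rfl⟩
    · have htT := hstar f' (hS.FC hf') hvf'
      rw [hT0, Finset.mem_filter] at htT
      obtain ⟨_, _, hs⟩ := htT
      rcases hs with ⟨k, hk, htk⟩ | hs | ⟨_, hs, _⟩
      · exact absurd hf' (h.zE k hk f' htk).2
      · exact hs
      · exact absurd hs.symm hfr'
    · exfalso
      -- a digon at v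
      have key : ∀ x, (v, x) ∈ DgOf S D → frOf D v ≠ {v, x} → False := by
        intro x hvx hne
        obtain ⟨hcl1, k, hk, e, he, a1, a2, a3⟩ := (h.mem_DgOf hS v x).1 hvx
        have hvk : v ∈ (D.Z k).vs := by rw [← a1]; exact Zone.mem_vs_a he
        rcases (hedge k hk hvk e he (Or.inl a1)).2 with g | ⟨_, g⟩
        · rw [a3, Option.some.injEq] at g
          exact h.F_ne_pair hS hf _ _ g.symm
        · rw [a3, Option.some.injEq] at g
          exact hne g.symm
      simp only [Finset.mem_insert, Finset.mem_singleton] at hvf'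
      rcases hvf' with rfl | rfl
      · exact key b hab hfr'
      · exact key a (h.dg_symm hS hab) (by rw [Finset.pair_comm]; exact hfr')

/-- THE FINISH for states -/
theorem St.finish (h : St S D) (hS : StaOk S) (hG : Gen S.P) (h3 : 3 ≤ S.P.card)
    (hc : HConst S D) :
    ∃ C' Cl', Full S.P C' ∧ Reach S.P C' D.E Cl' ∧
      (∀ a ∈ S.P, ∀ b ∈ S.P, Joined Cl' a b) ∧
      (∀ v ∈ S.P, ConnAt C' D.E (HdOf D) Cl' v) ∧
      (∀ p ∈ openSides C' Cl', ∃ i ∈ D.I, p.1 ∈ (D.Z i).vs) ∧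
      HdOf D ⊆ C' ∧
      (∀ q ∈ C', q ∉ D.E → q ∉ HdOf D → (∃ f ∈ S.F, q ⊆ f) ∧ ∃ a b, HE q a b ∧ (a, b) ∈ Cl') := by
  obtain ⟨C', Cl', g1, g2, g3, g4, g5, g6, g7⟩ := Pool.Agent.RFX.finish (h.fst hS) (by omega) D.Fr
    (fun l hl hf => h.cut hS hc l hl hf) (fun f hf => h.face_acc hS h3 hc hf)
    (fun w hw => h.free_face hS hw)
    (fun f hf v hv hvF hfr => h.closed_side hS hG hf hv hvF hfr)
  refine ⟨C', Cl', g1, g2, g3, g4, ?_, g6, g7⟩
  rintro ⟨a, b⟩ hp
  have h5 := g5 hp
  rw [mem_openSides] at h5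
  obtain ⟨⟨t, ht, hab⟩, hcl⟩ := h5
  rcases h.cov t ht with hE | hF | ⟨i, hi, hc⟩
  · exact absurd hE ((h.inv hS).not_black hab hcl)
  · rcases h.f6 t hF a b hab with h6 | ⟨i, hi, h6⟩
    · exact absurd h6 hcl
    · exact ⟨i, hi, Zone.mem_vs_a h6⟩
  · exact ⟨i, hi, Zone.cells_vs hc hab.1⟩

end Pool.Agent.RFX

end
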