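import Mathlib
import Pool.Agent.RFM.P07
import Pool.Agent.RFM.P08
import Pool.Agent.RFM.P09
import Pool.Agent.RFM.P10
import Pool.Agent.RFM.P11

set_option autoImplicit false

/-!
# RFM/P13 (MP_72a26e_co): the files RFX/NFRchG, RFX/FunTree, RFX/FunGeo, RFX/SleeveCore, RFX/Sleeve, RFX/Fun, RFX/Local, RFX/Asm, merged to save build time
-/

section

set_option autoImplicit false

/-!
# RFX/NFRchG : the petal triangles are reachable (MP_72a26e_co) -- helper25

`ClOf P E` darts of the hull and of the cells of `E`; `petT` triangles of a petal; `allP` all petals;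
`E0P` all petal triangles. `Reach P C E0P (ClOf P E0P)`.
-/

namespace Pool.Agent.RFX

variable {P : Finset Pt} {C Bs : Finset (Finset Pt)} {lab : Pt → ℕ}

/-- the darts (both directions) of the hull and of the cells of `E` -/
noncomputable def ClOf (P : Finset Pt) (E : Finset (Finset Pt)) : Finset (Pt × Pt) :=
  open Classical in (P ×ˢ P).filter fun e =>
    HE P e.1 e.2 ∨ HE P e.2 e.1 ∨ ∃ t ∈ E, HE t e.1 e.2 ∨ HE t e.2 e.1

theorem mem_ClOf {E : Finset (Finset Pt)} (hE : ∀ t ∈ E, t ⊆ P) (a b : Pt) :
    (a, b) ∈ ClOf P E ↔ HE P a b ∨ HE P b a ∨ ∃ t ∈ E, HE t a b ∨ HE t b a := by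
  classical
  unfold ClOf
  rw [Finset.mem_filter, Finset.mem_product]
  constructor
  · rintro ⟨_, h⟩; exact h
  · intro h
    refine ⟨?_, h⟩
    rcases h with h | h | ⟨t, ht, h | h⟩
    · exact ⟨h.1, h.2.1⟩
    · exact ⟨h.2.1, h.1⟩
    · exact ⟨hE t ht h.1, hE t ht h.2.1⟩
    · exact ⟨hE t ht h.2.1, hE t ht h.1⟩

theorem ClOf_symm {E : Finset (Finset Pt)} (hE : ∀ t ∈ E, t ⊆ P) {a b : Pt}
    (h : (a, b) ∈ ClOf P E) : (b, a) ∈ ClOf P E := by
  rw [mem_ClOf hE] at h ⊢
  rcases h with h | h | ⟨t, ht, h | h⟩
  · exact Or.inr (Or.inl h)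
  · exact Or.inl h
  · exact Or.inr (Or.inr ⟨t, ht, Or.inr h⟩)
  · exact Or.inr (Or.inr ⟨t, ht, Or.inl h⟩)

/-- `a` is no hull vertex and in no cell of `E` -/
def Fresh (P : Finset Pt) (E : Finset (Finset Pt)) (a : Pt) : Prop :=
  (∀ b, ¬ HE P a b ∧ ¬ HE P b a) ∧ ∀ t ∈ E, a ∉ t

theorem Fresh.not_mem {E : Finset (Finset Pt)} {a : Pt} (h : Fresh P E a) (b : Pt) :
    (a, b) ∉ ClOf P E ∧ (b, a) ∉ ClOf P E := by
  classical
  constructor
  · intro h2
    unfold ClOf at h2
    rw [Finset.mem_filter] at h2
    rcases h2.2 with h3 | h3 | ⟨t, ht, h3 | h3⟩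
    · exact (h.1 b).1 h3
    · exact (h.1 b).2 h3
    · exact h.2 t ht h3.1
    · exact h.2 t ht h3.2.1
  · intro h2
    unfold ClOf at h2
    rw [Finset.mem_filter] at h2
    rcases h2.2 with h3 | h3 | ⟨t, ht, h3 | h3⟩
    · exact (h.1 b).2 h3
    · exact (h.1 b).1 h3
    · exact h.2 t ht h3.2.1
    · exact h.2 t ht h3.1

theorem not_joined_left {Cl : Finset (Pt × Pt)} {a b : Pt} (h : ∀ c, (a, c) ∉ Cl) (hab : a ≠ b) :
    ¬ Joined Cl a b := by
  intro hj
  rcases Relation.ReflTransGen.cases_head hj with h1 | ⟨c, h1, _⟩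
  · exact hab h1
  · exact h c h1

theorem not_joined_right {Cl : Finset (Pt × Pt)} {a b : Pt} (h : ∀ c, (c, a) ∉ Cl) (hab : b ≠ a) :
    ¬ Joined Cl b a := by
  intro hj
  rcases Relation.ReflTransGen.cases_tail hj with h1 | ⟨c, _, h1⟩
  · exact hab h1.symm
  · exact h c h1

/-- the sides of a triangle -/
theorem HE.tri_cases {t : Finset Pt} {x y a p q : Pt} (h : HE t p q) (hc : t.card = 3)
    (h1 : HE t x y) (h2 : HE t y a) (h3 : HE t a x) :
    (p = x ∧ q = y) ∨ (p = y ∧ q = a) ∨ (p = a ∧ q = x) := by
  have hxa : x ≠ a := h3.2.2.1.symm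
  have ht : t = {x, y, a} := by
    symm
    apply Finset.eq_of_subset_of_card_le
    · intro z hz
      simp only [Finset.mem_insert, Finset.mem_singleton] at hz
      rcases hz with rfl | rfl | rfl
      · exact h1.1
      · exact h1.2.1
      · exact h2.2.1
    · rw [hc, Finset.card_eq_three.2 ⟨x, y, a, h1.2.2.1, hxa, h2.2.2.1, rfl⟩]
  have hp : p ∈ ({x, y, a} : Finset Pt) := by rw [← ht]; exact h.1
  simp only [Finset.mem_insert, Finset.mem_singleton] at hp
  rcases hp with rfl | rfl | rfl
  · exact Or.inl ⟨rfl, h.succ_unique h1⟩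
  · exact Or.inr (Or.inl ⟨rfl, h.succ_unique h2⟩)
  · exact Or.inr (Or.inr ⟨rfl, h.succ_unique h3⟩)

/-- a run of triangles, each glued on a side of the previous ones, with new apexes -/
theorem reach_run {E : Finset (Finset Pt)} (hE : Reach P C E (ClOf P E))
    (hCP : ∀ t ∈ C, t ⊆ P) (hEC : E ⊆ C) (k : ℕ) (hk : 0 < k) (t : ℕ → Finset Pt)
    (x y a : ℕ → Pt)
    (ht : ∀ i < k, t i ∈ C ∧ (t i).card = 3 ∧ HE (t i) (x i) (y i) ∧ HE (t i) (y i) (a i) ∧
      HE (t i) (a i) (x i))
    (hnext : ∀ i, i + 1 < k → HE (t i) (y (i + 1)) (x (i + 1)))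
    (hfr0 : Fresh P E (x 0) ∨ Fresh P E (y 0))
    (hfr : ∀ i < k, Fresh P E (a i) ∧ a i ≠ x 0 ∧ a i ≠ y 0 ∧ ∀ j < i, a i ∉ t j) :
    Reach P C (E ∪ (Finset.range k).image t) (ClOf P (E ∪ (Finset.range k).image t)) := by
  classical
  have key : ∀ n ≤ k, Reach P C (E ∪ (Finset.range n).image t)
      (insert (x 0, y 0) (insert (y 0, x 0) (ClOf P (E ∪ (Finset.range n).image t)))) := by
    intro n
    induction n with
    | zero =>
      intro _
      have h0 : (E ∪ (Finset.range 0).image t) = E := by simp
      rw [h0]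
      obtain ⟨h1, h2, h3, h4, h5⟩ := ht 0 hk
      apply Reach.slit E (ClOf P E) (x 0) (y 0) (t 0) hE h1 h3
      rcases hfr0 with hf | hf
      · exact not_joined_left (fun c => (hf.not_mem c).1) h3.2.2.1
      · exact not_joined_right (fun c => (hf.not_mem c).2) h3.2.2.1
    | succ n ih =>
      intro hn
      have ih' := ih (by omega)
      obtain ⟨h1, h2, h3, h4, h5⟩ := ht n (by omega)
      obtain ⟨f1, f2, f3, f4⟩ := hfr n (by omega)
      set E' := E ∪ (Finset.range n).image t with hE'
      have hE'C : E' ⊆ C := by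
        intro s hs
        rw [hE', Finset.mem_union, Finset.mem_image] at hs
        rcases hs with hs | ⟨i, hi, rfl⟩
        · exact hEC hs
        · exact (ht i (by have := Finset.mem_range.1 hi; omega)).1
      have hE'P : ∀ s ∈ E', s ⊆ P := fun s hs => hCP s (hE'C hs)
      have hEn : E ∪ (Finset.range (n + 1)).image t = insert (t n) E' := by
        rw [Finset.range_add_one, Finset.image_insert, Finset.union_insert]
      have hEnP : ∀ s ∈ insert (t n) E', s ⊆ P := by
        intro s hs
        rcases Finset.mem_insert.1 hs with rfl | hs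
        · exact hCP _ h1
        · exact hE'P s hs
      have hfr' : Fresh P E' (a n) := by
        refine ⟨f1.1, ?_⟩
        intro s hs
        rw [hE', Finset.mem_union, Finset.mem_image] at hs
        rcases hs with hs | ⟨i, hi, rfl⟩
        · exact f1.2 s hs
        · exact f4 i (Finset.mem_range.1 hi)
      have hbase : (x n, y n) ∈ insert (x 0, y 0) (insert (y 0, x 0) (ClOf P E')) := by
        rcases Nat.eq_zero_or_pos n with rfl | hpos
        · exact Finset.mem_insert_self _ _
        · have hh := hnext (n - 1) (by omega)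
          rw [Nat.sub_add_cancel hpos] at hh
          apply Finset.mem_insert_of_mem
          apply Finset.mem_insert_of_mem
          rw [mem_ClOf hE'P]
          refine Or.inr (Or.inr ⟨t (n - 1), ?_, Or.inr hh⟩)
          rw [hE', Finset.mem_union, Finset.mem_image]
          exact Or.inr ⟨n - 1, Finset.mem_range.2 (by omega), rfl⟩
      have hj : ¬ Joined (insert (x 0, y 0) (insert (y 0, x 0) (ClOf P E'))) (x n) (a n) := by
        apply not_joined_right _ h5.2.2.1.symm
        intro c hc
        rw [Finset.mem_insert, Finset.mem_insert] at hc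
        rcases hc with hc | hc | hc
        · exact f3 (Prod.ext_iff.1 hc).2
        · exact f2 (Prod.ext_iff.1 hc).2
        · exact (hfr'.not_mem c).2 hc
      have hg := Reach.give E' _ (x n) (y n) (a n) (t n) ih' h1 h2 h3 h4 h5 hbase hj
      rw [hEn]
      have hcl : insert (y n, a n) (insert (a n, y n) (insert (a n, x n) (insert (x n, a n)
          (insert (x 0, y 0) (insert (y 0, x 0) (ClOf P E')))))) =
          insert (x 0, y 0) (insert (y 0, x 0) (ClOf P (insert (t n) E'))) := by
        have hb2 : (x n = x 0 ∧ y n = y 0) ∨ (x n = y 0 ∧ y n = x 0) ∨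
            (x n, y n) ∈ ClOf P E' := by
          simpa only [Finset.mem_insert, Prod.mk.injEq] using hbase
        ext ⟨p, q⟩
        simp only [Finset.mem_insert, Prod.mk.injEq, mem_ClOf hEnP, mem_ClOf hE'P]
        constructor
        · rintro (⟨rfl, rfl⟩ | ⟨rfl, rfl⟩ | ⟨rfl, rfl⟩ | ⟨rfl, rfl⟩ | hh | hh | hh | hh |
            ⟨s, hs, hh⟩)
          · exact Or.inr (Or.inr (Or.inr (Or.inr ⟨t n, Or.inl rfl, Or.inl h4⟩)))
          · exact Or.inr (Or.inr (Or.inr (Or.inr ⟨t n, Or.inl rfl, Or.inr h4⟩)))
          · exact Or.inr (Or.inr (Or.inr (Or.inr ⟨t n, Or.inl rfl, Or.inl h5⟩)))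
          · exact Or.inr (Or.inr (Or.inr (Or.inr ⟨t n, Or.inl rfl, Or.inr h5⟩)))
          · exact Or.inl hh
          · exact Or.inr (Or.inl hh)
          · exact Or.inr (Or.inr (Or.inl hh))
          · exact Or.inr (Or.inr (Or.inr (Or.inl hh)))
          · exact Or.inr (Or.inr (Or.inr (Or.inr ⟨s, Or.inr hs, hh⟩)))
        · rintro (hh | hh | hh | hh | ⟨s, rfl | hs, hh⟩)
          · exact Or.inr (Or.inr (Or.inr (Or.inr (Or.inl hh))))
          · exact Or.inr (Or.inr (Or.inr (Or.inr (Or.inr (Or.inl hh)))))
          · exact Or.inr (Or.inr (Or.inr (Or.inr (Or.inr (Or.inr (Or.inl hh))))))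
          · exact Or.inr (Or.inr (Or.inr (Or.inr (Or.inr (Or.inr (Or.inr (Or.inl hh)))))))
          · have hbb : (x n = x 0 ∧ y n = y 0) ∨ (x n = y 0 ∧ y n = x 0) ∨
                (HE P (x n) (y n) ∨ HE P (y n) (x n) ∨
                  ∃ t ∈ E', HE t (x n) (y n) ∨ HE t (y n) (x n)) := by
              rw [mem_ClOf hE'P] at hb2; exact hb2
            rcases hh with hh | hh
            · rcases hh.tri_cases h2 h3 h4 h5 with ⟨rfl, rfl⟩ | ⟨rfl, rfl⟩ | ⟨rfl, rfl⟩
              · rcases hbb with hb | hb | hb
                · exact Or.inr (Or.inr (Or.inr (Or.inr (Or.inl hb))))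
                · exact Or.inr (Or.inr (Or.inr (Or.inr (Or.inr (Or.inl hb)))))
                · exact Or.inr (Or.inr (Or.inr (Or.inr (Or.inr (Or.inr hb)))))
              · exact Or.inl ⟨rfl, rfl⟩
              · exact Or.inr (Or.inr (Or.inl ⟨rfl, rfl⟩))
            · rcases hh.tri_cases h2 h3 h4 h5 with ⟨rfl, rfl⟩ | ⟨rfl, rfl⟩ | ⟨rfl, rfl⟩
              · rcases hbb with hb | hb | hb
                · exact Or.inr (Or.inr (Or.inr (Or.inr (Or.inr (Or.inl ⟨hb.2, hb.1⟩)))))
                · exact Or.inr (Or.inr (Or.inr (Or.inr (Or.inl ⟨hb.2, hb.1⟩))))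
                · refine Or.inr (Or.inr (Or.inr (Or.inr (Or.inr (Or.inr ?_)))))
                  rcases hb with hb | hb | ⟨s, hs, hb⟩
                  · exact Or.inr (Or.inl hb)
                  · exact Or.inl hb
                  · exact Or.inr (Or.inr ⟨s, hs, hb.symm⟩)
              · exact Or.inr (Or.inl ⟨rfl, rfl⟩)
              · exact Or.inr (Or.inr (Or.inr (Or.inl ⟨rfl, rfl⟩)))
          · exact Or.inr (Or.inr (Or.inr (Or.inr (Or.inr (Or.inr (Or.inr (Or.inr
              ⟨s, hs, hh⟩)))))))
      rw [← hcl]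
      exact hg
  have hfin := key k le_rfl
  have hEC' : ∀ s ∈ E ∪ (Finset.range k).image t, s ⊆ P := by
    intro s hs
    rw [Finset.mem_union, Finset.mem_image] at hs
    rcases hs with hs | ⟨i, hi, rfl⟩
    · exact hCP s (hEC hs)
    · exact hCP _ (ht i (Finset.mem_range.1 hi)).1
  have hm : t 0 ∈ E ∪ (Finset.range k).image t := by
    rw [Finset.mem_union, Finset.mem_image]
    exact Or.inr ⟨0, Finset.mem_range.2 hk, rfl⟩
  have h1 : (y 0, x 0) ∈ ClOf P (E ∪ (Finset.range k).image t) := by
    rw [mem_ClOf hEC']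
    exact Or.inr (Or.inr ⟨t 0, hm, Or.inr (ht 0 hk).2.2.1⟩)
  have h2 := ClOf_symm hEC' h1
  rw [Finset.insert_eq_self.2 h1, Finset.insert_eq_self.2 h2] at hfin
  exact hfin

end Pool.Agent.RFX

end

section

set_option autoImplicit false

/-!
# RFX/FunTree : lemmas on plain funnel trees (MP_72a26e_co, section 3)
-/

namespace Pool.Agent.RFX

open Pool.Agent.RFT

namespace FT

theorem mem_ap_iff (t : FT) : ∀ x y a : Pt, a ∈ ap t ↔ ∃ p q, (p, q, a) ∈ ns t x y := by
  induction t with
  | lf => intro x y a; simp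
  | nd b l r hl hr =>
    intro x y a
    rw [ap_nd, ns_nd, List.mem_append, List.mem_cons, hl x b a, hr b y a]
    constructor
    · rintro (⟨p, q, h⟩ | rfl | ⟨p, q, h⟩)
      · exact ⟨p, q, List.mem_cons_of_mem _ (List.mem_append_left _ h)⟩
      · exact ⟨x, y, List.mem_cons_self⟩
      · exact ⟨p, q, List.mem_cons_of_mem _ (List.mem_append_right _ h)⟩
    · rintro ⟨p, q, h⟩
      rw [List.mem_cons, List.mem_append] at h
      rcases h with h | h | h
      · right; left
        simp only [Prod.mk.injEq] at h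
        exact h.2.2
      · left; exact ⟨p, q, h⟩
      · right; right; exact ⟨p, q, h⟩

theorem ns_verts (t : FT) : ∀ x y p q a : Pt, (p, q, a) ∈ ns t x y →
    (p = x ∨ p ∈ ap t) ∧ (q = y ∨ q ∈ ap t) ∧ a ∈ ap t := by
  induction t with
  | lf => intro x y p q a h; simp at h
  | nd b l r hl hr =>
    intro x y p q a h
    rw [ns_nd, List.mem_cons, List.mem_append] at h
    rw [ap_nd]
    simp only [List.mem_append, List.mem_cons]
    rcases h with h | h | h
    · simp only [Prod.mk.injEq] at h
      obtain ⟨rfl, rfl, rfl⟩ := h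
      exact ⟨Or.inl rfl, Or.inl rfl, Or.inr (Or.inl rfl)⟩
    · obtain ⟨h1, h2, h3⟩ := hl _ _ _ _ _ h
      refine ⟨?_, ?_, Or.inl h3⟩
      · rcases h1 with h1 | h1
        · exact Or.inl h1
        · exact Or.inr (Or.inl h1)
      · rcases h2 with h2 | h2
        · exact Or.inr (Or.inr (Or.inl h2))
        · exact Or.inr (Or.inl h2)
    · obtain ⟨h1, h2, h3⟩ := hr _ _ _ _ _ h
      refine ⟨?_, ?_, Or.inr (Or.inr h3)⟩
      · rcases h1 with h1 | h1
        · exact Or.inr (Or.inr (Or.inl h1))
        · exact Or.inr (Or.inr (Or.inr h1))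
      · rcases h2 with h2 | h2
        · exact Or.inl h2
        · exact Or.inr (Or.inr (Or.inr h2))

theorem sides_verts (t : FT) (x y u v : Pt) (h : (u, v) ∈ sides t x y) :
    (u = x ∨ u = y ∨ u ∈ ap t) ∧ (v = x ∨ v = y ∨ v ∈ ap t) := by
  rw [mem_sides_iff] at h
  obtain ⟨⟨p, q, a⟩, hn, h⟩ := h
  obtain ⟨h1, h2, h3⟩ := ns_verts t x y p q a hn
  simp only [Prod.mk.injEq] at h
  rcases h with ⟨rfl, rfl⟩ | ⟨rfl, rfl⟩ | ⟨rfl, rfl⟩ | ⟨rfl, rfl⟩ | ⟨rfl, rfl⟩ | ⟨rfl, rfl⟩ <;>
    tauto

theorem ns_darts (t : FT) : ∀ x y p q a : Pt, (p, q, a) ∈ ns t x y →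
    (p, q) ∈ bs t x y ∧ (p, a) ∈ ds t x y ∧ (a, q) ∈ ds t x y := by
  induction t with
  | lf => intro x y p q a h; simp at h
  | nd b l r hl hr =>
    intro x y p q a h
    rw [ns_nd, List.mem_cons, List.mem_append] at h
    rw [bs_nd, ds_nd]
    simp only [List.mem_append, List.mem_cons]
    rcases h with h | h | h
    · simp only [Prod.mk.injEq] at h
      obtain ⟨rfl, rfl, rfl⟩ := h
      refine ⟨Or.inl rfl, Or.inr (Or.inl ?_), Or.inr (Or.inr ?_)⟩
      · cases l with
        | lf => simp
        | nd c l1 l2 => simp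
      · cases r with
        | lf => simp
        | nd c l1 l2 => simp
    · obtain ⟨h1, h2, h3⟩ := hl _ _ _ _ _ h
      exact ⟨Or.inr (Or.inl h1), Or.inr (Or.inl h2), Or.inr (Or.inl h3)⟩
    · obtain ⟨h1, h2, h3⟩ := hr _ _ _ _ _ h
      exact ⟨Or.inr (Or.inr h1), Or.inr (Or.inr h2), Or.inr (Or.inr h3)⟩

theorem bs_ns (t : FT) : ∀ x y p q : Pt, (p, q) ∈ bs t x y → ∃ a, (p, q, a) ∈ ns t x y := by
  induction t with
  | lf => intro x y p q h; simp at h
  | nd b l r hl hr =>
    intro x y p q h
    rw [bs_nd, List.mem_cons, List.mem_append] at h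
    rw [ns_nd]
    simp only [List.mem_append, List.mem_cons]
    rcases h with h | h | h
    · simp only [Prod.mk.injEq] at h
      obtain ⟨rfl, rfl⟩ := h
      exact ⟨b, Or.inl rfl⟩
    · obtain ⟨a, ha⟩ := hl _ _ _ _ h
      exact ⟨a, Or.inr (Or.inl ha)⟩
    · obtain ⟨a, ha⟩ := hr _ _ _ _ h
      exact ⟨a, Or.inr (Or.inr ha)⟩

/-- a base is the base of the tree or an upper side of another node -/
theorem bs_cases (t : FT) : ∀ x y p q : Pt, (p, q) ∈ bs t x y → (p, q) = (x, y) ∨
    ∃ p' q' a', (p', q', a') ∈ ns t x y ∧ ((p, q) = (p', a') ∨ (p, q) = (a', q')) := by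
  induction t with
  | lf => intro x y p q h; simp at h
  | nd b l r hl hr =>
    intro x y p q h
    rw [bs_nd, List.mem_cons, List.mem_append] at h
    rcases h with h | h | h
    · exact Or.inl h
    · right
      rw [ns_nd]
      simp only [List.mem_append, List.mem_cons]
      rcases hl _ _ _ _ h with h1 | ⟨p', q', a', h1, h2⟩
      · exact ⟨x, y, b, Or.inl rfl, Or.inl h1⟩
      · exact ⟨p', q', a', Or.inr (Or.inl h1), h2⟩
    · right
      rw [ns_nd]
      simp only [List.mem_append, List.mem_cons]
      rcases hr _ _ _ _ h with h1 | ⟨p', q', a', h1, h2⟩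
      · exact ⟨x, y, b, Or.inl rfl, Or.inr h1⟩
      · exact ⟨p', q', a', Or.inr (Or.inr h1), h2⟩

/-- replace one leaf over the dart `d` by the tree `s` -/
noncomputable def graft (d : Pt × Pt) (s : FT) : FT → Pt → Pt → FT
  | lf, x, y => open Classical in if (x, y) = d then s else lf
  | nd a l r, x, y => open Classical in
      if d ∈ lv l x a then nd a (graft d s l x a) r else nd a l (graft d s r a y)

theorem graft_ns (d : Pt × Pt) (s : FT) (t : FT) : ∀ x y : Pt, d ∈ lv t x y → ∀ n,
    n ∈ ns (graft d s t x y) x y ↔ n ∈ ns t x y ∨ n ∈ ns s d.1 d.2 := by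
  induction t with
  | lf =>
    intro x y hd n
    rw [lv_lf, List.mem_singleton] at hd
    subst hd
    simp [graft]
  | nd a l r hl hr =>
    intro x y hd n
    rw [lv_nd, List.mem_append] at hd
    unfold graft
    by_cases h : d ∈ lv l x a
    · rw [if_pos h, ns_nd, ns_nd]
      simp only [List.mem_cons, List.mem_append, hl x a h n]
      tauto
    · rw [if_neg h, ns_nd, ns_nd]
      simp only [List.mem_cons, List.mem_append, hr a y (hd.resolve_left h) n]
      tauto

theorem graft_ap (d : Pt × Pt) (s : FT) (t : FT) : ∀ x y : Pt, d ∈ lv t x y →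
    (ap (graft d s t x y)).Perm (ap t ++ ap s) := by
  induction t with
  | lf =>
    intro x y hd
    rw [lv_lf, List.mem_singleton] at hd
    subst hd
    simp [graft]
  | nd a l r hl hr =>
    intro x y hd
    rw [lv_nd, List.mem_append] at hd
    unfold graft
    by_cases h : d ∈ lv l x a
    · rw [if_pos h, ap_nd, ap_nd]
      have h1 := (hl x a h).append_right (a :: ap r)
      refine h1.trans ?_
      rw [List.append_assoc, List.append_assoc]
      exact List.Perm.append_left _ List.perm_append_comm
    · rw [if_neg h, ap_nd, ap_nd]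
      have h1 := ((hr a y (hd.resolve_left h)).cons a).append_left (ap l)
      refine h1.trans ?_
      rw [List.append_assoc]
      rfl

theorem mem_graft_ap {d : Pt × Pt} {s t : FT} {x y : Pt} (hd : d ∈ lv t x y) (a : Pt) :
    a ∈ ap (graft d s t x y) ↔ a ∈ ap t ∨ a ∈ ap s := by
  rw [(graft_ap d s t x y hd).mem_iff, List.mem_append]

theorem graft_sides {d : Pt × Pt} {s t : FT} {x y : Pt} (hd : d ∈ lv t x y) (e : Pt × Pt) :
    e ∈ sides (graft d s t x y) x y ↔ e ∈ sides t x y ∨ e ∈ sides s d.1 d.2 := by
  rw [mem_sides_iff, mem_sides_iff, mem_sides_iff]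
  constructor
  · rintro ⟨n, hn, h⟩
    rw [graft_ns d s t x y hd] at hn
    rcases hn with hn | hn
    · exact Or.inl ⟨n, hn, h⟩
    · exact Or.inr ⟨n, hn, h⟩
  · rintro (⟨n, hn, h⟩ | ⟨n, hn, h⟩)
    · exact ⟨n, (graft_ns d s t x y hd n).2 (Or.inl hn), h⟩
    · exact ⟨n, (graft_ns d s t x y hd n).2 (Or.inr hn), h⟩

/-- different nodes of a tree whose base ends are no apexes are different triangles -/
theorem ns_inj (t : FT) : ∀ x y : Pt, t.ap.Nodup → x ∉ t.ap → y ∉ t.ap →
    ∀ p q a p' q' a', (p, q, a) ∈ ns t x y → (p', q', a') ∈ ns t x y →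
      ({p, q, a} : Finset Pt) = {p', q', a'} → p = p' ∧ q = q' ∧ a = a' := by
  induction t with
  | lf => intro x y _ _ _ p q a p' q' a' h; simp at h
  | nd b l r hl hr =>
    intro x y hn hx hy p q a p' q' a' h h' he
    rw [ap_nd] at hn hx hy
    rw [List.nodup_append, List.nodup_cons] at hn
    obtain ⟨n1, ⟨n2, n3⟩, n4⟩ := hn
    simp only [List.mem_append, List.mem_cons, not_or] at hx hy
    have hbl : b ∉ ap l := fun hb => n4 b hb b List.mem_cons_self rfl
    have key : ∀ u v w u' v' w', (u, v, w) ∈ ns l x b →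
        ((u', v', w') = (x, y, b) ∨ (u', v', w') ∈ ns r b y) →
        ({u, v, w} : Finset Pt) ≠ {u', v', w'} := by
      intro u v w u' v' w' h1 h2 h3
      obtain ⟨-, -, hw⟩ := ns_verts l x b u v w h1
      have hw2 : w ∈ ({u', v', w'} : Finset Pt) := by rw [← h3]; simp
      have hwb : w ≠ b := fun e => hbl (e ▸ hw)
      have hwx : w ≠ x := fun e => hx.1 (e ▸ hw)
      have hwy : w ≠ y := fun e => hy.1 (e ▸ hw)
      have hwr : w ∉ ap r := fun e => n4 w hw w (List.mem_cons_of_mem _ e) rfl
      rcases h2 with h2 | h2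
      · simp only [Prod.mk.injEq] at h2
        obtain ⟨rfl, rfl, rfl⟩ := h2
        simp only [Finset.mem_insert, Finset.mem_singleton] at hw2
        tauto
      · obtain ⟨k1, k2, k3⟩ := ns_verts r b y u' v' w' h2
        simp only [Finset.mem_insert, Finset.mem_singleton] at hw2
        rcases hw2 with rfl | rfl | rfl
        · rcases k1 with k | k
          · exact hwb k
          · exact hwr k
        · rcases k2 with k | k
          · exact hwy k
          · exact hwr k
        · exact hwr k3
    have key2 : ∀ u v w, (u, v, w) ∈ ns r b y → ({u, v, w} : Finset Pt) ≠ {x, y, b} := by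
      intro u v w h1 h3
      obtain ⟨-, -, hw⟩ := ns_verts r b y u v w h1
      have hw2 : w ∈ ({x, y, b} : Finset Pt) := by rw [← h3]; simp
      have hwb : w ≠ b := fun e => n2 (e ▸ hw)
      have hwx : w ≠ x := fun e => hx.2.2 (e ▸ hw)
      have hwy : w ≠ y := fun e => hy.2.2 (e ▸ hw)
      simp only [Finset.mem_insert, Finset.mem_singleton] at hw2
      tauto
    rw [ns_nd, List.mem_cons, List.mem_append] at h h'
    rcases h with h | h | h
    · rcases h' with h' | h' | h'
      · simp only [Prod.mk.injEq] at h h'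
        obtain ⟨rfl, rfl, rfl⟩ := h
        obtain ⟨rfl, rfl, rfl⟩ := h'
        exact ⟨rfl, rfl, rfl⟩
      · exact absurd he.symm (key _ _ _ _ _ _ h' (Or.inl h))
      · simp only [Prod.mk.injEq] at h
        obtain ⟨rfl, rfl, rfl⟩ := h
        exact absurd he.symm (key2 _ _ _ h')
    · rcases h' with h' | h' | h'
      · exact absurd he (key _ _ _ _ _ _ h (Or.inl h'))
      · exact hl x b n1 hx.1 hbl p q a p' q' a' h h' he
      · exact absurd he (key _ _ _ _ _ _ h (Or.inr h'))
    · rcases h' with h' | h' | h'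
      · simp only [Prod.mk.injEq] at h'
        obtain ⟨rfl, rfl, rfl⟩ := h'
        exact absurd he (key2 _ _ _ h)
      · exact absurd he.symm (key _ _ _ _ _ _ h' (Or.inr h))
      · exact hr b y n3 n2 hy.2.2 p q a p' q' a' h h' he

end FT

end Pool.Agent.RFX

end

section

set_option autoImplicit false

/-!
# RFX/FunGeo : local geometry of the funnel process (MP_72a26e_co, section 3)
-/

namespace Pool.Agent.RFX

open Pool.Agent.RFT

theorem res_mono {M M' : Finset (Pt × Pt)} (h : M ⊆ M') {v : Pt} (hv : Res M v) : Res M' v := by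
  intro w hw
  obtain ⟨u, hu, h1⟩ := hv w hw
  exact ⟨u, h hu, h1⟩

theorem not_res_of_succ {P : Finset Pt} {M : Finset (Pt × Pt)} (hM : Pl P M) {a b : Pt}
    (h : HE P a b) : ¬ Res M a := by
  intro hr
  have hab : a ≠ b := h.2.2.1
  have hne : (2 : ℝ) • a - b ≠ a := by
    intro he
    apply hab
    have h1 : a = b := by
      have h2 : (2 : ℝ) • a - b - a = 0 := sub_eq_zero.2 he
      have h3 : (2 : ℝ) • a - b - a = a - b := by
        rw [two_smul]; abel
      rw [h3] at h2
      exact sub_eq_zero.1 h2
    exact h1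
  obtain ⟨u, hu, h1⟩ := hr _ hne
  have h2 : orient a ((2 : ℝ) • a - b) u = - orient a b u := by
    unfold orient
    simp only [Prod.fst_sub, Prod.snd_sub, Prod.smul_fst, Prod.smul_snd, smul_eq_mul]
    ring
  have h3 := h.nonneg u (hM.sub _ _ hu).2
  rw [h2] at h1
  linarith

theorem not_res_of_pred {P : Finset Pt} {M : Finset (Pt × Pt)} (hM : Pl P M) {a b : Pt}
    (h : HE P b a) : ¬ Res M a := by
  intro hr
  obtain ⟨u, hu, h1⟩ := hr b h.2.2.1
  have h3 := h.nonneg u (hM.sub _ _ hu).2
  rw [orient_swap] at h3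
  linarith

theorem succ_of_pred {P : Finset Pt} (hG : Gen P) (h3 : 3 ≤ P.card) {a b : Pt} (h : HE P a b) :
    ∃ c, HE P b c := by
  obtain ⟨l, -, -, -, -, -, hl⟩ := exists_hull_list P hG h3
  have h1 := (hl a b).1 h
  obtain ⟨c, hc⟩ := mem_cyc_of_mem l b (mem_of_mem_cyc l a b h1).2
  exact ⟨c, (hl b c).2 hc⟩

theorem pred_of_succ {P : Finset Pt} (hG : Gen P) (h3 : 3 ≤ P.card) {a b : Pt} (h : HE P a b) :
    ∃ c, HE P c a := by
  obtain ⟨l, -, -, -, -, -, hl⟩ := exists_hull_list P hG h3
  have h1 := (hl a b).1 h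
  obtain ⟨c, hc⟩ := mem_cyc_of_mem' l a (mem_of_mem_cyc l a b h1).1
  exact ⟨c, (hl c a).2 hc⟩

/-- three directions in counterclockwise order with gaps less than `π` -/
theorem res_three {M : Finset (Pt × Pt)} {v a b c : Pt} (ha : (v, a) ∈ M) (hb : (v, b) ∈ M)
    (hc : (v, c) ∈ M) (h1 : 0 < orient v a b) (h2 : 0 < orient v b c) (h3 : 0 < orient v c a) :
    Res M v := by
  intro w hw
  by_contra hcon
  push Not at hcon
  have k1 := hcon a ha
  have k2 := hcon b hb
  have k3 := hcon c hc
  have key : orient v b c * orient v w a + orient v c a * orient v w b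
      + orient v a b * orient v w c = 0 := by
    unfold orient; ring
  have z1 : orient v w a = 0 := by
    by_contra hne
    have : orient v w a < 0 := lt_of_le_of_ne k1 hne
    nlinarith [mul_nonpos_of_nonneg_of_nonpos h3.le k2, mul_nonpos_of_nonneg_of_nonpos h1.le k3,
      mul_neg_of_pos_of_neg h2 this]
  have z2 : orient v w b = 0 := by
    by_contra hne
    have : orient v w b < 0 := lt_of_le_of_ne k2 hne
    nlinarith [mul_nonpos_of_nonneg_of_nonpos h2.le k1, mul_nonpos_of_nonneg_of_nonpos h1.le k3,
      mul_neg_of_pos_of_neg h3 this]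
  have e1 : (w.1 - v.1) * orient v a b = 0 := by
    have : (w.1 - v.1) * orient v a b = (a.1 - v.1) * orient v w b - (b.1 - v.1) * orient v w a := by
      unfold orient; ring
    rw [this, z1, z2]; ring
  have e2 : (w.2 - v.2) * orient v a b = 0 := by
    have : (w.2 - v.2) * orient v a b = (a.2 - v.2) * orient v w b - (b.2 - v.2) * orient v w a := by
      unfold orient; ring
    rw [this, z1, z2]; ring
  apply hw
  have f1 := (mul_eq_zero.1 e1).resolve_right h1.ne'
  have f2 := (mul_eq_zero.1 e2).resolve_right h1.ne'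
  exact Prod.ext (by linarith) (by linarith)

/-- a vertex with one neighbour is not resolved -/
theorem not_res_single {M : Finset (Pt × Pt)} {v N : Pt} (hN : N ≠ v)
    (h : ∀ u, (v, u) ∈ M → u = N) : ¬ Res M v := by
  intro hr
  obtain ⟨u, hu, h1⟩ := hr N hN
  rw [h u hu, orient_self3] at h1
  exact lt_irrefl _ h1

/-- the extreme neighbour of an unresolved vertex -/
theorem exists_extreme {P : Finset Pt} {M : Finset (Pt × Pt)} (hG : Gen P) (hM : Pl P M) {v : Pt}
    (hv : v ∈ P) (hnr : ¬ Res M v) (hne : ∃ u, (v, u) ∈ M) :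
    ∃ c, (v, c) ∈ M ∧ ∀ u, (v, u) ∈ M → orient c v u ≤ 0 := by
  classical
  unfold Res at hnr
  push Not at hnr
  obtain ⟨w, hw, hwu⟩ := hnr
  have key : ∀ S : Finset Pt, S.Nonempty → (∀ u ∈ S, (v, u) ∈ M) →
      ∃ c ∈ S, ∀ u ∈ S, 0 ≤ orient v c u := by
    intro S
    induction S using Finset.induction_on with
    | empty => intro h; exact absurd h (by simp)
    | insert z S hz ih =>
      intro _ hS
      by_cases hSne : S.Nonempty
      · obtain ⟨c, hc, hcu⟩ := ih hSne (fun u hu => hS u (Finset.mem_insert_of_mem hu))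
        by_cases hcz : 0 ≤ orient v c z
        · refine ⟨c, Finset.mem_insert_of_mem hc, ?_⟩
          intro u hu
          rw [Finset.mem_insert] at hu
          rcases hu with rfl | hu
          · exact hcz
          · exact hcu u hu
        · push Not at hcz
          refine ⟨z, Finset.mem_insert_self _ _, ?_⟩
          intro u hu
          rw [Finset.mem_insert] at hu
          rcases hu with rfl | hu
          · rw [orient_self3]
          · have hzM := hS z (Finset.mem_insert_self _ _)
            have hcM := hS c (Finset.mem_insert_of_mem hc)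
            have huM := hS u (Finset.mem_insert_of_mem hu)
            have a1 := hwu z hzM
            have a2 := hwu c hcM
            have a3 := hwu u huM
            have a4 := hcu u hu
            have a5 : 0 < orient v z c := by rw [orient_swap']; linarith
            have id1 : orient v z u * (- orient v w c) =
                orient v z c * (- orient v w u) + (- orient v w z) * orient v c u := by
              unfold orient; ring
            by_cases huc : u = c
            · subst huc; exact a5.le
            · rcases lt_or_eq_of_le a2 with h | h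
              · by_contra hneg
                push Not at hneg
                have h5 := mul_nonneg a5.le (neg_nonneg.2 a3)
                have h6 := mul_nonneg (neg_nonneg.2 a1) a4
                have h7 := mul_neg_of_neg_of_pos hneg (neg_pos.2 h)
                linarith
              · exfalso
                have h5 := mul_nonneg a5.le (neg_nonneg.2 a3)
                have h6 := mul_nonneg (neg_nonneg.2 a1) a4
                have h7 : orient v z c * (- orient v w u) = 0 := by
                  rw [h] at id1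
                  have : orient v z u * (-0) = 0 := by ring
                  linarith
                have h8 : orient v w u = 0 := by
                  rcases mul_eq_zero.1 h7 with h9 | h9
                  · exact absurd h9 a5.ne'
                  · linarith
                have hcP := (hM.sub _ _ hcM).2
                have huP := (hM.sub _ _ huM).2
                have g1 := hG v hv c hcP u huP (hM.ne _ _ hcM) (hM.ne _ _ huM) (Ne.symm huc)
                apply g1
                have e1 : (w.1 - v.1) * orient v c u = 0 := by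
                  have : (w.1 - v.1) * orient v c u =
                      (c.1 - v.1) * orient v w u - (u.1 - v.1) * orient v w c := by
                    unfold orient; ring
                  rw [this, h, h8]; ring
                have e2 : (w.2 - v.2) * orient v c u = 0 := by
                  have : (w.2 - v.2) * orient v c u =
                      (c.2 - v.2) * orient v w u - (u.2 - v.2) * orient v w c := by
                    unfold orient; ring
                  rw [this, h, h8]; ring
                by_contra hcon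
                apply hw
                have f1 := (mul_eq_zero.1 e1).resolve_right hcon
                have f2 := (mul_eq_zero.1 e2).resolve_right hcon
                exact Prod.ext (by linarith) (by linarith)
      · rw [Finset.not_nonempty_iff_eq_empty] at hSne
        subst hSne
        refine ⟨z, Finset.mem_insert_self _ _, ?_⟩
        intro u hu
        simp only [insert_empty_eq, Finset.mem_singleton] at hu
        subst hu
        rw [orient_self3]
  obtain ⟨u0, hu0⟩ := hne
  obtain ⟨c, hc, hcu⟩ := key ((M.filter (fun e => e.1 = v)).image Prod.snd)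
    ⟨u0, Finset.mem_image.2 ⟨(v, u0), Finset.mem_filter.2 ⟨hu0, rfl⟩, rfl⟩⟩ (by
      intro u hu
      rw [Finset.mem_image] at hu
      obtain ⟨⟨e1, e2⟩, he, rfl⟩ := hu
      rw [Finset.mem_filter] at he
      simp only at he
      rw [← he.2]
      exact he.1)
  rw [Finset.mem_image] at hc
  obtain ⟨⟨e1, e2⟩, he, rfl⟩ := hc
  rw [Finset.mem_filter] at he
  simp only at he hcu ⊢
  obtain ⟨he, rfl⟩ := he
  refine ⟨e2, he, ?_⟩
  intro u hu
  have := hcu u (Finset.mem_image.2 ⟨(e1, u), Finset.mem_filter.2 ⟨hu, rfl⟩, rfl⟩)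
  rw [orient_swap]
  linarith

/-- THE LEFT SIDE OF THE SIGHTED EDGE IS FREE: it carries no triangle, if an open half plane at `r`
bounded by the line `c r` contains no edge from `r` -/
theorem Sight.no_tri {P : Finset Pt} {M : Finset (Pt × Pt)} (hG : Gen P) (hM : Pl P M)
    {c r x y : Pt} (h : Sight P M c r x y)
    (hfree : (∀ u, (r, u) ∈ M → orient c r u ≤ 0) ∨ (∀ u, (r, u) ∈ M → 0 ≤ orient c r u))
    {u : Pt} (ht : TriL P M x y u) : False := by
  have hD := ht.pos
  have hx := (hM.sub _ _ h.xy).1
  have hy := (hM.sub _ _ h.xy).2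
  have huP := (hM.sub _ _ ht.yu).2
  have hxy := h.left
  have hrx : r ≠ x := by rintro rfl; rw [orient_self2] at hxy; exact lt_irrefl _ hxy
  have hry : r ≠ y := by rintro rfl; rw [orient_self3] at hxy; exact lt_irrefl _ hxy
  have sx := h.sx
  have sy := h.sy
  have hcr : c ≠ r := by rintro rfl; rw [orient_self1] at sx; exact lt_irrefl _ sx
  by_cases hur : u = r
  · subst hur
    rcases hfree with hf | hf
    · have := hf y (hM.sym _ _ ht.yu)
      linarith
    · have := hf x ht.ux
      linarith
  · have hout : ¬ InT x y u r := by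
      intro hin
      rcases ht.empty r h.hr hin with h1 | h1 | h1
      · exact hrx h1
      · exact hry h1
      · exact hur h1.symm
    -- barycentric identity for the function `orient c r ·`
    have bary : orient y u r * orient c r x + orient u x r * orient c r y
        + orient x y r * orient c r u = 0 := by
      have : orient y u r * orient c r x + orient u x r * orient c r y
        + orient x y r * orient c r u = orient x y u * orient c r r := by
        unfold orient; ring
      rw [this, orient_self3, mul_zero]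
    rcases lt_trichotomy (orient c r u) 0 with hu | hu | hu
    · have h1 : orient y u r < 0 := by
        by_contra hcon
        push Not at hcon
        have h2 : orient u x r < 0 := by
          by_contra hcon2
          push Not at hcon2
          exact hout ⟨hxy.le, hcon, hcon2⟩
        have k1 := mul_nonpos_of_nonneg_of_nonpos hcon sx.le
        have k2 := mul_neg_of_neg_of_pos h2 sy
        have k3 := mul_neg_of_pos_of_neg hxy hu
        linarith
      have h2 : 0 < orient u y r := by rw [orient_swap]; linarith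
      have h3 := h.vis u y (hM.sym _ _ ht.yu) hu sy h2
      unfold mu at h3
      rw [div_le_div_iff₀ (by linarith) (by linarith)] at h3
      have id1 : orient x y r * (orient c r y - orient c r u)
          - orient u y r * (orient c r y - orient c r x) = orient x y u * orient c r y := by
        unfold orient; ring
      have := mul_pos hD sy
      linarith
    · by_cases huc : u = c
      · subst huc
        apply hout
        refine ⟨hxy.le, ?_, ?_⟩
        · have : orient y u r = orient u r y := by unfold orient; ring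
          rw [this]; exact sy.le
        · have : orient u x r = - orient u r x := by unfold orient; ring
          rw [this]; linarith
      · exact hG c h.hc r h.hr u huP hcr (Ne.symm huc) (Ne.symm hur) hu
    · have h1 : orient u x r < 0 := by
        by_contra hcon
        push Not at hcon
        have h2 : orient y u r < 0 := by
          by_contra hcon2
          push Not at hcon2
          exact hout ⟨hxy.le, hcon2, hcon⟩
        have k1 := mul_pos_of_neg_of_neg h2 sx
        have k2 := mul_nonneg hcon sy.le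
        have k3 := mul_pos hxy hu
        linarith
      have h2 : 0 < orient x u r := by rw [orient_swap]; linarith
      have h3 := h.vis x u (hM.sym _ _ ht.ux) sx hu h2
      unfold mu at h3
      rw [div_le_div_iff₀ (by linarith) (by linarith)] at h3
      have id1 : orient x y r * (orient c r u - orient c r x)
          - orient x u r * (orient c r y - orient c r x) = - (orient x y u * orient c r x) := by
        unfold orient; ring
      have := mul_neg_of_pos_of_neg hD sx
      linarith

/-- the directed sides of a triangle -/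
theorem HE_tri_cases {x y u a b : Pt} (h : 0 < orient x y u)
    (he : HE ({x, y, u} : Finset Pt) a b) :
    (a = x ∧ b = y) ∨ (a = y ∧ b = u) ∨ (a = u ∧ b = x) := by
  obtain ⟨ha, hb, hab, hc⟩ := he
  have hxy : x ≠ y := by rintro rfl; rw [orient_self1] at h; exact lt_irrefl _ h
  have hxu : x ≠ u := by rintro rfl; rw [orient_self2] at h; exact lt_irrefl _ h
  have hyu : y ≠ u := by rintro rfl; rw [orient_self3] at h; exact lt_irrefl _ h
  simp only [Finset.mem_insert, Finset.mem_singleton] at ha hb hc
  have h1 : orient y x u = - orient x y u := by unfold orient; ring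
  have h2 : orient u y x = - orient x y u := by unfold orient; ring
  have h3 : orient x u y = - orient x y u := by unfold orient; ring
  rcases ha with rfl | rfl | rfl <;> rcases hb with rfl | rfl | rfl
  · exact absurd rfl hab
  · exact Or.inl ⟨rfl, rfl⟩
  · have := hc y (Or.inr (Or.inl rfl)) hxy.symm hyu
    linarith
  · have := hc u (Or.inr (Or.inr rfl)) hyu.symm hxu.symm
    linarith
  · exact absurd rfl hab
  · exact Or.inr (Or.inl ⟨rfl, rfl⟩)
  · exact Or.inr (Or.inr ⟨rfl, rfl⟩)
  · have := hc x (Or.inl rfl) hxu hxy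
    linarith
  · exact absurd rfl hab

theorem TriL.mono {P : Finset Pt} {M M' : Finset (Pt × Pt)} (h : M ⊆ M') {x y u : Pt}
    (ht : TriL P M x y u) : TriL P M' x y u :=
  ⟨h ht.xy, h ht.yu, h ht.ux, ht.pos, ht.empty⟩

/-- an edge of `M` in the triangle `x y r` which is crossed by the ray is the sighted edge -/
theorem Sight.base_eq {P : Finset Pt} {M : Finset (Pt × Pt)} (hG : Gen P) (hM : Pl P M)
    {c r x y : Pt} (h : Sight P M c r x y) {p q : Pt} (hpq : (p, q) ∈ M) (hp : InT x y r p)
    (hq : InT x y r q) (h1 : orient c r p < 0) (h2 : 0 < orient c r q) : p = x ∧ q = y := by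
  have hD := h.left
  have hx := (hM.sub _ _ h.xy).1
  have hy := (hM.sub _ _ h.xy).2
  have hxy := hM.ne _ _ h.xy
  obtain ⟨hpP, hqP⟩ := hM.sub _ _ hpq
  have sx := h.sx
  have sy := h.sy
  obtain ⟨c1, a1, b1⟩ := hp
  obtain ⟨c2, a2, b2⟩ := hq
  obtain ⟨D, eD⟩ : ∃ D, D = orient x y r := ⟨_, rfl⟩
  obtain ⟨A1, eA1⟩ : ∃ z, z = orient y r p := ⟨_, rfl⟩
  obtain ⟨B1, eB1⟩ : ∃ z, z = orient r x p := ⟨_, rfl⟩
  obtain ⟨C1, eC1⟩ : ∃ z, z = orient x y p := ⟨_, rfl⟩
  obtain ⟨A2, eA2⟩ : ∃ z, z = orient y r q := ⟨_, rfl⟩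
  obtain ⟨B2, eB2⟩ : ∃ z, z = orient r x q := ⟨_, rfl⟩
  obtain ⟨C2, eC2⟩ : ∃ z, z = orient x y q := ⟨_, rfl⟩
  obtain ⟨s, es⟩ : ∃ z, z = orient c r x := ⟨_, rfl⟩
  obtain ⟨t, et⟩ : ∃ z, z = orient c r y := ⟨_, rfl⟩
  obtain ⟨u, eu⟩ : ∃ z, z = orient c r p := ⟨_, rfl⟩
  obtain ⟨v, ev⟩ : ∃ z, z = orient c r q := ⟨_, rfl⟩
  obtain ⟨W, eW⟩ : ∃ z, z = orient p q r := ⟨_, rfl⟩
  have i1 : A1 + B1 + C1 = D := by rw [eA1, eB1, eC1, eD]; unfold orient; ring
  have i2 : A2 + B2 + C2 = D := by rw [eA2, eB2, eC2, eD]; unfold orient; ring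
  have i3 : D * u = A1 * s + B1 * t := by rw [eA1, eB1, eD, eu, es, et]; unfold orient; ring
  have i4 : D * v = A2 * s + B2 * t := by rw [eA2, eB2, eD, ev, es, et]; unfold orient; ring
  have i5 : D * W = A1 * B2 - A2 * B1 := by
    rw [eA1, eB1, eA2, eB2, eD, eW]; unfold orient; ring
  rw [← eD] at hD
  rw [← es] at sx
  rw [← et] at sy
  rw [← eu] at h1
  rw [← ev] at h2
  rw [← eA1] at a1
  rw [← eB1] at b1
  rw [← eC1] at c1
  rw [← eA2] at a2
  rw [← eB2] at b2
  rw [← eC2] at c2
  have hDu : D * u < 0 := mul_neg_of_pos_of_neg hD h1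
  have hDv : 0 < D * v := mul_pos hD h2
  -- D * W * (t - s) = (A2 + B2) (- D u) + (A1 + B1) (D v)
  have i6 : D * W * (t - s) = (A2 + B2) * (-(D * u)) + (A1 + B1) * (D * v) := by
    rw [i5, i3, i4]; ring
  have hts : 0 < t - s := by linarith
  have hA1 : 0 ≤ A1 + B1 := add_nonneg a1 b1
  have hA2 : 0 < A2 + B2 := by
    rcases eq_or_lt_of_le b2 with e | e
    · exfalso
      rw [← e] at i4
      have : A2 * s ≤ 0 := mul_nonpos_of_nonneg_of_nonpos a2 sx.le
      linarith
    · linarith
  have hW : 0 < W := by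
    have k1 : 0 < (A2 + B2) * (-(D * u)) := mul_pos hA2 (by linarith)
    have k2 : 0 ≤ (A1 + B1) * (D * v) := mul_nonneg hA1 hDv.le
    have k3 : 0 < D * W * (t - s) := by rw [i6]; linarith
    by_contra hc
    push Not at hc
    have k4 : D * W ≤ 0 := mul_nonpos_of_nonneg_of_nonpos hD.le hc
    have k5 : D * W * (t - s) ≤ 0 := mul_nonpos_of_nonpos_of_nonneg k4 hts.le
    linarith
  have h3 := h.vis p q hpq (by rw [← eu]; exact h1) (by rw [← ev]; exact h2) (by rw [← eW]; exact hW)
  unfold mu at h3
  rw [← eD, ← es, ← et, ← eu, ← ev, ← eW, div_le_div_iff₀ hts (by linarith)] at h3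
  -- D (v - u) ≤ W (t - s)
  have h4 : D * (D * (v - u)) ≤ D * (W * (t - s)) := mul_le_mul_of_nonneg_left h3 hD.le
  have h5 : D * (W * (t - s)) = (D - C2) * (-(D * u)) + (D - C1) * (D * v) := by
    have e1 : A1 + B1 = D - C1 := by linarith
    have e2 : A2 + B2 = D - C2 := by linarith
    rw [← e1, ← e2, ← i6]; ring
  have h6 : C2 * (-(D * u)) + C1 * (D * v) ≤ 0 := by
    have e : D * (D * (v - u)) = D * (-(D * u)) + D * (D * v) := by ring
    rw [e, h5] at h4
    have e' : (D - C2) * (-(D * u)) + (D - C1) * (D * v)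
        = D * (-(D * u)) + D * (D * v) - (C2 * (-(D * u)) + C1 * (D * v)) := by ring
    rw [e'] at h4
    linarith
  have h7 : 0 ≤ C2 * (-(D * u)) := mul_nonneg c2 (by linarith)
  have h8 : 0 ≤ C1 * (D * v) := mul_nonneg c1 hDv.le
  have h9 : C1 = 0 := by
    have : C1 * (D * v) = 0 := le_antisymm (by linarith) h8
    rcases mul_eq_zero.1 this with e | e
    · exact e
    · exact absurd e hDv.ne'
  have h10 : C2 = 0 := by
    have : C2 * (-(D * u)) = 0 := le_antisymm (by linarith) h7
    rcases mul_eq_zero.1 this with e | e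
    · exact e
    · exfalso; linarith
  rw [h9] at eC1
  rw [h10] at eC2
  constructor
  · by_contra hpx
    by_cases hpy : p = y
    · rw [eu, hpy, ← et] at h1; linarith
    · exact hG x hx y hy p hpP hxy (Ne.symm hpx) (Ne.symm hpy) eC1.symm
  · by_contra hqy
    by_cases hqx : q = x
    · rw [ev, hqx, ← es] at h2; linarith
    · exact hG x hx y hy q hqP hxy (Ne.symm hqx) (Ne.symm hqy) eC2.symm

end Pool.Agent.RFX

end

section

set_option autoImplicit false

/-!
# RFX/SleeveCore : geometric core of the sleeve theorem (MP_72a26e_co, Lemma 3.1)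

`bendL`, `bendR`: an edge from a bend `a` to the other side of the line `x a` (resp. `a y`) which
neither crosses `x y` nor is seen from `r` ends in the half of the triangle `x y r`.
`cyc_res`: a closed chain of left (right) turns around `a` resolves `a`.
-/

namespace Pool.Agent.RFX

open Pool.Agent.RFT

/-! ### closed chains resolve -/

theorem slv_par (u a x : Pt) (h : cross u a = 0) :
    (u.1 * u.1 + u.2 * u.2) * cross a x = (u.1 * a.1 + u.2 * a.2) * cross u x := by
  have : (u.1 * u.1 + u.2 * u.2) * cross a x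
      = (u.1 * a.1 + u.2 * a.2) * cross u x - cross u a * (u.1 * x.1 + u.2 * x.2) := by
    unfold cross; ring
  rw [this, h]; ring

theorem slv_step (u a b c d : Pt) (hu : u ≠ 0) (hab : 0 ≤ cross a b)
    (hbc : 0 < cross b c) (had : 0 < cross a d) (ua : cross u a ≤ 0) (ub : cross u b ≤ 0)
    (uc : cross u c ≤ 0) (ud : cross u d ≤ 0) : 0 ≤ cross a c := by
  have hid : cross a c * cross u b = cross a b * cross u c + cross b c * cross u a := by
    unfold cross; ring
  have h1 : cross a b * cross u c ≤ 0 := mul_nonpos_of_nonneg_of_nonpos hab uc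
  have h2 : cross b c * cross u a ≤ 0 := mul_nonpos_of_nonneg_of_nonpos hbc.le ua
  rcases lt_or_eq_of_le ub with h | h
  · by_contra hneg
    push Not at hneg
    have : 0 < cross a c * cross u b := mul_pos_of_neg_of_neg hneg h
    linarith
  · rw [h, mul_zero] at hid
    have h3 : cross b c * cross u a = 0 := by linarith
    have h4 : cross u a = 0 := by
      rcases mul_eq_zero.1 h3 with h5 | h5
      · exact absurd h5 hbc.ne'
      · exact h5
    have hN : 0 < u.1 * u.1 + u.2 * u.2 := by
      by_contra hN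
      push Not at hN
      have e1 : u.1 = 0 := by nlinarith [mul_self_nonneg u.1, mul_self_nonneg u.2]
      have e2 : u.2 = 0 := by nlinarith [mul_self_nonneg u.1, mul_self_nonneg u.2]
      exact hu (Prod.ext e1 e2)
    have k1 := slv_par u a d h4
    have k3 := slv_par u a c h4
    have l1 : (u.1 * a.1 + u.2 * a.2) < 0 := by
      by_contra hl
      push Not at hl
      have : (u.1 * a.1 + u.2 * a.2) * cross u d ≤ 0 := mul_nonpos_of_nonneg_of_nonpos hl ud
      have : 0 < (u.1 * u.1 + u.2 * u.2) * cross a d := mul_pos hN had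
      linarith
    have l3 : 0 ≤ (u.1 * a.1 + u.2 * a.2) * cross u c := mul_nonneg_of_nonpos_of_nonpos l1.le uc
    rw [← k3] at l3
    exact (mul_nonneg_iff_of_pos_left hN).1 l3

theorem orient_eq_cross_sub (v p q : Pt) : orient v p q = cross (p - v) (q - v) := by
  unfold orient cross
  simp only [Prod.fst_sub, Prod.snd_sub]
  ring

/-- a closed chain of left turns around `v` along edges of `S` resolves `v` -/
theorem cyc_res {S : Finset (Pt × Pt)} {v x z : Pt}
    (h : Relation.TransGen (fun p q => 0 < orient v p q ∧ (v, q) ∈ S) x z)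
    (hz : 0 < orient v z x) (hx : (v, x) ∈ S) : Res S v := by
  intro w hw
  by_contra hcon
  push Not at hcon
  have hu : w - v ≠ 0 := sub_ne_zero.2 hw
  have hle : ∀ q, (v, q) ∈ S → cross (w - v) (q - v) ≤ 0 := by
    intro q hq
    rw [← orient_eq_cross_sub]
    exact hcon q hq
  -- the first successor
  have hfirst : ∀ z, Relation.TransGen (fun p q => 0 < orient v p q ∧ (v, q) ∈ S) x z →
      ∃ d, 0 < orient v x d ∧ (v, d) ∈ S := by
    intro z hz'
    induction hz' with
    | single h => exact ⟨_, h⟩
    | tail _ _ ih => exact ih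
  have hmem : ∀ z, Relation.TransGen (fun p q => 0 < orient v p q ∧ (v, q) ∈ S) x z →
      (v, z) ∈ S := by
    intro z hz'
    cases hz' with
    | single h => exact h.2
    | tail _ h => exact h.2
  have hclaim : ∀ z, Relation.TransGen (fun p q => 0 < orient v p q ∧ (v, q) ∈ S) x z →
      0 ≤ cross (x - v) (z - v) := by
    intro z hz'
    induction hz' with
    | single h =>
      rw [← orient_eq_cross_sub]
      exact h.1.le
    | tail hp hq ih =>
      obtain ⟨d, hd, hdS⟩ := hfirst _ hp
      rw [orient_eq_cross_sub] at hd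
      have hq1 := hq.1
      rw [orient_eq_cross_sub] at hq1
      exact slv_step (w - v) _ _ _ _ hu ih hq1 hd (hle _ hx) (hle _ (hmem _ hp)) (hle _ hq.2)
        (hle _ hdS)
  have h1 := hclaim z h
  rw [orient_eq_cross_sub, cross_swap] at hz
  linarith

/-- reflection at the vertical axis -/
def rfl' (p : Pt) : Pt := (-p.1, p.2)

theorem orient_rfl' (a b c : Pt) : orient (rfl' a) (rfl' b) (rfl' c) = - orient a b c := by
  unfold orient rfl'; ring

theorem rfl'_rfl' (p : Pt) : rfl' (rfl' p) = p := by
  unfold rfl'; simp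

theorem rfl'_inj {p q : Pt} (h : rfl' p = rfl' q) : p = q := by
  rw [← rfl'_rfl' p, h, rfl'_rfl']

/-- a closed chain of right turns around `v` along edges of `S` resolves `v` -/
theorem cyc_res' {S : Finset (Pt × Pt)} {v x z : Pt}
    (h : Relation.TransGen (fun p q => orient v p q < 0 ∧ (v, q) ∈ S) x z)
    (hz : orient v z x < 0) (hx : (v, x) ∈ S) : Res S v := by
  classical
  have key : Res (S.image (fun e => (rfl' e.1, rfl' e.2))) (rfl' v) := by
    have hm : ∀ q, (v, q) ∈ S → (rfl' v, rfl' q) ∈ S.image (fun e => (rfl' e.1, rfl' e.2)) := by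
      intro q hq
      exact Finset.mem_image.2 ⟨(v, q), hq, rfl⟩
    have hlift : ∀ z, Relation.TransGen (fun p q => orient v p q < 0 ∧ (v, q) ∈ S) x z →
        Relation.TransGen (fun p q => 0 < orient (rfl' v) p q ∧
          (rfl' v, q) ∈ S.image (fun e => (rfl' e.1, rfl' e.2))) (rfl' x) (rfl' z) := by
      intro z hz'
      induction hz' with
      | single h =>
        refine Relation.TransGen.single ⟨?_, hm _ h.2⟩
        rw [orient_rfl']; linarith [h.1]
      | tail _ h ih =>
        refine Relation.TransGen.tail ih ⟨?_, hm _ h.2⟩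
        rw [orient_rfl']; linarith [h.1]
    refine cyc_res (hlift z h) ?_ (hm _ hx)
    rw [orient_rfl']; linarith
  intro w hw
  obtain ⟨u, hu, hpos⟩ := key (rfl' (v + (v - w))) (by
    intro h0
    have := rfl'_inj h0
    apply hw
    have h1 : v - w = 0 := by simpa using this
    exact (sub_eq_zero.1 h1).symm)
  obtain ⟨e, he, heq⟩ := Finset.mem_image.1 hu
  have e1 : rfl' e.1 = rfl' v := (Prod.mk.inj heq).1
  have e2 : rfl' e.2 = u := (Prod.mk.inj heq).2
  have e1' := rfl'_inj e1
  refine ⟨e.2, ?_, ?_⟩
  · rw [← e1']; exact he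
  · rw [← e2, orient_rfl'] at hpos
    have : orient v (v + (v - w)) e.2 = - orient v w e.2 := by
      unfold orient
      simp only [Prod.fst_add, Prod.snd_add, Prod.fst_sub, Prod.snd_sub]
      ring
    rw [this] at hpos
    linarith

theorem slv_res_mono {M M' : Finset (Pt × Pt)} {v : Pt} (h : Res M v) (hs : M ⊆ M') : Res M' v := by
  intro w hw
  obtain ⟨u, hu, hp⟩ := h w hw
  exact ⟨u, hs hu, hp⟩

/-! ### positions on the ray -/

theorem mu_lt_left {c r x y a : Pt} (hx : orient c r x < 0) (hy : 0 < orient c r y)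
    (ha : 0 < orient x y a) (fa : orient c r a < 0) : mu c r a y < mu c r x y := by
  unfold mu
  rw [div_lt_div_iff₀ (by linarith) (by linarith)]
  have : orient x y r * (orient c r y - orient c r a) - orient a y r * (orient c r y - orient c r x)
      = orient x y a * orient c r y := by
    unfold orient; ring
  have h2 := mul_pos ha hy
  linarith

theorem mu_lt_right {c r x y a : Pt} (hx : orient c r x < 0) (hy : 0 < orient c r y)
    (ha : 0 < orient x y a) (fa : 0 < orient c r a) : mu c r x a < mu c r x y := by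
  unfold mu
  rw [div_lt_div_iff₀ (by linarith) (by linarith)]
  have : orient x y r * (orient c r a - orient c r x) - orient x a r * (orient c r y - orient c r x)
      = orient x y a * (-orient c r x) := by
    unfold orient; ring
  have h2 := mul_pos ha (neg_pos.2 hx)
  linarith

/-! ### edges from a bend -/

/-- a bend `a` on the side of `x`: an edge `a u` to the right of `x a` stays in the half of the
triangle -/
theorem bendL {c r x y a u : Pt} (hr : 0 < orient x y r) (fx : orient c r x < 0)
    (fy : 0 < orient c r y) (ha : 0 < orient x y a) (fa : orient c r a < 0)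
    (hL : 0 < orient x a r) (hu : orient x a u < 0) (hX : ¬ Xs a u x y)
    (hvis : 0 < orient c r u → 0 < orient a u r → mu c r x y ≤ mu c r a u)
    (hgen : orient a u y ≠ 0) (hgr : orient a u r ≠ 0 ∨ orient c r u ≤ 0) :
    InT x y r u ∧ orient c r u ≤ 0 := by
  -- an edge over the ray goes below x y
  have c1 : 0 < orient c r u → orient x y a * orient c r u ≤ orient x y u * orient c r a := by
    intro fu
    by_cases h1 : 0 < orient a u r
    · have h2 := hvis fu h1
      unfold mu at h2
      rw [div_le_div_iff₀ (by linarith) (by linarith)] at h2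
      have : orient x y r * (orient c r u - orient c r a) - orient a u r * (orient c r y - orient c r x)
          = orient x y a * orient c r u - orient x y u * orient c r a := by
        unfold orient; ring
      linarith
    · exfalso
      have h2 : orient a u r < 0 := by
        rcases hgr with h | h
        · exact lt_of_le_of_ne (not_lt.1 h1) h
        · exact absurd fu (not_lt.2 h)
      -- crossing point of a u with the line c r is on the side of c
      have e : orient x a r * (orient x y r * (orient c r u - orient c r a)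
          - orient a u r * (orient c r y - orient c r x))
          = -(orient x y r * (orient x a u * orient c r a)) - orient a u r * (orient x y a * orient c r x)
          := by
        unfold orient; ring
      have l1 : 0 < orient x a r * (orient x y r * (orient c r u - orient c r a)
          - orient a u r * (orient c r y - orient c r x)) := by
        refine mul_pos hL ?_
        have k1 : 0 < orient x y r * (orient c r u - orient c r a) := mul_pos hr (by linarith)
        have k2 : orient a u r * (orient c r y - orient c r x) < 0 :=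
          mul_neg_of_neg_of_pos h2 (by linarith)
        linarith
      have l2 : 0 < orient x y r * (orient x a u * orient c r a) :=
        mul_pos hr (mul_pos_of_neg_of_neg hu fa)
      have l3 : 0 < orient a u r * (orient x y a * orient c r x) :=
        mul_pos_of_neg_of_neg h2 (mul_neg_of_pos_of_neg ha fx)
      linarith
  have hux : orient a u x < 0 := by rw [orient_rot x a u]; exact hu
  have c2 : 0 ≤ orient x y u := by
    by_contra hneg
    push Not at hneg
    apply hX
    rcases lt_or_gt_of_ne hgen with h | h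
    · exfalso
      have e : orient x y a * orient c r u - orient x y u * orient c r a
          = orient a u y * orient c r x - orient a u x * orient c r y := by
        unfold orient; ring
      have l1 : 0 < orient a u y * orient c r x := mul_pos_of_neg_of_neg h fx
      have l2 : orient a u x * orient c r y < 0 := mul_neg_of_neg_of_pos hux fy
      have l3 : 0 < orient x y u * orient c r a := mul_pos_of_neg_of_neg hneg fa
      have l4 : 0 < orient x y a * orient c r u := by linarith
      have l5 : 0 < orient c r u := (mul_pos_iff_of_pos_left ha).1 l4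
      have l6 := c1 l5
      linarith
    · exact ⟨mul_neg_of_neg_of_pos hux h, mul_neg_of_pos_of_neg ha hneg⟩
  have c3 : orient c r u ≤ 0 := by
    by_contra hpos
    push Not at hpos
    have h1 := c1 hpos
    have h2 := mul_pos ha hpos
    have h3 := mul_nonpos_of_nonneg_of_nonpos c2 fa.le
    linarith
  have c4 : 0 < orient r x u := by
    have e : orient r x u * orient x y a = orient x y u * orient x a r
        + (- orient x a u) * orient x y r := by
      unfold orient; ring
    have l1 : 0 < (- orient x a u) * orient x y r := mul_pos (neg_pos.2 hu) hr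
    have l2 : 0 ≤ orient x y u * orient x a r := mul_nonneg c2 hL.le
    have l3 : 0 < orient r x u * orient x y a := by linarith
    exact (mul_pos_iff_of_pos_right ha).1 l3
  have c5 : 0 ≤ orient y r u := by
    have e : (- orient c r x) * orient y r u = orient c r y * orient r x u
        + (- orient c r u) * orient x y r := by
      unfold orient; ring
    have l1 : 0 < orient c r y * orient r x u := mul_pos fy c4
    have l2 : 0 ≤ (- orient c r u) * orient x y r := mul_nonneg (neg_nonneg.2 c3) hr.le
    have l3 : 0 < (- orient c r x) * orient y r u := by linarith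
    exact ((mul_pos_iff_of_pos_left (neg_pos.2 fx)).1 l3).le
  exact ⟨⟨c2, c5, c4.le⟩, c3⟩

/-- a bend `a` on the side of `y`: an edge `a u` to the left of `y a` stays in the half of the
triangle -/
theorem bendR {c r x y a u : Pt} (hr : 0 < orient x y r) (fx : orient c r x < 0)
    (fy : 0 < orient c r y) (ha : 0 < orient x y a) (fa : 0 < orient c r a)
    (hL : 0 < orient a y r) (hu : orient a y u < 0) (hX : ¬ Xs a u x y)
    (hvis : orient c r u < 0 → 0 < orient u a r → mu c r x y ≤ mu c r u a)
    (hgen : orient a u x ≠ 0) (hgr : orient a u r ≠ 0 ∨ 0 ≤ orient c r u) :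
    InT x y r u ∧ 0 ≤ orient c r u := by
  have hmu : ∀ p q, mu (rfl' c) (rfl' r) (rfl' p) (rfl' q) = mu c r q p := by
    intro p q
    unfold mu
    rw [orient_rfl', orient_rfl', orient_rfl', orient_swap q p r]
    congr 1
    · ring
    · ring
  have h := @bendL (rfl' c) (rfl' r) (rfl' y) (rfl' x) (rfl' a) (rfl' u)
    (by rw [orient_rfl', orient_swap x y r]; linarith)
    (by rw [orient_rfl']; linarith)
    (by rw [orient_rfl']; linarith)
    (by rw [orient_rfl', orient_swap x y a]; linarith)
    (by rw [orient_rfl']; linarith)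
    (by rw [orient_rfl', orient_swap a y r]; linarith)
    (by rw [orient_rfl', orient_swap a y u]; linarith)
    (by
      intro hx
      apply hX
      obtain ⟨h1, h2⟩ := hx
      rw [orient_rfl', orient_rfl'] at h1 h2
      refine ⟨?_, ?_⟩
      · rw [neg_mul_neg, mul_comm] at h1
        exact h1
      · rw [neg_mul_neg, orient_swap x y a, orient_swap x y u, neg_mul_neg] at h2
        exact h2)
    (by
      intro h1 h2
      rw [orient_rfl'] at h1 h2
      rw [hmu, hmu]
      refine hvis (by linarith) ?_
      rw [orient_swap a u r]; linarith)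
    (by rw [orient_rfl']; exact neg_ne_zero.2 hgen)
    (by
      rcases hgr with h | h
      · left; rw [orient_rfl']; exact neg_ne_zero.2 h
      · right; rw [orient_rfl']; linarith)
  obtain ⟨⟨h1, h2, h3⟩, h4⟩ := h
  rw [orient_rfl'] at h1 h2 h3 h4
  refine ⟨⟨?_, ?_, ?_⟩, by linarith⟩
  · rw [orient_swap y x u]; linarith
  · rw [orient_swap r y u]; linarith
  · rw [orient_swap x r u]; linarith

/-- the smaller triangle -/
theorem InT.sub {x y r p q s v : Pt} (hp : InT x y r p) (hq : InT x y r q) (hs : InT x y r s)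
    (h0 : 0 < orient p q s) (hv : InT p q s v) : InT x y r v := by
  have key : ∀ a b, 0 ≤ orient a b p → 0 ≤ orient a b q → 0 ≤ orient a b s →
      0 ≤ orient a b v := by
    intro a b h1 h2 h3
    have e := orient_bary a b p q s v
    have l1 := mul_nonneg hv.2.1 h1
    have l2 := mul_nonneg hv.2.2 h2
    have l3 := mul_nonneg hv.1 h3
    have l4 : 0 ≤ orient p q s * orient a b v := by linarith
    exact (mul_nonneg_iff_of_pos_left h0).1 l4
  exact ⟨key _ _ hp.1 hq.1 hs.1, key _ _ hp.2.1 hq.2.1 hs.2.1, key _ _ hp.2.2 hq.2.2 hs.2.2⟩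

end Pool.Agent.RFX

end

section

set_option autoImplicit false

/-!
# RFX/Sleeve : the sleeve theorem (MP_72a26e_co, Lemma 3.1)

Iterate `Sight.step` (induction on `(P ×ˢ P).card - M.card`; the new side crossed by the ray is
not in `M`, because `mu` of it is smaller than `mu c r x y`). `a = r`: `t = nd r lf lf`. `a` on the
side of `x`: `t = nd a lf t'`, `t'` over `(a, y)`; other side: `t = nd a t' lf`, `t'` over
`(x, a)`. The induction statement contains the fans around `x` and around `y`.
-/

namespace Pool.Agent.RFX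

open Pool.Agent.RFT

/-- the fan around the left end of the base -/
def FanL (S : Finset (Pt × Pt)) (c r x y : Pt) (P : Finset Pt) : Prop :=
  ∃ l ∈ P, (l = r ∨ orient c r l < 0) ∧ InT x y r l ∧ l ≠ x ∧
    Relation.TransGen (fun u v => 0 < orient x u v ∧ (x, v) ∈ S) y l

/-- the fan around the right end of the base -/
def FanR (S : Finset (Pt × Pt)) (c r x y : Pt) (P : Finset Pt) : Prop :=
  ∃ l ∈ P, (l = r ∨ 0 < orient c r l) ∧ InT x y r l ∧ l ≠ y ∧
    Relation.TransGen (fun u v => orient y u v < 0 ∧ (y, v) ∈ S) x l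

private theorem slv_card {P : Finset Pt} {M : Finset (Pt × Pt)} (h : Pl P M) :
    M.card ≤ (P ×ˢ P).card := by
  apply Finset.card_le_card
  intro e he
  rw [Finset.mem_product]
  exact h.sub e.1 e.2 he

private theorem slv_union {M : Finset (Pt × Pt)} {x y a : Pt} (A : Finset (Pt × Pt))
    (hxy : (x, y) ∈ M) (hyx : (y, x) ∈ M) :
    M ∪ ({(x, y), (y, x), (x, a), (a, x), (a, y), (y, a)} ∪ A) = addE (addE M x a) y a ∪ A := by
  ext ⟨p, q⟩
  simp only [Finset.mem_union, mem_addE, Finset.mem_insert, Finset.mem_singleton, Prod.mk.injEq]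
  constructor
  · rintro (h | (⟨rfl, rfl⟩ | ⟨rfl, rfl⟩ | h | h | h | h) | h)
    · tauto
    · tauto
    · tauto
    · tauto
    · tauto
    · tauto
    · tauto
    · tauto
  · tauto

private theorem slv_mono {M : Finset (Pt × Pt)} {x y a : Pt} : M ⊆ addE (addE M x a) y a := by
  rintro ⟨p, q⟩ h
  rw [mem_addE, mem_addE]
  exact Or.inr (Or.inr (Or.inr (Or.inr h)))

private theorem slv_ne {x y a : Pt} (h : 0 < orient x y a) : a ≠ x ∧ a ≠ y := by
  constructor
  · rintro rfl
    rw [orient_self2] at h
    exact lt_irrefl _ h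
  · rintro rfl
    rw [orient_self3] at h
    exact lt_irrefl _ h

private theorem slv_leaf {P : Finset Pt} {M : Finset (Pt × Pt)} (hM : Pl P M)
    {c r x y : Pt} (h : Sight P M c r x y) (ha : 0 < orient x y r)
    (hemp : ∀ p ∈ P, InT x y r p → p = x ∨ p = y ∨ p = r)
    (hpl : Pl P (addE (addE M x r) y r)) :
    Sleeve P M c r x y (FT.nd r FT.lf FT.lf) ∧
      FanL ((FT.nd r FT.lf FT.lf).sides x y) c r x y P ∧
      FanR ((FT.nd r FT.lf FT.lf).sides x y) c r x y P := by
  have hne := slv_ne ha
  have hin : InT x y r r := InT.v3 ha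
  refine ⟨⟨?_, ?_, ?_, ?_, ?_, ?_, ?_, ?_, ?_⟩, ?_, ?_⟩
  · intro p q a hn
    simp only [FT.ns_nd, FT.ns_lf, List.append_nil, List.mem_singleton, Prod.mk.injEq] at hn
    obtain ⟨rfl, rfl, rfl⟩ := hn
    exact ⟨h.hr, ha, hemp, h.sx, h.sy⟩
  · rw [FT.sides_nd, slv_union _ h.xy (hM.sym _ _ h.xy), FT.sides_lf, FT.sides_lf,
      Finset.union_empty, Finset.union_empty]
    exact hpl
  · simp
  · simp
  · intro a ha'
    simp only [FT.ap_nd, FT.ap_lf, List.nil_append, List.mem_singleton] at ha'
    subst ha'
    exact hne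
  · intro p q a hn har
    simp only [FT.ns_nd, FT.ns_lf, List.append_nil, List.mem_singleton, Prod.mk.injEq] at hn
    exact absurd hn.2.2 har
  · intro a ha' har
    simp only [FT.ap_nd, FT.ap_lf, List.nil_append, List.mem_singleton] at ha'
    exact absurd ha' har
  · intro a ha' har
    simp only [FT.ap_nd, FT.ap_lf, List.nil_append, List.mem_singleton] at ha'
    exact absurd ha' har
  · intro a ha'
    simp only [FT.ap_nd, FT.ap_lf, List.nil_append, List.mem_singleton] at ha'
    subst ha'
    exact hin
  · refine ⟨r, h.hr, Or.inl rfl, hin, hne.1, Relation.TransGen.single ⟨ha, ?_⟩⟩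
    simp
  · refine ⟨r, h.hr, Or.inl rfl, hin, hne.2, Relation.TransGen.single ⟨?_, ?_⟩⟩
    · rw [orient_swap]; linarith
    · simp

private theorem slv_trans {S S' : Finset (Pt × Pt)} (hS : S ⊆ S') {v x z : Pt}
    (h : Relation.TransGen (fun p q => 0 < orient v p q ∧ (v, q) ∈ S) x z) :
    Relation.TransGen (fun p q => 0 < orient v p q ∧ (v, q) ∈ S') x z :=
  Relation.TransGen.mono (fun _ _ h => ⟨h.1, hS h.2⟩) _ _ h

private theorem slv_trans' {S S' : Finset (Pt × Pt)} (hS : S ⊆ S') {v x z : Pt}
    (h : Relation.TransGen (fun p q => orient v p q < 0 ∧ (v, q) ∈ S) x z) :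
    Relation.TransGen (fun p q => orient v p q < 0 ∧ (v, q) ∈ S') x z :=
  Relation.TransGen.mono (fun _ _ h => ⟨h.1, hS h.2⟩) _ _ h

private theorem slv_left {P : Finset Pt} {M : Finset (Pt × Pt)} (hG : Gen P) (hM : Pl P M)
    {c r x y a : Pt} (h : Sight P M c r x y) (haP : a ∈ P) (ha : 0 < orient x y a)
    (hemp : ∀ p ∈ P, InT x y a p → p = x ∨ p = y ∨ p = a) (hin : InT x y r a)
    (fa : orient c r a < 0) (h' : Sight P (addE (addE M x a) y a) c r a y)
    (hF : ∀ p ∈ P, InT x y r p → orient c r p ≤ 0 → p ≠ x → p ≠ a → 0 < orient x a p)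
    {t : FT} (ht : Sleeve P (addE (addE M x a) y a) c r a y t)
    (hL : FanL (t.sides a y) c r a y P) (hR : FanR (t.sides a y) c r a y P) :
    Sleeve P M c r x y (FT.nd a FT.lf t) ∧
      FanL ((FT.nd a FT.lf t).sides x y) c r x y P ∧
      FanR ((FT.nd a FT.lf t).sides x y) c r x y P := by
  have hne := slv_ne ha
  have hrne := slv_ne h.left
  have har : a ≠ r := by
    rintro rfl
    rw [orient_self3] at fa
    exact lt_irrefl _ fa
  have hxP := (hM.sub _ _ h.xy).1
  have hyP := (hM.sub _ _ h.xy).2
  have hsub : t.sides a y ⊆ (FT.nd a FT.lf t).sides x y := by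
    intro e he
    rw [FT.sides_nd]
    simp only [Finset.mem_union]
    tauto
  have hbig : ∀ v, InT a y r v → InT x y r v := by
    intro v hv
    exact InT.sub hin (InT.v2 h.left) (InT.v3 h.left) h'.left hv
  have hxout : ¬ InT a y r x := by
    intro hc
    have := hc.1
    rw [orient_rot' y x a, orient_swap] at this
    linarith
  refine ⟨⟨?_, ?_, ?_, ?_, ?_, ?_, ?_, ?_, ?_⟩, ?_, ?_⟩
  · intro p q b hn
    simp only [FT.ns_nd, FT.ns_lf, List.nil_append, List.mem_cons, Prod.mk.injEq] at hn
    rcases hn with ⟨rfl, rfl, rfl⟩ | hn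
    · exact ⟨haP, ha, hemp, h.sx, h.sy⟩
    · exact ht.tri p q b hn
  · rw [FT.sides_nd, slv_union _ h.xy (hM.sym _ _ h.xy), FT.sides_lf, Finset.empty_union]
    exact ht.pl
  · simp only [FT.ap_nd, FT.ap_lf, List.nil_append, List.nodup_cons]
    exact ⟨fun hc => (ht.ne a hc).1 rfl, ht.nodup⟩
  · simp only [FT.ap_nd, FT.ap_lf, List.nil_append, List.mem_cons]
    exact Or.inr ht.mem
  · intro b hb
    simp only [FT.ap_nd, FT.ap_lf, List.nil_append, List.mem_cons] at hb
    rcases hb with rfl | hb
    · exact hne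
    · refine ⟨?_, (ht.ne b hb).2⟩
      rintro rfl
      exact hxout (ht.loc _ hb)
  · intro p q b hn hbr
    simp only [FT.ns_nd, FT.ns_lf, List.nil_append, List.mem_cons, Prod.mk.injEq] at hn
    rcases hn with ⟨rfl, rfl, rfl⟩ | hn
    · right
      intro hc
      have h1 := h.vis _ _ hc fa h.sy h'.left
      have h2 := mu_lt_left h.sx h.sy ha fa
      linarith
    · rcases ht.new p q b hn hbr with h1 | h1
      · left
        exact fun hc => h1 (slv_mono hc)
      · right
        exact fun hc => h1 (slv_mono hc)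
  · intro b hb hbr
    simp only [FT.ap_nd, FT.ap_lf, List.nil_append, List.mem_cons] at hb
    rcases hb with rfl | hb
    · -- the bend
      intro hres
      obtain ⟨u, hu, hpos⟩ := hres x hne.1.symm
      have huP := (hM.sub _ _ hu).2
      have hub : b ≠ u := hM.ne _ _ hu
      have hux : orient x b u < 0 := by
        rw [orient_swap]; linarith
      have huy : u ≠ y := by
        rintro rfl
        have h1 := h.vis _ _ hu fa h.sy h'.left
        have h2 := mu_lt_left h.sx h.sy ha fa
        linarith
      have hL' : 0 < orient x b r := hF r h.hr (InT.v3 h.left) (by rw [orient_self3]) hrne.1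
        (Ne.symm har)
      have hur : u ≠ r := by
        rintro rfl
        linarith
      have hux' : u ≠ x := by
        rintro rfl
        rw [orient_self2] at hux
        exact lt_irrefl _ hux
      obtain ⟨k1, k2⟩ := bendL h.left h.sx h.sy ha fa hL' hux
        (hM.nc _ _ _ _ hu h.xy)
        (fun h1 h2 => h.vis _ _ hu fa h1 h2)
        (hG b haP u huP y hyP hub hne.2 huy)
        (Or.inl (hG b haP u huP r h.hr hub har hur))
      have := hF u huP k1 k2 hux' (Ne.symm hub)
      linarith
    · intro hres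
      exact ht.bend b hb hbr (slv_res_mono hres slv_mono)
  · intro b hb hbr
    simp only [FT.ap_nd, FT.ap_lf, List.nil_append, List.mem_cons] at hb
    rcases hb with rfl | hb
    · obtain ⟨l, hlP, hl, hlin, hlne, hchain⟩ := hL
      have hlx : l ≠ x := by
        rintro rfl
        exact hxout hlin
      have hlc : orient c r l ≤ 0 := by
        rcases hl with rfl | hl
        · rw [orient_self3]
        · exact hl.le
      have hpos := hF l hlP (hbig l hlin) hlc hlx hlne
      refine cyc_res (x := x) (z := l) (Relation.TransGen.head (b := y) ⟨?_, ?_⟩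
        (slv_trans hsub hchain)) ?_ ?_
      · rw [orient_rot' x y b]; exact ha
      · simp
      · rw [orient_rot x b l]; exact hpos
      · simp
    · exact slv_res_mono (ht.res b hb hbr) hsub
  · intro b hb
    simp only [FT.ap_nd, FT.ap_lf, List.nil_append, List.mem_cons] at hb
    rcases hb with rfl | hb
    · exact hin
    · exact hbig b (ht.loc b hb)
  · refine ⟨a, haP, Or.inr fa, hin, hne.1, Relation.TransGen.single ⟨ha, ?_⟩⟩
    simp
  · obtain ⟨l, hlP, hl, hlin, hlne, hchain⟩ := hR
    refine ⟨l, hlP, hl, hbig l hlin, hlne, Relation.TransGen.head (b := a) ⟨?_, ?_⟩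
      (slv_trans' hsub hchain)⟩
    · rw [orient_swap]; linarith
    · simp

private theorem slv_right {P : Finset Pt} {M : Finset (Pt × Pt)} (hG : Gen P) (hM : Pl P M)
    {c r x y a : Pt} (h : Sight P M c r x y) (haP : a ∈ P) (ha : 0 < orient x y a)
    (hemp : ∀ p ∈ P, InT x y a p → p = x ∨ p = y ∨ p = a) (hin : InT x y r a)
    (fa : 0 < orient c r a) (h' : Sight P (addE (addE M x a) y a) c r x a)
    (hF : ∀ p ∈ P, InT x y r p → 0 ≤ orient c r p → p ≠ y → p ≠ a → 0 < orient a y p)
    {t : FT} (ht : Sleeve P (addE (addE M x a) y a) c r x a t)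
    (hL : FanL (t.sides x a) c r x a P) (hR : FanR (t.sides x a) c r x a P) :
    Sleeve P M c r x y (FT.nd a t FT.lf) ∧
      FanL ((FT.nd a t FT.lf).sides x y) c r x y P ∧
      FanR ((FT.nd a t FT.lf).sides x y) c r x y P := by
  have hne := slv_ne ha
  have hrne := slv_ne h.left
  have har : a ≠ r := by
    rintro rfl
    rw [orient_self3] at fa
    exact lt_irrefl _ fa
  have hxP := (hM.sub _ _ h.xy).1
  have hyP := (hM.sub _ _ h.xy).2
  have hsub : t.sides x a ⊆ (FT.nd a t FT.lf).sides x y := by
    intro e he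
    rw [FT.sides_nd]
    simp only [Finset.mem_union]
    tauto
  have hbig : ∀ v, InT x a r v → InT x y r v := by
    intro v hv
    exact InT.sub (InT.v1 h.left) hin (InT.v3 h.left) h'.left hv
  have hyout : ¬ InT x a r y := by
    intro hc
    have := hc.1
    rw [orient_swap'] at this
    linarith
  refine ⟨⟨?_, ?_, ?_, ?_, ?_, ?_, ?_, ?_, ?_⟩, ?_, ?_⟩
  · intro p q b hn
    simp only [FT.ns_nd, FT.ns_lf, List.append_nil, List.mem_cons, Prod.mk.injEq] at hn
    rcases hn with ⟨rfl, rfl, rfl⟩ | hn
    · exact ⟨haP, ha, hemp, h.sx, h.sy⟩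
    · exact ht.tri p q b hn
  · rw [FT.sides_nd, slv_union _ h.xy (hM.sym _ _ h.xy), FT.sides_lf, Finset.union_empty]
    exact ht.pl
  · rw [FT.ap_nd, FT.ap_lf, List.nodup_append]
    refine ⟨ht.nodup, by simp, ?_⟩
    intro b hb b' hb'
    rw [List.mem_singleton] at hb'
    subst hb'
    exact (ht.ne b hb).2
  · simp only [FT.ap_nd, FT.ap_lf, List.mem_append]
    exact Or.inl ht.mem
  · intro b hb
    simp only [FT.ap_nd, FT.ap_lf, List.mem_append, List.mem_singleton] at hb
    rcases hb with hb | rfl
    · refine ⟨(ht.ne b hb).1, ?_⟩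
      rintro rfl
      exact hyout (ht.loc _ hb)
    · exact hne
  · intro p q b hn hbr
    simp only [FT.ns_nd, FT.ns_lf, List.append_nil, List.mem_cons, Prod.mk.injEq] at hn
    rcases hn with ⟨rfl, rfl, rfl⟩ | hn
    · left
      intro hc
      have h1 := h.vis _ _ hc h.sx fa h'.left
      have h2 := mu_lt_right h.sx h.sy ha fa
      linarith
    · rcases ht.new p q b hn hbr with h1 | h1
      · left
        exact fun hc => h1 (slv_mono hc)
      · right
        exact fun hc => h1 (slv_mono hc)
  · intro b hb hbr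
    simp only [FT.ap_nd, FT.ap_lf, List.mem_append, List.mem_singleton] at hb
    rcases hb with hb | rfl
    · intro hres
      exact ht.bend b hb hbr (slv_res_mono hres slv_mono)
    · -- the bend
      intro hres
      obtain ⟨u, hu, hpos⟩ := hres (b + (b - y)) (by
        intro h0
        have : b - y = 0 := by simpa using h0
        exact hne.2 (sub_eq_zero.1 this))
      have huP := (hM.sub _ _ hu).2
      have hub : b ≠ u := hM.ne _ _ hu
      have huy : orient b y u < 0 := by
        have e : orient b (b + (b - y)) u = - orient b y u := by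
          unfold orient
          simp only [Prod.fst_add, Prod.snd_add, Prod.fst_sub, Prod.snd_sub]
          ring
        rw [e] at hpos
        linarith
      have hux : u ≠ x := by
        rintro rfl
        have h1 := h.vis _ _ (hM.sym _ _ hu) h.sx fa h'.left
        have h2 := mu_lt_right h.sx h.sy ha fa
        linarith
      have hL' : 0 < orient b y r := hF r h.hr (InT.v3 h.left) (by rw [orient_self3]) hrne.2
        (Ne.symm har)
      have hur : u ≠ r := by
        rintro rfl
        linarith
      have huy' : u ≠ y := by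
        rintro rfl
        rw [orient_self3] at huy
        exact lt_irrefl _ huy
      obtain ⟨k1, k2⟩ := bendR h.left h.sx h.sy ha fa hL' huy
        (hM.nc _ _ _ _ hu h.xy)
        (fun h1 h2 => h.vis _ _ (hM.sym _ _ hu) h1 fa h2)
        (hG b haP u huP x hxP hub hne.1 hux)
        (Or.inl (hG b haP u huP r h.hr hub har hur))
      have := hF u huP k1 k2 huy' (Ne.symm hub)
      linarith
  · intro b hb hbr
    simp only [FT.ap_nd, FT.ap_lf, List.mem_append, List.mem_singleton] at hb
    rcases hb with hb | rfl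
    · exact slv_res_mono (ht.res b hb hbr) hsub
    · obtain ⟨l, hlP, hl, hlin, hlne, hchain⟩ := hR
      have hly : l ≠ y := by
        rintro rfl
        exact hyout hlin
      have hlc : 0 ≤ orient c r l := by
        rcases hl with rfl | hl
        · rw [orient_self3]
        · exact hl.le
      have hpos := hF l hlP (hbig l hlin) hlc hly hlne
      refine cyc_res' (x := y) (z := l) (Relation.TransGen.head (b := x) ⟨?_, ?_⟩
        (slv_trans' hsub hchain)) ?_ ?_
      · rw [orient_swap', orient_rot' x y b]; linarith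
      · simp
      · rw [orient_swap']; linarith
      · simp
  · intro b hb
    simp only [FT.ap_nd, FT.ap_lf, List.mem_append, List.mem_singleton] at hb
    rcases hb with hb | rfl
    · exact hbig b (ht.loc b hb)
    · exact hin
  · obtain ⟨l, hlP, hl, hlin, hlne, hchain⟩ := hL
    refine ⟨l, hlP, hl, hbig l hlin, hlne, Relation.TransGen.head (b := a) ⟨ha, ?_⟩
      (slv_trans hsub hchain)⟩
    simp
  · refine ⟨a, haP, Or.inr fa, hin, hne.2, Relation.TransGen.single ⟨?_, ?_⟩⟩
    · rw [orient_swap]; linarith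
    · simp

private theorem slv_aux {P : Finset Pt} (hG : Gen P) {c r : Pt} :
    ∀ n : ℕ, ∀ (M : Finset (Pt × Pt)) (x y : Pt), (P ×ˢ P).card < n + M.card → Pl P M →
      Sight P M c r x y → ∃ t : FT, Sleeve P M c r x y t ∧ FanL (t.sides x y) c r x y P ∧
        FanR (t.sides x y) c r x y P := by
  intro n
  induction n with
  | zero =>
    intro M x y hn hM h
    have := slv_card hM
    omega
  | succ n ih =>
    intro M x y hn hM h
    obtain ⟨a, haP, ha, hemp, hin, hf1, hf2, hpl, hcase⟩ := Sight.step hG hM h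
    rcases hcase with rfl | ⟨fa, h', hfL⟩ | ⟨fa, h', hfR⟩
    · exact ⟨_, slv_leaf hM h ha hemp hpl⟩
    · have hnot : (a, y) ∉ M := by
        intro hc
        have h1 := h.vis _ _ hc fa h.sy h'.left
        have h2 := mu_lt_left h.sx h.sy ha fa
        linarith
      have hlt : M.card < (addE (addE M x a) y a).card := by
        apply Finset.card_lt_card
        refine ⟨slv_mono, fun hc => hnot (hc h'.xy)⟩
      obtain ⟨t, ht, hL, hR⟩ := ih _ a y (by omega) hpl h'
      exact ⟨_, slv_left hG hM h haP ha hemp hin fa h' hfL ht hL hR⟩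
    · have hnot : (x, a) ∉ M := by
        intro hc
        have h1 := h.vis _ _ hc h.sx fa h'.left
        have h2 := mu_lt_right h.sx h.sy ha fa
        linarith
      have hlt : M.card < (addE (addE M x a) y a).card := by
        apply Finset.card_lt_card
        refine ⟨slv_mono, fun hc => hnot (hc h'.xy)⟩
      obtain ⟨t, ht, hL, hR⟩ := ih _ x a (by omega) hpl h'
      exact ⟨_, slv_right hG hM h haP ha hemp hin fa h' hfR ht hL hR⟩

/-- The edge `x y` seen from `r` (prolongation of `c r`) carries a funnel tree with the apex `r`. -/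
theorem sleeve {P : Finset Pt} {M : Finset (Pt × Pt)} (hG : Gen P) (hM : Pl P M) {c r x y : Pt}
    (h : Sight P M c r x y) : ∃ t : FT, Sleeve P M c r x y t := by
  obtain ⟨t, ht, -, -⟩ := slv_aux hG ((P ×ˢ P).card + 1) M x y (by omega) hM h
  exact ⟨t, ht⟩

end Pool.Agent.RFX

end

section

set_option autoImplicit false

/-!
# RFX/Fun : the funnel process (MP_72a26e_co, section 3)

State: plane edge set `M`, trees `τ g` over the free darts `g` of `M0`. One step: an unresolved touched
vertex `r` looks along the prolongation of an edge `c r` which bounds a free half plane (a tip: along the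
prolongation of its end-edge); the sleeve is grafted on the leaf which is seen. IMMEDIATE RULE: if the
sleeve is put on a dart of an end-edge whose tip is unresolved, this tip is the next one (`o`).
-/

namespace Pool.Agent.RFX

open Pool.Agent.RFT

/-- the part of the state without tips -/
structure Core (P : Finset Pt) (T0 : Finset (Finset Pt)) (M0 M : Finset (Pt × Pt))
    (τ : Pt × Pt → FT) : Prop where
  pl : Pl P M
  sub : M0 ⊆ M
  free : ∀ g, τ g ≠ FT.lf → FreeDart P T0 M0 g
  edge : ∀ d ∈ M, d ∈ M0 ∨ ∃ g, d ∈ (τ g).sides g.1 g.2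
  sides : ∀ g, (τ g).sides g.1 g.2 ⊆ M
  node : ∀ g p q a, (p, q, a) ∈ (τ g).ns g.1 g.2 → TriL P M p q a
  nodup : ∀ g, (τ g).ap.Nodup
  disj : ∀ g g' a, a ∈ (τ g).ap → a ∈ (τ g').ap → g = g'
  ap : ∀ g a, a ∈ (τ g).ap → a ∈ P ∧ ¬ Res M0 a ∧ Res M a
  inj : ∀ g p q a g' p' q' a', (p, q, a) ∈ (τ g).ns g.1 g.2 → (p', q', a') ∈ (τ g').ns g'.1 g'.2 →
    ({p, q, a} : Finset Pt) = {p', q', a'} → g = g' ∧ p = p' ∧ q = q' ∧ a = a'
  new : ∀ g p q a, (p, q, a) ∈ (τ g).ns g.1 g.2 → ({p, q, a} : Finset Pt) ∉ T0
  base : ∀ g p q a, (p, q, a) ∈ (τ g).ns g.1 g.2 → (p, q) ∈ M0 → (p, q) = g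

/-- the trees over the end-edge `N w` are on one side -/
def Half (τ : Pt × Pt → FT) (N w : Pt) : Prop :=
  (τ (w, N) = FT.lf ∧ ∀ a ∈ (τ (N, w)).ap, 0 ≤ orient N w a) ∨
    (τ (N, w) = FT.lf ∧ ∀ a ∈ (τ (w, N)).ap, 0 ≤ orient w N a)

/-- the state of the tips; `o` = the pending tip -/
structure Tips (B0 : Finset (Pt × Pt)) (τ : Pt × Pt → FT) (o : Option (Pt × Pt)) : Prop where
  tip : ∀ N w, (N, w) ∈ B0 → (∃ g, w ∈ (τ g).ap ∧ g ≠ (N, w) ∧ g ≠ (w, N)) ∨
    ((∀ g, w ∉ (τ g).ap) ∧ Half τ N w ∧
      (o ≠ some (N, w) → τ (N, w) = FT.lf ∧ τ (w, N) = FT.lf))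
  pend : ∀ N w, o = some (N, w) → (N, w) ∈ B0 ∧ ∀ g, w ∉ (τ g).ap

/-- the sighted dart is a leaf -/
theorem leaf_of_sight {P : Finset Pt} {T0 : Finset (Finset Pt)} {B0 M0 M : Finset (Pt × Pt)}
    {τ : Pt × Pt → FT} (hG : Gen P) (hin : FunIn P T0 B0 M0) (hc : Core P T0 M0 M τ)
    {c r x y : Pt} (h : Sight P M c r x y)
    (hfree : (∀ u, (r, u) ∈ M → orient c r u ≤ 0) ∨ (∀ u, (r, u) ∈ M → 0 ≤ orient c r u)) :
    ∃ g, FreeDart P T0 M0 g ∧ (x, y) ∈ (τ g).lv g.1 g.2 ∧ ((x, y) ∈ M0 → (x, y) = g) := by
  have hno : ∀ u, ¬ TriL P M x y u := fun u ht => Pool.Agent.RFX.Sight.no_tri hG hc.pl h hfree ht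
  have hA : (x, y) ∈ M0 → ∃ g, FreeDart P T0 M0 g ∧ (x, y) ∈ (τ g).lv g.1 g.2 ∧
      ((x, y) ∈ M0 → (x, y) = g) := by
    intro hxy
    refine ⟨(x, y), ⟨hxy, ?_, ?_⟩, ?_, fun _ => rfl⟩
    · intro t ht he
      obtain ⟨x0, y0, u0, h0, rfl⟩ := hin.tri t ht
      have h1 := TriL.mono hc.sub h0
      rcases HE_tri_cases h0.pos he with ⟨h2, h3⟩ | ⟨h2, h3⟩ | ⟨h2, h3⟩
      · simp only at h2 h3; subst h2; subst h3; exact hno _ h1
      · simp only at h2 h3; subst h2; subst h3; exact hno _ h1.rot
      · simp only at h2 h3; subst h2; subst h3; exact hno _ h1.rot.rot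
    · intro he
      have hl := h.left
      have hrx : r ≠ x := by rintro rfl; rw [orient_self2] at hl; exact lt_irrefl _ hl
      have hry : r ≠ y := by rintro rfl; rw [orient_self3] at hl; exact lt_irrefl _ hl
      have := he.2.2.2 r h.hr hry hrx
      simp only at this
      rw [orient_swap] at this
      linarith
    · cases ht : τ (x, y) with
      | lf => simp
      | nd a l r' =>
        exfalso
        exact hno a (hc.node (x, y) x y a (by rw [ht]; simp))
  by_cases h00 : (x, y) ∈ M0
  · exact hA h00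
  rcases hc.edge _ h.xy with h0 | ⟨g, hg⟩
  · exact hA h0
  · rw [FT.mem_sides_iff] at hg
    obtain ⟨⟨p, q, a⟩, hn, hd⟩ := hg
    have hT := hc.node g p q a hn
    have hgf : FreeDart P T0 M0 g := by
      apply hc.free
      intro he
      rw [he] at hn
      simp at hn
    obtain ⟨d1, d2, d3⟩ := FT.ns_darts (τ g) g.1 g.2 p q a hn
    simp only [Prod.mk.injEq] at hd
    rcases hd with ⟨rfl, rfl⟩ | ⟨rfl, rfl⟩ | ⟨rfl, rfl⟩ | ⟨rfl, rfl⟩ | ⟨rfl, rfl⟩ | ⟨rfl, rfl⟩
    · exact absurd hT (hno a)
    · rcases FT.bs_cases (τ g) g.1 g.2 _ _ d1 with h1 | ⟨p', q', a', h1, h2⟩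
      · apply hA
        apply hin.pl.sym
        have : (y, x) = g := h1
        rw [this]; exact hgf.1
      · have hT' := hc.node g p' q' a' h1
        simp only [Prod.mk.injEq] at h2
        rcases h2 with ⟨rfl, rfl⟩ | ⟨rfl, rfl⟩
        · exact absurd hT'.rot.rot (hno _)
        · exact absurd hT'.rot (hno _)
    · rw [FT.mem_ds_iff] at d2
      rcases d2 with d2 | d2
      · obtain ⟨a', ha'⟩ := FT.bs_ns _ _ _ _ _ d2
        exact absurd (hc.node g _ _ _ ha') (hno _)
      · exact ⟨g, hgf, d2, fun h1 => absurd h1 h00⟩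
    · exact absurd hT.rot.rot (hno _)
    · rw [FT.mem_ds_iff] at d3
      rcases d3 with d3 | d3
      · obtain ⟨a', ha'⟩ := FT.bs_ns _ _ _ _ _ d3
        exact absurd (hc.node g _ _ _ ha') (hno _)
      · exact ⟨g, hgf, d3, fun h1 => absurd h1 h00⟩
    · exact absurd hT.rot (hno _)

/-- one step of the process -/
theorem fun_step {P : Finset Pt} {T0 : Finset (Finset Pt)} {B0 M0 M : Finset (Pt × Pt)}
    {τ : Pt × Pt → FT} (hG : Gen P) (hin : FunIn P T0 B0 M0) (hc : Core P T0 M0 M τ)
    {o : Option (Pt × Pt)} (ht : Tips B0 τ o) {c r x y : Pt} (h : Sight P M c r x y)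
    (hrc : (r, c) ∈ M)
    (hfree : (∀ u, (r, u) ∈ M → orient c r u ≤ 0) ∨ (∀ u, (r, u) ∈ M → 0 ≤ orient c r u))
    (hnr : ¬ Res M r) (ho : ∀ N w, o = some (N, w) → r = w ∧ c = N) :
    ∃ M' τ' o', Core P T0 M0 M' τ' ∧ Tips B0 τ' o' ∧ M ⊆ M' ∧ Res M' r := by
  classical
  obtain ⟨g, hgf, hlv, hgM⟩ := leaf_of_sight hG hin hc h hfree
  obtain ⟨t, hs⟩ := sleeve hG hc.pl h
  obtain ⟨M', hM'⟩ : ∃ M', M' = M ∪ t.sides x y := ⟨_, rfl⟩
  obtain ⟨τ', hτ'⟩ : ∃ τ', τ' = Function.update τ g (FT.graft (x, y) t (τ g) g.1 g.2) := ⟨_, rfl⟩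
  have hsub : M ⊆ M' := by rw [hM']; exact Finset.subset_union_left
  have hsub2 : t.sides x y ⊆ M' := by rw [hM']; exact Finset.subset_union_right
  have hpl : Pl P M' := by rw [hM']; exact hs.pl
  have τ1 : τ' g = FT.graft (x, y) t (τ g) g.1 g.2 := by rw [hτ']; simp
  have τ2 : ∀ g', g' ≠ g → τ' g' = τ g' := by
    intro g' hg'; rw [hτ']; exact Function.update_of_ne hg' _ _
  have memap : ∀ g' a, a ∈ (τ' g').ap ↔ a ∈ (τ g').ap ∨ (g' = g ∧ a ∈ t.ap) := by
    intro g' a
    by_cases hg' : g' = g
    · subst hg'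
      rw [τ1, FT.mem_graft_ap hlv]
      simp
    · rw [τ2 g' hg']
      simp [hg']
  have memns : ∀ g' n, n ∈ (τ' g').ns g'.1 g'.2 ↔
      n ∈ (τ g').ns g'.1 g'.2 ∨ (g' = g ∧ n ∈ t.ns x y) := by
    intro g' n
    by_cases hg' : g' = g
    · subst hg'
      rw [τ1, FT.graft_ns _ _ _ _ _ hlv]
      simp
    · rw [τ2 g' hg']
      simp [hg']
  have memsides : ∀ g' n, n ∈ (τ' g').sides g'.1 g'.2 ↔
      n ∈ (τ g').sides g'.1 g'.2 ∨ (g' = g ∧ n ∈ t.sides x y) := by
    intro g' n
    by_cases hg' : g' = g
    · subst hg'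
      rw [τ1, FT.graft_sides hlv]
      simp
    · rw [τ2 g' hg']
      simp [hg']
  have tns : ∀ p q a, (p, q, a) ∈ t.ns x y → TriL P M' p q a := by
    intro p q a hn
    obtain ⟨-, h1, h2, -, -⟩ := hs.tri p q a hn
    have hsd : ∀ d, (d = (p, q) ∨ d = (q, p) ∨ d = (p, a) ∨ d = (a, p) ∨ d = (a, q) ∨ d = (q, a)) →
        d ∈ M' := by
      intro d hd
      exact hsub2 ((FT.mem_sides_iff t x y d).2 ⟨(p, q, a), hn, hd⟩)
    exact ⟨hsd _ (Or.inl rfl), hsd _ (by simp), hsd _ (by simp), h1, h2⟩
  -- the new triangles are new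
  have hnew : ∀ p q a, (p, q, a) ∈ t.ns x y → (p, a) ∈ M → (a, q) ∈ M → False := by
    intro p q a hn h1 h2
    by_cases har : a = r
    · subst har
      obtain ⟨-, -, -, h3, h4⟩ := hs.tri p q a hn
      rcases hfree with hf | hf
      · have := hf q h2
        linarith
      · have := hf p (hc.pl.sym _ _ h1)
        linarith
    · rcases hs.new p q a hn har with h3 | h3
      · exact h3 h1
      · exact h3 h2
  have hnew2 : ∀ p q a p' q' a', (p, q, a) ∈ t.ns x y → TriL P M p' q' a' →
      ({p, q, a} : Finset Pt) = {p', q', a'} → False := by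
    intro p q a p' q' a' hn hT he
    have hpos := (hs.tri p q a hn).2.1
    have hpq : p ≠ q := by rintro rfl; rw [orient_self1] at hpos; exact lt_irrefl _ hpos
    have hpa : p ≠ a := by rintro rfl; rw [orient_self2] at hpos; exact lt_irrefl _ hpos
    have hqa : q ≠ a := by rintro rfl; rw [orient_self3] at hpos; exact lt_irrefl _ hpos
    have all : ∀ u v, u ∈ ({p', q', a'} : Finset Pt) → v ∈ ({p', q', a'} : Finset Pt) → u ≠ v →
        (u, v) ∈ M := by
      intro u v hu hv huv
      simp only [Finset.mem_insert, Finset.mem_singleton] at hu hv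
      have s1 := hc.pl.sym _ _ hT.xy
      have s2 := hc.pl.sym _ _ hT.yu
      have s3 := hc.pl.sym _ _ hT.ux
      rcases hu with rfl | rfl | rfl <;> rcases hv with rfl | rfl | rfl
      · exact absurd rfl huv
      · exact hT.xy
      · exact s3
      · exact s1
      · exact absurd rfl huv
      · exact hT.yu
      · exact hT.ux
      · exact s2
      · exact absurd rfl huv
    apply hnew p q a hn
    · exact all p a (by rw [← he]; simp) (by rw [← he]; simp) hpa
    · exact all a q (by rw [← he]; simp) (by rw [← he]; simp) hqa.symm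
  have hapnr : ∀ a ∈ t.ap, ¬ Res M a := by
    intro a ha
    by_cases har : a = r
    · subst har; exact hnr
    · exact hs.bend a ha har
  have hapold : ∀ g' a, a ∈ (τ g').ap → a ∉ t.ap := by
    intro g' a ha ha2
    exact hapnr a ha2 (hc.ap g' a ha).2.2
  have hresr : Res M' r := by
    obtain ⟨p, q, hpq⟩ := (FT.mem_ap_iff t x y r).1 hs.mem
    obtain ⟨-, h1, -, h3, h4⟩ := hs.tri p q r hpq
    have hT := tns p q r hpq
    refine res_three (hsub hrc) hT.ux (hpl.sym _ _ hT.yu) ?_ ?_ ?_
    · rw [orient_swap]; linarith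
    · rw [orient_rot']; exact h1
    · rw [← orient_rot']; exact h4
  have hresap : ∀ a ∈ t.ap, Res M' a := by
    intro a ha
    by_cases har : a = r
    · subst har; exact hresr
    · exact res_mono hsub2 (hs.res a ha har)
  have hxt : x ∉ t.ap := fun hx => (hs.ne x hx).1 rfl
  have hyt : y ∉ t.ap := fun hy => (hs.ne y hy).2 rfl
  have hcore : Core P T0 M0 M' τ' := by
    refine ⟨hpl, hc.sub.trans hsub, ?_, ?_, ?_, ?_, ?_, ?_, ?_, ?_, ?_, ?_⟩
    · intro g' hg'
      by_cases hgg : g' = g
      · rw [hgg]; exact hgf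
      · rw [τ2 g' hgg] at hg'
        exact hc.free g' hg'
    · intro d hd
      rw [hM', Finset.mem_union] at hd
      rcases hd with hd | hd
      · rcases hc.edge d hd with h1 | ⟨g', h1⟩
        · exact Or.inl h1
        · exact Or.inr ⟨g', (memsides g' d).2 (Or.inl h1)⟩
      · exact Or.inr ⟨g, (memsides g d).2 (Or.inr ⟨rfl, hd⟩)⟩
    · intro g' d hd
      rcases (memsides g' d).1 hd with h1 | ⟨-, h1⟩
      · exact hsub (hc.sides g' h1)
      · exact hsub2 h1
    · intro g' p q a hn
      rcases (memns g' _).1 hn with h1 | ⟨-, h1⟩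
      · exact TriL.mono hsub (hc.node g' p q a h1)
      · exact tns p q a h1
    · intro g'
      by_cases hgg : g' = g
      · subst hgg
        rw [τ1, (FT.graft_ap (x, y) t (τ g') g'.1 g'.2 hlv).nodup_iff, List.nodup_append]
        refine ⟨hc.nodup g', hs.nodup, ?_⟩
        intro a ha b hb hab
        subst hab
        exact hapold g' a ha hb
      · rw [τ2 g' hgg]; exact hc.nodup g'
    · intro g1 g2 a h1 h2
      rcases (memap g1 a).1 h1 with h1 | ⟨e1, h1⟩
      · rcases (memap g2 a).1 h2 with h2 | ⟨e2, h2⟩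
        · exact hc.disj g1 g2 a h1 h2
        · exact absurd h2 (hapold g1 a h1)
      · rcases (memap g2 a).1 h2 with h2 | ⟨e2, h2⟩
        · exact absurd h1 (hapold g2 a h2)
        · rw [e1, e2]
    · intro g' a ha
      rcases (memap g' a).1 ha with h1 | ⟨-, h1⟩
      · obtain ⟨k1, k2, k3⟩ := hc.ap g' a h1
        exact ⟨k1, k2, res_mono hsub k3⟩
      · obtain ⟨p, q, hpq⟩ := (FT.mem_ap_iff t x y a).1 h1
        exact ⟨(hs.tri p q a hpq).1, fun hr0 => hapnr a h1 (res_mono hc.sub hr0), hresap a h1⟩
    · intro g1 p q a g2 p' q' a' h1 h2 he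
      rcases (memns g1 _).1 h1 with h1 | ⟨e1, h1⟩
      · rcases (memns g2 _).1 h2 with h2 | ⟨e2, h2⟩
        · exact hc.inj g1 p q a g2 p' q' a' h1 h2 he
        · exact (hnew2 p' q' a' p q a h2 (hc.node g1 p q a h1) he.symm).elim
      · rcases (memns g2 _).1 h2 with h2 | ⟨e2, h2⟩
        · exact (hnew2 p q a p' q' a' h1 (hc.node g2 p' q' a' h2) he).elim
        · obtain ⟨k1, k2, k3⟩ := FT.ns_inj t x y hs.nodup hxt hyt p q a p' q' a' h1 h2 he
          exact ⟨by rw [e1, e2], k1, k2, k3⟩
    · intro g' p q a hn hT0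
      rcases (memns g' _).1 hn with h1 | ⟨-, h1⟩
      · exact hc.new g' p q a h1 hT0
      · obtain ⟨x0, y0, u0, k1, k2⟩ := hin.tri _ hT0
        exact hnew2 p q a x0 y0 u0 h1 (TriL.mono hc.sub k1) k2
    · intro g' p q a hn hpq
      rcases (memns g' _).1 hn with h1 | ⟨e1, h1⟩
      · exact hc.base g' p q a h1 hpq
      · obtain ⟨k1, k2, -⟩ := FT.ns_verts t x y p q a h1
        obtain ⟨-, -, -, k3, k4⟩ := hs.tri p q a h1
        have kx : InT x y r x := by
          refine ⟨?_, ?_, ?_⟩
          · rw [orient_self2]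
          · rw [← orient_rot']; exact h.left.le
          · rw [orient_self3]
        have ky : InT x y r y := by
          refine ⟨?_, ?_, ?_⟩
          · rw [orient_self3]
          · rw [orient_self2]
          · rw [orient_rot']; exact h.left.le
        have kp : InT x y r p := by
          rcases k1 with rfl | k1
          · exact kx
          · exact hs.loc p k1
        have kq : InT x y r q := by
          rcases k2 with rfl | k2
          · exact ky
          · exact hs.loc q k2
        obtain ⟨e2, e3⟩ := Pool.Agent.RFX.Sight.base_eq hG hc.pl h (hc.sub hpq) kp kq k3 k4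
        subst e2; subst e3
        rw [e1]
        exact hgM hpq
  -- the sighted dart and the pending tip
  have hlv1 := FT.mem_lv_fst (τ g) g.1 g.2 (x, y) hlv
  have hlv2 := FT.mem_lv_snd (τ g) g.1 g.2 (x, y) hlv
  simp only at hlv1 hlv2
  have hleft := h.left
  have hrx : r ≠ x := by rintro rfl; rw [orient_self2] at hleft; exact lt_irrefl _ hleft
  have hry : r ≠ y := by rintro rfl; rw [orient_self3] at hleft; exact lt_irrefl _ hleft
  have hsx := h.sx
  have hsy := h.sy
  -- if the tip is an apex of the sleeve, the sleeve is not over its end-edge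
  have hkey : ∀ N w, (N, w) ∈ B0 → (∀ g', w ∉ (τ g').ap) → Half τ N w →
      (o ≠ some (N, w) → τ (N, w) = FT.lf ∧ τ (w, N) = FT.lf) → w ∈ t.ap →
      g ≠ (N, w) ∧ g ≠ (w, N) := by
    intro N w hB hnap hhalf hbare hwt
    by_cases hoN : o = some (N, w)
    · obtain ⟨rfl, rfl⟩ := ho N w hoN
      rcases hhalf with ⟨k1, k2⟩ | ⟨k1, k2⟩
      · constructor
        · rintro rfl
          simp only at hlv1
          rcases hlv1 with e | e
          · rw [e, orient_self2] at hsx; exact lt_irrefl _ hsx
          · have := k2 x e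
            linarith
        · rintro rfl
          rw [k1] at hlv
          simp only [FT.lv_lf, List.mem_singleton, Prod.mk.injEq] at hlv
          exact hrx hlv.1.symm
      · constructor
        · rintro rfl
          rw [k1] at hlv
          simp only [FT.lv_lf, List.mem_singleton, Prod.mk.injEq] at hlv
          exact hry hlv.2.symm
        · rintro rfl
          simp only at hlv2
          rcases hlv2 with e | e
          · have := k2 y e
            rw [orient_swap] at this
            linarith
          · rw [e, orient_self2] at hsy; exact lt_irrefl _ hsy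
    · obtain ⟨k1, k2⟩ := hbare hoN
      constructor
      · rintro rfl
        rw [k1] at hlv
        simp only [FT.lv_lf, List.mem_singleton, Prod.mk.injEq] at hlv
        exact (hs.ne w hwt).2 hlv.2.symm
      · rintro rfl
        rw [k2] at hlv
        simp only [FT.lv_lf, List.mem_singleton, Prod.mk.injEq] at hlv
        exact (hs.ne w hwt).1 hlv.1.symm
  -- a point is not both ends of end-edges
  have htipnr : ∀ N w, (N, w) ∈ B0 → (w, N) ∉ B0 := by
    intro N w hB hB'
    have h1 := hin.tipN w N hB'
    have h2 := hin.tip N w hB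
    exact not_res_single (hin.pl.ne _ _ h2.1) h2.2 h1
  -- the new pending tip
  obtain ⟨o', ho'⟩ : ∃ o' : Option (Pt × Pt), ∀ N w, (o' = some (N, w) ↔
      ((N, w) ∈ B0 ∧ (g = (N, w) ∨ g = (w, N)) ∧ ∀ g', w ∉ (τ' g').ap)) := by
    by_cases hex : ∃ N w, (N, w) ∈ B0 ∧ (g = (N, w) ∨ g = (w, N)) ∧ ∀ g', w ∉ (τ' g').ap
    · obtain ⟨N, w, hB, hg, hw⟩ := hex
      refine ⟨some (N, w), ?_⟩
      intro N' w'
      constructor
      · intro he
        simp only [Option.some.injEq, Prod.mk.injEq] at he
        obtain ⟨rfl, rfl⟩ := he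
        exact ⟨hB, hg, hw⟩
      · rintro ⟨hB', hg', hw'⟩
        have hnB := htipnr N w hB
        rcases hg with rfl | rfl <;> rcases hg' with hg' | hg' <;>
          simp only [Prod.mk.injEq] at hg' <;> obtain ⟨rfl, rfl⟩ := hg'
        · rfl
        · exact absurd hB' hnB
        · exact absurd hB' hnB
        · rfl
    · refine ⟨none, ?_⟩
      intro N w
      constructor
      · intro he; exact absurd he (by simp)
      · intro hh; exact absurd ⟨N, w, hh⟩ hex
  refine ⟨M', τ', o', hcore, ⟨?_, ?_⟩, hsub, hresr⟩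
  · intro N w hB
    rcases ht.tip N w hB with ⟨g', h1, h2, h3⟩ | ⟨h1, h2, h3⟩
    · exact Or.inl ⟨g', (memap g' w).2 (Or.inl h1), h2, h3⟩
    · by_cases hwt : w ∈ t.ap
      · left
        obtain ⟨k1, k2⟩ := hkey N w hB h1 h2 h3 hwt
        exact ⟨g, (memap g w).2 (Or.inr ⟨rfl, hwt⟩), k1, k2⟩
      · right
        have hno : ∀ g', w ∉ (τ' g').ap := by
          intro g' hw'
          rcases (memap g' w).1 hw' with k | ⟨-, k⟩
          · exact h1 g' k
          · exact hwt k
        have hoN : o ≠ some (N, w) := by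
          intro he
          obtain ⟨rfl, rfl⟩ := ho N w he
          exact hwt hs.mem
        obtain ⟨b1, b2⟩ := h3 hoN
        have hwN : (N, w) ≠ (w, N) := by
          intro he
          simp only [Prod.mk.injEq] at he
          exact hin.pl.ne _ _ (hin.tip N w hB).1 he.1
        refine ⟨hno, ?_, ?_⟩
        · by_cases hg1 : g = (N, w)
          · left
            subst hg1
            refine ⟨?_, ?_⟩
            · rw [τ2 _ hwN.symm]; exact b2
            · intro a ha
              rw [b1] at hlv
              simp only [FT.lv_lf, List.mem_singleton, Prod.mk.injEq] at hlv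
              obtain ⟨rfl, rfl⟩ := hlv
              rcases (memap _ a).1 ha with k | ⟨-, k⟩
              · rw [b1] at k; simp at k
              · exact (hs.loc a k).1
          · by_cases hg2 : g = (w, N)
            · right
              subst hg2
              refine ⟨?_, ?_⟩
              · rw [τ2 _ hwN]; exact b1
              · intro a ha
                rw [b2] at hlv
                simp only [FT.lv_lf, List.mem_singleton, Prod.mk.injEq] at hlv
                obtain ⟨rfl, rfl⟩ := hlv
                rcases (memap _ a).1 ha with k | ⟨-, k⟩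
                · rw [b2] at k; simp at k
                · exact (hs.loc a k).1
            · left
              rw [τ2 _ (Ne.symm hg1), τ2 _ (Ne.symm hg2)]
              refine ⟨b2, ?_⟩
              intro a ha
              rw [b1] at ha; simp at ha
        · intro hne
          have hg1 : g ≠ (N, w) := fun e => hne ((ho' N w).2 ⟨hB, Or.inl e, hno⟩)
          have hg2 : g ≠ (w, N) := fun e => hne ((ho' N w).2 ⟨hB, Or.inr e, hno⟩)
          rw [τ2 _ (Ne.symm hg1), τ2 _ (Ne.symm hg2)]
          exact ⟨b1, b2⟩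
  · intro N w he
    obtain ⟨k1, -, k3⟩ := (ho' N w).1 he
    exact ⟨k1, k3⟩

/-- the initial state -/
theorem core_init {P : Finset Pt} {T0 : Finset (Finset Pt)} {B0 M0 : Finset (Pt × Pt)}
    (hin : FunIn P T0 B0 M0) : Core P T0 M0 M0 (fun _ => FT.lf) := by
  refine ⟨hin.pl, Finset.Subset.refl _, ?_, ?_, ?_, ?_, ?_, ?_, ?_, ?_, ?_, ?_⟩
  · intro g hg; exact absurd rfl hg
  · intro d hd; exact Or.inl hd
  · intro g d hd; simp at hd
  · intro g p q a hn; simp at hn
  · intro g; simp
  · intro g g' a ha; simp at ha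
  · intro g a ha; simp at ha
  · intro g p q a g' p' q' a' hn; simp at hn
  · intro g p q a hn; simp at hn
  · intro g p q a hn; simp at hn

/-- the edges at a tip which is no apex -/
theorem tip_edges {P : Finset Pt} {T0 : Finset (Finset Pt)} {B0 M0 M : Finset (Pt × Pt)}
    {τ : Pt × Pt → FT} (hin : FunIn P T0 B0 M0) (hc : Core P T0 M0 M τ) {N w : Pt}
    (hB : (N, w) ∈ B0) (hw : ∀ g, w ∉ (τ g).ap) {v : Pt} (hv : (w, v) ∈ M) :
    v = N ∨ v ∈ (τ (N, w)).ap ∨ v ∈ (τ (w, N)).ap := by
  rcases hc.edge _ hv with h1 | ⟨g, h1⟩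
  · exact Or.inl ((hin.tip N w hB).2 v h1)
  · obtain ⟨k1, k2⟩ := FT.sides_verts _ _ _ _ _ h1
    have hne : τ g ≠ FT.lf := by
      intro he; rw [he] at h1; simp at h1
    have hg0 := (hc.free g hne).1
    have hwv := hc.pl.ne _ _ hv
    rcases k1 with k1 | k1 | k1
    · -- w = g.1
      have hg : g = (w, N) := by
        have h2 : (w, g.2) ∈ M0 := by rw [k1]; exact hg0
        have h3 := (hin.tip N w hB).2 _ h2
        rw [← h3]; exact Prod.ext k1.symm rfl
      subst hg
      rcases k2 with k2 | k2 | k2
      · exact absurd k2.symm hwv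
      · exact Or.inl k2
      · exact Or.inr (Or.inr k2)
    · have hg : g = (N, w) := by
        have h2 : (g.1, w) ∈ M0 := by rw [k1]; exact hg0
        have h3 := (hin.tip N w hB).2 _ (hin.pl.sym _ _ h2)
        rw [← h3]; exact Prod.ext rfl k1.symm
      subst hg
      rcases k2 with k2 | k2 | k2
      · exact Or.inl k2
      · exact absurd k2.symm hwv
      · exact Or.inr (Or.inl k2)
    · exact absurd k1 (hw g)

theorem exists_funnels {P : Finset Pt} (hG : Gen P) (h3 : 3 ≤ P.card) {T0 : Finset (Finset Pt)}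
    {B0 M0 : Finset (Pt × Pt)} (h : FunIn P T0 B0 M0) :
    ∃ M τ, FunOut P T0 B0 M0 M τ := by
  classical
  -- the induction
  have main : ∀ n : ℕ, ∀ (M : Finset (Pt × Pt)) (τ : Pt × Pt → FT) (o : Option (Pt × Pt)),
      Core P T0 M0 M τ → Tips B0 τ o → (P.filter (fun v => ¬ Res M v)).card = n →
      ∃ M τ, FunOut P T0 B0 M0 M τ := by
    intro n
    induction n using Nat.strong_induction_on with
    | _ n ih =>
      intro M τ o hc ht hn
      -- a tip is no hull vertex
      have hullM : ∀ a b, HE P a b → (a, b) ∈ M := fun a b hab => hc.sub (h.hull a b hab)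
      have tiphull : ∀ N w, (N, w) ∈ B0 → ∀ a, ¬ HE P w a := by
        intro N w hB a ha
        obtain ⟨b, hb⟩ := pred_of_succ hG h3 ha
        have e1 := (h.tip N w hB).2 a (h.hull _ _ ha)
        have e2 := (h.tip N w hB).2 b (h.pl.sym _ _ (h.hull _ _ hb))
        subst e1; subst e2
        exact ha.not_both hb h3
      have shoot : ∀ r c, (r, c) ∈ M → (∀ a, ¬ HE P r a) → ¬ Res M r →
          ((∀ u, (r, u) ∈ M → orient c r u ≤ 0) ∨ (∀ u, (r, u) ∈ M → 0 ≤ orient c r u)) →
          (∀ N w, o = some (N, w) → r = w ∧ c = N) → ∃ M τ, FunOut P T0 B0 M0 M τ := by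
        intro r c hrc hh hnr hfree ho
        have hrP := (hc.pl.sub _ _ hrc).1
        have hcP := (hc.pl.sub _ _ hrc).2
        have hrc' := hc.pl.ne _ _ hrc
        have hin : ∀ a b, HE P a b → 0 < orient a b r := by
          intro a b hab
          refine hab.2.2.2 r hrP ?_ ?_
          · rintro rfl; exact hh b hab
          · rintro rfl
            obtain ⟨d, hd⟩ := succ_of_pred hG h3 hab
            exact hh d hd
        obtain ⟨x, y, hs⟩ := exists_sight hG hc.pl hullM hcP hrP hrc'.symm hin h3
        obtain ⟨M', τ', o', c', t', hsub, hres⟩ := fun_step hG h hc ht hs hrc hfree hnr ho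
        refine ih _ ?_ M' τ' o' c' t' rfl
        rw [← hn]
        apply Finset.card_lt_card
        rw [Finset.ssubset_iff_of_subset]
        · exact ⟨r, Finset.mem_filter.2 ⟨hrP, hnr⟩, fun hr => (Finset.mem_filter.1 hr).2 hres⟩
        · intro v hv
          rw [Finset.mem_filter] at hv ⊢
          exact ⟨hv.1, fun hr => hv.2 (res_mono hsub hr)⟩
      cases ho : o with
      | some Nw =>
        obtain ⟨N, w⟩ := Nw
        obtain ⟨hB, hw⟩ := ht.pend N w ho
        have hh := tiphull N w hB
        have hNw := (h.tip N w hB).1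
        have hwN : (w, N) ∈ M := hc.sub (h.pl.sym _ _ hNw)
        have hne := h.pl.ne _ _ hNw
        rcases ht.tip N w hB with ⟨g, hg, -, -⟩ | ⟨-, hhalf, -⟩
        · exact absurd hg (hw g)
        have hedge := fun v hv => tip_edges h hc hB hw (v := v) hv
        have hfree : (∀ u, (w, u) ∈ M → orient N w u ≤ 0) ∨
            (∀ u, (w, u) ∈ M → 0 ≤ orient N w u) := by
          rcases hhalf with ⟨k1, k2⟩ | ⟨k1, k2⟩
          · right
            intro u hu
            rcases hedge u hu with e | e | e
            · rw [e, orient_self2]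
            · exact k2 u e
            · rw [k1] at e; simp at e
          · left
            intro u hu
            rcases hedge u hu with e | e | e
            · rw [e, orient_self2]
            · rw [k1] at e; simp at e
            · have := k2 u e
              rw [orient_swap] at this
              linarith
        have hnr : ¬ Res M w := by
          intro hr
          rcases hfree with hf | hf
          · obtain ⟨u, hu, h1⟩ := hr ((2 : ℝ) • w - N) (by
              intro he
              apply hne
              have h2 : (2 : ℝ) • w - N - w = 0 := sub_eq_zero.2 he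
              have h3 : (2 : ℝ) • w - N - w = w - N := by
                rw [two_smul]; abel
              rw [h3] at h2
              exact (sub_eq_zero.1 h2).symm)
            have h2 : orient w ((2 : ℝ) • w - N) u = orient N w u := by
              unfold orient
              simp only [Prod.fst_sub, Prod.snd_sub, Prod.smul_fst, Prod.smul_snd, smul_eq_mul]
              ring
            have := hf u hu
            linarith
          · obtain ⟨u, hu, h1⟩ := hr N hne
            have := hf u hu
            rw [orient_swap] at this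
            linarith
        refine shoot w N hwN hh hnr hfree ?_
        intro N' w' he
        rw [ho] at he
        simp only [Option.some.injEq, Prod.mk.injEq] at he
        exact ⟨he.2, he.1⟩
      | none =>
        by_cases hex : ∃ r, (∃ u, (r, u) ∈ M) ∧ (∀ a, ¬ HE P r a) ∧ ¬ Res M r
        · obtain ⟨r, hu, hh, hnr⟩ := hex
          have hrP : r ∈ P := by
            obtain ⟨u, hu⟩ := hu
            exact (hc.pl.sub _ _ hu).1
          obtain ⟨c, hc1, hc2⟩ := exists_extreme hG hc.pl hrP hnr hu
          refine shoot r c hc1 hh hnr (Or.inl hc2) ?_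
          intro N w he
          rw [ho] at he
          exact absurd he (by simp)
        · push Not at hex
          refine ⟨M, τ, ⟨hc.pl, hc.sub, hc.free, hc.edge, hc.sides, hc.node, hc.nodup, hc.disj,
            hc.ap, ?_, ?_, hc.inj, hc.new, hc.base⟩⟩
          · intro v hv hh
            obtain ⟨u, hu⟩ := hv
            exact hex v ⟨u, hu⟩ hh
          · intro N w hB
            rcases ht.tip N w hB with h1 | ⟨hw, -, hbare⟩
            · exact h1
            · exfalso
              obtain ⟨b1, b2⟩ := hbare (by rw [ho]; simp)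
              have hNw := (h.tip N w hB).1
              have hwN : (w, N) ∈ M := hc.sub (h.pl.sym _ _ hNw)
              have hr := hex w ⟨N, hwN⟩ (tiphull N w hB)
              refine not_res_single (h.pl.ne _ _ hNw) ?_ hr
              intro u hu
              rcases tip_edges h hc hB hw hu with e | e | e
              · exact e
              · rw [b1] at e; simp at e
              · rw [b2] at e; simp at e
  refine main _ M0 (fun _ => FT.lf) none (core_init h) ⟨?_, ?_⟩ rfl
  · intro N w hB
    right
    refine ⟨fun g => by simp, Or.inl ⟨rfl, fun a ha => by simp at ha⟩, fun _ => ⟨rfl, rfl⟩⟩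
  · intro N w he
    exact absurd he (by simp)

end Pool.Agent.RFX

end

section

set_option autoImplicit false

/-!
# RFX/Local : the complex inside one cell with untouched single points (MP_72a26e_co)
-/

namespace Pool.Agent.RFX

open List

theorem local_family (G : Finset Pt) (hg : Gen G) (h3 : 3 ≤ G.card) {a b : Pt} (hab : HE G a b) :
    ∃ T : Finset (Finset Pt), Cx T ∧ Conn T ∧ T.Nonempty ∧ V T = G ∧
      ∑ t ∈ T, (t.card - 2) + 2 = G.card ∧
      (∀ u v, HE G u v → (u, v) ≠ (a, b) → ∃ t ∈ T, HE t u v) ∧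
      (multi G T).card ≤ 4 * (open Classical in G.filter (fun p => ∀ u, ¬ HE G p u)).card + 2 := by
  classical
  obtain ⟨T, h1, h2, h4, h5, h6, h7, h8⟩ := fill G hg h3 a b hab
  refine ⟨T, h1, h4, h2, h5, h6, h7, ?_⟩
  obtain ⟨l, l1, l2, l3, l4, l5, l6⟩ := exists_hull_list G hg h3
  have hset : G.filter (fun p => ¬ ∃ y, HE G y p) ⊆ G.filter (fun p => ∀ u, ¬ HE G p u) := by
    intro p hp
    rw [Finset.mem_filter] at hp ⊢
    refine ⟨hp.1, ?_⟩
    intro u hu
    apply hp.2
    have hpl : p ∈ l := (mem_of_mem_cyc l p u ((l6 p u).1 hu)).1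
    obtain ⟨y, hy⟩ := mem_cyc_of_mem' l p hpl
    exact ⟨y, (l6 y p).2 hy⟩
  have h9 := Finset.card_le_card hset
  refine h8.trans ?_
  have h10 : 3 * (G.filter (fun p => ¬ ∃ y, HE G y p)).card ≤
      3 * (G.filter (fun p => ∀ u, ¬ HE G p u)).card := Nat.mul_le_mul_left 3 h9
  omega

end Pool.Agent.RFX

end

section

set_option autoImplicit false

/-!
# RFX/Asm : final assembly (MP_72a26e_co)
-/

namespace Pool.Agent.RFX

open List

theorem pe_closed (X : Finset Pt) (l : List Pt) (x : Pt)
    (h : ∀ a b, (a, b) ∈ pe (x :: l) → a ∈ X → b ∈ X) (hx : x ∈ X) : ∀ z ∈ x :: l, z ∈ X := by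
  induction l generalizing x with
  | nil =>
    intro z hz
    simp only [List.mem_cons, List.not_mem_nil, or_false] at hz
    rw [hz]; exact hx
  | cons y l ih =>
    intro z hz
    rw [List.mem_cons] at hz
    rcases hz with rfl | hz
    · exact hx
    · have h1 : y ∈ X := h x y (by simp [pe]) hx
      exact ih y (fun a b hab => h a b (by simp only [pe, List.mem_cons]; exact Or.inr hab)) h1 z hz

theorem CP.closed_eq {q : Finset Pt} (h : CP q) (h3 : 3 ≤ q.card) (X : Finset Pt) (hX : X ⊆ q)
    (hne : X.Nonempty) (hcl : ∀ u ∈ X, ∀ v, HE q u v → v ∈ X) : X = q := by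
  classical
  obtain ⟨l, l1, l2, l4⟩ := h
  have hlen : l.length = q.card := CP.length l1 l2
  obtain ⟨x, hx⟩ := hne
  have hxl : x ∈ l := by rw [← List.mem_toFinset, l2]; exact hX hx
  obtain ⟨p, r, hpr⟩ := List.append_of_mem hxl
  have hL0 : CCW (x :: (r ++ p)) := by
    have := l4
    rw [hpr] at this
    exact this.rot
  have hperm0 : l.Perm (x :: (r ++ p)) := by
    rw [hpr]
    exact List.perm_append_comm
  have nL : (x :: (r ++ p)).Nodup := hperm0.nodup_iff.1 l1
  have fL : (x :: (r ++ p)).toFinset = q := by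
    rw [← l2]; exact (List.toFinset_eq_of_perm _ _ hperm0).symm
  have lenL : 3 ≤ (x :: (r ++ p)).length := by
    rw [← hperm0.length_eq]; omega
  apply Finset.Subset.antisymm hX
  intro z hz
  rw [← fL, List.mem_toFinset] at hz
  apply pe_closed X (r ++ p) x _ hx z hz
  intro a b hab ha
  apply hcl a ha b
  rw [← fL, ← hL0.mem_cyc_iff nL lenL, cyc_cons]
  rw [mem_pe_iff] at hab ⊢
  obtain ⟨q1, q2, hq⟩ := hab
  have e1 : x :: (r ++ p ++ [x]) = (x :: (r ++ p)) ++ [x] := rfl
  rw [e1, hq]
  exact ⟨q1, q2 ++ [x], by simp⟩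

/-- what the complex inside one thickened cell must satisfy -/
structure Loc (Cl : Finset (Pt × Pt)) (q G : Finset Pt) (n : ℕ) (TT : Finset (Finset Pt)) :
    Prop where
  t1 : Cx TT
  t2 : TT.Nonempty → V TT = G
  t3 : Conn TT
  t4 : TT.Nonempty → ∀ a b, HE q a b → (a, b) ∉ Cl → ∃ t ∈ TT, HE t a b
  t5 : TT.Nonempty → ∑ t ∈ TT, (t.card - 2) + 2 = G.card
  t6 : TT = ∅ → G.card ≤ 2
  t7 : (multi G TT).card ≤ 6 * n

theorem asm (P P1 : Finset Pt) (hg : Gen P) (h3 : 3 ≤ P1.card) (hP : P1 ⊆ P)
    {C E Hd : Finset (Finset Pt)} {Cl : Finset (Pt × Pt)} (hF : Full P1 C)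
    (hR : Reach P1 C E Cl) (hall : ∀ a ∈ P1, ∀ b ∈ P1, Joined Cl a b)
    (hAt : ∀ v ∈ P1, ConnAt C E Hd Cl v)
    (hS : ∀ s ∈ P, s ∉ P1 → ∃ q ∈ C \ E, q ∉ Hd ∧ s ∈ convexHull ℝ (q : Set Pt) ∧
      ∃ a b, HE q a b ∧ (a, b) ∈ Cl) :
    ∃ T : Finset (Finset Pt), Cx T ∧ T.Nonempty ∧ Conn T ∧ V T = P ∧
      ∑ t ∈ T, (t.card - 2) + 2 = P.card ∧
      (multi P T).card ≤ ((openSides C Cl).image Prod.fst).card + 6 * (P \ P1).card := by
  classical
  have hg1 : Gen P1 := hg.mono hP
  have hI := hR.inv hF
  have hconnC := hF.conn hg1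
  have hsub : ∀ t ∈ C, ∀ z ∈ t, z ∈ P1 := by
    intro t ht z hz
    rw [← hF.V_eq]; exact (mem_V C z).2 ⟨t, ht, hz⟩
  have hCE : ∀ q ∈ C \ E, q ∈ C := fun q hq => (Finset.mem_sdiff.1 hq).1
  -- assignment of vertices
  have hasg0 : ∀ v ∈ P1, ∃ q, q ∈ C \ E ∧ v ∈ q := by
    intro v hv
    obtain ⟨q, hq, hqE, hvq⟩ := hI.free v hv
    exact ⟨q, Finset.mem_sdiff.2 ⟨hq, hqE⟩, hvq⟩
  choose! asg hasg using hasg0
  -- location of the single points
  have hloc0 : ∀ s, s ∈ P \ P1 → ∃ q, q ∈ C \ E ∧ q ∉ Hd ∧ s ∈ convexHull ℝ (q : Set Pt) ∧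
      ∃ a b, HE q a b ∧ (a, b) ∈ Cl := by
    intro s hs
    rw [Finset.mem_sdiff] at hs
    obtain ⟨q, h1, h2⟩ := hS s hs.1 hs.2
    exact ⟨q, h1, h2⟩
  choose! loc hloc using hloc0
  set K : Finset Pt → Finset Pt := fun q => Kp C E Hd Cl asg q with hK
  set Sg : Finset Pt → Finset Pt := fun q => (P \ P1).filter (fun s => loc s = q) with hSg
  set G : Finset Pt → Finset Pt := fun q => K q ∪ Sg q with hG
  have hKsub : ∀ q, K q ⊆ q := fun q => Kp_sub C E Hd Cl asg q
  have memSg : ∀ q s, s ∈ Sg q ↔ (s ∈ P ∧ s ∉ P1) ∧ loc s = q := by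
    intro q s
    simp only [hSg, Finset.mem_filter, Finset.mem_sdiff]
  have g1 : ∀ q ∈ C \ E, ∀ x ∈ G q, x ∈ convexHull ℝ (q : Set Pt) := by
    intro q hq x hx
    simp only [hG, Finset.mem_union] at hx
    rcases hx with hx | hx
    · exact subset_convexHull ℝ _ (Finset.mem_coe.2 (hKsub q hx))
    · rw [memSg] at hx
      have := hloc x (Finset.mem_sdiff.2 hx.1)
      rw [hx.2] at this
      exact this.2.2.1
  have GP : ∀ q ∈ C \ E, ∀ x ∈ G q, x ∈ P := by
    intro q hq x hx
    simp only [hG, Finset.mem_union] at hx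
    rcases hx with hx | hx
    · exact hP (hsub q (hCE q hq) x (hKsub q hx))
    · exact ((memSg q x).1 hx).1.1
  have g2 : ∀ q ∈ C \ E, ∀ a b, HE q a b → ∀ x ∈ G q, x ≠ a → x ≠ b → 0 < orient a b x := by
    intro q hq a b hab x hx hxa hxb
    have h1 : 0 ≤ orient a b x := by
      apply orient_nonneg_of_mem_hull a b x _ _ (g1 q hq x hx)
      intro z hz
      exact hab.nonneg z (Finset.mem_coe.1 hz)
    have haP : a ∈ P := hP (hsub q (hCE q hq) a hab.1)
    have hbP : b ∈ P := hP (hsub q (hCE q hq) b hab.2.1)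
    exact lt_of_le_of_ne h1
      (hg a haP b hbP x (GP q hq x hx) hab.2.2.1 (Ne.symm hxa) (Ne.symm hxb)).symm
  have g3 : ∀ q ∈ C \ E, ∀ a b, HE q a b → (a, b) ∉ Cl → a ∈ K q ∧ b ∈ K q := by
    intro q hq a b hab hcl
    constructor
    · exact (mem_Kp C E Hd Cl asg q a).2 ⟨hab.1, Or.inl ⟨hab.1, Or.inr ⟨b, hcl, Or.inl hab⟩⟩⟩
    · exact (mem_Kp C E Hd Cl asg q b).2 ⟨hab.2.1, Or.inl ⟨hab.2.1, Or.inr ⟨a,
        fun h1 => hcl (hI.symm _ _ h1), Or.inr hab⟩⟩⟩
  have hcount := fun v hv => Kp_count hF hI asg hasg (Hd := Hd) (v := v) hv (hAt v hv)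
  have hconnQ : ∀ O ⊆ C \ E, O.Nonempty → O ≠ C \ E → ∃ s ∈ O, ∃ t ∈ C \ E, t ∉ O ∧
      ∃ a b, HE s a b ∧ HE t b a ∧ (a, b) ∉ Cl :=
    fun O hO hne hOne => hR.connected hF hconnC O hO hne hOne
  have hK2 : ∀ q ∈ C \ E, 2 ≤ (K q).card := by
    intro q hq
    by_cases hQ : ({q} : Finset (Finset Pt)) = C \ E
    · have : P1 ⊆ K q := by
        intro v hv
        obtain ⟨q', hq', hvq'⟩ := (hcount v hv).1
        rw [← hQ, Finset.mem_singleton] at hq'
        rw [← hq']; exact hvq'
      have := Finset.card_le_card this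
      omega
    · obtain ⟨s, hs, t, _, _, a, b, hab, _, hcl⟩ := hconnQ {q} (Finset.singleton_subset_iff.2 hq)
        (Finset.singleton_nonempty q) hQ
      rw [Finset.mem_singleton] at hs
      subst hs
      have h1 := g3 s hq a b hab hcl
      have h2 : ({a, b} : Finset Pt) ⊆ K s := by
        intro z hz
        simp only [Finset.mem_insert, Finset.mem_singleton] at hz
        rcases hz with rfl | rfl
        · exact h1.1
        · exact h1.2
      have h4 := Finset.card_le_card h2
      rw [Finset.card_pair hab.2.2.1] at h4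
      exact h4
  have hKP1 : ∀ q ∈ C \ E, ∀ z ∈ K q, z ∈ P1 := fun q hq z hz => hsub q (hCE q hq) z (hKsub q hz)
  -- the local complexes
  have hTT : ∀ q, q ∈ C \ E → ∃ TT, Loc Cl q (G q) (Sg q).card TT := by
    intro q hq
    have hcpq := hF.cx.cp q (hCE q hq)
    have h3q := hF.cx.three q (hCE q hq)
    by_cases hSq : Sg q = ∅
    · have hGK : G q = K q := by simp only [hG, hSq, Finset.union_empty]
      by_cases h3K : 3 ≤ (K q).card
      · refine ⟨{K q}, Cx_single _ (hcpq.mono (hKsub q)) h3K, ?_, Conn_single _, ?_, ?_, ?_, ?_⟩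
        · intro _; rw [hGK]; simp [V]
        · intro _ a b hab hcl
          have h1 := g3 q hq a b hab hcl
          exact ⟨K q, by simp, hab.sub (hKsub q) h1.1 h1.2⟩
        · intro _; rw [Finset.sum_singleton, hGK]; omega
        · intro h; simp at h
        · have : multi (G q) {K q} = ∅ := by
            unfold multi
            rw [Finset.filter_eq_empty_iff]
            rintro v _ ⟨s, hs, t, ht, hst, _⟩
            rw [Finset.mem_singleton] at hs ht
            exact hst (hs.trans ht.symm)
          rw [this]; simp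
      · refine ⟨∅, Cx_empty, ?_, Conn_empty, ?_, ?_, ?_, ?_⟩
        · intro h; simp at h
        · intro h; simp at h
        · intro h; simp at h
        · intro _; rw [hGK]; omega
        · have : multi (G q) ∅ = ∅ := by
            unfold multi
            rw [Finset.filter_eq_empty_iff]
            rintro v _ ⟨s, hs, _⟩
            simp at hs
          rw [this]; simp
    · -- single points in q
      obtain ⟨s0, hs0⟩ := Finset.nonempty_iff_ne_empty.2 hSq
      have hs0' := (memSg q s0).1 hs0
      have hl0 := hloc s0 (Finset.mem_sdiff.2 hs0'.1)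
      rw [hs0'.2] at hl0
      obtain ⟨_, _, _, c, d, hcd, hcdCl⟩ := hl0
      have hGg : Gen (G q) := hg.mono (fun x hx => GP q hq x hx)
      have hG3 : 3 ≤ (G q).card := by
        have h1 : insert s0 (K q) ⊆ G q := by
          intro z hz
          rw [Finset.mem_insert] at hz
          simp only [hG, Finset.mem_union]
          rcases hz with rfl | hz
          · exact Or.inr hs0
          · exact Or.inl hz
        have h2 := Finset.card_le_card h1
        rw [Finset.card_insert_of_notMem (fun h => hs0'.1.2 (hKP1 q hq s0 h))] at h2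
        have := hK2 q hq
        omega
      obtain ⟨l, l1, l2, l3, l4, l5, l6⟩ := exists_hull_list (G q) hGg hG3
      -- the mouth
      have hmouth : ∃ u v, HE (G q) u v ∧ ¬ (HE q u v ∧ (u, v) ∉ Cl) := by
        by_contra hno
        push Not at hno
        have hX : l.toFinset = q := by
          apply hcpq.closed_eq h3q
          · intro u hu
            rw [List.mem_toFinset] at hu
            obtain ⟨v, hv⟩ := mem_cyc_of_mem l u hu
            exact (hno u v ((l6 u v).2 hv)).1.1
          · obtain ⟨x0, hx0⟩ := List.exists_mem_of_length_pos (show 0 < l.length by omega)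
            exact ⟨x0, List.mem_toFinset.2 hx0⟩
          · intro u hu v huv
            rw [List.mem_toFinset] at hu
            obtain ⟨v', hv'⟩ := mem_cyc_of_mem l u hu
            have h1 := (hno u v' ((l6 u v').2 hv')).1
            rw [huv.succ_unique h1, List.mem_toFinset]
            exact (mem_of_mem_cyc l u v' hv').2
        have hc : c ∈ l := by rw [← List.mem_toFinset, hX]; exact hcd.1
        obtain ⟨v', hv'⟩ := mem_cyc_of_mem l c hc
        have h1 := hno c v' ((l6 c v').2 hv')
        rw [h1.1.succ_unique hcd] at h1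
        exact h1.2 hcdCl
      obtain ⟨u, v, huv, hnouv⟩ := hmouth
      obtain ⟨T, T1, T2, T3, T4, T5, T6, T7⟩ := local_family (G q) hGg hG3 huv
      refine ⟨T, T1, fun _ => T4, T2, ?_, fun _ => T5, ?_, ?_⟩
      · intro _ a b hab hcl
        have h1 := g3 q hq a b hab hcl
        apply T6 a b
        · refine ⟨?_, ?_, hab.2.2.1, fun x hx hxa hxb => g2 q hq a b hab x hx hxa hxb⟩
          · simp only [hG, Finset.mem_union]; exact Or.inl h1.1
          · simp only [hG, Finset.mem_union]; exact Or.inl h1.2
        · intro e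
          rw [Prod.mk.injEq] at e
          obtain ⟨rfl, rfl⟩ := e
          exact hnouv ⟨hab, hcl⟩
      · intro h; rw [h] at T3; simp at T3
      · have hin : (G q).filter (fun p => ∀ u, ¬ HE (G q) p u) ⊆ Sg q := by
          intro p hp
          rw [Finset.mem_filter] at hp
          obtain ⟨hp1, hp2⟩ := hp
          have hp1' := hp1
          simp only [hG, Finset.mem_union] at hp1
          rcases hp1 with h1 | h1
          · exfalso
            have hpl : p ∈ l := by
              obtain ⟨w, hw⟩ := hcpq.exists_succ h3q (hKsub q h1)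
              have h5 := l5 p hp1'
              by_contra hpl
              -- p is extreme
              have hE : HE (insert p (insert w (l.toFinset))) p w := by
                refine ⟨by simp, by simp, hw.2.2.1, ?_⟩
                intro x hx hxp hxw
                simp only [Finset.mem_insert] at hx
                rcases hx with hx | hx | hx
                · exact absurd hx hxp
                · exact absurd hx hxw
                · rw [List.mem_toFinset] at hx
                  exact g2 q hq p w hw x (l2 x hx) hxp hxw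
              have h6 := hE.mem_left (B := l.toFinset)
                (by intro x hx; simp only [Finset.mem_insert]; exact Or.inr (Or.inr hx)) h5
              exact hpl (List.mem_toFinset.1 h6)
            obtain ⟨w, hw⟩ := mem_cyc_of_mem l p hpl
            exact hp2 w ((l6 p w).2 hw)
          · exact h1
        have h1 := Finset.card_le_card hin
        have h2 : 0 < (Sg q).card := Finset.card_pos.2 ⟨s0, hs0⟩
        omega
  choose! TT hTTq using hTT
  have hdata : AsbData P C (C \ E) Cl G TT := by
    refine ⟨hF.cx, fun q hq => hCE q hq, ?_, g1, g2, ?_, hI.symm,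
      fun q hq => (hTTq q hq).t1, fun q hq => (hTTq q hq).t2, fun q hq => (hTTq q hq).t3,
      fun q hq => (hTTq q hq).t4, fun q hq => (hTTq q hq).t5, fun q hq => (hTTq q hq).t6,
      ?_, ?_, ?_, hconnQ⟩
    · exact h3.trans (Finset.card_le_card hP)
    · intro q hq a b hab hcl
      have h1 := g3 q hq a b hab hcl
      simp only [hG, Finset.mem_union]
      exact ⟨Or.inl h1.1, Or.inl h1.2⟩
    · intro v
      constructor
      · intro hv
        by_cases hv1 : v ∈ P1
        · obtain ⟨q, hq, hvq⟩ := (hcount v hv1).1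
          exact ⟨q, hq, by simp only [hG, Finset.mem_union]; exact Or.inl hvq⟩
        · refine ⟨loc v, (hloc v (Finset.mem_sdiff.2 ⟨hv, hv1⟩)).1, ?_⟩
          simp only [hG, Finset.mem_union]
          exact Or.inr ((memSg _ _).2 ⟨⟨hv, hv1⟩, rfl⟩)
      · rintro ⟨q, hq, hvq⟩
        exact GP q hq v hvq
    · have h1 := Kp_sum hF hI asg hasg hAt
      have h2 : ∑ q ∈ C \ E, (Sg q).card = (P \ P1).card := by
        symm
        apply Finset.card_eq_sum_card_fiberwise
        intro s hs
        exact (hloc s (Finset.mem_coe.1 hs)).1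
      have h4 : ∑ q ∈ C \ E, (G q).card ≤ ∑ q ∈ C \ E, ((K q).card + (Sg q).card) :=
        Finset.sum_le_sum (fun q _ => Finset.card_union_le _ _)
      rw [Finset.sum_add_distrib, h2] at h4
      have h5 : (P \ P1).card + P1.card = P.card := Finset.card_sdiff_add_card_eq_card hP
      have h6 : ∑ q ∈ C \ E, (K q).card ≤ P1.card + (openSides C Cl).card := h1
      omega
    · exact hR.openSides_le hF hg1 h3 (hF.euler hg1 h3).le hall
  refine ⟨(C \ E).biUnion TT, hdata.Cx, hdata.nonempty, hdata.Conn, hdata.V_eq, hdata.sum, ?_⟩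
  have hsubm : multi P ((C \ E).biUnion TT) ⊆ (openSides C Cl).image Prod.fst ∪
      (C \ E).biUnion (fun q => multi (G q) (TT q)) := by
    intro v hv
    rw [Finset.mem_union]
    rcases hdata.multi hv with ⟨q, hq, q', hq', hne, hvq, hvq', hvq0⟩ | ⟨q, hq, hv2⟩
    · left
      have hv1 : v ∈ P1 := hsub q (hCE q hq) v hvq0
      have hKq : v ∈ K q := by
        simp only [hG, Finset.mem_union] at hvq
        rcases hvq with h1 | h1
        · exact h1
        · exact absurd hv1 ((memSg q v).1 h1).1.2
      have hKq' : v ∈ K q' := by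
        simp only [hG, Finset.mem_union] at hvq'
        rcases hvq' with h1 | h1
        · exact h1
        · exact absurd hv1 ((memSg q' v).1 h1).1.2
      have h1 := (hcount v hv1).2
      have h2 : 1 < ((C \ E).filter (fun q => v ∈ Kp C E Hd Cl asg q)).card := by
        rw [Finset.one_lt_card]
        exact ⟨q, Finset.mem_filter.2 ⟨hq, hKq⟩, q', Finset.mem_filter.2 ⟨hq', hKq'⟩, hne⟩
      have h4 : 0 < ((openSides C Cl).filter (fun e => e.1 = v)).card := by omega
      obtain ⟨e, he⟩ := Finset.card_pos.1 h4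
      rw [Finset.mem_filter] at he
      rw [Finset.mem_image]
      exact ⟨e, he.1, he.2⟩
    · right
      exact Finset.mem_biUnion.2 ⟨q, hq, hv2⟩
  have h2 : ∑ q ∈ C \ E, (Sg q).card = (P \ P1).card := by
    symm
    apply Finset.card_eq_sum_card_fiberwise
    intro s hs
    exact (hloc s (Finset.mem_coe.1 hs)).1
  calc (multi P ((C \ E).biUnion TT)).card
      ≤ _ := Finset.card_le_card hsubm
    _ ≤ ((openSides C Cl).image Prod.fst).card +
        ((C \ E).biUnion (fun q => multi (G q) (TT q))).card := Finset.card_union_le _ _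
    _ ≤ ((openSides C Cl).image Prod.fst).card + ∑ q ∈ C \ E, (multi (G q) (TT q)).card := by
        have := Finset.card_biUnion_le (s := C \ E) (t := fun q => multi (G q) (TT q))
        omega
    _ ≤ ((openSides C Cl).image Prod.fst).card + ∑ q ∈ C \ E, 6 * (Sg q).card := by
        have := Finset.sum_le_sum (s := C \ E) (fun q hq => (hTTq q hq).t7)
        omega
    _ = ((openSides C Cl).image Prod.fst).card + 6 * (P \ P1).card := by
        rw [← Finset.mul_sum, h2]

end Pool.Agent.RFX

end
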