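import Mathlib
import Pool.Agent.RFM.P04
import Pool.Agent.RFM.P07
import Pool.Agent.RFM.P10
import Pool.Agent.RFM.P11

set_option autoImplicit false

/-!
# RFM/P14 (MP_72a26e_co): the files RFX/CrRing, RFX/TreeL, RFX/Ops, RFX/OpOpen, merged to save build time
-/

section

set_option autoImplicit false

/-!
# Labels on the ring of a zone (helper62)
-/

namespace Pool.Agent.RFX

open _root_.RFX.Cr

namespace Cr

/-- a labelling of faces and points by Bool -/
structure LabD where
  chi : Finset Pt → Bool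
  l : Pt → Bool

/-- label of a ring edge -/
def LabD.re (L : LabD) (e : RE) : Bool :=
  match e.s with
  | some f => L.chi f
  | none => L.l e.a

theorem LabD.re_some {L : LabD} {e : RE} {f : Finset Pt} (h : e.s = some f) :
    L.re e = L.chi f := by
  unfold LabD.re; rw [h]

theorem LabD.re_none {L : LabD} {e : RE} (h : e.s = none) : L.re e = L.l e.a := by
  unfold LabD.re; rw [h]

/-- labelled path -/
def labl (L : LabD) (r : List RE) : List (Pt × Bool) := r.map (fun e => (e.a, L.re e))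

@[simp] theorem labl_fst (L : LabD) (r : List RE) : (labl L r).map Prod.fst = r.map RE.a := by
  simp [labl, Function.comp_def]

theorem labl_append (L : LabD) (r s : List RE) : labl L (r ++ s) = labl L r ++ labl L s := by
  simp [labl]

@[simp] theorem labl_cons (L : LabD) (e : RE) (s : List RE) :
    labl L (e :: s) = (e.a, L.re e) :: labl L s := rfl

@[simp] theorem labl_nil (L : LabD) : labl L [] = [] := rfl

end Cr

namespace Zone

theorem ring_bb (z : Zone) : z.ring.map RE.b = z.t.apex ++ (z.y :: z.t'.apex) ++ [z.x] := by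
  simp [ring, ZT.ring_b]

theorem nodup_b {z : Zone} (h : z.vs.Nodup) : (z.ring.map RE.b).Nodup := by
  rw [ring_bb]
  have : (z.t.apex ++ (z.y :: z.t'.apex) ++ [z.x]).Perm z.vs := by
    unfold vs
    exact List.perm_append_comm.trans (by simp)
  exact this.nodup_iff.2 h

theorem nodup_a {z : Zone} (h : z.vs.Nodup) : (z.ring.map RE.a).Nodup := by
  rw [ring_a]; exact h

theorem aa_inj {z : Zone} (h : z.vs.Nodup) {e d : RE} (he : e ∈ z.ring) (hd : d ∈ z.ring)
    (hab : e.a = d.a) : e = d :=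
  List.inj_on_of_nodup_map (nodup_a h) he hd hab

theorem bb_inj {z : Zone} (h : z.vs.Nodup) {e d : RE} (he : e ∈ z.ring) (hd : d ∈ z.ring)
    (hab : e.b = d.b) : e = d :=
  List.inj_on_of_nodup_map (nodup_b h) he hd hab

theorem ring_chain (z : Zone) : z.ring.IsChain (fun e e' => e.b = e'.a) := by
  rw [ring, List.isChain_append]
  refine ⟨ZT.ring_chain _ _ _, ZT.ring_chain _ _ _, ?_⟩
  intro e he e' he'
  rw [ZT.ring_last _ _ _ e he, ZT.ring_head _ _ _ e' he']

theorem ring_head (z : Zone) : ∀ e ∈ z.ring.head?, e.a = z.x := by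
  intro e he
  rw [ring, List.head?_append_of_ne_nil _ (ZT.ring_ne_nil _ _ _)] at he
  exact ZT.ring_head _ _ _ e he

theorem ring_last (z : Zone) : ∀ e ∈ z.ring.getLast?, e.b = z.x := by
  intro e he
  rw [ring, List.getLast?_append_of_ne_nil _ (ZT.ring_ne_nil _ _ _)] at he
  exact ZT.ring_last _ _ _ e he

theorem mem_vs_of_a {z : Zone} {e : RE} (he : e ∈ z.ring) : e.a ∈ z.vs := by
  rw [← ring_a]; exact List.mem_map_of_mem he

theorem mem_vs_of_b {z : Zone} {e : RE} (he : e ∈ z.ring) : e.b ∈ z.vs := by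
  have h : e.b ∈ z.ring.map RE.b := List.mem_map_of_mem he
  rw [ring_bb] at h
  unfold vs
  simp only [List.mem_append, List.mem_cons, List.not_mem_nil, or_false] at h ⊢
  tauto

/-- the ring edge starting at a ring vertex -/
theorem exists_a {z : Zone} {v : Pt} (hv : v ∈ z.vs) : ∃ e ∈ z.ring, e.a = v := by
  rw [← ring_a] at hv
  exact List.mem_map.1 hv

/-- the ring edge ending at a ring vertex -/
theorem exists_b {z : Zone} {v : Pt} (hv : v ∈ z.vs) : ∃ e ∈ z.ring, e.b = v := by
  have h : v ∈ z.ring.map RE.b := by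
    rw [ring_bb]
    unfold vs at hv
    simp only [List.mem_append, List.mem_cons, List.not_mem_nil, or_false] at hv ⊢
    tauto
  exact List.mem_map.1 h

theorem exists_next {z : Zone} {v : Pt} (hv : v ∈ z.vs) :
    ∃ e e', z.Next e e' ∧ e.b = v ∧ e'.a = v := by
  obtain ⟨e, he, h1⟩ := exists_b hv
  obtain ⟨e', he', h2⟩ := exists_a hv
  exact ⟨e, e', ⟨he, he', h1.trans h2.symm⟩, h1, h2⟩

/-- consecutive ring edges are consecutive in the list or last and first -/
theorem next_split {z : Zone} (hnd : z.vs.Nodup) {e e' : RE} (h : z.Next e e') :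
    (∃ A B, z.ring = A ++ e :: e' :: B) ∨ (∃ A, z.ring = e' :: (A ++ [e])) := by
  obtain ⟨he, he', hb⟩ := h
  obtain ⟨A, B, hAB⟩ := List.append_of_mem he'
  rcases List.eq_nil_or_concat A with rfl | ⟨A', d, rfl⟩
  · right
    simp only [List.nil_append] at hAB
    have hx : e'.a = z.x := by
      apply ring_head z e'
      rw [hAB]; simp
    rcases List.eq_nil_or_concat B with rfl | ⟨B', d, rfl⟩
    · exfalso
      have h1 : z.ring.length = 1 := by rw [hAB]; rfl
      unfold ring at h1
      rw [List.length_append] at h1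
      have h2 := List.length_pos_of_ne_nil (ZT.ring_ne_nil z.t z.x z.y)
      have h3 := List.length_pos_of_ne_nil (ZT.ring_ne_nil z.t' z.y z.x)
      omega
    · have hd : d ∈ z.ring := by rw [hAB]; simp
      have hdb : d.b = z.x := by
        apply ring_last z d
        rw [hAB, List.concat_eq_append, ← List.cons_append, List.getLast?_append]; simp
      have : e = d := bb_inj hnd he hd (by rw [hb, hx, hdb])
      subst this
      exact ⟨B', by simpa using hAB⟩
  · left
    have hd : d ∈ z.ring := by rw [hAB]; simp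
    have hch := z.ring_chain
    rw [hAB, List.concat_eq_append, List.append_assoc, List.isChain_append] at hch
    have hde : d.b = e'.a := by
      have := hch.2.1
      simp only [List.cons_append, List.nil_append, List.isChain_cons_cons] at this
      exact this.1
    have : e = d := bb_inj hnd he hd (by rw [hb, hde])
    subst this
    exact ⟨A', B, by rw [hAB]; simp⟩

end Zone

namespace Cr

/-- label changes on the ring of a zone -/
def zchg (L : LabD) (z : Zone) : List Pt := chg (labl L z.ring)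

theorem zchg_sub (L : LabD) (z : Zone) : (zchg L z).Sublist z.vs := by
  have := chg_sublist (labl L z.ring)
  rw [labl_fst, Zone.ring_a] at this
  exact this

theorem zchg_nodup (L : LabD) {z : Zone} (h : z.vs.Nodup) : (zchg L z).Nodup :=
  (zchg_sub L z).nodup h

theorem zchg_even (L : LabD) (z : Zone) : Even (zchg L z).length := even_chg _

/-- the label changes at a ring vertex iff the two ring edges have different labels -/
theorem mem_zchg {L : LabD} {z : Zone} (hnd : z.vs.Nodup) {e e' : RE} (h : z.Next e e') :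
    e'.a ∈ zchg L z ↔ L.re e ≠ L.re e' := by
  unfold zchg
  rcases Zone.next_split hnd h with ⟨A, B, hAB⟩ | ⟨A, hA⟩
  · have h1 : labl L z.ring = labl L (A ++ [e]) ++ (e'.a, L.re e') :: labl L B := by
      rw [hAB, ← labl_cons, ← labl_append]; simp
    have hn : ((labl L (A ++ [e]) ++ (e'.a, L.re e') :: labl L B).map Prod.fst).Nodup := by
      rw [← h1, labl_fst, Zone.ring_a]; exact hnd
    rw [h1, mem_chg hn, labl_append, lst_append]
    simp
  · have h1 : labl L z.ring = [] ++ (e'.a, L.re e') :: labl L (A ++ [e]) := by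
      rw [hA]; rfl
    have hn : (([] ++ (e'.a, L.re e') :: labl L (A ++ [e])).map Prod.fst).Nodup := by
      rw [← h1, labl_fst, Zone.ring_a]; exact hnd
    rw [h1, mem_chg hn, labl_append, lst_nil, lst_append]
    simp

/-- no change: constant -/
theorem const_of_chgp_nil {V : Type*} {b : Bool} {l : List (V × Bool)} (h : chgp b l = []) :
    ∀ e ∈ l, e.2 = b := by
  induction l generalizing b with
  | nil => simp
  | cons d l ih =>
    rw [chgp_cons] at h
    rw [List.append_eq_nil_iff] at h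
    obtain ⟨h1, h2⟩ := h
    have hb : b = d.2 := by
      by_contra hb
      rw [if_neg hb] at h1
      simp at h1
    subst hb
    intro e he
    rcases List.mem_cons.1 he with rfl | he
    · rfl
    · exact ih h2 e he

/-- one change -/
theorem split_one {V : Type*} {b : Bool} {l : List (V × Bool)} {v : V} (h : chgp b l = [v]) :
    ∃ l1 l2, l = l1 ++ (v, !b) :: l2 ∧ (∀ e ∈ l1, e.2 = b) ∧ (∀ e ∈ l2, e.2 = !b) := by
  induction l generalizing b with
  | nil => simp at h
  | cons d l ih =>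
    rw [chgp_cons] at h
    by_cases hb : b = d.2
    · rw [if_pos hb, List.nil_append, ← hb] at h
      obtain ⟨l1, l2, h1, h2, h3⟩ := ih h
      refine ⟨d :: l1, l2, by rw [h1]; rfl, ?_, h3⟩
      intro e he
      rcases List.mem_cons.1 he with rfl | he
      · exact hb.symm
      · exact h2 e he
    · rw [if_neg hb, List.cons_append, List.nil_append, List.cons.injEq] at h
      have hd : d.2 = !b := by
        revert hb; cases b <;> cases d.2 <;> simp
      refine ⟨[], l, ?_, by simp, ?_⟩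
      · rw [List.nil_append, ← h.1, ← hd]
      · rw [← hd]; exact const_of_chgp_nil h.2

theorem nodup_t {z : Zone} (h : z.vs.Nodup) :
    (z.x :: z.t.apex).Nodup ∧ (z.y :: z.t'.apex).Nodup ∧
      (z.x :: z.t.apex).Disjoint (z.y :: z.t'.apex) := by
  have h' : ((z.x :: z.t.apex) ++ (z.y :: z.t'.apex)).Nodup := h
  exact ⟨h'.of_append_left, h'.of_append_right, List.disjoint_of_nodup_append h'⟩

theorem eq_singleton_of {V : Type*} {l : List V} {v : V} (hn : l.Nodup) (hv : v ∈ l)
    (h : ∀ u ∈ l, u = v) : l = [v] := by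
  cases l with
  | nil => simp at hv
  | cons a l =>
    have ha : a = v := h a (by simp)
    subst ha
    cases l with
    | nil => rfl
    | cons b l =>
      have hb : b = a := h b (by simp)
      subst hb
      simp at hn

theorem zchg_append (L : LabD) (z : Zone) :
    zchg L z = chgp (lst true (labl L (z.t'.ring z.y z.x))) (labl L (z.t.ring z.x z.y)) ++
      chgp (lst true (labl L (z.t.ring z.x z.y))) (labl L (z.t'.ring z.y z.x)) := by
  unfold zchg chg Zone.ring
  rw [labl_append, chgp_append, lst_append]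
  have h1 : labl L (z.t'.ring z.y z.x) ≠ [] := by
    unfold labl; simpa using ZT.ring_ne_nil _ _ _
  have h2 : labl L (z.t.ring z.x z.y) ≠ [] := by
    unfold labl; simpa using ZT.ring_ne_nil _ _ _
  rw [lst_of_ne_nil h1 (lst true (labl L (z.t.ring z.x z.y))) true]
  rw [lst_of_ne_nil h2 (lst true (labl L (z.t'.ring z.y z.x))) true]

/-- the two changes are at `y` and at the apex `w'` of `t`: an apex `r` of `t` with the label of
`x` lies between `x` and `w'` -/
theorem arc {L : LabD} {z : Zone} (hnd : z.vs.Nodup) {w' r : Pt} (hw : w' ∈ z.t.apex)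
    (hr : r ∈ z.t.apex) (hch : ∀ v, v ∈ zchg L z ↔ v = z.y ∨ v = w') {er ex : RE}
    (her : er ∈ z.ring) (hera : er.a = r) (hex : ex ∈ z.ring) (hexa : ex.a = z.x)
    (hl : L.re er = L.re ex) (hne : r ≠ w') : [r, w'].Sublist z.t.apex := by
  obtain ⟨hn1, hn2, hdis⟩ := nodup_t hnd
  set p := labl L (z.t.ring z.x z.y) with hp
  set q := labl L (z.t'.ring z.y z.x) with hq
  have hpf : p.map Prod.fst = z.x :: z.t.apex := by rw [hp, labl_fst, ZT.ring_a]
  have hqf : q.map Prod.fst = z.y :: z.t'.apex := by rw [hq, labl_fst, ZT.ring_a]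
  have hz := zchg_append L z
  have hzp : chgp (lst true q) p = [w'] := by
    apply eq_singleton_of
    · exact (chgp_sublist _ _).nodup (by rw [hpf]; exact hn1)
    · have := (hch w').2 (Or.inr rfl)
      rw [hz, List.mem_append] at this
      rcases this with h | h
      · exact h
      · exfalso
        have h1 := (chgp_sublist _ _).subset h
        rw [hqf] at h1
        exact hdis (List.mem_cons_of_mem _ hw) h1
    · intro u hu
      have h1 : u ∈ zchg L z := by rw [hz]; exact List.mem_append_left _ hu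
      rcases (hch u).1 h1 with rfl | h
      · exfalso
        have h2 := (chgp_sublist _ _).subset hu
        rw [hpf] at h2
        exact hdis h2 (by simp)
      · exact h
  obtain ⟨l1, l2, h1, h2, h3⟩ := split_one hzp
  have hf : z.x :: z.t.apex = l1.map Prod.fst ++ w' :: l2.map Prod.fst := by
    rw [← hpf, h1]; simp
  have hring : ∀ e ∈ z.ring, e.a ∈ z.x :: z.t.apex → (e.a, L.re e) ∈ p := by
    intro e he hea
    unfold Zone.ring at he
    rw [List.mem_append] at he
    rcases he with he | he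
    · rw [hp]; unfold labl
      exact List.mem_map_of_mem he
    · exfalso
      apply hdis hea
      rw [← ZT.ring_a z.t' z.y z.x]
      exact List.mem_map_of_mem he
  cases l1 with
  | nil =>
    exfalso
    simp only [List.map_nil, List.nil_append, List.cons.injEq] at hf
    rw [List.nodup_cons] at hn1
    exact hn1.1 (hf.1 ▸ hw)
  | cons d l1 =>
    rw [List.map_cons, List.cons_append, List.cons.injEq] at hf
    have hex' : L.re ex = lst true q := by
      have hm := hring ex hex (by rw [hexa]; simp)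
      rw [hexa] at hm
      have hd : (z.x, L.re ex) = d := by
        have hnp : (p.map Prod.fst).Nodup := by rw [hpf]; exact hn1
        apply List.inj_on_of_nodup_map hnp hm
        · rw [h1]; simp
        · exact hf.1
      have := h2 d (by simp)
      rw [← hd] at this
      exact this
    have hmr := hring er her (by rw [hera]; exact List.mem_cons_of_mem _ hr)
    rw [h1] at hmr
    simp only [List.mem_append, List.mem_cons] at hmr
    have hrl : r ∈ l1.map Prod.fst := by
      rcases hmr with (h | h) | h | h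
      · exfalso
        have h4 : er.a = z.x := by
          have := congrArg Prod.fst h
          rw [← hf.1] at this
          exact this
        rw [List.nodup_cons] at hn1
        exact hn1.1 (by rw [← h4, hera]; exact hr)
      · rw [← hera]
        exact List.mem_map_of_mem (f := Prod.fst) h
      · exfalso
        apply hne
        have := congrArg Prod.fst h
        rw [← hera]; exact this
      · exfalso
        have := h3 _ h
        rw [show (er.a, L.re er).2 = L.re er from rfl, hl, hex'] at this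
        cases hb : lst true q <;> rw [hb] at this <;> simp at this
    rw [hf.2]
    obtain ⟨A, B, hAB⟩ := List.append_of_mem hrl
    rw [hAB]
    have : (A ++ r :: B) ++ w' :: l2.map Prod.fst = A ++ (r :: (B ++ w' :: l2.map Prod.fst)) := by
      simp
    rw [this]
    exact ((List.singleton_sublist.2 (by simp)).cons_cons r).trans (List.sublist_append_right _ _)

/-- the same with `w'` on the other side -/
theorem arc' {L : LabD} {z : Zone} (hnd : z.vs.Nodup) {w' r : Pt} (hw : w' ∈ z.t'.apex)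
    (hr : r ∈ z.t'.apex) (hch : ∀ v, v ∈ zchg L z ↔ v = z.y ∨ v = w') {er ex : RE}
    (her : er ∈ z.ring) (hera : er.a = r) (hex : ex ∈ z.ring) (hexa : ex.a = z.x)
    (hl : L.re er = L.re ex) (hne : r ≠ w') : [w', r].Sublist z.t'.apex := by
  obtain ⟨hn1, hn2, hdis⟩ := nodup_t hnd
  set p := labl L (z.t.ring z.x z.y) with hp
  set q := labl L (z.t'.ring z.y z.x) with hq
  have hpf : p.map Prod.fst = z.x :: z.t.apex := by rw [hp, labl_fst, ZT.ring_a]
  have hqf : q.map Prod.fst = z.y :: z.t'.apex := by rw [hq, labl_fst, ZT.ring_a]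
  have hz := zchg_append L z
  have hzp : chgp (lst true q) p = [] := by
    rw [List.eq_nil_iff_forall_not_mem]
    intro u hu
    have h1 : u ∈ zchg L z := by rw [hz]; exact List.mem_append_left _ hu
    have h2 := (chgp_sublist _ _).subset hu
    rw [hpf] at h2
    rcases (hch u).1 h1 with rfl | h
    · exact hdis h2 (by simp)
    · subst h
      exact hdis h2 (List.mem_cons_of_mem _ hw)
  have hpc := const_of_chgp_nil hzp
  have hringp : ∀ e ∈ z.ring, e.a ∈ z.x :: z.t.apex → (e.a, L.re e) ∈ p := by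
    intro e he hea
    unfold Zone.ring at he
    rw [List.mem_append] at he
    rcases he with he | he
    · rw [hp]; unfold labl
      exact List.mem_map_of_mem he
    · exfalso
      apply hdis hea
      rw [← ZT.ring_a z.t' z.y z.x]
      exact List.mem_map_of_mem he
  have hringq : ∀ e ∈ z.ring, e.a ∈ z.y :: z.t'.apex → (e.a, L.re e) ∈ q := by
    intro e he hea
    unfold Zone.ring at he
    rw [List.mem_append] at he
    rcases he with he | he
    · exfalso
      apply hdis _ hea
      rw [← ZT.ring_a z.t z.x z.y]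
      exact List.mem_map_of_mem he
    · rw [hq]; unfold labl
      exact List.mem_map_of_mem he
  have hexq : L.re ex = lst true q := by
    have := hpc _ (hringp ex hex (by rw [hexa]; simp))
    exact this
  have hpl : lst true p = lst true q := by
    have hne' : p ≠ [] := by
      intro h0; rw [h0] at hpf; simp at hpf
    have hgen : ∀ (l : List (Pt × Bool)) (b c : Bool), (∀ e ∈ l, e.2 = c) → l ≠ [] →
        lst b l = c := by
      intro l
      induction l with
      | nil => intro b c _ h; exact absurd rfl h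
      | cons e l ih =>
        intro b c hc _
        rw [lst_cons]
        by_cases hl0 : l = []
        · rw [hl0, lst_nil]; exact hc e (by simp)
        · exact ih _ _ (fun e he => hc e (by simp [he])) hl0
    exact hgen p true _ hpc hne'
  -- the list `q` starts with `y`, which is a change
  obtain ⟨d, q', hdq⟩ : ∃ d q', q = d :: q' := by
    cases hqq : q with
    | nil => rw [hqq] at hqf; simp at hqf
    | cons d q' => exact ⟨d, q', rfl⟩
  have hd1 : d.1 = z.y ∧ q'.map Prod.fst = z.t'.apex := by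
    rw [hdq, List.map_cons, List.cons.injEq] at hqf
    exact hqf
  have hzq : zchg L z = chgp (lst true p) q := by
    rw [hz, hzp, List.nil_append]
  have hyc : lst true p ≠ d.2 := by
    intro hb
    have h1 : z.y ∈ zchg L z := (hch _).2 (Or.inl rfl)
    rw [hzq, hdq, chgp_cons, if_pos hb, List.nil_append] at h1
    have h2 := (chgp_sublist _ _).subset h1
    rw [hd1.2] at h2
    rw [List.nodup_cons] at hn2
    exact hn2.1 h2
  have hzq' : chgp d.2 q' = [w'] := by
    have hn3 : z.t'.apex.Nodup := (List.nodup_cons.1 hn2).2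
    have hyn : z.y ∉ z.t'.apex := (List.nodup_cons.1 hn2).1
    have hsub := chgp_sublist d.2 q'
    rw [hd1.2] at hsub
    apply eq_singleton_of (hsub.nodup hn3)
    · have h1 : w' ∈ zchg L z := (hch _).2 (Or.inr rfl)
      rw [hzq, hdq, chgp_cons, if_neg hyc, List.cons_append, List.nil_append,
        List.mem_cons] at h1
      rcases h1 with h1 | h1
      · exfalso; rw [hd1.1] at h1; exact hyn (h1 ▸ hw)
      · exact h1
    · intro u hu
      have h1 : u ∈ zchg L z := by
        rw [hzq, hdq, chgp_cons]; exact List.mem_append_right _ hu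
      rcases (hch u).1 h1 with rfl | h
      · exact absurd (hsub.subset hu) hyn
      · exact h
  obtain ⟨l1, l2, h1, h2, h3⟩ := split_one hzq'
  have hf : z.t'.apex = l1.map Prod.fst ++ w' :: l2.map Prod.fst := by
    rw [← hd1.2, h1]; simp
  have hmr := hringq er her (by rw [hera]; exact List.mem_cons_of_mem _ hr)
  rw [hdq, List.mem_cons, h1, List.mem_append, List.mem_cons] at hmr
  have hrl : r ∈ l2.map Prod.fst := by
    rcases hmr with h | h | h | h
    · exfalso
      have h4 : er.a = z.y := by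
        have := congrArg Prod.fst h
        rw [hd1.1] at this
        exact this
      exact (List.nodup_cons.1 hn2).1 (by rw [← h4, hera]; exact hr)
    · exfalso
      have h5 := h2 _ h
      rw [show (er.a, L.re er).2 = L.re er from rfl, hl, hexq, ← hpl] at h5
      exact hyc h5
    · exfalso
      apply hne
      have := congrArg Prod.fst h
      rw [← hera]; exact this
    · rw [← hera]
      exact List.mem_map_of_mem (f := Prod.fst) h
  rw [hf]
  obtain ⟨A, B, hAB⟩ := List.append_of_mem hrl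
  rw [hAB]
  exact ((List.singleton_sublist.2 (by simp)).cons_cons w').trans (List.sublist_append_right _ _)

/-- changes at both base ends of a gate: the labels of the tree side are not the label of the
closed base -/
theorem gate_lab {L : LabD} {z : Zone} (hnd : z.vs.Nodup) (ht : z.t' = .cut)
    (hch : ∀ v, v ∈ zchg L z ↔ v = z.x ∨ v = z.y) :
    ∀ e ∈ z.t.ring z.x z.y, L.re e ≠ L.l z.y := by
  obtain ⟨hn1, hn2, hdis⟩ := nodup_t hnd
  set p := labl L (z.t.ring z.x z.y) with hp
  have hpf : p.map Prod.fst = z.x :: z.t.apex := by rw [hp, labl_fst, ZT.ring_a]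
  have hz := zchg_append L z
  have hq : labl L (z.t'.ring z.y z.x) = [(z.y, L.l z.y)] := by
    rw [ht]; rfl
  rw [hq, ← hp] at hz
  have hzp : chgp (L.l z.y) p = [z.x] := by
    have hz' : zchg L z = chgp (L.l z.y) p ++ chgp (lst true p) [(z.y, L.l z.y)] := hz
    apply eq_singleton_of
    · exact (chgp_sublist _ _).nodup (by rw [hpf]; exact hn1)
    · have := (hch z.x).2 (Or.inl rfl)
      rw [hz', List.mem_append] at this
      rcases this with h | h
      · exact h
      · exfalso
        have h1 := (chgp_sublist _ _).subset h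
        simp only [List.map_cons, List.map_nil, List.mem_singleton] at h1
        exact hdis (a := z.x) (by simp) (by rw [h1]; simp)
    · intro u hu
      have h1 : u ∈ zchg L z := by rw [hz']; exact List.mem_append_left _ hu
      rcases (hch u).1 h1 with h | rfl
      · exact h
      · exfalso
        have h2 := (chgp_sublist _ _).subset hu
        rw [hpf] at h2
        exact hdis h2 (by simp)
  obtain ⟨l1, l2, h1, h2, h3⟩ := split_one hzp
  have hl1 : l1 = [] := by
    cases l1 with
    | nil => rfl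
    | cons d l1 =>
      exfalso
      have hf : z.x :: z.t.apex = d.1 :: (l1.map Prod.fst ++ z.x :: l2.map Prod.fst) := by
        rw [← hpf, h1]; simp
      rw [List.cons.injEq] at hf
      apply (List.nodup_cons.1 hn1).1
      rw [hf.2]; simp
  intro e he hcon
  have hm : (e.a, L.re e) ∈ p := by
    rw [hp]; unfold labl; exact List.mem_map_of_mem he
  rw [h1, hl1, List.nil_append, List.mem_cons] at hm
  have : L.re e = !(L.l z.y) := by
    rcases hm with h | h
    · exact congrArg Prod.snd h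
    · exact h3 _ h
  rw [hcon] at this
  cases hb : L.l z.y <;> rw [hb] at this <;> simp at this

end Cr
end Pool.Agent.RFX

end

section

set_option autoImplicit false

/-!
# RFX/TreeL : lemmas on zone trees used by CLOSE and OPEN (MP_72a26e_co) -- helper76
-/

namespace Pool.Agent.RFX

namespace ZT

theorem Ok.good {C : Finset (Finset Pt)} {t : ZT} : ∀ {x y : Pt}, t.Ok x y →
    t.cells x y ⊆ C → t.Good C x y := by
  induction t with
  | leaf f => intro x y _ _; trivial
  | cut => intro x y _ _; trivial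
  | node a l r ihl ihr =>
    intro x y hok hC
    obtain ⟨h0, hl, hr⟩ := hok
    obtain ⟨t1, t2, t3⟩ := he_tri h0
    refine ⟨hC (by simp [cells]), ?_, t1, t2, t3, ihl hl ?_, ihr hr ?_⟩
    · exact Finset.card_eq_three.2 ⟨x, y, a, t1.2.2.1, t3.2.2.1.symm, t2.2.2.1, rfl⟩
    · intro c hc; exact hC (by simp [cells, hc])
    · intro c hc; exact hC (by simp [cells, hc])

theorem Ok.cutAt {p : Pt} {t : ZT} : ∀ {x y : Pt}, t.Ok x y → (t.cutAt p).Ok x y := by
  induction t with
  | leaf f => intro x y h; trivial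
  | cut => intro x y h; trivial
  | node a l r ihl ihr =>
    intro x y h
    obtain ⟨g1, gl, gr⟩ := h
    unfold ZT.cutAt
    split_ifs with h1 h2
    · trivial
    · exact ⟨g1, ihl gl, gr⟩
    · exact ⟨g1, gl, ihr gr⟩

theorem Ok.sub {p : Pt} {t : ZT} {x' y' : Pt} {V : ZT} :
    ∀ {x y : Pt}, t.Ok x y → t.sub p x y = some (x', y', V) → V.Ok x' y' := by
  induction t with
  | leaf f => intro x y h h'; simp [ZT.sub] at h'
  | cut => intro x y h h'; simp [ZT.sub] at h'
  | node a l r ihl ihr =>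
    intro x y h h'
    unfold ZT.sub at h'
    split_ifs at h' with h1 h2
    · simp only [Option.some.injEq, Prod.mk.injEq] at h'
      obtain ⟨rfl, rfl, rfl⟩ := h'
      exact h
    · exact ihl h.2.1 h'
    · exact ihr h.2.2 h'

/-- the ring darts are sides or the base -/
theorem ring_side {t : ZT} : ∀ {x y : Pt}, ∀ e ∈ t.ring x y,
    (e.a = x ∧ e.b = y ∧ t.Bare) ∨ (e.a, e.b) ∈ t.sides x y := by
  induction t with
  | leaf f => intro x y e he; simp [ring] at he; rw [he]; exact Or.inl ⟨rfl, rfl, trivial⟩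
  | cut => intro x y e he; simp [ring] at he; rw [he]; exact Or.inl ⟨rfl, rfl, trivial⟩
  | node a l r ihl ihr =>
    intro x y e he
    right
    simp only [ring, List.mem_append] at he
    simp only [sides, Finset.mem_union]
    rcases he with he | he
    · rcases ihl e he with ⟨h1, h2, _⟩ | h1
      · left; rw [h1, h2]; simp
      · right; left; exact h1
    · rcases ihr e he with ⟨h1, h2, _⟩ | h1
      · left; rw [h1, h2]; simp
      · right; right; exact h1

theorem sides_he {t : ZT} : ∀ {x y : Pt}, t.Ok x y → ∀ a b, (a, b) ∈ t.sides x y →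
    (∃ g ∈ t.cells x y, HE g a b ∨ HE g b a) ∧ (a = x ∨ a = y ∨ a ∈ t.apex) ∧
      (b = x ∨ b = y ∨ b ∈ t.apex) := by
  induction t with
  | leaf f => intro x y _ a b h; simp [sides] at h
  | cut => intro x y _ a b h; simp [sides] at h
  | node p l r ihl ihr =>
    intro x y hok a b h
    obtain ⟨h0, hl, hr⟩ := hok
    obtain ⟨t1, t2, t3⟩ := he_tri h0
    simp only [sides, Finset.mem_union, Finset.mem_insert, Finset.mem_singleton,
      Prod.mk.injEq] at h
    rcases h with (⟨rfl, rfl⟩ | ⟨rfl, rfl⟩ | ⟨rfl, rfl⟩ | ⟨rfl, rfl⟩) | h | h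
    · exact ⟨⟨_, by simp [cells], Or.inr t3⟩, by simp, by simp [apex]⟩
    · exact ⟨⟨_, by simp [cells], Or.inl t3⟩, by simp [apex], by simp⟩
    · exact ⟨⟨_, by simp [cells], Or.inr t2⟩, by simp [apex], by simp⟩
    · exact ⟨⟨_, by simp [cells], Or.inl t2⟩, by simp, by simp [apex]⟩
    · obtain ⟨⟨g, hg, h1⟩, h2, h3⟩ := ihl hl a b h
      refine ⟨⟨g, by simp [cells, hg], h1⟩, ?_, ?_⟩
      · simp only [apex, List.mem_append, List.mem_cons]; tauto
      · simp only [apex, List.mem_append, List.mem_cons]; tauto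
    · obtain ⟨⟨g, hg, h1⟩, h2, h3⟩ := ihr hr a b h
      refine ⟨⟨g, by simp [cells, hg], h1⟩, ?_, ?_⟩
      · simp only [apex, List.mem_append, List.mem_cons]; tauto
      · simp only [apex, List.mem_append, List.mem_cons]; tauto

theorem sides_symm {t : ZT} : ∀ {x y : Pt}, ∀ a b, (a, b) ∈ t.sides x y →
    (b, a) ∈ t.sides x y := by
  induction t with
  | leaf f => intro x y a b h; simp [sides] at h
  | cut => intro x y a b h; simp [sides] at h
  | node p l r ihl ihr =>
    intro x y a b h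
    simp only [sides, Finset.mem_union, Finset.mem_insert, Finset.mem_singleton,
      Prod.mk.injEq] at h ⊢
    rcases h with (⟨rfl, rfl⟩ | ⟨rfl, rfl⟩ | ⟨rfl, rfl⟩ | ⟨rfl, rfl⟩) | h | h
    · simp
    · simp
    · simp
    · simp
    · right; left; exact ihl a b h
    · right; right; exact ihr a b h

/-- every cell contains an apex -/
theorem cells_apex {t : ZT} : ∀ {x y : Pt}, ∀ c ∈ t.cells x y, ∃ a ∈ t.apex, a ∈ c := by
  induction t with
  | leaf f => intro x y c h; simp [cells] at h
  | cut => intro x y c h; simp [cells] at h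
  | node p l r ihl ihr =>
    intro x y c h
    simp only [cells, Finset.mem_insert, Finset.mem_union] at h
    rcases h with rfl | h | h
    · exact ⟨p, by simp [apex], by simp⟩
    · obtain ⟨a, ha, h1⟩ := ihl c h
      exact ⟨a, by simp [apex, ha], h1⟩
    · obtain ⟨a, ha, h1⟩ := ihr c h
      exact ⟨a, by simp [apex, ha], h1⟩

/-- the apexes of the subtree are not apexes of the outer part -/
theorem not_mem_cutAt {p : Pt} {t : ZT} {x y x' y' : Pt} {V : ZT} (hn : t.apex.Nodup)
    (h : t.sub p x y = some (x', y', V)) : ∀ v ∈ V.apex, v ∉ (cutAt p t).apex := by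
  obtain ⟨A, B, h1, h2, _, _⟩ := apex_split h
  intro v hv hv'
  rw [h2, List.mem_append] at hv'
  rw [h1] at hn
  rw [List.nodup_append, List.nodup_append] at hn
  rcases hv' with hv' | hv'
  · exact hn.1.2.2 v hv' v hv rfl
  · exact hn.2.2 v (List.mem_append.2 (Or.inr hv)) v hv' rfl

theorem mem_apex_split {p : Pt} {t : ZT} {x y x' y' : Pt} {V : ZT}
    (h : t.sub p x y = some (x', y', V)) {v : Pt} :
    v ∈ t.apex ↔ v ∈ V.apex ∨ v ∈ (cutAt p t).apex := by
  obtain ⟨A, B, h1, h2, _, _⟩ := apex_split h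
  rw [h1, h2]
  simp only [List.mem_append]
  tauto

/-- the base of the subtree -/
theorem sub_base {p : Pt} {t : ZT} {x y x' y' : Pt} {V : ZT}
    (h : t.sub p x y = some (x', y', V)) :
    (x' = x ∨ x' ∈ (cutAt p t).apex) ∧ (y' = y ∨ y' ∈ (cutAt p t).apex) := by
  obtain ⟨A, B, h1, h2, h3, h4⟩ := apex_split h
  rw [h2]
  constructor
  · have := List.mem_of_getLast? h3
    rw [List.mem_cons] at this
    rcases this with h5 | h5
    · exact Or.inl h5
    · right; exact List.mem_append.2 (Or.inl h5)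
  · have := List.mem_of_head? h4
    rw [List.mem_append, List.mem_singleton] at this
    rcases this with h5 | h5
    · right; exact List.mem_append.2 (Or.inr h5)
    · exact Or.inl h5

/-- the vertices of the subtree form a sublist -/
theorem sub_vs {p : Pt} {t : ZT} {x y x' y' : Pt} {V : ZT}
    (h : t.sub p x y = some (x', y', V)) :
    (x' :: (V.apex ++ [y'])).Sublist (x :: (t.apex ++ [y])) := by
  obtain ⟨A, B, h1, _, h3, h4⟩ := apex_split h
  obtain ⟨A0, hA0⟩ := List.getLast?_eq_some_iff.1 h3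
  have h5 : ∃ B0, B ++ [y] = y' :: B0 := by
    cases hB : B ++ [y] with
    | nil => rw [hB] at h4; simp at h4
    | cons b B0 =>
      rw [hB] at h4
      simp only [List.head?_cons, Option.some.injEq] at h4
      exact ⟨B0, by rw [h4]⟩
  obtain ⟨B0, hB0⟩ := h5
  have h6 : x :: (t.apex ++ [y]) = A0 ++ (x' :: (V.apex ++ (y' :: B0))) := by
    have : x :: (t.apex ++ [y]) = (x :: A) ++ V.apex ++ (B ++ [y]) := by
      rw [h1]; simp
    rw [this, hA0, hB0]; simp
  rw [h6]
  apply List.Sublist.trans _ (List.sublist_append_right A0 _)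
  apply List.Sublist.cons_cons
  apply List.Sublist.append (List.Sublist.refl _)
  simp

theorem sub_isSome' {p : Pt} {t : ZT} {x y x' y' : Pt} {V : ZT}
    (h : t.sub p x y = some (x', y', V)) (hp : p ∈ t.apex) :
    ∃ l r, V = node p l r := by
  obtain ⟨x2, y2, l, r, h2⟩ := sub_isSome hp x y
  rw [h] at h2
  simp only [Option.some.injEq, Prod.mk.injEq] at h2
  exact ⟨l, r, h2.2.2⟩

/-- a subtree of a subtree -/
theorem sub_sub {p q : Pt} {t : ZT} : ∀ {x y x' y' : Pt} {V : ZT}, t.apex.Nodup →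
    t.sub p x y = some (x', y', V) → q ∈ V.apex →
    t.sub q x y = V.sub q x' y' := by
  induction t with
  | leaf f => intro x y x' y' V _ h; simp [sub] at h
  | cut => intro x y x' y' V _ h; simp [sub] at h
  | node a l r ihl ihr =>
    intro x y x' y' V hn h hq
    have h' := h
    unfold sub at h
    split_ifs at h with h1 h2
    · simp only [Option.some.injEq, Prod.mk.injEq] at h
      obtain ⟨rfl, rfl, rfl⟩ := h
      rfl
    · have hql : q ∈ l.apex := (mem_apex_split h).2 (Or.inl hq)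
      have hne : a ≠ q := by
        rintro rfl
        simp only [apex] at hn
        rw [List.nodup_append] at hn
        exact hn.2.2 _ hql _ (by simp) rfl
      have e1 : (node a l r).sub q x y = l.sub q x a := by
        rw [sub, if_neg hne, if_pos hql]
      rw [e1]
      apply ihl _ h hq
      simp only [apex] at hn
      exact (List.nodup_append.1 hn).1
    · have hqr : q ∈ r.apex := (mem_apex_split h).2 (Or.inl hq)
      simp only [apex] at hn
      rw [List.nodup_append, List.nodup_cons] at hn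
      have hne : a ≠ q := by
        rintro rfl
        exact hn.2.1.1 hqr
      have hnl : q ∉ l.apex := by
        intro hh
        exact hn.2.2 _ hh _ (List.mem_cons_of_mem _ hqr) rfl
      have e1 : (node a l r).sub q x y = r.sub q a y := by
        rw [sub, if_neg hne, if_neg hnl]
      rw [e1]
      exact ihr hn.2.1.2 h hq

end ZT

/-- closing the pair `x y` and giving both trees -/
theorem give2 {P : Finset Pt} {C : Finset (Finset Pt)} {E : Finset (Finset Pt)}
    {Cl : Finset (Pt × Pt)} (hR : Reach P C E Cl) (hs : ∀ a b, (a, b) ∈ Cl → (b, a) ∈ Cl)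
    {x y : Pt} {t t' : ZT} (hside : ∃ c ∈ C, HE c x y ∨ HE c y x)
    (hG : t.Good C x y) (hG' : t'.Good C y x)
    (hpw : (x :: y :: (t.apex ++ t'.apex)).Pairwise (fun a b => ¬ Joined Cl a b)) :
    Reach P C (E ∪ t.cells x y ∪ t'.cells y x)
      (insert (x, y) (insert (y, x) Cl) ∪ t.sides x y ∪ t'.sides y x) ∧
    (∀ u v, Joined (insert (x, y) (insert (y, x) Cl) ∪ t.sides x y ∪ t'.sides y x) u v ↔
      Mg (Joined Cl) {p | p = x ∨ p = y ∨ p ∈ t.apex ∨ p ∈ t'.apex} u v) := by
  have hsy : ∀ a b, ¬ Joined Cl a b → ¬ Joined Cl b a := fun a b h h' => h (h'.symm hs)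
  rw [List.pairwise_cons, List.pairwise_cons, List.pairwise_append] at hpw
  obtain ⟨hx, hy, pt, pt', ptt⟩ := hpw
  have hxy : ¬ Joined Cl x y := hx y (by simp)
  have hyx : ¬ Joined Cl y x := hsy _ _ hxy
  -- the slit
  have hR1 : Reach P C E (insert (x, y) (insert (y, x) Cl)) := by
    obtain ⟨c, hc, h1 | h1⟩ := hside
    · exact Reach.slit E Cl x y c hR hc h1 hxy
    · have := Reach.slit E Cl y x c hR hc h1 hyx
      rw [Finset.insert_comm] at this
      exact this
  have m1 := slit_mg Cl x y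
  generalize hCl1 : insert (x, y) (insert (y, x) Cl) = Cl1 at hR1 m1 ⊢
  have hs1 : ∀ b c, (b, c) ∈ Cl1 → (c, b) ∈ Cl1 := by
    intro b c h
    rw [← hCl1] at h ⊢
    simp only [Finset.mem_insert, Prod.mk.injEq] at h ⊢
    rcases h with ⟨rfl, rfl⟩ | ⟨rfl, rfl⟩ | h
    · simp
    · simp
    · simp [hs _ _ h]
  have e1 : Joined Cl1 = Mg (Joined Cl) {x, y} := by
    funext u v; exact propext (m1 u v)
  have hxyCl : (x, y) ∈ Cl1 := by rw [← hCl1]; simp
  have hyxCl : (y, x) ∈ Cl1 := by rw [← hCl1]; simp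
  obtain ⟨hR2, hs2, m2⟩ := ZT.give_tree t x y E Cl1 hR1 hs1 hxyCl hG
    (by
      intro b hb hj
      rw [e1] at hj
      rcases hj with h | ⟨p, hp, q, hq, h1, h2⟩
      · exact hx b (by simp [hb]) h
      · rcases hq with rfl | hq
        · exact hx b (by simp [hb]) h2
        · rw [Set.mem_singleton_iff] at hq
          rw [hq] at h2
          exact hy b (by simp [hb]) h2)
    (by
      apply pt.imp_of_mem
      intro b c hb hc' hbc hj
      rw [e1] at hj
      rcases hj with h | ⟨p, hp, q, hq, h1, h2⟩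
      · exact hbc h
      · rcases hq with rfl | hq
        · exact hx c (by simp [hc']) h2
        · rw [Set.mem_singleton_iff] at hq
          rw [hq] at h2
          exact hy c (by simp [hc']) h2)
  have e2 : Joined (Cl1 ∪ t.sides x y) =
      Mg (Joined Cl) ({x, y} ∪ {p | p = x ∨ p ∈ t.apex}) := by
    funext u v
    rw [← propext (Mg_comp (J := Joined Cl) (Joined.refl Cl) (z := x) (L1 := {x, y})
      (L2 := {p | p = x ∨ p ∈ t.apex}) (by simp) (by simp) u v), ← e1]
    exact propext (m2 u v)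
  have hL2 : ∀ q, q ∈ (({x, y} : Set Pt) ∪ {p | p = x ∨ p ∈ t.apex}) →
      (q = x ∨ q = y) ∨ q ∈ t.apex := by
    intro q hq
    simp only [Set.mem_union, Set.mem_insert_iff, Set.mem_singleton_iff,
      Set.mem_setOf_eq] at hq
    tauto
  have nr : ∀ q, ((q = x ∨ q = y) ∨ q ∈ t.apex) → ∀ b ∈ t'.apex, ¬ Joined Cl q b := by
    rintro q ((rfl | rfl) | hq) b hb
    · exact hx b (by simp [hb])
    · exact hy b (by simp [hb])
    · exact ptt q hq b hb
  obtain ⟨hR3, hs3, m3⟩ := ZT.give_tree t' y x (E ∪ t.cells x y) (Cl1 ∪ t.sides x y) hR2 hs2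
    (Finset.mem_union_left _ hyxCl) hG'
    (by
      intro b hb hj
      rw [e2] at hj
      rcases hj with h | ⟨p, hp, q, hq, h1, h2⟩
      · exact nr y (Or.inl (Or.inr rfl)) b hb h
      · exact nr q (hL2 q hq) b hb h2)
    (by
      apply pt'.imp_of_mem
      intro b c hb hc' hbc hj
      rw [e2] at hj
      rcases hj with h | ⟨p, hp, q, hq, h1, h2⟩
      · exact hbc h
      · exact nr q (hL2 q hq) c hc' h2)
  refine ⟨hR3, ?_⟩
  intro u v
  rw [m3 u v, e2, Mg_comp (J := Joined Cl) (Joined.refl Cl) (z := y) (by simp) (by simp) u v]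
  have hset : ({x, y} ∪ {p | p = x ∨ p ∈ t.apex} : Set Pt) ∪ {p | p = y ∨ p ∈ t'.apex} =
      {p | p = x ∨ p = y ∨ p ∈ t.apex ∨ p ∈ t'.apex} := by
    ext q
    simp only [Set.mem_union, Set.mem_insert_iff, Set.mem_singleton_iff, Set.mem_setOf_eq]
    tauto
  rw [hset]

/-- `give2` with opaque sets -/
theorem give2' {P : Finset Pt} {C : Finset (Finset Pt)} {E : Finset (Finset Pt)}
    {Cl : Finset (Pt × Pt)} (hR : Reach P C E Cl) (hs : ∀ a b, (a, b) ∈ Cl → (b, a) ∈ Cl)
    {x y : Pt} {t t' : ZT} (hside : ∃ c ∈ C, HE c x y ∨ HE c y x)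
    (hG : t.Good C x y) (hG' : t'.Good C y x)
    (hpw : (x :: y :: (t.apex ++ t'.apex)).Pairwise (fun a b => ¬ Joined Cl a b)) :
    ∃ E' Cl', Reach P C E' Cl' ∧
      (∀ c, c ∈ E' ↔ c ∈ E ∨ c ∈ t.cells x y ∨ c ∈ t'.cells y x) ∧
      (∀ a b, (a, b) ∈ Cl' ↔ (a = x ∧ b = y) ∨ (a = y ∧ b = x) ∨ (a, b) ∈ Cl ∨
        (a, b) ∈ t.sides x y ∨ (a, b) ∈ t'.sides y x) ∧
      (∀ u v, Joined Cl' u v → Joined Cl u v ∨
        ∃ p, (p = x ∨ p = y ∨ p ∈ t.apex ∨ p ∈ t'.apex) ∧
          ∃ q, (q = x ∨ q = y ∨ q ∈ t.apex ∨ q ∈ t'.apex) ∧ Joined Cl u p ∧ Joined Cl q v) ∧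
      ¬ Joined Cl x y := by
  obtain ⟨g1, g2⟩ := give2 hR hs hside hG hG' hpw
  refine ⟨_, _, g1, ?_, ?_, ?_, ?_⟩
  · intro c
    rw [Finset.mem_union, Finset.mem_union, or_assoc]
  · intro a b
    simp only [Finset.mem_union, Finset.mem_insert, Prod.mk.injEq]
    tauto
  · intro u v huv
    rcases (g2 u v).1 huv with h1 | ⟨p, hp, q, hq, h1, h2⟩
    · exact Or.inl h1
    · exact Or.inr ⟨p, hp, q, hq, h1, h2⟩
  · rw [List.pairwise_cons] at hpw
    exact hpw.1 y (by simp)

end Pool.Agent.RFX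

end

section

set_option autoImplicit false

/-!
# RFX/Ops : the operations CLOSE and OPEN satisfy the transition hypotheses (MP_72a26e_co) -- helper76
-/

namespace Pool.Agent.RFX

/-- `z` is the zone `(p, q, s, s')`, possibly rotated -/
def Rep (z : Zone) (p q : Pt) (s s' : ZT) : Prop :=
  (z.x = p ∧ z.y = q ∧ z.t = s ∧ z.t' = s') ∨ (z.x = q ∧ z.y = p ∧ z.t = s' ∧ z.t' = s)

namespace Rep

variable {z : Zone} {p q : Pt} {s s' : ZT}

theorem ring_iff (h : Rep z p q s s') {e : RE} : e ∈ z.ring ↔ e ∈ s.ring p q ∨ e ∈ s'.ring q p := by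
  unfold Zone.ring
  rcases h with ⟨rfl, rfl, rfl, rfl⟩ | ⟨rfl, rfl, rfl, rfl⟩
  · rw [List.mem_append]
  · rw [List.mem_append, or_comm]

theorem cells_iff (h : Rep z p q s s') {c : Finset Pt} :
    c ∈ z.cells ↔ c ∈ s.cells p q ∨ c ∈ s'.cells q p := by
  unfold Zone.cells
  rcases h with ⟨rfl, rfl, rfl, rfl⟩ | ⟨rfl, rfl, rfl, rfl⟩
  · rw [Finset.mem_union]
  · rw [Finset.mem_union, or_comm]

theorem vs_iff (h : Rep z p q s s') {v : Pt} :
    v ∈ z.vs ↔ v = p ∨ v = q ∨ v ∈ s.apex ∨ v ∈ s'.apex := by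
  unfold Zone.vs
  rcases h with ⟨rfl, rfl, rfl, rfl⟩ | ⟨rfl, rfl, rfl, rfl⟩ <;>
  · simp only [List.mem_cons, List.mem_append]
    tauto

theorem ap_iff (h : Rep z p q s s') {v : Pt} : v ∈ z.ap ↔ v ∈ s.apex ∨ v ∈ s'.apex := by
  unfold Zone.ap
  rcases h with ⟨rfl, rfl, rfl, rfl⟩ | ⟨rfl, rfl, rfl, rfl⟩
  · rw [List.mem_append]
  · rw [List.mem_append, or_comm]

theorem nodup (h : Rep z p q s s') (hn : z.vs.Nodup) :
    (p :: q :: (s.apex ++ s'.apex)).Nodup := by
  unfold Zone.vs at hn
  rcases h with ⟨rfl, rfl, rfl, rfl⟩ | ⟨rfl, rfl, rfl, rfl⟩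
  · refine (List.Perm.nodup_iff ?_).1 hn
    apply List.Perm.cons
    exact List.perm_middle
  · refine (List.Perm.nodup_iff ?_).1 hn
    have h1 : (z.x :: (z.t.apex ++ z.y :: z.t'.apex)).Perm
        (z.x :: z.y :: (z.t.apex ++ z.t'.apex)) := by
      apply List.Perm.cons
      exact List.perm_middle
    refine h1.trans ((List.Perm.swap _ _ _).trans ?_)
    apply List.Perm.cons
    apply List.Perm.cons
    exact List.perm_append_comm

theorem okt (h : Rep z p q s s') (h1 : z.t.Ok z.x z.y) (h2 : z.t'.Ok z.y z.x) :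
    s.Ok p q ∧ s'.Ok q p := by
  rcases h with ⟨rfl, rfl, rfl, rfl⟩ | ⟨rfl, rfl, rfl, rfl⟩
  · exact ⟨h1, h2⟩
  · exact ⟨h2, h1⟩

end Rep

/-- generic form of `k1` and `k2`: the new ring has one new (closed) edge `n0` -/
theorem k12 {z z' : Zone} {n0 : RE} (hn' : z'.vs.Nodup)
    (hring : ∀ e ∈ z'.ring, e ∈ z.ring ∨ e = n0) (h0 : n0 ∈ z'.ring) (hs : n0.s = none)
    (hab : n0.a ≠ n0.b) {X : Set Pt} (hXa : n0.a ∈ X) (hXb : n0.b ∈ X)
    (hXz : ∀ v ∈ z'.vs, v ∈ X → v = n0.a ∨ v = n0.b) :
    (∀ v ∈ z'.vs, v ∉ X → ∀ e e', At z' v e e' → At z v e e') ∧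
    (∀ v ∈ z'.vs, v ∈ X → ∀ e e', At z' v e e' →
      (e ∈ z.ring ∧ e'.s = none) ∨ (e' ∈ z.ring ∧ e.s = none)) := by
  constructor
  · intro v _ hvX e e' ⟨he, he', hb, ha⟩
    refine ⟨?_, ?_, hb, ha⟩
    · rcases hring e he with h1 | h1
      · exact h1
      · rw [h1] at hb; rw [← hb] at hvX; exact absurd hXb hvX
    · rcases hring e' he' with h1 | h1
      · exact h1
      · rw [h1] at ha; rw [← ha] at hvX; exact absurd hXa hvX
  · intro v hv hvX e e' ⟨he, he', hb, ha⟩
    rcases hXz v hv hvX with h1 | h1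
    · left
      have h2 : e' = n0 := Zone.a_inj hn' he' h0 (ha.trans h1)
      refine ⟨?_, by rw [h2]; exact hs⟩
      rcases hring e he with h3 | h3
      · exact h3
      · exfalso
        rw [h3] at hb
        exact hab (h1.symm.trans hb.symm)
    · right
      have h2 : e = n0 := Zone.b_inj hn' he h0 (hb.trans h1)
      refine ⟨?_, by rw [h2]; exact hs⟩
      rcases hring e' he' with h3 | h3
      · exact h3
      · exfalso
        rw [h3] at ha
        exact hab (ha.trans h1)

/-- facts at a crossing -/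
structure CF (S : Sta) (D : Dyn) (i : ZI) (w : Pt) : Prop where
  hi : i ∈ D.I
  hy : (D.Z i).y = w
  alone : ∀ b, Joined D.Cl w b → b = w
  sym : ∀ a b, (a, b) ∈ D.Cl → (b, a) ∈ D.Cl
  unj : ∀ a b, (a = w ∨ a ∈ (D.Z i).ap) → (b = w ∨ b ∈ (D.Z i).ap) → Joined D.Cl a b → a = b

theorem Cross.cf {S : Sta} {D : Dyn} {i : ZI} {w w'' : Pt} (hS : StaOk S) (h : St S D)
    (hc : Cross S D i w w'') : CF S D i w := by
  have hwA : w ∈ D.A := h.FrA hc.wFr
  have hi : i ∈ D.I := by rw [← hc.Tw]; exact (h.l1 w hwA).1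
  have hwy : w = (D.Z i).y := (h.v1 i hc.live hc.ed w hwA hc.Tw).1
  have hsym : ∀ a b, (a, b) ∈ D.Cl → (b, a) ∈ D.Cl := (h.inv hS).symm
  have hw : ∀ b, Joined D.Cl w b → b = w := by
    intro b hb
    rcases Relation.ReflTransGen.cases_head hb with h1 | ⟨c, h1, _⟩
    · exact h1.symm
    · exact absurd h1 (h.l4 w hc.wFr c)
  refine ⟨hi, hwy.symm, hw, hsym, ?_⟩
  rintro a b (rfl | ha) (rfl | hb) hab
  · rfl
  · exact (hw b hab).symm
  · exact hw a (hab.symm hsym)
  · exact (h.v4 i i hc.live hc.live a ha b hb hab).1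

theorem base_side {S : Sta} {D : Dyn} (hS : StaOk S) (h : St S D) {i : ZI} (hi : i ∈ D.I) :
    ∃ c ∈ S.C, HE c (D.Z i).x (D.Z i).y ∨ HE c (D.Z i).y (D.Z i).x := by
  by_cases hb : (D.Z i).Bare
  · obtain ⟨f, hf, f', hf', h1, h2⟩ := h.bare i hi hb
    have e1 : (⟨(D.Z i).x, (D.Z i).y, some f⟩ : RE) ∈ (D.Z i).ring := by
      simp [Zone.ring, h1, ZT.ring]
    rcases h.r1 i hi _ e1 f rfl with ⟨_, g1, _⟩ | g1
    · exact ⟨f, hS.FC hf, Or.inl g1⟩
    · exact absurd g1 (h.F_ne_pair hS hf _ _)
  · obtain ⟨c, hc, h1⟩ := Zone.root (h.okt i hi).1 (h.okt i hi).2 hb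
    exact ⟨c, h.zC i hi hc, h1⟩

theorem vs_cut {x' y' : Pt} {V : ZT} {v : Pt} :
    v ∈ (⟨x', y', V, ZT.cut⟩ : Zone).vs ↔ v = x' ∨ v = y' ∨ v ∈ V.apex := by
  simp [Zone.vs, ZT.apex]; tauto

theorem or3a {a b c d : Prop} (h : a ∨ b ∨ c) : a ∨ b ∨ c ∨ d := by tauto

theorem or3b {a b c d : Prop} (h : b ∨ a ∨ d) : a ∨ b ∨ c ∨ d := by tauto

theorem opA {S : Sta} {D : Dyn} {i : ZI} {w : Pt} (hS : StaOk S) (h : St S D)
    (hc : CF S D i w) (hno : ∀ a ∈ (D.Z i).ap, ¬ Joined D.Cl a (D.Z i).x) (z' : Zone) :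
    ∃ E' Cl', (D.Cl ⊂ Cl') ∧ TrH S D i E' Cl' False z' {v | v ∈ (D.Z i).vs} := by
  have hok := h.okt i hc.hi
  have hzC := h.zC i hc.hi
  have hnd := h.nd i hc.hi
  have hrep : Rep (D.Z i) (D.Z i).x (D.Z i).y (D.Z i).t (D.Z i).t' := Or.inl ⟨rfl, rfl, rfl, rfl⟩
  have hN := hrep.nodup hnd
  have hxy : (D.Z i).x ≠ (D.Z i).y := by
    rw [List.nodup_cons] at hN
    intro hh
    exact hN.1 (by rw [hh]; simp)
  have hnotj : ¬ Joined D.Cl (D.Z i).x (D.Z i).y := by
    intro hh
    rw [hc.hy] at hh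
    exact hxy (by rw [hc.hy]; exact hc.alone _ (hh.symm hc.sym))
  obtain ⟨E', Cl', g1, gE, gCl, g2, _⟩ := give2' h.reach hc.sym (base_side hS h hc.hi)
    (hok.1.good (fun c hcc => hzC (hrep.cells_iff.2 (Or.inl hcc))))
    (hok.2.good (fun c hcc => hzC (hrep.cells_iff.2 (Or.inr hcc))))
    (by
      apply List.Nodup.pairwise_of_forall_ne hN
      intro a ha b hb hab hj
      simp only [List.mem_cons, List.mem_append] at ha hb
      have conv : ∀ c, (c = (D.Z i).x ∨ c = (D.Z i).y ∨ c ∈ (D.Z i).t.apex ∨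
          c ∈ (D.Z i).t'.apex) → c = (D.Z i).x ∨ (c = w ∨ c ∈ (D.Z i).ap) := by
        intro c hcc
        rw [hc.hy] at hcc
        simp only [Zone.ap, List.mem_append]
        tauto
      have nox : ∀ c, (c = w ∨ c ∈ (D.Z i).ap) → ¬ Joined D.Cl c (D.Z i).x := by
        rintro c (rfl | hcc) hj'
        · rw [← hc.hy] at hj'; exact hnotj (hj'.symm hc.sym)
        · exact hno c hcc hj'
      rcases conv a ha with rfl | ha'
      · rcases conv b hb with rfl | hb'
        · exact hab rfl
        · exact nox b hb' (hj.symm hc.sym)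
      · rcases conv b hb with rfl | hb'
        · exact nox a ha' hj
        · exact hab (hc.unj a b ha' hb' hj))
  have hvs : ∀ v, (v = (D.Z i).x ∨ v = (D.Z i).y ∨ v ∈ (D.Z i).t.apex ∨ v ∈ (D.Z i).t'.apex) →
      v ∈ ({v | v ∈ (D.Z i).vs} : Set Pt) := fun v hv => hrep.vs_iff.2 hv
  refine ⟨E', Cl', ?_, ?_⟩
  · rw [Finset.ssubset_iff_subset_ne]
    constructor
    · rintro ⟨a, b⟩ he; rw [gCl]; exact Or.inr (Or.inr (Or.inl he))
    · intro hh
      apply hnotj
      apply Joined.single
      rw [hh, gCl]; left; exact ⟨rfl, rfl⟩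
  · refine
      { reach := g1
        hCl := ?_, hE := ?_, join := ?_, hX := fun v hv => hv, new := ?_, Esub := ?_
        z1 := fun hf => hf.elim, z2 := ?_, nd := fun hf => hf.elim, vs := fun hf => hf.elim
        okt := fun hf => hf.elim, nb := fun hf => hf.elim, ring := fun hf => hf.elim
        opn := fun hf => hf.elim, k1 := fun hf => hf.elim, k2 := fun hf => hf.elim
        m := ?_, n := fun hf => hf.elim, o := fun _ hf => hf.1.elim }
    · rintro ⟨a, b⟩ he; rw [gCl]; exact Or.inr (Or.inr (Or.inl he))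
    · intro e he; rw [gE]; exact Or.inl he
    · intro a b hab
      rcases g2 a b hab with h1 | ⟨p, hp, q, hq, h1, h2⟩
      · exact Or.inl h1
      · exact Or.inr ⟨p, hvs p hp, q, hvs q hq, h1, h2⟩
    · intro a b hab
      rcases (gCl a b).1 hab with ⟨h1, h2⟩ | ⟨h1, h2⟩ | h1 | h1 | h1
      · right
        exact ⟨hvs a (Or.inl h1), hvs b (Or.inr (Or.inl h2)), Or.inr (Or.inl ⟨h1, h2⟩)⟩
      · right
        exact ⟨hvs a (Or.inr (Or.inl h1)), hvs b (Or.inl h2), Or.inr (Or.inr ⟨h1, h2⟩)⟩
      · exact Or.inl h1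
      · right
        obtain ⟨⟨g, hg, h1⟩, h2, h3⟩ := ZT.sides_he hok.1 a b h1
        exact ⟨hvs a (by tauto), hvs b (by tauto),
          Or.inl ⟨g, (gE g).2 (Or.inr (Or.inl hg)), hrep.cells_iff.2 (Or.inl hg), h1⟩⟩
      · right
        obtain ⟨⟨g, hg, h1⟩, h2, h3⟩ := ZT.sides_he hok.2 a b h1
        exact ⟨hvs a (by tauto), hvs b (by tauto),
          Or.inl ⟨g, (gE g).2 (Or.inr (Or.inr hg)), hrep.cells_iff.2 (Or.inr hg), h1⟩⟩
    · intro c hcc
      rw [gE] at hcc
      rcases hcc with h1 | h1 | h1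
      · exact Or.inl h1
      · exact Or.inr (hrep.cells_iff.2 (Or.inl h1))
      · exact Or.inr (hrep.cells_iff.2 (Or.inr h1))
    · intro c hcc
      left
      rw [gE]
      rcases hrep.cells_iff.1 hcc with h1 | h1
      · exact Or.inr (Or.inl h1)
      · exact Or.inr (Or.inr h1)
    · intro e he
      right
      rw [gCl]
      rcases hrep.ring_iff.1 he with he | he
      · rcases ZT.ring_side e he with ⟨h1, h2, _⟩ | h1
        · exact Or.inl ⟨h1, h2⟩
        · tauto
      · rcases ZT.ring_side e he with ⟨h1, h2, _⟩ | h1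
        · exact Or.inr (Or.inl ⟨h1, h2⟩)
        · tauto

theorem opClose {S : Sta} {D : Dyn} {i : ZI} {w : Pt} (hS : StaOk S) (h : St S D)
    (hc : CF S D i w) {p q r x' y' : Pt} {s s' V : ZT} (hrep : Rep (D.Z i) p q s s')
    (hr : r ∈ s.apex) (hsub : s.sub r p q = some (x', y', V))
    (huniq : ∀ a ∈ (D.Z i).ap, Joined D.Cl a (D.Z i).x → a = r) (hNA : (D.Z i).x ∉ D.A) :
    ∃ E' Cl', (D.Cl ⊂ Cl') ∧ TrH S D i E' Cl' True ⟨x', y', V, ZT.cut⟩
      {v | v = p ∨ v = q ∨ v ∈ (s.cutAt r).apex ∨ v ∈ s'.apex} := by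
  have hzok := h.okt i hc.hi
  obtain ⟨hok, hok'⟩ := hrep.okt hzok.1 hzok.2
  have hzC := h.zC i hc.hi
  have hnd := h.nd i hc.hi
  have hN := hrep.nodup hnd
  have hpq : p ≠ q := by
    rw [List.nodup_cons] at hN
    intro hh
    exact hN.1 (by rw [hh]; simp)
  have hbase : (p = (D.Z i).x ∧ q = (D.Z i).y) ∨ (p = (D.Z i).y ∧ q = (D.Z i).x) := by
    rcases hrep with ⟨h1, h2, _, _⟩ | ⟨h1, h2, _, _⟩
    · exact Or.inl ⟨h1.symm, h2.symm⟩
    · exact Or.inr ⟨h2.symm, h1.symm⟩
  have hnd1 : s.apex.Nodup := by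
    rw [List.nodup_cons, List.nodup_cons, List.nodup_append] at hN
    exact hN.2.2.1
  have hsp : p ∉ s.apex ∧ q ∉ s.apex ∧ p ∉ s'.apex ∧ q ∉ s'.apex := by
    rw [List.nodup_cons, List.nodup_cons] at hN
    obtain ⟨h1, h2, _⟩ := hN
    simp only [List.mem_cons, List.mem_append, not_or] at h1 h2
    exact ⟨h1.2.1, h2.1, h1.2.2, h2.2⟩
  have hss : ∀ a ∈ s.apex, a ∉ s'.apex := by
    intro a ha ha'
    rw [List.nodup_cons, List.nodup_cons, List.nodup_append] at hN
    exact hN.2.2.2.2 a ha a ha' rfl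
  have hcutsub : (s.cutAt r).apex.Sublist s.apex := ZT.apex_cutAt_sub r s
  have hcutm : ∀ a ∈ (s.cutAt r).apex, a ∈ s.apex := fun a ha => hcutsub.subset ha
  obtain ⟨lV, rV, hV⟩ := ZT.sub_isSome' hsub hr
  have hrV : r ∈ V.apex := by rw [hV]; simp [ZT.apex]
  have hVnot : ∀ v ∈ V.apex, v ∉ (s.cutAt r).apex := ZT.not_mem_cutAt hnd1 hsub
  have hVs : ∀ v ∈ V.apex, v ∈ s.apex := fun v hv => (ZT.mem_apex_split hsub).2 (Or.inl hv)
  have hbase' := ZT.sub_base hsub
  have hVok : V.Ok x' y' := hok.sub hsub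
  have hcellsplit : ∀ c, c ∈ s.cells p q ↔ c ∈ (s.cutAt r).cells p q ∨ c ∈ V.cells x' y' := by
    intro c
    rw [ZT.cells_eq_union hsub, Finset.mem_union]
  -- the given trees
  have hL : (p :: q :: ((s.cutAt r).apex ++ s'.apex)).Nodup := by
    refine List.Nodup.sublist ?_ hN
    apply List.Sublist.cons_cons
    apply List.Sublist.cons_cons
    exact List.Sublist.append hcutsub (List.Sublist.refl _)
  have hunjx : ∀ c, (c = w ∨ (c ∈ (s.cutAt r).apex ∨ c ∈ s'.apex)) →
      ¬ Joined D.Cl c (D.Z i).x := by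
    rintro c (rfl | hcc) hj
    · have := hc.alone _ hj
      have hxy : (D.Z i).x ≠ (D.Z i).y := by
        rcases hbase with ⟨h1, h2⟩ | ⟨h1, h2⟩
        · rw [← h1, ← h2]; exact hpq
        · rw [← h1, ← h2]; exact hpq.symm
      exact hxy (by rw [hc.hy]; exact this)
    · have hcap : c ∈ (D.Z i).ap := by
        rw [hrep.ap_iff]
        rcases hcc with h1 | h1
        · exact Or.inl (hcutm c h1)
        · exact Or.inr h1
      have := huniq c hcap hj
      subst this
      rcases hcc with h1 | h1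
      · exact hVnot c hrV h1
      · exact hss c hr h1
  obtain ⟨c0, hc0, hc0'⟩ := base_side hS h hc.hi
  have hside : ∃ c ∈ S.C, HE c p q ∨ HE c q p := by
    refine ⟨c0, hc0, ?_⟩
    rcases hbase with ⟨h1, h2⟩ | ⟨h1, h2⟩
    · rw [h1, h2]; exact hc0'
    · rw [h1, h2]; exact hc0'.symm
  obtain ⟨E', Cl', g1, gE, gCl, g2, hpqJ⟩ := give2' h.reach hc.sym hside
    (hok.cutAt.good (fun c hcc => hzC (hrep.cells_iff.2 (Or.inl ((hcellsplit c).2 (Or.inl hcc))))))
    (hok'.good (fun c hcc => hzC (hrep.cells_iff.2 (Or.inr hcc))))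
    (by
      apply List.Nodup.pairwise_of_forall_ne hL
      intro a ha b hb hab hj
      simp only [List.mem_cons, List.mem_append] at ha hb
      have conv : ∀ c, (c = p ∨ c = q ∨ c ∈ (s.cutAt r).apex ∨ c ∈ s'.apex) →
          c = (D.Z i).x ∨ (c = w ∨ (c ∈ (s.cutAt r).apex ∨ c ∈ s'.apex)) := by
        intro c hcc
        rcases hbase with ⟨h1, h2⟩ | ⟨h1, h2⟩
        · rw [h1, h2, hc.hy] at hcc; exact hcc
        · rw [h1, h2, hc.hy] at hcc
          rcases hcc with h3 | h3 | h3
          · exact Or.inr (Or.inl h3)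
          · exact Or.inl h3
          · exact Or.inr (Or.inr h3)
      have toap : ∀ c, (c = w ∨ (c ∈ (s.cutAt r).apex ∨ c ∈ s'.apex)) →
          (c = w ∨ c ∈ (D.Z i).ap) := by
        rintro c (h1 | h1 | h1)
        · exact Or.inl h1
        · exact Or.inr (hrep.ap_iff.2 (Or.inl (hcutm c h1)))
        · exact Or.inr (hrep.ap_iff.2 (Or.inr h1))
      rcases conv a ha with ha1 | ha'
      · rcases conv b hb with hb1 | hb'
        · exact hab (ha1.trans hb1.symm)
        · rw [ha1] at hj; exact hunjx b hb' (hj.symm hc.sym)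
      · rcases conv b hb with hb1 | hb'
        · rw [hb1] at hj; exact hunjx a ha' hj
        · exact hab (hc.unj a b (toap a ha') (toap b hb') hj))
  -- the new zone
  have hz'ring : ∀ e, e ∈ (⟨x', y', V, ZT.cut⟩ : Zone).ring ↔
      e ∈ V.ring x' y' ∨ e = ⟨y', x', none⟩ := by
    intro e; simp [Zone.ring, ZT.ring]
  have hz'cells : ∀ c, c ∈ (⟨x', y', V, ZT.cut⟩ : Zone).cells ↔ c ∈ V.cells x' y' := by
    intro c; simp [Zone.cells, ZT.cells]
  have hz'vs : ∀ v, v ∈ (⟨x', y', V, ZT.cut⟩ : Zone).vs ↔ v = x' ∨ v = y' ∨ v ∈ V.apex := by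
    intro v; exact vs_cut
  have hz'vs' : (⟨x', y', V, ZT.cut⟩ : Zone).vs = x' :: (V.apex ++ [y']) := by
    simp [Zone.vs, ZT.apex]
  have hz'nd : (⟨x', y', V, ZT.cut⟩ : Zone).vs.Nodup := by
    rw [hz'vs']
    refine List.Nodup.sublist (ZT.sub_vs hsub) ?_
    rw [List.nodup_cons]
    constructor
    · simp only [List.mem_append, List.mem_singleton, not_or]
      exact ⟨hsp.1, hpq⟩
    · rw [List.nodup_append]
      refine ⟨hnd1, by simp, ?_⟩
      intro a ha b hb hab
      rw [List.mem_singleton] at hb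
      rw [hab, hb] at ha
      exact hsp.2.1 ha
  have hx'y' : x' ≠ y' := by
    rw [hz'vs', List.nodup_cons] at hz'nd
    intro hh
    exact hz'nd.1 (by rw [hh]; simp)
  obtain ⟨RA, RB, hR1, hR2⟩ := ZT.ring_split hsub
  have hVring : ∀ e ∈ V.ring x' y', e ∈ (D.Z i).ring := by
    intro e he
    rw [hrep.ring_iff]
    left; rw [hR1]; simp [he]
  have hVcells : ∀ c ∈ V.cells x' y', c ∈ (D.Z i).cells := by
    intro c hcc
    rw [hrep.cells_iff]
    exact Or.inl ((hcellsplit c).2 (Or.inr hcc))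
  -- kept cells are not given
  have hVgiv : ∀ c ∈ V.cells x' y', c ∉ E' := by
    intro c hcc hcE
    rw [gE] at hcE
    obtain ⟨a, ha, hac⟩ := ZT.cells_apex c hcc
    rcases hcE with h1 | h1 | h1
    · exact (h.zE i hc.hi c (hVcells c hcc)).1 h1
    · rcases ZT.mem_cells_sub h1 a hac with h2 | h2 | h2
      · rw [h2] at ha; exact hsp.1 (hVs p ha)
      · rw [h2] at ha; exact hsp.2.1 (hVs q ha)
      · exact hVnot a ha h2
    · rcases ZT.mem_cells_sub h1 a hac with h2 | h2 | h2
      · rw [h2] at ha; exact hsp.2.1 (hVs q ha)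
      · rw [h2] at ha; exact hsp.1 (hVs p ha)
      · exact hss a (hVs a ha) h2
  have hbasecl : (x', y') ∈ Cl' := by
    rw [gCl]
    rcases ZT.base_mem_sides hsub with ⟨h1, h2, _⟩ | h1
    · exact Or.inl ⟨h1, h2⟩
    · exact Or.inr (Or.inr (Or.inr (Or.inl h1)))
  set X : Set Pt := {v | v = p ∨ v = q ∨ v ∈ (s.cutAt r).apex ∨ v ∈ s'.apex} with hXdef
  have hXm : ∀ v, v ∈ X ↔ (v = p ∨ v = q ∨ v ∈ (s.cutAt r).apex ∨ v ∈ s'.apex) :=
    fun v => Iff.rfl
  have hnew : ∀ a b, (a, b) ∈ Cl' → (a, b) ∈ D.Cl ∨ (a ∈ X ∧ b ∈ X ∧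
      ((∃ g ∈ E', g ∈ (D.Z i).cells ∧ (HE g a b ∨ HE g b a)) ∨ (a = p ∧ b = q) ∨
        (a = q ∧ b = p))) := by
    intro a b hab
    rcases (gCl a b).1 hab with ⟨h1, h2⟩ | ⟨h1, h2⟩ | h1 | h1 | h1
    · right
      exact ⟨(hXm a).2 (Or.inl h1), (hXm b).2 (Or.inr (Or.inl h2)), Or.inr (Or.inl ⟨h1, h2⟩)⟩
    · right
      exact ⟨(hXm a).2 (Or.inr (Or.inl h1)), (hXm b).2 (Or.inl h2), Or.inr (Or.inr ⟨h1, h2⟩)⟩
    · exact Or.inl h1
    · right
      obtain ⟨⟨g, hg, h1⟩, h2, h3⟩ := ZT.sides_he hok.cutAt a b h1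
      exact ⟨(hXm a).2 (or3a h2), (hXm b).2 (or3a h3), Or.inl ⟨g, (gE g).2 (Or.inr (Or.inl hg)),
        hrep.cells_iff.2 (Or.inl ((hcellsplit g).2 (Or.inl hg))), h1⟩⟩
    · right
      obtain ⟨⟨g, hg, h1⟩, h2, h3⟩ := ZT.sides_he hok' a b h1
      exact ⟨(hXm a).2 (or3b h2), (hXm b).2 (or3b h3), Or.inl ⟨g, (gE g).2 (Or.inr (Or.inr hg)),
        hrep.cells_iff.2 (Or.inr hg), h1⟩⟩
  have hXz : ∀ v ∈ (⟨x', y', V, ZT.cut⟩ : Zone).vs, v ∈ X → v = y' ∨ v = x' := by
    intro v hv hvX
    rcases (hz'vs v).1 hv with h1 | h1 | h1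
    · exact Or.inr h1
    · exact Or.inl h1
    · exfalso
      rcases (hXm v).1 hvX with h2 | h2 | h2 | h2
      · rw [h2] at h1; exact hsp.1 (hVs p h1)
      · rw [h2] at h1; exact hsp.2.1 (hVs q h1)
      · exact hVnot v h1 h2
      · exact hss v (hVs v h1) h2
  have hx'X : x' ∈ X := by
    rw [hXm]
    rcases hbase'.1 with h1 | h1
    · exact Or.inl h1
    · exact Or.inr (Or.inr (Or.inl h1))
  have hy'X : y' ∈ X := by
    rw [hXm]
    rcases hbase'.2 with h1 | h1
    · exact Or.inr (Or.inl h1)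
    · exact Or.inr (Or.inr (Or.inl h1))
  have hring : ∀ e ∈ (⟨x', y', V, ZT.cut⟩ : Zone).ring,
      e ∈ (D.Z i).ring ∨ e = ⟨y', x', none⟩ := by
    intro e he
    rcases (hz'ring e).1 he with h1 | h1
    · exact Or.inl (hVring e h1)
    · exact Or.inr h1
  obtain ⟨K1, K2⟩ := k12 (z := D.Z i) (n0 := ⟨y', x', none⟩) hz'nd hring
    ((hz'ring _).2 (Or.inr rfl)) rfl hx'y'.symm hy'X hx'X hXz
  have hVnb : ¬ V.Bare := by rw [hV]; simp [ZT.Bare]
  have hsnb : ¬ s.Bare := by
    intro hb
    cases s with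
    | leaf f => simp [ZT.apex] at hr
    | cut => simp [ZT.apex] at hr
    | node a l r => simp [ZT.Bare] at hb
  have hsymE : ∀ a b, (a, b) ∈ Cl' → (b, a) ∈ Cl' := (g1.inv hS.full).symm
  refine ⟨E', Cl', ?_, ?_⟩
  · rw [Finset.ssubset_iff_subset_ne]
    constructor
    · rintro ⟨a, b⟩ he; rw [gCl]; exact Or.inr (Or.inr (Or.inl he))
    · intro hh
      apply hpqJ
      apply Joined.single
      rw [hh, gCl]; left; exact ⟨rfl, rfl⟩
  · refine
      { reach := g1
        hCl := ?_, hE := ?_, join := ?_, hX := ?_, new := ?_, Esub := ?_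
        z1 := ?_, z2 := ?_, nd := fun _ => hz'nd, vs := ?_
        okt := fun _ => ⟨hVok, trivial⟩, nb := ?_, ring := ?_
        opn := ?_, k1 := ?_, k2 := ?_
        m := ?_, n := ?_, o := fun hh => absurd hh hNA }
    · rintro ⟨a, b⟩ he; rw [gCl]; exact Or.inr (Or.inr (Or.inl he))
    · intro e he; rw [gE]; exact Or.inl he
    · intro a b hab
      exact g2 a b hab
    · intro v hv
      rw [hrep.vs_iff]
      rcases (hXm v).1 hv with h1 | h1 | h1 | h1
      · exact Or.inl h1
      · exact Or.inr (Or.inl h1)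
      · exact Or.inr (Or.inr (Or.inl (hcutm v h1)))
      · exact Or.inr (Or.inr (Or.inr h1))
    · intro a b hab
      rcases hnew a b hab with h1 | ⟨h1, h2, h3⟩
      · exact Or.inl h1
      · right
        refine ⟨h1, h2, ?_⟩
        rcases h3 with h3 | ⟨h3, h4⟩ | ⟨h3, h4⟩
        · exact Or.inl h3
        · right
          rcases hbase with ⟨h5, h6⟩ | ⟨h5, h6⟩
          · left; exact ⟨h3.trans h5, h4.trans h6⟩
          · right; exact ⟨h3.trans h5, h4.trans h6⟩
        · right
          rcases hbase with ⟨h5, h6⟩ | ⟨h5, h6⟩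
          · right; exact ⟨h3.trans h6, h4.trans h5⟩
          · left; exact ⟨h3.trans h6, h4.trans h5⟩
    · intro c hcc
      rw [gE] at hcc
      rcases hcc with h1 | h1 | h1
      · exact Or.inl h1
      · right; exact hrep.cells_iff.2 (Or.inl ((hcellsplit c).2 (Or.inl h1)))
      · right; exact hrep.cells_iff.2 (Or.inr h1)
    · intro _ c hcc
      rw [hz'cells] at hcc
      exact ⟨hVcells c hcc, hVgiv c hcc⟩
    · intro c hcc
      rw [hrep.cells_iff, hcellsplit] at hcc
      rcases hcc with (h1 | h1) | h1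
      · left; rw [gE]; exact Or.inr (Or.inl h1)
      · right; exact ⟨trivial, (hz'cells c).2 h1⟩
      · left; rw [gE]; exact Or.inr (Or.inr h1)
    · intro _ v hv
      rw [hrep.vs_iff]
      rcases (hz'vs v).1 hv with h1 | h1 | h1
      · rw [h1]
        rcases hbase'.1 with h2 | h2
        · exact Or.inl h2
        · exact Or.inr (Or.inr (Or.inl (hcutm _ h2)))
      · rw [h1]
        rcases hbase'.2 with h2 | h2
        · exact Or.inr (Or.inl h2)
        · exact Or.inr (Or.inr (Or.inl (hcutm _ h2)))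
      · exact Or.inr (Or.inr (Or.inl (hVs v h1)))
    · intro _ hb
      exact hVnb hb.1
    · intro _ e he
      rcases (hz'ring e).1 he with h1 | h1
      · exact Or.inl (hVring e h1)
      · right
        rw [h1]
        exact ⟨rfl, hsymE _ _ hbasecl⟩
    · -- opn
      intro _ e he hs hold hcl
      have heV : e ∈ V.ring x' y' := by
        rcases (hz'ring e).1 he with h1 | h1
        · exact h1
        · rw [h1] at hs; exact absurd rfl hs
      have hez := hVring e heV
      rcases hnew e.a e.b hcl with h1 | ⟨_, _, ⟨g, hgE, hgz, h1 | h1⟩ | h1⟩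
      · exact hold h1
      · exact h.left hS hc.hi hez hold hgz h1
      · obtain ⟨c, hcc, h2⟩ := ZT.right hVok hVnb e heV
        have := h.side_unique hS (hzC hgz) (hzC (hVcells c hcc)) h1 h2
        subst this
        exact hVgiv g hcc hgE
      · have hes : e ∈ s.ring p q := by rw [hR1]; simp [heV]
        rcases h1 with ⟨h1, h2⟩ | ⟨h1, h2⟩
        · obtain ⟨c, hcc, h3⟩ := ZT.root hok hsnb
          refine h.left hS hc.hi hez hold (hrep.cells_iff.2 (Or.inl hcc)) ?_
          rw [h1, h2]; exact h3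
        · rcases ZT.mem_ring_a hes with h3 | h3
          · exact hpq (h3.symm.trans h1)
          · rw [h1] at h3; exact hsp.2.1 h3
    · intro _ v hv _ hvX
      exact K1 v hv hvX
    · intro _ v hv _ hvX
      exact K2 v hv hvX
    · -- m
      intro e he
      rw [hrep.ring_iff, hR1] at he
      rcases he with he | he
      · rw [List.mem_append, List.mem_append] at he
        have hcut : e ∈ (s.cutAt r).ring p q → (e.a, e.b) ∈ Cl' := by
          intro h1
          rw [gCl]
          rcases ZT.ring_side e h1 with ⟨h2, h3, _⟩ | h2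
          · exact Or.inl ⟨h2, h3⟩
          · exact Or.inr (Or.inr (Or.inr (Or.inl h2)))
        rcases he with (he | he) | he
        · right; apply hcut; rw [hR2]; simp [he]
        · left; exact ⟨trivial, (hz'ring e).2 (Or.inl he)⟩
        · right; apply hcut; rw [hR2]; simp [he]
      · right
        rw [gCl]
        rcases ZT.ring_side e he with ⟨h2, h3, _⟩ | h2
        · exact Or.inr (Or.inl ⟨h2, h3⟩)
        · exact Or.inr (Or.inr (Or.inr (Or.inr h2)))
    · -- n
      intro _ c hcc c' hcc' a b h1 h2 hcl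
      rw [hz'cells] at hcc hcc'
      have hold := h.io i hc.hi c (hVcells c hcc) c' (hVcells c' hcc') a b h1 h2
      rcases hnew a b hcl with h3 | ⟨_, _, ⟨g, hgE, hgz, h3 | h3⟩ | h3⟩
      · exact hold h3
      · have := h.side_unique hS (hzC hgz) (hzC (hVcells c hcc)) h3 h1
        subst this
        exact hVgiv g hcc hgE
      · have := h.side_unique hS (hzC hgz) (hzC (hVcells c' hcc')) h3 h2
        subst this
        exact hVgiv g hcc' hgE
      · -- the base
        have hkey : ∃ d ∈ V.cells x' y', HE d q p := by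
          rcases h3 with ⟨h4, h5⟩ | ⟨h4, h5⟩
          · rw [h4, h5] at h2; exact ⟨c', hcc', h2⟩
          · rw [h4, h5] at h1; exact ⟨c, hcc, h1⟩
        have hold' : (q, p) ∉ D.Cl := by
          rcases h3 with ⟨h4, h5⟩ | ⟨h4, h5⟩
          · rw [h4, h5] at hold; exact fun hh => hold (hc.sym _ _ hh)
          · rw [h4, h5] at hold; exact hold
        obtain ⟨d, hd, hd'⟩ := hkey
        by_cases hb : s'.Bare
        · obtain ⟨e0, he0, e1, e2⟩ := ZT.bare_ring_ex q p hb
          have he0z : e0 ∈ (D.Z i).ring := hrep.ring_iff.2 (Or.inr he0)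
          apply h.left hS hc.hi he0z (by rw [e1, e2]; exact hold') (hVcells d hd)
          rw [e1, e2]; exact hd'
        · obtain ⟨d0, hd0, hd0'⟩ := ZT.root hok' hb
          have := h.side_unique hS (hzC (hVcells d hd))
            (hzC (hrep.cells_iff.2 (Or.inr hd0))) hd' hd0'
          subst this
          exact hVgiv d hd ((gE d).2 (Or.inr (Or.inr hd0)))

end Pool.Agent.RFX

end

section

set_option autoImplicit false

/-!
# RFX/OpOpen : the operation OPEN satisfies the transition hypotheses (MP_72a26e_co) -- helper76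
-/

namespace Pool.Agent.RFX

theorem ZT.not_bare_of_apex {t : ZT} {r : Pt} (hr : r ∈ t.apex) : ¬ t.Bare := by
  intro hb
  cases t with
  | leaf f => simp [ZT.apex] at hr
  | cut => simp [ZT.apex] at hr
  | node a l r => simp [ZT.Bare] at hb

theorem mem_vs4 {p q : Pt} {s s' : ZT} {v : Pt} :
    v ∈ (⟨p, q, s, s'⟩ : Zone).vs ↔ v = p ∨ v = q ∨ v ∈ s.apex ∨ v ∈ s'.apex := by
  simp only [Zone.vs, List.mem_cons, List.mem_append]
  tauto

theorem opOpen {S : Sta} {D : Dyn} {i : ZI} {w : Pt} (hS : StaOk S) (h : St S D)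
    (hc : CF S D i w) {p q u r x' y' : Pt} {s s' V : ZT} (hrep : Rep (D.Z i) p q s s')
    (hu : u ∈ s.apex) (hsub : s.sub u p q = some (x', y', V))
    (hx' : x' ≠ (D.Z i).x) (hy' : y' ≠ (D.Z i).x) (hr : r ∈ (s.cutAt u).apex)
    (hNA : (D.Z i).x ∉ D.A) :
    ∃ E' Cl', (D.Cl ⊂ Cl') ∧ TrH S D i E' Cl' True ⟨p, q, s.cutAt u, s'⟩
      {v | v = x' ∨ v = y' ∨ v ∈ V.apex} := by
  have hzok := h.okt i hc.hi
  obtain ⟨hok, hok'⟩ := hrep.okt hzok.1 hzok.2
  have hzC := h.zC i hc.hi
  have hnd := h.nd i hc.hi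
  have hN := hrep.nodup hnd
  have hpq : p ≠ q := by
    rw [List.nodup_cons] at hN
    intro hh
    exact hN.1 (by rw [hh]; simp)
  have hbase : (p = (D.Z i).x ∧ q = (D.Z i).y) ∨ (p = (D.Z i).y ∧ q = (D.Z i).x) := by
    rcases hrep with ⟨h1, h2, _, _⟩ | ⟨h1, h2, _, _⟩
    · exact Or.inl ⟨h1.symm, h2.symm⟩
    · exact Or.inr ⟨h2.symm, h1.symm⟩
  have hnd1 : s.apex.Nodup := by
    rw [List.nodup_cons, List.nodup_cons, List.nodup_append] at hN
    exact hN.2.2.1
  have hsp : p ∉ s.apex ∧ q ∉ s.apex ∧ p ∉ s'.apex ∧ q ∉ s'.apex := by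
    rw [List.nodup_cons, List.nodup_cons] at hN
    obtain ⟨h1, h2, _⟩ := hN
    simp only [List.mem_cons, List.mem_append, not_or] at h1 h2
    exact ⟨h1.2.1, h2.1, h1.2.2, h2.2⟩
  have hss : ∀ a ∈ s.apex, a ∉ s'.apex := by
    intro a ha ha'
    rw [List.nodup_cons, List.nodup_cons, List.nodup_append] at hN
    exact hN.2.2.2.2 a ha a ha' rfl
  have hcutsub : (s.cutAt u).apex.Sublist s.apex := ZT.apex_cutAt_sub u s
  have hcutm : ∀ a ∈ (s.cutAt u).apex, a ∈ s.apex := fun a ha => hcutsub.subset ha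
  obtain ⟨lV, rV, hV⟩ := ZT.sub_isSome' hsub hu
  have hVnot : ∀ v ∈ V.apex, v ∉ (s.cutAt u).apex := ZT.not_mem_cutAt hnd1 hsub
  have hVs : ∀ v ∈ V.apex, v ∈ s.apex := fun v hv => (ZT.mem_apex_split hsub).2 (Or.inl hv)
  have hbase' := ZT.sub_base hsub
  have hVok : V.Ok x' y' := hok.sub hsub
  have hVnb : ¬ V.Bare := by rw [hV]; simp [ZT.Bare]
  have hcellsplit : ∀ c, c ∈ s.cells p q ↔ c ∈ (s.cutAt u).cells p q ∨ c ∈ V.cells x' y' := by
    intro c
    rw [ZT.cells_eq_union hsub, Finset.mem_union]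
  have hVcells : ∀ c ∈ V.cells x' y', c ∈ (D.Z i).cells := by
    intro c hcc
    rw [hrep.cells_iff]
    exact Or.inl ((hcellsplit c).2 (Or.inr hcc))
  have hxyN : (x' :: (V.apex ++ [y'])).Nodup := by
    refine List.Nodup.sublist (ZT.sub_vs hsub) ?_
    rw [List.nodup_cons]
    constructor
    · simp only [List.mem_append, List.mem_singleton, not_or]
      exact ⟨hsp.1, hpq⟩
    · rw [List.nodup_append]
      refine ⟨hnd1, by simp, ?_⟩
      intro a ha b hb hab
      rw [List.mem_singleton] at hb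
      rw [hab, hb] at ha
      exact hsp.2.1 ha
  have hL : (x' :: y' :: (V.apex ++ ZT.cut.apex)).Nodup := by
    have h1 : (x' :: (V.apex ++ [y'])).Perm (x' :: y' :: (V.apex ++ ZT.cut.apex)) := by
      apply List.Perm.cons
      simp only [ZT.apex, List.append_nil]
      exact List.perm_append_singleton y' V.apex
    exact h1.nodup_iff.1 hxyN
  have hx'y' : x' ≠ y' := by
    rw [List.nodup_cons] at hL
    intro hh
    exact hL.1 (by rw [hh]; simp)
  -- the closed classes are classes of apexes or of w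
  have hxw : x' = w ∨ x' ∈ (D.Z i).ap := by
    rcases hbase'.1 with h1 | h1
    · rcases hbase with ⟨h2, _⟩ | ⟨h2, _⟩
      · exact absurd (h1.trans h2) hx'
      · left; rw [h1, h2, hc.hy]
    · right; exact hrep.ap_iff.2 (Or.inl (hcutm _ h1))
  have hyw : y' = w ∨ y' ∈ (D.Z i).ap := by
    rcases hbase'.2 with h1 | h1
    · rcases hbase with ⟨_, h2⟩ | ⟨_, h2⟩
      · left; rw [h1, h2, hc.hy]
      · exact absurd (h1.trans h2) hy'
    · right; exact hrep.ap_iff.2 (Or.inl (hcutm _ h1))
  obtain ⟨croot, hcroot, hcroot'⟩ := ZT.root hVok hVnb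
  obtain ⟨E', Cl', g1, gE, gCl, g2, hJ⟩ := give2' (t := V) (t' := ZT.cut) h.reach hc.sym
    ⟨croot, hzC (hVcells _ hcroot), Or.inl hcroot'⟩
    (hVok.good (fun c hcc => hzC (hVcells c hcc))) trivial
    (by
      apply List.Nodup.pairwise_of_forall_ne hL
      intro a ha b hb hab hj
      simp only [List.mem_cons, List.mem_append, ZT.apex, List.not_mem_nil, or_false] at ha hb
      have conv : ∀ c, (c = x' ∨ c = y' ∨ c ∈ V.apex) → (c = w ∨ c ∈ (D.Z i).ap) := by
        rintro c (h1 | h1 | h1)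
        · rw [h1]; exact hxw
        · rw [h1]; exact hyw
        · right; exact hrep.ap_iff.2 (Or.inl (hVs c h1))
      exact hab (hc.unj a b (conv a ha) (conv b hb) hj))
  have gE' : ∀ c, c ∈ E' ↔ c ∈ D.E ∨ c ∈ V.cells x' y' := by
    intro c; rw [gE]; simp [ZT.cells]
  have gCl' : ∀ a b, (a, b) ∈ Cl' ↔ (a = x' ∧ b = y') ∨ (a = y' ∧ b = x') ∨ (a, b) ∈ D.Cl ∨
      (a, b) ∈ V.sides x' y' := by
    intro a b; rw [gCl]; simp [ZT.sides]
  clear gE gCl
  obtain ⟨RA, RB, hR1, hR2⟩ := ZT.ring_split hsub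
  -- the new zone
  have hz'ring : ∀ e, e ∈ (⟨p, q, s.cutAt u, s'⟩ : Zone).ring ↔
      e ∈ (s.cutAt u).ring p q ∨ e ∈ s'.ring q p := by
    intro e; simp [Zone.ring]
  have hz'cells : ∀ c, c ∈ (⟨p, q, s.cutAt u, s'⟩ : Zone).cells ↔
      c ∈ (s.cutAt u).cells p q ∨ c ∈ s'.cells q p := by
    intro c; simp [Zone.cells]
  have hz'c2 : ∀ c ∈ (⟨p, q, s.cutAt u, s'⟩ : Zone).cells, c ∈ (D.Z i).cells := by
    intro c hcc
    rcases (hz'cells c).1 hcc with h1 | h1
    · exact hrep.cells_iff.2 (Or.inl ((hcellsplit c).2 (Or.inl h1)))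
    · exact hrep.cells_iff.2 (Or.inr h1)
  have hz'giv : ∀ c ∈ (⟨p, q, s.cutAt u, s'⟩ : Zone).cells, c ∉ E' := by
    intro c hcc hcE
    rcases (gE' c).1 hcE with h1 | h1
    · exact (h.zE i hc.hi c (hz'c2 c hcc)).1 h1
    · obtain ⟨a, ha, hac⟩ := ZT.cells_apex c h1
      rcases (hz'cells c).1 hcc with h3 | h3
      · rcases ZT.mem_cells_sub h3 a hac with h2 | h2 | h2
        · rw [h2] at ha; exact hsp.1 (hVs p ha)
        · rw [h2] at ha; exact hsp.2.1 (hVs q ha)
        · exact hVnot a ha h2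
      · rcases ZT.mem_cells_sub h3 a hac with h2 | h2 | h2
        · rw [h2] at ha; exact hsp.2.1 (hVs q ha)
        · rw [h2] at ha; exact hsp.1 (hVs p ha)
        · exact hss a (hVs a ha) h2
  have hz'nd : (⟨p, q, s.cutAt u, s'⟩ : Zone).vs.Nodup := by
    unfold Zone.vs
    have h1 : (p :: (s.apex ++ q :: s'.apex)).Nodup := by
      refine (List.Perm.nodup_iff ?_).2 hN
      apply List.Perm.cons
      exact List.perm_middle
    refine List.Nodup.sublist ?_ h1
    apply List.Sublist.cons_cons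
    exact List.Sublist.append hcutsub (List.Sublist.refl _)
  have hz'nb : ¬ (⟨p, q, s.cutAt u, s'⟩ : Zone).Bare := by
    intro hb
    exact ZT.not_bare_of_apex hr hb.1
  have hz'ok : (s.cutAt u).Ok p q ∧ s'.Ok q p := ⟨hok.cutAt, hok'⟩
  set X : Set Pt := {v | v = x' ∨ v = y' ∨ v ∈ V.apex} with hXdef
  have hXm : ∀ v, v ∈ X ↔ (v = x' ∨ v = y' ∨ v ∈ V.apex) := fun v => Iff.rfl
  have hnew : ∀ a b, (a, b) ∈ Cl' → (a, b) ∈ D.Cl ∨ (a ∈ X ∧ b ∈ X ∧
      (∃ g ∈ E', g ∈ (D.Z i).cells ∧ (HE g a b ∨ HE g b a))) := by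
    intro a b hab
    rcases (gCl' a b).1 hab with ⟨h1, h2⟩ | ⟨h1, h2⟩ | h1 | h1
    · right
      refine ⟨(hXm a).2 (Or.inl h1), (hXm b).2 (Or.inr (Or.inl h2)),
        croot, (gE' _).2 (Or.inr hcroot), hVcells _ hcroot, Or.inl ?_⟩
      rw [h1, h2]; exact hcroot'
    · right
      refine ⟨(hXm a).2 (Or.inr (Or.inl h1)), (hXm b).2 (Or.inl h2),
        croot, (gE' _).2 (Or.inr hcroot), hVcells _ hcroot, Or.inr ?_⟩
      rw [h1, h2]; exact hcroot'
    · exact Or.inl h1
    · right
      obtain ⟨⟨g, hg, h1⟩, h2, h3⟩ := ZT.sides_he hVok a b h1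
      exact ⟨(hXm a).2 h2, (hXm b).2 h3, g, (gE' g).2 (Or.inr hg), hVcells g hg, h1⟩
  have hXz : ∀ v ∈ (⟨p, q, s.cutAt u, s'⟩ : Zone).vs, v ∈ X → v = x' ∨ v = y' := by
    intro v hv hvX
    rcases (hXm v).1 hvX with h1 | h1 | h1
    · exact Or.inl h1
    · exact Or.inr h1
    · exfalso
      rcases mem_vs4.1 hv with h2 | h2 | h2 | h2
      · rw [h2] at h1; exact hsp.1 (hVs p h1)
      · rw [h2] at h1; exact hsp.2.1 (hVs q h1)
      · exact hVnot v h1 h2
      · exact hss v (hVs v h1) h2
  have hring : ∀ e ∈ (⟨p, q, s.cutAt u, s'⟩ : Zone).ring,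
      e ∈ (D.Z i).ring ∨ e = ⟨x', y', none⟩ := by
    intro e he
    rcases (hz'ring e).1 he with h1 | h1
    · rw [hR2, List.mem_append, List.mem_cons] at h1
      rcases h1 with h1 | h1 | h1
      · left; rw [hrep.ring_iff, hR1]; left; simp [h1]
      · exact Or.inr h1
      · left; rw [hrep.ring_iff, hR1]; left; simp [h1]
    · left; exact hrep.ring_iff.2 (Or.inr h1)
  obtain ⟨K1, K2⟩ := k12 (z := D.Z i) (n0 := ⟨x', y', none⟩) hz'nd hring
    ((hz'ring _).2 (Or.inl (by rw [hR2]; simp))) rfl hx'y' ((hXm _).2 (Or.inl rfl))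
    ((hXm _).2 (Or.inr (Or.inl rfl))) hXz
  refine ⟨E', Cl', ?_, ?_⟩
  · rw [Finset.ssubset_iff_subset_ne]
    constructor
    · rintro ⟨a, b⟩ he; rw [gCl']; exact Or.inr (Or.inr (Or.inl he))
    · intro hh
      apply hJ
      apply Joined.single
      rw [hh, gCl']; left; exact ⟨rfl, rfl⟩
  · refine
      { reach := g1
        hCl := ?_, hE := ?_, join := ?_, hX := ?_, new := ?_, Esub := ?_
        z1 := ?_, z2 := ?_, nd := fun _ => hz'nd, vs := ?_
        okt := fun _ => hz'ok, nb := fun _ => hz'nb, ring := ?_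
        opn := ?_, k1 := ?_, k2 := ?_
        m := ?_, n := ?_, o := fun hh => absurd hh hNA }
    · rintro ⟨a, b⟩ he; rw [gCl']; exact Or.inr (Or.inr (Or.inl he))
    · intro e he; rw [gE']; exact Or.inl he
    · intro a b hab
      rcases g2 a b hab with h1 | ⟨c, hcx, d, hdx, h1, h2⟩
      · exact Or.inl h1
      · right
        simp only [ZT.apex, List.not_mem_nil, or_false] at hcx hdx
        exact ⟨c, (hXm c).2 hcx, d, (hXm d).2 hdx, h1, h2⟩
    · intro v hv
      rw [hrep.vs_iff]
      rcases (hXm v).1 hv with h1 | h1 | h1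
      · rw [h1]
        rcases hbase'.1 with h2 | h2
        · exact Or.inl h2
        · exact Or.inr (Or.inr (Or.inl (hcutm _ h2)))
      · rw [h1]
        rcases hbase'.2 with h2 | h2
        · exact Or.inr (Or.inl h2)
        · exact Or.inr (Or.inr (Or.inl (hcutm _ h2)))
      · exact Or.inr (Or.inr (Or.inl (hVs v h1)))
    · intro a b hab
      rcases hnew a b hab with h1 | ⟨h1, h2, h3⟩
      · exact Or.inl h1
      · exact Or.inr ⟨h1, h2, Or.inl h3⟩
    · intro c hcc
      rcases (gE' c).1 hcc with h1 | h1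
      · exact Or.inl h1
      · exact Or.inr (hVcells c h1)
    · intro _ c hcc
      exact ⟨hz'c2 c hcc, hz'giv c hcc⟩
    · intro c hcc
      rw [hrep.cells_iff, hcellsplit] at hcc
      rcases hcc with (h1 | h1) | h1
      · right; exact ⟨trivial, (hz'cells c).2 (Or.inl h1)⟩
      · left; rw [gE']; exact Or.inr h1
      · right; exact ⟨trivial, (hz'cells c).2 (Or.inr h1)⟩
    · intro _ v hv
      rw [hrep.vs_iff]
      rcases mem_vs4.1 hv with h1 | h1 | h1 | h1
      · exact Or.inl h1
      · exact Or.inr (Or.inl h1)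
      · exact Or.inr (Or.inr (Or.inl (hcutm v h1)))
      · exact Or.inr (Or.inr (Or.inr h1))
    · intro _ e he
      rcases hring e he with h1 | h1
      · exact Or.inl h1
      · right
        rw [h1]
        exact ⟨rfl, (gCl' _ _).2 (Or.inl ⟨rfl, rfl⟩)⟩
    · -- opn
      intro _ e he hs hold hcl
      have hez : e ∈ (D.Z i).ring := by
        rcases hring e he with h1 | h1
        · exact h1
        · rw [h1] at hs; exact absurd rfl hs
      rcases hnew e.a e.b hcl with h1 | ⟨_, _, ⟨g, hgE, hgz, h1 | h1⟩⟩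
      · exact hold h1
      · exact h.left hS hc.hi hez hold hgz h1
      · obtain ⟨c, hcc, h2⟩ := Zone.right (z := ⟨p, q, s.cutAt u, s'⟩) hz'ok.1 hz'ok.2 hz'nb e he
        have := h.side_unique hS (hzC hgz) (hzC (hz'c2 c hcc)) h1 h2
        subst this
        exact hz'giv g hcc hgE
    · intro _ v hv _ hvX
      exact K1 v hv hvX
    · intro _ v hv _ hvX
      exact K2 v hv hvX
    · -- m
      intro e he
      rw [hrep.ring_iff, hR1] at he
      rcases he with he | he
      · rw [List.mem_append, List.mem_append] at he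
        rcases he with (he | he) | he
        · left; refine ⟨trivial, (hz'ring e).2 (Or.inl ?_)⟩; rw [hR2]; simp [he]
        · right
          rw [gCl']
          rcases ZT.ring_side e he with ⟨h2, h3, _⟩ | h2
          · exact Or.inl ⟨h2, h3⟩
          · exact Or.inr (Or.inr (Or.inr h2))
        · left; refine ⟨trivial, (hz'ring e).2 (Or.inl ?_)⟩; rw [hR2]; simp [he]
      · left; exact ⟨trivial, (hz'ring e).2 (Or.inr he)⟩
    · -- n
      intro _ c hcc c' hcc' a b h1 h2 hcl
      have hold := h.io i hc.hi c (hz'c2 c hcc) c' (hz'c2 c' hcc') a b h1 h2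
      rcases hnew a b hcl with h3 | ⟨_, _, ⟨g, hgE, hgz, h3 | h3⟩⟩
      · exact hold h3
      · have := h.side_unique hS (hzC hgz) (hzC (hz'c2 c hcc)) h3 h1
        subst this
        exact hz'giv g hcc hgE
      · have := h.side_unique hS (hzC hgz) (hzC (hz'c2 c' hcc')) h3 h2
        subst this
        exact hz'giv g hcc' hgE

end Pool.Agent.RFX

end
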