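import Mathlib
import Pool.Agent.RFM.P08
import Pool.Agent.RFM.P10
import Pool.Agent.RFM.P11

set_option autoImplicit false

/-!
# RFM/P15 (MP_72a26e_co): the files RFX/Ini0, RFX/IniL, RFX/ZL, RFX/IniM, RFX/IniO, RFX/IniP, RFX/IniG1, RFX/IniB, RFX/IniE, merged to save build time
-/

section

set_option autoImplicit false

/-!
# RFX/Ini0 : the initial state, DEFINITIONS (MP_72a26e_co) -- helper12

`X : IX` bundles the data: tiling (`Til`) and the output of the initial phase (`InitOut`).  `X.Ok` : both hold.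

* dummy labels: `FT.z t : ZT` has `leaf ∅` at every leaf; `ZT.rl s t x y` relabels the leaf over the dart
  `(a, b)` by `s a b` (`some f` : `leaf f`, `none` : `cut`).
* `X.F` : faces = cells which are not in `E0`, `G0` and are no node.
* `X.s a b` : label of the leaf dart `(a, b)`: closed : `none`; face `f` on the left: `some f`; otherwise the
  digon `some {a, b}`.
* `X.Drop N w` : bare end-edge with a node on one side; it gets no zone.
* zones: ids `X.Bk` = the other end-edges `(N, w)`; `X.Gt` = closed free darts `g` with `X.gate g ≠ none`;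
  `X.Hk` = `(g1, g2)` for the gaps.  `X.Z i` : the zone with id `i`.
* `X.A` : points in two zones, `X.T`, `X.H`, `X.Fr`, `X.fp`, `X.fm`, `X.fref`.
* `X.Sx : Sta`, `X.Dx : Dyn` : the initial state.
-/

namespace Pool.Agent.RFX

open Pool.Agent.RFT

/-- dummy labels -/
def FT.z : FT → ZT
  | FT.lf => ZT.leaf ∅
  | FT.nd a l r => ZT.node a (FT.z l) (FT.z r)

namespace ZT

/-- leaf darts of the tree over `(x, y)` -/
def lv : ZT → Pt → Pt → List (Pt × Pt)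
  | leaf _, x, y => [(x, y)]
  | cut, x, y => [(x, y)]
  | node a l r, x, y => lv l x a ++ lv r a y

/-- nodes `(x, y, a)` of the tree over `(x, y)` -/
def ns : ZT → Pt → Pt → List (Pt × Pt × Pt)
  | leaf _, _, _ => []
  | cut, _, _ => []
  | node a l r, x, y => (x, y, a) :: (ns l x a ++ ns r a y)

/-- the leaf or cut with label `o` -/
def lab : Option (Finset Pt) → ZT
  | some f => leaf f
  | none => cut

/-- relabelling -/
def rl (s : Pt → Pt → Option (Finset Pt)) : ZT → Pt → Pt → ZT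
  | leaf _, x, y => lab (s x y)
  | cut, x, y => lab (s x y)
  | node a l r, x, y => node a (rl s l x a) (rl s r a y)

end ZT

/-- data for the initial state -/
structure IX where
  P : Finset Pt
  C : Finset (Finset Pt)
  E0 : Finset (Finset Pt)
  G0 : Finset (Finset Pt)
  B0 : Finset (Pt × Pt)
  M0 : Finset (Pt × Pt)
  Cl0 : Finset (Pt × Pt)
  Gp : Finset (Pt × Pt × Pt × Pt)
  L : Finset Pt
  τ : Pt × Pt → FT
  E : Finset (Finset Pt)
  Cl : Finset (Pt × Pt)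
  gate : Pt × Pt → Option Gate

namespace IX

variable (X : IX)

/-- the closed free darts -/
noncomputable def gs : List (Pt × Pt) :=
  open Classical in
  (X.M0.filter (fun g => FreeDart X.P (X.E0 ∪ X.G0) X.M0 g ∧ g ∈ X.Cl0)).toList

/-- apexes of the trees over open free darts -/
def Ao : Set Pt := {a | ∃ g, g ∉ X.Cl0 ∧ a ∈ (X.τ g).ap}

structure Ok : Prop where
  til : Til X.P X.C X.E0 X.G0 X.B0 X.M0 X.Cl0 X.Gp X.L X.τ
  ini : InitOut X.P X.C X.E0 X.Cl0 (fun g => (X.τ g).z) X.Ao X.gs X.E X.Cl X.gate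

/-- `c` is a node of a tree -/
def Nd (c : Finset Pt) : Prop := ∃ g p q a, (p, q, a) ∈ (X.τ g).ns g.1 g.2 ∧ c = {p, q, a}

/-- the faces -/
noncomputable def F : Finset (Finset Pt) :=
  open Classical in X.C.filter (fun c => c ∉ X.E0 ∧ c ∉ X.G0 ∧ ¬ X.Nd c)

/-- the label of the leaf dart `(a, b)` -/
noncomputable def s (a b : Pt) : Option (Finset Pt) :=
  open Classical in
  if (a, b) ∈ X.Cl then none
  else if h : ∃ f ∈ X.F, HE f a b then some h.choose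
  else some {a, b}

/-- bare end-edges with a node on one side -/
def Drop (N w : Pt) : Prop :=
  X.τ (N, w) = FT.lf ∧ X.τ (w, N) = FT.lf ∧ ∃ c ∈ X.C, X.Nd c ∧ (HE c N w ∨ HE c w N)

/-- ids of the end-edge zones -/
noncomputable def Bk : Finset ZI := open Classical in X.B0.filter (fun i => ¬ X.Drop i.1 i.2)

/-- ids of the gates -/
noncomputable def Gt : Finset ZI := open Classical in X.gs.toFinset.filter (fun i => X.gate i ≠ none)

/-- ids of the gap zones -/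
noncomputable def Hk : Finset ZI := X.Gp.image (fun q => (q.1, q.2.1))

noncomputable def I : Finset ZI := X.Bk ∪ (X.Gt ∪ X.Hk)

/-- the gap has the diagonal `g2 g3` -/
def Diag (g1 g2 g3 g4 : Pt) : Prop :=
  0 < orient g1 g2 g3 ∧ 0 < orient g3 g2 g4 ∧ ({g1, g2, g3} : Finset Pt) ∈ X.G0 ∧
    ({g3, g2, g4} : Finset Pt) ∈ X.G0

/-- the tree of a gap over `(g1, g2)` -/
noncomputable def gapT (g1 g2 g3 g4 : Pt) : ZT :=
  open Classical in
  if X.Diag g1 g2 g3 g4 then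
    .node g3 (X.τ (g1, g3)).z (.node g4 (.leaf ∅) (X.τ (g4, g2)).z)
  else .node g4 (.node g3 (X.τ (g1, g3)).z (.leaf ∅)) (X.τ (g4, g2)).z

/-- the zones -/
noncomputable def Z (i : ZI) : Zone :=
  open Classical in
  if i ∈ X.B0 then
    ⟨i.1, i.2, (X.τ i).z.rl X.s i.1 i.2, (X.τ (i.2, i.1)).z.rl X.s i.2 i.1⟩
  else match X.gate i with
    | some G => ⟨G.x, G.y, G.V.rl X.s G.x G.y, .cut⟩
    | none =>
      if h : ∃ q : Pt × Pt × Pt × Pt, q ∈ X.Gp ∧ (q.1, q.2.1) = i then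
        ⟨i.1, i.2, (X.gapT i.1 i.2 h.choose.2.2.1 h.choose.2.2.2).rl X.s i.1 i.2, .cut⟩
      else ⟨i.1, i.2, .cut, .cut⟩

/-- all ring vertices -/
noncomputable def RV : Finset Pt := X.I.biUnion (fun i => (X.Z i).vs.toFinset)

/-- points in two zones -/
noncomputable def A : Finset Pt :=
  open Classical in
  X.RV.filter (fun v => ∃ i ∈ X.I, ∃ j ∈ X.I, i ≠ j ∧ v ∈ (X.Z i).vs ∧ v ∈ (X.Z j).vs)

/-- free links: no closed dart -/
noncomputable def Fr : Finset Pt :=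
  open Classical in X.A.filter (fun v => ∀ b, (v, b) ∉ X.Cl)

/-- tail of the link `v`: a tip: its end-edge; otherwise the gate based at `v` -/
noncomputable def T (v : Pt) : ZI :=
  open Classical in
  if h : ∃ N, (N, v) ∈ X.B0 then (h.choose, v)
  else if h : ∃ i ∈ X.Gt, v ∈ (X.Z i).vs then h.choose
  else (v, v)

/-- head of the link `v`: the other zone -/
noncomputable def H (v : Pt) : ZI :=
  open Classical in
  if h : ∃ i ∈ X.I, i ≠ X.T v ∧ v ∈ (X.Z i).vs then h.choose else (v, v)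

/-- face behind the ring edge of zone `T v` which ends in `v` -/
noncomputable def fp (v : Pt) : Finset Pt :=
  open Classical in
  if h : ∃ f : Finset Pt, ∃ e ∈ (X.Z (X.T v)).ring, e.b = v ∧ e.s = some f then h.choose else ∅

/-- face behind the ring edge of zone `T v` which starts in `v` -/
noncomputable def fm (v : Pt) : Finset Pt :=
  open Classical in
  if h : ∃ f : Finset Pt, ∃ e ∈ (X.Z (X.T v)).ring, e.a = v ∧ e.s = some f then h.choose else ∅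

/-- attached links: face behind the leaf at `v` of the gate based at `v` -/
noncomputable def fref (v : Pt) : Finset Pt :=
  open Classical in
  if h : ∃ f : Finset Pt, ∃ i ∈ X.Gt, ∃ e ∈ (X.Z i).ring, (e.a = v ∨ e.b = v) ∧ e.s = some f
    then h.choose else ∅

/-- the static data -/
noncomputable def Sx : Sta where
  P := X.P
  C := X.C
  F := X.F
  T := X.T
  H := X.H
  ed := fun i => i ∈ X.B0

/-- the initial dynamic data -/
noncomputable def Dx : Dyn where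
  E := X.E
  Cl := X.Cl
  I := X.I
  Z := X.Z
  A := X.A
  Fr := X.Fr
  fref := X.fref
  fp := X.fp
  fm := X.fm

end IX

end Pool.Agent.RFX

end

section

set_option autoImplicit false

/-!
# RFX/IniL : basic lemmas for the initial state (MP_72a26e_co) -- helper12
-/

namespace Pool.Agent.RFX

open Pool.Agent.RFT

@[simp] theorem FT.z_ap (t : FT) : t.z.apex = t.ap := by
  induction t with
  | lf => rfl
  | nd a l r hl hr => simp [FT.z, ZT.apex, hl, hr]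

@[simp] theorem FT.z_lv (t : FT) : ∀ x y : Pt, t.z.lv x y = t.lv x y := by
  induction t with
  | lf => intro x y; rfl
  | nd a l r hl hr => intro x y; simp [FT.z, ZT.lv, hl, hr]

@[simp] theorem FT.z_ns (t : FT) : ∀ x y : Pt, t.z.ns x y = t.ns x y := by
  induction t with
  | lf => intro x y; rfl
  | nd a l r hl hr => intro x y; simp [FT.z, ZT.ns, hl, hr]

theorem FT.z_bare {t : FT} : t.z.Bare ↔ t = FT.lf := by
  cases t <;> simp [FT.z, ZT.Bare]

namespace ZT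

theorem lab_bare (o : Option (Finset Pt)) : (lab o).Bare := by cases o <;> exact trivial

theorem lab_ring (o : Option (Finset Pt)) (x y : Pt) : (lab o).ring x y = [⟨x, y, o⟩] := by
  cases o <;> rfl

@[simp] theorem lab_apex (o : Option (Finset Pt)) : (lab o).apex = [] := by cases o <;> rfl

@[simp] theorem lab_cells (o : Option (Finset Pt)) (x y : Pt) : (lab o).cells x y = ∅ := by
  cases o <;> rfl

/-- the ring of a relabelled tree -/
theorem rl_ring (s : Pt → Pt → Option (Finset Pt)) (t : ZT) : ∀ x y : Pt,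
    (t.rl s x y).ring x y = (t.lv x y).map (fun d => (⟨d.1, d.2, s d.1 d.2⟩ : RE)) := by
  induction t with
  | leaf f => intro x y; simp [rl, lv, lab_ring]
  | cut => intro x y; simp [rl, lv, lab_ring]
  | node a l r ihl ihr => intro x y; simp [rl, lv, ring, ihl, ihr]

@[simp] theorem rl_apex (s : Pt → Pt → Option (Finset Pt)) (t : ZT) : ∀ x y : Pt,
    (t.rl s x y).apex = t.apex := by
  induction t with
  | leaf f => intro x y; simp [rl, apex]
  | cut => intro x y; simp [rl, apex]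
  | node a l r ihl ihr => intro x y; simp [rl, apex, ihl, ihr]

@[simp] theorem rl_cells (s : Pt → Pt → Option (Finset Pt)) (t : ZT) : ∀ x y x' y' : Pt,
    (t.rl s x' y').cells x y = t.cells x y := by
  induction t with
  | leaf f => intro x y x' y'; simp [rl, cells]
  | cut => intro x y x' y'; simp [rl, cells]
  | node a l r ihl ihr => intro x y x' y'; simp [rl, cells, ihl, ihr]

theorem rl_bare (s : Pt → Pt → Option (Finset Pt)) (t : ZT) (x y : Pt) :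
    (t.rl s x y).Bare ↔ t.Bare := by
  cases t with
  | leaf f => exact ⟨fun _ => trivial, fun _ => lab_bare _⟩
  | cut => exact ⟨fun _ => trivial, fun _ => lab_bare _⟩
  | node a l r => exact Iff.rfl

theorem rl_ok (s : Pt → Pt → Option (Finset Pt)) (t : ZT) : ∀ x y x' y' : Pt,
    (t.rl s x' y').Ok x y ↔ t.Ok x y := by
  induction t with
  | leaf f => intro x y x' y'; cases h : s x' y' <;> simp [rl, Ok, lab, h]
  | cut => intro x y x' y'; cases h : s x' y' <;> simp [rl, Ok, lab, h]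
  | node a l r ihl ihr => intro x y x' y'; simp [rl, Ok, ihl, ihr]

theorem mem_cells_iff (t : ZT) : ∀ x y : Pt, ∀ c : Finset Pt,
    c ∈ t.cells x y ↔ ∃ n ∈ t.ns x y, c = {n.1, n.2.1, n.2.2} := by
  induction t with
  | leaf f => intro x y c; simp [cells, ns]
  | cut => intro x y c; simp [cells, ns]
  | node a l r hl hr =>
    intro x y c
    simp only [cells, ns, List.mem_cons, List.mem_append, Finset.mem_insert, Finset.mem_union, hl, hr]
    constructor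
    · rintro (h | ⟨n, hn, h⟩ | ⟨n, hn, h⟩)
      · exact ⟨(x, y, a), Or.inl rfl, h⟩
      · exact ⟨n, Or.inr (Or.inl hn), h⟩
      · exact ⟨n, Or.inr (Or.inr hn), h⟩
    · rintro ⟨n, hn | hn | hn, h⟩
      · subst hn; exact Or.inl h
      · exact Or.inr (Or.inl ⟨n, hn, h⟩)
      · exact Or.inr (Or.inr ⟨n, hn, h⟩)

/-- the sides other than the root base -/
theorem mem_sides_iff (t : ZT) : ∀ x y : Pt, ∀ d : Pt × Pt, d ∈ t.sides x y ↔
    ∃ n ∈ t.ns x y, d = (n.1, n.2.2) ∨ d = (n.2.2, n.1) ∨ d = (n.2.2, n.2.1) ∨ d = (n.2.1, n.2.2) := by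
  induction t with
  | leaf f => intro x y d; simp [sides, ns]
  | cut => intro x y d; simp [sides, ns]
  | node a l r hl hr =>
    intro x y d
    simp only [sides, ns, Finset.mem_union, Finset.mem_insert, Finset.mem_singleton, hl, hr,
      List.mem_cons, List.mem_append]
    constructor
    · rintro (h | ⟨n, hn, h⟩ | ⟨n, hn, h⟩)
      · exact ⟨(x, y, a), Or.inl rfl, h⟩
      · exact ⟨n, Or.inr (Or.inl hn), h⟩
      · exact ⟨n, Or.inr (Or.inr hn), h⟩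
    · rintro ⟨n, hn | hn | hn, h⟩
      · subst hn; exact Or.inl h
      · exact Or.inr (Or.inl ⟨n, hn, h⟩)
      · exact Or.inr (Or.inr ⟨n, hn, h⟩)

end ZT

namespace IX

variable {X : IX}

theorem mem_gs {g : Pt × Pt} :
    g ∈ X.gs ↔ FreeDart X.P (X.E0 ∪ X.G0) X.M0 g ∧ g ∈ X.Cl0 := by
  classical
  unfold gs
  rw [Finset.mem_toList, Finset.mem_filter]
  exact ⟨fun h => h.2, fun h => ⟨h.1.1, h⟩⟩

theorem mem_F {c : Finset Pt} : c ∈ X.F ↔ c ∈ X.C ∧ c ∉ X.E0 ∧ c ∉ X.G0 ∧ ¬ X.Nd c := by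
  classical
  unfold F
  rw [Finset.mem_filter]

theorem mem_Bk {i : ZI} : i ∈ X.Bk ↔ i ∈ X.B0 ∧ ¬ X.Drop i.1 i.2 := by
  classical
  unfold Bk
  rw [Finset.mem_filter]

theorem mem_Gt {i : ZI} : i ∈ X.Gt ↔ i ∈ X.gs ∧ X.gate i ≠ none := by
  classical
  unfold Gt
  rw [Finset.mem_filter, List.mem_toFinset]

theorem mem_Hk {i : ZI} : i ∈ X.Hk ↔ ∃ g3 g4, (i.1, i.2, g3, g4) ∈ X.Gp := by
  unfold Hk
  rw [Finset.mem_image]
  constructor
  · rintro ⟨⟨g1, g2, g3, g4⟩, hq, rfl⟩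
    exact ⟨g3, g4, hq⟩
  · rintro ⟨g3, g4, hq⟩
    exact ⟨_, hq, rfl⟩

theorem mem_I {i : ZI} : i ∈ X.I ↔ i ∈ X.Bk ∨ i ∈ X.Gt ∨ i ∈ X.Hk := by
  unfold I
  rw [Finset.mem_union, Finset.mem_union]

theorem mem_RV {v : Pt} : v ∈ X.RV ↔ ∃ i ∈ X.I, v ∈ (X.Z i).vs := by
  unfold RV
  simp only [Finset.mem_biUnion, List.mem_toFinset]

theorem mem_A {v : Pt} : v ∈ X.A ↔
    ∃ i ∈ X.I, ∃ j ∈ X.I, i ≠ j ∧ v ∈ (X.Z i).vs ∧ v ∈ (X.Z j).vs := by
  classical
  unfold A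
  rw [Finset.mem_filter, mem_RV]
  constructor
  · exact fun h => h.2
  · rintro ⟨i, hi, j, hj, hij, h1, h2⟩
    exact ⟨⟨i, hi, h1⟩, i, hi, j, hj, hij, h1, h2⟩

theorem mem_Fr {v : Pt} : v ∈ X.Fr ↔ v ∈ X.A ∧ ∀ b, (v, b) ∉ X.Cl := by
  classical
  unfold Fr
  rw [Finset.mem_filter]

theorem s_closed {a b : Pt} (h : (a, b) ∈ X.Cl) : X.s a b = none := by
  unfold s
  rw [if_pos h]

theorem s_none {a b : Pt} : X.s a b = none ↔ (a, b) ∈ X.Cl := by
  unfold s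
  split_ifs with h1 h2
  · simp [h1]
  · simp [h1]
  · simp [h1]

theorem s_some {a b : Pt} {f : Finset Pt} (h : X.s a b = some f) :
    (a, b) ∉ X.Cl ∧ ((f ∈ X.F ∧ HE f a b) ∨ ((∀ c ∈ X.F, ¬ HE c a b) ∧ f = {a, b})) := by
  unfold s at h
  split_ifs at h with h1 h2
  · simp only [Option.some.injEq] at h
    rw [← h]
    exact ⟨h1, Or.inl h2.choose_spec⟩
  · simp only [Option.some.injEq] at h
    push Not at h2
    exact ⟨h1, Or.inr ⟨h2, h.symm⟩⟩

theorem s_face (h : X.Ok) {a b : Pt} {f : Finset Pt} (hf : f ∈ X.F) (hab : HE f a b)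
    (hcl : (a, b) ∉ X.Cl) : X.s a b = some f := by
  have h2 : ∃ f ∈ X.F, HE f a b := ⟨f, hf, hab⟩
  unfold s
  rw [if_neg hcl, dif_pos h2]
  congr 1
  exact h.til.nf.full.cx.side_unique (mem_F.1 h2.choose_spec.1).1 (mem_F.1 hf).1
    h2.choose_spec.2 hab

theorem s_digon {a b : Pt} (hf : ∀ f ∈ X.F, ¬ HE f a b)
    (hcl : (a, b) ∉ X.Cl) : X.s a b = some {a, b} := by
  have h2 : ¬ ∃ f ∈ X.F, HE f a b := by push Not; exact hf
  unfold s
  rw [if_neg hcl, dif_neg h2]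

theorem gt_gate {i : ZI} (hi : i ∈ X.Gt) : ∃ G, X.gate i = some G := by
  have := (mem_Gt.1 hi).2
  cases h : X.gate i with
  | none => exact absurd h this
  | some G => exact ⟨G, rfl⟩

theorem gate_gt (h : X.Ok) {i : ZI} {G : Gate} (hG : X.gate i = some G) : i ∈ X.Gt := by
  refine mem_Gt.2 ⟨?_, by rw [hG]; simp⟩
  by_contra hc
  rw [h.ini.gate_none i hc] at hG
  cases hG

/-- ids: an end-edge is not closed -/
theorem b0_not_cl0 (h : X.Ok) {i : ZI} (hi : i ∈ X.B0) : i ∉ X.Cl0 :=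
  (h.til.nf.bE i.1 i.2 hi).2.1

theorem b0_not_gs (h : X.Ok) {i : ZI} (hi : i ∈ X.B0) : i ∉ X.gs :=
  fun h1 => b0_not_cl0 h hi (mem_gs.1 h1).2

/-- the zone of an end-edge -/
theorem Z_B {i : ZI} (hi : i ∈ X.B0) :
    X.Z i = ⟨i.1, i.2, (X.τ i).z.rl X.s i.1 i.2, (X.τ (i.2, i.1)).z.rl X.s i.2 i.1⟩ := by
  unfold Z
  rw [if_pos hi]

/-- the zone of a gate -/
theorem Z_G (h : X.Ok) {i : ZI} {G : Gate} (hG : X.gate i = some G) :
    X.Z i = ⟨G.x, G.y, G.V.rl X.s G.x G.y, .cut⟩ := by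
  have h1 : i ∉ X.B0 := fun hc => b0_not_gs h hc (mem_Gt.1 (gate_gt h hG)).1
  unfold Z
  rw [if_neg h1, hG]

end IX

end Pool.Agent.RFX

end

section

set_option autoImplicit false

/-!
# RFX/ZL : combinatorics of trees `ZT` (nodes, leaf darts, subtrees) (MP_72a26e_co) -- helper12
-/

namespace Pool.Agent.RFX

open Pool.Agent.RFT

namespace ZT

theorem ns_apex {t : ZT} : ∀ {x y : Pt} {n : Pt × Pt × Pt}, n ∈ t.ns x y → n.2.2 ∈ t.apex := by
  induction t with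
  | leaf f => intro x y n h; simp [ns] at h
  | cut => intro x y n h; simp [ns] at h
  | node a l r ihl ihr =>
    intro x y n h
    simp only [ns, List.mem_cons, List.mem_append] at h
    simp only [apex, List.mem_append, List.mem_cons]
    rcases h with rfl | h | h
    · exact Or.inr (Or.inl rfl)
    · exact Or.inl (ihl h)
    · exact Or.inr (Or.inr (ihr h))

theorem apex_ns {t : ZT} : ∀ {x y : Pt} {a : Pt}, a ∈ t.apex → ∃ p q, (p, q, a) ∈ t.ns x y := by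
  induction t with
  | leaf f => intro x y a h; simp [apex] at h
  | cut => intro x y a h; simp [apex] at h
  | node b l r ihl ihr =>
    intro x y a h
    simp only [apex, List.mem_append, List.mem_cons] at h
    simp only [ns, List.mem_cons, List.mem_append]
    rcases h with h | rfl | h
    · obtain ⟨p, q, h⟩ := ihl (x := x) (y := b) h
      exact ⟨p, q, Or.inr (Or.inl h)⟩
    · exact ⟨x, y, Or.inl rfl⟩
    · obtain ⟨p, q, h⟩ := ihr (x := b) (y := y) h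
      exact ⟨p, q, Or.inr (Or.inr h)⟩

/-- with different apexes a node is determined by its apex -/
theorem ns_unique {t : ZT} : ∀ {x y : Pt} {n n' : Pt × Pt × Pt}, t.apex.Nodup → n ∈ t.ns x y →
    n' ∈ t.ns x y → n.2.2 = n'.2.2 → n = n' := by
  induction t with
  | leaf f => intro x y n n' _ h; simp [ns] at h
  | cut => intro x y n n' _ h; simp [ns] at h
  | node a l r ihl ihr =>
    intro x y n n' hnd h h' he
    simp only [apex] at hnd
    rw [List.nodup_append] at hnd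
    obtain ⟨nl, nar, nlr⟩ := hnd
    rw [List.nodup_cons] at nar
    obtain ⟨har, nr⟩ := nar
    simp only [ns, List.mem_cons, List.mem_append] at h h'
    rcases h with rfl | h | h <;> rcases h' with rfl | h' | h'
    · rfl
    · exact absurd he.symm (nlr _ (ns_apex h') a (by simp))
    · exfalso
      apply har
      have := ns_apex h'
      rw [← he] at this
      exact this
    · exact absurd he (nlr _ (ns_apex h) a (by simp))
    · exact ihl nl h h' he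
    · exact absurd he (nlr _ (ns_apex h) _ (List.mem_cons_of_mem _ (ns_apex h')))
    · exfalso
      apply har
      have := ns_apex h
      rw [he] at this
      exact this
    · exact absurd he.symm (nlr _ (ns_apex h') _ (List.mem_cons_of_mem _ (ns_apex h)))
    · exact ihr nr h h' he

/-- vertices of a node -/
theorem ns_verts {t : ZT} : ∀ {x y : Pt} {p q a : Pt}, (p, q, a) ∈ t.ns x y →
    (p = x ∨ p ∈ t.apex) ∧ (q = y ∨ q ∈ t.apex) := by
  induction t with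
  | leaf f => intro x y p q a h; simp [ns] at h
  | cut => intro x y p q a h; simp [ns] at h
  | node b l r ihl ihr =>
    intro x y p q a h
    simp only [ns, List.mem_cons, List.mem_append] at h
    simp only [apex, List.mem_append, List.mem_cons]
    rcases h with h | h | h
    · simp only [Prod.mk.injEq] at h
      exact ⟨Or.inl h.1, Or.inl h.2.1⟩
    · obtain ⟨h1, h2⟩ := ihl h
      tauto
    · obtain ⟨h1, h2⟩ := ihr h
      tauto

/-- the base of a node is the root dart or an upper dart of another node -/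
theorem ns_base {t : ZT} : ∀ {x y : Pt} {p q a : Pt}, (p, q, a) ∈ t.ns x y →
    (p = x ∧ q = y) ∨ (∃ p' q', (p', q', q) ∈ t.ns x y ∧ p = p') ∨
      (∃ p' q', (p', q', p) ∈ t.ns x y ∧ q = q') := by
  induction t with
  | leaf f => intro x y p q a h; simp [ns] at h
  | cut => intro x y p q a h; simp [ns] at h
  | node b l r ihl ihr =>
    intro x y p q a h
    simp only [ns, List.mem_cons, List.mem_append] at h ⊢
    rcases h with h | h | h
    · simp only [Prod.mk.injEq] at h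
      exact Or.inl ⟨h.1, h.2.1⟩
    · rcases ihl h with ⟨rfl, rfl⟩ | ⟨p', q', h1, h2⟩ | ⟨p', q', h1, h2⟩
      · exact Or.inr (Or.inl ⟨p, y, Or.inl rfl, rfl⟩)
      · exact Or.inr (Or.inl ⟨p', q', Or.inr (Or.inl h1), h2⟩)
      · exact Or.inr (Or.inr ⟨p', q', Or.inr (Or.inl h1), h2⟩)
    · rcases ihr h with ⟨rfl, rfl⟩ | ⟨p', q', h1, h2⟩ | ⟨p', q', h1, h2⟩
      · exact Or.inr (Or.inr ⟨x, q, Or.inl rfl, rfl⟩)
      · exact Or.inr (Or.inl ⟨p', q', Or.inr (Or.inr h1), h2⟩)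
      · exact Or.inr (Or.inr ⟨p', q', Or.inr (Or.inr h1), h2⟩)

/-- a leaf dart is the root dart of a bare tree or an upper dart of a node -/
theorem lv_cases {t : ZT} : ∀ {x y : Pt} {d : Pt × Pt}, d ∈ t.lv x y →
    (t.Bare ∧ d = (x, y)) ∨ (∃ q', (d.1, q', d.2) ∈ t.ns x y) ∨ (∃ p', (p', d.2, d.1) ∈ t.ns x y) := by
  induction t with
  | leaf f => intro x y d h; simp [lv] at h; exact Or.inl ⟨trivial, h⟩
  | cut => intro x y d h; simp [lv] at h; exact Or.inl ⟨trivial, h⟩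
  | node b l r ihl ihr =>
    intro x y d h
    simp only [lv, List.mem_append] at h
    simp only [ns, List.mem_cons, List.mem_append]
    right
    rcases h with h | h
    · rcases ihl h with ⟨_, rfl⟩ | ⟨q', h1⟩ | ⟨p', h1⟩
      · exact Or.inl ⟨y, Or.inl rfl⟩
      · exact Or.inl ⟨q', Or.inr (Or.inl h1)⟩
      · exact Or.inr ⟨p', Or.inr (Or.inl h1)⟩
    · rcases ihr h with ⟨_, rfl⟩ | ⟨q', h1⟩ | ⟨p', h1⟩
      · exact Or.inr ⟨x, Or.inl rfl⟩
      · exact Or.inl ⟨q', Or.inr (Or.inr h1)⟩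
      · exact Or.inr ⟨p', Or.inr (Or.inr h1)⟩

/-- an upper dart of a node is a leaf dart or the base of a node -/
theorem upper_cases {t : ZT} : ∀ {x y : Pt} {p q a : Pt}, (p, q, a) ∈ t.ns x y →
    ((p, a) ∈ t.lv x y ∨ ∃ b, (p, a, b) ∈ t.ns x y) ∧
    ((a, q) ∈ t.lv x y ∨ ∃ b, (a, q, b) ∈ t.ns x y) := by
  have hroot : ∀ (t : ZT) (x y : Pt), (x, y) ∈ t.lv x y ∨ ∃ b, (x, y, b) ∈ t.ns x y := by
    intro t x y
    cases t with
    | leaf f => left; simp [lv]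
    | cut => left; simp [lv]
    | node b l r => right; exact ⟨b, by simp [ns]⟩
  induction t with
  | leaf f => intro x y p q a h; simp [ns] at h
  | cut => intro x y p q a h; simp [ns] at h
  | node b l r ihl ihr =>
    intro x y p q a h
    simp only [ns, List.mem_cons, List.mem_append] at h
    simp only [ns, lv, List.mem_cons, List.mem_append]
    rcases h with h | h | h
    · simp only [Prod.mk.injEq] at h
      obtain ⟨rfl, rfl, rfl⟩ := h
      constructor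
      · rcases hroot l p a with h | ⟨b, h⟩
        · exact Or.inl (Or.inl h)
        · exact Or.inr ⟨b, Or.inr (Or.inl h)⟩
      · rcases hroot r a q with h | ⟨b, h⟩
        · exact Or.inl (Or.inr h)
        · exact Or.inr ⟨b, Or.inr (Or.inr h)⟩
    · obtain ⟨h1, h2⟩ := ihl h
      constructor
      · rcases h1 with h | ⟨b, h⟩
        · exact Or.inl (Or.inl h)
        · exact Or.inr ⟨b, Or.inr (Or.inl h)⟩
      · rcases h2 with h | ⟨b, h⟩
        · exact Or.inl (Or.inl h)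
        · exact Or.inr ⟨b, Or.inr (Or.inl h)⟩
    · obtain ⟨h1, h2⟩ := ihr h
      constructor
      · rcases h1 with h | ⟨b, h⟩
        · exact Or.inl (Or.inr h)
        · exact Or.inr ⟨b, Or.inr (Or.inr h)⟩
      · rcases h2 with h | ⟨b, h⟩
        · exact Or.inl (Or.inr h)
        · exact Or.inr ⟨b, Or.inr (Or.inr h)⟩

/-- the root dart -/
theorem root_cases (t : ZT) (x y : Pt) : (t.Bare ∧ t.lv x y = [(x, y)] ∧ t.ns x y = []) ∨
    ∃ b, (x, y, b) ∈ t.ns x y := by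
  cases t with
  | leaf f => left; simp [lv, ns, Bare]
  | cut => left; simp [lv, ns, Bare]
  | node b l r => right; exact ⟨b, by simp [ns]⟩

/-! ### subtrees -/

theorem ns_split {p : Pt} {t : ZT} {x' y' : Pt} {V : ZT} : ∀ {x y : Pt},
    t.sub p x y = some (x', y', V) → ∀ n, n ∈ t.ns x y ↔
      n ∈ (cutAt p t).ns x y ∨ n ∈ V.ns x' y' := by
  induction t with
  | leaf f => intro x y h; simp [sub] at h
  | cut => intro x y h; simp [sub] at h
  | node a l r ihl ihr =>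
    intro x y h n
    unfold sub at h
    unfold cutAt
    split_ifs at h with h1 h2
    · rw [if_pos h1]
      simp only [Option.some.injEq, Prod.mk.injEq] at h
      obtain ⟨rfl, rfl, rfl⟩ := h
      simp [ns]
    · rw [if_neg h1, if_pos h2]
      simp only [ns, List.mem_cons, List.mem_append]
      rw [ihl h]
      tauto
    · rw [if_neg h1, if_neg h2]
      simp only [ns, List.mem_cons, List.mem_append]
      rw [ihr h]
      tauto

theorem lv_split {p : Pt} {t : ZT} {x' y' : Pt} {V : ZT} : ∀ {x y : Pt},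
    t.sub p x y = some (x', y', V) →
    ∃ A B, t.lv x y = A ++ V.lv x' y' ++ B ∧ (cutAt p t).lv x y = A ++ (x', y') :: B := by
  induction t with
  | leaf f => intro x y h; simp [sub] at h
  | cut => intro x y h; simp [sub] at h
  | node a l r ihl ihr =>
    intro x y h
    unfold sub at h
    unfold cutAt
    split_ifs at h with h1 h2
    · rw [if_pos h1]
      simp only [Option.some.injEq, Prod.mk.injEq] at h
      obtain ⟨rfl, rfl, rfl⟩ := h
      exact ⟨[], [], by simp, by simp [lv]⟩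
    · rw [if_neg h1, if_pos h2]
      obtain ⟨A, B, e1, e2⟩ := ihl h
      refine ⟨A, B ++ lv r a y, ?_, ?_⟩
      · simp only [lv]; rw [e1]; simp
      · simp only [lv]; rw [e2]; simp
    · rw [if_neg h1, if_neg h2]
      obtain ⟨A, B, e1, e2⟩ := ihr h
      refine ⟨lv l x a ++ A, B, ?_, ?_⟩
      · simp only [lv]; rw [e1]; simp
      · simp only [lv]; rw [e2]; simp

/-- the subtree with root apex `p` is a node with apex `p` -/
theorem sub_nd {p : Pt} {t : ZT} {x' y' : Pt} {V : ZT} : ∀ {x y : Pt},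
    t.sub p x y = some (x', y', V) → (p ∈ t.apex → ∃ l r, V = node p l r) := by
  intro x y h hp
  obtain ⟨a, b, l, r, h2⟩ := sub_isSome hp x y
  rw [h] at h2
  simp only [Option.some.injEq, Prod.mk.injEq] at h2
  exact ⟨l, r, h2.2.2⟩

/-- the root node of the subtree is a node of the tree -/
theorem sub_root {p : Pt} {t : ZT} {x' y' : Pt} {V : ZT} {x y : Pt}
    (h : t.sub p x y = some (x', y', V)) (hp : p ∈ t.apex) : (x', y', p) ∈ t.ns x y := by
  obtain ⟨l, r, rfl⟩ := sub_nd h hp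
  rw [ns_split h]
  right
  simp [ns]

/-- `n` is above or equal to the node with apex `p` -/
theorem ns_V_or {p : Pt} {t : ZT} {x' y' : Pt} {V : ZT} {x y : Pt}
    (h : t.sub p x y = some (x', y', V)) (hnd : t.apex.Nodup) {n : Pt × Pt × Pt}
    (h1 : n ∈ (cutAt p t).ns x y) : n ∉ V.ns x' y' := by
  intro h2
  obtain ⟨A, B, e1, e2, -, -⟩ := apex_split h
  have h3 := ns_apex h1
  have h4 := ns_apex h2
  rw [e1] at hnd
  rw [e2] at h3
  rw [List.append_assoc, List.nodup_append] at hnd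
  obtain ⟨-, n2, n3⟩ := hnd
  rw [List.nodup_append] at n2
  rcases List.mem_append.1 h3 with h3 | h3
  · exact n3 _ h3 _ (List.mem_append_left _ h4) rfl
  · exact n2.2.2 _ h4 _ h3 rfl

/-- the base of a subtree with a proper part above: `x'` is `x` or an apex outside, `y'` too -/
theorem sub_ends {p : Pt} {t : ZT} {x' y' : Pt} {V : ZT} {x y : Pt}
    (h : t.sub p x y = some (x', y', V)) :
    (x' = x ∨ x' ∈ (cutAt p t).apex) ∧ (y' = y ∨ y' ∈ (cutAt p t).apex) := by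
  obtain ⟨A, B, -, e2, e3, e4⟩ := apex_split h
  constructor
  · have h5 : x' ∈ x :: A := List.mem_of_getLast? e3
    rcases List.mem_cons.1 h5 with h5 | h5
    · exact Or.inl h5
    · right; rw [e2]; exact List.mem_append_left _ h5
  · have h5 : y' ∈ B ++ [y] := List.mem_of_mem_head? (by rw [e4]; rfl)
    rcases List.mem_append.1 h5 with h5 | h5
    · right; rw [e2]; exact List.mem_append_right _ h5
    · left; simpa using h5

/-- the base of the subtree is the root dart or an upper dart of a node of the outer part -/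
theorem sub_bs {p : Pt} {t : ZT} {x' y' : Pt} {V : ZT} : ∀ {x y : Pt},
    t.sub p x y = some (x', y', V) →
    (x' = x ∧ y' = y ∧ V = t) ∨ (∃ q, (x', q, y') ∈ (cutAt p t).ns x y) ∨
      (∃ q, (q, y', x') ∈ (cutAt p t).ns x y) := by
  induction t with
  | leaf f => intro x y h'; simp [ZT.sub] at h'
  | cut => intro x y h'; simp [ZT.sub] at h'
  | node a l r ihl ihr =>
    intro x y h'
    unfold ZT.sub at h'
    unfold ZT.cutAt
    split_ifs at h' with h1 h2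
    · simp only [Option.some.injEq, Prod.mk.injEq] at h'
      obtain ⟨rfl, rfl, rfl⟩ := h'
      exact Or.inl ⟨rfl, rfl, rfl⟩
    · rw [if_neg h1, if_pos h2]
      simp only [ns, List.mem_cons, List.mem_append]
      right
      rcases ihl h' with ⟨rfl, rfl, rfl⟩ | ⟨q, h⟩ | ⟨q, h⟩
      · exact Or.inl ⟨y, Or.inl rfl⟩
      · exact Or.inl ⟨q, Or.inr (Or.inl h)⟩
      · exact Or.inr ⟨q, Or.inr (Or.inl h)⟩
    · rw [if_neg h1, if_neg h2]
      simp only [ns, List.mem_cons, List.mem_append]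
      right
      rcases ihr h' with ⟨rfl, rfl, rfl⟩ | ⟨q, h⟩ | ⟨q, h⟩
      · exact Or.inr ⟨x, Or.inl rfl⟩
      · exact Or.inl ⟨q, Or.inr (Or.inr h)⟩
      · exact Or.inr ⟨q, Or.inr (Or.inr h)⟩

end ZT

end Pool.Agent.RFX

end

section

set_option autoImplicit false

/-!
# RFX/IniM : initial state, core lemmas (MP_72a26e_co) -- helper12

`X.Gv g n` : the node `n` of the tree over `g` is given; `X.Kp g n` : it is kept.
`X.Own g i` : the kept part of the tree over `g` belongs to the zone `i`.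
`X.Kl g d` : `d` is a leaf dart of the kept part of the tree over `g`.
-/

namespace Pool.Agent.RFX

open Pool.Agent.RFT

namespace IX

variable {X : IX}

theorem symm0 (h : X.Ok) : ∀ a b, (a, b) ∈ X.Cl0 → (b, a) ∈ X.Cl0 :=
  (h.til.nf.reach.inv h.til.nf.full).symm

theorem symm (h : X.Ok) : ∀ a b, (a, b) ∈ X.Cl → (b, a) ∈ X.Cl := h.ini.symm

theorem cl0_sub (h : X.Ok) : X.Cl0 ⊆ X.Cl := fun p hp => (h.ini.Cl_mem p).2 (Or.inl hp)

theorem e0_sub (h : X.Ok) : X.E0 ⊆ X.E := fun p hp => (h.ini.E_mem p).2 (Or.inl hp)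

theorem node_c (h : X.Ok) {g : Pt × Pt} {p q a : Pt} (hn : (p, q, a) ∈ (X.τ g).ns g.1 g.2) :
    ({p, q, a} : Finset Pt) ∈ X.C ∧ 0 < orient p q a ∧ HE ({p, q, a} : Finset Pt) p q ∧
      HE ({p, q, a} : Finset Pt) q a ∧ HE ({p, q, a} : Finset Pt) a p := by
  obtain ⟨h1, h2⟩ := h.til.node g p q a hn
  obtain ⟨h3, h4, h5⟩ := he_tri h2
  exact ⟨h1, h2, h3, h4, h5⟩

theorem he_cases {p q a u v : Pt} (ho : 0 < orient p q a) (he : HE ({p, q, a} : Finset Pt) u v) :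
    (u = p ∧ v = q) ∨ (u = q ∧ v = a) ∨ (u = a ∧ v = p) := by
  obtain ⟨h3, h4, h5⟩ := he_tri ho
  have hu : u = p ∨ u = q ∨ u = a := by simpa using he.1
  rcases hu with rfl | rfl | rfl
  · exact Or.inl ⟨rfl, he.succ_unique h3⟩
  · exact Or.inr (Or.inl ⟨rfl, he.succ_unique h4⟩)
  · exact Or.inr (Or.inr ⟨rfl, he.succ_unique h5⟩)

/-- the free dart under a tree with nodes -/
theorem free_of_ns (h : X.Ok) {g : Pt × Pt} {n : Pt × Pt × Pt}
    (hn : n ∈ (X.τ g).ns g.1 g.2) : FreeDart X.P (X.E0 ∪ X.G0) X.M0 g := by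
  apply h.til.free
  intro h0
  rw [h0] at hn
  simp at hn

/-- the node `n` of the tree over `g` is given -/
def Gv (X : IX) (g : Pt × Pt) (n : Pt × Pt × Pt) : Prop :=
  g ∈ X.gs ∧ n ∈ (gpart (X.τ g).z (X.gate g)).ns g.1 g.2

/-- the node `n` of the tree over `g` is kept -/
def Kp (X : IX) (g : Pt × Pt) (n : Pt × Pt × Pt) : Prop :=
  n ∈ (X.τ g).ns g.1 g.2 ∧ (g ∉ X.Cl0 ∨ ∃ G, X.gate g = some G ∧ n ∈ G.V.ns G.x G.y)

/-- `d` is a leaf dart of the kept part of the tree over `g` -/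
def Kl (X : IX) (g d : Pt × Pt) : Prop :=
  (g ∉ X.Cl0 ∧ d ∈ (X.τ g).lv g.1 g.2) ∨ ∃ G, X.gate g = some G ∧ d ∈ G.V.lv G.x G.y

theorem gate_sub' (h : X.Ok) {g : Pt × Pt} {G : Gate} (hG : X.gate g = some G) :
    (X.τ g).z.sub G.r g.1 g.2 = some (G.x, G.y, G.V) :=
  h.ini.gate_sub g (mem_Gt.1 (gate_gt h hG)).1 G hG

theorem gate_r (h : X.Ok) {g : Pt × Pt} {G : Gate} (hG : X.gate g = some G) :
    G.r ∈ (X.τ g).ap := by
  have := h.ini.gate_ap g (mem_Gt.1 (gate_gt h hG)).1 G hG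
  rwa [FT.z_ap] at this

theorem gate_cl (h : X.Ok) {g : Pt × Pt} {G : Gate} (hG : X.gate g = some G) :
    (G.x, G.y) ∈ X.Cl :=
  h.ini.gate_cl g (mem_Gt.1 (gate_gt h hG)).1 G hG

theorem gate_j (h : X.Ok) {g : Pt × Pt} {G : Gate} (hG : X.gate g = some G) :
    Joined X.Cl G.x G.r :=
  h.ini.gate_joined g (mem_Gt.1 (gate_gt h hG)).1 G hG

theorem gate_cl0 (h : X.Ok) {g : Pt × Pt} {G : Gate} (hG : X.gate g = some G) : g ∈ X.Cl0 :=
  (mem_gs.1 (mem_Gt.1 (gate_gt h hG)).1).2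

theorem gate_free (h : X.Ok) {g : Pt × Pt} {G : Gate} (hG : X.gate g = some G) :
    FreeDart X.P (X.E0 ∪ X.G0) X.M0 g :=
  (mem_gs.1 (mem_Gt.1 (gate_gt h hG)).1).1

/-- the tree of a gate is a node -/
theorem gate_V (h : X.Ok) {g : Pt × Pt} {G : Gate} (hG : X.gate g = some G) :
    ∃ l r, G.V = ZT.node G.r l r :=
  ZT.sub_nd (gate_sub' h hG) (by rw [FT.z_ap]; exact gate_r h hG)

theorem gate_ns (h : X.Ok) {g : Pt × Pt} {G : Gate} (hG : X.gate g = some G)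
    {n : Pt × Pt × Pt} (hn : n ∈ G.V.ns G.x G.y) : n ∈ (X.τ g).ns g.1 g.2 := by
  have := (ZT.ns_split (gate_sub' h hG) n).2 (Or.inr hn)
  rwa [FT.z_ns] at this

theorem gate_lv (h : X.Ok) {g : Pt × Pt} {G : Gate} (hG : X.gate g = some G)
    {d : Pt × Pt} (hd : d ∈ G.V.lv G.x G.y) : d ∈ (X.τ g).lv g.1 g.2 := by
  obtain ⟨A, B, e1, -⟩ := ZT.lv_split (gate_sub' h hG)
  rw [FT.z_lv] at e1
  rw [e1]
  simp [hd]

theorem gate_apex (h : X.Ok) {g : Pt × Pt} {G : Gate} (hG : X.gate g = some G)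
    {a : Pt} (ha : a ∈ G.V.apex) : a ∈ (X.τ g).ap := by
  obtain ⟨A, B, e1, -⟩ := ZT.apex_split (gate_sub' h hG)
  rw [FT.z_ap] at e1
  rw [e1]
  simp [ha]

theorem Kp.ns {g : Pt × Pt} {n : Pt × Pt × Pt} (hk : X.Kp g n) : n ∈ (X.τ g).ns g.1 g.2 := hk.1

theorem Kl.lv (h : X.Ok) {g d : Pt × Pt} (hk : X.Kl g d) : d ∈ (X.τ g).lv g.1 g.2 := by
  rcases hk with ⟨_, h1⟩ | ⟨G, hG, h1⟩
  · exact h1
  · exact gate_lv h hG h1

theorem gv_ns (h : X.Ok) {g : Pt × Pt} {n : Pt × Pt × Pt} (hg : X.Gv g n) :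
    n ∈ (X.τ g).ns g.1 g.2 := by
  obtain ⟨h1, h2⟩ := hg
  cases hG : X.gate g with
  | none =>
    rw [hG] at h2
    simpa [gpart] using h2
  | some G =>
    rw [hG] at h2
    have := (ZT.ns_split (gate_sub' h hG) n).2 (Or.inl h2)
    rwa [FT.z_ns] at this

/-- every node is given or kept, not both -/
theorem kp_iff (h : X.Ok) {g : Pt × Pt} {n : Pt × Pt × Pt} (hn : n ∈ (X.τ g).ns g.1 g.2) :
    X.Kp g n ↔ ¬ X.Gv g n := by
  constructor
  · rintro ⟨_, h2⟩ ⟨h3, h4⟩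
    rcases h2 with h2 | ⟨G, hG, h2⟩
    · exact h2 (mem_gs.1 h3).2
    · rw [hG] at h4
      exact ZT.ns_V_or (gate_sub' h hG) (by rw [FT.z_ap]; exact h.til.nodup g) h4 h2
  · intro h1
    refine ⟨hn, ?_⟩
    by_contra hc
    rw [not_or] at hc
    obtain ⟨c1, c2⟩ := hc
    rw [not_not] at c1
    have hgs : g ∈ X.gs := mem_gs.2 ⟨free_of_ns h hn, c1⟩
    apply h1
    refine ⟨hgs, ?_⟩
    cases hG : X.gate g with
    | none => simpa [gpart] using hn
    | some G =>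
      have hn' : n ∈ (X.τ g).z.ns g.1 g.2 := by rwa [FT.z_ns]
      rcases (ZT.ns_split (gate_sub' h hG) n).1 hn' with h5 | h5
      · exact h5
      · exact absurd ⟨G, hG, h5⟩ c2

theorem kp_or_gv (h : X.Ok) {g : Pt × Pt} {n : Pt × Pt × Pt} (hn : n ∈ (X.τ g).ns g.1 g.2) :
    X.Kp g n ∨ X.Gv g n := by
  by_cases hg : X.Gv g n
  · exact Or.inr hg
  · exact Or.inl ((kp_iff h hn).2 hg)

/-- the black cells after the initial phase -/
theorem E_cases (h : X.Ok) {c : Finset Pt} :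
    c ∈ X.E ↔ c ∈ X.E0 ∨ ∃ g p q a, X.Gv g (p, q, a) ∧ c = {p, q, a} := by
  rw [h.ini.E_mem c]
  constructor
  · rintro (h1 | ⟨g, hg, h1⟩)
    · exact Or.inl h1
    · right
      rw [ZT.mem_cells_iff] at h1
      obtain ⟨⟨p, q, a⟩, hn, rfl⟩ := h1
      exact ⟨g, p, q, a, ⟨hg, hn⟩, rfl⟩
  · rintro (h1 | ⟨g, p, q, a, h1, rfl⟩)
    · exact Or.inl h1
    · right
      exact ⟨g, h1.1, (ZT.mem_cells_iff _ _ _ _).2 ⟨(p, q, a), h1.2, rfl⟩⟩

theorem gv_E (h : X.Ok) {g : Pt × Pt} {p q a : Pt} (hg : X.Gv g (p, q, a)) :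
    ({p, q, a} : Finset Pt) ∈ X.E := (E_cases h).2 (Or.inr ⟨g, p, q, a, hg, rfl⟩)

theorem kp_nE (h : X.Ok) {g : Pt × Pt} {p q a : Pt} (hk : X.Kp g (p, q, a)) :
    ({p, q, a} : Finset Pt) ∉ X.E := by
  intro hE
  rcases (E_cases h).1 hE with h1 | ⟨g', p', q', a', h1, h2⟩
  · exact h.til.new g p q a hk.1 (Finset.mem_union_left _ h1)
  · obtain ⟨rfl, rfl, rfl, rfl⟩ := h.til.inj g p q a g' p' q' a' hk.1 (gv_ns h h1) h2
    exact (kp_iff h hk.1).1 hk h1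

theorem e_sub (h : X.Ok) : X.E ⊆ X.C := by
  intro c hc
  rcases (E_cases h).1 hc with h1 | ⟨g, p, q, a, h1, rfl⟩
  · exact (h.til.nf.reach.inv h.til.nf.full).sub h1
  · exact (node_c h (gv_ns h h1)).1

/-- the base of a given node is the root dart or an upper dart of a given node -/
theorem gv_base (h : X.Ok) {g : Pt × Pt} {p q a : Pt} (hg : X.Gv g (p, q, a)) :
    (p = g.1 ∧ q = g.2) ∨ (∃ q', X.Gv g (p, q', q)) ∨ (∃ p', X.Gv g (p', q, p)) := by
  obtain ⟨h1, h2⟩ := hg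
  rcases ZT.ns_base h2 with h3 | ⟨p', q', h3, rfl⟩ | ⟨p', q', h3, rfl⟩
  · exact Or.inl h3
  · exact Or.inr (Or.inl ⟨q', h1, h3⟩)
  · exact Or.inr (Or.inr ⟨p', h1, h3⟩)

/-- closed darts = hull sides and sides of black cells -/
theorem cl_iff (h : X.Ok) {a b : Pt} : (a, b) ∈ X.Cl ↔
    HE X.P a b ∨ HE X.P b a ∨ ∃ c ∈ X.E, HE c a b ∨ HE c b a := by
  have hinv := h.ini.reach.inv h.til.nf.full
  constructor
  · intro h1
    rcases (h.ini.Cl_mem (a, b)).1 h1 with h1 | ⟨g, hg, h1⟩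
    · rcases (h.til.nf.cl0 a b).1 h1 with h2 | h2 | ⟨t, ht, h2⟩
      · exact Or.inl h2
      · exact Or.inr (Or.inl h2)
      · exact Or.inr (Or.inr ⟨t, e0_sub h ht, h2⟩)
    · rw [ZT.mem_sides_iff] at h1
      obtain ⟨⟨p, q, c⟩, hn, h1⟩ := h1
      have hgv : X.Gv g (p, q, c) := ⟨hg, hn⟩
      obtain ⟨-, -, c1, c2, c3⟩ := node_c h (gv_ns h hgv)
      refine Or.inr (Or.inr ⟨_, gv_E h hgv, ?_⟩)
      simp only [Prod.mk.injEq] at h1
      rcases h1 with ⟨rfl, rfl⟩ | ⟨rfl, rfl⟩ | ⟨rfl, rfl⟩ | ⟨rfl, rfl⟩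
      · exact Or.inr c3
      · exact Or.inl c3
      · exact Or.inr c2
      · exact Or.inl c2
  · have key : ∀ a b, ∀ c ∈ X.E, HE c a b → (a, b) ∈ X.Cl := by
      intro a b c hc hab
      rcases (E_cases h).1 hc with h1 | ⟨g, p, q, d, h1, rfl⟩
      · exact cl0_sub h ((h.til.nf.cl0 a b).2 (Or.inr (Or.inr ⟨c, h1, Or.inl hab⟩)))
      · obtain ⟨-, ho, -⟩ := node_c h (gv_ns h h1)
        have hside : ∀ u v, ∀ n ∈ (gpart (X.τ g).z (X.gate g)).ns g.1 g.2,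
            ((u, v) = (n.1, n.2.2) ∨ (u, v) = (n.2.2, n.1) ∨ (u, v) = (n.2.2, n.2.1) ∨
              (u, v) = (n.2.1, n.2.2)) → (u, v) ∈ X.Cl := by
          intro u v n hn he
          exact (h.ini.Cl_mem (u, v)).2 (Or.inr ⟨g, h1.1, (ZT.mem_sides_iff _ _ _ _).2 ⟨n, hn, he⟩⟩)
        rcases he_cases ho hab with ⟨rfl, rfl⟩ | ⟨rfl, rfl⟩ | ⟨rfl, rfl⟩
        · rcases gv_base h h1 with ⟨rfl, rfl⟩ | ⟨q', h2⟩ | ⟨p', h2⟩
          · exact cl0_sub h (mem_gs.1 h1.1).2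
          · exact hside _ _ _ h2.2 (Or.inl rfl)
          · exact hside _ _ _ h2.2 (Or.inr (Or.inr (Or.inl rfl)))
        · exact hside _ _ _ h1.2 (Or.inr (Or.inr (Or.inr rfl)))
        · exact hside _ _ _ h1.2 (Or.inr (Or.inl rfl))
    rintro (h1 | h1 | ⟨c, hc, h1 | h1⟩)
    · exact cl0_sub h ((h.til.nf.cl0 a b).2 (Or.inl h1))
    · exact cl0_sub h ((h.til.nf.cl0 a b).2 (Or.inr (Or.inl h1)))
    · exact key a b c hc h1
    · exact symm h _ _ (key b a c hc h1)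

end IX

end Pool.Agent.RFX

end

section

set_option autoImplicit false

/-!
# RFX/IniO : zones of the initial state: cells, ring edges, vertices (MP_72a26e_co) -- helper12

`X.Own g i` : the kept part of the tree over `g` belongs to the zone `i`.
`cells_iff`, `ring_iff`, `ap_iff`, `vs_iff` : the zones.
`kl_cases`, `kp_upper`, `kp_base` : kept nodes and kept leaf darts.
-/

namespace Pool.Agent.RFX

open Pool.Agent.RFT

namespace IX

variable {X : IX}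

/-- the kept part of the tree over `g` belongs to the zone `i` -/
def Own (X : IX) (g : Pt × Pt) (i : ZI) : Prop :=
  (i ∈ X.Bk ∧ (g = i ∨ g = (i.2, i.1))) ∨ (i ∈ X.Gt ∧ g = i) ∨
  (∃ g3 g4, (i.1, i.2, g3, g4) ∈ X.Gp ∧ (g = (i.1, g3) ∨ g = (g4, i.2)))

/-- `a` is an apex of the kept part of the tree over `g` -/
def Ka (X : IX) (g : Pt × Pt) (a : Pt) : Prop :=
  (g ∉ X.Cl0 ∧ a ∈ (X.τ g).ap) ∨ ∃ G, X.gate g = some G ∧ a ∈ G.V.apex

theorem Ka.ap (h : X.Ok) {g : Pt × Pt} {a : Pt} (hk : X.Ka g a) : a ∈ (X.τ g).ap := by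
  rcases hk with ⟨_, h1⟩ | ⟨G, hG, h1⟩
  · exact h1
  · exact gate_apex h hG h1

theorem ap_iff_ns' {g : Pt × Pt} {a : Pt} :
    a ∈ (X.τ g).ap ↔ ∃ p q, (p, q, a) ∈ (X.τ g).ns g.1 g.2 := by
  rw [← FT.z_ap, ← FT.z_ns]
  exact ⟨fun h => ZT.apex_ns h, fun ⟨p, q, h⟩ => ZT.ns_apex h⟩

theorem ka_iff {g : Pt × Pt} {a : Pt} (h : X.Ok) : X.Ka g a ↔ ∃ p q, X.Kp g (p, q, a) := by
  constructor
  · rintro (⟨h1, h2⟩ | ⟨G, hG, h1⟩)
    · obtain ⟨p, q, h3⟩ := ap_iff_ns'.1 h2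
      exact ⟨p, q, h3, Or.inl h1⟩
    · obtain ⟨p, q, h3⟩ := ZT.apex_ns (x := G.x) (y := G.y) h1
      exact ⟨p, q, gate_ns h hG h3, Or.inr ⟨G, hG, h3⟩⟩
  · rintro ⟨p, q, h1, h2⟩
    rcases h2 with h2 | ⟨G, hG, h2⟩
    · exact Or.inl ⟨h2, ap_iff_ns'.2 ⟨p, q, h1⟩⟩
    · exact Or.inr ⟨G, hG, ZT.ns_apex h2⟩

/-- hosted apexes are pairwise not joined -/
theorem host (h : X.Ok) {g g' : Pt × Pt} {a b : Pt} (ha : X.Ka g a) (hb : X.Ka g' b)
    (hab : a ≠ b) : ¬ Joined X.Cl a b := by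
  apply h.ini.host a b hab
  · rcases ha with ⟨h1, h2⟩ | ⟨G, hG, h1⟩
    · exact Or.inl ⟨g, h1, h2⟩
    · refine Or.inr ⟨g, (mem_Gt.1 (gate_gt h hG)).1, ?_⟩
      rw [hG]; exact h1
  · rcases hb with ⟨h1, h2⟩ | ⟨G, hG, h1⟩
    · exact Or.inl ⟨g', h1, h2⟩
    · refine Or.inr ⟨g', (mem_Gt.1 (gate_gt h hG)).1, ?_⟩
      rw [hG]; exact h1

/-- hosted apexes which are joined are equal, in the same tree -/
theorem host_eq (h : X.Ok) {g g' : Pt × Pt} {a b : Pt} (ha : X.Ka g a) (hb : X.Ka g' b)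
    (hj : Joined X.Cl a b) : a = b ∧ g = g' := by
  have h1 : a = b := by
    by_contra hne
    exact host h ha hb hne hj
  subst h1
  exact ⟨rfl, h.til.dj g g' a (ha.ap h) (hb.ap h)⟩

/-! ### kept nodes and leaf darts -/

theorem kp_V (h : X.Ok) {g : Pt × Pt} {G : Gate} (hG : X.gate g = some G) {n : Pt × Pt × Pt} :
    X.Kp g n ↔ n ∈ G.V.ns G.x G.y := by
  constructor
  · rintro ⟨_, h2⟩
    rcases h2 with h2 | ⟨G', hG', h2⟩
    · exact absurd (gate_cl0 h hG) h2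
    · rw [hG] at hG'
      simp only [Option.some.injEq] at hG'
      rw [hG']; exact h2
  · intro h1
    exact ⟨gate_ns h hG h1, Or.inr ⟨G, hG, h1⟩⟩

theorem kl_V (h : X.Ok) {g : Pt × Pt} {G : Gate} (hG : X.gate g = some G) {d : Pt × Pt} :
    X.Kl g d ↔ d ∈ G.V.lv G.x G.y := by
  constructor
  · rintro (⟨h1, h2⟩ | ⟨G', hG', h2⟩)
    · exact absurd (gate_cl0 h hG) h1
    · rw [hG] at hG'
      simp only [Option.some.injEq] at hG'
      rw [hG']; exact h2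
  · intro h1
    exact Or.inr ⟨G, hG, h1⟩

theorem ka_V (h : X.Ok) {g : Pt × Pt} {G : Gate} (hG : X.gate g = some G) {a : Pt} :
    X.Ka g a ↔ a ∈ G.V.apex := by
  constructor
  · rintro (⟨h1, h2⟩ | ⟨G', hG', h2⟩)
    · exact absurd (gate_cl0 h hG) h1
    · rw [hG] at hG'
      simp only [Option.some.injEq] at hG'
      rw [hG']; exact h2
  · intro h1
    exact Or.inr ⟨G, hG, h1⟩

theorem kp_o {g : Pt × Pt} (hg : g ∉ X.Cl0) {n : Pt × Pt × Pt} :
    X.Kp g n ↔ n ∈ (X.τ g).ns g.1 g.2 :=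
  ⟨fun h1 => h1.1, fun h1 => ⟨h1, Or.inl hg⟩⟩

theorem kl_o (h : X.Ok) {g : Pt × Pt} (hg : g ∉ X.Cl0) {d : Pt × Pt} :
    X.Kl g d ↔ d ∈ (X.τ g).lv g.1 g.2 :=
  ⟨fun h1 => h1.lv h, fun h1 => Or.inl ⟨hg, h1⟩⟩

theorem ka_o (h : X.Ok) {g : Pt × Pt} (hg : g ∉ X.Cl0) {a : Pt} :
    X.Ka g a ↔ a ∈ (X.τ g).ap :=
  ⟨fun h1 => h1.ap h, fun h1 => Or.inl ⟨hg, h1⟩⟩

/-- the right side of a kept leaf dart -/
theorem kl_cases (h : X.Ok) {g : Pt × Pt} {a b : Pt} (hk : X.Kl g (a, b)) :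
    (g ∉ X.Cl0 ∧ X.τ g = FT.lf ∧ g = (a, b)) ∨ (∃ q, X.Kp g (a, q, b)) ∨
      (∃ p, X.Kp g (p, b, a)) := by
  rcases hk with ⟨h1, h2⟩ | ⟨G, hG, h1⟩
  · rw [← FT.z_lv] at h2
    rcases ZT.lv_cases h2 with ⟨h3, h4⟩ | ⟨q, h3⟩ | ⟨p, h3⟩
    · left
      exact ⟨h1, FT.z_bare.1 h3, by rw [h4]⟩
    · rw [FT.z_ns] at h3
      exact Or.inr (Or.inl ⟨q, h3, Or.inl h1⟩)
    · rw [FT.z_ns] at h3
      exact Or.inr (Or.inr ⟨p, h3, Or.inl h1⟩)
  · rcases ZT.lv_cases h1 with ⟨h3, h4⟩ | ⟨q, h3⟩ | ⟨p, h3⟩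
    · exfalso
      obtain ⟨l, r, h5⟩ := gate_V h hG
      rw [h5] at h3
      exact h3
    · exact Or.inr (Or.inl ⟨q, (kp_V h hG).2 h3⟩)
    · exact Or.inr (Or.inr ⟨p, (kp_V h hG).2 h3⟩)

/-- an upper dart of a kept node is a kept leaf dart or the base of a kept node -/
theorem kp_upper (h : X.Ok) {g : Pt × Pt} {p q a : Pt} (hk : X.Kp g (p, q, a)) :
    (X.Kl g (p, a) ∨ ∃ b, X.Kp g (p, a, b)) ∧ (X.Kl g (a, q) ∨ ∃ b, X.Kp g (a, q, b)) := by
  obtain ⟨h1, h2⟩ := hk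
  rcases h2 with h2 | ⟨G, hG, h2⟩
  · rw [← FT.z_ns] at h1
    obtain ⟨h3, h4⟩ := ZT.upper_cases h1
    rw [FT.z_lv] at h3 h4
    rw [FT.z_ns] at h3 h4
    constructor
    · rcases h3 with h3 | ⟨b, h3⟩
      · exact Or.inl (Or.inl ⟨h2, h3⟩)
      · exact Or.inr ⟨b, h3, Or.inl h2⟩
    · rcases h4 with h4 | ⟨b, h4⟩
      · exact Or.inl (Or.inl ⟨h2, h4⟩)
      · exact Or.inr ⟨b, h4, Or.inl h2⟩
  · obtain ⟨h3, h4⟩ := ZT.upper_cases h2
    constructor
    · rcases h3 with h3 | ⟨b, h3⟩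
      · exact Or.inl (Or.inr ⟨G, hG, h3⟩)
      · exact Or.inr ⟨b, (kp_V h hG).2 h3⟩
    · rcases h4 with h4 | ⟨b, h4⟩
      · exact Or.inl (Or.inr ⟨G, hG, h4⟩)
      · exact Or.inr ⟨b, (kp_V h hG).2 h4⟩

/-- the base of a kept node -/
theorem kp_base (h : X.Ok) {g : Pt × Pt} {p q a : Pt} (hk : X.Kp g (p, q, a)) :
    (g ∉ X.Cl0 ∧ g = (p, q)) ∨ (∃ G, X.gate g = some G ∧ p = G.x ∧ q = G.y) ∨
      (∃ q', X.Kp g (p, q', q)) ∨ (∃ p', X.Kp g (p', q, p)) := by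
  obtain ⟨h1, h2⟩ := hk
  rcases h2 with h2 | ⟨G, hG, h2⟩
  · rw [← FT.z_ns] at h1
    rcases ZT.ns_base h1 with ⟨rfl, rfl⟩ | ⟨p', q', h3, rfl⟩ | ⟨p', q', h3, rfl⟩
    · exact Or.inl ⟨h2, rfl⟩
    · rw [FT.z_ns] at h3
      exact Or.inr (Or.inr (Or.inl ⟨q', h3, Or.inl h2⟩))
    · rw [FT.z_ns] at h3
      exact Or.inr (Or.inr (Or.inr ⟨p', h3, Or.inl h2⟩))
  · rcases ZT.ns_base h2 with ⟨rfl, rfl⟩ | ⟨p', q', h3, rfl⟩ | ⟨p', q', h3, rfl⟩
    · exact Or.inr (Or.inl ⟨G, hG, rfl, rfl⟩)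
    · exact Or.inr (Or.inr (Or.inl ⟨q', (kp_V h hG).2 h3⟩))
    · exact Or.inr (Or.inr (Or.inr ⟨p', (kp_V h hG).2 h3⟩))

/-! ### gaps -/

/-- data of a gap zone -/
theorem hk_not_b0 (h : X.Ok) {g1 g2 g3 g4 : Pt} (hq : (g1, g2, g3, g4) ∈ X.Gp) :
    (g1, g2) ∈ X.Cl0 ∧ (g2, g1) ∈ X.Cl0 ∧ (g3, g4) ∈ X.Cl0 ∧ (g4, g3) ∈ X.Cl0 ∧
      (g1, g2) ∉ X.B0 := by
  obtain ⟨⟨t, ht, h1⟩, ⟨t', ht', h2⟩⟩ := h.til.nf.gCl g1 g2 g3 g4 hq
  have e1 : (g1, g2) ∈ X.Cl0 := (h.til.nf.cl0 g1 g2).2 (Or.inr (Or.inr ⟨t, ht, Or.inr h1⟩))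
  have e2 : (g3, g4) ∈ X.Cl0 := (h.til.nf.cl0 g3 g4).2 (Or.inr (Or.inr ⟨t', ht', Or.inl h2⟩))
  exact ⟨e1, symm0 h _ _ e1, e2, symm0 h _ _ e2, fun hc => b0_not_cl0 h hc e1⟩

/-- the dart `(g1, g2)` of a gap is not free -/
theorem hk_not_free (h : X.Ok) {g1 g2 g3 g4 : Pt} (hq : (g1, g2, g3, g4) ∈ X.Gp) :
    ¬ FreeDart X.P (X.E0 ∪ X.G0) X.M0 (g1, g2) := by
  rintro ⟨_, h2, _⟩
  obtain ⟨t, ht, t', ht', h3⟩ := h.til.nf.gTri g1 g2 g3 g4 hq
  rcases h3 with ⟨h4, _, rfl, _⟩ | ⟨h4, _, rfl, _⟩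
  · exact h2 _ (Finset.mem_union_right _ ht) (he_tri h4).1
  · exact h2 _ (Finset.mem_union_right _ ht) (he_tri h4).1

theorem hk_gate (h : X.Ok) {g1 g2 g3 g4 : Pt} (hq : (g1, g2, g3, g4) ∈ X.Gp) :
    X.gate (g1, g2) = none := by
  cases hG : X.gate (g1, g2) with
  | none => rfl
  | some G => exact absurd (gate_free h hG) (hk_not_free h hq)

theorem gp_unique (h : X.Ok) {g1 g2 g3 g4 g3' g4' : Pt} (hq : (g1, g2, g3, g4) ∈ X.Gp)
    (hq' : (g1, g2, g3', g4') ∈ X.Gp) : g3 = g3' ∧ g4 = g4' := by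
  have := h.til.nf.gDisj g1 g2 g3 g4 g1 g2 g3' g4' hq hq' ⟨g1, Or.inl rfl, Or.inl rfl⟩
  exact ⟨this.2.2.1, this.2.2.2⟩

/-- the zone of a gap -/
theorem Z_gap (h : X.Ok) {g1 g2 g3 g4 : Pt} (hq : (g1, g2, g3, g4) ∈ X.Gp) :
    X.Z (g1, g2) = ⟨g1, g2, (X.gapT g1 g2 g3 g4).rl X.s g1 g2, .cut⟩ := by
  have h1 := (hk_not_b0 h hq).2.2.2.2
  have h2 := hk_gate h hq
  have h3 : ∃ q : Pt × Pt × Pt × Pt, q ∈ X.Gp ∧ (q.1, q.2.1) = (g1, g2) := ⟨_, hq, rfl⟩
  unfold Z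
  rw [if_neg h1, h2]
  simp only
  rw [dif_pos h3]
  have h4 := h3.choose_spec
  obtain ⟨h5, h6⟩ := h4
  generalize h3.choose = q at h5 h6 ⊢
  obtain ⟨a1, a2, a3, a4⟩ := q
  simp only [Prod.mk.injEq] at h6
  obtain ⟨rfl, rfl⟩ := h6
  obtain ⟨rfl, rfl⟩ := gp_unique h hq h5
  rfl

/-- the two shapes of a gap -/
theorem gap_cases (h : X.Ok) {g1 g2 g3 g4 : Pt} (hq : (g1, g2, g3, g4) ∈ X.Gp) :
    (0 < orient g1 g2 g3 ∧ 0 < orient g3 g2 g4 ∧ ({g1, g2, g3} : Finset Pt) ∈ X.G0 ∧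
      ({g3, g2, g4} : Finset Pt) ∈ X.G0 ∧
      X.gapT g1 g2 g3 g4 = .node g3 (X.τ (g1, g3)).z (.node g4 (.leaf ∅) (X.τ (g4, g2)).z)) ∨
    (0 < orient g1 g2 g4 ∧ 0 < orient g1 g4 g3 ∧ ({g1, g2, g4} : Finset Pt) ∈ X.G0 ∧
      ({g1, g4, g3} : Finset Pt) ∈ X.G0 ∧
      X.gapT g1 g2 g3 g4 = .node g4 (.node g3 (X.τ (g1, g3)).z (.leaf ∅)) (X.τ (g4, g2)).z) := by
  by_cases hd : X.Diag g1 g2 g3 g4
  · left
    obtain ⟨d1, d2, d3, d4⟩ := id hd
    refine ⟨d1, d2, d3, d4, ?_⟩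
    unfold gapT
    rw [if_pos hd]
  · right
    obtain ⟨t, ht, t', ht', h3⟩ := h.til.nf.gTri g1 g2 g3 g4 hq
    rcases h3 with ⟨h4, h5, rfl, rfl⟩ | ⟨h4, h5, rfl, rfl⟩
    · exact absurd ⟨h4, h5, ht, ht'⟩ hd
    · refine ⟨h4, h5, ht, ht', ?_⟩
      unfold gapT
      rw [if_neg hd]

/-- the two triangles of the gap with `(g1, g2, g3, g4)` -/
def GT (X : IX) (i : ZI) (c : Finset Pt) : Prop :=
  ∃ g3 g4, (i.1, i.2, g3, g4) ∈ X.Gp ∧ c ∈ X.G0 ∧
    ∃ t', t' ∈ X.G0 ∧ (GapTri i.1 i.2 g3 g4 c t' ∨ GapTri i.1 i.2 g3 g4 t' c)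

/-! ### ids and owners -/

theorem bk_b0 {i : ZI} (hi : i ∈ X.Bk) : i ∈ X.B0 := (mem_Bk.1 hi).1

theorem b0_open (h : X.Ok) {i : ZI} (hi : i ∈ X.B0) : i ∉ X.Cl0 ∧ (i.2, i.1) ∉ X.Cl0 := by
  have h1 := b0_not_cl0 h hi
  exact ⟨h1, fun hc => h1 (symm0 h _ _ hc)⟩

theorem b0_free (h : X.Ok) {i : ZI} (hi : i ∈ X.B0) :
    FreeDart X.P (X.E0 ∪ X.G0) X.M0 i ∧ FreeDart X.P (X.E0 ∪ X.G0) X.M0 (i.2, i.1) := by
  obtain ⟨N, w⟩ := i
  have h1 : (N, w) ∈ X.M0 := (h.til.nf.m0 N w).2 (Or.inr (Or.inr (Or.inl hi)))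
  have h2 : (w, N) ∈ X.M0 := (h.til.nf.m0 w N).2 (Or.inr (Or.inr (Or.inr hi)))
  have h3 : ∀ t ∈ X.E0 ∪ X.G0, w ∉ t := by
    intro t ht
    rcases Finset.mem_union.1 ht with ht | ht
    · exact h.til.nf.bTip N w hi t ht
    · exact ((h.til.nf.bE N w hi).2.2 t ht).2
  have h4 := (h.til.nf.bHull N w hi)
  refine ⟨⟨h1, fun t ht he => h3 t ht he.2.1, fun he => h4.2.1 ⟨_, he⟩⟩,
    ⟨h2, fun t ht he => h3 t ht he.1, fun he => h4.1 ⟨_, he⟩⟩⟩

theorem own_open (h : X.Ok) {g : Pt × Pt} {i : ZI} (ho : X.Own g i) :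
    (i ∈ X.Gt ∧ g = i ∧ g ∈ X.Cl0 ∧ i ∉ X.Bk ∧ i ∉ X.Hk) ∨ (i ∉ X.Gt ∧ g ∉ X.Cl0) := by
  rcases ho with ⟨hi, h1⟩ | ⟨hi, h1⟩ | ⟨g3, g4, hq, h1⟩
  · right
    have h2 := b0_open h (bk_b0 hi)
    refine ⟨fun hc => h2.1 (mem_gs.1 (mem_Gt.1 hc).1).2, ?_⟩
    rcases h1 with rfl | rfl
    · exact h2.1
    · exact h2.2
  · left
    subst h1
    refine ⟨hi, rfl, (mem_gs.1 (mem_Gt.1 hi).1).2, ?_, ?_⟩
    · intro hc
      exact (b0_open h (bk_b0 hc)).1 (mem_gs.1 (mem_Gt.1 hi).1).2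
    · intro hc
      obtain ⟨g3, g4, hq⟩ := mem_Hk.1 hc
      exact hk_not_free h hq (mem_gs.1 (mem_Gt.1 hi).1).1
  · right
    have h2 := h.til.nf.gOpen i.1 i.2 g3 g4 hq
    refine ⟨fun hc => hk_not_free h hq (mem_gs.1 (mem_Gt.1 hc).1).1, ?_⟩
    rcases h1 with rfl | rfl
    · exact h2.1
    · exact h2.2.1

theorem own_I {g : Pt × Pt} {i : ZI} (ho : X.Own g i) : i ∈ X.I := by
  rcases ho with ⟨hi, h1⟩ | ⟨hi, h1⟩ | ⟨g3, g4, hq, h1⟩
  · exact mem_I.2 (Or.inl hi)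
  · exact mem_I.2 (Or.inr (Or.inl hi))
  · exact mem_I.2 (Or.inr (Or.inr (mem_Hk.2 ⟨g3, g4, hq⟩)))

/-- disjointness of the ids -/
theorem id_disj (h : X.Ok) {i : ZI} : ¬ (i ∈ X.B0 ∧ i ∈ X.Gt) ∧ ¬ (i ∈ X.B0 ∧ i ∈ X.Hk) ∧
    ¬ (i ∈ X.Gt ∧ i ∈ X.Hk) := by
  refine ⟨?_, ?_, ?_⟩
  · rintro ⟨h1, h2⟩
    exact b0_not_gs h h1 (mem_Gt.1 h2).1
  · rintro ⟨h1, h2⟩
    obtain ⟨g3, g4, hq⟩ := mem_Hk.1 h2
    exact (hk_not_b0 h hq).2.2.2.2 h1
  · rintro ⟨h1, h2⟩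
    obtain ⟨g3, g4, hq⟩ := mem_Hk.1 h2
    exact hk_not_free h hq (mem_gs.1 (mem_Gt.1 h1).1).1

/-- a point of a gap is no end of an end-edge -/
theorem gap_not_b (h : X.Ok) {g1 g2 g3 g4 v : Pt} (hq : (g1, g2, g3, g4) ∈ X.Gp)
    (hv : v = g1 ∨ v = g2 ∨ v = g3 ∨ v = g4) : (∃ t ∈ X.G0, v ∈ t) ∧
    ∀ N w, (N, w) ∈ X.B0 → v ≠ N ∧ v ≠ w := by
  have h1 : ∃ t ∈ X.G0, v ∈ t := by
    rcases gap_cases h hq with ⟨_, _, h3, h4, _⟩ | ⟨_, _, h3, h4, _⟩
    · rcases hv with rfl | rfl | rfl | rfl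
      · exact ⟨_, h3, by simp⟩
      · exact ⟨_, h3, by simp⟩
      · exact ⟨_, h3, by simp⟩
      · exact ⟨_, h4, by simp⟩
    · rcases hv with rfl | rfl | rfl | rfl
      · exact ⟨_, h3, by simp⟩
      · exact ⟨_, h3, by simp⟩
      · exact ⟨_, h4, by simp⟩
      · exact ⟨_, h3, by simp⟩
  refine ⟨h1, ?_⟩
  intro N w hB
  obtain ⟨t, ht, hvt⟩ := h1
  have h5 := (h.til.nf.bE N w hB).2.2 t ht
  exact ⟨fun hc => h5.1 (hc ▸ hvt), fun hc => h5.2 (hc ▸ hvt)⟩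

theorem own_unique (h : X.Ok) {g : Pt × Pt} {i j : ZI} (hi : X.Own g i) (hj : X.Own g j) :
    i = j := by
  have hne : ∀ g, ∀ i j, X.Own g i → X.Own g j → i ∈ X.Gt → i = j := by
    intro g i j hi hj h1
    rcases own_open h hi with ⟨_, h2, h3, _⟩ | ⟨h2, _⟩
    · rcases own_open h hj with ⟨_, h4, _⟩ | ⟨_, h4⟩
      · exact h2.symm.trans h4
      · exact absurd h3 h4
    · exact absurd h1 h2
  rcases hi with ⟨hi, h1⟩ | ⟨hi', h1⟩ | ⟨g3, g4, hq, h1⟩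
  · rcases hj with ⟨hj, h2⟩ | ⟨hj', h2⟩ | ⟨g3', g4', hq', h2⟩
    · have bi := bk_b0 hi
      have bj := bk_b0 hj
      obtain ⟨N, w⟩ := i
      obtain ⟨N', w'⟩ := j
      rcases h1 with rfl | rfl
      · rcases h2 with h2 | h2
        · exact h2
        · simp only [Prod.mk.injEq] at h2
          exact absurd h2.1 (h.til.nf.bNe N w N' w' bi bj)
      · simp only [Prod.mk.injEq] at h2
        rcases h2 with h2 | h2
        · exact absurd h2.2 (h.til.nf.bNe N w N' w' bi bj)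
        · exact Prod.ext h2.2 h2.1
    · exact (hne g j i (Or.inr (Or.inl ⟨hj', h2⟩)) (Or.inl ⟨hi, h1⟩) hj').symm
    · exfalso
      have bi := bk_b0 hi
      obtain ⟨N, w⟩ := i
      have e1 := (gap_not_b h hq' (Or.inl rfl)).2 N w bi
      have e2 := (gap_not_b h hq' (Or.inr (Or.inl rfl))).2 N w bi
      rcases h1 with rfl | rfl <;> simp only [Prod.mk.injEq] at h2 <;> rcases h2 with h2 | h2
      · exact e1.1 h2.1.symm
      · exact e2.2 h2.2.symm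
      · exact e1.2 h2.1.symm
      · exact e2.1 h2.2.symm
  · exact hne g i j (Or.inr (Or.inl ⟨hi', h1⟩)) hj hi'
  · rcases hj with ⟨hj, h2⟩ | ⟨hj', h2⟩ | ⟨g3', g4', hq', h2⟩
    · exfalso
      have bj := bk_b0 hj
      obtain ⟨N, w⟩ := j
      have e1 := (gap_not_b h hq (Or.inl rfl)).2 N w bj
      have e2 := (gap_not_b h hq (Or.inr (Or.inl rfl))).2 N w bj
      rcases h1 with rfl | rfl <;> simp only [Prod.mk.injEq] at h2 <;> rcases h2 with h2 | h2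
      · exact e1.1 h2.1
      · exact e1.2 h2.1
      · exact e2.2 h2.2
      · exact e2.1 h2.2
    · exact (hne g j i (Or.inr (Or.inl ⟨hj', h2⟩)) (Or.inr (Or.inr ⟨g3, g4, hq, h1⟩)) hj').symm
    · have hdis : ∃ v, (v = i.1 ∨ v = i.2 ∨ v = g3 ∨ v = g4) ∧
          (v = j.1 ∨ v = j.2 ∨ v = g3' ∨ v = g4') := by
        rcases h1 with rfl | rfl <;> simp only [Prod.mk.injEq] at h2 <;> rcases h2 with h2 | h2
        · exact ⟨i.1, Or.inl rfl, Or.inl h2.1⟩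
        · exact ⟨i.1, Or.inl rfl, Or.inr (Or.inr (Or.inr h2.1))⟩
        · exact ⟨i.2, Or.inr (Or.inl rfl), Or.inr (Or.inr (Or.inl h2.2))⟩
        · exact ⟨i.2, Or.inr (Or.inl rfl), Or.inr (Or.inl h2.2)⟩
      obtain ⟨h3, h4, _⟩ := h.til.nf.gDisj _ _ _ _ _ _ _ _ hq hq' hdis
      exact Prod.ext h3 h4

end IX

end Pool.Agent.RFX

end

section

set_option autoImplicit false

/-!
# RFX/IniP : cells and ring edges of the zones of the initial state (MP_72a26e_co) -- helper12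
-/

namespace Pool.Agent.RFX

open Pool.Agent.RFT

namespace IX

variable {X : IX}

/-- every tree over an open free dart is owned, or it is a tree of a dropped end-edge -/
theorem own_of_open (h : X.Ok) {g : Pt × Pt} (hg : FreeDart X.P (X.E0 ∪ X.G0) X.M0 g)
    (hc : g ∉ X.Cl0) : (∃ i, X.Own g i) ∨ (X.τ g = FT.lf ∧ X.τ (g.2, g.1) = FT.lf ∧
      ((g ∈ X.B0 ∧ X.Drop g.1 g.2) ∨ ((g.2, g.1) ∈ X.B0 ∧ X.Drop g.2 g.1))) := by
  obtain ⟨a, b⟩ := g
  rcases h.til.open_free hg hc with h1 | h1 | ⟨g1, g2, g3, g4, hq, h1⟩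
  · by_cases hd : X.Drop a b
    · exact Or.inr ⟨hd.1, hd.2.1, Or.inl ⟨h1, hd⟩⟩
    · exact Or.inl ⟨(a, b), Or.inl ⟨mem_Bk.2 ⟨h1, hd⟩, Or.inl rfl⟩⟩
  · by_cases hd : X.Drop b a
    · exact Or.inr ⟨hd.2.1, hd.1, Or.inr ⟨h1, hd⟩⟩
    · exact Or.inl ⟨(b, a), Or.inl ⟨mem_Bk.2 ⟨h1, hd⟩, Or.inr rfl⟩⟩
  · left
    refine ⟨(g1, g2), Or.inr (Or.inr ⟨g3, g4, hq, ?_⟩)⟩
    rcases h1 with ⟨rfl, rfl⟩ | ⟨rfl, rfl⟩
    · exact Or.inl rfl
    · exact Or.inr rfl

theorem own_of_kp (h : X.Ok) {g : Pt × Pt} {n : Pt × Pt × Pt} (hk : X.Kp g n) :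
    ∃ i, X.Own g i := by
  by_cases hc : g ∈ X.Cl0
  · rcases hk.2 with h1 | ⟨G, hG, h1⟩
    · exact absurd hc h1
    · exact ⟨g, Or.inr (Or.inl ⟨gate_gt h hG, rfl⟩)⟩
  · rcases own_of_open h (free_of_ns h hk.1) hc with h1 | ⟨h1, _⟩
    · exact h1
    · exfalso
      have := hk.1
      rw [h1] at this
      simp at this

theorem own_of_kl (h : X.Ok) {g d : Pt × Pt} (hf : FreeDart X.P (X.E0 ∪ X.G0) X.M0 g)
    (hk : X.Kl g d) : (∃ i, X.Own g i) ∨ (g ∉ X.Cl0 ∧ d = g ∧ X.τ g = FT.lf ∧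
      X.τ (g.2, g.1) = FT.lf ∧
      ((g ∈ X.B0 ∧ X.Drop g.1 g.2) ∨ ((g.2, g.1) ∈ X.B0 ∧ X.Drop g.2 g.1))) := by
  rcases hk with ⟨h1, h2⟩ | ⟨G, hG, h1⟩
  · rcases own_of_open h hf h1 with h3 | ⟨h3, h4, h5⟩
    · exact Or.inl h3
    · right
      rw [h3] at h2
      simp only [FT.lv_lf, List.mem_cons, List.not_mem_nil, or_false] at h2
      exact ⟨h1, h2, h3, h4, h5⟩
  · exact Or.inl ⟨g, Or.inr (Or.inl ⟨gate_gt h hG, rfl⟩)⟩

/-! ### cells -/

theorem z_cells {g : Pt × Pt} {c : Finset Pt} :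
    c ∈ (X.τ g).z.cells g.1 g.2 ↔ ∃ p q a, (p, q, a) ∈ (X.τ g).ns g.1 g.2 ∧ c = {p, q, a} := by
  rw [ZT.mem_cells_iff, FT.z_ns]
  constructor
  · rintro ⟨⟨p, q, a⟩, h1, h2⟩
    exact ⟨p, q, a, h1, h2⟩
  · rintro ⟨p, q, a, h1, h2⟩
    exact ⟨(p, q, a), h1, h2⟩

theorem cells_B (h : X.Ok) {i : ZI} (hi : i ∈ X.Bk) {c : Finset Pt} : c ∈ (X.Z i).cells ↔
    ∃ g p q a, (g = i ∨ g = (i.2, i.1)) ∧ X.Kp g (p, q, a) ∧ c = {p, q, a} := by
  have ho := b0_open h (bk_b0 hi)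
  rw [Z_B (bk_b0 hi)]
  simp only [Zone.cells, Finset.mem_union, ZT.rl_cells]
  have e1 := z_cells (X := X) (g := i) (c := c)
  have e2 := z_cells (X := X) (g := (i.2, i.1)) (c := c)
  simp only at e2
  rw [e1, e2]
  constructor
  · rintro (⟨p, q, a, h1, h2⟩ | ⟨p, q, a, h1, h2⟩)
    · exact ⟨i, p, q, a, Or.inl rfl, ⟨h1, Or.inl ho.1⟩, h2⟩
    · exact ⟨(i.2, i.1), p, q, a, Or.inr rfl, ⟨h1, Or.inl ho.2⟩, h2⟩
  · rintro ⟨g, p, q, a, rfl | rfl, h1, h2⟩
    · exact Or.inl ⟨p, q, a, h1.1, h2⟩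
    · exact Or.inr ⟨p, q, a, h1.1, h2⟩

theorem cells_G (h : X.Ok) {i : ZI} {G : Gate} (hG : X.gate i = some G) {c : Finset Pt} :
    c ∈ (X.Z i).cells ↔ ∃ p q a, X.Kp i (p, q, a) ∧ c = {p, q, a} := by
  rw [Z_G h hG]
  simp only [Zone.cells, Finset.mem_union, ZT.rl_cells]
  rw [ZT.mem_cells_iff]
  constructor
  · rintro (⟨⟨p, q, a⟩, h1, h2⟩ | h1)
    · exact ⟨p, q, a, (kp_V h hG).2 h1, h2⟩
    · simp [ZT.cells] at h1
  · rintro ⟨p, q, a, h1, h2⟩
    exact Or.inl ⟨(p, q, a), (kp_V h hG).1 h1, h2⟩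

theorem cells_H (h : X.Ok) {i : ZI} {g3 g4 : Pt} (hq : (i.1, i.2, g3, g4) ∈ X.Gp)
    {c : Finset Pt} : c ∈ (X.Z i).cells ↔
      (∃ g p q a, (g = (i.1, g3) ∨ g = (g4, i.2)) ∧ X.Kp g (p, q, a) ∧ c = {p, q, a}) ∨
      X.GT i c := by
  obtain ⟨g1, g2⟩ := i
  simp only at hq ⊢
  have ho := h.til.nf.gOpen g1 g2 g3 g4 hq
  rw [Z_gap h hq]
  simp only [Zone.cells, Finset.mem_union, ZT.rl_cells]
  have e1 := z_cells (X := X) (g := (g1, g3)) (c := c)
  have e2 := z_cells (X := X) (g := (g4, g2)) (c := c)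
  simp only at e1 e2
  have key : c ∈ (X.gapT g1 g2 g3 g4).cells g1 g2 ↔
      (c ∈ (X.τ (g1, g3)).z.cells g1 g3 ∨ c ∈ (X.τ (g4, g2)).z.cells g4 g2) ∨
      X.GT (g1, g2) c := by
    rcases gap_cases h hq with ⟨o1, o2, h3, h4, h5⟩ | ⟨o1, o2, h3, h4, h5⟩
    · rw [h5]
      simp only [ZT.cells, Finset.mem_insert, Finset.mem_union, Finset.notMem_empty, false_or]
      constructor
      · rintro (rfl | h6 | rfl | h6)
        · exact Or.inr ⟨g3, g4, hq, h3, _, h4, Or.inl (Or.inl ⟨o1, o2, rfl, rfl⟩)⟩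
        · exact Or.inl (Or.inl h6)
        · exact Or.inr ⟨g3, g4, hq, h4, _, h3, Or.inr (Or.inl ⟨o1, o2, rfl, rfl⟩)⟩
        · exact Or.inl (Or.inr h6)
      · rintro ((h6 | h6) | ⟨g3', g4', hq', h6, t', h6', h7⟩)
        · exact Or.inr (Or.inl h6)
        · exact Or.inr (Or.inr (Or.inr h6))
        · obtain ⟨rfl, rfl⟩ := gp_unique h hq hq'
          have hu : ∀ t, t ∈ X.G0 → 0 < orient g1 g2 g4 → t = {g1, g2, g4} → False := by
            intro t ht ho4 he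
            rw [he] at ht
            have := h.til.nf.full.cx.side_unique (h.til.nf.subG h3) (h.til.nf.subG ht)
              (he_tri o1).1 (he_tri ho4).1
            have h8 : g3 ∈ ({g1, g2, g4} : Finset Pt) := by rw [← this]; simp
            have hne := h.til.nf.gNe g1 g2 g3 g4 hq
            simp only [Finset.mem_insert, Finset.mem_singleton] at h8
            rcases h8 with h8 | h8 | h8
            · exact hne.2.1 h8.symm
            · exact hne.2.2.2.1 h8.symm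
            · exact hne.2.2.2.2.2 h8
          rcases h7 with (⟨_, _, h8, _⟩ | ⟨p1, _, h8, h9⟩) | (⟨_, _, _, h8⟩ | ⟨p1, _, h8, h9⟩)
          · exact Or.inl h8
          · exact absurd (hu c h6 p1 h8) id
          · exact Or.inr (Or.inr (Or.inl h8))
          · exact absurd (hu t' h6' p1 h8) id
    · rw [h5]
      simp only [ZT.cells, Finset.mem_insert, Finset.mem_union, Finset.notMem_empty, or_false]
      constructor
      · rintro (rfl | (rfl | h6) | h6)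
        · exact Or.inr ⟨g3, g4, hq, h3, _, h4, Or.inl (Or.inr ⟨o1, o2, rfl, rfl⟩)⟩
        · exact Or.inr ⟨g3, g4, hq, h4, _, h3, Or.inr (Or.inr ⟨o1, o2, rfl, rfl⟩)⟩
        · exact Or.inl (Or.inl h6)
        · exact Or.inl (Or.inr h6)
      · rintro ((h6 | h6) | ⟨g3', g4', hq', h6, t', h6', h7⟩)
        · exact Or.inr (Or.inl (Or.inr h6))
        · exact Or.inr (Or.inr h6)
        · obtain ⟨rfl, rfl⟩ := gp_unique h hq hq'
          have hu : ∀ t, t ∈ X.G0 → 0 < orient g1 g2 g3 → t = {g1, g2, g3} → False := by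
            intro t ht ho4 he
            rw [he] at ht
            have := h.til.nf.full.cx.side_unique (h.til.nf.subG h3) (h.til.nf.subG ht)
              (he_tri o1).1 (he_tri ho4).1
            have h8 : g4 ∈ ({g1, g2, g3} : Finset Pt) := by rw [← this]; simp
            have hne := h.til.nf.gNe g1 g2 g3 g4 hq
            simp only [Finset.mem_insert, Finset.mem_singleton] at h8
            rcases h8 with h8 | h8 | h8
            · exact hne.2.2.1 h8.symm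
            · exact hne.2.2.2.2.1 h8.symm
            · exact hne.2.2.2.2.2 h8.symm
          rcases h7 with (⟨p1, _, h8, _⟩ | ⟨_, _, h8, h9⟩) | (⟨p1, _, h8, _⟩ | ⟨_, _, h8, h9⟩)
          · exact absurd (hu c h6 p1 h8) id
          · exact Or.inl h8
          · exact absurd (hu t' h6' p1 h8) id
          · exact Or.inr (Or.inl (Or.inl h9))
  rw [key, e1, e2]
  constructor
  · rintro (((⟨p, q, a, h1, h2⟩ | ⟨p, q, a, h1, h2⟩) | h1) | h1)
    · exact Or.inl ⟨_, p, q, a, Or.inl rfl, ⟨h1, Or.inl ho.1⟩, h2⟩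
    · exact Or.inl ⟨_, p, q, a, Or.inr rfl, ⟨h1, Or.inl ho.2.1⟩, h2⟩
    · exact Or.inr h1
    · simp [ZT.cells] at h1
  · rintro (⟨g, p, q, a, rfl | rfl, h1, h2⟩ | h1)
    · exact Or.inl (Or.inl (Or.inl ⟨p, q, a, h1.1, h2⟩))
    · exact Or.inl (Or.inl (Or.inr ⟨p, q, a, h1.1, h2⟩))
    · exact Or.inl (Or.inr h1)

/-- THE CELLS OF A ZONE -/
theorem cells_iff (h : X.Ok) {i : ZI} (hi : i ∈ X.I) {c : Finset Pt} : c ∈ (X.Z i).cells ↔
    (∃ g p q a, X.Own g i ∧ X.Kp g (p, q, a) ∧ c = {p, q, a}) ∨ X.GT i c := by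
  obtain ⟨d1, d2, d3⟩ := id_disj h (i := i)
  rcases mem_I.1 hi with h1 | h1 | h1
  · rw [cells_B h h1]
    constructor
    · rintro ⟨g, p, q, a, h2, h3⟩
      exact Or.inl ⟨g, p, q, a, Or.inl ⟨h1, h2⟩, h3⟩
    · rintro (⟨g, p, q, a, h2, h3⟩ | ⟨g3, g4, hq, _⟩)
      · rcases h2 with ⟨_, h2⟩ | ⟨h2, _⟩ | ⟨g3, g4, hq, _⟩
        · exact ⟨g, p, q, a, h2, h3⟩
        · exact absurd ⟨bk_b0 h1, h2⟩ d1
        · exact absurd ⟨bk_b0 h1, mem_Hk.2 ⟨g3, g4, hq⟩⟩ d2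
      · exact absurd ⟨bk_b0 h1, mem_Hk.2 ⟨g3, g4, hq⟩⟩ d2
  · obtain ⟨G, hG⟩ := gt_gate h1
    rw [cells_G h hG]
    constructor
    · rintro ⟨p, q, a, h3⟩
      exact Or.inl ⟨i, p, q, a, Or.inr (Or.inl ⟨h1, rfl⟩), h3⟩
    · rintro (⟨g, p, q, a, h2, h3⟩ | ⟨g3, g4, hq, _⟩)
      · rcases h2 with ⟨h2, _⟩ | ⟨_, rfl⟩ | ⟨g3, g4, hq, _⟩
        · exact absurd ⟨bk_b0 h2, h1⟩ d1
        · exact ⟨p, q, a, h3⟩
        · exact absurd ⟨h1, mem_Hk.2 ⟨g3, g4, hq⟩⟩ d3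
      · exact absurd ⟨h1, mem_Hk.2 ⟨g3, g4, hq⟩⟩ d3
  · obtain ⟨g3, g4, hq⟩ := mem_Hk.1 h1
    rw [cells_H h hq]
    constructor
    · rintro (⟨g, p, q, a, h2, h3⟩ | h2)
      · exact Or.inl ⟨g, p, q, a, Or.inr (Or.inr ⟨g3, g4, hq, h2⟩), h3⟩
      · exact Or.inr h2
    · rintro (⟨g, p, q, a, h2, h3⟩ | h2)
      · rcases h2 with ⟨h2, _⟩ | ⟨h2, _⟩ | ⟨g3', g4', hq', h2⟩
        · exact absurd ⟨bk_b0 h2, h1⟩ d2
        · exact absurd ⟨h2, h1⟩ d3
        · obtain ⟨rfl, rfl⟩ := gp_unique h hq hq'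
          exact Or.inl ⟨g, p, q, a, h2, h3⟩
      · exact Or.inr h2

/-! ### ring edges -/

theorem z_ring (s : Pt → Pt → Option (Finset Pt)) (t : ZT) (x y : Pt) (e : RE) :
    e ∈ (t.rl s x y).ring x y ↔ (e.a, e.b) ∈ t.lv x y ∧ e.s = s e.a e.b := by
  rw [ZT.rl_ring, List.mem_map]
  constructor
  · rintro ⟨⟨a, b⟩, h1, rfl⟩
    exact ⟨h1, rfl⟩
  · rintro ⟨h1, h2⟩
    refine ⟨(e.a, e.b), h1, ?_⟩
    cases e
    simp only at h2 ⊢
    rw [h2]

/-- the closed ring edges which are no leaves -/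
def Bs (X : IX) (i : ZI) (e : RE) : Prop :=
  (∃ G, X.gate i = some G ∧ e = ⟨G.y, G.x, none⟩) ∨
  (∃ g3 g4, (i.1, i.2, g3, g4) ∈ X.Gp ∧ (e = ⟨g3, g4, none⟩ ∨ e = ⟨i.2, i.1, none⟩))

theorem ring_B (h : X.Ok) {i : ZI} (hi : i ∈ X.Bk) {e : RE} : e ∈ (X.Z i).ring ↔
    ∃ g, (g = i ∨ g = (i.2, i.1)) ∧ X.Kl g (e.a, e.b) ∧ e.s = X.s e.a e.b := by
  have ho := b0_open h (bk_b0 hi)
  rw [Z_B (bk_b0 hi)]
  simp only [Zone.ring, List.mem_append, z_ring, FT.z_lv]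
  constructor
  · rintro (⟨h1, h2⟩ | ⟨h1, h2⟩)
    · exact ⟨i, Or.inl rfl, Or.inl ⟨ho.1, h1⟩, h2⟩
    · exact ⟨(i.2, i.1), Or.inr rfl, Or.inl ⟨ho.2, h1⟩, h2⟩
  · rintro ⟨g, rfl | rfl, h1, h2⟩
    · exact Or.inl ⟨h1.lv h, h2⟩
    · exact Or.inr ⟨h1.lv h, h2⟩

theorem ring_G (h : X.Ok) {i : ZI} {G : Gate} (hG : X.gate i = some G) {e : RE} :
    e ∈ (X.Z i).ring ↔ (X.Kl i (e.a, e.b) ∧ e.s = X.s e.a e.b) ∨ e = ⟨G.y, G.x, none⟩ := by
  rw [Z_G h hG]
  simp only [Zone.ring, List.mem_append, z_ring, ZT.ring, List.mem_singleton, kl_V h hG]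

theorem ring_H (h : X.Ok) {i : ZI} {g3 g4 : Pt} (hq : (i.1, i.2, g3, g4) ∈ X.Gp)
    {e : RE} : e ∈ (X.Z i).ring ↔
      (∃ g, (g = (i.1, g3) ∨ g = (g4, i.2)) ∧ X.Kl g (e.a, e.b) ∧ e.s = X.s e.a e.b) ∨
      (e = ⟨g3, g4, none⟩ ∨ e = ⟨i.2, i.1, none⟩) := by
  obtain ⟨g1, g2⟩ := i
  simp only at hq ⊢
  have ho := h.til.nf.gOpen g1 g2 g3 g4 hq
  have hcl : X.s g3 g4 = none := s_closed (cl0_sub h (hk_not_b0 h hq).2.2.1)
  have e3 : ((e.a, e.b) = (g3, g4) ∧ e.s = X.s e.a e.b) ↔ e = ⟨g3, g4, none⟩ := by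
    constructor
    · rintro ⟨h1, h2⟩
      cases e
      simp only [Prod.mk.injEq] at h1 h2
      obtain ⟨rfl, rfl⟩ := h1
      rw [hcl] at h2
      rw [h2]
    · rintro rfl
      exact ⟨rfl, hcl.symm⟩
  rw [Z_gap h hq]
  simp only [Zone.ring, List.mem_append, z_ring, ZT.ring, List.mem_singleton]
  have key : (e.a, e.b) ∈ (X.gapT g1 g2 g3 g4).lv g1 g2 ↔
      ((e.a, e.b) ∈ (X.τ (g1, g3)).lv g1 g3 ∨ (e.a, e.b) ∈ (X.τ (g4, g2)).lv g4 g2) ∨
        (e.a, e.b) = (g3, g4) := by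
    rcases gap_cases h hq with ⟨o1, o2, h3, h4, h5⟩ | ⟨o1, o2, h3, h4, h5⟩
    · rw [h5]
      simp only [ZT.lv, List.mem_append, List.mem_singleton, FT.z_lv]
      tauto
    · rw [h5]
      simp only [ZT.lv, List.mem_append, List.mem_singleton, FT.z_lv]
      tauto
  rw [key]
  constructor
  · rintro (⟨(h1 | h1) | h1, h2⟩ | h1)
    · exact Or.inl ⟨(g1, g3), Or.inl rfl, Or.inl ⟨ho.1, h1⟩, h2⟩
    · exact Or.inl ⟨(g4, g2), Or.inr rfl, Or.inl ⟨ho.2.1, h1⟩, h2⟩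
    · exact Or.inr (Or.inl (e3.1 ⟨h1, h2⟩))
    · exact Or.inr (Or.inr h1)
  · rintro (⟨g, rfl | rfl, h1, h2⟩ | h1 | h1)
    · exact Or.inl ⟨Or.inl (Or.inl (h1.lv h)), h2⟩
    · exact Or.inl ⟨Or.inl (Or.inr (h1.lv h)), h2⟩
    · have := e3.2 h1
      exact Or.inl ⟨Or.inr this.1, this.2⟩
    · exact Or.inr h1

/-- THE RING EDGES OF A ZONE -/
theorem ring_iff (h : X.Ok) {i : ZI} (hi : i ∈ X.I) {e : RE} : e ∈ (X.Z i).ring ↔
    (∃ g, X.Own g i ∧ X.Kl g (e.a, e.b) ∧ e.s = X.s e.a e.b) ∨ X.Bs i e := by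
  obtain ⟨d1, d2, d3⟩ := id_disj h (i := i)
  rcases mem_I.1 hi with h1 | h1 | h1
  · rw [ring_B h h1]
    constructor
    · rintro ⟨g, h2, h3⟩
      exact Or.inl ⟨g, Or.inl ⟨h1, h2⟩, h3⟩
    · rintro (⟨g, h2, h3⟩ | ⟨G, hG, _⟩ | ⟨g3, g4, hq, _⟩)
      · rcases h2 with ⟨_, h2⟩ | ⟨h2, _⟩ | ⟨g3, g4, hq, _⟩
        · exact ⟨g, h2, h3⟩
        · exact absurd ⟨bk_b0 h1, h2⟩ d1
        · exact absurd ⟨bk_b0 h1, mem_Hk.2 ⟨g3, g4, hq⟩⟩ d2
      · exact absurd ⟨bk_b0 h1, gate_gt h hG⟩ d1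
      · exact absurd ⟨bk_b0 h1, mem_Hk.2 ⟨g3, g4, hq⟩⟩ d2
  · obtain ⟨G, hG⟩ := gt_gate h1
    rw [ring_G h hG]
    constructor
    · rintro (h3 | h3)
      · exact Or.inl ⟨i, Or.inr (Or.inl ⟨h1, rfl⟩), h3⟩
      · exact Or.inr (Or.inl ⟨G, hG, h3⟩)
    · rintro (⟨g, h2, h3⟩ | ⟨G', hG', h3⟩ | ⟨g3, g4, hq, _⟩)
      · rcases h2 with ⟨h2, _⟩ | ⟨_, rfl⟩ | ⟨g3, g4, hq, _⟩
        · exact absurd ⟨bk_b0 h2, h1⟩ d1
        · exact Or.inl h3
        · exact absurd ⟨h1, mem_Hk.2 ⟨g3, g4, hq⟩⟩ d3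
      · rw [hG] at hG'
        simp only [Option.some.injEq] at hG'
        subst hG'
        exact Or.inr h3
      · exact absurd ⟨h1, mem_Hk.2 ⟨g3, g4, hq⟩⟩ d3
  · obtain ⟨g3, g4, hq⟩ := mem_Hk.1 h1
    rw [ring_H h hq]
    constructor
    · rintro (⟨g, h2, h3⟩ | h2)
      · exact Or.inl ⟨g, Or.inr (Or.inr ⟨g3, g4, hq, h2⟩), h3⟩
      · exact Or.inr (Or.inr ⟨g3, g4, hq, h2⟩)
    · rintro (⟨g, h2, h3⟩ | ⟨G, hG, _⟩ | ⟨g3', g4', hq', h2⟩)
      · rcases h2 with ⟨h2, _⟩ | ⟨h2, _⟩ | ⟨g3', g4', hq', h2⟩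
        · exact absurd ⟨bk_b0 h2, h1⟩ d2
        · exact absurd ⟨h2, h1⟩ d3
        · obtain ⟨rfl, rfl⟩ := gp_unique h hq hq'
          exact Or.inl ⟨g, h2, h3⟩
      · exact absurd ⟨gate_gt h hG, h1⟩ d3
      · obtain ⟨rfl, rfl⟩ := gp_unique h hq hq'
        exact Or.inr h2

/-! ### vertices -/

theorem vs_B (h : X.Ok) {i : ZI} (hi : i ∈ X.Bk) {v : Pt} : v ∈ (X.Z i).vs ↔
    v = i.1 ∨ v = i.2 ∨ X.Ka i v ∨ X.Ka (i.2, i.1) v := by
  have ho := b0_open h (bk_b0 hi)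
  rw [ka_o h ho.1, ka_o h ho.2, Zone.mem_vs, Z_B (bk_b0 hi)]
  simp only [Zone.ap, List.mem_append, ZT.rl_apex, FT.z_ap]

theorem vs_G (h : X.Ok) {i : ZI} {G : Gate} (hG : X.gate i = some G) {v : Pt} :
    v ∈ (X.Z i).vs ↔ v = G.x ∨ v = G.y ∨ X.Ka i v := by
  rw [ka_V h hG, Zone.mem_vs, Z_G h hG]
  simp only [Zone.ap, List.mem_append, ZT.rl_apex, ZT.apex, List.not_mem_nil, or_false]

theorem vs_H (h : X.Ok) {i : ZI} {g3 g4 : Pt} (hq : (i.1, i.2, g3, g4) ∈ X.Gp) {v : Pt} :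
    v ∈ (X.Z i).vs ↔ v = i.1 ∨ v = i.2 ∨ v = g3 ∨ v = g4 ∨ X.Ka (i.1, g3) v ∨
      X.Ka (g4, i.2) v := by
  obtain ⟨g1, g2⟩ := i
  simp only at hq ⊢
  have ho := h.til.nf.gOpen g1 g2 g3 g4 hq
  rw [ka_o h ho.1, ka_o h ho.2.1, Zone.mem_vs, Z_gap h hq]
  simp only [Zone.ap, List.mem_append, ZT.rl_apex, ZT.apex, List.not_mem_nil, or_false]
  rcases gap_cases h hq with ⟨o1, o2, h3, h4, h5⟩ | ⟨o1, o2, h3, h4, h5⟩
  · rw [h5]
    simp only [ZT.apex, List.mem_append, List.mem_cons, FT.z_ap, List.not_mem_nil, false_or]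
    tauto
  · rw [h5]
    simp only [ZT.apex, List.mem_append, List.mem_cons, FT.z_ap, List.not_mem_nil, or_false]
    tauto

/-- apexes of a zone -/
theorem ap_B (h : X.Ok) {i : ZI} (hi : i ∈ X.Bk) {v : Pt} : v ∈ (X.Z i).ap ↔
    X.Ka i v ∨ X.Ka (i.2, i.1) v := by
  have ho := b0_open h (bk_b0 hi)
  rw [ka_o h ho.1, ka_o h ho.2, Z_B (bk_b0 hi)]
  simp only [Zone.ap, List.mem_append, ZT.rl_apex, FT.z_ap]

theorem ap_G (h : X.Ok) {i : ZI} {G : Gate} (hG : X.gate i = some G) {v : Pt} :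
    v ∈ (X.Z i).ap ↔ X.Ka i v := by
  rw [ka_V h hG, Z_G h hG]
  simp only [Zone.ap, List.mem_append, ZT.rl_apex, ZT.apex, List.not_mem_nil, or_false]

theorem ap_H (h : X.Ok) {i : ZI} {g3 g4 : Pt} (hq : (i.1, i.2, g3, g4) ∈ X.Gp) {v : Pt} :
    v ∈ (X.Z i).ap ↔ v = g3 ∨ v = g4 ∨ X.Ka (i.1, g3) v ∨ X.Ka (g4, i.2) v := by
  obtain ⟨g1, g2⟩ := i
  simp only at hq ⊢
  have ho := h.til.nf.gOpen g1 g2 g3 g4 hq
  rw [ka_o h ho.1, ka_o h ho.2.1, Z_gap h hq]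
  simp only [Zone.ap, List.mem_append, ZT.rl_apex, ZT.apex, List.not_mem_nil, or_false]
  rcases gap_cases h hq with ⟨o1, o2, h3, h4, h5⟩ | ⟨o1, o2, h3, h4, h5⟩
  · rw [h5]
    simp only [ZT.apex, List.mem_append, List.mem_cons, FT.z_ap, List.not_mem_nil, false_or]
    tauto
  · rw [h5]
    simp only [ZT.apex, List.mem_append, List.mem_cons, FT.z_ap, List.not_mem_nil, or_false]
    tauto

end IX

end Pool.Agent.RFX

end

section

set_option autoImplicit false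

/-!
# RFX/IniG1 : initial state, group 1 (cells) (MP_72a26e_co)
-/

namespace Pool.Agent.RFX

open Pool.Agent.RFT

namespace IX

variable {X : IX}

theorem g_reach (h : X.Ok) : Reach X.P X.C X.E X.Cl := h.ini.reach

/-- both triangles of a gap are in `G0` -/
theorem gap_in1 (h : X.Ok) {g1 g2 g3 g4 : Pt} (hq : (g1, g2, g3, g4) ∈ X.Gp) {t t' : Finset Pt}
    (ht : t ∈ X.G0) (hG : GapTri g1 g2 g3 g4 t t' ∨ GapTri g1 g2 g3 g4 t' t) : t' ∈ X.G0 := by
  obtain ⟨-, n13, n14, n23, n24, n34⟩ := h.til.nf.gNe g1 g2 g3 g4 hq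
  have hC : ∀ {u : Finset Pt}, u ∈ X.G0 → u ∈ X.C := fun hu => h.til.nf.subG hu
  rcases gap_cases h hq with ⟨o1, o2, h3, h4, -⟩ | ⟨o1, o2, h3, h4, -⟩
  · have key : ∀ u : Finset Pt, u ∈ X.G0 → 0 < orient g1 g2 g4 → 0 < orient g1 g4 g3 →
        (u = {g1, g2, g4} ∨ u = {g1, g4, g3}) → False := by
      intro u hu p1 p2 he
      have h5 : g4 ∈ ({g1, g2, g3} : Finset Pt) := by
        rcases he with rfl | rfl
        · rw [h.til.uniq (hC h3) (hC hu) (he_tri o1).1 (he_tri p1).1]; simp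
        · rw [h.til.uniq (hC h3) (hC hu) (he_tri o1).2.2 (he_tri p2).2.2]; simp
      simp only [Finset.mem_insert, Finset.mem_singleton] at h5
      rcases h5 with h5 | h5 | h5
      · exact n14 h5.symm
      · exact n24 h5.symm
      · exact n34 h5.symm
    rcases hG with (⟨_, _, rfl, rfl⟩ | ⟨p1, p2, h5, _⟩) | (⟨_, _, rfl, rfl⟩ | ⟨p1, p2, _, h5⟩)
    · exact h4
    · exact absurd (key t ht p1 p2 (Or.inl h5)) id
    · exact h3
    · exact absurd (key t ht p1 p2 (Or.inr h5)) id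
  · have key : ∀ u : Finset Pt, u ∈ X.G0 → 0 < orient g1 g2 g3 → 0 < orient g3 g2 g4 →
        (u = {g1, g2, g3} ∨ u = {g3, g2, g4}) → False := by
      intro u hu p1 p2 he
      have h5 : g3 ∈ ({g1, g2, g4} : Finset Pt) := by
        rcases he with rfl | rfl
        · rw [h.til.uniq (hC h3) (hC hu) (he_tri o1).1 (he_tri p1).1]; simp
        · rw [h.til.uniq (hC h3) (hC hu) (he_tri o1).2.1 (he_tri p2).2.1]; simp
      simp only [Finset.mem_insert, Finset.mem_singleton] at h5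
      rcases h5 with h5 | h5 | h5
      · exact n13 h5.symm
      · exact n23 h5.symm
      · exact n34 h5
    rcases hG with (⟨p1, p2, h5, _⟩ | ⟨_, _, rfl, rfl⟩) | (⟨p1, p2, _, h5⟩ | ⟨_, _, rfl, rfl⟩)
    · exact absurd (key t ht p1 p2 (Or.inl h5)) id
    · exact h4
    · exact absurd (key t ht p1 p2 (Or.inr h5)) id
    · exact h3

theorem gt_G0 {i : ZI} {c : Finset Pt} (hc : X.GT i c) : c ∈ X.G0 := by
  obtain ⟨g3, g4, -, h1, -⟩ := hc
  exact h1

theorem g0_nE (h : X.Ok) {c : Finset Pt} (hc : c ∈ X.G0) : c ∉ X.E := by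
  intro hE
  rcases (E_cases h).1 hE with h1 | ⟨g, p, q, a, h1, rfl⟩
  · exact h.til.nf.disj c hc h1
  · exact h.til.new g p q a (gv_ns h h1) (Finset.mem_union_right _ hc)

theorem gt_vert {g1 g2 g3 g4 : Pt} {t t' : Finset Pt}
    (hG : GapTri g1 g2 g3 g4 t t' ∨ GapTri g1 g2 g3 g4 t' t) {v : Pt} (hv : v ∈ t) :
    v = g1 ∨ v = g2 ∨ v = g3 ∨ v = g4 := by
  rcases hG with (⟨_, _, rfl, rfl⟩ | ⟨_, _, rfl, rfl⟩) | (⟨_, _, rfl, rfl⟩ | ⟨_, _, rfl, rfl⟩) <;>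
    simp only [Finset.mem_insert, Finset.mem_singleton] at hv <;> tauto

theorem g_cov (h : X.Ok) : ∀ c ∈ X.C, c ∈ X.E ∨ c ∈ X.F ∨ ∃ i ∈ X.I, c ∈ (X.Z i).cells := by
  intro c hc
  by_cases h1 : c ∈ X.E0
  · exact Or.inl (e0_sub h h1)
  by_cases h2 : c ∈ X.G0
  · right; right
    obtain ⟨g1, g2, g3, g4, t', hq, hG⟩ := h.til.nf.gAll c h2
    have hi : (g1, g2) ∈ X.I := mem_I.2 (Or.inr (Or.inr (mem_Hk.2 ⟨g3, g4, hq⟩)))
    exact ⟨(g1, g2), hi, (cells_iff h hi).2 (Or.inr ⟨g3, g4, hq, h2, t', gap_in1 h hq h2 hG, hG⟩)⟩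
  by_cases h3 : X.Nd c
  · obtain ⟨g, p, q, a, hn, rfl⟩ := h3
    rcases kp_or_gv h hn with h4 | h4
    · obtain ⟨i, hi⟩ := own_of_kp h h4
      exact Or.inr (Or.inr ⟨i, own_I hi, (cells_iff h (own_I hi)).2
        (Or.inl ⟨g, p, q, a, hi, h4, rfl⟩)⟩)
    · exact Or.inl (gv_E h h4)
  · exact Or.inr (Or.inl (mem_F.2 ⟨hc, h1, h2, h3⟩))

theorem g_zC (h : X.Ok) : ∀ i ∈ X.I, (X.Z i).cells ⊆ X.C := by
  intro i hi c hc
  rcases (cells_iff h hi).1 hc with ⟨g, p, q, a, _, hk, rfl⟩ | hG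
  · exact (node_c h hk.1).1
  · exact h.til.nf.subG (gt_G0 hG)

theorem g_EF (h : X.Ok) : ∀ c ∈ X.E, c ∉ X.F := by
  intro c hc hF
  obtain ⟨-, h1, h2, h3⟩ := mem_F.1 hF
  rcases (E_cases h).1 hc with h4 | ⟨g, p, q, a, h4, rfl⟩
  · exact h1 h4
  · exact h3 ⟨g, p, q, a, gv_ns h h4, rfl⟩

theorem g_zE (h : X.Ok) : ∀ i ∈ X.I, ∀ c ∈ (X.Z i).cells, c ∉ X.E ∧ c ∉ X.F := by
  intro i hi c hc
  rcases (cells_iff h hi).1 hc with ⟨g, p, q, a, _, hk, rfl⟩ | hG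
  · exact ⟨kp_nE h hk, fun hF => (mem_F.1 hF).2.2.2 ⟨g, p, q, a, hk.1, rfl⟩⟩
  · exact ⟨g0_nE h (gt_G0 hG), fun hF => (mem_F.1 hF).2.2.1 (gt_G0 hG)⟩

theorem g_zz (h : X.Ok) : ∀ i ∈ X.I, ∀ j ∈ X.I, ∀ c ∈ (X.Z i).cells, c ∈ (X.Z j).cells → i = j := by
  intro i hi j hj c hc hc'
  rcases (cells_iff h hi).1 hc with ⟨g, p, q, a, ho, hk, he⟩ | hG
  · rcases (cells_iff h hj).1 hc' with ⟨g', p', q', a', ho', hk', he'⟩ | hG'
    · obtain ⟨rfl, -⟩ := h.til.inj g p q a g' p' q' a' hk.1 hk'.1 (he.symm.trans he')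
      exact own_unique h ho ho'
    · exact absurd (Finset.mem_union_right _ (he ▸ gt_G0 hG')) (h.til.new g p q a hk.1)
  · rcases (cells_iff h hj).1 hc' with ⟨g', p', q', a', ho', hk', he'⟩ | hG'
    · exact absurd (Finset.mem_union_right _ (he' ▸ gt_G0 hG)) (h.til.new g' p' q' a' hk'.1)
    · have hcard := h.til.nf.tri c (Finset.mem_union_right _ (gt_G0 hG))
      obtain ⟨v, hv⟩ : c.Nonempty := Finset.card_pos.1 (by omega)
      obtain ⟨g3, g4, hq, -, t', -, h1⟩ := hG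
      obtain ⟨g3', g4', hq', -, t'', -, h1'⟩ := hG'
      obtain ⟨e1, e2, -⟩ := h.til.nf.gDisj _ _ _ _ _ _ _ _ hq hq'
        ⟨v, gt_vert h1 hv, gt_vert h1' hv⟩
      exact Prod.ext e1 e2

end IX

end Pool.Agent.RFX

end

section

set_option autoImplicit false

/-!
# RFX/IniB : the black cells at a link form one block (MP_72a26e_co, Lemma 5.4) -- helper63

`X.CoIn v a` : the cell on the right of the dart `(a, v)` is black, the cell on its left is not black.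
`X.CoOut v a` : the cell on the right of the dart `(v, a)` is black, the cell on its left is not black.
`X.BE v` : there is at most one dart of each kind.
`be_N` : end vertices and gap vertices; `be_tip` : tips.
-/

namespace Pool.Agent.RFX

open Pool.Agent.RFT

namespace ZT

theorem lv_snd (t : ZT) : ∀ x y : Pt, (t.lv x y).map Prod.snd = t.apex ++ [y] := by
  induction t with
  | leaf f => intro x y; simp [lv, apex]
  | cut => intro x y; simp [lv, apex]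
  | node a l r ihl ihr => intro x y; simp [lv, apex, ihl, ihr]

theorem lv_fst (t : ZT) : ∀ x y : Pt, (t.lv x y).map Prod.fst = x :: t.apex := by
  induction t with
  | leaf f => intro x y; simp [lv, apex]
  | cut => intro x y; simp [lv, apex]
  | node a l r ihl ihr => intro x y; simp [lv, apex, ihl, ihr]

end ZT

/-- uniqueness from a count -/
theorem eq_of_count {α β : Type*} [BEq β] [LawfulBEq β] {f : α → β} {v : β} : ∀ {l : List α},
    (l.map f).count v ≤ 1 → ∀ x ∈ l, ∀ x' ∈ l, f x = v → f x' = v → x = x' := by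
  intro l
  induction l with
  | nil => intro _ x hx; simp at hx
  | cons a l ih =>
    intro hc x hx x' hx' h1 h2
    rw [List.map_cons, List.count_cons] at hc
    have hpos : ∀ y ∈ l, f y = v → 1 ≤ (l.map f).count v := by
      intro y hy hfy
      rw [Nat.one_le_iff_ne_zero, ← Nat.pos_iff_ne_zero, List.count_pos_iff]
      rw [← hfy]
      exact List.mem_map_of_mem hy
    rw [List.mem_cons] at hx hx'
    rcases hx with hx | hx
    · rcases hx' with hx' | hx'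
      · rw [hx, hx']
      · exfalso
        have h3 := hpos x' hx' h2
        rw [← hx, h1] at hc
        simp at hc
        omega
    · rcases hx' with hx' | hx'
      · exfalso
        have h3 := hpos x hx h1
        rw [← hx', h2] at hc
        simp at hc
        omega
      · exact ih (by omega) x hx x' hx' h1 h2

namespace IX

variable {X : IX}

/-- right black, left not black, into `v` -/
def CoIn (X : IX) (v a : Pt) : Prop := (∃ c ∈ X.E, HE c v a) ∧ ∀ c ∈ X.E, ¬ HE c a v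

/-- right black, left not black, out of `v` -/
def CoOut (X : IX) (v a : Pt) : Prop := (∃ c ∈ X.E, HE c a v) ∧ ∀ c ∈ X.E, ¬ HE c v a

/-- one block of black cells at `v` -/
def BE (X : IX) (v : Pt) : Prop :=
  (∀ a a', X.CoIn v a → X.CoIn v a' → a = a') ∧ ∀ a a', X.CoOut v a → X.CoOut v a' → a = a'

/-- a point with a hull side into it is a hull vertex -/
theorem hv_in (h : X.Ok) {a v : Pt} (hav : HE X.P a v) : HV X.P v := by
  obtain ⟨l, _, _, _, _, _, h6⟩ := exists_hull_list X.P h.til.gen h.til.three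
  have h1 := (mem_of_mem_cyc l a v ((h6 a v).1 hav)).2
  obtain ⟨b, hb⟩ := mem_cyc_of_mem l v h1
  exact ⟨b, (h6 v b).2 hb⟩

/-- the given part of the tree over `g` -/
noncomputable def U (X : IX) (g : Pt × Pt) : ZT := gpart (X.τ g).z (X.gate g)

theorem gv_iff {g : Pt × Pt} {n : Pt × Pt × Pt} :
    X.Gv g n ↔ g ∈ X.gs ∧ n ∈ (X.U g).ns g.1 g.2 := Iff.rfl

theorem U_nodup (h : X.Ok) (g : Pt × Pt) : (X.U g).apex.Nodup := by
  have h1 : (X.τ g).z.apex.Nodup := by rw [FT.z_ap]; exact h.til.nodup g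
  unfold U
  cases X.gate g with
  | none => exact h1
  | some G => exact h1.sublist (ZT.apex_cutAt_sub _ _)

theorem U_ap {g : Pt × Pt} {a : Pt} (ha : a ∈ (X.U g).apex) : a ∈ (X.τ g).ap := by
  rw [← FT.z_ap]
  unfold U at ha
  cases hG : X.gate g with
  | none => rw [hG] at ha; exact ha
  | some G => rw [hG] at ha; exact (ZT.apex_cutAt_sub _ _).subset ha

/-- cases for a black cell on the right of `(a, v)` -/
theorem coin_cases (h : X.Ok) {v a : Pt} (hv : ¬ HV X.P v) (hc : X.CoIn v a) :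
    (∃ c ∈ X.E0, HE c v a) ∨ ∃ g ∈ X.gs, (a, v) ∈ (X.U g).lv g.1 g.2 ∧
      ∃ b, X.Gv g (g.1, g.2, b) := by
  obtain ⟨⟨c, hcE, h1⟩, h2⟩ := hc
  have key : ∀ g, (∃ n, X.Gv g n) → ∃ b, X.Gv g (g.1, g.2, b) := by
    rintro g ⟨n, hn⟩
    obtain ⟨hgs, hn⟩ := gv_iff.1 hn
    rcases ZT.root_cases (X.U g) g.1 g.2 with ⟨_, _, h3⟩ | ⟨b, h3⟩
    · rw [h3] at hn; simp at hn
    · exact ⟨b, hgs, h3⟩
  rcases (E_cases h).1 hcE with h3 | ⟨g, p, q, d, h3, rfl⟩
  · exact Or.inl ⟨c, h3, h1⟩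
  · right
    obtain ⟨-, ho, c1, c2, c3⟩ := node_c h (gv_ns h h3)
    rcases he_cases ho h1 with ⟨rfl, rfl⟩ | ⟨rfl, rfl⟩ | ⟨rfl, rfl⟩
    · exfalso
      rcases gv_base h h3 with ⟨rfl, rfl⟩ | ⟨q', h4⟩ | ⟨p', h4⟩
      · rcases h.til.closed_right (mem_gs.1 h3.1).1 (mem_gs.1 h3.1).2 with h5 | ⟨t, ht, h5⟩
        · exact hv ⟨_, h5⟩
        · exact h2 t (e0_sub h ht) h5
      · obtain ⟨-, -, -, -, d3⟩ := node_c h (gv_ns h h4)
        exact h2 _ (gv_E h h4) d3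
      · obtain ⟨-, -, -, d2, -⟩ := node_c h (gv_ns h h4)
        exact h2 _ (gv_E h h4) d2
    · refine ⟨g, h3.1, ?_, key g ⟨_, h3⟩⟩
      rcases (ZT.upper_cases (gv_iff.1 h3).2).2 with h4 | ⟨b, h4⟩
      · exact h4
      · exfalso
        have h5 : X.Gv g (a, v, b) := ⟨h3.1, h4⟩
        obtain ⟨-, -, d1, -, -⟩ := node_c h (gv_ns h h5)
        exact h2 _ (gv_E h h5) d1
    · refine ⟨g, h3.1, ?_, key g ⟨_, h3⟩⟩
      rcases (ZT.upper_cases (gv_iff.1 h3).2).1 with h4 | ⟨b, h4⟩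
      · exact h4
      · exfalso
        have h5 : X.Gv g (a, v, b) := ⟨h3.1, h4⟩
        obtain ⟨-, -, d1, -, -⟩ := node_c h (gv_ns h h5)
        exact h2 _ (gv_E h h5) d1

/-- cases for a black cell on the right of `(v, a)` -/
theorem coout_cases (h : X.Ok) {v a : Pt} (hv : ¬ HV X.P v) (hc : X.CoOut v a) :
    (∃ c ∈ X.E0, HE c a v) ∨ ∃ g ∈ X.gs, (v, a) ∈ (X.U g).lv g.1 g.2 ∧
      ∃ b, X.Gv g (g.1, g.2, b) := by
  obtain ⟨⟨c, hcE, h1⟩, h2⟩ := hc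
  have key : ∀ g, (∃ n, X.Gv g n) → ∃ b, X.Gv g (g.1, g.2, b) := by
    rintro g ⟨n, hn⟩
    obtain ⟨hgs, hn⟩ := gv_iff.1 hn
    rcases ZT.root_cases (X.U g) g.1 g.2 with ⟨_, _, h3⟩ | ⟨b, h3⟩
    · rw [h3] at hn; simp at hn
    · exact ⟨b, hgs, h3⟩
  rcases (E_cases h).1 hcE with h3 | ⟨g, p, q, d, h3, rfl⟩
  · exact Or.inl ⟨c, h3, h1⟩
  · right
    obtain ⟨-, ho, c1, c2, c3⟩ := node_c h (gv_ns h h3)
    rcases he_cases ho h1 with ⟨rfl, rfl⟩ | ⟨rfl, rfl⟩ | ⟨rfl, rfl⟩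
    · exfalso
      rcases gv_base h h3 with ⟨rfl, rfl⟩ | ⟨q', h4⟩ | ⟨p', h4⟩
      · rcases h.til.closed_right (mem_gs.1 h3.1).1 (mem_gs.1 h3.1).2 with h5 | ⟨t, ht, h5⟩
        · exact hv (hv_in h h5)
        · exact h2 t (e0_sub h ht) h5
      · obtain ⟨-, -, -, -, d3⟩ := node_c h (gv_ns h h4)
        exact h2 _ (gv_E h h4) d3
      · obtain ⟨-, -, -, d2, -⟩ := node_c h (gv_ns h h4)
        exact h2 _ (gv_E h h4) d2
    · refine ⟨g, h3.1, ?_, key g ⟨_, h3⟩⟩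
      rcases (ZT.upper_cases (gv_iff.1 h3).2).2 with h4 | ⟨b, h4⟩
      · exact h4
      · exfalso
        have h5 : X.Gv g (v, a, b) := ⟨h3.1, h4⟩
        obtain ⟨-, -, d1, -, -⟩ := node_c h (gv_ns h h5)
        exact h2 _ (gv_E h h5) d1
    · refine ⟨g, h3.1, ?_, key g ⟨_, h3⟩⟩
      rcases (ZT.upper_cases (gv_iff.1 h3).2).1 with h4 | ⟨b, h4⟩
      · exact h4
      · exfalso
        have h5 : X.Gv g (v, a, b) := ⟨h3.1, h4⟩
        obtain ⟨-, -, d1, -, -⟩ := node_c h (gv_ns h h5)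
        exact h2 _ (gv_E h h5) d1

/-- leaf darts of a given part with a given end -/
theorem lv_in_unique (h : X.Ok) {g : Pt × Pt} {a a' v : Pt} (h1 : (a, v) ∈ (X.U g).lv g.1 g.2)
    (h2 : (a', v) ∈ (X.U g).lv g.1 g.2) (hv : v ∉ (X.U g).apex ∨ v ≠ g.2) : a = a' := by
  classical
  have hc : (((X.U g).lv g.1 g.2).map Prod.snd).count v ≤ 1 := by
    rw [ZT.lv_snd, List.count_append]
    have hn := List.nodup_iff_count_le_one.1 (U_nodup h g) v
    rcases hv with hv | hv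
    · rw [List.count_eq_zero_of_not_mem hv]
      have := List.count_le_length (a := v) (l := [g.2])
      simpa using this
    · have : List.count v [g.2] = 0 := by
        apply List.count_eq_zero_of_not_mem
        simpa using hv
      omega
  have := eq_of_count (f := Prod.snd) hc (a, v) h1 (a', v) h2 rfl rfl
  simpa using this

theorem lv_out_unique (h : X.Ok) {g : Pt × Pt} {a a' v : Pt} (h1 : (v, a) ∈ (X.U g).lv g.1 g.2)
    (h2 : (v, a') ∈ (X.U g).lv g.1 g.2) (hv : v ∉ (X.U g).apex ∨ v ≠ g.1) : a = a' := by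
  classical
  have hc : (((X.U g).lv g.1 g.2).map Prod.fst).count v ≤ 1 := by
    rw [ZT.lv_fst, List.count_cons]
    have hn := List.nodup_iff_count_le_one.1 (U_nodup h g) v
    rcases hv with hv | hv
    · rw [List.count_eq_zero_of_not_mem hv]
      split_ifs <;> omega
    · have : ¬ ((g.1 == v) = true) := by simpa using hv.symm
      rw [if_neg this]
      omega
  have := eq_of_count (f := Prod.fst) hc (v, a) h1 (v, a') h2 rfl rfl
  simpa using this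

theorem lv_end {t : ZT} {x y a b : Pt} (h1 : (a, b) ∈ t.lv x y) : b = y ∨ b ∈ t.apex := by
  have : b ∈ (t.lv x y).map Prod.snd := List.mem_map_of_mem (f := Prod.snd) h1
  rw [ZT.lv_snd] at this
  simpa [or_comm] using this

theorem lv_start {t : ZT} {x y a b : Pt} (h1 : (a, b) ∈ t.lv x y) : a = x ∨ a ∈ t.apex := by
  have : a ∈ (t.lv x y).map Prod.fst := List.mem_map_of_mem (f := Prod.fst) h1
  rw [ZT.lv_fst] at this
  simpa using this

/-- end vertices and gap vertices -/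
theorem be_N (h : X.Ok) {v : Pt} (hv : (∃ w, (v, w) ∈ X.B0) ∨ ∃ t ∈ X.G0, v ∈ t)
    (hH : ¬ HV X.P v) (hR : Res X.M0 v) : X.BE v := by
  have hap : ∀ g, v ∉ (X.τ g).ap := fun g hg => h.til.apR g v hg hR
  have hU : ∀ g, v ∉ (X.U g).apex := fun g hg => hap g (U_ap hg)
  obtain ⟨b1, b2⟩ := h.til.nf.blk v hv
  constructor
  · -- the E0-part
    have e0 : ∀ a, X.CoIn v a → (∃ t ∈ X.E0, HE t v a) → (∃ t ∈ X.E0, HE t v a) ∧
        ∀ t ∈ X.E0, ¬ HE t a v := fun a ha h1 => ⟨h1, fun t ht => ha.2 t (e0_sub h ht)⟩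
    have e1 : ∀ g ∈ X.gs, g.2 = v → (∃ t ∈ X.E0, HE t v g.1) ∧ ∀ t ∈ X.E0, ¬ HE t g.1 v := by
      rintro g hg rfl
      obtain ⟨h1, h2⟩ := mem_gs.1 hg
      constructor
      · rcases h.til.closed_right h1 h2 with h3 | h3
        · exact absurd (hv_in h h3) hH
        · exact h3
      · intro t ht
        exact h1.2.1 t (Finset.mem_union_left _ ht)
    intro a a' ha ha'
    rcases coin_cases h hH ha with h1 | ⟨g, hg, h1, c, hc⟩
    · rcases coin_cases h hH ha' with h1' | ⟨g', hg', h1', c', hc'⟩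
      · exact b1 a a' (e0 a ha h1).1 (e0 a ha h1).2 (e0 a' ha' h1').1 (e0 a' ha' h1').2
      · exfalso
        have hg2 : g'.2 = v := by
          rcases lv_end h1' with h3 | h3
          · exact h3.symm
          · exact absurd h3 (hU g')
        have h3 := b1 a g'.1 (e0 a ha h1).1 (e0 a ha h1).2 (e1 g' hg' hg2).1 (e1 g' hg' hg2).2
        obtain ⟨-, -, d1, -, -⟩ := node_c h (gv_ns h hc')
        rw [hg2] at d1 hc'
        rw [← h3] at d1 hc'
        exact ha.2 _ (gv_E h hc') d1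
    · have hg2 : g.2 = v := by
        rcases lv_end h1 with h3 | h3
        · exact h3.symm
        · exact absurd h3 (hU g)
      rcases coin_cases h hH ha' with h1' | ⟨g', hg', h1', c', hc'⟩
      · exfalso
        have h3 := b1 a' g.1 (e0 a' ha' h1').1 (e0 a' ha' h1').2 (e1 g hg hg2).1 (e1 g hg hg2).2
        obtain ⟨-, -, d1, -, -⟩ := node_c h (gv_ns h hc)
        rw [hg2] at d1 hc
        rw [← h3] at d1 hc
        exact ha'.2 _ (gv_E h hc) d1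
      · have hg2' : g'.2 = v := by
          rcases lv_end h1' with h3 | h3
          · exact h3.symm
          · exact absurd h3 (hU g')
        have h3 := b1 g.1 g'.1 (e1 g hg hg2).1 (e1 g hg hg2).2 (e1 g' hg' hg2').1
          (e1 g' hg' hg2').2
        have h4 : g = g' := Prod.ext h3 (hg2.trans hg2'.symm)
        subst h4
        exact lv_in_unique h h1 h1' (Or.inl (hU g))
  · have e0 : ∀ a, X.CoOut v a → (∃ t ∈ X.E0, HE t a v) → (∃ t ∈ X.E0, HE t a v) ∧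
        ∀ t ∈ X.E0, ¬ HE t v a := fun a ha h1 => ⟨h1, fun t ht => ha.2 t (e0_sub h ht)⟩
    have e1 : ∀ g ∈ X.gs, g.1 = v → (∃ t ∈ X.E0, HE t g.2 v) ∧ ∀ t ∈ X.E0, ¬ HE t v g.2 := by
      rintro g hg rfl
      obtain ⟨h1, h2⟩ := mem_gs.1 hg
      constructor
      · rcases h.til.closed_right h1 h2 with h3 | h3
        · exact absurd ⟨_, h3⟩ hH
        · exact h3
      · intro t ht
        exact h1.2.1 t (Finset.mem_union_left _ ht)
    intro a a' ha ha'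
    rcases coout_cases h hH ha with h1 | ⟨g, hg, h1, c, hc⟩
    · rcases coout_cases h hH ha' with h1' | ⟨g', hg', h1', c', hc'⟩
      · exact b2 a a' (e0 a ha h1).1 (e0 a ha h1).2 (e0 a' ha' h1').1 (e0 a' ha' h1').2
      · exfalso
        have hg2 : g'.1 = v := by
          rcases lv_start h1' with h3 | h3
          · exact h3.symm
          · exact absurd h3 (hU g')
        have h3 := b2 a g'.2 (e0 a ha h1).1 (e0 a ha h1).2 (e1 g' hg' hg2).1 (e1 g' hg' hg2).2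
        obtain ⟨-, -, d1, -, -⟩ := node_c h (gv_ns h hc')
        rw [hg2] at d1 hc'
        rw [← h3] at d1 hc'
        exact ha.2 _ (gv_E h hc') d1
    · have hg2 : g.1 = v := by
        rcases lv_start h1 with h3 | h3
        · exact h3.symm
        · exact absurd h3 (hU g)
      rcases coout_cases h hH ha' with h1' | ⟨g', hg', h1', c', hc'⟩
      · exfalso
        have h3 := b2 a' g.2 (e0 a' ha' h1').1 (e0 a' ha' h1').2 (e1 g hg hg2).1 (e1 g hg hg2).2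
        obtain ⟨-, -, d1, -, -⟩ := node_c h (gv_ns h hc)
        rw [hg2] at d1 hc
        rw [← h3] at d1 hc
        exact ha'.2 _ (gv_E h hc) d1
      · have hg2' : g'.1 = v := by
          rcases lv_start h1' with h3 | h3
          · exact h3.symm
          · exact absurd h3 (hU g')
        have h3 := b2 g.2 g'.2 (e1 g hg hg2).1 (e1 g hg hg2).2 (e1 g' hg' hg2').1
          (e1 g' hg' hg2').2
        have h4 : g = g' := Prod.ext (hg2.trans hg2'.symm) h3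
        subst h4
        exact lv_out_unique h h1 h1' (Or.inl (hU g))

/-- tips -/
theorem be_tip (h : X.Ok) {N v : Pt} (hv : (N, v) ∈ X.B0) : X.BE v := by
  have hH : ¬ HV X.P v := (h.til.nf.bHull N v hv).2.1
  have hE0 : ∀ t ∈ X.E0, v ∉ t := h.til.nf.bTip N v hv
  have hcl0 : ∀ b, (v, b) ∉ X.Cl0 := by
    intro b hb
    rcases (h.til.nf.cl0 v b).1 hb with h1 | h1 | ⟨t, ht, h1 | h1⟩
    · exact hH ⟨_, h1⟩
    · exact hH (hv_in h h1)
    · exact hE0 t ht h1.1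
    · exact hE0 t ht h1.2.1
  have hg1 : ∀ g ∈ X.gs, v ≠ g.1 := by
    rintro g hg rfl
    exact hcl0 g.2 (mem_gs.1 hg).2
  have hg2 : ∀ g ∈ X.gs, v ≠ g.2 := by
    rintro g hg rfl
    exact hcl0 g.1 (symm0 h _ _ (mem_gs.1 hg).2)
  constructor
  · intro a a' ha ha'
    rcases coin_cases h hH ha with ⟨t, ht, h1⟩ | ⟨g, hg, h1, -⟩
    · exact absurd h1.1 (hE0 t ht)
    · rcases coin_cases h hH ha' with ⟨t, ht, h1'⟩ | ⟨g', hg', h1', -⟩
      · exact absurd h1'.1 (hE0 t ht)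
      · have k1 : v ∈ (X.τ g).ap := by
          rcases lv_end h1 with h3 | h3
          · exact absurd h3 (hg2 g hg)
          · exact U_ap h3
        have k2 : v ∈ (X.τ g').ap := by
          rcases lv_end h1' with h3 | h3
          · exact absurd h3 (hg2 g' hg')
          · exact U_ap h3
        have h4 := h.til.dj g g' v k1 k2
        subst h4
        exact lv_in_unique h h1 h1' (Or.inr (hg2 g hg))
  · intro a a' ha ha'
    rcases coout_cases h hH ha with ⟨t, ht, h1⟩ | ⟨g, hg, h1, -⟩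
    · exact absurd h1.2.1 (hE0 t ht)
    · rcases coout_cases h hH ha' with ⟨t, ht, h1'⟩ | ⟨g', hg', h1', -⟩
      · exact absurd h1'.2.1 (hE0 t ht)
      · have k1 : v ∈ (X.τ g).ap := by
          rcases lv_start h1 with h3 | h3
          · exact absurd h3 (hg1 g hg)
          · exact U_ap h3
        have k2 : v ∈ (X.τ g').ap := by
          rcases lv_start h1' with h3 | h3
          · exact absurd h3 (hg1 g' hg')
          · exact U_ap h3
        have h4 := h.til.dj g g' v k1 k2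
        subst h4
        exact lv_out_unique h h1 h1' (Or.inr (hg1 g hg))

end IX

end Pool.Agent.RFX

end

section

set_option autoImplicit false

/-!
# RFX/IniE : existence of the initial data, number of ring vertices (MP_72a26e_co) -- helper12
-/

namespace Pool.Agent.RFX

open Pool.Agent.RFT

theorem FT.z_good {C : Finset (Finset Pt)} (t : FT) : ∀ x y : Pt,
    (∀ p q a, (p, q, a) ∈ t.ns x y → ({p, q, a} : Finset Pt) ∈ C ∧ 0 < orient p q a) →
    t.z.Good C x y := by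
  induction t with
  | lf => intro x y _; trivial
  | nd a l r hl hr =>
    intro x y h
    obtain ⟨h1, h2⟩ := h x y a (by simp)
    obtain ⟨h3, h4, h5⟩ := he_tri h2
    refine ⟨h1, ?_, h3, h4, h5, hl x a ?_, hr a y ?_⟩
    · exact Finset.card_eq_three.2 ⟨x, y, a, h3.2.2.1, h5.2.2.1.symm, h4.2.2.1, rfl⟩
    · intro p q b hb
      exact h p q b (by simp [hb])
    · intro p q b hb
      exact h p q b (by simp [hb])

theorem exists_ix {P : Finset Pt} {C E0 G0 : Finset (Finset Pt)} {B0 M0 Cl0 : Finset (Pt × Pt)}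
    {Gp : Finset (Pt × Pt × Pt × Pt)} {L : Finset Pt} {τ : Pt × Pt → FT}
    (h : Til P C E0 G0 B0 M0 Cl0 Gp L τ) :
    ∃ E Cl gate, (⟨P, C, E0, G0, B0, M0, Cl0, Gp, L, τ, E, Cl, gate⟩ : IX).Ok := by
  classical
  set X0 : IX := ⟨P, C, E0, G0, B0, M0, Cl0, Gp, L, τ, ∅, ∅, fun _ => none⟩ with hX0
  have hgs : ∀ g, g ∈ X0.gs ↔ FreeDart P (E0 ∪ G0) M0 g ∧ g ∈ Cl0 := fun g => IX.mem_gs
  have hap : ∀ a, (a ∈ X0.Ao ∨ ∃ g ∈ X0.gs, a ∈ (τ g).z.apex) → ∃ g, a ∈ (τ g).ap := by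
    rintro a (⟨g, _, h1⟩ | ⟨g, _, h1⟩)
    · exact ⟨g, h1⟩
    · exact ⟨g, by rwa [FT.z_ap] at h1⟩
  obtain ⟨E, Cl, gate, hI⟩ := exists_init (P := P) (C := C) (E0 := E0) (Cl0 := Cl0) h.nf.reach
    (h.nf.reach.inv h.nf.full).symm (fun g => (τ g).z) X0.gs X0.Ao (by
      unfold IX.gs
      exact Finset.nodup_toList _)
    (fun g hg => ((hgs g).1 hg).2)
    (fun g _ => FT.z_good (τ g) g.1 g.2 (fun p q a hn => h.node g p q a hn))
    (fun g _ => by simp only [FT.z_ap]; exact h.nodup g)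
    (fun g _ g' _ a ha ha' => by
      simp only [FT.z_ap] at ha ha'
      exact h.dj g g' a ha ha')
    (by
      rintro g hg a ha ⟨g', hg', ha'⟩
      simp only [FT.z_ap] at ha
      have := h.dj g g' a ha ha'
      subst this
      exact hg' ((hgs g).1 hg).2)
    (by
      intro a b hab ha hb hj
      obtain ⟨g, ha⟩ := hap a ha
      obtain ⟨g', hb⟩ := hap b hb
      exact hab (h.nf.root a b hj (h.apH g a ha) (h.apR g a ha) (h.apH g' b hb) (h.apR g' b hb)))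
  exact ⟨E, Cl, gate, h, hI⟩

namespace IX

variable {X : IX}

/-- apexes are loose points -/
theorem ap_L (h : X.Ok) {g : Pt × Pt} {a : Pt} (ha : a ∈ (X.τ g).ap) : a ∈ X.L := by
  obtain ⟨p, q, hn⟩ := ap_iff_ns'.1 ha
  have h1 := (node_c h hn).1
  have h2 : a ∈ X.P := h.til.nf.full.sub h1 (by simp)
  exact h.til.nf.looseU a h2 (h.til.apH g a ha) (h.til.apR g a ha)

/-- ring vertices are loose points or base ends of gates -/
theorem RV_sub (h : X.Ok) {v : Pt} (hv : v ∈ X.RV) :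
    v ∈ X.L ∨ ∃ i ∈ X.Gt, v = (X.Z i).x ∨ v = (X.Z i).y := by
  obtain ⟨i, hi, hv⟩ := mem_RV.1 hv
  rcases mem_I.1 hi with h1 | h1 | h1
  · left
    have hL := h.til.nf.looseB i.1 i.2 (bk_b0 h1)
    rcases (vs_B h h1).1 hv with rfl | rfl | h2 | h2
    · exact hL.1
    · exact hL.2
    · exact ap_L h (h2.ap h)
    · exact ap_L h (h2.ap h)
  · obtain ⟨G, hG⟩ := gt_gate h1
    rcases (vs_G h hG).1 hv with h2 | h2 | h2
    · exact Or.inr ⟨i, h1, Or.inl (by rw [Z_G h hG]; exact h2)⟩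
    · exact Or.inr ⟨i, h1, Or.inr (by rw [Z_G h hG]; exact h2)⟩
    · exact Or.inl (ap_L h (h2.ap h))
  · left
    obtain ⟨g3, g4, hq⟩ := mem_Hk.1 h1
    have hg : ∀ v, (v = i.1 ∨ v = i.2 ∨ v = g3 ∨ v = g4) → v ∈ X.L := by
      intro v hv
      obtain ⟨t, ht, hvt⟩ := (gap_not_b h hq hv).1
      exact h.til.nf.looseG t ht hvt
    rcases (vs_H h hq).1 hv with h2 | h2 | h2 | h2 | h2 | h2
    · exact hg v (Or.inl h2)
    · exact hg v (Or.inr (Or.inl h2))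
    · exact hg v (Or.inr (Or.inr (Or.inl h2)))
    · exact hg v (Or.inr (Or.inr (Or.inr h2)))
    · exact ap_L h (h2.ap h)
    · exact ap_L h (h2.ap h)

theorem card_Gt (h : X.Ok) : X.Gt.card ≤ X.L.card := by
  classical
  have hr : ∀ i ∈ X.Gt, ∃ r, r ∈ (X.τ i).ap := by
    intro i hi
    obtain ⟨G, hG⟩ := gt_gate hi
    exact ⟨G.r, gate_r h hG⟩
  choose! f hf using hr
  apply Finset.card_le_card_of_injOn f
  · intro i hi
    exact ap_L h (hf i hi)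
  · intro i hi j hj he
    have h1 := hf i hi
    have h2 := hf j hj
    rw [← he] at h2
    exact h.til.dj i j _ h1 h2

theorem card_RV (h : X.Ok) : X.RV.card ≤ 3 * X.L.card := by
  classical
  have hsub : X.RV ⊆ X.L ∪ (X.Gt.image (fun i => (X.Z i).x) ∪ X.Gt.image (fun i => (X.Z i).y)) := by
    intro v hv
    rw [Finset.mem_union, Finset.mem_union, Finset.mem_image, Finset.mem_image]
    rcases RV_sub h hv with h1 | ⟨i, hi, h1 | h1⟩
    · exact Or.inl h1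
    · exact Or.inr (Or.inl ⟨i, hi, h1.symm⟩)
    · exact Or.inr (Or.inr ⟨i, hi, h1.symm⟩)
  have h1 := Finset.card_le_card hsub
  have h2 := Finset.card_union_le X.L
    (X.Gt.image (fun i => (X.Z i).x) ∪ X.Gt.image (fun i => (X.Z i).y))
  have h3 := Finset.card_union_le (X.Gt.image (fun i => (X.Z i).x))
    (X.Gt.image (fun i => (X.Z i).y))
  have h4 : (X.Gt.image (fun i => (X.Z i).x)).card ≤ X.Gt.card := Finset.card_image_le
  have h5 : (X.Gt.image (fun i => (X.Z i).y)).card ≤ X.Gt.card := Finset.card_image_le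
  have h6 := card_Gt h
  omega

end IX

end Pool.Agent.RFX

end
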