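import Mathlib
import Pool.Agent.RFM.P08
import Pool.Agent.RFM.P12

set_option autoImplicit false

/-!
# RFM/P16 (MP_72a26e_co): the files RFX/NFEnd, RFX/NFGap, RFX/NFEx, RFX/NFBlk, merged to save build time
-/

section

set_option autoImplicit false

/-!
# RFX/NFEnd : the end-edges of the normal form (MP_72a26e_co)

PROOFS. `tip_left`: the petal `p` has the type (1) or (2) (`PS.type`, `¬ GapL`), so `OutL (ltr) (pet s) p.1`: with `u = p.1` the letter of
the step `u - 1` occurs in `[0, u - 1)`; `inr_of_earlier` for `n' = u - 1` gives `Inr s n (u - 1) w`, `w = dr (u-1)`. If `q ∈ pet s`,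
`q.2 < u` then this letter occurs also in `[q.2 + 1, u - 1)`, so `q.2 + 1 ≤ n` by `Inr.btw`. `tip_right`: mirror
image with `OutR` and `inr_of_later`.
`tip_not`: by `mem_B0` `w` is a left or a right tip of the petal `p` of `s`. Left: `Inr s n (p.1 - 1) w`; let `w` be in the
petal `q` of `s'`, position `j ∈ [q.1, q.2]`: `Inr.occ` gives `s' = s`, `n < j ≤ p.1 - 1`. So `q ≠ p` (`p.1 ≤ j` is false), by `sepa`
`q.2 < p.1` (the other case `p.2 < q.1 ≤ j < p.1` is impossible), so `q.2 + 1 ≤ n < j ≤ q.2`, a contradiction. Right: mirror image.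
`tip_hull`: `tip_left`, `tip_right`, `Inr.hull`.
`b_nr`: `left_end`, `right_end`. `b_fun`: `N` determines the petal (`PS.uniq`: both are `NR`) and the side: if the petal has two outer
ends it is of type (1), and `ad (p.1-1) ≠ dr p.2`: by `inr_of_later` / `Inr.btw` `ad (p.1-1)` is interior with `n' = p.1`, so it is at the
position `p.1` only (`Inr.at_iff`), but `dr p.2` is at the position `p.2` (`at_iff`). `b_inj`: `w = w'`. Both left: `Inr s n (p.1-1) w`,
`Inr s' k (p'.1-1) w`, so by `Inr.uniq` `s = s'`, `p.1 - 1 = p'.1 - 1`, so `p = p'` (`sepa`, `size`). Both right: the same. Left and right: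
`Inr s n (p.1-1) w` and `Inr s' p'.2 k' w`: `s = s'`, `n = p'.2`; `p' ≠ p` since `n < p.1 - 1 < p.2`; by `sepa` `p'.2 < p.1` or
`p.2 < p'.1 ≤ p'.2 = n < p.1`, the latter is impossible; so `p'.2 + 1 ≤ n` by `tip_left`, a contradiction.
`b_ne`: `N` is `InPet`, `w'` is not (`tip_not`). `b_cl`: if `(N, w) ∈ Cl0f` then `w` is a hull vertex (not, `tip_hull`) or in a triangle
of `E0f` (not, `b_tip`). `b_tip`: `mem_E0`, `mem_tr_iff`: the elements of a petal triangle are `InPet`. `g0_in`: an element `v` of the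
triangle `g` or `g + 1` (`g ∈ gaps s`): `v` is at the position `g`, `g + 1` or `g + 2` (`mem_tr_iff`); at `g + 1` it is at
`g` or `v = ad g` (`at_succ_iff`, `at_iff`), and `ad g` is an end of `g + 1`, not `dr (g+1)` since the letters of `g`, `g + 1` differ
(labels: `lab_step`, `it_lab`; or by cases), so it is `cm (g+1)` and at the position `g + 2`. `PS.gap` gives the
petals `p.2 = g`, `q.1 = g + 2`; `PS.gap_nr`.
`b_gap`: `w`: `g0_in` and `tip_not`. `N`: let `N = ad (p.1 - 1)`, `¬ GapL`, and `N ∈ t ∈ G0f`. By `g0_in` `N` is `NR` of a petal `q`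
of `s'` and at the position `q.2 ∈ gaps` or `q.1` with `GapL`; `PS.uniq` gives `s' = s`, `q = p`, so `p.2 ∈ gaps s` and `N` is at
`p.2`; type (2): `N = ad (p.1-1)` and its letter occurs in `[p.1, p.2)` (`Occ2`), so `Inr s (p.1-1) n' N` with `n' < p.2`
(`inr_of_later`, `Inr.btw`), against `Inr.at_iff`. Mirror image for `N = dr p.2`.
`tip`: `(N, w) ∈ M0` by `mem_M0`; let `(w, v) ∈ M0`: cases of `mem_M0`, `mem_Cl0`: `HE P`: `tip_hull`; side of `E0f`: `b_tip`; side of `G0f`: `b_gap`;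
`(w, v) ∈ B0f`: `b_ne`; `(v, w) ∈ B0f`: `b_inj`. `tipN`: `b_nr`, `PS.res`. `b_e0`: `N` is at a position of the petal which is a side
of the petal triangle number `p.1` resp. `p.2 - 1` (`mem_tr_iff`, `mem_E0`).
-/

namespace Pool.Agent.RFX

open Pool.Agent.RFT

variable {P : Finset Pt} {C Bs : Finset (Finset Pt)} {lab : Pt → ℕ}
  {pet : Pt × Pt → Finset (ℕ × ℕ)} {gaps : Pt × Pt → Finset ℕ}

theorem PS.tip_left (h : PS P C Bs lab pet gaps) {s : Pt × Pt} {p : ℕ × ℕ} (hp : p ∈ pet s)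
    (hl : ¬ GapL gaps s p) : ∃ n, Inr C lab s n (p.1 - 1) (dr C lab s (p.1 - 1)) ∧
      ∀ q ∈ pet s, q.2 < p.1 → q.2 + 1 ≤ n := by
  obtain ⟨z1, z2, z3⟩ := h.size hp
  have hO : OutL (ltr C lab s) (pet s) p.1 := by
    rcases h.type hp with ⟨_, _, t, _⟩ | ⟨_, _, t, _⟩ | ⟨t, _⟩
    · exact t
    · exact t
    · exact absurd t hl
  obtain ⟨n, hI⟩ := inr_of_earlier h.bc (s := s) (n' := p.1 - 1) (by omega) hO.1
  refine ⟨n, hI, fun q hq hlt => ?_⟩
  obtain ⟨k, k1, k2, k3⟩ := hO.2 q hq hlt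
  by_contra hcon
  exact hI.btw k (by omega) k2 (k3.trans hI.same)

theorem PS.tip_right (h : PS P C Bs lab pet gaps) {s : Pt × Pt} {p : ℕ × ℕ} (hp : p ∈ pet s)
    (hl : p.2 ∉ gaps s) : ∃ n', Inr C lab s p.2 n' (ad C lab s p.2) ∧
      ∀ q ∈ pet s, p.2 < q.1 → n' + 1 < q.1 := by
  obtain ⟨z1, z2, z3⟩ := h.size hp
  have hO : OutR (ltr C lab s) (len C lab s) (pet s) p.2 := by
    rcases h.type hp with ⟨_, _, _, t, _⟩ | ⟨_, t, _⟩ | ⟨_, _, t, _⟩
    · exact t
    · exact absurd t hl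
    · exact t
  obtain ⟨n', hI⟩ := inr_of_later h.bc hO.1
  refine ⟨n', hI, fun q hq hlt => ?_⟩
  obtain ⟨k, k1, k2, k3⟩ := hO.2 q hq hlt
  by_contra hcon
  exact hI.btw k (by omega) (by omega) k3

/-- the tip is in no petal -/
theorem PS.tip_not (h : PS P C Bs lab pet gaps) {N w : Pt} (hB : (N, w) ∈ B0f P C lab pet gaps)
    (s : Pt × Pt) (p : ℕ × ℕ) : ¬ InPet P C lab pet s p w := by
  rintro ⟨hs, hp, j, j1, j2, ha⟩
  obtain ⟨z1, z2, z3⟩ := h.size hp
  obtain ⟨s0, hs0, p0, hp0, ⟨hg, he⟩ | ⟨hg, he⟩⟩ := h.mem_B0.1 hB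
  · obtain ⟨y1, y2, y3⟩ := h.size hp0
    obtain ⟨n, hI, hq⟩ := h.tip_left hp0 hg
    rw [Prod.mk.injEq] at he
    rw [← he.2] at hI
    obtain ⟨rfl, o2, o3⟩ := hI.occ h.bc hs0 hs (by omega) ha
    have hne : p ≠ p0 := by
      rintro rfl
      omega
    rcases h.sepa hp hp0 hne with ⟨e1, _⟩ | ⟨e1, _⟩
    · have := hq p hp e1
      omega
    · omega
  · obtain ⟨y1, y2, y3⟩ := h.size hp0
    obtain ⟨n', hI, hq⟩ := h.tip_right hp0 hg
    rw [Prod.mk.injEq] at he
    rw [← he.2] at hI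
    obtain ⟨rfl, o2, o3⟩ := hI.occ h.bc hs0 hs (by omega) ha
    have hne : p ≠ p0 := by
      rintro rfl
      omega
    rcases h.sepa hp hp0 hne with ⟨e1, _⟩ | ⟨e1, _⟩
    · omega
    · have := hq p hp e1
      omega

theorem PS.tip_hull (h : PS P C Bs lab pet gaps) {N w : Pt} (hB : (N, w) ∈ B0f P C lab pet gaps)
    (b : Pt) : ¬ HE P w b ∧ ¬ HE P b w := by
  obtain ⟨s0, hs0, p0, hp0, ⟨hg, he⟩ | ⟨hg, he⟩⟩ := h.mem_B0.1 hB
  · obtain ⟨n, hI, _⟩ := h.tip_left hp0 hg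
    rw [Prod.mk.injEq] at he
    rw [← he.2] at hI
    exact hI.hull h.bc b
  · obtain ⟨n', hI, _⟩ := h.tip_right hp0 hg
    rw [Prod.mk.injEq] at he
    rw [← he.2] at hI
    exact hI.hull h.bc b

theorem PS.b_nr (h : PS P C Bs lab pet gaps) {N w : Pt} (hB : (N, w) ∈ B0f P C lab pet gaps) :
    ∃ s p, NR P C lab pet gaps s p N ∧
      ((¬ GapL gaps s p ∧ N = ad C lab s (p.1 - 1)) ∨ (p.2 ∉ gaps s ∧ N = dr C lab s p.2)) := by
  obtain ⟨s, hs, p, hp, ⟨hg, he⟩ | ⟨hg, he⟩⟩ := h.mem_B0.1 hB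
  · rw [Prod.mk.injEq] at he
    refine ⟨s, p, ?_, Or.inl ⟨hg, he.1⟩⟩
    rw [he.1]
    exact (h.left_end hs hp hg).1
  · rw [Prod.mk.injEq] at he
    refine ⟨s, p, ?_, Or.inr ⟨hg, he.1⟩⟩
    rw [he.1]
    exact (h.right_end hs hp hg).1

theorem PS.b_fun (h : PS P C Bs lab pet gaps) {N w w' : Pt} (hB : (N, w) ∈ B0f P C lab pet gaps)
    (hB' : (N, w') ∈ B0f P C lab pet gaps) : w = w' := by
  obtain ⟨s, hs, p, hp, hc⟩ := h.mem_B0.1 hB
  obtain ⟨s', hs', p', hp', hc'⟩ := h.mem_B0.1 hB'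
  have hnr : NR P C lab pet gaps s p N := by
    rcases hc with ⟨hg, he⟩ | ⟨hg, he⟩
    · rw [Prod.mk.injEq] at he
      rw [he.1]
      exact (h.left_end hs hp hg).1
    · rw [Prod.mk.injEq] at he
      rw [he.1]
      exact (h.right_end hs hp hg).1
  have hnr' : NR P C lab pet gaps s' p' N := by
    rcases hc' with ⟨hg, he⟩ | ⟨hg, he⟩
    · rw [Prod.mk.injEq] at he
      rw [he.1]
      exact (h.left_end hs' hp' hg).1
    · rw [Prod.mk.injEq] at he
      rw [he.1]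
      exact (h.right_end hs' hp' hg).1
  obtain ⟨rfl, rfl⟩ := h.uniq hnr hnr'.1
  obtain ⟨z1, z2, z3⟩ := h.size hp
  have key : ¬ GapL gaps s p → p.2 ∉ gaps s → ad C lab s (p.1 - 1) ≠ dr C lab s p.2 := by
    intro g1 g2 hN
    rcases h.type hp with ⟨_, _, _, _, t⟩ | ⟨_, t, _⟩ | ⟨t, _⟩
    · obtain ⟨n', hI⟩ := inr_of_later h.bc (s := s) (n := p.1 - 1)
        ⟨p.1, by omega, by omega, (t p.1 (by omega) (by omega)).trans (t (p.1 - 1) le_rfl
          (by omega)).symm⟩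
      have hlt := hI.lt
      have h1 : AtC C lab s p.2 (ad C lab s (p.1 - 1)) := by
        rw [hN]; exact (at_iff h.bc (by omega)).2 (Or.inl rfl)
      have h2 := (hI.at_iff h.bc hs (j := p.2) (by omega)).1 h1
      exact hI.btw p.1 (by omega) (by omega) ((t p.1 (by omega) (by omega)).trans (t (p.1 - 1) le_rfl
          (by omega)).symm)
    · exact g2 t
    · exact g1 t
  rcases hc with ⟨hg, he⟩ | ⟨hg, he⟩ <;> rcases hc' with ⟨hg', he'⟩ | ⟨hg', he'⟩ <;>
    rw [Prod.mk.injEq] at he he'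
  · exact he.2.trans he'.2.symm
  · exact absurd (he.1.symm.trans he'.1) (key hg hg')
  · exact absurd (he'.1.symm.trans he.1) (key hg' hg)
  · exact he.2.trans he'.2.symm

/-- a left tip is not a right tip -/
private theorem nfe_lr (h : PS P C Bs lab pet gaps) {s : Pt × Pt} {p p' : ℕ × ℕ} (hp : p ∈ pet s)
    (hp' : p' ∈ pet s) {n : ℕ} {w : Pt} (hI : Inr C lab s n (p.1 - 1) w) (e2 : n = p'.2)
    (hq : ∀ q ∈ pet s, q.2 < p.1 → q.2 + 1 ≤ n) : False := by
  obtain ⟨z1, z2, z3⟩ := h.size hp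
  obtain ⟨y1, y2, y3⟩ := h.size hp'
  have hlt := hI.lt
  have hne : p ≠ p' := by
    rintro rfl
    omega
  rcases h.sepa hp hp' hne with ⟨e1, _⟩ | ⟨e1, _⟩
  · omega
  · have := hq p' hp' e1
    omega

theorem PS.b_inj (h : PS P C Bs lab pet gaps) {N N' w : Pt} (hB : (N, w) ∈ B0f P C lab pet gaps)
    (hB' : (N', w) ∈ B0f P C lab pet gaps) : N = N' := by
  obtain ⟨s, hs, p, hp, hc⟩ := h.mem_B0.1 hB
  obtain ⟨s', hs', p', hp', hc'⟩ := h.mem_B0.1 hB'
  rcases hc with ⟨hg, he⟩ | ⟨hg, he⟩ <;> rcases hc' with ⟨hg', he'⟩ | ⟨hg', he'⟩ <;>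
    rw [Prod.mk.injEq] at he he'
  · obtain ⟨n, hI, _⟩ := h.tip_left hp hg
    obtain ⟨k, hI', _⟩ := h.tip_left hp' hg'
    rw [← he.2] at hI
    rw [← he'.2] at hI'
    obtain ⟨rfl, _, e3⟩ := hI.uniq h.bc hs hs' hI'
    obtain ⟨z1, z2, z3⟩ := h.size hp
    obtain ⟨y1, y2, y3⟩ := h.size hp'
    have hpp : p = p' := by
      by_contra hne
      rcases h.sepa hp hp' hne with ⟨e1, _⟩ | ⟨e1, _⟩ <;> omega
    rw [he.1, he'.1, hpp]
  · obtain ⟨n, hI, hq⟩ := h.tip_left hp hg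
    obtain ⟨k, hI', _⟩ := h.tip_right hp' hg'
    rw [← he.2] at hI
    rw [← he'.2] at hI'
    obtain ⟨rfl, e2, e3⟩ := hI.uniq h.bc hs hs' hI'
    exact (nfe_lr h hp hp' hI e2 hq).elim
  · obtain ⟨n, hI, _⟩ := h.tip_right hp hg
    obtain ⟨k, hI', hq⟩ := h.tip_left hp' hg'
    rw [← he.2] at hI
    rw [← he'.2] at hI'
    obtain ⟨rfl, e2, e3⟩ := hI'.uniq h.bc hs' hs hI
    exact (nfe_lr h hp' hp hI' e2 hq).elim
  · obtain ⟨n, hI, _⟩ := h.tip_right hp hg
    obtain ⟨k, hI', _⟩ := h.tip_right hp' hg'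
    rw [← he.2] at hI
    rw [← he'.2] at hI'
    obtain ⟨rfl, e2, _⟩ := hI.uniq h.bc hs hs' hI'
    obtain ⟨z1, z2, z3⟩ := h.size hp
    obtain ⟨y1, y2, y3⟩ := h.size hp'
    have hpp : p = p' := by
      by_contra hne
      rcases h.sepa hp hp' hne with ⟨e1, _⟩ | ⟨e1, _⟩ <;> omega
    rw [he.1, he'.1, hpp]

theorem PS.b_ne (h : PS P C Bs lab pet gaps) {N N' w w' : Pt}
    (hB : (N, w) ∈ B0f P C lab pet gaps) (hB' : (N', w') ∈ B0f P C lab pet gaps) : N ≠ w' := by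
  intro he
  obtain ⟨s, p, hnr, _⟩ := h.b_nr hB
  rw [he] at hnr
  exact h.tip_not hB' s p hnr.1

/-- the added vertex of a step is not the dropped vertex of the next step of the other kind -/
private theorem nfe_ad_dr (h : BC P C Bs lab) {s : Pt × Pt} (hs : s ∈ starts P C lab) {g : ℕ}
    (hg : g + 1 < len C lab s) (hne : ltr C lab s g ≠ ltr C lab s (g + 1)) :
    ad C lab s g ≠ dr C lab s (g + 1) := by
  intro hc
  obtain ⟨l1, l2⟩ := it_lab h (s := s) (n := g + 1) hg.le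
  have hl : lab s.1 ≠ lab s.2 := by
    unfold starts at hs
    simp only [Finset.mem_filter, Finset.mem_product] at hs
    exact hs.2.1.ne
  unfold ad dr at hc
  rcases Bool.eq_false_or_eq_true (ltr C lab s g) with h1 | h1 <;>
  rcases Bool.eq_false_or_eq_true (ltr C lab s (g + 1)) with h2 | h2
  · exact hne (h1.trans h2.symm)
  · rw [if_pos h1, if_neg (by rw [h2]; exact Bool.false_ne_true)] at hc
    rw [hc] at l1
    exact hl (l1.symm.trans l2)
  · rw [if_neg (by rw [h1]; exact Bool.false_ne_true), if_pos h2] at hc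
    rw [hc] at l2
    exact hl (l1.symm.trans l2)
  · exact hne (h1.trans h2.symm)

/-- the vertices of the gap triangles -/
theorem PS.g0_in (h : PS P C Bs lab pet gaps) {t : Finset Pt} (ht : t ∈ G0f P C lab gaps)
    {v : Pt} (hv : v ∈ t) : ∃ s p, NR P C lab pet gaps s p v ∧
      ((p.2 ∈ gaps s ∧ AtC C lab s p.2 v) ∨ (GapL gaps s p ∧ AtC C lab s p.1 v)) := by
  obtain ⟨s, hs, g, hg, he⟩ := h.mem_G0.1 ht
  obtain ⟨⟨p, hp, hpg⟩, ⟨q, hq, hqg, hql⟩, hne, h4, h6⟩ := h.gap hg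
  have h0 : AtC C lab s g v → ∃ s p, NR P C lab pet gaps s p v ∧
      ((p.2 ∈ gaps s ∧ AtC C lab s p.2 v) ∨ (GapL gaps s p ∧ AtC C lab s p.1 v)) := by
    intro ha
    have h1 : p.2 ∈ gaps s ∧ AtC C lab s p.2 v := by rw [hpg]; exact ⟨hg, ha⟩
    exact ⟨s, p, h.gap_nr hs hp (Or.inl h1), Or.inl h1⟩
  have h2 : AtC C lab s (g + 2) v → ∃ s p, NR P C lab pet gaps s p v ∧
      ((p.2 ∈ gaps s ∧ AtC C lab s p.2 v) ∨ (GapL gaps s p ∧ AtC C lab s p.1 v)) := by
    intro ha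
    have h1 : GapL gaps s q ∧ AtC C lab s q.1 v := by rw [hqg]; exact ⟨hql, ha⟩
    exact ⟨s, q, h.gap_nr hs hq (Or.inr h1), Or.inr h1⟩
  have h1 : AtC C lab s (g + 1) v → ∃ s p, NR P C lab pet gaps s p v ∧
      ((p.2 ∈ gaps s ∧ AtC C lab s p.2 v) ∨ (GapL gaps s p ∧ AtC C lab s p.1 v)) := by
    intro ha
    rcases (at_succ_iff h.bc (s := s) (n := g) (by omega)).1 ha with k | k
    · exact h0 ((at_iff h.bc (by omega)).2 (Or.inr k))
    · rcases (at_iff h.bc (s := s) (n := g + 1) (by omega)).1 ha with k' | k'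
      · exact absurd (k.symm.trans k') (nfe_ad_dr h.bc hs (by omega) hne)
      · exact h2 ((at_succ_iff h.bc (by omega)).2 (Or.inl k'))
  rcases he with rfl | rfl
  · rcases mem_tr_iff.1 hv with k | k
    · exact h0 k
    · exact h1 k
  · rcases mem_tr_iff.1 hv with k | k
    · exact h1 k
    · exact h2 k

theorem PS.b_tip (h : PS P C Bs lab pet gaps) {N w : Pt} (hB : (N, w) ∈ B0f P C lab pet gaps) :
    ∀ t ∈ E0f P C lab pet, w ∉ t := by
  intro t ht hw
  obtain ⟨s, hs, p, hp, n, h1, h2, rfl⟩ := h.mem_E0.1 ht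
  rcases mem_tr_iff.1 hw with k | k
  · exact h.tip_not hB s p ⟨hs, hp, n, h1, h2.le, k⟩
  · exact h.tip_not hB s p ⟨hs, hp, n + 1, by omega, by omega, k⟩

theorem PS.b_e0 (h : PS P C Bs lab pet gaps) {N w : Pt} (hB : (N, w) ∈ B0f P C lab pet gaps) :
    ∃ t ∈ E0f P C lab pet, N ∈ t := by
  obtain ⟨s, p, hnr, _⟩ := h.b_nr hB
  obtain ⟨hs, hp, j, h1, h2, ha⟩ := hnr.1
  obtain ⟨z1, z2, z3⟩ := h.size hp
  by_cases hj : j < p.2
  · exact ⟨_, h.mem_E0.2 ⟨s, hs, p, hp, j, h1, hj, rfl⟩, mem_tr_iff.2 (Or.inl ha)⟩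
  · refine ⟨_, h.mem_E0.2 ⟨s, hs, p, hp, j - 1, by omega, by omega, rfl⟩, mem_tr_iff.2 (Or.inr ?_)⟩
    rw [show j - 1 + 1 = j by omega]
    exact ha

theorem PS.b_cl (h : PS P C Bs lab pet gaps) {N w : Pt} (hB : (N, w) ∈ B0f P C lab pet gaps) :
    (N, w) ∉ Cl0f P C lab pet := by
  intro hc
  rcases h.mem_Cl0.1 hc with k | k | ⟨t, ht, k | k⟩
  · exact (h.tip_hull hB N).2 k
  · exact (h.tip_hull hB N).1 k
  · exact h.b_tip hB t ht k.2.1
  · exact h.b_tip hB t ht k.1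

theorem PS.b_gap (h : PS P C Bs lab pet gaps) {N w : Pt} (hB : (N, w) ∈ B0f P C lab pet gaps) :
    ∀ t ∈ G0f P C lab gaps, N ∉ t ∧ w ∉ t := by
  intro t ht
  constructor
  · intro hN
    obtain ⟨s, p, hnr, hc⟩ := h.b_nr hB
    obtain ⟨s', p', hnr', hc'⟩ := h.g0_in ht hN
    obtain ⟨rfl, rfl⟩ := h.uniq hnr hnr'.1
    obtain ⟨hs, hp, _⟩ := hnr.1
    obtain ⟨z1, z2, z3⟩ := h.size hp
    rcases hc with ⟨c1, c2⟩ | ⟨c1, c2⟩ <;> rcases hc' with ⟨d1, d2⟩ | ⟨d1, d2⟩
    · rcases h.type hp with ⟨_, t2, _⟩ | ⟨_, _, _, t4⟩ | ⟨_, t2, _⟩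
      · exact t2 d1
      · obtain ⟨k, _, k1, k2, k3, k4, _⟩ := t4 (ltr C lab s (p.1 - 1))
        obtain ⟨n', hI⟩ := inr_of_later h.bc (s := s) (n := p.1 - 1)
          ⟨k, by omega, by omega, k4⟩
        have hlt := hI.lt
        rw [c2] at d2
        have h1 := (hI.at_iff h.bc hs (j := p.2) (by omega)).1 d2
        exact hI.btw k (by omega) (by omega) k4
      · exact t2 d1
    · exact c1 d1
    · exact c1 d1
    · rcases h.type hp with ⟨t1, _⟩ | ⟨t1, _⟩ | ⟨_, _, _, t4⟩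
      · exact t1 d1
      · exact t1 d1
      · obtain ⟨k, _, k1, k2, k3, k4, _⟩ := t4 (ltr C lab s p.2)
        obtain ⟨n, hI⟩ := inr_of_earlier h.bc (s := s) (n' := p.2) (by omega)
          ⟨k, by omega, by omega, k4⟩
        have hlt := hI.lt
        rw [c2] at d2
        have h1 := (hI.at_iff h.bc hs (j := p.1) (by omega)).1 d2
        exact hI.btw k (by omega) (by omega) (k4.trans hI.same)
  · intro hw
    obtain ⟨s, p, hnr, _⟩ := h.g0_in ht hw
    exact h.tip_not hB s p hnr.1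

theorem PS.tip (h : PS P C Bs lab pet gaps) {N w : Pt} (hB : (N, w) ∈ B0f P C lab pet gaps) :
    (N, w) ∈ M0f P C lab pet gaps ∧ ∀ v, (w, v) ∈ M0f P C lab pet gaps → v = N := by
  refine ⟨h.mem_M0.2 (Or.inr (Or.inr (Or.inl hB))), ?_⟩
  intro v hv
  rcases h.mem_M0.1 hv with k | ⟨t, ht, k | k⟩ | k | k
  · rcases h.mem_Cl0.1 k with k | k | ⟨t, ht, k | k⟩
    · exact absurd k (h.tip_hull hB v).1
    · exact absurd k (h.tip_hull hB v).2
    · exact absurd k.1 (h.b_tip hB t ht)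
    · exact absurd k.2.1 (h.b_tip hB t ht)
  · exact absurd k.1 (h.b_gap hB t ht).2
  · exact absurd k.2.1 (h.b_gap hB t ht).2
  · exact absurd rfl (h.b_ne k hB)
  · exact (h.b_inj hB k).symm

theorem PS.tipN (h : PS P C Bs lab pet gaps) {N w : Pt} (hB : (N, w) ∈ B0f P C lab pet gaps) :
    Res (M0f P C lab pet gaps) N ∧ ∀ b, ¬ HE P N b ∧ ¬ HE P b N := by
  obtain ⟨s, p, hnr, _⟩ := h.b_nr hB
  exact ⟨h.res hnr, h.hv hnr⟩

end Pool.Agent.RFX

end

section

set_option autoImplicit false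

/-!
# RFX/NFGap : the gaps of the normal form, condition (star) (MP_72a26e_co)

Notation: the gap `g` of the strip `s` lies between the petals `p`, `q` (`p.2 = g`, `q.1 = g + 2`, `PS.gap`), `x_j = (it s j).1`,
`y_j = (it s j).2`; `(g1, g2, g3, g4) = (y_g, x_g, y_(g+2), x_(g+2))`.
PROOFS. `gap_cases`: `ltr g ≠ ltr (g+1)`; unfold `ltr`, `ad`, `dr`, `cm`, `Nx.cases` (`step_lt`) for the steps `g`, `g + 1`.
`gTri`: `gap_cases`; `tr` as a set of three elements (`trp`, repeated element), orientations from `Nx.cases` (rotated).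
`gAll`: `mem_G0`, `gTri`. `gCl`: `tr_he` for the triangle `g - 1` (petal `p`): side `x_g → y_g`; for the triangle `g + 2` (petal `q`):
side `y_(g+2) → x_(g+2)`. `gRes`: `gap_nr`, `PS.res`, `PS.hv`. `gNe`: labels (`it_lab`, `lab s.1 < lab s.2`) for an `x` and a `y`; `y_g ≠ y_(g+2)` and
`x_g ≠ x_(g+2)` by `gap_cases` (`ne3`: `dr ≠ ad`).
`gDisj`: a common vertex `v`: it is `NR` in one of the petals `p`, `q` of `s` and in one of the petals `p'`, `q'` of `s'`
(`gap_nr`); `PS.uniq`: `s = s'` and these petals are equal; `p = p'`: `g = p.2 = p'.2 = g'`; `q = q'`: the same with `q.1`; `p = q'` is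
impossible: `GapL` for `q'`, `p.2 ∈ gaps s` (`PS.type`).
`not_free_left`: `tr_body`: behind the body side of the triangle `n` is a body `A`; a cell with the same directed side as
`A` is `A` (`Cx.side_unique`), and `A ∉ E0 ∪ G0` (`mem_E0`, `mem_G0`, `tr_not_body`).
`gOpen`: let `ltr g = true`, `ltr (g+1) = false`: `y_(g+1) = y_g`, the triangle `g + 1` has `dr = y_g`, `ad = y_(g+2)`, the body behind has the side
`dr → ad = g1 → g3`; the triangle `g` has `dr = x_g`, `ad = x_(g+1) = x_(g+2)`, the body behind has the side `ad → dr = g4 → g2`.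
The other case is the same with `g` and `g + 1` exchanged. So `body_side` gives: no triangle of `E0 ∪ G0` has this dart as a side;
`HE P _ _` is false by `gRes`. The darts are in `M0f` as sides of gap triangles. Not in `Cl0f`: not hull (`gRes`), no triangle of `E0f`
has the side in this direction (above), the reverse side belongs to the gap triangle only (`Cx.side_unique`), which is
not in `E0f` (`PS.disj`).
`sp`: `Sp v` (special): `b_nr` resp. `g0_in`. `star`: suppose `(a, b) ∈ Cl0f` is free and `a`, `b` are special. Special vertices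
are not hull vertices (`PS.hv`), so `(a, b)` or `(b, a)` is a side of a petal triangle `t = tr s n`, `p.1 ≤ n < p.2`. `a`, `b` are
`InPet` in `p`, and `NR` in some petals by `sp`, so by `PS.uniq` these petals are `p`: `a`, `b` are `NR s p`, and special in `p`:
`a` is `ad (p.1-1)` (`¬ GapL`) or `dr p.2` (`p.2 ∉ gaps`) or at the position `p.2` (`p.2 ∈ gaps`) or at `p.1` (`GapL`). By `tr_he`
`{a, b}` is the cross edge number `j = n` or `j = n + 1`, or `{dr n, ad n}`.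
CROSS EDGE: if `p.1 < j < p.2` then both directions are sides of petal triangles (`j - 1`, `j`), not free. If `j = p.1` and
`¬ GapL`: by `left_end` one of `a`, `b` is the root, which is not `NR`. If `j = p.1` and `GapL` then `x_j → y_j` is a side of the
triangle `j - 1 = g + 1` (`G0f`) and `y_j → x_j` of the triangle `j` (`E0f`): not free. `j = p.2` in the same way.
BODY EDGE: fan (type (1)): special are `ad (p.1-1)` and `dr p.2 = ad (p.2-1)` only; `dr n = ad (n-1)` and `ad n` for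
`p.1 ≤ n < p.2`; the points `ad (k)`, `p.1 - 1 ≤ k < p.2`, are interior with `Inr k (k+1)` (all letters equal), so
different (`Inr.uniq`); so `{ad (n-1), ad n} = {ad (p.1-1), ad (p.2-1)}` gives `p.2 ≤ p.1 + 1`, but `p.1 + 2 ≤ p.2`.
Type (2): special are `ad (p.1-1)` and the ends at `p.2`. `dr n` is interior (`PS.inr`), at the position `n`, but not at `n + 1`
(`at_succ_iff`, `ne3`), so not at `p.2` (`Inr.at_iff`); so `dr n = ad (p.1-1)`, i.e. (`Inr.uniq`) `Inr s (p.1-1) n (dr n)`: no letter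
`c = ltr n` in `[p.1, n)` (`Inr.btw`, `Inr.same`). `ad n ≠ dr n`, so `ad n` is at `p.2`; it is `Inr s n n'` with `n' ≥ p.2`: no letter `c` in
`[n + 1, p.2)`. So `c` occurs only once in `[p.1, p.2)`, against `Occ2`. Type (3): mirror image.
-/

namespace Pool.Agent.RFX

open Pool.Agent.RFT

variable {P : Finset Pt} {C Bs : Finset (Finset Pt)} {lab : Pt → ℕ}
  {pet : Pt × Pt → Finset (ℕ × ℕ)} {gaps : Pt × Pt → Finset ℕ}

/-- the two cases of a step -/
private theorem gp_stp (h : BC P C Bs lab) {s : Pt × Pt} {n : ℕ} (hn : n < len C lab s) :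
    (ltr C lab s n = true ∧ (it C lab s (n + 1)).2 = (it C lab s n).2 ∧
      0 < orient (it C lab s n).1 (it C lab s (n + 1)).1 (it C lab s n).2 ∧
      tr C lab s n = {(it C lab s n).1, (it C lab s (n + 1)).1, (it C lab s n).2} ∧
      dr C lab s n = (it C lab s n).1 ∧ ad C lab s n = (it C lab s (n + 1)).1 ∧
      cm C lab s n = (it C lab s n).2) ∨
    (ltr C lab s n = false ∧ (it C lab s (n + 1)).1 = (it C lab s n).1 ∧
      0 < orient (it C lab s n).1 (it C lab s (n + 1)).2 (it C lab s n).2 ∧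
      tr C lab s n = {(it C lab s n).1, (it C lab s (n + 1)).2, (it C lab s n).2} ∧
      dr C lab s n = (it C lab s n).2 ∧ ad C lab s n = (it C lab s (n + 1)).2 ∧
      cm C lab s n = (it C lab s n).1) := by
  classical
  rcases (step_lt h hn).cases with ⟨h1, _, _, h4⟩ | ⟨h1, h2, _, h4⟩
  · have hl : ltr C lab s n = true := by
      unfold ltr
      exact decide_eq_true h1
    refine Or.inl ⟨hl, h1, h4, ?_, ?_, ?_, ?_⟩
    · unfold tr trp
      rw [h1]
      ext x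
      simp only [Finset.mem_insert, Finset.mem_singleton]
      tauto
    · unfold dr; rw [if_pos hl]
    · unfold ad; rw [if_pos hl]
    · unfold cm; rw [if_pos hl]
  · have hl : ltr C lab s n = false := by
      unfold ltr
      exact decide_eq_false h2
    have hl' : ¬ (ltr C lab s n = true) := by rw [hl]; exact Bool.false_ne_true
    refine Or.inr ⟨hl, h1, h4, ?_, ?_, ?_, ?_⟩
    · unfold tr trp
      rw [h1]
      ext x
      simp only [Finset.mem_insert, Finset.mem_singleton]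
      tauto
    · unfold dr; rw [if_neg hl']
    · unfold ad; rw [if_neg hl']
    · unfold cm; rw [if_neg hl']

private theorem gp_rot (a b c : Pt) : orient a b c = orient b c a := by
  unfold orient
  ring

private theorem gp_lab (h : BC P C Bs lab) {s : Pt × Pt} (hs : s ∈ starts P C lab) {n m : ℕ}
    (hn : n ≤ len C lab s) (hm : m ≤ len C lab s) : (it C lab s n).1 ≠ (it C lab s m).2 := by
  intro hc
  have l1 := (it_lab h hn).1
  have l2 := (it_lab h hm).2
  rw [hc, l2] at l1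
  unfold starts at hs
  simp only [Finset.mem_filter, Finset.mem_product] at hs
  exact absurd l1 hs.2.1.ne'

private theorem gp_inr_ad (h : BC P C Bs lab) {s : Pt × Pt} (hs : s ∈ starts P C lab)
    {m m' k : ℕ} {v : Pt} (hI : Inr C lab s m m' v) (hk : k < len C lab s)
    (hv : v = ad C lab s k) : m = k := by
  have h1 := (hI.at_iff h hs (j := k + 1) (by omega)).1 ((at_succ_iff h hk).2 (Or.inr hv))
  have h2 : ¬ AtC C lab s k v := by
    intro hc
    obtain ⟨_, n2, n3⟩ := ne3 h hk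
    rcases (at_iff h hk).1 hc with h3 | h3
    · exact n2 (h3.symm.trans hv)
    · exact n3 (h3.symm.trans hv)
  have h3 : ¬ (m < k ∧ k ≤ m') := fun hc => h2 ((hI.at_iff h hs hk.le).2 hc)
  omega

private theorem gp_inr_dr (h : BC P C Bs lab) {s : Pt × Pt} (hs : s ∈ starts P C lab)
    {m m' k : ℕ} {v : Pt} (hI : Inr C lab s m m' v) (hk : k < len C lab s)
    (hv : v = dr C lab s k) : m' = k := by
  have h1 := (hI.at_iff h hs (j := k) hk.le).1 ((at_iff h hk).2 (Or.inl hv))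
  have h2 : ¬ AtC C lab s (k + 1) v := by
    intro hc
    obtain ⟨n1, n2, _⟩ := ne3 h hk
    rcases (at_succ_iff h hk).1 hc with h3 | h3
    · exact n1 (hv.symm.trans h3)
    · exact n2 (hv.symm.trans h3)
  have h3 : ¬ (m < k + 1 ∧ k + 1 ≤ m') := fun hc => h2 ((hI.at_iff h hs (by omega)).2 hc)
  omega

theorem PS.gap_cases (h : PS P C Bs lab pet gaps) {s : Pt × Pt} {g : ℕ} (hg : g ∈ gaps s) :
    (ltr C lab s g = true ∧ ltr C lab s (g + 1) = false ∧
      dr C lab s g = (it C lab s g).1 ∧ ad C lab s g = (it C lab s (g + 2)).1 ∧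
      cm C lab s g = (it C lab s g).2 ∧
      dr C lab s (g + 1) = (it C lab s g).2 ∧ ad C lab s (g + 1) = (it C lab s (g + 2)).2 ∧
      cm C lab s (g + 1) = (it C lab s (g + 2)).1) ∨
    (ltr C lab s g = false ∧ ltr C lab s (g + 1) = true ∧
      dr C lab s g = (it C lab s g).2 ∧ ad C lab s g = (it C lab s (g + 2)).2 ∧
      cm C lab s g = (it C lab s g).1 ∧
      dr C lab s (g + 1) = (it C lab s g).1 ∧ ad C lab s (g + 1) = (it C lab s (g + 2)).1 ∧
      cm C lab s (g + 1) = (it C lab s (g + 2)).2) := by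
  obtain ⟨_, _, hne, _, hl⟩ := h.gap hg
  rcases gp_stp h.bc (s := s) (n := g) (by omega) with
    ⟨a1, a2, _, _, a5, a6, a7⟩ | ⟨a1, a2, _, _, a5, a6, a7⟩ <;>
  rcases gp_stp h.bc (s := s) (n := g + 1) (by omega) with
    ⟨b1, b2, _, _, b5, b6, b7⟩ | ⟨b1, b2, _, _, b5, b6, b7⟩
  · exact absurd (a1.trans b1.symm) hne
  · refine Or.inl ⟨a1, b1, a5, ?_, a7, ?_, b6, ?_⟩
    · rw [a6]; exact b2.symm
    · rw [b5]; exact a2
    · rw [b7]; exact b2.symm
  · refine Or.inr ⟨a1, b1, a5, ?_, a7, ?_, b6, ?_⟩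
    · rw [a6]; exact b2.symm
    · rw [b5]; exact a2
    · rw [b7]; exact b2.symm
  · exact absurd (a1.trans b1.symm) hne

private theorem gp_e0 (h : PS P C Bs lab pet gaps) {t : Finset Pt} (ht : t ∈ E0f P C lab pet) :
    t ∈ C ∧ t ∉ Bs := by
  obtain ⟨s, _, p, hp, n, _, h2, rfl⟩ := h.mem_E0.1 ht
  have hsz := h.size hp
  exact ⟨(tr_mem h.bc (s := s) (n := n) (by omega)).1, tr_not_body h.bc (by omega)⟩

private theorem gp_g0 (h : PS P C Bs lab pet gaps) {t : Finset Pt} (ht : t ∈ G0f P C lab gaps) :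
    t ∈ C ∧ t ∉ Bs := by
  obtain ⟨s, _, g, hg, ht'⟩ := h.mem_G0.1 ht
  obtain ⟨_, _, _, _, hl⟩ := h.gap hg
  rcases ht' with rfl | rfl
  · exact ⟨(tr_mem h.bc (s := s) (n := g) (by omega)).1, tr_not_body h.bc (by omega)⟩
  · exact ⟨(tr_mem h.bc (s := s) (n := g + 1) (by omega)).1, tr_not_body h.bc (by omega)⟩

/-- no triangle of the normal form has the side of the body -/
theorem PS.body_side (h : PS P C Bs lab pet gaps) {A : Finset Pt} (hA : A ∈ Bs) {a b : Pt}
    (hab : HE A a b) : ∀ t ∈ E0f P C lab pet ∪ G0f P C lab gaps, ¬ HE t a b := by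
  classical
  intro t ht hc
  have h1 : t ∈ C ∧ t ∉ Bs := by
    rcases Finset.mem_union.1 ht with ht | ht
    · exact gp_e0 h ht
    · exact gp_g0 h ht
  have h2 := h.bc.full.cx.side_unique h1.1 (h.bc.sub hA) hc hab
  exact h1.2 (by rw [h2]; exact hA)

private theorem gp_tri (h : PS P C Bs lab pet gaps) {s : Pt × Pt} {g : ℕ} (hg : g ∈ gaps s) :
    GapTri (it C lab s g).2 (it C lab s g).1 (it C lab s (g + 2)).2 (it C lab s (g + 2)).1
      (tr C lab s g) (tr C lab s (g + 1)) := by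
  obtain ⟨_, _, hne, _, hl⟩ := h.gap hg
  rcases gp_stp h.bc (s := s) (n := g) (by omega) with
    ⟨a1, a2, a3, a4, _⟩ | ⟨a1, a2, a3, a4, _⟩ <;>
  rcases gp_stp h.bc (s := s) (n := g + 1) (by omega) with
    ⟨b1, b2, b3, b4, _⟩ | ⟨b1, b2, b3, b4, _⟩
  · exact absurd (a1.trans b1.symm) hne
  · have b2' : (it C lab s (g + 1)).1 = (it C lab s (g + 2)).1 := b2.symm
    rw [a2, b2'] at b3 b4
    rw [b2'] at a3 a4
    refine Or.inr ⟨?_, ?_, ?_, ?_⟩
    · rw [gp_rot]; exact a3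
    · rw [gp_rot]; exact b3
    · rw [a4]
      ext x
      simp only [Finset.mem_insert, Finset.mem_singleton]
      tauto
    · rw [b4]
      ext x
      simp only [Finset.mem_insert, Finset.mem_singleton]
      tauto
  · have b2' : (it C lab s (g + 1)).2 = (it C lab s (g + 2)).2 := b2.symm
    rw [a2, b2'] at b3 b4
    rw [b2'] at a3 a4
    refine Or.inl ⟨?_, ?_, ?_, ?_⟩
    · rw [gp_rot]; exact a3
    · rw [gp_rot]; exact b3
    · rw [a4]
      ext x
      simp only [Finset.mem_insert, Finset.mem_singleton]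
      tauto
    · rw [b4]
      ext x
      simp only [Finset.mem_insert, Finset.mem_singleton]
      tauto
  · exact absurd (a1.trans b1.symm) hne

theorem PS.gTri (h : PS P C Bs lab pet gaps) : ∀ g1 g2 g3 g4, (g1, g2, g3, g4) ∈ Gpf P C lab gaps →
    ∃ t ∈ G0f P C lab gaps, ∃ t' ∈ G0f P C lab gaps, GapTri g1 g2 g3 g4 t t' := by
  intro g1 g2 g3 g4 hq
  obtain ⟨s, hs, g, hg, he⟩ := h.mem_Gp.1 hq
  simp only [Prod.mk.injEq] at he
  obtain ⟨rfl, rfl, rfl, rfl⟩ := he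
  exact ⟨_, h.mem_G0.2 ⟨s, hs, g, hg, Or.inl rfl⟩, _, h.mem_G0.2 ⟨s, hs, g, hg, Or.inr rfl⟩,
    gp_tri h hg⟩

theorem PS.gAll (h : PS P C Bs lab pet gaps) : ∀ t ∈ G0f P C lab gaps, ∃ g1 g2 g3 g4 t',
    (g1, g2, g3, g4) ∈ Gpf P C lab gaps ∧
    (GapTri g1 g2 g3 g4 t t' ∨ GapTri g1 g2 g3 g4 t' t) := by
  intro t ht
  obtain ⟨s, hs, g, hg, ht'⟩ := h.mem_G0.1 ht
  rcases ht' with rfl | rfl
  · exact ⟨_, _, _, _, _, h.mem_Gp.2 ⟨s, hs, g, hg, rfl⟩, Or.inl (gp_tri h hg)⟩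
  · exact ⟨_, _, _, _, _, h.mem_Gp.2 ⟨s, hs, g, hg, rfl⟩, Or.inr (gp_tri h hg)⟩

theorem PS.gCl (h : PS P C Bs lab pet gaps) : ∀ g1 g2 g3 g4, (g1, g2, g3, g4) ∈ Gpf P C lab gaps →
    (∃ t ∈ E0f P C lab pet, HE t g2 g1) ∧ ∃ t ∈ E0f P C lab pet, HE t g3 g4 := by
  intro g1 g2 g3 g4 hq
  obtain ⟨s, hs, g, hg, he⟩ := h.mem_Gp.1 hq
  simp only [Prod.mk.injEq] at he
  obtain ⟨rfl, rfl, rfl, rfl⟩ := he
  obtain ⟨⟨p, hp, hpg⟩, ⟨q, hq, hqg, _⟩, _, hg4, hl⟩ := h.gap hg
  have hps := h.size hp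
  have hqs := h.size hq
  constructor
  · refine ⟨tr C lab s (g - 1), h.mem_E0.2 ⟨s, hs, p, hp, g - 1, by omega, by omega, rfl⟩, ?_⟩
    have h1 := (tr_he h.bc (s := s) (n := g - 1) (by omega)
      (a := (it C lab s (g - 1 + 1)).1) (b := (it C lab s (g - 1 + 1)).2)).2
      (Or.inr (Or.inl ⟨rfl, rfl⟩))
    rw [show g - 1 + 1 = g by omega] at h1
    exact h1
  · refine ⟨tr C lab s (g + 2), h.mem_E0.2 ⟨s, hs, q, hq, g + 2, by omega, by omega, rfl⟩, ?_⟩
    exact (tr_he h.bc (s := s) (n := g + 2) (by omega)).2 (Or.inl ⟨rfl, rfl⟩)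

/-- the vertices of a gap -/
private theorem gp_nr (h : PS P C Bs lab pet gaps) {s : Pt × Pt} (hs : s ∈ starts P C lab)
    {g : ℕ} (hg : g ∈ gaps s) {v : Pt}
    (hv : v = (it C lab s g).2 ∨ v = (it C lab s g).1 ∨ v = (it C lab s (g + 2)).2 ∨
      v = (it C lab s (g + 2)).1) :
    (∃ p ∈ pet s, p.2 = g ∧ NR P C lab pet gaps s p v) ∨
      ∃ q ∈ pet s, q.1 = g + 2 ∧ GapL gaps s q ∧ NR P C lab pet gaps s q v := by
  obtain ⟨⟨p, hp, hpg⟩, ⟨q, hq, hqg, hqL⟩, _, _, _⟩ := h.gap hg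
  have h1 : (AtC C lab s g v) ∨ AtC C lab s (g + 2) v := by
    unfold AtC
    tauto
  rcases h1 with h1 | h1
  · refine Or.inl ⟨p, hp, hpg, h.gap_nr hs hp (Or.inl ⟨?_, ?_⟩)⟩
    · rw [hpg]; exact hg
    · rw [hpg]; exact h1
  · refine Or.inr ⟨q, hq, hqg, hqL, h.gap_nr hs hq (Or.inr ⟨hqL, ?_⟩)⟩
    rw [hqg]; exact h1

theorem PS.gRes (h : PS P C Bs lab pet gaps) : ∀ g1 g2 g3 g4, (g1, g2, g3, g4) ∈ Gpf P C lab gaps →
    ∀ v, v = g1 ∨ v = g2 ∨ v = g3 ∨ v = g4 →
    Res (M0f P C lab pet gaps) v ∧ ∀ b, ¬ HE P v b ∧ ¬ HE P b v := by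
  intro g1 g2 g3 g4 hq v hv
  obtain ⟨s, hs, g, hg, he⟩ := h.mem_Gp.1 hq
  simp only [Prod.mk.injEq] at he
  obtain ⟨rfl, rfl, rfl, rfl⟩ := he
  rcases gp_nr h hs hg hv with ⟨p, _, _, hN⟩ | ⟨p, _, _, _, hN⟩
  · exact ⟨h.res hN, h.hv hN⟩
  · exact ⟨h.res hN, h.hv hN⟩

theorem PS.gNe (h : PS P C Bs lab pet gaps) : ∀ g1 g2 g3 g4, (g1, g2, g3, g4) ∈ Gpf P C lab gaps →
    g1 ≠ g2 ∧ g1 ≠ g3 ∧ g1 ≠ g4 ∧ g2 ≠ g3 ∧ g2 ≠ g4 ∧ g3 ≠ g4 := by
  intro g1 g2 g3 g4 hq
  obtain ⟨s, hs, g, hg, he⟩ := h.mem_Gp.1 hq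
  simp only [Prod.mk.injEq] at he
  obtain ⟨rfl, rfl, rfl, rfl⟩ := he
  obtain ⟨_, _, _, _, hl⟩ := h.gap hg
  have n1 := (ne3 h.bc (s := s) (n := g) (by omega)).2.1
  have n2 := (ne3 h.bc (s := s) (n := g + 1) (by omega)).2.1
  refine ⟨(gp_lab h.bc hs (by omega) (by omega)).symm, ?_,
    (gp_lab h.bc hs (by omega) (by omega)).symm, gp_lab h.bc hs (by omega) (by omega), ?_,
    (gp_lab h.bc hs (by omega) (by omega)).symm⟩
  · rcases h.gap_cases hg with ⟨_, _, _, _, _, c6, c7, _⟩ | ⟨_, _, c3, c4, _⟩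
    · rw [c6, c7] at n2; exact n2
    · rw [c3, c4] at n1; exact n1
  · rcases h.gap_cases hg with ⟨_, _, c3, c4, _⟩ | ⟨_, _, _, _, _, c6, c7, _⟩
    · rw [c3, c4] at n1; exact n1
    · rw [c6, c7] at n2; exact n2

theorem PS.gDisj (h : PS P C Bs lab pet gaps) : ∀ g1 g2 g3 g4 h1 h2 h3 h4,
    (g1, g2, g3, g4) ∈ Gpf P C lab gaps → (h1, h2, h3, h4) ∈ Gpf P C lab gaps →
    (∃ v, (v = g1 ∨ v = g2 ∨ v = g3 ∨ v = g4) ∧ (v = h1 ∨ v = h2 ∨ v = h3 ∨ v = h4)) →
    g1 = h1 ∧ g2 = h2 ∧ g3 = h3 ∧ g4 = h4 := by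
  intro g1 g2 g3 g4 h1 h2 h3 h4 hq hq' hv
  obtain ⟨s, hs, g, hg, he⟩ := h.mem_Gp.1 hq
  obtain ⟨s', hs', g', hg', he'⟩ := h.mem_Gp.1 hq'
  simp only [Prod.mk.injEq] at he he'
  obtain ⟨rfl, rfl, rfl, rfl⟩ := he
  obtain ⟨rfl, rfl, rfl, rfl⟩ := he'
  obtain ⟨v, hv1, hv2⟩ := hv
  have key : s = s' ∧ g = g' := by
    rcases gp_nr h hs hg hv1 with ⟨p, hp, hpg, hN⟩ | ⟨p, hp, hpg, hpL, hN⟩ <;>
    rcases gp_nr h hs' hg' hv2 with ⟨q, hq, hqg, hN'⟩ | ⟨q, hq, hqg, hqL, hN'⟩ <;>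
    obtain ⟨rfl, rfl⟩ := h.uniq hN hN'.1
    · exact ⟨rfl, by omega⟩
    · exfalso
      rcases h.type hp with ⟨t1, _⟩ | ⟨t1, _⟩ | ⟨_, t2, _⟩
      · exact t1 hqL
      · exact t1 hqL
      · rw [hpg] at t2; exact t2 hg
    · exfalso
      rcases h.type hp with ⟨t1, _⟩ | ⟨t1, _⟩ | ⟨_, t2, _⟩
      · exact t1 hpL
      · exact t1 hpL
      · rw [hqg] at t2; exact t2 hg'
    · exact ⟨rfl, by omega⟩
  obtain ⟨rfl, rfl⟩ := key
  exact ⟨rfl, rfl, rfl, rfl⟩

/-- the body edge of a gap triangle -/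
private theorem gp_open (h : PS P C Bs lab pet gaps) {a b : Pt} {t A : Finset Pt}
    (ht : t ∈ G0f P C lab gaps) (hta : HE t b a) (hA : A ∈ Bs) (hAa : HE A a b)
    (hh : ∀ c, ¬ HE P a c ∧ ¬ HE P c a) :
    (a, b) ∉ Cl0f P C lab pet ∧
      FreeDart P (E0f P C lab pet ∪ G0f P C lab gaps) (M0f P C lab pet gaps) (a, b) := by
  have hb := h.body_side hA hAa
  constructor
  · intro hc
    rcases h.mem_Cl0.1 hc with h1 | h1 | ⟨t', ht', h1 | h1⟩
    · exact (hh b).1 h1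
    · exact (hh b).2 h1
    · exact hb t' (Finset.mem_union_left _ ht') h1
    · have h2 := h.bc.full.cx.side_unique (gp_e0 h ht').1 (gp_g0 h ht).1 h1 hta
      rw [h2] at ht'
      exact h.disj t ht ht'
  · exact ⟨h.mem_M0.2 (Or.inr (Or.inl ⟨t, ht, Or.inr hta⟩)), hb, (hh b).2⟩

theorem PS.gOpen (h : PS P C Bs lab pet gaps) : ∀ g1 g2 g3 g4,
    (g1, g2, g3, g4) ∈ Gpf P C lab gaps →
    (g1, g3) ∉ Cl0f P C lab pet ∧ (g4, g2) ∉ Cl0f P C lab pet ∧
    FreeDart P (E0f P C lab pet ∪ G0f P C lab gaps) (M0f P C lab pet gaps) (g1, g3) ∧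
    FreeDart P (E0f P C lab pet ∪ G0f P C lab gaps) (M0f P C lab pet gaps) (g4, g2) := by
  intro g1 g2 g3 g4 hq
  have hR := h.gRes g1 g2 g3 g4 hq
  obtain ⟨s, hs, g, hg, he⟩ := h.mem_Gp.1 hq
  simp only [Prod.mk.injEq] at he
  obtain ⟨rfl, rfl, rfl, rfl⟩ := he
  obtain ⟨_, _, _, _, hl⟩ := h.gap hg
  have m1 : tr C lab s g ∈ G0f P C lab gaps := h.mem_G0.2 ⟨s, hs, g, hg, Or.inl rfl⟩
  have m2 : tr C lab s (g + 1) ∈ G0f P C lab gaps := h.mem_G0.2 ⟨s, hs, g, hg, Or.inr rfl⟩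
  have r1 := (hR _ (Or.inl rfl)).2
  have r4 := (hR _ (Or.inr (Or.inr (Or.inr rfl)))).2
  have b1 := tr_body h.bc (s := s) (n := g) (by omega)
  have b2 := tr_body h.bc (s := s) (n := g + 1) (by omega)
  rcases h.gap_cases hg with ⟨c1, c2, c3, c4, _, c6, c7, _⟩ | ⟨c1, c2, c3, c4, _, c6, c7, _⟩
  · have s1 := (tr_he h.bc (s := s) (n := g) (by omega)).2
      (Or.inr (Or.inr (Or.inl ⟨c1, rfl, rfl⟩)))
    have s2 := (tr_he h.bc (s := s) (n := g + 1) (by omega)).2
      (Or.inr (Or.inr (Or.inr ⟨c2, rfl, rfl⟩)))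
    rw [c1, c3, c4] at b1
    rw [c2, c6, c7] at b2
    rw [c3, c4] at s1
    rw [c6, c7] at s2
    rcases b1 with ⟨_, A, hA, hA'⟩ | ⟨hc, _⟩
    · rcases b2 with ⟨hc, _⟩ | ⟨_, B, hB, hB'⟩
      · exact absurd hc Bool.false_ne_true
      · have k1 := gp_open h m2 s2 hB hB' r1
        have k2 := gp_open h m1 s1 hA hA' r4
        exact ⟨k1.1, k2.1, k1.2, k2.2⟩
    · exact absurd hc.symm Bool.false_ne_true
  · have s1 := (tr_he h.bc (s := s) (n := g) (by omega)).2
      (Or.inr (Or.inr (Or.inr ⟨c1, rfl, rfl⟩)))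
    have s2 := (tr_he h.bc (s := s) (n := g + 1) (by omega)).2
      (Or.inr (Or.inr (Or.inl ⟨c2, rfl, rfl⟩)))
    rw [c1, c3, c4] at b1
    rw [c2, c6, c7] at b2
    rw [c3, c4] at s1
    rw [c6, c7] at s2
    rcases b1 with ⟨hc, _⟩ | ⟨_, A, hA, hA'⟩
    · exact absurd hc Bool.false_ne_true
    · rcases b2 with ⟨_, B, hB, hB'⟩ | ⟨hc, _⟩
      · have k1 := gp_open h m1 s1 hA hA' r1
        have k2 := gp_open h m2 s2 hB hB' r4
        exact ⟨k1.1, k2.1, k1.2, k2.2⟩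
      · exact absurd hc.symm Bool.false_ne_true

/-- vertices of type N / gap -/
theorem PS.sp (h : PS P C Bs lab pet gaps) {a : Pt}
    (ha : (∃ w, (a, w) ∈ B0f P C lab pet gaps) ∨ ∃ t ∈ G0f P C lab gaps, a ∈ t) :
    ∃ s p, NR P C lab pet gaps s p a ∧
      ((¬ GapL gaps s p ∧ a = ad C lab s (p.1 - 1)) ∨ (p.2 ∉ gaps s ∧ a = dr C lab s p.2) ∨
        (p.2 ∈ gaps s ∧ AtC C lab s p.2 a) ∨ (GapL gaps s p ∧ AtC C lab s p.1 a)) := by
  rcases ha with ⟨w, hw⟩ | ⟨t, ht, hat⟩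
  · obtain ⟨s, p, h1, h2 | h2⟩ := h.b_nr hw
    · exact ⟨s, p, h1, Or.inl h2⟩
    · exact ⟨s, p, h1, Or.inr (Or.inl h2)⟩
  · obtain ⟨s, p, h1, h2 | h2⟩ := h.g0_in ht hat
    · exact ⟨s, p, h1, Or.inr (Or.inr (Or.inl h2))⟩
    · exact ⟨s, p, h1, Or.inr (Or.inr (Or.inr h2))⟩

/-- the two ends of a body edge of a petal are not both special -/
private theorem gp_body (h : PS P C Bs lab pet gaps) {s : Pt × Pt} (hs : s ∈ starts P C lab)
    {p : ℕ × ℕ} (hp : p ∈ pet s) {n : ℕ} (h1 : p.1 ≤ n) (h2 : n < p.2)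
    (hu : NR P C lab pet gaps s p (dr C lab s n)) (hw : NR P C lab pet gaps s p (ad C lab s n))
    (su : (¬ GapL gaps s p ∧ dr C lab s n = ad C lab s (p.1 - 1)) ∨
      (p.2 ∉ gaps s ∧ dr C lab s n = dr C lab s p.2) ∨
      (p.2 ∈ gaps s ∧ AtC C lab s p.2 (dr C lab s n)) ∨
      (GapL gaps s p ∧ AtC C lab s p.1 (dr C lab s n)))
    (sw : (¬ GapL gaps s p ∧ ad C lab s n = ad C lab s (p.1 - 1)) ∨
      (p.2 ∉ gaps s ∧ ad C lab s n = dr C lab s p.2) ∨
      (p.2 ∈ gaps s ∧ AtC C lab s p.2 (ad C lab s n)) ∨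
      (GapL gaps s p ∧ AtC C lab s p.1 (ad C lab s n))) : False := by
  have hsz := h.size hp
  obtain ⟨m, m1, hI, -, -⟩ := h.inr hu
  obtain ⟨m2, m', hJ, -, -⟩ := h.inr hw
  have e1 := gp_inr_dr h.bc hs hI (by omega) rfl
  have e2 := gp_inr_ad h.bc hs hJ (by omega) rfl
  rw [e1] at hI
  rw [e2] at hJ
  have hlt := hI.lt
  have hlt' := hJ.lt
  have hsame := hI.same
  -- positions
  have pu : ∀ j, j ≤ len C lab s → AtC C lab s j (dr C lab s n) → m < j ∧ j ≤ n :=
    fun j hj ha => (hI.at_iff h.bc hs hj).1 ha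
  have pw : ∀ j, j ≤ len C lab s → AtC C lab s j (ad C lab s n) → n < j ∧ j ≤ m' :=
    fun j hj ha => (hJ.at_iff h.bc hs hj).1 ha
  have au : dr C lab s n = ad C lab s (p.1 - 1) → m = p.1 - 1 :=
    fun he => gp_inr_ad h.bc hs hI (by omega) he
  have aw : ad C lab s n = ad C lab s (p.1 - 1) → n = p.1 - 1 :=
    fun he => gp_inr_ad h.bc hs hJ (by omega) he
  have du : dr C lab s n = dr C lab s p.2 → n = p.2 :=
    fun he => gp_inr_dr h.bc hs hI (by omega) he
  have dw : ad C lab s n = dr C lab s p.2 → m' = p.2 :=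
    fun he => gp_inr_dr h.bc hs hJ (by omega) he
  rcases h.type hp with ⟨t1, t2, _, _, t5⟩ | ⟨t1, t2, _, t4⟩ | ⟨t1, t2, _, t4⟩
  · -- fan
    have hm : m = p.1 - 1 := by
      rcases su with ⟨_, k⟩ | ⟨_, k⟩ | ⟨k, _⟩ | ⟨k, _⟩
      · exact au k
      · have := du k; omega
      · exact absurd k t2
      · exact absurd k t1
    have hm' : m' = p.2 := by
      rcases sw with ⟨_, k⟩ | ⟨_, k⟩ | ⟨k, _⟩ | ⟨k, _⟩
      · have := aw k; omega
      · exact dw k
      · exact absurd k t2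
      · exact absurd k t1
    rcases Nat.lt_or_ge p.1 n with h3 | h3
    · refine hI.btw p.1 (by omega) h3 ?_
      rw [t5 p.1 (by omega) (by omega), t5 m (by omega) (by omega)]
    · refine hJ.btw (n + 1) (by omega) (by omega) ?_
      rw [t5 (n + 1) (by omega) (by omega), t5 n (by omega) (by omega)]
  · -- left half-ladder
    have hm : m = p.1 - 1 := by
      rcases su with ⟨_, k⟩ | ⟨k, _⟩ | ⟨_, k⟩ | ⟨k, _⟩
      · exact au k
      · exact absurd t2 k
      · have := pu p.2 (by omega) k; omega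
      · exact absurd k t1
    have hm' : p.2 ≤ m' := by
      rcases sw with ⟨_, k⟩ | ⟨k, _⟩ | ⟨_, k⟩ | ⟨k, _⟩
      · have := aw k; omega
      · exact absurd t2 k
      · exact (pw p.2 (by omega) k).2
      · exact absurd k t1
    obtain ⟨i, i', hi1, hi2, hi3, hi4, hi5⟩ := t4 (ltr C lab s n)
    rcases Nat.lt_or_ge i n with h3 | h3
    · exact hI.btw i (by omega) h3 (hi4.trans hsame)
    · exact hJ.btw i' (by omega) (by omega) hi5
  · -- right half-ladder
    have hm : m < p.1 := by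
      rcases su with ⟨k, _⟩ | ⟨_, k⟩ | ⟨k, _⟩ | ⟨_, k⟩
      · exact absurd t1 k
      · have := du k; omega
      · exact absurd k t2
      · exact (pu p.1 (by omega) k).1
    have hm' : m' = p.2 := by
      rcases sw with ⟨k, _⟩ | ⟨_, k⟩ | ⟨k, _⟩ | ⟨_, k⟩
      · exact absurd t1 k
      · exact dw k
      · exact absurd k t2
      · have := pw p.1 (by omega) k; omega
    obtain ⟨i, i', hi1, hi2, hi3, hi4, hi5⟩ := t4 (ltr C lab s n)
    rcases Nat.lt_or_ge i n with h3 | h3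
    · exact hI.btw i (by omega) h3 (hi4.trans hsame)
    · exact hJ.btw i' (by omega) (by omega) hi5

theorem PS.star (h : PS P C Bs lab pet gaps) : ∀ a b,
    FreeDart P (E0f P C lab pet ∪ G0f P C lab gaps) (M0f P C lab pet gaps) (a, b) →
    (a, b) ∈ Cl0f P C lab pet →
    ¬ (((∃ w, (a, w) ∈ B0f P C lab pet gaps) ∨ ∃ t ∈ G0f P C lab gaps, a ∈ t) ∧
      ((∃ w, (b, w) ∈ B0f P C lab pet gaps) ∨ ∃ t ∈ G0f P C lab gaps, b ∈ t)) := by
  classical
  rintro a b ⟨_, hfr, _⟩ hcl ⟨ha, hb⟩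
  obtain ⟨s1, p1, hNa, hSa⟩ := h.sp ha
  obtain ⟨s2, p2, hNb, hSb⟩ := h.sp hb
  have hha := h.hv hNa
  -- the petal triangle
  have h1 : ∃ t ∈ E0f P C lab pet, HE t b a := by
    rcases h.mem_Cl0.1 hcl with h1 | h1 | ⟨t, ht, h1 | h1⟩
    · exact absurd h1 (hha b).1
    · exact absurd h1 (hha b).2
    · exact absurd h1 (hfr t (Finset.mem_union_left _ ht))
    · exact ⟨t, ht, h1⟩
  obtain ⟨t, ht, hba⟩ := h1
  obtain ⟨s, hs, p, hp, n, hn1, hn2, rfl⟩ := h.mem_E0.1 ht
  have hsz := h.size hp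
  have hin : ∀ v, v ∈ tr C lab s n → InPet P C lab pet s p v := by
    intro v hv
    rcases mem_tr_iff.1 hv with k | k
    · exact ⟨hs, hp, n, hn1, hn2.le, k⟩
    · exact ⟨hs, hp, n + 1, by omega, by omega, k⟩
  obtain ⟨rfl, rfl⟩ := h.uniq hNa (hin a hba.2.1)
  obtain ⟨rfl, rfl⟩ := h.uniq hNb (hin b hba.1)
  have hne : a ≠ b := hba.2.2.1.symm
  rcases (tr_he h.bc (s := s2) (n := n) (by omega)).1 hba with
    ⟨k1, k2⟩ | ⟨k1, k2⟩ | ⟨_, k1, k2⟩ | ⟨_, k1, k2⟩
  · -- cross edge number n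
    rcases Nat.lt_or_ge p2.1 n with h3 | h3
    · refine hfr (tr C lab s2 (n - 1)) (Finset.mem_union_left _
        (h.mem_E0.2 ⟨s2, hs, p2, hp, n - 1, by omega, by omega, rfl⟩)) ?_
      have h4 := (tr_he h.bc (s := s2) (n := n - 1) (by omega)
        (a := (it C lab s2 (n - 1 + 1)).1) (b := (it C lab s2 (n - 1 + 1)).2)).2
        (Or.inr (Or.inl ⟨rfl, rfl⟩))
      rw [show n - 1 + 1 = n by omega, ← k1, ← k2] at h4
      exact h4
    · have hn : n = p2.1 := by omega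
      subst hn
      by_cases hL : GapL gaps s2 p2
      · obtain ⟨g, hg, hg2⟩ := hL
        obtain ⟨_, _, _, _, hl⟩ := h.gap hg
        refine hfr (tr C lab s2 (g + 1)) (Finset.mem_union_right _
          (h.mem_G0.2 ⟨s2, hs, g, hg, Or.inr rfl⟩)) ?_
        have h4 := (tr_he h.bc (s := s2) (n := g + 1) (by omega)
          (a := (it C lab s2 (g + 1 + 1)).1) (b := (it C lab s2 (g + 1 + 1)).2)).2
          (Or.inr (Or.inl ⟨rfl, rfl⟩))
        rw [show g + 1 + 1 = p2.1 by omega, ← k1, ← k2] at h4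
        exact h4
      · obtain ⟨_, _, h5⟩ := h.left_end hs hp hL
        have ha5 := (h5 a).1 (Or.inl k2)
        have hb5 := (h5 b).1 (Or.inr k1)
        rcases ha5 with q | q
        · exact hNa.2 q
        · rcases hb5 with q' | q'
          · exact hNb.2 q'
          · exact hne (q.trans q'.symm)
  · -- cross edge number n + 1
    rcases Nat.lt_or_ge (n + 1) p2.2 with h3 | h3
    · refine hfr (tr C lab s2 (n + 1)) (Finset.mem_union_left _
        (h.mem_E0.2 ⟨s2, hs, p2, hp, n + 1, by omega, by omega, rfl⟩)) ?_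
      exact (tr_he h.bc (s := s2) (n := n + 1) (by omega)).2 (Or.inl ⟨k2, k1⟩)
    · have hn : n + 1 = p2.2 := by omega
      by_cases hR : p2.2 ∈ gaps s2
      · refine hfr (tr C lab s2 p2.2) (Finset.mem_union_right _
          (h.mem_G0.2 ⟨s2, hs, p2.2, hR, Or.inl rfl⟩)) ?_
        rw [hn] at k1 k2
        exact (tr_he h.bc (s := s2) (n := p2.2) (by omega)).2 (Or.inl ⟨k2, k1⟩)
      · obtain ⟨_, _, h5⟩ := h.right_end hs hp hR
        rw [hn] at k1 k2
        have ha5 := (h5 a).1 (Or.inr k2)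
        have hb5 := (h5 b).1 (Or.inl k1)
        rcases ha5 with q | q
        · exact hNa.2 q
        · rcases hb5 with q' | q'
          · exact hNb.2 q'
          · exact hne (q.trans q'.symm)
  · -- body edge
    subst k1
    subst k2
    exact gp_body h hs hp hn1 hn2 hNb hNa hSb hSa
  · subst k1
    subst k2
    exact gp_body h hs hp hn1 hn2 hNa hNb hSa hSb

end Pool.Agent.RFX

end

section

set_option autoImplicit false

/-!
# RFX/NFEx : existence of the complex with bodies and of the petal systems (MP_72a26e_co)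
-/

namespace Pool.Agent.RFX

open Pool.Agent.RFT

/-- an injective numbering of the elements of a finite set -/
theorem exists_num {α : Type*} (K : Finset α) :
    ∃ f : α → ℕ, ∀ a ∈ K, ∀ b ∈ K, f a = f b → a = b := by
  classical
  refine ⟨fun a => if h : a ∈ K then (K.equivFin ⟨a, h⟩).val else 0, ?_⟩
  intro a ha b hb h
  simp only [dif_pos ha, dif_pos hb] at h
  have h1 : K.equivFin ⟨a, ha⟩ = K.equivFin ⟨b, hb⟩ := Fin.ext h
  have h2 := K.equivFin.injective h1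
  exact congrArg Subtype.val h2

/-- existence of `BC` -/
theorem exists_bc {P : Finset Pt} (h3 : 3 ≤ P.card) (hG : Gen P) (F : Finpartition P)
    (hF : ∀ A ∈ F.parts, CP A)
    (hd : ∀ A ∈ F.parts, ∀ B ∈ F.parts, A ≠ B →
      Disjoint (convexHull ℝ (A : Set Pt)) (convexHull ℝ (B : Set Pt))) :
    ∃ C Bs lab, BC P C Bs lab ∧ (P.image lab).card ≤ 2 * F.parts.card := by
  classical
  obtain ⟨Bs, hBs⟩ : ∃ Bs, Bs = F.parts.filter (fun A => 3 ≤ A.card) := ⟨_, rfl⟩
  have memB : ∀ A, A ∈ Bs ↔ A ∈ F.parts ∧ 3 ≤ A.card := by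
    intro A; rw [hBs, Finset.mem_filter]
  -- parts
  have hpart : ∀ v ∈ P, ∃ A ∈ F.parts, v ∈ A := fun v hv => F.exists_mem hv
  have huniq : ∀ A ∈ F.parts, ∀ B ∈ F.parts, ∀ v, v ∈ A → v ∈ B → A = B := by
    intro A hA B hB v hvA hvB
    by_contra hne
    exact Set.disjoint_left.1 (hd A hA B hB hne) (subset_convexHull ℝ _ (Finset.mem_coe.2 hvA))
      (subset_convexHull ℝ _ (Finset.mem_coe.2 hvB))
  have hsubP : ∀ A ∈ F.parts, A ⊆ P := fun A hA => F.le hA
  -- complex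
  have hCx : Cx Bs := by
    refine ⟨?_, ?_, ?_, ?_⟩
    · intro t ht; exact hF t ((memB t).1 ht).1
    · intro t ht; exact ((memB t).1 ht).2
    · intro s hs t ht hst x hx
      exact absurd hx.2 (Set.disjoint_left.1 (hd s ((memB s).1 hs).1 t ((memB t).1 ht).1 hst) hx.1)
    · intro s hs t ht hst
      have : s ∩ t = ∅ := by
        rw [Finset.eq_empty_iff_forall_notMem]
        intro v hv
        rw [Finset.mem_inter] at hv
        exact hst (huniq s ((memB s).1 hs).1 t ((memB t).1 ht).1 v hv.1 hv.2)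
      rw [this]; simp
  obtain ⟨C, hC1, hC2, hC3⟩ := exists_full hG h3 hCx (fun t ht => hsubP t ((memB t).1 ht).1) (by
    intro t ht p hp hpt
    obtain ⟨A, hA, hpA⟩ := hpart p hp
    by_contra hno
    have hne : A ≠ t := by rintro rfl; exact hno hpA
    exact Set.disjoint_left.1 (hd A hA t ((memB t).1 ht).1 hne)
      (subset_convexHull ℝ _ (Finset.mem_coe.2 hpA)) hpt)
  -- keys
  obtain ⟨key, hkey⟩ : ∃ key : Pt → Finset Pt, ∀ v,
      (∀ A ∈ Bs, v ∈ A → key v = A) ∧ ((∀ A ∈ Bs, v ∉ A) → key v = {v}) := by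
    refine ⟨fun v => if h : ∃ A ∈ Bs, v ∈ A then h.choose else {v}, ?_⟩
    intro v
    constructor
    · intro A hA hvA
      have h : ∃ A ∈ Bs, v ∈ A := ⟨A, hA, hvA⟩
      simp only [dif_pos h]
      exact huniq _ ((memB _).1 h.choose_spec.1).1 A ((memB A).1 hA).1 v h.choose_spec.2 hvA
    · intro h
      have h' : ¬ ∃ A ∈ Bs, v ∈ A := by
        rintro ⟨A, hA, hvA⟩; exact h A hA hvA
      simp only [dif_neg h']
  have hself : ∀ v, v ∈ key v := by
    intro v
    by_cases h : ∀ A ∈ Bs, v ∉ A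
    · rw [(hkey v).2 h]; simp
    · push Not at h
      obtain ⟨A, hA, hvA⟩ := h
      rw [(hkey v).1 A hA hvA]; exact hvA
  have hkc : ∀ v, key v ∈ Bs ∨ (key v = {v} ∧ ∀ A ∈ Bs, v ∉ A) := by
    intro v
    by_cases h : ∀ A ∈ Bs, v ∉ A
    · exact Or.inr ⟨(hkey v).2 h, h⟩
    · push Not at h
      obtain ⟨A, hA, hvA⟩ := h
      rw [(hkey v).1 A hA hvA]; exact Or.inl hA
  obtain ⟨f, hf⟩ := exists_num (P.image key)
  have hlab : ∀ a ∈ P, ∀ b ∈ P, f (key a) = f (key b) ↔ key a = key b := by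
    intro a ha b hb
    constructor
    · intro h
      exact hf _ (Finset.mem_image_of_mem key ha) _ (Finset.mem_image_of_mem key hb) h
    · intro h; rw [h]
  refine ⟨C, Bs, fun v => f (key v), ⟨hG, h3, hC2, hC1, hC3, ?_, ?_, ?_⟩, ?_⟩
  · -- body
    intro A hA a ha b hb
    have haP : a ∈ P := hsubP A ((memB A).1 hA).1 ha
    rw [hlab a haP b hb, (hkey a).1 A hA ha]
    constructor
    · intro h; rw [h]; exact hself b
    · intro h; exact ((hkey b).1 A hA h).symm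
  · intro a ha hno b hb h
    rw [hlab a ha b hb, (hkey a).2 hno] at h
    have := hself b
    rw [← h, Finset.mem_singleton] at this
    exact this.symm
  · -- separation
    intro i j hij
    have hsub : ∀ k, ∀ v ∈ part P (fun v => f (key v)) k,
        (part P (fun v => f (key v)) k : Set Pt) ⊆ (key v : Set Pt) := by
      intro k v hv w hw
      unfold part at hv hw
      rw [Finset.mem_filter] at hv
      rw [Finset.mem_coe, Finset.mem_filter] at hw
      have h1 : key v = key w := (hlab v hv.1 w hw.1).1 (hv.2.trans hw.2.symm)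
      rw [h1]
      exact hself w
    rcases Finset.eq_empty_or_nonempty (part P (fun v => f (key v)) i) with h0 | ⟨v, hv⟩
    · rw [h0]; simp
    · rcases Finset.eq_empty_or_nonempty (part P (fun v => f (key v)) j) with h0 | ⟨w, hw⟩
      · rw [h0]; simp
      · refine Set.disjoint_of_subset (convexHull_mono (hsub i v hv))
          (convexHull_mono (hsub j w hw)) ?_
        unfold part at hv hw
        rw [Finset.mem_filter] at hv hw
        have hne : key v ≠ key w := by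
          intro h
          apply hij
          rw [← hv.2, ← hw.2]
          show f (key v) = f (key w)
          rw [h]
        -- the parts which contain the keys
        have hkp : ∀ v ∈ P, ∃ A ∈ F.parts, key v ⊆ A := by
          intro v hv
          rcases hkc v with h | ⟨h, -⟩
          · exact ⟨key v, ((memB _).1 h).1, Finset.Subset.refl _⟩
          · obtain ⟨A, hA, hvA⟩ := hpart v hv
            exact ⟨A, hA, by rw [h]; simpa using hvA⟩
        obtain ⟨A, hA, hkA⟩ := hkp v hv.1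
        obtain ⟨B, hB, hkB⟩ := hkp w hw.1
        by_cases hAB : A = B
        · -- small part
          have hsmall : ∀ v ∈ P, key v ⊆ A → key v ∈ Bs → key v = A := by
            intro v hv h1 h2
            exact huniq _ ((memB _).1 h2).1 A hA v (hself v) (h1 (hself v))
          rcases hkc v with h1 | ⟨h1, -⟩
          · exfalso
            have e1 := hsmall v hv.1 hkA h1
            rcases hkc w with h2 | ⟨-, h2⟩
            · exact hne (e1.trans (hsmall w hw.1 (hAB ▸ hkB) h2).symm)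
            · exact h2 A (e1 ▸ h1) (hAB ▸ hkB (hself w))
          · rcases hkc w with h2 | ⟨h2, h2'⟩
            · exfalso
              have e2 := hsmall w hw.1 (hAB ▸ hkB) h2
              rcases hkc v with h3 | ⟨-, h3⟩
              · exact hne ((hsmall v hv.1 hkA h3).trans e2.symm)
              · exact h3 A (e2 ▸ h2) (hkA (hself v))
            · rw [h1, h2]
              simp only [Finset.coe_singleton, convexHull_singleton]
              rw [Set.disjoint_singleton]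
              rintro rfl
              exact hne rfl
        · exact Set.disjoint_of_subset (convexHull_mono (by exact_mod_cast hkA))
            (convexHull_mono (by exact_mod_cast hkB)) (hd A hA B hB hAB)
  · -- number of labels
    have h1 : P.image (fun v => f (key v)) = (P.image key).image f := by
      rw [Finset.image_image]; rfl
    rw [h1]
    refine Finset.card_image_le.trans ?_
    have h2 : P.image key ⊆ F.parts.biUnion (fun A =>
        if 3 ≤ A.card then {A} else A.image (fun v => ({v} : Finset Pt))) := by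
      intro k hk
      rw [Finset.mem_image] at hk
      obtain ⟨v, hv, rfl⟩ := hk
      rw [Finset.mem_biUnion]
      obtain ⟨A, hA, hvA⟩ := hpart v hv
      refine ⟨A, hA, ?_⟩
      by_cases h : 3 ≤ A.card
      · rw [if_pos h, Finset.mem_singleton]
        exact (hkey v).1 A ((memB A).2 ⟨hA, h⟩) hvA
      · rw [if_neg h, Finset.mem_image]
        refine ⟨v, hvA, ?_⟩
        symm
        apply (hkey v).2
        intro B hB hvB
        have := huniq B ((memB B).1 hB).1 A hA v hvB hvA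
        rw [this] at hB
        exact h ((memB A).1 hB).2
    refine (Finset.card_le_card h2).trans (Finset.card_biUnion_le.trans ?_)
    have h4 : ∀ A ∈ F.parts, (if 3 ≤ A.card then ({A} : Finset (Finset Pt)) else
        A.image (fun v => ({v} : Finset Pt))).card ≤ 2 := by
      intro A hA
      by_cases h : 3 ≤ A.card
      · rw [if_pos h]; simp
      · rw [if_neg h]
        exact Finset.card_image_le.trans (by omega)
    refine (Finset.sum_le_sum h4).trans ?_
    rw [Finset.sum_const, smul_eq_mul, Nat.mul_comm]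

/-- existence of `PS` -/
theorem exists_ps {P : Finset Pt} (h3 : 3 ≤ P.card) (hG : Gen P) (F : Finpartition P)
    (hF : ∀ A ∈ F.parts, CP A)
    (hd : ∀ A ∈ F.parts, ∀ B ∈ F.parts, A ≠ B →
      Disjoint (convexHull ℝ (A : Set Pt)) (convexHull ℝ (B : Set Pt))) :
    ∃ C Bs lab pet gaps, PS P C Bs lab pet gaps ∧ (P.image lab).card ≤ 2 * F.parts.card := by
  obtain ⟨C, Bs, lab, h1, h2⟩ := exists_bc h3 hG F hF hd
  have hw : ∀ s : Pt × Pt, ∃ pet gaps, PetSys (len C lab s) (ltr C lab s) pet gaps :=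
    fun s => word _ _
  choose pet gaps hpg using hw
  exact ⟨C, Bs, lab, pet, gaps, ⟨h1, hpg⟩, h2⟩

end Pool.Agent.RFX

end

section

set_option autoImplicit false

/-!
# RFX/NFBlk : the petal triangles at an end vertex or a gap vertex form one block (MP_72a26e_co)

PROOF. `v` is `NR` of exactly one petal `p` (`sp`, `uniq`), and `Inr s n n' v` (`inr`). The petal triangles at `v` are `tr s j`,
`p.1 ≤ j < p.2`, and consecutive ones share a cross edge. An outgoing side at `v` which is unmatched is the cross edge `p.1`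
(`v` second end, `n < p.1`), the cross edge `p.2` (`v` first end, `p.2 ≤ n'`), the body side of the triangle `n'` (`v` first end,
`n' < p.2`) or the body side of the triangle `n` (`v` second end, `p.1 ≤ n`): at most one of these cases. The same for
incoming sides.
-/

namespace Pool.Agent.RFX

open Pool.Agent.RFT

variable {P : Finset Pt} {C Bs : Finset (Finset Pt)} {lab : Pt → ℕ}
  {pet : Pt × Pt → Finset (ℕ × ℕ)} {gaps : Pt × Pt → Finset ℕ}

theorem PS.blk_nr (h : PS P C Bs lab pet gaps) {s : Pt × Pt} {p : ℕ × ℕ} {v : Pt}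
    (hnr : NR P C lab pet gaps s p v) :
    (∀ a a', (∃ t ∈ E0f P C lab pet, HE t v a) → (∀ t ∈ E0f P C lab pet, ¬ HE t a v) →
      (∃ t ∈ E0f P C lab pet, HE t v a') → (∀ t ∈ E0f P C lab pet, ¬ HE t a' v) → a = a') ∧
    (∀ a a', (∃ t ∈ E0f P C lab pet, HE t a v) → (∀ t ∈ E0f P C lab pet, ¬ HE t v a) →
      (∃ t ∈ E0f P C lab pet, HE t a' v) → (∀ t ∈ E0f P C lab pet, ¬ HE t v a') → a = a') := by
  obtain ⟨hs, hp, _⟩ := hnr.1
  obtain ⟨n, n', hI, _, _⟩ := h.inr hnr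
  obtain ⟨z1, z2, z3⟩ := h.size hp
  have hlt := hI.lt
  have hlt' := hI.lt'
  have hl : lab s.1 ≠ lab s.2 := by
    unfold starts at hs
    simp only [Finset.mem_filter, Finset.mem_product] at hs
    exact hs.2.1.ne
  have hE : ∀ t ∈ E0f P C lab pet, v ∈ t → ∃ j, p.1 ≤ j ∧ j < p.2 ∧ t = tr C lab s j := by
    intro t ht hvt
    obtain ⟨s', hs', p', hp', j, h1, h2, rfl⟩ := h.mem_E0.1 ht
    have hin : InPet P C lab pet s' p' v := by
      rcases mem_tr_iff.1 hvt with k | k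
      · exact ⟨hs', hp', j, h1, h2.le, k⟩
      · exact ⟨hs', hp', j + 1, by omega, by omega, k⟩
    obtain ⟨rfl, rfl⟩ := h.uniq hnr hin
    exact ⟨j, h1, h2, rfl⟩
  have hT : ∀ j, p.1 ≤ j → j < p.2 → tr C lab s j ∈ E0f P C lab pet := fun j h1 h2 =>
    h.mem_E0.2 ⟨s, hs, p, hp, j, h1, h2, rfl⟩
  have hat : ∀ j, j ≤ len C lab s → AtC C lab s j v → n < j ∧ j ≤ n' := fun j hj ha =>
    (hI.at_iff h.bc hs hj).1 ha
  have hat' : ∀ j, n < j → j ≤ n' → AtC C lab s j v := fun j h1 h2 =>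
    (hI.at_iff h.bc hs (by omega)).2 ⟨h1, h2⟩
  have hL1 : ∀ j, j ≤ len C lab s → v = (it C lab s j).1 → lab v = lab s.1 := by
    intro j hj he
    rw [he]; exact (it_lab h.bc hj).1
  have hL2 : ∀ j, j ≤ len C lab s → v = (it C lab s j).2 → lab v = lab s.2 := by
    intro j hj he
    rw [he]; exact (it_lab h.bc hj).2
  have hdr : ∀ j, j < len C lab s → v = dr C lab s j → j = n' := by
    intro j hj he
    have h1 := hat j hj.le ((at_iff h.bc hj).2 (Or.inl he))
    obtain ⟨q1, q2, q3⟩ := ne3 h.bc hj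
    by_contra hne
    have h2 := hat' (j + 1) (by omega) (by omega)
    rcases (at_succ_iff h.bc hj).1 h2 with k | k
    · exact q1 (he.symm.trans k)
    · exact q2 (he.symm.trans k)
  have had : ∀ j, j < len C lab s → v = ad C lab s j → j = n := by
    intro j hj he
    have h1 := hat (j + 1) hj ((at_succ_iff h.bc hj).2 (Or.inr he))
    obtain ⟨q1, q2, q3⟩ := ne3 h.bc hj
    by_contra hne
    have h2 := hat' j (by omega) (by omega)
    rcases (at_iff h.bc hj).1 h2 with k | k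
    · exact q2 (k.symm.trans he)
    · exact q3 (k.symm.trans he)
  have hout : ∀ a, (∃ t ∈ E0f P C lab pet, HE t v a) → (∀ t ∈ E0f P C lab pet, ¬ HE t a v) →
      (lab v = lab s.2 ∧ n < p.1 ∧ a = (it C lab s p.1).1) ∨
      (lab v = lab s.1 ∧ p.2 ≤ n' ∧ a = (it C lab s p.2).2) ∨
      (lab v = lab s.1 ∧ n' < p.2 ∧ a = ad C lab s n') ∨
      (lab v = lab s.2 ∧ p.1 ≤ n ∧ a = dr C lab s n) := by
    rintro a ⟨t, ht, hta⟩ hun
    obtain ⟨j, j1, j2, rfl⟩ := hE t ht hta.1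
    have hj : j < len C lab s := by omega
    rcases (tr_he h.bc hj).1 hta with ⟨k1, k2⟩ | ⟨k1, k2⟩ | ⟨k0, k1, k2⟩ | ⟨k0, k1, k2⟩
    · have hjp : j = p.1 := by
        by_contra hne
        refine hun _ (hT (j - 1) (by omega) (by omega)) ?_
        refine (tr_he h.bc (by omega)).2 (Or.inr (Or.inl ?_))
        rw [show j - 1 + 1 = j by omega]
        exact ⟨k2, k1⟩
      subst hjp
      exact Or.inl ⟨hL2 _ hj.le k1, (hat _ hj.le (Or.inr k1)).1, k2⟩
    · have hjp : j + 1 = p.2 := by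
        by_contra hne
        refine hun _ (hT (j + 1) (by omega) (by omega)) ?_
        exact (tr_he h.bc (by omega)).2 (Or.inl ⟨k2, k1⟩)
      rw [hjp] at k1 k2
      exact Or.inr (Or.inl ⟨hL1 _ (by omega) k1, (hat _ (by omega) (Or.inl k1)).2, k2⟩)
    · have hjn := hdr j hj k1
      subst hjn
      refine Or.inr (Or.inr (Or.inl ⟨?_, j2, k2⟩))
      refine hL1 _ hj.le ?_
      unfold dr at k1
      rw [if_pos k0] at k1
      exact k1
    · have hjn := had j hj k1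
      subst hjn
      refine Or.inr (Or.inr (Or.inr ⟨?_, j1, k2⟩))
      refine hL2 (j + 1) hj ?_
      unfold ad at k1
      rw [if_neg (by rw [k0]; exact Bool.false_ne_true)] at k1
      exact k1
  have hinc : ∀ a, (∃ t ∈ E0f P C lab pet, HE t a v) → (∀ t ∈ E0f P C lab pet, ¬ HE t v a) →
      (lab v = lab s.1 ∧ n < p.1 ∧ a = (it C lab s p.1).2) ∨
      (lab v = lab s.2 ∧ p.2 ≤ n' ∧ a = (it C lab s p.2).1) ∨
      (lab v = lab s.1 ∧ p.1 ≤ n ∧ a = dr C lab s n) ∨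
      (lab v = lab s.2 ∧ n' < p.2 ∧ a = ad C lab s n') := by
    rintro a ⟨t, ht, hta⟩ hun
    obtain ⟨j, j1, j2, rfl⟩ := hE t ht hta.2.1
    have hj : j < len C lab s := by omega
    rcases (tr_he h.bc hj).1 hta with ⟨k1, k2⟩ | ⟨k1, k2⟩ | ⟨k0, k1, k2⟩ | ⟨k0, k1, k2⟩
    · have hjp : j = p.1 := by
        by_contra hne
        refine hun _ (hT (j - 1) (by omega) (by omega)) ?_
        refine (tr_he h.bc (by omega)).2 (Or.inr (Or.inl ?_))
        rw [show j - 1 + 1 = j by omega]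
        exact ⟨k2, k1⟩
      subst hjp
      exact Or.inl ⟨hL1 _ hj.le k2, (hat _ hj.le (Or.inl k2)).1, k1⟩
    · have hjp : j + 1 = p.2 := by
        by_contra hne
        refine hun _ (hT (j + 1) (by omega) (by omega)) ?_
        exact (tr_he h.bc (by omega)).2 (Or.inl ⟨k2, k1⟩)
      rw [hjp] at k1 k2
      exact Or.inr (Or.inl ⟨hL2 _ (by omega) k2, (hat _ (by omega) (Or.inr k2)).2, k1⟩)
    · have hjn := had j hj k2
      subst hjn
      refine Or.inr (Or.inr (Or.inl ⟨?_, j1, k1⟩))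
      refine hL1 (j + 1) hj ?_
      unfold ad at k2
      rw [if_pos k0] at k2
      exact k2
    · have hjn := hdr j hj k2
      subst hjn
      refine Or.inr (Or.inr (Or.inr ⟨?_, j2, k1⟩))
      refine hL2 _ hj.le ?_
      unfold dr at k2
      rw [if_neg (by rw [k0]; exact Bool.false_ne_true)] at k2
      exact k2
  constructor
  · intro a a' h1 h2 h3 h4
    rcases hout a h1 h2 with ⟨k1, k2, k3⟩ | ⟨k1, k2, k3⟩ | ⟨k1, k2, k3⟩ | ⟨k1, k2, k3⟩ <;>
    rcases hout a' h3 h4 with ⟨l1, l2, l3⟩ | ⟨l1, l2, l3⟩ | ⟨l1, l2, l3⟩ | ⟨l1, l2, l3⟩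
    · exact k3.trans l3.symm
    · exact absurd (l1.symm.trans k1) hl
    · exact absurd (l1.symm.trans k1) hl
    · omega
    · exact absurd (k1.symm.trans l1) hl
    · exact k3.trans l3.symm
    · omega
    · exact absurd (k1.symm.trans l1) hl
    · exact absurd (k1.symm.trans l1) hl
    · omega
    · exact k3.trans l3.symm
    · exact absurd (k1.symm.trans l1) hl
    · omega
    · exact absurd (l1.symm.trans k1) hl
    · exact absurd (l1.symm.trans k1) hl
    · exact k3.trans l3.symm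
  · intro a a' h1 h2 h3 h4
    rcases hinc a h1 h2 with ⟨k1, k2, k3⟩ | ⟨k1, k2, k3⟩ | ⟨k1, k2, k3⟩ | ⟨k1, k2, k3⟩ <;>
    rcases hinc a' h3 h4 with ⟨l1, l2, l3⟩ | ⟨l1, l2, l3⟩ | ⟨l1, l2, l3⟩ | ⟨l1, l2, l3⟩
    · exact k3.trans l3.symm
    · exact absurd (k1.symm.trans l1) hl
    · omega
    · exact absurd (k1.symm.trans l1) hl
    · exact absurd (l1.symm.trans k1) hl
    · exact k3.trans l3.symm
    · exact absurd (l1.symm.trans k1) hl
    · omega
    · omega
    · exact absurd (k1.symm.trans l1) hl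
    · exact k3.trans l3.symm
    · exact absurd (k1.symm.trans l1) hl
    · exact absurd (l1.symm.trans k1) hl
    · omega
    · exact absurd (l1.symm.trans k1) hl
    · exact k3.trans l3.symm

/-- the field `blk` of `NF` -/
theorem PS.blk (h : PS P C Bs lab pet gaps) :
    Blk (E0f P C lab pet) (G0f P C lab gaps) (B0f P C lab pet gaps) := by
  intro v hv
  obtain ⟨s, p, hnr, _⟩ := h.sp hv
  exact h.blk_nr hnr

end Pool.Agent.RFX

end
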