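import Mathlib
import Pool.Agent.RFM.P04
import Pool.Agent.RFM.P05
import Pool.Agent.RFM.P07
import Pool.Agent.RFM.P08
import Pool.Agent.RFM.P12
import Pool.Agent.RFM.P13

set_option autoImplicit false

/-!
# RFM/P17 (MP_72a26e_co): the files RFX/NFRch, RFX/TilOf, RFX/Cover, merged to save build time
-/

section

set_option autoImplicit false

/-!
# RFX/NFRch : the petals are reachable (MP_72a26e_co) -- helper25
-/

namespace Pool.Agent.RFX

open Pool.Agent.RFT

variable {P : Finset Pt} {C Bs : Finset (Finset Pt)} {lab : Pt → ℕ}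
  {pet : Pt × Pt → Finset (ℕ × ℕ)} {gaps : Pt × Pt → Finset ℕ}

theorem tr_fwd (h : BC P C Bs lab) {s : Pt × Pt} {n : ℕ} (hn : n < len C lab s) :
    HE (tr C lab s n) (it C lab s n).2 (it C lab s n).1 ∧
    HE (tr C lab s n) (it C lab s n).1 (ad C lab s n) ∧
    HE (tr C lab s n) (ad C lab s n) (it C lab s n).2 := by
  classical
  have key := @tr_he P C Bs lab h s n hn
  refine ⟨key.2 (Or.inl ⟨rfl, rfl⟩), ?_, ?_⟩
  · rcases (step_lt h hn).cases with ⟨h1, h2, _, _⟩ | ⟨h1, h2, _, _⟩
    · have hl : ltr C lab s n = true := by unfold ltr; exact decide_eq_true h1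
      refine key.2 (Or.inr (Or.inr (Or.inl ⟨hl, ?_, rfl⟩)))
      unfold dr; rw [if_pos hl]
    · have hl : ltr C lab s n = false := by unfold ltr; exact decide_eq_false h2
      refine key.2 (Or.inr (Or.inl ⟨h1.symm, ?_⟩))
      unfold ad; rw [if_neg (by rw [hl]; exact Bool.false_ne_true)]
  · rcases (step_lt h hn).cases with ⟨h1, h2, _, _⟩ | ⟨h1, h2, _, _⟩
    · have hl : ltr C lab s n = true := by unfold ltr; exact decide_eq_true h1
      refine key.2 (Or.inr (Or.inl ⟨?_, h1.symm⟩))
      unfold ad; rw [if_pos hl]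
    · have hl : ltr C lab s n = false := by unfold ltr; exact decide_eq_false h2
      refine key.2 (Or.inr (Or.inr (Or.inr ⟨hl, rfl, ?_⟩)))
      unfold dr; rw [if_neg (by rw [hl]; exact Bool.false_ne_true)]

theorem tr_bwd (h : BC P C Bs lab) {s : Pt × Pt} {n : ℕ} (hn : n < len C lab s) :
    HE (tr C lab s n) (it C lab s (n + 1)).1 (it C lab s (n + 1)).2 ∧
    HE (tr C lab s n) (it C lab s (n + 1)).2 (dr C lab s n) ∧
    HE (tr C lab s n) (dr C lab s n) (it C lab s (n + 1)).1 := by
  classical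
  have key := @tr_he P C Bs lab h s n hn
  refine ⟨key.2 (Or.inr (Or.inl ⟨rfl, rfl⟩)), ?_, ?_⟩
  · rcases (step_lt h hn).cases with ⟨h1, h2, _, _⟩ | ⟨h1, h2, _, _⟩
    · have hl : ltr C lab s n = true := by unfold ltr; exact decide_eq_true h1
      refine key.2 (Or.inl ⟨h1, ?_⟩)
      unfold dr; rw [if_pos hl]
    · have hl : ltr C lab s n = false := by unfold ltr; exact decide_eq_false h2
      refine key.2 (Or.inr (Or.inr (Or.inr ⟨hl, ?_, rfl⟩)))
      unfold ad; rw [if_neg (by rw [hl]; exact Bool.false_ne_true)]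
  · rcases (step_lt h hn).cases with ⟨h1, h2, _, _⟩ | ⟨h1, h2, _, _⟩
    · have hl : ltr C lab s n = true := by unfold ltr; exact decide_eq_true h1
      refine key.2 (Or.inr (Or.inr (Or.inl ⟨hl, rfl, ?_⟩)))
      unfold ad; rw [if_pos hl]
    · have hl : ltr C lab s n = false := by unfold ltr; exact decide_eq_false h2
      refine key.2 (Or.inl ⟨?_, h1⟩)
      unfold dr; rw [if_neg (by rw [hl]; exact Bool.false_ne_true)]

theorem AtC_ends {s : Pt × Pt} {n : ℕ} : AtC C lab s n (it C lab s n).1 ∧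
    AtC C lab s n (it C lab s n).2 := ⟨Or.inl rfl, Or.inr rfl⟩

/-- without a gap on the left all added vertices are interior -/
theorem PS.ad_inr (h : PS P C Bs lab pet gaps) {s : Pt × Pt} {p : ℕ × ℕ} (hp : p ∈ pet s)
    (hl : ¬ GapL gaps s p) {n : ℕ} (h1 : p.1 ≤ n + 1) (h2 : n < p.2) :
    ∃ n', Inr C lab s n n' (ad C lab s n) := by
  obtain ⟨z1, z2, z3⟩ := h.size hp
  apply inr_of_later h.bc
  rcases h.type hp with ⟨_, _, _, _, h3⟩ | ⟨_, h3, _, _⟩ | ⟨h3, _⟩
  · refine ⟨p.2, by omega, by omega, ?_⟩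
    exact (h3 n (by omega) (by omega)).symm
  · obtain ⟨_, _, h4, h5, h6⟩ := h.gap h3
    by_cases hc : ltr C lab s p.2 = ltr C lab s n
    · exact ⟨p.2, by omega, by omega, hc⟩
    · refine ⟨p.2 + 1, by omega, by omega, ?_⟩
      revert h4 hc
      cases ltr C lab s p.2 <;> cases ltr C lab s n <;> cases ltr C lab s (p.2 + 1) <;> simp
  · exact absurd h3 hl

/-- with a gap on the left all dropped vertices are interior -/
theorem PS.dr_inr (h : PS P C Bs lab pet gaps) {s : Pt × Pt} {p : ℕ × ℕ} (hp : p ∈ pet s)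
    (hl : GapL gaps s p) {n : ℕ} (h1 : p.1 ≤ n) (h2 : n ≤ p.2) :
    ∃ n0, Inr C lab s n0 n (dr C lab s n) := by
  obtain ⟨z1, z2, z3⟩ := h.size hp
  obtain ⟨g, hg, hg2⟩ := hl
  obtain ⟨_, _, h4, h5, h6⟩ := h.gap hg
  apply inr_of_earlier h.bc (by omega)
  by_cases hc : ltr C lab s g = ltr C lab s n
  · exact ⟨g, by omega, by omega, hc⟩
  · refine ⟨g + 1, by omega, by omega, ?_⟩
    revert h4 hc
    cases ltr C lab s g <;> cases ltr C lab s n <;> cases ltr C lab s (g + 1) <;> simp

theorem next_fwd (h : BC P C Bs lab) {s : Pt × Pt} {n : ℕ} (hn : n < len C lab s) :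
    ((it C lab s (n + 1)).2 = (it C lab s n).2 ∧ (it C lab s (n + 1)).1 = ad C lab s n ∧
      (it C lab s n).1 = dr C lab s n) ∨
    ((it C lab s (n + 1)).2 = ad C lab s n ∧ (it C lab s (n + 1)).1 = (it C lab s n).1 ∧
      (it C lab s n).2 = dr C lab s n) := by
  classical
  rcases (step_lt h hn).cases with ⟨h1, h2, _, _⟩ | ⟨h1, h2, _, _⟩
  · have hl : ltr C lab s n = true := by unfold ltr; exact decide_eq_true h1
    refine Or.inl ⟨h1, ?_, ?_⟩
    · unfold ad; rw [if_pos hl]
    · unfold dr; rw [if_pos hl]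
  · have hl : ltr C lab s n = false := by unfold ltr; exact decide_eq_false h2
    have hl' : ¬ (ltr C lab s n = true) := by rw [hl]; exact Bool.false_ne_true
    refine Or.inr ⟨?_, h1, ?_⟩
    · unfold ad; rw [if_neg hl']
    · unfold dr; rw [if_neg hl']

theorem PS.ad_nr (h : PS P C Bs lab pet gaps) {s : Pt × Pt} {p : ℕ × ℕ}
    (hs : s ∈ starts P C lab) (hp : p ∈ pet s) (hl : ¬ GapL gaps s p) {n : ℕ} (h1 : p.1 ≤ n)
    (h2 : n < p.2) : NR P C lab pet gaps s p (ad C lab s n) ∧
      ∃ n', Inr C lab s n n' (ad C lab s n) := by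
  obtain ⟨z1, z2, z3⟩ := h.size hp
  obtain ⟨e1, e2, e3⟩ := h.left_end hs hp hl
  obtain ⟨n', hI⟩ := h.ad_inr hp hl (n := n) (by omega) h2
  refine ⟨⟨⟨hs, hp, n + 1, by omega, by omega, (at_succ_iff h.bc (by omega)).2 (Or.inr rfl)⟩, ?_⟩,
    n', hI⟩
  intro hc
  have h3 : AtC C lab s p.1 (ad C lab s n) := (e3 _).2 (Or.inl hc)
  have h4 := (hI.at_iff h.bc hs (by omega)).1 h3
  omega

theorem PS.dr_nr (h : PS P C Bs lab pet gaps) {s : Pt × Pt} {p : ℕ × ℕ}
    (hs : s ∈ starts P C lab) (hp : p ∈ pet s) (hl : p.2 ∉ gaps s) {n : ℕ} (h1 : p.1 ≤ n)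
    (h2 : n < p.2) : NR P C lab pet gaps s p (dr C lab s n) ∧
      ∃ k, Inr C lab s k n (dr C lab s n) := by
  obtain ⟨z1, z2, z3⟩ := h.size hp
  obtain ⟨e1, e2, e3⟩ := h.right_end hs hp hl
  have hI : ∃ k, Inr C lab s k n (dr C lab s n) := by
    rcases h.type hp with ⟨_, _, _, _, h3⟩ | ⟨_, h3, _⟩ | ⟨h3, _⟩
    · apply inr_of_earlier h.bc (by omega)
      refine ⟨n - 1, by omega, by omega, ?_⟩
      rw [h3 (n - 1) (by omega) (by omega), h3 n (by omega) (by omega)]
    · exact absurd h3 hl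
    · exact h.dr_inr hp h3 h1 h2.le
  obtain ⟨k, hI⟩ := hI
  refine ⟨⟨⟨hs, hp, n, h1, h2.le, (at_iff h.bc (by omega)).2 (Or.inl rfl)⟩, ?_⟩, k, hI⟩
  intro hc
  have h3 : AtC C lab s p.2 (dr C lab s n) := (e3 _).2 (Or.inl hc)
  have h4 := (hI.at_iff h.bc hs (by omega)).1 h3
  omega

/-- the triangles of a petal -/
noncomputable def petT (C : Finset (Finset Pt)) (lab : Pt → ℕ) (s : Pt × Pt) (p : ℕ × ℕ) :
    Finset (Finset Pt) :=
  open Classical in (Finset.range (p.2 - p.1)).image fun i => tr C lab s (p.1 + i)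

theorem mem_petT {s : Pt × Pt} {p : ℕ × ℕ} {t : Finset Pt} :
    t ∈ petT C lab s p ↔ ∃ n, p.1 ≤ n ∧ n < p.2 ∧ t = tr C lab s n := by
  classical
  unfold petT
  rw [Finset.mem_image]
  constructor
  · rintro ⟨i, hi, rfl⟩
    have := Finset.mem_range.1 hi
    exact ⟨p.1 + i, by omega, by omega, rfl⟩
  · rintro ⟨n, h1, h2, rfl⟩
    exact ⟨n - p.1, Finset.mem_range.2 (by omega), by rw [show p.1 + (n - p.1) = n by omega]⟩

theorem petT_bwd {s : Pt × Pt} {p : ℕ × ℕ} (hp : p.1 < p.2) : petT C lab s p =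
    (Finset.range (p.2 - p.1)).image fun i => tr C lab s (p.2 - 1 - i) := by
  classical
  ext t
  rw [mem_petT, Finset.mem_image]
  constructor
  · rintro ⟨n, h1, h2, rfl⟩
    exact ⟨p.2 - 1 - n, Finset.mem_range.2 (by omega), by
      rw [show p.2 - 1 - (p.2 - 1 - n) = n by omega]⟩
  · rintro ⟨i, hi, rfl⟩
    have := Finset.mem_range.1 hi
    exact ⟨p.2 - 1 - i, by omega, by omega, rfl⟩

/-- non-root vertices of a petal are fresh for the other petals -/
theorem PS.fresh (h : PS P C Bs lab pet gaps) {s : Pt × Pt} {p : ℕ × ℕ} {v : Pt}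
    (hv : NR P C lab pet gaps s p v) {E : Finset (Finset Pt)}
    (hE : ∀ t ∈ E, ∃ s' ∈ starts P C lab, ∃ p' ∈ pet s', (s', p') ≠ (s, p) ∧ t ∈ petT C lab s' p') :
    Fresh P E v := by
  refine ⟨fun b => h.hv hv b, ?_⟩
  intro t ht hvt
  obtain ⟨s', hs', p', hp', hne, ht'⟩ := hE t ht
  obtain ⟨n, h1, h2, rfl⟩ := mem_petT.1 ht'
  have hin : InPet P C lab pet s' p' v := by
    refine ⟨hs', hp', ?_⟩
    rcases mem_tr_iff.1 hvt with h3 | h3
    · exact ⟨n, h1, by omega, h3⟩
    · exact ⟨n + 1, by omega, by omega, h3⟩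
  obtain ⟨e1, e2⟩ := h.uniq hv hin
  exact hne (by rw [e1, e2])

/-- one petal -/
theorem PS.reach_pet (h : PS P C Bs lab pet gaps) {s : Pt × Pt} {p : ℕ × ℕ}
    (hs : s ∈ starts P C lab) (hp : p ∈ pet s) {E : Finset (Finset Pt)}
    (hE : Reach P C E (ClOf P E)) (hEC : E ⊆ C)
    (hE' : ∀ t ∈ E, ∃ s' ∈ starts P C lab, ∃ p' ∈ pet s', (s', p') ≠ (s, p) ∧
      t ∈ petT C lab s' p') :
    Reach P C (E ∪ petT C lab s p) (ClOf P (E ∪ petT C lab s p)) := by
  classical
  obtain ⟨z1, z2, z3⟩ := h.size hp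
  have hCP : ∀ t ∈ C, t ⊆ P := h.bc.subP
  by_cases hl : GapL gaps s p
  · rw [petT_bwd (by omega)]
    have hg : p.2 ∉ gaps s := by
      rcases h.type hp with ⟨h1, _⟩ | ⟨h1, _⟩ | ⟨_, h1, _⟩
      · exact absurd hl h1
      · exact absurd hl h1
      · exact h1
    obtain ⟨e1, e2, e3⟩ := h.right_end hs hp hg
    have hnr : ∀ n, p.1 ≤ n → n < p.2 → NR P C lab pet gaps s p (dr C lab s n) := by
      intro n h1 h2
      refine ⟨⟨hs, hp, n, h1, h2.le, (at_iff h.bc (by omega)).2 (Or.inl rfl)⟩, ?_⟩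
      intro hc
      obtain ⟨n0, hI⟩ := h.dr_inr hp hl h1 h2.le
      have h3 : AtC C lab s p.2 (dr C lab s n) := (e3 _).2 (Or.inl hc)
      have h4 := (hI.at_iff h.bc hs (by omega)).1 h3
      omega
    apply reach_run hE hCP hEC (p.2 - p.1) (by omega) _
      (fun i => (it C lab s (p.2 - i)).1) (fun i => (it C lab s (p.2 - i)).2)
      (fun i => dr C lab s (p.2 - 1 - i))
    · intro i hi
      have h1 := tr_mem h.bc (s := s) (n := p.2 - 1 - i) (by omega)
      have h2 := tr_bwd h.bc (s := s) (n := p.2 - 1 - i) (by omega)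
      rw [show p.2 - 1 - i + 1 = p.2 - i by omega] at h2
      exact ⟨h1.1, h1.2, h2.1, h2.2.1, h2.2.2⟩
    · intro i hi
      have h2 := tr_fwd h.bc (s := s) (n := p.2 - 1 - i) (by omega)
      rw [show p.2 - 1 - i = p.2 - (i + 1) by omega] at h2 ⊢
      exact h2.1
    · have h3 := h.fresh e1 hE'
      have h4 := (e3 (dr C lab s p.2)).2 (Or.inr rfl)
      simp only [Nat.sub_zero]
      rcases h4 with h4 | h4
      · left; rw [← h4]; exact h3
      · right; rw [← h4]; exact h3
    · intro i hi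
      have hn1 := hnr (p.2 - 1 - i) (by omega) (by omega)
      obtain ⟨n0, hI⟩ := h.dr_inr hp hl (n := p.2 - 1 - i) (by omega) (by omega)
      have hat : ∀ j, j ≤ len C lab s → p.2 - 1 - i < j →
          ¬ AtC C lab s j (dr C lab s (p.2 - 1 - i)) := by
        intro j hj hj2 hc
        have h4 := (hI.at_iff h.bc hs hj).1 hc
        omega
      refine ⟨h.fresh hn1 hE', ?_, ?_, ?_⟩
      · intro hc
        apply hat p.2 (by omega) (by omega)
        left; simpa using hc
      · intro hc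
        apply hat p.2 (by omega) (by omega)
        right; simpa using hc
      · intro j hj hc
        rcases mem_tr_iff.1 hc with h5 | h5
        · exact hat (p.2 - 1 - j) (by omega) (by omega) h5
        · exact hat (p.2 - 1 - j + 1) (by omega) (by omega) h5
  · unfold petT
    obtain ⟨e1, e2, e3⟩ := h.left_end hs hp hl
    have hnr : ∀ n, p.1 ≤ n → n < p.2 → NR P C lab pet gaps s p (ad C lab s n) := by
      intro n h1 h2
      refine ⟨⟨hs, hp, n + 1, by omega, by omega, (at_succ_iff h.bc (by omega)).2 (Or.inr rfl)⟩, ?_⟩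
      intro hc
      obtain ⟨n', hI⟩ := h.ad_inr hp hl (n := n) (by omega) h2
      have h3 : AtC C lab s p.1 (ad C lab s n) := (e3 _).2 (Or.inl hc)
      have h4 := (hI.at_iff h.bc hs (by omega)).1 h3
      omega
    apply reach_run hE hCP hEC (p.2 - p.1) (by omega) _
      (fun i => (it C lab s (p.1 + i)).2) (fun i => (it C lab s (p.1 + i)).1)
      (fun i => ad C lab s (p.1 + i))
    · intro i hi
      have h1 := tr_mem h.bc (s := s) (n := p.1 + i) (by omega)
      have h2 := tr_fwd h.bc (s := s) (n := p.1 + i) (by omega)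
      exact ⟨h1.1, h1.2, h2.1, h2.2.1, h2.2.2⟩
    · intro i hi
      have h2 := tr_bwd h.bc (s := s) (n := p.1 + i) (by omega)
      exact h2.1
    · have h3 := h.fresh e1 hE'
      have h4 := (e3 (ad C lab s (p.1 - 1))).2 (Or.inr rfl)
      simp only [Nat.add_zero]
      rcases h4 with h4 | h4
      · right; rw [← h4]; exact h3
      · left; rw [← h4]; exact h3
    · intro i hi
      have hn1 := hnr (p.1 + i) (by omega) (by omega)
      obtain ⟨n', hI⟩ := h.ad_inr hp hl (n := p.1 + i) (by omega) (by omega)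
      have hat : ∀ j, j ≤ len C lab s → j ≤ p.1 + i →
          ¬ AtC C lab s j (ad C lab s (p.1 + i)) := by
        intro j hj hj2 hc
        have h4 := (hI.at_iff h.bc hs hj).1 hc
        omega
      refine ⟨h.fresh hn1 hE', ?_, ?_, ?_⟩
      · intro hc
        apply hat p.1 (by omega) (by omega)
        right; simpa using hc
      · intro hc
        apply hat p.1 (by omega) (by omega)
        left; simpa using hc
      · intro j hj hc
        rcases mem_tr_iff.1 hc with h5 | h5
        · exact hat (p.1 + j) (by omega) (by omega) h5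
        · exact hat (p.1 + j + 1) (by omega) (by omega) h5

theorem PS.petT_sub (h : PS P C Bs lab pet gaps) {s : Pt × Pt} {p : ℕ × ℕ} (hp : p ∈ pet s) :
    petT C lab s p ⊆ C := by
  intro t ht
  obtain ⟨n, h1, h2, rfl⟩ := mem_petT.1 ht
  obtain ⟨z1, z2, z3⟩ := h.size hp
  exact (tr_mem h.bc (by omega)).1

/-- the petals are reachable -/
theorem PS.reach (h : PS P C Bs lab pet gaps) :
    Reach P C (E0f P C lab pet) (Cl0f P C lab pet) := by
  classical
  have key : ∀ S : Finset (Σ _ : Pt × Pt, ℕ × ℕ), S ⊆ (starts P C lab).sigma (fun s => pet s) →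
      Reach P C (S.biUnion fun q => petT C lab q.1 q.2)
        (ClOf P (S.biUnion fun q => petT C lab q.1 q.2)) := by
    intro S
    induction S using Finset.induction_on with
    | empty =>
      intro _
      rw [Finset.biUnion_empty]
      have h0 : ClOf P ∅ = hullPairs P ∪ (hullPairs P).image Prod.swap := by
        ext ⟨a, b⟩
        rw [mem_start, mem_ClOf (by simp)]
        simp
      rw [h0]
      exact Reach.start
    | insert q S hq ih =>
      intro hS
      have hS' : S ⊆ (starts P C lab).sigma (fun s => pet s) :=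
        fun x hx => hS (Finset.mem_insert_of_mem hx)
      have hqm := Finset.mem_sigma.1 (hS (Finset.mem_insert_self q S))
      rw [Finset.biUnion_insert, Finset.union_comm]
      apply h.reach_pet hqm.1 hqm.2 (ih hS')
      · intro t ht
        obtain ⟨q', hq', ht'⟩ := Finset.mem_biUnion.1 ht
        exact h.petT_sub (Finset.mem_sigma.1 (hS' hq')).2 ht'
      · intro t ht
        obtain ⟨q', hq', ht'⟩ := Finset.mem_biUnion.1 ht
        have h1 := Finset.mem_sigma.1 (hS' hq')
        refine ⟨q'.1, h1.1, q'.2, h1.2, ?_, ht'⟩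
        intro hc
        apply hq
        have h2 : q' = q := by
          rcases q with ⟨a, b⟩
          rcases q' with ⟨c, d⟩
          simp only [Prod.mk.injEq] at hc
          obtain ⟨rfl, rfl⟩ := hc
          rfl
        rw [← h2]; exact hq'
  have h1 := key _ (le_refl _)
  have h2 : ((starts P C lab).sigma (fun s => pet s)).biUnion (fun q => petT C lab q.1 q.2) =
      E0f P C lab pet := by
    ext t
    rw [Finset.mem_biUnion, h.mem_E0]
    constructor
    · rintro ⟨q, hq, ht⟩
      obtain ⟨h3, h4⟩ := Finset.mem_sigma.1 hq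
      obtain ⟨n, h5, h6, h7⟩ := mem_petT.1 ht
      exact ⟨q.1, h3, q.2, h4, n, h5, h6, h7⟩
    · rintro ⟨s, hs, p, hp, n, h5, h6, h7⟩
      exact ⟨⟨s, p⟩, Finset.mem_sigma.2 ⟨hs, hp⟩, mem_petT.2 ⟨n, h5, h6, h7⟩⟩
  rw [h2] at h1
  have h3 : ClOf P (E0f P C lab pet) = Cl0f P C lab pet := rfl
  rw [h3] at h1
  exact h1

end Pool.Agent.RFX

end

section

set_option autoImplicit false

/-!
# RFX/TilOf : normal form + funnels + faces = tiling (MP_72a26e_co)

`P1` = touched points = points with an edge of `M`, `C` = faces of `M` (exists_faces_tri).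
-/

namespace Pool.Agent.RFX

open Pool.Agent.RFT

/-- the hull sides depend only on the hull vertices -/
theorem HE_sub_iff {P P1 : Finset Pt} (hG : Gen P) (h3 : 3 ≤ P.card) (hs : P1 ⊆ P)
    (hh : ∀ v, HV P v → v ∈ P1) (a b : Pt) : HE P1 a b ↔ HE P a b := by
  classical
  obtain ⟨l, l1, l2, l3, l4, l5, l6⟩ := exists_hull_list P hG h3
  constructor
  · intro h
    refine ⟨hs h.1, hs h.2.1, h.2.2.1, ?_⟩
    intro c hc hca hcb
    have h1 : 0 ≤ orient a b c := by
      refine orient_nonneg_of_mem_hull a b c _ ?_ (l5 c hc)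
      intro q hq
      rw [Finset.mem_coe, List.mem_toFinset] at hq
      obtain ⟨d, hd⟩ := mem_cyc_of_mem l q hq
      exact h.nonneg q (hh q ⟨d, (l6 q d).2 hd⟩)
    have h2 := hG a (hs h.1) b (hs h.2.1) c hc h.2.2.1 (Ne.symm hca) (Ne.symm hcb)
    exact lt_of_le_of_ne h1 (Ne.symm h2)
  · intro h
    obtain ⟨l', hl'⟩ := succ_of_pred hG h3 h
    exact ⟨hh a ⟨b, h⟩, hh b ⟨l', hl'⟩, h.2.2.1, fun c hc h1 h2 => h.2.2.2 c (hs hc) h1 h2⟩

theorem card_three_sub {P P1 : Finset Pt} (hG : Gen P) (h3 : 3 ≤ P.card)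
    (hh : ∀ v, HV P v → v ∈ P1) : 3 ≤ P1.card := by
  classical
  obtain ⟨l, l1, l2, l3, l4, l5, l6⟩ := exists_hull_list P hG h3
  calc 3 ≤ l.length := l4
    _ = l.toFinset.card := (List.toFinset_card_of_nodup l1).symm
    _ ≤ P1.card := by
      apply Finset.card_le_card
      intro q hq
      rw [List.mem_toFinset] at hq
      obtain ⟨d, hd⟩ := mem_cyc_of_mem l q hq
      exact hh q ⟨d, (l6 q d).2 hd⟩

/-- an empty triangle contains no point of `P` in its hull -/
theorem tri_hull {P : Finset Pt} {M : Finset (Pt × Pt)} {x y u : Pt} (h : TriL P M x y u) :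
    ∀ v ∈ P, v ∈ convexHull ℝ (({x, y, u} : Finset Pt) : Set Pt) → v = x ∨ v = y ∨ v = u := by
  intro v hv hc
  have h1 : 0 < orient y u x := by rw [orient_rot]; exact h.pos
  have h2 : 0 < orient u x y := by rw [orient_rot, orient_rot]; exact h.pos
  refine h.empty v hv ⟨?_, ?_, ?_⟩
  · refine orient_nonneg_of_mem_hull x y v _ ?_ hc
    intro q hq
    rw [Finset.mem_coe, Finset.mem_insert, Finset.mem_insert, Finset.mem_singleton] at hq
    rcases hq with rfl | rfl | rfl
    · rw [orient_self2]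
    · rw [orient_self3]
    · exact h.pos.le
  · refine orient_nonneg_of_mem_hull y u v _ ?_ hc
    intro q hq
    rw [Finset.mem_coe, Finset.mem_insert, Finset.mem_insert, Finset.mem_singleton] at hq
    rcases hq with rfl | rfl | rfl
    · exact h1.le
    · rw [orient_self2]
    · rw [orient_self3]
  · refine orient_nonneg_of_mem_hull u x v _ ?_ hc
    intro q hq
    rw [Finset.mem_coe, Finset.mem_insert, Finset.mem_insert, Finset.mem_singleton] at hq
    rcases hq with rfl | rfl | rfl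
    · rw [orient_self3]
    · exact h2.le
    · rw [orient_self2]

theorem til_of {P : Finset Pt} {C0 E0 G0 : Finset (Finset Pt)} {B0 M0 Cl0 : Finset (Pt × Pt)}
    {Gp : Finset (Pt × Pt × Pt × Pt)} {L : Finset Pt} (hG : Gen P) (h3 : 3 ≤ P.card)
    (h : NF P C0 E0 G0 B0 M0 Cl0 Gp L) :
    ∃ (P1 : Finset Pt) (C : Finset (Finset Pt)) (τ : Pt × Pt → FT), P1 ⊆ P ∧ P \ P1 ⊆ L ∧
      (∀ a b, HE P1 a b ↔ HE P a b) ∧ Til P1 C E0 G0 B0 M0 Cl0 Gp (L ∩ P1) τ ∧
      (∀ t ∈ E0 ∪ G0, ∀ v ∈ P, v ∈ convexHull ℝ (t : Set Pt) → v ∈ t) ∧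
      (∀ g p q a, (p, q, a) ∈ (τ g).ns g.1 g.2 →
        ∀ v ∈ P, v ∈ convexHull ℝ (({p, q, a} : Finset Pt) : Set Pt) → v = p ∨ v = q ∨ v = a) := by
  classical
  obtain ⟨M, τ, hF⟩ := exists_funnels hG h3 h.funIn
  set P1 : Finset Pt := P.filter (fun v => ∃ u, (v, u) ∈ M) with hP1
  have hmem : ∀ v, v ∈ P1 ↔ v ∈ P ∧ ∃ u, (v, u) ∈ M := by
    intro v
    rw [hP1, Finset.mem_filter]
  have hs : P1 ⊆ P := Finset.filter_subset _ _
  have hMP1 : ∀ a b, (a, b) ∈ M → a ∈ P1 ∧ b ∈ P1 := by
    intro a b hab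
    have h1 := hF.pl.sub a b hab
    exact ⟨(hmem a).2 ⟨h1.1, b, hab⟩, (hmem b).2 ⟨h1.2, a, hF.pl.sym _ _ hab⟩⟩
  have hM0P1 : ∀ a b, (a, b) ∈ M0 → a ∈ P1 ∧ b ∈ P1 := fun a b hab => hMP1 a b (hF.sub hab)
  have hh : ∀ v, HV P v → v ∈ P1 := by
    rintro v ⟨b, hb⟩
    exact (hM0P1 v b (h.funIn.hull v b hb)).1
  have hHE : ∀ a b, HE P1 a b ↔ HE P a b := HE_sub_iff hG h3 hs hh
  have hHV : ∀ v, HV P1 v ↔ HV P v := by
    intro v
    unfold HV
    simp only [hHE]
  have hG1 : Gen P1 := hG.mono hs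
  have h31 : 3 ≤ P1.card := card_three_sub hG h3 hh
  have hPl : ∀ {X : Finset (Pt × Pt)}, X ⊆ M → Pl P X → Pl P1 X := by
    intro X hX hp
    exact ⟨fun a b hab => hMP1 a b (hX hab), hp.ne, hp.sym, hp.nc⟩
  have hTri : ∀ {X : Finset (Pt × Pt)} {x y u : Pt}, TriL P X x y u → TriL P1 X x y u := by
    intro X x y u ht
    exact ⟨ht.xy, ht.yu, ht.ux, ht.pos, fun p hp hT => ht.empty p (hs hp) hT⟩
  have hres : ∀ v ∈ P1, (∀ a, ¬ HE P1 v a) → Res M v := by
    intro v hv hno
    exact hF.res v ((hmem v).1 hv).2 (fun a ha => hno a ((hHE v a).2 ha))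
  obtain ⟨C, hC, hC1, hC2, hC3⟩ := exists_faces_tri hG1 h31 (hPl (Finset.Subset.refl M) hF.pl)
    (fun a b hab => hF.sub (h.funIn.hull a b ((hHE a b).1 hab))) hres
  have hT0 : ∀ t ∈ E0 ∪ G0, t ∈ C := by
    intro t ht
    obtain ⟨x, y, u, hx, rfl⟩ := h.funIn.tri t ht
    exact hC3 x y u (hTri (TriL.mono hF.sub hx))
  have hT1 : ∀ t ∈ E0 ∪ G0, t ⊆ P1 := by
    intro t ht v hv
    obtain ⟨x, y, u, hx, rfl⟩ := h.funIn.tri t ht
    simp only [Finset.mem_insert, Finset.mem_singleton] at hv
    rcases hv with rfl | rfl | rfl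
    · exact (hM0P1 _ _ hx.xy).1
    · exact (hM0P1 _ _ hx.yu).1
    · exact (hM0P1 _ _ hx.ux).1
  have hFD : ∀ g, FreeDart P1 (E0 ∪ G0) M0 g ↔ FreeDart P (E0 ∪ G0) M0 g := by
    intro g
    unfold FreeDart
    rw [hHE]
  have hsymM : ∀ a b, (a, b) ∈ M → (∃ t ∈ C, HE t a b) ∨ HE P1 b a := hC2
  have hsideM : ∀ a b, (a, b) ∈ M → ∃ t ∈ C, HE t a b ∨ HE t b a := by
    intro a b hab
    rcases hC2 a b hab with ⟨t, ht, h1⟩ | h1
    · exact ⟨t, ht, Or.inl h1⟩
    · obtain ⟨t, ht, h2⟩ := hC.hull b a h1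
      exact ⟨t, ht, Or.inr h2⟩
  have hCl0M : ∀ a b, (a, b) ∈ Cl0 → (a, b) ∈ M0 := fun a b hab => (h.m0 a b).2 (Or.inl hab)
  have hreach : Reach P1 C E0 Cl0 := by
    refine Reach.change h.full (fun a b => (hHE a b).symm) h.reach
      (fun t ht => hT0 t (Finset.mem_union_left _ ht)) ?_
    intro a b hab
    rcases hC2 a b (hF.sub (hCl0M a b hab)) with h1 | h1
    · exact Or.inr h1
    · exact Or.inl ((hHE b a).1 h1)
  have hnf : NF P1 C E0 G0 B0 M0 Cl0 Gp (L ∩ P1) := by
    refine
      { full := hC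
        reach := hreach
        subG := fun t ht => hT0 t (Finset.mem_union_right _ ht)
        disj := h.disj
        tri := h.tri
        cl0 := ?_
        m0 := h.m0
        side := fun a b hab => hsideM a b (hF.sub hab)
        funIn := ?_
        looseP := Finset.inter_subset_right
        looseU := ?_
        looseB := ?_
        looseG := ?_
        root := ?_
        rootHull := ?_
        bHull := ?_
        bInj := h.bInj
        bNe := h.bNe
        bE := h.bE
        bTip := h.bTip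
        gTri := h.gTri
        gAll := h.gAll
        gCl := h.gCl
        gOpen := ?_
        gRes := ?_
        gNe := h.gNe
        gDisj := h.gDisj
        star := ?_
        blk := h.blk }
    · intro a b
      rw [h.cl0, hHE, hHE]
    · exact ⟨hPl hF.sub h.funIn.pl, fun a b hab => h.funIn.hull a b ((hHE a b).1 hab),
        fun t ht => by
          obtain ⟨x, y, u, hx, hxe⟩ := h.funIn.tri t ht
          exact ⟨x, y, u, hTri hx, hxe⟩, h.funIn.tip, h.funIn.tipN⟩
    · intro v hv h1 h2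
      rw [hHV] at h1
      exact Finset.mem_inter.2 ⟨h.looseU v (hs hv) h1 h2, hv⟩
    · intro N w hNw
      have h1 := h.looseB N w hNw
      have h2 := hM0P1 N w (h.funIn.tip N w hNw).1
      exact ⟨Finset.mem_inter.2 ⟨h1.1, h2.1⟩, Finset.mem_inter.2 ⟨h1.2, h2.2⟩⟩
    · intro t ht v hv
      exact Finset.mem_inter.2 ⟨h.looseG t ht hv, hT1 t (Finset.mem_union_right _ ht) hv⟩
    · intro u v huv h1 h2 h3' h4
      rw [hHV] at h1 h3'
      exact h.root u v huv h1 h2 h3' h4
    · intro u v huv h1 h2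
      rw [hHV] at h1 ⊢
      exact h.rootHull u v huv h1 h2
    · intro N w hNw
      rw [hHV, hHV]
      exact h.bHull N w hNw
    · intro g1 g2 g3 g4 hg
      rw [hFD, hFD]
      exact h.gOpen g1 g2 g3 g4 hg
    · intro g1 g2 g3 g4 hg v hv
      rw [hHV]
      exact h.gRes g1 g2 g3 g4 hg v hv
    · intro a b h1 h2
      rw [hFD] at h1
      exact h.star a b h1 h2
  refine ⟨P1, C, τ, hs, ?_, hHE, ?_, ?_, fun g p q a ha => tri_hull (hF.node g p q a ha)⟩
  · -- untouched points are loose
    intro v hv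
    rw [Finset.mem_sdiff] at hv
    have hnoM : ∀ u, (v, u) ∉ M := fun u hu => hv.2 ((hmem v).2 ⟨hv.1, u, hu⟩)
    refine h.looseU v hv.1 (fun h1 => hv.2 (hh v h1)) ?_
    intro h1
    obtain ⟨w, hw⟩ : ∃ w : Pt, w ≠ v := exists_ne v
    obtain ⟨u, hu, -⟩ := h1 w hw
    exact hnoM u (hF.sub hu)
  · refine
      { nf := hnf
        gen := hG1
        three := h31
        side := ?_
        free := ?_
        node := ?_
        new := hF.new
        base := hF.base
        nodup := hF.nodup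
        dj := hF.disj
        inj := hF.inj
        apH := ?_
        apR := fun g a ha => (hF.ap g a ha).2.1
        tipA := hF.tip }
    · intro t ht a b hab
      exact hF.edge (a, b) (hC1 t ht a b hab)
    · intro g hg
      rw [hFD]
      exact hF.free g hg
    · intro g p q a ha
      have h1 := hF.node g p q a ha
      exact ⟨hC3 p q a (hTri h1), h1.pos⟩
    · rintro g a ha ⟨b, hb⟩
      exact not_res_of_succ hF.pl ((hHE a b).1 hb) (hF.ap g a ha).2.2
  · intro t ht v hv hc
    obtain ⟨x, y, u, hx, rfl⟩ := h.funIn.tri t ht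
    simp only [Finset.mem_insert, Finset.mem_singleton]
    exact tri_hull hx v hv hc

end Pool.Agent.RFX

end

section

set_option autoImplicit false

/-!
# RFX/Cover : the cells of a full complex cover the convex hull (MP_72a26e_co)
-/

namespace Pool.Agent.RFX

/-- the direction in which `Lf u` is constant -/
def up (u : Pt) : Pt := (-u.2, u.1)

theorem orient_up (u a b q : Pt) (r : ℝ) :
    orient a b (q + r • up u) = orient a b q + r * (Lf u b - Lf u a) := by
  unfold orient up Lf
  simp only [Prod.fst_add, Prod.snd_add, Prod.smul_fst, Prod.smul_snd, smul_eq_mul]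
  ring

theorem Lf_up (u q : Pt) (r : ℝ) : Lf u (q + r • up u) = Lf u q := by
  unfold up Lf
  simp only [Prod.fst_add, Prod.snd_add, Prod.smul_fst, Prod.smul_snd, smul_eq_mul]
  ring

theorem Lf_comb2 (u a b : Pt) (x y : ℝ) : Lf u (x • a + y • b) = x * Lf u a + y * Lf u b := by
  unfold Lf
  simp only [Prod.fst_add, Prod.snd_add, Prod.smul_fst, Prod.smul_snd, smul_eq_mul]
  ring

/-- the point where the ray from q in direction `up u` leaves a convex polygon -/
theorem exit_side {t : Finset Pt} (ht : CP t) (h3 : 3 ≤ t.card) {u q : Pt}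
    (hinj : ∀ x ∈ t, ∀ y ∈ t, Lf u x = Lf u y → x = y)
    (hq : q ∈ convexHull ℝ (t : Set Pt)) (hgen : ∀ v ∈ t, Lf u v ≠ Lf u q) :
    ∃ (c d : Pt) (r : ℝ), HE t c d ∧ 0 ≤ r ∧ q + r • up u ∈ convexHull ℝ (t : Set Pt) ∧
      orient c d (q + r • up u) = 0 ∧ Lf u d < Lf u q ∧ Lf u q < Lf u c ∧
      ∃ x y : ℝ, 0 < x ∧ 0 < y ∧ x + y = 1 ∧ q + r • up u = x • c + y • d := by
  classical
  have hnn : ∀ c d, HE t c d → 0 ≤ orient c d q := by
    intro c d h
    exact orient_nonneg_of_mem_hull c d q _ (fun z hz => h.nonneg z (Finset.mem_coe.1 hz)) hq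
  set Bad : Finset (Pt × Pt) := (t ×ˢ t).filter (fun e => HE t e.1 e.2 ∧ Lf u e.2 < Lf u e.1)
    with hBad
  have mem : ∀ c d, (c, d) ∈ Bad ↔ HE t c d ∧ Lf u d < Lf u c := by
    intro c d
    rw [hBad, Finset.mem_filter, Finset.mem_product]
    exact ⟨fun h => h.2, fun h => ⟨⟨h.1.1, h.1.2.1⟩, h⟩⟩
  have hne : Bad.Nonempty := by
    have htn : t.Nonempty := by rw [← Finset.card_pos]; omega
    obtain ⟨v, hv, hmax⟩ := Finset.exists_max_image t (fun z => Lf u z) htn
    obtain ⟨d, hd⟩ := ht.exists_succ h3 hv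
    refine ⟨(v, d), (mem v d).2 ⟨hd, ?_⟩⟩
    exact lt_of_le_of_ne (hmax d hd.2.1) (fun h => hd.2.2.1 (hinj d hd.2.1 v hv h).symm)
  obtain ⟨⟨c, d⟩, hcd, hmin⟩ := Finset.exists_min_image Bad
    (fun e => orient e.1 e.2 q / (Lf u e.1 - Lf u e.2)) hne
  obtain ⟨h1, h2⟩ := (mem c d).1 hcd
  set r := orient c d q / (Lf u c - Lf u d) with hr
  have hpos : 0 < Lf u c - Lf u d := by linarith
  have hr0 : 0 ≤ r := div_nonneg (hnn c d h1) hpos.le
  have hz : q + r • up u ∈ convexHull ℝ (t : Set Pt) := by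
    apply mem_hull_of_sides ht h3
    intro a b hab
    rw [orient_up]
    by_cases hlt : Lf u b < Lf u a
    · have h4 := hmin (a, b) ((mem a b).2 ⟨hab, hlt⟩)
      simp only at h4
      rw [le_div_iff₀ (by linarith)] at h4
      rw [hr]
      linarith
    · have h4 := mul_nonneg hr0 (sub_nonneg.2 (not_lt.1 hlt))
      have := hnn a b hab
      linarith
  have h0 : orient c d (q + r • up u) = 0 := by
    rw [orient_up, hr]
    field_simp
    ring
  have h5 := hull_face h1 (Finset.Subset.refl t) hz h0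
  have h6 : q + r • up u ∈ convexHull ℝ ((({c, d} : Finset Pt)) : Set Pt) :=
    convexHull_mono (by exact_mod_cast Finset.inter_subset_right) h5
  rw [Finset.coe_insert, Finset.coe_singleton, convexHull_pair] at h6
  obtain ⟨x, y, hx, hy, hxy, he⟩ := h6
  have h7 : Lf u q = x * Lf u c + y * Lf u d := by
    rw [← Lf_comb2, he, Lf_up]
  have gc := hgen c h1.1
  have gd := hgen d h1.2.1
  have hx0 : 0 < x := by
    apply lt_of_le_of_ne hx
    rintro rfl
    apply gd
    have : y = 1 := by linarith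
    rw [h7, this]; ring
  have hy0 : 0 < y := by
    apply lt_of_le_of_ne hy
    rintro rfl
    apply gc
    have : x = 1 := by linarith
    rw [h7, this]; ring
  have hx1 : x = 1 - y := by linarith
  refine ⟨c, d, r, h1, hr0, hz, h0, ?_, ?_, x, y, hx0, hy0, hxy, he.symm⟩
  · rw [h7, hx1]
    have := mul_pos hx0 hpos
    rw [hx1] at this
    linarith
  · rw [h7, hx1]
    have := mul_pos hy0 hpos
    linarith

/-- the cells of a full complex cover the hull: generic direction -/
theorem Full.cover {P : Finset Pt} {C : Finset (Finset Pt)} (hF : Full P C) (hG : Gen P)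
    (h3 : 3 ≤ P.card) {p : Pt} (hp : p ∈ convexHull ℝ (P : Set Pt)) :
    ∃ t ∈ C, p ∈ convexHull ℝ (t : Set Pt) := by
  classical
  by_cases hpP : p ∈ P
  · rw [← hF.V_eq, mem_V] at hpP
    obtain ⟨t, ht, h⟩ := hpP
    exact ⟨t, ht, subset_convexHull ℝ _ (Finset.mem_coe.2 h)⟩
  have hC := hF.cx
  obtain ⟨u, hu⟩ := exists_generic (insert p P)
  have hinj : ∀ x ∈ P, ∀ y ∈ P, Lf u x = Lf u y → x = y := fun x hx y hy h =>
    hu x (Finset.mem_insert_of_mem hx) y (Finset.mem_insert_of_mem hy) h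
  have hgen : ∀ v ∈ P, Lf u v ≠ Lf u p := by
    intro v hv h
    have := hu v (Finset.mem_insert_of_mem hv) p (Finset.mem_insert_self p P) h
    exact hpP (this ▸ hv)
  -- sides below p
  set D : Finset (Pt × Pt) := (P ×ˢ P).filter (fun e => (∃ t ∈ C, HE t e.1 e.2) ∧
    Lf u e.1 < Lf u p ∧ Lf u p < Lf u e.2 ∧ 0 ≤ orient e.1 e.2 p) with hD
  have memD : ∀ a b, (a, b) ∈ D ↔ ((∃ t ∈ C, HE t a b) ∧
      Lf u a < Lf u p ∧ Lf u p < Lf u b ∧ 0 ≤ orient a b p) := by
    intro a b
    rw [hD, Finset.mem_filter, Finset.mem_product]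
    constructor
    · exact fun h => h.2
    · rintro ⟨⟨t, ht, h⟩, h'⟩
      exact ⟨⟨hF.sub ht h.1, hF.sub ht h.2.1⟩, ⟨t, ht, h⟩, h'⟩
  have hullnn : ∀ a b, HE P a b → 0 ≤ orient a b p := by
    intro a b h
    exact orient_nonneg_of_mem_hull a b p _ (fun z hz => h.nonneg z (Finset.mem_coe.1 hz)) hp
  have hDne : D.Nonempty := by
    obtain ⟨l, l1, l2, l3, l4, l5, l6⟩ := exists_hull_list P hG h3
    have hX : CP l.toFinset := ⟨l, l1, rfl, l3⟩
    have hcard : l.toFinset.card = l.length := List.toFinset_card_of_nodup l1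
    have hXP : l.toFinset ⊆ P := by
      intro x hx
      exact l2 x (List.mem_toFinset.1 hx)
    have hpX : p ∈ convexHull ℝ ((l.toFinset : Finset Pt) : Set Pt) := by
      refine convexHull_min ?_ (convex_convexHull ℝ _) hp
      intro x hx
      exact l5 x (Finset.mem_coe.1 hx)
    obtain ⟨c, d, r, h1, -, -, -, h5, h6, -⟩ := exit_side hX (by omega) (u := -u) (q := p)
      (by
        intro x hx y hy h
        rw [Lf_neg, Lf_neg] at h
        exact hinj x (hXP hx) y (hXP hy) (by linarith))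
      hpX
      (by
        intro v hv h
        rw [Lf_neg, Lf_neg] at h
        exact hgen v (hXP hv) (by linarith))
    rw [Lf_neg, Lf_neg] at h5 h6
    have hcd : HE P c d := by
      rw [l6, l3.mem_cyc_iff l1 l4]
      exact h1
    refine ⟨(c, d), (memD c d).2 ⟨hF.hull c d hcd, by linarith, by linarith, hullnn c d hcd⟩⟩
  obtain ⟨⟨a, b⟩, hab, hmin⟩ := Finset.exists_min_image D
    (fun e => orient e.1 e.2 p / (Lf u e.2 - Lf u e.1)) hDne
  obtain ⟨⟨t, ht, hside⟩, ha, hb, h0⟩ := (memD a b).1 hab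
  have hba : 0 < Lf u b - Lf u a := by linarith
  set h := orient a b p / (Lf u b - Lf u a) with hh
  have hh0 : 0 ≤ h := div_nonneg h0 hba.le
  -- the foot
  set q : Pt := p + (-h) • up u with hq
  have hpq : p = q + h • up u := by
    rw [hq, add_assoc, ← add_smul]
    simp
  have hLq : Lf u q = Lf u p := by rw [hq, Lf_up]
  have hoq : orient a b q = 0 := by
    rw [hq, orient_up, hh]
    field_simp
    ring
  have hqseg : ∃ x y : ℝ, 0 ≤ x ∧ 0 ≤ y ∧ x + y = 1 ∧ q = x • a + y • b := by
    have e1 : orient (a + (1 : ℝ) • up u) a b = Lf u b - Lf u a := by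
      unfold orient up Lf
      simp only [Prod.fst_add, Prod.snd_add, Prod.smul_fst, Prod.smul_snd, smul_eq_mul]
      ring
    have e2 : orient b (b + (1 : ℝ) • up u) a = Lf u b - Lf u a := by
      unfold orient up Lf
      simp only [Prod.fst_add, Prod.snd_add, Prod.smul_fst, Prod.smul_snd, smul_eq_mul]
      ring
    apply on_seg (a := a) (b := b) (p := a + (1 : ℝ) • up u) (r := b + (1 : ℝ) • up u)
    · rw [e1]; exact hba
    · rw [e2]; exact hba
    · exact hoq
    · have : orient (a + (1 : ℝ) • up u) a q = Lf u q - Lf u a := by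
        unfold orient up Lf
        simp only [Prod.fst_add, Prod.snd_add, Prod.smul_fst, Prod.smul_snd, smul_eq_mul]
        ring
      rw [this, hLq]; linarith
    · have : orient b (b + (1 : ℝ) • up u) q = Lf u b - Lf u q := by
        unfold orient up Lf
        simp only [Prod.fst_add, Prod.snd_add, Prod.smul_fst, Prod.smul_snd, smul_eq_mul]
        ring
      rw [this, hLq]; linarith
  have hqt : q ∈ convexHull ℝ (t : Set Pt) := by
    obtain ⟨x, y, hx, hy, hxy, e⟩ := hqseg
    rw [e]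
    exact convex_convexHull ℝ _ (subset_convexHull ℝ _ (Finset.mem_coe.2 hside.1))
      (subset_convexHull ℝ _ (Finset.mem_coe.2 hside.2.1)) hx hy hxy
  obtain ⟨c, d, r, h1, hr0, hrt, hro, hd, hc, x, y, hx, hy, hxy, he⟩ :=
    exit_side (hC.cp t ht) (hC.three t ht) (u := u) (q := q)
      (fun x hx y hy => hinj x (hF.sub ht hx) y (hF.sub ht hy)) hqt
      (fun v hv => by rw [hLq]; exact hgen v (hF.sub ht hv))
  rw [hLq] at hd hc
  rcases le_or_gt h r with hle | hlt
  · -- p is between q and the exit point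
    refine ⟨t, ht, ?_⟩
    rcases eq_or_lt_of_le hr0 with hr | hr
    · have : h = 0 := by linarith
      rw [hpq, this, zero_smul, add_zero]
      exact hqt
    · have e : p = (1 - h / r) • q + (h / r) • (q + r • up u) := by
        have : (h / r) • (q + r • up u) = (h / r) • q + h • up u := by
          rw [smul_add, smul_smul]
          congr 2
          field_simp
        rw [this, ← add_assoc, ← add_smul]
        simpa using hpq
      rw [e]
      apply convex_convexHull ℝ _ hqt hrt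
      · have : h / r ≤ 1 := by rw [div_le_one hr]; exact hle
        linarith
      · positivity
      · ring
  · -- otherwise there is a neighbour nearer to p
    exfalso
    have hop : orient c d p = (h - r) * (Lf u d - Lf u c) := by
      have e1 := orient_up u c d q h
      have e2 := orient_up u c d q r
      rw [← hpq] at e1
      rw [hro] at e2
      rw [e1]
      linarith
    have hneg : orient c d p < 0 := by
      rw [hop]
      exact mul_neg_of_pos_of_neg (by linarith) (by linarith)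
    rcases hF.side t ht c d h1 with h' | ⟨t', ht', h'⟩
    · have := hullnn c d h'
      linarith
    · have hdc : (d, c) ∈ D := by
        rw [memD]
        refine ⟨⟨t', ht', h'⟩, hd, hc, ?_⟩
        rw [orient_swap]; linarith
      have h4 := hmin (d, c) hdc
      simp only at h4
      have e3 : orient d c p / (Lf u c - Lf u d) = h - r := by
        rw [orient_swap, hop, div_eq_iff (by linarith)]
        ring
      rw [e3] at h4
      have hr : r = 0 := by linarith
      rw [hr, zero_smul, add_zero] at he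
      -- q on both sides
      have h5 : x * orient a b c + y * orient a b d = 0 := by
        rw [← orient_comb2 a b c d x y hxy, ← he, hoq]
      have hc0 := hside.nonneg c h1.1
      have hd0 := hside.nonneg d h1.2.1
      have h6 : orient a b c = 0 := by
        have := mul_nonneg hx.le hc0
        have := mul_nonneg hy.le hd0
        have h7 : x * orient a b c = 0 := by linarith
        rcases mul_eq_zero.1 h7 with h8 | h8
        · exact absurd h8 hx.ne'
        · exact h8
      have h7 : orient a b d = 0 := by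
        have := mul_nonneg hx.le hc0
        have := mul_nonneg hy.le hd0
        have h7 : y * orient a b d = 0 := by linarith
        rcases mul_eq_zero.1 h7 with h8 | h8
        · exact absurd h8 hy.ne'
        · exact h8
      have hca : c = a ∨ c = b := by
        by_contra hno
        push Not at hno
        exact (hside.2.2.2 c h1.1 hno.1 hno.2).ne' h6
      have hda : d = a ∨ d = b := by
        by_contra hno
        push Not at hno
        exact (hside.2.2.2 d h1.2.1 hno.1 hno.2).ne' h7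
      rcases hca with rfl | rfl
      · linarith
      · rcases hda with rfl | rfl
        · exact hside.not_both h1 (hC.three t ht)
        · exact h1.2.2.1 rfl

end Pool.Agent.RFX

end
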