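import Mathlib
import Pool.Agent.RFM.P11
import Pool.Agent.RFM.P12
import Pool.Agent.RFM.P14

set_option autoImplicit false

/-!
# RFM/P18 (MP_72a26e_co): the files RFX/NFRoot, RFX/NFLsC, RFX/CrLab, RFX/Step, RFX/CrLoop, RFX/CrEnd, merged to save build time
-/

section

set_option autoImplicit false

/-!
# RFX/NFRoot : one root per class (MP_72a26e_co) -- helper25
-/

namespace Pool.Agent.RFX

open Pool.Agent.RFT

variable {P : Finset Pt} {C Bs : Finset (Finset Pt)} {lab : Pt → ℕ}
  {pet : Pt × Pt → Finset (ℕ × ℕ)} {gaps : Pt × Pt → Finset ℕ}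

theorem HV_of_pred (hg : Gen P) (h3 : 3 ≤ P.card) {a b : Pt} (h : HE P a b) : HV P b := by
  obtain ⟨l, h1, h2, h4, h5, h6, h7⟩ := exists_hull_list P hg h3
  have h8 := (h7 a b).1 h
  have hb : b ∈ l := (mem_of_mem_cyc l a b h8).2
  obtain ⟨c, hc⟩ := mem_cyc_of_mem l b hb
  exact ⟨c, (h7 b c).2 hc⟩

open Classical in
/-- the label of a root -/
noncomputable def hvl (P : Finset Pt) (r : Pt) : Option Pt := if HV P r then none else some r

open Classical in
/-- class labels: the root of the petal -/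
noncomputable def rlab (P : Finset Pt) (C : Finset (Finset Pt)) (lab : Pt → ℕ)
    (pet : Pt × Pt → Finset (ℕ × ℕ)) (gaps : Pt × Pt → Finset ℕ) (v : Pt) : Option Pt :=
  if h : ∃ q : (Pt × Pt) × (ℕ × ℕ), NR P C lab pet gaps q.1 q.2 v then
    hvl P (Rt C lab gaps h.choose.1 h.choose.2)
  else hvl P v

theorem PS.rlab_nr (h : PS P C Bs lab pet gaps) {s : Pt × Pt} {p : ℕ × ℕ} {v : Pt}
    (hv : NR P C lab pet gaps s p v) : rlab P C lab pet gaps v = hvl P (Rt C lab gaps s p) := by
  have hex : ∃ q : (Pt × Pt) × (ℕ × ℕ), NR P C lab pet gaps q.1 q.2 v := ⟨(s, p), hv⟩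
  unfold rlab
  rw [dif_pos hex]
  obtain ⟨e1, e2⟩ := h.uniq hex.choose_spec hv.1
  rw [e1, e2]

theorem rlab_not {v : Pt} (hv : ∀ s p, ¬ NR P C lab pet gaps s p v) :
    rlab P C lab pet gaps v = hvl P v := by
  have hex : ¬ ∃ q : (Pt × Pt) × (ℕ × ℕ), NR P C lab pet gaps q.1 q.2 v := by
    rintro ⟨q, hq⟩; exact hv _ _ hq
  unfold rlab
  rw [dif_neg hex]

theorem PS.rlab_in (h : PS P C Bs lab pet gaps) {s : Pt × Pt} {p : ℕ × ℕ} {v : Pt}
    (hv : InPet P C lab pet s p v) : rlab P C lab pet gaps v = hvl P (Rt C lab gaps s p) := by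
  by_cases hr : v = Rt C lab gaps s p
  · rw [rlab_not, ← hr]
    intro s' p' hn
    rw [hr] at hn
    exact h.rt_not hv.1 hv.2.1 hn
  · exact h.rlab_nr ⟨hv, hr⟩

theorem PS.rlab_hull (h : PS P C Bs lab pet gaps) {v : Pt} (hv : HV P v) :
    rlab P C lab pet gaps v = none := by
  rw [rlab_not]
  · unfold hvl; rw [if_pos hv]
  · intro s p hn
    obtain ⟨b, hb⟩ := hv
    exact (h.hv hn b).1 hb

theorem PS.rlab_free (h : PS P C Bs lab pet gaps) {v : Pt} (hv : ¬ HV P v)
    (hr : ¬ Res (M0f P C lab pet gaps) v) : rlab P C lab pet gaps v = some v := by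
  rw [rlab_not]
  · unfold hvl; rw [if_neg hv]
  · intro s p hn
    exact hr (h.res hn)

theorem mem_inPet {s : Pt × Pt} {p : ℕ × ℕ} {n : ℕ} {v : Pt}
    (hs : s ∈ starts P C lab) (hp : p ∈ pet s) (h1 : p.1 ≤ n) (h2 : n < p.2)
    (hv : v ∈ tr C lab s n) : InPet P C lab pet s p v := by
  refine ⟨hs, hp, ?_⟩
  rcases mem_tr_iff.1 hv with h3 | h3
  · exact ⟨n, h1, by omega, h3⟩
  · exact ⟨n + 1, by omega, by omega, h3⟩

theorem PS.rlab_dart (h : PS P C Bs lab pet gaps) {a b : Pt} (hab : (a, b) ∈ Cl0f P C lab pet) :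
    rlab P C lab pet gaps a = rlab P C lab pet gaps b := by
  rcases h.mem_Cl0.1 hab with h1 | h1 | ⟨t, ht, h1⟩
  · rw [h.rlab_hull ⟨b, h1⟩, h.rlab_hull (HV_of_pred h.bc.gen h.bc.card h1)]
  · rw [h.rlab_hull ⟨a, h1⟩, h.rlab_hull (HV_of_pred h.bc.gen h.bc.card h1)]
  · obtain ⟨s, hs, p, hp, n, h2, h3, rfl⟩ := h.mem_E0.1 ht
    have ha : a ∈ tr C lab s n := by
      rcases h1 with h1 | h1
      · exact h1.1
      · exact h1.2.1
    have hb : b ∈ tr C lab s n := by
      rcases h1 with h1 | h1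
      · exact h1.2.1
      · exact h1.1
    rw [h.rlab_in (mem_inPet hs hp h2 h3 ha), h.rlab_in (mem_inPet hs hp h2 h3 hb)]

theorem PS.rlab_joined (h : PS P C Bs lab pet gaps) {a b : Pt}
    (hab : Joined (Cl0f P C lab pet) a b) :
    rlab P C lab pet gaps a = rlab P C lab pet gaps b := by
  by_contra hne
  exact not_joined_of_label _ (fun a b hab => h.rlab_dart hab) hne hab

theorem PS.root (h : PS P C Bs lab pet gaps) (u v : Pt) (hj : Joined (Cl0f P C lab pet) u v)
    (hu : ¬ HV P u) (hu' : ¬ Res (M0f P C lab pet gaps) u) (hv : ¬ HV P v)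
    (hv' : ¬ Res (M0f P C lab pet gaps) v) : u = v := by
  have h1 := h.rlab_joined hj
  rw [h.rlab_free hu hu', h.rlab_free hv hv'] at h1
  exact Option.some.inj h1

theorem PS.rootHull (h : PS P C Bs lab pet gaps) (u v : Pt) (hj : Joined (Cl0f P C lab pet) u v)
    (hu : ¬ HV P u) (hu' : ¬ Res (M0f P C lab pet gaps) u) : ¬ HV P v := by
  intro hv
  have h1 := h.rlab_joined hj
  rw [h.rlab_free hu hu', h.rlab_hull hv] at h1
  exact Option.some_ne_none _ h1

end Pool.Agent.RFX

end

section

set_option autoImplicit false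

/-!
# RFX/NFLsC : the number of loose points (MP_72a26e_co) -- helper25
-/

namespace Pool.Agent.RFX

open Pool.Agent.RFT

variable {P : Finset Pt} {C Bs : Finset (Finset Pt)} {lab : Pt → ℕ}
  {pet : Pt × Pt → Finset (ℕ × ℕ)} {gaps : Pt × Pt → Finset ℕ}

theorem PS.ls_card (h : PS P C Bs lab pet gaps) :
    (Lsf P C Bs lab pet).card ≤ 2401 * (P.image lab).card := by
  classical
  set J : Pt × Pt → Finset ℕ := fun s => (Finset.range (len C lab s + 1)).filter
    fun n => ¬ ∃ p ∈ pet s, p.1 < n ∧ n < p.2 with hJ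
  have hsub : Lsf P C Bs lab pet ⊆ (P.filter fun v => ∀ A ∈ Bs, v ∉ A) ∪
      (starts P C lab).biUnion fun s => (J s).biUnion fun j =>
        {(it C lab s j).1, (it C lab s j).2} := by
    intro v hv
    obtain ⟨hvP, h1⟩ := mem_Ls.1 hv
    rw [Finset.mem_union]
    rcases h1 with h1 | ⟨s, hs, j, hj, h2, h3⟩
    · left
      rw [Finset.mem_filter]
      exact ⟨hvP, h1⟩
    · right
      rw [Finset.mem_biUnion]
      refine ⟨s, hs, ?_⟩
      rw [Finset.mem_biUnion]
      refine ⟨j, ?_, ?_⟩
      · rw [hJ]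
        simp only [Finset.mem_filter, Finset.mem_range]
        exact ⟨by omega, h3⟩
      · rw [Finset.mem_insert, Finset.mem_singleton]
        exact h2
  have hJc : ∀ s, (J s).card ≤ 200 := by
    intro s
    have h1 := (h.sys s).count
    rw [hJ]
    convert h1 using 2
  have h1 : ((starts P C lab).biUnion fun s => (J s).biUnion fun j =>
        ({(it C lab s j).1, (it C lab s j).2} : Finset Pt)).card ≤
      (starts P C lab).card * 400 := by
    apply Finset.card_biUnion_le_card_mul
    intro s hs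
    have h2 : ((J s).biUnion fun j =>
        ({(it C lab s j).1, (it C lab s j).2} : Finset Pt)).card ≤ (J s).card * 2 := by
      apply Finset.card_biUnion_le_card_mul
      intro j hj
      exact Finset.card_le_two
    have h3 := hJc s
    omega
  have h2 := card_single h.bc
  have h3 := card_starts h.bc
  calc (Lsf P C Bs lab pet).card ≤ _ := Finset.card_le_card hsub
    _ ≤ _ := Finset.card_union_le _ _
    _ ≤ (P.image lab).card + (starts P C lab).card * 400 := Nat.add_le_add h2 h1
    _ ≤ 2401 * (P.image lab).card := by omega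

end Pool.Agent.RFX

end

section

set_option autoImplicit false

/-!
# RFX/CrLab : labels, counting, existence of a crossing (MP_72a26e_co) -- helper62

`cross_exists` : a state with a Lab that has a separating link has the data `Cross` for an operation.
-/

namespace Pool.Agent.RFX

open _root_.RFX.Cr
open Cr

variable {S : Sta} {D : Dyn} {chi : Finset Pt → Bool} {l : Pt → Bool}

/-- both ends of a ring edge are vertices of the face behind it -/
theorem St.mem_face (h : St S D) {i : ZI} (hi : i ∈ D.I) {e : RE} (he : e ∈ (D.Z i).ring)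
    {f : Finset Pt} (hf : e.s = some f) : e.a ∈ f ∧ e.b ∈ f := by
  rcases h.r1 i hi e he f hf with ⟨-, h2, -⟩ | h2
  · exact ⟨h2.1, h2.2.1⟩
  · rw [h2]; simp

theorem St.fc (_h : St S D) {i : ZI} (hi : i ∈ D.I) {e : RE} (he : e ∈ (D.Z i).ring)
    {f : Finset Pt} (hf : e.s = some f) : Fc S D f := Or.inr ⟨i, hi, e, he, hf⟩

/-- a ring edge at `v` whose face is accepted by `v` has the label of `v` -/
theorem St.lab_acc (h : St S D) (hL : Lab S D chi l) {i : ZI} (hi : i ∈ D.I) {e : RE}
    (he : e ∈ (D.Z i).ring) {v : Pt} (hv : e.a = v ∨ e.b = v)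
    (hacc : ∀ f, e.s = some f → Acc D v f) : (LabD.mk chi l).re e = l v := by
  cases hs : e.s with
  | some f =>
    rw [LabD.re_some hs]
    exact hL.acc v f (h.fc hi he hs) (hacc f hs)
  | none =>
    rw [LabD.re_none hs]
    show l e.a = l v
    rcases hv with rfl | rfl
    · rfl
    · exact hL.cl _ _ (h.r2 i hi e he hs)

theorem St.lab_non (h : St S D) (hL : Lab S D chi l) {i : ZI} (hi : i ∈ D.I) {e : RE}
    (he : e ∈ (D.Z i).ring) {v : Pt} (hv : e.a = v ∨ e.b = v) (hA : v ∉ D.A) :
    (LabD.mk chi l).re e = l v := by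
  refine h.lab_acc hL hi he hv (fun f hf => ⟨?_, Or.inl hA⟩)
  have := h.mem_face hi he hf
  rcases hv with rfl | rfl
  · exact this.1
  · exact this.2

theorem St.lab_att (h : St S D) (hL : Lab S D chi l) {i : ZI} (hi : i ∈ D.I) {e : RE}
    (he : e ∈ (D.Z i).ring) {v : Pt} (hv : e.a = v ∨ e.b = v) (hFr : v ∉ D.Fr)
    (hr : e.s ≠ some (D.fref v)) : (LabD.mk chi l).re e = l v := by
  refine h.lab_acc hL hi he hv (fun f hf => ⟨?_, Or.inr ⟨hFr, ?_⟩⟩)
  · have := h.mem_face hi he hf
    rcases hv with rfl | rfl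
    · exact this.1
    · exact this.2
  · rintro rfl; exact hr hf

/-- the label changes at a position of a link iff the link is separating -/
theorem St.change_iff (h : St S D) (hL : Lab S D chi l) {v : Pt} (hv : v ∈ D.A) {i : ZI}
    (hi : i = S.T v ∨ i = S.H v) {e e' : RE} (hat : At (D.Z i) v e e') :
    (LabD.mk chi l).re e ≠ (LabD.mk chi l).re e' ↔ Sep D chi l v := by
  have hI : i ∈ D.I := by
    rcases hi with rfl | rfl
    · exact (h.l1 v hv).1
    · exact (h.l1 v hv).2.1
  obtain ⟨he, he', h1, h2⟩ := id hat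
  unfold Sep
  by_cases hFr : v ∈ D.Fr
  · have h5 := (h.l5 v hFr).2 i hi e e' hat
    rcases h5 with ⟨a1, a2⟩ | ⟨a1, a2⟩
    · rw [LabD.re_some a1, LabD.re_some a2]
      show chi _ ≠ chi _ ↔ _
      tauto
    · rw [LabD.re_some a1, LabD.re_some a2]
      show chi _ ≠ chi _ ↔ _
      rw [ne_comm]
      tauto
  · rcases h.l6 v hv hFr i hi e e' hat with ⟨a1, a2⟩ | ⟨a1, a2⟩
    · rw [LabD.re_some a1, h.lab_att hL hI he' (Or.inl h2) hFr a2]
      show chi _ ≠ l v ↔ _
      tauto
    · rw [LabD.re_some a2, h.lab_att hL hI he (Or.inr h1) hFr a1]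
      show l v ≠ chi _ ↔ _
      rw [ne_comm]
      tauto

theorem At.next {z : Zone} {v : Pt} {e e' : RE} (h : At z v e e') : z.Next e e' :=
  ⟨h.1, h.2.1, h.2.2.1.trans h.2.2.2.symm⟩

theorem exists_at {z : Zone} {v : Pt} (hv : v ∈ z.vs) : ∃ e e', At z v e e' := by
  obtain ⟨e, e', h1, h2, h3⟩ := Zone.exists_next hv
  exact ⟨e, e', h1.1, h1.2.1, h2, h3⟩

/-- membership in the change list -/
theorem St.mem_chg (h : St S D) {i : ZI} (hi : i ∈ D.I) {v : Pt} {e e' : RE}
    (hat : At (D.Z i) v e e') :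
    v ∈ zchg (LabD.mk chi l) (D.Z i) ↔ (LabD.mk chi l).re e ≠ (LabD.mk chi l).re e' := by
  have := mem_zchg (L := LabD.mk chi l) (h.nd i hi) hat.next
  rw [hat.2.2.2] at this
  exact this

theorem St.mem_chg_sub (h : St S D) (hL : Lab S D chi l) {i : ZI} (hi : i ∈ D.I) {v : Pt}
    (hv : v ∈ zchg (LabD.mk chi l) (D.Z i)) :
    v ∈ D.A ∧ (S.T v = i ∨ S.H v = i) ∧ Sep D chi l v := by
  have hvs : v ∈ (D.Z i).vs := (zchg_sub _ _).subset hv
  obtain ⟨e, e', hat⟩ := exists_at hvs
  rw [h.mem_chg hi hat] at hv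
  have hA : v ∈ D.A := by
    by_contra hA
    apply hv
    rw [h.lab_non hL hi hat.1 (Or.inr hat.2.2.1) hA,
      h.lab_non hL hi hat.2.1 (Or.inl hat.2.2.2) hA]
  have hi' := h.l1' v hA i hi hvs
  refine ⟨hA, ?_, (h.change_iff hL hA hi' hat).1 hv⟩
  rcases hi' with h | h
  · exact Or.inl h.symm
  · exact Or.inr h.symm

theorem St.mem_chg_iff (h : St S D) (hL : Lab S D chi l) {v : Pt} (hv : v ∈ D.A) {i : ZI}
    (hi : i = S.T v ∨ i = S.H v) :
    v ∈ zchg (LabD.mk chi l) (D.Z i) ↔ Sep D chi l v := by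
  have hI : i ∈ D.I := by
    rcases hi with rfl | rfl
    · exact (h.l1 v hv).1
    · exact (h.l1 v hv).2.1
  have hvs : v ∈ (D.Z i).vs := by
    rcases hi with rfl | rfl
    · exact (h.l1 v hv).2.2.2.1
    · exact (h.l1 v hv).2.2.2.2
  obtain ⟨e, e', hat⟩ := exists_at hvs
  rw [h.mem_chg hI hat, h.change_iff hL hv hi hat]

/-- the abstract system of links and label changes -/
noncomputable def St.sys (h : St S D) (hL : Lab S D chi l) : Sys ZI Pt where
  Z := D.I
  Act := D.A
  T := S.T
  H := S.H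
  ch := fun i => (zchg (LabD.mk chi l) (D.Z i)).toFinset
  inj := fun u hu v hv e => h.l3 u hu v hv e
  ne := fun v hv => (h.l1 v hv).2.2.1
  TZ := fun v hv => (h.l1 v hv).1
  HZ := fun v hv => (h.l1 v hv).2.1
  ev := by
    intro i hi
    rw [List.toFinset_card_of_nodup (zchg_nodup _ (h.nd i hi))]
    exact zchg_even _ _
  sub := by
    intro i hi v hv
    rw [List.mem_toFinset] at hv
    have := h.mem_chg_sub hL hi hv
    exact ⟨this.1, this.2.1⟩
  iff := by
    intro v hv
    rw [List.mem_toFinset, List.mem_toFinset, h.mem_chg_iff hL hv (Or.inl rfl),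
      h.mem_chg_iff hL hv (Or.inr rfl)]

theorem St.mem_sys_Sep (h : St S D) (hL : Lab S D chi l) {v : Pt} :
    v ∈ (h.sys hL).Sep ↔ Sep D chi l v := by
  rw [Sys.mem_Sep]
  show v ∈ D.A ∧ v ∈ (zchg (LabD.mk chi l) (D.Z (S.T v))).toFinset ↔ _
  rw [List.mem_toFinset]
  constructor
  · rintro ⟨h1, h2⟩
    exact (h.mem_chg_iff hL h1 (Or.inl rfl)).1 h2
  · intro h1
    exact ⟨h1.1, (h.mem_chg_iff hL h1.1 (Or.inl rfl)).2 h1⟩

/-- a point joined to another one has a closed pair -/
theorem exists_closed {Cl : Finset (Pt × Pt)} {a b : Pt} (h : Joined Cl a b) (hne : a ≠ b) :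
    ∃ c, (a, c) ∈ Cl := by
  rcases Relation.ReflTransGen.cases_head h with h1 | ⟨c, h1, -⟩
  · exact absurd h1 hne
  · exact ⟨c, h1⟩

theorem Lab.joined (hL : Lab S D chi l) {a b : Pt} (h : Joined D.Cl a b) : l a = l b := by
  induction h with
  | refl => rfl
  | tail _ h2 ih => exact ih.trans (hL.cl _ _ h2)

/-- the apexes of a live zone that are joined to another point are no links -/
theorem St.ap_not_link (h : St S D) {i : ZI} (hi : Live S D i) {a b : Pt}
    (ha : a ∈ (D.Z i).ap) (hj : Joined D.Cl a b) (hne : a ≠ b) : a ∉ D.A := by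
  intro hA
  have hFr := h.v5 i hi a ha hA
  obtain ⟨c, hc⟩ := exists_closed hj hne
  exact h.l4 a hFr c hc

theorem live_mem (h : St S D) {i : ZI} (hi : Live S D i) : i ∈ D.I := by
  obtain ⟨v, hv, h1, -⟩ := hi.exists
  rw [← h1]
  exact (h.l1 v hv).1

/-- the root apex of a live gate -/
theorem St.gate_s (h : St S D) (hS : StaOk S) {g : ZI} (hg : Live S D g) (hed : ¬ S.ed g) :
    ∃ s ∈ (D.Z g).t.apex, s ∉ D.A ∧ Joined D.Cl s (D.Z g).x ∧ Joined D.Cl s (D.Z g).y ∧
      (D.Z g).t' = ZT.cut := by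
  obtain ⟨h1, ⟨s, a, b, h2, h3⟩, -⟩ := h.v3 g hg hed
  have hgI := live_mem h hg
  have hsm : s ∈ (D.Z g).t.apex := by rw [h2]; simp [ZT.apex]
  have hnd := (nodup_t (h.nd g hgI)).1
  have hsx : s ≠ (D.Z g).x := by
    rintro rfl
    exact (List.nodup_cons.1 hnd).1 hsm
  have hcl : ((D.Z g).y, (D.Z g).x) ∈ D.Cl := by
    have := h.r2 g hgI ⟨(D.Z g).y, (D.Z g).x, none⟩ (by
      unfold Zone.ring; rw [h1]; simp [ZT.ring]) rfl
    exact this
  refine ⟨s, hsm, ?_, h3, ?_, h1⟩
  · exact h.ap_not_link hg (by unfold Zone.ap; exact List.mem_append_left _ hsm) h3 hsx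
  · exact h3.trans (Joined.single ((h.inv hS).symm _ _ hcl))

/-- a separating link whose tail zone is a live end-edge zone is free -/
theorem St.sep_tip_free (h : St S D) (hS : StaOk S) (hL : Lab S D chi l) {v : Pt}
    (hv : Sep D chi l v) (hed : S.ed (S.T v)) : v ∈ D.Fr := by
  have hvS : v ∈ (h.sys hL).Sep := (h.mem_sys_Sep hL).2 hv
  have hlive : Live S D (S.T v) := (h.sys hL).live_T hvS
  have hliveH : Live S D (S.H v) := (h.sys hL).live_H hvS
  obtain ⟨hvy, h1 | ⟨hg, hxy⟩⟩ := h.v1 (S.T v) hlive hed v hv.1 rfl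
  · exact h1
  exfalso
  have hgI := live_mem h hliveH
  obtain ⟨s, hs, hsA, hsx, hsy, hcut⟩ := h.gate_s hS hliveH hg
  have hvH : v ∈ (h.sys hL).ch (S.H v) := (h.sys hL).mem_ch_H hvS
  obtain ⟨w, hw, w', hw', e1, e2, hne, hch⟩ := (h.sys hL).two (z := S.H v) hgI ⟨v, hvH⟩
  have hv' : w' = v := (h.sys hL).head_inj hw' hvS e2
  subst hv'
  have hwS := (h.mem_sys_Sep hL).1 hw
  have hwxy := ((h.v3 (S.H w') hliveH hg).2.2 w hwS.1 e1).1
  have hndg := h.nd _ hgI
  have hxney : (D.Z (S.H w')).x ≠ (D.Z (S.H w')).y := by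
    intro e
    have hd := (nodup_t hndg).2.2
    exact hd (a := (D.Z (S.H w')).x) (by simp) (by rw [e]; simp)
  have hch2 : ∀ u, u ∈ zchg (LabD.mk chi l) (D.Z (S.H w')) ↔
      u = (D.Z (S.H w')).x ∨ u = (D.Z (S.H w')).y := by
    intro u
    have h3 : u ∈ (h.sys hL).ch (S.H w') ↔ u = w ∨ u = w' := by
      rw [hch, Finset.mem_insert, Finset.mem_singleton]
    have h4 : u ∈ (h.sys hL).ch (S.H w') ↔ u ∈ zchg (LabD.mk chi l) (D.Z (S.H w')) := by
      show u ∈ (zchg _ _).toFinset ↔ _
      rw [List.mem_toFinset]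
    rw [← h4, h3]
    rcases hwxy with a1 | a1 <;> rcases hxy with a2 | a2
    · exact absurd (a1.trans a2.symm) hne
    · rw [← a1, ← a2]
    · rw [← a1, ← a2]; exact or_comm
    · exact absurd (a1.trans a2.symm) hne
  have hgl := gate_lab hndg hcut hch2
  obtain ⟨e, he, hea⟩ : ∃ e ∈ (D.Z (S.H w')).t.ring (D.Z (S.H w')).x (D.Z (S.H w')).y,
      e.a = s := by
    have : s ∈ ((D.Z (S.H w')).t.ring (D.Z (S.H w')).x (D.Z (S.H w')).y).map RE.a := by
      rw [ZT.ring_a]; exact List.mem_cons_of_mem _ hs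
    exact List.mem_map.1 this
  have he' : e ∈ (D.Z (S.H w')).ring := by
    unfold Zone.ring; exact List.mem_append_left _ he
  apply hgl e he
  rw [h.lab_non hL hgI he' (Or.inl hea) hsA]
  exact hL.joined hsy

/-- **existence of a crossing** -/
theorem cross_exists (hS : StaOk S) (h : St S D) (hL : Lab S D chi l)
    (hsep : ∃ v, Sep D chi l v) : ∃ i w w'', Cross S D i w w'' := by
  -- first alternative : a gate on the cycle
  have hgate : ∀ v, Sep D chi l v → ¬ S.ed (S.T v) → ∃ i w w'', Cross S D i w w'' := by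
    intro v hv hed
    have hvS : v ∈ (h.sys hL).Sep := (h.mem_sys_Sep hL).2 hv
    have hlive : Live S D (S.T v) := (h.sys hL).live_T hvS
    have hliveH : Live S D (S.H v) := (h.sys hL).live_H hvS
    obtain ⟨hvxy, hedH, hxv⟩ := (h.v3 (S.T v) hlive hed).2.2 v hv.1 rfl
    obtain ⟨w, hw, hTw⟩ := (h.sys hL).exists_next hvS
    have hTw' : S.T w = S.H v := hTw
    have hwsep := (h.mem_sys_Sep hL).1 hw
    have hwFr : w ∈ D.Fr := h.sep_tip_free hS hL hwsep (by rw [hTw']; exact hedH)
    refine ⟨S.H v, w, v, hliveH, hedH, hwFr, hTw', hv.1, rfl, ?_, ?_, Or.inl ?_⟩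
    · rintro rfl
      exact (h.l1 _ hv.1).2.2.1 hTw'
    · intro A' hA' hor
      have := (h.sys hL).notlive hw hvS (by rw [hTw]) hA' hor
      exact ⟨hTw' ▸ this.1, this.2⟩
    · intro a ha hj
      obtain ⟨s, hs, hsA, hsx, hsy, hcut⟩ := h.gate_s hS hlive hed
      rw [hxv] at hj
      have hsv : Joined D.Cl s v := by
        rcases hvxy with e | e
        · rw [e]; exact hsx
        · rw [e]; exact hsy
      have hja : Joined D.Cl a s := hj.trans (hsv.symm ((h.inv hS).symm))
      have := (h.v4 (S.H v) (S.T v) hliveH hlive a ha s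
        (by unfold Zone.ap; exact List.mem_append_left _ hs) hja).2
      exact (h.l1 v hv.1).2.2.1 this.symm
  obtain ⟨w, hw⟩ := hsep
  by_cases hed : S.ed (S.T w)
  swap
  · exact hgate w hw hed
  have hwS : w ∈ (h.sys hL).Sep := (h.mem_sys_Sep hL).2 hw
  have hlive : Live S D (S.T w) := (h.sys hL).live_T hwS
  have hI := live_mem h hlive
  obtain ⟨w1, hw1, w'', hw'', e1, e2, hne, hch⟩ :=
    (h.sys hL).two (z := S.T w) hI ⟨w, (h.sys hL).mem_ch_T hwS⟩
  have hw1w : w1 = w := h.l3 _ ((h.mem_sys_Sep hL).1 hw1).1 _ hw.1 e1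
  subst hw1w
  have hw''s := (h.mem_sys_Sep hL).1 hw''
  by_cases hed2 : S.ed (S.T w'')
  swap
  · exact hgate w'' hw''s hed2
  have hwFr : w1 ∈ D.Fr := h.sep_tip_free hS hL hw hed
  have hw''Fr : w'' ∈ D.Fr := h.sep_tip_free hS hL hw''s hed2
  have hwy : w1 = (D.Z (S.T w1)).y := (h.v1 _ hlive hed w1 hw.1 rfl).1
  have hdead : ∀ A' : Set Pt, A' ⊆ (D.A : Set Pt) → (w1 ∉ A' ∨ w'' ∉ A') →
      ¬ _root_.RFX.Cr.Live A' S.T S.H (S.T w1) ∧ ¬ _root_.RFX.Cr.Live A' S.T S.H (S.H w1) := by
    intro A' hA' hor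
    exact (h.sys hL).notlive hwS hw'' e2 hA' hor
  refine ⟨S.T w1, w1, w'', hlive, hed, hwFr, rfl, hw''s.1, e2, hne.symm, hdead, ?_⟩
  by_cases hr : ∀ a ∈ (D.Z (S.T w1)).ap, ¬ Joined D.Cl a (D.Z (S.T w1)).x
  · exact Or.inl hr
  right
  push Not at hr
  obtain ⟨r, hrap, hrj⟩ := hr
  set i := S.T w1 with hi
  have hnd := h.nd i hI
  obtain ⟨hn1, hn2, hdis⟩ := nodup_t hnd
  have hxFr : (D.Z i).x ∉ D.Fr := h.v2 i hlive hed
  have hrx : r ≠ (D.Z i).x := by
    rintro e
    unfold Zone.ap at hrap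
    rw [List.mem_append] at hrap
    rcases hrap with h1 | h1
    · exact (List.nodup_cons.1 hn1).1 (e ▸ h1)
    · exact hdis (a := (D.Z i).x) (by simp) (List.mem_cons_of_mem _ (e ▸ h1))
  have hrA : r ∉ D.A := h.ap_not_link hlive hrap hrj hrx
  have hxA : (D.Z i).x ∉ D.A := by
    intro hxA
    have hxvs : (D.Z i).x ∈ (D.Z i).vs := by unfold Zone.vs; simp
    rcases h.l1' _ hxA i hI hxvs with h1 | h1
    · have hxw : (D.Z i).x = w1 := h.l3 _ hxA _ hw.1 (h1.symm.trans hi)
      exact hxFr (hxw ▸ hwFr)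
    · have hTl : Live S D (S.T (D.Z i).x) := by
        apply _root_.RFX.Cr.Live.tail (v := (D.Z i).x) (by exact_mod_cast hxA)
        rw [← h1]; exact hlive
      by_cases hedj : S.ed (S.T (D.Z i).x)
      · rcases (h.v1 _ hTl hedj _ hxA rfl).2 with h2 | ⟨h2, -⟩
        · exact hxFr h2
        · rw [← h1] at h2; exact h2 hed
      · obtain ⟨s, hs, hsA, hsx, hsy, hcut⟩ := h.gate_s hS hTl hedj
        have hxy := ((h.v3 _ hTl hedj).2.2 _ hxA rfl).1
        have hsj : Joined D.Cl s (D.Z i).x := by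
          rcases hxy with e | e
          · rw [e]; exact hsx
          · rw [e]; exact hsy
        have hrs : Joined D.Cl r s := hrj.trans (hsj.symm ((h.inv hS).symm))
        have := (h.v4 i _ hlive hTl r hrap s
          (by unfold Zone.ap; exact List.mem_append_left _ hs) hrs).2
        exact (h.l1 _ hxA).2.2.1 (this.symm.trans h1)
  have hchz : ∀ u, u ∈ zchg (LabD.mk chi l) (D.Z i) ↔ u = (D.Z i).y ∨ u = w'' := by
    intro u
    have h3 : u ∈ (h.sys hL).ch i ↔ u = w1 ∨ u = w'' := by
      rw [hch, Finset.mem_insert, Finset.mem_singleton]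
    have h4 : u ∈ (h.sys hL).ch i ↔ u ∈ zchg (LabD.mk chi l) (D.Z i) := by
      show u ∈ (zchg _ _).toFinset ↔ _
      rw [List.mem_toFinset]
    rw [← h4, h3, hwy]
  have hw''ap : w'' ∈ (D.Z i).ap := by
    have hvs : w'' ∈ (D.Z i).vs := (zchg_sub _ _).subset ((hchz w'').2 (Or.inr rfl))
    unfold Zone.vs at hvs
    unfold Zone.ap
    simp only [List.mem_cons, List.mem_append] at hvs ⊢
    rcases hvs with e | e | e | e
    · exact absurd (e ▸ hw''Fr) hxFr
    · exact Or.inl e
    · exact absurd (e.trans hwy.symm) hne.symm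
    · exact Or.inr e
  have hrw : r ≠ w'' := by
    rintro rfl; exact hrA hw''s.1
  obtain ⟨er, her, hera⟩ := Zone.exists_a (z := D.Z i) (v := r) (by
    unfold Zone.vs; unfold Zone.ap at hrap
    simp only [List.mem_cons, List.mem_append] at hrap ⊢
    tauto)
  obtain ⟨ex, hex, hexa⟩ := Zone.exists_a (z := D.Z i) (v := (D.Z i).x) (by
    unfold Zone.vs; simp)
  have hlab : (LabD.mk chi l).re er = (LabD.mk chi l).re ex := by
    rw [h.lab_non hL hI her (Or.inl hera) hrA, h.lab_non hL hI hex (Or.inl hexa) hxA]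
    exact hL.joined hrj
  refine ⟨hxA, hw''Fr, hw''ap, r, hrap, hrj, hrA, ?_, ?_⟩
  · intro h1 h2
    exact arc hnd h2 h1 hchz her hera hex hexa hlab hrw
  · intro h1 h2
    exact arc' hnd h2 h1 hchz her hera hex hexa hlab hrw

end Pool.Agent.RFX

end

section

set_option autoImplicit false

/-!
# RFX/Step : one crossing operation (MP_72a26e_co) -- helper76

CLOSE / OPEN at an end-edge zone; the new state has more closed darts, its zones are shrunk zones.
-/

namespace Pool.Agent.RFX

theorem not_both_sub {α : Type*} {L : List α} {a b : α} (hn : L.Nodup) (h1 : [a, b].Sublist L)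
    (h2 : [b, a].Sublist L) : False := by
  induction L with
  | nil => simp at h1
  | cons x xs ih =>
    rw [List.nodup_cons] at hn
    rcases List.sublist_cons_iff.1 h1 with h3 | ⟨r, hr, h3⟩
    · rcases List.sublist_cons_iff.1 h2 with h4 | ⟨r', hr', h4⟩
      · exact ih hn.2 h3 h4
      · simp only [List.cons.injEq] at hr'
        obtain ⟨rfl, rfl⟩ := hr'
        exact hn.1 (h3.subset (by simp))
    · simp only [List.cons.injEq] at hr
      obtain ⟨rfl, rfl⟩ := hr
      rcases List.sublist_cons_iff.1 h2 with h4 | ⟨r', hr', h4⟩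
      · exact hn.1 (h4.subset (by simp))
      · simp only [List.cons.injEq] at hr'
        obtain ⟨rfl, rfl⟩ := hr'
        rw [List.singleton_sublist] at h3
        exact hn.1 h3

theorem pair_sub_append {α : Type*} {A B : List α} {a b : α} (ha : a ∈ A) (hb : b ∈ B) :
    [a, b].Sublist (A ++ B) := by
  have h1 : [a].Sublist A := List.singleton_sublist.2 ha
  have h2 : [b].Sublist B := List.singleton_sublist.2 hb
  exact List.Sublist.append h1 h2

namespace ZT

/-- position of the base of a subtree -/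
theorem base_pos {p : Pt} {t : ZT} {x y x' y' : Pt} {V : ZT}
    (h : t.sub p x y = some (x', y', V)) {m : Pt} (hm : m ∈ V.apex) :
    (x' = x ∨ [x', m].Sublist t.apex) ∧ (y' = y ∨ [m, y'].Sublist t.apex) := by
  obtain ⟨A, B, h1, _, h3, h4⟩ := apex_split h
  constructor
  · have := List.mem_of_getLast? h3
    rw [List.mem_cons] at this
    rcases this with h5 | h5
    · exact Or.inl h5
    · right
      rw [h1, List.append_assoc]
      exact pair_sub_append h5 (List.mem_append.2 (Or.inl hm))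
  · have := List.mem_of_head? h4
    rw [List.mem_append, List.mem_singleton] at this
    rcases this with h5 | h5
    · right
      rw [h1]
      exact pair_sub_append (List.mem_append.2 (Or.inr hm)) h5
    · exact Or.inl h5

theorem sub_apex_sublist {p : Pt} {t : ZT} {x y x' y' : Pt} {V : ZT}
    (h : t.sub p x y = some (x', y', V)) : V.apex.Sublist t.apex := by
  obtain ⟨A, B, h1, _, _, _⟩ := apex_split h
  rw [h1, List.append_assoc]
  exact (List.sublist_append_left V.apex B).trans (List.sublist_append_right A _)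

end ZT

theorem step_aux {S : Sta} {D : Dyn} {i : ZI} {w w'' : Pt} (hS : StaOk S) (h : St S D)
    (hc : Cross S D i w w'') {E' : Finset (Finset Pt)} {Cl' : Finset (Pt × Pt)} {keep : Prop}
    {z' : Zone} {X : Set Pt} (hCl : D.Cl ⊂ Cl') (H : TrH S D i E' Cl' keep z' X)
    (hdead : ¬ (keep ∧ w ∈ z'.vs ∧ w'' ∈ z'.vs)) :
    ∃ D' : Dyn, St S D' ∧ D.Cl ⊂ D'.Cl ∧ D'.I ⊆ D.I ∧
      ∀ j ∈ D'.I, ∀ v ∈ (D'.Z j).vs, v ∈ (D.Z j).vs := by
  classical
  refine ⟨nxt S D i E' Cl' keep z' X, trans hS h hc H ?_, hCl, ?_, ?_⟩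
  · by_contra hh
    rw [not_or, not_not, not_not] at hh
    apply hdead
    obtain ⟨h1, h2⟩ := hh
    simp only [nxt, Finset.mem_filter] at h1 h2
    have h3 := h1.2 (Or.inl hc.Tw)
    exact ⟨h3.1, h3.2, (h2.2 (Or.inr hc.Hw)).2⟩
  · intro j hj
    simp only [nxt, Finset.mem_filter] at hj
    exact hj.1
  · intro j hj v hv
    simp only [nxt, Finset.mem_filter] at hj
    by_cases hji : j = i
    · subst hji
      have hk : keep := by
        rcases hj.2 with h1 | h1
        · exact absurd rfl h1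
        · exact h1
      have : (nxt S D j E' Cl' keep z' X).Z j = z' := if_pos rfl
      rw [this] at hv
      exact H.vs hk v hv
    · have : (nxt S D i E' Cl' keep z' X).Z j = D.Z j := if_neg hji
      rw [this] at hv
      exact hv

theorem step {S : Sta} {D : Dyn} {i : ZI} {w w'' : Pt} (hS : StaOk S) (h : St S D)
    (hc : Cross S D i w w'') :
    ∃ D' : Dyn, St S D' ∧ D.Cl ⊂ D'.Cl ∧ D'.I ⊆ D.I ∧
      ∀ j ∈ D'.I, ∀ v ∈ (D'.Z j).vs, v ∈ (D.Z j).vs := by
  have cf := hc.cf hS h
  have hwA : w ∈ D.A := h.FrA hc.wFr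
  rcases hc.alt with halt | ⟨hNA, hw''F, hw''ap, r, hrap, hrJ, hrA, hord, hord'⟩
  · obtain ⟨E', Cl', hCl, H⟩ := opA hS h cf halt (D.Z i)
    exact step_aux hS h hc hCl H (fun hh => hh.1)
  · have huniq : ∀ a ∈ (D.Z i).ap, Joined D.Cl a (D.Z i).x → a = r := by
      intro a ha haJ
      exact (h.v4 i i hc.live hc.live a ha r hrap (haJ.trans (hrJ.symm cf.sym))).1
    have hw''N : w'' ≠ (D.Z i).x := by
      intro hh; rw [hh] at hw''F; exact hNA (h.FrA hw''F)
    have hw''r : w'' ≠ r := by
      intro hh; rw [hh] at hw''F; exact hrA (h.FrA hw''F)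
    rw [Zone.ap, List.mem_append] at hrap
    rcases hrap with hrt | hrt
    · -- `r` in the tree over `(N, w)`
      have hrep : Rep (D.Z i) (D.Z i).x (D.Z i).y (D.Z i).t (D.Z i).t' :=
        Or.inl ⟨rfl, rfl, rfl, rfl⟩
      have hN := hrep.nodup (h.nd i cf.hi)
      have hnd1 : (D.Z i).t.apex.Nodup := by
        rw [List.nodup_cons, List.nodup_cons, List.nodup_append] at hN
        exact hN.2.2.1
      have hxy : (D.Z i).x ≠ (D.Z i).y := by
        rw [List.nodup_cons] at hN
        intro hh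
        exact hN.1 (by rw [← hh]; simp)
      have hsp : (D.Z i).x ∉ (D.Z i).t.apex ∧ (D.Z i).y ∉ (D.Z i).t.apex := by
        rw [List.nodup_cons, List.nodup_cons] at hN
        obtain ⟨h1, h2, _⟩ := hN
        simp only [List.mem_cons, List.mem_append, not_or] at h1 h2
        exact ⟨h1.2.1, h2.1⟩
      have hss : ∀ a ∈ (D.Z i).t.apex, a ∉ (D.Z i).t'.apex := by
        intro a ha ha'
        rw [List.nodup_cons, List.nodup_cons, List.nodup_append] at hN
        exact hN.2.2.2.2 a ha a ha' rfl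
      obtain ⟨x', y', l, r2, hsub⟩ := ZT.sub_isSome hrt (D.Z i).x (D.Z i).y
      by_cases hin : w ∈ (⟨x', y', ZT.node r l r2, ZT.cut⟩ : Zone).vs ∧
          w'' ∈ (⟨x', y', ZT.node r l r2, ZT.cut⟩ : Zone).vs
      · -- OPEN at `w''`
        obtain ⟨hin1, hin2⟩ := hin
        have hVs : ∀ v ∈ (ZT.node r l r2).apex, v ∈ (D.Z i).t.apex :=
          fun v hv => (ZT.sub_apex_sublist hsub).subset hv
        have hrV : r ∈ (ZT.node r l r2).apex := by simp [ZT.apex]
        have hbase := ZT.sub_base hsub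
        have hpos := ZT.base_pos hsub hrV
        have hcutm : ∀ a ∈ ((D.Z i).t.cutAt r).apex, a ∈ (D.Z i).t.apex :=
          fun a ha => (ZT.apex_cutAt_sub r _).subset ha
        have hwy : w = y' := by
          rcases vs_cut.1 hin1 with h1 | h1 | h1
          · exfalso
            rcases hbase.1 with h2 | h2
            · exact hxy (by rw [cf.hy, h1, h2])
            · apply hsp.2; rw [cf.hy, h1]; exact hcutm _ h2
          · exact h1
          · exfalso
            apply hsp.2; rw [cf.hy]; exact hVs w h1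
        have hw''V : w'' ∈ (ZT.node r l r2).apex := by
          rcases vs_cut.1 hin2 with h1 | h1 | h1
          · exfalso
            rcases hpos.1 with h2 | h2
            · exact hw''N (h1.trans h2)
            · rw [← h1] at h2
              exact not_both_sub hnd1 h2 (hord hrt (h2.subset (by simp)))
          · exact absurd (h1.trans hwy.symm) hc.ne
          · exact h1
        have hVnd : (ZT.node r l r2).apex.Nodup := hnd1.sublist (ZT.sub_apex_sublist hsub)
        have hw''t : w'' ∈ (D.Z i).t.apex := hVs w'' hw''V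
        have hnl : w'' ∉ l.apex := by
          intro hh
          have h2 : [w'', r].Sublist (ZT.node r l r2).apex := by
            simp only [ZT.apex]
            exact pair_sub_append hh (by simp)
          exact not_both_sub hnd1 (h2.trans (ZT.sub_apex_sublist hsub)) (hord hrt hw''t)
        have hr2 : w'' ∈ r2.apex := by
          simp only [ZT.apex, List.mem_append, List.mem_cons] at hw''V
          rcases hw''V with h1 | h1 | h1
          · exact absurd h1 hnl
          · exact absurd h1 hw''r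
          · exact h1
        obtain ⟨x2, y2, l2, r3, hsub2⟩ := ZT.sub_isSome hr2 r y'
        have hsubw : (D.Z i).t.sub w'' (D.Z i).x (D.Z i).y = some (x2, y2, ZT.node w'' l2 r3) := by
          rw [ZT.sub_sub hnd1 hsub hw''V, ZT.sub, if_neg hw''r.symm, if_neg hnl]
          exact hsub2
        have hbase2 := ZT.sub_base hsub2
        have hcut2 : ∀ a ∈ (r2.cutAt w'').apex, a ∈ (D.Z i).t.apex := by
          intro a ha
          apply hVs
          simp only [ZT.apex, List.mem_append, List.mem_cons]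
          exact Or.inr (Or.inr ((ZT.apex_cutAt_sub w'' _).subset ha))
        have hx2 : x2 ≠ (D.Z i).x := by
          intro hh
          rcases hbase2.1 with h1 | h1
          · rw [h1] at hh; rw [hh] at hrt; exact hsp.1 hrt
          · rw [hh] at h1; exact hsp.1 (hcut2 _ h1)
        have hy2 : y2 ≠ (D.Z i).x := by
          intro hh
          rcases hbase2.2 with h1 | h1
          · rw [h1, ← hwy, ← cf.hy] at hh; exact hxy hh.symm
          · rw [hh] at h1; exact hsp.1 (hcut2 _ h1)
        have hr' : r ∈ ((D.Z i).t.cutAt w'').apex := by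
          rcases (ZT.mem_apex_split hsubw).1 hrt with h1 | h1
          · exfalso
            have h2 : r ∈ r2.apex := (ZT.sub_apex_sublist hsub2).subset h1
            simp only [ZT.apex] at hVnd
            rw [List.nodup_append, List.nodup_cons] at hVnd
            exact hVnd.2.1.1 h2
          · exact h1
        obtain ⟨E', Cl', hCl, H⟩ := opOpen hS h cf hrep hw''t hsubw hx2 hy2 hr' hNA
        refine step_aux hS h hc hCl H ?_
        rintro ⟨_, _, h3⟩
        rcases mem_vs4.1 h3 with h4 | h4 | h4 | h4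
        · exact hw''N h4
        · rw [h4] at hw''t; exact hsp.2 hw''t
        · exact ZT.not_mem_cutAt hnd1 hsubw w'' (by simp [ZT.apex]) h4
        · exact hss w'' hw''t h4
      · -- CLOSE
        obtain ⟨E', Cl', hCl, H⟩ := opClose hS h cf hrep hrt hsub huniq hNA
        exact step_aux hS h hc hCl H (fun hh => hin hh.2)
    · -- `r` in the tree over `(w, N)`
      have hrep : Rep (D.Z i) (D.Z i).y (D.Z i).x (D.Z i).t' (D.Z i).t :=
        Or.inr ⟨rfl, rfl, rfl, rfl⟩
      have hN := hrep.nodup (h.nd i cf.hi)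
      have hnd1 : (D.Z i).t'.apex.Nodup := by
        rw [List.nodup_cons, List.nodup_cons, List.nodup_append] at hN
        exact hN.2.2.1
      have hxy : (D.Z i).x ≠ (D.Z i).y := by
        rw [List.nodup_cons] at hN
        intro hh
        exact hN.1 (by rw [← hh]; simp)
      have hsp : (D.Z i).y ∉ (D.Z i).t'.apex ∧ (D.Z i).x ∉ (D.Z i).t'.apex := by
        rw [List.nodup_cons, List.nodup_cons] at hN
        obtain ⟨h1, h2, _⟩ := hN
        simp only [List.mem_cons, List.mem_append, not_or] at h1 h2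
        exact ⟨h1.2.1, h2.1⟩
      have hss : ∀ a ∈ (D.Z i).t'.apex, a ∉ (D.Z i).t.apex := by
        intro a ha ha'
        rw [List.nodup_cons, List.nodup_cons, List.nodup_append] at hN
        exact hN.2.2.2.2 a ha a ha' rfl
      obtain ⟨x', y', l, r2, hsub⟩ := ZT.sub_isSome hrt (D.Z i).y (D.Z i).x
      by_cases hin : w ∈ (⟨x', y', ZT.node r l r2, ZT.cut⟩ : Zone).vs ∧
          w'' ∈ (⟨x', y', ZT.node r l r2, ZT.cut⟩ : Zone).vs
      · -- OPEN at `w''`
        obtain ⟨hin1, hin2⟩ := hin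
        have hVs : ∀ v ∈ (ZT.node r l r2).apex, v ∈ (D.Z i).t'.apex :=
          fun v hv => (ZT.sub_apex_sublist hsub).subset hv
        have hrV : r ∈ (ZT.node r l r2).apex := by simp [ZT.apex]
        have hbase := ZT.sub_base hsub
        have hpos := ZT.base_pos hsub hrV
        have hcutm : ∀ a ∈ ((D.Z i).t'.cutAt r).apex, a ∈ (D.Z i).t'.apex :=
          fun a ha => (ZT.apex_cutAt_sub r _).subset ha
        have hwy : w = x' := by
          rcases vs_cut.1 hin1 with h1 | h1 | h1
          · exact h1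
          · exfalso
            rcases hbase.2 with h2 | h2
            · exact hxy (by rw [cf.hy, h1, h2])
            · apply hsp.1; rw [cf.hy, h1]; exact hcutm _ h2
          · exfalso
            apply hsp.1; rw [cf.hy]; exact hVs w h1
        have hw''V : w'' ∈ (ZT.node r l r2).apex := by
          rcases vs_cut.1 hin2 with h1 | h1 | h1
          · exact absurd (h1.trans hwy.symm) hc.ne
          · exfalso
            rcases hpos.2 with h2 | h2
            · exact hw''N (h1.trans h2)
            · rw [← h1] at h2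
              exact not_both_sub hnd1 h2 (hord' hrt (h2.subset (by simp)))
          · exact h1
        have hVnd : (ZT.node r l r2).apex.Nodup := hnd1.sublist (ZT.sub_apex_sublist hsub)
        have hw''t : w'' ∈ (D.Z i).t'.apex := hVs w'' hw''V
        have hnr2 : w'' ∉ r2.apex := by
          intro hh
          have h2 : [r, w''].Sublist (ZT.node r l r2).apex := by
            simp only [ZT.apex]
            have : [r, w''].Sublist (r :: r2.apex) :=
              List.Sublist.cons_cons r (List.singleton_sublist.2 hh)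
            exact this.trans (List.sublist_append_right l.apex _)
          exact not_both_sub hnd1 (h2.trans (ZT.sub_apex_sublist hsub)) (hord' hrt hw''t)
        have hl : w'' ∈ l.apex := by
          simp only [ZT.apex, List.mem_append, List.mem_cons] at hw''V
          rcases hw''V with h1 | h1 | h1
          · exact h1
          · exact absurd h1 hw''r
          · exact absurd h1 hnr2
        obtain ⟨x2, y2, l2, r3, hsub2⟩ := ZT.sub_isSome hl x' r
        have hsubw : (D.Z i).t'.sub w'' (D.Z i).y (D.Z i).x = some (x2, y2, ZT.node w'' l2 r3) := by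
          rw [ZT.sub_sub hnd1 hsub hw''V, ZT.sub, if_neg hw''r.symm, if_pos hl]
          exact hsub2
        have hbase2 := ZT.sub_base hsub2
        have hcut2 : ∀ a ∈ (l.cutAt w'').apex, a ∈ (D.Z i).t'.apex := by
          intro a ha
          apply hVs
          simp only [ZT.apex, List.mem_append, List.mem_cons]
          exact Or.inl ((ZT.apex_cutAt_sub w'' _).subset ha)
        have hx2 : x2 ≠ (D.Z i).x := by
          intro hh
          rcases hbase2.1 with h1 | h1
          · rw [h1, ← hwy, ← cf.hy] at hh; exact hxy hh.symm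
          · rw [hh] at h1; exact hsp.2 (hcut2 _ h1)
        have hy2 : y2 ≠ (D.Z i).x := by
          intro hh
          rcases hbase2.2 with h1 | h1
          · rw [h1] at hh; rw [hh] at hrt; exact hsp.2 hrt
          · rw [hh] at h1; exact hsp.2 (hcut2 _ h1)
        have hr' : r ∈ ((D.Z i).t'.cutAt w'').apex := by
          rcases (ZT.mem_apex_split hsubw).1 hrt with h1 | h1
          · exfalso
            have h2 : r ∈ l.apex := (ZT.sub_apex_sublist hsub2).subset h1
            simp only [ZT.apex] at hVnd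
            rw [List.nodup_append] at hVnd
            exact hVnd.2.2 r h2 r (by simp) rfl
          · exact h1
        obtain ⟨E', Cl', hCl, H⟩ := opOpen hS h cf hrep hw''t hsubw hx2 hy2 hr' hNA
        refine step_aux hS h hc hCl H ?_
        rintro ⟨_, _, h3⟩
        rcases mem_vs4.1 h3 with h4 | h4 | h4 | h4
        · rw [h4] at hw''t; exact hsp.1 hw''t
        · exact hw''N h4
        · exact ZT.not_mem_cutAt hnd1 hsubw w'' (by simp [ZT.apex]) h4
        · exact hss w'' hw''t h4
      · -- CLOSE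
        obtain ⟨E', Cl', hCl, H⟩ := opClose hS h cf hrep hrt hsub huniq hNA
        exact step_aux hS h hc hCl H (fun hh => hin hh.2)

end Pool.Agent.RFX

end

section

set_option autoImplicit false

/-!
# RFX/CrLoop : the main loop (MP_72a26e_co) -- helper62

From any state we reach a state in which no Lab has a separating link; zones only shrink.
-/

namespace Pool.Agent.RFX

theorem main_loop {S : Sta} (hS : StaOk S) : ∀ {D : Dyn}, St S D →
    ∃ D' : Dyn, St S D' ∧
      (∀ (chi : Finset Pt → Bool) (l : Pt → Bool), Lab S D' chi l → ∀ v, ¬ Sep D' chi l v) ∧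
      D'.I ⊆ D.I ∧ (∀ j ∈ D'.I, ∀ v ∈ (D'.Z j).vs, v ∈ (D.Z j).vs) := by
  have key : ∀ n : ℕ, ∀ D : Dyn, St S D → (S.P ×ˢ S.P).card - D.Cl.card ≤ n →
      ∃ D' : Dyn, St S D' ∧
      (∀ (chi : Finset Pt → Bool) (l : Pt → Bool), Lab S D' chi l → ∀ v, ¬ Sep D' chi l v) ∧
      D'.I ⊆ D.I ∧ (∀ j ∈ D'.I, ∀ v ∈ (D'.Z j).vs, v ∈ (D.Z j).vs) := by
    intro n
    induction n with
    | zero =>
      intro D h hn
      refine ⟨D, h, ?_, Finset.Subset.refl _, fun j _ v hv => hv⟩
      intro chi l hL v hv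
      obtain ⟨i, w, w'', hc⟩ := cross_exists hS h hL ⟨v, hv⟩
      obtain ⟨D', h', hlt, -⟩ := step hS h hc
      have h1 := Finset.card_lt_card hlt
      have h2 : D'.Cl ⊆ S.P ×ˢ S.P := by
        intro e he
        have := (h'.inv hS).mem e.1 e.2 he
        exact Finset.mem_product.2 ⟨this.1, this.2.1⟩
      have h3 := Finset.card_le_card h2
      omega
    | succ n ih =>
      intro D h hn
      by_cases hall : ∀ (chi : Finset Pt → Bool) (l : Pt → Bool), Lab S D chi l →
          ∀ v, ¬ Sep D chi l v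
      · exact ⟨D, h, hall, Finset.Subset.refl _, fun j _ v hv => hv⟩
      · push Not at hall
        obtain ⟨chi, l, hL, v, hv⟩ := hall
        obtain ⟨i, w, w'', hc⟩ := cross_exists hS h hL ⟨v, hv⟩
        obtain ⟨D', h', hlt, hI, hvs⟩ := step hS h hc
        have h1 := Finset.card_lt_card hlt
        have h2 : D'.Cl ⊆ S.P ×ˢ S.P := by
          intro e he
          have := (h'.inv hS).mem e.1 e.2 he
          exact Finset.mem_product.2 ⟨this.1, this.2.1⟩
        have h3 := Finset.card_le_card h2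
        obtain ⟨D'', h'', ha, hb, hcc⟩ := ih D' h' (by omega)
        exact ⟨D'', h'', ha, hb.trans hI, fun j hj v hv => hvs j (hb hj) v (hcc j hj v hv)⟩
  intro D h
  exact key _ D h le_rfl

end Pool.Agent.RFX

end

section

set_option autoImplicit false

/-!
# RFX/CrEnd : no separating link => the Lab is constant (MP_72a26e_co) -- helper62
-/

namespace Pool.Agent.RFX

open _root_.RFX.Cr
open Cr

variable {S : Sta} {D : Dyn} {chi : Finset Pt → Bool} {l : Pt → Bool}

/-- all ring edges of a zone have the same label -/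
theorem St.zone_const (h : St S D) (hL : Lab S D chi l) (hns : ∀ v, ¬ Sep D chi l v) {i : ZI}
    (hi : i ∈ D.I) : ∃ k : Bool, ∀ e ∈ (D.Z i).ring, (LabD.mk chi l).re e = k := by
  have hz : zchg (LabD.mk chi l) (D.Z i) = [] := by
    rw [List.eq_nil_iff_forall_not_mem]
    intro v hv
    exact hns v (h.mem_chg_sub hL hi hv).2.2
  unfold zchg chg at hz
  refine ⟨lst true (labl (LabD.mk chi l) (D.Z i).ring), fun e he => ?_⟩
  exact const_of_chgp_nil hz (e.a, (LabD.mk chi l).re e)
    (by unfold labl; exact List.mem_map_of_mem (f := fun e : RE => (e.a, (LabD.mk chi l).re e)) he)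

/-- colour of a cell -/
def Colr (S : Sta) (D : Dyn) (chi : Finset Pt → Bool) (l : Pt → Bool) (c : Finset Pt)
    (k : Bool) : Prop :=
  (c ∈ D.E ∧ ∀ v ∈ c, l v = k) ∨ (c ∈ S.F ∧ chi c = k) ∨
    (∃ i ∈ D.I, c ∈ (D.Z i).cells ∧ ∀ e ∈ (D.Z i).ring, (LabD.mk chi l).re e = k)

theorem St.colr_exists (h : St S D) (hS : StaOk S) (hL : Lab S D chi l)
    (hns : ∀ v, ¬ Sep D chi l v) {c : Finset Pt} (hc : c ∈ S.C) :
    ∃ k, Colr S D chi l c k := by
  rcases h.cov c hc with h1 | h1 | ⟨i, hi, h1⟩
  · have hcard := (h.inv hS).card c h1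
    have hcp := hS.full.cx.cp c hc
    have h3 := hS.full.cx.three c hc
    obtain ⟨a, ha⟩ : c.Nonempty := by
      rw [← Finset.card_pos]; omega
    obtain ⟨b, hb⟩ := hcp.exists_succ h3 ha
    obtain ⟨d, hd⟩ := hcp.exists_succ h3 hb.2.1
    have hda : d ≠ a := by
      rintro rfl
      have : c ≠ {d, b} := by
        intro e
        rw [e] at hcard
        have := pair_card_lt d b
        omega
      apply this
      apply Finset.Subset.antisymm
      · intro u hu
        by_contra hcon
        simp only [Finset.mem_insert, Finset.mem_singleton, not_or] at hcon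
        have e1 := hb.2.2.2 u hu hcon.1 hcon.2
        have e2 := hd.2.2.2 u hu hcon.2 hcon.1
        rw [orient_swap] at e2
        linarith
      · intro u hu
        simp only [Finset.mem_insert, Finset.mem_singleton] at hu
        rcases hu with rfl | rfl
        · exact ha
        · exact hb.2.1
    have hcc : c = {a, b, d} := by
      symm
      apply Finset.eq_of_subset_of_card_le
      · intro u hu
        simp only [Finset.mem_insert, Finset.mem_singleton] at hu
        rcases hu with rfl | rfl | rfl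
        · exact ha
        · exact hb.2.1
        · exact hd.2.1
      · rw [hcard, Finset.card_eq_three.2 ⟨a, b, d, hb.2.2.1, hda.symm, hd.2.2.1, rfl⟩]
    have l1 := hL.cl _ _ ((h.inv hS).sides c h1 a b hb)
    have l2 := hL.cl _ _ ((h.inv hS).sides c h1 b d hd)
    refine ⟨l a, Or.inl ⟨h1, ?_⟩⟩
    intro v hv
    rw [hcc] at hv
    simp only [Finset.mem_insert, Finset.mem_singleton] at hv
    rcases hv with rfl | rfl | rfl
    · rfl
    · exact l1.symm
    · exact (l1.trans l2).symm
  · exact ⟨chi c, Or.inr (Or.inl ⟨h1, rfl⟩)⟩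
  · obtain ⟨k, hk⟩ := h.zone_const hL hns hi
    exact ⟨k, Or.inr (Or.inr ⟨i, hi, h1, hk⟩)⟩

/-- a closed side has the colour of the cell -/
theorem St.colr_closed (h : St S D) (hS : StaOk S) (hL : Lab S D chi l) {c : Finset Pt}
    {k : Bool} (hk : Colr S D chi l c k) {a b : Pt} (hab : HE c a b)
    (hcl : (a, b) ∈ D.Cl) : k = l a := by
  rcases hk with ⟨_, h2⟩ | ⟨h1, h2⟩ | ⟨i, hi, h1, h2⟩
  · exact (h2 a hab.1).symm
  · rw [← h2]
    exact hL.acc a c (Or.inl h1) (h.a1 hS h1 hab hcl).1
  · rcases h.side hi h1 hab with ⟨e, he, e1, e2⟩ | ⟨c', hc', h3⟩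
    · rw [← h2 e he]
      have hba : (e.a, e.b) ∈ D.Cl := by rw [e1, e2]; exact h.symm hS hcl
      rw [hL.cl a b hcl, ← e1]
      cases hs : e.s with
      | none => rw [LabD.re_none hs]
      | some f =>
        rw [LabD.re_some hs]
        rcases h.r1 i hi e he f hs with ⟨_, _, h4⟩ | h4
        · exact absurd hba h4
        · refine hL.acc e.a f (Or.inr ⟨i, hi, e, he, hs⟩) ?_
          rw [h4] at hs ⊢
          exact (h.a2 i hi e he hs hba).1
    · exact absurd hcl (h.io i hi c h1 c' hc' a b hab h3)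

/-- bare zones : both faces have the label of the ring -/
theorem St.bare_lab (h : St S D) (hS : StaOk S) {i : ZI} (hi : i ∈ D.I) (hb : (D.Z i).Bare)
    {k : Bool} (hk : ∀ e ∈ (D.Z i).ring, (LabD.mk chi l).re e = k) {e : RE}
    (he : e ∈ (D.Z i).ring) {t : Finset Pt} (ht : t ∈ S.C) (hte : HE t e.b e.a) :
    t ∈ S.F ∧ chi t = k := by
  obtain ⟨f, hf, f', hf', h1, h2⟩ := h.bare i hi hb
  have e1 : (⟨(D.Z i).x, (D.Z i).y, some f⟩ : RE) ∈ (D.Z i).ring := by
    simp [Zone.ring, h1, ZT.ring]
  have e2 : (⟨(D.Z i).y, (D.Z i).x, some f'⟩ : RE) ∈ (D.Z i).ring := by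
    simp [Zone.ring, h2, ZT.ring]
  have g1 := h.r1 i hi _ e1 f rfl
  have g2 := h.r1 i hi _ e2 f' rfl
  rcases g1 with ⟨_, g1, g1'⟩ | g1
  swap
  · exact absurd g1 (h.F_ne_pair hS hf _ _)
  rcases g2 with ⟨_, g2, g2'⟩ | g2
  swap
  · exact absurd g2 (h.F_ne_pair hS hf' _ _)
  have k1 : chi f = k := hk _ e1
  have k2 : chi f' = k := hk _ e2
  simp only [Zone.ring, h1, h2, ZT.ring, List.mem_append, List.mem_singleton] at he
  rcases he with rfl | rfl
  · have : t = f' := h.side_unique hS ht (hS.FC hf') hte g2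
    rw [this]; exact ⟨hf', k2⟩
  · have : t = f := h.side_unique hS ht (hS.FC hf) hte g1
    rw [this]; exact ⟨hf, k1⟩

/-- the cell on the other side of an open side of a face -/
theorem St.colr_face (h : St S D) (hS : StaOk S) (hL : Lab S D chi l)
    (hns : ∀ v, ¬ Sep D chi l v) {s t : Finset Pt} (hs : s ∈ S.F) (ht : t ∈ S.C) {a b : Pt}
    (hsab : HE s a b) (htba : HE t b a) (ho : (a, b) ∉ D.Cl) {k : Bool}
    (hk : Colr S D chi l t k) : chi s = k := by
  rcases h.f6 s hs a b hsab with h1 | ⟨i, hi, he⟩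
  · exact absurd h1 ho
  obtain ⟨k', hk'⟩ := h.zone_const hL hns hi
  have hks : chi s = k' := hk' _ he
  by_cases hb : (D.Z i).Bare
  · obtain ⟨h2, h3⟩ := h.bare_lab hS hi hb hk' he ht htba
    rw [hks, ← h3]
    rcases hk with ⟨h4, -⟩ | ⟨-, h4⟩ | ⟨j, hj, h4, -⟩
    · exact absurd h2 (h.EF t h4)
    · exact h4
    · exact absurd h2 (h.zE j hj t h4).2
  · obtain ⟨c, hc, h2⟩ := h.right hi hb he
    have hct : c = t := h.side_unique hS (h.zC i hi hc) ht h2 htba
    subst hct
    rcases hk with ⟨h4, -⟩ | ⟨h4, -⟩ | ⟨j, hj, h4, h5⟩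
    · exact absurd h4 (h.zE i hi c hc).1
    · exact absurd h4 (h.zE i hi c hc).2
    · have hji := h.zz j hj i hi c h4 hc
      subst hji
      rw [← h5 _ he]; rfl

/-- adjacent cells have the same colour -/
theorem St.colr_adj (h : St S D) (hS : StaOk S) (hL : Lab S D chi l)
    (hns : ∀ v, ¬ Sep D chi l v) {s t : Finset Pt} (hs : s ∈ S.C) (ht : t ∈ S.C) {a b : Pt}
    (hsab : HE s a b) (htba : HE t b a) {k k' : Bool}
    (hk : Colr S D chi l s k) (hk' : Colr S D chi l t k') : k = k' := by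
  by_cases hcl : (a, b) ∈ D.Cl
  · have hcl' := h.symm hS hcl
    rw [h.colr_closed hS hL hk hsab hcl, h.colr_closed hS hL hk' htba hcl', hL.cl a b hcl]
  have hcl' : (b, a) ∉ D.Cl := fun hh => hcl (h.symm hS hh)
  rcases hk with ⟨h1, -⟩ | ⟨h1, h2⟩ | ⟨i, hi, h1, h2⟩
  · exact absurd ((h.inv hS).sides s h1 a b hsab) hcl
  · rw [← h2]
    exact h.colr_face hS hL hns h1 ht hsab htba hcl hk'
  · rcases hk' with ⟨h3, -⟩ | ⟨h3, h4⟩ | ⟨j, hj, h3, h4⟩
    · exact absurd ((h.inv hS).sides t h3 b a htba) hcl'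
    · rw [← h4]
      exact (h.colr_face hS hL hns h3 hs htba hsab hcl' (Or.inr (Or.inr ⟨i, hi, h1, h2⟩))).symm
    · by_cases hij : i = j
      · subst hij
        obtain ⟨e, he, -⟩ := Zone.exists_a (z := D.Z i) (v := (D.Z i).x) (by simp [Zone.vs])
        rw [← h2 e he, ← h4 e he]
      · rcases h.side hi h1 hsab with ⟨e, he, e1, e2⟩ | ⟨c', hc', h5⟩
        · cases hes : e.s with
          | none =>
            have := h.r2 i hi e he hes
            rw [e1, e2] at this
            exact absurd this hcl'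
          | some f =>
            rcases h.r1 i hi e he f hes with ⟨h6, h7, -⟩ | h6
            · rw [e1, e2] at h7
              have : f = t := h.side_unique hS (hS.FC h6) ht h7 htba
              subst this
              exact absurd h6 (h.zE j hj f h3).2
            · rw [h6] at hes
              rcases h.f7 i hi e he hes with h7 | ⟨j', hj', hji, h7⟩
              · rw [e1, e2] at h7
                exact absurd h7 hcl'
              · by_cases hb : (D.Z j').Bare
                · obtain ⟨⟨f2, hf2, e3, _⟩, _⟩ := h.bare_ring hS hj' hb h7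
                  simp only [Option.some.injEq] at e3
                  exact absurd e3.symm (h.F_ne_pair hS hf2 _ _)
                · obtain ⟨c, hc, h8⟩ := h.right hj' hb h7
                  have h8' : HE c e.a e.b := h8
                  rw [e1, e2] at h8'
                  have : c = t := h.side_unique hS (h.zC j' hj' hc) ht h8' htba
                  subst this
                  have := h.zz j' hj' j hj c hc h3
                  subst this
                  rw [← h2 e he, ← h4 _ h7, LabD.re_some hes]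
                  rfl
        · have : c' = t := h.side_unique hS (h.zC i hi hc') ht h5 htba
          subst this
          exact absurd (h.zz i hi j hj c' hc' h3) hij

/-- **end of the main loop** : a Lab without separating links is constant -/
theorem lab_const (hS : StaOk S) (hG : Gen S.P) (h : St S D) (hL : Lab S D chi l)
    (hns : ∀ v, ¬ Sep D chi l v) :
    ∃ c, (∀ f, Fc S D f → chi f = c) ∧ (∀ v ∈ S.P, v ∉ D.Fr → l v = c) := by
  classical
  have hex : ∃ c, ∀ s ∈ S.C, Colr S D chi l s c := by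
    rcases S.C.eq_empty_or_nonempty with h0 | ⟨c0, hc0⟩
    · refine ⟨true, fun s hs => ?_⟩
      rw [h0] at hs; simp at hs
    · obtain ⟨k, hk⟩ := h.colr_exists hS hL hns hc0
      refine ⟨k, ?_⟩
      by_contra hcon
      have hconn := hS.full.conn hG
      have hne : (S.C.filter (fun s => Colr S D chi l s k)) ≠ S.C := by
        intro e
        apply hcon
        intro s hs
        rw [← e, Finset.mem_filter] at hs
        exact hs.2
      obtain ⟨s, hs, t, ht, hts, a, b, h1, h2⟩ := hconn _ (Finset.filter_subset _ _)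
        ⟨c0, Finset.mem_filter.2 ⟨hc0, hk⟩⟩ hne
      rw [Finset.mem_filter] at hs
      obtain ⟨k', hk'⟩ := h.colr_exists hS hL hns ht
      have := h.colr_adj hS hL hns hs.1 ht h1 h2 hs.2 hk'
      subst this
      exact hts (Finset.mem_filter.2 ⟨ht, hk'⟩)
  obtain ⟨c, hc⟩ := hex
  have hF : ∀ f ∈ S.F, chi f = c := by
    intro f hf
    rcases hc f (hS.FC hf) with ⟨h1, -⟩ | ⟨-, h1⟩ | ⟨i, hi, h1, -⟩
    · exact absurd hf (h.EF f h1)
    · exact h1
    · exact absurd hf (h.zE i hi f h1).2
  have hZ : ∀ i ∈ D.I, ∀ e ∈ (D.Z i).ring, (LabD.mk chi l).re e = c := by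
    intro i hi e he
    by_cases hb : (D.Z i).Bare
    · obtain ⟨⟨f, hf, e1, -⟩, -⟩ := h.bare_ring hS hi hb he
      rw [LabD.re_some e1]
      exact hF f hf
    · obtain ⟨q, hq, -⟩ := Zone.root (h.okt i hi).1 (h.okt i hi).2 hb
      rcases hc q (h.zC i hi hq) with ⟨h1, -⟩ | ⟨h1, -⟩ | ⟨j, hj, h1, h2⟩
      · exact absurd h1 (h.zE i hi q hq).1
      · exact absurd h1 (h.zE i hi q hq).2
      · have := h.zz j hj i hi q h1 hq
        subst this
        exact h2 e he
  refine ⟨c, ?_, ?_⟩
  · rintro f (hf | ⟨i, hi, e, he, hs⟩)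
    · exact hF f hf
    · have := hZ i hi e he
      rw [LabD.re_some hs] at this
      exact this
  · intro v hv hFr
    by_cases hA : v ∈ D.A
    · have hI := (h.l1 v hA).1
      obtain ⟨e, e', hat⟩ := exists_at (h.l1 v hA).2.2.2.1
      rcases h.l6 v hA hFr _ (Or.inl rfl) e e' hat with ⟨-, h1⟩ | ⟨h1, -⟩
      · rw [← h.lab_att hL hI hat.2.1 (Or.inl hat.2.2.2) hFr h1]
        exact hZ _ hI _ hat.2.1
      · rw [← h.lab_att hL hI hat.1 (Or.inr hat.2.2.1) hFr h1]
        exact hZ _ hI _ hat.1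
    · obtain ⟨q, hq, hqE, hvq⟩ := (h.inv hS).free v hv
      rcases h.cov q hq with h1 | h1 | ⟨i, hi, h1⟩
      · exact absurd h1 hqE
      · rw [← hF q h1]
        exact (hL.acc v q (Or.inl h1) ⟨hvq, Or.inl hA⟩).symm
      · have hvs : v ∈ (D.Z i).vs := by
          rw [Zone.mem_vs]
          unfold Zone.cells at h1
          rw [Finset.mem_union] at h1
          unfold Zone.ap
          rw [List.mem_append]
          rcases h1 with h1 | h1
          · rcases ZT.mem_cells_sub h1 v hvq with h2 | h2 | h2 <;> tauto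
          · rcases ZT.mem_cells_sub h1 v hvq with h2 | h2 | h2 <;> tauto
        obtain ⟨e, he, hea⟩ := Zone.exists_a hvs
        rw [← h.lab_non hL hi he (Or.inl hea) hA]
        exact hZ i hi e he

/-- **output of the crossing part** : every Lab is constant in the final state -/
theorem crossing_done (hS : StaOk S) (hG : Gen S.P) (h : St S D) :
    ∃ D' : Dyn, St S D' ∧
      (∀ (chi : Finset Pt → Bool) (l : Pt → Bool), Lab S D' chi l →
        ∃ c, (∀ f, Fc S D' f → chi f = c) ∧ (∀ v ∈ S.P, v ∉ D'.Fr → l v = c)) ∧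
      D'.I ⊆ D.I ∧ (∀ j ∈ D'.I, ∀ v ∈ (D'.Z j).vs, v ∈ (D.Z j).vs) := by
  obtain ⟨D', h', h1, h2, h3⟩ := main_loop hS h
  exact ⟨D', h', fun chi l hL => lab_const hS hG h' hL (h1 chi l hL), h2, h3⟩

end Pool.Agent.RFX

end
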