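import Mathlib
import Pool.Agent.RFM.P15

set_option autoImplicit false

/-!
# RFM/P19 (MP_72a26e_co): the files RFX/IniG2, RFX/IniG3, RFX/IniG4, RFX/IniG5, RFX/IniG6, RFX/Ini, merged to save build time
-/

section

set_option autoImplicit false

/-!
# RFX/IniG2 : initial state, group 2 (zones) (MP_72a26e_co)
-/

namespace Pool.Agent.RFX

open Pool.Agent.RFT

namespace IX

variable {X : IX}

private theorem ok_of_ns {t : ZT} : ∀ {x y : Pt},
    (∀ p q a, (p, q, a) ∈ t.ns x y → 0 < orient p q a) → t.Ok x y := by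
  induction t with
  | leaf f => intro x y _; trivial
  | cut => intro x y _; trivial
  | node a l r ihl ihr =>
    intro x y hn
    refine ⟨hn x y a (by simp [ZT.ns]), ihl ?_, ihr ?_⟩
    · intro p q b hb
      exact hn p q b (by simp only [ZT.ns, List.mem_cons, List.mem_append]; exact Or.inr (Or.inl hb))
    · intro p q b hb
      exact hn p q b (by simp only [ZT.ns, List.mem_cons, List.mem_append]; exact Or.inr (Or.inr hb))

private theorem ok_z (h : X.Ok) (g : Pt × Pt) : (X.τ g).z.Ok g.1 g.2 := by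
  apply ok_of_ns
  intro p q a hn
  rw [FT.z_ns] at hn
  exact (h.til.node g p q a hn).2

private theorem gate_ne (h : X.Ok) {g : Pt × Pt} {G : Gate} (hG : X.gate g = some G) :
    G.x ≠ G.y ∧ G.x ≠ G.r ∧ G.y ≠ G.r := by
  obtain ⟨l, r, hV⟩ := gate_V h hG
  have hn : (G.x, G.y, G.r) ∈ G.V.ns G.x G.y := by rw [hV]; simp [ZT.ns]
  exact h.til.node_ne (gate_ns h hG hn)

theorem g_nd (h : X.Ok) : ∀ i ∈ X.I, (X.Z i).vs.Nodup := by
  intro i hi
  rcases mem_I.1 hi with hB | hGt | hH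
  · have hb := bk_b0 hB
    obtain ⟨N, w⟩ := i
    rw [Z_B hb]
    simp only [Zone.vs, ZT.rl_apex, FT.z_ap]
    have hM : (N, w) ∈ X.M0 := (h.til.nf.m0 N w).2 (Or.inr (Or.inr (Or.inl hb)))
    have hNw : N ≠ w := h.til.m0ne hM
    have hR := (h.til.nf.bHull N w hb).2.2
    have hN : ∀ g, N ∉ (X.τ g).ap := fun g hh => h.til.apR g _ hh hR
    obtain ⟨g', hg', hg1, hg2⟩ := h.til.tipA N w hb
    have hw1 : w ∉ (X.τ (N, w)).ap := fun hh => hg1 (h.til.dj _ _ _ hg' hh)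
    have hw2 : w ∉ (X.τ (w, N)).ap := fun hh => hg2 (h.til.dj _ _ _ hg' hh)
    have hd : ∀ a ∈ (X.τ (N, w)).ap, a ∉ (X.τ (w, N)).ap := by
      intro a ha ha'
      have := h.til.dj _ _ a ha ha'
      simp only [Prod.mk.injEq] at this
      exact hNw this.1
    have n1 := h.til.nodup (N, w)
    have n2 := h.til.nodup (w, N)
    rw [List.nodup_cons, List.nodup_append, List.nodup_cons]
    refine ⟨?_, n1, ⟨hw2, n2⟩, ?_⟩
    · simp only [List.mem_append, List.mem_cons, not_or]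
      exact ⟨hN _, hNw, hN _⟩
    · intro a ha b hb' hab
      subst hab
      rcases List.mem_cons.1 hb' with h1 | h1
      · exact hw1 (h1 ▸ ha)
      · exact hd a ha h1
  · obtain ⟨G, hG⟩ := gt_gate hGt
    rw [Z_G h hG]
    simp only [Zone.vs, ZT.rl_apex, ZT.apex]
    obtain ⟨n1, n2, n3⟩ := gate_ne h hG
    have hnd : G.V.apex.Nodup := by
      obtain ⟨A, B, e1, -⟩ := ZT.apex_split (gate_sub' h hG)
      rw [FT.z_ap] at e1
      have := h.til.nodup i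
      rw [e1] at this
      exact (List.nodup_append.1 (List.nodup_append.1 this).1).2.1
    have hr : X.Ka i G.r := by
      obtain ⟨l, r, hV⟩ := gate_V h hG
      rw [ka_V h hG, hV]
      simp [ZT.apex]
    have hx : G.x ∉ G.V.apex := by
      intro hh
      exact n2 (host_eq h ((ka_V h hG).2 hh) hr (gate_j h hG)).1
    have hy : G.y ∉ G.V.apex := by
      intro hh
      have hj : Joined X.Cl G.y G.r :=
        (Joined.single (symm h _ _ (gate_cl h hG))).trans (gate_j h hG)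
      exact n3 (host_eq h ((ka_V h hG).2 hh) hr hj).1
    rw [List.nodup_cons, List.nodup_append]
    refine ⟨?_, hnd, List.nodup_singleton _, ?_⟩
    · simp only [List.mem_append, List.mem_singleton, not_or]
      exact ⟨hx, n1⟩
    · intro a ha b hb' hab
      subst hab
      rw [List.mem_singleton] at hb'
      exact hy (hb' ▸ ha)
  · obtain ⟨g3, g4, hq⟩ := mem_Hk.1 hH
    obtain ⟨g1, g2⟩ := i
    simp only at hq
    rw [Z_gap h hq]
    simp only [Zone.vs, ZT.rl_apex, ZT.apex]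
    obtain ⟨n12, n13, n14, n23, n24, n34⟩ := h.til.nf.gNe g1 g2 g3 g4 hq
    have hr := h.til.nf.gRes g1 g2 g3 g4 hq
    have hA : ∀ v, (v = g1 ∨ v = g2 ∨ v = g3 ∨ v = g4) → ∀ g, v ∉ (X.τ g).ap :=
      fun v hv g hh => h.til.apR g _ hh (hr v hv).1
    have a1 := hA g1 (Or.inl rfl)
    have a2 := hA g2 (Or.inr (Or.inl rfl))
    have a3 := hA g3 (Or.inr (Or.inr (Or.inl rfl)))
    have a4 := hA g4 (Or.inr (Or.inr (Or.inr rfl)))
    have hap : (X.gapT g1 g2 g3 g4).apex =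
        (X.τ (g1, g3)).ap ++ (g3 :: g4 :: (X.τ (g4, g2)).ap) := by
      rcases gap_cases h hq with ⟨-, -, -, -, h5⟩ | ⟨-, -, -, -, h5⟩ <;>
        rw [h5] <;> simp [ZT.apex]
    have hd : ∀ a ∈ (X.τ (g1, g3)).ap, a ∉ (X.τ (g4, g2)).ap := by
      intro a ha ha'
      have := h.til.dj _ _ a ha ha'
      simp only [Prod.mk.injEq] at this
      exact n14 this.1
    have m1 := h.til.nodup (g1, g3)
    have m2 := h.til.nodup (g4, g2)
    rw [hap, List.nodup_cons, List.nodup_append, List.nodup_append, List.nodup_cons,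
      List.nodup_cons]
    refine ⟨?_, ⟨m1, ⟨?_, a4 _, m2⟩, ?_⟩, List.nodup_singleton _, ?_⟩
    · simp only [List.mem_append, List.mem_cons, not_or, List.not_mem_nil,
        not_false_eq_true, and_true]
      exact ⟨⟨a1 _, n13, n14, a1 _⟩, n12⟩
    · simp only [List.mem_cons, not_or]
      exact ⟨n34, a3 _⟩
    · intro a ha b hb' hab
      subst hab
      rcases List.mem_cons.1 hb' with h1 | h1
      · exact a3 _ (h1 ▸ ha)
      · rcases List.mem_cons.1 h1 with h1 | h1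
        · exact a4 _ (h1 ▸ ha)
        · exact hd a ha h1
    · intro a ha b hb' hab
      subst hab
      rw [List.mem_singleton] at hb'
      subst hb'
      simp only [List.mem_append, List.mem_cons] at ha
      rcases ha with h1 | h1 | h1 | h1
      · exact a2 _ h1
      · exact n23 h1
      · exact n24 h1
      · exact a2 _ h1

theorem g_okt (h : X.Ok) : ∀ i ∈ X.I, (X.Z i).t.Ok (X.Z i).x (X.Z i).y ∧
    (X.Z i).t'.Ok (X.Z i).y (X.Z i).x := by
  intro i hi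
  rcases mem_I.1 hi with hB | hGt | hH
  · rw [Z_B (bk_b0 hB)]
    simp only [ZT.rl_ok]
    exact ⟨ok_z h i, ok_z h (i.2, i.1)⟩
  · obtain ⟨G, hG⟩ := gt_gate hGt
    rw [Z_G h hG]
    simp only [ZT.rl_ok]
    refine ⟨ok_of_ns ?_, trivial⟩
    intro p q a hn
    exact (h.til.node i p q a (gate_ns h hG hn)).2
  · obtain ⟨g3, g4, hq⟩ := mem_Hk.1 hH
    obtain ⟨g1, g2⟩ := i
    simp only at hq
    rw [Z_gap h hq]
    simp only [ZT.rl_ok]
    refine ⟨?_, trivial⟩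
    rcases gap_cases h hq with ⟨o1, o2, -, -, h5⟩ | ⟨o1, o2, -, -, h5⟩
    · rw [h5]
      exact ⟨o1, ok_z h (g1, g3), o2, trivial, ok_z h (g4, g2)⟩
    · rw [h5]
      exact ⟨o1, ⟨o2, ok_z h (g1, g3), trivial⟩, ok_z h (g4, g2)⟩

/-- a side of a cell outside `E` whose other side is no cell of `E` and not the outer face -/
private theorem not_cl (h : X.Ok) {c c' : Finset Pt} (hc : c ∈ X.C) (hc' : c' ∈ X.C)
    (hE : c ∉ X.E) (hE' : c' ∉ X.E) {a b : Pt} (h1 : HE c a b) (h2 : HE c' b a) :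
    (a, b) ∉ X.Cl := by
  intro hcl
  rcases (cl_iff h).1 hcl with h3 | h3 | ⟨d, hd, h3 | h3⟩
  · exact h.til.not_out hc' h2 h3
  · exact h.til.not_out hc h1 h3
  · exact hE (h.til.uniq hc (e_sub h hd) h1 h3 ▸ hd)
  · exact hE' (h.til.uniq hc' (e_sub h hd) h2 h3 ▸ hd)

theorem g_bare (h : X.Ok) : ∀ i ∈ X.I, (X.Z i).Bare → ∃ f ∈ X.F, ∃ f' ∈ X.F,
    (X.Z i).t = ZT.leaf f ∧ (X.Z i).t' = ZT.leaf f' := by
  intro i hi hbare
  rcases mem_I.1 hi with hB | hGt | hH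
  · have hb := bk_b0 hB
    have hdrop := (mem_Bk.1 hB).2
    rw [Z_B hb] at hbare ⊢
    simp only [Zone.Bare, ZT.rl_bare, FT.z_bare] at hbare
    obtain ⟨b1, b2⟩ := hbare
    have hnd : ∀ c ∈ X.C, (HE c i.1 i.2 ∨ HE c i.2 i.1) → ¬ X.Nd c := by
      intro c hc h1 h2
      exact hdrop ⟨b1, b2, c, hc, h2, h1⟩
    obtain ⟨f1, f2⟩ := b0_free h hb
    obtain ⟨t, ht, h1, h2, h3⟩ := h.til.free_left f1
    obtain ⟨t', ht', h1', h2', h3'⟩ := h.til.free_left f2
    simp only at h1'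
    have hF : t ∈ X.F := mem_F.2 ⟨ht, h2, h3, hnd t ht (Or.inl h1)⟩
    have hF' : t' ∈ X.F := mem_F.2 ⟨ht', h2', h3', hnd t' ht' (Or.inr h1')⟩
    have hE : t ∉ X.E := fun hh => g_EF h t hh hF
    have hE' : t' ∉ X.E := fun hh => g_EF h t' hh hF'
    have c1 : (i.1, i.2) ∉ X.Cl := not_cl h ht ht' hE hE' h1 h1'
    have c2 : (i.2, i.1) ∉ X.Cl := not_cl h ht' ht hE' hE h1' h1
    refine ⟨t, hF, t', hF', ?_, ?_⟩
    · show (X.τ i).z.rl X.s i.1 i.2 = ZT.leaf t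
      rw [b1]
      simp only [FT.z, ZT.rl]
      rw [s_face h hF h1 c1]
      rfl
    · show (X.τ (i.2, i.1)).z.rl X.s i.2 i.1 = ZT.leaf t'
      rw [b2]
      simp only [FT.z, ZT.rl]
      rw [s_face h hF' h1' c2]
      rfl
  · exfalso
    obtain ⟨G, hG⟩ := gt_gate hGt
    rw [Z_G h hG] at hbare
    simp only [Zone.Bare, ZT.rl_bare] at hbare
    obtain ⟨l, r, hV⟩ := gate_V h hG
    rw [hV] at hbare
    exact hbare.1
  · exfalso
    obtain ⟨g3, g4, hq⟩ := mem_Hk.1 hH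
    obtain ⟨g1, g2⟩ := i
    simp only at hq
    rw [Z_gap h hq] at hbare
    simp only [Zone.Bare, ZT.rl_bare] at hbare
    rcases gap_cases h hq with ⟨-, -, -, -, h5⟩ | ⟨-, -, -, -, h5⟩
    · rw [h5] at hbare
      exact hbare.1
    · rw [h5] at hbare
      exact hbare.1

theorem g_io (h : X.Ok) : ∀ i ∈ X.I, ∀ c ∈ (X.Z i).cells, ∀ c' ∈ (X.Z i).cells, ∀ a b, HE c a b →
    HE c' b a → (a, b) ∉ X.Cl := by
  intro i hi c hc c' hc' a b h1 h2
  exact not_cl h (g_zC h i hi hc) (g_zC h i hi hc') (g_zE h i hi c hc).1 (g_zE h i hi c' hc').1 h1 h2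

end IX

end Pool.Agent.RFX

end

section

set_option autoImplicit false

/-!
# RFX/IniG3 : initial state, group 3 (ring edges) (MP_72a26e_co)
-/

namespace Pool.Agent.RFX

open Pool.Agent.RFT

/-- two opposite ring edges only exist in a zone without triangles -/
theorem Zone.bare_of_rev {z : Zone} (hn : z.vs.Nodup) {e e' : RE} (he : e ∈ z.ring)
    (he' : e' ∈ z.ring) (h1 : e'.a = e.b) (h2 : e'.b = e.a) : z.Bare := by
  have hb : z.ring.map RE.b = z.vs.rotate 1 := by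
    rw [Zone.ring_b]
    unfold Zone.vs
    rw [List.rotate_cons_succ, List.rotate_zero]
    simp
  have ha : z.ring.map RE.a = z.vs := z.ring_a
  have hlen : z.ring.length = z.vs.length := by
    rw [← ha, List.length_map]
  obtain ⟨i, hi, rfl⟩ := List.getElem_of_mem he
  obtain ⟨j, hj, rfl⟩ := List.getElem_of_mem he'
  have ea : ∀ k (hk : k < z.ring.length), (z.ring[k]).a = z.vs[k]'(by omega) := by
    intro k hk
    have : (z.ring.map RE.a)[k]'(by rw [List.length_map]; exact hk) = (z.ring[k]).a :=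
      List.getElem_map ..
    rw [← this]
    simp only [ha]
  have hpos : 0 < z.vs.length := by unfold Zone.vs; simp
  have eb : ∀ k (hk : k < z.ring.length),
      (z.ring[k]).b = z.vs[(k + 1) % z.vs.length]'(Nat.mod_lt _ hpos) := by
    intro k hk
    have : (z.ring.map RE.b)[k]'(by rw [List.length_map]; exact hk) = (z.ring[k]).b :=
      List.getElem_map ..
    rw [← this]
    simp only [hb]
    rw [List.getElem_rotate]
  rw [ea, eb] at h1
  rw [ea, eb] at h2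
  have k1 : j = (i + 1) % z.vs.length := (List.Nodup.getElem_inj_iff hn).1 h1
  have k2 : (j + 1) % z.vs.length = i := (List.Nodup.getElem_inj_iff hn).1 h2
  have hle : z.vs.length ≤ 2 := by
    by_contra hc
    push Not at hc
    rw [k1] at k2
    rw [Nat.mod_add_mod] at k2
    have hi' : i < z.vs.length := by omega
    rcases Nat.lt_or_ge (i + 2) z.vs.length with h3 | h3
    · rw [show i + 1 + 1 = i + 2 by ring, Nat.mod_eq_of_lt h3] at k2
      omega
    · rw [show i + 1 + 1 = i + 2 by ring, Nat.mod_eq_sub_mod h3, Nat.mod_eq_of_lt (by omega)] at k2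
      omega
  unfold Zone.vs at hle
  simp only [List.length_cons, List.length_append] at hle
  have t1 : z.t.apex = [] := List.length_eq_zero_iff.1 (by omega)
  have t2 : z.t'.apex = [] := List.length_eq_zero_iff.1 (by omega)
  constructor
  · cases ht : z.t with
    | leaf f => exact trivial
    | cut => exact trivial
    | node a l r => rw [ht] at t1; simp [ZT.apex] at t1
  · cases ht : z.t' with
    | leaf f => exact trivial
    | cut => exact trivial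
    | node a l r => rw [ht] at t2; simp [ZT.apex] at t2

namespace IX

variable {X : IX}

theorem mem_F_faces {f : Finset Pt} : f ∈ X.F ↔ f ∈ faces X.C X.E0 X.G0 X.τ := by
  rw [mem_F, mem_faces]
  unfold Nd
  constructor
  · rintro ⟨h1, h2, h3, h4⟩
    exact ⟨h1, h2, h3, fun g p q a hn he => h4 ⟨g, p, q, a, hn, he⟩⟩
  · rintro ⟨h1, h2, h3, h4⟩
    exact ⟨h1, h2, h3, fun ⟨g, p, q, a, hn, he⟩ => h4 g p q a hn he⟩

theorem F_ne_pair (h : X.Ok) {f : Finset Pt} (hf : f ∈ X.F) (a b : Pt) : f ≠ {a, b} := by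
  intro he
  have h1 := h.til.nf.full.cx.three f (mem_F.1 hf).1
  rw [he] at h1
  have := pair_card_lt a b
  omega

/-- an open leaf of a tree is a leaf of the kept part -/
theorem kl_of_lv (h : X.Ok) {g : Pt × Pt} {a b : Pt} (hl : h.til.Lv g a b)
    (hcl : (a, b) ∉ X.Cl) : X.Kl g (a, b) := by
  by_cases hg : g ∈ X.Cl0
  · rcases h.til.leaf_right hl with ⟨h1, h2⟩ | ⟨p, q, c, hn, h1, h2⟩
    · exact absurd (cl0_sub h (h2 ▸ hg)) hcl
    · have hk : X.Kp g (p, q, c) := by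
        rw [kp_iff h hn]
        intro hgv
        exact hcl ((cl_iff h).2 (Or.inr (Or.inr ⟨_, gv_E h hgv, Or.inr h2⟩)))
      have hu := kp_upper h hk
      rcases h1 with ⟨rfl, rfl⟩ | ⟨rfl, rfl⟩
      · rcases hu.1 with h3 | ⟨b', h3⟩
        · exact h3
        · exact absurd rfl (h.til.leaf_not_base hl h3.1).2.2
      · rcases hu.2 with h3 | ⟨b', h3⟩
        · exact h3
        · exact absurd rfl (h.til.leaf_not_base hl h3.1).2.2
  · exact Or.inl ⟨hg, hl.2⟩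

/-- a bare end-edge `{a, b}` with a node on the left of `(a, b)` : `(b, a)` is a leaf of the tree of the
node -/
theorem lv_of_drop (h : X.Ok) {a b : Pt} (hab : (a, b) ∈ X.M0) (h1 : X.τ (a, b) = FT.lf)
    (h2 : X.τ (b, a) = FT.lf) {c : Finset Pt} (hc : X.Nd c) (hs : HE c a b) :
    ∃ g, h.til.Lv g b a ∧ X.τ g ≠ FT.lf := by
  obtain ⟨g, p, q, d, hn, rfl⟩ := hc
  have hne : X.τ g ≠ FT.lf := by
    intro h0
    rw [h0] at hn
    simp at hn
  have hfree := h.til.free g hne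
  have hba : (b, a) ∈ X.M0 := h.til.m0symm hab
  refine ⟨g, ⟨hfree, ?_⟩, hne⟩
  have hnb : ∀ e, (b, a, e) ∉ (X.τ g).ns g.1 g.2 := by
    intro e he
    have := h.til.base g b a e he hba
    rw [← this] at hne
    exact hne h2
  have hn' := hn
  rw [← FT.z_ns] at hn'
  obtain ⟨u1, u2⟩ := ZT.upper_cases hn'
  rw [FT.z_lv] at u1 u2
  simp only [FT.z_ns] at u1 u2
  rcases h.til.node_sides hn hs with ⟨rfl, rfl⟩ | ⟨rfl, rfl⟩ | ⟨rfl, rfl⟩
  · exfalso
    have := h.til.base g _ _ d hn hab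
    rw [← this] at hne
    exact hne h1
  · rcases u2 with h3 | ⟨e, h3⟩
    · exact h3
    · exact absurd h3 (hnb e)
  · rcases u1 with h3 | ⟨e, h3⟩
    · exact h3
    · exact absurd h3 (hnb e)

theorem own_kl_of_lv (h : X.Ok) {g : Pt × Pt} {a b : Pt} (hl : h.til.Lv g a b)
    (hcl : (a, b) ∉ X.Cl) (hne : X.τ g ≠ FT.lf) : ∃ i, X.Own g i ∧ X.Kl g (a, b) := by
  have hk := kl_of_lv h hl hcl
  rcases own_of_kl h hl.1 hk with ⟨i, hi⟩ | ⟨-, -, h1, -⟩
  · exact ⟨i, hi, hk⟩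
  · exact absurd h1 hne

theorem g_r1 (h : X.Ok) : ∀ i ∈ X.I, ∀ e ∈ (X.Z i).ring, ∀ f, e.s = some f →
    (f ∈ X.F ∧ HE f e.a e.b ∧ (e.a, e.b) ∉ X.Cl) ∨ f = {e.a, e.b} := by
  intro i hi e he f hf
  rcases (ring_iff h hi).1 he with ⟨g, -, -, h3⟩ | ⟨G, -, rfl⟩ | ⟨g3, g4, -, rfl | rfl⟩
  · rw [hf] at h3
    obtain ⟨h4, h5 | h5⟩ := s_some h3.symm
    · exact Or.inl ⟨h5.1, h5.2, h4⟩
    · exact Or.inr h5.2
  · simp at hf
  · simp at hf
  · simp at hf

theorem g_r2 (h : X.Ok) : ∀ i ∈ X.I, ∀ e ∈ (X.Z i).ring, e.s = none → (e.a, e.b) ∈ X.Cl := by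
  intro i hi e he hs
  rcases (ring_iff h hi).1 he with ⟨g, -, -, h3⟩ | ⟨G, hG, rfl⟩ | ⟨g3, g4, hq, rfl | rfl⟩
  · rw [hs] at h3
    exact s_none.1 h3.symm
  · exact symm h _ _ (gate_cl h hG)
  · exact cl0_sub h (hk_not_b0 h hq).2.2.1
  · exact cl0_sub h (hk_not_b0 h hq).2.1

theorem g_f6 (h : X.Ok) : ∀ f ∈ X.F, ∀ a b, HE f a b →
    (a, b) ∈ X.Cl ∨ ∃ i ∈ X.I, (⟨a, b, some f⟩ : RE) ∈ (X.Z i).ring := by
  intro f hf a b hab
  by_cases hcl : (a, b) ∈ X.Cl
  · exact Or.inl hcl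
  right
  have hs := s_face h hf hab hcl
  have fin : ∀ g i, X.Own g i → X.Kl g (a, b) → ∃ i ∈ X.I, (⟨a, b, some f⟩ : RE) ∈ (X.Z i).ring := by
    intro g i hi hk
    exact ⟨i, own_I hi, (ring_iff h (own_I hi)).2 (Or.inl ⟨g, hi, hk, hs.symm⟩)⟩
  obtain ⟨g, hl, hM⟩ := h.til.face_leaf (mem_F_faces.1 hf) hab
  have hk := kl_of_lv h hl hcl
  rcases own_of_kl h hl.1 hk with ⟨i, hi⟩ | ⟨-, rfl, h1, h2, h3⟩
  · exact fin g i hi hk
  · -- a dropped end-edge
    have hD : ∃ c ∈ X.C, X.Nd c ∧ (HE c a b ∨ HE c b a) := by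
      rcases h3 with ⟨-, h3⟩ | ⟨-, h3⟩
      · exact h3.2.2
      · obtain ⟨c, hc, hc1, hc2⟩ := h3.2.2
        exact ⟨c, hc, hc1, hc2.symm⟩
    obtain ⟨c, hc, hc1, hc2 | hc2⟩ := hD
    · have := h.til.uniq hc (mem_F.1 hf).1 hc2 hab
      rw [this] at hc1
      exact absurd hc1 (mem_F.1 hf).2.2.2
    · obtain ⟨g', hl', hne⟩ := lv_of_drop h (h.til.m0symm hl.1.1) h2 h1 hc1 hc2
      obtain ⟨i, hi, hk'⟩ := own_kl_of_lv h hl' hcl hne
      exact fin g' i hi hk'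

theorem own_free (h : X.Ok) {g : Pt × Pt} {i : ZI} (ho : X.Own g i) :
    FreeDart X.P (X.E0 ∪ X.G0) X.M0 g := by
  rcases ho with ⟨h1, h2⟩ | ⟨h1, rfl⟩ | ⟨g3, g4, hq, h1⟩
  · have := b0_free h (bk_b0 h1)
    rcases h2 with rfl | rfl
    · exact this.1
    · exact this.2
  · exact (mem_gs.1 (mem_Gt.1 h1).1).1
  · have := h.til.nf.gOpen _ _ _ _ hq
    rcases h1 with rfl | rfl
    · exact this.2.2.1
    · exact this.2.2.2

/-- the cell on the left of an open end-edge without a face on its left is a node -/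
theorem nd_left (h : X.Ok) {a b : Pt} (hB : (a, b) ∈ X.B0 ∨ (b, a) ∈ X.B0)
    (hcl : (a, b) ∉ X.Cl) (hnf : ∀ c ∈ X.F, ¬ HE c a b) : ∃ c ∈ X.C, X.Nd c ∧ HE c a b := by
  have hM : (a, b) ∈ X.M0 := (h.til.nf.m0 a b).2 (Or.inr (Or.inr hB))
  rcases h.til.m0left hM with ⟨t, ht, hs⟩ | hs
  · rcases h.til.cell_cases ht with h1 | h1 | ⟨g, p, q, c, hn, rfl⟩ | h1
    · exact absurd ((cl_iff h).2 (Or.inr (Or.inr ⟨t, e0_sub h h1, Or.inl hs⟩))) hcl
    · exfalso
      rcases hB with hB | hB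
      · exact ((h.til.nf.bE _ _ hB).2.2 t h1).1 hs.1
      · exact ((h.til.nf.bE _ _ hB).2.2 t h1).1 hs.2.1
    · exact ⟨_, ht, ⟨g, p, q, c, hn, rfl⟩, hs⟩
    · exact absurd hs (hnf t (mem_F_faces.2 h1))
  · exact absurd ((cl_iff h).2 (Or.inr (Or.inl hs))) hcl

theorem g_f7 (h : X.Ok) : ∀ i ∈ X.I, ∀ e ∈ (X.Z i).ring, e.s = some {e.a, e.b} →
    (e.a, e.b) ∈ X.Cl ∨
      ∃ j ∈ X.I, j ≠ i ∧ (⟨e.b, e.a, some {e.a, e.b}⟩ : RE) ∈ (X.Z j).ring := by
  rintro i hi ⟨a, b, s⟩ he hs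
  simp only at hs ⊢
  subst hs
  by_cases hcl : (a, b) ∈ X.Cl
  · exact Or.inl hcl
  right
  have hcl' : (b, a) ∉ X.Cl := fun hc => hcl (symm h _ _ hc)
  -- the conclusion from a kept leaf `(b, a)`
  have fin : ∀ g' j, X.Own g' j → X.Kl g' (b, a) → (∀ c ∈ X.F, ¬ HE c b a) →
      ∃ j ∈ X.I, j ≠ i ∧ (⟨b, a, some {a, b}⟩ : RE) ∈ (X.Z j).ring := by
    intro g' j hj hk hno
    have hr : (⟨b, a, some {a, b}⟩ : RE) ∈ (X.Z j).ring := by
      refine (ring_iff h (own_I hj)).2 (Or.inl ⟨g', hj, hk, ?_⟩)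
      simp only
      rw [s_digon hno hcl', Finset.pair_comm]
    refine ⟨j, own_I hj, ?_, hr⟩
    rintro rfl
    have hB := Zone.bare_of_rev (g_nd h _ hi) he hr rfl rfl
    obtain ⟨f, hf, f', hf', ht, ht'⟩ := g_bare h _ hi hB
    unfold Zone.ring at he
    rw [ht, ht', List.mem_append] at he
    simp only [ZT.ring, List.mem_singleton, RE.mk.injEq, Option.some.injEq] at he
    rcases he with he | he
    · exact F_ne_pair h hf _ _ he.2.2.symm
    · exact F_ne_pair h hf' _ _ he.2.2.symm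
  rcases (ring_iff h hi).1 he with ⟨g, ho, hk, h3⟩ | ⟨G, -, h3⟩ | ⟨g3, g4, -, h3 | h3⟩
  rotate_left
  · simp at h3
  · simp at h3
  · simp at h3
  simp only at hk h3
  have hnf : ∀ c ∈ X.F, ¬ HE c a b := by
    rcases (s_some h3.symm).2 with h4 | h4
    · exact absurd rfl (F_ne_pair h h4.1 a b)
    · exact h4.1
  have hl : h.til.Lv g a b := ⟨own_free h ho, hk.lv h⟩
  rcases h.til.leaf_left hl with ⟨f, hf, hs, -⟩ | ⟨h1, h2, g', hl', h4, h5⟩
  · exact absurd hs (hnf f (mem_F_faces.2 hf))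
  by_cases hM : (a, b) ∈ X.M0
  · rcases h5 hM with ⟨c1, rfl, c3⟩ | ⟨rfl, c2, c3⟩
    · -- `(b, a)` carries the empty tree
      have hno : ∀ c ∈ X.F, ¬ HE c b a := by
        intro c hc hs
        exact (h4 c (mem_F_faces.1 hc) hs).2 rfl
      have hk' := kl_of_lv h hl' hcl'
      rcases own_of_kl h hl'.1 hk' with ⟨j, hj⟩ | ⟨-, -, -, c4, c5⟩
      · exact fin _ j hj hk' hno
      · have hB : (a, b) ∈ X.B0 ∨ (b, a) ∈ X.B0 := by
          rcases c5 with c5 | c5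
          · exact Or.inr c5.1
          · exact Or.inl c5.1
        obtain ⟨c, hc, hc1, hc2⟩ := nd_left h hB hcl hnf
        obtain ⟨g'', hl'', hne⟩ := lv_of_drop h hM c4 c3 hc1 hc2
        obtain ⟨j, hj, hk''⟩ := own_kl_of_lv h hl'' hcl' hne
        exact fin g'' j hj hk'' hno
    · have hne : X.τ g' ≠ FT.lf := by
        intro h0
        have := hl'.2
        rw [h0] at this
        simp only [FT.lv_lf, List.mem_singleton] at this
        exact c3 this.symm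
      obtain ⟨j, hj, hk'⟩ := own_kl_of_lv h hl' hcl' hne
      refine fin g' j hj hk' ?_
      intro f hf hs
      have hba : X.τ (b, a) = FT.lf := h.til.lf_of_face (g := (b, a)) (mem_F_faces.1 hf) hs
      rcases ho with ⟨o1, o2⟩ | ⟨o1, o2⟩ | ⟨g3, g4, hq, o1⟩
      · have hB : (a, b) ∈ X.B0 ∨ (b, a) ∈ X.B0 := by
          have hb := bk_b0 o1
          rcases o2 with rfl | o2
          · exact Or.inl hb
          · right
            rw [Prod.mk.injEq] at o2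
            rw [o2.1, o2.2]
            exact hb
        obtain ⟨c, hc, hc1, hc2⟩ := nd_left h hB hcl hnf
        apply (mem_Bk.1 o1).2
        rcases o2 with rfl | o2
        · exact ⟨c2, hba, c, hc, hc1, Or.inl hc2⟩
        · rw [Prod.mk.injEq] at o2
          obtain ⟨rfl, rfl⟩ := o2
          exact ⟨hba, c2, c, hc, hc1, Or.inr hc2⟩
      · apply hcl
        rw [o2]
        exact cl0_sub h (mem_gs.1 (mem_Gt.1 o1).1).2
      · have hG0 : ∀ t ∈ X.G0, ¬ HE t b a := by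
          intro t ht hs'
          have := h.til.uniq (h.til.nf.subG ht) (mem_F.1 hf).1 hs' hs
          exact (mem_F.1 hf).2.2.1 (this ▸ ht)
        rcases gap_cases h hq with ⟨q1, q2, q3, q4, -⟩ | ⟨q1, q2, q3, q4, -⟩
        · rcases o1 with o1 | o1
          · rw [Prod.mk.injEq] at o1
            obtain ⟨rfl, rfl⟩ := o1
            exact hG0 _ q3 (he_tri q1).2.2
          · rw [Prod.mk.injEq] at o1
            obtain ⟨rfl, rfl⟩ := o1
            exact hG0 _ q4 (he_tri q2).2.1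
        · rcases o1 with o1 | o1
          · rw [Prod.mk.injEq] at o1
            obtain ⟨rfl, rfl⟩ := o1
            exact hG0 _ q4 (he_tri q2).2.2
          · rw [Prod.mk.injEq] at o1
            obtain ⟨rfl, rfl⟩ := o1
            exact hG0 _ q3 (he_tri q1).2.1
  · have hno : ∀ c ∈ X.F, ¬ HE c b a := by
      intro c hc hs
      exact hM (h4 c (mem_F_faces.1 hc) hs).1
    have hk' := kl_of_lv h hl' hcl'
    rcases own_of_kl h hl'.1 hk' with ⟨j, hj⟩ | ⟨-, c4, -⟩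
    · exact fin _ j hj hk' hno
    · exfalso
      apply hM
      have := hl'.1.1
      rw [← c4] at this
      exact h.til.m0symm this

/-- a bare zone is an end-edge zone -/
theorem bare_bk (h : X.Ok) {i : ZI} (hi : i ∈ X.I) (hb : (X.Z i).Bare) : i ∈ X.Bk := by
  rcases mem_I.1 hi with h1 | h1 | h1
  · exact h1
  · exfalso
    obtain ⟨G, hG⟩ := gt_gate h1
    rw [Z_G h hG] at hb
    obtain ⟨l, r, hV⟩ := gate_V h hG
    have := (ZT.rl_bare X.s G.V G.x G.y).1 hb.1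
    rw [hV] at this
    exact this
  · exfalso
    obtain ⟨g3, g4, hq⟩ := mem_Hk.1 h1
    obtain ⟨g1, g2⟩ := i
    rw [Z_gap h hq] at hb
    have := (ZT.rl_bare X.s _ _ _).1 hb.1
    rcases gap_cases h hq with ⟨-, -, -, -, h5⟩ | ⟨-, -, -, -, h5⟩
    · rw [h5] at this
      exact this
    · rw [h5] at this
      exact this

theorem g_f8 (h : X.Ok) : ∀ i ∈ X.I, ∀ j ∈ X.I, i ≠ j → (X.Z i).Bare → (X.Z j).Bare →
    ¬ ((X.Z i).x = (X.Z j).x ∧ (X.Z i).y = (X.Z j).y) ∧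
    ¬ ((X.Z i).x = (X.Z j).y ∧ (X.Z i).y = (X.Z j).x) := by
  intro i hi j hj hij hbi hbj
  have b1 := bk_b0 (bare_bk h hi hbi)
  have b2 := bk_b0 (bare_bk h hj hbj)
  rw [Z_B b1, Z_B b2]
  constructor
  · rintro ⟨h1, h2⟩
    exact hij (Prod.ext h1 h2)
  · rintro ⟨h1, -⟩
    exact h.til.nf.bNe i.1 i.2 j.1 j.2 b1 b2 h1

end IX

end Pool.Agent.RFX

end

section

set_option autoImplicit false

/-!
# RFX/IniG4 : initial state, group 4 (links) (MP_72a26e_co)
-/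

namespace Pool.Agent.RFX

open Pool.Agent.RFT

namespace ZT

/-- the subtree found by `sub p` has root apex `p` -/
theorem sub_node {p : Pt} {t : ZT} : ∀ {x y x' y' : Pt} {V : ZT},
    t.sub p x y = some (x', y', V) → ∃ l r, V = node p l r := by
  induction t with
  | leaf f => intro x y x' y' V h; simp [sub] at h
  | cut => intro x y x' y' V h; simp [sub] at h
  | node a l r ihl ihr =>
    intro x y x' y' V h
    unfold sub at h
    split_ifs at h with h1 h2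
    · simp only [Option.some.injEq, Prod.mk.injEq] at h
      obtain ⟨_, _, rfl⟩ := h
      subst h1
      exact ⟨l, r, rfl⟩
    · exact ihl h
    · exact ihr h

theorem sub_ns {p : Pt} {t : ZT} : ∀ {x y x' y' : Pt} {V : ZT},
    t.sub p x y = some (x', y', V) → (x', y', p) ∈ t.ns x y := by
  induction t with
  | leaf f => intro x y x' y' V h; simp [sub] at h
  | cut => intro x y x' y' V h; simp [sub] at h
  | node a l r ihl ihr =>
    intro x y x' y' V h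
    unfold sub at h
    simp only [ns, List.mem_cons, List.mem_append]
    split_ifs at h with h1 h2
    · simp only [Option.some.injEq, Prod.mk.injEq] at h
      obtain ⟨rfl, rfl, rfl⟩ := h
      subst h1
      exact Or.inl rfl
    · exact Or.inr (Or.inl (ihl h))
    · exact Or.inr (Or.inr (ihr h))

/-- the points of a node -/
theorem ns_pts {t : ZT} : ∀ {x y : Pt} {n : Pt × Pt × Pt}, n ∈ t.ns x y →
    (n.1 = x ∨ n.1 ∈ t.apex) ∧ (n.2.1 = y ∨ n.2.1 ∈ t.apex) ∧ n.2.2 ∈ t.apex := by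
  induction t with
  | leaf f => intro x y n h; simp [ns] at h
  | cut => intro x y n h; simp [ns] at h
  | node a l r ihl ihr =>
    intro x y n h
    simp only [ns, List.mem_cons, List.mem_append] at h
    simp only [apex, List.mem_append, List.mem_cons]
    rcases h with rfl | h | h
    · simp
    · obtain ⟨h1, h2, h3⟩ := ihl h
      refine ⟨?_, ?_, ?_⟩ <;> tauto
    · obtain ⟨h1, h2, h3⟩ := ihr h
      refine ⟨?_, ?_, ?_⟩ <;> tauto

/-- all labels of the ring of a relabelled tree -/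
theorem rl_ring_s (s : Pt → Pt → Option (Finset Pt)) (t : ZT) (x y : Pt) {e : RE}
    (he : e ∈ (t.rl s x y).ring x y) : e.s = s e.a e.b := by
  rw [rl_ring, List.mem_map] at he
  obtain ⟨d, _, rfl⟩ := he
  rfl

end ZT

namespace IX

variable {X : IX}

/-! ### the zones -/

theorem hk_tri (h : X.Ok) {g1 g2 g3 g4 : Pt} (hq : (g1, g2, g3, g4) ∈ X.Gp) :
    ∃ t ∈ X.G0, HE t g1 g2 := by
  obtain ⟨t, ht, t', ht', hd⟩ := h.til.nf.gTri _ _ _ _ hq
  rcases hd with ⟨h1, h2, rfl, rfl⟩ | ⟨h1, h2, rfl, rfl⟩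
  · exact ⟨_, ht, (he_tri h1).1⟩
  · exact ⟨_, ht, (he_tri h1).1⟩

theorem gap_in (h : X.Ok) {g1 g2 g3 g4 : Pt} (hq : (g1, g2, g3, g4) ∈ X.Gp) {v : Pt}
    (hv : v = g1 ∨ v = g2 ∨ v = g3 ∨ v = g4) : ∃ t ∈ X.G0, v ∈ t := by
  obtain ⟨t, ht, t', ht', hd⟩ := h.til.nf.gTri _ _ _ _ hq
  rcases hd with ⟨h1, h2, rfl, rfl⟩ | ⟨h1, h2, rfl, rfl⟩
  · rcases hv with rfl | rfl | rfl | rfl
    · exact ⟨_, ht, by simp⟩
    · exact ⟨_, ht, by simp⟩
    · exact ⟨_, ht, by simp⟩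
    · exact ⟨_, ht', by simp⟩
  · rcases hv with rfl | rfl | rfl | rfl
    · exact ⟨_, ht, by simp⟩
    · exact ⟨_, ht, by simp⟩
    · exact ⟨_, ht', by simp⟩
    · exact ⟨_, ht, by simp⟩

theorem hk_not_B0 (h : X.Ok) {i : ZI} (hi : i ∈ X.Hk) : i ∉ X.B0 := by
  intro hb
  obtain ⟨g3, g4, hq⟩ := mem_Hk.1 hi
  obtain ⟨t, ht, h1⟩ := hk_tri h hq
  exact ((h.til.nf.bE i.1 i.2 hb).2.2 t ht).1 h1.1

theorem hk_not_gs (h : X.Ok) {i : ZI} (hi : i ∈ X.Hk) : i ∉ X.gs := by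
  intro hb
  obtain ⟨g3, g4, hq⟩ := mem_Hk.1 hi
  obtain ⟨t, ht, h1⟩ := hk_tri h hq
  exact (mem_gs.1 hb).1.2.1 t (Finset.mem_union_right _ ht) h1

theorem Z_H (h : X.Ok) {i : ZI} (hi : i ∈ X.Hk) : ∃ g3 g4, (i.1, i.2, g3, g4) ∈ X.Gp ∧
    X.Z i = ⟨i.1, i.2, (X.gapT i.1 i.2 g3 g4).rl X.s i.1 i.2, .cut⟩ := by
  have h1 : i ∉ X.B0 := hk_not_B0 h hi
  have h2 : X.gate i = none := h.ini.gate_none i (hk_not_gs h hi)
  have h3 : ∃ q : Pt × Pt × Pt × Pt, q ∈ X.Gp ∧ (q.1, q.2.1) = i := by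
    obtain ⟨g3, g4, hq⟩ := mem_Hk.1 hi
    exact ⟨_, hq, rfl⟩
  have h4 := h3.choose_spec
  refine ⟨h3.choose.2.2.1, h3.choose.2.2.2, ?_, ?_⟩
  · have e1 : h3.choose.1 = i.1 := congrArg Prod.fst h4.2
    have e2 : h3.choose.2.1 = i.2 := congrArg Prod.snd h4.2
    have e3 : (i.1, i.2, h3.choose.2.2.1, h3.choose.2.2.2) = h3.choose :=
      Prod.ext e1.symm (Prod.ext e2.symm rfl)
    rw [e3]
    exact h4.1
  · unfold Z
    rw [if_neg h1, h2]
    simp only
    rw [dif_pos h3]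

/-- all labels are `X.s` or `none` -/
theorem ring_s (h : X.Ok) {i : ZI} (hi : i ∈ X.I) {e : RE} (he : e ∈ (X.Z i).ring) :
    e.s = none ∨ e.s = X.s e.a e.b := by
  unfold Zone.ring at he
  rw [List.mem_append] at he
  rcases mem_I.1 hi with hi | hi | hi
  · have hb := (mem_Bk.1 hi).1
    rw [Z_B hb] at he
    rcases he with he | he
    · exact Or.inr (ZT.rl_ring_s _ _ _ _ he)
    · exact Or.inr (ZT.rl_ring_s _ _ _ _ he)
  · obtain ⟨G, hG⟩ := gt_gate hi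
    rw [Z_G h hG] at he
    rcases he with he | he
    · exact Or.inr (ZT.rl_ring_s _ _ _ _ he)
    · left
      simp [ZT.ring] at he
      rw [he]
  · obtain ⟨g3, g4, hq, hZ⟩ := Z_H h hi
    rw [hZ] at he
    rcases he with he | he
    · exact Or.inr (ZT.rl_ring_s _ _ _ _ he)
    · left
      simp [ZT.ring] at he
      rw [he]

/-! ### the types of the ring vertices -/

/-- `v` is an end of the end-edge with zone `i` -/
def BT (X : IX) (i : ZI) (v : Pt) : Prop := i ∈ X.Bk ∧ (v = i.1 ∨ v = i.2)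

/-- `v` is a vertex of the gap with zone `i` -/
def GV (X : IX) (i : ZI) (v : Pt) : Prop :=
  i ∈ X.Hk ∧ ∃ g3 g4, (i.1, i.2, g3, g4) ∈ X.Gp ∧ (v = i.1 ∨ v = i.2 ∨ v = g3 ∨ v = g4)

/-- the gate `i` is based at `v` -/
def GB (X : IX) (i : ZI) (v : Pt) : Prop :=
  i ∈ X.Gt ∧ ∃ G, X.gate i = some G ∧ (v = G.x ∨ v = G.y)

/-- the tree over `g` is in the zone `i` -/
def Ho (X : IX) (i g : ZI) : Prop :=
  (i ∈ X.Bk ∧ (g = i ∨ g = (i.2, i.1))) ∨ (i ∈ X.Gt ∧ g = i) ∨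
  (i ∈ X.Hk ∧ ∃ g3 g4, (i.1, i.2, g3, g4) ∈ X.Gp ∧ (g = (i.1, g3) ∨ g = (g4, i.2)))

/-- `v` is a hosted apex of the zone `i` -/
def HO (X : IX) (i : ZI) (v : Pt) : Prop :=
  ∃ g, X.Ho i g ∧ v ∈ (X.τ g).ap ∧ v ∈ (X.Z i).ap ∧
    (i ∈ X.Gt → ∃ G, X.gate i = some G ∧ v ∈ G.V.apex)

theorem gapT_apex {g1 g2 g3 g4 v : Pt} (hv : v ∈ (X.gapT g1 g2 g3 g4).apex) :
    v = g3 ∨ v = g4 ∨ v ∈ (X.τ (g1, g3)).ap ∨ v ∈ (X.τ (g4, g2)).ap := by
  unfold gapT at hv
  split_ifs at hv with hd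
  · simp only [ZT.apex, List.mem_append, List.mem_cons, FT.z_ap, List.not_mem_nil, false_or] at hv
    tauto
  · simp only [ZT.apex, List.mem_append, List.mem_cons, FT.z_ap, List.not_mem_nil, or_false] at hv
    tauto

/-- the types -/
theorem vs_cases (h : X.Ok) {i : ZI} (hi : i ∈ X.I) {v : Pt} (hv : v ∈ (X.Z i).vs) :
    X.BT i v ∨ X.GV i v ∨ X.GB i v ∨ X.HO i v := by
  rw [Zone.mem_vs] at hv
  rcases mem_I.1 hi with hi | hi | hi
  · have hb := (mem_Bk.1 hi).1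
    have hZ := Z_B hb
    rcases hv with hv | hv | hv
    · left
      rw [hZ] at hv
      exact ⟨hi, Or.inl hv⟩
    · left
      rw [hZ] at hv
      exact ⟨hi, Or.inr hv⟩
    · right; right; right
      have hv' := hv
      rw [hZ, Zone.ap, List.mem_append, ZT.rl_apex, ZT.rl_apex, FT.z_ap, FT.z_ap] at hv
      have hnG : i ∉ X.Gt := fun hc => b0_not_gs h hb (mem_Gt.1 hc).1
      rcases hv with hv | hv
      · exact ⟨i, Or.inl ⟨hi, Or.inl rfl⟩, hv, hv', fun hc => absurd hc hnG⟩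
      · exact ⟨(i.2, i.1), Or.inl ⟨hi, Or.inr rfl⟩, hv, hv', fun hc => absurd hc hnG⟩
  · obtain ⟨G, hG⟩ := gt_gate hi
    have hZ := Z_G h hG
    rcases hv with hv | hv | hv
    · right; right; left
      rw [hZ] at hv
      exact ⟨hi, G, hG, Or.inl hv⟩
    · right; right; left
      rw [hZ] at hv
      exact ⟨hi, G, hG, Or.inr hv⟩
    · right; right; right
      have hv' := hv
      rw [hZ, Zone.ap, List.mem_append, ZT.rl_apex] at hv
      have hv2 : v ∈ G.V.apex := by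
        rcases hv with hv | hv
        · exact hv
        · simp [ZT.apex] at hv
      have hgs := (mem_Gt.1 hi).1
      obtain ⟨A, B, e1, _⟩ := ZT.apex_split (h.ini.gate_sub i hgs G hG)
      have hv3 : v ∈ (X.τ i).ap := by
        rw [← FT.z_ap, e1]
        simp [hv2]
      exact ⟨i, Or.inr (Or.inl ⟨hi, rfl⟩), hv3, hv', fun _ => ⟨G, hG, hv2⟩⟩
  · obtain ⟨g3, g4, hq, hZ⟩ := Z_H h hi
    rcases hv with hv | hv | hv
    · right; left
      rw [hZ] at hv
      exact ⟨hi, g3, g4, hq, Or.inl hv⟩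
    · right; left
      rw [hZ] at hv
      exact ⟨hi, g3, g4, hq, Or.inr (Or.inl hv)⟩
    · have hv' := hv
      rw [hZ, Zone.ap, List.mem_append, ZT.rl_apex] at hv
      have hv2 : v ∈ (X.gapT i.1 i.2 g3 g4).apex := by
        rcases hv with hv | hv
        · exact hv
        · simp [ZT.apex] at hv
      have hnG : i ∉ X.Gt := fun hc => hk_not_gs h hi (mem_Gt.1 hc).1
      rcases gapT_apex hv2 with hv | hv | hv | hv
      · right; left
        exact ⟨hi, g3, g4, hq, Or.inr (Or.inr (Or.inl hv))⟩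
      · right; left
        exact ⟨hi, g3, g4, hq, Or.inr (Or.inr (Or.inr hv))⟩
      · right; right; right
        exact ⟨_, Or.inr (Or.inr ⟨hi, g3, g4, hq, Or.inl rfl⟩), hv, hv', fun hc => absurd hc hnG⟩
      · right; right; right
        exact ⟨_, Or.inr (Or.inr ⟨hi, g3, g4, hq, Or.inr rfl⟩), hv, hv', fun hc => absurd hc hnG⟩

theorem BT_ap {i : ZI} {v : Pt} (hb : X.BT i v) : v ∈ (X.Z i).vs := by
  rw [Zone.mem_vs, Z_B (mem_Bk.1 hb.1).1]
  rcases hb.2 with hv | hv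
  · exact Or.inl hv
  · exact Or.inr (Or.inl hv)

/-! ### uniqueness -/

theorem BT_GV (h : X.Ok) {i j : ZI} {v : Pt} (h1 : X.BT i v) (h2 : X.GV j v) : False := by
  obtain ⟨hj, g3, g4, hq, hv⟩ := h2
  obtain ⟨t, ht, hvt⟩ := gap_in h hq hv
  have h3 := (h.til.nf.bE i.1 i.2 (mem_Bk.1 h1.1).1).2.2 t ht
  rcases h1.2 with rfl | rfl
  · exact h3.1 hvt
  · exact h3.2 hvt

theorem BT_BT (h : X.Ok) {i j : ZI} {v : Pt} (h1 : X.BT i v) (h2 : X.BT j v) : i = j := by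
  have hi := (mem_Bk.1 h1.1).1
  have hj := (mem_Bk.1 h2.1).1
  rcases h1.2 with e1 | e1 <;> rcases h2.2 with e2 | e2
  · have := h.til.nf.bInj i.1 i.2 j.1 j.2 hi hj (Or.inl (by rw [← e1, ← e2]))
    exact Prod.ext this.1 this.2
  · exact absurd (by rw [← e1, ← e2]) (h.til.nf.bNe i.1 i.2 j.1 j.2 hi hj)
  · exact absurd (by rw [← e1, ← e2]) (h.til.nf.bNe j.1 j.2 i.1 i.2 hj hi)
  · have := h.til.nf.bInj i.1 i.2 j.1 j.2 hi hj (Or.inr (by rw [← e1, ← e2]))
    exact Prod.ext this.1 this.2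

theorem GV_GV (h : X.Ok) {i j : ZI} {v : Pt} (h1 : X.GV i v) (h2 : X.GV j v) : i = j := by
  obtain ⟨hi, g3, g4, hq, hv⟩ := h1
  obtain ⟨hj, k3, k4, hk, hv'⟩ := h2
  have := h.til.nf.gDisj _ _ _ _ _ _ _ _ hq hk ⟨v, hv, hv'⟩
  exact Prod.ext this.1 this.2.1

/-- the first class is unique -/
theorem C1_uniq (h : X.Ok) {i j : ZI} {v : Pt} (h1 : X.BT i v ∨ X.GV i v)
    (h2 : X.BT j v ∨ X.GV j v) : i = j := by
  rcases h1 with h1 | h1 <;> rcases h2 with h2 | h2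
  · exact BT_BT h h1 h2
  · exact (BT_GV h h1 h2).elim
  · exact (BT_GV h h2 h1).elim
  · exact GV_GV h h1 h2

theorem gate_host (h : X.Ok) {i : ZI} {G : Gate} (hG : X.gate i = some G) :
    i ∈ X.gs ∧ G.r ∈ kept (X.gate i) ∧ G.r ∈ (X.τ i).ap ∧ G.r ≠ G.x ∧ G.r ≠ G.y ∧
      Joined X.Cl G.x G.r ∧ Joined X.Cl G.y G.r := by
  have hgs := (mem_Gt.1 (gate_gt h hG)).1
  have hsub := h.ini.gate_sub i hgs G hG
  obtain ⟨l, r, hV⟩ := ZT.sub_node hsub
  have hap := h.ini.gate_ap i hgs G hG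
  rw [FT.z_ap] at hap
  have hns := ZT.sub_ns hsub
  rw [FT.z_ns] at hns
  have hor := (h.til.node _ _ _ _ hns).2
  have hcl := h.ini.gate_cl i hgs G hG
  have hj := h.ini.gate_joined i hgs G hG
  refine ⟨hgs, ?_, hap, ?_, ?_, hj, ?_⟩
  · rw [hG]
    simp only [kept]
    rw [hV]
    simp [ZT.apex]
  · intro he
    rw [he, orient_self2] at hor
    exact lt_irrefl _ hor
  · intro he
    rw [he, orient_self3] at hor
    exact lt_irrefl _ hor
  · exact (Joined.single (h.ini.symm _ _ hcl)).trans hj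

theorem GB_joined (h : X.Ok) {i : ZI} {v : Pt} (h1 : X.GB i v) :
    ∃ G, X.gate i = some G ∧ Joined X.Cl v G.r ∧ v ≠ G.r ∧ ∃ b, (v, b) ∈ X.Cl := by
  obtain ⟨hi, G, hG, hv⟩ := h1
  obtain ⟨hgs, _, _, n1, n2, j1, j2⟩ := gate_host h hG
  have hcl := h.ini.gate_cl i hgs G hG
  rcases hv with rfl | rfl
  · exact ⟨G, hG, j1, n1.symm, _, hcl⟩
  · exact ⟨G, hG, j2, n2.symm, _, h.ini.symm _ _ hcl⟩

theorem GB_GB (h : X.Ok) {i j : ZI} {v : Pt} (h1 : X.GB i v) (h2 : X.GB j v) : i = j := by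
  obtain ⟨G, hG, j1, _⟩ := GB_joined h h1
  obtain ⟨G', hG', j2, _⟩ := GB_joined h h2
  obtain ⟨g1, k1, a1, _⟩ := gate_host h hG
  obtain ⟨g2, k2, a2, _⟩ := gate_host h hG'
  have hr : G.r = G'.r := by
    by_contra hne
    exact h.ini.host G.r G'.r hne (Or.inr ⟨i, g1, k1⟩) (Or.inr ⟨j, g2, k2⟩)
      ((j1.symm h.ini.symm).trans j2)
  rw [← hr] at a2
  exact h.til.dj i j G.r a1 a2

/-- trees of end-edges and gaps are not closed -/
theorem Ho_cl0 (h : X.Ok) {i g : ZI} (h1 : X.Ho i g) : g ∉ X.Cl0 ∨ (i ∈ X.Gt ∧ g = i) := by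
  rcases h1 with ⟨hi, h1⟩ | h1 | ⟨hi, g3, g4, hq, h1⟩
  · left
    have hb := (mem_Bk.1 hi).1
    have hn := b0_not_cl0 h hb
    rcases h1 with rfl | rfl
    · exact hn
    · intro hc
      apply hn
      rw [h.til.nf.cl0] at hc
      have : (i.1, i.2) ∈ X.Cl0 := by
        rw [h.til.nf.cl0]
        rcases hc with hc | hc | ⟨t, ht, hc⟩
        · exact Or.inr (Or.inl hc)
        · exact Or.inl hc
        · exact Or.inr (Or.inr ⟨t, ht, hc.symm⟩)
      exact this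
  · exact Or.inr h1
  · left
    have := h.til.nf.gOpen _ _ _ _ hq
    rcases h1 with rfl | rfl
    · exact this.1
    · exact this.2.1

/-- the hosted apexes are in the set of `InitOut.host` -/
theorem HO_host (h : X.Ok) {i : ZI} {v : Pt} (h1 : X.HO i v) :
    v ∈ X.Ao ∨ ∃ g ∈ X.gs, v ∈ kept (X.gate g) := by
  obtain ⟨g, hg, hv, _, hk⟩ := h1
  rcases Ho_cl0 h hg with hc | ⟨hi, rfl⟩
  · exact Or.inl ⟨g, hc, hv⟩
  · obtain ⟨G, hG, hv'⟩ := hk hi
    refine Or.inr ⟨g, (mem_Gt.1 hi).1, ?_⟩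
    rw [hG]
    exact hv'

theorem GB_HO (h : X.Ok) {i j : ZI} {v : Pt} (h1 : X.GB i v) (h2 : X.HO j v) : False := by
  obtain ⟨G, hG, j1, hne, _⟩ := GB_joined h h1
  obtain ⟨g1, k1, _⟩ := gate_host h hG
  exact h.ini.host v G.r hne (HO_host h h2) (Or.inr ⟨i, g1, k1⟩) j1

/-- a tree is in one zone only -/
theorem Ho_uniq (h : X.Ok) {i j g : ZI} (h1 : X.Ho i g) (h2 : X.Ho j g) : i = j := by
  -- the ends of the darts over end-edges and gaps
  have hBH : ∀ i j : ZI, i ∈ X.B0 → (g = i ∨ g = (i.2, i.1)) →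
      (∃ g3 g4, (j.1, j.2, g3, g4) ∈ X.Gp ∧ (g = (j.1, g3) ∨ g = (g4, j.2))) → False := by
    rintro i j hb hg ⟨g3, g4, hq, hg'⟩
    have h4 : ∃ t ∈ X.G0, g.1 ∈ t := by
      rcases hg' with rfl | rfl
      · exact gap_in h hq (Or.inl rfl)
      · exact gap_in h hq (Or.inr (Or.inr (Or.inr rfl)))
    obtain ⟨t, ht, hgt⟩ := h4
    have h3 := (h.til.nf.bE i.1 i.2 hb).2.2 t ht
    rcases hg with rfl | rfl
    · exact h3.1 hgt
    · exact h3.2 hgt
  have hclG : ∀ i : ZI, i ∈ X.Gt → i ∈ X.Cl0 := fun i hi => (mem_gs.1 (mem_Gt.1 hi).1).2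
  rcases h1 with ⟨hi, e1⟩ | ⟨hi, e1⟩ | ⟨hi, g3, g4, hq, e1⟩
  · have hbi := (mem_Bk.1 hi).1
    rcases h2 with ⟨hj, e2⟩ | ⟨hj, e2⟩ | ⟨hj, k3, k4, hk, e2⟩
    · have hbj := (mem_Bk.1 hj).1
      have key : i.1 = j.1 ∨ i.1 = j.2 := by
        rcases e1 with rfl | rfl
        · rcases e2 with e2 | e2
          · exact Or.inl (by rw [e2])
          · exact Or.inr (by rw [e2])
        · rcases e2 with e2 | e2
          · exact Or.inr (congrArg Prod.snd e2)
          · exact Or.inl (congrArg Prod.snd e2)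
      rcases key with key | key
      · have := h.til.nf.bInj i.1 i.2 j.1 j.2 hbi hbj (Or.inl key)
        exact Prod.ext this.1 this.2
      · exact absurd key (h.til.nf.bNe i.1 i.2 j.1 j.2 hbi hbj)
    · rcases Ho_cl0 h (Or.inl ⟨hi, e1⟩ : X.Ho i g) with hc | ⟨hc, _⟩
      · rw [e2] at hc
        exact absurd (hclG j hj) hc
      · exact absurd (mem_Gt.1 hc).1 (b0_not_gs h hbi)
    · exact (hBH i j hbi e1 ⟨k3, k4, hk, e2⟩).elim
  · rcases h2 with ⟨hj, e2⟩ | ⟨hj, e2⟩ | ⟨hj, k3, k4, hk, e2⟩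
    · rcases Ho_cl0 h (Or.inl ⟨hj, e2⟩ : X.Ho j g) with hc | ⟨hc, _⟩
      · rw [e1] at hc
        exact absurd (hclG i hi) hc
      · exact absurd (mem_Gt.1 hc).1 (b0_not_gs h (mem_Bk.1 hj).1)
    · rw [← e1, ← e2]
    · rcases Ho_cl0 h (Or.inr (Or.inr ⟨hj, k3, k4, hk, e2⟩) : X.Ho j g) with hc | ⟨hc, _⟩
      · rw [e1] at hc
        exact absurd (hclG i hi) hc
      · exact absurd (mem_Gt.1 hc).1 (hk_not_gs h hj)
  · rcases h2 with ⟨hj, e2⟩ | ⟨hj, e2⟩ | ⟨hj, k3, k4, hk, e2⟩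
    · exact (hBH j i (mem_Bk.1 hj).1 e2 ⟨g3, g4, hq, e1⟩).elim
    · rcases Ho_cl0 h (Or.inr (Or.inr ⟨hi, g3, g4, hq, e1⟩) : X.Ho i g) with hc | ⟨hc, _⟩
      · rw [e2] at hc
        exact absurd (hclG j hj) hc
      · exact absurd (mem_Gt.1 hc).1 (hk_not_gs h hi)
    · have hc : ∃ v, (v = i.1 ∨ v = i.2 ∨ v = g3 ∨ v = g4) ∧
          (v = j.1 ∨ v = j.2 ∨ v = k3 ∨ v = k4) := by
        refine ⟨g.1, ?_, ?_⟩
        · rcases e1 with e1 | e1
          · rw [e1]; exact Or.inl rfl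
          · rw [e1]; exact Or.inr (Or.inr (Or.inr rfl))
        · rcases e2 with e2 | e2
          · rw [e2]; exact Or.inl rfl
          · rw [e2]; exact Or.inr (Or.inr (Or.inr rfl))
      have := h.til.nf.gDisj _ _ _ _ _ _ _ _ hq hk hc
      exact Prod.ext this.1 this.2.1

theorem HO_HO (h : X.Ok) {i j : ZI} {v : Pt} (h1 : X.HO i v) (h2 : X.HO j v) : i = j := by
  obtain ⟨g, hg, hv, _⟩ := h1
  obtain ⟨g', hg', hv', _⟩ := h2
  have := h.til.dj g g' v hv hv'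
  subst this
  exact Ho_uniq h hg hg'

/-- the second class is unique -/
theorem C2_uniq (h : X.Ok) {i j : ZI} {v : Pt} (h1 : X.GB i v ∨ X.HO i v)
    (h2 : X.GB j v ∨ X.HO j v) : i = j := by
  rcases h1 with h1 | h1 <;> rcases h2 with h2 | h2
  · exact GB_GB h h1 h2
  · exact (GB_HO h h1 h2).elim
  · exact (GB_HO h h2 h1).elim
  · exact HO_HO h h1 h2

/-- an end `N` or a gap vertex is no apex -/
theorem N_not_ap (h : X.Ok) {N w : Pt} (hb : (N, w) ∈ X.B0) (g : Pt × Pt) : N ∉ (X.τ g).ap :=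
  fun hc => h.til.apR g N hc (h.til.nf.bHull N w hb).2.2

theorem GV_not_ap (h : X.Ok) {i : ZI} {v : Pt} (hv : X.GV i v) (g : Pt × Pt) : v ∉ (X.τ g).ap := by
  obtain ⟨_, g3, g4, hq, hv⟩ := hv
  exact fun hc => h.til.apR g v hc (h.til.nf.gRes _ _ _ _ hq v hv).1

/-! ### the two zones of a link -/

/-- the zones at a point of `A` -/
theorem two (h : X.Ok) {v : Pt} (hv : v ∈ X.A) : ∃ i ∈ X.I, ∃ j ∈ X.I, i ≠ j ∧
    v ∈ (X.Z i).vs ∧ v ∈ (X.Z j).vs ∧ (X.BT i v ∨ X.GV i v) ∧ (X.GB j v ∨ X.HO j v) ∧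
    ∀ k ∈ X.I, v ∈ (X.Z k).vs → k = i ∨ k = j := by
  obtain ⟨i, hi, j, hj, hij, hvi, hvj⟩ := mem_A.1 hv
  have split : ∀ k ∈ X.I, v ∈ (X.Z k).vs → (X.BT k v ∨ X.GV k v) ∨ (X.GB k v ∨ X.HO k v) := by
    intro k hk hvk
    rcases vs_cases h hk hvk with h1 | h1 | h1 | h1 <;> tauto
  have hfin : ∀ i ∈ X.I, ∀ j ∈ X.I, (X.BT i v ∨ X.GV i v) → (X.GB j v ∨ X.HO j v) →
      ∀ k ∈ X.I, v ∈ (X.Z k).vs → k = i ∨ k = j := by
    intro i hi j hj h1 h2 k hk hvk
    rcases split k hk hvk with h3 | h3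
    · exact Or.inl (C1_uniq h h3 h1)
    · exact Or.inr (C2_uniq h h3 h2)
  rcases split i hi hvi with h1 | h1 <;> rcases split j hj hvj with h2 | h2
  · exact absurd (C1_uniq h h1 h2) hij
  · exact ⟨i, hi, j, hj, hij, hvi, hvj, h1, h2, hfin i hi j hj h1 h2⟩
  · exact ⟨j, hj, i, hi, hij.symm, hvj, hvi, h2, h1, hfin j hj i hi h2 h1⟩
  · exact absurd (C2_uniq h h1 h2) hij

theorem T_tip (h : X.Ok) {N v : Pt} (hb : (N, v) ∈ X.B0) : X.T v = (N, v) := by
  have h1 : ∃ N, (N, v) ∈ X.B0 := ⟨N, hb⟩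
  unfold T
  rw [dif_pos h1]
  have := h.til.nf.bInj _ _ _ _ h1.choose_spec hb (Or.inr rfl)
  rw [this.1]

theorem H_spec {v : Pt} {i : ZI} (hi : i ∈ X.I) (hne : i ≠ X.T v) (hv : v ∈ (X.Z i).vs) :
    X.H v ∈ X.I ∧ X.H v ≠ X.T v ∧ v ∈ (X.Z (X.H v)).vs := by
  have h1 : ∃ i ∈ X.I, i ≠ X.T v ∧ v ∈ (X.Z i).vs := ⟨i, hi, hne, hv⟩
  unfold H
  rw [dif_pos h1]
  exact h1.choose_spec

/-- everything about the tail and the head of a link -/
theorem TH (h : X.Ok) {v : Pt} (hv : v ∈ X.A) : X.T v ∈ X.I ∧ X.H v ∈ X.I ∧ X.T v ≠ X.H v ∧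
    v ∈ (X.Z (X.T v)).vs ∧ v ∈ (X.Z (X.H v)).vs ∧
    (∀ k ∈ X.I, v ∈ (X.Z k).vs → k = X.T v ∨ k = X.H v) ∧
    ((∃ N, (N, v) ∈ X.B0 ∧ (N, v) ∈ X.Bk ∧ X.T v = (N, v) ∧ (X.GB (X.H v) v ∨ X.HO (X.H v) v)) ∨
      ((∀ N, (N, v) ∉ X.B0) ∧ X.GB (X.T v) v ∧
        ((X.H v ∈ X.Bk ∧ v = (X.H v).1) ∨ X.GV (X.H v) v))) := by
  obtain ⟨i, hi, j, hj, hij, hvi, hvj, h1, h2, h3⟩ := two h hv
  by_cases htip : ∃ N, (N, v) ∈ X.B0
  · obtain ⟨N, hb⟩ := htip
    have hT := T_tip h hb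
    have hiT : i = (N, v) := by
      rcases h1 with h1 | h1
      · have hbi := (mem_Bk.1 h1.1).1
        rcases h1.2 with e | e
        · exact absurd e.symm (h.til.nf.bNe i.1 i.2 N v hbi hb)
        · have := h.til.nf.bInj i.1 i.2 N v hbi hb (Or.inr e.symm)
          exact Prod.ext this.1 this.2
      · obtain ⟨_, g3, g4, hq, hv'⟩ := h1
        obtain ⟨t, ht, hvt⟩ := gap_in h hq hv'
        exact absurd hvt ((h.til.nf.bE N v hb).2.2 t ht).2
    have hBk : (N, v) ∈ X.Bk := by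
      rcases h1 with h1 | h1
      · rw [← hiT]; exact h1.1
      · exfalso
        rw [hiT] at h1
        exact hk_not_B0 h h1.1 hb
    have hjT : j ≠ X.T v := by rw [hT, ← hiT]; exact hij.symm
    obtain ⟨a1, a2, a3⟩ := H_spec hj hjT hvj
    have hHj : X.H v = j := by
      rcases h3 _ a1 a3 with e | e
      · exfalso; apply a2; rw [e, hiT, hT]
      · exact e
    have hTi : X.T v = i := by rw [hT, hiT]
    refine ⟨by rw [hTi]; exact hi, by rw [hHj]; exact hj, by rw [hTi, hHj]; exact hij,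
      by rw [hTi]; exact hvi, by rw [hHj]; exact hvj, ?_, ?_⟩
    · intro k hk hvk
      rw [hTi, hHj]
      exact h3 k hk hvk
    · left
      refine ⟨N, hb, hBk, hT, ?_⟩
      rw [hHj]
      exact h2
  · -- no tip
    have hnt : ∀ N, (N, v) ∉ X.B0 := fun N hN => htip ⟨N, hN⟩
    have h1' : (i ∈ X.Bk ∧ v = i.1) ∨ X.GV i v := by
      rcases h1 with h1 | h1
      · left
        refine ⟨h1.1, ?_⟩
        rcases h1.2 with e | e
        · exact e
        · exfalso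
          apply hnt i.1
          rw [e]
          exact (mem_Bk.1 h1.1).1
      · exact Or.inr h1
    have hnap : ∀ g, v ∉ (X.τ g).ap := by
      intro g
      rcases h1' with ⟨h4, h5⟩ | h4
      · rw [h5]
        exact N_not_ap h (mem_Bk.1 h4).1 g
      · exact GV_not_ap h h4 g
    have hGB : X.GB j v := by
      rcases h2 with h2 | ⟨g, _, hg, _⟩
      · exact h2
      · exact absurd hg (hnap g)
    have hiG : i ∉ X.Gt := by
      intro hc
      rcases h1' with ⟨h4, _⟩ | h4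
      · exact b0_not_gs h (mem_Bk.1 h4).1 (mem_Gt.1 hc).1
      · exact hk_not_gs h h4.1 (mem_Gt.1 hc).1
    have h5 : ∃ k ∈ X.Gt, v ∈ (X.Z k).vs := ⟨j, hGB.1, hvj⟩
    have hTc : X.T v = h5.choose := by
      unfold T
      rw [dif_neg htip, dif_pos h5]
    have hTj : X.T v = j := by
      have h6 := h5.choose_spec
      rcases h3 _ (mem_I.2 (Or.inr (Or.inl h6.1))) h6.2 with e | e
      · exfalso
        apply hiG
        rw [← e]
        exact h6.1
      · rw [hTc]; exact e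
    have hiT : i ≠ X.T v := by rw [hTj]; exact hij
    obtain ⟨a1, a2, a3⟩ := H_spec hi hiT hvi
    have hHi : X.H v = i := by
      rcases h3 _ a1 a3 with e | e
      · exact e
      · exfalso; apply a2; rw [e, hTj]
    refine ⟨by rw [hTj]; exact hj, by rw [hHi]; exact hi, by rw [hTj, hHi]; exact hij.symm,
      by rw [hTj]; exact hvj, by rw [hHi]; exact hvi, ?_, ?_⟩
    · intro k hk hvk
      rw [hTj, hHi]
      exact (h3 k hk hvk).symm
    · right
      refine ⟨hnt, ?_, ?_⟩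
      · rw [hTj]; exact hGB
      · rw [hHi]; exact h1'

/-! ### the fields -/

/-- no closed digons at the start: closed leaves are `cut` -/
theorem g_a2 (h : X.Ok) : ∀ i ∈ X.I, ∀ e ∈ (X.Z i).ring, e.s = some {e.a, e.b} →
    (e.a, e.b) ∉ X.Cl := by
  intro i hi e he hs
  rcases ring_s h hi he with h1 | h1
  · rw [h1] at hs; cases hs
  · rw [h1] at hs
    exact (s_some hs).1

theorem g_l1 (h : X.Ok) : ∀ v ∈ X.A, X.T v ∈ X.I ∧ X.H v ∈ X.I ∧ X.T v ≠ X.H v ∧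
    v ∈ (X.Z (X.T v)).vs ∧ v ∈ (X.Z (X.H v)).vs := by
  intro v hv
  obtain ⟨a, b, c, d, e, _⟩ := TH h hv
  exact ⟨a, b, c, d, e⟩

theorem g_l1' (h : X.Ok) : ∀ v ∈ X.A, ∀ i ∈ X.I, v ∈ (X.Z i).vs → i = X.T v ∨ i = X.H v := by
  intro v hv
  obtain ⟨_, _, _, _, _, f, _⟩ := TH h hv
  exact f

theorem g_l2 (h : X.Ok) : ∀ v, v ∉ X.A → ∀ i ∈ X.I, ∀ j ∈ X.I, v ∈ (X.Z i).vs →
    v ∈ (X.Z j).vs → i = j := by
  intro v hv i hi j hj h1 h2
  by_contra hne
  exact hv (mem_A.2 ⟨i, hi, j, hj, hne, h1, h2⟩)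

theorem g_l3 (h : X.Ok) : ∀ v ∈ X.A, ∀ u ∈ X.A, X.T v = X.T u → v = u := by
  intro v hv u hu hT
  obtain ⟨_, _, _, _, _, _, cv⟩ := TH h hv
  obtain ⟨_, _, _, _, _, _, cu⟩ := TH h hu
  -- type `N` or gap
  have typ : ∀ v, ((X.H v ∈ X.Bk ∧ v = (X.H v).1) ∨ X.GV (X.H v) v) →
      ((∃ w, (v, w) ∈ X.B0) ∨ ∃ t ∈ X.G0, v ∈ t) ∧ ∀ g, v ∉ (X.τ g).ap := by
    rintro v (⟨h1, h2⟩ | h1)
    · have h4 : (v, (X.H v).2) = X.H v := Prod.ext h2 rfl
      have h3 : (v, (X.H v).2) ∈ X.B0 := by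
        rw [h4]
        exact (mem_Bk.1 h1).1
      exact ⟨Or.inl ⟨_, h3⟩, fun g => N_not_ap h h3 g⟩
    · refine ⟨Or.inr ?_, fun g => GV_not_ap h h1 g⟩
      obtain ⟨_, g3, g4, hq, hv'⟩ := h1
      exact gap_in h hq hv'
  rcases cv with ⟨N, hb, _, e, _⟩ | ⟨_, hG, hH⟩
  · rcases cu with ⟨N', hb', _, e', _⟩ | ⟨_, hG', _⟩
    · rw [e, e'] at hT
      exact congrArg Prod.snd hT
    · rw [← hT, e] at hG'
      exact absurd (mem_Gt.1 hG'.1).1 (b0_not_gs h hb)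
  · rcases cu with ⟨N', hb', _, e', _⟩ | ⟨_, hG', hH'⟩
    · rw [hT, e'] at hG
      exact absurd (mem_Gt.1 hG.1).1 (b0_not_gs h hb')
    · by_contra hne
      rw [← hT] at hG'
      obtain ⟨hi, G, hGG, hvG⟩ := hG
      obtain ⟨_, G', hGG', huG⟩ := hG'
      rw [hGG] at hGG'
      simp only [Option.some.injEq] at hGG'
      subst hGG'
      have hgs := (mem_Gt.1 hi).1
      obtain ⟨tv, av⟩ := typ v hH
      obtain ⟨tu, au⟩ := typ u hH'
      have hsub := h.ini.gate_sub _ hgs G hGG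
      have hns := ZT.ns_pts (ZT.sub_ns hsub)
      simp only [FT.z_ap] at hns
      have hxG : G.x = v ∨ G.x = u := by
        rcases hvG with e | e
        · exact Or.inl e.symm
        · rcases huG with e' | e'
          · exact Or.inr e'.symm
          · exact absurd (e.trans e'.symm) hne
      have hyG : G.y = v ∨ G.y = u := by
        rcases hvG with e | e
        · rcases huG with e' | e'
          · exact absurd (e.trans e'.symm) hne
          · exact Or.inr e'.symm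
        · exact Or.inl e.symm
      have hx : (∀ g, G.x ∉ (X.τ g).ap) ∧ ((∃ w, (G.x, w) ∈ X.B0) ∨ ∃ t ∈ X.G0, G.x ∈ t) := by
        rcases hxG with e | e <;> rw [e]
        · exact ⟨av, tv⟩
        · exact ⟨au, tu⟩
      have hy : (∀ g, G.y ∉ (X.τ g).ap) ∧ ((∃ w, (G.y, w) ∈ X.B0) ∨ ∃ t ∈ X.G0, G.y ∈ t) := by
        rcases hyG with e | e <;> rw [e]
        · exact ⟨av, tv⟩
        · exact ⟨au, tu⟩
      have e1 : G.x = (X.T v).1 := by
        rcases hns.1 with e | e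
        · exact e
        · exact absurd e (hx.1 _)
      have e2 : G.y = (X.T v).2 := by
        rcases hns.2.1 with e | e
        · exact e
        · exact absurd e (hy.1 _)
      have hfd := mem_gs.1 hgs
      have hp : ((X.T v).1, (X.T v).2) = X.T v := rfl
      refine h.til.nf.star (X.T v).1 (X.T v).2 ?_ ?_ ⟨?_, ?_⟩
      · exact hfd.1
      · exact hfd.2
      · rw [← e1]; exact hx.2
      · rw [← e2]; exact hy.2

theorem g_FrA (h : X.Ok) : X.Fr ⊆ X.A := by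
  intro v hv
  exact (mem_Fr.1 hv).1

theorem g_l4 (h : X.Ok) : ∀ v ∈ X.Fr, ∀ b, (v, b) ∉ X.Cl := by
  intro v hv
  exact (mem_Fr.1 hv).2

/-! the types of the links -/

/-- darts of the normal form at a tip -/
theorem tip_M0 (h : X.Ok) {N w : Pt} (hb : (N, w) ∈ X.B0) {b : Pt}
    (hm : (w, b) ∈ X.M0 ∨ (b, w) ∈ X.M0) : b = N := by
  have hsy : ∀ a b, (a, b) ∈ X.M0 → (b, a) ∈ X.M0 := by
    intro a b hab
    rw [h.til.nf.m0] at hab ⊢
    rcases hab with hab | ⟨t, ht, hab⟩ | hab | hab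
    · left
      rw [h.til.nf.cl0] at hab ⊢
      rcases hab with hab | hab | ⟨t, ht, hab⟩
      · exact Or.inr (Or.inl hab)
      · exact Or.inl hab
      · exact Or.inr (Or.inr ⟨t, ht, hab.symm⟩)
    · exact Or.inr (Or.inl ⟨t, ht, hab.symm⟩)
    · exact Or.inr (Or.inr (Or.inr hab))
    · exact Or.inr (Or.inr (Or.inl hab))
  rcases hm with hm | hm
  · exact (h.til.nf.funIn.tip N w hb).2 b hm
  · exact (h.til.nf.funIn.tip N w hb).2 b (hsy _ _ hm)

theorem cl0_symm (h : X.Ok) {a b : Pt} (hab : (a, b) ∈ X.Cl0) : (b, a) ∈ X.Cl0 := by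
  rw [h.til.nf.cl0] at hab ⊢
  rcases hab with hab | hab | ⟨t, ht, hab⟩
  · exact Or.inr (Or.inl hab)
  · exact Or.inl hab
  · exact Or.inr (Or.inr ⟨t, ht, hab.symm⟩)

/-- a tip which is a hosted apex has no closed dart -/
theorem tip_free (h : X.Ok) {N v : Pt} (hb : (N, v) ∈ X.B0) {i : ZI} (hH : X.HO i v) (b : Pt) :
    (v, b) ∉ X.Cl := by
  intro hc
  have hn0 : (N, v) ∉ X.Cl0 := (h.til.nf.bE N v hb).2.1
  have hn0' : (v, N) ∉ X.Cl0 := fun hcc => hn0 (cl0_symm h hcc)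
  rcases (h.ini.Cl_mem _).1 hc with hc | ⟨g, hg, hc⟩
  · have hm : (v, b) ∈ X.M0 := (h.til.nf.m0 _ _).2 (Or.inl hc)
    have := tip_M0 h hb (Or.inl hm)
    rw [this] at hc
    exact hn0' hc
  · -- `v` is a point of a given node
    have h1 : v = g.1 ∨ v = g.2 ∨ v ∈ (gpart ((X.τ g).z) (X.gate g)).apex := by
      obtain ⟨n, hn, hd⟩ := (ZT.mem_sides_iff _ _ _ _).1 hc
      obtain ⟨p1, p2, p3⟩ := ZT.ns_pts hn
      rcases hd with hd | hd | hd | hd
      · have e : v = n.1 := congrArg Prod.fst hd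
        rw [← e] at p1
        tauto
      · have e : v = n.2.2 := congrArg Prod.fst hd
        rw [← e] at p3
        tauto
      · have e : v = n.2.2 := congrArg Prod.fst hd
        rw [← e] at p3
        tauto
      · have e : v = n.2.1 := congrArg Prod.fst hd
        rw [← e] at p2
        tauto
    have hgs := mem_gs.1 hg
    rcases h1 with e | e | hap
    · have : g.2 = N := tip_M0 h hb (Or.inl (by rw [e]; exact hgs.1.1))
      apply hn0'
      rw [e, ← this]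
      exact hgs.2
    · have : g.1 = N := tip_M0 h hb (Or.inr (by rw [e]; exact hgs.1.1))
      apply hn0
      rw [e, ← this]
      exact hgs.2
    · have hap' : v ∈ (X.τ g).ap := by
        rw [← FT.z_ap]
        cases hG : X.gate g with
        | none => rw [hG] at hap; exact hap
        | some G =>
          rw [hG] at hap
          exact (ZT.apex_cutAt_sub G.r _).subset hap
      obtain ⟨g', hg', hv', _, hk⟩ := hH
      have hgg := h.til.dj g g' v hap' hv'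
      subst hgg
      rcases Ho_cl0 h hg' with hcc | ⟨hi, rfl⟩
      · exact hcc hgs.2
      · obtain ⟨G, hG, hvG⟩ := hk hi
        rw [hG] at hap
        simp only [gpart] at hap
        obtain ⟨A, B, e1, e2, _⟩ := ZT.apex_split (h.ini.gate_sub g hg G hG)
        have hnd := h.til.nodup g
        rw [← FT.z_ap, e1, List.append_assoc, List.nodup_append] at hnd
        rw [e2] at hap
        obtain ⟨n1, n2, n3⟩ := hnd
        rw [List.nodup_append] at n2
        rcases List.mem_append.1 hap with ha | ha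
        · exact n3 v ha v (List.mem_append_left _ hvG) rfl
        · exact n2.2.2 v hvG v ha rfl

theorem GB_not_Fr (h : X.Ok) {i : ZI} {v : Pt} (hv : X.GB i v) : v ∉ X.Fr := by
  intro hc
  obtain ⟨G, _, _, _, b, hb⟩ := GB_joined h hv
  exact (mem_Fr.1 hc).2 b hb

theorem GB_ends (h : X.Ok) {i : ZI} {v : Pt} (hv : X.GB i v) :
    v = (X.Z i).x ∨ v = (X.Z i).y := by
  obtain ⟨_, G, hG, hv⟩ := hv
  rw [Z_G h hG]
  exact hv

theorem Ho_id {i g : ZI} (h1 : X.Ho i g) : i ∈ X.Bk ∨ i ∈ X.Gt ∨ i ∈ X.Hk := by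
  rcases h1 with h1 | h1 | h1
  · exact Or.inl h1.1
  · exact Or.inr (Or.inl h1.1)
  · exact Or.inr (Or.inr h1.1)

/-- the links which are not tips: end vertices `N` and gap vertices, with a gate based at `v` -/
theorem g_A_cases (h : X.Ok) : ∀ v ∈ X.A,
    (∃ N, (N, v) ∈ X.B0 ∧ (N, v) ∈ X.Bk ∧ X.T v = (N, v) ∧
      ((v ∈ X.Fr ∧ v ∈ (X.Z (X.H v)).ap ∧ (X.H v ∈ X.Bk ∨ X.H v ∈ X.Gt ∨ X.H v ∈ X.Hk)) ∨
        (v ∉ X.Fr ∧ X.H v ∈ X.Gt ∧ (v = (X.Z (X.H v)).x ∨ v = (X.Z (X.H v)).y)))) ∨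
    (v ∉ X.Fr ∧ X.T v ∈ X.Gt ∧ (v = (X.Z (X.T v)).x ∨ v = (X.Z (X.T v)).y) ∧
      ((∃ w, (v, w) ∈ X.B0 ∧ (v, w) ∈ X.Bk ∧ X.H v = (v, w)) ∨
        (∃ t ∈ X.G0, v ∈ t ∧ X.H v ∈ X.Hk))) := by
  intro v hv
  obtain ⟨_, _, _, _, _, _, cv⟩ := TH h hv
  rcases cv with ⟨N, hb, hBk, e, hGH⟩ | ⟨_, hG, hH⟩
  · left
    refine ⟨N, hb, hBk, e, ?_⟩
    rcases hGH with hGB | hHO
    · exact Or.inr ⟨GB_not_Fr h hGB, hGB.1, GB_ends h hGB⟩
    · left
      refine ⟨mem_Fr.2 ⟨hv, tip_free h hb hHO⟩, ?_, ?_⟩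
      · obtain ⟨_, _, _, hap, _⟩ := hHO
        exact hap
      · obtain ⟨g, hg, _⟩ := hHO
        exact Ho_id hg
  · right
    refine ⟨GB_not_Fr h hG, hG.1, GB_ends h hG, ?_⟩
    rcases hH with ⟨h1, h2⟩ | h1
    · left
      have h3 : (v, (X.H v).2) = X.H v := Prod.ext h2 rfl
      refine ⟨(X.H v).2, ?_, ?_, h3.symm⟩
      · rw [h3]; exact (mem_Bk.1 h1).1
      · rw [h3]; exact h1
    · right
      obtain ⟨hk, g3, g4, hq, hv'⟩ := h1
      obtain ⟨t, ht, hvt⟩ := gap_in h hq hv'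
      exact ⟨t, ht, hvt, hk⟩

end IX

end Pool.Agent.RFX

end

section

set_option autoImplicit false

/-!
# RFX/IniG5 : initial state, group 5 (local order at the links) (MP_72a26e_co) -- helper63
-/

namespace Pool.Agent.RFX

open Pool.Agent.RFT

namespace IX

variable {X : IX}

theorem g5_su (h : X.Ok) {c c' : Finset Pt} (hc : c ∈ X.C) (hc' : c' ∈ X.C) {a b : Pt}
    (h1 : HE c a b) (h2 : HE c' a b) : c = c' := h.til.nf.full.cx.side_unique hc hc' h1 h2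

theorem g5_FC {f : Finset Pt} (hf : f ∈ X.F) : f ∈ X.C := (mem_F.1 hf).1

theorem g5_card (h : X.Ok) {f : Finset Pt} (hf : f ∈ X.F) : 3 ≤ f.card :=
  h.til.nf.full.cx.three f (g5_FC hf)

theorem g5_pair (h : X.Ok) {f : Finset Pt} (hf : f ∈ X.F) (a b : Pt) : f ≠ {a, b} := by
  intro he
  have := g5_card h hf
  rw [he] at this
  have := pair_card_lt a b
  omega

/-- the ring of a bare zone -/
theorem g5_bare (h : X.Ok) {i : ZI} (hi : i ∈ X.I) (hb : (X.Z i).Bare) :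
    ∃ f ∈ X.F, ∃ f' ∈ X.F, HE f (X.Z i).x (X.Z i).y ∧ HE f' (X.Z i).y (X.Z i).x ∧
      ∀ e, e ∈ (X.Z i).ring ↔ e = ⟨(X.Z i).x, (X.Z i).y, some f⟩ ∨
        e = ⟨(X.Z i).y, (X.Z i).x, some f'⟩ := by
  obtain ⟨f, hf, f', hf', h1, h2⟩ := g_bare h i hi hb
  have hr : ∀ e, e ∈ (X.Z i).ring ↔ e = ⟨(X.Z i).x, (X.Z i).y, some f⟩ ∨
        e = ⟨(X.Z i).y, (X.Z i).x, some f'⟩ := by
    intro e
    simp [Zone.ring, h1, h2, ZT.ring]
  refine ⟨f, hf, f', hf', ?_, ?_, hr⟩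
  · rcases g_r1 h i hi _ ((hr _).2 (Or.inl rfl)) f rfl with ⟨_, g1, _⟩ | g1
    · exact g1
    · exact absurd g1 (g5_pair h hf _ _)
  · rcases g_r1 h i hi _ ((hr _).2 (Or.inr rfl)) f' rfl with ⟨_, g1, _⟩ | g1
    · exact g1
    · exact absurd g1 (g5_pair h hf' _ _)

/-- a cell on the right of a ring edge, not in any other zone -/
theorem g5_right (h : X.Ok) {i : ZI} (hi : i ∈ X.I) {e : RE} (he : e ∈ (X.Z i).ring) :
    ∃ c ∈ X.C, HE c e.b e.a ∧ c ∉ X.E ∧ ((¬ (X.Z i).Bare ∧ c ∈ (X.Z i).cells) ∨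
      ((X.Z i).Bare ∧ c ∈ X.F)) := by
  by_cases hb : (X.Z i).Bare
  · obtain ⟨f, hf, f', hf', h1, h2, h3⟩ := g5_bare h hi hb
    rcases (h3 e).1 he with rfl | rfl
    · exact ⟨f', g5_FC hf', h2, fun hE => g_EF h _ hE hf', Or.inr ⟨hb, hf'⟩⟩
    · exact ⟨f, g5_FC hf, h1, fun hE => g_EF h _ hE hf, Or.inr ⟨hb, hf⟩⟩
  · obtain ⟨c, hc, h1⟩ := Zone.right (g_okt h i hi).1 (g_okt h i hi).2 hb e he
    exact ⟨c, g_zC h i hi hc, h1, (g_zE h i hi c hc).1, Or.inl ⟨hb, hc⟩⟩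

/-- a dart is on the ring of at most one zone -/
theorem g5_uniq (h : X.Ok) {i j : ZI} (hi : i ∈ X.I) (hj : j ∈ X.I) {e e' : RE}
    (he : e ∈ (X.Z i).ring) (he' : e' ∈ (X.Z j).ring) (ha : e.a = e'.a) (hb : e.b = e'.b) :
    i = j := by
  obtain ⟨c, hc, h1, _, h2⟩ := g5_right h hi he
  obtain ⟨c', hc', h1', _, h2'⟩ := g5_right h hj he'
  rw [← ha, ← hb] at h1'
  have hcc := g5_su h hc hc' h1 h1'
  subst hcc
  rcases h2 with ⟨b1, h2⟩ | ⟨b1, h2⟩
  · rcases h2' with ⟨b2, h2'⟩ | ⟨b2, h2'⟩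
    · exact g_zz h i hi j hj c h2 h2'
    · exact absurd h2' (g_zE h i hi c h2).2
  · rcases h2' with ⟨b2, h2'⟩ | ⟨b2, h2'⟩
    · exact absurd h2 (g_zE h j hj c h2').2
    · by_contra hne
      have h8 := g_f8 h i hi j hj hne b1 b2
      obtain ⟨_, _, _, _, _, _, h3⟩ := g5_bare h hi b1
      obtain ⟨_, _, _, _, _, _, h3'⟩ := g5_bare h hj b2
      rcases (h3 e).1 he with h4 | h4 <;> rcases (h3' e').1 he' with h5 | h5 <;>
        rw [h4, h5] at ha hb <;> dsimp only at ha hb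
      · exact h8.1 ⟨ha, hb⟩
      · exact h8.2 ⟨ha, hb⟩
      · exact h8.2 ⟨hb, ha⟩
      · exact h8.1 ⟨hb, ha⟩

/-- the star at `v`: there is something besides one zone, one face and the black cells -/
theorem g5_star (h : X.Ok) {i j : ZI} (hi : i ∈ X.I) (hj : j ∈ X.I) (hij : i ≠ j) {v : Pt}
    (hvj : v ∈ (X.Z j).vs) (f : Finset Pt) (Q : Finset Pt → Prop)
    (hQ : ∀ c ∈ X.C, Q c → c ∈ X.E ∨ (c ∈ X.F ∧ c = f) ∨ c ∈ (X.Z i).cells)
    (hne : ∃ c ∈ X.C, v ∈ c ∧ Q c)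
    (hcl : ∀ s ∈ X.C, Q s → ∀ t ∈ X.C, ∀ a, (HE s a v ∧ HE t v a) ∨ (HE s v a ∧ HE t a v) →
      Q t) : False := by
  classical
  have hall : ∀ t ∈ X.C, v ∈ t → Q t := by
    have := h.til.nf.full.star h.til.gen (v := v) (X.C.filter (fun c => v ∈ c ∧ Q c))
      (Finset.filter_subset _ _) (fun s hs => (Finset.mem_filter.1 hs).2.1)
      (by
        obtain ⟨c, hc, h1, h2⟩ := hne
        exact ⟨c, Finset.mem_filter.2 ⟨hc, h1, h2⟩⟩)
      (by
        intro s hs t ht a hst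
        rw [Finset.mem_filter] at hs ⊢
        refine ⟨ht, ?_, hcl s hs.1 hs.2.2 t ht a hst⟩
        rcases hst with hst | hst
        · exact hst.2.1
        · exact hst.2.2.1)
    intro t ht hvt
    exact (Finset.mem_filter.1 (this t ht hvt)).2.2
  obtain ⟨e, e', hA⟩ := Zone.exists_At hvj
  obtain ⟨c, hc, h1, h2, h3⟩ := g5_right h hj hA.1
  have hvc : v ∈ c := by rw [← hA.2.2.1]; exact h1.1
  have hq := hQ c hc (hall c hc hvc)
  rcases h3 with ⟨b1, h3⟩ | ⟨b1, h3⟩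
  · rcases hq with h4 | ⟨h4, _⟩ | h4
    · exact h2 h4
    · exact (g_zE h j hj c h3).2 h4
    · exact hij (g_zz h i hi j hj c h4 h3)
  · obtain ⟨f1, hf1, f2, hf2, k1, k2, k3⟩ := g5_bare h hj b1
    have hv : v = (X.Z j).x ∨ v = (X.Z j).y := by
      rcases (k3 e).1 hA.1 with h4 | h4
      · right; rw [← hA.2.2.1, h4]
      · left; rw [← hA.2.2.1, h4]
    have hvf : ∀ f0 ∈ X.F, (X.Z j).x ∈ f0 → (X.Z j).y ∈ f0 → f0 = f := by
      intro f0 hf0 h5 h6
      have hvf0 : v ∈ f0 := by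
        rcases hv with hv | hv
        · rw [hv]; exact h5
        · rw [hv]; exact h6
      rcases hQ f0 (g5_FC hf0) (hall f0 (g5_FC hf0) hvf0) with h4 | ⟨_, h4⟩ | h4
      · exact absurd hf0 (g_EF h f0 h4)
      · exact h4
      · exact absurd hf0 (g_zE h i hi f0 h4).2
    have e1 := hvf f1 hf1 k1.1 k1.2.1
    have e2 := hvf f2 hf2 k2.2.1 k2.1
    rw [e1] at k1
    rw [e2] at k2
    rw [e1] at hf1
    exact HE.not_both k1 k2 (g5_card h hf1)

/-- the two ring edges of a zone at `v` do not have the same face -/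
theorem g5_diff (h : X.Ok) {i j : ZI} (hi : i ∈ X.I) (hj : j ∈ X.I) (hij : i ≠ j) {v : Pt}
    (hvj : v ∈ (X.Z j).vs) {e e' : RE} (hA : At (X.Z i) v e e') {f : Finset Pt}
    (h1 : e.s = some f) (h2 : e'.s = some f) : False := by
  have hav : e.b = v := hA.2.2.1
  have hva : e'.a = v := hA.2.2.2
  rcases g_r1 h i hi e hA.1 f h1 with ⟨hf, g1, o1⟩ | g1
  · rcases g_r1 h i hi e' hA.2.1 f h2 with ⟨_, g2, o2⟩ | g2
    swap
    · exact absurd g2 (g5_pair h hf _ _)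
    rw [hav] at g1
    rw [hva] at g2
    by_cases hb : (X.Z i).Bare
    · -- bare: the two edges are opposite
      obtain ⟨f1, hf1, f2, hf2, k1, k2, k3⟩ := g5_bare h hi hb
      have : e'.b = e.a := by
        have hxy := k1.2.2.1
        rcases (k3 e).1 hA.1 with h4 | h4 <;> rcases (k3 e').1 hA.2.1 with h5 | h5
        · exfalso
          rw [h4] at hav; rw [h5] at hva; dsimp only at hav hva
          exact hxy (hva.trans hav.symm)
        · rw [h4, h5]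
        · rw [h4, h5]
        · exfalso
          rw [h4] at hav; rw [h5] at hva; dsimp only at hav hva
          exact hxy (hav.trans hva.symm)
      rw [this] at g2
      exact HE.not_both g1 g2 (g5_card h hf)
    · refine g5_star h hi hj hij hvj f (fun c => c = f ∨ c ∈ (X.Z i).cells) ?_
        ⟨f, g5_FC hf, g1.2.1, Or.inl rfl⟩ ?_
      · rintro c hc (rfl | h3)
        · exact Or.inr (Or.inl ⟨hf, rfl⟩)
        · exact Or.inr (Or.inr h3)
      · rintro s hs (rfl | h3) t ht a (⟨h4, h5⟩ | ⟨h4, h5⟩)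
        · right
          obtain ⟨c, hc, h6⟩ := Zone.right (g_okt h i hi).1 (g_okt h i hi).2 hb e hA.1
          rw [hav, g1.pred_unique h4] at h6
          rw [g5_su h ht (g_zC h i hi hc) h5 h6]
          exact hc
        · right
          obtain ⟨c, hc, h6⟩ := Zone.right (g_okt h i hi).1 (g_okt h i hi).2 hb e' hA.2.1
          rw [hva, g2.succ_unique h4] at h6
          rw [g5_su h ht (g_zC h i hi hc) h5 h6]
          exact hc
        · rcases Zone.side (g_okt h i hi).1 (g_okt h i hi).2 s h3 a v h4 with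
            ⟨e0, he0, k1, k2⟩ | ⟨c, hc, k1⟩
          · left
            have h6 : e0 = e' := Zone.a_inj (g_nd h i hi) he0 hA.2.1 (k1.trans hva.symm)
            subst h6
            rw [k2] at g2
            exact g5_su h ht (g5_FC hf) h5 g2
          · right
            rw [g5_su h ht (g_zC h i hi hc) h5 k1]
            exact hc
        · rcases Zone.side (g_okt h i hi).1 (g_okt h i hi).2 s h3 v a h4 with
            ⟨e0, he0, k1, k2⟩ | ⟨c, hc, k1⟩
          · left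
            have h6 : e0 = e := Zone.b_inj (g_nd h i hi) he0 hA.1 (k2.trans hav.symm)
            subst h6
            rw [k1] at g1
            exact g5_su h ht (g5_FC hf) h5 g1
          · right
            rw [g5_su h ht (g_zC h i hi hc) h5 k1]
            exact hc
  · -- digon
    rcases g_r1 h i hi e' hA.2.1 f h2 with ⟨hf, g2, o2⟩ | g2
    · exact absurd g1 (g5_pair h hf _ _)
    rw [hav] at g1
    rw [hva] at g2
    have hs : e.s = some {e.a, e.b} := by rw [h1, g1, hav]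
    rcases g_f7 h i hi e hA.1 hs with h3 | ⟨k, hk, hki, h3⟩
    · exact g_a2 h i hi e hA.1 hs h3
    · have hne : e.a ≠ v := by
        obtain ⟨c, _, hc, _⟩ := g5_right h hi hA.1
        rw [← hav]
        exact hc.2.2.1.symm
      have h4 : e'.b = e.a := by
        have h5 : e.a ∈ ({v, e'.b} : Finset Pt) := by
          rw [← g2, g1]; simp
        simp only [Finset.mem_insert, Finset.mem_singleton] at h5
        rcases h5 with h5 | h5
        · exact absurd h5 hne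
        · exact h5.symm
      exact hki (g5_uniq h hk hi h3 hA.2.1 (hav.trans hva.symm) h4.symm)

/-- the next edge of the face behind a ring edge which ends in `v` -/
theorem g5_next (h : X.Ok) {i : ZI} (hi : i ∈ X.I) {e : RE} (he : e ∈ (X.Z i).ring) {v : Pt}
    (hv : e.b = v) {f : Finset Pt} (hs : e.s = some f) :
    ∃ b, ((v, b) ∈ X.Cl ∧ f ∈ X.F ∧ HE f v b ∧ HE f e.a v) ∨
      ∃ k ∈ X.I, (⟨v, b, some f⟩ : RE) ∈ (X.Z k).ring := by
  rcases g_r1 h i hi e he f hs with ⟨hf, g1, _⟩ | g1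
  · rw [hv] at g1
    obtain ⟨b, hb⟩ := (h.til.nf.full.cx.cp f (g5_FC hf)).exists_succ (g5_card h hf) g1.2.1
    refine ⟨b, ?_⟩
    rcases g_f6 h f hf v b hb with h1 | h1
    · exact Or.inl ⟨h1, hf, hb, g1⟩
    · exact Or.inr h1
  · have hs' : e.s = some {e.a, e.b} := by rw [hs, g1]
    rcases g_f7 h i hi e he hs' with h1 | ⟨k, hk, _, h1⟩
    · exact absurd h1 (g_a2 h i hi e he hs')
    · refine ⟨e.a, Or.inr ⟨k, hk, ?_⟩⟩
      rw [← hv, g1]
      exact h1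

/-- the previous edge of the face behind a ring edge which starts in `v` -/
theorem g5_prev (h : X.Ok) {i : ZI} (hi : i ∈ X.I) {e : RE} (he : e ∈ (X.Z i).ring) {v : Pt}
    (hv : e.a = v) {f : Finset Pt} (hs : e.s = some f) :
    ∃ b, ((b, v) ∈ X.Cl ∧ f ∈ X.F ∧ HE f b v ∧ HE f v e.b) ∨
      ∃ k ∈ X.I, (⟨b, v, some f⟩ : RE) ∈ (X.Z k).ring := by
  rcases g_r1 h i hi e he f hs with ⟨hf, g1, _⟩ | g1
  · rw [hv] at g1
    obtain ⟨b, hb⟩ := (h.til.nf.full.cx.cp f (g5_FC hf)).exists_pred (g5_card h hf) g1.1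
    refine ⟨b, ?_⟩
    rcases g_f6 h f hf b v hb with h1 | h1
    · exact Or.inl ⟨h1, hf, hb, g1⟩
    · exact Or.inr h1
  · have hs' : e.s = some {e.a, e.b} := by rw [hs, g1]
    rcases g_f7 h i hi e he hs' with h1 | ⟨k, hk, _, h1⟩
    · exact absurd h1 (g_a2 h i hi e he hs')
    · refine ⟨e.b, Or.inr ⟨k, hk, ?_⟩⟩
      rw [← hv, g1]
      exact h1

/-- free links: the face behind the edge of zone `i` into `v` is behind the edge of zone `j` out of `v` -/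
theorem g5_cross (h : X.Ok) {i j : ZI} (hi : i ∈ X.I) (hj : j ∈ X.I) (hij : i ≠ j) {v : Pt}
    (hk : ∀ k ∈ X.I, v ∈ (X.Z k).vs → k = i ∨ k = j) (hfr : ∀ b, (v, b) ∉ X.Cl) {e e' d d' : RE}
    (hA : At (X.Z i) v e e') (hB : At (X.Z j) v d d') {f : Finset Pt} :
    (e.s = some f → d'.s = some f) ∧ (e'.s = some f → d.s = some f) := by
  have hvj : v ∈ (X.Z j).vs := hB.mem
  constructor
  · intro hs
    obtain ⟨b, hb⟩ := g5_next h hi hA.1 hA.2.2.1 hs
    rcases hb with hb | ⟨k, hkI, hb⟩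
    · exact absurd hb.1 (hfr b)
    · rcases hk k hkI (Zone.mem_vs_a hb) with rfl | rfl
      · exfalso
        have h1 := Zone.a_inj (g_nd h k hi) hb hA.2.1 hA.2.2.2.symm
        exact g5_diff h hi hj hij hvj hA hs (by rw [← h1])
      · have h1 := Zone.a_inj (g_nd h k hj) hb hB.2.1 hB.2.2.2.symm
        rw [← h1]
  · intro hs
    obtain ⟨b, hb⟩ := g5_prev h hi hA.2.1 hA.2.2.2 hs
    rcases hb with hb | ⟨k, hkI, hb⟩
    · exact absurd (symm h _ _ hb.1) (hfr b)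
    · rcases hk k hkI (Zone.mem_vs_b hb) with rfl | rfl
      · exfalso
        have h1 := Zone.b_inj (g_nd h k hi) hb hA.1 hA.2.2.1.symm
        exact g5_diff h hi hj hij hvj hA (by rw [← h1]) hs
      · have h1 := Zone.b_inj (g_nd h k hj) hb hB.1 hB.2.2.1.symm
        rw [← h1]

theorem g_l5 (h : X.Ok) : ∀ v ∈ X.Fr, X.fp v ≠ X.fm v ∧ ∀ i, i = X.T v ∨ i = X.H v →
    ∀ e e', At (X.Z i) v e e' →
    (e.s = some (X.fp v) ∧ e'.s = some (X.fm v)) ∨ (e.s = some (X.fm v) ∧ e'.s = some (X.fp v)) := by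
  intro v hv
  obtain ⟨hvA, hfr⟩ := mem_Fr.1 hv
  obtain ⟨hT, hH, hne, vT, vH⟩ := g_l1 h v hvA
  have hk := g_l1' h v hvA
  obtain ⟨e, e', hA⟩ := Zone.exists_At vT
  obtain ⟨d, d', hB⟩ := Zone.exists_At vH
  have hopen : ∀ k ∈ X.I, ∀ r ∈ (X.Z k).ring, (r.a = v ∨ r.b = v) → ∃ f, r.s = some f := by
    intro k hk r hr hv
    cases hs : r.s with
    | some f => exact ⟨f, rfl⟩
    | none =>
      exfalso
      have h1 := g_r2 h k hk r hr hs
      rcases hv with hv | hv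
      · rw [hv] at h1; exact hfr _ h1
      · rw [hv] at h1; exact hfr _ (symm h _ _ h1)
  obtain ⟨a, ha⟩ := hopen _ hT e hA.1 (Or.inr hA.2.2.1)
  obtain ⟨a', ha'⟩ := hopen _ hT e' hA.2.1 (Or.inl hA.2.2.2)
  have hdiff : a ≠ a' := by
    rintro rfl
    exact g5_diff h hT hH hne vH hA ha ha'
  obtain ⟨c1, c2⟩ := g5_cross h hT hH hne hk hfr hA hB (f := a)
  obtain ⟨c3, c4⟩ := g5_cross h hT hH hne hk hfr hA hB (f := a')
  have hd' := c1 ha
  have hd := c4 ha'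
  have hfp : X.fp v = a := by
    have hex : ∃ f : Finset Pt, ∃ e ∈ (X.Z (X.T v)).ring, e.b = v ∧ e.s = some f :=
      ⟨a, e, hA.1, hA.2.2.1, ha⟩
    unfold fp
    rw [dif_pos hex]
    obtain ⟨e0, he0, h1, h2⟩ := hex.choose_spec
    have h3 := Zone.b_inj (g_nd h _ hT) he0 hA.1 (h1.trans hA.2.2.1.symm)
    rw [h3, ha] at h2
    simpa using h2.symm
  have hfm : X.fm v = a' := by
    have hex : ∃ f : Finset Pt, ∃ e ∈ (X.Z (X.T v)).ring, e.a = v ∧ e.s = some f :=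
      ⟨a', e', hA.2.1, hA.2.2.2, ha'⟩
    unfold fm
    rw [dif_pos hex]
    obtain ⟨e0, he0, h1, h2⟩ := hex.choose_spec
    have h3 := Zone.a_inj (g_nd h _ hT) he0 hA.2.1 (h1.trans hA.2.2.2.symm)
    rw [h3, ha'] at h2
    simpa using h2.symm
  rw [hfp, hfm]
  refine ⟨hdiff, ?_⟩
  intro i hi r r' hr
  rcases hi with rfl | rfl
  · obtain ⟨rfl, rfl⟩ := At.unique (g_nd h _ hT) hr hA
    exact Or.inl ⟨ha, ha'⟩
  · obtain ⟨rfl, rfl⟩ := At.unique (g_nd h _ hH) hr hB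
    exact Or.inr ⟨hd, hd'⟩

/-- base vertex `y` of a gate -/
theorem g5_gate_y (h : X.Ok) {i j : ZI} {G : Gate} (hG : X.gate i = some G) (hj : j ∈ X.I)
    (hij : i ≠ j) {v : Pt} (hx : v = G.y) (hvj : v ∈ (X.Z j).vs)
    (hk : ∀ k ∈ X.I, v ∈ (X.Z k).vs → k = i ∨ k = j) (hH : ¬ HV X.P v) (hBE : X.BE v) :
    ∃ f, (∀ e e', At (X.Z i) v e e' → (e.s = some f ∧ e'.s = none) ∨
        (e.s = none ∧ e'.s = some f)) ∧
      ∀ e e', At (X.Z j) v e e' → (e.s = some f ∧ e'.s ≠ some f) ∨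
        (e.s ≠ some f ∧ e'.s = some f) := by
  have hi : i ∈ X.I := mem_I.2 (Or.inr (Or.inl (gate_gt h hG)))
  have hZ := Z_G h hG
  have hcl : (G.x, G.y) ∈ X.Cl := gate_cl h hG
  obtain ⟨l, r, hV⟩ := gate_V h hG
  obtain ⟨ok1, ok2⟩ := g_okt h i hi
  have hnb : ¬ (X.Z i).Bare := by
    rw [hZ, hV]
    intro hb
    exact absurd hb.1 (by simp [ZT.rl, ZT.Bare])
  -- the closed base
  have heb : (⟨G.y, G.x, none⟩ : RE) ∈ (X.Z i).ring := by
    rw [hZ]
    simp [Zone.ring, ZT.ring]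
  -- the root cell
  obtain ⟨c0, hc0, hr0⟩ : ∃ c ∈ (X.Z i).cells, HE c G.x G.y := by
    have hb1 : ¬ (X.Z i).t.Bare := by
      rw [hZ, hV]
      simp [ZT.rl, ZT.Bare]
    obtain ⟨c, hc, h1⟩ := ZT.root ok1 hb1
    refine ⟨c, ?_, ?_⟩
    · simp [Zone.cells, hc]
    · rw [hZ] at h1; exact h1
  have hvi : v ∈ (X.Z i).vs := by
    have := Zone.mem_vs_a heb
    rw [hx]; exact this
  obtain ⟨e, e', hA⟩ := Zone.exists_At hvi
  have he' : e' = ⟨G.y, G.x, none⟩ :=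
    Zone.a_inj (g_nd h i hi) hA.2.1 heb (hA.2.2.2.trans hx)
  rw [← hx] at hcl hr0 he' heb
  have hs' : e'.s = none := by rw [he']
  obtain ⟨cA, hcA, hrA⟩ := Zone.right ok1 ok2 hnb e hA.1
  rw [hA.2.2.1] at hrA
  have hZC := g_zC h i hi
  have hZE : ∀ c ∈ (X.Z i).cells, c ∉ X.E := fun c hc => (g_zE h i hi c hc).1
  have hEC := e_sub h
  -- the black cell behind the base
  obtain ⟨cb, hcb, hrb⟩ : ∃ c ∈ X.E, HE c v G.x := by
    rcases (cl_iff h).1 hcl with h1 | h1 | ⟨c, hc, h1 | h1⟩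
    · exact absurd (hv_in h h1) hH
    · exact absurd ⟨_, h1⟩ hH
    · exfalso
      have := g5_su h (hEC hc) (hZC hc0) h1 hr0
      exact hZE c0 hc0 (this ▸ hc)
    · exact ⟨c, hc, h1⟩
  have hco1 : X.CoIn v G.x := by
    refine ⟨⟨cb, hcb, hrb⟩, ?_⟩
    intro c hc h1
    have := g5_su h (hEC hc) (hZC hc0) h1 hr0
    exact hZE c0 hc0 (this ▸ hc)
  have key : ∀ (f : Finset Pt) (O : Prop) (cl : Finset Pt) (b : Pt), X.CoOut v b → cl ∈ X.C →
      HE cl v b → ((O ∧ cl = f) ∨ cl ∈ (X.Z i).cells) →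
      (O → f ∈ X.F ∧ HE f e.a v ∧ HE f v b ∧ ∀ t ∈ X.C, HE t b v → t ∈ X.E) →
      (∀ t ∈ X.C, HE t e.a v → t ∈ X.E ∨ (O ∧ t = f)) → False := by
    intro f O cl b hco2 hclC hclb hclf hf hleft
    refine g5_star h hi hj hij hvj f
      (fun c => c ∈ X.E ∨ (O ∧ c = f) ∨ c ∈ (X.Z i).cells) ?_
      ⟨c0, hZC hc0, hr0.2.1, Or.inr (Or.inr hc0)⟩ ?_
    · rintro c hc (hq | ⟨hq, hq'⟩ | hq)
      · exact Or.inl hq
      · exact Or.inr (Or.inl ⟨by rw [hq']; exact (hf hq).1, hq'⟩)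
      · exact Or.inr (Or.inr hq)
    · rintro s hsC (hs | ⟨hO, hs⟩ | hs) t ht a (⟨h4, h5⟩ | ⟨h4, h5⟩)
      · by_cases htE : t ∈ X.E
        · exact Or.inl htE
        · right
          have hco : X.CoOut v a := ⟨⟨s, hs, h4⟩, fun c hc h6 =>
            htE (g5_su h (hEC hc) ht h6 h5 ▸ hc)⟩
          have h7 := hBE.2 a b hco hco2
          subst h7
          rw [g5_su h ht hclC h5 hclb]
          exact hclf
      · by_cases htE : t ∈ X.E
        · exact Or.inl htE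
        · right; right
          have hco : X.CoIn v a := ⟨⟨s, hs, h4⟩, fun c hc h6 =>
            htE (g5_su h (hEC hc) ht h6 h5 ▸ hc)⟩
          have h7 := hBE.1 a G.x hco hco1
          subst h7
          rw [g5_su h ht (hZC hc0) h5 hr0]
          exact hc0
      · subst hs
        have h6 := (hf hO).2.1.pred_unique h4
        rw [← h6] at h5
        right; right
        rw [g5_su h ht (hZC hcA) h5 hrA]
        exact hcA
      · subst hs
        have h6 := (hf hO).2.2.1.succ_unique h4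
        rw [← h6] at h5
        exact Or.inl ((hf hO).2.2.2 t ht h5)
      · rcases Zone.side ok1 ok2 s hs a v h4 with ⟨e0, he0, k1, k2⟩ | ⟨c, hc, k1⟩
        · left
          have h6 : e0 = ⟨v, G.x, none⟩ := Zone.a_inj (g_nd h i hi) he0 heb k1
          rw [h6] at k2
          dsimp only at k2
          rw [← k2] at h5
          rw [g5_su h ht (hEC hcb) h5 hrb]
          exact hcb
        · right; right
          rw [g5_su h ht (hZC hc) h5 k1]
          exact hc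
      · rcases Zone.side ok1 ok2 s hs v a h4 with ⟨e0, he0, k1, k2⟩ | ⟨c, hc, k1⟩
        · have h6 : e0 = e := Zone.b_inj (g_nd h i hi) he0 hA.1 (k2.trans hA.2.2.1.symm)
          subst h6
          rw [← k1] at h5
          rcases hleft t ht h5 with h7 | h7
          · exact Or.inl h7
          · exact Or.inr (Or.inl h7)
        · right; right
          rw [g5_su h ht (hZC hc) h5 k1]
          exact hc
  -- the leaf at `v` is open
  obtain ⟨f, hf⟩ : ∃ f, e.s = some f := by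
    cases hs : e.s with
    | some f => exact ⟨f, rfl⟩
    | none =>
      exfalso
      have h1 := g_r2 h i hi e hA.1 hs
      rw [hA.2.2.1] at h1
      obtain ⟨c1, hc1, h2⟩ : ∃ c ∈ X.E, HE c e.a v := by
        rcases (cl_iff h).1 h1 with h1 | h1 | ⟨c, hc, h1 | h1⟩
        · exact absurd (hv_in h h1) hH
        · exact absurd ⟨_, h1⟩ hH
        · exact ⟨c, hc, h1⟩
        · exfalso
          have := g5_su h (hEC hc) (hZC hcA) h1 hrA
          exact hZE cA hcA (this ▸ hc)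
      refine key ∅ False cA e.a ⟨⟨c1, hc1, h2⟩, ?_⟩ (hZC hcA) hrA (Or.inr hcA)
        (fun hF => hF.elim) ?_
      · intro c hc h3
        have := g5_su h (hEC hc) (hZC hcA) h3 hrA
        exact hZE cA hcA (this ▸ hc)
      · intro t ht h3
        left
        rw [g5_su h ht (hEC hc1) h3 h2]
        exact hc1
  refine ⟨f, ?_, ?_⟩
  · intro d d' hd
    obtain ⟨rfl, rfl⟩ := At.unique (g_nd h i hi) hd hA
    exact Or.inl ⟨hf, hs'⟩
  · obtain ⟨b, hb⟩ := g5_next h hi hA.1 hA.2.2.1 hf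
    rcases hb with ⟨h1, hfF, h2, h3⟩ | ⟨k, hkI, hb⟩
    · exfalso
      obtain ⟨c2, hc2, h4⟩ : ∃ c ∈ X.E, HE c b v := by
        rcases (cl_iff h).1 h1 with h1 | h1 | ⟨c, hc, h1 | h1⟩
        · exact absurd ⟨_, h1⟩ hH
        · exact absurd (hv_in h h1) hH
        · exfalso
          have := g5_su h (hEC hc) (g5_FC hfF) h1 h2
          exact g_EF h c hc (this ▸ hfF)
        · exact ⟨c, hc, h1⟩
      refine key f True f b ⟨⟨c2, hc2, h4⟩, ?_⟩ (g5_FC hfF) h2 (Or.inl ⟨trivial, rfl⟩)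
        (fun _ => ⟨hfF, h3, h2, ?_⟩) ?_
      · intro c hc h5
        have := g5_su h (hEC hc) (g5_FC hfF) h5 h2
        exact g_EF h c hc (this ▸ hfF)
      · intro t ht h5
        rw [g5_su h ht (hEC hc2) h5 h4]
        exact hc2
      · intro t ht h5
        right
        exact ⟨trivial, g5_su h ht (g5_FC hfF) h5 h3⟩
    · have hkj : k = j := by
        rcases hk k hkI (Zone.mem_vs_a hb) with rfl | h1
        · exfalso
          have h1 := Zone.a_inj (g_nd h k hi) hb heb rfl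
          simp at h1
        · exact h1
      subst hkj
      intro d d' hd
      have h1 := Zone.a_inj (g_nd h k hj) hb hd.2.1 hd.2.2.2.symm
      have h2 : d'.s = some f := by rw [← h1]
      refine Or.inr ⟨?_, h2⟩
      intro h3
      exact g5_diff h hj hi hij.symm hvi hd h3 h2

/-- base vertex `x` of a gate -/
theorem g5_gate_x (h : X.Ok) {i j : ZI} {G : Gate} (hG : X.gate i = some G) (hj : j ∈ X.I)
    (hij : i ≠ j) {v : Pt} (hx : v = G.x) (hvj : v ∈ (X.Z j).vs)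
    (hk : ∀ k ∈ X.I, v ∈ (X.Z k).vs → k = i ∨ k = j) (hH : ¬ HV X.P v) (hBE : X.BE v) :
    ∃ f, (∀ e e', At (X.Z i) v e e' → (e.s = some f ∧ e'.s = none) ∨
        (e.s = none ∧ e'.s = some f)) ∧
      ∀ e e', At (X.Z j) v e e' → (e.s = some f ∧ e'.s ≠ some f) ∨
        (e.s ≠ some f ∧ e'.s = some f) := by
  have hi : i ∈ X.I := mem_I.2 (Or.inr (Or.inl (gate_gt h hG)))
  have hZ := Z_G h hG
  have hcl : (G.x, G.y) ∈ X.Cl := gate_cl h hG
  obtain ⟨l, r, hV⟩ := gate_V h hG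
  obtain ⟨ok1, ok2⟩ := g_okt h i hi
  have hnb : ¬ (X.Z i).Bare := by
    rw [hZ, hV]
    intro hb
    exact absurd hb.1 (by simp [ZT.rl, ZT.Bare])
  -- the closed base
  have heb : (⟨G.y, G.x, none⟩ : RE) ∈ (X.Z i).ring := by
    rw [hZ]
    simp [Zone.ring, ZT.ring]
  -- the root cell
  obtain ⟨c0, hc0, hr0⟩ : ∃ c ∈ (X.Z i).cells, HE c G.x G.y := by
    have hb1 : ¬ (X.Z i).t.Bare := by
      rw [hZ, hV]
      simp [ZT.rl, ZT.Bare]
    obtain ⟨c, hc, h1⟩ := ZT.root ok1 hb1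
    refine ⟨c, ?_, ?_⟩
    · simp [Zone.cells, hc]
    · rw [hZ] at h1; exact h1
  have hvi : v ∈ (X.Z i).vs := by
    have := Zone.mem_vs_b heb
    rw [hx]; exact this
  obtain ⟨e, e', hA⟩ := Zone.exists_At hvi
  have he : e = ⟨G.y, G.x, none⟩ :=
    Zone.b_inj (g_nd h i hi) hA.1 heb (hA.2.2.1.trans hx)
  rw [← hx] at hcl hr0 he heb
  have hs : e.s = none := by rw [he]
  obtain ⟨cA, hcA, hrA⟩ := Zone.right ok1 ok2 hnb e' hA.2.1
  rw [hA.2.2.2] at hrA
  have hZC := g_zC h i hi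
  have hZE : ∀ c ∈ (X.Z i).cells, c ∉ X.E := fun c hc => (g_zE h i hi c hc).1
  have hEC := e_sub h
  -- the black cell behind the base
  obtain ⟨cb, hcb, hrb⟩ : ∃ c ∈ X.E, HE c G.y v := by
    rcases (cl_iff h).1 hcl with h1 | h1 | ⟨c, hc, h1 | h1⟩
    · exact absurd ⟨_, h1⟩ hH
    · exact absurd (hv_in h h1) hH
    · exfalso
      have := g5_su h (hEC hc) (hZC hc0) h1 hr0
      exact hZE c0 hc0 (this ▸ hc)
    · exact ⟨c, hc, h1⟩
  have hco1 : X.CoOut v G.y := by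
    refine ⟨⟨cb, hcb, hrb⟩, ?_⟩
    intro c hc h1
    have := g5_su h (hEC hc) (hZC hc0) h1 hr0
    exact hZE c0 hc0 (this ▸ hc)
  have key : ∀ (f : Finset Pt) (O : Prop) (cl : Finset Pt) (b : Pt), X.CoIn v b → cl ∈ X.C →
      HE cl b v → ((O ∧ cl = f) ∨ cl ∈ (X.Z i).cells) →
      (O → f ∈ X.F ∧ HE f v e'.b ∧ HE f b v ∧ ∀ t ∈ X.C, HE t v b → t ∈ X.E) →
      (∀ t ∈ X.C, HE t v e'.b → t ∈ X.E ∨ (O ∧ t = f)) → False := by
    intro f O cl b hco2 hclC hclb hclf hf hleft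
    refine g5_star h hi hj hij hvj f
      (fun c => c ∈ X.E ∨ (O ∧ c = f) ∨ c ∈ (X.Z i).cells) ?_
      ⟨c0, hZC hc0, hr0.1, Or.inr (Or.inr hc0)⟩ ?_
    · rintro c hc (hq | ⟨hq, hq'⟩ | hq)
      · exact Or.inl hq
      · exact Or.inr (Or.inl ⟨by rw [hq']; exact (hf hq).1, hq'⟩)
      · exact Or.inr (Or.inr hq)
    · rintro s hsC (hs | ⟨hO, hs⟩ | hs) t ht a (⟨h4, h5⟩ | ⟨h4, h5⟩)
      · by_cases htE : t ∈ X.E
        · exact Or.inl htE
        · right; right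
          have hco : X.CoOut v a := ⟨⟨s, hs, h4⟩, fun c hc h6 =>
            htE (g5_su h (hEC hc) ht h6 h5 ▸ hc)⟩
          have h7 := hBE.2 a G.y hco hco1
          subst h7
          rw [g5_su h ht (hZC hc0) h5 hr0]
          exact hc0
      · by_cases htE : t ∈ X.E
        · exact Or.inl htE
        · right
          have hco : X.CoIn v a := ⟨⟨s, hs, h4⟩, fun c hc h6 =>
            htE (g5_su h (hEC hc) ht h6 h5 ▸ hc)⟩
          have h7 := hBE.1 a b hco hco2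
          subst h7
          rw [g5_su h ht hclC h5 hclb]
          exact hclf
      · subst hs
        have h6 := (hf hO).2.2.1.pred_unique h4
        rw [← h6] at h5
        exact Or.inl ((hf hO).2.2.2 t ht h5)
      · subst hs
        have h6 := (hf hO).2.1.succ_unique h4
        rw [← h6] at h5
        right; right
        rw [g5_su h ht (hZC hcA) h5 hrA]
        exact hcA
      · rcases Zone.side ok1 ok2 s hs a v h4 with ⟨e0, he0, k1, k2⟩ | ⟨c, hc, k1⟩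
        · have h6 : e0 = e' := Zone.a_inj (g_nd h i hi) he0 hA.2.1 (k1.trans hA.2.2.2.symm)
          subst h6
          rw [← k2] at h5
          rcases hleft t ht h5 with h7 | h7
          · exact Or.inl h7
          · exact Or.inr (Or.inl h7)
        · right; right
          rw [g5_su h ht (hZC hc) h5 k1]
          exact hc
      · rcases Zone.side ok1 ok2 s hs v a h4 with ⟨e0, he0, k1, k2⟩ | ⟨c, hc, k1⟩
        · left
          have h6 : e0 = ⟨G.y, v, none⟩ := Zone.b_inj (g_nd h i hi) he0 heb k2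
          rw [h6] at k1
          dsimp only at k1
          rw [← k1] at h5
          rw [g5_su h ht (hEC hcb) h5 hrb]
          exact hcb
        · right; right
          rw [g5_su h ht (hZC hc) h5 k1]
          exact hc
  -- the leaf at `v` is open
  obtain ⟨f, hf⟩ : ∃ f, e'.s = some f := by
    cases hs : e'.s with
    | some f => exact ⟨f, rfl⟩
    | none =>
      exfalso
      have h1 := g_r2 h i hi e' hA.2.1 hs
      rw [hA.2.2.2] at h1
      obtain ⟨c1, hc1, h2⟩ : ∃ c ∈ X.E, HE c v e'.b := by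
        rcases (cl_iff h).1 h1 with h1 | h1 | ⟨c, hc, h1 | h1⟩
        · exact absurd ⟨_, h1⟩ hH
        · exact absurd (hv_in h h1) hH
        · exact ⟨c, hc, h1⟩
        · exfalso
          have := g5_su h (hEC hc) (hZC hcA) h1 hrA
          exact hZE cA hcA (this ▸ hc)
      refine key ∅ False cA e'.b ⟨⟨c1, hc1, h2⟩, ?_⟩ (hZC hcA) hrA (Or.inr hcA)
        (fun hF => hF.elim) ?_
      · intro c hc h3
        have := g5_su h (hEC hc) (hZC hcA) h3 hrA
        exact hZE cA hcA (this ▸ hc)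
      · intro t ht h3
        left
        rw [g5_su h ht (hEC hc1) h3 h2]
        exact hc1
  refine ⟨f, ?_, ?_⟩
  · intro d d' hd
    obtain ⟨rfl, rfl⟩ := At.unique (g_nd h i hi) hd hA
    exact Or.inr ⟨hs, hf⟩
  · obtain ⟨b, hb⟩ := g5_prev h hi hA.2.1 hA.2.2.2 hf
    rcases hb with ⟨h1, hfF, h2, h3⟩ | ⟨k, hkI, hb⟩
    · exfalso
      obtain ⟨c2, hc2, h4⟩ : ∃ c ∈ X.E, HE c v b := by
        rcases (cl_iff h).1 h1 with h1 | h1 | ⟨c, hc, h1 | h1⟩
        · exact absurd (hv_in h h1) hH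
        · exact absurd ⟨_, h1⟩ hH
        · exfalso
          have := g5_su h (hEC hc) (g5_FC hfF) h1 h2
          exact g_EF h c hc (this ▸ hfF)
        · exact ⟨c, hc, h1⟩
      refine key f True f b ⟨⟨c2, hc2, h4⟩, ?_⟩ (g5_FC hfF) h2 (Or.inl ⟨trivial, rfl⟩)
        (fun _ => ⟨hfF, h3, h2, ?_⟩) ?_
      · intro c hc h5
        have := g5_su h (hEC hc) (g5_FC hfF) h5 h2
        exact g_EF h c hc (this ▸ hfF)
      · intro t ht h5
        rw [g5_su h ht (hEC hc2) h5 h4]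
        exact hc2
      · intro t ht h5
        right
        exact ⟨trivial, g5_su h ht (g5_FC hfF) h5 h3⟩
    · have hkj : k = j := by
        rcases hk k hkI (Zone.mem_vs_b hb) with rfl | h1
        · exfalso
          have h1 := Zone.b_inj (g_nd h k hi) hb heb rfl
          simp at h1
        · exact h1
      subst hkj
      intro d d' hd
      have h1 := Zone.b_inj (g_nd h k hj) hb hd.1 hd.2.2.1.symm
      have h2 : d.s = some f := by rw [← h1]
      refine Or.inl ⟨h2, ?_⟩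
      intro h3
      exact g5_diff h hj hi hij.symm hvi hd h2 h3

/-- a gate based at the link `v` -/
theorem g5_l6 (h : X.Ok) {i j : ZI} (hi : i ∈ X.Gt) (hj : j ∈ X.I) (hjG : j ∉ X.Gt) {v : Pt}
    (hx : v = (X.Z i).x ∨ v = (X.Z i).y) (hvj : v ∈ (X.Z j).vs)
    (hk : ∀ k ∈ X.I, v ∈ (X.Z k).vs → k = i ∨ k = j) (hH : ¬ HV X.P v) (hBE : X.BE v) :
    ∀ k, k = i ∨ k = j → ∀ e e', At (X.Z k) v e e' →
      (e.s = some (X.fref v) ∧ e'.s ≠ some (X.fref v)) ∨
        (e.s ≠ some (X.fref v) ∧ e'.s = some (X.fref v)) := by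
  have hij : i ≠ j := by rintro rfl; exact hjG hi
  obtain ⟨G, hG⟩ := gt_gate hi
  have hiI : i ∈ X.I := mem_I.2 (Or.inr (Or.inl hi))
  have hZ := Z_G h hG
  have hvi : v ∈ (X.Z i).vs := by
    rw [Zone.mem_vs]
    rcases hx with hx | hx
    · exact Or.inl hx
    · exact Or.inr (Or.inl hx)
  obtain ⟨f, P1, P2⟩ : ∃ f, (∀ e e', At (X.Z i) v e e' → (e.s = some f ∧ e'.s = none) ∨
        (e.s = none ∧ e'.s = some f)) ∧
      ∀ e e', At (X.Z j) v e e' → (e.s = some f ∧ e'.s ≠ some f) ∨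
        (e.s ≠ some f ∧ e'.s = some f) := by
    rcases hx with hx | hx
    · exact g5_gate_x h hG hj hij (by rw [hx, hZ]) hvj hk hH hBE
    · exact g5_gate_y h hG hj hij (by rw [hx, hZ]) hvj hk hH hBE
  have hfr : X.fref v = f := by
    obtain ⟨e, e', hA⟩ := Zone.exists_At hvi
    have hex : ∃ f : Finset Pt, ∃ i ∈ X.Gt, ∃ e ∈ (X.Z i).ring, (e.a = v ∨ e.b = v) ∧
        e.s = some f := by
      rcases P1 e e' hA with ⟨h1, _⟩ | ⟨_, h1⟩
      · exact ⟨f, i, hi, e, hA.1, Or.inr hA.2.2.1, h1⟩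
      · exact ⟨f, i, hi, e', hA.2.1, Or.inl hA.2.2.2, h1⟩
    unfold fref
    rw [dif_pos hex]
    obtain ⟨i0, hi0, e0, he0, h1, h2⟩ := hex.choose_spec
    have hi0I : i0 ∈ X.I := mem_I.2 (Or.inr (Or.inl hi0))
    have hv0 : v ∈ (X.Z i0).vs := by
      rcases h1 with h1 | h1
      · rw [← h1]; exact Zone.mem_vs_a he0
      · rw [← h1]; exact Zone.mem_vs_b he0
    have h3 : i0 = i := by
      rcases hk i0 hi0I hv0 with h3 | h3
      · exact h3
      · exact absurd (h3 ▸ hi0) hjG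
    subst h3
    have h4 : e0 = e' ∨ e0 = e := by
      rcases h1 with h1 | h1
      · exact Or.inl (Zone.a_inj (g_nd h _ hiI) he0 hA.2.1 (h1.trans hA.2.2.2.symm))
      · exact Or.inr (Zone.b_inj (g_nd h _ hiI) he0 hA.1 (h1.trans hA.2.2.1.symm))
    rcases P1 e e' hA with ⟨h5, h6⟩ | ⟨h5, h6⟩ <;> rcases h4 with h4 | h4 <;> rw [h4] at h2 <;>
      first
        | (rw [h5] at h2; simpa using h2.symm)
        | (rw [h6] at h2; simpa using h2.symm)
  rw [hfr]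
  intro k hk e e' hA
  rcases hk with rfl | rfl
  · rcases P1 e e' hA with ⟨h1, h2⟩ | ⟨h1, h2⟩
    · exact Or.inl ⟨h1, by rw [h2]; simp⟩
    · exact Or.inr ⟨by rw [h1]; simp, h2⟩
  · exact P2 e e' hA

theorem g5_gapv {g1 g2 g3 g4 v : Pt} {t t' : Finset Pt} (hg : GapTri g1 g2 g3 g4 t t')
    (hv : v ∈ t ∨ v ∈ t') : v = g1 ∨ v = g2 ∨ v = g3 ∨ v = g4 := by
  rcases hg with ⟨_, _, rfl, rfl⟩ | ⟨_, _, rfl, rfl⟩ <;>
    simp only [Finset.mem_insert, Finset.mem_singleton] at hv <;> tauto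

theorem g_l6 (h : X.Ok) : ∀ v ∈ X.A, v ∉ X.Fr → ∀ i, i = X.T v ∨ i = X.H v →
    ∀ e e', At (X.Z i) v e e' →
    (e.s = some (X.fref v) ∧ e'.s ≠ some (X.fref v)) ∨
    (e.s ≠ some (X.fref v) ∧ e'.s = some (X.fref v)) := by
  intro v hA hFr
  obtain ⟨hT, hH, hne, vT, vH⟩ := g_l1 h v hA
  have hk := g_l1' h v hA
  rcases g_A_cases h v hA with ⟨N, hB, _, hTv, h1⟩ | ⟨_, hG, hx, h1⟩
  · rcases h1 with ⟨h1, _⟩ | ⟨_, hG, hx⟩
    · exact absurd h1 hFr
    · intro i hi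
      refine g5_l6 h hG hT ?_ hx vT (fun k hk' hv => (hk k hk' hv).symm)
        (h.til.nf.bHull N v hB).2.1 (be_tip h hB) i hi.symm
      intro hc
      rw [hTv] at hc
      exact (id_disj h).1 ⟨hB, hc⟩
  · have hjG : X.H v ∉ X.Gt := by
      intro hc
      rcases h1 with ⟨w, hB, _, hw⟩ | ⟨t, _, _, hh⟩
      · rw [hw] at hc
        exact (id_disj h).1 ⟨hB, hc⟩
      · exact (id_disj h).2.2 ⟨hc, hh⟩
    have hres : ((∃ w, (v, w) ∈ X.B0) ∨ ∃ t ∈ X.G0, v ∈ t) ∧ ¬ HV X.P v ∧ Res X.M0 v := by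
      rcases h1 with ⟨w, hB, _, _⟩ | ⟨t, ht, hvt, _⟩
      · have := h.til.nf.bHull v w hB
        exact ⟨Or.inl ⟨w, hB⟩, this.1, this.2.2⟩
      · obtain ⟨g1, g2, g3, g4, t', hq, hg⟩ := h.til.nf.gAll t ht
        have hv : v = g1 ∨ v = g2 ∨ v = g3 ∨ v = g4 := by
          rcases hg with hg | hg
          · exact g5_gapv hg (Or.inl hvt)
          · exact g5_gapv hg (Or.inr hvt)
        have := h.til.nf.gRes g1 g2 g3 g4 hq v hv
        exact ⟨Or.inr ⟨t, ht, hvt⟩, this.2, this.1⟩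
    intro i hi
    exact g5_l6 h hG hH hjG hx vH hk hres.2.1 (be_N h hres.1 hres.2.1 hres.2.2) i hi

end IX

end Pool.Agent.RFX

end

section

set_option autoImplicit false

/-!
# RFX/IniG6 : initial state, group 6 (live zones) (MP_72a26e_co)
-/

namespace Pool.Agent.RFX

open Pool.Agent.RFT

theorem ZT.g6_sub_node {p : Pt} {t : ZT} : ∀ {x y x' y' : Pt} {V : ZT},
    t.sub p x y = some (x', y', V) → ∃ l r, V = ZT.node p l r := by
  induction t with
  | leaf f => intro x y x' y' V h; simp [ZT.sub] at h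
  | cut => intro x y x' y' V h; simp [ZT.sub] at h
  | node a l r ihl ihr =>
    intro x y x' y' V h
    unfold ZT.sub at h
    split_ifs at h with h1 h2
    · simp only [Option.some.injEq, Prod.mk.injEq] at h
      obtain ⟨-, -, rfl⟩ := h
      exact ⟨l, r, by rw [h1]⟩
    · exact ihl h
    · exact ihr h

namespace IX

variable {X : IX}

theorem g6_symm (h : X.Ok) {a b : Pt} (hab : (a, b) ∈ X.Cl0) : (b, a) ∈ X.Cl0 :=
  (h.til.nf.reach.inv h.til.nf.full).symm a b hab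

/-- a live zone is an end-edge or a gate -/
theorem g6_BG (h : X.Ok) {i : ZI} (hl : Live X.Sx X.Dx i) :
    (i ∈ X.B0 ∧ i ∈ X.Bk) ∨ i ∈ X.Gt := by
  obtain ⟨v, hv, hT, -⟩ := hl.exists
  have hT' : X.T v = i := hT
  rcases g_A_cases h v hv with ⟨N, h1, h2, h3, -⟩ | ⟨-, h1, -⟩
  · left
    rw [← hT', h3]
    exact ⟨h1, h2⟩
  · right
    rw [← hT']
    exact h1

theorem g6_I (h : X.Ok) {i : ZI} (hl : Live X.Sx X.Dx i) : i ∈ X.I := by
  rcases g6_BG h hl with h1 | h1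
  · exact mem_I.2 (Or.inl h1.2)
  · exact mem_I.2 (Or.inr (Or.inl h1))

/-- the apexes of an end-edge zone -/
theorem g6_ap_B (h : X.Ok) {i : ZI} (hi : i ∈ X.B0) {a : Pt} (ha : a ∈ (X.Z i).ap) :
    ∃ g, (g = i ∨ g = (i.2, i.1)) ∧ g ∉ X.Cl0 ∧ a ∈ (X.τ g).ap := by
  rw [Z_B hi] at ha
  unfold Zone.ap at ha
  simp only [ZT.rl_apex, FT.z_ap, List.mem_append] at ha
  rcases ha with ha | ha
  · exact ⟨i, Or.inl rfl, b0_not_cl0 h hi, ha⟩
  · exact ⟨(i.2, i.1), Or.inr rfl, fun hc => b0_not_cl0 h hi (g6_symm h hc), ha⟩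

/-- the apexes of a gate -/
theorem g6_ap_G (h : X.Ok) {i : ZI} (hi : i ∈ X.Gt) {a : Pt} (ha : a ∈ (X.Z i).ap) :
    a ∈ kept (X.gate i) ∧ a ∈ (X.τ i).ap ∧ i ∈ X.gs ∧ i ∈ X.Cl0 := by
  obtain ⟨G, hG⟩ := gt_gate hi
  have hgs : i ∈ X.gs := (mem_Gt.1 hi).1
  rw [Z_G h hG] at ha
  unfold Zone.ap at ha
  simp only [ZT.rl_apex, ZT.apex, List.append_nil] at ha
  have hk : a ∈ kept (X.gate i) := by rw [hG]; exact ha
  refine ⟨hk, ?_, hgs, (mem_gs.1 hgs).2⟩
  obtain ⟨A1, B1, e1, -⟩ := ZT.apex_split (h.ini.gate_sub i hgs G hG)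
  have e2 : (X.τ i).ap = A1 ++ G.V.apex ++ B1 := by rw [← e1, FT.z_ap]
  rw [e2]
  simp [ha]

/-- the apexes of a live zone are apexes of a tree -/
theorem g6_ap (h : X.Ok) {i : ZI} (hl : Live X.Sx X.Dx i) {a : Pt} (ha : a ∈ (X.Z i).ap) :
    ∃ g, a ∈ (X.τ g).ap := by
  rcases g6_BG h hl with h1 | h1
  · obtain ⟨g, -, -, h2⟩ := g6_ap_B h h1.1 ha
    exact ⟨g, h2⟩
  · exact ⟨i, (g6_ap_G h h1 ha).2.1⟩

theorem g_v1 (h : X.Ok) : ∀ i, Live X.Sx X.Dx i → i ∈ X.B0 → ∀ v ∈ X.A, X.T v = i →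
    v = (X.Z i).y ∧
    (v ∈ X.Fr ∨ (X.H v ∉ X.B0 ∧ (v = (X.Z (X.H v)).x ∨ v = (X.Z (X.H v)).y))) := by
  intro i _ hi v hv hT
  rcases g_A_cases h v hv with ⟨N, h1, h2, h3, h4⟩ | ⟨-, h1, -⟩
  · refine ⟨?_, ?_⟩
    · rw [Z_B hi, ← hT, h3]
    · rcases h4 with h4 | h4
      · exact Or.inl h4.1
      · exact Or.inr ⟨fun hc => b0_not_gs h hc (mem_Gt.1 h4.2.1).1, h4.2.2⟩
  · exfalso
    rw [hT] at h1
    exact b0_not_gs h hi (mem_Gt.1 h1).1

theorem g_v2 (h : X.Ok) : ∀ i, Live X.Sx X.Dx i → i ∈ X.B0 → (X.Z i).x ∉ X.Fr := by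
  intro i _ hi hx
  rw [Z_B hi] at hx
  have hx' : i.1 ∈ X.Fr := hx
  rcases g_A_cases h i.1 (mem_Fr.1 hx').1 with ⟨N, h1, -⟩ | ⟨h1, -⟩
  · exact h.til.nf.bNe i.1 i.2 N i.1 hi h1 rfl
  · exact h1 hx'

theorem g_v3 (h : X.Ok) : ∀ i, Live X.Sx X.Dx i → i ∉ X.B0 → (X.Z i).t' = ZT.cut ∧
    (∃ s l r, (X.Z i).t = ZT.node s l r ∧ Joined X.Cl s (X.Z i).x) ∧
    ∀ v ∈ X.A, X.T v = i → (v = (X.Z i).x ∨ v = (X.Z i).y) ∧
      X.H v ∈ X.B0 ∧ (X.Z (X.H v)).x = v := by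
  intro i hl hi
  have hG : i ∈ X.Gt := by
    rcases g6_BG h hl with h1 | h1
    · exact absurd h1.1 hi
    · exact h1
  obtain ⟨G, hG'⟩ := gt_gate hG
  have hgs : i ∈ X.gs := (mem_Gt.1 hG).1
  refine ⟨?_, ?_, ?_⟩
  · rw [Z_G h hG']
  · rw [Z_G h hG']
    obtain ⟨l, r, hV⟩ := ZT.g6_sub_node (h.ini.gate_sub i hgs G hG')
    refine ⟨G.r, l.rl X.s G.x G.r, r.rl X.s G.r G.y, ?_,
      (h.ini.gate_joined i hgs G hG').symm h.ini.symm⟩
    show G.V.rl X.s G.x G.y = _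
    rw [hV]
    rfl
  · intro v hv hT
    -- the head of `v` is live
    obtain ⟨u, hu, hTu, hlu⟩ := hl.exists
    have huv : v = u := g_l3 h v hv u hu (by rw [hT]; exact hTu.symm)
    subst huv
    have hlv : Live X.Sx X.Dx (X.H v) := hlu
    rcases g_A_cases h v hv with ⟨N, h1, h2, h3, -⟩ | ⟨-, h1, h2, h3⟩
    · exfalso
      rw [← hT, h3] at hi
      exact hi h1
    · rw [hT] at h2
      refine ⟨h2, ?_⟩
      rcases h3 with ⟨w, hw, -, hH⟩ | ⟨t, -, -, hH⟩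
      · rw [hH]
        refine ⟨hw, ?_⟩
        rw [Z_B hw]
      · exfalso
        -- gaps are never live
        obtain ⟨g3, g4, hg⟩ := mem_Hk.1 hH
        have hcl := h.til.nf.gCl _ _ _ _ hg
        obtain ⟨⟨t1, ht1, hs1⟩, -⟩ := hcl
        have hc0 : X.H v ∈ X.Cl0 := by
          have h5 : ((X.H v).1, (X.H v).2) ∈ X.Cl0 :=
            (h.til.nf.cl0 _ _).2 (Or.inr (Or.inr ⟨t1, ht1, Or.inr hs1⟩))
          exact h5
        rcases g6_BG h hlv with h6 | h6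
        · exact b0_not_cl0 h h6.1 hc0
        · obtain ⟨⟨-, hfree, -⟩, -⟩ := mem_gs.1 (mem_Gt.1 h6).1
          obtain ⟨a, ha, b, hb, hgt⟩ := h.til.nf.gTri _ _ _ _ hg
          rcases hgt with ⟨o1, o2, e1, e2⟩ | ⟨o1, o2, e1, e2⟩
          · refine hfree a (Finset.mem_union_right _ ha) ?_
            rw [e1]
            exact (tri_he o1).2 (Or.inl ⟨rfl, rfl⟩)
          · refine hfree a (Finset.mem_union_right _ ha) ?_
            rw [e1]
            exact (tri_he o1).2 (Or.inl ⟨rfl, rfl⟩)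

theorem g_v4 (h : X.Ok) : ∀ i j, Live X.Sx X.Dx i → Live X.Sx X.Dx j →
    ∀ a ∈ (X.Z i).ap, ∀ b ∈ (X.Z j).ap, Joined X.Cl a b → a = b ∧ i = j := by
  intro i j hi hj a ha b hb hab
  have key : ∀ i, Live X.Sx X.Dx i → ∀ a ∈ (X.Z i).ap,
      (a ∈ X.Ao ∨ ∃ g ∈ X.gs, a ∈ kept (X.gate g)) := by
    intro i hi a ha
    rcases g6_BG h hi with h1 | h1
    · obtain ⟨g, -, h2, h3⟩ := g6_ap_B h h1.1 ha
      exact Or.inl ⟨g, h2, h3⟩
    · obtain ⟨h2, -, h3, -⟩ := g6_ap_G h h1 ha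
      exact Or.inr ⟨i, h3, h2⟩
  have heq : a = b := by
    by_contra hne
    exact h.ini.host a b hne (key i hi a ha) (key j hj b hb) hab
  subst heq
  refine ⟨rfl, ?_⟩
  rcases g6_BG h hi with h1 | h1
  · obtain ⟨g, hg, h2, h3⟩ := g6_ap_B h h1.1 ha
    rcases g6_BG h hj with h4 | h4
    · obtain ⟨g', hg', h5, h6⟩ := g6_ap_B h h4.1 hb
      have hgg : g = g' := h.til.dj g g' a h3 h6
      subst hgg
      have hcr : ∀ p q : Pt × Pt, p ∈ X.B0 → q ∈ X.B0 → p ≠ (q.2, q.1) := by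
        intro p q hp hq hpq
        have h7 : p.1 = q.2 := by rw [hpq]
        exact h.til.nf.bNe p.1 p.2 q.1 q.2 hp hq h7
      rcases hg with hg | hg
      · rcases hg' with hg' | hg'
        · exact hg.symm.trans hg'
        · exact absurd (hg.symm.trans hg') (hcr i j h1.1 h4.1)
      · rcases hg' with hg' | hg'
        · exact absurd (hg'.symm.trans hg) (hcr j i h4.1 h1.1)
        · have h7 : (i.2, i.1) = (j.2, j.1) := hg.symm.trans hg'
          rw [Prod.mk.injEq] at h7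
          exact Prod.ext h7.2 h7.1
    · obtain ⟨-, h5, -, h6⟩ := g6_ap_G h h4 hb
      have hgg : g = j := h.til.dj g j a h3 h5
      rw [hgg] at h2
      exact absurd h6 h2
  · obtain ⟨-, h5, -, h6⟩ := g6_ap_G h h1 ha
    rcases g6_BG h hj with h4 | h4
    · obtain ⟨g', hg', h7, h8⟩ := g6_ap_B h h4.1 hb
      have hgg : i = g' := h.til.dj i g' a h5 h8
      rw [← hgg] at h7
      exact absurd h6 h7
    · obtain ⟨-, h7, -, -⟩ := g6_ap_G h h4 hb
      exact h.til.dj i j a h5 h7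

theorem g_v5 (h : X.Ok) : ∀ i, Live X.Sx X.Dx i → ∀ a ∈ (X.Z i).ap, a ∈ X.A → a ∈ X.Fr := by
  intro i hi a ha haA
  obtain ⟨g, hg⟩ := g6_ap h hi ha
  have hnR : ¬ Res X.M0 a := h.til.apR g a hg
  have hvs : a ∈ (X.Z i).vs := by
    unfold Zone.ap at ha
    unfold Zone.vs
    rw [List.mem_append] at ha
    simp only [List.mem_cons, List.mem_append]
    tauto
  -- `a` is no base end of `i`
  have hxy : a ≠ (X.Z i).x ∧ a ≠ (X.Z i).y := by
    have hnd := g_nd h i (g6_I h hi)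
    unfold Zone.vs at hnd
    rw [List.nodup_cons] at hnd
    obtain ⟨n1, n2⟩ := hnd
    have n3 : (X.Z i).y ∉ (X.Z i).t.apex ∧ (X.Z i).y ∉ (X.Z i).t'.apex := by
      rw [List.nodup_append] at n2
      obtain ⟨-, n4, n5⟩ := n2
      rw [List.nodup_cons] at n4
      exact ⟨fun hc => n5 _ hc _ List.mem_cons_self rfl, n4.1⟩
    simp only [List.mem_append, List.mem_cons, not_or] at n1
    unfold Zone.ap at ha
    rw [List.mem_append] at ha
    constructor
    · rintro rfl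
      rcases ha with ha | ha
      · exact n1.1 ha
      · exact n1.2.2 ha
    · rintro rfl
      rcases ha with ha | ha
      · exact n3.1 ha
      · exact n3.2 ha
  rcases g_A_cases h a haA with ⟨N, h1, h2, h3, h4⟩ | ⟨h1, -, -, h2⟩
  · rcases h4 with h4 | ⟨h4, h5, h6⟩
    · exact h4.1
    · exfalso
      rcases g_l1' h a haA i (g6_I h hi) hvs with h7 | h7
      · apply hxy.2
        rw [h7, h3, Z_B h1]
      · rw [← h7] at h6
        rcases h6 with h6 | h6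
        · exact hxy.1 h6
        · exact hxy.2 h6
  · exfalso
    rcases h2 with ⟨w, hw, -⟩ | ⟨t, ht, hat, -⟩
    · exact hnR (h.til.nf.bHull a w hw).2.2
    · obtain ⟨g1, g2, g3, g4, t', hG, hgt⟩ := h.til.nf.gAll t ht
      have hmem : a = g1 ∨ a = g2 ∨ a = g3 ∨ a = g4 := by
        rcases hgt with (⟨-, -, e1, e2⟩ | ⟨-, -, e1, e2⟩) | (⟨-, -, e1, e2⟩ | ⟨-, -, e1, e2⟩)
        · rw [e1] at hat
          simp only [Finset.mem_insert, Finset.mem_singleton] at hat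
          tauto
        · rw [e1] at hat
          simp only [Finset.mem_insert, Finset.mem_singleton] at hat
          tauto
        · rw [e2] at hat
          simp only [Finset.mem_insert, Finset.mem_singleton] at hat
          tauto
        · rw [e2] at hat
          simp only [Finset.mem_insert, Finset.mem_singleton] at hat
          tauto
      exact hnR (h.til.nf.gRes g1 g2 g3 g4 hG a hmem).1

end IX

end Pool.Agent.RFX

end

section

set_option autoImplicit false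

/-!
# RFX/Ini : THE INITIAL STATE (MP_72a26e_co) -- helper12

`exists_state` : a tiling `Til` gives an initial state `St S D`, with at most `3 |L|` ring vertices.
-/

namespace Pool.Agent.RFX

open Pool.Agent.RFT

theorem IX.staOk {X : IX} (h : X.Ok) : StaOk X.Sx :=
  ⟨h.til.nf.full, by
    classical
    exact Finset.filter_subset _ _⟩

theorem IX.st {X : IX} (h : X.Ok) : St X.Sx X.Dx where
  reach := IX.g_reach h
  cov := IX.g_cov h
  zC := IX.g_zC h
  EF := IX.g_EF h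
  zE := IX.g_zE h
  zz := IX.g_zz h
  nd := IX.g_nd h
  okt := IX.g_okt h
  bare := IX.g_bare h
  r1 := IX.g_r1 h
  r2 := IX.g_r2 h
  io := IX.g_io h
  f6 := IX.g_f6 h
  f7 := IX.g_f7 h
  f8 := IX.g_f8 h
  a2 := fun i hi e he hs hcl => absurd hcl (IX.g_a2 h i hi e he hs)
  l1 := IX.g_l1 h
  l1' := IX.g_l1' h
  l2 := IX.g_l2 h
  l3 := IX.g_l3 h
  FrA := IX.g_FrA h
  l4 := IX.g_l4 h
  l5 := IX.g_l5 h
  l6 := IX.g_l6 h
  v1 := IX.g_v1 h
  v2 := IX.g_v2 h
  v3 := IX.g_v3 h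
  v4 := IX.g_v4 h
  v5 := IX.g_v5 h

theorem exists_state {P : Finset Pt} {C E0 G0 : Finset (Finset Pt)} {B0 M0 Cl0 : Finset (Pt × Pt)}
    {Gp : Finset (Pt × Pt × Pt × Pt)} {L : Finset Pt} {τ : Pt × Pt → FT}
    (h : Til P C E0 G0 B0 M0 Cl0 Gp L τ) :
    ∃ (S : Sta) (D : Dyn), S.P = P ∧ S.C = C ∧ StaOk S ∧ St S D ∧
      (D.I.biUnion (fun i => (D.Z i).vs.toFinset)).card ≤ 3 * L.card ∧
      (∀ c ∈ S.C, c ∉ S.F → c ∈ E0 ∨ c ∈ G0 ∨
        ∃ g p q a, (p, q, a) ∈ (τ g).ns g.1 g.2 ∧ c = {p, q, a}) := by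
  obtain ⟨E, Cl, gate, hX⟩ := exists_ix h
  refine ⟨_, _, rfl, rfl, IX.staOk hX, IX.st hX, IX.card_RV hX, ?_⟩
  intro c hc hF
  by_contra hcon
  push Not at hcon
  apply hF
  refine IX.mem_F.2 ⟨hc, hcon.1, hcon.2.1, ?_⟩
  rintro ⟨g, p, q, a, h1, h2⟩
  exact hcon.2.2 g p q a h1 h2

end Pool.Agent.RFX

end
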