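import Mathlib
import Pool.Agent.RFM.P12
import Pool.Agent.RFM.P16
import Pool.Agent.RFM.P17
import Pool.Agent.RFM.P18

set_option autoImplicit false

/-!
# RFM/P20 (MP_72a26e_co): the files RFX/NFLse, RFX/NFOut, merged to save build time
-/

section

set_option autoImplicit false

/-!
# RFX/NFLse : loose points of the normal form (MP_72a26e_co)

(`PS.root`, `PS.rootHull`, `HV_of_pred` are in `RFX/NFRoot`, `PS.ls_card` is in `RFX/NFLsC`.)

PROOFS. `pos_out`: if `j = p.1` or `j = p.2` or `j + 1 = p.1` or `j = p.2 + 1` for a petal `p ∈ pet s` then `j` is not strictly inside a petal `q`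
(`PS.sepa`, `PS.size`). `looseU`: `v ∈ P`; cases of `occurs`: `v` in no body: `mem_Ls`; `v` a hull vertex: excluded by
`¬ HV P v`; `v` at a position `j` of `s`: if `j` is not strictly inside a petal: `mem_Ls`; otherwise `InPet`; if `v ≠ Rt` then `PS.res` gives
`Res`, excluded; `v = Rt` and `v` is at the position `p.1` or `p.2` (`left_end`, `right_end`, `PS.type`), which is not strictly inside a petal.
`looseB`: `mem_B0`: `N = ad (p.1-1)` is at the position `p.1`, `w = dr (p.1-1)` at the position `p.1 - 1`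
(`at_iff`, `at_succ_iff`), resp. `N = dr p.2` at `p.2`, `w = ad p.2` at `p.2 + 1`; `pos_out`; `it_mem`.
`looseG`: `g0_in`: positions `p.2` resp. `p.1`; `pos_out`.
-/

namespace Pool.Agent.RFX

open Pool.Agent.RFT

variable {P : Finset Pt} {C Bs : Finset (Finset Pt)} {lab : Pt → ℕ}
  {pet : Pt × Pt → Finset (ℕ × ℕ)} {gaps : Pt × Pt → Finset ℕ}

theorem PS.pos_out (h : PS P C Bs lab pet gaps) {s : Pt × Pt} {p : ℕ × ℕ} (hp : p ∈ pet s)
    {j : ℕ} (hj : j = p.1 ∨ j = p.2 ∨ j + 1 = p.1 ∨ j = p.2 + 1) :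
    ¬ ∃ q ∈ pet s, q.1 < j ∧ j < q.2 := by
  rintro ⟨q, hq, h1, h2⟩
  have z1 := h.size hp
  have z2 := h.size hq
  by_cases hpq : p = q
  · subst hpq
    omega
  · rcases h.sepa hp hq hpq with ⟨h3, _⟩ | ⟨h3, _⟩ <;> omega

/-- a point at a position which is not strictly inside a petal is loose -/
private theorem PS.ls_of_at (h : PS P C Bs lab pet gaps) {s : Pt × Pt} (hs : s ∈ starts P C lab)
    {p : ℕ × ℕ} (hp : p ∈ pet s) {j : ℕ} (hl : j ≤ len C lab s)
    (hj : j = p.1 ∨ j = p.2 ∨ j + 1 = p.1 ∨ j = p.2 + 1) {v : Pt} (hv : AtC C lab s j v) :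
    v ∈ Lsf P C Bs lab pet := by
  have hm := it_mem h.bc hs hl
  refine mem_Ls.2 ⟨?_, Or.inr ⟨s, hs, j, hl, hv, h.pos_out hp hj⟩⟩
  rcases hv with hv | hv
  · rw [hv]; exact hm.1
  · rw [hv]; exact hm.2

theorem PS.looseU (h : PS P C Bs lab pet gaps) : ∀ v ∈ P, ¬ HV P v →
    ¬ Res (M0f P C lab pet gaps) v → v ∈ Lsf P C Bs lab pet := by
  intro v hv hhv hres
  rcases occurs h.bc hv with h1 | ⟨s, hs, j, hj, h2⟩ | ⟨A, hA, a, b, _, _, _, h3⟩
  · exact mem_Ls.2 ⟨hv, Or.inl h1⟩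
  · have hat : AtC C lab s j v := by
      rcases h2 with h2 | h2
      · exact Or.inl h2.symm
      · exact Or.inr h2.symm
    by_cases hin : ∃ p ∈ pet s, p.1 < j ∧ j < p.2
    · obtain ⟨p, hp, h3, h4⟩ := hin
      have z := h.size hp
      have hI : InPet P C lab pet s p v := ⟨hs, hp, j, h3.le, h4.le, hat⟩
      by_cases hR : v = Rt C lab gaps s p
      · by_cases hl : GapL gaps s p
        · have hr : p.2 ∉ gaps s := by
            rcases h.type hp with ⟨t1, _⟩ | ⟨t1, _⟩ | ⟨_, t2, _⟩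
            · exact absurd hl t1
            · exact absurd hl t1
            · exact t2
          exact h.ls_of_at hs hp (j := p.2) (by omega) (Or.inr (Or.inl rfl))
            (((h.right_end hs hp hr).2.2 v).2 (Or.inl hR))
        · exact h.ls_of_at hs hp (j := p.1) (by omega) (Or.inl rfl)
            (((h.left_end hs hp hl).2.2 v).2 (Or.inl hR))
      · exact absurd (h.res ⟨hI, hR⟩) hres
    · exact mem_Ls.2 ⟨hv, Or.inr ⟨s, hs, j, hj, hat, hin⟩⟩
  · exact absurd ⟨b, h3⟩ hhv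

theorem PS.looseB (h : PS P C Bs lab pet gaps) : ∀ N w, (N, w) ∈ B0f P C lab pet gaps →
    N ∈ Lsf P C Bs lab pet ∧ w ∈ Lsf P C Bs lab pet := by
  intro N w hB
  obtain ⟨s, hs, p, hp, h1⟩ := h.mem_B0.1 hB
  have z := h.size hp
  rcases h1 with ⟨hl, h1⟩ | ⟨hr, h1⟩
  · rw [Prod.mk.injEq] at h1
    obtain ⟨rfl, rfl⟩ := h1
    constructor
    · have h2 : AtC C lab s (p.1 - 1 + 1) (ad C lab s (p.1 - 1)) :=
        (at_succ_iff h.bc (by omega)).2 (Or.inr rfl)
      exact h.ls_of_at hs hp (j := p.1 - 1 + 1) (by omega) (Or.inl (by omega)) h2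
    · have h2 : AtC C lab s (p.1 - 1) (dr C lab s (p.1 - 1)) :=
        (at_iff h.bc (by omega)).2 (Or.inl rfl)
      exact h.ls_of_at hs hp (j := p.1 - 1) (by omega) (Or.inr (Or.inr (Or.inl (by omega)))) h2
  · rw [Prod.mk.injEq] at h1
    obtain ⟨rfl, rfl⟩ := h1
    constructor
    · have h2 : AtC C lab s p.2 (dr C lab s p.2) := (at_iff h.bc (by omega)).2 (Or.inl rfl)
      exact h.ls_of_at hs hp (j := p.2) (by omega) (Or.inr (Or.inl rfl)) h2
    · have h2 : AtC C lab s (p.2 + 1) (ad C lab s p.2) :=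
        (at_succ_iff h.bc (by omega)).2 (Or.inr rfl)
      exact h.ls_of_at hs hp (j := p.2 + 1) (by omega) (Or.inr (Or.inr (Or.inr rfl))) h2

theorem PS.looseG (h : PS P C Bs lab pet gaps) : ∀ t ∈ G0f P C lab gaps,
    t ⊆ Lsf P C Bs lab pet := by
  intro t ht v hv
  obtain ⟨s, p, hN, h1⟩ := h.g0_in ht hv
  obtain ⟨⟨hs, hp, _⟩, _⟩ := hN
  have z := h.size hp
  rcases h1 with ⟨_, h1⟩ | ⟨_, h1⟩
  · exact h.ls_of_at hs hp (j := p.2) (by omega) (Or.inr (Or.inl rfl)) h1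
  · exact h.ls_of_at hs hp (j := p.1) (by omega) (Or.inl rfl) h1

end Pool.Agent.RFX

end

section

set_option autoImplicit false

/-!
# RFX/NFOut : the normal form exists (MP_72a26e_co)
-/

namespace Pool.Agent.RFX

open Pool.Agent.RFT

variable {P : Finset Pt} {C Bs : Finset (Finset Pt)} {lab : Pt → ℕ}
  {pet : Pt × Pt → Finset (ℕ × ℕ)} {gaps : Pt × Pt → Finset ℕ}

theorem PS.nf (h : PS P C Bs lab pet gaps) :
    NF P C (E0f P C lab pet) (G0f P C lab gaps) (B0f P C lab pet gaps) (M0f P C lab pet gaps)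
      (Cl0f P C lab pet) (Gpf P C lab gaps) (Lsf P C Bs lab pet) := by
  classical
  have hE0C : ∀ t ∈ E0f P C lab pet, t ∈ C ∧ t.card = 3 := by
    intro t ht
    obtain ⟨s, hs, p, hp, n, h1, h2, rfl⟩ := h.mem_E0.1 ht
    have h3 := h.size hp
    exact tr_mem h.bc (by omega)
  have hG0C : ∀ t ∈ G0f P C lab gaps, t ∈ C ∧ t.card = 3 := by
    intro t ht
    obtain ⟨s, hs, g, hg, h1⟩ := h.mem_G0.1 ht
    have h3 := (h.gap hg).2.2.2
    rcases h1 with rfl | rfl
    · exact tr_mem h.bc (by omega)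
    · exact tr_mem h.bc (by omega)
  refine ⟨h.bc.full, h.reach, fun t ht => (hG0C t ht).1, h.disj, ?_, ?_, ?_, h.side, ?_, ?_, ?_,
    ?_, ?_, ?_, ?_, ?_, ?_, ?_, ?_, ?_, h.gTri, h.gAll, h.gCl, h.gOpen, ?_, h.gNe, h.gDisj,
    h.star, h.blk⟩
  · intro t ht
    rcases Finset.mem_union.1 ht with h1 | h1
    · exact (hE0C t h1).2
    · exact (hG0C t h1).2
  · intro a b
    exact h.mem_Cl0
  · intro a b
    exact h.mem_M0
  · refine ⟨h.pl, ?_, ?_, ?_, ?_⟩
    · intro a b hab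
      exact h.mem_M0.2 (Or.inl (h.mem_Cl0.2 (Or.inl hab)))
    · intro t ht
      rcases Finset.mem_union.1 ht with h1 | h1
      · refine tri_cell h.bc.full (hE0C t h1).1 (hE0C t h1).2 ?_
        intro a b hab
        exact h.mem_M0.2 (Or.inl (h.mem_Cl0.2 (Or.inr (Or.inr ⟨t, h1, Or.inl hab⟩))))
      · refine tri_cell h.bc.full (hG0C t h1).1 (hG0C t h1).2 ?_
        intro a b hab
        exact h.mem_M0.2 (Or.inr (Or.inl ⟨t, h1, Or.inl hab⟩))
    · intro N w hB
      exact h.tip hB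
    · intro N w hB
      exact (h.tipN hB).1
  · intro v hv
    exact (mem_Ls.1 hv).1
  · exact h.looseU
  · exact h.looseB
  · exact h.looseG
  · exact h.root
  · exact h.rootHull
  · intro N w hB
    refine ⟨?_, ?_, (h.tipN hB).1⟩
    · rintro ⟨b, hb⟩
      exact ((h.tipN hB).2 b).1 hb
    · rintro ⟨b, hb⟩
      exact (h.tip_hull hB b).1 hb
  · intro N w N' w' hB hB' ho
    rcases ho with rfl | rfl
    · exact ⟨rfl, h.b_fun hB hB'⟩
    · exact ⟨h.b_inj hB hB', rfl⟩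
  · intro N w N' w' hB hB'
    exact h.b_ne hB hB'
  · intro N w hB
    exact ⟨h.b_e0 hB, h.b_cl hB, h.b_gap hB⟩
  · intro N w hB
    exact h.b_tip hB
  · intro g1 g2 g3 g4 hg v hv
    have h1 := h.gRes g1 g2 g3 g4 hg v hv
    refine ⟨h1.1, ?_⟩
    rintro ⟨b, hb⟩
    exact (h1.2 b).1 hb

/-- the normal form exists, with `O(k)` loose points -/
theorem exists_nf : ∃ K, NFClaim K := by
  refine ⟨4802, ?_⟩
  intro P h3 hG F hF hd
  obtain ⟨C, Bs, lab, pet, gaps, h, hc⟩ := exists_ps h3 hG F hF hd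
  refine ⟨_, _, _, _, _, _, _, _, h.nf, ?_⟩
  have := h.ls_card
  omega

end Pool.Agent.RFX

end
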