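import Mathlib
import Pool.Agent.RFM.P03
import Pool.Agent.RFM.P09
import Pool.Agent.RFM.P12
import Pool.Agent.RFM.P13
import Pool.Agent.RFM.P17
import Pool.Agent.RFM.P18
import Pool.Agent.RFM.P19

set_option autoImplicit false

/-!
# RFM/P21 (MP_72a26e_co): the files RFX/StAsm, RFX/Main, merged to save build time
-/

section

set_option autoImplicit false

/-!
# RFX/StAsm : from a state to the complex of Target2 (MP_72a26e_co)

`P` = all points, `S.P` = touched points. Crossing, finish and assembly in one theorem.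
-/

namespace Pool.Agent.RFX

/-- the ring vertices of all zones -/
noncomputable def ringV (D : Dyn) : Finset Pt :=
  open Classical in D.I.biUnion (fun i => (D.Z i).vs.toFinset)

theorem mem_ringV (D : Dyn) (v : Pt) : v ∈ ringV D ↔ ∃ i ∈ D.I, v ∈ (D.Z i).vs := by
  classical
  unfold ringV
  simp only [Finset.mem_biUnion, List.mem_toFinset]

theorem st_asm {S : Sta} {D : Dyn} (hS : StaOk S) (h : St S D) (P : Finset Pt) (hG : Gen P)
    (h3 : 3 ≤ S.P.card) (hP : S.P ⊆ P)
    (hhull : ∀ s ∈ P, s ∈ convexHull ℝ (S.P : Set Pt))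
    (hempty : ∀ c ∈ S.C, c ∉ S.F → ∀ s ∈ P, s ∈ convexHull ℝ (c : Set Pt) → s ∈ S.P) :
    ∃ T : Finset (Finset Pt), Cx T ∧ T.Nonempty ∧ Conn T ∧ V T = P ∧
      ∑ t ∈ T, (t.card - 2) + 2 = P.card ∧
      (multi P T).card ≤ (ringV D).card + 6 * (P \ S.P).card := by
  classical
  have hG1 : Gen S.P := hG.mono hP
  obtain ⟨D', h', hconst, hI, hring⟩ := crossing_done hS hG1 h
  obtain ⟨C', Cl', g1, g2, g3, g4, g5, g6, g7⟩ := h'.finish hS hG1 h3 hconst
  have hinv := h'.reach.inv hS.full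
  obtain ⟨T, t1, t2, t3, t4, t5, t6⟩ := asm P S.P hG h3 hP g1 g2 g3 g4 (by
    intro s hs hs1
    obtain ⟨t, ht, hst⟩ := g1.cover hG1 h3 (hhull s hs)
    have htE : t ∉ D'.E := by
      intro hE
      exact hs1 (hempty t (hinv.sub hE) (h'.EF t hE) s hs hst)
    have htH : t ∉ HdOf D' := by
      intro hH
      obtain ⟨i, hi, hc⟩ := (mem_HdOf D' t).1 hH
      exact hs1 (hempty t (h'.zC i hi hc) (h'.zE i hi t hc).2 s hs hst)
    exact ⟨t, Finset.mem_sdiff.2 ⟨ht, htE⟩, htH, hst, (g7 t ht htE htH).2⟩)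
  refine ⟨T, t1, t2, t3, t4, t5, t6.trans ?_⟩
  have hsub : (openSides C' Cl').image Prod.fst ⊆ ringV D := by
    intro v hv
    rw [Finset.mem_image] at hv
    obtain ⟨p, hp, rfl⟩ := hv
    obtain ⟨i, hi, hv⟩ := g5 p hp
    exact (mem_ringV D p.1).2 ⟨i, hI hi, hring i hi p.1 hv⟩
  have := Finset.card_le_card hsub
  omega

end Pool.Agent.RFX

end

section

set_option autoImplicit false

/-!
# RFX/Main : the whole chain (MP_72a26e_co)

normal form -> funnels -> faces (`til_of`) -> initial state (`exists_state`) -> main loop, finish,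
assembly (`st_asm`) -> `Target2`.
-/

namespace Pool.Agent.RFX

open Pool.Agent.RFT

theorem target2_of_nf {K : ℕ} (hNF : NFClaim K) : Target2 (9 * K) := by
  intro P h3 hG F hF hdisj
  obtain ⟨C0, E0, G0, B0, M0, Cl0, Gp, L, hN, hL⟩ := hNF P h3 hG F hF hdisj
  obtain ⟨P1, C, τ, hP1, hL1, hhe, hT, he1, he2⟩ := til_of hG h3 hN
  obtain ⟨S, D, hSP, hSC, hSok, hSt, hcard, hcl⟩ := exists_state hT
  subst hSP hSC
  obtain ⟨T, t1, t2, t3, t4, t5, t6⟩ := st_asm hSok hSt P hG hT.three hP1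
    (hull_of_he hG h3 (fun a b hab => (hhe a b).2 hab)) (by
      intro c hc hcF s hs hsc
      have hcP : c ⊆ S.P := hSok.full.sub hc
      rcases hcl c hc hcF with h1 | h1 | ⟨g, p, q, a, h1, rfl⟩
      · exact hcP (he1 c (Finset.mem_union_left _ h1) s hs hsc)
      · exact hcP (he1 c (Finset.mem_union_right _ h1) s hs hsc)
      · apply hcP
        rcases he2 g p q a h1 s hs hsc with rfl | rfl | rfl <;> simp)
  refine ⟨T, t1, t2, t3, t4, t5, t6.trans ?_⟩
  have e1 : (P \ S.P).card ≤ L.card := Finset.card_le_card hL1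
  have e2 : (L ∩ S.P).card ≤ L.card := Finset.card_le_card Finset.inter_subset_left
  have e3 : (ringV D).card ≤ 3 * (L ∩ S.P).card := hcard
  nlinarith

end Pool.Agent.RFX

end
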